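import Pool.Agent.MP_bc14e1_gt.Stmt
import Mathlib
import Pool.Agent.MP_4f4d9f_gt.Cone
import Pool.Agent.MP_4f4d9f_gt.SubdivGen

section

/-! The definitions of the statement written out in dimensions two and four. -/

open Set Metric
open scoped Manifold ContDiff

namespace Pool.Agent.MP_bc14e1_gt

/-- `K ⊆ S³` is smoothly slice: it bounds a smoothly and properly embedded disc in `B⁴` that is
transverse to the boundary sphere. -/
def Slice (K : Set (E 4)) : Prop :=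
  ∃ d : E 2 → E 4, (∀ x ∈ closedBall (0 : E 2) 1, ContDiffAt ℝ ∞ d x) ∧
    InjOn d (closedBall 0 1) ∧
    (∀ x ∈ closedBall (0 : E 2) 1, Function.Injective (fderiv ℝ d x)) ∧
    (∀ x ∈ ball (0 : E 2) 1, ‖d x‖ < 1) ∧ d '' sphere 0 1 = K ∧
    ∀ u ∈ sphere (0 : E 2) 1, 0 < deriv (fun r : ℝ => ‖d (r • u)‖) 1

/-- `K ⊆ S³` bounds a disc as in the definition of `0`-positive (`ε = 1`) or `0`-negative
(`ε = -1`) knots. The `4`-manifold `V` with boundary `S³` is written as the complement of the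
open unit ball of a smooth chart `c` in a closed smooth oriented `4`-manifold `W`. -/
def ZeroSign (ε : ℤ) (K : Set (E 4)) : Prop :=
  ∃ (W : Type) (_ : TopologicalSpace W) (_ : T2Space W) (_ : CompactSpace W)
    (_ : ChartedSpace (E 4) W) (_ : IsManifold (𝓡 4) ∞ W) (o : Orientation4 W)
    (c : OpenPartialHomeomorph W (E 4)) (V : Set W) (d : E 2 → W) (k : ℕ)
    (S : Fin k → (Sing W 2 →₀ ℤ)),
    c ∈ IsManifold.maximalAtlas (𝓡 4) ∞ W ∧ closedBall 0 1 ⊆ c.target ∧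
    V = (c.symm '' ball 0 1)ᶜ ∧ SimplyConnectedSpace V ∧
    (∀ x ∈ closedBall (0 : E 2) 1, ContMDiffAt (𝓡 2) (𝓡 4) ∞ d x) ∧
    InjOn d (closedBall 0 1) ∧
    (∀ x ∈ closedBall (0 : E 2) 1, Function.Injective (mfderiv (𝓡 2) (𝓡 4) d x)) ∧
    (∀ x ∈ ball (0 : E 2) 1, d x ∉ c.symm '' closedBall 0 1) ∧
    d '' sphere 0 1 = c.symm '' K ∧
    (∀ u ∈ sphere (0 : E 2) 1, deriv (fun r : ℝ => ‖c (d (r • u))‖) 1 < 0) ∧
    (∀ i, S i ∈ supp ℤ (V \ d '' closedBall 0 1) 2 ∧ bd ℤ W 1 (S i) = 0) ∧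
    (∀ z ∈ supp ℤ V 2, bd ℤ W 1 z = 0 → ∃! n : Fin k → ℤ, Null V ∅ 2 (z - ∑ i, n i • S i)) ∧
    ∀ i j, InterNum o (S i) (S j) (if i = j then ε else 0)

/-- `K ⊆ S³` is strongly positive amphichiral: an orientation reversing linear involution of `S³`
maps `K` to itself without fixed points on `K` (so it preserves the orientation of `K`). -/
def StrongPosAmph (K : Set (E 4)) : Prop :=
  ∃ ι : E 4 ≃ₗᵢ[ℝ] E 4, (∀ x, ι (ι x) = x) ∧
    LinearMap.det (ι.toLinearEquiv : E 4 →ₗ[ℝ] E 4) = -1 ∧ ι '' K = K ∧ ∀ x ∈ K, ι x ≠ x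

theorem slc_iff {K : Set (E 4)} : Slc (E 2) K ↔ Slice K := Iff.rfl

theorem ZeroSgn.zeroSign {ε : ℤ} {K : Set (E 4)} (h : ZeroSgn (E 2) ε K) : ZeroSign ε K := by
  obtain ⟨W, _, _, _, _, _, o, c, V, d, k, S, h1, h2, h3, h4, ⟨h5, h6, h7, h8, h9, h10⟩, h11, h12,
    h13⟩ := h
  exact ⟨W, _, ‹_›, ‹_›, _, ‹_›, o, c, V, d, k, S, h1, h2, h3, h4, h5, h6, h7, h8, h9, h10, h11,
    h12, h13⟩

end Pool.Agent.MP_bc14e1_gt

end

section

/-! The shuffle product and its commutativity homotopy on lists of vertices. -/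

open Finsupp
open scoped Classical

namespace Pool.Agent.MP_bc14e1_gt

noncomputable section

/-- Ordered chains on a set of vertices, augmented by the empty list. -/
abbrev Kit_O (V : Type) : Type := List V →₀ ℤ

variable {V W V' W' : Type}

def Kit_cons (v : V) : Kit_O V →ₗ[ℤ] Kit_O V := lmapDomain ℤ ℤ (List.cons v)

def Kit_mp (f : V → W) : Kit_O V →ₗ[ℤ] Kit_O W := lmapDomain ℤ ℤ (List.map f)

def Kit_Dl : List V → Kit_O V
  | [] => 0
  | v :: l => single l 1 - Kit_cons v (Kit_Dl l)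

def Kit_D : Kit_O V →ₗ[ℤ] Kit_O V := linearCombination ℤ Kit_Dl

def Kit_e : Kit_O V →ₗ[ℤ] Kit_O V :=
  linearCombination ℤ fun l : List V => ((-1 : ℤ) ^ l.length) • single l (1 : ℤ)

def Kit_z : Kit_O V →ₗ[ℤ] ℤ := lapply []

def Kit_G (V : Type) (n : ℕ) : Submodule ℤ (Kit_O V) := supported ℤ ℤ {l | l.length = n}

theorem Kit_ind {P : Kit_O V → Prop} (h0 : P 0) (hadd : ∀ a b, P a → P b → P (a + b))
    (hs : ∀ (n : ℤ) a, P a → P (n • a)) (h1 : ∀ l, P (single l 1)) (c : Kit_O V) : P c := by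
  induction c using Finsupp.induction_linear with
  | zero => exact h0
  | add a b ha hb => exact hadd a b ha hb
  | single l n => simpa using hs n _ (h1 l)

theorem Kit_Gind {n : ℕ} {P : Kit_O V → Prop} (h0 : P 0) (hadd : ∀ a b, P a → P b → P (a + b))
    (hs : ∀ (n : ℤ) a, P a → P (n • a)) (h1 : ∀ l : List V, l.length = n → P (single l 1))
    {c : Kit_O V} (hc : c ∈ Kit_G V n) : P c := by
  rw [← c.sum_single, Finsupp.sum]
  refine Finset.sum_induction _ P hadd h0 fun l hl => ?_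
  simpa using hs (c l) _ (h1 l ((mem_supported ℤ c).1 hc hl))

theorem Kit_single_mem (l : List V) {n : ℕ} (h : l.length = n) : single l (1 : ℤ) ∈ Kit_G V n :=
  single_mem_supported ℤ _ h

@[simp] theorem Kit_cons_single (v : V) (l : List V) (n : ℤ) :
    Kit_cons v (single l n) = single (v :: l) n := by simp [Kit_cons]

@[simp] theorem Kit_mp_single (f : V → W) (l : List V) (n : ℤ) :
    Kit_mp f (single l n) = single (l.map f) n := by simp [Kit_mp]

theorem Kit_D_single (l : List V) : Kit_D (single l 1) = Kit_Dl l := by simp [Kit_D]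

theorem Kit_e_single (l : List V) :
    Kit_e (single l 1) = ((-1 : ℤ) ^ l.length) • single l (1 : ℤ) := by simp [Kit_e]

@[simp] theorem Kit_D_nil : Kit_D (single ([] : List V) 1) = 0 := by rw [Kit_D_single]; rfl

theorem Kit_D_cons (v : V) (c : Kit_O V) : Kit_D (Kit_cons v c) = c - Kit_cons v (Kit_D c) := by
  induction c using Kit_ind with
  | h0 => simp
  | hadd a b ha hb => simp only [map_add, ha, hb]; abel
  | hs n a ha => simp only [map_smul, ha, smul_sub]
  | h1 l => rw [Kit_cons_single, Kit_D_single, Kit_D_single]; rfl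

theorem Kit_D_single_cons (v : V) (l : List V) :
    Kit_D (single (v :: l) 1) = single l 1 - Kit_cons v (Kit_D (single l 1)) := by
  rw [← Kit_cons_single, Kit_D_cons]

theorem Kit_D_D (c : Kit_O V) : Kit_D (Kit_D c) = 0 := by
  induction c using Kit_ind with
  | h0 => simp
  | hadd a b ha hb => simp only [map_add, ha, hb, add_zero]
  | hs n a ha => simp only [map_smul, ha, smul_zero]
  | h1 l =>
    induction l with
    | nil => simp
    | cons v l ih => rw [Kit_D_single_cons, map_sub, Kit_D_cons, ih]; simp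

@[simp] theorem Kit_z_cons (v : V) (c : Kit_O V) : Kit_z (Kit_cons v c) = 0 := by
  induction c using Kit_ind with
  | h0 => simp
  | hadd a b ha hb => simp only [map_add, ha, hb, add_zero]
  | hs n a ha => simp only [map_smul, ha, smul_zero]
  | h1 l => simp [Kit_z]

theorem Kit_z_single (l : List V) : Kit_z (single l (1 : ℤ)) = if l = [] then 1 else 0 := by
  simp [Kit_z, single_apply]

theorem Kit_mp_cons (f : V → W) (v : V) (c : Kit_O V) :
    Kit_mp f (Kit_cons v c) = Kit_cons (f v) (Kit_mp f c) := by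
  induction c using Kit_ind with
  | h0 => simp
  | hadd a b ha hb => simp only [map_add, ha, hb]
  | hs n a ha => simp only [map_smul, ha]
  | h1 l => simp

theorem Kit_mp_mp {U : Type} (g : W → U) (f : V → W) (c : Kit_O V) :
    Kit_mp g (Kit_mp f c) = Kit_mp (g ∘ f) c := by
  induction c using Kit_ind with
  | h0 => simp
  | hadd a b ha hb => simp only [map_add, ha, hb]
  | hs n a ha => simp only [map_smul, ha]
  | h1 l => simp

theorem Kit_mp_D (f : V → W) (c : Kit_O V) : Kit_mp f (Kit_D c) = Kit_D (Kit_mp f c) := by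
  induction c using Kit_ind with
  | h0 => simp
  | hadd a b ha hb => simp only [map_add, ha, hb]
  | hs n a ha => simp only [map_smul, ha]
  | h1 l =>
    induction l with
    | nil => simp
    | cons v l ih =>
      rw [Kit_D_single_cons, map_sub, Kit_mp_cons, ih, Kit_mp_single, Kit_mp_single,
        List.map_cons, Kit_D_single_cons]

theorem Kit_cons_mem (v : V) {n : ℕ} {c : Kit_O V} (hc : c ∈ Kit_G V n) :
    Kit_cons v c ∈ Kit_G V (n + 1) := by
  refine Kit_Gind (P := fun c => Kit_cons v c ∈ Kit_G V (n + 1)) (by simp) ?_ ?_ ?_ hc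
  · intro a b ha hb; rw [map_add]; exact add_mem ha hb
  · intro k a ha; rw [map_smul]; exact Submodule.smul_mem _ _ ha
  · intro l hl; rw [Kit_cons_single]; exact Kit_single_mem _ (by simp [hl])

theorem Kit_mp_mem (f : V → W) {n : ℕ} {c : Kit_O V} (hc : c ∈ Kit_G V n) :
    Kit_mp f c ∈ Kit_G W n := by
  refine Kit_Gind (P := fun c => Kit_mp f c ∈ Kit_G W n) (by simp) ?_ ?_ ?_ hc
  · intro a b ha hb; rw [map_add]; exact add_mem ha hb
  · intro k a ha; rw [map_smul]; exact Submodule.smul_mem _ _ ha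
  · intro l hl; rw [Kit_mp_single]; exact Kit_single_mem _ (by simp [hl])

theorem Kit_D_mem' (l : List V) : Kit_D (single l 1) ∈ Kit_G V (l.length - 1) := by
  induction l with
  | nil => simp
  | cons v l ih =>
    rw [Kit_D_single_cons]
    refine sub_mem (Kit_single_mem _ (by simp)) ?_
    rcases l with _ | ⟨w, l⟩
    · simp
    · exact Kit_cons_mem v ih

theorem Kit_D_mem {n : ℕ} {c : Kit_O V} (hc : c ∈ Kit_G V (n + 1)) : Kit_D c ∈ Kit_G V n := by
  refine Kit_Gind (P := fun c => Kit_D c ∈ Kit_G V n) (by simp) ?_ ?_ ?_ hc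
  · intro a b ha hb; rw [map_add]; exact add_mem ha hb
  · intro k a ha; rw [map_smul]; exact Submodule.smul_mem _ _ ha
  · intro l hl; simpa [hl] using Kit_D_mem' l

theorem Kit_e_of_mem {n : ℕ} {c : Kit_O V} (hc : c ∈ Kit_G V n) :
    Kit_e c = ((-1 : ℤ) ^ n) • c := by
  refine Kit_Gind (P := fun c => Kit_e c = ((-1 : ℤ) ^ n) • c) (by simp) ?_ ?_ ?_ hc
  · intro a b ha hb; rw [map_add, ha, hb, smul_add]
  · intro k a ha; rw [map_smul, ha, smul_comm]
  · intro l hl; rw [Kit_e_single, hl]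

theorem Kit_e_D (l : List V) :
    Kit_e (Kit_D (single l 1)) = -((-1 : ℤ) ^ l.length) • Kit_D (single l 1) := by
  rcases l with _ | ⟨v, l⟩
  · simp
  · rw [Kit_e_of_mem (Kit_D_mem' _)]; simp [pow_succ]

theorem Kit_D_ofFn {n : ℕ} (v : Fin (n + 1) → V) :
    Kit_D (single (List.ofFn v) 1) =
      ∑ i : Fin (n + 1), ((-1 : ℤ) ^ (i : ℕ)) • single (List.ofFn (v ∘ i.succAbove)) (1 : ℤ) := by
  induction n with
  | zero => rw [List.ofFn_succ, Kit_D_single_cons]; simp
  | succ n ih =>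
    rw [List.ofFn_succ, Kit_D_single_cons, ih, Fin.sum_univ_succ (n := n + 1), map_sum,
      sub_eq_add_neg, ← Finset.sum_neg_distrib]
    congr 1
    · simp [Function.comp_def]
    · refine Finset.sum_congr rfl fun i _ => ?_
      rw [map_smul, Kit_cons_single, List.ofFn_succ (f := v ∘ i.succ.succAbove), Fin.val_succ,
        pow_succ, ← neg_smul]
      simp [Function.comp_def]

/-- The shuffle product of two lists. -/
def Kit_shl : List V → List W → Kit_O (V × W)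
  | [], _ => 0
  | _ :: _, [] => 0
  | a :: a', b :: b' => Kit_cons (a, b) (Kit_shl a' (b :: b') +
      ((-1 : ℤ) ^ a'.length) • Kit_shl (a :: a') b' +
      (Kit_z (single a' 1) * Kit_z (single b' 1)) • single [] 1)
termination_by a b => a.length + b.length

/-- The bilinear extension of a function of two lists. -/
def Kit_bl {M : Type} [AddCommGroup M] (F : List V → List W → M) :
    Kit_O V →ₗ[ℤ] Kit_O W →ₗ[ℤ] M :=
  linearCombination ℤ fun a => linearCombination ℤ (F a)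

theorem Kit_bl_single {M : Type} [AddCommGroup M] (F : List V → List W → M) (a : List V)
    (b : List W) : Kit_bl F (single a 1) (single b 1) = F a b := by simp [Kit_bl]

theorem Kit_ext2 {M : Type} [AddCommGroup M] {F G : Kit_O V → Kit_O W → M}
    (F1 : ∀ v, IsLinearMap ℤ fun u => F u v) (F2 : ∀ u, IsLinearMap ℤ (F u))
    (G1 : ∀ v, IsLinearMap ℤ fun u => G u v) (G2 : ∀ u, IsLinearMap ℤ (G u))
    (h : ∀ a b, F (single a 1) (single b 1) = G (single a 1) (single b 1)) (u : Kit_O V)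
    (v : Kit_O W) : F u v = G u v := by
  induction u using Kit_ind with
  | h0 => exact ((F1 v).map_zero).trans ((G1 v).map_zero).symm
  | hadd a b ha hb => exact ((F1 v).map_add a b).trans (by rw [ha, hb, ← (G1 v).map_add])
  | hs n a ha => exact ((F1 v).map_smul n a).trans (by rw [ha, ← (G1 v).map_smul])
  | h1 a =>
    induction v using Kit_ind with
    | h0 => exact ((F2 _).map_zero).trans ((G2 _).map_zero).symm
    | hadd c d hc hd => rw [(F2 _).map_add, (G2 _).map_add, hc, hd]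
    | hs n c hc => rw [(F2 _).map_smul, (G2 _).map_smul, hc]
    | h1 b => exact h a b

def Kit_sh : Kit_O V →ₗ[ℤ] Kit_O W →ₗ[ℤ] Kit_O (V × W) := Kit_bl Kit_shl

@[simp] theorem Kit_sh_nil (v : Kit_O W) : Kit_sh (single ([] : List V) 1) v = 0 := by
  induction v using Kit_ind with
  | h0 => simp
  | hadd a b ha hb => simp only [map_add, ha, hb, add_zero]
  | hs n a ha => simp only [map_smul, ha, smul_zero]
  | h1 l => rw [Kit_sh, Kit_bl_single, Kit_shl]

@[simp] theorem Kit_sh_nil' (u : Kit_O V) : Kit_sh u (single ([] : List W) 1) = 0 := by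
  induction u using Kit_ind with
  | h0 => simp
  | hadd a b ha hb => simp only [map_add, LinearMap.add_apply, ha, hb, add_zero]
  | hs n a ha => simp only [map_smul, LinearMap.smul_apply, ha, smul_zero]
  | h1 l => rw [Kit_sh, Kit_bl_single]; rcases l with _ | ⟨a, l⟩ <;> rw [Kit_shl]

theorem Kit_sh_cc (a : V) (a' : List V) (b : W) (b' : List W) :
    Kit_sh (single (a :: a') 1) (single (b :: b') 1) =
      Kit_cons (a, b) (Kit_sh (single a' 1) (single (b :: b') 1) +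
        ((-1 : ℤ) ^ a'.length) • Kit_sh (single (a :: a') 1) (single b' 1) +
        (Kit_z (single a' 1) * Kit_z (single b' 1)) • single [] 1) := by
  simp only [Kit_sh, Kit_bl_single]
  rw [Kit_shl]

theorem Kit_sh_cons (a : V) (b : W) (u : Kit_O V) (v : Kit_O W) :
    Kit_sh (Kit_cons a u) (Kit_cons b v) = Kit_cons (a, b) (Kit_sh u (Kit_cons b v) +
      Kit_sh (Kit_cons a (Kit_e u)) v + (Kit_z u * Kit_z v) • single [] 1) := by
  refine Kit_ext2 (F := fun u v => Kit_sh (Kit_cons a u) (Kit_cons b v))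
    (G := fun u v => Kit_cons (a, b) (Kit_sh u (Kit_cons b v) +
      Kit_sh (Kit_cons a (Kit_e u)) v + (Kit_z u * Kit_z v) • single [] 1)) ?_ ?_ ?_ ?_ ?_ u v
  · exact fun v => ⟨by simp, by simp⟩
  · exact fun u => ⟨by simp, by simp⟩
  · refine fun v => ⟨fun x y => ?_, fun c x => ?_⟩
    · simp only [map_add, LinearMap.add_apply, add_mul, add_smul]; abel
    · simp only [map_add, map_smul, LinearMap.smul_apply, smul_add, smul_eq_mul, mul_assoc,
        mul_smul]
  · refine fun u => ⟨fun x y => ?_, fun c x => ?_⟩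
    · simp only [map_add, mul_add, add_smul]; abel
    · simp only [map_add, map_smul, smul_add, smul_eq_mul, mul_left_comm _ c, mul_smul]
  · intro a' b'
    simp only [Kit_cons_single, Kit_e_single, map_smul, LinearMap.smul_apply]
    exact Kit_sh_cc a a' b b'

theorem Kit_list2 {P : List V → List W → Prop} (h1 : ∀ b, P [] b) (h2 : ∀ a, P a [])
    (h : ∀ a a' b b', P a' (b :: b') → P (a :: a') b' → P (a :: a') (b :: b')) (a : List V)
    (b : List W) : P a b := by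
  induction a generalizing b with
  | nil => exact h1 b
  | cons a a' iha =>
    induction b with
    | nil => exact h2 _
    | cons b b' ihb => exact h a a' b b' (iha _) ihb

theorem Kit_leib (a : List V) (b : List W) :
    Kit_D (Kit_sh (single a 1) (single b 1)) = Kit_sh (Kit_D (single a 1)) (single b 1) -
      ((-1 : ℤ) ^ a.length) • Kit_sh (single a 1) (Kit_D (single b 1)) +
      (Kit_z (Kit_D (single a 1)) * Kit_z (Kit_D (single b 1))) • single [] 1 := by
  induction a, b using Kit_list2 with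
  | h1 b => simp
  | h2 a => simp
  | h a a' b b' iha ihb =>
    have e1 := Kit_sh_cons a b (Kit_D (single a' 1)) (single b' 1)
    have e2 := Kit_sh_cons a b (single a' 1) (Kit_D (single b' 1))
    rw [Kit_e_D, Kit_cons_single] at e1
    rw [Kit_e_single, map_smul, Kit_cons_single] at e2
    rw [Kit_sh_cc, Kit_D_cons, Kit_D.map_add, Kit_D.map_add, Kit_D.map_smul, Kit_D.map_smul, iha,
      ihb]
    simp only [Kit_D_single_cons, map_sub, LinearMap.sub_apply, Kit_z_cons, sub_zero, Kit_D_nil,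
      List.length_cons, pow_succ, e1, e2, map_add, map_smul, LinearMap.smul_apply, smul_zero,
      add_zero]
    simp only [smul_smul, smul_add, smul_sub]
    module

theorem Kit_sh_mem' (a : List V) (b : List W) :
    Kit_sh (single a 1) (single b 1) ∈ Kit_G (V × W) (a.length + b.length - 1) := by
  induction a, b using Kit_list2 with
  | h1 b => simp
  | h2 a => simp
  | h a a' b b' iha ihb =>
    rw [Kit_sh_cc]
    have e : (a :: a').length + (b :: b').length - 1 = a'.length + b'.length + 1 := by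
      simp; omega
    rw [e]
    refine Kit_cons_mem _ (add_mem (add_mem ?_ (Submodule.smul_mem _ _ ?_)) ?_)
    · simpa using iha
    · have e : (a :: a').length + b'.length - 1 = a'.length + b'.length := by simp
      rwa [e] at ihb
    · rw [Kit_z_single, Kit_z_single]
      split_ifs with h1 h2
      · subst h1 h2; exact Submodule.smul_mem _ _ (Kit_single_mem _ rfl)
      all_goals simp

theorem Kit_sh_nat (f : V → V') (g : W → W') (u : Kit_O V) (v : Kit_O W) :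
    Kit_mp (Prod.map f g) (Kit_sh u v) = Kit_sh (Kit_mp f u) (Kit_mp g v) := by
  refine Kit_ext2 (F := fun u v => Kit_mp (Prod.map f g) (Kit_sh u v))
    (G := fun u v => Kit_sh (Kit_mp f u) (Kit_mp g v)) (fun v => ⟨by simp, by simp⟩)
    (fun v => ⟨by simp, by simp⟩) (fun v => ⟨by simp, by simp⟩) (fun v => ⟨by simp, by simp⟩)
    ?_ u v
  intro a b
  induction a, b using Kit_list2 with
  | h1 b => simp
  | h2 a => simp
  | h a a' b b' iha ihb =>
    rw [Kit_sh_cc, Kit_mp_cons, (Kit_mp _).map_add, (Kit_mp _).map_add, (Kit_mp _).map_smul,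
      (Kit_mp _).map_smul, iha, ihb]
    simp only [Kit_mp_single, List.map_cons, List.map_nil]
    rw [Kit_sh_cc]
    simp [Kit_z_single]

theorem Kit_sh_pt (a : V) (l : List V) (b : W) :
    Kit_sh (single (a :: l) 1) (single [b] 1) = single ((a :: l).map fun x => (x, b)) 1 := by
  induction l generalizing a with
  | nil => rw [Kit_sh_cc]; simp [Kit_z_single]
  | cons c l ih => rw [Kit_sh_cc, ih]; simp [Kit_z_single]

theorem Kit_pt_sh (a : V) (b : W) (l : List W) :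
    Kit_sh (single [a] 1) (single (b :: l) 1) = single ((b :: l).map fun y => (a, y)) 1 := by
  induction l generalizing b with
  | nil => rw [Kit_sh_cc]; simp [Kit_z_single]
  | cons c l ih => rw [Kit_sh_cc, ih]; simp [Kit_z_single]

theorem Kit_sh_mem {p q : ℕ} {u : Kit_O V} {v : Kit_O W} (hu : u ∈ Kit_G V p)
    (hv : v ∈ Kit_G W q) : Kit_sh u v ∈ Kit_G (V × W) (p + q - 1) := by
  refine Kit_Gind (P := fun u => Kit_sh u v ∈ Kit_G (V × W) (p + q - 1)) (by simp) ?_ ?_ ?_ hu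
  · intro a b ha hb; rw [map_add]; exact add_mem ha hb
  · intro k a ha; rw [map_smul]; exact Submodule.smul_mem _ _ ha
  intro a ha
  refine Kit_Gind (P := fun v => Kit_sh (single a 1) v ∈ Kit_G (V × W) (p + q - 1)) (by simp)
    ?_ ?_ ?_ hv
  · intro a b ha hb; rw [map_add]; exact add_mem ha hb
  · intro k a ha; rw [map_smul]; exact Submodule.smul_mem _ _ ha
  intro b hb
  rw [← ha, ← hb]; exact Kit_sh_mem' a b

/-- The defect of commutativity. -/
def Kit_Ph (s : ℤ) (u : Kit_O V) (v : Kit_O W) : Kit_O (V × W) :=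
  Kit_sh u v - s • Kit_mp Prod.swap (Kit_sh v u)

/-- The cone over the pair of first vertices. -/
def Kit_hd : List V → List W → Kit_O (V × W) →ₗ[ℤ] Kit_O (V × W)
  | a :: _, b :: _ => Kit_cons (a, b)
  | _, _ => 0

/-- The commutativity homotopy, indexed by the lengths of the lists. -/
def Kit_w : ℕ → ℕ → Kit_O V →ₗ[ℤ] Kit_O W →ₗ[ℤ] Kit_O (V × W)
  | 0, _ => 0
  | _ + 1, 0 => 0
  | p + 1, q + 1 => Kit_bl fun a b => Kit_hd a b
      (Kit_Ph ((-1) ^ (p * q)) (single a 1) (single b 1) -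
        Kit_w p (q + 1) (Kit_D (single a 1)) (single b 1) -
        ((-1 : ℤ) ^ p) • Kit_w (p + 1) q (single a 1) (Kit_D (single b 1)))
termination_by p q => p + q

@[simp] theorem Kit_w_zero (q : ℕ) :
    (Kit_w 0 q : Kit_O V →ₗ[ℤ] Kit_O W →ₗ[ℤ] Kit_O (V × W)) = 0 := by rw [Kit_w]

@[simp] theorem Kit_w_zero' (p : ℕ) :
    (Kit_w p 0 : Kit_O V →ₗ[ℤ] Kit_O W →ₗ[ℤ] Kit_O (V × W)) = 0 := by
  rcases p with _ | p <;> rw [Kit_w]

theorem Kit_w_ss (p q : ℕ) (a : List V) (b : List W) :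
    Kit_w (p + 1) (q + 1) (single a 1) (single b 1) = Kit_hd a b
      (Kit_Ph ((-1) ^ (p * q)) (single a 1) (single b 1) -
        Kit_w p (q + 1) (Kit_D (single a 1)) (single b 1) -
        ((-1 : ℤ) ^ p) • Kit_w (p + 1) q (single a 1) (Kit_D (single b 1))) := by
  rw [Kit_w, Kit_bl_single]

theorem Kit_nat2 {P : ℕ → ℕ → Prop} (h1 : ∀ q, P 0 q) (h2 : ∀ p, P p 0)
    (h : ∀ p q, P p (q + 1) → P (p + 1) q → P (p + 1) (q + 1)) (p q : ℕ) : P p q := by
  induction p generalizing q with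
  | zero => exact h1 q
  | succ p ihp =>
    induction q with
    | zero => exact h2 _
    | succ q ihq => exact h p q (ihp _) ihq

theorem Kit_Gind2 {p q : ℕ} {P : Kit_O V → Kit_O W → Prop} (h0 : ∀ v, P 0 v) (h0' : ∀ u, P u 0)
    (hadd : ∀ a b v, P a v → P b v → P (a + b) v) (hadd' : ∀ u a b, P u a → P u b → P u (a + b))
    (hs : ∀ (n : ℤ) a v, P a v → P (n • a) v) (hs' : ∀ (n : ℤ) u a, P u a → P u (n • a))
    (h1 : ∀ (a : List V) (b : List W), a.length = p → b.length = q → P (single a 1) (single b 1))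
    {u : Kit_O V} {v : Kit_O W} (hu : u ∈ Kit_G V p) (hv : v ∈ Kit_G W q) : P u v :=
  Kit_Gind (P := fun u => P u v) (h0 v) (fun a b => hadd a b v) (fun n a => hs n a v)
    (fun a ha => Kit_Gind (P := fun v => P (single a 1) v) (h0' _) (hadd' _) (fun n => hs' n _)
      (fun b hb => h1 a b ha hb) hv) hu

theorem Kit_w_mem (p q : ℕ) : ∀ u ∈ Kit_G V p, ∀ v ∈ Kit_G W q,
    Kit_w p q u v ∈ Kit_G (V × W) (p + q) := by
  induction p, q using Kit_nat2 with
  | h1 q => simp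
  | h2 p => simp
  | h p q ihp ihq =>
    intro u hu v hv
    refine Kit_Gind2 (P := fun u v => Kit_w (p + 1) (q + 1) u v ∈ Kit_G (V × W) (p + 1 + (q + 1)))
      (by simp) (by simp) ?_ ?_ ?_ ?_ ?_ hu hv
    · intro a b v ha hb; rw [map_add]; exact add_mem ha hb
    · intro u a b ha hb; rw [map_add]; exact add_mem ha hb
    · intro k a v ha; rw [map_smul]; exact Submodule.smul_mem _ _ ha
    · intro k u a ha; rw [map_smul]; exact Submodule.smul_mem _ _ ha
    intro a b ha hb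
    have h1 := Kit_single_mem a ha
    have h2 := Kit_single_mem b hb
    obtain ⟨a0, a', rfl⟩ := List.exists_cons_of_length_eq_add_one ha
    obtain ⟨b0, b', rfl⟩ := List.exists_cons_of_length_eq_add_one hb
    rw [Kit_w_ss]
    refine Kit_cons_mem (n := p + 1 + q) _ (sub_mem (sub_mem (sub_mem ?_ ?_) ?_) ?_)
    · exact Kit_sh_mem h1 h2
    · refine Submodule.smul_mem _ _ (Kit_mp_mem _ ?_)
      have := Kit_sh_mem h2 h1
      rwa [show q + 1 + (p + 1) - 1 = p + 1 + q by omega] at this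
    · have := ihp _ (Kit_D_mem h1) _ h2
      rwa [show p + (q + 1) = p + 1 + q by omega] at this
    · exact Submodule.smul_mem _ _ (ihq _ h1 _ (Kit_D_mem h2))

theorem Kit_Ph_nat (f : V → V') (g : W → W') (s : ℤ) (u : Kit_O V) (v : Kit_O W) :
    Kit_mp (Prod.map f g) (Kit_Ph s u v) = Kit_Ph s (Kit_mp f u) (Kit_mp g v) := by
  rw [Kit_Ph, Kit_Ph, map_sub, map_smul, Kit_sh_nat, ← Kit_sh_nat g f, Kit_mp_mp, Kit_mp_mp]
  rfl

theorem Kit_w_nat (f : V → V') (g : W → W') (p q : ℕ) : ∀ (u : Kit_O V) (v : Kit_O W),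
    Kit_mp (Prod.map f g) (Kit_w p q u v) = Kit_w p q (Kit_mp f u) (Kit_mp g v) := by
  induction p, q using Kit_nat2 with
  | h1 q => simp
  | h2 p => simp
  | h p q ihp ihq =>
    refine Kit_ext2 (F := fun u v => Kit_mp (Prod.map f g) (Kit_w (p + 1) (q + 1) u v))
      (G := fun u v => Kit_w (p + 1) (q + 1) (Kit_mp f u) (Kit_mp g v))
      (fun v => ⟨by simp, by simp⟩) (fun v => ⟨by simp, by simp⟩) (fun v => ⟨by simp, by simp⟩)
      (fun v => ⟨by simp, by simp⟩) ?_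
    intro a b
    have hd : ∀ c, Kit_mp (Prod.map f g) (Kit_hd a b c) =
        Kit_hd (a.map f) (b.map g) (Kit_mp (Prod.map f g) c) := by
      intro c
      rcases a with _ | ⟨a0, a⟩
      · simp [Kit_hd]
      rcases b with _ | ⟨b0, b⟩
      · simp [Kit_hd]
      exact Kit_mp_cons _ _ c
    rw [Kit_w_ss, hd, (Kit_mp _).map_sub, (Kit_mp _).map_sub, (Kit_mp _).map_smul, ihp, ihq,
      Kit_Ph_nat, Kit_mp_D, Kit_mp_D, Kit_mp_single, Kit_mp_single, Kit_w_ss]

theorem Kit_D_Ph (a0 : V) (a : List V) (b0 : W) (b : List W) :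
    Kit_D (Kit_Ph ((-1) ^ (a.length * b.length)) (single (a0 :: a) 1) (single (b0 :: b) 1)) =
      Kit_Ph ((-1) ^ ((a.length + 1) * b.length)) (Kit_D (single (a0 :: a) 1))
        (single (b0 :: b) 1) + ((-1 : ℤ) ^ a.length) •
      Kit_Ph ((-1) ^ (a.length * (b.length + 1))) (single (a0 :: a) 1)
        (Kit_D (single (b0 :: b) 1)) := by
  have hz : Kit_z (Kit_D (single (a0 :: a) 1)) * Kit_z (Kit_D (single (b0 :: b) 1)) *
      (1 - (-1) ^ (a.length * b.length)) = 0 := by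
    rw [Kit_D_single_cons, map_sub, Kit_z_cons, Kit_z_single]
    split_ifs with h
    · subst h; simp
    · simp
  have hs : ((-1 : ℤ) ^ a.length) * (-1) ^ a.length = 1 := by
    rw [← pow_add, ← two_mul, pow_mul]; simp
  simp only [Kit_Ph, map_sub, map_smul, ← Kit_mp_D, Kit_leib, map_add, Kit_mp_single,
    List.map_nil, List.length_cons, pow_succ, add_mul, mul_add, pow_add, one_mul, mul_one]
  match_scalars
  · ring
  · ring
  · linear_combination hz
  · linear_combination ((-1) ^ (a.length * b.length)) * hs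
  · ring

theorem Kit_D_w (p q : ℕ) : ∀ u ∈ Kit_G V p, ∀ v ∈ Kit_G W q,
    Kit_D (Kit_w p q u v) = Kit_Ph ((-1) ^ ((p + 1) * (q + 1))) u v -
      Kit_w (p - 1) q (Kit_D u) v + ((-1 : ℤ) ^ p) • Kit_w p (q - 1) u (Kit_D v) := by
  induction p, q using Kit_nat2 with
  | h1 q =>
    intro u hu v _
    refine Kit_Gind (P := fun u => Kit_D (Kit_w 0 q u v) = Kit_Ph _ u v -
      Kit_w (0 - 1) q (Kit_D u) v + ((-1 : ℤ) ^ 0) • Kit_w 0 (q - 1) u (Kit_D v)) ?_ ?_ ?_ ?_ hu
    · simp [Kit_Ph]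
    · intro a b ha hb; simp only [Kit_Ph, map_add, LinearMap.add_apply, ha, hb]; module
    · intro k a ha; simp only [Kit_Ph, map_smul, LinearMap.smul_apply, ha]; module
    · intro l hl; obtain rfl := List.eq_nil_of_length_eq_zero hl; simp [Kit_Ph]
  | h2 p =>
    intro u _ v hv
    refine Kit_Gind (P := fun v => Kit_D (Kit_w p 0 u v) = Kit_Ph _ u v -
      Kit_w (p - 1) 0 (Kit_D u) v + ((-1 : ℤ) ^ p) • Kit_w p (0 - 1) u (Kit_D v)) ?_ ?_ ?_ ?_ hv
    · simp [Kit_Ph]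
    · intro a b ha hb; simp only [Kit_Ph, map_add, LinearMap.add_apply, ha, hb]; module
    · intro k a ha; simp only [Kit_Ph, map_smul, LinearMap.smul_apply, ha]; module
    · intro l hl; obtain rfl := List.eq_nil_of_length_eq_zero hl; simp [Kit_Ph]
  | h p q ihp ihq =>
    intro u hu v hv
    refine Kit_Gind2 (P := fun u v => Kit_D (Kit_w (p + 1) (q + 1) u v) = Kit_Ph _ u v -
      Kit_w (p + 1 - 1) (q + 1) (Kit_D u) v +
        ((-1 : ℤ) ^ (p + 1)) • Kit_w (p + 1) (q + 1 - 1) u (Kit_D v)) ?_ ?_ ?_ ?_ ?_ ?_ ?_ hu hv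
    · simp [Kit_Ph]
    · simp [Kit_Ph]
    · intro a b v ha hb; simp only [Kit_Ph, map_add, LinearMap.add_apply, ha, hb]; module
    · intro u a b ha hb; simp only [Kit_Ph, map_add, LinearMap.add_apply, ha, hb]; module
    · intro k a v ha; simp only [Kit_Ph, map_smul, LinearMap.smul_apply, ha]; module
    · intro k u a ha; simp only [Kit_Ph, map_smul, LinearMap.smul_apply, ha]; module
    intro a b ha hb
    have h1 := Kit_single_mem a ha
    have h2 := Kit_single_mem b hb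
    obtain ⟨a0, a', rfl⟩ := List.exists_cons_of_length_eq_add_one ha
    obtain ⟨b0, b', rfl⟩ := List.exists_cons_of_length_eq_add_one hb
    obtain rfl : a'.length = p := by simpa using ha
    obtain rfl : b'.length = q := by simpa using hb
    have s1 : (-1 : ℤ) ^ ((a'.length + 1 + 1) * (b'.length + 1 + 1)) =
        (-1) ^ (a'.length * b'.length) := by
      rw [show (a'.length + 1 + 1) * (b'.length + 1 + 1) =
        a'.length * b'.length + 2 * (a'.length + b'.length + 2) by ring, pow_add, pow_mul]; simp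
    have s2 : (-1 : ℤ) ^ ((a'.length + 1) * (b'.length + 1 + 1)) =
        (-1) ^ ((a'.length + 1) * b'.length) := by
      rw [show (a'.length + 1) * (b'.length + 1 + 1) =
        (a'.length + 1) * b'.length + 2 * (a'.length + 1) by ring, pow_add, pow_mul _ 2]; simp
    have s3 : (-1 : ℤ) ^ ((a'.length + 1 + 1) * (b'.length + 1)) =
        (-1) ^ (a'.length * (b'.length + 1)) := by
      rw [show (a'.length + 1 + 1) * (b'.length + 1) =
        a'.length * (b'.length + 1) + 2 * (b'.length + 1) by ring, pow_add, pow_mul _ 2]; simp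
    have e1 := ihp _ (Kit_D_mem h1) _ h2
    have e2 := ihq _ h1 _ (Kit_D_mem h2)
    rw [s2, Kit_D_D] at e1
    rw [s3, Kit_D_D] at e2
    rw [Kit_w_ss, s1]
    change Kit_D (Kit_cons (a0, b0) _) = _
    rw [Kit_D_cons, Kit_D.map_sub, Kit_D.map_sub, Kit_D.map_smul, e1, e2, Kit_D_Ph]
    simp only [Nat.add_sub_cancel, map_zero, LinearMap.zero_apply, smul_zero, pow_succ]
    rw [show ∀ A B C : Kit_O (V × W), A + (-1 : ℤ) ^ a'.length • B -
      (A - 0 + (-1 : ℤ) ^ a'.length • C) - (-1 : ℤ) ^ a'.length • (B - C + 0) = 0 from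
        fun A B C => by module, map_zero]
    module

end

end Pool.Agent.MP_bc14e1_gt

end

section

/-! Induction principles of Mayer-Vietoris type. -/

open Set Metric

namespace Pool.Agent.MP_bc14e1_gt

/-- Finite unions of members of a family that is closed under intersections. -/
theorem ind_fin {M : Type} {𝓑 : Set (Set M)} {P Q : Set M → Prop}
    (hQ : ∀ A B, Q A → Q B → Q (A ∪ B)) (hQ0 : Q ∅) (hQB : ∀ B ∈ 𝓑, Q B) (h0 : P ∅)
    (hI : ∀ A ∈ 𝓑, ∀ B ∈ 𝓑, A ∩ B ∈ 𝓑) (hB : ∀ B ∈ 𝓑, P B)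
    (hMV : ∀ A B, Q A → Q B → P A → P B → P (A ∩ B) → P (A ∪ B)) {ι : Type} (s : Finset ι)
    (U : ι → Set M) (hU : ∀ i ∈ s, U i ∈ 𝓑) : P (⋃ i ∈ s, U i) := by
  classical
  have hQs : ∀ (s : Finset ι) (U : ι → Set M), (∀ i ∈ s, U i ∈ 𝓑) → Q (⋃ i ∈ s, U i) := by
    intro s U hU
    induction s using Finset.induction_on with
    | empty => simpa using hQ0
    | insert a s ha ih =>
      rw [Finset.set_biUnion_insert]
      exact hQ _ _ (hQB _ (hU a (Finset.mem_insert_self _ _)))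
        (ih fun i hi => hU i (Finset.mem_insert_of_mem hi))
  induction s using Finset.induction_on generalizing U with
  | empty => simpa using h0
  | insert a s ha ih =>
    have ha' := hU a (Finset.mem_insert_self _ _)
    have hs : ∀ i ∈ s, U i ∈ 𝓑 := fun i hi => hU i (Finset.mem_insert_of_mem hi)
    rw [Finset.set_biUnion_insert]
    refine hMV _ _ (hQB _ ha') (hQs s U hs) (hB _ ha') (ih U hs) ?_
    rw [inter_iUnion₂]
    exact ih (fun i => U a ∩ U i) fun i hi => hI _ ha' _ (hs i hi)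

/-- Arbitrary unions of members of a family that is closed under intersections. -/
theorem ind_union {M : Type} {𝓑 : Set (Set M)} {P Q : Set M → Prop}
    (hQ : ∀ A B, Q A → Q B → Q (A ∪ B)) (hQ0 : Q ∅) (hQB : ∀ B ∈ 𝓑, Q B) (h0 : P ∅)
    (hI : ∀ A ∈ 𝓑, ∀ B ∈ 𝓑, A ∩ B ∈ 𝓑) (hB : ∀ B ∈ 𝓑, P B)
    (hMV : ∀ A B, Q A → Q B → P A → P B → P (A ∩ B) → P (A ∪ B))
    (hD : ∀ (ι : Type) [Nonempty ι] (U : ι → Set M), (∀ i, Q (U i)) → Directed (· ⊆ ·) U →
      (∀ i, P (U i)) → P (⋃ i, U i)) {ι : Type} (U : ι → Set M) (hU : ∀ i, U i ∈ 𝓑) :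
    P (⋃ i, U i) := by
  classical
  rw [iUnion_eq_iUnion_finset]
  refine hD (Finset ι) _ (fun s => ?_) (Monotone.directed_le fun s t h =>
    biUnion_subset_biUnion_left h) fun s => ind_fin hQ hQ0 hQB h0 hI hB hMV s U fun i _ => hU i
  exact ind_fin (P := Q) hQ hQ0 hQB hQ0 hI hQB (fun A B ha hb _ _ _ => hQ A B ha hb) s U
    fun i _ => hU i

/-- All open subsets of an open subset of a normed space. -/
theorem ind_convex {V : Type} [NormedAddCommGroup V] [NormedSpace ℝ V] {T : Set V}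
    {P : Set V → Prop}
    (hB : ∀ C, IsOpen C → Convex ℝ C → Bornology.IsBounded C → C ⊆ T → P C)
    (hMV : ∀ A B, IsOpen A → IsOpen B → A ⊆ T → B ⊆ T → P A → P B → P (A ∩ B) → P (A ∪ B))
    (hD : ∀ (ι : Type) [Nonempty ι] (U : ι → Set V), (∀ i, IsOpen (U i)) → (∀ i, U i ⊆ T) →
      Directed (· ⊆ ·) U → (∀ i, P (U i)) → P (⋃ i, U i)) {W : Set V} (hW : IsOpen W)
    (hWT : W ⊆ T) : P W := by
  choose! r hr using Metric.isOpen_iff.1 hW
  have e : W = ⋃ x : W, ball (x : V) (r x) :=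
    Subset.antisymm (fun x hx => mem_iUnion.2 ⟨⟨x, hx⟩, mem_ball_self (hr x hx).1⟩)
      (iUnion_subset fun x => (hr x x.2).2)
  rw [e]
  refine ind_union (𝓑 := {C | IsOpen C ∧ Convex ℝ C ∧ Bornology.IsBounded C ∧ C ⊆ T})
    (Q := fun A => IsOpen A ∧ A ⊆ T)
    (fun A B ha hb => ⟨ha.1.union hb.1, union_subset ha.2 hb.2⟩) ⟨isOpen_empty, empty_subset _⟩
    (fun B h => ⟨h.1, h.2.2.2⟩)
    (hB _ isOpen_empty convex_empty Bornology.isBounded_empty (empty_subset _))
    (fun A ha B hb => ⟨ha.1.inter hb.1, ha.2.1.inter hb.2.1, ha.2.2.1.subset inter_subset_left,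
      inter_subset_left.trans ha.2.2.2⟩) (fun B h => hB B h.1 h.2.1 h.2.2.1 h.2.2.2)
    (fun A B ha hb => hMV A B ha.1 hb.1 ha.2 hb.2)
    (fun ι _ U h => hD ι U (fun i => (h i).1) fun i => (h i).2) _ fun x =>
      ⟨isOpen_ball, convex_ball _ _, isBounded_ball, (hr x x.2).2.trans hWT⟩

/-- From the members of `Q` inside the sets `T i` to the members inside their union. -/
theorem ind_cover {M : Type} {P Q : Set M → Prop} (hQ : ∀ A B, Q A → Q B → Q (A ∪ B))
    (hQ' : ∀ A B, Q A → Q B → Q (A ∩ B)) (hQ0 : Q ∅) (h0 : P ∅) {ι : Type} {T : ι → Set M}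
    (hT : ∀ i, Q (T i)) (hB : ∀ i U, Q U → U ⊆ T i → P U)
    (hMV : ∀ A B, Q A → Q B → P A → P B → P (A ∩ B) → P (A ∪ B))
    (hD : ∀ (ι : Type) [Nonempty ι] (U : ι → Set M), (∀ i, Q (U i)) → Directed (· ⊆ ·) U →
      (∀ i, P (U i)) → P (⋃ i, U i)) {W : Set M} (hW : Q W) (hWT : W ⊆ ⋃ i, T i) : P W := by
  have key : ∀ (s : Finset ι) (W : Set M), Q W → Q (W ∩ ⋃ i ∈ s, T i) ∧ P (W ∩ ⋃ i ∈ s, T i) := by
    classical
    intro s W hW
    induction s using Finset.induction_on with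
    | empty => simpa using ⟨hQ0, h0⟩
    | insert a s ha ih =>
      rw [Finset.set_biUnion_insert, inter_union_distrib_left]
      have h1 := hQ' _ _ hW (hT a)
      exact ⟨hQ _ _ h1 ih.1, hMV _ _ h1 ih.1 (hB a _ h1 inter_subset_right) ih.2
        (hB a _ (hQ' _ _ h1 ih.1) (inter_subset_left.trans inter_subset_right))⟩
  have e : W = ⋃ s : Finset ι, W ∩ ⋃ i ∈ s, T i := by
    rw [← inter_iUnion, ← iUnion_eq_iUnion_finset, inter_eq_left.2 hWT]
  rw [e]
  exact hD _ _ (fun s => (key s W hW).1) (Monotone.directed_le fun s t h =>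
    inter_subset_inter_right _ (biUnion_subset_biUnion_left h)) fun s => (key s W hW).2

/-- From compact sets inside the open sets `T i` to compact sets inside their union. `Q` is any
property inherited by subsets and unions. -/
theorem ind_compact {X : Type} [TopologicalSpace X] [T2Space X] {P : Set X → Prop} (h0 : P ∅)
    {ι : Type} {T : ι → Set X} (hT : ∀ i, IsOpen (T i)) {S : Set X}
    (hB : ∀ i L, IsCompact L → L ⊆ S → L ⊆ T i → P L)
    (hMV : ∀ A B, IsCompact A → IsCompact B → P A → P B → P (A ∩ B) → P (A ∪ B)) {L : Set X}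
    (hL : IsCompact L) (hS : L ⊆ S) (hLT : L ⊆ ⋃ i, T i) : P L := by
  classical
  obtain ⟨s, hs⟩ := hL.elim_finite_subcover T hT hLT
  clear hLT
  induction s using Finset.induction_on generalizing L with
  | empty => rw [subset_empty_iff.1 (by simpa using hs : L ⊆ ∅)]; exact h0
  | insert a s ha ih =>
    rw [Finset.set_biUnion_insert] at hs
    obtain ⟨A, B, hA, hB', hAT, hBT, rfl⟩ :=
      hL.binary_compact_cover (hT a) (isOpen_biUnion fun i _ => hT i) hs
    have hAS := subset_union_left.trans hS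
    exact hMV A B hA hB' (hB a A hA hAS hAT) (ih hB' (subset_union_right.trans hS) hBT)
      (hB a _ (hA.inter hB') (inter_subset_left.trans hAS) (inter_subset_left.trans hAT))

/-- Neighbourhoods of two compact sets with small intersection. -/
theorem exists_nhds_inter {X : Type} [TopologicalSpace X] [T2Space X] {A B N : Set X}
    (hA : IsCompact A) (hB : IsCompact B) (hN : IsOpen N) (h : A ∩ B ⊆ N) :
    ∃ U V, IsOpen U ∧ IsOpen V ∧ A ⊆ U ∧ B ⊆ V ∧ U ∩ V ⊆ N := by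
  obtain ⟨U, V, hU, hV, hAU, hBV, hd⟩ := SeparatedNhds.of_isCompact_isCompact
    (hA.diff hN) (hB.diff hN) (disjoint_left.2 fun x hx hx' => hx.2 (h ⟨hx.1, hx'.1⟩))
  refine ⟨U ∪ N, V ∪ N, hU.union hN, hV.union hN, fun x hx => ?_, fun x hx => ?_, ?_⟩
  · by_cases hx' : x ∈ N
    exacts [Or.inr hx', Or.inl (hAU ⟨hx, hx'⟩)]
  · by_cases hx' : x ∈ N
    exacts [Or.inr hx', Or.inl (hBV ⟨hx, hx'⟩)]
  · rintro x ⟨h1 | h1, h2 | h2⟩
    exacts [absurd h2 (disjoint_left.1 hd h1), h2, h1, h1]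

end Pool.Agent.MP_bc14e1_gt

end

section

/-! List arithmetic for the determinant certificates. -/

namespace Pool.Agent.MP_bc14e1_gt

/-! ### Polynomials with natural number coefficients, read modulo a prime -/

/-- Evaluation of a coefficient list. -/
def evN {R : Type} [CommRing R] (x : R) : List ℕ → R
  | [] => 0
  | c :: p => c + x * evN x p

/-- Sum of coefficient lists. -/
def addN : List ℕ → List ℕ → List ℕ
  | [], q => q
  | c :: p, [] => c :: p
  | c :: p, d :: q => (c + d) :: addN p q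

/-- Scalar multiple of a coefficient list. -/
def smulN (c : ℕ) : List ℕ → List ℕ
  | [] => []
  | d :: q => c * d :: smulN c q

/-- Product of coefficient lists. -/
def mulN : List ℕ → List ℕ → List ℕ
  | [], _ => []
  | c :: p, q => addN (smulN c q) (0 :: mulN p q)

/-- All coefficients are divisible by `l`. -/
def zeroN (l : ℕ) : List ℕ → Bool
  | [] => true
  | c :: p => c % l == 0 && zeroN l p

/-- Equality modulo `l`. -/
def eqN (l : ℕ) (p q : List ℕ) : Bool := zeroN l (addN p (smulN (l - 1) q))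

/-- Reduce modulo `l` and pass the evaluated list on. -/
def redN {β : Type} (l : ℕ) : List ℕ → (List ℕ → β) → β
  | [], k => k []
  | c :: p, k =>
    match c % l with
    | 0 => redN l p fun q => k (0 :: q)
    | n + 1 => redN l p fun q => k ((n + 1) :: q)

/-- Multiplication by `x` modulo `x ^ (d + 1) = m`. -/
def mulxN (d : ℕ) (m p : List ℕ) : List ℕ := addN (0 :: p.take d) (mulN (p.drop d) m)

/-- Multiplication modulo `l` and `x ^ (d + 1) = m`. -/
def mulmodN {β : Type} (l d : ℕ) (m : List ℕ) : List ℕ → List ℕ → (List ℕ → β) → β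
  | [], _, k => k []
  | c :: p, q, k => mulmodN l d m p q fun r => redN l (addN (smulN c q) (mulxN d m r)) k

/-- Powers of `x` modulo `l` and `x ^ (d + 1) = m`. -/
def powmodN {β : Type} (l d : ℕ) (m : List ℕ) : ℕ → ℕ → (List ℕ → β) → β
  | 0, _, k => k [1]
  | f + 1, e, k => powmodN l d m f (e / 2) fun h => mulmodN l d m h h fun r =>
      if e % 2 = 1 then redN l (mulxN d m r) k else k r

/-- Substitution of `y` into `q` modulo `l` and `x ^ (d + 1) = m`. -/
def compmodN {β : Type} (l d : ℕ) (m y : List ℕ) : List ℕ → (List ℕ → β) → β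
  | [], k => k []
  | c :: q, k => compmodN l d m y q fun r => mulmodN l d m y r fun w => k (addN [c] w)

/-- Derivative of a coefficient list (`i` is the index of the head). -/
def derN : ℕ → List ℕ → List ℕ
  | _, [] => []
  | i, c :: p => i * c :: derN (i + 1) p

section

variable {R : Type} [CommRing R] (x : R)

theorem evN_addN (p q : List ℕ) : evN x (addN p q) = evN x p + evN x q := by
  induction p generalizing q with
  | nil => simp [addN, evN]
  | cons c p ih =>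
    cases q with
    | nil => simp [addN, evN]
    | cons d q => simp only [addN, evN, ih, Nat.cast_add]; ring

theorem evN_smulN (c : ℕ) (q : List ℕ) : evN x (smulN c q) = c * evN x q := by
  induction q with
  | nil => simp [smulN, evN]
  | cons d q ih => simp only [smulN, evN, ih, Nat.cast_mul]; ring

theorem evN_mulN (p q : List ℕ) : evN x (mulN p q) = evN x p * evN x q := by
  induction p with
  | nil => simp [mulN, evN]
  | cons c p ih => simp only [mulN, evN_addN, evN_smulN, evN, ih, Nat.cast_zero]; ring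

theorem evN_take_drop (d : ℕ) (p : List ℕ) :
    evN x p = evN x (p.take d) + x ^ d * evN x (p.drop d) := by
  induction d generalizing p with
  | zero => simp [evN]
  | succ d ih =>
    cases p with
    | nil => simp [evN]
    | cons c p => simp only [List.take_succ_cons, List.drop_succ_cons, evN]; rw [ih p]; ring

theorem map_evN {S : Type} [CommRing S] (φ : R →+* S) (p : List ℕ) :
    φ (evN x p) = evN (φ x) p := by
  induction p with
  | nil => simp [evN]
  | cons c p ih => simp [evN, ih]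

variable {l : ℕ} (hl : (l : R) = 0)
include hl

theorem cast_mod_eq (c : ℕ) : ((c % l : ℕ) : R) = c := by
  conv_rhs => rw [← Nat.mod_add_div c l]
  simp [hl]

theorem evN_of_zeroN {p : List ℕ} (h : zeroN l p = true) : evN x p = 0 := by
  induction p with
  | nil => rfl
  | cons c p ih =>
    simp only [zeroN, Bool.and_eq_true, beq_iff_eq] at h
    rw [evN, ih h.2, ← cast_mod_eq hl c, h.1]
    simp

theorem evN_of_eqN (h0 : 0 < l) {p q : List ℕ} (h : eqN l p q = true) : evN x p = evN x q := by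
  have h1 := evN_of_zeroN x hl h
  rw [evN_addN, evN_smulN, Nat.cast_sub h0, hl] at h1
  linear_combination h1

theorem redN_spec {β : Type} (p : List ℕ) (k : List ℕ → β) :
    ∃ q, evN x q = evN x p ∧ redN l p k = k q := by
  induction p generalizing k with
  | nil => exact ⟨[], rfl, rfl⟩
  | cons c p ih =>
    have hc := cast_mod_eq hl c
    rw [redN]
    generalize c % l = n at hc
    cases n with
    | zero =>
      obtain ⟨q, h1, h2⟩ := ih fun q => k (0 :: q)
      exact ⟨0 :: q, by rw [evN, evN, h1, hc], h2⟩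
    | succ n =>
      obtain ⟨q, h1, h2⟩ := ih fun q => k ((n + 1) :: q)
      exact ⟨(n + 1) :: q, by rw [evN, evN, h1, hc], h2⟩

variable {d : ℕ} {m : List ℕ} (hm : x ^ (d + 1) = evN x m)
include hm

omit hl in
theorem evN_mulxN (p : List ℕ) : evN x (mulxN d m p) = x * evN x p := by
  rw [mulxN, evN_addN, evN_mulN, ← hm, evN, evN_take_drop x d p]
  simp only [Nat.cast_zero]
  ring

theorem mulmodN_spec {β : Type} (p q : List ℕ) (k : List ℕ → β) :
    ∃ r, evN x r = evN x p * evN x q ∧ mulmodN l d m p q k = k r := by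
  induction p generalizing k with
  | nil => exact ⟨[], by simp [evN], rfl⟩
  | cons c p ih =>
    obtain ⟨r, h1, h2⟩ := ih fun r => redN l (addN (smulN c q) (mulxN d m r)) k
    obtain ⟨w, h3, h4⟩ := redN_spec x hl (addN (smulN c q) (mulxN d m r)) k
    refine ⟨w, ?_, by rw [mulmodN, h2, h4]⟩
    rw [h3, evN_addN, evN_smulN, evN_mulxN x hm, h1, evN]
    ring

theorem powmodN_spec {β : Type} (f e : ℕ) (he : e < 2 ^ f) (k : List ℕ → β) :
    ∃ r, evN x r = x ^ e ∧ powmodN l d m f e k = k r := by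
  induction f generalizing e k with
  | zero =>
    obtain rfl : e = 0 := by omega
    exact ⟨[1], by simp [evN], rfl⟩
  | succ f ih =>
    obtain ⟨h, h1, h2⟩ := ih (e / 2) (by omega) fun h => mulmodN l d m h h fun r =>
      if e % 2 = 1 then redN l (mulxN d m r) k else k r
    obtain ⟨r, h3, h4⟩ := mulmodN_spec x hl hm h h fun r =>
      if e % 2 = 1 then redN l (mulxN d m r) k else k r
    rw [powmodN, h2, h4]
    split_ifs with h5
    · obtain ⟨w, h6, h7⟩ := redN_spec x hl (mulxN d m r) k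
      refine ⟨w, ?_, h7⟩
      rw [h6, evN_mulxN x hm, h3, h1, ← pow_add, ← pow_succ']
      congr 1
      omega
    · refine ⟨r, ?_, rfl⟩
      rw [h3, h1, ← pow_add]
      congr 1
      omega

theorem compmodN_spec {β : Type} (y q : List ℕ) (k : List ℕ → β) :
    ∃ r, evN x r = evN (evN x y) q ∧ compmodN l d m y q k = k r := by
  induction q generalizing k with
  | nil => exact ⟨[], rfl, rfl⟩
  | cons c q ih =>
    obtain ⟨r, h1, h2⟩ := ih fun r => mulmodN l d m y r fun w => k (addN [c] w)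
    obtain ⟨w, h3, h4⟩ := mulmodN_spec x hl hm y r fun w => k (addN [c] w)
    refine ⟨addN [c] w, ?_, by rw [compmodN, h2, h4]⟩
    rw [evN_addN, h3, h1]
    simp [evN]

end

theorem evN_eq_eval {R : Type} [CommRing R] (x : R) (p : List ℕ) :
    (evN (Polynomial.X : Polynomial R) p).eval x = evN x p := by
  have := map_evN (Polynomial.X : Polynomial R) (Polynomial.evalRingHom x) p
  simpa using this

theorem derivative_evN {R : Type} [CommRing R] (i : ℕ) (p : List ℕ) :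
    Polynomial.X * Polynomial.derivative (evN (Polynomial.X : Polynomial R) p) +
      (i : Polynomial R) * evN Polynomial.X p = evN Polynomial.X (derN i p) := by
  induction p generalizing i with
  | nil => simp [evN, derN]
  | cons c p ih =>
    simp only [evN, derN, ← ih (i + 1), map_add, Polynomial.derivative_mul,
      Polynomial.derivative_X, Polynomial.derivative_natCast, Nat.cast_mul, Nat.cast_add,
      Nat.cast_one]
    ring

/-! ### Polynomials over `ℤ[a]`, `a ^ 4 = -1` -/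

/-- Elements of `ℤ[a]`. -/
structure Z8 where
  /-- coefficient of `1` -/
  c0 : ℤ
  /-- coefficient of `a` -/
  c1 : ℤ
  /-- coefficient of `a ^ 2` -/
  c2 : ℤ
  /-- coefficient of `a ^ 3` -/
  c3 : ℤ

/-- Evaluation. -/
def Z8.ev {R : Type} [CommRing R] (a : R) (z : Z8) : R :=
  z.c0 + z.c1 * a + z.c2 * a ^ 2 + z.c3 * a ^ 3

/-- Sum. -/
def Z8.add (z w : Z8) : Z8 := ⟨z.c0 + w.c0, z.c1 + w.c1, z.c2 + w.c2, z.c3 + w.c3⟩

/-- Negative. -/
def Z8.neg (z : Z8) : Z8 := ⟨-z.c0, -z.c1, -z.c2, -z.c3⟩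

/-- Product. -/
def Z8.mul (z w : Z8) : Z8 :=
  ⟨z.c0 * w.c0 - z.c1 * w.c3 - z.c2 * w.c2 - z.c3 * w.c1,
    z.c0 * w.c1 + z.c1 * w.c0 - z.c2 * w.c3 - z.c3 * w.c2,
    z.c0 * w.c2 + z.c1 * w.c1 + z.c2 * w.c0 - z.c3 * w.c3,
    z.c0 * w.c3 + z.c1 * w.c2 + z.c2 * w.c1 + z.c3 * w.c0⟩

/-- Multiplication by a power of `a`. -/
def Z8.mulA : ℕ → Z8 → Z8
  | 0, z => z
  | e + 1, z => Z8.mulA e ⟨-z.c3, z.c0, z.c1, z.c2⟩

/-- Zero test. -/
def Z8.isZero (z : Z8) : Bool := z.c0 == 0 && z.c1 == 0 && z.c2 == 0 && z.c3 == 0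

/-- Reduction modulo `l` with `a` replaced by `a₀`. -/
def Z8.red (l a₀ : ℕ) (z : Z8) : ℕ :=
  ((z.c0 + z.c1 * a₀ + z.c2 * a₀ ^ 2 + z.c3 * a₀ ^ 3) % l).toNat

/-- Evaluation of a coefficient list. -/
def evZ {R : Type} [CommRing R] (a x : R) : List Z8 → R
  | [] => 0
  | c :: p => c.ev a + x * evZ a x p

/-- Sum. -/
def addZ : List Z8 → List Z8 → List Z8
  | [], q => q
  | c :: p, [] => c :: p
  | c :: p, d :: q => c.add d :: addZ p q

/-- Difference. -/
def subZ (p q : List Z8) : List Z8 := addZ p (q.map Z8.neg)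

/-- Multiplication by `x` if the flag is set. -/
def shZ (b : Bool) (p : List Z8) : List Z8 := if b then ⟨0, 0, 0, 0⟩ :: p else p

/-- Product. -/
def mulZ : List Z8 → List Z8 → List Z8
  | [], _ => []
  | c :: p, q => addZ (q.map c.mul) (⟨0, 0, 0, 0⟩ :: mulZ p q)

/-- Integer coefficient lists. -/
def ofInts (p : List ℤ) : List Z8 := p.map fun c => ⟨c, 0, 0, 0⟩

section

variable {R : Type} [CommRing R] (a x : R)

theorem Z8.ev_add (z w : Z8) : (z.add w).ev a = z.ev a + w.ev a := by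
  simp only [Z8.ev, Z8.add]; push_cast; ring

theorem Z8.ev_neg (z : Z8) : z.neg.ev a = -z.ev a := by
  simp only [Z8.ev, Z8.neg]; push_cast; ring

theorem Z8.ev_mul (ha : a ^ 4 = -1) (z w : Z8) : (z.mul w).ev a = z.ev a * w.ev a := by
  simp only [Z8.ev, Z8.mul]
  push_cast
  linear_combination (-((z.c1 * w.c3 + z.c2 * w.c2 + z.c3 * w.c1 : R) +
    (z.c2 * w.c3 + z.c3 * w.c2) * a + z.c3 * w.c3 * a ^ 2)) * ha

theorem Z8.ev_mulA (ha : a ^ 4 = -1) (e : ℕ) (z : Z8) : (Z8.mulA e z).ev a = a ^ e * z.ev a := by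
  induction e generalizing z with
  | zero => simp [Z8.mulA]
  | succ e ih =>
    rw [Z8.mulA, ih]
    simp only [Z8.ev]
    push_cast
    linear_combination (-(a ^ e * z.c3)) * ha

theorem Z8.ev_of_isZero {z : Z8} (h : z.isZero = true) : z.ev a = 0 := by
  simp only [Z8.isZero, Bool.and_eq_true, beq_iff_eq] at h
  simp [Z8.ev, h.1.1.1, h.1.1.2, h.1.2, h.2]

theorem Z8.cast_red {l a₀ : ℕ} (hl : (l : R) = 0) (h0 : 0 < l) (z : Z8) :
    (z.red l a₀ : R) = z.ev (a₀ : R) := by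
  have h1 : (0 : ℤ) ≤ (z.c0 + z.c1 * a₀ + z.c2 * a₀ ^ 2 + z.c3 * a₀ ^ 3) % l :=
    Int.emod_nonneg _ (by omega)
  rw [Z8.red, ← Int.cast_natCast, Int.toNat_of_nonneg h1, Int.emod_def]
  simp [Z8.ev, hl]

theorem evZ_addZ (p q : List Z8) : evZ a x (addZ p q) = evZ a x p + evZ a x q := by
  induction p generalizing q with
  | nil => simp [addZ, evZ]
  | cons c p ih =>
    cases q with
    | nil => simp [addZ, evZ]
    | cons d q => simp only [addZ, evZ, ih, Z8.ev_add]; ring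

theorem evZ_map {f : Z8 → Z8} {c : R} (hf : ∀ z, (f z).ev a = c * z.ev a) (q : List Z8) :
    evZ a x (q.map f) = c * evZ a x q := by
  induction q with
  | nil => simp [evZ]
  | cons d q ih => simp only [List.map_cons, evZ, ih, hf]; ring

theorem evZ_subZ (p q : List Z8) : evZ a x (subZ p q) = evZ a x p - evZ a x q := by
  rw [subZ, evZ_addZ, evZ_map a x (c := -1) fun z => by rw [Z8.ev_neg]; ring]
  ring

theorem evZ_shZ (b : Bool) (p : List Z8) :
    evZ a x (shZ b p) = (if b then x else 1) * evZ a x p := by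
  cases b <;> simp [shZ, evZ, Z8.ev]

theorem evZ_mulZ (ha : a ^ 4 = -1) (p q : List Z8) :
    evZ a x (mulZ p q) = evZ a x p * evZ a x q := by
  induction p with
  | nil => simp [mulZ, evZ]
  | cons c p ih =>
    simp only [mulZ, evZ_addZ, evZ_map a x (Z8.ev_mul a ha c), evZ, ih]
    simp only [Z8.ev, Int.cast_zero]
    ring

theorem evZ_of_all {p : List Z8} (h : p.all Z8.isZero = true) : evZ a x p = 0 := by
  induction p with
  | nil => rfl
  | cons c p ih =>
    simp only [List.all_cons, Bool.and_eq_true] at h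
    rw [evZ, ih h.2, Z8.ev_of_isZero a h.1]
    simp

theorem map_evZ {S : Type} [CommRing S] (φ : R →+* S) (p : List Z8) :
    φ (evZ a x p) = evZ (φ a) (φ x) p := by
  induction p with
  | nil => simp [evZ]
  | cons c p ih => simp [evZ, ih, Z8.ev]

theorem evN_red {l a₀ : ℕ} (hl : (l : R) = 0) (h0 : 0 < l) (p : List Z8) :
    evN x (p.map (Z8.red l a₀)) = evZ (a₀ : R) x p := by
  induction p with
  | nil => rfl
  | cons c p ih => simp only [List.map_cons, evN, evZ, ih, Z8.cast_red hl h0]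

end

end Pool.Agent.MP_bc14e1_gt

end

section

/-! The format of the determinant certificates. -/

open Polynomial

namespace Pool.Agent.MP_bc14e1_gt

/-- `s₀` is a simple unit root of the determinant, isolated among its multiples by roots of unity
of `2`-power order. -/
structure GoodMat (A : Matrix (Fin 12) (Fin 12) ℂ[X]) (s₀ : ℂ) : Prop where
  norm : ‖s₀‖ = 1
  ne : ∀ j : ℕ, s₀ ^ 2 ^ j ≠ 1
  sing : ∃ w : Fin 12 → ℂ, w ≠ 0 ∧ (A.map (eval s₀)).mulVec w = 0
  kill : ∃ (B : Matrix (Fin 12) (Fin 12) ℂ[X]) (D : ℂ[X]), B * A = ((X - C s₀) * D) • 1 ∧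
    ∀ (j : ℕ) (ζ : ℂ), ζ ^ 2 ^ j = 1 → D.eval (ζ * s₀) ≠ 0
  rank : ∀ u : Fin 12 → ℂ, ∃ (c : Fin 12 → ℂ) (t : ℂ),
    u = Matrix.vecMul c (A.map (eval s₀)) + Pi.single 11 t

/-- Certificate data. -/
structure NCert where
  /-- an odd modulus -/
  l : ℕ
  /-- a fourth root of `-1` modulo `l` -/
  a₀ : ℕ
  /-- `p(s) = s ^ d g(s + 1/s)`, `d + 1` the length of `g` -/
  g : List ℤ
  /-- left end of an interval on which `g` changes sign -/
  x₁ : ℚ
  /-- right end of the interval -/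
  x₂ : ℚ
  /-- the lower coefficients of the monic polynomial `p` -/
  L : List ℤ
  /-- a row vector with `v A = p w` -/
  v : List (List Z8)
  /-- a row vector with `v A = p w` -/
  w : List (List Z8)
  /-- Bezout coefficient of the first entry of `v` modulo `l` -/
  al : List ℕ
  /-- Bezout coefficient of `p` modulo `l` -/
  be : List ℕ
  /-- `C A` is upper triangular modulo `l` -/
  C : List (List (List ℕ))
  /-- exponents of `x` on the diagonal -/
  kk : List ℕ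
  /-- exponents of `x - 1` on the diagonal -/
  bb : List ℕ
  /-- `x ^ (D + 1) = m + P`, `P = (x - 1) p` -/
  D : ℕ
  /-- `x ^ (D + 1) = m + P`, `P = (x - 1) p` -/
  m : List ℕ
  /-- Bezout coefficient of `P` -/
  u₁ : List ℕ
  /-- Bezout coefficient of `x P'` -/
  u₂ : List ℕ
  /-- the roots of `P` have order dividing `2 ^ J * (2 * N + 1)` -/
  J : ℕ
  /-- the roots of `P` have order dividing `2 ^ J * (2 * N + 1)` -/
  N : ℕ
  /-- `q (x ^ 2 ^ J) = x` modulo `P` -/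
  q : List ℕ

/-- `s ^ d g(s + 1/s)` where `d + 1` is the length of `g`. -/
def homZ : List ℤ → List Z8
  | [] => []
  | c :: g => addZ (ofInts (List.replicate g.length 0 ++ [c])) (mulZ (ofInts [1, 0, 1]) (homZ g))

/-- Evaluation of an integer list at a rational number. -/
def evQ (x : ℚ) : List ℤ → ℚ
  | [] => 0
  | c :: p => c + x * evQ x p

/-- Sum of a list of polynomials. -/
def sumZ : List (List Z8) → List Z8
  | [] => []
  | p :: ps => addZ p (sumZ ps)

/-- Sum of a list of polynomials. -/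
def sumN : List (List ℕ) → List ℕ
  | [] => []
  | p :: ps => addN p (sumN ps)

/-- Powers of a polynomial. -/
def powN (p : List ℕ) : ℕ → List ℕ
  | 0 => [1]
  | n + 1 => mulN p (powN p n)

namespace NCert

variable (c : NCert) (A : Fin 12 → Fin 12 → List Z8)

/-- The monic polynomial `p`. -/
def p : List Z8 := ofInts (c.L ++ [1])

/-- Reduction of a polynomial. -/
def red (f : List Z8) : List ℕ := f.map (Z8.red c.l c.a₀)

/-- The reduction of `(x - 1) p`. -/
def P : List ℕ := mulN [c.l - 1, 1] (c.red c.p)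

/-- The diagonal entries. -/
def dg (i : Fin 12) : List ℕ :=
  mulN (mulN (List.replicate (c.kk.getD i 0) 0 ++ [1]) (powN [c.l - 1, 1] (c.bb.getD i 0)))
    (if i = 11 then c.red c.p else [1])

/-- Checks on `p`: a unit root in characteristic zero. -/
def chk₁ : Bool :=
  c.l % 2 == 1 && decide (1 < c.l) && (c.a₀ ^ 4 + 1) % c.l == 0 &&
    (subZ (homZ c.g) c.p).all Z8.isZero && decide (-2 ≤ c.x₁) && decide (c.x₁ ≤ c.x₂) &&
    decide (c.x₂ ≤ 2) && decide (evQ c.x₁ c.g * evQ c.x₂ c.g < 0)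

/-- Checks on the roots of `P` modulo `l`. -/
def chk₂ : Bool :=
  eqN c.l (List.replicate (c.D + 1) 0 ++ [1]) (addN c.m c.P) &&
    eqN c.l (addN (mulN c.u₁ c.P) (mulN c.u₂ (derN 0 c.P))) [1] &&
    decide (2 ^ c.J * (2 * c.N + 1) < 2 ^ 64) &&
    powmodN c.l c.D c.m 64 (2 ^ c.J * (2 * c.N + 1)) (fun r => eqN c.l r [1]) &&
    powmodN c.l c.D c.m 64 (2 ^ c.J) fun y =>
      compmodN c.l c.D c.m y c.q fun r => eqN c.l r [0, 1]

/-- Check of `v A = p w` and of `v ≠ 0` at the roots of `p`. -/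
def chk₃ : Bool :=
  ((List.finRange 12).all fun j : Fin 12 =>
    (subZ (sumZ ((List.finRange 12).map fun i : Fin 12 => mulZ (c.v.getD i []) (A i j)))
      (mulZ c.p (c.w.getD j []))).all Z8.isZero) &&
    eqN c.l (addN (mulN c.al (c.red (c.v.getD 0 []))) (mulN c.be (c.red c.p))) [1]

/-- Check that `C A` is upper triangular modulo `l` with the given diagonal. -/
def chk₄ : Bool :=
  (List.finRange 12).all fun i : Fin 12 => (List.finRange 12).all fun j : Fin 12 =>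
    decide (i < j) ||
      eqN c.l (sumN ((List.finRange 12).map fun k : Fin 12 =>
        mulN (c.red (A k j)) ((c.C.getD i []).getD k []))) (if i = j then c.dg i else [])

end NCert

end Pool.Agent.MP_bc14e1_gt

end

section

/-! Soundness of the determinant certificates. -/

open Polynomial

namespace Pool.Agent.MP_bc14e1_gt

theorem CA_w : ∃ w : integralClosure ℤ ℂ, w ^ 4 = -1 := by
  obtain ⟨w, hw⟩ := IsAlgClosed.exists_pow_nat_eq (-1 : ℂ) (n := 4) (by norm_num)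
  exact ⟨⟨w, IsIntegral.of_pow (n := 4) (by norm_num) (hw ▸ isIntegral_one.neg)⟩, Subtype.ext hw⟩

/-- A residue field of the ring of algebraic integers in which `a` reduces to `a₀`. -/
theorem exists_residue {l a₀ : ℕ} (hl : 1 < l) (ha : (a₀ ^ 4 + 1) % l = 0) :
    ∃ (k : Type) (_ : Field k) (φ : integralClosure ℤ ℂ →+* k) (a : integralClosure ℤ ℂ),
      (l : k) = 0 ∧ a ^ 4 = -1 ∧ φ a = a₀ := by
  have hu : (l : integralClosure ℤ ℂ) ∈ nonunits (integralClosure ℤ ℂ) := fun h => by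
    have h1 : IsUnit (l : ℤ) :=
      isUnit_of_map_unit (algebraMap ℤ (integralClosure ℤ ℂ)) _ (by rwa [map_natCast])
    rcases Int.isUnit_iff.1 h1 with h2 | h2 <;> omega
  obtain ⟨M, hM, hlM⟩ := exists_max_ideal_of_mem_nonunits hu
  obtain ⟨k, _, φ, h0⟩ : ∃ (k : Type) (_ : Field k) (φ : integralClosure ℤ ℂ →+* k),
      (l : k) = 0 :=
    ⟨_, Ideal.Quotient.field M, Ideal.Quotient.mk M, (map_natCast (Ideal.Quotient.mk M) l).symm.trans
      (Ideal.Quotient.eq_zero_iff_mem.2 hlM)⟩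
  obtain ⟨w, hw⟩ := CA_w
  have h1 : (a₀ : k) ^ 4 + 1 = 0 := by
    have h := cast_mod_eq h0 (a₀ ^ 4 + 1)
    rw [ha] at h
    exact_mod_cast h.symm
  have h2 : φ w ^ 4 = -1 := by rw [← map_pow, hw, map_neg, map_one]
  have h3 : (φ w - a₀) * (-φ w - a₀) * (φ w ^ 3 - a₀) * (-φ w ^ 3 - a₀) = 0 := by
    linear_combination h1 + (φ w ^ 4 - 1 - (a₀ : k) ^ 2 * φ w ^ 2) * h2
  have h4 : (w ^ 3) ^ 4 = -1 := by rw [← pow_mul, mul_comm, pow_mul, hw]; norm_num
  simp only [mul_eq_zero, sub_eq_zero] at h3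
  rcases h3 with ((h | h) | h) | h
  · exact ⟨k, inferInstance, φ, w, h0, hw, h⟩
  · exact ⟨k, inferInstance, φ, -w, h0, by rw [← hw]; ring, by rw [map_neg, h]⟩
  · exact ⟨k, inferInstance, φ, w ^ 3, h0, h4, by rw [map_pow, h]⟩
  · exact ⟨k, inferInstance, φ, -w ^ 3, h0, by rw [← h4]; ring, by rw [map_neg, map_pow, h]⟩

/-- Evaluation of an integer list. -/
def CA_ev {R : Type} [CommRing R] (x : R) : List ℤ → R
  | [] => 0
  | c :: p => c + x * CA_ev x p

section

variable {R : Type} [CommRing R]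

theorem CA_ofInts (a x : R) (p : List ℤ) : evZ a x (ofInts p) = CA_ev x p := by
  induction p with
  | nil => rfl
  | cons c p ih =>
    rw [CA_ev, ← ih]
    simp [ofInts, evZ, Z8.ev]

theorem CA_map {S : Type} [CommRing S] (φ : R →+* S) (x : R) (p : List ℤ) :
    φ (CA_ev x p) = CA_ev (φ x) p := by
  induction p with
  | nil => simp [CA_ev]
  | cons c p ih => simp [CA_ev, ih]

theorem CA_rep (x : R) (n : ℕ) (c : ℤ) : CA_ev x (List.replicate n 0 ++ [c]) = x ^ n * c := by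
  induction n with
  | zero => simp [CA_ev]
  | succ n ih =>
    rw [List.replicate_succ, List.cons_append, CA_ev, ih]
    push_cast
    ring

theorem CA_hom {a s t : R} (ha : a ^ 4 = -1) (h : s * t = 1) (g : List ℤ) :
    s * evZ a s (homZ g) = s ^ g.length * CA_ev (s + t) g := by
  induction g with
  | nil => simp [homZ, evZ, CA_ev]
  | cons c g ih =>
    rw [homZ, evZ_addZ, evZ_mulZ a s ha, CA_ofInts, CA_ofInts, CA_rep, List.length_cons]
    simp only [CA_ev]
    push_cast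
    linear_combination (1 + s ^ 2) * ih - s ^ g.length * CA_ev (s + t) g * h

theorem CA_repN (x : R) (n : ℕ) : evN x (List.replicate n 0 ++ [1]) = x ^ n := by
  induction n with
  | zero => simp [evN]
  | succ n ih =>
    rw [List.replicate_succ, List.cons_append, evN, ih]
    push_cast
    ring

theorem CA_lin {l : ℕ} (hl : (l : R) = 0) (h0 : 0 < l) (x : R) : evN x [l - 1, 1] = x - 1 := by
  simp only [evN]
  rw [Nat.cast_sub h0, hl]
  push_cast
  ring

theorem CA_powN (x : R) (p : List ℕ) (n : ℕ) : evN x (powN p n) = evN x p ^ n := by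
  induction n with
  | zero => simp [powN, evN]
  | succ n ih => rw [powN, evN_mulN, ih, pow_succ']

theorem CA_sumN {ι : Type} (x : R) (f : ι → List ℕ) (L : List ι) :
    evN x (sumN (L.map f)) = (L.map fun i => evN x (f i)).sum := by
  induction L with
  | nil => rfl
  | cons i L ih => rw [List.map_cons, sumN, evN_addN, ih, List.map_cons, List.sum_cons]

theorem CA_sumZ {ι : Type} (a x : R) (f : ι → List Z8) (L : List ι) :
    evZ a x (sumZ (L.map f)) = (L.map fun i => evZ a x (f i)).sum := by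
  induction L with
  | nil => rfl
  | cons i L ih => rw [List.map_cons, sumZ, evZ_addZ, ih, List.map_cons, List.sum_cons]

end

theorem CA_evQ (x : ℚ) (p : List ℤ) : ((evQ x p : ℚ) : ℝ) = CA_ev (x : ℝ) p := by
  induction p with
  | nil => simp [evQ, CA_ev]
  | cons c p ih => simp [evQ, CA_ev, ih]

theorem CA_cont (p : List ℤ) : Continuous fun x : ℝ => CA_ev x p := by
  induction p with
  | nil => exact continuous_const
  | cons c p ih => exact continuous_const.add (continuous_id.mul ih)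

theorem CA_monic (L : List ℤ) : (CA_ev (X : ℤ[X]) (L ++ [1])).Monic := by
  induction L with
  | nil => simp [CA_ev]
  | cons c L ih =>
    rw [List.cons_append, CA_ev]
    refine (monic_X.mul ih).add_of_right (degree_lt_degree ?_)
    rw [natDegree_intCast, natDegree_X_mul ih.ne_zero]
    omega

theorem CA_chk₁ (c : NCert) (h : c.chk₁ = true) : c.l % 2 = 1 ∧ 1 < c.l ∧
    (c.a₀ ^ 4 + 1) % c.l = 0 ∧ (subZ (homZ c.g) c.p).all Z8.isZero = true ∧ -2 ≤ c.x₁ ∧
    c.x₁ ≤ c.x₂ ∧ c.x₂ ≤ 2 ∧ evQ c.x₁ c.g * evQ c.x₂ c.g < 0 := by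
  simpa only [NCert.chk₁, Bool.and_eq_true, decide_eq_true_eq, beq_iff_eq, and_assoc] using h

/-- A unit root of `p`. -/
theorem NCert.exists_root (c : NCert) (h : c.chk₁ = true) :
    ∃ s₀ : integralClosure ℤ ℂ, ‖(s₀ : ℂ)‖ = 1 ∧
      ∀ a : integralClosure ℤ ℂ, a ^ 4 = -1 → evZ a s₀ c.p = 0 := by
  obtain ⟨-, -, -, h4, h5, h6, h7, h8⟩ := CA_chk₁ c h
  have h5' : (-2 : ℝ) ≤ c.x₁ := by exact_mod_cast h5
  have h6' : (c.x₁ : ℝ) ≤ c.x₂ := by exact_mod_cast h6
  have h7' : (c.x₂ : ℝ) ≤ 2 := by exact_mod_cast h7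
  have h8' : CA_ev (c.x₁ : ℝ) c.g * CA_ev (c.x₂ : ℝ) c.g < 0 := by
    rw [← CA_evQ, ← CA_evQ]
    exact_mod_cast h8
  obtain ⟨x, ⟨hx1, hx2⟩, hx⟩ : ∃ x ∈ Set.Icc (c.x₁ : ℝ) c.x₂, CA_ev x c.g = 0 := by
    rcases mul_neg_iff.1 h8' with ⟨p, q⟩ | ⟨p, q⟩
    · exact intermediate_value_Icc' h6' (CA_cont c.g).continuousOn ⟨q.le, p.le⟩
    · exact intermediate_value_Icc h6' (CA_cont c.g).continuousOn ⟨p.le, q.le⟩
  obtain ⟨y, hy⟩ : ∃ y : ℝ, y * y = 1 - x ^ 2 / 4 := ⟨_, Real.mul_self_sqrt (by nlinarith)⟩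
  obtain ⟨s, hs, hsx⟩ : ∃ s : ℂ, Complex.normSq s = 1 ∧ s + (starRingEnd ℂ) s = (x : ℂ) :=
    ⟨⟨x / 2, y⟩, by rw [Complex.normSq_mk, hy]; ring, by
      rw [Complex.add_conj]; push_cast; ring⟩
  have hst : s * (starRingEnd ℂ) s = 1 := by rw [Complex.mul_conj, hs, Complex.ofReal_one]
  obtain ⟨w, hw⟩ := CA_w
  have hw' : (w : ℂ) ^ 4 = -1 := congrArg Subtype.val hw
  have e1 := CA_hom hw' hst c.g
  have e2 := CA_map Complex.ofRealHom x c.g
  rw [hx, map_zero, Complex.ofRealHom_eq_coe] at e2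
  rw [hsx, ← e2, mul_zero] at e1
  have e3 := evZ_of_all (w : ℂ) s h4
  rw [evZ_subZ, (mul_eq_zero.1 e1).resolve_left (left_ne_zero_of_mul_eq_one hst), NCert.p,
    CA_ofInts, zero_sub, neg_eq_zero] at e3
  have hi : IsIntegral ℤ s := ⟨_, CA_monic c.L, by
    have e := CA_map (eval₂RingHom (algebraMap ℤ ℂ) s) X (c.L ++ [1])
    rw [coe_eval₂RingHom, eval₂_X, e3] at e
    exact e⟩
  refine ⟨⟨s, hi⟩, ?_, fun a _ => ?_⟩
  · rw [Complex.normSq_eq_norm_sq] at hs
    exact (pow_eq_one_iff_of_nonneg (norm_nonneg _) two_ne_zero).1 hs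
  · rw [NCert.p, CA_ofInts]
    exact Subtype.ext ((CA_map (algebraMap (integralClosure ℤ ℂ) ℂ) ⟨s, hi⟩ _).trans e3)

theorem CA_P (c : NCert) {R : Type} [CommRing R] (hl : (c.l : R) = 0) (h0 : 0 < c.l) (x : R) :
    evN x c.P = (x - 1) * evN x (c.red c.p) := by
  rw [NCert.P, evN_mulN, CA_lin hl h0]

/-- The roots of `p` in a field of characteristic `l`. -/
theorem NCert.roots (c : NCert) (h₁ : c.chk₁ = true) (h₂ : c.chk₂ = true) {k : Type} [Field k]
    (hl : (c.l : k) = 0) {r : k} (hr : evN r (c.red c.p) = 0) :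
    r ≠ 0 ∧ r ≠ 1 ∧ (derivative (evN (X : k[X]) (c.red c.p))).eval r ≠ 0 ∧
      ∀ (j : ℕ) (ζ : k), ζ ^ 2 ^ j = 1 → (ζ * r = 1 ∨ evN (ζ * r) (c.red c.p) = 0) → ζ = 1 := by
  have h0 : 0 < c.l := by have := (CA_chk₁ c h₁).2.1; omega
  simp only [NCert.chk₂, Bool.and_eq_true, decide_eq_true_eq] at h₂
  obtain ⟨⟨⟨⟨k1, k2⟩, k3⟩, k4⟩, k5⟩ := h₂
  have hlX : (c.l : k[X]) = 0 := by rw [← C_eq_natCast, hl, C_0]
  have b1 := evN_of_eqN (X : k[X]) hlX h0 k2
  rw [evN_addN, evN_mulN, evN_mulN, ← derivative_evN 0, CA_P c hlX h0] at b1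
  have b2 := congrArg (eval r) b1
  simp only [evN, eval_add, eval_mul, eval_sub, eval_X, eval_one, evN_eq_eval, hr, derivative_mul,
    Nat.cast_zero, Nat.cast_one, mul_zero, add_zero, zero_add, zero_mul] at b2
  have b3 := right_ne_zero_of_mul_eq_one b2
  have b4 := right_ne_zero_of_mul b3
  have hr0 := left_ne_zero_of_mul b3
  have root : ∀ x : k, evN x c.P = 0 →
      x ^ (2 ^ c.J * (2 * c.N + 1)) = 1 ∧ evN (x ^ 2 ^ c.J) c.q = x := fun x hx => by
    have hm := evN_of_eqN x hl h0 k1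
    rw [CA_repN, evN_addN, hx, add_zero] at hm
    obtain ⟨u, u1, u2⟩ := powmodN_spec x hl hm 64 _ k3 fun r => eqN c.l r [1]
    obtain ⟨y, y1, y2⟩ := powmodN_spec x hl hm 64 (2 ^ c.J)
      (lt_of_le_of_lt (Nat.le_mul_of_pos_right _ (Nat.succ_pos _)) k3)
      fun y => compmodN c.l c.D c.m y c.q fun r => eqN c.l r [0, 1]
    obtain ⟨z, z1, z2⟩ := compmodN_spec x hl hm y c.q fun r => eqN c.l r [0, 1]
    have e1 := evN_of_eqN x hl h0 (u2.symm.trans k4)
    have e2 := evN_of_eqN x hl h0 (z2.symm.trans (y2.symm.trans k5))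
    rw [u1] at e1
    rw [z1, y1] at e2
    exact ⟨by simpa [evN] using e1, by simpa [evN] using e2⟩
  refine ⟨hr0, sub_ne_zero.1 (left_ne_zero_of_mul b4), right_ne_zero_of_mul b4,
    fun j ζ hζ h => ?_⟩
  obtain ⟨r1, r2⟩ := root r (by rw [CA_P c hl h0, hr, mul_zero])
  obtain ⟨z1, z2⟩ := root (ζ * r) (by
    rw [CA_P c hl h0]
    rcases h with h | h
    · rw [h, sub_self, zero_mul]
    · rw [h, mul_zero])
  rw [mul_pow, r1, mul_one, pow_mul] at z1
  have z3 : ζ ^ 2 ^ c.J = 1 :=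
    (pow_eq_one_iff_of_coprime (m := 2 ^ j) (n := 2 * c.N + 1)
      (Nat.Coprime.pow_left j (by simp))).1
      ⟨by rw [← pow_mul, mul_comm, pow_mul, hζ, one_pow], z1⟩
  rw [mul_pow, z3, one_mul, r2] at z2
  exact (mul_eq_right₀ hr0).1 z2.symm

/-- The matrix `C` evaluated at `x`. -/
def CA_C (c : NCert) {R : Type} [CommRing R] (x : R) : Matrix (Fin 12) (Fin 12) R :=
  Matrix.of fun i k => evN x ((c.C.getD i []).getD k [])

/-- The matrix `A` evaluated at `x`. -/
def CA_A (A : Fin 12 → Fin 12 → List Z8) {R : Type} [CommRing R] (a x : R) :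
    Matrix (Fin 12) (Fin 12) R := Matrix.of fun i j => evZ a x (A i j)

/-- The trivial part of a diagonal entry. -/
def CA_E (c : NCert) {R : Type} [CommRing R] (x : R) (i : Fin 12) : R :=
  x ^ c.kk.getD i 0 * (x - 1) ^ c.bb.getD i 0

section

variable (c : NCert) (A : Fin 12 → Fin 12 → List Z8) {R S : Type} [CommRing R] [CommRing S]

theorem CA_mapA (ψ : R →+* S) (a x : R) : (CA_A A a x).map ψ = CA_A A (ψ a) (ψ x) :=
  Matrix.ext fun _ _ => map_evZ a x ψ _

theorem CA_mapG (ψ : R →+* S) (a x : R) :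
    (CA_C c x * CA_A A a x).map ψ = CA_C c (ψ x) * CA_A A (ψ a) (ψ x) := by
  rw [Matrix.map_mul, CA_mapA]
  congr 1
  exact Matrix.ext fun _ _ => map_evN x ψ _

theorem CA_detG (ψ : R →+* S) (a x : R) :
    ψ (CA_C c x * CA_A A a x).det = (CA_C c (ψ x) * CA_A A (ψ a) (ψ x)).det := by
  rw [RingHom.map_det, RingHom.mapMatrix_apply, CA_mapG]

theorem CA_tri (h₄ : c.chk₄ A = true) (hl : (c.l : R) = 0) (h0 : 0 < c.l) (x : R) (i j : Fin 12)
    (hij : j ≤ i) : (CA_C c x * CA_A A (c.a₀ : R) x) i j =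
      if i = j then CA_E c x i * (if i = 11 then evN x (c.red c.p) else 1) else 0 := by
  simp only [NCert.chk₄, List.all_eq_true, List.mem_finRange, forall_true_left, Bool.or_eq_true,
    decide_eq_true_eq] at h₄
  have h := evN_of_eqN x hl h0 ((h₄ i j).resolve_left (not_lt.2 hij))
  rw [CA_sumN, ← Fin.sum_univ_def] at h
  simp only [evN_mulN, NCert.red, evN_red x hl h0] at h
  rw [Matrix.mul_apply]
  refine ((Finset.sum_congr rfl fun k _ => mul_comm _ _).trans h).trans ?_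
  by_cases e : i = j
  · rw [if_pos e, if_pos e, NCert.dg, evN_mulN, evN_mulN, CA_repN, CA_powN, CA_lin hl h0, CA_E]
    split_ifs <;> simp [evN]
  · rw [if_neg e, if_neg e, evN]

theorem CA_det (h₄ : c.chk₄ A = true) (hl : (c.l : R) = 0) (h0 : 0 < c.l) (x : R) :
    (CA_C c x * CA_A A (c.a₀ : R) x).det = (∏ i, CA_E c x i) * evN x (c.red c.p) := by
  rw [Matrix.det_of_isUpperTriangular fun i j h => by
    rw [CA_tri c A h₄ hl h0 x i j (le_of_lt h), if_neg (show i ≠ j from ne_of_gt h)]]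
  simp only [CA_tri c A h₄ hl h0 x _ _ le_rfl, if_true, Finset.prod_mul_distrib,
    Finset.prod_ite_eq', Finset.mem_univ]

theorem CA_blk (h₄ : c.chk₄ A = true) (hl : (c.l : R) = 0) (h0 : 0 < c.l) (x : R) :
    ((CA_C c x * CA_A A (c.a₀ : R) x).submatrix Fin.castSucc Fin.castSucc).det =
      ∏ i : Fin 11, CA_E c x i.castSucc := by
  rw [Matrix.det_of_isUpperTriangular fun i j h => by
    have h' : j.castSucc < i.castSucc := h
    rw [Matrix.submatrix_apply, CA_tri c A h₄ hl h0 x _ _ h'.le, if_neg h'.ne']]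
  refine Finset.prod_congr rfl fun i _ => ?_
  rw [Matrix.submatrix_apply, CA_tri c A h₄ hl h0 x _ _ le_rfl, if_pos rfl,
    if_neg (show i.castSucc ≠ 11 from (Fin.castSucc_lt_last i).ne), mul_one]

theorem CA_E_ne [IsDomain R] {x : R} (h0 : x ≠ 0) (h1 : x ≠ 1) (i : Fin 12) : CA_E c x i ≠ 0 :=
  mul_ne_zero (pow_ne_zero _ h0) (pow_ne_zero _ (sub_ne_zero.2 h1))

theorem CA_unity [IsDomain R] (φ : R →+* S) (h2 : (2 : S) ≠ 0) {ζ : R} (h1 : φ ζ = 1) (j : ℕ)
    (h : ζ ^ 2 ^ j = 1) : ζ = 1 := by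
  induction j with
  | zero => simpa using h
  | succ j ih =>
    rw [pow_succ, pow_mul, sq_eq_one_iff] at h
    rcases h with h | h
    · exact ih h
    · have h3 := congrArg φ h
      rw [map_pow, h1, one_pow, map_neg, map_one] at h3
      exact absurd (by linear_combination h3) h2

end

theorem good_of_cert (c : NCert) (A : Fin 12 → Fin 12 → List Z8) (h₁ : c.chk₁ = true)
    (h₂ : c.chk₂ = true) (h₃ : c.chk₃ A = true) (h₄ : c.chk₄ A = true) :
    ∃ a s₀ : ℂ, a ^ 4 = -1 ∧ GoodMat (Matrix.of fun i j => evZ (C a) X (A i j)) s₀ := by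
  obtain ⟨l1, l2, l3, -⟩ := CA_chk₁ c h₁
  have h0 : 0 < c.l := by omega
  obtain ⟨k, _, φ, a, hl, ha, hφ⟩ := exists_residue l2 l3
  obtain ⟨s, hs, hp⟩ := c.exists_root h₁
  obtain ⟨ι, hι, hi⟩ : ∃ ι : integralClosure ℤ ℂ →+* ℂ, (∀ x, ι x = (x : ℂ)) ∧
    Function.Injective ι := ⟨algebraMap _ _, fun _ => rfl, Subtype.val_injective⟩
  have hr : evN (φ s) (c.red c.p) = 0 := by
    rw [NCert.red, evN_red _ hl h0, ← hφ, ← map_evZ, hp a ha, map_zero]
  obtain ⟨r0, r1, r2, r3⟩ := c.roots h₁ h₂ hl hr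
  have h2 : (2 : k) ≠ 0 := fun h => by
    have e : c.l = 2 * (c.l / 2) + 1 := by omega
    rw [e] at hl
    push_cast at hl
    rw [h, zero_mul, zero_add] at hl
    exact one_ne_zero hl
  simp only [NCert.chk₃, Bool.and_eq_true, List.all_eq_true, List.mem_finRange,
    forall_true_left] at h₃
  have dA : (CA_A A a s).det = 0 := by
    refine Matrix.exists_vecMul_eq_zero_iff.1 ⟨fun i => evZ a s (c.v.getD i []), fun h => ?_, ?_⟩
    · have e1 : evZ a s (c.v.getD 0 []) = 0 := congrFun h 0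
      have e2 := evN_of_eqN (φ s) hl h0 h₃.2
      rw [evN_addN, evN_mulN, evN_mulN, hr, NCert.red, evN_red _ hl h0, ← hφ, ← map_evZ, e1] at e2
      simp [evN] at e2
    · funext j
      have e := evZ_of_all a s (List.all_eq_true.2 (h₃.1 j))
      rw [evZ_subZ, CA_sumZ, ← Fin.sum_univ_def, evZ_mulZ a s ha, hp a ha, zero_mul, sub_zero] at e
      simp only [evZ_mulZ a s ha] at e
      exact e
  have ev : ∀ x, (CA_C c X * CA_A A (C a) X).det.eval x = (CA_C c x * CA_A A a x).det := fun x => by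
    have e := CA_detG c A (evalRingHom x) (C a) X
    simpa only [coe_evalRingHom, eval_X, eval_C] using e
  obtain ⟨D, hD⟩ : X - C s ∣ (CA_C c X * CA_A A (C a) X).det :=
    dvd_iff_isRoot.2 (by rw [IsRoot.def, ev, Matrix.det_mul, dA, mul_zero])
  have hlX : (c.l : k[X]) = 0 := by rw [← C_eq_natCast, hl, C_0]
  have key : ∀ (j : ℕ) (ζ : integralClosure ℤ ℂ), ζ ^ 2 ^ j = 1 → D.eval (ζ * s) ≠ 0 := by
    intro j ζ hζ hz
    by_cases h1 : φ ζ = 1
    · rw [CA_unity φ h2 h1 j hζ, one_mul] at hz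
      have e := CA_detG c A (mapRingHom φ) (C a) X
      rw [hD, coe_mapRingHom, map_X, map_C, hφ, C_eq_natCast, CA_det c A h₄ hlX h0] at e
      have e2 := congrArg (fun p => (derivative p).eval (φ s)) e
      have e3 : (D.map φ).eval (φ s) = 0 := by rw [eval_map, eval₂_at_apply, hz, map_zero]
      simp only [Polynomial.map_mul, Polynomial.map_sub, map_X, map_C, derivative_mul, eval_add,
        eval_mul, eval_sub, eval_X, eval_C, sub_self, e3, evN_eq_eval, hr, mul_zero, zero_mul,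
        add_zero, zero_add] at e2
      refine mul_ne_zero ?_ r2 e2.symm
      rw [eval_prod]
      refine Finset.prod_ne_zero_iff.2 fun i _ => ?_
      have e4 := CA_E_ne c r0 r1 i
      simpa only [CA_E, eval_mul, eval_pow, eval_sub, eval_X, eval_one] using e4
    · have hz' : φ ζ ^ 2 ^ j = 1 := by rw [← map_pow, hζ, map_one]
      have e := ev (ζ * s)
      rw [hD, eval_mul, hz, mul_zero] at e
      have e2 := CA_detG c A φ a (ζ * s)
      rw [← e, map_zero, hφ, CA_det c A h₄ hl h0, map_mul] at e2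
      refine mul_ne_zero (Finset.prod_ne_zero_iff.2 fun i _ => CA_E_ne c ?_ ?_ i) ?_ e2.symm
      · refine mul_ne_zero (fun h => ?_) r0
        rw [h, zero_pow (by positivity)] at hz'
        exact zero_ne_one hz'
      · exact fun h => h1 (r3 j _ hz' (Or.inl h))
      · exact fun h => h1 (r3 j _ hz' (Or.inr h))
  have hA : (CA_A A (C (ι a)) X).map (eval (ι s)) = CA_A A (ι a) (ι s) := by
    have e := CA_mapA A (evalRingHom (ι s)) (C (ι a)) X
    simpa only [coe_evalRingHom, eval_X, eval_C] using e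
  change ∃ a s₀ : ℂ, a ^ 4 = -1 ∧ GoodMat (CA_A A (C a) X) s₀
  refine ⟨ι a, ι s, by rw [← map_pow, ha, map_neg, map_one], by rw [hι, hs], fun j hj => ?_, ?_,
    ⟨((CA_C c X * CA_A A (C a) X).adjugate * CA_C c X).map (mapRingHom ι), D.map ι, ?_,
      fun j ζ hζ => ?_⟩, fun u => ?_⟩
  · have e : φ s ^ 2 ^ j = 1 := by
      rw [← map_pow, hi (show ι (s ^ 2 ^ j) = ι 1 by rw [map_pow, hj, map_one]), map_one]
    have e1 : φ s ^ (2 ^ j - 1) * φ s = 1 := by
      rw [← pow_succ, Nat.sub_add_cancel Nat.one_le_two_pow, e]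
    have e2 := r3 j _ (by rw [← pow_mul, mul_comm, pow_mul, e, one_pow]) (Or.inl e1)
    rw [e2, one_mul] at e1
    exact r1 e1
  · rw [hA]
    refine Matrix.exists_mulVec_eq_zero_iff.2 ?_
    rw [← CA_mapA, ← RingHom.mapMatrix_apply, ← RingHom.map_det, dA, map_zero]
  · have e := CA_mapA A (mapRingHom ι) (C a) X
    rw [coe_mapRingHom, map_X, map_C, ← coe_mapRingHom] at e
    rw [← e, ← Matrix.map_mul, Matrix.mul_assoc, Matrix.adjugate_mul, hD]
    ext i j : 1
    by_cases h : i = j <;> simp [h]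
  · have hz : IsIntegral ℤ ζ := IsIntegral.of_pow (n := 2 ^ j) (by positivity) (hζ ▸ isIntegral_one)
    have e : ζ = ι ⟨ζ, hz⟩ := (hι ⟨ζ, hz⟩).symm
    rw [e, ← map_mul, eval_map, eval₂_at_apply]
    exact (map_ne_zero_iff ι hi).2 (key j _ (Subtype.ext hζ))
  · have b1 : ((CA_C c s * CA_A A a s).submatrix Fin.castSucc Fin.castSucc).det ≠ 0 := fun h => by
      have e := congrArg φ h
      rw [RingHom.map_det, RingHom.mapMatrix_apply, ← Matrix.submatrix_map, CA_mapG, hφ,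
        CA_blk c A h₄ hl h0, map_zero] at e
      exact Finset.prod_ne_zero_iff.2 (fun i _ => CA_E_ne c r0 r1 _) e
    have b2 := (map_ne_zero_iff ι hi).2 b1
    rw [RingHom.map_det, RingHom.mapMatrix_apply, ← Matrix.submatrix_map, CA_mapG] at b2
    obtain ⟨c', hc'⟩ := Matrix.vecMul_surjective_iff_isUnit.2
      ((Matrix.isUnit_iff_isUnit_det _).2 b2.isUnit) fun i => u i.castSucc
    rw [hA]
    refine ⟨Matrix.vecMul (Fin.snoc c' 0) (CA_C c (ι s)), u 11 - Matrix.vecMul (Fin.snoc c' 0)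
      (CA_C c (ι s) * CA_A A (ι a) (ι s)) 11, ?_⟩
    rw [Matrix.vecMul_vecMul]
    funext j
    induction j using Fin.lastCases with
    | last =>
      change u 11 = _ + (Pi.single (11 : Fin 12) _ : Fin 12 → ℂ) 11
      rw [Pi.single_eq_same]
      exact (add_sub_cancel _ _).symm
    | cast j =>
      rw [Pi.add_apply, Pi.single_eq_of_ne (show j.castSucc ≠ 11 from (Fin.castSucc_lt_last j).ne),
        add_zero, ← congrFun hc' j]
      simp only [Matrix.vecMul, dotProduct, Fin.sum_univ_castSucc (n := 11), Fin.snoc_castSucc,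
        Fin.snoc_last, zero_mul, add_zero, Matrix.submatrix_apply]

end Pool.Agent.MP_bc14e1_gt

end

section

/-! Auxiliary maps for the slice disc: Cayley maps and the spun curve. -/

open Set Metric Filter Topology
open scoped ContDiff

namespace Pool.Agent.MP_bc14e1_gt

theorem Sum_ext2 {v w : E 2} (h0 : v 0 = w 0) (h1 : v 1 = w 1) : v = w := by
  ext i
  fin_cases i
  exacts [h0, h1]

theorem Sum_ext3 {v w : E 3} (h0 : v 0 = w 0) (h1 : v 1 = w 1) (h2 : v 2 = w 2) : v = w := by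
  ext i
  fin_cases i
  exacts [h0, h1, h2]

theorem Sum_ext4 {v w : E 4} (h0 : v 0 = w 0) (h1 : v 1 = w 1) (h2 : v 2 = w 2)
    (h3 : v 3 = w 3) : v = w := by
  ext i
  fin_cases i
  exacts [h0, h1, h2, h3]

theorem Sum_sq2 (v : E 2) : ‖v‖ ^ 2 = v 0 ^ 2 + v 1 ^ 2 := by
  rw [EuclideanSpace.real_norm_sq_eq, Fin.sum_univ_two]

theorem Sum_sq3 (v : E 3) : ‖v‖ ^ 2 = v 0 ^ 2 + v 1 ^ 2 + v 2 ^ 2 := by
  rw [EuclideanSpace.real_norm_sq_eq, Fin.sum_univ_three]

theorem Sum_sq4 (v : E 4) : ‖v‖ ^ 2 = v 0 ^ 2 + v 1 ^ 2 + v 2 ^ 2 + v 3 ^ 2 := by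
  rw [EuclideanSpace.real_norm_sq_eq, Fin.sum_univ_four]

section Ker

variable {X Y Z : Type} [NormedAddCommGroup X] [NormedSpace ℝ X] [NormedAddCommGroup Y]
  [NormedSpace ℝ Y] [NormedAddCommGroup Z] [NormedSpace ℝ Z]

theorem Sum_ker {f : X → Y} {g : Y → Z} {h : X → Z} {x v : X} (hf : DifferentiableAt ℝ f x)
    (hg : DifferentiableAt ℝ g (f x)) (e : (fun y => g (f y)) =ᶠ[𝓝 x] h)
    (hv : fderiv ℝ f x v = 0) : fderiv ℝ h x v = 0 := by
  rw [← e.fderiv_eq, fderiv_fun_comp x hg hf, ContinuousLinearMap.comp_apply, hv, map_zero]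

theorem Sum_inj {f : X → Y} {g : Y → X} {x : X} (hf : DifferentiableAt ℝ f x)
    (hg : DifferentiableAt ℝ g (f x)) (e : ∀ᶠ y in 𝓝 x, g (f y) = y) :
    Function.Injective (fderiv ℝ f x) := by
  refine (injective_iff_map_eq_zero _).2 fun v hv => ?_
  have := Sum_ker (h := fun y => y) hf hg e hv
  simpa using this

end Ker

theorem Sum_radial {φ g : ℝ → ℝ} (h0 : ∀ r, 0 ≤ φ r) (hg : ContinuousAt g 1) (hp : 0 < g 1)
    (e : ∀ᶠ r in 𝓝 (1 : ℝ), φ r ^ 2 = 1 - (1 - r ^ 2) * g r) : 0 < deriv φ 1 := by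
  have h1 : HasDerivAt (fun r : ℝ => 1 - (1 - r ^ 2) * g r) (2 * g 1) 1 := by
    rw [hasDerivAt_iff_tendsto_slope]
    have h2 : Tendsto (fun r : ℝ => (1 + r) * g r) (𝓝[≠] 1) (𝓝 (2 * g 1)) := by
      have h3 : ContinuousAt (fun r : ℝ => (1 + r) * g r) 1 := by fun_prop
      have h4 := h3.tendsto.mono_left (nhdsWithin_le_nhds (s := {1}ᶜ))
      rwa [one_add_one_eq_two] at h4
    refine h2.congr' ?_
    filter_upwards [self_mem_nhdsWithin] with r hr
    have hr' : r - 1 ≠ 0 := sub_ne_zero.2 hr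
    rw [slope_def_field]
    field_simp
    ring
  have h5 := h1.sqrt (by norm_num)
  have h6 : φ =ᶠ[𝓝 1] fun r : ℝ => √(1 - (1 - r ^ 2) * g r) := by
    filter_upwards [e] with r hr
    rw [← hr, Real.sqrt_sq (h0 r)]
  rw [h6.deriv_eq, h5.deriv]
  norm_num
  exact hp

/-! ### The Cayley map of the half space -/

/-- Denominator of the Cayley map. -/
noncomputable def Sum_N (w : E 4) : ℝ := w 0 ^ 2 + w 1 ^ 2 + w 2 ^ 2 + (1 + w 3) ^ 2

/-- The Cayley map. -/
noncomputable def Sum_C (w : E 4) : E 4 :=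
  (Sum_N w)⁻¹ • !₂[1 - w 0 ^ 2 - w 1 ^ 2 - w 2 ^ 2 - w 3 ^ 2, 2 * w 0, 2 * w 1, 2 * w 2]

/-- Denominator of the inverse Cayley map. -/
noncomputable def Sum_N' (v : E 4) : ℝ := (1 + v 0) ^ 2 + v 1 ^ 2 + v 2 ^ 2 + v 3 ^ 2

/-- The inverse Cayley map. -/
noncomputable def Sum_C' (v : E 4) : E 4 :=
  (Sum_N' v)⁻¹ • !₂[2 * v 1, 2 * v 2, 2 * v 3, 1 - v 0 ^ 2 - v 1 ^ 2 - v 2 ^ 2 - v 3 ^ 2]

theorem Sum_N_cd : ContDiff ℝ ∞ Sum_N := by
  unfold Sum_N
  fun_prop

theorem Sum_N'_cd : ContDiff ℝ ∞ Sum_N' := by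
  unfold Sum_N'
  fun_prop

theorem Sum_N_pos {w : E 4} (h : 0 ≤ w 3) : 0 < Sum_N w := by
  unfold Sum_N
  positivity

theorem Sum_C_cd {w : E 4} (h : Sum_N w ≠ 0) : ContDiffAt ℝ ∞ Sum_C w := by
  unfold Sum_C
  refine ContDiffAt.smul (Sum_N_cd.contDiffAt.inv h) (ContDiff.contDiffAt ?_)
  rw [contDiff_euclidean]
  intro i
  fin_cases i <;> simp <;> fun_prop

theorem Sum_C'_cd {v : E 4} (h : Sum_N' v ≠ 0) : ContDiffAt ℝ ∞ Sum_C' v := by
  unfold Sum_C'
  refine ContDiffAt.smul (Sum_N'_cd.contDiffAt.inv h) (ContDiff.contDiffAt ?_)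
  rw [contDiff_euclidean]
  intro i
  fin_cases i <;> simp <;> fun_prop

theorem Sum_N'_C {w : E 4} (h : Sum_N w ≠ 0) : Sum_N' (Sum_C w) = 4 / Sum_N w := by
  simp only [Sum_N', Sum_C, PiLp.smul_apply, smul_eq_mul, Matrix.cons_val_zero,
    Matrix.cons_val_one, Matrix.cons_val]
  field_simp
  unfold Sum_N
  ring

theorem Sum_norm_C {w : E 4} (h : Sum_N w ≠ 0) :
    ‖Sum_C w‖ ^ 2 = 1 - 4 * w 3 / Sum_N w := by
  rw [Sum_sq4]
  simp only [Sum_C, PiLp.smul_apply, smul_eq_mul, Matrix.cons_val_zero,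
    Matrix.cons_val_one, Matrix.cons_val]
  field_simp
  unfold Sum_N
  ring

theorem Sum_C'_C {w : E 4} (h : Sum_N w ≠ 0) : Sum_C' (Sum_C w) = w := by
  have h1 := Sum_norm_C h
  rw [Sum_sq4] at h1
  have h2 : 1 - Sum_C w 0 ^ 2 - Sum_C w 1 ^ 2 - Sum_C w 2 ^ 2 - Sum_C w 3 ^ 2 =
      4 * w 3 / Sum_N w := by linarith
  unfold Sum_C'
  rw [Sum_N'_C h, h2]
  refine Sum_ext4 ?_ ?_ ?_ ?_ <;>
    simp only [Sum_C, PiLp.smul_apply, smul_eq_mul, Matrix.cons_val_zero,
      Matrix.cons_val_one, Matrix.cons_val] <;> field_simp <;> ring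

theorem Sum_C_inj {w : E 4} (h : Sum_N w ≠ 0) : Function.Injective (fderiv ℝ Sum_C w) := by
  refine Sum_inj (g := Sum_C') ((Sum_C_cd h).differentiableAt (by simp))
    ((Sum_C'_cd ?_).differentiableAt (by simp)) ?_
  · rw [Sum_N'_C h]
    exact div_ne_zero four_ne_zero h
  · filter_upwards [Sum_N_cd.continuous.continuousAt.eventually_ne h] with y hy
    exact Sum_C'_C hy

theorem Sum_C_ne {w : E 4} (h : Sum_N w ≠ 0) : Sum_C w ≠ !₂[-1, 0, 0, 0] := by
  intro e
  have h1 := Sum_N'_C h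
  rw [e] at h1
  simp [Sum_N'] at h1
  exact div_ne_zero four_ne_zero h h1.symm

theorem Sum_C_stereo (w : E 3) : Sum_C !₂[w 0, w 1, w 2, 0] = stereoInv w := by
  have h : Sum_N !₂[w 0, w 1, w 2, 0] = 1 + ‖w‖ ^ 2 := by
    rw [Sum_sq3]
    simp [Sum_N]
    ring
  unfold Sum_C stereoInv
  rw [h, Sum_sq3]
  congr 1
  refine Sum_ext4 ?_ ?_ ?_ ?_ <;> simp
  ring

/-! ### The Cayley map of the half plane -/

/-- Denominator of the disc coordinate. -/
noncomputable def Sum_n (x : E 2) : ℝ := (1 + x 0) ^ 2 + x 1 ^ 2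

/-- From the disc to the half plane. -/
noncomputable def Sum_xi (x : E 2) : E 2 :=
  (Sum_n x)⁻¹ • !₂[2 * x 1, 1 - x 0 ^ 2 - x 1 ^ 2]

/-- Denominator of the inverse map. -/
noncomputable def Sum_n' (y : E 2) : ℝ := y 0 ^ 2 + (1 + y 1) ^ 2

/-- From the half plane to the disc. -/
noncomputable def Sum_c (y : E 2) : E 2 :=
  (Sum_n' y)⁻¹ • !₂[1 - y 0 ^ 2 - y 1 ^ 2, 2 * y 0]

theorem Sum_n_cd : ContDiff ℝ ∞ Sum_n := by
  unfold Sum_n
  fun_prop

theorem Sum_n'_cd : ContDiff ℝ ∞ Sum_n' := by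
  unfold Sum_n'
  fun_prop

theorem Sum_n_pos {x : E 2} (h : x ≠ !₂[-1, 0]) : 0 < Sum_n x := by
  unfold Sum_n
  by_contra h1
  have h2 : 1 + x 0 = 0 := by nlinarith [sq_nonneg (1 + x 0), sq_nonneg (x 1)]
  have h3 : x 1 = 0 := by nlinarith [sq_nonneg (1 + x 0), sq_nonneg (x 1)]
  exact h (Sum_ext2 (by simp; linarith) (by simp [h3]))

theorem Sum_xi_cd {x : E 2} (h : Sum_n x ≠ 0) : ContDiffAt ℝ ∞ Sum_xi x := by
  unfold Sum_xi
  refine ContDiffAt.smul (Sum_n_cd.contDiffAt.inv h) (ContDiff.contDiffAt ?_)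
  rw [contDiff_euclidean]
  intro i
  fin_cases i <;> simp <;> fun_prop

theorem Sum_c_cd {y : E 2} (h : Sum_n' y ≠ 0) : ContDiffAt ℝ ∞ Sum_c y := by
  unfold Sum_c
  refine ContDiffAt.smul (Sum_n'_cd.contDiffAt.inv h) (ContDiff.contDiffAt ?_)
  rw [contDiff_euclidean]
  intro i
  fin_cases i <;> simp <;> fun_prop

theorem Sum_xi_0 (x : E 2) : Sum_xi x 0 = (Sum_n x)⁻¹ * (2 * x 1) := by simp [Sum_xi]

theorem Sum_xi_1 (x : E 2) : Sum_xi x 1 = (Sum_n x)⁻¹ * (1 - ‖x‖ ^ 2) := by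
  rw [Sum_sq2, ← sub_sub]
  simp [Sum_xi]

theorem Sum_n'_xi {x : E 2} (h : Sum_n x ≠ 0) : Sum_n' (Sum_xi x) = 4 / Sum_n x := by
  simp only [Sum_n', Sum_xi, PiLp.smul_apply, smul_eq_mul, Matrix.cons_val_zero,
    Matrix.cons_val_one]
  field_simp
  unfold Sum_n
  ring

theorem Sum_norm_xi {x : E 2} (h : Sum_n x ≠ 0) :
    ‖Sum_xi x‖ ^ 2 = 1 - 4 * x 0 / Sum_n x := by
  rw [Sum_sq2]
  simp only [Sum_xi, PiLp.smul_apply, smul_eq_mul, Matrix.cons_val_zero,
    Matrix.cons_val_one]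
  field_simp
  unfold Sum_n
  ring

theorem Sum_c_xi {x : E 2} (h : Sum_n x ≠ 0) : Sum_c (Sum_xi x) = x := by
  have h1 := Sum_norm_xi h
  rw [Sum_sq2] at h1
  have h2 : 1 - Sum_xi x 0 ^ 2 - Sum_xi x 1 ^ 2 = 4 * x 0 / Sum_n x := by linarith
  unfold Sum_c
  rw [Sum_n'_xi h, h2]
  refine Sum_ext2 ?_ ?_ <;>
    simp only [Sum_xi, PiLp.smul_apply, smul_eq_mul, Matrix.cons_val_zero,
      Matrix.cons_val_one] <;> field_simp
  ring

theorem Sum_xi_inj {x : E 2} (h : Sum_n x ≠ 0) : Function.Injective (fderiv ℝ Sum_xi x) := by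
  refine Sum_inj (g := Sum_c) ((Sum_xi_cd h).differentiableAt (by simp))
    ((Sum_c_cd ?_).differentiableAt (by simp)) ?_
  · rw [Sum_n'_xi h]
    exact div_ne_zero four_ne_zero h
  · filter_upwards [Sum_n_cd.continuous.continuousAt.eventually_ne h] with y hy
    exact Sum_c_xi hy

theorem Sum_C_lin (y : E 2) : Sum_C !₂[y 0, 0, 0, y 1] = !₂[Sum_c y 0, Sum_c y 1, 0, 0] := by
  have h : Sum_N !₂[y 0, 0, 0, y 1] = Sum_n' y := by simp [Sum_N, Sum_n']
  unfold Sum_C
  rw [h]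
  refine Sum_ext4 ?_ ?_ ?_ ?_ <;> simp [Sum_c]

theorem Sum_xi_big (T : ℝ) :
    ∀ᶠ x in 𝓝 (!₂[-1, 0] : E 2), x ≠ !₂[-1, 0] → T ≤ ‖Sum_xi x‖ := by
  have h1 : Continuous fun x : E 2 => Sum_n x - 4 * x 0 - T ^ 2 * Sum_n x := by
    have := Sum_n_cd.continuous
    fun_prop
  have h2 : ∀ᶠ x in 𝓝 (!₂[-1, 0] : E 2), 0 < Sum_n x - 4 * x 0 - T ^ 2 * Sum_n x :=
    h1.continuousAt.eventually (lt_mem_nhds (by simp [Sum_n]))
  filter_upwards [h2] with x hx hne
  have hp := Sum_n_pos hne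
  refine le_trans (le_abs_self T) (abs_le_of_sq_le_sq' ?_ (norm_nonneg _)).2
  rw [sq_abs, Sum_norm_xi hp.ne', one_sub_div hp.ne', le_div_iff₀ hp]
  linarith

theorem Sum_boundary (t : ℝ) : ∃ x : E 2, ‖x‖ = 1 ∧ x ≠ !₂[-1, 0] ∧ Sum_xi x = !₂[t, 0] := by
  have ht : (1 + t ^ 2) ≠ 0 := by positivity
  have hn : Sum_n !₂[(1 - t ^ 2) / (1 + t ^ 2), 2 * t / (1 + t ^ 2)] = 4 / (1 + t ^ 2) := by
    simp only [Sum_n, Matrix.cons_val_zero, Matrix.cons_val_one]
    field_simp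
    ring
  have h1 : ‖(!₂[(1 - t ^ 2) / (1 + t ^ 2), 2 * t / (1 + t ^ 2)] : E 2)‖ ^ 2 = 1 := by
    rw [Sum_sq2]
    simp only [Matrix.cons_val_zero, Matrix.cons_val_one]
    field_simp
    ring
  refine ⟨!₂[(1 - t ^ 2) / (1 + t ^ 2), 2 * t / (1 + t ^ 2)], ?_, ?_, ?_⟩
  · exact (pow_eq_one_iff_of_nonneg (norm_nonneg _) two_ne_zero).1 h1
  · intro e
    rw [e] at hn
    simp [Sum_n] at hn
    exact div_ne_zero four_ne_zero ht hn.symm
  · refine Sum_ext2 ?_ ?_
    · rw [Sum_xi_0, hn]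
      simp only [Matrix.cons_val_zero, Matrix.cons_val_one]
      field_simp
      ring
    · rw [Sum_xi_1, h1]
      simp

end Pool.Agent.MP_bc14e1_gt

end

section

/-! The sum of an odd long knot with itself is slice. -/

open Set Metric Filter Topology
open scoped ContDiff

namespace Pool.Agent.MP_bc14e1_gt

/-- The half curve that is spun. -/
structure Sum_Half (M : ℝ → E 3) (δ T : ℝ) : Prop where
  smooth : ContDiff ℝ ∞ M
  inj : Function.Injective M
  imm : ∀ t, deriv M t ≠ 0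
  pos : ∀ t, 0 < t → 0 < M t 0
  hδ : 0 < δ
  small : ∀ t, t ≤ δ → M t = EuclideanSpace.single 0 t
  large : ∀ t, T ≤ t → M t = EuclideanSpace.single 0 t

/-- The spun curve. -/
noncomputable def Sum_D (M : ℝ → E 3) (y : E 2) : E 4 :=
  ‖y‖⁻¹ • !₂[M ‖y‖ 0 * y 0, M ‖y‖ 1 * y 0 - M ‖y‖ 2 * y 1, M ‖y‖ 1 * y 1 + M ‖y‖ 2 * y 0,
    M ‖y‖ 0 * y 1]

/-- The first complex coordinate, its modulus. -/
noncomputable def Sum_rho (w : E 4) : ℝ := √(w 0 ^ 2 + w 3 ^ 2)

/-- The first complex coordinate, its argument. -/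
noncomputable def Sum_U (w : E 4) : E 2 := (Sum_rho w)⁻¹ • !₂[w 0, w 3]

/-- Rotating back. -/
noncomputable def Sum_G (w : E 4) : E 3 :=
  !₂[Sum_rho w, (Sum_rho w)⁻¹ * (w 1 * w 0 + w 2 * w 3), (Sum_rho w)⁻¹ * (w 2 * w 0 - w 1 * w 3)]

open Classical in
/-- The positive factor in the last coordinate. -/
noncomputable def Sum_k (M : ℝ → E 3) (y : E 2) : ℝ := if y = 0 then 1 else ‖y‖⁻¹ * M ‖y‖ 0

variable {M : ℝ → E 3} {δ T : ℝ}

theorem Sum_D_lin {y : E 2} (h : M ‖y‖ = EuclideanSpace.single 0 ‖y‖) :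
    Sum_D M y = !₂[y 0, 0, 0, y 1] := by
  rcases eq_or_ne y 0 with rfl | hy
  · refine Sum_ext4 ?_ ?_ ?_ ?_ <;> simp [Sum_D]
  · have hn : ‖y‖ ≠ 0 := norm_ne_zero_iff.2 hy
    unfold Sum_D
    rw [h]
    refine Sum_ext4 ?_ ?_ ?_ ?_ <;> simp [hn]

theorem Sum_D_ev (H : Sum_Half M δ T) :
    Sum_D M =ᶠ[𝓝 0] fun y : E 2 => (!₂[y 0, 0, 0, y 1] : E 4) := by
  filter_upwards [closedBall_mem_nhds (0 : E 2) H.hδ] with y hy
  exact Sum_D_lin (H.small _ (by simpa using hy))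

theorem Sum_D_cd (H : Sum_Half M δ T) (y : E 2) : ContDiffAt ℝ ∞ (Sum_D M) y := by
  rcases eq_or_ne y 0 with rfl | hy
  · refine ContDiffAt.congr_of_eventuallyEq (ContDiff.contDiffAt ?_) (Sum_D_ev H)
    rw [contDiff_euclidean]
    intro i
    fin_cases i <;> simp <;> fun_prop
  · have h1 : ContDiffAt ℝ ∞ (fun z : E 2 => ‖z‖) y := contDiffAt_norm ℝ hy
    have h2 : ContDiffAt ℝ ∞ (fun z : E 2 => M ‖z‖) y := H.smooth.contDiffAt.comp y h1
    have h3 : ∀ i, ContDiffAt ℝ ∞ (fun z : E 2 => M ‖z‖ i) y := contDiffAt_euclidean.1 h2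
    have h4 := h3 0
    have h5 := h3 1
    have h6 := h3 2
    unfold Sum_D
    refine ContDiffAt.smul (h1.inv (norm_ne_zero_iff.2 hy)) ?_
    rw [contDiffAt_euclidean]
    intro i
    fin_cases i <;> simp <;> fun_prop

theorem Sum_rho_D (H : Sum_Half M δ T) {y : E 2} (hy : y ≠ 0) :
    Sum_rho (Sum_D M y) = M ‖y‖ 0 := by
  have hn : ‖y‖ ≠ 0 := norm_ne_zero_iff.2 hy
  have hp := H.pos _ (norm_pos_iff.2 hy)
  have h2 := Sum_sq2 y
  unfold Sum_rho
  rw [← Real.sqrt_sq hp.le]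
  congr 1
  simp only [Sum_D, PiLp.smul_apply, smul_eq_mul, Matrix.cons_val_zero, Matrix.cons_val]
  field_simp
  rw [h2]

theorem Sum_U_D (H : Sum_Half M δ T) {y : E 2} (hy : y ≠ 0) :
    Sum_U (Sum_D M y) = ‖y‖⁻¹ • y := by
  have hp := (H.pos _ (norm_pos_iff.2 hy)).ne'
  unfold Sum_U
  rw [Sum_rho_D H hy]
  refine Sum_ext2 ?_ ?_ <;>
    simp only [Sum_D, PiLp.smul_apply, smul_eq_mul, Matrix.cons_val_zero, Matrix.cons_val_one,
      Matrix.cons_val] <;> field_simp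

theorem Sum_G_D (H : Sum_Half M δ T) {y : E 2} (hy : y ≠ 0) : Sum_G (Sum_D M y) = M ‖y‖ := by
  have hn : ‖y‖ ≠ 0 := norm_ne_zero_iff.2 hy
  have hp := (H.pos _ (norm_pos_iff.2 hy)).ne'
  have h2 := Sum_sq2 y
  unfold Sum_G
  rw [Sum_rho_D H hy]
  refine Sum_ext3 rfl ?_ ?_ <;>
    simp only [Sum_D, PiLp.smul_apply, smul_eq_mul, Matrix.cons_val_zero, Matrix.cons_val_one,
      Matrix.cons_val] <;> field_simp <;> rw [h2] <;> ring

theorem Sum_rho_diff {w : E 4} (h : Sum_rho w ≠ 0) : DifferentiableAt ℝ Sum_rho w := by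
  refine DifferentiableAt.sqrt (f := fun w : E 4 => w 0 ^ 2 + w 3 ^ 2) (by fun_prop) ?_
  intro h0
  exact h (by rw [Sum_rho, h0, Real.sqrt_zero])

theorem Sum_U_diff {w : E 4} (h : Sum_rho w ≠ 0) : DifferentiableAt ℝ Sum_U w := by
  unfold Sum_U
  refine DifferentiableAt.smul ((Sum_rho_diff h).inv h) ?_
  rw [differentiableAt_euclidean]
  intro i
  fin_cases i <;> simp <;> fun_prop

theorem Sum_G_diff {w : E 4} (h : Sum_rho w ≠ 0) : DifferentiableAt ℝ Sum_G w := by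
  have h1 := Sum_rho_diff h
  have h2 : DifferentiableAt ℝ (fun w => (Sum_rho w)⁻¹) w := h1.inv h
  unfold Sum_G
  rw [differentiableAt_euclidean]
  intro i
  fin_cases i
  · exact h1
  · exact h2.mul (by fun_prop)
  · exact h2.mul (by fun_prop)

theorem Sum_D_injective (H : Sum_Half M δ T) : Function.Injective (Sum_D M) := by
  have key : ∀ y : E 2, y ≠ 0 → Sum_D M y ≠ Sum_D M 0 := by
    intro y hy e
    have h1 := Sum_rho_D H hy
    have h2 := H.pos _ (norm_pos_iff.2 hy)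
    rw [e] at h1
    simp [Sum_rho, Sum_D] at h1
    exact h2.ne h1
  intro y z e
  rcases eq_or_ne y 0 with rfl | hy
  · by_contra hz
    exact key z (Ne.symm hz) e.symm
  rcases eq_or_ne z 0 with rfl | hz
  · exact absurd e (key y hy)
  have h1 : ‖y‖ = ‖z‖ := H.inj (by rw [← Sum_G_D H hy, ← Sum_G_D H hz, e])
  have h2 : ‖y‖⁻¹ • y = ‖z‖⁻¹ • z := by rw [← Sum_U_D H hy, ← Sum_U_D H hz, e]
  rw [h1] at h2
  exact smul_right_injective _ (inv_ne_zero (norm_ne_zero_iff.2 hz)) h2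

theorem Sum_D_imm (H : Sum_Half M δ T) (y : E 2) :
    Function.Injective (fderiv ℝ (Sum_D M) y) := by
  have hD : DifferentiableAt ℝ (Sum_D M) y := (Sum_D_cd H y).differentiableAt (by simp)
  rcases eq_or_ne y 0 with rfl | hy
  · refine Sum_inj (g := fun w : E 4 => (!₂[w 0, w 3] : E 2)) hD ?_ ?_
    · rw [differentiableAt_euclidean]
      intro i
      fin_cases i <;> simp <;> fun_prop
    · filter_upwards [Sum_D_ev H] with z hz
      rw [hz]
      exact Sum_ext2 rfl rfl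
  refine (injective_iff_map_eq_zero _).2 fun v hv => ?_
  have hr : Sum_rho (Sum_D M y) ≠ 0 := by
    rw [Sum_rho_D H hy]
    exact (H.pos _ (norm_pos_iff.2 hy)).ne'
  have hne : ∀ᶠ z in 𝓝 y, z ≠ 0 := isOpen_ne.mem_nhds hy
  have hn : DifferentiableAt ℝ (fun z : E 2 => ‖z‖) y :=
    (contDiffAt_norm ℝ (n := 1) hy).differentiableAt (by simp)
  have h1 : fderiv ℝ (fun z : E 2 => M ‖z‖) y v = 0 :=
    Sum_ker hD (Sum_G_diff hr) (hne.mono fun z hz => Sum_G_D H hz) hv
  have h2 : fderiv ℝ (fun z : E 2 => ‖z‖⁻¹ • z) y v = 0 :=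
    Sum_ker hD (Sum_U_diff hr) (hne.mono fun z hz => Sum_U_D H hz) hv
  have h3 : fderiv ℝ (fun z : E 2 => ‖z‖) y v = 0 := by
    rw [fderiv_fun_comp y (H.smooth.differentiable (by simp) _) hn,
      ContinuousLinearMap.comp_apply, fderiv_eq_smul_deriv] at h1
    exact (smul_eq_zero.1 h1).resolve_right (H.imm _)
  have hu : DifferentiableAt ℝ (fun z : E 2 => ‖z‖⁻¹ • z) y :=
    (hn.inv (norm_ne_zero_iff.2 hy)).smul differentiableAt_id
  have h4 := Sum_ker (f := fun z : E 2 => (‖z‖, ‖z‖⁻¹ • z)) (g := fun p : ℝ × E 2 => p.1 • p.2)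
    (h := fun z => z) (v := v) (hn.prodMk hu) (by fun_prop)
    (hne.mono fun z hz => by simp [smul_smul, norm_ne_zero_iff.2 hz])
    (by rw [hn.fderiv_prodMk hu]; simp [h2, h3])
  simpa using h4

theorem Sum_D_3 (y : E 2) : Sum_D M y 3 = Sum_k M y * y 1 := by
  unfold Sum_k
  split_ifs with h
  · simp [Sum_D, h]
  · simp [Sum_D, mul_assoc]

theorem Sum_k_pos (H : Sum_Half M δ T) (y : E 2) : 0 < Sum_k M y := by
  unfold Sum_k
  split_ifs with h
  · exact one_pos
  · exact mul_pos (inv_pos.2 (norm_pos_iff.2 h)) (H.pos _ (norm_pos_iff.2 h))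

theorem Sum_k_cont (H : Sum_Half M δ T) (y : E 2) : ContinuousAt (Sum_k M) y := by
  rcases eq_or_ne y 0 with rfl | hy
  · refine (continuousAt_const (y := (1 : ℝ))).congr ?_
    filter_upwards [closedBall_mem_nhds (0 : E 2) H.hδ] with z hz
    unfold Sum_k
    split_ifs with h
    · rfl
    · rw [H.small _ (by simpa using hz)]
      simp [norm_ne_zero_iff.2 h]
  · have h1 : ContinuousAt (fun z : E 2 => ‖z‖⁻¹ * M ‖z‖ 0) y := by
      have := H.smooth.continuous
      have hn : ‖y‖ ≠ 0 := norm_ne_zero_iff.2 hy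
      fun_prop (disch := exact hn)
    refine h1.congr ?_
    filter_upwards [isOpen_ne.mem_nhds hy] with z hz
    rw [Sum_k, if_neg hz]

open Classical in
/-- The slice disc. -/
noncomputable def Sum_d (M : ℝ → E 3) (x : E 2) : E 4 :=
  if x = !₂[-1, 0] then !₂[-1, 0, 0, 0] else Sum_C (Sum_D M (Sum_xi x))

theorem Sum_d_ev {x : E 2} (hx : x ≠ !₂[-1, 0]) :
    Sum_d M =ᶠ[𝓝 x] fun z => Sum_C (Sum_D M (Sum_xi z)) := by
  filter_upwards [isOpen_ne.mem_nhds hx] with z hz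
  rw [Sum_d, if_neg hz]

theorem Sum_d_pole (H : Sum_Half M δ T) :
    Sum_d M =ᶠ[𝓝 !₂[-1, 0]] fun z : E 2 => (!₂[z 0, z 1, 0, 0] : E 4) := by
  filter_upwards [Sum_xi_big T] with z hz
  unfold Sum_d
  split_ifs with h
  · rw [h]
    rfl
  · rw [Sum_D_lin (H.large _ (hz h)), Sum_C_lin, Sum_c_xi (Sum_n_pos h).ne']

theorem Sum_N_D (H : Sum_Half M δ T) {x : E 2} (hx : x ≠ !₂[-1, 0]) (h1 : ‖x‖ ≤ 1) :
    0 < Sum_N (Sum_D M (Sum_xi x)) := by
  refine Sum_N_pos ?_
  rw [Sum_D_3, Sum_xi_1]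
  have h2 : 0 ≤ 1 - ‖x‖ ^ 2 := by nlinarith [norm_nonneg x]
  have h3 := Sum_k_pos H (Sum_xi x)
  have h4 := Sum_n_pos hx
  positivity

theorem Sum_norm_d {x : E 2} (hx : x ≠ !₂[-1, 0]) (h : Sum_N (Sum_D M (Sum_xi x)) ≠ 0) :
    ‖Sum_d M x‖ ^ 2 = 1 - (1 - ‖x‖ ^ 2) *
      (4 * Sum_k M (Sum_xi x) * (Sum_n x)⁻¹ / Sum_N (Sum_D M (Sum_xi x))) := by
  rw [Sum_d, if_neg hx, Sum_norm_C h, Sum_D_3, Sum_xi_1]
  ring

theorem Sum_slice (H : Sum_Half M δ T) (L : ℝ → E 3) (h0 : L 0 = 0)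
    (hp : ∀ t, 0 < t → L t = M t) (hn : ∀ t, 0 < t → L (-t) = -M t) : Slice (closeUp L) := by
  have hbd : ∀ t : ℝ, Sum_C (Sum_D M !₂[t, 0]) = stereoInv (L t) := by
    intro t
    rw [← Sum_C_stereo]
    congr 1
    have hnorm : ‖(!₂[t, 0] : E 2)‖ = |t| := by
      rw [← sq_eq_sq₀ (norm_nonneg _) (abs_nonneg _), Sum_sq2, sq_abs]
      simp
    unfold Sum_D
    rw [hnorm]
    rcases lt_trichotomy t 0 with ht | rfl | ht
    · have := hn (-t) (by linarith)
      rw [neg_neg] at this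
      have ht' := ht.ne
      rw [this, abs_of_neg ht]
      refine Sum_ext4 ?_ ?_ ?_ ?_ <;> simp <;> field_simp
    · refine Sum_ext4 ?_ ?_ ?_ ?_ <;> simp [h0]
    · have ht' := ht.ne'
      rw [hp t ht, abs_of_pos ht]
      refine Sum_ext4 ?_ ?_ ?_ ?_ <;> simp <;> field_simp
  have hlin : ContDiff ℝ ∞ fun z : E 2 => (!₂[z 0, z 1, 0, 0] : E 4) := by
    rw [contDiff_euclidean]
    intro i
    fin_cases i <;> simp <;> fun_prop
  refine ⟨Sum_d M, fun x hx => ?_, fun x hx y hy e => ?_, fun x hx => ?_, fun x hx => ?_, ?_,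
    fun u hu => ?_⟩
  · rcases eq_or_ne x !₂[-1, 0] with rfl | h
    · exact hlin.contDiffAt.congr_of_eventuallyEq (Sum_d_pole H)
    · refine ContDiffAt.congr_of_eventuallyEq ?_ (Sum_d_ev h)
      exact ContDiffAt.comp (g := Sum_C) (f := fun z => Sum_D M (Sum_xi z)) x
        (Sum_C_cd (Sum_N_D H h (by simpa using hx)).ne')
        ((Sum_D_cd H _).comp x (Sum_xi_cd (Sum_n_pos h).ne'))
  · have hx' : ‖x‖ ≤ 1 := by simpa using hx
    have hy' : ‖y‖ ≤ 1 := by simpa using hy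
    unfold Sum_d at e
    split_ifs at e with h1 h2 h2
    · rw [h1, h2]
    · exact absurd e.symm (Sum_C_ne (Sum_N_D H h2 hy').ne')
    · exact absurd e (Sum_C_ne (Sum_N_D H h1 hx').ne')
    · have h3 := congrArg Sum_C' e
      rw [Sum_C'_C (Sum_N_D H h1 hx').ne', Sum_C'_C (Sum_N_D H h2 hy').ne'] at h3
      rw [← Sum_c_xi (Sum_n_pos h1).ne', ← Sum_c_xi (Sum_n_pos h2).ne', Sum_D_injective H h3]
  · rcases eq_or_ne x !₂[-1, 0] with rfl | h
    · rw [(Sum_d_pole H).fderiv_eq]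
      refine Sum_inj (g := fun w : E 4 => (!₂[w 0, w 1] : E 2))
        (hlin.differentiable (by simp) _) ?_ (Eventually.of_forall fun z => Sum_ext2 rfl rfl)
      rw [differentiableAt_euclidean]
      intro i
      fin_cases i <;> simp <;> fun_prop
    · have hN := (Sum_N_D H h (by simpa using hx)).ne'
      have d1 : DifferentiableAt ℝ Sum_xi x :=
        (Sum_xi_cd (Sum_n_pos h).ne').differentiableAt (by simp)
      have d2 : DifferentiableAt ℝ (Sum_D M) (Sum_xi x) :=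
        (Sum_D_cd H _).differentiableAt (by simp)
      have d3 : DifferentiableAt ℝ Sum_C (Sum_D M (Sum_xi x)) :=
        (Sum_C_cd hN).differentiableAt (by simp)
      rw [(Sum_d_ev h).fderiv_eq, fderiv_fun_comp x (f := fun z => Sum_D M (Sum_xi z)) d3
        (d2.comp x d1), fderiv_fun_comp x d2 d1, ContinuousLinearMap.coe_comp,
        ContinuousLinearMap.coe_comp]
      exact (Sum_C_inj hN).comp ((Sum_D_imm H _).comp (Sum_xi_inj (Sum_n_pos h).ne'))
  · have hx' : ‖x‖ < 1 := by simpa using hx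
    have h : x ≠ !₂[-1, 0] := by
      rintro rfl
      have : ‖(!₂[-1, 0] : E 2)‖ ^ 2 = 1 := by
        rw [Sum_sq2]
        simp
      nlinarith [norm_nonneg (!₂[-1, 0] : E 2)]
    have hN := Sum_N_D H h hx'.le
    have h1 := Sum_norm_d h hN.ne'
    have h2 : 0 < 1 - ‖x‖ ^ 2 := by nlinarith [norm_nonneg x]
    have h3 := Sum_k_pos H (Sum_xi x)
    have h4 := Sum_n_pos h
    have h5 : 0 < (1 - ‖x‖ ^ 2) *
      (4 * Sum_k M (Sum_xi x) * (Sum_n x)⁻¹ / Sum_N (Sum_D M (Sum_xi x))) := by positivity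
    nlinarith [norm_nonneg (Sum_d M x)]
  · ext v
    constructor
    · rintro ⟨x, hx, rfl⟩
      have hx' : ‖x‖ = 1 := by simpa using hx
      unfold Sum_d
      split_ifs with h
      · exact mem_insert _ _
      · refine mem_insert_of_mem _ ⟨Sum_xi x 0, ?_⟩
        have : Sum_xi x = !₂[Sum_xi x 0, 0] := Sum_ext2 rfl (by rw [Sum_xi_1, hx']; simp)
        rw [this]
        exact (hbd _).symm
    · rintro (rfl | ⟨t, rfl⟩)
      · refine ⟨!₂[-1, 0], ?_, if_pos rfl⟩
        rw [mem_sphere_zero_iff_norm, ← sq_eq_sq₀ (norm_nonneg _) zero_le_one, Sum_sq2]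
        simp
      · obtain ⟨x, h1, h2, h3⟩ := Sum_boundary t
        exact ⟨x, by simpa using h1, by rw [Sum_d, if_neg h2, h3, hbd]⟩
  · have hu' : ‖u‖ = 1 := by simpa using hu
    have hc : Tendsto (fun r : ℝ => r • u) (𝓝 1) (𝓝 u) := by
      have : Continuous fun r : ℝ => r • u := by fun_prop
      simpa using this.tendsto 1
    have hnorm : ∀ r : ℝ, ‖r • u‖ ^ 2 = r ^ 2 := fun r => by
      rw [norm_smul, hu', mul_one, Real.norm_eq_abs, sq_abs]
    rcases eq_or_ne u !₂[-1, 0] with h | h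
    · refine Sum_radial (g := fun _ => 1) (fun _ => norm_nonneg _) continuousAt_const one_pos ?_
      filter_upwards [hc.eventually (h ▸ Sum_d_pole H)] with r hr
      rw [hr, Sum_sq4, ← hnorm r, Sum_sq2]
      simp
    · have hN := Sum_N_D H h hu'.le
      have hn0 := Sum_n_pos h
      have c1 : ContinuousAt Sum_xi u := (Sum_xi_cd hn0.ne').continuousAt
      have c2 : ContinuousAt (fun z => Sum_N (Sum_D M (Sum_xi z))) u :=
        Sum_N_cd.continuous.continuousAt.comp ((Sum_D_cd H _).continuousAt.comp c1)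
      have c3 : ContinuousAt (fun z => 4 * Sum_k M (Sum_xi z) * (Sum_n z)⁻¹ /
          Sum_N (Sum_D M (Sum_xi z))) u :=
        ((continuousAt_const.mul ((Sum_k_cont H _).comp c1)).mul
          (Sum_n_cd.continuous.continuousAt.inv₀ hn0.ne')).div c2 hN.ne'
      refine Sum_radial (g := fun r => 4 * Sum_k M (Sum_xi (r • u)) * (Sum_n (r • u))⁻¹ /
          Sum_N (Sum_D M (Sum_xi (r • u)))) (fun _ => norm_nonneg _) ?_ ?_ ?_
      · exact ContinuousAt.comp (f := fun r : ℝ => r • u) (by rwa [one_smul]) (by fun_prop)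
      · have h3 := Sum_k_pos H (Sum_xi u)
        rw [one_smul]
        positivity
      · filter_upwards [hc.eventually (isOpen_ne.mem_nhds h),
          hc.eventually (c2.eventually_ne hN.ne')] with r h1 h2
        rw [Sum_norm_d h1 h2, hnorm]

theorem slice_sum (K : LongKnot) (hodd : ∀ t, K.f (-t) = -K.f t) {R₀ : ℝ} (h0 : R₀ < K.R)
    (hfar : ∀ t, R₀ ≤ |t| → K.f t = EuclideanSpace.single 0 t) :
    Slice (closeUp (sumCurve K K)) := by
  have hs : ∀ t : ℝ, (EuclideanSpace.single 0 (t - K.R) : E 3) + EuclideanSpace.single 0 K.R =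
      EuclideanSpace.single 0 t := fun t => by
    refine Sum_ext3 ?_ ?_ ?_ <;> simp
  have H : Sum_Half (fun t => K.f (t - K.R) + EuclideanSpace.single 0 K.R) (K.R - R₀)
      (2 * K.R) := by
    refine ⟨(K.smooth.comp (by fun_prop)).add contDiff_const, fun a b e => ?_, fun t => ?_,
      fun t ht => ?_, by linarith, fun t ht => ?_, fun t ht => ?_⟩
    · have := K.inj (add_right_cancel e)
      linarith
    · rw [deriv_add_const, deriv_comp_sub_const]
      exact K.imm _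
    · rcases le_or_gt K.R |t - K.R| with h | h
      · rw [K.far _ h, hs]
        simpa using ht
      · have h1 := K.near _ h
        have h2 := PiLp.norm_apply_le (K.f (t - K.R)) 0
        have h3 := neg_abs_le (K.f (t - K.R) 0)
        rw [Real.norm_eq_abs] at h2
        simp only [PiLp.add_apply, PiLp.single_apply, if_true]
        linarith
    · rw [hfar _ (le_trans (by linarith) (neg_le_abs _)), hs]
    · rw [K.far _ (le_trans (by linarith) (le_abs_self _)), hs]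
  refine Sum_slice H _ ?_ (fun t ht => ?_) fun t ht => ?_
  · rw [sumCurve, if_pos le_rfl, zero_add, K.far _ (le_abs_self _), sub_self]
  · rw [sumCurve, if_neg (not_le.2 ht)]
  · rw [sumCurve, if_pos (by linarith), show -t + K.R = -(t - K.R) by ring, hodd]
    abel

end Pool.Agent.MP_bc14e1_gt

end

section

/-! The four-sphere is orientable. -/

open Set Metric

namespace Pool.Agent.MP_bc14e1_gt

/-- The homology of cycles `Z` in `F0` modulo boundaries from `F1` is infinite cyclic. -/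
def Ori_Q {C1 C0 : Type} [AddCommGroup C1] [AddCommGroup C0] (d : C1 →ₗ[ℤ] C0)
    (F1 : Submodule ℤ C1) (F0 Z : Submodule ℤ C0) : Prop :=
  ∃ z ∈ F0, z ∈ Z ∧ ∀ c ∈ F0, c ∈ Z → ∃! n : ℤ, ∃ b ∈ F1, d b = c - n • z

theorem Ori_mv {C2 C1 C0 : Type} [AddCommGroup C2] [AddCommGroup C1] [AddCommGroup C0]
    (d1 : C2 →ₗ[ℤ] C1) (d0 : C1 →ₗ[ℤ] C0) (Z : Submodule ℤ C0) (A2 B2 U2 : Submodule ℤ C2)
    (A1 B1 U1 : Submodule ℤ C1) (A0 B0 : Submodule ℤ C0) (hdd : ∀ x, d0 (d1 x) = 0)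
    (hZ : ∀ x, d0 x ∈ Z) (a0 : ∀ c ∈ A0, c ∈ Z → ∃ b ∈ A1, d0 b = c)
    (b0 : ∀ c ∈ B0, c ∈ Z → ∃ b ∈ B1, d0 b = c) (a1 : ∀ c ∈ A1, d0 c = 0 → ∃ b ∈ A2, d1 b = c)
    (b1 : ∀ c ∈ B1, d0 c = 0 → ∃ b ∈ B2, d1 b = c) (ma : ∀ c ∈ A1, d0 c ∈ A0)
    (mb : ∀ c ∈ B1, d0 c ∈ B0) (ma' : ∀ c ∈ A2, d1 c ∈ A1) (mb' : ∀ c ∈ B2, d1 c ∈ B1)
    (ua : A2 ≤ U2) (ub : B2 ≤ U2) (ua' : A1 ≤ U1) (ub' : B1 ≤ U1)
    (s1 : ∀ c ∈ U1, d0 c = 0 → ∃ h ∈ U2, c - d1 h ∈ A1 ⊔ B1)
    (s2 : ∀ w ∈ U2, d1 w ∈ A1 ⊔ B1 → ∃ w' ∈ A2 ⊔ B2, d1 w' = d1 w)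
    (h : Ori_Q d0 (A1 ⊓ B1) (A0 ⊓ B0) Z) : Ori_Q d1 U2 U1 (LinearMap.ker d0) := by
  obtain ⟨z, hz, hzZ, h⟩ := h
  obtain ⟨a, ha, ea⟩ := a0 z hz.1 hzZ
  obtain ⟨b, hb, eb⟩ := b0 z hz.2 hzZ
  have key : ∀ (m : ℤ), ∀ w ∈ U2, d1 w = m • (a - b) → m = 0 := by
    intro m w hw e
    obtain ⟨w', hw', e'⟩ := s2 w hw (by
      rw [e]
      exact Submodule.smul_mem _ _ (sub_mem (Submodule.mem_sup_left ha) (Submodule.mem_sup_right hb)))
    obtain ⟨x, hx, y, hy, rfl⟩ := Submodule.mem_sup.1 hw'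
    rw [e, map_add] at e'
    have e2 : m • a - d1 x = m • b + d1 y := by
      rw [smul_sub] at e'
      linear_combination (norm := abel1) -e'
    refine (h (m • z) (Submodule.smul_mem _ _ hz) (Submodule.smul_mem _ _ hzZ)).unique
      ⟨0, zero_mem _, by rw [map_zero, sub_self]⟩
      ⟨m • a - d1 x, ⟨sub_mem (Submodule.smul_mem _ _ ha) (ma' x hx), ?_⟩, ?_⟩
    · rw [e2]
      exact add_mem (Submodule.smul_mem _ _ hb) (mb' y hy)
    · rw [map_sub, hdd, map_zsmul, ea, zero_smul]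
  refine ⟨a - b, sub_mem (ua' ha) (ub' hb), by rw [LinearMap.mem_ker, map_sub, ea, eb, sub_self],
    fun c hc hc0 => ?_⟩
  obtain ⟨g, hg, hs⟩ := s1 c hc hc0
  obtain ⟨u, hu, v, hv, e⟩ := Submodule.mem_sup.1 hs
  have e1 : d0 u = -d0 v := by
    have := congrArg d0 e
    rw [map_add, map_sub, hdd, show d0 c = 0 from hc0, sub_zero] at this
    exact eq_neg_of_add_eq_zero_left this
  obtain ⟨n, t, ht, et⟩ := (h (d0 u) ⟨ma u hu, e1 ▸ neg_mem (mb v hv)⟩ (hZ u)).exists
  obtain ⟨x, hx, ex⟩ := a1 (u - n • a - t) (sub_mem (sub_mem hu (Submodule.smul_mem _ _ ha)) ht.1)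
    (by rw [map_sub, map_sub, map_zsmul, ea, et, sub_self])
  obtain ⟨y, hy, ey⟩ := b1 (v + n • b + t) (add_mem (add_mem hv (Submodule.smul_mem _ _ hb)) ht.2)
    (by rw [map_add, map_add, map_zsmul, eb, et, e1]; abel)
  have e3 : d1 (g + x + y) = c - n • (a - b) := by
    rw [map_add, map_add, ex, ey, smul_sub]
    linear_combination (norm := abel1) e
  have h3 : g + x + y ∈ U2 := add_mem (add_mem hg (ua hx)) (ub hy)
  refine ⟨n, ⟨_, h3, e3⟩, ?_⟩
  rintro n' ⟨w, hw, ew⟩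
  have := key (n' - n) (g + x + y - w) (sub_mem h3 hw) (by
    rw [map_sub, e3, ew, sub_smul]
    abel)
  exact sub_eq_zero.1 this

section
open MP_4f4d9f_gt (SAcyc Acyclic aug aug_bd bd_bd bd_mem_supp supp_mono supp_inter small_chainR
  supp_union_zero single_mem_supp aug_single eq_zero_of_mem_supp_empty bd_push aug_push push_push
  push_id acyclic_of_contractible mem_supp_univ)

variable {X : Type} [TopologicalSpace X] {A B : Set X}

theorem Ori_small (hA : IsOpen A) (hB : IsOpen B) (k : ℕ) :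
    ∀ w ∈ MP_4f4d9f_gt.supp ℤ (A ∪ B) (k + 1),
      MP_4f4d9f_gt.bd ℤ X k w ∈ MP_4f4d9f_gt.supp ℤ A k ⊔ MP_4f4d9f_gt.supp ℤ B k →
      ∃ w' ∈ MP_4f4d9f_gt.supp ℤ A (k + 1) ⊔ MP_4f4d9f_gt.supp ℤ B (k + 1),
        MP_4f4d9f_gt.bd ℤ X k w' = MP_4f4d9f_gt.bd ℤ X k w := fun w hw hd => by
  obtain ⟨h, -, hh⟩ := small_chainR hA hB k w hw hd
  exact ⟨_, hh, by rw [map_sub, bd_bd, sub_zero]⟩

theorem Ori_base (hA : IsOpen A) (hB : IsOpen B) (aA : SAcyc ℤ A) (aB : SAcyc ℤ B)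
    (h : A ∩ B = ∅) : Ori_Q (MP_4f4d9f_gt.bd ℤ X 0) (MP_4f4d9f_gt.supp ℤ (A ∪ B) 1)
      (MP_4f4d9f_gt.supp ℤ (A ∪ B) 0) (LinearMap.ker (aug ℤ X)) := by
  have pt : ∀ {S : Set X}, SAcyc ℤ S → ∀ c ∈ (⊤ : Submodule ℤ ℤ), c ∈ (⊤ : Submodule ℤ ℤ) →
      ∃ b ∈ MP_4f4d9f_gt.supp ℤ S 0, aug ℤ X b = c := fun hS c _ _ => by
    obtain ⟨y, hy⟩ := hS.nonempty
    exact ⟨_, single_mem_supp (σ := ContinuousMap.const _ y) c fun _ => hy, aug_single _ _ _⟩
  refine Ori_mv _ (aug ℤ X) ⊤ _ _ _ _ _ _ ⊤ ⊤ (aug_bd ℤ) (fun _ => trivial) (pt aA) (pt aB)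
    aA.zero aB.zero (fun _ _ => trivial) (fun _ _ => trivial) (fun _ => bd_mem_supp)
    (fun _ => bd_mem_supp) (supp_mono subset_union_left _) (supp_mono subset_union_right _)
    (supp_mono subset_union_left _) (supp_mono subset_union_right _)
    (fun c hc _ => ⟨0, zero_mem _, by rwa [map_zero, sub_zero, ← supp_union_zero]⟩)
    (Ori_small hA hB 0) ⟨1, ⟨trivial, trivial⟩, trivial, fun c _ _ => ⟨c, ⟨0, zero_mem _, by simp⟩, ?_⟩⟩
  rintro n ⟨b, hb, e⟩
  rw [← supp_inter, h] at hb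
  rw [eq_zero_of_mem_supp_empty hb, map_zero, smul_eq_mul, mul_one] at e
  exact (sub_eq_zero.1 e.symm).symm

theorem Ori_zero (hA : IsOpen A) (hB : IsOpen B) (aA : SAcyc ℤ A) (aB : SAcyc ℤ B)
    (h : Ori_Q (MP_4f4d9f_gt.bd ℤ X 0) (MP_4f4d9f_gt.supp ℤ (A ∩ B) 1)
      (MP_4f4d9f_gt.supp ℤ (A ∩ B) 0) (LinearMap.ker (aug ℤ X))) :
    Ori_Q (MP_4f4d9f_gt.bd ℤ X 1) (MP_4f4d9f_gt.supp ℤ (A ∪ B) 2)
      (MP_4f4d9f_gt.supp ℤ (A ∪ B) 1) (LinearMap.ker (MP_4f4d9f_gt.bd ℤ X 0)) := by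
  rw [supp_inter, supp_inter] at h
  exact Ori_mv _ _ _ _ _ _ _ _ _ _ _ (bd_bd ℤ 0) (aug_bd ℤ) aA.zero aB.zero (aA.succ 0)
    (aB.succ 0) (fun _ => bd_mem_supp) (fun _ => bd_mem_supp) (fun _ => bd_mem_supp)
    (fun _ => bd_mem_supp) (supp_mono subset_union_left _) (supp_mono subset_union_right _)
    (supp_mono subset_union_left _) (supp_mono subset_union_right _)
    (fun c hc e => small_chainR hA hB 0 c hc (e ▸ zero_mem _)) (Ori_small hA hB 1) h

theorem Ori_succ (hA : IsOpen A) (hB : IsOpen B) (aA : SAcyc ℤ A) (aB : SAcyc ℤ B) (k : ℕ)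
    (h : Ori_Q (MP_4f4d9f_gt.bd ℤ X (k + 1)) (MP_4f4d9f_gt.supp ℤ (A ∩ B) (k + 2))
      (MP_4f4d9f_gt.supp ℤ (A ∩ B) (k + 1)) (LinearMap.ker (MP_4f4d9f_gt.bd ℤ X k))) :
    Ori_Q (MP_4f4d9f_gt.bd ℤ X (k + 2)) (MP_4f4d9f_gt.supp ℤ (A ∪ B) (k + 3))
      (MP_4f4d9f_gt.supp ℤ (A ∪ B) (k + 2)) (LinearMap.ker (MP_4f4d9f_gt.bd ℤ X (k + 1))) := by
  rw [supp_inter, supp_inter] at h
  exact Ori_mv _ _ _ _ _ _ _ _ _ _ _ (bd_bd ℤ (k + 1)) (bd_bd ℤ k) (aA.succ k) (aB.succ k)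
    (aA.succ (k + 1)) (aB.succ (k + 1)) (fun _ => bd_mem_supp) (fun _ => bd_mem_supp)
    (fun _ => bd_mem_supp) (fun _ => bd_mem_supp) (supp_mono subset_union_left _)
    (supp_mono subset_union_right _) (supp_mono subset_union_left _)
    (supp_mono subset_union_right _)
    (fun c hc e => small_chainR hA hB (k + 1) c hc (e ▸ zero_mem _)) (Ori_small hA hB (k + 2)) h

/-- A retract of an acyclic space is acyclic. -/
theorem Ori_retract {Y : Type} [TopologicalSpace Y] (i : C(X, Y)) (r : C(Y, X))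
    (e : r.comp i = ContinuousMap.id X) (h : Acyclic ℤ Y) : Acyclic ℤ X := by
  refine ⟨h.nonempty.map r, fun c hc => ?_, fun k c hc => ?_⟩
  · obtain ⟨b, hb⟩ := h.zero (MP_4f4d9f_gt.push ℤ i 0 c) (by rw [aug_push, hc])
    exact ⟨MP_4f4d9f_gt.push ℤ r 1 b, by rw [bd_push, hb, push_push, e, push_id]⟩
  · obtain ⟨b, hb⟩ := h.succ k (MP_4f4d9f_gt.push ℤ i (k + 1) c) (by rw [bd_push, hc, map_zero])
    exact ⟨MP_4f4d9f_gt.push ℤ r (k + 2) b, by rw [bd_push, hb, push_push, e, push_id]⟩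

/-- The trace on the sphere of a star-shaped cone is acyclic. -/
theorem Ori_cone {n : ℕ} (T : Set (E n)) {e : E n} (hT : StarConvex ℝ e T) (he : e ∈ T)
    (h0 : ∀ x ∈ T, x ≠ 0) (hs : ∀ x ∈ T, ∀ t : ℝ, 0 < t → t • x ∈ T) :
    SAcyc ℤ {x : sphere (0 : E n) 1 | x.1 ∈ T} := by
  have := hT.contractibleSpace ⟨e, he⟩
  have hn : ∀ x : T, ‖x.1‖ ≠ 0 := fun x => norm_ne_zero_iff.2 (h0 x x.2)
  have hm : ∀ x : T, ‖x.1‖⁻¹ • x.1 ∈ sphere (0 : E n) 1 := fun x => by
    rw [mem_sphere_zero_iff_norm, norm_smul, norm_inv, norm_norm, inv_mul_cancel₀ (hn x)]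
  have hc : Continuous fun x : T => ‖x.1‖⁻¹ • x.1 :=
    (continuous_subtype_val.norm.inv₀ hn).smul continuous_subtype_val
  refine Acyclic.sacyc (Ori_retract (Y := T)
    ⟨fun x => ⟨x.1.1, x.2⟩, (continuous_subtype_val.comp continuous_subtype_val).subtype_mk _⟩
    ⟨fun x => ⟨⟨‖x.1‖⁻¹ • x.1, hm x⟩, hs x x.2 _ (inv_pos.2 (norm_pos_iff.2 (h0 x x.2)))⟩,
      (hc.subtype_mk hm).subtype_mk _⟩ ?_ (acyclic_of_contractible ℤ T))
  ext1 x
  refine Subtype.ext (Subtype.ext ?_)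
  show ‖x.1.1‖⁻¹ • x.1.1 = x.1.1
  rw [mem_sphere_zero_iff_norm.1 x.1.2, inv_one, one_smul]

/-- Points with a nonzero coordinate among the first `j`. -/
def Ori_F (j : ℕ) : Set (sphere (0 : E 5) 1) := {x | ∃ i : Fin 5, i.val < j ∧ x.1 i ≠ 0}

/-- The previous set together with an open hemisphere. -/
def Ori_A (j : Fin 5) (ε : ℝ) : Set (sphere (0 : E 5) 1) :=
  {x | (∃ i : Fin 5, i.val < j.val ∧ x.1 i ≠ 0) ∨ 0 < ε * x.1 j}

theorem Ori_open (j : Fin 5) (ε : ℝ) : IsOpen (Ori_A j ε) := by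
  have hc : ∀ i : Fin 5, Continuous fun x : sphere (0 : E 5) 1 => x.1 i := fun i => by fun_prop
  refine IsOpen.union (s₁ := {x : sphere (0 : E 5) 1 | ∃ i : Fin 5, i.val < j.val ∧ x.1 i ≠ 0})
    ?_ (isOpen_lt continuous_const (continuous_const.mul (hc j)))
  rw [ofPred_exists]
  refine isOpen_iUnion fun i => ?_
  exact (isOpen_const (p := i.val < j.val)).inter (isOpen_ne_fun (hc i) continuous_const)

theorem Ori_acyc (j : Fin 5) {ε : ℝ} (hε : ε ≠ 0) : SAcyc ℤ (Ori_A j ε) := by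
  have h2 : 0 < ε * ε := mul_self_pos.2 hε
  refine Ori_cone {x : E 5 | (∃ i : Fin 5, i.val < j.val ∧ x i ≠ 0) ∨ 0 < ε * x j}
    (e := EuclideanSpace.single j ε) ?_ (Or.inr (by simpa using hε)) ?_ ?_
  · intro y hy a b ha hb hab
    rcases hb.eq_or_lt with rfl | hb
    · obtain rfl : a = 1 := by linarith
      exact Or.inr (by simpa using hε)
    · rcases hy with ⟨i, h1, h3⟩ | h1
      · have : i ≠ j := fun e => by rw [e] at h1; exact lt_irrefl _ h1
        exact Or.inl ⟨i, h1, by simp [this, hb.ne', h3]⟩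
      · refine Or.inr ?_
        simp only [PiLp.add_apply, PiLp.smul_apply, PiLp.single_apply, if_true,
          smul_eq_mul]
        nlinarith [mul_nonneg ha h2.le, mul_pos hb h1]
  · rintro x hx rfl
    simp at hx
  · rintro x (⟨i, h1, h3⟩ | h1) t ht
    · exact Or.inl ⟨i, h1, by simp [ht.ne', h3]⟩
    · refine Or.inr ?_
      simp only [PiLp.smul_apply, smul_eq_mul]
      nlinarith [mul_pos ht h1]

theorem Ori_inter (j : Fin 5) : Ori_A j 1 ∩ Ori_A j (-1) = Ori_F j := by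
  ext x
  constructor
  · rintro ⟨h | h, h' | h'⟩
    exacts [h, h, h', by linarith]
  · exact fun h => ⟨Or.inl h, Or.inl h⟩

theorem Ori_union (j : Fin 5) : Ori_A j 1 ∪ Ori_A j (-1) = Ori_F (j + 1) := by
  ext x
  constructor
  · rintro ((⟨i, h1, h2⟩ | h) | ⟨i, h1, h2⟩ | h)
    · exact ⟨i, by omega, h2⟩
    · exact ⟨j, by omega, fun e => by rw [e] at h; simp at h⟩
    · exact ⟨i, by omega, h2⟩
    · exact ⟨j, by omega, fun e => by rw [e] at h; simp at h⟩
  · rintro ⟨i, h1, h2⟩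
    by_cases e : i = j
    · subst e
      rcases lt_or_gt_of_ne h2 with h | h
      · exact Or.inr (Or.inr (by linarith))
      · exact Or.inl (Or.inr (by linarith))
    · exact Or.inl (Or.inl ⟨i, by omega, h2⟩)

theorem Ori_five : Ori_F 5 = univ := by
  refine eq_univ_of_forall fun x => ?_
  by_contra h
  refine ne_zero_of_mem_unit_sphere x ?_
  ext i
  by_contra k
  exact h ⟨i, i.2, k⟩

theorem Ori_fund : Ori_Q (MP_4f4d9f_gt.bd ℤ (sphere (0 : E 5) 1) 4) (MP_4f4d9f_gt.supp ℤ univ 5)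
    (MP_4f4d9f_gt.supp ℤ univ 4) (LinearMap.ker (MP_4f4d9f_gt.bd ℤ _ 3)) := by
  have m : (-1 : ℝ) ≠ 0 := by norm_num
  have h0 := Ori_base (Ori_open 0 1) (Ori_open 0 (-1)) (Ori_acyc 0 one_ne_zero) (Ori_acyc 0 m)
    (by rw [Ori_inter]; exact eq_empty_of_forall_notMem fun x ⟨i, h, _⟩ => by simp at h)
  rw [Ori_union] at h0
  have h1 := Ori_zero (Ori_open 1 1) (Ori_open 1 (-1)) (Ori_acyc 1 one_ne_zero) (Ori_acyc 1 m)
    (by rw [Ori_inter]; exact h0)
  rw [Ori_union] at h1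
  have h2 := Ori_succ (Ori_open 2 1) (Ori_open 2 (-1)) (Ori_acyc 2 one_ne_zero) (Ori_acyc 2 m) 0
    (by rw [Ori_inter]; exact h1)
  rw [Ori_union] at h2
  have h3 := Ori_succ (Ori_open 3 1) (Ori_open 3 (-1)) (Ori_acyc 3 one_ne_zero) (Ori_acyc 3 m) 1
    (by rw [Ori_inter]; exact h2)
  rw [Ori_union] at h3
  have h4 := Ori_succ (Ori_open 4 1) (Ori_open 4 (-1)) (Ori_acyc 4 one_ne_zero) (Ori_acyc 4 m) 2
    (by rw [Ori_inter]; exact h3)
  rw [Ori_union] at h4
  rw [← Ori_five]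
  exact h4

theorem Ori_compl (p : sphere (0 : E 5) 1) : SAcyc ℤ ({p}ᶜ : Set (sphere (0 : E 5) 1)) := by
  have hp := ne_zero_of_mem_unit_sphere p
  have h := Ori_cone {x : E 5 | ∀ t : ℝ, 0 ≤ t → x ≠ t • p.1} (e := -p.1) ?_ ?_ ?_ ?_
  · have e : {x : sphere (0 : E 5) 1 | x.1 ∈ {x : E 5 | ∀ t : ℝ, 0 ≤ t → x ≠ t • p.1}} = {p}ᶜ := by
      ext x
      refine ⟨fun k e => k 1 zero_le_one (by rw [one_smul, mem_singleton_iff.1 e]),
        fun k t ht e => k (Subtype.ext ?_)⟩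
      have := congrArg norm e
      rw [norm_smul, mem_sphere_zero_iff_norm.1 x.2, mem_sphere_zero_iff_norm.1 p.2, mul_one,
        Real.norm_of_nonneg ht] at this
      rw [e, ← this, one_smul]
    rwa [e] at h
  · intro y hy a b ha hb hab t ht e
    have e1 : b • y = (t + a) • p.1 := by
      rw [add_smul, ← e, smul_neg]
      abel
    rcases hb.eq_or_lt with rfl | hb
    · rw [zero_smul, eq_comm, smul_eq_zero] at e1
      exact e1.elim (fun k => by linarith) hp
    · refine hy (b⁻¹ * (t + a)) (by positivity) ?_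
      rw [mul_smul, ← e1, inv_smul_smul₀ hb.ne']
  · intro t ht e
    have e1 : (t + 1) • p.1 = 0 := by rw [add_smul, ← e, one_smul, neg_add_cancel]
    exact (smul_eq_zero.1 e1).elim (fun k => by linarith) hp
  · exact fun x hx e => hx 0 le_rfl (by rw [e, zero_smul])
  · intro x hx s hs t ht e
    refine hx (s⁻¹ * t) (by positivity) ?_
    rw [mul_smul, ← e, inv_smul_smul₀ hs.ne']

theorem Ori_gen {S : Set X} (hS : SAcyc ℤ S) {z : MP_4f4d9f_gt.Sing X 4 →₀ ℤ}
    (hz : MP_4f4d9f_gt.bd ℤ X 3 z = 0)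
    (h : ∀ c, MP_4f4d9f_gt.bd ℤ X 3 c = 0 → ∃! n : ℤ, ∃ b, MP_4f4d9f_gt.bd ℤ X 4 b = c - n • z)
    (c : MP_4f4d9f_gt.Sing X 4 →₀ ℤ) (hc : MP_4f4d9f_gt.bd ℤ X 3 c ∈ MP_4f4d9f_gt.supp ℤ S 3) :
    ∃! n : ℤ, ∃ b ∈ MP_4f4d9f_gt.supp ℤ (univ : Set X) 5,
      c - n • z - MP_4f4d9f_gt.bd ℤ X 4 b ∈ MP_4f4d9f_gt.supp ℤ S 4 := by
  obtain ⟨e, he, ee⟩ := hS.succ 2 _ hc (bd_bd ℤ 2 c)
  refine (existsUnique_congr fun n => ⟨?_, ?_⟩).1 (h (c - e) (by rw [map_sub, ee, sub_self]))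
  · rintro ⟨b, hb⟩
    refine ⟨b, mem_supp_univ b, ?_⟩
    rw [hb, show c - n • z - (c - e - n • z) = e by abel]
    exact he
  · rintro ⟨b, -, hb⟩
    obtain ⟨g, -, eg⟩ := hS.succ 3 _ (sub_mem hb he) (by
      rw [map_sub, map_sub, map_sub, map_zsmul, hz, bd_bd, ee, smul_zero, sub_zero, sub_zero,
        sub_self])
    exact ⟨b + g, by rw [map_add, eg]; abel⟩

end

/-- `H_4(S⁴)` is infinite cyclic. -/
theorem exists_fund_sphere : ∃ z : Sing (sphere (0 : E 5) 1) 4 →₀ ℤ, bd ℤ _ 3 z = 0 ∧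
    ∀ c : Sing (sphere (0 : E 5) 1) 4 →₀ ℤ, bd ℤ _ 3 c = 0 →
      ∃! n : ℤ, ∃ b, bd ℤ _ 4 b = c - n • z := by
  obtain ⟨z, -, hz, h⟩ := Ori_fund
  refine ⟨z, hz, fun c hc => (existsUnique_congr fun n => ⟨?_, ?_⟩).1
    (h c (MP_4f4d9f_gt.mem_supp_univ c) hc)⟩
  · rintro ⟨b, -, hb⟩
    exact ⟨b, hb⟩
  · rintro ⟨b, hb⟩
    exact ⟨b, MP_4f4d9f_gt.mem_supp_univ b, hb⟩

theorem orient_sphere : Nonempty (Orientation4 (sphere (0 : E 5) 1)) := by
  obtain ⟨z, hz, h⟩ := exists_fund_sphere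
  refine ⟨⟨fun _ => z, fun p => hz ▸ zero_mem _, fun p c hc => Ori_gen (Ori_compl p) hz h c hc,
    fun p => ⟨univ, Filter.univ_mem, z, hz ▸ zero_mem _, fun q _ => ⟨0, zero_mem _, ?_⟩⟩⟩⟩
  rw [map_zero, sub_self, sub_self]
  exact zero_mem _

end Pool.Agent.MP_bc14e1_gt

end

section

/-! Slice knots bound discs as in the definition of `0`-positive knots. -/

open Set Metric
open scoped Manifold ContDiff

namespace Pool.Agent.MP_bc14e1_gt

section SZ

variable {F : Type} [NormedAddCommGroup F] [InnerProductSpace ℝ F]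
  [Fact (Module.finrank ℝ F = 4 + 1)]

/-- The transition map between two opposite stereographic charts is an inversion. -/
theorem SZ_trans (v : sphere (0 : F) 1) : ∃ A : E 4 ≃L[ℝ] E 4,
    (stereographic' 4 (-v)).symm (A 0) = v ∧ ∀ x, x ≠ 0 →
      (stereographic' 4 (-v)).symm (A x) = (stereographic' 4 v).symm ((‖x‖ ^ 2)⁻¹ • x) := by
  let U : (ℝ ∙ (v : F))ᗮ ≃ₗᵢ[ℝ] E 4 :=
    (OrthonormalBasis.fromOrthogonalSpanSingleton 4 (ne_zero_of_mem_unit_sphere v)).repr
  let U' : (ℝ ∙ ((-v : sphere (0 : F) 1) : F))ᗮ ≃ₗᵢ[ℝ] E 4 :=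
    (OrthonormalBasis.fromOrthogonalSpanSingleton 4 (ne_zero_of_mem_unit_sphere (-v))).repr
  have hv : (ℝ ∙ (v : F))ᗮ = (ℝ ∙ ((-v : sphere (0 : F) 1) : F))ᗮ := by
    rw [coe_neg_sphere, ← Set.neg_singleton, Submodule.span_neg]
  let B : E 4 ≃ₗᵢ[ℝ] E 4 := (U.symm.trans (LinearIsometryEquiv.ofEq _ _ hv)).trans U'
  let A : E 4 ≃L[ℝ] E 4 :=
    (ContinuousLinearEquiv.smulLeft (Units.mk0 (4 : ℝ) four_ne_zero)).trans
      B.toContinuousLinearEquiv
  have hA : ∀ x, (U'.symm (A x) : F) = (4 : ℝ) • (U.symm x : F) := by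
    intro x
    have h1 : A x = U' (LinearIsometryEquiv.ofEq _ _ hv (U.symm ((4 : ℝ) • x))) := rfl
    rw [h1, U'.symm_apply_apply, map_smul U.symm]
    rfl
  have hn : ∀ x, ‖(U.symm x : F)‖ = ‖x‖ := fun x => U.symm.norm_map x
  refine ⟨A, Subtype.ext ?_, fun x hx => Subtype.ext ?_⟩
  · rw [stereographic'_symm_apply]
    change (‖(U'.symm (A 0) : F)‖ ^ 2 + 4)⁻¹ • (4 : ℝ) • (U'.symm (A 0) : F) +
      (‖(U'.symm (A 0) : F)‖ ^ 2 + 4)⁻¹ • (‖(U'.symm (A 0) : F)‖ ^ 2 - 4) • (-(v : F)) = v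
    rw [hA, map_zero, ZeroMemClass.coe_zero, smul_zero, norm_zero]
    match_scalars
    norm_num
  · rw [stereographic'_symm_apply, stereographic'_symm_apply]
    change (‖(U'.symm (A x) : F)‖ ^ 2 + 4)⁻¹ • (4 : ℝ) • (U'.symm (A x) : F) +
      (‖(U'.symm (A x) : F)‖ ^ 2 + 4)⁻¹ • (‖(U'.symm (A x) : F)‖ ^ 2 - 4) • (-(v : F)) =
      (‖(U.symm ((‖x‖ ^ 2)⁻¹ • x) : F)‖ ^ 2 + 4)⁻¹ • (4 : ℝ) • (U.symm ((‖x‖ ^ 2)⁻¹ • x) : F) +
      (‖(U.symm ((‖x‖ ^ 2)⁻¹ • x) : F)‖ ^ 2 + 4)⁻¹ •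
        (‖(U.symm ((‖x‖ ^ 2)⁻¹ • x) : F)‖ ^ 2 - 4) • (v : F)
    have h0 : 0 < ‖x‖ := norm_pos_iff.mpr hx
    rw [hA, hn, norm_smul, norm_smul, hn, map_smul, Submodule.coe_smul, Real.norm_eq_abs,
      Real.norm_eq_abs, abs_of_pos (by positivity : (0 : ℝ) < (‖x‖ ^ 2)⁻¹),
      abs_of_pos (by norm_num : (0 : ℝ) < 4)]
    match_scalars
    · field_simp
      ring
    · field_simp
      ring

theorem SZ_norm_inv (x : E 4) : ‖(‖x‖ ^ 2)⁻¹ • x‖ = ‖x‖⁻¹ := by
  rw [norm_smul, Real.norm_eq_abs, abs_of_nonneg (by positivity)]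
  by_cases h : ‖x‖ = 0
  · simp [h]
  · field_simp

theorem SZ_main [CompactSpace (sphere (0 : F) 1)] (o : Orientation4 (sphere (0 : F) 1))
    (v : sphere (0 : F) 1) {K : Set (E 4)} (hK : K ⊆ sphere 0 1) (h : Slice K) (ε : ℤ) :
    ZeroSign ε K := by
  obtain ⟨d, d1, d2, d3, d4, d5, d6⟩ := h
  obtain ⟨A, j0, j1⟩ := SZ_trans v
  have hm : ∀ w : sphere (0 : F) 1,
      stereographic' 4 w ∈ IsManifold.maximalAtlas (𝓡 4) ∞ (sphere (0 : F) 1) :=
    fun w => IsManifold.subset_maximalAtlas ⟨w, rfl⟩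
  have hs := stereographic'_source (n := 4) v
  have ht := stereographic'_target (n := 4) v
  have ht' := stereographic'_target (n := 4) (-v)
  have hc := hm v
  have hc' := hm (-v)
  generalize stereographic' 4 v = c at j1 hs ht hc
  generalize stereographic' 4 (-v) = c' at j0 j1 ht' hc'
  have mt : ∀ y, y ∈ c.target := fun y => ht ▸ mem_univ y
  have mt' : ∀ y, y ∈ c'.target := fun y => ht' ▸ mem_univ y
  have hemb : Topology.IsEmbedding fun x => c'.symm (A x) :=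
    (c'.symm.isOpenEmbedding ht').isEmbedding.comp A.toHomeomorph.isEmbedding
  have hjc : ∀ x y, c'.symm (A x) = c.symm y → ‖x‖ * ‖y‖ = 1 := by
    intro x y e
    by_cases hx : x = 0
    · have h1 := c.map_target (mt y)
      rw [← e, hx, j0, hs] at h1
      exact absurd rfl h1
    · rw [j1 x hx] at e
      rw [← c.symm.injOn (mt _) (mt _) e, SZ_norm_inv, mul_inv_cancel₀ (norm_ne_zero_iff.mpr hx)]
  have hV : (c.symm '' ball 0 1)ᶜ = (fun x => c'.symm (A x)) '' closedBall 0 1 := by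
    ext w
    constructor
    · intro hw
      by_cases hv : w = v
      · exact ⟨0, mem_closedBall_self zero_le_one, j0.trans hv.symm⟩
      · have h1 : c.symm (c w) = w := c.left_inv (by rw [hs]; exact hv)
        have h2 : 1 ≤ ‖c w‖ := by
          by_contra h3
          exact hw ⟨c w, mem_ball_zero_iff.mpr (not_le.mp h3), h1⟩
        have h3 : ‖c w‖ ≠ 0 := by positivity
        have h4 := SZ_norm_inv (c w)
        refine ⟨(‖c w‖ ^ 2)⁻¹ • c w, ?_, ?_⟩
        · rw [mem_closedBall_zero_iff, h4]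
          exact inv_le_one_of_one_le₀ h2
        · change c'.symm (A _) = w
          rw [j1 _ (norm_ne_zero_iff.mp (by rw [h4]; exact inv_ne_zero h3)), h4, smul_smul, inv_pow,
            inv_inv, mul_inv_cancel₀ (pow_ne_zero 2 h3), one_smul, h1]
    · rintro ⟨x, hx, rfl⟩ ⟨y, hy, e⟩
      have h1 := hjc x y e.symm
      rw [mem_closedBall_zero_iff] at hx
      rw [mem_ball_zero_iff] at hy
      nlinarith [norm_nonneg x, norm_nonneg y]
  have hcon : ContractibleSpace (closedBall (0 : E 4) 1) :=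
    (convex_closedBall 0 1).contractibleSpace ⟨0, mem_closedBall_self zero_le_one⟩
  have hcon' : ContractibleSpace ((c.symm '' ball 0 1)ᶜ : Set (sphere (0 : F) 1)) := by
    rw [hV]
    exact (hemb.homeomorphImage _).symm.contractibleSpace
  have hsm : ∀ x ∈ closedBall (0 : E 2) 1,
      ContMDiffAt (𝓡 2) (𝓡 4) ∞ (fun x => c'.symm (A (d x))) x := fun x hx =>
    (contMDiffAt_symm_of_mem_maximalAtlas hc' (mt' _)).comp x
      (A.contDiff.contDiffAt.comp x (d1 x hx)).contMDiffAt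
  refine ⟨sphere (0 : F) 1, inferInstance, inferInstance, inferInstance, inferInstance,
    inferInstance, o, c, _, fun x => c'.symm (A (d x)), 0, Fin.elim0, hc, fun y _ => mt y, rfl,
    SimplyConnectedSpace.ofContractible _, hsm, fun x hx y hy e => d2 hx hy (hemb.injective e),
    fun x hx => ?_, fun x hx => ?_, ?_, fun u hu => ?_, fun i => i.elim0, fun z hz hb => ?_,
    fun i => i.elim0⟩
  · have h1 : MDifferentiableAt (𝓡 4) (𝓡 4) c' (c'.symm (A (d x))) :=
      (contMDiffAt_of_mem_maximalAtlas hc' (c'.map_target (mt' _))).mdifferentiableAt (by simp)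
    have h2 := mfderiv_comp x h1 ((hsm x hx).mdifferentiableAt (by simp))
    have h3 : (c' ∘ fun x => c'.symm (A (d x))) = A ∘ d := funext fun y => c'.right_inv (mt' _)
    rw [h3, mfderiv_eq_fderiv, A.comp_fderiv] at h2
    intro a b e
    have h4 : A (fderiv ℝ d x a) = _ := DFunLike.congr_fun h2 a
    have h5 : A (fderiv ℝ d x b) = _ := DFunLike.congr_fun h2 b
    refine d3 x hx (A.injective (h4.trans (Eq.trans ?_ h5.symm)))
    exact congrArg (mfderiv (𝓡 4) (𝓡 4) c' (c'.symm (A (d x)))) e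
  · rintro ⟨y, hy, e⟩
    have h1 := hjc _ y e.symm
    have h2 := d4 x hx
    rw [mem_closedBall_zero_iff] at hy
    nlinarith [norm_nonneg (d x), norm_nonneg y]
  · rw [← image_image (fun x => c'.symm (A x)) d, d5]
    refine image_congr fun x hx => ?_
    have h1 : ‖x‖ = 1 := mem_sphere_zero_iff_norm.mp (hK hx)
    rw [j1 x (norm_ne_zero_iff.mp (by rw [h1]; exact one_ne_zero)), h1, one_pow, inv_one, one_smul]
  · have h1 : ‖d ((1 : ℝ) • u)‖ = 1 := by
      rw [one_smul]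
      exact mem_sphere_zero_iff_norm.mp (hK (d5 ▸ mem_image_of_mem d hu))
    have h2 := d6 u hu
    have h3 := (differentiableAt_of_deriv_ne_zero h2.ne').hasDerivAt
    have h4 : ‖d ((1 : ℝ) • u)‖ ≠ 0 := by rw [h1]; exact one_ne_zero
    have h5 : (fun r : ℝ => ‖c (c'.symm (A (d (r • u))))‖) =ᶠ[nhds 1]
        (fun r : ℝ => ‖d (r • u)‖)⁻¹ := by
      filter_upwards [h3.continuousAt.eventually_ne h4] with r hr
      rw [j1 _ (norm_ne_zero_iff.mp hr), c.right_inv (mt _), SZ_norm_inv, Pi.inv_apply]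
    rw [h5.deriv_eq, (h3.inv h4).deriv, h1, one_pow, div_one]
    exact neg_lt_zero.mpr h2
  · obtain ⟨b, hb1, hb2⟩ := (MP_4f4d9f_gt.sacyc_of_contractible ℤ
      ((c.symm '' ball 0 1)ᶜ : Set (sphere (0 : F) 1))).succ 1 z hz hb
    refine ⟨Fin.elim0, ⟨b, hb1, ?_⟩, fun _ _ => Subsingleton.elim _ _⟩
    have h1 : bd ℤ _ 2 b = z := hb2
    rw [h1, Fin.sum_univ_zero, sub_zero, sub_self]
    exact Submodule.zero_mem _

end SZ

theorem zeroSign_of_slice {K : Set (E 4)} (hK : K ⊆ sphere 0 1) (h : Slice K) (ε : ℤ) :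
    ZeroSign ε K := by
  have : Fact (Module.finrank ℝ (E 5) = 4 + 1) := ⟨finrank_euclideanSpace_fin⟩
  obtain ⟨o⟩ := orient_sphere
  exact SZ_main o ⟨EuclideanSpace.single 0 1, by simp⟩ hK h ε

end Pool.Agent.MP_bc14e1_gt

end
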