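import Pool.Agent.Mg.Fbc14e1.G6fb7b3
import Pool.Agent.Mg.Fbc14e1.G199efb

section

/-! Statements: flat closed sets and Thom cocycles. -/

open Set Metric
open scoped Classical

namespace Pool.Agent.MP_bc14e1_gt

noncomputable section

/-- Chains of degree `k` in `W` with boundary off `S`. -/
def RC (R : Type) [CommRing R] {M : Type} [TopologicalSpace M] (W S : Set M) (k : ℕ) :
    Submodule R (Tot R M) := CC R W k ⊓ (CH R Sᶜ).comap (dT R M)

/-- The diagonal. -/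
def dia (Y : Type) : Set (Y × Y) := {z | z.1 = z.2}

/-- The conclusion of `LemAStmt` for the open set `W`. -/
def LA (R : Type) [CommRing R] {M P Q : Type} [TopologicalSpace M] [NormedAddCommGroup P]
    [NormedAddCommGroup Q] [NormedSpace ℝ Q] (S : Set M)
    (𝒜 : Set (OpenPartialHomeomorph M (P × Q))) (W : Set M) : Prop :=
  ∀ k, ∀ c ∈ CC R W k, dT R M c ∈ CH R Sᶜ →
    (k < Module.finrank ℝ Q → ∃ b ∈ CH R W, c - dT R M b ∈ CH R Sᶜ) ∧
    (k = Module.finrank ℝ Q → ∃ c' ∈ Submodule.span R {y | ∃ e ∈ 𝒜, ∃ (x : P) (ρ : ℝ),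
        (∀ w ∈ ball (0 : Q) ρ, (x, w) ∈ e.target ∧ e.symm (x, w) ∈ W) ∧
        ∃ c₀ ∈ CC R (ball (0 : Q) ρ) k, dT R Q c₀ ∈ CH R ({0}ᶜ : Set Q) ∧
          y = psh R (fun w => e.symm (x, w)) c₀},
      ∃ b ∈ CH R W, c - c' - dT R M b ∈ CH R Sᶜ)

def LABaseStmt : Prop :=
  ∀ (R : Type) [CommRing R] (M P Q : Type) [TopologicalSpace M] [NormedAddCommGroup P]
    [NormedSpace ℝ P] [NormedAddCommGroup Q] [NormedSpace ℝ Q] [FiniteDimensional ℝ Q]
    (S : Set M) (𝒜 : Set (OpenPartialHomeomorph M (P × Q))), ∀ e ∈ 𝒜,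
    (∀ x ∈ e.source, x ∈ S ↔ (e x).2 = 0) → ∀ V, IsOpen V → Convex ℝ V →
    Bornology.IsBounded V → V ⊆ e.target → LA R S 𝒜 (e.symm '' V)

def LAMVStmt : Prop :=
  ∀ (R : Type) [CommRing R] (M P Q : Type) [TopologicalSpace M] [NormedAddCommGroup P]
    [NormedAddCommGroup Q] [NormedSpace ℝ Q] (S : Set M)
    (𝒜 : Set (OpenPartialHomeomorph M (P × Q))),
    (∀ W, W ⊆ Sᶜ → LA R S 𝒜 W) ∧
    (∀ A B, IsOpen A → IsOpen B → LA R S 𝒜 A → LA R S 𝒜 B → LA R S 𝒜 (A ∩ B) →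
      LA R S 𝒜 (A ∪ B)) ∧
    ∀ (ι : Type) [Nonempty ι] (U : ι → Set M), (∀ i, IsOpen (U i)) → Directed (· ⊆ ·) U →
      (∀ i, LA R S 𝒜 (U i)) → LA R S 𝒜 (⋃ i, U i)

/-- Existence and uniqueness of local degrees. -/
def LocDegStmt : Prop :=
  ∀ (X Y : Type) [TopologicalSpace X] [T2Space X] [TopologicalSpace Y] [T2Space Y]
    (o : Orientation4 X) (q : Y → X), IsLocalHomeomorph q → ∀ y : Y,
    (∀ U, IsOpen U → y ∈ U → InjOn q U → ∀ c ∈ CC ℝ U 4, dT ℝ Y c ∈ CH ℝ {y}ᶜ →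
      ∃ r, LocDeg o q y c r) ∧
    (∀ c r r', LocDeg o q y c r → LocDeg o q y c r' → r = r') ∧
    (∀ U, IsOpen U → y ∈ U → ∃ c ∈ CH ℝ U, LocDeg o q y c 1) ∧
    (∀ c r, LocDeg o q y c r → ∀ U, IsOpen U → y ∈ U → ∃ c' ∈ CH ℝ U, LocDeg o q y c' r ∧
      ∀ W, c ∈ CH ℝ W → c' ∈ CH ℝ W ∧ ∃ b ∈ CH ℝ W, c - c' - dT ℝ Y b ∈ CH ℝ (W \ {y})) ∧
    ∀ c, LocDeg o q y c 0 → ∀ U, IsOpen U → y ∈ U → InjOn q U → c ∈ CH ℝ U →
      ∃ b ∈ CH ℝ U, c - dT ℝ Y b ∈ CH ℝ (U \ {y})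

/-- A Thom functional over the open set `W`. -/
structure ThQ {X Y : Type} [TopologicalSpace X] [TopologicalSpace Y] (o : Orientation4 X)
    (q : Y → X) (W : Set (Y × Y)) (θ : Tot ℝ (Y × Y) →ₗ[ℝ] ℝ) : Prop where
  dg : ∀ k, k ≠ 4 → ∀ c ∈ DG ℝ (Y × Y) k, θ c = 0
  coc : ∀ b ∈ CH ℝ W, θ (dT ℝ _ b) = 0
  off : ∀ c ∈ CH ℝ (W \ dia Y), θ c = 0
  one : ∀ y c r, LocDeg o q y c r → psh ℝ (fun x => (x, y)) c ∈ CH ℝ W →
    θ (psh ℝ (fun x => (x, y)) c) = r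

/-- The homology of the complement of the diagonal. -/
def DiaStmt : Prop :=
  ∀ (X Y : Type) [TopologicalSpace X] [T2Space X] [ChartedSpace (E 4) X] [TopologicalSpace Y]
    [T2Space Y] (o : Orientation4 X) (q : Y → X), IsLocalHomeomorph q → ∀ W, IsOpen W →
    (∀ c ∈ RC ℝ W (dia Y) 3, ∃ b ∈ CC ℝ W 4, c - dT ℝ _ b ∈ CH ℝ (dia Y)ᶜ) ∧
    ∀ θ : Tot ℝ (Y × Y) →ₗ[ℝ] ℝ, (∀ b ∈ CC ℝ W 5, θ (dT ℝ _ b) = 0) →
      (∀ c ∈ CC ℝ (W \ dia Y) 4, θ c = 0) →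
      (∀ y c r, LocDeg o q y c r → psh ℝ (fun x => (x, y)) c ∈ CH ℝ W →
        θ (psh ℝ (fun x => (x, y)) c) = 0) → ∀ c ∈ RC ℝ W (dia Y) 4, θ c = 0

def ThBaseStmt : Prop :=
  ∀ (X Y : Type) [TopologicalSpace X] [T2Space X] [ChartedSpace (E 4) X] [TopologicalSpace Y]
    [T2Space Y] (o : Orientation4 X) (q : Y → X), IsLocalHomeomorph q → ∀ y : Y,
    ∃ W, IsOpen W ∧ (y, y) ∈ W ∧ ∃ θ, ThQ o q W θ

def ThMVStmt : Prop :=
  ∀ (X Y : Type) [TopologicalSpace X] [T2Space X] [ChartedSpace (E 4) X] [TopologicalSpace Y]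
    [T2Space Y] (o : Orientation4 X) (q : Y → X), IsLocalHomeomorph q →
    (∀ A B, IsOpen A → IsOpen B → (∃ θ, ThQ o q A θ) → (∃ θ, ThQ o q B θ) →
      ∃ θ, ThQ o q (A ∪ B) θ) ∧
    ∀ (ι : Type) [Nonempty ι] (U : ι → Set (Y × Y)), (∀ i, IsOpen (U i)) → Directed (· ⊆ ·) U →
      (∀ i, ∃ θ, ThQ o q (U i) θ) → ∃ θ, ThQ o q (⋃ i, U i) θ

/-- An invariant functional that kills the relative cycles is an invariant coboundary. -/
def EtaStmt : Prop :=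
  ∀ (X G Y : Type) [TopologicalSpace X] [T2Space X] [ChartedSpace (E 4) X] [Group G]
    [TopologicalSpace Y] [T2Space Y] [MulAction G Y] [ContinuousConstSMul G Y]
    (o : Orientation4 X) (F : Set X) (p : Y → X) (s : G), TC F p s →
    ∀ D : Tot ℝ (Y × Y) →ₗ[ℝ] ℝ, (∀ c ∈ RC ℝ univ (dia Y) 4, D c = 0) →
    (∀ c, D (gs ℝ (Y × Y) s c) = D c) → ∃ η : TS (Y × Y) → ℝ,
      (∀ c ∈ CH ℝ (dia Y)ᶜ, coevR η c = 0) ∧ ThomInv η (fun y => s • y) ∧
      ∀ c ∈ DG ℝ (Y × Y) 4, D c = coevR η (dT ℝ _ c)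

/-- A Thom cocycle is symmetric on relative cycles. -/
def SwapStmt : Prop :=
  ∀ (X Y : Type) [TopologicalSpace X] [T2Space X] [ChartedSpace (E 4) X] [TopologicalSpace Y]
    [T2Space Y] (o : Orientation4 X) (q : Y → X) (τ : TS (Y × Y) → ℝ), IsLocalHomeomorph q →
    IsThom o q τ → ∀ c ∈ RC ℝ univ (dia Y) 4, coevR τ (psh ℝ Prod.swap c) = coevR τ c

/-- The properties of the pairing except for the symmetry. -/
def PairAStmt : Prop :=
  ∀ (κ : Kit) (Y : Type) [TopologicalSpace Y] (τ : TS (Y × Y) → ℝ),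
    ((∀ c ∈ CH ℝ (dia Y)ᶜ, coevR τ c = 0) →
      ∀ A B : Set Y, Disjoint A B → ∀ u ∈ CH ℂ A, ∀ v ∈ CH ℂ B, beta κ τ u v = 0) ∧
    (∀ f : Y → Y, Continuous f → ThomInv τ f →
      ∀ u v, beta κ τ (psh ℂ f u) (psh ℂ f v) = beta κ τ u v) ∧
    ((∀ c, coevR τ (dT ℝ _ c) = 0) → ∀ u v, beta κ τ (dT ℂ Y u) v = beta κ τ u (dT ℂ Y v)) ∧
    ((∀ σ : TS (Y × Y), σ.1 ≠ 4 → τ σ = 0) →
      ∀ k l, k + l ≠ 4 → ∀ u ∈ DG ℂ Y k, ∀ v ∈ DG ℂ Y l, beta κ τ u v = 0) ∧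
    (∀ y, ∀ c ∈ DG ℝ Y 4, beta κ τ (cast Complex.ofRealHom Y c) (pt ℂ y) =
      -(coevR τ (psh ℝ (fun x => (x, y)) c) : ℝ)) ∧
    (∀ u v, beta κ τ (cjT Y u) (cjT Y v) = starRingEnd ℂ (beta κ τ u v)) ∧
    ∀ (Z : Type) [TopologicalSpace Z] (a b : TS (Y × Y) → ℝ) (L : Tot ℝ Z →ₗ[ℝ] Tot ℝ (Y × Y))
      (L' : Tot ℂ Z →ₗ[ℂ] Tot ℂ (Y × Y)) (N : Tot ℝ Z →ₗ[ℝ] Tot ℝ (Y × Y))
      (N' : Tot ℂ Z →ₗ[ℂ] Tot ℂ (Y × Y)) (S : Set (TS Z)),
      (∀ c, cast Complex.ofRealHom _ (L c) = L' (cast Complex.ofRealHom _ c)) →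
      (∀ c, cast Complex.ofRealHom _ (N c) = N' (cast Complex.ofRealHom _ c)) →
      (∀ c ∈ Finsupp.supported ℝ ℝ S, coevR a (L c) = coevR b (N c)) →
      ∀ c ∈ Finsupp.supported ℂ ℂ S, coevC a (L' c) = coevC b (N' c)

end

end Pool.Agent.MP_bc14e1_gt

end

section

open Set Metric
open scoped Classical

namespace Pool.Agent.MP_bc14e1_gt

section

variable {X Y : Type} [TopologicalSpace X] [TopologicalSpace Y]

theorem LocDeg_diff {R : Type} [CommRing R] {U V : Set X} {c : Tot R X} (h : c ∈ CH R U)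
    (h' : c ∈ CH R Vᶜ) : c ∈ CH R (U \ V) := by
  rw [sdiff_eq, CH_inter]
  exact ⟨h, h'⟩

theorem LocDeg_rel (o : Orientation4 X) (x : X) :
    dT ℝ X (castZ ℝ X (inc ℤ 4 (o.o x))) ∈ CH ℝ {x}ᶜ := by
  rw [← cast_dT, dT_inc_succ]
  exact cast_mem_CH _ (inc_mem_CH.2 (o.rel x))

theorem LocDeg_gen (hF : FlatStmt) (o : Orientation4 X) (x : X) {z : Tot ℝ X}
    (hz : z ∈ DG ℝ X 4) (hd : dT ℝ X z ∈ CH ℝ {x}ᶜ) :
    ∃ (r : ℝ) (b : Tot ℝ X), z - r • castZ ℝ X (inc ℤ 4 (o.o x)) - dT ℝ X b ∈ CH ℝ {x}ᶜ := by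
  have h := (hF ℝ X univ {x}ᶜ 4).1 z ⟨mem_CH_univ z, hz⟩ hd
  clear hz hd
  induction h using Submodule.span_induction with
  | mem z h =>
    obtain ⟨y, ⟨h1, h2⟩, rfl⟩ := h
    obtain ⟨c, rfl⟩ := exists_inc h1.2
    rw [dT_inc_succ, inc_mem_CH] at h2
    obtain ⟨n, ⟨b, -, hb⟩, -⟩ := o.gen x c h2
    refine ⟨n, castZ ℝ X (inc ℤ 5 b), ?_⟩
    have h3 := cast_mem_CH (Int.castRingHom ℝ) (inc_mem_CH.2 hb)
    rwa [map_sub, map_sub, map_sub, map_sub, ← dT_inc_succ, cast_dT, map_smul,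
      LinearMap.map_smulₛₗ] at h3
  | zero => exact ⟨0, 0, by simp⟩
  | add z w _ _ h1 h2 =>
    obtain ⟨r, b, h1⟩ := h1
    obtain ⟨r', b', h2⟩ := h2
    refine ⟨r + r', b + b', ?_⟩
    have h3 := add_mem h1 h2
    rw [add_smul, map_add]
    convert h3 using 1
    abel
  | smul a z _ h =>
    obtain ⟨r, b, h⟩ := h
    refine ⟨a * r, a • b, ?_⟩
    have h3 := Submodule.smul_mem _ a h
    rwa [smul_sub, smul_sub, smul_smul, ← (dT ℝ X).map_smul] at h3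

theorem LocDeg_uniq (hF : FlatStmt) (o : Orientation4 X) (x : X) {r : ℝ} {b : Tot ℝ X}
    (h : r • castZ ℝ X (inc ℤ 4 (o.o x)) - dT ℝ X b ∈ CH ℝ {x}ᶜ) : r = 0 := by
  by_contra hr
  have h1 := Submodule.smul_mem _ r⁻¹ h
  rw [smul_sub, inv_smul_smul₀ hr, ← (dT ℝ X).map_smul] at h1
  obtain ⟨n, hn, b', -, h2⟩ := (hF ℝ X univ {x}ᶜ 4).2 _ ⟨_, mem_CH_univ _, h1⟩
  have h3 := deg_mem_CH 4 h2
  obtain ⟨b₀, hb⟩ := exists_inc (deg_mem 5 b')
  rw [map_sub, deg_dT, ← hb, dT_inc_succ, ← (inc ℤ 4).map_smul, deg_of_mem (inc_mem_DG _ _), ← map_sub,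
    inc_mem_CH] at h3
  have h4 := (o.gen x 0 (by simp)).unique (y₁ := -n) (y₂ := 0)
    ⟨b₀, mem_supp_univ _, by simpa using h3⟩ ⟨0, mem_supp_univ _, by simp⟩
  exact hn (neg_eq_zero.1 h4)

theorem LocDeg_inv {q : Y → X} (hq : IsLocalHomeomorph q) {U : Set Y} (hU : IsOpen U) (y : Y)
    (hi : InjOn q U) : ∃ g : X → Y, IsOpen (q '' U) ∧ ContinuousOn g (q '' U) ∧
      (∀ u ∈ U, g (q u) = u) ∧ (∀ x ∈ q '' U, q (g x) = x) ∧ MapsTo g (q '' U) U ∧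
      MapsTo g (q '' U \ {q y}) (U \ {y}) := by
  have : Nonempty Y := ⟨y⟩
  let e := OpenPartialHomeomorph.ofContinuousOpen (hi.toPartialEquiv q U)
    hq.continuous.continuousOn hq.isOpenMap hU
  have h1 : ∀ u ∈ U, e.symm (q u) = u := fun u hu => e.left_inv hu
  refine ⟨e.symm, hq.isOpenMap U hU, e.continuousOn_symm, h1, ?_, ?_, ?_⟩
  · rintro _ ⟨u, hu, rfl⟩
    rw [h1 u hu]
  · rintro _ ⟨u, hu, rfl⟩
    rwa [h1 u hu]
  · rintro _ ⟨⟨u, hu, rfl⟩, h⟩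
    rw [h1 u hu]
    exact ⟨hu, fun e => h (congrArg q e)⟩

theorem LocDeg_split {R : Type} [CommRing R] {U V : Set X} (hU : IsOpen U) (hV : IsOpen V)
    {c : Tot R X} (hc : c ∈ CH R (U ∪ V)) (hd : dT R X c ∈ CH R V) :
    ∃ c' b, c' ∈ CH R U ∧ (∀ k, c ∈ DG R X k → c' ∈ DG R X k) ∧
      (∀ W, c ∈ CH R W → c' ∈ CH R W ∧ b ∈ CH R W) ∧ c - c' - dT R X b ∈ CH R V ∧
      dT R X c' ∈ CH R V := by
  obtain ⟨m, hm⟩ := sdT_small_two hU hV hc
  obtain ⟨a, ha, b, hb, e⟩ := Submodule.mem_sup.1 (hm m le_rfl)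
  have h1 : c - prj R U ((sdT R X ^ m) c) - dT R X (sdHP R X m c) ∈ CH R V := by
    have e1 : c - prj R U ((sdT R X ^ m) c) - dT R X (sdHP R X m c) =
        b - prj R U b + sdHP R X m (dT R X c) := by
      rw [eq_sub_of_add_eq (dT_sdHP m c), ← e, map_add, prj_of_mem ha]
      abel
    rw [e1]
    exact add_mem (sub_mem hb (prj_mem_CH U hb)) (sdHP_mem_CH m hd)
  refine ⟨_, _, prj_mem U _, fun k h => prj_mem_DG U (sdT_pow_mem_DG m h),
    fun W h => ⟨prj_mem_CH U (sdT_pow_mem_CH m h), sdHP_mem_CH m h⟩, h1, ?_⟩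
  have h2 := sub_mem hd (dT_mem_CH h1)
  rwa [map_sub, map_sub, dT_dT, sub_zero, sub_sub_cancel] at h2

theorem LocDeg_exc {R : Type} [CommRing R] {U V : Set X} (hU : IsOpen U) (hV : IsOpen V)
    {c b : Tot R X} (hb : b ∈ CH R (U ∪ V)) (hc : c ∈ CH R U) (hd : dT R X c ∈ CH R V)
    (h : c - dT R X b ∈ CH R V) : ∃ b' ∈ CH R U, c - dT R X b' ∈ CH R V := by
  obtain ⟨m, hm⟩ := sdT_small_two hU hV hb
  obtain ⟨a, ha, a', ha', e⟩ := Submodule.mem_sup.1 (hm m le_rfl)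
  refine ⟨sdHP R X m c + a, add_mem (sdHP_mem_CH m hc) ha, ?_⟩
  have e1 : c - dT R X (sdHP R X m c + a) =
      (sdT R X ^ m) (c - dT R X b) + dT R X a' + sdHP R X m (dT R X c) := by
    rw [map_add, eq_sub_of_add_eq (dT_sdHP m c), map_sub, ← dT_sdT_pow, ← e, map_add]
    abel
  rw [e1]
  exact add_mem (add_mem (sdT_pow_mem_CH m h) (dT_mem_CH ha')) (sdHP_mem_CH m hd)

omit [TopologicalSpace X] [TopologicalSpace Y] in
theorem LocDeg_maps {q : Y → X} {U : Set Y} {y : Y} (hy : y ∈ U) (hi : InjOn q U) :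
    MapsTo q (U \ {y}) {q y}ᶜ := fun _ hu e => hu.2 (hi hu.1 hy e)

theorem LocDeg_univ {R : Type} [CommRing R] {U : Set X} {x : X} (hx : x ∈ U) (c : Tot R X) :
    c ∈ CH R (U ∪ {x}ᶜ) :=
  CH_mono (fun z _ => (eq_or_ne z x).imp (fun e => e ▸ hx) id) (mem_CH_univ c)

end

theorem locDeg_stmt (B : Bas1) : LocDegStmt := by
  intro X Y _ _ _ _ o q hq y
  have hc := hq.continuous
  refine ⟨fun U hU hy hi c h hd => ?_, ?_, fun U hU hy => ?_, ?_, ?_⟩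
  · have h1 := LocDeg_diff (dT_mem_CH h.1) hd
    obtain ⟨r, b, h2⟩ := LocDeg_gen B.flat o (q y) (psh_mem_DG q h.2)
      (by rw [dT_psh_cont hc]; exact psh_mem_CH q (LocDeg_maps hy hi) h1)
    exact ⟨r, U, hU, hy, hi, h, h1, b, h2⟩
  · rintro c r r' ⟨-, -, -, -, -, -, b, h⟩ ⟨-, -, -, -, -, -, b', h'⟩
    have h1 := sub_mem h' h
    refine sub_eq_zero.1 (LocDeg_uniq B.flat o (q y) (b := b' - b) ?_)
    rw [sub_smul, map_sub]
    convert h1 using 1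
    abel
  · obtain ⟨U₀, h0, y0, i0⟩ := hq.isLocallyInjective y
    have i1 : InjOn q (U ∩ U₀) := i0.mono inter_subset_right
    obtain ⟨g, g0, g1, -, g3, g4, g5⟩ := LocDeg_inv hq (hU.inter h0) y i1
    obtain ⟨a, b, a1, a2, -, a4, a5⟩ := LocDeg_split g0 isOpen_compl_singleton
      (LocDeg_univ (mem_image_of_mem q (show y ∈ U ∩ U₀ from ⟨hy, y0⟩)) _) (LocDeg_rel o (q y))
    refine ⟨psh ℝ g a, CH_mono inter_subset_left (psh_mem_CH g g4 a1), U ∩ U₀, hU.inter h0,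
      ⟨hy, y0⟩, i1, ⟨psh_mem_CH g g4 a1, psh_mem_DG g (a2 4 (cast_mem_DG _ (inc_mem_DG _ _)))⟩,
      ?_, -b, ?_⟩
    · rw [dT_psh g1 a1]
      exact psh_mem_CH g g5 (LocDeg_diff (dT_mem_CH a1) a5)
    · rw [psh_psh q g1 a1, psh_of_eqOn_id (f := q ∘ g) g3 a1, one_smul, map_neg]
      convert neg_mem a4 using 1
      abel
  · rintro c r ⟨U₀, h0, y0, i0, h1, h2, b₀, h3⟩ U hU hy
    obtain ⟨a, b, a1, a2, a3, a4, a5⟩ := LocDeg_split hU isOpen_compl_singleton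
      (LocDeg_univ hy c) (CH_mono (sdiff_subset_compl _ _) h2)
    have a6 : ∀ W, c ∈ CH ℝ W → c - a - dT ℝ Y b ∈ CH ℝ (W \ {y}) := fun W h =>
      LocDeg_diff (sub_mem (sub_mem h (a3 W h).1) (dT_mem_CH (a3 W h).2)) a4
    refine ⟨a, a1, ⟨U₀, h0, y0, i0, ⟨(a3 _ h1.1).1, a2 4 h1.2⟩,
      LocDeg_diff (dT_mem_CH (a3 _ h1.1).1) a5, b₀ - psh ℝ q b, ?_⟩,
      fun W h => ⟨(a3 W h).1, b, (a3 W h).2, a6 W h⟩⟩
    have h4 := sub_mem h3 (psh_mem_CH q (LocDeg_maps y0 i0) (a6 _ h1.1))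
    rw [map_sub, map_sub, ← dT_psh_cont hc] at h4
    rw [map_sub]
    convert h4 using 1
    abel
  · rintro c ⟨U₀, -, -, -, -, h2, b₀, h3⟩ U hU hy hi h
    obtain ⟨g, g0, g1, g2, -, g4, g5⟩ := LocDeg_inv hq hU y hi
    rw [zero_smul, sub_zero] at h3
    have h4 : psh ℝ q c ∈ CH ℝ (q '' U) := psh_mem_CH q (mapsTo_image q U) h
    obtain ⟨b, b1, b2⟩ := LocDeg_exc g0 isOpen_compl_singleton
      (LocDeg_univ (mem_image_of_mem q hy) b₀) h4
      (by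
        rw [dT_psh_cont hc]
        exact psh_mem_CH q (LocDeg_maps hy hi)
          (LocDeg_diff (dT_mem_CH h) (CH_mono (sdiff_subset_compl _ _) h2))) h3
    refine ⟨psh ℝ g b, psh_mem_CH g g4 b1, ?_⟩
    have h5 := psh_mem_CH g g5 (LocDeg_diff (sub_mem h4 (dT_mem_CH b1)) b2)
    rwa [map_sub, ← dT_psh g1 b1, psh_psh' g hc, psh_of_eqOn_id (f := g ∘ q) g2 h] at h5

end Pool.Agent.MP_bc14e1_gt

end

section

open Set Metric
open scoped Classical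

namespace Pool.Agent.MP_bc14e1_gt

theorem LABase_hom (κ : Kit) {R : Type} [CommRing R] {M N : Type} [TopologicalSpace M]
    [NormedAddCommGroup N] [NormedSpace ℝ N] (e : OpenPartialHomeomorph M N) {V : Set N}
    (hV : Convex ℝ V) (hVe : V ⊆ e.target) {g : N → N} (hg : Continuous g) (hgV : MapsTo g V V)
    {T : Set M} (hT : ∀ s ∈ Icc (0 : ℝ) 1, ∀ v ∈ V, e.symm v ∈ T →
      e.symm ((1 - s) • v + s • g v) ∈ T)
    {c : Tot R M} (hc : c ∈ CH R (e.symm '' V)) (hd : dT R M c ∈ CH R T) :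
    ∃ b ∈ CH R (e.symm '' V), c - psh R (fun m => e.symm (g (e m))) c - dT R M b ∈ CH R T := by
  have h1 : ∀ m ∈ e.symm '' V, m ∈ e.source ∧ e m ∈ V := by
    rintro _ ⟨v, hv, rfl⟩
    exact ⟨e.map_target (hVe hv), by rwa [e.right_inv (hVe hv)]⟩
  have h2 : MapsTo (fun q : ℝ × M => (1 - q.1) • e q.2 + q.1 • g (e q.2))
      (Icc 0 1 ×ˢ (e.symm '' V)) V := fun q hq =>
    hV (h1 _ hq.2).2 (hgV (h1 _ hq.2).2) (sub_nonneg.2 hq.1.2) hq.1.1 (sub_add_cancel _ _)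
  let H : ℝ × M → M := fun q => e.symm ((1 - q.1) • e q.2 + q.1 • g (e q.2))
  have hH : ContinuousOn H (Icc 0 1 ×ˢ (e.symm '' V)) := by
    refine e.continuousOn_symm.comp ?_ fun q hq => hVe (h2 hq)
    have h3 : ContinuousOn (fun q : ℝ × M => e q.2) (Icc 0 1 ×ˢ (e.symm '' V)) :=
      e.continuousOn.comp continuousOn_snd fun q hq => (h1 _ hq.2).1
    exact ((continuousOn_const.sub continuousOn_fst).smul h3).add
      (continuousOn_fst.smul (hg.comp_continuousOn h3))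
  have h4 := dT_hop κ hH hc
  have h5 : psh R (fun m => H (0, m)) c = c := psh_of_eqOn_id (fun m hm => by
    simp only [H, sub_zero, one_smul, zero_smul, add_zero]
    exact e.left_inv (h1 m hm).1) hc
  have h6 : (fun m => H (1, m)) = fun m => e.symm (g (e m)) := funext fun m => by
    simp only [H, sub_self, one_smul, zero_smul, zero_add]
  rw [h5, h6] at h4
  have h7 : dT R M c ∈ CH R (e.symm '' V ∩ T) := by
    rw [CH_inter]
    exact ⟨dT_mem_CH hc, hd⟩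
  have h8 : hop κ R H (dT R M c) ∈ CH R T := hop_mem_CH κ H (fun q hq =>
    hT q.1 hq.1 _ (h1 _ hq.2.1).2 (by rw [e.left_inv (h1 _ hq.2.1).1]; exact hq.2.2)) h7
  refine ⟨-hop κ R H c, neg_mem (hop_mem_CH κ H (B := e.symm '' V)
    (fun q hq => ⟨_, h2 hq, rfl⟩) hc), ?_⟩
  have h9 : c - psh R (fun m => e.symm (g (e m))) c - dT R M (-hop κ R H c) =
      -hop κ R H (dT R M c) := by
    rw [map_neg, ← neg_sub _ c, ← h4]
    abel
  rw [h9]
  exact neg_mem h8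

theorem LABase_pos {s d : ℝ} (hs : s ∈ Icc (0 : ℝ) 1) (hd : 0 < d) : 1 - s + s * d ≠ 0 := by
  rcases hs.1.eq_or_lt with h | h
  · rw [← h]; norm_num
  · have := mul_pos h hd
    have := hs.2
    linarith [this]

theorem LABase_ball (B : Bas1) {R : Type} [CommRing R] {Q : Type} [NormedAddCommGroup Q]
    [NormedSpace ℝ Q] [FiniteDimensional ℝ Q] {ρ : ℝ} (hρ : 0 < ρ) {k : ℕ}
    (hk : k ≠ Module.finrank ℝ Q) {c : Tot R Q} (hc : c ∈ CC R (ball (0 : Q) ρ) k)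
    (hd : dT R Q c ∈ CH R ({0}ᶜ : Set Q)) :
    ∃ b ∈ CH R (ball (0 : Q) ρ), c - dT R Q b ∈ CH R ({0}ᶜ : Set Q) := by
  obtain ⟨κ⟩ := B.kit
  let L : Q ≃L[ℝ] E (Module.finrank ℝ Q) := ContinuousLinearEquiv.ofFinrankEq (by simp)
  obtain ⟨o, -, -, ho⟩ := B.locHom (Module.finrank ℝ Q)
  obtain ⟨b, hb⟩ := (ho R k (psh R L c) (psh_mem_DG _ hc.2) (by
    rw [dT_psh_cont L.continuous]
    exact psh_mem_CH _ (A := {0}ᶜ) (B := {0}ᶜ)
      (fun w hw h => hw (L.map_eq_zero_iff.1 h)) hd)).1 hk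
  let g : Q → Q := fun w => (ρ / (ρ + ‖w‖)) • w
  have hp : ∀ w : Q, 0 < ρ + ‖w‖ := fun w => by positivity
  have hg : Continuous g :=
    (continuous_const.div (continuous_const.add continuous_norm) fun w => (hp w).ne').smul
      continuous_id
  have hgb : ∀ w, g w ∈ ball (0 : Q) ρ := fun w => by
    rw [mem_ball_zero_iff, norm_smul, Real.norm_of_nonneg (div_pos hρ (hp w)).le,
      div_mul_eq_mul_div, div_lt_iff₀ (hp w)]
    exact mul_lt_mul_of_pos_left (lt_add_of_pos_left _ hρ) hρ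
  have hc' : c ∈ CH R ((OpenPartialHomeomorph.refl Q).symm '' ball (0 : Q) ρ) := by
    simpa using hc.1
  obtain ⟨b', hb', h1⟩ := LABase_hom κ (OpenPartialHomeomorph.refl Q) (convex_ball 0 ρ)
    (subset_univ _) hg (fun w _ => hgb w) (T := {0}ᶜ) (fun s hs v _ hv h => by
      have h2 : (1 - s) • v + s • (ρ / (ρ + ‖v‖)) • v = 0 := h
      rw [smul_smul, ← add_smul] at h2
      exact hv ((smul_eq_zero.1 h2).resolve_left (LABase_pos hs (div_pos hρ (hp v))))) hc' hd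
  have h2 : psh R (g ∘ L.symm) (psh R L c - dT R _ b) ∈ CH R ({0}ᶜ : Set Q) :=
    psh_mem_CH _ (A := {0}ᶜ) (B := {0}ᶜ) (fun w hw h => hw (L.symm.map_eq_zero_iff.1
      ((smul_eq_zero.1 h).resolve_left (div_pos hρ (hp _)).ne'))) hb
  have h3 : (g ∘ L.symm) ∘ L = g := funext fun w => by simp
  rw [map_sub, psh_psh' _ L.continuous, h3, ← dT_psh_cont (hg.comp L.symm.continuous)] at h2
  refine ⟨b' + psh R (g ∘ L.symm) b, add_mem (by simpa using hb')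
    (psh_mem_CH _ (fun w _ => hgb _) (mem_CH_univ b)), ?_⟩
  have h4 := add_mem h1 h2
  have h5 : c - dT R Q (b' + psh R (g ∘ L.symm) b) =
      c - psh R g c - dT R Q b' + (psh R g c - dT R Q (psh R (g ∘ L.symm) b)) := by
    rw [map_add]
    abel
  rw [h5]
  exact h4

theorem laBase_stmt (B : Bas1) : LABaseStmt := by
  intro R _ M P Q _ _ _ _ _ _ S 𝒜 e he hS V hO hV hB hVe k c hc hd
  have hT : ∀ v ∈ V, e.symm v ∈ Sᶜ ↔ v.2 ≠ 0 := fun v hv => by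
    rw [mem_compl_iff, hS _ (e.map_target (hVe hv)), e.right_inv (hVe hv)]
  by_cases h0 : ∃ x, (x, (0 : Q)) ∈ V
  swap
  · have h1 : c ∈ CH R Sᶜ := CH_mono (by
      rintro _ ⟨v, hv, rfl⟩
      exact (hT v hv).2 fun h => h0 ⟨v.1, h ▸ hv⟩) hc.1
    exact ⟨fun _ => ⟨0, zero_mem _, by simpa using h1⟩,
      fun _ => ⟨0, zero_mem _, 0, zero_mem _, by simpa using h1⟩⟩
  obtain ⟨κ⟩ := B.kit
  obtain ⟨x, hx⟩ := h0
  obtain ⟨ρ, hρ, hb⟩ := Metric.isOpen_iff.1 hO _ hx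
  obtain ⟨C, hC, hC'⟩ := hB.exists_pos_norm_le
  have hw : ∀ w ∈ ball (0 : Q) ρ, (x, w) ∈ V := fun w hw => hb (by
    rw [mem_ball, Prod.dist_eq, dist_self]
    exact max_lt hρ hw)
  have hδ : 0 < ρ / (C + 1) := by positivity
  have h1 : ∀ v ∈ V, (ρ / (C + 1)) • v.2 ∈ ball (0 : Q) ρ := fun v hv => by
    rw [mem_ball_zero_iff, norm_smul, Real.norm_of_nonneg hδ.le, div_mul_eq_mul_div,
      div_lt_iff₀ (by positivity)]
    have := (norm_snd_le v).trans (hC' v hv)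
    exact mul_lt_mul_of_pos_left (by linarith) hρ
  obtain ⟨b, hbW, h2⟩ := LABase_hom κ e hV hVe
    (g := fun v => (x, (ρ / (C + 1)) • v.2)) (by fun_prop) (fun v hv => hw _ (h1 v hv))
    (T := Sᶜ) (fun s hs v hv h => by
      refine (hT _ (hV hv (hw _ (h1 v hv)) (sub_nonneg.2 hs.2) hs.1 (sub_add_cancel _ _))).2 ?_
      intro h3
      have h4 : (1 - s) • v.2 + s • (ρ / (C + 1)) • v.2 = 0 := h3
      rw [smul_smul, ← add_smul] at h4
      exact (hT v hv).1 h ((smul_eq_zero.1 h4).resolve_left (LABase_pos hs hδ))) hc.1 hd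
  have h3 : ∀ m ∈ e.symm '' V, m ∈ e.source ∧ e m ∈ V := by
    rintro _ ⟨v, hv, rfl⟩
    exact ⟨e.map_target (hVe hv), by rwa [e.right_inv (hVe hv)]⟩
  let f : M → Q := fun m => (ρ / (C + 1)) • (e m).2
  have hf : ContinuousOn f (e.symm '' V) :=
    continuousOn_const.smul (continuous_snd.comp_continuousOn
      (e.continuousOn.mono fun m hm => (h3 m hm).1))
  have h4 : psh R f c ∈ CC R (ball (0 : Q) ρ) k :=
    ⟨psh_mem_CH f (fun m hm => h1 _ (h3 m hm).2) hc.1, psh_mem_DG f hc.2⟩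
  have h5 : dT R Q (psh R f c) ∈ CH R ({0}ᶜ : Set Q) := by
    have h6 : dT R M c ∈ CH R (e.symm '' V ∩ Sᶜ) := by
      rw [CH_inter]
      exact ⟨dT_mem_CH hc.1, hd⟩
    rw [dT_psh hf hc.1]
    refine psh_mem_CH f (A := e.symm '' V ∩ Sᶜ) (B := {0}ᶜ) (fun m hm h => hm.2 ?_) h6
    exact (hS m (h3 m hm.1).1).2 ((smul_eq_zero.1 h).resolve_left hδ.ne')
  have h6 : psh R (fun m => e.symm (x, (ρ / (C + 1)) • (e m).2)) c =
      psh R (fun w => e.symm (x, w)) (psh R f c) :=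
    (psh_psh (fun w => e.symm (x, w)) hf hc.1).symm
  rw [h6] at h2
  refine ⟨fun hk => ?_, fun _ => ⟨_, Submodule.subset_span ⟨e, he, x, ρ,
    fun w h => ⟨hVe (hw w h), _, hw w h, rfl⟩, _, h4, h5, rfl⟩, b, hbW, h2⟩⟩
  obtain ⟨b', hb', h7⟩ := LABase_ball B hρ hk.ne h4 h5
  have hι : ContinuousOn (fun w : Q => e.symm (x, w)) (ball (0 : Q) ρ) :=
    e.continuousOn_symm.comp (by fun_prop) fun w h => hVe (hw w h)
  have h8 : psh R f c - dT R Q b' ∈ CH R (ball (0 : Q) ρ ∩ {0}ᶜ) := by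
    rw [CH_inter]
    exact ⟨sub_mem h4.1 (dT_mem_CH hb'), h7⟩
  have h9 : psh R (fun w => e.symm (x, w)) (psh R f c - dT R Q b') ∈ CH R Sᶜ :=
    psh_mem_CH _ (fun w h => (hT _ (hw w h.1)).2 h.2) h8
  rw [map_sub, ← dT_psh hι hb'] at h9
  refine ⟨b + psh R (fun w => e.symm (x, w)) b', add_mem hbW
    (psh_mem_CH _ (B := e.symm '' V) (fun w h => ⟨_, hw w h, rfl⟩) hb'), ?_⟩
  have h10 : c - dT R M (b + psh R (fun w => e.symm (x, w)) b') =
      c - psh R (fun w => e.symm (x, w)) (psh R f c) - dT R M b +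
        (psh R (fun w => e.symm (x, w)) (psh R f c) -
          dT R M (psh R (fun w => e.symm (x, w)) b')) := by
    rw [map_add]
    abel
  rw [h10]
  exact add_mem h2 h9

end Pool.Agent.MP_bc14e1_gt

end

section

open Set Metric
open scoped Classical

namespace Pool.Agent.MP_bc14e1_gt

theorem LAMV_split {R : Type} [CommRing R] {M : Type} [TopologicalSpace M] {T A B : Set M}
    (hA : IsOpen A) (hB : IsOpen B) {k : ℕ}
    (hlow : ∀ j, k = j + 1 → ∀ y ∈ CC R (A ∩ B) j, dT R M y ∈ CH R T →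
      ∃ b ∈ CH R (A ∩ B), y - dT R M b ∈ CH R T)
    {c : Tot R M} (hc : c ∈ CC R (A ∪ B) k) (hd : dT R M c ∈ CH R T) :
    ∃ c₁ ∈ CC R A k, ∃ c₂ ∈ CC R B k, dT R M c₁ ∈ CH R T ∧ dT R M c₂ ∈ CH R T ∧
      ∃ e ∈ CH R (A ∪ B), c - c₁ - c₂ - dT R M e ∈ CH R T := by
  obtain ⟨m, hm⟩ := sdT_small_two hA hB hc.1
  obtain ⟨u, hu, v, hv, huv⟩ := Submodule.mem_sup.1 (hm m le_rfl)
  have h1 : deg R M k u ∈ CC R A k := ⟨deg_mem_CH k hu, deg_mem k u⟩
  have h2 : deg R M k v ∈ CC R B k := ⟨deg_mem_CH k hv, deg_mem k v⟩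
  have hs : deg R M k u + deg R M k v = (sdT R M ^ m) c := by
    rw [← map_add, huv, deg_of_mem (sdT_pow_mem_DG m hc.2)]
  generalize deg R M k u = c₁ at h1 hs
  generalize deg R M k v = c₂ at h2 hs
  have he : c - c₁ - c₂ - dT R M (sdHP R M m c) ∈ CH R T := by
    have : c - c₁ - c₂ - dT R M (sdHP R M m c) = sdHP R M m (dT R M c) := by
      have := dT_sdHP m c
      rw [← hs] at this
      rw [sub_sub c c₁ c₂, ← this]; abel
    rw [this]
    exact sdHP_mem_CH m hd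
  have hdd : dT R M c₁ + dT R M c₂ ∈ CH R T := by
    rw [← map_add, hs, dT_sdT_pow]
    exact sdT_pow_mem_CH m hd
  rcases k with _ | j
  · refine ⟨c₁, h1, c₂, h2, ?_, ?_, _, sdHP_mem_CH m hc.1, he⟩
    · rw [dT_of_DG_zero h1.2]; exact zero_mem _
    · rw [dT_of_DG_zero h2.2]; exact zero_mem _
  · have hy2 : dT R M c₁ - prj R T (dT R M c₁) = -(dT R M c₂ - prj R T (dT R M c₂)) := by
      have := prj_of_mem hdd
      rw [map_add] at this
      rw [eq_neg_iff_add_eq_zero, ← sub_eq_zero.2 this.symm]; abel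
    have hyA : dT R M c₁ - prj R T (dT R M c₁) ∈ CH R A :=
      sub_mem (dT_mem_CH h1.1) (prj_mem_CH T (dT_mem_CH h1.1))
    have hyB : dT R M c₁ - prj R T (dT R M c₁) ∈ CH R B := by
      rw [hy2]
      exact neg_mem (sub_mem (dT_mem_CH h2.1) (prj_mem_CH T (dT_mem_CH h2.1)))
    have hyD : dT R M c₁ - prj R T (dT R M c₁) ∈ DG R M j :=
      sub_mem (dT_mem_DG h1.2) (prj_mem_DG T (dT_mem_DG h1.2))
    obtain ⟨b, hb, hyb⟩ := hlow j rfl _ ⟨by rw [CH_inter]; exact ⟨hyA, hyB⟩, hyD⟩ (by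
      rw [map_sub, dT_dT, zero_sub]
      exact neg_mem (dT_mem_CH (prj_mem T _)))
    have hyb' := deg_mem_CH j hyb
    rw [map_sub, deg_of_mem hyD, deg_dT] at hyb'
    have hb' := deg_mem_CH (j + 1) hb
    have hbD := deg_mem (j + 1) b
    rw [CH_inter] at hb'
    generalize deg R M (j + 1) b = b' at hyb' hb' hbD
    have h3 : dT R M (c₁ - b') ∈ CH R T := by
      have : dT R M (c₁ - b') =
          (dT R M c₁ - prj R T (dT R M c₁) - dT R M b') + prj R T (dT R M c₁) := by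
        rw [map_sub]; abel
      rw [this]
      exact add_mem hyb' (prj_mem T _)
    refine ⟨c₁ - b', sub_mem h1 ⟨hb'.1, hbD⟩, c₂ + b', add_mem h2 ⟨hb'.2, hbD⟩, h3, ?_,
      _, sdHP_mem_CH m hc.1, ?_⟩
    · have : dT R M (c₂ + b') = (dT R M c₁ + dT R M c₂) - dT R M (c₁ - b') := by
        rw [map_sub, map_add]; abel
      rw [this]
      exact sub_mem hdd h3
    · have : c - (c₁ - b') - (c₂ + b') - dT R M (sdHP R M m c) =
          c - c₁ - c₂ - dT R M (sdHP R M m c) := by abel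
      rw [this]
      exact he

theorem LAMV_mono {R : Type} [CommRing R] {M P Q : Type} [TopologicalSpace M]
    [NormedAddCommGroup P] [NormedAddCommGroup Q] (𝒜 : Set (OpenPartialHomeomorph M (P × Q)))
    (k : ℕ) {W W' : Set M} (h : W ⊆ W') :
    Submodule.span R {y | ∃ e ∈ 𝒜, ∃ (x : P) (ρ : ℝ),
        (∀ w ∈ ball (0 : Q) ρ, (x, w) ∈ e.target ∧ e.symm (x, w) ∈ W) ∧
        ∃ c₀ ∈ CC R (ball (0 : Q) ρ) k, dT R Q c₀ ∈ CH R ({0}ᶜ : Set Q) ∧
          y = psh R (fun w => e.symm (x, w)) c₀} ≤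
      Submodule.span R {y | ∃ e ∈ 𝒜, ∃ (x : P) (ρ : ℝ),
        (∀ w ∈ ball (0 : Q) ρ, (x, w) ∈ e.target ∧ e.symm (x, w) ∈ W') ∧
        ∃ c₀ ∈ CC R (ball (0 : Q) ρ) k, dT R Q c₀ ∈ CH R ({0}ᶜ : Set Q) ∧
          y = psh R (fun w => e.symm (x, w)) c₀} := by
  apply Submodule.span_mono
  rintro y ⟨e, he, x, ρ, hw, hc⟩
  exact ⟨e, he, x, ρ, fun w hw' => ⟨(hw w hw').1, h (hw w hw').2⟩, hc⟩

theorem laMV_stmt (B : Bas1) : LAMVStmt := by
  intro R _ M P Q _ _ _ _ S 𝒜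
  refine ⟨fun W hW k c hc _ => ⟨fun _ => ⟨0, zero_mem _, ?_⟩,
    fun _ => ⟨0, zero_mem _, 0, zero_mem _, ?_⟩⟩, ?_, ?_⟩
  · rw [map_zero, sub_zero]; exact CH_mono hW hc.1
  · rw [map_zero, sub_zero, sub_zero]; exact CH_mono hW hc.1
  · intro U V hU hV lU lV lUV k c hc hd
    have key : k ≤ Module.finrank ℝ Q → ∃ c₁ ∈ CC R U k, ∃ c₂ ∈ CC R V k,
        dT R M c₁ ∈ CH R Sᶜ ∧ dT R M c₂ ∈ CH R Sᶜ ∧
        ∃ e ∈ CH R (U ∪ V), c - c₁ - c₂ - dT R M e ∈ CH R Sᶜ := fun hk =>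
      LAMV_split hU hV (fun j hj y hy hdy => (lUV j y hy hdy).1 (by omega)) hc hd
    refine ⟨fun hk => ?_, fun hk => ?_⟩
    · obtain ⟨c₁, h1, c₂, h2, d1, d2, e, he, hce⟩ := key hk.le
      obtain ⟨b₁, hb₁, g1⟩ := (lU k c₁ h1 d1).1 hk
      obtain ⟨b₂, hb₂, g2⟩ := (lV k c₂ h2 d2).1 hk
      refine ⟨e + b₁ + b₂, add_mem (add_mem he (CH_mono subset_union_left hb₁))
        (CH_mono subset_union_right hb₂), ?_⟩
      have : c - dT R M (e + b₁ + b₂) =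
          (c - c₁ - c₂ - dT R M e) + (c₁ - dT R M b₁) + (c₂ - dT R M b₂) := by
        rw [map_add, map_add]; abel
      rw [this]
      exact add_mem (add_mem hce g1) g2
    · obtain ⟨c₁, h1, c₂, h2, d1, d2, e, he, hce⟩ := key hk.le
      obtain ⟨a₁, ha₁, b₁, hb₁, g1⟩ := (lU k c₁ h1 d1).2 hk
      obtain ⟨a₂, ha₂, b₂, hb₂, g2⟩ := (lV k c₂ h2 d2).2 hk
      refine ⟨a₁ + a₂, add_mem (LAMV_mono 𝒜 k subset_union_left ha₁)
        (LAMV_mono 𝒜 k subset_union_right ha₂), e + b₁ + b₂,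
        add_mem (add_mem he (CH_mono subset_union_left hb₁))
        (CH_mono subset_union_right hb₂), ?_⟩
      have : c - (a₁ + a₂) - dT R M (e + b₁ + b₂) =
          (c - c₁ - c₂ - dT R M e) + (c₁ - a₁ - dT R M b₁) + (c₂ - a₂ - dT R M b₂) := by
        rw [map_add, map_add]; abel
      rw [this]
      exact add_mem (add_mem hce g1) g2
  · intro ι _ U hU hdir l k c hc hd
    obtain ⟨i, hi⟩ := exists_CH_of_directed hU hdir hc.1
    obtain ⟨l1, l2⟩ := l i k c ⟨hi, hc.2⟩ hd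
    refine ⟨fun hk => ?_, fun hk => ?_⟩
    · obtain ⟨b, hb, g⟩ := l1 hk
      exact ⟨b, CH_mono (subset_iUnion U i) hb, g⟩
    · obtain ⟨a, ha, b, hb, g⟩ := l2 hk
      exact ⟨a, LAMV_mono 𝒜 k (subset_iUnion U i) ha, b, CH_mono (subset_iUnion U i) hb, g⟩

end Pool.Agent.MP_bc14e1_gt

end

section

open Set Metric
open scoped Classical

namespace Pool.Agent.MP_bc14e1_gt

theorem LemA_chart (hLABase : LABaseStmt) (hLAMV : LAMVStmt) (R : Type) [CommRing R]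
    (M P Q : Type) [TopologicalSpace M] [NormedAddCommGroup P] [NormedSpace ℝ P]
    [NormedAddCommGroup Q] [NormedSpace ℝ Q] [FiniteDimensional ℝ Q] (S : Set M)
    (𝒜 : Set (OpenPartialHomeomorph M (P × Q))) (e : OpenPartialHomeomorph M (P × Q))
    (he : e ∈ 𝒜) (hS : ∀ x ∈ e.source, x ∈ S ↔ (e x).2 = 0) {U : Set M} (hU : IsOpen U)
    (hUe : U ⊆ e.source) : LA R S 𝒜 U := by
  obtain ⟨-, hMV, hD⟩ := hLAMV R M P Q S 𝒜
  have hop : ∀ V, IsOpen V → V ⊆ e.target → IsOpen (e.symm '' V) := fun V hV hVT =>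
    e.symm.isOpen_image_of_subset_source hV hVT
  have key : LA R S 𝒜 (e.symm '' (e '' U)) := by
    refine ind_convex (T := e.target) (P := fun V => LA R S 𝒜 (e.symm '' V))
      (fun C h1 h2 h3 h4 => hLABase R M P Q S 𝒜 e he hS C h1 h2 h3 h4) ?_ ?_
      (e.isOpen_image_of_subset_source hU hUe) ?_
    · intro A B hA hB hAT hBT h1 h2 h3
      rw [image_union]
      refine hMV _ _ (hop A hA hAT) (hop B hB hBT) h1 h2 ?_
      rw [← e.symm.injOn.image_inter hAT hBT]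
      exact h3
    · intro ι _ V hV hVT hd h1
      rw [image_iUnion]
      refine hD ι _ (fun i => hop _ (hV i) (hVT i)) (fun i j => ?_) h1
      obtain ⟨k, hi, hj⟩ := hd i j
      exact ⟨k, image_mono hi, image_mono hj⟩
    · rintro _ ⟨x, hx, rfl⟩
      exact e.map_source (hUe hx)
  have e₀ : e.symm '' (e '' U) = U := e.symm_image_image_of_subset_source hUe
  rwa [e₀] at key

theorem lemA_stmt (hLABase : LABaseStmt) (hLAMV : LAMVStmt) : LemAStmt := by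
  intro R _ M P Q _ _ _ _ _ _ S 𝒜 hS hflat hcov W hW
  obtain ⟨h0, hMV, hD⟩ := hLAMV R M P Q S 𝒜
  have key : LA R S 𝒜 W := by
    refine ind_cover (Q := IsOpen) (P := LA R S 𝒜) (fun A B => IsOpen.union)
      (fun A B => IsOpen.inter) isOpen_empty (h0 _ (empty_subset _)) (ι := Option 𝒜)
      (T := fun i => i.elim Sᶜ fun e => e.1.source) ?_ ?_ hMV hD hW ?_
    · rintro (_ | e)
      · exact hS.isOpen_compl
      · exact e.1.open_source
    · rintro (_ | e) U hU hUT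
      · exact h0 U hUT
      · exact LemA_chart hLABase hLAMV R M P Q S 𝒜 e.1 e.2 (hflat e.1 e.2) hU hUT
    · intro x _
      by_cases hx : x ∈ S
      · obtain ⟨e, he, hxe⟩ := hcov x hx
        exact mem_iUnion.2 ⟨some ⟨e, he⟩, hxe⟩
      · exact mem_iUnion.2 ⟨none, hx⟩
  exact key

end Pool.Agent.MP_bc14e1_gt

end

section

open Set Metric
open scoped Classical

namespace Pool.Agent.MP_bc14e1_gt

/-- The shear that straightens the diagonal. -/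
noncomputable def Dia_sh : E 4 × E 4 ≃ₜ E 4 × E 4 where
  toFun z := (z.2, z.1 - z.2)
  invFun z := (z.1 + z.2, z.1)
  left_inv z := by simp
  right_inv z := by simp
  continuous_toFun := by fun_prop
  continuous_invFun := by fun_prop

/-- The chart of the product in which the diagonal is a coordinate plane. -/
noncomputable def Dia_ch {Y : Type} [TopologicalSpace Y] (e : OpenPartialHomeomorph Y (E 4)) :
    OpenPartialHomeomorph (Y × Y) (E 4 × E 4) := (e.prod e).transHomeomorph Dia_sh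

section

variable {Y : Type} [TopologicalSpace Y] (e : OpenPartialHomeomorph Y (E 4))

theorem Dia_src (z : Y × Y) : z ∈ (Dia_ch e).source ↔ z.1 ∈ e.source ∧ z.2 ∈ e.source :=
  Iff.rfl

theorem Dia_tgt (x w : E 4) : (x, w) ∈ (Dia_ch e).target ↔ x + w ∈ e.target ∧ x ∈ e.target :=
  Iff.rfl

theorem Dia_app (z : Y × Y) : (Dia_ch e z).2 = e z.1 - e z.2 := rfl

theorem Dia_symm (x w : E 4) : (Dia_ch e).symm (x, w) = (e.symm (x + w), e.symm x) := rfl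

end

theorem dia_stmt (B : Bas1) (hLocCtr : LocCtrStmt)
    (hLemA : LemAStmt) (hLocDeg : LocDegStmt) : DiaStmt := by
  intro X Y _ _ _ _ _ o q hq W hW
  have hcl : IsClosed (dia Y) := isClosed_eq continuous_fst continuous_snd
  have hA := hLemA ℝ (Y × Y) (E 4) (E 4) (dia Y)
    {e' | ∃ e : OpenPartialHomeomorph Y (E 4), InjOn q e.source ∧ e' = Dia_ch e} hcl
    (by
      rintro _ ⟨e, -, rfl⟩ z hz
      rw [Dia_src] at hz
      rw [Dia_app, sub_eq_zero]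
      exact ⟨fun h => congrArg e h, fun h => e.injOn hz.1 hz.2 h⟩)
    (by
      rintro ⟨a, b⟩ (h : a = b)
      subst h
      obtain ⟨⟨e, he, -, hi⟩, -⟩ := hLocCtr X Y q hq a univ Filter.univ_mem
      exact ⟨Dia_ch e, ⟨e, hi, rfl⟩, (Dia_src e _).2 ⟨he, he⟩⟩) W hW
  have hr : Module.finrank ℝ (E 4) = 4 := by simp
  refine ⟨fun c hc => ?_, fun θ h5 h4 h1 c hc => ?_⟩
  · obtain ⟨b, hb, h⟩ := (hA 3 c hc.1 hc.2).1 (by rw [hr]; norm_num)
    refine ⟨deg ℝ _ 4 b, ⟨deg_mem_CH 4 hb, deg_mem 4 b⟩, ?_⟩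
    have := deg_mem_CH 3 h
    rwa [map_sub, deg_dT, deg_of_mem hc.1.2] at this
  obtain ⟨c', hc', b, hb, h⟩ := (hA 4 c hc.1 hc.2).2 hr.symm
  have key : c' ∈ CC ℝ W 4 ⊓ LinearMap.ker θ := by
    refine Submodule.span_le.2 ?_ hc'
    rintro _ ⟨_, ⟨e, hi, rfl⟩, x, ρ, hρ, c₀, hc₀, hd, rfl⟩
    have hm : psh ℝ (fun w => (Dia_ch e).symm (x, w)) c₀ ∈ CH ℝ W :=
      psh_mem_CH _ (fun w hw => (hρ w hw).2) hc₀.1
    refine ⟨⟨hm, psh_mem_DG _ hc₀.2⟩, ?_⟩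
    rw [SetLike.mem_coe, LinearMap.mem_ker]
    rcases le_or_gt ρ 0 with h0 | h0
    · have : c₀ = 0 := eq_zero_of_mem_CH_empty (by
        have := hc₀.1
        rwa [ball_eq_empty.2 h0] at this)
      rw [this, map_zero, map_zero]
    have hx : x ∈ e.target := ((Dia_tgt e x 0).1 (hρ 0 (mem_ball_self h0)).1).2
    have ht : ∀ w ∈ ball (0 : E 4) ρ, x + w ∈ e.target := fun w hw =>
      ((Dia_tgt e x w).1 (hρ w hw).1).1
    have hf : ContinuousOn (fun w : E 4 => e.symm (x + w)) (ball 0 ρ) :=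
      e.continuousOn_symm.comp (f := fun w : E 4 => x + w) (by fun_prop) ht
    have e1 : psh ℝ (fun a => (a, e.symm x)) (psh ℝ (fun w : E 4 => e.symm (x + w)) c₀) =
        psh ℝ (fun w => (Dia_ch e).symm (x, w)) c₀ := psh_psh _ hf hc₀.1
    obtain ⟨r, hr⟩ := (hLocDeg X Y o q hq (e.symm x)).1 e.source e.open_source (e.map_target hx)
      hi (psh ℝ (fun w : E 4 => e.symm (x + w)) c₀)
      ⟨psh_mem_CH _ (fun w hw => e.map_target (ht w hw)) hc₀.1, psh_mem_DG _ hc₀.2⟩ (by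
        rw [dT_psh hf hc₀.1]
        refine psh_mem_CH (A := ball 0 ρ ∩ {0}ᶜ) _ ?_ ?_
        · intro w hw h'
          have := e.symm.injOn (ht w hw.1) hx h'
          exact hw.2 (by simpa using this)
        · rw [CH_inter]
          exact ⟨dT_mem_CH hc₀.1, hd⟩)
    rw [← e1]
    exact h1 _ _ r hr (by rw [e1]; exact hm)
  have hb5 : deg ℝ _ 5 b ∈ CC ℝ W 5 := ⟨deg_mem_CH 5 hb, deg_mem 5 b⟩
  have e2 : deg ℝ _ 4 (c - c' - dT ℝ _ b) = c - c' - dT ℝ _ (deg ℝ _ 5 b) := by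
    rw [map_sub, map_sub, deg_dT, deg_of_mem hc.1.2, deg_of_mem key.1.2]
  have h6 : c - c' - dT ℝ _ (deg ℝ _ 5 b) ∈ CC ℝ (W \ dia Y) 4 := by
    refine ⟨?_, e2 ▸ deg_mem 4 _⟩
    rw [Set.sdiff_eq, CH_inter]
    exact ⟨sub_mem (sub_mem hc.1.1 key.1.1) (dT_mem_CH hb5.1), e2 ▸ deg_mem_CH 4 h⟩
  have h7 := h4 _ h6
  rw [map_sub, map_sub, h5 _ hb5, LinearMap.mem_ker.1 key.2] at h7
  simpa using h7

end Pool.Agent.MP_bc14e1_gt

end

section

open Set Metric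
open scoped Classical

namespace Pool.Agent.MP_bc14e1_gt

section

variable {R : Type} [CommRing R] {X : Type} [TopologicalSpace X]

theorem ThBase_un {X : Type} {V L : Set X} (h : L ⊆ V) : univ ⊆ V ∪ Lᶜ := fun x _ =>
  (em (x ∈ L)).imp (@h x) id

theorem ThBase_exc {V L : Set X} (hV : IsOpen V) (hL : IsClosed L) (h : L ⊆ V) {k : ℕ}
    {c : Tot R X} (hc : c ∈ DG R X k) (hd : dT R X c ∈ CH R Lᶜ) :
    ∃ c₁ ∈ CC R V k, dT R X c₁ ∈ CH R (V \ L) ∧ ∃ b, c - c₁ - dT R X b ∈ CH R Lᶜ := by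
  obtain ⟨m, hm⟩ := sdT_small_two (R := R) hV hL.isOpen_compl (c := c)
    (CH_mono (ThBase_un h) (mem_CH_univ c))
  have h1 : (sdT R X ^ m) c - prj R V ((sdT R X ^ m) c) ∈ CH R Lᶜ := by
    obtain ⟨u, hu, v, hv, e⟩ := Submodule.mem_sup.1 (hm m le_rfl)
    rw [← e, map_add, prj_of_mem hu, add_sub_add_left_eq_sub]
    exact sub_mem hv (prj_mem_CH _ hv)
  refine ⟨prj R V ((sdT R X ^ m) c), ⟨prj_mem _ _, prj_mem_DG _ (sdT_pow_mem_DG m hc)⟩, ?_,
    sdHP R X m c, ?_⟩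
  · rw [sdiff_eq, CH_inter]
    refine ⟨dT_mem_CH (prj_mem _ _), ?_⟩
    have h2 := sub_mem (sdT_pow_mem_CH m hd) (dT_mem_CH h1)
    rwa [map_sub, dT_sdT_pow, sub_sub_cancel] at h2
  · have h2 := add_mem h1 (sdHP_mem_CH m hd)
    convert h2 using 1
    rw [eq_sub_of_add_eq (dT_sdHP m c)]
    abel

theorem ThBase_exc2 {V L : Set X} (hV : IsOpen V) (hL : IsClosed L) (h : L ⊆ V)
    {x b : Tot R X} (hx : x ∈ CH R V) (hb : x - dT R X b ∈ CH R Lᶜ) :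
    ∃ b' ∈ CH R V, x - dT R X b' ∈ CH R (V \ L) := by
  obtain ⟨m, hm⟩ := sdT_small_two (R := R) hV hL.isOpen_compl (c := b)
    (CH_mono (ThBase_un h) (mem_CH_univ b))
  obtain ⟨u, hu, v, hv, e⟩ := Submodule.mem_sup.1 (hm m le_rfl)
  have hd : dT R X x ∈ CH R Lᶜ := by simpa [dT_dT] using dT_mem_CH hb
  have h0 : u + sdHP R X m x ∈ CH R V := add_mem hu (sdHP_mem_CH m hx)
  refine ⟨_, h0, ?_⟩
  rw [sdiff_eq, CH_inter]
  have h2 := add_mem (add_mem (sdHP_mem_CH m hd) (dT_mem_CH hv)) (sdT_pow_mem_CH m hb)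
  refine Submodule.mem_inf.2 ⟨sub_mem hx (dT_mem_CH h0), ?_⟩
  convert h2 using 1
  rw [map_add, eq_sub_of_add_eq (dT_sdHP m x), map_sub, ← dT_sdT_pow, ← e, map_add]
  abel

end

theorem ThBase_deg (h : LocHomStmt) : ∃ (o : Tot ℝ (E 4)) (δ : Tot ℝ (E 4) →ₗ[ℝ] ℝ),
    ∀ c ∈ DG ℝ (E 4) 4, dT ℝ _ c ∈ CH ℝ ({0}ᶜ : Set (E 4)) → ∀ r : ℝ,
      δ c = r ↔ ∃ b, c - r • o - dT ℝ _ b ∈ CH ℝ ({0}ᶜ : Set (E 4)) := by
  obtain ⟨o, -, -, ho⟩ := h 4
  have key (c : RC ℝ (univ : Set (E 4)) {0} 4) := (ho ℝ 4 c.1 c.2.1.2 c.2.2).2 rfl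
  choose f hf hu using key
  let δ₀ : RC ℝ (univ : Set (E 4)) {0} 4 →ₗ[ℝ] ℝ :=
    { toFun := f
      map_add' := fun x y => by
        obtain ⟨b, hb⟩ := hf x
        obtain ⟨b', hb'⟩ := hf y
        refine (hu _ _ ⟨b + b', ?_⟩).symm
        convert add_mem hb hb' using 1
        rw [Submodule.coe_add, add_smul, map_add]
        abel
      map_smul' := fun a x => by
        obtain ⟨b, hb⟩ := hf x
        refine (hu _ _ ⟨a • b, ?_⟩).symm
        convert Submodule.smul_mem _ a hb using 1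
        rw [Submodule.coe_smul, map_smul, smul_sub, smul_sub, smul_smul]
        rfl }
  obtain ⟨δ, hδ⟩ := LinearMap.exists_extend δ₀
  refine ⟨castZ ℝ _ o, δ, fun c hc hd r => ?_⟩
  have e : δ c = f ⟨c, ⟨mem_CH_univ c, hc⟩, hd⟩ :=
    LinearMap.congr_fun hδ ⟨c, ⟨mem_CH_univ c, hc⟩, hd⟩
  rw [e]
  exact ⟨fun h => h ▸ hf _, fun h => (hu ⟨c, ⟨mem_CH_univ c, hc⟩, hd⟩ _ h).symm⟩

theorem ThBase_c0 {X Y : Type} [TopologicalSpace X] [T2Space X] [TopologicalSpace Y]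
    (o : Orientation4 X) {q : Y → X} (hq : IsLocalHomeomorph q) {S K : Set Y} (hS : IsOpen S)
    (hi : InjOn q S) (hK : IsCompact K) (hKS : K ⊆ S) {U : Set X} (hU : MapsTo q S U)
    {w : Sing X 4 →₀ ℤ} (hw : bd ℤ X 3 w ∈ supp ℤ Uᶜ 3)
    (hw' : ∀ x ∈ U, Null univ {x}ᶜ 4 (w - o.o x)) :
    ∃ c ∈ CC ℝ S 4, dT ℝ Y c ∈ CH ℝ (S \ K) ∧ ∀ y ∈ K, LocDeg o q y c 1 := by
  rcases K.eq_empty_or_nonempty with rfl | ⟨y₀, -⟩
  · exact ⟨0, zero_mem _, by simp, fun _ h => h.elim⟩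
  have : Nonempty Y := ⟨y₀⟩
  let g := OpenPartialHomeomorph.ofContinuousOpen (hi.toPartialEquiv q S)
    hq.continuous.continuousOn hq.isOpenMap hS
  have hL : IsClosed (q '' K) := (hK.image hq.continuous).isClosed
  have hLU : q '' K ⊆ U := (image_mono hKS).trans hU.image_subset
  have hd : dT ℝ X (castZ ℝ X (inc ℤ 4 w)) ∈ CH ℝ (q '' K)ᶜ := by
    rw [← cast_dT, dT_inc_succ]
    exact cast_mem_CH _ (CH_mono (compl_subset_compl.2 hLU) (inc_mem_CH.2 hw))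
  obtain ⟨w₁, h1, h2, b, hb⟩ := ThBase_exc g.open_target hL (image_mono hKS)
    (cast_mem_DG _ (inc_mem_DG 4 w)) hd
  have h3 : dT ℝ Y (psh ℝ g.symm w₁) ∈ CH ℝ (S \ K) := by
    rw [dT_psh g.continuousOn_symm h1.1]
    exact psh_mem_CH (B := S \ K) _
      (fun x hx => ⟨g.map_target hx.1, fun hk => hx.2 ⟨_, hk, g.right_inv hx.1⟩⟩) h2
  have h4 : psh ℝ g.symm w₁ ∈ CC ℝ S 4 :=
    ⟨psh_mem_CH _ (fun x hx => g.map_target hx) h1.1, psh_mem_DG _ h1.2⟩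
  refine ⟨_, h4, h3, fun y hy => ⟨S, hS, hKS hy, hi, h4,
    CH_mono (sdiff_subset_sdiff_right (singleton_subset_iff.2 hy)) h3, ?_⟩⟩
  obtain ⟨b₀, -, hb₀⟩ := hw' (q y) (hLU ⟨y, hy, rfl⟩)
  refine ⟨castZ ℝ X (inc ℤ 5 b₀) - b, ?_⟩
  rw [psh_psh q g.continuousOn_symm h1.1,
    psh_of_eqOn_id (f := q ∘ g.symm) (A := g.target) (fun x hx => g.right_inv hx) h1.1]
  have h5 := cast_mem_CH (Int.castRingHom ℝ) (inc_mem_CH.2 hb₀)
  have h6 := CH_mono (compl_subset_compl.2 (singleton_subset_iff.2 (mem_image_of_mem q hy))) hb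
  convert sub_mem h5 h6 using 1
  rw [map_sub, map_sub, ← dT_inc_succ, map_sub, map_sub, cast_dT, map_sub, one_smul]
  abel

theorem thBase_stmt (B : Bas1) (hLocCtr : LocCtrStmt) (hLocDeg : LocDegStmt) : ThBaseStmt := by
  intro X Y _ _ _ _ _ o q hq y
  obtain ⟨κ⟩ := B.kit
  obtain ⟨o₄, δ, hδ⟩ := ThBase_deg B.locHom
  obtain ⟨U, hU, w, hw, hw'⟩ := o.loc (q y)
  obtain ⟨⟨e, hy, heU, hi⟩, -⟩ := hLocCtr X Y q hq y _ (hq.continuous.continuousAt hU)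
  obtain ⟨ρ, hρ, hB⟩ := nhds_basis_closedBall.mem_iff.1 (e.open_target.mem_nhds (e.map_source hy))
  have hK : IsCompact (e.symm '' closedBall (e y) ρ) :=
    (isCompact_closedBall _ _).image_of_continuousOn (e.continuousOn_symm.mono hB)
  have hKS : e.symm '' closedBall (e y) ρ ⊆ e.source := by
    rintro _ ⟨z, hz, rfl⟩
    exact e.map_target (hB hz)
  obtain ⟨c₀, hc₀, hd₀, hl₀⟩ := ThBase_c0 o hq e.open_source hi hK hKS heU hw hw'
  have hmem : ∀ a ∈ e.source, e a ∈ closedBall (e y) ρ → a ∈ e.symm '' closedBall (e y) ρ :=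
    fun a ha h => ⟨e a, h, e.left_inv ha⟩
  have hcont (z : E 4) : ContinuousOn (fun a => e a - z) e.source :=
    e.continuousOn.sub continuousOn_const
  have hrel {y' : Y} (hy' : y' ∈ e.source) {c : Tot ℝ Y} (h : c ∈ CH ℝ (e.source \ {y'})) :
      psh ℝ (fun a => e a - e y') c ∈ CH ℝ ({0}ᶜ : Set (E 4)) :=
    psh_mem_CH _ (fun a ha h0 => ha.2 (e.injOn ha.1 hy' (sub_eq_zero.1 h0))) h
  have hzero {x : Tot ℝ (E 4)} (hx : x ∈ DG ℝ (E 4) 4) (b : Tot ℝ (E 4))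
      (hb : x - dT ℝ _ b ∈ CH ℝ ({0}ᶜ : Set (E 4))) : δ x = 0 :=
    (hδ x hx (by simpa [dT_dT] using dT_mem_CH hb) 0).2 ⟨b, by simpa using hb⟩
  have hyK : y ∈ e.symm '' closedBall (e y) ρ := hmem y hy (mem_closedBall_self hρ.le)
  have hκ : δ (psh ℝ (fun a => e a - e y) c₀) ≠ 0 := by
    intro h0
    have hd : dT ℝ _ (psh ℝ (fun a => e a - e y) c₀) ∈ CH ℝ ({0}ᶜ : Set (E 4)) := by
      rw [dT_psh (hcont _) hc₀.1]
      exact hrel hy (CH_mono (sdiff_subset_sdiff_right (singleton_subset_iff.2 hyK)) hd₀)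
    obtain ⟨b, hb⟩ := (hδ _ (psh_mem_DG _ hc₀.2) hd 0).1 h0
    rw [zero_smul, sub_zero] at hb
    have hT : IsOpen ((fun z => z + e y) ⁻¹' e.target) := e.open_target.preimage (by fun_prop)
    have hg : ContinuousOn (fun z => q (e.symm (z + e y))) ((fun z => z + e y) ⁻¹' e.target) :=
      hq.continuous.comp_continuousOn
        (e.continuousOn_symm.comp (by fun_prop) fun z hz => hz)
    obtain ⟨b', hb', h1⟩ := ThBase_exc2 hT isClosed_singleton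
      (singleton_subset_iff.2 (by simpa using e.map_source hy))
      (psh_mem_CH (fun a => e a - e y) (fun a ha => by simpa using e.map_source ha) hc₀.1) hb
    have h2 := psh_mem_CH (B := {q y}ᶜ) (fun z => q (e.symm (z + e y))) (fun z hz h => hz.2 (by
      have h3 := hi (e.map_target hz.1) hy h
      have h4 := e.right_inv hz.1
      rw [h3] at h4
      simpa using h4.symm)) h1
    rw [map_sub, ← dT_psh hg hb', psh_psh _ (hcont _) hc₀.1,
      psh_congr (g := q) (A := e.source) (fun a ha => by simp [e.left_inv ha]) hc₀.1] at h2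
    have h5 : LocDeg o q y c₀ 0 := ⟨_, e.open_source, hy, hi, hc₀,
      CH_mono (sdiff_subset_sdiff_right (singleton_subset_iff.2 hyK)) hd₀, _, by simpa using h2⟩
    exact one_ne_zero ((hLocDeg X Y o q hq y).2.1 _ _ _ (hl₀ y hyK) h5)
  have hV : IsOpen (e.source ∩ e ⁻¹' ball (e y) ρ) := e.isOpen_inter_preimage isOpen_ball
  have hf : ContinuousOn (fun z : Y × Y => e z.1 - e z.2)
      ((e.source ∩ e ⁻¹' ball (e y) ρ) ×ˢ (e.source ∩ e ⁻¹' ball (e y) ρ)) :=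
    (e.continuousOn.comp continuousOn_fst fun z hz => hz.1.1).sub
      (e.continuousOn.comp continuousOn_snd fun z hz => hz.2.1)
  refine ⟨_, hV.prod hV, ⟨⟨hy, mem_ball_self hρ⟩, hy, mem_ball_self hρ⟩,
    (δ (psh ℝ (fun a => e a - e y) c₀))⁻¹ •
      δ ∘ₗ psh ℝ (fun z : Y × Y => e z.1 - e z.2) ∘ₗ deg ℝ (Y × Y) 4, ?_, ?_, ?_, ?_⟩
  · intro k hk c hc
    simp [deg_eq_zero hk.symm hc]
  · intro b hb
    simp only [LinearMap.smul_apply, LinearMap.comp_apply]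
    rw [deg_dT, ← dT_psh hf (deg_mem_CH _ hb),
      hzero (dT_mem_DG (psh_mem_DG _ (deg_mem _ _))) _ (by rw [sub_self]; exact zero_mem _),
      smul_zero]
  · intro c hc
    simp only [LinearMap.smul_apply, LinearMap.comp_apply]
    rw [hzero (psh_mem_DG _ (deg_mem _ _)) 0 (by
      rw [map_zero, sub_zero]
      exact psh_mem_CH _ (fun z hz h0 => hz.2 (e.injOn hz.1.1.1 hz.1.2.1 (sub_eq_zero.1 h0)))
        (deg_mem_CH _ hc)), smul_zero]
  · intro y' c r hl hc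
    have hc1 : Continuous fun x : Y => (x, y') := by fun_prop
    have hcc : psh ℝ Prod.fst (psh ℝ (fun x : Y => (x, y')) c) = c := by
      rw [psh_psh' _ hc1]
      exact psh_id c
    have hcV : c ∈ CH ℝ (e.source ∩ e ⁻¹' ball (e y) ρ) :=
      hcc ▸ psh_mem_CH Prod.fst (fun z hz => hz.1) hc
    obtain ⟨U₀, hU₀, hy₀, hi₀, hc₁, hd₁, b₁, hb₁⟩ := id hl
    by_cases hy' : y' ∈ e.source ∩ e ⁻¹' ball (e y) ρ
    swap
    · have h0 : psh ℝ (fun x : Y => (x, y')) c = 0 := by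
        apply eq_zero_of_mem_CH_empty
        have h1 := psh_mem_CH (B := {z : Y × Y | z.2 = y'}) (fun x : Y => (x, y'))
          (fun _ _ => rfl) (mem_CH_univ c)
        refine CH_mono ?_ ((CH_inter _ _).ge ⟨hc, h1⟩)
        rintro z ⟨h2, h3⟩
        exact hy' (h3 ▸ h2.2)
      rw [h0, map_zero] at hcc ⊢
      subst hcc
      exact (hLocDeg X Y o q hq y').2.1 _ _ _
        ⟨U₀, hU₀, hy₀, hi₀, hc₁, hd₁, 0, by simp⟩ hl
    have hyK' := hmem y' hy'.1 (ball_subset_closedBall hy'.2)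
    have hcS : c ∈ CH ℝ e.source := CH_mono inter_subset_left hcV
    have hs : c - r • c₀ ∈ CC ℝ e.source 4 := sub_mem ⟨hcS, hc₁.2⟩ (Submodule.smul_mem _ _ hc₀)
    obtain ⟨-, -, -, -, -, -, b₂, hb₂⟩ := hl₀ y' hyK'
    have h5 : LocDeg o q y' (c - r • c₀) 0 := by
      refine ⟨_, e.open_source, hy'.1, hi, hs, ?_, b₁ - r • b₂, ?_⟩
      · rw [map_sub, map_smul]
        refine sub_mem ?_ (Submodule.smul_mem _ _
          (CH_mono (sdiff_subset_sdiff_right (singleton_subset_iff.2 hyK')) hd₀))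
        rw [sdiff_eq, CH_inter]
        exact ⟨dT_mem_CH hcS, CH_mono (fun _ h => h.2) hd₁⟩
      · convert sub_mem hb₁ (Submodule.smul_mem _ r hb₂) using 1
        simp only [map_sub, map_smul, smul_sub, zero_smul, one_smul]
        abel
    obtain ⟨b, hb, h6⟩ := (hLocDeg X Y o q hq y').2.2.2.2 _ h5 _ e.open_source hy'.1 hi hs.1
    have h7 := hrel hy'.1 h6
    rw [map_sub, ← dT_psh (hcont _) hb] at h7
    have h8 := hzero (psh_mem_DG _ hs.2) _ h7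
    have hH : ContinuousOn (fun z : ℝ × Y => e z.2 - ((1 - z.1) • e y' + z.1 • e y))
        (Icc 0 1 ×ˢ e.source) :=
      (e.continuousOn.comp continuousOn_snd fun z hz => hz.2).sub (by fun_prop)
    have h9 := dT_hop κ hH hc₀.1
    simp only [sub_self, zero_smul, zero_add, one_smul, sub_zero, add_zero] at h9
    have h10 := hzero (sub_mem (psh_mem_DG (fun a => e a - e y) hc₀.2)
      (psh_mem_DG (fun a => e a - e y') hc₀.2)) _ (by
        rw [← h9, add_sub_cancel_left]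
        refine hop_mem_CH κ _ (fun z hz h0 => hz.2.2 (hmem _ hz.2.1 ?_)) hd₀
        rw [sub_eq_zero.1 h0]
        exact convex_closedBall _ _ (ball_subset_closedBall hy'.2) (mem_closedBall_self hρ.le)
          (sub_nonneg.2 hz.1.2) hz.1.1 (by ring))
    simp only [LinearMap.smul_apply, LinearMap.comp_apply]
    rw [deg_of_mem (psh_mem_DG _ hc₁.2), psh_psh' _ hc1]
    rw [map_sub, map_sub, map_smul, map_smul, sub_eq_zero] at h8
    rw [map_sub, sub_eq_zero] at h10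
    change _ • δ (psh ℝ (fun a => e a - e y') c) = r
    rw [h8, ← h10, smul_eq_mul, smul_eq_mul]
    field_simp

end Pool.Agent.MP_bc14e1_gt

end

section

open Set Metric
open scoped Classical

namespace Pool.Agent.MP_bc14e1_gt

/-- A functional that kills the kernel of a map factors through the map. -/
theorem ThMV_fac {V T : Type} [AddCommGroup V] [Module ℝ V] [AddCommGroup T] [Module ℝ T]
    (Φ : V →ₗ[ℝ] T) (ψ : V →ₗ[ℝ] ℝ) (h : ∀ v, Φ v = 0 → ψ v = 0) :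
    ∃ θ : T →ₗ[ℝ] ℝ, ∀ v, θ (Φ v) = ψ v := by
  obtain ⟨θ, hθ⟩ := LinearMap.exists_extend
    (((LinearMap.ker Φ).liftQ ψ fun v hv => h v hv) ∘ₗ Φ.quotKerEquivRange.symm.toLinearMap)
  refine ⟨θ, fun v => ?_⟩
  have := LinearMap.congr_fun hθ ⟨Φ v, LinearMap.mem_range_self Φ v⟩
  simpa [LinearMap.quotKerEquivRange_symm_apply_image] using this

theorem ThMV_two {T : Type} [AddCommGroup T] [Module ℝ T] (S₁ S₂ S₃ S₄ : Submodule ℝ T)
    (L : T →ₗ[ℝ] T) (θ θ' : T →ₗ[ℝ] ℝ)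
    (h : ∀ a ∈ S₁, ∀ b ∈ S₂, ∀ w ∈ S₃, ∀ z ∈ S₄, a + b + (L w + z) = 0 → θ a + θ' b = 0) :
    ∃ θ₁ : T →ₗ[ℝ] ℝ, (∀ a ∈ S₁, θ₁ a = θ a) ∧ (∀ b ∈ S₂, θ₁ b = θ' b) ∧
      (∀ w ∈ S₃, θ₁ (L w) = 0) ∧ ∀ z ∈ S₄, θ₁ z = 0 := by
  obtain ⟨θ₁, h₁⟩ := ThMV_fac (V := (S₁ × S₂) × S₃ × S₄)
    ((S₁.subtype.coprod S₂.subtype).coprod ((L ∘ₗ S₃.subtype).coprod S₄.subtype))
    (((θ ∘ₗ S₁.subtype).coprod (θ' ∘ₗ S₂.subtype)).coprod 0)
    (by
      rintro ⟨⟨a, b⟩, w, z⟩ e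
      simpa using h a a.2 b b.2 w w.2 z z.2 e)
  exact ⟨θ₁, fun a ha => by simpa using h₁ ((⟨a, ha⟩, 0), 0, 0),
    fun b hb => by simpa using h₁ ((0, ⟨b, hb⟩), 0, 0),
    fun w hw => by simpa using h₁ ((0, 0), ⟨w, hw⟩, 0),
    fun z hz => by simpa using h₁ ((0, 0), 0, ⟨z, hz⟩)⟩

/-- Gluing of functionals on a directed family of subspaces. -/
theorem ThMV_dir {T ι : Type} [AddCommGroup T] [Module ℝ T] [Nonempty ι] (S : ι → Submodule ℝ T)
    (hS : Directed (· ≤ ·) S) (θ : ι → T →ₗ[ℝ] ℝ)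
    (h : ∀ i j, ∀ x ∈ S i, x ∈ S j → θ i x = θ j x) :
    ∃ θ₁ : T →ₗ[ℝ] ℝ, ∀ i, ∀ x ∈ S i, θ₁ x = θ i x := by
  have ex : ∀ x : ↥(⨆ i, S i), ∃ i, x.1 ∈ S i := fun x =>
    (Submodule.mem_iSup_of_directed S hS).1 x.2
  choose f hf using ex
  have hθ : ∀ (x : ↥(⨆ i, S i)) i, x.1 ∈ S i → θ (f x) x.1 = θ i x.1 := fun x i hx =>
    h _ _ _ (hf x) hx
  obtain ⟨θ₁, hθ₁⟩ := LinearMap.exists_extend (p := ⨆ i, S i) (V' := ℝ)
    { toFun := fun x => θ (f x) x.1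
      map_add' := fun x y => by
        obtain ⟨k, hk, hk'⟩ := hS (f x) (f y)
        rw [hθ x k (hk (hf x)), hθ y k (hk' (hf y)),
          hθ (x + y) k (add_mem (hk (hf x)) (hk' (hf y))), ← map_add]
        rfl
      map_smul' := fun a x => by
        rw [hθ (a • x) (f x) (Submodule.smul_mem _ a (hf x)), RingHom.id_apply, ← map_smul]
        rfl }
  refine ⟨θ₁, fun i x hx => ?_⟩
  exact (LinearMap.congr_fun hθ₁ ⟨x, Submodule.mem_iSup_of_mem i hx⟩).trans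
    (hθ ⟨x, Submodule.mem_iSup_of_mem i hx⟩ i hx)

section

variable {X Y : Type} [TopologicalSpace X] [TopologicalSpace Y] {o : Orientation4 X} {q : Y → X}

theorem ThMV_sdiff {W : Set (Y × Y)} {c : Tot ℝ (Y × Y)} :
    c ∈ CH ℝ (W \ dia Y) ↔ c ∈ CH ℝ W ∧ c ∈ CH ℝ (dia Y)ᶜ := by
  rw [Set.sdiff_eq, CH_inter, Submodule.mem_inf]

theorem ThMV_cont (y : Y) : Continuous fun x : Y => (x, y) := by fun_prop

theorem ThMV_rc {y : Y} {c : Tot ℝ Y} {r : ℝ} (h : LocDeg o q y c r) {W : Set (Y × Y)}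
    (hW : psh ℝ (fun x => (x, y)) c ∈ CH ℝ W) :
    psh ℝ (fun x => (x, y)) c ∈ RC ℝ W (dia Y) 4 := by
  obtain ⟨U, -, -, -, hc, hd, -⟩ := h
  refine ⟨⟨hW, psh_mem_DG _ hc.2⟩, ?_⟩
  rw [SetLike.mem_coe, Submodule.mem_comap, dT_psh_cont (ThMV_cont y)]
  exact psh_mem_CH _ (fun x hx h => hx.2 h) hd

theorem ThMV_fst {y : Y} {c : Tot ℝ Y} {W : Set (Y × Y)}
    (hW : psh ℝ (fun x => (x, y)) c ∈ CH ℝ W) : c ∈ CH ℝ {x | (x, y) ∈ W} := by
  have e : psh ℝ Prod.fst (psh ℝ (fun x => (x, y)) c) = c :=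
    (psh_psh' _ (ThMV_cont y) c).trans (psh_id c)
  have h2 : psh ℝ (fun x => (x, y)) c ∈ CH ℝ (W ∩ {z | z.2 = y}) := by
    rw [CH_inter]
    exact ⟨hW, psh_mem_CH (fun x => (x, y)) (B := {z | z.2 = y}) (fun _ _ => rfl)
      (mem_CH_univ c)⟩
  rw [← e]
  refine psh_mem_CH _ ?_ h2
  rintro ⟨a, b⟩ ⟨h, rfl : b = y⟩
  exact h

theorem ThMV_sd {W : Set (Y × Y)} {θ : Tot ℝ (Y × Y) →ₗ[ℝ] ℝ} (h : ThQ o q W θ)
    {a : Tot ℝ (Y × Y)} (ha : a ∈ RC ℝ W (dia Y) 4) (m : ℕ) : θ ((sdT ℝ _ ^ m) a) = θ a := by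
  have e := congrArg θ (dT_sdHP m a)
  rw [map_add, map_sub, h.coc _ (sdHP_mem_CH m ha.1.1),
    h.off _ (sdHP_mem_CH m (ThMV_sdiff.2 ⟨dT_mem_CH ha.1.1, ha.2⟩))] at e
  linarith

variable [T2Space X] [T2Space Y]

theorem ThMV_agree [ChartedSpace (E 4) X] (hDia : DiaStmt) (hq : IsLocalHomeomorph q)
    {A B W : Set (Y × Y)} {θ θ' : Tot ℝ (Y × Y) →ₗ[ℝ] ℝ} (h : ThQ o q A θ) (h' : ThQ o q B θ')
    (hW : IsOpen W) (hA : W ⊆ A) (hB : W ⊆ B) {c : Tot ℝ (Y × Y)} (hc : c ∈ RC ℝ W (dia Y) 4) :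
    θ c = θ' c := by
  have := (hDia X Y o q hq W hW).2 (θ - θ') (fun b hb => by
      rw [LinearMap.sub_apply, h.coc b (CH_mono hA hb.1), h'.coc b (CH_mono hB hb.1), sub_zero])
    (fun c hc => by
      rw [LinearMap.sub_apply, h.off c (CH_mono (sdiff_subset_sdiff_left hA) hc.1),
        h'.off c (CH_mono (sdiff_subset_sdiff_left hB) hc.1), sub_zero])
    (fun y c r hr hc => by
      rw [LinearMap.sub_apply, h.one y c r hr (CH_mono hA hc), h'.one y c r hr (CH_mono hB hc),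
        sub_self]) c hc
  rwa [LinearMap.sub_apply, sub_eq_zero] at this

theorem ThMV_mk (hLocDeg : LocDegStmt) (hq : IsLocalHomeomorph q) {W : Set (Y × Y)}
    (θ : Tot ℝ (Y × Y) →ₗ[ℝ] ℝ) (h5 : ∀ b ∈ CC ℝ W 5, θ (dT ℝ _ b) = 0)
    (h4 : ∀ c ∈ CC ℝ (W \ dia Y) 4, θ c = 0)
    (h1 : ∀ y, (y, y) ∈ W → ∃ A θ', IsOpen A ∧ (y, y) ∈ A ∧ ThQ o q A θ' ∧
      ∀ c ∈ RC ℝ A (dia Y) 4, θ c = θ' c) : ThQ o q W (θ ∘ₗ deg ℝ _ 4) where
  dg k hk c hc := by rw [LinearMap.comp_apply, deg_eq_zero hk.symm hc, map_zero]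
  coc b hb := by
    rw [LinearMap.comp_apply, deg_dT]
    exact h5 _ ⟨deg_mem_CH _ hb, deg_mem _ b⟩
  off c hc := h4 _ ⟨deg_mem_CH _ hc, deg_mem _ c⟩
  one y c r hr hc := by
    have hz := ThMV_rc hr hc
    have hc' := ThMV_fst hc
    rw [LinearMap.comp_apply, deg_of_mem hz.1.2]
    obtain ⟨-, huq, -, hsm, -⟩ := hLocDeg X Y o q hq y
    by_cases hy : (y, y) ∈ W
    · obtain ⟨A, θ', hA, hyA, hθ', hag⟩ := h1 y hy
      obtain ⟨c', hc1, hr', hh⟩ := hsm c r hr {x | (x, y) ∈ A}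
        (hA.preimage (ThMV_cont y)) hyA
      obtain ⟨hc2, b, hb, hd⟩ := hh _ hc'
      have hz1 : psh ℝ (fun x => (x, y)) c' ∈ CH ℝ A :=
        psh_mem_CH (fun x => (x, y)) (B := A) (fun _ h => h) hc1
      have hz' := ThMV_rc hr' hz1
      have hb' : psh ℝ (fun x => (x, y)) b ∈ CH ℝ W :=
        psh_mem_CH (fun x => (x, y)) (B := W) (fun _ h => h) hb
      have hd' : psh ℝ (fun x => (x, y)) (c - c' - dT ℝ Y b) ∈ CH ℝ (W \ dia Y) :=
        psh_mem_CH (fun x => (x, y)) (A := {x | (x, y) ∈ W} \ {y}) (B := W \ dia Y)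
          (fun x hx => ⟨hx.1, fun h => hx.2 h⟩) hd
      have h6 := h4 _ ⟨deg_mem_CH 4 hd', deg_mem 4 _⟩
      simp only [map_sub] at h6
      rw [← dT_psh_cont (ThMV_cont y), deg_dT, deg_of_mem hz.1.2, deg_of_mem hz'.1.2,
        h5 _ ⟨deg_mem_CH _ hb', deg_mem _ _⟩, hag _ hz', hθ'.one y c' r hr' hz1] at h6
      linarith
    · have hy' : c ∈ CH ℝ {y}ᶜ := by
        refine CH_mono ?_ hc'
        rintro x hx rfl
        exact hy hx
      have h0 : LocDeg o q y c 0 := by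
        obtain ⟨U, hU, hyU, hi, hcU, hd, -⟩ := hr
        refine ⟨U, hU, hyU, hi, hcU, hd, 0, ?_⟩
        rw [zero_smul, map_zero, sub_zero, sub_zero]
        refine psh_mem_CH (A := U ∩ {y}ᶜ) _ ?_ ?_
        · intro x hx h
          exact hx.2 (hi hx.1 hyU h)
        · rw [CH_inter]
          exact ⟨hcU.1, hy'⟩
      rw [huq c r 0 hr h0]
      refine h4 _ ⟨ThMV_sdiff.2 ⟨hc, ?_⟩, hz.1.2⟩
      exact psh_mem_CH (fun x => (x, y)) (A := {y}ᶜ) (B := (dia Y)ᶜ) (fun x hx h => hx h) hy'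

omit [T2Space Y] in
theorem ThMV_split {U V : Set (Y × Y)} {k : ℕ} {c : Tot ℝ (Y × Y)}
    (h : c ∈ CH ℝ U ⊔ CH ℝ V) (hk : c ∈ DG ℝ _ k) :
    ∃ a ∈ CC ℝ U k, ∃ b ∈ CC ℝ V k, c = a + b := by
  obtain ⟨a, ha, b, hb, e⟩ := Submodule.mem_sup.1 h
  refine ⟨_, ⟨deg_mem_CH k ha, deg_mem k a⟩, _, ⟨deg_mem_CH k hb, deg_mem k b⟩, ?_⟩
  rw [← map_add, e, deg_of_mem hk]

theorem ThMV_key [ChartedSpace (E 4) X] (hDia : DiaStmt) (hq : IsLocalHomeomorph q)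
    {A B : Set (Y × Y)} (hA : IsOpen A) (hB : IsOpen B) {θ θ' : Tot ℝ (Y × Y) →ₗ[ℝ] ℝ}
    (h : ThQ o q A θ) (h' : ThQ o q B θ') {a b w z : Tot ℝ (Y × Y)}
    (ha : a ∈ RC ℝ A (dia Y) 4) (hb : b ∈ RC ℝ B (dia Y) 4) (hw : w ∈ CC ℝ (A ∪ B) 5)
    (hz : z ∈ CC ℝ ((A ∪ B) \ dia Y) 4) (e : a + b + (dT ℝ _ w + z) = 0) : θ a + θ' b = 0 := by
  have hcl : IsClosed (dia Y) := isClosed_eq continuous_fst continuous_snd
  obtain ⟨m₁, hm₁⟩ := sdT_small_two hA hB hw.1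
  obtain ⟨m₂, hm₂⟩ := sdT_small_two (hA.sdiff hcl) (hB.sdiff hcl) (c := z)
    (by rw [← union_sdiff_distrib]; exact hz.1)
  obtain ⟨w₁, hw₁, w₂, hw₂, ew⟩ := ThMV_split (hm₁ (max m₁ m₂) (le_max_left _ _))
    (sdT_pow_mem_DG _ hw.2)
  obtain ⟨z₁, hz₁, z₂, hz₂, ez⟩ := ThMV_split (hm₂ (max m₁ m₂) (le_max_right _ _))
    (sdT_pow_mem_DG _ hz.2)
  generalize max m₁ m₂ = m at ew ez
  have e1 := congrArg (sdT ℝ (Y × Y) ^ m) e
  rw [map_add, map_add, map_add, map_zero, ← dT_sdT_pow, ew, ez, map_add] at e1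
  have e2 : (sdT ℝ _ ^ m) a + dT ℝ _ w₁ + z₁ = -((sdT ℝ _ ^ m) b + dT ℝ _ w₂ + z₂) := by
    rw [eq_neg_iff_add_eq_zero, ← e1]
    abel
  have hu : (sdT ℝ _ ^ m) a + dT ℝ _ w₁ + z₁ ∈ RC ℝ (A ∩ B) (dia Y) 4 := by
    refine ⟨⟨?_, add_mem (add_mem (sdT_pow_mem_DG m ha.1.2) (dT_mem_DG hw₁.2)) hz₁.2⟩, ?_⟩
    · rw [CH_inter]
      refine ⟨add_mem (add_mem (sdT_pow_mem_CH m ha.1.1) (dT_mem_CH hw₁.1))
        (ThMV_sdiff.1 hz₁.1).1, ?_⟩
      rw [e2]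
      exact neg_mem (add_mem (add_mem (sdT_pow_mem_CH m hb.1.1) (dT_mem_CH hw₂.1))
        (ThMV_sdiff.1 hz₂.1).1)
    · rw [SetLike.mem_coe, Submodule.mem_comap, map_add, map_add, dT_dT, add_zero, dT_sdT_pow]
      exact add_mem (sdT_pow_mem_CH m ha.2) (dT_mem_CH (ThMV_sdiff.1 hz₁.1).2)
  have e3 := ThMV_agree hDia hq h h' (hA.inter hB) inter_subset_left inter_subset_right hu
  conv_rhs at e3 => rw [e2]
  rw [map_add, map_add, map_neg, map_add, map_add, ThMV_sd h ha, ThMV_sd h' hb, h.coc _ hw₁.1,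
    h'.coc _ hw₂.1, h.off _ hz₁.1, h'.off _ hz₂.1] at e3
  linarith

end

theorem thMV_stmt (B : Bas1) (hLocDeg : LocDegStmt) (hDia : DiaStmt) : ThMVStmt := by
  intro X Y _ _ _ _ _ o q hq
  refine ⟨?_, fun ι _ U hU hd hθ => ?_⟩
  · rintro A C hA hC ⟨θ, h⟩ ⟨θ', h'⟩
    obtain ⟨θ₁, h₁, h₂, h₃, h₄⟩ := ThMV_two (RC ℝ A (dia Y) 4) (RC ℝ C (dia Y) 4)
      (CC ℝ (A ∪ C) 5) (CC ℝ ((A ∪ C) \ dia Y) 4) (dT ℝ _) θ θ'
      fun a ha b hb w hw z hz e => ThMV_key hDia hq hA hC h h' ha hb hw hz e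
    refine ⟨_, ThMV_mk hLocDeg hq θ₁ h₃ h₄ (fun y hy => ?_)⟩
    rcases hy with hy | hy
    · exact ⟨A, θ, hA, hy, h, h₁⟩
    · exact ⟨C, θ', hC, hy, h', h₂⟩
  choose θ hθ using hθ
  have mono : ∀ i j, U i ⊆ U j → RC ℝ (U i) (dia Y) 4 ≤ RC ℝ (U j) (dia Y) 4 :=
    fun i j hij c hc => ⟨⟨CH_mono hij hc.1.1, hc.1.2⟩, hc.2⟩
  obtain ⟨θ₁, h₁⟩ := ThMV_dir (fun i => RC ℝ (U i) (dia Y) 4)
    (fun i j => by
      obtain ⟨k, hk, hk'⟩ := hd i j
      exact ⟨k, mono _ _ hk, mono _ _ hk'⟩) θ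
    (fun i j x hi hj => by
      obtain ⟨k, hk, hk'⟩ := hd i j
      exact (ThMV_agree hDia hq (hθ i) (hθ k) (hU i) subset_rfl hk hi).trans
        (ThMV_agree hDia hq (hθ j) (hθ k) (hU j) subset_rfl hk' hj).symm)
  refine ⟨_, ThMV_mk hLocDeg hq θ₁ (fun b hb => ?_) (fun c hc => ?_) (fun y hy => ?_)⟩
  · obtain ⟨i, hi⟩ := exists_CH_of_directed hU hd hb.1
    rw [h₁ i _ ⟨⟨dT_mem_CH hi, dT_mem_DG hb.2⟩, by
      rw [SetLike.mem_coe, Submodule.mem_comap, dT_dT]; exact zero_mem _⟩]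
    exact (hθ i).coc b hi
  · obtain ⟨i, hi⟩ := exists_CH_of_directed hU hd (ThMV_sdiff.1 hc.1).1
    rw [h₁ i _ ⟨⟨hi, hc.2⟩, dT_mem_CH (ThMV_sdiff.1 hc.1).2⟩]
    exact (hθ i).off c (ThMV_sdiff.2 ⟨hi, (ThMV_sdiff.1 hc.1).2⟩)
  · obtain ⟨i, hi⟩ := mem_iUnion.1 hy
    exact ⟨U i, θ i, hU i, hi, hθ i, h₁ i⟩

end Pool.Agent.MP_bc14e1_gt

end

section

open Set Metric
open scoped Classical

namespace Pool.Agent.MP_bc14e1_gt

theorem ThomEx_mono {X Y : Type} [TopologicalSpace X] [TopologicalSpace Y] {o : Orientation4 X}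
    {q : Y → X} {W W' : Set (Y × Y)} {θ : Tot ℝ (Y × Y) →ₗ[ℝ] ℝ} (h : ThQ o q W θ)
    (hW : W' ⊆ W) : ThQ o q W' θ :=
  ⟨h.dg, fun b hb => h.coc b (CH_mono hW hb),
    fun c hc => h.off c (CH_mono (sdiff_subset_sdiff_left hW) hc),
    fun y c r h1 h2 => h.one y c r h1 (CH_mono hW h2)⟩

theorem ThomEx_off (hLocDeg : LocDegStmt) {X Y : Type} [TopologicalSpace X] [T2Space X]
    [TopologicalSpace Y] [T2Space Y] (o : Orientation4 X) {q : Y → X}
    (hq : IsLocalHomeomorph q) : ThQ o q (dia Y)ᶜ 0 := by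
  refine ⟨fun _ _ _ _ => rfl, fun _ _ => rfl, fun _ _ => rfl, fun y c r h1 h2 => ?_⟩
  have h3 : psh ℝ (fun x => (x, y)) c ∈ CH ℝ ((dia Y)ᶜ ∩ {z | z.2 = y}) := by
    rw [CH_inter]
    have h4 : MapsTo (fun x : Y => (x, y)) univ {z | z.2 = y} := fun _ _ => rfl
    exact Submodule.mem_inf.2 ⟨h2, psh_mem_CH _ h4 (mem_CH_univ c)⟩
  have h4 : c ∈ CH ℝ {y}ᶜ := by
    have h6 : MapsTo Prod.fst ((dia Y)ᶜ ∩ {z | z.2 = y}) {y}ᶜ :=
      fun z hz e => hz.1 (Eq.trans e (Eq.symm hz.2))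
    have h5 := psh_mem_CH Prod.fst h6 h3
    rw [psh_psh' _ (by fun_prop)] at h5
    rwa [← psh_id c]
  refine (hLocDeg X Y o q hq y).2.1 c 0 r ?_ h1
  obtain ⟨U, u1, u2, u3, u4, u5, -⟩ := h1
  refine ⟨U, u1, u2, u3, u4, u5, 0, ?_⟩
  rw [zero_smul, map_zero, sub_zero, sub_zero]
  have h6 : MapsTo q (U ∩ {y}ᶜ) {q y}ᶜ := fun x hx e => hx.2 (u3 hx.1 u2 e)
  refine psh_mem_CH q h6 ?_
  rw [CH_inter]
  exact Submodule.mem_inf.2 ⟨(Submodule.mem_inf.1 u4).1, h4⟩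

theorem thomEx_stmt (B : Bas1) (hLocDeg : LocDegStmt)
    (hThBase : ThBaseStmt) (hThMV : ThMVStmt) : ThomExStmt := by
  intro X Y _ _ _ _ _ o q hq
  choose W hW hy hθ using hThBase X Y o q hq
  obtain ⟨m1, m2⟩ := hThMV X Y o q hq
  have h0 := ThomEx_off hLocDeg o hq
  obtain ⟨θ, h⟩ := ind_cover (P := fun W => ∃ θ, ThQ o q W θ) (Q := IsOpen)
    (fun _ _ => IsOpen.union) (fun _ _ => IsOpen.inter) isOpen_empty
    ⟨0, ThomEx_mono h0 (empty_subset _)⟩ (T := fun i : Option Y => i.elim (dia Y)ᶜ W)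
    (by
      rintro (_ | y)
      · exact (isClosed_eq continuous_fst continuous_snd).isOpen_compl
      · exact hW y)
    (by
      rintro (_ | y) U _ hU
      · exact ⟨0, ThomEx_mono h0 hU⟩
      · obtain ⟨θ, h⟩ := hθ y
        exact ⟨θ, ThomEx_mono h hU⟩)
    (fun A B hA hB a b _ => m1 A B hA hB a b) m2 isOpen_univ (by
      rintro ⟨x, y⟩ -
      by_cases e : x = y
      · exact mem_iUnion.2 ⟨some y, e ▸ hy x⟩
      · exact mem_iUnion.2 ⟨none, e⟩)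
  have e : coevR (fun σ => θ (Finsupp.single σ 1)) = θ := by
    ext σ
    simp [coevR]
  refine ⟨fun σ => θ (Finsupp.single σ 1), fun σ hσ => h.dg _ hσ _ (single_mem_DG σ 1),
    fun σ hσ => h.off _ (single_mem_CH 1 fun t => ⟨trivial, hσ t⟩), fun c => ?_,
    fun y c r hc => ?_⟩
  · rw [e]
    exact h.coc c (mem_CH_univ c)
  · rw [e]
    exact h.one y c r hc (mem_CH_univ _)

end Pool.Agent.MP_bc14e1_gt

end

section

open Set Metric
open scoped Classical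

namespace Pool.Agent.MP_bc14e1_gt

section Aux

/-- A functional can be modified off `V` so that it kills `N`. -/
theorem ThomInv_ext {M : Type} [AddCommGroup M] [Module ℝ M] (V N : Submodule ℝ M)
    (θ : M →ₗ[ℝ] ℝ) (h : ∀ c ∈ V, c ∈ N → θ c = 0) :
    ∃ θ' : M →ₗ[ℝ] ℝ, (∀ c ∈ V, θ' c = θ c) ∧ ∀ c ∈ N, θ' c = 0 := by
  have : θ ∈ (V ⊓ N).dualAnnihilator :=
    (Submodule.mem_dualAnnihilator θ).2 fun c hc => h c hc.1 hc.2
  rw [Subspace.dualAnnihilator_inf_eq] at this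
  obtain ⟨a, ha, b, hb, rfl⟩ := Submodule.mem_sup.1 this
  refine ⟨b, fun c hc => ?_, (Submodule.mem_dualAnnihilator b).1 hb⟩
  rw [LinearMap.add_apply, (Submodule.mem_dualAnnihilator a).1 ha c hc, zero_add]

theorem ThomInv_coev {Z : Type} [TopologicalSpace Z] (θ : Tot ℝ Z →ₗ[ℝ] ℝ) :
    coevR (fun σ => θ (Finsupp.single σ 1)) = θ := by
  ext σ
  simp [coevR]

variable {X G Y : Type} [TopologicalSpace X] [Group G] [TopologicalSpace Y] [MulAction G Y]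
  [ContinuousConstSMul G Y]

theorem ThomInv_off {o : Orientation4 X} {p : Y → X} {τ : TS (Y × Y) → ℝ} (h : IsThom o p τ)
    {c : Tot ℝ (Y × Y)} (hc : c ∈ CH ℝ (dia Y)ᶜ) : coevR τ c = 0 := by
  refine map_CH (T := ⊥) (coevR τ) (fun k σ hσ => ?_) hc
  rw [Submodule.mem_bot, coevR, Finsupp.linearCombination_single, h.off ⟨k, σ⟩ hσ, smul_zero]

omit [TopologicalSpace Y] [ContinuousConstSMul G Y] in
theorem ThomInv_dia (g : G) : Inv g (dia Y)ᶜ := fun z => by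
  simp only [dia, mem_compl_iff, mem_ofPred_eq, Prod.smul_fst, Prod.smul_snd, smul_left_cancel_iff]

theorem ThomInv_gsRC (g : G) {k : ℕ} {c : Tot ℝ (Y × Y)} (hc : c ∈ RC ℝ univ (dia Y) k) :
    gs ℝ (Y × Y) g c ∈ RC ℝ univ (dia Y) k := by
  refine ⟨⟨mem_CH_univ _, gs_mem_DG g hc.1.2⟩, ?_⟩
  change dT ℝ _ _ ∈ CH ℝ (dia Y)ᶜ
  rw [dT_gs]
  exact gs_mem_CH g (fun z hz => (ThomInv_dia g z).2 hz) hc.2

theorem ThomInv_locDeg {o : Orientation4 X} {p : Y → X} (g : G)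
    (hg : ∀ y, p (g • y) = p y) {y : Y} {c : Tot ℝ Y} {r : ℝ} (h : LocDeg o p y c r) :
    LocDeg o p (g • y) (gs ℝ Y g c) r := by
  obtain ⟨U, hU, hy, hi, hc, hd, b, hb⟩ := h
  refine ⟨(fun y => g • y) '' U, isOpenMap_smul g U hU, ⟨y, hy, rfl⟩, ?_,
    ⟨gs_mem_CH g (fun x hx => mem_image_of_mem _ hx) hc.1, gs_mem_DG g hc.2⟩, ?_, b, ?_⟩
  · rintro _ ⟨x, hx, rfl⟩ _ ⟨x', hx', rfl⟩ e
    rw [hg, hg] at e
    rw [hi hx hx' e]
  · rw [dT_gs]
    refine gs_mem_CH g (fun x hx => ?_) hd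
    exact ⟨mem_image_of_mem _ hx.1, fun e => hx.2 (smul_left_cancel g e)⟩
  · rw [gs, psh_psh' _ (continuous_const_smul g), hg]
    have : (p ∘ fun y => g • y) = p := funext hg
    rwa [this]

theorem ThomInv_slice (g : G) (y : Y) (c : Tot ℝ Y) :
    gs ℝ (Y × Y) g (psh ℝ (fun x => (x, y)) c) = psh ℝ (fun x => (x, g • y)) (gs ℝ Y g c) := by
  rw [gs, gs, psh_psh' _ (by fun_prop), psh_psh' _ (continuous_const_smul g)]
  rfl

theorem ThomInv_sliceRC {o : Orientation4 X} {p : Y → X} {y : Y} {c : Tot ℝ Y} {r : ℝ}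
    (h : LocDeg o p y c r) : psh ℝ (fun x => (x, y)) c ∈ RC ℝ univ (dia Y) 4 := by
  obtain ⟨U, -, -, -, hc, hd, -⟩ := h
  refine ⟨⟨mem_CH_univ _, psh_mem_DG _ hc.2⟩, ?_⟩
  change dT ℝ _ _ ∈ CH ℝ (dia Y)ᶜ
  rw [dT_psh_cont (by fun_prop)]
  exact psh_mem_CH _ (fun x hx => hx.2) hd

end Aux

theorem thomInv_stmt (B : Bas1) (hLocDeg : LocDegStmt)
    (hDia : DiaStmt) (hThomEx : ThomExStmt) : ThomInvStmt := by
  intro X G Y _ _ _ _ _ _ _ _ o F p s A hT hA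
  obtain ⟨-, hl, -⟩ := B.cov G X Y Fᶜ p hT.cov
  obtain ⟨τ₀, h₀⟩ := hThomEx X Y o p hl
  have hI : ∀ g : G, ∀ c ∈ RC ℝ univ (dia Y) 4, coevR τ₀ (gs ℝ (Y × Y) g c) = coevR τ₀ c := by
    intro g c hc
    have := (hDia X Y o p hl univ isOpen_univ).2 (coevR τ₀ ∘ₗ gs ℝ (Y × Y) g - coevR τ₀)
      (fun b _ => ?_) (fun c hc => ?_) (fun y c r h _ => ?_) c hc
    · exact sub_eq_zero.1 this
    · rw [LinearMap.sub_apply, LinearMap.comp_apply, ← dT_gs, h₀.coc, h₀.coc, sub_self]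
    · have h1 : c ∈ CH ℝ (dia Y)ᶜ := CH_mono (fun z hz => hz.2) hc.1
      rw [LinearMap.sub_apply, LinearMap.comp_apply, ThomInv_off h₀ h1,
        ThomInv_off h₀ (gs_mem_CH g (fun z hz => (ThomInv_dia g z).2 hz) h1), sub_self]
    · rw [LinearMap.sub_apply, LinearMap.comp_apply, ThomInv_slice, h₀.one _ _ _ h,
        h₀.one _ _ _ (ThomInv_locDeg g (hT.cov.inv g) h), sub_self]
  obtain ⟨θ₁, h1, h2⟩ := ThomInv_ext (RC ℝ univ (dia Y) 4)
    ((DG ℝ (Y × Y) 4).map (gs ℝ (Y × Y) s - 1)) (coevR τ₀) (by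
      rintro _ hc ⟨y, hy, rfl⟩
      have hne : (LaurentPolynomial.T 1 - 1 : Lam ℝ) ≠ 0 := by
        intro e
        have e' : (LaurentPolynomial.T 1 : Lam ℝ) = LaurentPolynomial.T 0 := sub_eq_zero.1 e
        have := congrArg LaurentPolynomial.degree e'
        rw [LaurentPolynomial.degree_T, LaurentPolynomial.degree_T] at this
        exact absurd (WithBot.coe_injective this) one_ne_zero
      have ha : act ℝ (Y × Y) s (LaurentPolynomial.T 1 - 1) = gs ℝ (Y × Y) s - 1 := by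
        rw [map_sub, map_one, act_T, zpow_one]
      have hy' : dT ℝ _ y ∈ CH ℝ (dia Y)ᶜ := by
        refine (B.tf ℝ G (Y × Y) s (fun n z e => hT.inf n (hT.cov.free _ z.1
          (congrArg Prod.fst e))) _ hne (dT ℝ _ y)).2.1 _ (ThomInv_dia s) ?_
        rw [← dT_act, ha]
        exact hc.2
      rw [LinearMap.sub_apply, map_sub, Module.End.one_apply,
        hI s y ⟨⟨mem_CH_univ _, hy⟩, hy'⟩, sub_self])
  have := Fintype.ofFinite A
  let θ : Tot ℝ (Y × Y) →ₗ[ℝ] ℝ := (Fintype.card A : ℝ)⁻¹ •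
    ∑ a : A, θ₁ ∘ₗ gs ℝ (Y × Y) (a : G) ∘ₗ deg ℝ (Y × Y) 4
  have hθ : ∀ c, θ c = (Fintype.card A : ℝ)⁻¹ *
      ∑ a : A, θ₁ (gs ℝ (Y × Y) (a : G) (deg ℝ (Y × Y) 4 c)) := fun c => by
    simp only [θ, LinearMap.smul_apply, LinearMap.sum_apply, LinearMap.comp_apply, smul_eq_mul]
  have hV : ∀ c, deg ℝ (Y × Y) 4 c ∈ RC ℝ univ (dia Y) 4 →
      θ c = coevR τ₀ (deg ℝ (Y × Y) 4 c) := by
    intro c hc
    rw [hθ, Finset.sum_congr rfl fun (a : A) _ =>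
      (h1 _ (ThomInv_gsRC (a : G) hc)).trans (hI a _ hc), Finset.sum_const, Finset.card_univ,
      nsmul_eq_mul, inv_mul_cancel_left₀ (Nat.cast_ne_zero.2 Fintype.card_ne_zero)]
  have hgs : ∀ (g : G) c, psh ℝ (Prod.map (fun y : Y => g • y) fun y => g • y) c =
      gs ℝ (Y × Y) g c := fun g c => rfl
  have hdg : ∀ (g : G) c, deg ℝ (Y × Y) 4 (gs ℝ (Y × Y) g c) =
      gs ℝ (Y × Y) g (deg ℝ (Y × Y) 4 c) := fun g c => deg_psh _ 4 c
  refine ⟨fun σ => θ (Finsupp.single σ 1), ⟨fun σ hσ => ?_, fun σ hσ => ?_, fun c => ?_,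
    fun y c r h => ?_⟩, fun c => ?_, fun a ha c => ?_⟩
  · rw [hθ, deg_eq_zero (Ne.symm hσ) (single_mem_DG σ 1)]
    simp
  · have hc : deg ℝ (Y × Y) 4 (Finsupp.single σ 1) ∈ CH ℝ (dia Y)ᶜ :=
      deg_mem_CH 4 (single_mem_CH 1 hσ)
    rw [hV _ ⟨⟨mem_CH_univ _, deg_mem 4 _⟩, dT_mem_CH hc⟩, ThomInv_off h₀ hc]
  · rw [ThomInv_coev, hV, deg_dT, h₀.coc]
    refine ⟨⟨mem_CH_univ _, deg_mem 4 _⟩, ?_⟩
    change dT ℝ _ _ ∈ CH ℝ (dia Y)ᶜ
    rw [deg_dT, dT_dT]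
    exact zero_mem _
  · have hc := ThomInv_sliceRC h
    have e := deg_of_mem hc.1.2
    rw [ThomInv_coev, hV _ (by rwa [e]), e, h₀.one _ _ _ h]
  · rw [ThomInv_coev, hgs, hθ, hθ, hdg]
    congr 1
    refine Finset.sum_congr rfl fun a _ => ?_
    rw [← gs_mul, hT.cen, gs_mul, ← sub_eq_zero, ← map_sub]
    exact h2 _ ⟨_, gs_mem_DG (a : G) (deg_mem 4 c), rfl⟩
  · rw [ThomInv_coev, hgs, hθ, hθ, hdg]
    congr 1
    refine Fintype.sum_equiv (Equiv.mulRight (⟨a, ha⟩ : A)) _ _ fun b => ?_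
    rw [← gs_mul]
    rfl

end Pool.Agent.MP_bc14e1_gt

end

section

open Set Metric
open scoped Classical

namespace Pool.Agent.MP_bc14e1_gt

theorem Eta_ne : (LaurentPolynomial.T 1 - 1 : Lam ℝ) ≠ 0 := by
  intro h
  have h1 := congrArg LaurentPolynomial.degree (sub_eq_zero.1 h)
  rw [← LaurentPolynomial.T_zero, LaurentPolynomial.degree_T, LaurentPolynomial.degree_T] at h1
  exact absurd (WithBot.coe_injective h1) one_ne_zero

theorem Eta_coev {X : Type} [TopologicalSpace X] (l : Tot ℝ X →ₗ[ℝ] ℝ) :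
    coevR (fun σ => l (Finsupp.single σ 1)) = l := by
  refine Finsupp.lhom_ext fun σ a => ?_
  rw [coevR, Finsupp.linearCombination_single, ← map_smul, Finsupp.smul_single, smul_eq_mul,
    mul_one]

theorem Eta_fac {M N : Type} [AddCommGroup M] [Module ℝ M] [AddCommGroup N] [Module ℝ N]
    (Φ : M →ₗ[ℝ] N) (ψ : M →ₗ[ℝ] ℝ) (h : ∀ m, Φ m = 0 → ψ m = 0) :
    ∃ l : N →ₗ[ℝ] ℝ, ∀ m, l (Φ m) = ψ m := by
  have hψ : ψ ∈ LinearMap.range Φ.dualMap := by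
    rw [LinearMap.range_dualMap_eq_dualAnnihilator_ker, Submodule.mem_dualAnnihilator]
    exact h
  obtain ⟨l, hl⟩ := hψ
  exact ⟨l, fun m => DFunLike.congr_fun hl m⟩

theorem eta_stmt (B : Bas1) (hDia : DiaStmt) : EtaStmt := by
  intro X G Y _ _ _ _ _ _ _ _ o F p s hp D hD hs
  have hl := (B.cov G X Y _ p hp.cov).2.1
  have hi : Inv s (dia Y)ᶜ := fun z => by
    simp only [dia, mem_compl_iff, mem_ofPred_eq, Prod.smul_fst, Prod.smul_snd, smul_left_cancel_iff]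
  have hg : ∀ c ∈ CH ℝ (dia Y)ᶜ, gs ℝ (Y × Y) s c ∈ CH ℝ (dia Y)ᶜ := fun c hc =>
    gs_mem_CH s (fun z hz => (hi z).2 hz) hc
  have key : ∀ c ∈ DG ℝ (Y × Y) 4, ∀ u ∈ CH ℝ (dia Y)ᶜ, ∀ y,
      dT ℝ _ c + (u + (gs ℝ (Y × Y) s y - y)) = 0 → D c = 0 := by
    intro c hc u hu y h
    have h1 := congrArg (deg ℝ (Y × Y) 3) h
    rw [map_add, map_add, map_sub, map_zero, deg_of_mem (dT_mem_DG hc), gs, deg_psh, ← gs] at h1
    have hu3 := deg_mem_CH 3 hu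
    have hy3 := deg_mem (R := ℝ) 3 y
    generalize deg ℝ (Y × Y) 3 u = u' at h1 hu3
    generalize deg ℝ (Y × Y) 3 y = y' at h1 hy3
    have h2 := congrArg (dT ℝ (Y × Y)) h1
    rw [map_add, map_add, map_sub, map_zero, dT_dT, zero_add, dT_gs] at h2
    have h3 : dT ℝ _ y' ∈ CH ℝ (dia Y)ᶜ := by
      refine (B.tf ℝ G (Y × Y) s (fun n z hz => hp.inf n (hp.cov.free _ z.1
        (congrArg Prod.fst hz))) _ Eta_ne _).2.1 _ hi ?_
      rw [map_sub, map_one, act_T, zpow_one, LinearMap.sub_apply, Module.End.one_apply,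
        eq_neg_of_add_eq_zero_right h2]
      exact neg_mem (dT_mem_CH hu3)
    obtain ⟨b, hb, hb'⟩ := (hDia X Y o p hl univ isOpen_univ).1 y' ⟨⟨mem_CH_univ _, hy3⟩, h3⟩
    have h4 := hD (c + (gs ℝ (Y × Y) s b - b)) ⟨⟨mem_CH_univ _,
      add_mem hc (sub_mem (gs_mem_DG s hb.2) hb.2)⟩, by
        change dT ℝ _ _ ∈ CH ℝ (dia Y)ᶜ
        convert neg_mem (add_mem hu3 (sub_mem (hg _ hb') hb')) using 1
        rw [map_add, map_sub, map_sub, dT_gs, eq_neg_of_add_eq_zero_left h1]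
        abel⟩
    rwa [map_add, map_sub, hs, sub_self, add_zero] at h4
  let Φ : (DG ℝ (Y × Y) 4 × CH ℝ (dia Y)ᶜ × Tot ℝ (Y × Y)) →ₗ[ℝ] Tot ℝ (Y × Y) :=
    (dT ℝ (Y × Y) ∘ₗ (DG ℝ (Y × Y) 4).subtype).coprod
      ((CH ℝ (dia Y)ᶜ).subtype.coprod (gs ℝ (Y × Y) s - 1))
  let ψ : (DG ℝ (Y × Y) 4 × CH ℝ (dia Y)ᶜ × Tot ℝ (Y × Y)) →ₗ[ℝ] ℝ :=
    (D ∘ₗ (DG ℝ (Y × Y) 4).subtype) ∘ₗ LinearMap.fst ℝ _ _
  have hk : ∀ m, Φ m = 0 → ψ m = 0 := fun m h => key m.1.1 m.1.2 m.2.1.1 m.2.1.2 m.2.2 h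
  obtain ⟨l, hl'⟩ :=
    Eta_fac (M := DG ℝ (Y × Y) 4 × CH ℝ (dia Y)ᶜ × Tot ℝ (Y × Y)) (N := Tot ℝ (Y × Y)) Φ ψ hk
  have e : ∀ (c : DG ℝ (Y × Y) 4) (u : CH ℝ (dia Y)ᶜ) (y : Tot ℝ (Y × Y)),
      l (dT ℝ _ c.1 + (u.1 + (gs ℝ (Y × Y) s y - y))) = D c := fun c u y => hl' (c, u, y)
  refine ⟨fun σ => l (Finsupp.single σ 1), fun c hc => ?_, fun c => ?_, fun c hc => ?_⟩
  · simpa [Eta_coev] using e 0 ⟨c, hc⟩ 0
  · rw [Eta_coev, ← sub_eq_zero, ← map_sub]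
    have := e 0 0 c
    simp only [ZeroMemClass.coe_zero, map_zero, zero_add] at this
    exact this
  · rw [Eta_coev, ← e ⟨c, hc⟩ 0 0]
    simp

end Pool.Agent.MP_bc14e1_gt

end

section

open Set Metric
open scoped Classical

namespace Pool.Agent.MP_bc14e1_gt

/-- A complex structure on four-space. -/
noncomputable def Swap_J (w : E 4) : E 4 := WithLp.toLp 2 ![-w 1, w 0, -w 3, w 2]

/-- A path of invertible contractions from the identity to its negative. -/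
noncomputable def Swap_R (s : ℝ) (w : E 4) : E 4 := (1 - 2 * s) • w + (s * (1 - s)) • Swap_J w

theorem Swap_J_cont : Continuous Swap_J := by
  unfold Swap_J
  refine (PiLp.continuous_toLp 2 _).comp (continuous_pi fun i => ?_)
  fin_cases i <;> simp <;> fun_prop

theorem Swap_norm_sq (s : ℝ) (w : E 4) :
    ‖Swap_R s w‖ ^ 2 = ((1 - 2 * s) ^ 2 + (s * (1 - s)) ^ 2) * ‖w‖ ^ 2 := by
  rw [EuclideanSpace.real_norm_sq_eq, EuclideanSpace.real_norm_sq_eq]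
  simp [Swap_R, Swap_J, Fin.sum_univ_four]
  ring

theorem Swap_norm_le {s : ℝ} (hs : s ∈ Icc (0 : ℝ) 1) (w : E 4) : ‖Swap_R s w‖ ≤ ‖w‖ := by
  refine (pow_le_pow_iff_left₀ (norm_nonneg _) (norm_nonneg _) two_ne_zero).1 ?_
  rw [Swap_norm_sq]
  have h1 : 0 ≤ s * (1 - s) := mul_nonneg hs.1 (sub_nonneg.2 hs.2)
  have h2 : s * (1 - s) ≤ 1 := by nlinarith [hs.1, hs.2]
  have h3 : (1 - 2 * s) ^ 2 + (s * (1 - s)) ^ 2 ≤ 1 := by nlinarith
  nlinarith [sq_nonneg ‖w‖]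

theorem Swap_ne {s : ℝ} {w : E 4} (h : Swap_R s w = 0) : w = 0 := by
  have h1 := Swap_norm_sq s w
  rw [h, norm_zero] at h1
  have h2 : 0 < (1 - 2 * s) ^ 2 + (s * (1 - s)) ^ 2 := by
    by_cases h3 : 1 - 2 * s = 0
    · have : s = 1 / 2 := by linarith
      rw [this]
      norm_num
    · positivity
  have h4 : ‖w‖ ^ 2 = 0 := by
    rcases mul_eq_zero.1 (h1.symm.trans (by norm_num)) with h5 | h5
    · exact absurd h5 h2.ne'
    · exact h5
  exact norm_eq_zero.1 (pow_eq_zero_iff two_ne_zero |>.1 h4)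

theorem Swap_mem {s : ℝ} (hs : s ∈ Icc (0 : ℝ) 1) {x₀ z : E 4} {ρ : ℝ} (hz : z ∈ ball x₀ ρ)
    {ε : ℝ} (hε : |ε| = 1) :
    x₀ + (1 / 2 : ℝ) • ((z - x₀) + ε • Swap_R s (z - x₀)) ∈ ball x₀ ρ := by
  rw [mem_ball_iff_norm] at hz ⊢
  rw [add_sub_cancel_left, norm_smul]
  have h1 := norm_add_le (z - x₀) (ε • Swap_R s (z - x₀))
  rw [norm_smul, Real.norm_eq_abs, hε, one_mul] at h1
  have h2 := Swap_norm_le hs (z - x₀)
  rw [Real.norm_of_nonneg (by norm_num)]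
  linarith

theorem Swap_off {X Y : Type} [TopologicalSpace X] [TopologicalSpace Y] {o : Orientation4 X}
    {q : Y → X} {τ : TS (Y × Y) → ℝ} (h : IsThom o q τ) {c : Tot ℝ (Y × Y)}
    (hc : c ∈ CH ℝ (dia Y)ᶜ) : coevR τ c = 0 := by
  refine map_CH (T := ⊥) (coevR τ) (fun k σ hσ => ?_) hc
  rw [coevR, Finsupp.linearCombination_single, h.off ⟨k, σ⟩ hσ, smul_zero]
  exact zero_mem _

theorem Swap_loc (κ : Kit) {X Y : Type} [TopologicalSpace X] [TopologicalSpace Y]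
    {o : Orientation4 X} {q : Y → X} {τ : TS (Y × Y) → ℝ} (h : IsThom o q τ)
    (e : OpenPartialHomeomorph Y (E 4)) {y : Y} (hy : y ∈ e.source) {ρ : ℝ}
    (hρ : ball (e y) ρ ⊆ e.target) {c : Tot ℝ Y} (hc : c ∈ CH ℝ (e.source ∩ e ⁻¹' ball (e y) ρ))
    (hd : dT ℝ Y c ∈ CH ℝ ({y}ᶜ : Set Y)) :
    coevR τ (psh ℝ (fun x => (y, x)) c) = coevR τ (psh ℝ (fun x => (x, y)) c) := by
  let g : ℝ → ℝ × Y → E 4 := fun ε p =>
    e y + (1 / 2 : ℝ) • ((e p.2 - e y) + ε • Swap_R p.1 (e p.2 - e y))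
  let H : ℝ × Y → Y × Y := fun p => (e.symm (g (-1) p), e.symm (g 1 p))
  have hm : ∀ ε : ℝ, |ε| = 1 →
      MapsTo (g ε) (Icc 0 1 ×ˢ (e.source ∩ e ⁻¹' ball (e y) ρ)) e.target :=
    fun ε hε p hp => hρ (Swap_mem hp.1 hp.2.2 hε)
  have hg : ∀ ε, ContinuousOn (g ε) (Icc 0 1 ×ˢ (e.source ∩ e ⁻¹' ball (e y) ρ)) := by
    intro ε
    have h1 : ContinuousOn (fun p : ℝ × Y => e p.2)
        (Icc 0 1 ×ˢ (e.source ∩ e ⁻¹' ball (e y) ρ)) :=
      e.continuousOn.comp continuous_snd.continuousOn fun p hp => hp.2.1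
    have h2 : Continuous fun p : ℝ × E 4 =>
        e y + (1 / 2 : ℝ) • ((p.2 - e y) + ε • Swap_R p.1 (p.2 - e y)) := by
      have := Swap_J_cont
      unfold Swap_R
      fun_prop
    exact h2.comp_continuousOn (f := fun p : ℝ × Y => (p.1, e p.2))
      (continuous_fst.continuousOn.prodMk h1)
  have hH : ContinuousOn H (Icc 0 1 ×ˢ (e.source ∩ e ⁻¹' ball (e y) ρ)) :=
    (e.continuousOn_symm.comp (hg _) (hm _ (by norm_num))).prodMk
      (e.continuousOn_symm.comp (hg _) (hm _ (by norm_num)))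
  have h1 := congrArg (coevR τ) (dT_hop κ hH hc)
  have h2 : hop κ ℝ H (dT ℝ Y c) ∈ CH ℝ (dia Y)ᶜ := by
    have h3 : dT ℝ Y c ∈ CH ℝ ((e.source ∩ e ⁻¹' ball (e y) ρ) ∩ {y}ᶜ) := by
      rw [CH_inter]
      exact ⟨dT_mem_CH hc, hd⟩
    refine hop_mem_CH κ H ?_ h3
    intro p hp hq
    refine hp.2.2 ?_
    have h4 : g (-1) p = g 1 p :=
      e.symm.injOn (hm _ (by norm_num) ⟨hp.1, hp.2.1⟩) (hm _ (by norm_num) ⟨hp.1, hp.2.1⟩) hq
    have h5 : Swap_R p.1 (e p.2 - e y) = g 1 p - g (-1) p := by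
      simp only [g]
      module
    rw [h4, sub_self] at h5
    exact e.injOn hp.2.1.1 hy (sub_eq_zero.1 (Swap_ne h5))
  have e1 : psh ℝ (fun x => H (1, x)) c = psh ℝ (fun x => (x, y)) c := by
    refine psh_congr (fun x hx => ?_) hc
    have a1 : g (-1) (1, x) = e x := by
      simp only [g, Swap_R]
      module
    have a2 : g 1 (1, x) = e y := by
      simp only [g, Swap_R]
      module
    simp only [H, a1, a2, e.left_inv hx.1, e.left_inv hy]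
  have e0 : psh ℝ (fun x => H (0, x)) c = psh ℝ (fun x => (y, x)) c := by
    refine psh_congr (fun x hx => ?_) hc
    have a1 : g (-1) (0, x) = e y := by
      simp only [g, Swap_R]
      module
    have a2 : g 1 (0, x) = e x := by
      simp only [g, Swap_R]
      module
    simp only [H, a1, a2, e.left_inv hx.1, e.left_inv hy]
  rw [map_add, h.coc, Swap_off h h2, add_zero, e0, e1, map_sub] at h1
  exact (sub_eq_zero.1 h1.symm).symm

theorem swap_stmt (B : Bas1) (hLocCtr : LocCtrStmt)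
    (hLocDeg : LocDegStmt) (hDia : DiaStmt) : SwapStmt := by
  intro X Y _ _ _ _ _ o q τ hq h c hc
  obtain ⟨κ⟩ := B.kit
  refine sub_eq_zero.1 ((hDia X Y o q hq univ isOpen_univ).2
    (coevR τ ∘ₗ psh ℝ Prod.swap - coevR τ) (fun b _ => ?_) (fun c hc => ?_)
    (fun y c r hr _ => ?_) c hc)
  · rw [LinearMap.sub_apply, LinearMap.comp_apply, ← dT_psh_cont continuous_swap, h.coc, h.coc,
      sub_self]
  · have h1 : c ∈ CH ℝ (dia Y)ᶜ := CH_mono (fun _ h => h.2) hc.1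
    have h2 : psh ℝ Prod.swap c ∈ CH ℝ (dia Y)ᶜ :=
      psh_mem_CH (A := (dia Y)ᶜ) (B := (dia Y)ᶜ) _ (fun z hz h => hz (Eq.symm h)) h1
    rw [LinearMap.sub_apply, LinearMap.comp_apply, Swap_off h h1, Swap_off h h2, sub_self]
  · obtain ⟨e, hy, -, -⟩ := (hLocCtr X Y q hq y univ Filter.univ_mem).1
    obtain ⟨ρ, hρ, hb⟩ := Metric.isOpen_iff.1 e.open_target _ (e.map_source hy)
    obtain ⟨c', hc', ⟨U, -, -, -, -, hd, -⟩, hW⟩ := (hLocDeg X Y o q hq y).2.2.2.1 c r hr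
      (e.source ∩ e ⁻¹' ball (e y) ρ)
      (e.continuousOn.isOpen_inter_preimage e.open_source isOpen_ball) ⟨hy, mem_ball_self hρ⟩
    obtain ⟨-, b, -, hb'⟩ := hW univ (mem_CH_univ c)
    have key : ∀ f : Y → Y × Y, Continuous f → MapsTo f (univ \ {y}) (dia Y)ᶜ →
        coevR τ (psh ℝ f c) = coevR τ (psh ℝ f c') := fun f hf hm => by
      have := Swap_off h (psh_mem_CH f hm hb')
      rwa [map_sub, map_sub, ← dT_psh_cont hf, map_sub, map_sub, h.coc, sub_zero,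
        sub_eq_zero] at this
    rw [LinearMap.sub_apply, LinearMap.comp_apply, psh_psh' _ (by fun_prop), sub_eq_zero]
    change coevR τ (psh ℝ (fun x => (y, x)) c) = _
    rw [key _ (by fun_prop) fun x hx h => hx.2 (Eq.symm h),
      key (fun x => (x, y)) (by fun_prop) fun x hx h => hx.2 h]
    exact Swap_loc κ h e hy hb hc' (CH_mono (fun _ h => h.2) hd)

end Pool.Agent.MP_bc14e1_gt

end

section

open Set Metric
open scoped Classical

namespace Pool.Agent.MP_bc14e1_gt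

section
variable {X Y : Type} [TopologicalSpace X] [TopologicalSpace Y]

theorem PairA_coev_cast (τ : TS X → ℝ) (c : Tot ℝ X) :
    coevC τ (cast Complex.ofRealHom X c) = (coevR τ c : ℝ) := by
  induction c using Finsupp.induction_linear with
  | zero => simp
  | add a b ha hb => rw [map_add, map_add, map_add, ha, hb, Complex.ofReal_add]
  | single σ a => simp [cast_single, coevC, coevR]

theorem PairA_coev_cj (τ : TS X → ℝ) (c : Tot ℂ X) :
    coevC τ (cjT X c) = starRingEnd ℂ (coevC τ c) := by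
  induction c using Finsupp.induction_linear with
  | zero => simp
  | add a b ha hb => rw [map_add, map_add, map_add, ha, hb, map_add]
  | single σ a => simp [cast_single, coevC]

theorem PairA_transfer (a b : TS Y → ℝ) (L : Tot ℝ X →ₗ[ℝ] Tot ℝ Y)
    (L' : Tot ℂ X →ₗ[ℂ] Tot ℂ Y) (N : Tot ℝ X →ₗ[ℝ] Tot ℝ Y) (N' : Tot ℂ X →ₗ[ℂ] Tot ℂ Y)
    (S : Set (TS X))
    (hL : ∀ c, cast Complex.ofRealHom _ (L c) = L' (cast Complex.ofRealHom _ c))
    (hN : ∀ c, cast Complex.ofRealHom _ (N c) = N' (cast Complex.ofRealHom _ c))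
    (h : ∀ c ∈ Finsupp.supported ℝ ℝ S, coevR a (L c) = coevR b (N c)) :
    ∀ c ∈ Finsupp.supported ℂ ℂ S, coevC a (L' c) = coevC b (N' c) := by
  intro c hc
  refine supported_ind (P := fun c => coevC a (L' c) = coevC b (N' c)) (by simp)
    (fun u v hu hv => by simp only [map_add, hu, hv]) (fun σ hσ z => ?_) hc
  have e : Finsupp.single σ z = z • cast Complex.ofRealHom X (Finsupp.single σ 1) := by
    rw [cast_single, map_one, Finsupp.smul_single_one]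
  rw [e, map_smul, map_smul, map_smul, map_smul, ← hL, ← hN, PairA_coev_cast, PairA_coev_cast,
    h _ (Finsupp.single_mem_supported ℝ 1 hσ)]

theorem PairA_univ (c : Tot ℂ X) : c ∈ Finsupp.supported ℂ ℂ (univ : Set (TS X)) := by
  rw [Finsupp.supported_univ]
  exact Submodule.mem_top

theorem PairA_psh_sgn {R : Type} [CommRing R] (e : ℕ → ℤ) (f : X → Y) (c : Tot R X) :
    psh R f (sgn R X e c) = sgn R Y e (psh R f c) := by
  induction c using Finsupp.induction_linear with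
  | zero => simp
  | add a b ha hb => simp only [map_add, ha, hb]
  | single σ a => rw [sgn_single, map_zsmul, sgn_of_DG e (psh_mem_DG f (single_mem_DG σ a))]

theorem PairA_cast_sgn {R S : Type} [CommRing R] [CommRing S] (φ : R →+* S) (e : ℕ → ℤ)
    (c : Tot R X) : cast φ X (sgn R X e c) = sgn S X e (cast φ X c) := by
  induction c using Finsupp.induction_linear with
  | zero => simp
  | add a b ha hb => simp only [map_add, ha, hb]
  | single σ a => rw [sgn_single, map_zsmul, cast_single, sgn_single]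

theorem PairA_sgc (k : ℕ) : sgc (k + 1) = (-1) ^ k * sgc k := by
  rw [sgc, sgc, Nat.triangle_succ]
  ring

theorem PairA_beta (κ : Kit) (τ : TS (Y × Y) → ℝ) (u v : Tot ℂ Y) :
    beta κ τ u v = coevC τ (κ.cx ℂ Y Y (sgn ℂ Y sgc u) (cjT Y v)) := rfl

theorem PairA_stokes (κ : Kit) (τ : TS (Y × Y) → ℝ) (h : ∀ c, coevC τ (dT ℂ _ c) = 0) {k : ℕ}
    {u : Tot ℂ Y} (hu : u ∈ DG ℂ Y k) (v : Tot ℂ Y) :
    beta κ τ (dT ℂ Y u) v = beta κ τ u (dT ℂ Y v) := by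
  have h1 := h (κ.cx ℂ Y Y u (cjT Y v))
  rw [κ.leib, eps, sgn_of_DG _ hu, map_zsmul, LinearMap.smul_apply, map_add, map_zsmul] at h1
  rw [PairA_beta, PairA_beta, cast_dT, sgn_of_DG _ hu, map_zsmul, LinearMap.smul_apply, map_zsmul]
  cases k with
  | zero =>
    rw [dT_of_DG_zero hu] at h1 ⊢
    simp only [map_zero, LinearMap.zero_apply, pow_zero, one_smul, zero_add] at h1 ⊢
    rw [h1, smul_zero]
  | succ k =>
    rw [sgn_of_DG _ (dT_mem_DG hu), map_zsmul, LinearMap.smul_apply, map_zsmul,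
      eq_neg_of_add_eq_zero_left h1, ← neg_smul, smul_smul, PairA_sgc]
    congr 1
    ring

end

theorem pairA_stmt (B : Bas1) : PairAStmt := by
  have _ := B
  intro κ Y _ τ
  refine ⟨fun h A A' hd u hu v hv => ?_, fun f hf h u v => ?_, fun h u v => ?_,
    fun h k l hkl u hu v hv => ?_, fun y c hc => ?_, fun u v => ?_,
    fun Z _ a b L L' N N' S => PairA_transfer a b L L' N N' S⟩
  · have h0 : A ×ˢ A' ⊆ (dia Y)ᶜ := fun z hz (e : z.1 = z.2) =>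
      disjoint_left.1 hd hz.1 (e ▸ hz.2)
    have h1 := PairA_transfer τ τ LinearMap.id LinearMap.id 0 0 _ (fun _ => rfl)
      (fun _ => map_zero _) (fun c hc => (h c hc).trans (map_zero _).symm)
      (κ.cx ℂ Y Y (sgn ℂ Y sgc u) (cjT Y v))
      (CH_mono h0 (κ.mem ℂ Y Y A A' _ (sgn_mem_CH sgc hu) _ (cast_mem_CH _ hv)))
    exact h1.trans (map_zero _)
  · rw [PairA_beta, PairA_beta, cast_psh, ← PairA_psh_sgn, ← κ.nat ℂ Y Y Y Y f f univ univ
      hf.continuousOn hf.continuousOn _ (mem_CH_univ _) _ (mem_CH_univ _)]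
    exact PairA_transfer τ τ (psh ℝ (Prod.map f f)) (psh ℂ (Prod.map f f)) LinearMap.id
      LinearMap.id univ (cast_psh _ _) (fun _ => rfl) (fun c _ => h c) _ (PairA_univ _)
  · have h1 : ∀ c, coevC τ (dT ℂ _ c) = 0 := fun c =>
      (PairA_transfer τ τ (dT ℝ _) (dT ℂ _) 0 0 univ (cast_dT _) (fun _ => map_zero _)
        (fun c _ => (h c).trans (map_zero _).symm) c (PairA_univ c)).trans (map_zero _)
    induction u using Finsupp.induction_linear with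
    | zero => simp
    | add a b ha hb => simp only [map_add, LinearMap.add_apply, ha, hb]
    | single σ a => exact PairA_stokes κ τ h1 (single_mem_DG σ a) v
  · rw [PairA_beta, sgn_of_DG _ hu]
    refine supported_ind (P := fun c => coevC τ c = 0) (map_zero _)
      (fun a b ha hb => by rw [map_add, ha, hb, add_zero]) (fun σ hσ z => ?_)
      (κ.dg ℂ Y Y k l _ (Submodule.smul_of_tower_mem _ _ hu) _ (cast_mem_DG _ hv))
    have h1 : τ σ = 0 := h σ fun e => hkl (hσ.symm.trans e)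
    simp [coevC, h1]
  · rw [PairA_beta, cast_pt, κ.x_pt, sgn_of_DG _ (cast_mem_DG _ hc), map_zsmul, map_zsmul,
      ← cast_psh, PairA_coev_cast]
    simp [sgc]
  · rw [PairA_beta, PairA_beta, ← PairA_cast_sgn, ← κ.cst, PairA_coev_cj]

end Pool.Agent.MP_bc14e1_gt

end

section

open Set Metric
open scoped Classical

namespace Pool.Agent.MP_bc14e1_gt

section

variable {Y : Type} [TopologicalSpace Y]

theorem Pair_off {τ : TS (Y × Y) → ℝ}
    (h : ∀ σ : TS (Y × Y), (∀ t, (σ.2 t).1 ≠ (σ.2 t).2) → τ σ = 0) :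
    ∀ c ∈ CH ℝ (dia Y)ᶜ, coevR τ c = 0 := by
  intro c hc
  rw [coevR, Finsupp.linearCombination_apply, Finsupp.sum]
  refine Finset.sum_eq_zero fun σ hσ => ?_
  rw [h σ fun t => mem_CH.1 hc σ hσ t, smul_zero]

theorem Pair_offC (hPairA : PairAStmt) (κ : Kit) {τ : TS (Y × Y) → ℝ}
    (h : ∀ c ∈ CH ℝ (dia Y)ᶜ, coevR τ c = 0) : ∀ c ∈ CH ℂ (dia Y)ᶜ, coevC τ c = 0 := by
  intro c hc
  have := (hPairA κ Y τ).2.2.2.2.2.2 (Y × Y) τ τ LinearMap.id LinearMap.id 0 0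
    {σ | range σ.2 ⊆ (dia Y)ᶜ} (fun _ => rfl) (fun _ => by simp)
    (fun c hc => by
      rw [LinearMap.zero_apply, map_zero]
      exact h c hc) c hc
  rwa [LinearMap.zero_apply, map_zero] at this

theorem Pair_cocC (hPairA : PairAStmt) (κ : Kit) {τ : TS (Y × Y) → ℝ}
    (h : ∀ c, coevR τ (dT ℝ _ c) = 0) (c : Tot ℂ (Y × Y)) : coevC τ (dT ℂ _ c) = 0 := by
  have := (hPairA κ Y τ).2.2.2.2.2.2 (Y × Y) τ τ (dT ℝ _) (dT ℂ _) 0 0
    univ (fun c => cast_dT _ c) (fun _ => by simp)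
    (fun c _ => by
      rw [LinearMap.zero_apply, map_zero]
      exact h c) c (by simp)
  rwa [LinearMap.zero_apply, map_zero] at this

theorem Pair_invC (hPairA : PairAStmt) (κ : Kit) {τ : TS (Y × Y) → ℝ} {f : Y → Y}
    (h : ThomInv τ f) (c : Tot ℂ (Y × Y)) :
    coevC τ (psh ℂ (Prod.map f f) c) = coevC τ c :=
  (hPairA κ Y τ).2.2.2.2.2.2 (Y × Y) τ τ (psh ℝ (Prod.map f f)) (psh ℂ (Prod.map f f))
    LinearMap.id LinearMap.id univ (fun c => cast_psh _ _ c) (fun _ => rfl)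
    (fun c _ => h c) c (by simp)

theorem Pair_swapC (hPairA : PairAStmt) (κ : Kit) {τ η : TS (Y × Y) → ℝ}
    (h : ∀ c ∈ DG ℝ (Y × Y) 4, coevR τ (psh ℝ Prod.swap c) - coevR τ c = coevR η (dT ℝ _ c)) :
    ∀ c ∈ DG ℂ (Y × Y) 4,
      coevC τ (psh ℂ Prod.swap c) - coevC τ c = coevC η (dT ℂ _ c) := by
  intro c hc
  have := (hPairA κ Y τ).2.2.2.2.2.2 (Y × Y) τ η (psh ℝ Prod.swap - LinearMap.id)
    (psh ℂ Prod.swap - LinearMap.id) (dT ℝ _) (dT ℂ _) {σ | σ.1 = 4}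
    (fun c => by
      rw [LinearMap.sub_apply, LinearMap.sub_apply, map_sub, cast_psh]
      rfl)
    (fun c => cast_dT _ c)
    (fun c hc => by
      rw [LinearMap.sub_apply, map_sub]
      exact h c hc) c hc
  rwa [LinearMap.sub_apply, map_sub] at this

/-- The error term of the symmetry. -/
noncomputable def Pair_E (κ : Kit) (τ η : TS (Y × Y) → ℝ) : Form Y :=
  LinearMap.mk₂'ₛₗ (RingHom.id ℂ) (starRingEnd ℂ)
    (fun u v => coevC η (κ.cx ℂ Y Y (cjT Y v) u) - coevC τ (κ.sw ℂ Y Y (cjT Y v) u))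
    (fun _ _ _ => by simp only [map_add]; ring)
    (fun _ _ _ => by simp only [map_smul, RingHom.id_apply, smul_eq_mul]; ring)
    (fun _ _ _ => by simp only [map_add, LinearMap.add_apply]; ring)
    (fun _ _ _ => by
      rw [LinearMap.map_smulₛₗ]
      simp only [map_smul, LinearMap.smul_apply, smul_eq_mul]
      ring)

theorem Pair_E_apply (κ : Kit) (τ η : TS (Y × Y) → ℝ) (u v : Tot ℂ Y) :
    Pair_E κ τ η u v =
      coevC η (κ.cx ℂ Y Y (cjT Y v) u) - coevC τ (κ.sw ℂ Y Y (cjT Y v) u) := rfl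

theorem Pair_beta (κ : Kit) (τ : TS (Y × Y) → ℝ) {u : Tot ℂ Y} (hu : u ∈ DG ℂ Y 2)
    (v : Tot ℂ Y) : beta κ τ u v = coevC τ (κ.cx ℂ Y Y u (cjT Y v)) := by
  have e : sgn ℂ Y sgc u = u := by
    rw [sgn_of_DG _ hu]
    have : sgc 2 = 1 := by decide
    rw [this, one_smul]
  have e2 : beta κ τ u v = coevC τ (κ.cx ℂ Y Y (sgn ℂ Y sgc u) (cjT Y v)) := rfl
  rw [e2, e]

theorem Pair_cj_cj (u : Tot ℂ Y) : cjT Y (cjT Y u) = u := by
  ext σ
  rw [cast_apply, cast_apply, Complex.conj_conj]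

omit [TopologicalSpace Y] in
theorem Pair_prod {A B : Set Y} (h : Disjoint A B) : A ×ˢ B ⊆ (dia Y)ᶜ := by
  rintro ⟨a, b⟩ ⟨ha, hb⟩ e
  have e' : a = b := e
  subst e'
  exact Set.disjoint_left.1 h ha hb

theorem Pair_lk (hPairA : PairAStmt) (κ : Kit) {G : Type} [Group G] [MulAction G Y]
    [ContinuousConstSMul G Y] {s : G} {τ η : TS (Y × Y) → ℝ}
    (h1 : ∀ c ∈ CH ℝ (dia Y)ᶜ, coevR τ c = 0) (h2 : ∀ c ∈ CH ℝ (dia Y)ᶜ, coevR η c = 0)
    (h3 : ThomInv τ fun y => s • y) (h4 : ThomInv η fun y => s • y) : LK s (Pair_E κ τ η) := by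
  have hs : Continuous fun y : Y => s • y := continuous_const_smul s
  constructor
  · intro u v
    rw [Pair_E_apply, Pair_E_apply, gs, cast_psh,
      ← κ.nat ℂ Y Y Y Y _ _ univ univ hs.continuousOn hs.continuousOn _ (mem_CH_univ _) _
        (mem_CH_univ _), ← κ.sw_nat ℂ Y Y Y Y _ _ hs hs, Pair_invC hPairA κ h3,
      Pair_invC hPairA κ h4]
  · intro A B hAB u hu v hv
    have hv' : cjT Y v ∈ CH ℂ B := cast_mem_CH _ hv
    rw [Pair_E_apply,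
      Pair_offC hPairA κ h2 _ (CH_mono (Pair_prod hAB.symm) (κ.mem ℂ Y Y B A _ hv' _ hu)),
      Pair_offC hPairA κ h1 _ (CH_mono (Pair_prod hAB) (κ.sw_mem ℂ Y Y B A _ hv' _ hu)),
      sub_zero]

theorem Pair_sym (hPairA : PairAStmt) (κ : Kit) {τ η : TS (Y × Y) → ℝ}
    (hc : ∀ c, coevR τ (dT ℝ _ c) = 0)
    (h : ∀ c ∈ DG ℝ (Y × Y) 4, coevR τ (psh ℝ Prod.swap c) - coevR τ c = coevR η (dT ℝ _ c))
    {u v : Tot ℂ Y} (hu : u ∈ DG ℂ Y 2) (hv : v ∈ DG ℂ Y 2) :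
    beta κ τ u v - starRingEnd ℂ (beta κ τ v u) =
      Pair_E κ τ η (dT ℂ Y u) v + Pair_E κ τ η u (dT ℂ Y v) := by
  have hv' : cjT Y v ∈ DG ℂ Y 2 := cast_mem_DG _ hv
  have he : eps ℂ Y (cjT Y v) = cjT Y v := by
    rw [eps, sgn_of_DG _ hv']
    simp
  have h1 := congrArg (coevC τ) (κ.sw_d ℂ Y Y 2 2 _ hv' _ hu)
  have h2 := Pair_swapC hPairA κ h _ (κ.dg ℂ Y Y 2 2 _ hv' _ hu)
  have h3 : ((-1 : ℤ) ^ (2 * 2)) = 1 := by norm_num
  rw [h3, one_smul, he, map_sub, map_add, map_add, Pair_cocC hPairA κ hc] at h1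
  rw [κ.leib, he, map_add] at h2
  rw [← (hPairA κ Y τ).2.2.2.2.2.1 v u, Pair_beta κ τ hu, Pair_beta κ τ hv', Pair_cj_cj,
    Pair_E_apply, Pair_E_apply, cast_dT]
  linear_combination h2 - h1

end

theorem pair_stmt (B : Bas1) (hLocDeg : LocDegStmt) (hDia : DiaStmt)
    (hEta : EtaStmt) (hSwap : SwapStmt) (hPairA : PairAStmt) : PairStmt := by
  intro κ X G Y _ _ _ _ _ _ _ _ o F p s τ hT hτ hs
  obtain ⟨a1, a2, a3, a4, a5, a6, -⟩ := hPairA κ Y τ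
  have hoff := Pair_off hτ.off
  have hinv : ∀ g : G, ThomInv τ (fun y => g • y) →
      ∀ u v, beta κ τ (gs ℂ Y g u) (gs ℂ Y g v) = beta κ τ u v := fun g hg =>
    a2 _ (continuous_const_smul g) hg
  refine ⟨⟨⟨hinv s hs, a1 hoff⟩, a3 hτ.coc, a4 hτ.dg, ?_, a6, ?_⟩, hinv⟩
  · intro y c r h
    have h1 := hτ.one y c r h
    obtain ⟨U, -, -, -, hc, -⟩ := h
    rw [a5 y c hc.2, h1]
  · have hp : IsLocalHomeomorph p := (B.cov G X Y _ p hT.cov).2.1
    have hsc : Continuous fun y : Y => s • y := continuous_const_smul s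
    obtain ⟨η, e1, e2, e3⟩ := hEta X G Y o F p s hT
      (coevR τ ∘ₗ psh ℝ Prod.swap - coevR τ)
      (fun c hc => by
        rw [LinearMap.sub_apply, LinearMap.comp_apply, hSwap X Y o p τ hp hτ c hc, sub_self])
      (fun c => by
        have e : gs ℝ (Y × Y) s c = psh ℝ (Prod.map (fun y => s • y) fun y => s • y) c := rfl
        have e' : psh ℝ Prod.swap (psh ℝ (Prod.map (fun y : Y => s • y) fun y : Y => s • y) c) =
            psh ℝ (Prod.map (fun y : Y => s • y) fun y : Y => s • y) (psh ℝ Prod.swap c) := by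
          rw [psh_psh' _ (hsc.prodMap hsc), psh_psh' _ continuous_swap]
          rfl
        rw [LinearMap.sub_apply, LinearMap.sub_apply, LinearMap.comp_apply, LinearMap.comp_apply,
          e, e', hs, hs])
    have hE := Pair_lk hPairA κ hoff e1 hs e2
    exact ⟨_, _, hE, hE, fun u hu v hv => Pair_sym hPairA κ hτ.coc e3 hu hv⟩

end Pool.Agent.MP_bc14e1_gt

end

section

open Set Metric
open scoped Classical

namespace Pool.Agent.MP_bc14e1_gt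

section

variable {X Y : Type} [TopologicalSpace X] [TopologicalSpace Y]

theorem Inv_locDeg {o : Orientation4 X} {p : Y → X} (hp : Continuous p) {I : X ≃ₜ X} {J : Y ≃ₜ Y}
    (hI : OriPres o I) (hJ : ∀ y, p (J y) = I (p y)) {y : Y} {c : Tot ℝ Y} {r : ℝ}
    (h : LocDeg o p y c r) : LocDeg o p (J y) (psh ℝ J c) r := by
  obtain ⟨U, hU, hy, hi, hc, hd, b, hb⟩ := h
  obtain ⟨b₀, -, h₀⟩ := hI (p y)
  refine ⟨J '' U, J.isOpen_image.2 hU, ⟨y, hy, rfl⟩, ?_,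
    ⟨psh_mem_CH _ (mapsTo_image _ _) hc.1, psh_mem_DG _ hc.2⟩, ?_,
    psh ℝ I b + r • castZ ℝ X (inc ℤ 5 b₀), ?_⟩
  · rintro _ ⟨a, ha, rfl⟩ _ ⟨a', ha', rfl⟩ e
    rw [hJ, hJ] at e
    rw [hi ha ha' (I.injective e)]
  · rw [dT_psh_cont J.continuous]
    refine psh_mem_CH _ (fun a ha => ?_) hd
    exact ⟨⟨a, ha.1, rfl⟩, fun e => ha.2 (J.injective e)⟩
  · have e1 : psh ℝ p (psh ℝ J c) = psh ℝ I (psh ℝ p c) := by
      rw [psh_psh' _ J.continuous, psh_psh' _ hp]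
      congr 2
      exact funext hJ
    have h1 := psh_mem_CH (R := ℝ) I (A := {p y}ᶜ) (B := {I (p y)}ᶜ)
      (fun a ha e => ha (I.injective e)) hb
    have h2 := cast_mem_CH (Int.castRingHom ℝ) (inc_mem_CH.2 h₀)
    have e2 : psh ℝ I (castZ ℝ X (inc ℤ 4 (o.o (p y)))) =
        castZ ℝ X (inc ℤ 4 (push ℤ (I : C(X, X)) 4 (o.o (p y)))) := by
      rw [← psh_inc, cast_psh]
      rfl
    rw [map_sub, map_sub, map_smul, e2, ← dT_psh_cont I.continuous] at h1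
    rw [map_sub, map_sub, ← dT_inc_succ, map_sub, map_sub, cast_dT] at h2
    rw [e1, hJ]
    refine mem_of_eq_of_mem ?_ (add_mem h1 (Submodule.smul_mem _ r h2))
    simp only [map_add, map_smul, smul_sub]
    abel

theorem Inv_off {o : Orientation4 X} {p : Y → X} {τ : TS (Y × Y) → ℝ} (h : IsThom o p τ)
    {c : Tot ℝ (Y × Y)} (hc : c ∈ CH ℝ (dia Y)ᶜ) : coevR τ c = 0 := by
  rw [coevR, Finsupp.linearCombination_apply]
  exact Finset.sum_eq_zero fun σ hσ => smul_eq_zero_of_right _ (h.off σ (mem_CH.1 hc σ hσ))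

theorem Inv_neg {G : Type} [Group G] [MulAction G Y] {s : G} {b : Form Y} (h : LK s b) :
    LK s (-b) :=
  ⟨fun u v => by simp only [LinearMap.neg_apply, h.inv],
    fun A B hAB u hu v hv => by simp only [LinearMap.neg_apply, h.loc A B hAB u hu v hv, neg_zero]⟩

theorem Inv_beta (κ : Kit) (τ : TS (Y × Y) → ℝ) (u v : Tot ℂ Y) :
    beta κ τ u v = coevC τ (κ.cx ℂ Y Y (sgn ℂ Y sgc u) (cjT Y v)) := rfl

end

theorem inv_stmt (B : Bas1) (hLocDeg : LocDegStmt)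
    (hDia : DiaStmt) (hEta : EtaStmt) (hPairA : PairAStmt) : InvStmt := by
  intro κ X G Y _ _ _ _ _ _ _ _ o F p s τ I J hT hτ hs hI hJ hJs
  have hl := (B.cov G X Y _ p hT.cov).2.1
  have hc : Continuous (Prod.map J J) := J.continuous.prodMap J.continuous
  have hg : ∀ g : G, Continuous (Prod.map (fun y : Y => g • y) fun y : Y => g • y) := fun g =>
    (continuous_const_smul g).prodMap (continuous_const_smul g)
  obtain ⟨D, hD⟩ : ∃ D : Tot ℝ (Y × Y) →ₗ[ℝ] ℝ,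
      ∀ c, D c = coevR τ (psh ℝ (Prod.map J J) c) - coevR τ c :=
    ⟨coevR τ ∘ₗ psh ℝ (Prod.map J J) - coevR τ, fun _ => rfl⟩
  have h1 : ∀ c ∈ RC ℝ univ (dia Y) 4, D c = 0 := by
    refine (hDia X Y o p hl univ isOpen_univ).2 D (fun b _ => ?_) (fun c hc' => ?_)
      fun y c r h _ => ?_
    · rw [hD, ← dT_psh_cont hc, hτ.coc, hτ.coc, sub_zero]
    · have h2 : c ∈ CH ℝ (dia Y)ᶜ := CH_mono (fun z hz => hz.2) hc'.1
      have h3 : MapsTo (Prod.map J J) (dia Y)ᶜ (dia Y)ᶜ := fun z hz e => hz (J.injective e)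
      rw [hD, Inv_off hτ h2, Inv_off hτ (psh_mem_CH _ h3 h2), sub_zero]
    · have e : psh ℝ (Prod.map J J) (psh ℝ (fun x => (x, y)) c) =
          psh ℝ (fun x => (x, J y)) (psh ℝ J c) := by
        rw [psh_psh' _ (by fun_prop), psh_psh' _ J.continuous]
        rfl
      rw [hD, e, hτ.one _ _ _ (Inv_locDeg hT.cov.cont hI hJ h), hτ.one _ _ _ h, sub_self]
  have h2 : ∀ c, D (gs ℝ (Y × Y) s c) = D c := by
    intro c
    have e0 : gs ℝ (Y × Y) s c = psh ℝ (Prod.map (fun y : Y => s • y) fun y : Y => s • y) c := rfl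
    have e : psh ℝ (Prod.map (fun y : Y => s • y) fun y : Y => s • y)
        (psh ℝ (Prod.map J J) (psh ℝ (Prod.map (fun y : Y => s • y) fun y : Y => s • y) c)) =
        psh ℝ (Prod.map J J) c := by
      rw [psh_psh' (Prod.map J J) (hg s), psh_psh' _ (hc.comp (hg s))]
      congr 2
      funext z
      simp [Prod.map, hJs]
    rw [hD, hD, e0, hs, ← hs (psh ℝ (Prod.map J J) _), e]
  obtain ⟨η, e1, e2, e3⟩ := hEta X G Y o F p s hT D h1 h2
  obtain ⟨a1, a2, -, -, -, -, a3⟩ := hPairA κ Y η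
  have hK : LK s (beta κ η) := ⟨a2 _ (continuous_const_smul s) e2, a1 e1⟩
  refine ⟨-beta κ η, beta κ η, Inv_neg hK, hK, fun u hu v hv => ?_⟩
  have s1 : sgc 1 = -1 := by decide
  have s2 : sgc 2 = 1 := by decide
  have hw : κ.cx ℂ Y Y u (cjT Y v) ∈ DG ℂ (Y × Y) 4 := κ.dg ℂ Y Y 2 2 u hu _ (cast_mem_DG _ hv)
  have h3 := a3 (Y × Y) τ η (psh ℝ (Prod.map J J) - LinearMap.id)
    (psh ℂ (Prod.map J J) - LinearMap.id) (dT ℝ _) (dT ℂ _) {σ | σ.1 = 4}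
    (fun c => by simp only [LinearMap.sub_apply, LinearMap.id_apply, map_sub, cast_psh])
    (fun c => cast_dT _ c)
    (fun c hc' => by rw [← e3 c hc', hD, LinearMap.sub_apply, map_sub, LinearMap.id_apply]) _ hw
  rw [LinearMap.sub_apply, LinearMap.id_apply, map_sub, κ.leib,
    κ.nat ℂ Y Y Y Y J J univ univ J.continuous.continuousOn J.continuous.continuousOn _
      (mem_CH_univ _) _ (mem_CH_univ _), eps, sgn_of_DG _ hu, ← cast_psh, ← cast_dT] at h3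
  simp only [LinearMap.neg_apply, Inv_beta]
  rw [sgn_of_DG _ hu, sgn_of_DG _ (psh_mem_DG J hu), sgn_of_DG _ (dT_mem_DG hu), s1, s2]
  simp only [one_smul, neg_smul, map_neg, LinearMap.neg_apply, neg_neg]
  simpa using h3

end Pool.Agent.MP_bc14e1_gt

end

section

open Set Metric
open scoped Classical

namespace Pool.Agent.MP_bc14e1_gt

section Aux

variable {X X' G Y Y' : Type} [TopologicalSpace X] [TopologicalSpace X'] [Group G]
  [TopologicalSpace Y] [TopologicalSpace Y'] [MulAction G Y] [ContinuousConstSMul G Y]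

theorem Comp_chart (e : OpenPartialHomeomorph Y (E 4)) (g : G) :
    ∃ e' : OpenPartialHomeomorph (Y × Y) (E 4 × E 4),
      (∀ z, z ∈ e'.source ↔ z.1 ∈ e.source ∧ g • z.2 ∈ e.source) ∧
      (∀ z, (e' z).2 = e z.1 - e (g • z.2)) ∧
      (∀ x w, (x, w) ∈ e'.target → x + w ∈ e.target ∧ x ∈ e.target) ∧
      ∀ x w, e'.symm (x, w) = (e.symm (x + w), g⁻¹ • e.symm x) := by
  let A : Y × Y ≃ₜ Y × Y := (Homeomorph.refl Y).prodCongr (Homeomorph.smul g)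
  let C : E 4 × E 4 ≃ₜ E 4 × E 4 :=
    { toFun := fun z => (z.2, z.1 - z.2)
      invFun := fun z => (z.1 + z.2, z.1)
      left_inv := fun z => by simp
      right_inv := fun z => by simp
      continuous_toFun := by fun_prop
      continuous_invFun := by fun_prop }
  refine ⟨(A.toOpenPartialHomeomorph.trans (e.prod e)).trans C.toOpenPartialHomeomorph,
    fun z => ?_, fun z => rfl, fun x w h => ?_, fun x w => rfl⟩
  · simp [A]
  · exact h.2.1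

theorem Comp_off {τ : TS (Y × Y) → ℝ} (h : ∀ σ : TS (Y × Y), (∀ t, (σ.2 t).1 ≠ (σ.2 t).2) → τ σ = 0)
    {c : Tot ℝ (Y × Y)} (hc : c ∈ CH ℝ (dia Y)ᶜ) : coevR τ c = 0 := by
  have := map_CH (T := ⊥) (coevR τ) (fun k σ hσ => by
    rw [Submodule.mem_bot, coevR, Finsupp.linearCombination_single, one_smul]
    exact h _ hσ) hc
  exact this

theorem Comp_fin {τ : TS (Y × Y) → ℝ}
    (h : ∀ σ : TS (Y × Y), (∀ t, (σ.2 t).1 ≠ (σ.2 t).2) → τ σ = 0)
    (hp : ∀ K K' : Set Y, IsCompact K → IsCompact K' → {g : G | ∃ y ∈ K, g • y ∈ K'}.Finite)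
    (c : Tot ℝ (Y × Y)) :
    Function.HasFiniteSupport fun g : G => coevR τ (psh ℝ (Prod.map id fun y : Y => g • y) c) := by
  obtain ⟨K, hK, -, hc⟩ := exists_compact_CH (mem_CH_univ c)
  refine (hp _ _ (hK.image continuous_snd) (hK.image continuous_fst)).subset fun g hg => ?_
  by_contra hn
  refine hg (Comp_off h (psh_mem_CH _ ?_ hc))
  exact fun z hz hd => hn ⟨z.2, ⟨z, hz, rfl⟩, z, hz, hd⟩

/-- The sum of the translates of a cochain. -/
noncomputable def Comp_th (τ : TS (Y × Y) → ℝ) (hf : ∀ c : Tot ℝ (Y × Y),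
    Function.HasFiniteSupport fun g : G => coevR τ (psh ℝ (Prod.map id fun y : Y => g • y) c)) :
    Tot ℝ (Y × Y) →ₗ[ℝ] ℝ where
  toFun c := ∑ᶠ g : G, coevR τ (psh ℝ (Prod.map id fun y : Y => g • y) c)
  map_add' a b := by
    simp only [map_add]
    exact finsum_add_distrib (hf a) (hf b)
  map_smul' r a := by
    simp only [map_smul, smul_eq_mul, RingHom.id_apply]
    exact (mul_finsum _ _).symm

theorem Comp_deg {o' : Orientation4 X'} {p' : Y' → X'} {q : Y → Y'} (hq : IsLocalHomeomorph q)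
    {y : Y} {c : Tot ℝ Y} {r : ℝ} (h : LocDeg o' (p' ∘ q) y c r) :
    LocDeg o' p' (q y) (psh ℝ q c) r := by
  obtain ⟨U, hU, hy, hi, hc, hd, b, hb⟩ := h
  refine ⟨q '' U, hq.isOpenMap U hU, ⟨y, hy, rfl⟩, ?_,
    ⟨psh_mem_CH q (mapsTo_image q U) hc.1, psh_mem_DG q hc.2⟩, ?_, b, ?_⟩
  · rintro _ ⟨a, ha, rfl⟩ _ ⟨a', ha', rfl⟩ e
    rw [hi ha ha' e]
  · rw [dT_psh_cont hq.continuous]
    refine psh_mem_CH q ?_ hd
    exact fun a ha => ⟨⟨a, ha.1, rfl⟩, fun e => ha.2 (hi ha.1 hy (congrArg p' e))⟩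
  · rw [psh_psh' _ hq.continuous]
    exact hb

theorem Comp_coevC (τ : TS Y → ℝ) (a : Tot ℝ Y) :
    coevC τ (cast Complex.ofRealHom Y a) = (coevR τ a : ℝ) := by
  induction a using Finsupp.induction_linear with
  | zero => simp
  | add a b ha hb => simp [ha, hb]
  | single σ a => rw [cast_single]; simp [coevC, coevR]

theorem Comp_split {k : ℕ} {z : Tot ℂ Y} (hz : z ∈ DG ℂ Y k) (hd : dT ℂ Y z = 0) :
    ∃ a ∈ DG ℝ Y k, ∃ b ∈ DG ℝ Y k, dT ℝ Y a = 0 ∧ dT ℝ Y b = 0 ∧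
      z = cast Complex.ofRealHom Y a + Complex.I • cast Complex.ofRealHom Y b := by
  have e : z = cast Complex.ofRealHom Y (z.mapRange Complex.re rfl) +
      Complex.I • cast Complex.ofRealHom Y (z.mapRange Complex.im rfl) := by
    ext σ
    rw [Finsupp.add_apply, Finsupp.smul_apply, cast_apply, cast_apply]
    apply Complex.ext <;> simp
  have h : ∀ σ, dT ℝ Y (z.mapRange Complex.re rfl) σ = 0 ∧
      dT ℝ Y (z.mapRange Complex.im rfl) σ = 0 := by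
    intro σ
    have h1 := hd
    rw [e, map_add, map_smul, ← cast_dT, ← cast_dT] at h1
    have h2 := congrArg (fun c : Tot ℂ Y => c σ) h1
    simp only [Finsupp.add_apply, Finsupp.smul_apply, cast_apply] at h2
    exact ⟨by simpa using congrArg Complex.re h2, by simpa using congrArg Complex.im h2⟩
  refine ⟨_, ?_, _, ?_, Finsupp.ext fun σ => (h σ).1, Finsupp.ext fun σ => (h σ).2, e⟩ <;>
  · refine (Finsupp.mem_supported' ℝ _).2 fun σ hσ => ?_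
    rw [Finsupp.mapRange_apply, (Finsupp.mem_supported' ℂ _).1 hz σ hσ]
    rfl

theorem Comp_real [T2Space X'] [ChartedSpace (E 4) X] [T2Space Y] [T2Space Y']
    (hLocCtr : LocCtrStmt) (hLemA : LemAStmt) (hLocDeg : LocDegStmt)
    {o : Orientation4 X} {o' : Orientation4 X'} {p : Y → X}
    {p' : Y' → X'} {q : Y → Y'} {τ : TS (Y × Y) → ℝ} {τ' : TS (Y' × Y') → ℝ}
    (hp : IsLocalHomeomorph p) (hp' : IsLocalHomeomorph p') (hq : IsLocalHomeomorph q)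
    (hdeg : ∀ y c r, LocDeg o' (p' ∘ q) y c r → LocDeg o p y c r)
    (hfree : ∀ (g : G) (y : Y), g • y = y → g = 1)
    (hfib : ∀ y y', q y = q y' ↔ ∃ g : G, y' = g • y)
    (hpr : ∀ K K' : Set Y, IsCompact K → IsCompact K' → {g : G | ∃ y ∈ K, g • y ∈ K'}.Finite)
    (hτ : IsThom o p τ) (hτ' : IsThom o' p' τ') {c : Tot ℝ (Y × Y)} (hc : c ∈ DG ℝ _ 4)
    (hd : dT ℝ _ c = 0) :
    ∑ᶠ g : G, coevR τ (psh ℝ (Prod.map id fun y : Y => g • y) c) =
      coevR τ' (psh ℝ (Prod.map q q) c) := by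
  have hqg : ∀ (g : G) y, q (g • y) = q y := fun g y => ((hfib y _).2 ⟨g, rfl⟩).symm
  have hqc := hq.continuous
  have hT : ∀ g : G, Continuous (Prod.map id fun y : Y => g • y : Y × Y → Y × Y) := fun g =>
    continuous_id.prodMap (continuous_const_smul g)
  let D : Tot ℝ (Y × Y) →ₗ[ℝ] ℝ :=
    Comp_th (G := G) τ (Comp_fin hτ.off hpr) - coevR τ' ∘ₗ psh ℝ (Prod.map q q)
  have hD : ∀ c, D c = ∑ᶠ g : G, coevR τ (psh ℝ (Prod.map id fun y : Y => g • y) c) -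
      coevR τ' (psh ℝ (Prod.map q q) c) := fun _ => rfl
  let S : Set (Y × Y) := {z | q z.1 = q z.2}
  have D1 : ∀ b, D (dT ℝ _ b) = 0 := fun b => by
    rw [hD, ← dT_psh_cont (hqc.prodMap hqc), hτ'.coc, sub_zero]
    exact finsum_eq_zero_of_forall_eq_zero fun g => by rw [← dT_psh_cont (hT g), hτ.coc]
  have D2 : ∀ b ∈ CH ℝ Sᶜ, D b = 0 := fun b hb => by
    rw [hD, Comp_off hτ'.off (psh_mem_CH (Prod.map q q) (fun z hz => hz) hb), sub_zero]
    refine finsum_eq_zero_of_forall_eq_zero fun g => Comp_off hτ.off (psh_mem_CH _ ?_ hb)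
    exact fun z hz h => hz ((congrArg q h).trans (hqg g z.2))
  have D3 : ∀ U, IsOpen U → InjOn (p' ∘ q) U → ∀ y ∈ U, ∀ g : G, ∀ b ∈ CC ℝ U 4,
      dT ℝ Y b ∈ CH ℝ {y}ᶜ → D (psh ℝ (fun a => (a, g⁻¹ • y)) b) = 0 := by
    intro U hU hi y hy g b hb hdb
    obtain ⟨r, hr⟩ := (hLocDeg X' Y o' (p' ∘ q) (hp'.comp hq) y).1 U hU hy hi b hb hdb
    have hc1 : Continuous fun a : Y => (a, g⁻¹ • y) := by fun_prop
    rw [hD, finsum_eq_single _ g, psh_psh' _ hc1, psh_psh' _ hc1]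
    · have e1 : (Prod.map id fun y : Y => g • y) ∘ (fun a : Y => (a, g⁻¹ • y)) =
          fun a => (a, y) := by
        funext a; simp
      have e2 : Prod.map q q ∘ (fun a : Y => (a, g⁻¹ • y)) = (fun a => (a, q y)) ∘ q := by
        funext a; simp [hqg]
      rw [e1, e2, ← psh_psh' _ hqc, hτ.one y b r (hdeg _ _ _ hr), hτ'.one _ _ r (Comp_deg hq hr),
        sub_self]
    · intro g' hg'
      rw [psh_psh' _ hc1]
      refine Comp_off hτ.off (psh_mem_CH _ ?_ hb.1)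
      refine fun a ha h => hg' ?_
      have h1 : a = g' • g⁻¹ • y := h
      have h2 : a = y := hi ha hy (congrArg p' (by rw [h1, hqg, hqg]))
      rw [h2, ← mul_smul] at h1
      exact mul_inv_eq_one.1 (hfree _ _ h1.symm)
  let 𝒜 : Set (OpenPartialHomeomorph (Y × Y) (E 4 × E 4)) := {e' |
    ∃ (e : OpenPartialHomeomorph Y (E 4)) (g : G), InjOn (p' ∘ q) e.source ∧
      (∀ z, z ∈ e'.source ↔ z.1 ∈ e.source ∧ g • z.2 ∈ e.source) ∧
      (∀ z, (e' z).2 = e z.1 - e (g • z.2)) ∧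
      (∀ x w, (x, w) ∈ e'.target → x + w ∈ e.target ∧ x ∈ e.target) ∧
      ∀ x w, e'.symm (x, w) = (e.symm (x + w), g⁻¹ • e.symm x)}
  obtain ⟨c', hc', b, -, hb⟩ := (hLemA ℝ (Y × Y) (E 4) (E 4) S 𝒜
    (isClosed_eq (hqc.comp continuous_fst) (hqc.comp continuous_snd)) (by
      rintro e' ⟨e, g, hi, h1, h2, -, -⟩ z hz
      obtain ⟨ha, hb⟩ := (h1 z).1 hz
      rw [h2, sub_eq_zero]
      constructor
      · intro h
        rw [hi ha hb (congrArg p' (h.trans (hqg g z.2).symm))]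
      · intro h
        exact (congrArg q (e.injOn ha hb h)).trans (hqg g z.2)) (by
      intro z hz
      obtain ⟨g, hg⟩ := (hfib _ _).1 (Eq.symm hz)
      obtain ⟨W, hW, hzW, hi⟩ := (hp'.comp hq).isLocallyInjective z.1
      obtain ⟨⟨e, he, heW, -⟩, -⟩ := hLocCtr X Y p hp z.1 W (hW.mem_nhds hzW)
      obtain ⟨e', h⟩ := Comp_chart e g
      exact ⟨e', ⟨e, g, hi.mono heW, h⟩, (h.1 z).2 ⟨he, hg ▸ he⟩⟩)
    univ isOpen_univ 4 c ⟨mem_CH_univ c, hc⟩ (by rw [hd]; exact zero_mem _)).2 (by simp)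
  have h1 : D c' = 0 := by
    refine (Submodule.span_le (p := LinearMap.ker D)).2 ?_ hc'
    rintro _ ⟨e', ⟨e, g, hi, -, -, h3, h4⟩, x, ρ, hw, c₀, hc₀, hd₀, rfl⟩
    rw [SetLike.mem_coe, LinearMap.mem_ker]
    rcases le_or_gt ρ 0 with hρ | hρ
    · have : c₀ = 0 := eq_zero_of_mem_CH_empty (by rw [← ball_eq_empty.2 hρ]; exact hc₀.1)
      rw [this, map_zero, map_zero]
    have hx : x ∈ e.target := (h3 x 0 (hw 0 (mem_ball_self hρ)).1).2
    have hm : MapsTo (fun w => x + w) (ball 0 ρ) e.target := fun w h => (h3 x w (hw w h).1).1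
    have hcont : ContinuousOn (fun w => e.symm (x + w)) (ball 0 ρ) :=
      e.continuousOn_symm.comp (by fun_prop) hm
    have e1 : (fun w => e'.symm (x, w)) =
        (fun a => (a, g⁻¹ • e.symm x)) ∘ fun w => e.symm (x + w) := funext fun w => h4 x w
    rw [e1, ← psh_psh _ hcont hc₀.1]
    refine D3 e.source e.open_source hi _ (e.map_target hx) g _
      ⟨psh_mem_CH _ (fun w h => e.map_target (hm h)) hc₀.1, psh_mem_DG _ hc₀.2⟩ ?_
    rw [dT_psh hcont hc₀.1]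
    have h5 : dT ℝ _ c₀ ∈ CH ℝ (ball (0 : E 4) ρ ∩ {0}ᶜ) := by
      rw [CH_inter]; exact ⟨dT_mem_CH hc₀.1, hd₀⟩
    refine psh_mem_CH _ (fun w h h' => h.2 ?_) h5
    have := e.symm.injOn (hm h.1) hx h'
    simpa using this
  have h2 := D2 _ hb
  rw [map_sub, map_sub, h1, D1, sub_zero, sub_zero, hD] at h2
  exact sub_eq_zero.1 h2

end Aux

theorem comp_stmt (B : Bas1) (hLocCtr : LocCtrStmt)
    (hLemA : LemAStmt) (hLocDeg : LocDegStmt) (hPairA : PairAStmt) : CompStmt := by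
  intro κ X X' G Y Y' _ _ _ _ _ _ _ _ _ _ _ _ _ o o' p p' q τ τ' hp hp' hq _ hdeg hfree hfib hpr
    hτ hτ' u hu v hv
  have hdu : dT ℂ Y u = 0 := hu.2
  have hdv : dT ℂ Y v = 0 := hv.2
  have hs : sgn ℂ Y sgc u = sgc 2 • u := sgn_of_DG _ hu.1.2
  obtain ⟨a, ha, b, hb, hda, hdb, e⟩ := Comp_split (k := 4)
    (z := κ.cx ℂ Y Y (sgn ℂ Y sgc u) (cjT Y v))
    (κ.dg ℂ Y Y 2 2 _ (by rw [hs]; exact zsmul_mem hu.1.2 _) _ (cast_mem_DG _ hv.1.2)) (by
      rw [κ.leib, ← cast_dT, hdv, hs, map_zsmul, hdu]; simp)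
  have h1 : ∀ g : G, beta κ τ u (gs ℂ Y g v) =
      (coevR τ (psh ℝ (Prod.map id fun y : Y => g • y) a) : ℝ) +
        Complex.I * (coevR τ (psh ℝ (Prod.map id fun y : Y => g • y) b) : ℝ) := by
    intro g
    have := κ.nat ℂ Y Y Y Y id (fun y : Y => g • y) univ univ continuousOn_id
      (continuous_const_smul g).continuousOn (sgn ℂ Y sgc u) (mem_CH_univ _) (cjT Y v)
      (mem_CH_univ _)
    rw [psh_id, ← cast_psh, e, map_add, map_smul, ← cast_psh, ← cast_psh] at this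
    change coevC τ (κ.cx ℂ Y Y (sgn ℂ Y sgc u) (cjT Y (psh ℂ (fun y : Y => g • y) v))) = _
    rw [← this, map_add, map_smul, Comp_coevC, Comp_coevC, smul_eq_mul]
  have h2 : beta κ τ' (psh ℂ q u) (psh ℂ q v) = (coevR τ' (psh ℝ (Prod.map q q) a) : ℝ) +
      Complex.I * (coevR τ' (psh ℝ (Prod.map q q) b) : ℝ) := by
    have := κ.nat ℂ Y Y Y' Y' q q univ univ hq.continuous.continuousOn hq.continuous.continuousOn
      (sgn ℂ Y sgc u) (mem_CH_univ _) (cjT Y v) (mem_CH_univ _)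
    rw [← cast_psh, e, map_add, map_smul, ← cast_psh, ← cast_psh, hs, map_zsmul,
      ← sgn_of_DG _ (psh_mem_DG q hu.1.2)] at this
    change coevC τ' (κ.cx ℂ Y' Y' (sgn ℂ Y' sgc (psh ℂ q u)) (cjT Y' (psh ℂ q v))) = _
    rw [← this, map_add, map_smul, Comp_coevC, Comp_coevC, smul_eq_mul]
  have hf : ∀ c, Function.HasFiniteSupport fun g : G =>
      ((coevR τ (psh ℝ (Prod.map id fun y : Y => g • y) c) : ℝ) : ℂ) := fun c =>
    (Comp_fin hτ.off hpr c).subset fun g hg h => hg (by simp only [h, Complex.ofReal_zero])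
  have h3 : ∀ c : Tot ℝ (Y × Y),
      ∑ᶠ g : G, ((coevR τ (psh ℝ (Prod.map id fun y : Y => g • y) c) : ℝ) : ℂ) =
        ((∑ᶠ g : G, coevR τ (psh ℝ (Prod.map id fun y : Y => g • y) c) : ℝ) : ℂ) := fun c =>
    (map_finsum Complex.ofRealHom (Comp_fin hτ.off hpr c)).symm
  rw [h2, ← Comp_real hLocCtr hLemA hLocDeg hp hp' hq hdeg hfree hfib hpr hτ hτ' ha hda,
    ← Comp_real hLocCtr hLemA hLocDeg hp hp' hq hdeg hfree hfib hpr hτ hτ' hb hdb, ← h3, ← h3,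
    mul_finsum, ← finsum_add_distrib (hf a)
      ((hf b).subset fun g hg h => hg (by simp only [h, mul_zero]))]
  exact finsum_congr h1

end Pool.Agent.MP_bc14e1_gt

end

section

open Set Metric
open scoped Classical

namespace Pool.Agent.MP_bc14e1_gt

theorem Inter_cj {X : Type} [TopologicalSpace X] (c : Tot ℤ X) :
    cjT X (castZ ℂ X c) = castZ ℂ X c := by
  ext σ
  rw [cast_apply, cast_apply, eq_intCast, map_intCast]

theorem Inter_coev {X : Type} [TopologicalSpace X] (τ : TS X → ℝ) (c : Tot ℤ X) :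
    coevC τ (castZ ℂ X c) = (coevR τ (castZ ℝ X c) : ℝ) := by
  induction c using Finsupp.induction_linear with
  | zero => simp
  | add a b ha hb => rw [map_add, map_add, map_add, map_add, ha, hb, Complex.ofReal_add]
  | single σ a => simp [cast_single, coevC, coevR]

theorem Inter_off {X Y : Type} [TopologicalSpace X] [TopologicalSpace Y] {o : Orientation4 X}
    {q : Y → X} {τ : TS (Y × Y) → ℝ} (h : IsThom o q τ) {c : Tot ℝ (Y × Y)}
    (hc : c ∈ CH ℝ {z : Y × Y | z.1 ≠ z.2}) : coevR τ c = 0 := by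
  rw [coevR, Finsupp.linearCombination_apply, Finsupp.sum]
  refine Finset.sum_eq_zero fun σ hσ => ?_
  rw [h.off σ fun t => (Finsupp.mem_supported ℝ c).1 hc hσ (mem_range_self t), smul_zero]

theorem inter_stmt (B : Bas1) (hPairA : PairAStmt) : InterStmt := by
  rintro κ X _ o τ h x y n ⟨p, b, -, hb⟩
  have h1 : LocDeg o id p (castZ ℝ X (inc ℤ 4 (o.o p))) 1 := by
    refine ⟨univ, isOpen_univ, trivial, injOn_id _,
      ⟨mem_CH_univ _, cast_mem_DG _ (inc_mem_DG _ _)⟩, ?_, 0, ?_⟩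
    · rw [← cast_dT, dT_inc_succ, ← compl_eq_univ_sdiff]
      exact cast_mem_CH _ (inc_mem_CH.2 (o.rel p))
    · rw [psh_id, one_smul, map_zero, sub_zero, id, sub_self]
      exact zero_mem _
  have h2 := h.one p _ 1 h1
  have h3 := Inter_off h (cast_mem_CH (Int.castRingHom ℝ) (inc_mem_CH.2 hb))
  simp only [map_sub, map_zsmul] at h3
  rw [← dT_inc_succ, ← psh_inc, cast_dT, cast_psh, h.coc, sub_zero, sub_eq_zero] at h3
  have h4 : sgn ℂ X sgc (castZ ℂ X (inc ℤ 2 x)) = castZ ℂ X (inc ℤ 2 x) := by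
    rw [sgn_of_DG _ (cast_mem_DG _ (inc_mem_DG _ _)), show sgc 2 = 1 from rfl, one_smul]
  change coevC τ (κ.cx ℂ X X (sgn ℂ X sgc _) (cjT X _)) = n
  rw [h4, Inter_cj, ← κ.cst, κ.c22, Inter_coev, h3]
  erw [h2]
  simp

end Pool.Agent.MP_bc14e1_gt

end

section

/-! Chains over the disjoint translates of an open set. -/

open Set Metric
open scoped Classical

namespace Pool.Agent.MP_bc14e1_gt

section Exc

variable {R : Type} [CommRing R] {X : Type} [TopologicalSpace X]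

theorem Base1H_split {V A : Set X} (hV : IsOpen V) (hA : IsClosed A) (hAV : A ⊆ V) (b : Tot R X) :
    ∃ m : ℕ, ∃ b1 ∈ CH R V, ∃ b2 ∈ CH R Aᶜ, b1 + b2 = (sdT R X ^ m) b := by
  have e : V ∪ Aᶜ = univ :=
    eq_univ_of_forall fun y => (em (y ∈ A)).imp (fun h => hAV h) id
  obtain ⟨m, hm⟩ := sdT_small_two hV hA.isOpen_compl (c := b) (e ▸ mem_CH_univ b)
  exact ⟨m, Submodule.mem_sup.1 (hm m le_rfl)⟩

theorem Base1H_exc_inj {V A : Set X} (hV : IsOpen V) (hA : IsClosed A) (hAV : A ⊆ V)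
    {z b : Tot R X} (hz : z ∈ CH R V) (h : z - dT R X b ∈ CH R Aᶜ) :
    ∃ b' ∈ CH R V, z - dT R X b' ∈ CH R (V \ A) := by
  obtain ⟨m, b1, h1, b2, h2, e⟩ := Base1H_split hV hA hAV b
  have hb : sdHP R X m z + b1 ∈ CH R V := add_mem (sdHP_mem_CH m hz) h1
  refine ⟨_, hb, ?_⟩
  rw [sdiff_eq, CH_inter]
  refine ⟨sub_mem hz (dT_mem_CH hb), ?_⟩
  have a1 : dT R X z ∈ CH R Aᶜ := by
    have := dT_mem_CH h
    rwa [map_sub, dT_dT, sub_zero] at this
  have a2 := dT_sdHP m z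
  have a3 := congrArg (dT R X) e
  rw [map_add, dT_sdT_pow] at a3
  have a4 : z - dT R X (sdHP R X m z + b1) =
      sdHP R X m (dT R X z) + dT R X b2 + (sdT R X ^ m) (z - dT R X b) := by
    rw [map_add, map_sub, ← a3, eq_sub_of_add_eq a2]
    abel
  rw [SetLike.mem_coe, a4]
  exact add_mem (add_mem (sdHP_mem_CH m a1) (dT_mem_CH h2)) (sdT_pow_mem_CH m h)

theorem Base1H_exc_surj {V A : Set X} (hV : IsOpen V) (hA : IsClosed A) (hAV : A ⊆ V)
    {z : Tot R X} (h : dT R X z ∈ CH R Aᶜ) :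
    ∃ z' ∈ CH R V, ∃ b, z - z' - dT R X b ∈ CH R Aᶜ := by
  obtain ⟨m, b1, h1, b2, h2, e⟩ := Base1H_split hV hA hAV z
  refine ⟨b1, h1, sdHP R X m z, ?_⟩
  have a4 : z - b1 - dT R X (sdHP R X m z) = sdHP R X m (dT R X z) + b2 := by
    rw [eq_sub_of_add_eq (dT_sdHP m z), ← e]
    abel
  rw [a4]
  exact add_mem (sdHP_mem_CH m h) h2

theorem Base1H_prj_dT {U U' : Set X} (hU : IsOpen U) (hU' : IsOpen U') (hd : Disjoint U U')
    {c : Tot R X} (hc : c ∈ CH R (U ∪ U')) : prj R U (dT R X c) = dT R X (prj R U c) := by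
  rw [CH_union_of_disjoint hU hU' hd] at hc
  obtain ⟨c1, h1, c2, h2, rfl⟩ := Submodule.mem_sup.1 hc
  simp only [map_add, prj_of_mem h1, prj_of_mem (dT_mem_CH h1), prj_eq_zero hd h2,
    prj_eq_zero hd (dT_mem_CH h2), map_zero]

end Exc

section Tr

variable {G Y : Type} [Group G] [TopologicalSpace Y] [MulAction G Y] [ContinuousConstSMul G Y]
  {s : G} {U N : Set Y} {c : Tot ℂ Y}

/-- The translates of `U`. -/
def Base1H_tr (s : G) (U : Set Y) (n : ℤ) : Set Y := {y | s ^ (-n) • y ∈ U}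

omit [TopologicalSpace Y] [ContinuousConstSMul G Y] in
theorem Base1H_zz (s : G) (m n : ℤ) (y : Y) : s ^ m • s ^ n • y = s ^ (m + n) • y := by
  rw [zpow_add, mul_smul]

omit [TopologicalSpace Y] [ContinuousConstSMul G Y] in
theorem Base1H_sat (s : G) (U : Set Y) : sat s U = ⋃ n, Base1H_tr s U n := by
  refine iUnion_congr fun n => Set.ext fun y => ⟨?_, fun h => ⟨_, h, ?_⟩⟩
  · rintro ⟨u, hu, rfl⟩
    simpa [Base1H_tr] using hu
  · simp

omit [TopologicalSpace Y] [ContinuousConstSMul G Y] in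
theorem Base1H_inv (s : G) (U : Set Y) : Inv s (sat s U) := fun y => by
  simp only [Base1H_sat, mem_iUnion, Base1H_tr, mem_ofPred_eq]
  constructor
  · rintro ⟨n, hn⟩
    exact ⟨n - 1, by rwa [neg_sub, sub_eq_neg_add, zpow_add_one, mul_smul]⟩
  · rintro ⟨n, hn⟩
    exact ⟨n + 1, by rwa [neg_add, ← sub_eq_add_neg, zpow_sub_one, mul_smul, inv_smul_smul]⟩

omit [TopologicalSpace Y] [ContinuousConstSMul G Y] in
theorem Base1H_sub (s : G) (U : Set Y) : U ⊆ sat s U := fun y hy => by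
  rw [sat]
  exact mem_iUnion.2 ⟨0, y, hy, by simp⟩

theorem Base1H_tr_open (hU : IsOpen U) (n : ℤ) : IsOpen (Base1H_tr s U n) :=
  hU.preimage (continuous_const_smul _)

omit [TopologicalSpace Y] [ContinuousConstSMul G Y] in
theorem Base1H_tr_disj (hd : ∀ n : ℤ, ∀ y ∈ U, s ^ n • y ∈ U → n = 0) {m n : ℤ} (h : m ≠ n) :
    Disjoint (Base1H_tr s U m) (Base1H_tr s U n) := by
  refine disjoint_left.2 fun y h1 h2 => h ?_
  have := hd (m - n) _ h1 (by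
    rw [Base1H_zz, show m - n + -m = -n by ring]
    exact h2)
  omega

omit [ContinuousConstSMul G Y] in
theorem Base1H_up (n : ℤ) {z : Tot ℂ Y} (h : z ∈ CH ℂ U) :
    gs ℂ Y (s ^ n) z ∈ CH ℂ (Base1H_tr s U n) :=
  gs_mem_CH _ (fun y hy => by simpa [Base1H_tr] using hy) h

omit [ContinuousConstSMul G Y] in
theorem Base1H_gsN (hN : Inv s N) (n : ℤ) {z : Tot ℂ Y} (h : z ∈ CH ℂ N) :
    gs ℂ Y (s ^ n) z ∈ CH ℂ N := gs_mem_CH _ (fun y hy => (hN.zpow n y).2 hy) h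

theorem Base1H_gs_gs (n : ℤ) (z : Tot ℂ Y) : gs ℂ Y (s ^ n) (gs ℂ Y (s ^ (-n)) z) = z := by
  rw [← gs_mul, ← zpow_add, add_neg_cancel, zpow_zero, gs_one]

theorem Base1H_prj_tr (hU : IsOpen U) (hd : ∀ n : ℤ, ∀ y ∈ U, s ^ n • y ∈ U → n = 0) (n : ℤ)
    {z : Tot ℂ Y} (hz : z ∈ CH ℂ (sat s U)) :
    prj ℂ (Base1H_tr s U n) (dT ℂ Y z) = dT ℂ Y (prj ℂ (Base1H_tr s U n) z) := by
  refine Base1H_prj_dT (U' := ⋃ m ∈ {m | m ≠ n}, Base1H_tr s U m) (Base1H_tr_open hU n)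
    (isOpen_biUnion fun m _ => Base1H_tr_open hU m)
    (disjoint_iUnion₂_right.2 fun m hm => Base1H_tr_disj hd (Ne.symm hm)) (CH_mono ?_ hz)
  rw [Base1H_sat]
  refine iUnion_subset fun m y hy => ?_
  by_cases h : m = n
  · exact Or.inl (h ▸ hy)
  · exact Or.inr (mem_biUnion h hy)

theorem Base1H_gen (hU : IsOpen U) (hd : ∀ n : ℤ, ∀ y ∈ U, s ^ n • y ∈ U → n = 0) (hN : Inv s N)
    (hg : ∀ z ∈ CH ℂ U, dT ℂ Y z ∈ CH ℂ N → ∃ r : ℂ, ∃ w ∈ CH ℂ U, z - r • c - dT ℂ Y w ∈ CH ℂ N)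
    {z : Tot ℂ Y} (hz : z ∈ CH ℂ (sat s U)) (hdz : dT ℂ Y z ∈ CH ℂ N) :
    ∃ a : Lam ℂ, ∃ w ∈ CH ℂ (sat s U), z - act ℂ Y s a c - dT ℂ Y w ∈ CH ℂ N := by
  have sub : ∀ n, Base1H_tr s U n ⊆ sat s U := fun n => Base1H_sat s U ▸ subset_iUnion _ n
  obtain ⟨K, hK, hKU, hzK⟩ := exists_compact_CH hz
  obtain ⟨S, hS⟩ := hK.elim_finite_subcover _ (Base1H_tr_open (s := s) hU) (Base1H_sat s U ▸ hKU)
  have hzS := CH_mono hS hzK
  clear hS hzK hKU hK hz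
  induction S using Finset.induction_on generalizing z with
  | empty =>
    have : z = 0 := eq_zero_of_mem_CH_empty (by simpa using hzS)
    exact ⟨0, 0, zero_mem _, by simp [this]⟩
  | insert n S hn ih =>
    have dj : Disjoint (Base1H_tr s U n) (⋃ m ∈ S, Base1H_tr s U m) :=
      disjoint_iUnion₂_right.2 fun m hm => Base1H_tr_disj hd fun e => hn (e ▸ hm)
    rw [Finset.set_biUnion_insert, CH_union_of_disjoint (Base1H_tr_open hU n)
      (isOpen_iUnion fun m => isOpen_iUnion fun _ => Base1H_tr_open hU m) dj] at hzS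
    obtain ⟨z1, h1, z2, h2, rfl⟩ := Submodule.mem_sup.1 hzS
    have a1 : dT ℂ Y z1 ∈ CH ℂ N := by
      have := prj_mem_CH (Base1H_tr s U n) hdz
      rwa [map_add, map_add, prj_of_mem (dT_mem_CH h1), prj_eq_zero dj (dT_mem_CH h2),
        add_zero] at this
    have a2 : dT ℂ Y z2 ∈ CH ℂ N := by
      have := sub_mem hdz a1
      rwa [map_add, add_sub_cancel_left] at this
    obtain ⟨a, w, hw, b1⟩ := ih a2 h2
    obtain ⟨r, w', hw', b2⟩ := hg (gs ℂ Y (s ^ (-n)) z1) (gs_mem_CH _ (fun y hy => hy) h1)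
      (by rw [dT_gs]; exact Base1H_gsN hN _ a1)
    have b3 := Base1H_gsN hN n b2
    rw [map_sub, map_sub, Base1H_gs_gs, map_smul, ← dT_gs] at b3
    refine ⟨LaurentPolynomial.C r * LaurentPolynomial.T n + a, gs ℂ Y (s ^ n) w' + w,
      add_mem (CH_mono (sub n) (Base1H_up n hw')) hw, ?_⟩
    have := add_mem b3 b1
    rw [map_add, map_add, LinearMap.add_apply, map_mul, Module.End.mul_apply, act_C, act_T]
    convert this using 1
    abel

theorem Base1H_uniq (hU : IsOpen U) (hd : ∀ n : ℤ, ∀ y ∈ U, s ^ n • y ∈ U → n = 0) (hN : Inv s N)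
    (hc : c ∈ CH ℂ U)
    (hu : ∀ r : ℂ, ∀ w ∈ CH ℂ U, r • c - dT ℂ Y w ∈ CH ℂ N → r = 0)
    {a : Lam ℂ} {w : Tot ℂ Y} (hw : w ∈ CH ℂ (sat s U))
    (h : act ℂ Y s a c - dT ℂ Y w ∈ CH ℂ N) : act ℂ Y s a c = 0 := by
  have h1 : ∀ n : ℤ, ∀ a : Lam ℂ, ∃ r : ℂ,
      prj ℂ (Base1H_tr s U n) (act ℂ Y s a c) = r • gs ℂ Y (s ^ n) c := by
    intro n a
    induction a using LaurentPolynomial.induction_on' with
    | add p q hp hq =>
      obtain ⟨r, hr⟩ := hp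
      obtain ⟨r', hr'⟩ := hq
      exact ⟨r + r', by rw [map_add, LinearMap.add_apply, map_add, hr, hr', add_smul]⟩
    | C_mul_T m r =>
      rw [map_mul, Module.End.mul_apply, act_C, act_T, map_smul]
      by_cases e : n = m
      · exact ⟨r, by rw [e, prj_of_mem (Base1H_up m hc)]⟩
      · exact ⟨0, by rw [prj_eq_zero (Base1H_tr_disj hd e) (Base1H_up m hc), smul_zero, zero_smul]⟩
  have h2 : ∀ n : ℤ, prj ℂ (Base1H_tr s U n) (act ℂ Y s a c) = 0 := by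
    intro n
    obtain ⟨r, hr⟩ := h1 n a
    have a1 := Base1H_gsN hN (-n) (prj_mem_CH (Base1H_tr s U n) h)
    have e : gs ℂ Y (s ^ (-n)) (gs ℂ Y (s ^ n) c) = c := by
      simpa using Base1H_gs_gs (s := s) (-n) c
    rw [map_sub, hr, Base1H_prj_tr hU hd n hw, map_sub, map_smul, e, ← dT_gs] at a1
    rw [hr, hu r _ (gs_mem_CH _ (fun y hy => hy) (prj_mem _ w)) a1, zero_smul]
  have h3 : act ℂ Y s a c ∈ CH ℂ (sat s U) :=
    act_mem_CH (Base1H_inv s U) a (CH_mono (Base1H_sub s U) hc)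
  ext σ
  by_contra hσ
  have a1 := mem_CH.1 h3 σ (Finsupp.mem_support_iff.2 hσ)
  obtain ⟨n, hn⟩ := mem_iUnion.1 (Base1H_sat s U ▸ a1 (Classical.arbitrary _))
  have a2 : range σ.2 ⊆ Base1H_tr s U n := by
    have dj : Disjoint (Base1H_tr s U n) (⋃ m ∈ {m | m ≠ n}, Base1H_tr s U m) :=
      disjoint_iUnion₂_right.2 fun m hm => Base1H_tr_disj hd (Ne.symm hm)
    refine (isPreconnected_range σ.2.continuous).subset_left_of_subset_union (Base1H_tr_open hU n)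
      (isOpen_biUnion fun m _ => Base1H_tr_open hU m) dj ?_ ⟨_, ⟨_, rfl⟩, hn⟩
    rintro _ ⟨t, rfl⟩
    obtain ⟨m, hm⟩ := mem_iUnion.1 (Base1H_sat s U ▸ a1 t)
    by_cases h : m = n
    · exact Or.inl (h ▸ hm)
    · exact Or.inr (mem_biUnion h hm)
  have a3 := DFunLike.congr_fun (h2 n) σ
  rw [prj, flt_apply, if_pos a2] at a3
  exact hσ a3

theorem Base1H_mod (tf : TfStmt) (fr : ∀ (n : ℤ) (y : Y), s ^ n • y = y → n = 0) (hU : IsOpen U)
    (hd : ∀ n : ℤ, ∀ y ∈ U, s ^ n • y ∈ U → n = 0) (hN : Inv s N) (hc : c ∈ CH ℂ U)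
    (hg : ∀ z ∈ CH ℂ U, dT ℂ Y z ∈ CH ℂ N → ∃ r : ℂ, ∃ w ∈ CH ℂ U, z - r • c - dT ℂ Y w ∈ CH ℂ N)
    (hu : ∀ r : ℂ, ∀ w ∈ CH ℂ U, r • c - dT ℂ Y w ∈ CH ℂ N → r = 0) {g : Lam ℂ} (g0 : g ≠ 0)
    {b : Tot ℂ Y} (hb : b ∈ CH ℂ (sat s U)) (h : dT ℂ Y b ∈ CH ℂ N ⊔ Mul0 s g) :
    ∃ a : Lam ℂ, ∃ w ∈ CH ℂ (sat s U), b - act ℂ Y s a c - dT ℂ Y w ∈ CH ℂ N ⊔ Mul0 s g := by
  have hW := Base1H_inv s U
  obtain ⟨o, ho, _, ⟨z, rfl⟩, e⟩ := Submodule.mem_sup.1 h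
  have e' := congrArg (prj ℂ (sat s U)) e
  rw [map_add, prj_of_mem (dT_mem_CH hb), map_act _ (prj_gs s hW)] at e'
  have ho' := prj_mem_CH (sat s U) ho
  have hz' := prj_mem (R := ℂ) (sat s U) z
  generalize prj ℂ (sat s U) o = o' at e' ho'
  generalize prj ℂ (sat s U) z = z' at e' hz'
  have a1 : dT ℂ Y z' ∈ CH ℂ N := by
    refine (tf ℂ G Y s fr g g0 _).2.1 N hN ?_
    rw [← dT_act, eq_sub_of_add_eq' e', map_sub, dT_dT, zero_sub]
    exact neg_mem (dT_mem_CH ho')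
  obtain ⟨a, w, hw, a2⟩ := Base1H_gen hU hd hN hg hz' a1
  have a3 := act_mem_CH hN g a2
  have hb' : b - act ℂ Y s g w ∈ CH ℂ (sat s U) := sub_mem hb (act_mem_CH hW g hw)
  have a4 : act ℂ Y s (g * a) c - dT ℂ Y (b - act ℂ Y s g w) ∈ CH ℂ N := by
    have := neg_mem (add_mem ho' a3)
    rw [map_sub, map_sub] at this
    rw [map_mul, Module.End.mul_apply, map_sub, dT_act, ← e']
    convert this using 1
    abel
  rw [Base1H_uniq hU hd hN hc hu hb' a4, zero_sub, neg_mem_iff] at a4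
  obtain ⟨a', w', hw', a5⟩ := Base1H_gen hU hd hN hg hb' a4
  refine ⟨a', w', hw', Submodule.mem_sup.2 ⟨_, a5, _, ⟨w, rfl⟩, ?_⟩⟩
  abel

theorem Base1H_cut {W K : Set Y} (hW : IsOpen W) (hK : IsClosed K) (hKW : K ⊆ W) {g : Lam ℂ}
    {b : Tot ℂ Y} (h : dT ℂ Y b ∈ CH ℂ Kᶜ ⊔ Mul0 s g) :
    ∃ b' ∈ CH ℂ W, ∃ w, b - b' - dT ℂ Y w ∈ CH ℂ Kᶜ ⊔ Mul0 s g := by
  obtain ⟨m, b1, h1, b2, h2, e⟩ := Base1H_split hW hK hKW b
  refine ⟨b1, h1, sdHP ℂ Y m b, ?_⟩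
  have a4 : b - b1 - dT ℂ Y (sdHP ℂ Y m b) = sdHP ℂ Y m (dT ℂ Y b) + b2 := by
    rw [eq_sub_of_add_eq (dT_sdHP m b), ← e]
    abel
  have c1 : ∀ (j : ℕ) (z : Tot ℂ Y),
      (sdT ℂ Y ^ j) (gs ℂ Y s z) = gs ℂ Y s ((sdT ℂ Y ^ j) z) := by
    intro j z
    induction j with
    | zero => rfl
    | succ j ih =>
      rw [pow_succ', Module.End.mul_apply, Module.End.mul_apply, ih]
      exact sdT_psh (continuous_const_smul s).continuousOn (mem_CH_univ _)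
  have c2 : ∀ z : Tot ℂ Y, sdHP ℂ Y m (gs ℂ Y s z) = gs ℂ Y s (sdHP ℂ Y m z) := by
    intro z
    rw [sdHP, LinearMap.sum_apply, LinearMap.sum_apply, map_sum]
    refine Finset.sum_congr rfl fun j _ => ?_
    rw [Module.End.mul_apply, Module.End.mul_apply, c1]
    exact sdH_psh (continuous_const_smul s).continuousOn (mem_CH_univ _)
  obtain ⟨o, ho, _, ⟨z, rfl⟩, e'⟩ := Submodule.mem_sup.1 h
  rw [a4, ← e', map_add, map_act _ c2]
  exact add_mem (add_mem (Submodule.mem_sup_left (sdHP_mem_CH m ho))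
    (Submodule.mem_sup_right ⟨_, rfl⟩)) (Submodule.mem_sup_left h2)

end Tr

end Pool.Agent.MP_bc14e1_gt

end

section

/-! Local homology of Euclidean space at a compact convex set. -/

open Set Metric
open scoped Classical

namespace Pool.Agent.MP_bc14e1_gt

section Scale

variable {R : Type} [CommRing R] {P : Type} [NormedAddCommGroup P] [NormedSpace ℝ P]
  {L V : Set P} {x : P}

theorem Base1H_scale (κ : Kit) (hL : IsCompact L) {o : Tot R P} (ho : o ∈ CH R ({x}ᶜ : Set P)) :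
    ∃ F h : Module.End R (Tot R P), F o ∈ CH R Lᶜ ∧
      (∀ c, dT R P (h c) + h (dT R P c) = F c - c) ∧ (∀ c, dT R P (F c) = F (dT R P c)) ∧
      ∀ S : Set P, Convex ℝ S → x ∈ S → ∀ c ∈ CH R Sᶜ, h c ∈ CH R Sᶜ := by
  obtain ⟨K, hK, hKx, hoK⟩ := exists_compact_CH ho
  obtain ⟨δ, δ0, hδ⟩ := hK.exists_forall_le' (f := fun z => ‖z - x‖) (a := 0) (by fun_prop)
    fun z hz => norm_pos_iff.2 (sub_ne_zero.2 (hKx hz))
  obtain ⟨ρ, ρ0, hρ⟩ := hL.isBounded.subset_ball_lt 0 x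
  have μ0 : 0 < ρ / δ := div_pos ρ0 δ0
  let H : ℝ × P → P := fun q => x + (1 + q.1 * (ρ / δ)) • (q.2 - x)
  have hH : Continuous H := by fun_prop
  refine ⟨psh R fun z => H (1, z), hop κ R H, psh_mem_CH _ (fun z hz hl => ?_) hoK, fun c => ?_,
    dT_psh_cont (by fun_prop), fun S hS hx c hc =>
      hop_mem_CH κ H (A := Sᶜ) (B := Sᶜ) (fun q hq hl => ?_) hc⟩
  · have a1 := hρ hl
    rw [mem_ball, dist_eq_norm, add_sub_cancel_left, norm_smul, one_mul,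
      Real.norm_of_nonneg (by linarith)] at a1
    have a2 : ρ / δ * δ ≤ ρ / δ * ‖z - x‖ := mul_le_mul_of_nonneg_left (hδ z hz) μ0.le
    rw [div_mul_cancel₀ _ δ0.ne'] at a2
    linarith [norm_nonneg (z - x)]
  · rw [dT_hop κ (A := univ) hH.continuousOn (mem_CH_univ c)]
    congr 1
    exact psh_of_eqOn_id (A := univ) (fun z _ => by simp [H]) (mem_CH_univ c)
  · have a1 : 1 ≤ 1 + q.1 * (ρ / δ) := le_add_of_nonneg_right (mul_nonneg hq.1.1 μ0.le)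
    have a2 := hS.add_smul_sub_mem hx hl (t := (1 + q.1 * (ρ / δ))⁻¹)
      ⟨inv_nonneg.2 (by linarith), inv_le_one_of_one_le₀ a1⟩
    rw [add_sub_cancel_left, inv_smul_smul₀ (by linarith), add_sub_cancel] at a2
    exact hq.2 a2

theorem Base1H_inj (κ : Kit) (hV : IsOpen V) (hL : IsCompact L) (hcv : Convex ℝ L) (hLV : L ⊆ V)
    (hx : x ∈ L) {z b : Tot R P} (hz : z ∈ CH R V) (hd : dT R P z ∈ CH R Lᶜ)
    (h : z - dT R P b ∈ CH R ({x}ᶜ : Set P)) : ∃ b' ∈ CH R V, z - dT R P b' ∈ CH R (V \ L) := by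
  obtain ⟨F, H, h1, h2, h3, h4⟩ := Base1H_scale κ hL h
  refine Base1H_exc_inj hV hL.isClosed hLV hz (b := F b - H z) ?_
  have e : z - dT R P (F b - H z) = F (z - dT R P b) - H (dT R P z) := by
    rw [map_sub, map_sub, h3, eq_sub_of_add_eq (h2 z)]
    abel
  rw [e]
  exact sub_mem h1 (h4 L hcv hx _ hd)

theorem Base1H_surj (κ : Kit) (hV : IsOpen V) (hL : IsCompact L) (hLV : L ⊆ V)
    (hx : x ∈ L) {z : Tot R P} (hz : z ∈ CH R V) {k : ℕ} (hk : z ∈ DG R P (k + 1))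
    (hd : dT R P z ∈ CH R ({x}ᶜ : Set P)) : ∃ z' ∈ CC R V (k + 1), dT R P z' ∈ CH R (V \ L) ∧
      ∃ b ∈ CH R V, z - z' - dT R P b ∈ CH R (V \ {x}) := by
  obtain ⟨F, H, h1, h2, h3, h4⟩ := Base1H_scale κ hL hd
  rw [← h3] at h1
  obtain ⟨z', hz', b, hb⟩ := Base1H_exc_surj hV hL.isClosed hLV h1
  have a1 : dT R P z' ∈ CH R Lᶜ := by
    have := sub_mem h1 (dT_mem_CH hb)
    rwa [map_sub, dT_dT, sub_zero, map_sub, sub_sub_cancel] at this
  have a2 : z - z' - dT R P (b - H z) ∈ CH R ({x}ᶜ : Set P) := by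
    have e : z - z' - dT R P (b - H z) = F z - z' - dT R P b - H (dT R P z) := by
      rw [map_sub, eq_sub_of_add_eq (h2 z)]
      abel
    rw [e]
    exact sub_mem (CH_mono (compl_subset_compl.2 (singleton_subset_iff.2 hx)) hb)
      (h4 _ (convex_singleton x) rfl _ hd)
  obtain ⟨b', hb', a3⟩ := Base1H_exc_inj hV isClosed_singleton
    (singleton_subset_iff.2 (hLV hx)) (sub_mem hz hz') a2
  refine ⟨deg R P (k + 1) z', ⟨deg_mem_CH _ hz', deg_mem _ _⟩, ?_, deg R P (k + 2) b',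
    deg_mem_CH _ hb', ?_⟩
  · rw [← deg_dT, sdiff_eq, CH_inter]
    exact ⟨deg_mem_CH _ (dT_mem_CH hz'), deg_mem_CH _ a1⟩
  · have := deg_mem_CH (k + 1) a3
    rwa [map_sub, map_sub, deg_of_mem hk, deg_dT] at this

end Scale

theorem Base1H_lh (hl : LocHomStmt) (x : E 4) : ∃ o : Tot ℤ (E 4), ∀ (R : Type) [CommRing R],
    (∀ c, dT R _ c ∈ CH R ({x}ᶜ : Set (E 4)) →
      ∃ (r : R) (b : Tot R (E 4)), c - r • castZ R _ o - dT R _ b ∈ CH R ({x}ᶜ : Set (E 4))) ∧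
    ∀ (r : R) (b : Tot R (E 4)), r • castZ R _ o - dT R _ b ∈ CH R ({x}ᶜ : Set (E 4)) → r = 0 := by
  obtain ⟨o, -, -, h⟩ := hl 4
  have m1 : MapsTo (fun z : E 4 => z - x) {x}ᶜ {0}ᶜ := fun z hz e => hz (sub_eq_zero.1 e)
  have m2 : MapsTo (fun z : E 4 => z + x) {0}ᶜ {x}ᶜ := fun z hz e => hz (add_eq_right.1 e)
  have c1 : Continuous fun z : E 4 => z - x := by fun_prop
  have c2 : Continuous fun z : E 4 => z + x := by fun_prop
  refine ⟨psh ℤ (fun z => z + x) o, fun R _ => ⟨fun c hc => ?_, fun r b hb => ?_⟩⟩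
  · have a0 : ∀ c, dT R _ c ∈ CH R ({0}ᶜ : Set (E 4)) → ∃ (r : R) (b : Tot R (E 4)),
        c - r • castZ R _ o - dT R _ b ∈ CH R ({0}ᶜ : Set (E 4)) := by
      intro c hc
      have a1 : ∀ k, ∃ (r : R) (b : Tot R (E 4)),
          deg R _ k c - r • castZ R _ o - dT R _ b ∈ CH R ({0}ᶜ : Set (E 4)) := by
        intro k
        have a2 : dT R _ (deg R _ k c) ∈ CH R ({0}ᶜ : Set (E 4)) := by
          rcases k with _ | k
          · rw [dT_of_DG_zero (deg_mem _ _)]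
            exact zero_mem _
          · rw [← deg_dT]
            exact deg_mem_CH _ hc
        obtain ⟨a3, a4⟩ := h R k _ (deg_mem k c) a2
        by_cases hk : k = 4
        · exact (a4 hk).exists
        · obtain ⟨b, hb⟩ := a3 hk
          exact ⟨0, b, by rwa [zero_smul, sub_zero]⟩
      choose r b hb using a1
      obtain ⟨n, hn⟩ := exists_sum_deg c
      refine ⟨∑ k ∈ Finset.range n, r k, ∑ k ∈ Finset.range n, b k, ?_⟩
      have := sum_mem fun k (_ : k ∈ Finset.range n) => hb k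
      rwa [Finset.sum_sub_distrib, Finset.sum_sub_distrib, hn n le_rfl, ← Finset.sum_smul,
        ← map_sum] at this
    obtain ⟨r, b, hb⟩ := a0 (psh R (fun z => z - x) c)
      (by rw [dT_psh_cont c1]; exact psh_mem_CH _ m1 hc)
    refine ⟨r, psh R (fun z => z + x) b, ?_⟩
    have := psh_mem_CH _ m2 hb
    rwa [map_sub, map_sub, map_smul, ← dT_psh_cont c2, ← cast_psh, psh_psh' _ c1,
      psh_of_eqOn_id (A := univ) (fun z _ => by simp) (mem_CH_univ c)] at this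
  · have a1 := neg_mem (psh_mem_CH _ m1 hb)
    rw [map_sub, map_smul, ← dT_psh_cont c1, ← cast_psh, psh_psh' _ c2,
      psh_of_eqOn_id (A := univ) (fun z _ => by simp) (mem_CH_univ o)] at a1
    refine ((h R 4 0 (zero_mem _) (by rw [map_zero]; exact zero_mem _)).2 rfl).unique
      ⟨-psh R (fun z => z - x) b, ?_⟩ ⟨0, by simp⟩
    rw [map_neg]
    convert a1 using 1
    abel

theorem Base1H_loc (κ : Kit) (hl : LocHomStmt) {V L : Set (E 4)} {x : E 4} (hV : IsOpen V)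
    (hL : IsCompact L) (hcv : Convex ℝ L) (hLV : L ⊆ V) (hx : x ∈ L) {c : Tot ℝ (E 4)}
    (hc : c ∈ CH ℝ V) (hd : dT ℝ _ c ∈ CH ℝ Lᶜ)
    (hne : ¬ ∃ b ∈ CH ℝ V, c - dT ℝ _ b ∈ CH ℝ (V \ {x})) :
    (∀ z ∈ CH ℂ V, dT ℂ _ z ∈ CH ℂ Lᶜ → ∃ r : ℂ, ∃ w ∈ CH ℂ V,
      z - r • cast Complex.ofRealHom _ c - dT ℂ _ w ∈ CH ℂ (V \ L)) ∧
    ∀ (r : ℂ) (w : Tot ℂ (E 4)), r • cast Complex.ofRealHom _ c - dT ℂ _ w ∈ CH ℂ Lᶜ → r = 0 := by
  obtain ⟨o, ho⟩ := Base1H_lh hl x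
  have hxL : Lᶜ ⊆ {x}ᶜ := compl_subset_compl.2 (singleton_subset_iff.2 hx)
  obtain ⟨t, b, hb⟩ := (ho ℝ).1 c (CH_mono hxL hd)
  have t0 : (t : ℂ) ≠ 0 := by
    rw [Complex.ofReal_ne_zero]
    rintro rfl
    rw [zero_smul, sub_zero] at hb
    exact hne (Base1H_exc_inj hV isClosed_singleton (singleton_subset_iff.2 (hLV hx)) hc hb)
  have a1 := cast_mem_CH Complex.ofRealHom hb
  have e : cast Complex.ofRealHom _ (castZ ℝ _ o) = castZ ℂ _ o := by
    ext σ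
    simp [cast_apply]
  rw [map_sub, map_sub, LinearMap.map_smulₛₗ, e, cast_dT] at a1
  change _ - (t : ℂ) • _ - _ ∈ _ at a1
  refine ⟨fun z hz hdz => ?_, fun r w hw => ?_⟩
  · obtain ⟨r, b', hb'⟩ := (ho ℂ).1 z (CH_mono hxL hdz)
    refine ⟨r / t, Base1H_inj κ hV hL hcv hLV hx
      (b := b' - (r / t) • cast Complex.ofRealHom _ b)
      (sub_mem hz (Submodule.smul_mem _ _ (cast_mem_CH _ hc))) ?_ ?_⟩
    · rw [map_sub, map_smul, ← cast_dT]
      exact sub_mem hdz (Submodule.smul_mem _ _ (cast_mem_CH _ hd))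
    · have := sub_mem hb' (Submodule.smul_mem _ (r / t) a1)
      rw [smul_sub, smul_sub, smul_smul, div_mul_cancel₀ _ t0] at this
      rw [map_sub, map_smul]
      convert this using 1
      abel
  · refine (mul_eq_zero.1 ((ho ℂ).2 (r * t) (w - r • cast Complex.ofRealHom _ b) ?_)).resolve_right
      t0
    have := sub_mem (CH_mono hxL hw) (Submodule.smul_mem _ r a1)
    rw [smul_sub, smul_sub, smul_smul] at this
    rw [map_sub, map_smul]
    convert this using 1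
    abel

theorem Base1H_aug {R X : Type} [CommRing R] [TopologicalSpace X] (w : Tot R X) :
    val0 R (fun _ => (1 : R)) (dT R X w) = 0 := by
  induction w using Tot.ind with
  | h0 => simp
  | hadd a b ha hb => simp [ha, hb]
  | h1 k σ a =>
    rcases k with _ | _ | k
    · rw [dT_inc_zero, map_zero]
    · rw [dT_inc_succ, bd_single, Fin.sum_univ_two, map_add, map_zsmul, map_zsmul, inc_single,
        inc_single]
      simp [val0]
    · rw [dT_inc_succ]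
      exact val0_of_DG _ (Nat.succ_ne_zero k) (inc_mem_DG _ _)

theorem Base1H_ctr {R X : Type} [CommRing R] [TopologicalSpace X] (h : CtrStmt) {A : Set X}
    {x : X} (hA : Ctr A x) {z : Tot R X} (hz : z ∈ CH R A) (hd : dT R X z = 0) :
    ∃ r : R, ∃ w ∈ CH R A, z - r • pt R x - dT R X w = 0 := by
  obtain ⟨h1, h2⟩ := h R X A x hA
  have a1 : ∀ k, ∃ r : R, ∃ w ∈ CH R A, deg R X k z - r • pt R x - dT R X w = 0 := by
    rintro (_ | k)
    · obtain ⟨w, hw, e⟩ := h2 _ ⟨deg_mem_CH 0 hz, deg_mem 0 z⟩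
      exact ⟨_, w, hw.1, sub_eq_zero.2 e.symm⟩
    · obtain ⟨w, hw, e⟩ := h1 (k + 1) (Nat.succ_ne_zero k) (x := deg R X (k + 1) z)
        ⟨⟨deg_mem_CH _ hz, deg_mem _ z⟩, by
          rw [SetLike.mem_coe, LinearMap.mem_ker, ← deg_dT, hd, map_zero]⟩
      exact ⟨0, w, hw.1, by rw [zero_smul, sub_zero, e, sub_self]⟩
  choose r w hw e using a1
  obtain ⟨n, hn⟩ := exists_sum_deg z
  refine ⟨∑ k ∈ Finset.range n, r k, ∑ k ∈ Finset.range n, w k, sum_mem fun k _ => hw k, ?_⟩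
  have := Finset.sum_eq_zero fun k (_ : k ∈ Finset.range n) => e k
  rwa [Finset.sum_sub_distrib, Finset.sum_sub_distrib, hn n le_rfl, ← Finset.sum_smul,
    ← map_sum] at this

end Pool.Agent.MP_bc14e1_gt

end

section

open Set Metric
open scoped Classical

namespace Pool.Agent.MP_bc14e1_gt

theorem Base1H_closed {X G Y : Type} [TopologicalSpace X] [T2Space X] [Group G]
    [TopologicalSpace Y] [MulAction G Y] [ContinuousConstSMul G Y] {Z : Set X} {p : Y → X}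
    (h : GCov G Z p) (s : G) {U L : Set Y} (hU : IsOpen U) (hi : InjOn p U) (hL : IsCompact L)
    (hLU : L ⊆ U) : IsClosed (sat s L) := by
  refine isOpen_compl_iff.1 (isOpen_iff_forall_mem_open.2 fun y hy => ?_)
  by_cases hp : p y ∈ p '' L
  · obtain ⟨l, hl, e⟩ := hp
    obtain ⟨g, rfl⟩ := h.trans l y e
    refine ⟨{y | g⁻¹ • y ∈ U}, fun y' h1 h2 => hy ?_, hU.preimage (continuous_const_smul _),
      by simpa using hLU hl⟩
    obtain ⟨n, l', hl', rfl⟩ := mem_iUnion.1 h2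
    have a1 : g⁻¹ • s ^ n • l' = l' := hi h1 (hLU hl') (by rw [h.inv, h.inv])
    rw [← mul_smul] at a1
    have a2 : g = s ^ n := inv_mul_eq_one.1 (h.free _ _ a1)
    exact mem_iUnion.2 ⟨n, l, hl, by rw [a2]⟩
  · refine ⟨p ⁻¹' (p '' L)ᶜ, fun y' h1 h2 => h1 ?_,
      (hL.image h.cont).isClosed.isOpen_compl.preimage h.cont, hp⟩
    obtain ⟨n, l', hl', rfl⟩ := mem_iUnion.1 h2
    exact ⟨l', hl', (h.inv _ _).symm⟩

theorem base1H_stmt (B : Bas1) (hLocDeg : LocDegStmt) : Base1HStmt := by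
  intro X G Y _ _ _ _ _ _ _ o F p s hT g g0 e hinj V hV hcv hVt x hx
  obtain ⟨κ⟩ := B.kit
  have hUs : e.symm '' V ⊆ e.source := by
    rintro _ ⟨v, hv, rfl⟩
    exact e.map_target (hVt hv)
  have hU : IsOpen (e.symm '' V) := e.symm.isOpen_image_of_subset_source hV hVt
  have hi : InjOn p (e.symm '' V) := hinj.mono hUs
  have ce : ContinuousOn e (e.symm '' V) := e.continuousOn.mono hUs
  have cs : ContinuousOn e.symm V := e.continuousOn_symm.mono hVt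
  have m1 : MapsTo e (e.symm '' V) V := by
    rintro _ ⟨v, hv, rfl⟩
    rwa [e.right_inv (hVt hv)]
  have m2 : MapsTo e.symm V (e.symm '' V) := mapsTo_image _ _
  have m3 : ∀ A, MapsTo e (e.symm '' V ∩ (e.symm '' A)ᶜ) (V \ A) := fun A y hy =>
    ⟨m1 hy.1, fun h => hy.2 ⟨_, h, e.left_inv (hUs hy.1)⟩⟩
  have m4 : ∀ A ⊆ V, MapsTo e.symm (V \ A) (e.symm '' V \ e.symm '' A) := fun A hA v hv =>
    ⟨m2 hv.1, fun ⟨a, ha, h⟩ => hv.2 (e.symm.injOn (hVt (hA ha)) (hVt hv.1) h ▸ ha)⟩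
  have back : ∀ (R : Type) [CommRing R], ∀ z ∈ CH R (e.symm '' V),
      psh R e.symm (psh R e z) = z := fun R _ z hz => by
    rw [psh_psh _ ce hz]
    exact psh_of_eqOn_id (fun y hy => e.left_inv (hUs hy)) hz
  have forth : ∀ (R : Type) [CommRing R], ∀ z ∈ CH R V, psh R e (psh R e.symm z) = z :=
    fun R _ z hz => by
      rw [psh_psh _ cs hz]
      exact psh_of_eqOn_id (fun y hy => e.right_inv (hVt hy)) hz
  have fr : ∀ (n : ℤ) (y : Y), s ^ n • y = y → n = 0 := fun n y h => hT.inf n (hT.cov.free _ _ h)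
  have hd : ∀ n : ℤ, ∀ y ∈ e.symm '' V, s ^ n • y ∈ e.symm '' V → n = 0 := fun n y h1 h2 =>
    fr n y (hi h2 h1 (hT.cov.inv _ _))
  refine ⟨fun u hu hdu => ?_, fun L hL hLc hLV hxL => ?_⟩
  · have ct : Ctr V x := ⟨hx, fun q => q.2 + q.1 • (x - q.2), by fun_prop,
      fun q hq => hcv.add_smul_sub_mem hq.2 hx hq.1, fun y _ => by simp, fun y _ => by simp⟩
    have q1 : ∀ z ∈ CH ℂ (e.symm '' V), dT ℂ Y z ∈ CH ℂ ∅ → ∃ r : ℂ, ∃ w ∈ CH ℂ (e.symm '' V),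
        z - r • pt ℂ (e.symm x) - dT ℂ Y w ∈ CH ℂ ∅ := fun z hz hdz => by
      obtain ⟨r, w, hw, h⟩ := Base1H_ctr B.ctr ct (psh_mem_CH _ m1 hz)
        (by rw [dT_psh ce hz, eq_zero_of_mem_CH_empty hdz, map_zero])
      have := congrArg (psh ℂ e.symm) h
      rw [map_sub, map_sub, back ℂ z hz, map_smul, psh_pt, ← dT_psh cs hw, map_zero] at this
      exact ⟨r, _, psh_mem_CH _ m2 hw, this ▸ zero_mem _⟩
    have q2 : ∀ r : ℂ, ∀ w ∈ CH ℂ (e.symm '' V), r • pt ℂ (e.symm x) - dT ℂ Y w ∈ CH ℂ ∅ →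
        r = 0 := fun r w _ h => by
      have := congrArg (val0 ℂ fun _ => (1 : ℂ)) (eq_zero_of_mem_CH_empty h)
      rwa [map_sub, Base1H_aug, map_smul, val0_pt, map_zero, sub_zero, smul_eq_mul,
        mul_one] at this
    obtain ⟨a, w, hw, h⟩ := Base1H_mod B.tf fr hU hd (fun _ => Iff.rfl) (pt_mem_CH (m2 hx)) q1 q2
      g0 hu (Submodule.mem_sup_right hdu)
    obtain ⟨y, hy, y', hy', e'⟩ := Submodule.mem_sup.1 h
    rw [eq_zero_of_mem_CH_empty hy, zero_add] at e'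
    exact ⟨a, w, hw, e' ▸ hy'⟩
  obtain ⟨-, d2, d3, -⟩ := hLocDeg X Y o p (B.cov G X Y _ p hT.cov).2.1 (e.symm x)
  obtain ⟨c1, hc1, hD⟩ := d3 _ hU (m2 hx)
  obtain ⟨U', -, -, -, k1, k2, b1, k3⟩ := hD
  have hLU : e.symm '' L ⊆ e.symm '' V := image_mono hLV
  have hxV : ({x} : Set (E 4)) ⊆ V := singleton_subset_iff.2 hx
  have mp : MapsTo p (e.symm '' V \ e.symm '' {x}) {p (e.symm x)}ᶜ := fun y hy h =>
    hy.2 ⟨x, rfl, (hi hy.1 (m2 hx) h).symm⟩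
  obtain ⟨c, hc, hdc, b, hb, hcb⟩ := Base1H_surj κ hV hL hLV hxL (psh_mem_CH _ m1 hc1)
    (psh_mem_DG _ k1.2) (by
      rw [dT_psh ce hc1]
      refine CH_mono (sdiff_subset_compl _ _) (psh_mem_CH _ (m3 {x}) ?_)
      rw [CH_inter, image_singleton]
      exact ⟨dT_mem_CH hc1, CH_mono (sdiff_subset_compl _ _) k2⟩)
  have hc' : psh ℝ e.symm c ∈ CC ℝ (e.symm '' V) 4 := ⟨psh_mem_CH _ m2 hc.1, psh_mem_DG _ hc.2⟩
  have hdc' : dT ℝ Y (psh ℝ e.symm c) ∈ CH ℝ (e.symm '' V \ e.symm '' L) := by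
    rw [dT_psh cs hc.1]
    exact psh_mem_CH _ (m4 L hLV) hdc
  have hdx : dT ℝ Y (psh ℝ e.symm c) ∈ CH ℝ (e.symm '' V \ {e.symm x}) :=
    CH_mono (sdiff_subset_sdiff_right (singleton_subset_iff.2 (mem_image_of_mem _ hxL))) hdc'
  have hD : LocDeg o p (e.symm x) (psh ℝ e.symm c) 1 := by
    refine ⟨_, hU, m2 hx, hi, hc', hdx, b1 - psh ℝ p (psh ℝ e.symm b), ?_⟩
    have a1 := psh_mem_CH _ mp (psh_mem_CH _ (m4 _ hxV) hcb)
    rw [map_sub (psh ℝ e.symm), map_sub (psh ℝ e.symm), back ℝ c1 hc1, ← dT_psh cs hb, map_sub,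
      map_sub, ← dT_psh_cont hT.cov.cont] at a1
    have a2 := sub_mem k3 a1
    rw [map_sub]
    convert a2 using 1
    abel
  obtain ⟨g1, g2⟩ := Base1H_loc κ B.locHom hV hL hLc hLV hxL hc.1
    (CH_mono (sdiff_subset_compl _ _) hdc) (by
      rintro ⟨b', hb', h⟩
      refine one_ne_zero (d2 _ _ _ hD ⟨_, hU, m2 hx, hi, hc', hdx, psh ℝ p (psh ℝ e.symm b'), ?_⟩)
      have a1 := psh_mem_CH _ mp (psh_mem_CH _ (m4 _ hxV) h)
      rwa [map_sub (psh ℝ e.symm), ← dT_psh cs hb', map_sub, ← dT_psh_cont hT.cov.cont,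
        ← sub_zero (psh ℝ p (psh ℝ e.symm c)),
        ← zero_smul ℝ (castZ ℝ X (inc ℤ 4 (o.o (p (e.symm x)))))] at a1)
  refine ⟨_, hc'.1, hD, CH_mono (sdiff_subset_compl _ _) hdc', fun z hz => ?_⟩
  have hK := Base1H_closed hT.cov s hU hi (hL.image_of_continuousOn (cs.mono hLV)) hLU
  have hW : IsOpen (sat s (e.symm '' V)) := by
    rw [Base1H_sat]
    exact isOpen_iUnion (Base1H_tr_open hU)
  have hKW : sat s (e.symm '' L) ⊆ sat s (e.symm '' V) := iUnion_mono fun _ => image_mono hLU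
  have hN : Inv s (sat s (e.symm '' L))ᶜ := fun y => not_congr (Base1H_inv s _ y)
  have s1 : e.symm '' V \ e.symm '' L ⊆ (sat s (e.symm '' L))ᶜ := fun y hy h => by
    obtain ⟨n, l, hl, rfl⟩ := mem_iUnion.1 h
    have := hd n l (hLU hl) hy.1
    exact hy.2 (by simpa [this] using hl)
  have s2 : ∀ z ∈ CH ℂ (e.symm '' V), z ∈ CH ℂ (sat s (e.symm '' L))ᶜ →
      psh ℂ e z ∈ CH ℂ Lᶜ := fun z h1 h2 => by
    refine CH_mono (sdiff_subset_compl _ _) (psh_mem_CH _ (m3 L) ?_)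
    rw [CH_inter]
    exact ⟨h1, CH_mono (compl_subset_compl.2 (Base1H_sub s _)) h2⟩
  have hcc := cast_mem_CH Complex.ofRealHom hc'.1
  obtain ⟨z', hz', w, hw⟩ := Base1H_cut hW hK hKW hz
  have hdz' : dT ℂ Y z' ∈ CH ℂ (sat s (e.symm '' L))ᶜ ⊔ Mul0 s g := by
    obtain ⟨y, hy, _, ⟨y', rfl⟩, e'⟩ := Submodule.mem_sup.1 hw
    have a1 := congrArg (dT ℂ Y) e'
    rw [map_add, map_sub, map_sub, dT_dT, sub_zero, dT_act] at a1
    have a2 := sub_mem hz (Submodule.mem_sup.2 ⟨_, dT_mem_CH hy, _, ⟨dT ℂ Y y', rfl⟩, a1⟩)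
    rwa [sub_sub_cancel] at a2
  have q1 : ∀ u ∈ CH ℂ (e.symm '' V), dT ℂ Y u ∈ CH ℂ (sat s (e.symm '' L))ᶜ → ∃ r : ℂ,
      ∃ w ∈ CH ℂ (e.symm '' V), u - r • cast Complex.ofRealHom Y (psh ℝ e.symm c) - dT ℂ Y w ∈
        CH ℂ (sat s (e.symm '' L))ᶜ := fun u hu hdu => by
    obtain ⟨r, w, hw, h⟩ := g1 _ (psh_mem_CH _ m1 hu)
      (by rw [dT_psh ce hu]; exact s2 _ (dT_mem_CH hu) hdu)
    refine ⟨r, _, psh_mem_CH _ m2 hw, CH_mono s1 ?_⟩
    have := psh_mem_CH _ (m4 L hLV) h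
    rwa [map_sub, map_sub, back ℂ u hu, map_smul, ← cast_psh, ← dT_psh cs hw] at this
  have q2 : ∀ r : ℂ, ∀ w ∈ CH ℂ (e.symm '' V), r • cast Complex.ofRealHom Y (psh ℝ e.symm c) -
      dT ℂ Y w ∈ CH ℂ (sat s (e.symm '' L))ᶜ → r = 0 := fun r w hw h => by
    refine g2 r (psh ℂ e w) ?_
    have := s2 _ (sub_mem (Submodule.smul_mem _ r hcc) (dT_mem_CH hw)) h
    rwa [map_sub, map_smul, ← cast_psh, forth ℝ c hc.1, ← dT_psh ce hw] at this
  obtain ⟨a, w', -, h⟩ := Base1H_mod B.tf fr hU hd hN hcc q1 q2 g0 hz' hdz'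
  refine ⟨a, w + w', ?_⟩
  have := add_mem hw h
  rw [map_add]
  convert this using 1
  abel

end Pool.Agent.MP_bc14e1_gt

end

section

/-! Statements: the construction of the double. -/

open Set Metric
open scoped Classical Manifold ContDiff

namespace Pool.Agent.MP_bc14e1_gt

noncomputable section

section Exc

variable {R : Type} [CommRing R] {X : Type} [TopologicalSpace X]

/-- Excision, onto. -/
theorem exc_surj {A U : Set X} (hA : IsClosed A) (hU : IsOpen U) (hAU : A ⊆ U) {k : ℕ}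
    {c : Tot R X} (hc : c ∈ DG R X k) (hd : dT R X c ∈ CH R Aᶜ) :
    ∃ z ∈ CC R U k, ∃ w, z - c - dT R X w ∈ CH R Aᶜ := by
  obtain ⟨m, hm⟩ := sdT_small_two hU hA.isOpen_compl (c := c)
    (CH_mono (fun x _ => (em (x ∈ A)).imp (@hAU x) id) (mem_CH_univ c))
  obtain ⟨a, ha, b, hb, hab⟩ := Submodule.mem_sup.1 (hm m le_rfl)
  have e : deg R X k a + deg R X k b = (sdT R X ^ m) c := by
    rw [← map_add, hab, deg_of_mem (sdT_pow_mem_DG m hc)]
  refine ⟨deg R X k a, ⟨deg_mem_CH k ha, deg_mem k a⟩, -sdHP R X m c, ?_⟩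
  have h := dT_sdHP m c
  have : deg R X k a - c - dT R X (-sdHP R X m c) =
      -sdHP R X m (dT R X c) - deg R X k b := by
    rw [map_neg, eq_sub_of_add_eq h, ← e]; abel
  rw [this]
  exact sub_mem (neg_mem (sdHP_mem_CH m hd)) (deg_mem_CH k hb)

/-- Excision, injective. -/
theorem exc_inj {A U : Set X} (hA : IsClosed A) (hU : IsOpen U) (hAU : A ⊆ U) {z w : Tot R X}
    (hz : z ∈ CH R U) (h : z - dT R X w ∈ CH R Aᶜ) :
    ∃ w' ∈ CH R U, z - dT R X w' ∈ CH R (U \ A) := by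
  obtain ⟨m, hm⟩ := sdT_small_two hU hA.isOpen_compl (c := w)
    (CH_mono (fun x _ => (em (x ∈ A)).imp (@hAU x) id) (mem_CH_univ w))
  obtain ⟨a, ha, b, hb, hab⟩ := Submodule.mem_sup.1 (hm m le_rfl)
  have hd : dT R X z ∈ CH R Aᶜ := by simpa [dT_dT] using dT_mem_CH h
  refine ⟨a + sdHP R X m z, add_mem ha (sdHP_mem_CH m hz), ?_⟩
  rw [diff_eq, CH_inter]
  refine ⟨sub_mem hz (dT_mem_CH (add_mem ha (sdHP_mem_CH m hz))), ?_⟩
  have : z - dT R X (a + sdHP R X m z) =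
      (sdT R X ^ m) (z - dT R X w) + dT R X b + sdHP R X m (dT R X z) := by
    rw [map_add, eq_sub_of_add_eq (dT_sdHP m z), map_sub, ← dT_sdT_pow, ← hab, map_add]; abel
  rw [SetLike.mem_coe, this]
  exact add_mem (add_mem (sdT_pow_mem_CH m h) (dT_mem_CH hb)) (sdHP_mem_CH m hd)

variable (R) in
/-- Equality in the local homology at `x`. -/
def RelEq (x : X) (a b : Tot R X) : Prop := ∃ w, a - b - dT R X w ∈ CH R {x}ᶜ

end Exc

/-- The data of `ZeroSign 1 K`. -/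
structure ZD (K : Set (E 4)) where
  W : Type
  [top : TopologicalSpace W]
  [t2 : T2Space W]
  [cpt : CompactSpace W]
  [ch : ChartedSpace (E 4) W]
  [mf : IsManifold (𝓡 4) ∞ W]
  o : Orientation4 W
  c : OpenPartialHomeomorph W (E 4)
  d : E 2 → W
  k : ℕ
  S : Fin k → (Sing W 2 →₀ ℤ)
  atl : c ∈ IsManifold.maximalAtlas (𝓡 4) ∞ W
  tgt : closedBall 0 1 ⊆ c.target
  sc : SimplyConnectedSpace ↥(c.symm '' ball 0 1)ᶜ
  sm : ∀ x ∈ closedBall (0 : E 2) 1, ContMDiffAt (𝓡 2) (𝓡 4) ∞ d x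
  inj : InjOn d (closedBall 0 1)
  imm : ∀ x ∈ closedBall (0 : E 2) 1, Function.Injective (mfderiv (𝓡 2) (𝓡 4) d x)
  out : ∀ x ∈ ball (0 : E 2) 1, d x ∉ c.symm '' closedBall 0 1
  bdy : d '' sphere 0 1 = c.symm '' K
  tr : ∀ u ∈ sphere (0 : E 2) 1, deriv (fun r : ℝ => ‖c (d (r • u))‖) 1 < 0
  Sm : ∀ i, S i ∈ supp ℤ ((c.symm '' ball 0 1)ᶜ \ d '' closedBall 0 1) 2 ∧ bd ℤ W 1 (S i) = 0
  gen : ∀ z ∈ supp ℤ (c.symm '' ball 0 1)ᶜ 2, bd ℤ W 1 z = 0 →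
    ∃! n : Fin k → ℤ, Null (c.symm '' ball 0 1)ᶜ ∅ 2 (z - ∑ i, n i • S i)
  num : ∀ i j, InterNum o (S i) (S j) (if i = j then 1 else 0)

attribute [instance] ZD.top ZD.t2 ZD.cpt ZD.ch ZD.mf

theorem ZeroSign.zd {K : Set (E 4)} (h : ZeroSign 1 K) : Nonempty (ZD K) := by
  obtain ⟨W, _, _, _, _, _, o, c, V, d, k, S, h1, h2, rfl, h3, h4, h5, h6, h7, h8, h9, h10, h11,
    h12⟩ := h
  exact ⟨⟨W, o, c, d, k, S, h1, h2, h3, h4, h5, h6, h7, h8, h9, h10, h11, h12⟩⟩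

namespace ZD

variable {K : Set (E 4)} (Z : ZD K)

/-- The complement of the half ball. -/
def U1 : Set Z.W := (Z.c.symm '' closedBall 0 (1 / 2))ᶜ

/-- The disc together with the cone over the knot. -/
def FW : Set Z.W := Z.d '' closedBall 0 1 ∪ Z.c.symm '' {v | v ∈ shell ∧ ‖v‖⁻¹ • v ∈ K}

/-- The level function. -/
def hW (w : Z.W) : ℝ := if w ∈ Z.c.symm '' ball 0 1 then 3 - 4 * ‖Z.c w‖ else -1

end ZD

/-- Two copies of `U1` glued along the shell. -/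
structure Gl {K : Set (E 4)} (Z : ZD K) (ι : E 4 ≃ₗᵢ[ℝ] E 4) where
  X : Type
  [top : TopologicalSpace X]
  i : OpenPartialHomeomorph Z.W X
  I : X ≃ₜ X
  src : i.source = Z.U1
  II : ∀ x, I (I x) = x
  cover : ∀ x, x ∈ i.target ∨ I x ∈ i.target
  glue : ∀ x ∈ Z.U1, ∀ y ∈ Z.U1,
    I (i x) = i y ↔ ∃ v ∈ shell, x = Z.c.symm v ∧ y = Z.c.symm (invS ι v)

attribute [instance] Gl.top

namespace Gl

variable {K : Set (E 4)} {Z : ZD K} {ι : E 4 ≃ₗᵢ[ℝ] E 4} (Γ : Gl Z ι)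

def h (x : Γ.X) : ℝ := if x ∈ Γ.i.target then Z.hW (Γ.i.symm x) else 1

def F : Set Γ.X := Γ.i '' Z.FW ∪ Γ.I '' (Γ.i '' Z.FW)

/-- The point set topology of the double. -/
structure GTop : Prop where
  t2 : T2Space Γ.X
  cpt : CompactSpace Γ.X
  hc : Continuous Γ.h
  hI : ∀ x, Γ.h (Γ.I x) = -Γ.h x
  hi : ∀ w ∈ Z.U1, Γ.h (Γ.i w) = Z.hW w
  tgt : Γ.i.target = Γ.h ⁻¹' Iio 1
  sub : Z.FW ⊆ Z.U1
  Fi : ∀ w ∈ Z.U1, Γ.i w ∈ Γ.F ↔ w ∈ Z.FW
  IF : ∀ x, Γ.I x ∈ Γ.F ↔ x ∈ Γ.F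
  cl : IsClosed Γ.F
  emb : ∃ e : OpenPartialHomeomorph (E 4) Γ.X, e.source = shell ∧
    e.target = Γ.h ⁻¹' Ioo (-1) 1 ∧ (∀ x ∈ shell, Γ.h (e x) = 3 - 4 * ‖x‖) ∧
    (∀ x ∈ shell, e x ∈ Γ.F ↔ ‖x‖⁻¹ • x ∈ K) ∧ ∀ x ∈ shell, Γ.I (e x) = e (invS ι x)

end Gl

/-- The open embedding `i` preserves the orientations. -/
def OC {W X : Type} [TopologicalSpace W] [TopologicalSpace X] (o : Orientation4 W)
    (o' : Orientation4 X) (i : OpenPartialHomeomorph W X) : Prop :=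
  ∀ w ∈ i.source, ∀ z ∈ CC ℤ i.source 4, RelEq ℤ w z (inc ℤ 4 (o.o w)) →
    RelEq ℤ (i w) (psh ℤ i z) (inc ℤ 4 (o'.o (i w)))

def GlueStmt : Prop :=
  ∀ (K : Set (E 4)) (ι : E 4 ≃ₗᵢ[ℝ] E 4) (Z : ZD K), (∀ x, ι (ι x) = x) → Nonempty (Gl Z ι)

def GTopStmt : Prop :=
  ∀ (K : Set (E 4)) (ι : E 4 ≃ₗᵢ[ℝ] E 4) (Z : ZD K) (Γ : Gl Z ι), K ⊆ sphere 0 1 →
    (∀ x, ι (ι x) = x) → ι '' K = K → Γ.GTop

def GManStmt : Prop :=
  ∀ (K : Set (E 4)) (ι : E 4 ≃ₗᵢ[ℝ] E 4) (Z : ZD K) (Γ : Gl Z ι),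
    ∃ _ : ChartedSpace (E 4) Γ.X, IsManifold (𝓡 4) ∞ Γ.X

/-- Isometries with the same determinant act in the same way on the local homology. -/
def ReflStmt : Prop :=
  ∀ A B : E 4 ≃ₗᵢ[ℝ] E 4, LinearMap.det (A.toLinearEquiv : E 4 →ₗ[ℝ] E 4) =
    LinearMap.det (B.toLinearEquiv : E 4 →ₗ[ℝ] E 4) → ∀ z ∈ DG ℤ (E 4) 4,
    dT ℤ _ z ∈ CH ℤ ({0}ᶜ : Set (E 4)) → RelEq ℤ 0 (psh ℤ A z) (psh ℤ B z)

/-- The involution of the shell preserves the local orientations. -/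
def InvDegStmt : Prop :=
  ∀ ι : E 4 ≃ₗᵢ[ℝ] E 4, LinearMap.det (ι.toLinearEquiv : E 4 →ₗ[ℝ] E 4) = -1 →
    ∀ v ∈ shell, ∀ z ∈ CC ℤ shell 4, dT ℤ _ z ∈ CH ℤ ({v}ᶜ : Set (E 4)) →
      RelEq ℤ 0 (psh ℤ (fun x => invS ι x - invS ι v) z) (psh ℤ (fun x => x - v) z)

/-- An orientation is constant in a chart. -/
def ChOriStmt : Prop :=
  ∀ (W : Type) [TopologicalSpace W] [T2Space W] (o : Orientation4 W)
    (c : OpenPartialHomeomorph W (E 4)) (T : Set (E 4)), T ⊆ c.target → IsPreconnected T →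
    ∃ z₀ : Tot ℤ (E 4), ∀ v ∈ T, ∀ z ∈ CC ℤ c.source 4, dT ℤ W z ∈ CH ℤ {c.symm v}ᶜ →
      (RelEq ℤ (c.symm v) z (inc ℤ 4 (o.o (c.symm v))) ↔
        RelEq ℤ 0 (psh ℤ (fun w => c w - v) z) z₀)

/-- Gluing of orientations. -/
def OriGlueStmt : Prop :=
  ∀ (W X : Type) [TopologicalSpace W] [T2Space W] [LocallyCompactSpace W] [TopologicalSpace X]
    [T2Space X] (o : Orientation4 W) (i : OpenPartialHomeomorph W X) (I : X ≃ₜ X),
    (∀ x, I (I x) = x) → (∀ x, x ∈ i.target ∨ I x ∈ i.target) →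
    (∀ w ∈ i.source, ∀ w' ∈ i.source, I (i w) = i w' → ∃ z ∈ CC ℤ i.source 4,
      ∃ z' ∈ CC ℤ i.source 4, RelEq ℤ w z (inc ℤ 4 (o.o w)) ∧ RelEq ℤ w' z' (inc ℤ 4 (o.o w')) ∧
        psh ℤ I (psh ℤ i z) = psh ℤ i z') →
    ∃ o' : Orientation4 X, OriPres o' I ∧ OC o o' i

def GOriStmt : Prop :=
  ∀ (K : Set (E 4)) (ι : E 4 ≃ₗᵢ[ℝ] E 4) (Z : ZD K) (Γ : Gl Z ι), T2Space Γ.X →
    (∀ x, ι (ι x) = x) → LinearMap.det (ι.toLinearEquiv : E 4 →ₗ[ℝ] E 4) = -1 →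
    ∃ o' : Orientation4 Γ.X, OriPres o' Γ.I ∧ OC Z.o o' Γ.i

/-- An immersed disc is locally flat. -/
def ImmStmt : Prop :=
  ∀ (g : E 2 → E 4) (x : E 2), ContDiffAt ℝ 1 g x → Function.Injective (fderiv ℝ g x) →
    ∀ N ∈ nhds x, ∃ N', IsOpen N' ∧ x ∈ N' ∧ N' ⊆ N ∧
      ∃ e : OpenPartialHomeomorph (E 4) (ℂ × ℂ), g x ∈ e.source ∧
        ∀ y ∈ e.source, (e y).2 = 0 ↔ y ∈ g '' N'

/-- The union of the disc and of the cone over its boundary is flat along the cone. -/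
def SeamStmt : Prop :=
  ∀ (g : E 2 → E 4) (u : E 2), ‖u‖ = 1 → ContDiffAt ℝ 1 g u → Function.Injective (fderiv ℝ g u) →
    (∀ᶠ x in nhds u, ‖x‖ = 1 → ‖g x‖ = 1) → (∀ᶠ x in nhds u, ‖x‖ < 1 → 1 < ‖g x‖) →
    deriv (fun r : ℝ => ‖g (r • u)‖) 1 < 0 →
    ∀ N ∈ nhds u, ∃ N', IsOpen N' ∧ u ∈ N' ∧ N' ⊆ N ∧
      ∃ e : OpenPartialHomeomorph (E 4) (ℂ × ℂ), (∀ r ∈ Ioc (0 : ℝ) 1, r • g u ∈ e.source) ∧
        ∀ y ∈ e.source, (e y).2 = 0 ↔
          y ∈ g '' (N' ∩ closedBall 0 1) ∨ (‖y‖ < 1 ∧ ‖y‖⁻¹ • y ∈ g '' (N' ∩ sphere 0 1))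

def FlatWStmt : Prop :=
  ∀ (K : Set (E 4)) (Z : ZD K), K ⊆ sphere 0 1 → ∀ w ∈ Z.FW, ∃ e, FlatCh Z.FW e ∧ w ∈ e.source

def DiscWStmt : Prop :=
  ∀ (K : Set (E 4)) (Z : ZD K), K ⊆ sphere 0 1 → ∃ δ : E 2 → Z.W,
    ContinuousOn δ (closedBall 0 1) ∧ InjOn δ (closedBall 0 1) ∧
    δ '' closedBall 0 1 = Z.FW ∩ Z.hW ⁻¹' Iic 0 ∧ δ '' sphere 0 1 = Z.FW ∩ Z.hW ⁻¹' {0}

/-- The first homology of a simply connected set vanishes. -/
def HurStmt : Prop :=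
  ∀ (X : Type) [TopologicalSpace X] (V : Set X), SimplyConnectedSpace V → ZC ℤ V 1 ≤ BC ℤ V 1

def HomWStmt : Prop :=
  ∀ (K : Set (E 4)) (Z : ZD K), IsPathConnected Z.U1 ∧ ZC ℤ Z.U1 1 ≤ BC ℤ Z.U1 1 ∧
    ∀ z ∈ ZC ℤ Z.U1 2, ∃ n : Fin Z.k → ℤ, z - ∑ i, n i • inc ℤ 2 (Z.S i) ∈ BC ℤ Z.U1 2

/-- Intersection numbers are preserved by oriented open embeddings. -/
def GNumStmt : Prop :=
  ∀ (κ : Kit) (W X : Type) [TopologicalSpace W] [T2Space W] [ChartedSpace (E 4) W]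
    [TopologicalSpace X] [T2Space X] [ChartedSpace (E 4) X] (o : Orientation4 W)
    (o' : Orientation4 X) (i : OpenPartialHomeomorph W X), OC o o' i →
    ∀ τ, IsThom o' id τ → ∀ x ∈ supp ℤ i.source 2, ∀ y ∈ supp ℤ i.source 2,
      bd ℤ W 1 x = 0 → bd ℤ W 1 y = 0 → ∀ n, InterNum o x y n →
      beta κ τ (castZ ℂ X (psh ℤ i (inc ℤ 2 x))) (castZ ℂ X (psh ℤ i (inc ℤ 2 y))) = n

end

end Pool.Agent.MP_bc14e1_gt

end

section

open Set Metric Topology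
open scoped Classical

namespace Pool.Agent.MP_bc14e1_gt

/-- The gluing relation. -/
def Glue_setoid {W : Type} (U Sh : Set W) (G : W → W) (hm : MapsTo G Sh Sh)
    (hG : ∀ x ∈ Sh, G (G x) = x) : Setoid (Bool × U) where
  r p q := p = q ∨ (q.1 = !p.1 ∧ p.2.1 ∈ Sh ∧ q.2.1 = G p.2.1)
  iseqv := by
    refine ⟨fun p => Or.inl rfl, ?_, ?_⟩
    · rintro p q (h | ⟨h1, h2, h3⟩)
      · exact Or.inl h.symm
      · refine Or.inr ⟨by rw [h1, Bool.not_not], by rw [h3]; exact hm h2, by rw [h3, hG _ h2]⟩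
    · rintro p q r (h | ⟨h1, h2, h3⟩) (k | ⟨k1, k2, k3⟩)
      · exact Or.inl (h.trans k)
      · subst h; exact Or.inr ⟨k1, k2, k3⟩
      · subst k; exact Or.inr ⟨h1, h2, h3⟩
      · refine Or.inl (Prod.ext ?_ (Subtype.ext ?_))
        · rw [k1, h1, Bool.not_not]
        · rw [k3, h3, hG _ h2]

theorem Glue_abs {W : Type} [TopologicalSpace W] (U Sh : Set W) (G : W → W) (hU : IsOpen U)
    (hne : U.Nonempty) (hS : IsOpen Sh) (hSU : Sh ⊆ U) (hm : MapsTo G Sh Sh)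
    (hG : ∀ x ∈ Sh, G (G x) = x) (hc : ContinuousOn G Sh) :
    ∃ (X : Type) (_ : TopologicalSpace X) (i : OpenPartialHomeomorph W X) (I : X ≃ₜ X),
      i.source = U ∧ (∀ x, I (I x) = x) ∧ (∀ x, x ∈ i.target ∨ I x ∈ i.target) ∧
      ∀ x ∈ U, ∀ y ∈ U, I (i x) = i y ↔ x ∈ Sh ∧ y = G x := by
  haveI : Nonempty U := hne.to_subtype
  set s := Glue_setoid U Sh G hm hG with hs
  have hr : ∀ p q : Bool × U, s.r p q ↔
      (p = q ∨ (q.1 = !p.1 ∧ p.2.1 ∈ Sh ∧ q.2.1 = G p.2.1)) := fun _ _ => Iff.rfl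
  let T : Bool × U → Bool × U := fun p =>
    (!p.1, if h : p.2.1 ∈ Sh then ⟨G p.2.1, hSU (hm h)⟩ else p.2)
  have hD : IsOpen {p : Bool × U | p.2.1 ∈ Sh} :=
    hS.preimage (continuous_subtype_val.comp continuous_snd)
  have hT : ContinuousOn T {p : Bool × U | p.2.1 ∈ Sh} := by
    refine ContinuousOn.prodMk
      ((continuous_of_discreteTopology (f := fun b : Bool => !b)).comp continuous_fst).continuousOn ?_
    rw [IsInducing.subtypeVal.continuousOn_iff]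
    refine (hc.comp (continuous_subtype_val.comp continuous_snd).continuousOn
      (fun p hp => hp)).congr ?_
    intro p hp
    have hp' : p.2.1 ∈ Sh := hp
    simp only [Function.comp, dif_pos hp']
  have hopen : IsOpenMap (Quotient.mk s) := by
    intro O hO
    rw [← (isQuotientMap_quotient_mk' (s := s)).isOpen_preimage]
    have e : (Quotient.mk' (s := s)) ⁻¹' (Quotient.mk s '' O) =
        O ∪ ({p : Bool × U | p.2.1 ∈ Sh} ∩ T ⁻¹' O) := by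
      ext p
      constructor
      · rintro ⟨q, hq, hqp⟩
        have h1 : s.r p q := s.symm (Quotient.exact hqp)
        rcases (hr _ _).1 h1 with h | ⟨h1, h2, h3⟩
        · exact Or.inl (h ▸ hq)
        · refine Or.inr ⟨h2, ?_⟩
          have : T p = q := by
            refine Prod.ext h1.symm (Subtype.ext ?_)
            simp only [T, dif_pos h2, h3]
          rw [mem_preimage, this]; exact hq
      · rintro (h | ⟨h1, h2⟩)
        · exact ⟨p, h, rfl⟩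
        · refine ⟨T p, h2, Quotient.sound (s.symm ((hr _ _).2 (Or.inr ⟨rfl, h1, ?_⟩)))⟩
          have h1' : p.2.1 ∈ Sh := h1
          simp only [T, dif_pos h1']
    rw [e]
    exact hO.union (hT.isOpen_inter_preimage hD hO)
  let j : U → Quotient s := fun x => Quotient.mk s (false, x)
  have hj : IsOpenEmbedding j := by
    refine IsOpenEmbedding.of_continuous_injective_isOpenMap
      (continuous_quotient_mk'.comp (continuous_const.prodMk continuous_id)) ?_ ?_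
    · intro x y hxy
      rcases (hr _ _).1 (Quotient.exact hxy) with h | ⟨h, -⟩
      · exact (Prod.ext_iff.1 h).2
      · simp at h
    · intro V hV
      have e : j '' V = Quotient.mk s '' (({false} : Set Bool) ×ˢ V) := by
        ext z
        constructor
        · rintro ⟨x, hx, rfl⟩
          exact ⟨(false, x), ⟨rfl, hx⟩, rfl⟩
        · rintro ⟨⟨b, x⟩, ⟨hb, hx⟩, rfl⟩
          have hb' : b = false := hb
          subst hb'
          exact ⟨x, hx, rfl⟩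
      rw [e]
      exact hopen _ ((isOpen_discrete _).prod hV)
  let f : Bool × U → Bool × U := fun p => (!p.1, p.2)
  have hf : ∀ p q, s.r p q → s.r (f p) (f q) := by
    intro p q h
    rcases (hr _ _).1 h with h | ⟨h1, h2, h3⟩
    · subst h; exact s.refl _
    · exact (hr _ _).2 (Or.inr ⟨by simp only [f, h1], h2, h3⟩)
  let I0 : Quotient s → Quotient s := Quotient.map f hf
  have hI0 : ∀ x, I0 (I0 x) = x := by
    intro x
    induction x using Quotient.inductionOn with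
    | _ p => exact congrArg (Quotient.mk s) (by simp only [f, Bool.not_not])
  have hfc : Continuous f :=
    ((continuous_of_discreteTopology (f := fun b : Bool => !b)).comp continuous_fst).prodMk
      continuous_snd
  have hIc : Continuous I0 :=
    (isQuotientMap_quotient_mk' (s := s)).continuous_iff.2 (continuous_quotient_mk'.comp hfc)
  let I : Quotient s ≃ₜ Quotient s := ⟨⟨I0, I0, hI0, hI0⟩, hIc, hIc⟩
  let e := hU.isOpenEmbedding_subtypeVal.toOpenPartialHomeomorph Subtype.val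
  let i := e.symm.trans (hj.toOpenPartialHomeomorph j)
  have hsrc : i.source = U := by
    simp [i, e]
  have hi : ∀ x (hx : x ∈ U), i x = j ⟨x, hx⟩ := by
    intro x hx
    have : e.symm x = ⟨x, hx⟩ := e.left_inv (x := ⟨x, hx⟩) (mem_univ _)
    show j (e.symm x) = _
    rw [this]
  have ht : ∀ x : U, j x ∈ i.target := by
    intro x
    have := i.map_source (x := x.1) (hsrc.symm ▸ x.2)
    rwa [hi _ x.2] at this
  refine ⟨Quotient s, inferInstance, i, I, hsrc, hI0, ?_, ?_⟩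
  · intro x
    induction x using Quotient.inductionOn with
    | _ p =>
      obtain ⟨b, x⟩ := p
      cases b
      · exact Or.inl (ht x)
      · exact Or.inr (ht x)
  · intro x hx y hy
    rw [hi x hx, hi y hy]
    constructor
    · intro h
      have h' : s.r (true, ⟨x, hx⟩) (false, ⟨y, hy⟩) := Quotient.exact h
      rcases (hr _ _).1 h' with h | ⟨-, h2, h3⟩
      · simp at h
      · exact ⟨h2, h3⟩
    · rintro ⟨h2, h3⟩
      exact Quotient.sound (s := s) (a := (true, ⟨x, hx⟩)) (b := (false, ⟨y, hy⟩))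
        ((hr _ _).2 (Or.inr ⟨rfl, h2, h3⟩))

theorem Glue_norm (ι : E 4 ≃ₗᵢ[ℝ] E 4) {v : E 4} (hv : v ∈ shell) :
    ‖invS ι v‖ = 3 / 2 - ‖v‖ := by
  obtain ⟨h1, h2⟩ := hv
  have h0 : 0 < ‖v‖ := by linarith
  rw [invS, norm_smul, ι.norm_map, Real.norm_of_nonneg (div_nonneg (by linarith) h0.le)]
  field_simp

theorem Glue_mem (ι : E 4 ≃ₗᵢ[ℝ] E 4) {v : E 4} (hv : v ∈ shell) : invS ι v ∈ shell := by
  have h := Glue_norm ι hv
  obtain ⟨h1, h2⟩ := hv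
  exact ⟨by rw [h]; linarith, by rw [h]; linarith⟩

theorem Glue_inv (ι : E 4 ≃ₗᵢ[ℝ] E 4) (hι : ∀ x, ι (ι x) = x) {v : E 4} (hv : v ∈ shell) :
    invS ι (invS ι v) = v := by
  have h := Glue_norm ι hv
  obtain ⟨h1, h2⟩ := hv
  have h0 : ‖v‖ ≠ 0 := (by linarith : 0 < ‖v‖).ne'
  have h3 : (3 / 2 - ‖v‖ : ℝ) ≠ 0 := (by linarith : (0 : ℝ) < 3 / 2 - ‖v‖).ne'
  conv_lhs => rw [invS, h, invS, map_smul, hι, smul_smul]
  have : (3 / 2 - (3 / 2 - ‖v‖)) / (3 / 2 - ‖v‖) * ((3 / 2 - ‖v‖) / ‖v‖) = 1 := by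
    rw [sub_sub_cancel, div_mul_div_comm, mul_comm, div_self (mul_ne_zero h3 h0)]
  rw [this, one_smul]

theorem Glue_cont (ι : E 4 ≃ₗᵢ[ℝ] E 4) : ContinuousOn (invS ι) shell := by
  refine ContinuousOn.smul (f := fun x : E 4 => (3 / 2 - ‖x‖) / ‖x‖) (g := fun x => ι x)
    (ContinuousOn.div (continuous_const.sub continuous_norm).continuousOn
      continuous_norm.continuousOn ?_) ι.continuous.continuousOn
  intro v hv
  have := hv.1
  exact (by linarith : 0 < ‖v‖).ne'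

theorem glue_stmt : GlueStmt := by
  intro K ι Z hι
  have hsh : shell ⊆ Z.c.target := fun v hv => Z.tgt (mem_closedBall_zero_iff.2 hv.2.le)
  have hhb : closedBall (0 : E 4) (1 / 2) ⊆ Z.c.target :=
    (closedBall_subset_closedBall (by norm_num)).trans Z.tgt
  have hSU : Z.c.symm '' shell ⊆ Z.U1 := by
    rintro _ ⟨v, hv, rfl⟩ ⟨w, hw, h⟩
    have e : w = v := Z.c.symm.injOn (hhb hw) (hsh hv) h
    rw [e, mem_closedBall_zero_iff] at hw
    exact absurd hv.1 (not_lt.2 hw)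
  have hU : IsOpen Z.U1 :=
    ((isCompact_closedBall _ _).image_of_continuousOn
      (Z.c.continuousOn_symm.mono hhb)).isClosed.isOpen_compl
  have hso : IsOpen shell :=
    (isOpen_lt continuous_const continuous_norm).inter (isOpen_lt continuous_norm continuous_const)
  have hS : IsOpen (Z.c.symm '' shell) := Z.c.symm.isOpen_image_of_subset_source hso hsh
  have hne : Z.U1.Nonempty := by
    obtain ⟨v, hv⟩ := exists_norm_eq (E 4) (by norm_num : (0 : ℝ) ≤ 3 / 4)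
    exact ⟨_, hSU ⟨v, ⟨by rw [hv]; norm_num, by rw [hv]; norm_num⟩, rfl⟩⟩
  have hcv : ∀ v ∈ shell, Z.c (Z.c.symm v) = v := fun v hv => Z.c.right_inv (hsh hv)
  obtain ⟨X, _, i, I, h1, h2, h3, h4⟩ := Glue_abs Z.U1 (Z.c.symm '' shell)
    (fun w => Z.c.symm (invS ι (Z.c w))) hU hne hS hSU
    (by
      rintro _ ⟨v, hv, rfl⟩
      exact ⟨_, Glue_mem ι hv, by simp only [hcv v hv]⟩)
    (by
      rintro _ ⟨v, hv, rfl⟩
      simp only [hcv v hv, hcv _ (Glue_mem ι hv), Glue_inv ι hι hv])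
    (by
      refine Z.c.continuousOn_symm.comp ((Glue_cont ι).comp (Z.c.continuousOn.mono ?_) ?_) ?_
      · rintro _ ⟨v, hv, rfl⟩
        exact Z.c.map_target (hsh hv)
      · rintro _ ⟨v, hv, rfl⟩
        rw [hcv v hv]; exact hv
      · rintro _ ⟨v, hv, rfl⟩
        simp only [Function.comp, hcv v hv]
        exact hsh (Glue_mem ι hv))
  refine ⟨⟨X, i, I, h1, h2, h3, fun x hx y hy => (h4 x hx y hy).trans ?_⟩⟩
  constructor
  · rintro ⟨⟨v, hv, rfl⟩, h⟩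
    exact ⟨v, hv, rfl, by rw [h, hcv v hv]⟩
  · rintro ⟨v, hv, rfl, h⟩
    exact ⟨⟨v, hv, rfl⟩, by rw [h, hcv v hv]⟩

end Pool.Agent.MP_bc14e1_gt

end

section

open Set Metric
open scoped Classical

namespace Pool.Agent.MP_bc14e1_gt

variable {K : Set (E 4)} {ι : E 4 ≃ₗᵢ[ℝ] E 4} {Z : ZD K}

theorem GTop_norm {v : E 4} (hv : v ∈ shell) : ‖invS ι v‖ = 3 / 2 - ‖v‖ := by
  have h1 : 0 < ‖v‖ := by linarith [hv.1]
  have h2 : 0 < 3 / 2 - ‖v‖ := by linarith [hv.2]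
  rw [invS, norm_smul, ι.norm_map, Real.norm_of_nonneg (by positivity), div_mul_cancel₀ _ h1.ne']

theorem GTop_shell {v : E 4} (hv : v ∈ shell) : invS ι v ∈ shell := by
  constructor <;> rw [GTop_norm hv] <;> linarith [hv.1, hv.2]

theorem GTop_dir (hι : ι '' K = K) {v : E 4} (hv : v ∈ shell) (h : ‖v‖⁻¹ • v ∈ K) :
    ‖invS ι v‖⁻¹ • invS ι v ∈ K := by
  have h2 : 0 < 3 / 2 - ‖v‖ := by linarith [hv.2]
  have e : ‖invS ι v‖⁻¹ • invS ι v = ι (‖v‖⁻¹ • v) := by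
    rw [GTop_norm hv, invS, smul_smul, map_smul, div_eq_mul_inv _ ‖v‖, inv_mul_cancel_left₀ h2.ne']
  rw [e, ← hι]
  exact mem_image_of_mem _ h

theorem GTop_tgt {v : E 4} (hv : ‖v‖ ≤ 1) : v ∈ Z.c.target := Z.tgt (mem_closedBall_zero_iff.2 hv)

theorem GTop_mem {T : Set (E 4)} (hT : T ⊆ closedBall 0 1) {v : E 4} (hv : ‖v‖ ≤ 1) :
    Z.c.symm v ∈ Z.c.symm '' T ↔ v ∈ T :=
  Z.c.symm.injOn.mem_image_iff (hT.trans Z.tgt) (GTop_tgt hv)

theorem GTop_in {v : E 4} (hv : ‖v‖ ≤ 1) : Z.hW (Z.c.symm v) = 3 - 4 * ‖v‖ := by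
  rw [ZD.hW, Z.c.right_inv (GTop_tgt hv)]
  split_ifs with h
  · rfl
  · rw [GTop_mem ball_subset_closedBall hv, mem_ball_zero_iff] at h
    linarith

theorem GTop_out {w : Z.W} (h : w ∉ Z.c.symm '' ball 0 1) : Z.hW w = -1 := if_neg h

theorem GTop_U1 {v : E 4} (h : 1 / 2 < ‖v‖) (hv : ‖v‖ ≤ 1) : Z.c.symm v ∈ Z.U1 := by
  rw [ZD.U1, mem_compl_iff, GTop_mem (closedBall_subset_closedBall (by norm_num)) hv,
    mem_closedBall_zero_iff, not_le]
  exact h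

theorem GTop_cases {w : Z.W} (h : w ∈ Z.U1) :
    (∃ v ∈ shell, w = Z.c.symm v) ∨ w ∉ Z.c.symm '' ball 0 1 := by
  refine or_iff_not_imp_right.2 fun h' => ?_
  obtain ⟨v, hv, rfl⟩ := not_not.1 h'
  exact ⟨v, ⟨not_le.1 fun e => h ⟨v, mem_closedBall_zero_iff.2 e, rfl⟩,
    mem_ball_zero_iff.1 hv⟩, rfl⟩

theorem GTop_open {r : ℝ} (hr : r ≤ 1) : IsOpen (Z.c.symm '' ball 0 r) :=
  Z.c.isOpen_image_symm_of_subset_target isOpen_ball
    ((ball_subset_closedBall.trans (closedBall_subset_closedBall hr)).trans Z.tgt)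

theorem GTop_cont : Continuous Z.hW := by
  have h1 : IsClosed (Z.c.symm '' closedBall 0 1) :=
    ((isCompact_closedBall _ _).image_of_continuousOn (Z.c.continuousOn_symm.mono Z.tgt)).isClosed
  have h2 : ContinuousOn Z.hW (Z.c.symm '' closedBall 0 1) := by
    have : ContinuousOn (fun w => 3 - 4 * ‖Z.c w‖) (Z.c.symm '' closedBall 0 1) :=
      continuousOn_const.sub (continuousOn_const.mul (Z.c.continuousOn.mono (by
        rintro _ ⟨v, hv, rfl⟩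
        exact Z.c.map_target (Z.tgt hv))).norm)
    refine this.congr ?_
    rintro _ ⟨v, hv, rfl⟩
    rw [GTop_in (mem_closedBall_zero_iff.1 hv)]
    simp only [Z.c.right_inv (Z.tgt hv)]
  have h3 : ContinuousOn Z.hW (Z.c.symm '' ball 0 1)ᶜ :=
    continuousOn_const.congr fun w hw => GTop_out hw
  refine continuousOn_univ.1 ((h2.union_of_isClosed h3 h1 (GTop_open le_rfl).isClosed_compl).mono
    fun w _ => ?_)
  exact (em _).imp (fun h => image_mono ball_subset_closedBall h) id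

theorem GTop_dout (hK : K ⊆ sphere 0 1) {w : Z.W} (hw : w ∈ Z.d '' closedBall 0 1) :
    w ∉ Z.c.symm '' ball 0 1 := by
  obtain ⟨x, hx, rfl⟩ := hw
  rcases (mem_closedBall_zero_iff.1 hx).lt_or_eq with h | h
  · exact fun e => Z.out x (mem_ball_zero_iff.2 h) (image_mono ball_subset_closedBall e)
  · obtain ⟨k, hk, e⟩ : Z.d x ∈ Z.c.symm '' K :=
      Z.bdy ▸ mem_image_of_mem _ (mem_sphere_zero_iff_norm.2 h)
    have h1 := mem_sphere_zero_iff_norm.1 (hK hk)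
    rw [← e, GTop_mem ball_subset_closedBall h1.le, mem_ball_zero_iff, h1]
    exact lt_irrefl _

theorem GTop_sub (hK : K ⊆ sphere 0 1) : Z.FW ⊆ Z.U1 := by
  rintro w (hw | ⟨v, hv, rfl⟩)
  · exact fun e => GTop_dout hK hw (image_mono (closedBall_subset_ball (by norm_num)) e)
  · exact GTop_U1 hv.1.1 hv.1.2.le

theorem GTop_FW (hK : K ⊆ sphere 0 1) {v : E 4} (hv : v ∈ shell) :
    Z.c.symm v ∈ Z.FW ↔ ‖v‖⁻¹ • v ∈ K := by
  refine ⟨?_, fun h => .inr ⟨v, ⟨hv, h⟩, rfl⟩⟩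
  rintro (h | h)
  · exact absurd (mem_image_of_mem _ (mem_ball_zero_iff.2 hv.2)) (GTop_dout hK h)
  · exact ((GTop_mem (fun u hu => mem_closedBall_zero_iff.2 hu.1.2.le) hv.2.le).1 h).2

theorem GTop_dc : IsCompact (Z.d '' closedBall 0 1) :=
  (isCompact_closedBall _ _).image_of_continuousOn fun x hx =>
    (Z.sm x hx).continuousAt.continuousWithinAt

theorem GTop_K (Z : ZD K) (hK : K ⊆ sphere 0 1) : IsClosed K := by
  have h1 : IsCompact (Z.c.symm '' K) := Z.bdy ▸ (isCompact_sphere _ _).image_of_continuousOn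
    fun x hx => (Z.sm x (sphere_subset_closedBall hx)).continuousAt.continuousWithinAt
  have h2 : K ⊆ Z.c.target := (hK.trans sphere_subset_closedBall).trans Z.tgt
  have h3 := h1.image_of_continuousOn (Z.c.continuousOn.mono (by
    rintro _ ⟨v, hv, rfl⟩
    exact Z.c.map_target (h2 hv)))
  have e : Z.c '' (Z.c.symm '' K) = K := Z.c.image_symm_image_of_subset_target h2
  rw [e] at h3
  exact h3.isClosed

variable (Γ : Gl Z ι)

theorem GTop_src {w : Z.W} (h : w ∈ Z.U1) : w ∈ Γ.i.source := Γ.src ▸ h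

theorem GTop_ex {x : Γ.X} (h : x ∈ Γ.i.target) : ∃ w ∈ Z.U1, x = Γ.i w :=
  ⟨_, Γ.src ▸ Γ.i.map_target h, (Γ.i.right_inv h).symm⟩

theorem GTop_glue {v : E 4} (hv : v ∈ shell) :
    Γ.I (Γ.i (Z.c.symm v)) = Γ.i (Z.c.symm (invS ι v)) :=
  (Γ.glue _ (GTop_U1 hv.1 hv.2.le) _ (GTop_U1 (GTop_shell hv).1 (GTop_shell hv).2.le)).2
    ⟨v, hv, rfl, rfl⟩

theorem GTop_hi {w : Z.W} (h : w ∈ Z.U1) : Γ.h (Γ.i w) = Z.hW w := by
  rw [Gl.h, if_pos (Γ.i.map_source (GTop_src Γ h)), Γ.i.left_inv (GTop_src Γ h)]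

theorem GTop_hs {v : E 4} (hv : v ∈ shell) : Γ.h (Γ.i (Z.c.symm v)) = 3 - 4 * ‖v‖ := by
  rw [GTop_hi Γ (GTop_U1 hv.1 hv.2.le), GTop_in hv.2.le]

theorem GTop_one {x : Γ.X} (h : x ∉ Γ.i.target) : Γ.h x = 1 := if_neg h

theorem GTop_hI (x : Γ.X) : Γ.h (Γ.I x) = -Γ.h x := by
  have key : ∀ x ∈ Γ.i.target, Γ.h (Γ.I x) = -Γ.h x := by
    intro x hx
    obtain ⟨w, hw, rfl⟩ := GTop_ex Γ hx
    rcases GTop_cases hw with ⟨v, hv, rfl⟩ | h
    · rw [GTop_glue Γ hv, GTop_hs Γ hv, GTop_hs Γ (GTop_shell hv), GTop_norm hv]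
      ring
    · rw [GTop_hi Γ hw, GTop_out h, neg_neg]
      refine GTop_one Γ fun e => ?_
      obtain ⟨y, hy, e'⟩ := GTop_ex Γ e
      obtain ⟨v, hv, rfl, -⟩ := (Γ.glue w hw y hy).1 e'
      exact h (mem_image_of_mem _ (mem_ball_zero_iff.2 hv.2))
  rcases Γ.cover x with h | h
  · exact key x h
  · have := key _ h
    rw [Γ.II] at this
    linarith

theorem GTop_hc : Continuous Γ.h := by
  have key : ∀ x ∈ Γ.i.target, ContinuousAt Γ.h x := by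
    intro x hx
    refine (GTop_cont.continuousAt.comp (Γ.i.continuousAt_symm hx)).congr ?_
    filter_upwards [Γ.i.open_target.mem_nhds hx] with y hy
    exact (if_pos hy).symm
  refine continuous_iff_continuousAt.2 fun x => ?_
  rcases Γ.cover x with h | h
  · exact key x h
  · refine ((key _ h).comp Γ.I.continuous.continuousAt).neg.congr (.of_forall fun y => ?_)
    simp [GTop_hI]

theorem GTop_lt : Γ.i.target = Γ.h ⁻¹' Iio 1 := by
  ext x
  refine ⟨fun hx => ?_, fun hx => by_contra fun h => (GTop_one Γ h).not_lt hx⟩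
  obtain ⟨w, hw, rfl⟩ := GTop_ex Γ hx
  rw [mem_preimage, mem_Iio]
  rcases GTop_cases hw with ⟨v, hv, rfl⟩ | h
  · rw [GTop_hs Γ hv]
    linarith [hv.1]
  · rw [GTop_hi Γ hw, GTop_out h]
    norm_num

theorem GTop_t2 : T2Space Γ.X := by
  have key : ∀ x ∈ Γ.i.target, ∀ y ∈ Γ.i.target, x ≠ y →
      ∃ u v : Set Γ.X, IsOpen u ∧ IsOpen v ∧ x ∈ u ∧ y ∈ v ∧ Disjoint u v := by
    intro x hx y hy hne
    obtain ⟨u, v, h1, h2, h3, h4, h5⟩ := t2_separation (Γ.i.symm.injOn.ne hx hy hne)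
    exact ⟨_, _, Γ.i.isOpen_inter_preimage_symm h1, Γ.i.isOpen_inter_preimage_symm h2, ⟨hx, h3⟩,
      ⟨hy, h4⟩, (h5.preimage Γ.i.symm).mono inter_subset_right inter_subset_right⟩
  have key' : ∀ x y, x ∉ Γ.i.target → Γ.I y ∉ Γ.i.target → Γ.h x ≠ Γ.h y := by
    intro x y hx hy e
    have h1 := GTop_one Γ hx
    have h2 := GTop_one Γ hy
    rw [GTop_hI] at h2
    linarith
  refine ⟨fun x y hne => ?_⟩
  by_cases h1 : Γ.I x ∈ Γ.i.target ∧ Γ.I y ∈ Γ.i.target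
  · obtain ⟨u, v, k1, k2, k3, k4, k5⟩ := key _ h1.1 _ h1.2 (Γ.I.injective.ne hne)
    exact ⟨_, _, k1.preimage Γ.I.continuous, k2.preimage Γ.I.continuous, k3, k4, k5.preimage _⟩
  by_cases hx : x ∈ Γ.i.target
  · by_cases hy : y ∈ Γ.i.target
    · exact key x hx y hy hne
    · exact separated_by_continuous (GTop_hc Γ)
        (key' y x hy fun e => h1 ⟨e, (Γ.cover y).resolve_left hy⟩).symm
  · exact separated_by_continuous (GTop_hc Γ)
      (key' x y hx fun e => h1 ⟨(Γ.cover x).resolve_left hx, e⟩)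

theorem GTop_flip {A : Set Γ.X} {x : Γ.X} (h : x ∈ A ∪ Γ.I '' A) : Γ.I x ∈ A ∪ Γ.I '' A := by
  rcases h with h | ⟨y, hy, rfl⟩
  · exact .inr (mem_image_of_mem _ h)
  · rw [Γ.II]
    exact .inl hy

theorem GTop_flip' {A : Set Γ.X} {x : Γ.X} (h : Γ.I x ∈ A ∪ Γ.I '' A) : x ∈ A ∪ Γ.I '' A :=
  Γ.II x ▸ GTop_flip Γ h

theorem GTop_cp {A : Set Z.W} (hA : IsCompact A) (h : A ⊆ Z.U1) :
    IsCompact (Γ.i '' A ∪ Γ.I '' (Γ.i '' A)) := by
  have := hA.image_of_continuousOn (Γ.i.continuousOn.mono fun w hw => GTop_src Γ (h hw))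
  exact this.union (this.image Γ.I.continuous)

theorem GTop_cpt : CompactSpace Γ.X := by
  have h1 := GTop_cp Γ (GTop_open (Z := Z) (r := 3 / 4) (by norm_num)).isClosed_compl.isCompact
    (compl_subset_compl.2 (image_mono (closedBall_subset_ball (by norm_num))))
  have key : ∀ x ∈ Γ.i.target, x ∈ Γ.i '' (Z.c.symm '' ball 0 (3 / 4))ᶜ ∪
      Γ.I '' (Γ.i '' (Z.c.symm '' ball 0 (3 / 4))ᶜ) := by
    intro x hx
    obtain ⟨w, hw, rfl⟩ := GTop_ex Γ hx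
    by_cases h : w ∈ Z.c.symm '' ball 0 (3 / 4)
    · obtain ⟨v, hv, rfl⟩ := h
      rw [mem_ball_zero_iff] at hv
      have hs : v ∈ shell :=
        ⟨not_le.1 fun e => hw ⟨v, mem_closedBall_zero_iff.2 e, rfl⟩, by linarith⟩
      refine GTop_flip' Γ (.inl ⟨_, ?_, (GTop_glue Γ hs).symm⟩)
      rw [mem_compl_iff, GTop_mem (ball_subset_closedBall.trans
        (closedBall_subset_closedBall (by norm_num))) (GTop_shell hs).2.le, mem_ball_zero_iff,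
        GTop_norm hs]
      linarith
    · exact .inl (mem_image_of_mem _ h)
  refine ⟨h1.of_isClosed_subset isClosed_univ fun x _ => ?_⟩
  exact (Γ.cover x).elim (key x) fun h => GTop_flip' Γ (key _ h)

theorem GTop_Fi (hK : K ⊆ sphere 0 1) (hι : ι '' K = K) {w : Z.W} (hw : w ∈ Z.U1) :
    Γ.i w ∈ Γ.F ↔ w ∈ Z.FW := by
  refine ⟨?_, fun h => .inl (mem_image_of_mem _ h)⟩
  rintro (⟨y, hy, e⟩ | ⟨_, ⟨y, hy, rfl⟩, e⟩)
  · exact Γ.i.injOn (GTop_src Γ (GTop_sub hK hy)) (GTop_src Γ hw) e ▸ hy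
  · obtain ⟨v, hv, rfl, rfl⟩ := (Γ.glue y (GTop_sub hK hy) w hw).1 e
    exact (GTop_FW hK (GTop_shell hv)).2 (GTop_dir hι hv ((GTop_FW hK hv).1 hy))

theorem GTop_cl (hK : K ⊆ sphere 0 1) (hι : ι '' K = K) : IsClosed Γ.F := by
  have := GTop_t2 Γ
  have h0 : IsClosed (({v : E 4 | 3 / 4 ≤ ‖v‖} ∩ closedBall 0 1) ∩ (fun v => ‖v‖⁻¹ • v) ⁻¹' K) :=
    ContinuousOn.preimage_isClosed_of_isClosed
      ((continuous_norm.continuousOn.inv₀ fun v hv => by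
        have : 3 / 4 ≤ ‖v‖ := hv.1
        exact (lt_of_lt_of_le (by norm_num) this).ne').smul continuousOn_id)
      ((isClosed_le continuous_const continuous_norm).inter isClosed_closedBall) (GTop_K Z hK)
  generalize hB : ({v : E 4 | 3 / 4 ≤ ‖v‖} ∩ closedBall 0 1) ∩ (fun v => ‖v‖⁻¹ • v) ⁻¹' K = B
    at h0
  have hB' : ∀ v, v ∈ B ↔ (3 / 4 ≤ ‖v‖ ∧ ‖v‖ ≤ 1) ∧ ‖v‖⁻¹ • v ∈ K := fun v => by
    rw [← hB, ← mem_closedBall_zero_iff]
    rfl
  have h1 : B ⊆ closedBall 0 1 := fun v hv => mem_closedBall_zero_iff.2 ((hB' v).1 hv).1.2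
  have h2 : IsCompact (Z.d '' closedBall 0 1 ∪ Z.c.symm '' B) :=
    GTop_dc.union (((isCompact_closedBall _ _).of_isClosed_subset h0 h1).image_of_continuousOn
      (Z.c.continuousOn_symm.mono (h1.trans Z.tgt)))
  have h3 : Z.d '' closedBall 0 1 ∪ Z.c.symm '' B ⊆ Z.FW := by
    rintro w (hw | ⟨v, hv, rfl⟩)
    · exact .inl hw
    · obtain ⟨⟨k1, k2⟩, k3⟩ := (hB' v).1 hv
      rcases k2.lt_or_eq with k | k
      · exact .inr ⟨v, ⟨⟨by linarith, k⟩, k3⟩, rfl⟩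
      · rw [k, inv_one, one_smul] at k3
        exact .inl (image_mono sphere_subset_closedBall (Z.bdy ▸ mem_image_of_mem _ k3))
  have key : ∀ w ∈ Z.FW, Γ.i w ∈ Γ.i '' (Z.d '' closedBall 0 1 ∪ Z.c.symm '' B) ∪
      Γ.I '' (Γ.i '' (Z.d '' closedBall 0 1 ∪ Z.c.symm '' B)) := by
    rintro w (hw | ⟨v, ⟨hv, hv'⟩, rfl⟩)
    · exact .inl (mem_image_of_mem _ (.inl hw))
    · rcases le_total (3 / 4) ‖v‖ with k | k
      · exact .inl (mem_image_of_mem _ (.inr (mem_image_of_mem _ ((hB' v).2 ⟨⟨k, hv.2.le⟩, hv'⟩))))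
      · refine GTop_flip' Γ (.inl ⟨_, .inr (mem_image_of_mem _ ((hB' _).2
          ⟨⟨?_, (GTop_shell hv).2.le⟩, GTop_dir hι hv hv'⟩)), (GTop_glue Γ hv).symm⟩)
        rw [GTop_norm hv]
        linarith
  have e : Γ.F = Γ.i '' (Z.d '' closedBall 0 1 ∪ Z.c.symm '' B) ∪
      Γ.I '' (Γ.i '' (Z.d '' closedBall 0 1 ∪ Z.c.symm '' B)) := by
    refine Subset.antisymm ?_ (union_subset_union (image_mono h3) (image_mono (image_mono h3)))
    rintro _ (⟨w, hw, rfl⟩ | ⟨_, ⟨w, hw, rfl⟩, rfl⟩)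
    · exact key w hw
    · exact GTop_flip Γ (key w hw)
  rw [e]
  exact (GTop_cp Γ h2 (h3.trans (GTop_sub hK))).isClosed

theorem gTop_stmt : GTopStmt := by
  intro K ι Z Γ hK _ hι
  have ho : IsOpen shell :=
    (isOpen_lt continuous_const continuous_norm).inter (isOpen_lt continuous_norm continuous_const)
  have hs : ((Z.c.symm.restrOpen shell ho).trans Γ.i).source = shell := by
    ext v
    exact ⟨fun h => h.1.2, fun h => ⟨⟨GTop_tgt h.2.le, h⟩, GTop_src Γ (GTop_U1 h.1 h.2.le)⟩⟩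
  refine ⟨GTop_t2 Γ, GTop_cpt Γ, GTop_hc Γ, GTop_hI Γ, fun w => GTop_hi Γ, GTop_lt Γ, GTop_sub hK,
    fun w => GTop_Fi Γ hK hι, fun x => ⟨GTop_flip' Γ, GTop_flip Γ⟩, GTop_cl Γ hK hι,
    (Z.c.symm.restrOpen shell ho).trans Γ.i, hs, ?_, fun v hv => GTop_hs Γ hv,
    fun v hv => (GTop_Fi Γ hK hι (GTop_U1 hv.1 hv.2.le)).trans (GTop_FW hK hv),
    fun v hv => GTop_glue Γ hv⟩
  rw [← OpenPartialHomeomorph.image_source_eq_target, hs]
  ext x
  constructor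
  · rintro ⟨v, hv, rfl⟩
    change Γ.h (Γ.i (Z.c.symm v)) ∈ Ioo (-1 : ℝ) 1
    rw [GTop_hs Γ hv]
    exact ⟨by linarith [hv.2], by linarith [hv.1]⟩
  · intro hx
    obtain ⟨w, hw, rfl⟩ := GTop_ex Γ (GTop_lt Γ ▸ hx.2 : x ∈ Γ.i.target)
    rcases GTop_cases hw with ⟨v, hv, rfl⟩ | h
    · exact ⟨v, hv, rfl⟩
    · have := hx.1
      rw [GTop_hi Γ hw, GTop_out h] at this
      exact absurd this (lt_irrefl _)

end Pool.Agent.MP_bc14e1_gt

end

section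

open Set Metric
open scoped Classical

namespace Pool.Agent.MP_bc14e1_gt

section

open scoped Manifold ContDiff

theorem GMan_gen {W X J : Type} [TopologicalSpace W] [ChartedSpace (E 4) W]
    [IsManifold (𝓡 4) ∞ W] [TopologicalSpace X] (φ : J → OpenPartialHomeomorph W X)
    (hc : ∀ x, ∃ b, x ∈ (φ b).target)
    (hs : ∀ b b', ContMDiffOn (𝓡 4) (𝓡 4) ∞ (fun w => (φ b').symm (φ b w))
      ((φ b).source ∩ φ b ⁻¹' (φ b').target)) :
    ∃ _ : ChartedSpace (E 4) X, IsManifold (𝓡 4) ∞ X := by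
  choose f hf using hc
  let C : ChartedSpace (E 4) X :=
    { atlas := {e' | ∃ b, ∃ e ∈ atlas (E 4) W, e' = (φ b).symm.trans e}
      chartAt := fun x => (φ (f x)).symm.trans (chartAt (E 4) ((φ (f x)).symm x))
      mem_chart_source := fun x => ⟨hf x, mem_chart_source (E 4) _⟩
      chart_mem_atlas := fun x => ⟨f x, _, chart_mem_atlas (E 4) _, rfl⟩ }
  refine ⟨C, isManifold_of_contDiffOn _ _ _ ?_⟩
  rintro _ _ ⟨b, e, he, rfl⟩ ⟨b', e', he', rfl⟩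
  have h1 := contMDiffOn_symm_of_mem_maximalAtlas (I := 𝓡 4) (n := ∞)
    (StructureGroupoid.subset_maximalAtlas _ he)
  have h2 := contMDiffOn_of_mem_maximalAtlas (I := 𝓡 4) (n := ∞)
    (StructureGroupoid.subset_maximalAtlas _ he')
  rw [← contMDiffOn_iff_contDiffOn]
  refine (h2.comp ((hs b b').comp (h1.mono ?_) ?_) ?_).congr fun x _ => rfl
  · exact fun x hx => hx.1.1.1
  · exact fun x hx => ⟨hx.1.1.2, hx.1.2.1⟩
  · exact fun x hx => hx.1.2.2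

theorem GMan_norm (ι : E 4 ≃ₗᵢ[ℝ] E 4) {v : E 4} (hv : v ∈ shell) : ‖invS ι v‖ ≤ 1 := by
  have h1 := hv.1
  have h2 := hv.2
  have h3 : 0 < ‖v‖ := by linarith
  rw [invS, norm_smul, ι.norm_map, Real.norm_eq_abs, abs_of_nonneg (div_nonneg (by linarith) h3.le),
    div_mul_cancel₀ _ h3.ne']
  linarith

theorem GMan_smooth (ι : E 4 ≃ₗᵢ[ℝ] E 4) : ContDiffOn ℝ ∞ (invS ι) shell := by
  intro v hv
  have h3 : 0 < ‖v‖ := by linarith [hv.1]
  have h4 : ContDiffAt ℝ ∞ (fun x : E 4 => ‖x‖) v :=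
    contDiffAt_id.norm ℝ (norm_pos_iff.1 h3)
  exact (((contDiffAt_const.sub h4).div h4 h3.ne').smul ι.contDiff.contDiffAt).contDiffWithinAt

theorem GMan_mixed {K : Set (E 4)} {ι : E 4 ≃ₗᵢ[ℝ] E 4} {Z : ZD K} (Γ : Gl Z ι) :
    ContMDiffOn (𝓡 4) (𝓡 4) ∞ (fun w => Γ.i.symm (Γ.I (Γ.i w)))
      {w | w ∈ Γ.i.source ∧ Γ.I (Γ.i w) ∈ Γ.i.target} := by
  have hv : ∀ w, w ∈ Γ.i.source → Γ.I (Γ.i w) ∈ Γ.i.target → w ∈ Z.c.source ∧ Z.c w ∈ shell ∧
      Γ.i.symm (Γ.I (Γ.i w)) = Z.c.symm (invS ι (Z.c w)) := fun w h1 h2 => by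
    obtain ⟨v, hv, e1, e2⟩ := (Γ.glue w (Γ.src ▸ h1) _ (Γ.src ▸ Γ.i.map_target h2)).1
      (Γ.i.right_inv h2).symm
    have h3 : v ∈ Z.c.target := Z.tgt (mem_closedBall_zero_iff.2 hv.2.le)
    have h4 : Z.c w = v := by rw [e1, Z.c.right_inv h3]
    rw [h4]
    exact ⟨e1 ▸ Z.c.map_target h3, hv, e2⟩
  have h1 := contMDiffOn_symm_of_mem_maximalAtlas Z.atl
  have h2 := contMDiffOn_of_mem_maximalAtlas Z.atl
  refine (h1.comp ((GMan_smooth ι).contMDiffOn.comp (h2.mono ?_) ?_) ?_).congr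
    fun w hw => (hv w hw.1 hw.2).2.2
  · exact fun w hw => (hv w hw.1 hw.2).1
  · exact fun w hw => (hv w hw.1 hw.2).2.1
  · exact fun w hw => Z.tgt (mem_closedBall_zero_iff.2 (GMan_norm ι (hv w hw.1 hw.2).2.1))

end

theorem gMan_stmt : GManStmt := by
  intro K ι Z Γ
  have hI : ∀ x, Γ.I.symm x = Γ.I x := fun x => by
    rw [Homeomorph.symm_apply_eq, Γ.II]
  refine GMan_gen (fun b : Bool => cond b (Γ.i.transHomeomorph Γ.I) Γ.i) (fun x => ?_) ?_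
  · rcases Γ.cover x with h | h
    · exact ⟨false, h⟩
    · exact ⟨true, by rw [← hI] at h; exact h⟩
  · rintro (_ | _) (_ | _)
    · exact contMDiffOn_id.congr fun w hw => Γ.i.left_inv hw.1
    · refine ((GMan_mixed Γ).mono fun w hw => ⟨hw.1, ?_⟩).congr fun w _ => ?_
      · rw [← hI]
        exact hw.2
      · rw [← hI]
        rfl
    · exact (GMan_mixed Γ).mono fun w hw => hw
    · refine contMDiffOn_id.congr fun w hw => ?_
      change Γ.i.symm (Γ.I.symm (Γ.I (Γ.i w))) = w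
      rw [Homeomorph.symm_apply_apply]
      exact Γ.i.left_inv hw.1

end Pool.Agent.MP_bc14e1_gt

end

section

open Set Metric
open scoped Classical

namespace Pool.Agent.MP_bc14e1_gt

section Alg

variable {F : Type} [NormedAddCommGroup F] [InnerProductSpace ℝ F] [FiniteDimensional ℝ F]

theorem Refl_conj (C : F ≃ₗᵢ[ℝ] F) (a : F) :
    (ℝ ∙ C a)ᗮ.reflection = C * (ℝ ∙ a)ᗮ.reflection * C⁻¹ := by
  ext x
  have h : inner ℝ a (C.symm x) = inner ℝ (C a) x := by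
    rw [← C.inner_map_map, C.apply_symm_apply]
  change _ = C ((ℝ ∙ a)ᗮ.reflection (C.symm x))
  rw [Submodule.reflection_orthogonal_apply, Submodule.reflection_orthogonal_apply,
    Submodule.reflection_singleton_apply, Submodule.reflection_singleton_apply, map_neg, map_sub,
    map_nsmul, map_smul, C.apply_symm_apply, h, C.norm_map]

theorem Refl_smul (a : F) {t : ℝ} (ht : t ≠ 0) :
    (ℝ ∙ t • a)ᗮ.reflection = (ℝ ∙ a)ᗮ.reflection := by
  simp only [Submodule.span_singleton_smul_eq ht.isUnit]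

theorem Refl_same (n : (F ≃ₗᵢ[ℝ] F) →* ℤ) {a b : F} (ha : a ≠ 0) (hb : b ≠ 0) :
    n (ℝ ∙ b)ᗮ.reflection = n (ℝ ∙ a)ᗮ.reflection := by
  have h : ‖‖b‖ • a‖ = ‖‖a‖ • b‖ := by
    rw [norm_smul, norm_smul, norm_norm, norm_norm, mul_comm]
  have h1 := Refl_conj (ℝ ∙ (‖b‖ • a - ‖a‖ • b))ᗮ.reflection (‖b‖ • a)
  simp only [Submodule.reflection_sub h] at h1
  rw [Refl_smul b (norm_ne_zero_iff.2 ha), Refl_smul a (norm_ne_zero_iff.2 hb)] at h1
  rw [h1, map_mul, map_mul, mul_right_comm, ← map_mul, mul_inv_cancel, map_one, one_mul]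

theorem Refl_zero : (ℝ ∙ (0 : F))ᗮ.reflection = 1 := by
  ext x
  rw [Submodule.reflection_orthogonal_apply, Submodule.reflection_singleton_apply]
  simp

theorem Refl_det {a : F} (ha : a ≠ 0) :
    LinearMap.det ((ℝ ∙ a)ᗮ.reflection.toLinearEquiv : F →ₗ[ℝ] F) = -1 := by
  have h := Submodule.det_reflection (K := (ℝ ∙ a)ᗮ)
  rw [Submodule.orthogonal_orthogonal, finrank_span_singleton ha, pow_one] at h
  exact h

theorem Refl_hom (n : (F ≃ₗᵢ[ℝ] F) →* ℤ) {e : F} (he : e ≠ 0) (A : F ≃ₗᵢ[ℝ] F) :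
    (LinearMap.det (A.toLinearEquiv : F →ₗ[ℝ] F) = 1 ∧ n A = 1) ∨
      (LinearMap.det (A.toLinearEquiv : F →ₗ[ℝ] F) = -1 ∧ n A = n (ℝ ∙ e)ᗮ.reflection) := by
  obtain ⟨l, -, rfl⟩ := A.reflections_generate_dim
  induction l with
  | nil => exact Or.inl ⟨LinearMap.det_id, map_one n⟩
  | cons a l ih =>
    rw [List.map_cons, List.prod_cons]
    by_cases ha : a = 0
    · rwa [ha, Refl_zero, one_mul]
    generalize (l.map fun v => (ℝ ∙ v)ᗮ.reflection).prod = B at ih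
    have h : LinearMap.det (((ℝ ∙ a)ᗮ.reflection * B).toLinearEquiv : F →ₗ[ℝ] F) =
        -1 * LinearMap.det (B.toLinearEquiv : F →ₗ[ℝ] F) := by
      rw [← Refl_det ha, ← map_mul]
      rfl
    rw [h, map_mul, Refl_same n he ha]
    rcases ih with ⟨h1, h2⟩ | ⟨h1, h2⟩
    · exact Or.inr ⟨by rw [h1, mul_one], by rw [h2, mul_one]⟩
    · exact Or.inl ⟨by rw [h1]; norm_num, by
        rw [h2, ← map_mul, Submodule.reflection_mul_reflection, map_one]⟩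

end Alg

theorem refl_stmt (B : Bas1) : ReflStmt := by
  obtain ⟨o, ho, hd, h⟩ := B.locHom 4
  have hc : castZ ℤ (E 4) o = o := by
    ext σ
    rw [cast_apply]
    rfl
  let P : Tot ℤ (E 4) → ℤ → Prop := fun z r =>
    ∃ b, z - r • o - dT ℤ _ b ∈ CH ℤ ({0}ᶜ : Set (E 4))
  have h1 : ∀ z ∈ DG ℤ (E 4) 4, dT ℤ _ z ∈ CH ℤ ({0}ᶜ : Set (E 4)) → ∃! r, P z r :=
    fun z hz hz' => by
      have := (h ℤ 4 z hz hz').2 rfl
      rwa [hc] at this
  have h2 : ∀ (A : E 4 ≃ₗᵢ[ℝ] E 4) z, z ∈ CH ℤ ({0}ᶜ : Set (E 4)) →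
      psh ℤ A z ∈ CH ℤ ({0}ᶜ : Set (E 4)) := fun A z hz =>
    psh_mem_CH _ (A := {0}ᶜ) (B := {0}ᶜ) (fun w hw e => hw (A.map_eq_zero_iff.1 e)) hz
  have h3 : ∀ A : E 4 ≃ₗᵢ[ℝ] E 4, ∃! r, P (psh ℤ A o) r := fun A =>
    h1 _ (psh_mem_DG _ ho) (by rw [dT_psh_cont A.continuous]; exact h2 A _ hd)
  choose n hn hu using h3
  have h4 : ∀ (A : E 4 ≃ₗᵢ[ℝ] E 4) z r, P z r → P (psh ℤ A z) (n A * r) := by
    rintro A z r ⟨b, hb⟩
    obtain ⟨b', hb'⟩ := hn A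
    have h5 := h2 A _ hb
    rw [map_sub, map_sub, map_smul, ← dT_psh_cont A.continuous] at h5
    refine ⟨psh ℤ A b + r • b', ?_⟩
    have h6 : psh ℤ A z - (n A * r) • o - dT ℤ _ (psh ℤ A b + r • b') =
        psh ℤ A z - r • psh ℤ A o - dT ℤ _ (psh ℤ A b) +
          r • (psh ℤ A o - n A • o - dT ℤ _ b') := by
      rw [map_add, map_smul]
      module
    rw [h6]
    exact add_mem h5 (Submodule.smul_mem _ _ hb')
  let N : (E 4 ≃ₗᵢ[ℝ] E 4) →* ℤ :=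
    { toFun := n
      map_one' := (hu 1 1 ⟨0, by
        rw [show psh ℤ (1 : E 4 ≃ₗᵢ[ℝ] E 4) o = o from psh_id o]
        simp⟩).symm
      map_mul' := fun A A' => (hu (A * A') _ (by
        have h5 := h4 A _ _ (hn A')
        rw [psh_psh' _ A'.continuous] at h5
        exact h5)).symm }
  intro A A' hA z hz hz'
  have he : (EuclideanSpace.single 0 1 : E 4) ≠ 0 := by
    rw [← norm_ne_zero_iff]
    simp
  have h5 : n A = n A' := by
    rcases Refl_hom N he A with ⟨a1, a2⟩ | ⟨a1, a2⟩ <;>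
      rcases Refl_hom N he A' with ⟨b1, b2⟩ | ⟨b1, b2⟩
    · exact a2.trans b2.symm
    · rw [a1, b1] at hA; norm_num at hA
    · rw [a1, b1] at hA; norm_num at hA
    · exact a2.trans b2.symm
  obtain ⟨r, hr, -⟩ := h1 z hz hz'
  obtain ⟨b, hb⟩ := h4 A z r hr
  obtain ⟨b', hb'⟩ := h4 A' z r hr
  refine ⟨b - b', ?_⟩
  have h6 : psh ℤ A z - psh ℤ A' z - dT ℤ _ (b - b') =
      psh ℤ A z - (n A * r) • o - dT ℤ _ b - (psh ℤ A' z - (n A' * r) • o - dT ℤ _ b') := by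
    rw [map_sub, h5]
    abel
  rw [h6]
  exact sub_mem hb hb'

end Pool.Agent.MP_bc14e1_gt

end

section

open Set Metric
open scoped Classical

namespace Pool.Agent.MP_bc14e1_gt

section Aux

variable {X Y : Type} [TopologicalSpace X] [TopologicalSpace Y]

theorem InvDeg_symm {y : Y} {a b : Tot ℤ Y} (h : RelEq ℤ y a b) : RelEq ℤ y b a := by
  obtain ⟨w, h⟩ := h
  refine ⟨-w, ?_⟩
  convert neg_mem h using 1
  rw [map_neg]
  abel

theorem InvDeg_trans {y : Y} {a b c : Tot ℤ Y} (h : RelEq ℤ y a b) (h' : RelEq ℤ y b c) :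
    RelEq ℤ y a c := by
  obtain ⟨w, h⟩ := h
  obtain ⟨w', h'⟩ := h'
  refine ⟨w + w', ?_⟩
  convert add_mem h h' using 1
  rw [map_add]
  abel

theorem InvDeg_exc {U V W : Set X} (hU : IsOpen U) (hV : IsOpen V) (hW : W ⊆ U ∪ V) {k : ℕ}
    {c : Tot ℤ X} (hc : c ∈ CC ℤ W k) (hd : dT ℤ X c ∈ CH ℤ V) :
    ∃ z ∈ CC ℤ U k, ∃ w ∈ CH ℤ W, z - c - dT ℤ X w ∈ CH ℤ V := by
  obtain ⟨m, hm⟩ := sdT_small_two hU hV (CH_mono hW hc.1)
  obtain ⟨a, ha, b, hb, hab⟩ := Submodule.mem_sup.1 (hm m le_rfl)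
  have e : deg ℤ X k a + deg ℤ X k b = (sdT ℤ X ^ m) c := by
    rw [← map_add, hab, deg_of_mem (sdT_pow_mem_DG m hc.2)]
  refine ⟨deg ℤ X k a, ⟨deg_mem_CH k ha, deg_mem k a⟩, -sdHP ℤ X m c,
    neg_mem (sdHP_mem_CH m hc.1), ?_⟩
  have h := dT_sdHP m c
  have : deg ℤ X k a - c - dT ℤ X (-sdHP ℤ X m c) =
      -sdHP ℤ X m (dT ℤ X c) - deg ℤ X k b := by
    rw [map_neg, eq_sub_of_add_eq h, ← e]; abel
  rw [this]
  exact sub_mem (neg_mem (sdHP_mem_CH m hd)) (deg_mem_CH k hb)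

theorem InvDeg_psh {V W : Set X} {f : X → Y} {y : Y} (hf : ContinuousOn f W)
    (hV : MapsTo f V {y}ᶜ) {z c w : Tot ℤ X} (hw : w ∈ CH ℤ W)
    (h : z - c - dT ℤ X w ∈ CH ℤ V) : RelEq ℤ y (psh ℤ f z) (psh ℤ f c) := by
  refine ⟨psh ℤ f w, ?_⟩
  rw [dT_psh hf hw, ← map_sub, ← map_sub]
  exact psh_mem_CH f hV h

theorem InvDeg_hop (κ : Kit) {V U : Set X} {H : ℝ × X → Y} {y : Y}
    (hH : ContinuousOn H (Icc 0 1 ×ˢ U)) (hV : MapsTo H (Icc 0 1 ×ˢ V) {y}ᶜ) {z : Tot ℤ X}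
    (hz : z ∈ CH ℤ U) (hd : dT ℤ X z ∈ CH ℤ V) :
    RelEq ℤ y (psh ℤ (fun x => H (1, x)) z) (psh ℤ (fun x => H (0, x)) z) := by
  refine ⟨hop κ ℤ H z, ?_⟩
  rw [← dT_hop κ hH hz, add_sub_cancel_left]
  exact hop_mem_CH κ H hV hd

end Aux

theorem InvDeg_pos {x : E 4} (hx : x ∈ shell) : 0 < ‖x‖ := lt_trans (by norm_num) hx.1

theorem InvDeg_norm (ι : E 4 ≃ₗᵢ[ℝ] E 4) {x : E 4} (hx : x ∈ shell) :
    ‖invS ι x‖ = 3 / 2 - ‖x‖ := by
  have h0 := InvDeg_pos hx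
  have h1 : 0 < 3 / 2 - ‖x‖ := by linarith [hx.2]
  rw [invS, norm_smul, ι.norm_map, Real.norm_of_nonneg (by positivity), div_mul_cancel₀ _ h0.ne']

theorem InvDeg_inj (ι : E 4 ≃ₗᵢ[ℝ] E 4) {x v : E 4} (hx : x ∈ shell) (hv : v ∈ shell)
    (h : invS ι x = invS ι v) : x = v := by
  have h1 : ‖x‖ = ‖v‖ := by
    have := InvDeg_norm ι hx
    rw [h, InvDeg_norm ι hv] at this
    linarith
  have h0 := InvDeg_pos hv
  have h2 : 0 < 3 / 2 - ‖v‖ := by linarith [hv.2]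
  rw [invS, invS, h1] at h
  exact ι.injective (smul_right_injective _ (by positivity) h)

theorem InvDeg_cont (ι : E 4 ≃ₗᵢ[ℝ] E 4) : ContinuousOn (invS ι) shell :=
  ((continuous_const.sub continuous_norm).continuousOn.div continuous_norm.continuousOn
    fun _ hx => (InvDeg_pos hx).ne').smul ι.continuous.continuousOn

theorem InvDeg_ne (ι : E 4 ≃ₗᵢ[ℝ] E 4) {x v : E 4} (hx : x ∈ shell) (hv : v ∈ shell)
    (hp : 0 < inner ℝ v x) {s : ℝ} (hs : s ∈ Icc (0 : ℝ) 1)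
    (h : s • (invS ι x - invS ι v) + (1 - s) • ι ((ℝ ∙ v)ᗮ.reflection (x - v)) = 0) : x = v := by
  have x0 := InvDeg_pos hx
  have v0 := InvDeg_pos hv
  have h1 : s • (((3 / 2 - ‖x‖) / ‖x‖) • x - ((3 / 2 - ‖v‖) / ‖v‖) • v) +
      (1 - s) • (ℝ ∙ v)ᗮ.reflection (x - v) = 0 := by
    apply ι.injective
    simpa only [invS, map_add, map_smul, map_sub, map_zero] using h
  obtain ⟨μ, rfl⟩ : ∃ μ : ℝ, x = μ • v := by
    rw [Submodule.reflection_orthogonal_apply, Submodule.reflection_singleton_apply] at h1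
    generalize inner ℝ v (x - v) / ((‖v‖ : ℝ) : ℝ) ^ 2 = k at h1
    have ha : 0 < (3 / 2 - ‖x‖) / ‖x‖ := div_pos (by linarith [hx.2]) x0
    generalize (3 / 2 - ‖x‖) / ‖x‖ = a at h1 ha
    generalize (3 / 2 - ‖v‖) / ‖v‖ = b at h1
    have hl : 0 < s * a + (1 - s) := by
      rcases hs.1.eq_or_lt with h0 | h0
      · rw [← h0]
        norm_num
      · have := mul_pos h0 ha
        linarith [hs.2]
    refine ⟨(s * a + (1 - s))⁻¹ * (s * b + (1 - s) * (1 + 2 * k)), ?_⟩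
    rw [mul_smul, eq_inv_smul_iff₀ hl.ne']
    linear_combination (norm := module) h1
  have hμ : 0 < μ := by
    rw [inner_smul_right, real_inner_self_eq_norm_sq] at hp
    exact (mul_pos_iff_of_pos_right (by positivity)).1 hp
  have e1 : (ℝ ∙ v)ᗮ.reflection (μ • v - v) = (1 - μ) • v := by
    rw [map_sub, map_smul, Submodule.reflection_orthogonalComplement_singleton_eq_neg]
    module
  have e2 : ((3 / 2 - ‖μ • v‖) / ‖μ • v‖) • μ • v - ((3 / 2 - ‖v‖) / ‖v‖) • v = (1 - μ) • v := by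
    rw [norm_smul, Real.norm_of_nonneg hμ.le, smul_smul, ← sub_smul]
    congr 1
    field_simp
    ring
  rw [e1, e2, ← add_smul, add_sub_cancel, one_smul, smul_eq_zero] at h1
  rcases h1 with h1 | h1
  · rw [← sub_eq_zero.1 h1, one_smul]
  · exact absurd h1 (norm_pos_iff.1 v0)

theorem invDeg_stmt (B : Bas1) (hRefl : ReflStmt) : InvDegStmt := by
  intro ι hι v hv z hz hd
  obtain ⟨κ⟩ := B.kit
  have v0 : v ≠ 0 := norm_pos_iff.1 (InvDeg_pos hv)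
  have ho : IsOpen shell :=
    (isOpen_lt continuous_const continuous_norm).inter (isOpen_lt continuous_norm continuous_const)
  have hU : IsOpen (shell ∩ {x : E 4 | 0 < inner ℝ v x}) :=
    ho.inter (isOpen_lt continuous_const (by fun_prop))
  have hd' : dT ℤ _ z ∈ CH ℤ (shell ∩ {v}ᶜ) := by
    rw [CH_inter]
    exact ⟨dT_mem_CH hz.1, hd⟩
  obtain ⟨z', hz', w, hw, h⟩ := InvDeg_exc hU (ho.inter isOpen_compl_singleton)
    (W := shell) (fun x hx => by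
      by_cases e : x = v
      · exact Or.inl ⟨hx, by rw [e]; exact real_inner_self_pos.2 v0⟩
      · exact Or.inr ⟨hx, e⟩) hz hd'
  have hd2 : dT ℤ _ z' ∈ CH ℤ ((shell ∩ {x : E 4 | 0 < inner ℝ v x}) ∩ (shell ∩ {v}ᶜ)) := by
    rw [CH_inter]
    refine ⟨dT_mem_CH hz'.1, ?_⟩
    have := add_mem (dT_mem_CH h) hd'
    rwa [map_sub, map_sub, dT_dT, sub_zero, sub_add_cancel] at this
  have r1 := InvDeg_psh (f := fun x => invS ι x - invS ι v) (y := 0)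
    ((InvDeg_cont ι).sub continuousOn_const)
    (fun x hx e => hx.2 (InvDeg_inj ι hx.1 hv (sub_eq_zero.1 e))) hw h
  have r2 := InvDeg_psh (f := fun x => x - v) (y := 0) (by fun_prop)
    (fun x hx e => hx.2 (sub_eq_zero.1 e)) hw h
  have r3 := InvDeg_hop κ (y := 0) (H := fun q : ℝ × E 4 => q.1 • (invS ι q.2 - invS ι v) +
      (1 - q.1) • ι ((ℝ ∙ v)ᗮ.reflection (q.2 - v)))
    (((continuous_fst.continuousOn.smul (((InvDeg_cont ι).comp continuous_snd.continuousOn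
      fun q hq => hq.2.1).sub continuousOn_const))).add (by fun_prop))
    (fun q hq e => hq.2.2.2 (InvDeg_ne ι hq.2.1.1 hv hq.2.1.2 hq.1 e)) hz'.1 hd2
  simp only [one_smul, zero_smul, sub_self, sub_zero, add_zero, zero_add] at r3
  have hc : Continuous fun x : E 4 => x - v := by fun_prop
  have r4 := hRefl ((ℝ ∙ v)ᗮ.reflection.trans ι) (LinearIsometryEquiv.refl ℝ _) (by
      have e : (((ℝ ∙ v)ᗮ.reflection.trans ι).toLinearEquiv : E 4 →ₗ[ℝ] E 4) =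
          (ι.toLinearEquiv : E 4 →ₗ[ℝ] E 4) ∘ₗ (ℝ ∙ v)ᗮ.reflection.toLinearMap := rfl
      rw [e, LinearMap.det_comp, hι, Submodule.det_reflection, Submodule.orthogonal_orthogonal,
        finrank_span_singleton v0]
      have e' : ((LinearIsometryEquiv.refl ℝ (E 4)).toLinearEquiv : E 4 →ₗ[ℝ] E 4) =
          LinearMap.id := rfl
      rw [e', LinearMap.det_id]
      norm_num)
    (psh ℤ (fun x => x - v) z') (psh_mem_DG _ hz'.2) (by
      rw [dT_psh_cont hc]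
      exact psh_mem_CH _ (fun x hx e => hx.2.2 (sub_eq_zero.1 e)) hd2)
  rw [psh_psh' _ hc, psh_psh' _ hc] at r4
  exact InvDeg_trans (InvDeg_symm r1) (InvDeg_trans r3 (InvDeg_trans r4 r2))

end Pool.Agent.MP_bc14e1_gt

end

section

open Set Metric
open scoped Classical

namespace Pool.Agent.MP_bc14e1_gt

section
variable {X Y : Type} [TopologicalSpace X] [TopologicalSpace Y]

theorem ChOri_symm {x : X} {a b : Tot ℤ X} (h : RelEq ℤ x a b) : RelEq ℤ x b a := by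
  obtain ⟨w, hw⟩ := h
  refine ⟨-w, ?_⟩
  have := neg_mem hw
  rwa [show -(a - b - dT ℤ X w) = b - a - dT ℤ X (-w) by rw [map_neg]; abel] at this

theorem ChOri_trans {x : X} {a b c : Tot ℤ X} (h : RelEq ℤ x a b) (h' : RelEq ℤ x b c) :
    RelEq ℤ x a c := by
  obtain ⟨w, hw⟩ := h
  obtain ⟨w', hw'⟩ := h'
  refine ⟨w + w', ?_⟩
  have := add_mem hw hw'
  rwa [show a - b - dT ℤ X w + (b - c - dT ℤ X w') = a - c - dT ℤ X (w + w') by
    rw [map_add]; abel] at this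

theorem ChOri_psh [T1Space X] {U : Set X} (hU : IsOpen U) {x : X} (hx : x ∈ U) {y : Y}
    {f : X → Y} (hf : ContinuousOn f U) (hm : ∀ u ∈ U, f u = y → u = x) {a b : Tot ℤ X}
    (ha : a ∈ CH ℤ U) (hb : b ∈ CH ℤ U) (h : RelEq ℤ x a b) :
    RelEq ℤ y (psh ℤ f a) (psh ℤ f b) := by
  obtain ⟨w, hw⟩ := h
  obtain ⟨w', h1, h2⟩ := exc_inj isClosed_singleton hU (singleton_subset_iff.2 hx)
    (sub_mem ha hb) hw
  refine ⟨psh ℤ f w', ?_⟩
  rw [dT_psh hf h1, ← map_sub, ← map_sub]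
  refine psh_mem_CH f (fun u hu => ?_) h2
  exact fun e => hu.2 (hm u hu.1 e)

variable (c : OpenPartialHomeomorph X (E 4))

theorem ChOri_cont (v : E 4) : ContinuousOn (fun w => c w - v) c.source :=
  c.continuousOn.sub continuousOn_const

theorem ChOri_iff [T1Space X] {v : E 4} (hv : v ∈ c.target) {a b : Tot ℤ X}
    (ha : a ∈ CH ℤ c.source) (hb : b ∈ CH ℤ c.source) : RelEq ℤ (c.symm v) a b ↔
      RelEq ℤ 0 (psh ℤ (fun w => c w - v) a) (psh ℤ (fun w => c w - v) b) := by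
  refine ⟨ChOri_psh c.open_source (c.map_target hv) (ChOri_cont c v) (fun u hu e => ?_) ha hb,
    fun h => ?_⟩
  · rw [← sub_eq_zero.1 e, c.left_inv hu]
  have hm : MapsTo (fun w => c w - v) c.source ((fun x => x + v) ⁻¹' c.target) := fun u hu => by
    simpa using c.map_source hu
  have h1 := ChOri_psh (y := c.symm v) (f := fun x => c.symm (x + v))
    (c.open_target.preimage (continuous_add_const v)) (by simpa using hv)
    (c.continuousOn_symm.comp (continuous_add_const v).continuousOn fun _ h => h)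
    (fun u hu e => by simpa using c.symm.injOn hu hv e) (psh_mem_CH _ hm ha) (psh_mem_CH _ hm hb) h
  have h2 : ∀ x ∈ c.source, ((fun x => c.symm (x + v)) ∘ fun w => c w - v) x = x :=
    fun x hx => by simpa using c.left_inv hx
  rwa [psh_psh _ (ChOri_cont c v) ha, psh_psh _ (ChOri_cont c v) hb, psh_of_eqOn_id h2 ha,
    psh_of_eqOn_id h2 hb] at h1

/-- the chain `z₀` represents the orientation at `v` -/
def ChOri_N (o : Orientation4 X) (v : E 4) (z₀ : Tot ℤ (E 4)) : Prop :=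
  ∃ z ∈ CH ℤ c.source, RelEq ℤ (c.symm v) z (inc ℤ 4 (o.o (c.symm v))) ∧
    RelEq ℤ 0 (psh ℤ (fun w => c w - v) z) z₀

theorem ChOri_loc (κ : Kit) [T2Space X] (o : Orientation4 X) {v : E 4} (hv : v ∈ c.target) :
    ∃ z₀, ∀ᶠ v' in nhds v, ChOri_N c o v' z₀ := by
  obtain ⟨U, hU, w, hw, hq⟩ := o.loc (c.symm v)
  obtain ⟨ε, hε, hB⟩ := nhds_basis_closedBall.mem_iff.1
    (Filter.inter_mem (c.open_target.mem_nhds hv) (c.continuousAt_symm hv hU))
  have hA : IsCompact (c.symm '' closedBall v ε) := (isCompact_closedBall v ε).image_of_continuousOn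
    (c.continuousOn_symm.mono fun x hx => (hB hx).1)
  have hAU : c.symm '' closedBall v ε ⊆ U := by
    rintro _ ⟨x, hx, rfl⟩
    exact (hB hx).2
  have hd : dT ℤ X (inc ℤ 4 w) ∈ CH ℤ (c.symm '' closedBall v ε)ᶜ := by
    rw [dT_inc_succ]
    exact CH_mono (compl_subset_compl.2 hAU) (inc_mem_CH.2 hw)
  obtain ⟨z, hz, w', hw'⟩ := exc_surj hA.isClosed c.open_source (by
    rintro _ ⟨x, hx, rfl⟩
    exact c.map_target (hB hx).1) (inc_mem_DG 4 w) hd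
  have hdz : dT ℤ X z ∈ CH ℤ (c.source ∩ (c.symm '' closedBall v ε)ᶜ) := by
    rw [CH_inter]
    refine ⟨dT_mem_CH hz.1, ?_⟩
    have := add_mem (dT_mem_CH hw') hd
    rwa [map_sub, map_sub, dT_dT, sub_zero, sub_add_cancel] at this
  refine ⟨psh ℤ (fun w => c w - v) z, ?_⟩
  filter_upwards [closedBall_mem_nhds v hε] with v' hv'
  have hq' : c.symm v' ∈ c.symm '' closedBall v ε := mem_image_of_mem _ hv'
  refine ⟨z, hz.1, ChOri_trans ⟨w', CH_mono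
    (compl_subset_compl.2 (singleton_subset_iff.2 hq')) hw'⟩ ?_, ?_⟩
  · obtain ⟨b, -, hb⟩ := hq _ (hAU hq')
    refine ⟨inc ℤ 5 b, ?_⟩
    rw [dT_inc_succ, ← map_sub, ← map_sub]
    exact inc_mem_CH.2 hb
  · have hH : ContinuousOn (fun x : ℝ × X => c x.2 - ((1 - x.1) • v + x.1 • v'))
        (Icc 0 1 ×ˢ c.source) :=
      (c.continuousOn.comp continuousOn_snd fun _ h => h.2).sub (by fun_prop)
    have e := dT_hop κ hH hz.1
    simp only [sub_self, zero_smul, one_smul, zero_add, sub_zero, add_zero] at e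
    refine ⟨hop κ ℤ (fun x : ℝ × X => c x.2 - ((1 - x.1) • v + x.1 • v')) z, ?_⟩
    rw [← e, add_sub_cancel_left]
    refine hop_mem_CH κ _ (fun x hx e => hx.2.2 ⟨c x.2, ?_, c.left_inv hx.2.1⟩) hdz
    rw [sub_eq_zero.1 e]
    exact convex_closedBall v ε (mem_closedBall_self hε.le) hv' (sub_nonneg.2 hx.1.2) hx.1.1
      (sub_add_cancel _ _)

theorem ChOri_use [T1Space X] {o : Orientation4 X} {v : E 4} (hv : v ∈ c.target)
    {z₀ : Tot ℤ (E 4)} (h : ChOri_N c o v z₀) {z : Tot ℤ X} (hz : z ∈ CH ℤ c.source) :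
    RelEq ℤ (c.symm v) z (inc ℤ 4 (o.o (c.symm v))) ↔
      RelEq ℤ 0 (psh ℤ (fun w => c w - v) z) z₀ := by
  obtain ⟨z', h1, h2, h3⟩ := h
  exact ⟨fun h => ChOri_trans ((ChOri_iff c hv hz h1).1 (ChOri_trans h (ChOri_symm h2))) h3,
    fun h => ChOri_trans ((ChOri_iff c hv hz h1).2 (ChOri_trans h (ChOri_symm h3))) h2⟩

theorem ChOri_move [T1Space X] {o : Orientation4 X} {v v' : E 4} (hv : v ∈ c.target)
    {z₀ z₁ : Tot ℤ (E 4)} (h : ChOri_N c o v z₁) (h' : ChOri_N c o v' z₁)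
    (h0 : ChOri_N c o v z₀) : ChOri_N c o v' z₀ := by
  obtain ⟨z, h1, h2, h3⟩ := h
  obtain ⟨z', h4, h5, h6⟩ := h'
  exact ⟨z', h4, h5, ChOri_trans h6 (ChOri_trans (ChOri_symm h3) ((ChOri_use c hv h0 h1).1 h2))⟩

end

theorem chOri_stmt (B : Bas1) : ChOriStmt := by
  intro W _ _ o c T hT hc
  obtain ⟨κ⟩ := B.kit
  rcases T.eq_empty_or_nonempty with rfl | ⟨v₀, hv₀⟩
  · exact ⟨0, fun v hv => hv.elim⟩
  obtain ⟨z₀, h0⟩ := ChOri_loc c κ o (hT hv₀)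
  refine ⟨z₀, fun v hv z hz _ => ChOri_use c (hT hv) ?_ hz.1⟩
  refine hc.induction₂' (fun x y => ∀ z₀, ChOri_N c o x z₀ → ChOri_N c o y z₀) (fun x hx => ?_)
    (fun x y z _ _ _ h h' z₀ h0 => h' z₀ (h z₀ h0)) hv₀ hv z₀ h0.self_of_nhds
  obtain ⟨z₁, h1⟩ := ChOri_loc c κ o (hT hx)
  filter_upwards [mem_nhdsWithin_of_mem_nhds h1, self_mem_nhdsWithin] with y hy hyT
  exact ⟨fun z₀ => ChOri_move c (hT hx) h1.self_of_nhds hy,
    fun z₀ => ChOri_move c (hT hyT) hy h1.self_of_nhds⟩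

end Pool.Agent.MP_bc14e1_gt

end

section

open Set Metric
open scoped Classical

namespace Pool.Agent.MP_bc14e1_gt

section

variable {X Y : Type} [TopologicalSpace X] [TopologicalSpace Y]

theorem OriGlue_null {B : Set X} {a : Sing X 4 →₀ ℤ} :
    Null univ B 4 a ↔ ∃ w, inc ℤ 4 a - dT ℤ X w ∈ CH ℤ B := by
  constructor
  · rintro ⟨b, -, h⟩
    exact ⟨inc ℤ 5 b, by rw [dT_inc_succ, ← map_sub]; exact inc_mem_CH.2 h⟩
  · rintro ⟨w, h⟩
    obtain ⟨b, hb⟩ := exists_inc (deg_mem 5 w)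
    have h' := deg_mem_CH 4 h
    rw [map_sub, deg_of_mem (inc_mem_DG 4 a), deg_dT, ← hb, dT_inc_succ, ← map_sub] at h'
    exact ⟨b, inc_mem_CH.1 (mem_CH_univ _), inc_mem_CH.1 h'⟩

theorem OriGlue_null_rel {x : X} {a b : Sing X 4 →₀ ℤ} :
    Null univ {x}ᶜ 4 (a - b) ↔ RelEq ℤ x (inc ℤ 4 a) (inc ℤ 4 b) := by
  rw [OriGlue_null, map_sub]
  rfl

theorem OriGlue_bd {B : Set X} {a : Sing X 4 →₀ ℤ} :
    bd ℤ X 3 a ∈ supp ℤ B 3 ↔ dT ℤ X (inc ℤ 4 a) ∈ CH ℤ B := by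
  rw [dT_inc_succ, inc_mem_CH]

theorem OriGlue_refl (x : X) (a : Tot ℤ X) : RelEq ℤ x a a := ⟨0, by simp⟩

theorem OriGlue_symm {x : X} {a b : Tot ℤ X} (h : RelEq ℤ x a b) : RelEq ℤ x b a := by
  obtain ⟨w, h⟩ := h
  refine ⟨-w, ?_⟩
  have := neg_mem h
  convert this using 1
  rw [map_neg]; abel

theorem OriGlue_trans {x : X} {a b c : Tot ℤ X} (h : RelEq ℤ x a b) (h' : RelEq ℤ x b c) :
    RelEq ℤ x a c := by
  obtain ⟨w, h⟩ := h
  obtain ⟨w', h'⟩ := h'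
  refine ⟨w + w', ?_⟩
  have := add_mem h h'
  convert this using 1
  rw [map_add]; abel

theorem OriGlue_smul {x : X} {a b : Tot ℤ X} (n : ℤ) (h : RelEq ℤ x a b) :
    RelEq ℤ x (n • a) (n • b) := by
  obtain ⟨w, h⟩ := h
  refine ⟨n • w, ?_⟩
  have := Submodule.smul_mem _ n h
  rwa [smul_sub, smul_sub, ← map_smul] at this

theorem OriGlue_dT {B : Set X} {a b w : Tot ℤ X} (h : a - b - dT ℤ X w ∈ CH ℤ B)
    (hb : dT ℤ X b ∈ CH ℤ B) : dT ℤ X a ∈ CH ℤ B := by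
  have := add_mem (dT_mem_CH h) hb
  rwa [map_sub, map_sub, dT_dT, sub_zero, sub_add_cancel] at this

theorem OriGlue_dT' {x : X} {a b : Tot ℤ X} (h : RelEq ℤ x a b)
    (hb : dT ℤ X b ∈ CH ℤ {x}ᶜ) : dT ℤ X a ∈ CH ℤ {x}ᶜ := OriGlue_dT h.choose_spec hb

theorem OriGlue_maps (e : OpenPartialHomeomorph X Y) {B : Set X} (hB : B ⊆ e.source) :
    MapsTo e (e.source ∩ Bᶜ) (e '' B)ᶜ := by
  rintro x ⟨hx, hxB⟩ ⟨b, hb, h⟩
  exact hxB (e.injOn (hB hb) hx h ▸ hb)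

theorem OriGlue_psh_dT (e : OpenPartialHomeomorph X Y) {B : Set X} (hB : B ⊆ e.source)
    {z : Tot ℤ X} (hz : z ∈ CH ℤ e.source) (hd : dT ℤ X z ∈ CH ℤ Bᶜ) :
    dT ℤ Y (psh ℤ e z) ∈ CH ℤ (e '' B)ᶜ := by
  rw [dT_psh e.continuousOn hz]
  exact psh_mem_CH _ (OriGlue_maps e hB) (by rw [CH_inter]; exact ⟨dT_mem_CH hz, hd⟩)

theorem OriGlue_push [T1Space X] (e : OpenPartialHomeomorph X Y) {w : X} (hw : w ∈ e.source)
    {z z' : Tot ℤ X} (hz : z ∈ CH ℤ e.source) (hz' : z' ∈ CH ℤ e.source) (h : RelEq ℤ w z z') :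
    RelEq ℤ (e w) (psh ℤ e z) (psh ℤ e z') := by
  obtain ⟨v, h⟩ := h
  obtain ⟨v', hv', h'⟩ := exc_inj isClosed_singleton e.open_source (singleton_subset_iff.2 hw)
    (sub_mem hz hz') h
  refine ⟨psh ℤ e v', ?_⟩
  have := psh_mem_CH e (OriGlue_maps e (singleton_subset_iff.2 hw)) h'
  rwa [map_sub, map_sub, ← dT_psh e.continuousOn hv', image_singleton] at this

theorem OriGlue_back (e : OpenPartialHomeomorph X Y) {z : Tot ℤ X} (hz : z ∈ CH ℤ e.source) :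
    psh ℤ e.symm (psh ℤ e z) = z := by
  rw [psh_psh _ e.continuousOn hz]
  exact psh_of_eqOn_id (fun x hx => e.left_inv hx) hz

theorem OriGlue_push_iff [T1Space X] [T1Space Y] (e : OpenPartialHomeomorph X Y) {w : X}
    (hw : w ∈ e.source) {z z' : Tot ℤ X} (hz : z ∈ CH ℤ e.source) (hz' : z' ∈ CH ℤ e.source) :
    RelEq ℤ (e w) (psh ℤ e z) (psh ℤ e z') ↔ RelEq ℤ w z z' := by
  refine ⟨fun h => ?_, OriGlue_push e hw hz hz'⟩
  have := OriGlue_push e.symm (e.map_source hw) (psh_mem_CH e e.mapsTo hz)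
    (psh_mem_CH e e.mapsTo hz') h
  rwa [OriGlue_back e hz, OriGlue_back e hz', e.left_inv hw] at this

theorem OriGlue_homeo (I : X ≃ₜ Y) {x : X} {a b : Tot ℤ X} (h : RelEq ℤ x a b) :
    RelEq ℤ (I x) (psh ℤ I a) (psh ℤ I b) := by
  obtain ⟨v, h⟩ := h
  refine ⟨psh ℤ I v, ?_⟩
  have := psh_mem_CH I (A := {x}ᶜ) (B := {I x}ᶜ) (fun y hy h => hy (I.injective h)) h
  rwa [map_sub, map_sub, ← dT_psh_cont I.continuous] at this

/-- Generators of the local homology. -/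
def OriGlue_Gen (x : X) (g : Tot ℤ X) : Prop :=
  dT ℤ X g ∈ CH ℤ {x}ᶜ ∧ ∀ c ∈ DG ℤ X 4, dT ℤ X c ∈ CH ℤ {x}ᶜ → ∃! n : ℤ, RelEq ℤ x c (n • g)

theorem OriGlue_gen_o (o : Orientation4 X) (x : X) : OriGlue_Gen x (inc ℤ 4 (o.o x)) := by
  refine ⟨OriGlue_bd.1 (o.rel x), fun c hc hd => ?_⟩
  obtain ⟨b, rfl⟩ := exists_inc hc
  have := o.gen x b (OriGlue_bd.2 hd)
  simpa only [OriGlue_null_rel, map_smul] using this

theorem OriGlue_gen_push [T1Space X] [T1Space Y] (e : OpenPartialHomeomorph X Y) {w : X}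
    (hw : w ∈ e.source) {g z : Tot ℤ X} (hg : OriGlue_Gen w g) (hz : z ∈ CH ℤ e.source)
    (h : RelEq ℤ w z g) : OriGlue_Gen (e w) (psh ℤ e z) := by
  refine ⟨?_, fun c hc hd => ?_⟩
  · have := OriGlue_psh_dT e (singleton_subset_iff.2 hw) hz (OriGlue_dT' h hg.1)
    rwa [image_singleton] at this
  obtain ⟨c', hc', hr⟩ := exc_surj isClosed_singleton e.open_target
    (singleton_subset_iff.2 (e.map_source hw)) hc hd
  have hr : RelEq ℤ (e w) c' c := hr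
  have m : psh ℤ e.symm c' ∈ CH ℤ e.source := psh_mem_CH _ e.symm_mapsTo hc'.1
  have hd' : dT ℤ X (psh ℤ e.symm c') ∈ CH ℤ {w}ᶜ := by
    have := OriGlue_psh_dT e.symm (singleton_subset_iff.2 (e.map_source hw)) hc'.1
      (OriGlue_dT' hr hd)
    rwa [image_singleton, e.left_inv hw] at this
  have e1 : psh ℤ e (psh ℤ e.symm c') = c' := OriGlue_back e.symm hc'.1
  have key : ∀ n : ℤ, RelEq ℤ (e w) c (n • psh ℤ e z) ↔ RelEq ℤ w (psh ℤ e.symm c') (n • g) := by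
    intro n
    have := OriGlue_push_iff e hw m (Submodule.smul_mem _ n hz)
    rw [e1, map_smul] at this
    constructor
    · intro h'
      exact OriGlue_trans (this.1 (OriGlue_trans hr h')) (OriGlue_smul n h)
    · intro h'
      exact OriGlue_trans (OriGlue_symm hr)
        (this.2 (OriGlue_trans h' (OriGlue_symm (OriGlue_smul n h))))
  simp only [key]
  exact hg.2 _ (psh_mem_DG _ hc'.2) hd'

end

theorem oriGlue_stmt : OriGlueStmt := by
  intro W X _ _ _ _ _ o i I hII hcov hgl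
  have ex : ∀ w : W, ∃ z ∈ DG ℤ W 4, w ∈ i.source →
      z ∈ CH ℤ i.source ∧ RelEq ℤ w z (inc ℤ 4 (o.o w)) := by
    intro w
    by_cases hw : w ∈ i.source
    · obtain ⟨z, hz, h⟩ := exc_surj isClosed_singleton i.open_source (singleton_subset_iff.2 hw)
        (inc_mem_DG 4 (o.o w)) (OriGlue_gen_o o w).1
      exact ⟨z, hz.2, fun _ => ⟨hz.1, h⟩⟩
    · exact ⟨0, zero_mem _, fun h => (hw h).elim⟩
  choose zW zD zS using ex
  let g : X → Tot ℤ X := fun x => psh ℤ i (zW (i.symm x))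
  let oT : X → Tot ℤ X := fun x => if x ∈ i.target then g x else psh ℤ I (g (I x))
  have oD : ∀ x, oT x ∈ DG ℤ X 4 := by
    intro x
    simp only [oT]
    split_ifs
    · exact psh_mem_DG _ (zD _)
    · exact psh_mem_DG _ (psh_mem_DG _ (zD _))
  have o1 : ∀ x ∈ i.target, oT x = g x := fun x hx => if_pos hx
  have o2 : ∀ x ∉ i.target, oT x = psh ℤ I (g (I x)) := fun x hx => if_neg hx
  have gG : ∀ x ∈ i.target, OriGlue_Gen x (g x) := by
    intro x hx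
    have hw := i.map_target hx
    have := OriGlue_gen_push i hw (OriGlue_gen_o o _) (zS _ hw).1 (zS _ hw).2
    rwa [i.right_inv hx] at this
  have oG : ∀ x, OriGlue_Gen x (oT x) := by
    intro x
    by_cases hx : x ∈ i.target
    · rw [o1 x hx]; exact gG x hx
    · have := OriGlue_gen_push I.toOpenPartialHomeomorph (w := I x) (mem_univ _)
        (gG _ ((hcov x).resolve_left hx)) (mem_CH_univ _) (OriGlue_refl _ _)
      rw [o2 x hx]
      have e : I.toOpenPartialHomeomorph (I x) = x := hII x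
      rwa [e] at this
  have oc : ∀ w ∈ i.source, ∀ z ∈ CH ℤ i.source, RelEq ℤ w z (inc ℤ 4 (o.o w)) →
      RelEq ℤ (i w) (psh ℤ i z) (oT (i w)) := by
    intro w hw z hz h
    rw [o1 _ (i.map_source hw)]
    simp only [g, i.left_inv hw]
    exact OriGlue_push i hw hz (zS w hw).1 (OriGlue_trans h (OriGlue_symm (zS w hw).2))
  have pres : ∀ x, RelEq ℤ (I x) (psh ℤ I (oT x)) (oT (I x)) := by
    intro x
    by_cases hx : x ∈ i.target
    · by_cases hx' : I x ∈ i.target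
      · obtain ⟨z, hz, z', hz', h, h', e⟩ := hgl _ (i.map_target hx) _ (i.map_target hx')
          (by rw [i.right_inv hx, i.right_inv hx'])
        have a := oc _ (i.map_target hx) z hz.1 h
        have b := oc _ (i.map_target hx') z' hz'.1 h'
        rw [i.right_inv hx] at a
        rw [i.right_inv hx', ← e] at b
        exact OriGlue_trans (OriGlue_symm (OriGlue_homeo I a)) b
      · rw [o2 _ hx', hII, o1 x hx]
        exact OriGlue_refl _ _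
    · rw [o2 x hx, o1 _ ((hcov x).resolve_left hx), psh_psh' _ I.continuous,
        psh_of_eqOn_id (f := I ∘ I) (A := univ) (fun y _ => hII y) (mem_CH_univ _)]
      exact OriGlue_refl _ _
  have loc1 : ∀ x ∈ i.target, ∃ U ∈ nhds x, ∃ v ∈ DG ℤ X 4, dT ℤ X v ∈ CH ℤ Uᶜ ∧
      ∀ q ∈ U, RelEq ℤ q v (oT q) := by
    intro x hx
    have hw := i.map_target hx
    obtain ⟨U, hU, v, hv, hq⟩ := o.loc (i.symm x)
    obtain ⟨B, hB, hBs, hBc⟩ := local_compact_nhds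
      (Filter.inter_mem hU (i.open_source.mem_nhds hw))
    have hBU : B ⊆ U := fun b hb => (hBs hb).1
    have hBS : B ⊆ i.source := fun b hb => (hBs hb).2
    have hv' : dT ℤ W (inc ℤ 4 v) ∈ CH ℤ Bᶜ :=
      CH_mono (compl_subset_compl.2 hBU) (OriGlue_bd.1 hv)
    obtain ⟨z, hz, u, hu⟩ := exc_surj hBc.isClosed i.open_source hBS (inc_mem_DG 4 v) hv'
    refine ⟨i '' B, ?_, psh ℤ i z, psh_mem_DG _ hz.2,
      OriGlue_psh_dT i hBS hz.1 (OriGlue_dT hu hv'), ?_⟩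
    · have := i.image_mem_nhds hw hB
      rwa [i.right_inv hx] at this
    · rintro _ ⟨b, hb, rfl⟩
      refine oc b (hBS hb) z hz.1 (OriGlue_trans ⟨u, ?_⟩ (OriGlue_null_rel.1 (hq b (hBU hb))))
      exact CH_mono (compl_subset_compl.2 (singleton_subset_iff.2 hb)) hu
  have loc : ∀ x, ∃ U ∈ nhds x, ∃ v ∈ DG ℤ X 4, dT ℤ X v ∈ CH ℤ Uᶜ ∧
      ∀ q ∈ U, RelEq ℤ q v (oT q) := by
    intro x
    rcases hcov x with hx | hx
    · exact loc1 x hx
    obtain ⟨U, hU, v, hv, hd, hq⟩ := loc1 _ hx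
    refine ⟨I ⁻¹' U, I.continuous.continuousAt.preimage_mem_nhds hU, psh ℤ I v,
      psh_mem_DG _ hv, ?_, fun q hqU => ?_⟩
    · rw [dT_psh_cont I.continuous]
      refine psh_mem_CH I (A := Uᶜ) ?_ hd
      intro y hy h
      rw [mem_preimage, hII] at h
      exact hy h
    · have := OriGlue_trans (OriGlue_homeo I (hq _ hqU)) (pres (I q))
      rwa [hII] at this
  choose o' ho' using fun x => exists_inc (oD x)
  refine ⟨⟨o', fun p => OriGlue_bd.2 (by rw [ho']; exact (oG p).1), fun p c hc => ?_,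
    fun p => ?_⟩, fun x => ?_, fun w hw z hz h => ?_⟩
  · have := (oG p).2 _ (inc_mem_DG 4 c) (OriGlue_bd.1 hc)
    simpa only [OriGlue_null_rel, map_smul, ho'] using this
  · obtain ⟨U, hU, v, hv, hd, hq⟩ := loc p
    obtain ⟨b, rfl⟩ := exists_inc hv
    exact ⟨U, hU, b, OriGlue_bd.2 hd, fun q h => OriGlue_null_rel.2 (by rw [ho']; exact hq q h)⟩
  · refine OriGlue_null_rel.2 ?_
    rw [← psh_inc]
    simp only [ho']
    exact pres x
  · simp only [ho']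
    exact oc w hw z hz.1 h

end Pool.Agent.MP_bc14e1_gt

end

section

open Set Metric
open scoped Classical

namespace Pool.Agent.MP_bc14e1_gt

theorem GOri_norm (ι : E 4 ≃ₗᵢ[ℝ] E 4) {v : E 4} (hv : v ∈ shell) :
    ‖invS ι v‖ = 3 / 2 - ‖v‖ := by
  obtain ⟨h1, h2⟩ := hv
  have h3 : 0 < ‖v‖ := by linarith
  rw [invS, norm_smul, ι.norm_map, Real.norm_of_nonneg (div_nonneg (by linarith) h3.le),
    div_mul_cancel₀ _ h3.ne']

theorem GOri_maps (ι : E 4 ≃ₗᵢ[ℝ] E 4) {v : E 4} (hv : v ∈ shell) : invS ι v ∈ shell := by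
  have := GOri_norm ι hv
  obtain ⟨h1, h2⟩ := hv
  exact ⟨by linarith, by linarith⟩

theorem GOri_inv (ι : E 4 ≃ₗᵢ[ℝ] E 4) (hι : ∀ x, ι (ι x) = x) {v : E 4} (hv : v ∈ shell) :
    invS ι (invS ι v) = v := by
  have h := GOri_norm ι hv
  obtain ⟨h1, h2⟩ := hv
  have h3 : ‖v‖ ≠ 0 := by linarith
  have h4 : 3 / 2 - ‖v‖ ≠ 0 := by linarith
  rw [invS, h, invS, map_smul, hι, smul_smul]
  have : (3 / 2 - (3 / 2 - ‖v‖)) / (3 / 2 - ‖v‖) * ((3 / 2 - ‖v‖) / ‖v‖) = 1 := by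
    rw [sub_sub_cancel, div_mul_div_cancel₀ h4, div_self h3]
  rw [this, one_smul]

theorem GOri_cont (ι : E 4 ≃ₗᵢ[ℝ] E 4) : ContinuousOn (invS ι) shell :=
  ((continuousOn_const.sub continuous_norm.continuousOn).div continuous_norm.continuousOn
    fun v hv => by linarith [hv.1]).smul ι.continuous.continuousOn

theorem GOri_open : IsOpen shell :=
  (isOpen_lt continuous_const continuous_norm).inter (isOpen_lt continuous_norm continuous_const)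

theorem GOri_conn : IsPreconnected shell := by
  have h : shell = (fun p : ℝ × E 4 => p.1 • p.2) '' (Ioo (1 / 2) 1 ×ˢ sphere 0 1) := by
    ext v
    constructor
    · intro hv
      have h3 : ‖v‖ ≠ 0 := by linarith [hv.1]
      exact ⟨(‖v‖, ‖v‖⁻¹ • v), ⟨hv, by simp [norm_smul, h3]⟩, by simp [smul_smul, h3]⟩
    · rintro ⟨⟨r, u⟩, ⟨h1, h2⟩, rfl⟩
      have h3 : ‖r • u‖ = r := by
        rw [norm_smul, mem_sphere_zero_iff_norm.1 h2, mul_one,
          Real.norm_of_nonneg (by linarith [h1.1])]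
      exact ⟨h3.symm ▸ h1.1, h3.symm ▸ h1.2⟩
  rw [h]
  refine (isPreconnected_Ioo.prod (isPreconnected_sphere ?_ _ _)).image _ (by fun_prop)
  rw [← Module.finrank_eq_rank, finrank_euclideanSpace_fin]
  norm_num

theorem GOri_trans {X : Type} [TopologicalSpace X] {x : X} {a b c : Tot ℤ X} (h : RelEq ℤ x a b)
    (h' : RelEq ℤ x b c) : RelEq ℤ x a c := by
  obtain ⟨w, h⟩ := h
  obtain ⟨w', h'⟩ := h'
  refine ⟨w + w', ?_⟩
  convert add_mem h h' using 1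
  rw [map_add]
  abel

theorem gOri_stmt (B : Bas1) (hInvDeg : InvDegStmt)
    (hChOri : ChOriStmt) (hOriGlue : OriGlueStmt) : GOriStmt := by
  intro K ι Z Γ _ hι hdet
  have := ChartedSpace.locallyCompactSpace (E 4) Z.W
  refine hOriGlue Z.W Γ.X Z.o Γ.i Γ.I Γ.II Γ.cover fun w hw w' hw' hI => ?_
  rw [Γ.src] at hw hw' ⊢
  obtain ⟨v, hv, rfl, rfl⟩ := (Γ.glue w hw w' hw').1 hI
  have ht : shell ⊆ Z.c.target := fun x hx => Z.tgt (mem_closedBall_zero_iff.2 hx.2.le)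
  have hs : Z.c.symm '' shell ⊆ Z.c.source := by
    rintro _ ⟨x, hx, rfl⟩
    exact Z.c.map_target (ht hx)
  have hU : Z.c.symm '' shell ⊆ Z.U1 := by
    rintro _ ⟨x, hx, rfl⟩ ⟨y, hy, e⟩
    rw [Z.c.symm.injOn (Z.tgt (closedBall_subset_closedBall (by norm_num) hy)) (ht hx) e,
      mem_closedBall_zero_iff] at hy
    exact absurd hx.1 (not_lt.2 hy)
  have hc : ∀ x ∈ shell, Z.c (Z.c.symm x) = x := fun x hx => Z.c.right_inv (ht hx)
  have hm : MapsTo Z.c (Z.c.symm '' shell) shell := by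
    rintro _ ⟨x, hx, rfl⟩
    rwa [hc x hx]
  have hcc : ContinuousOn Z.c (Z.c.symm '' shell) := Z.c.continuousOn.mono hs
  have hd0 : dT ℤ Z.W (inc ℤ 4 (Z.o.o (Z.c.symm v))) ∈ CH ℤ {Z.c.symm v}ᶜ := by
    rw [dT_inc_succ, inc_mem_CH]
    exact Z.o.rel _
  obtain ⟨z, hz, hr⟩ := exc_surj (A := {Z.c.symm v}) (U := Z.c.symm '' shell) isClosed_singleton
    (Z.c.isOpen_image_symm_of_subset_target GOri_open ht)
    (singleton_subset_iff.2 (mem_image_of_mem _ hv)) (inc_mem_DG 4 _) hd0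
  have hd : dT ℤ Z.W z ∈ CH ℤ {Z.c.symm v}ᶜ := by
    obtain ⟨u, hu⟩ := hr
    have := add_mem (dT_mem_CH hu) hd0
    simpa [dT_dT] using this
  have hd' : dT ℤ Z.W z ∈ CH ℤ (Z.c.symm '' shell ∩ {Z.c.symm v}ᶜ) := by
    rw [CH_inter]
    exact ⟨dT_mem_CH hz.1, hd⟩
  let G : Z.W → Z.W := fun x => Z.c.symm (invS ι (Z.c x))
  have hG : ContinuousOn G (Z.c.symm '' shell) :=
    Z.c.continuousOn_symm.comp ((GOri_cont ι).comp hcc hm) fun x hx => ht (GOri_maps ι (hm hx))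
  have hGm : MapsTo G (Z.c.symm '' shell) (Z.c.symm '' shell) :=
    fun x hx => mem_image_of_mem _ (GOri_maps ι (hm hx))
  have hz' : psh ℤ G z ∈ CH ℤ (Z.c.symm '' shell) := psh_mem_CH G hGm hz.1
  obtain ⟨z₀, h0⟩ := hChOri Z.W Z.o Z.c shell ht GOri_conn
  refine ⟨z, ⟨CH_mono hU hz.1, hz.2⟩, psh ℤ G z, ⟨CH_mono hU hz', psh_mem_DG G hz.2⟩, hr, ?_, ?_⟩
  · refine (h0 _ (GOri_maps ι hv) _ ⟨CH_mono hs hz', psh_mem_DG G hz.2⟩ ?_).2 ?_
    · rw [dT_psh hG hz.1]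
      refine psh_mem_CH G ?_ hd'
      rintro _ ⟨⟨x, hx, rfl⟩, h1⟩ h2
      simp only [G, hc x hx, mem_singleton_iff] at h2
      have h3 := congrArg (invS ι) (Z.c.symm.injOn (ht (GOri_maps ι hx)) (ht (GOri_maps ι hv)) h2)
      rw [GOri_inv ι hι hx, GOri_inv ι hι hv] at h3
      exact h1 (by rw [h3]; rfl)
    have h1 := hInvDeg ι hdet v hv (psh ℤ Z.c z) ⟨psh_mem_CH _ hm hz.1, psh_mem_DG _ hz.2⟩ (by
      rw [dT_psh hcc hz.1]
      refine psh_mem_CH _ ?_ hd'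
      rintro _ ⟨⟨x, hx, rfl⟩, h1⟩ h2
      rw [hc x hx, mem_singleton_iff] at h2
      exact h1 (by rw [h2]; rfl))
    rw [psh_psh _ hcc hz.1, psh_psh _ hcc hz.1] at h1
    rw [psh_psh _ hG hz.1, psh_congr (g := (fun x => invS ι x - invS ι v) ∘ Z.c)
      (fun x hx => by simp only [Function.comp, G, hc _ (GOri_maps ι (hm hx))]) hz.1]
    exact GOri_trans h1 ((h0 v hv z ⟨CH_mono hs hz.1, hz.2⟩ hd).1 hr)
  · rw [psh_psh _ (Γ.i.continuousOn.mono (hU.trans Γ.src.ge)) hz.1, psh_psh _ hG hz.1]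
    refine psh_congr ?_ hz.1
    rintro _ ⟨x, hx, rfl⟩
    exact (Γ.glue _ (hU (mem_image_of_mem _ hx)) _ (hU (hGm (mem_image_of_mem _ hx)))).2
      ⟨x, hx, rfl, by simp only [G, hc x hx]⟩

end Pool.Agent.MP_bc14e1_gt

end

section

open Set Metric
open scoped Classical

namespace Pool.Agent.MP_bc14e1_gt

theorem Imm_compl (D : E 2 →L[ℝ] E 4) (hD : Function.Injective D) :
    ∃ (L : ℂ →L[ℝ] E 4) (A : (E 2 × ℂ) ≃L[ℝ] E 4), (A : (E 2 × ℂ) →L[ℝ] E 4) = D.coprod L := by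
  obtain ⟨K, hK⟩ := (LinearMap.range (D : E 2 →ₗ[ℝ] E 4)).exists_isCompl
  have h1 := Submodule.finrank_add_eq_of_isCompl hK
  rw [LinearMap.finrank_range_of_inj hD, finrank_euclideanSpace_fin,
    finrank_euclideanSpace_fin] at h1
  have h2 : Module.finrank ℝ ℂ = Module.finrank ℝ K := by
    rw [Complex.finrank_real_complex]
    omega
  let j : ℂ ≃L[ℝ] K := ContinuousLinearEquiv.ofFinrankEq h2
  have h3 : Function.Injective
      ((D.coprod (K.subtypeL.comp (j : ℂ →L[ℝ] K)) : (E 2 × ℂ) →L[ℝ] E 4) :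
        (E 2 × ℂ) →ₗ[ℝ] E 4) := by
    refine (injective_iff_map_eq_zero _).2 fun z hz => ?_
    have h4 : D z.1 + (j z.2 : E 4) = 0 := hz
    have h5 : D z.1 = 0 := (Submodule.disjoint_def.1 hK.disjoint) _ ⟨z.1, rfl⟩
      (by rw [eq_neg_of_add_eq_zero_left h4]; exact K.neg_mem (j z.2).2)
    rw [h5, zero_add] at h4
    exact Prod.ext (hD (h5.trans (map_zero D).symm))
      (j.injective ((Subtype.ext h4).trans (map_zero j).symm))
  refine ⟨K.subtypeL.comp (j : ℂ →L[ℝ] K),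
    (LinearMap.linearEquivOfInjective _ h3 ?_).toContinuousLinearEquiv, ?_⟩
  · rw [Module.finrank_prod, Complex.finrank_real_complex, finrank_euclideanSpace_fin,
      finrank_euclideanSpace_fin]
  · exact ContinuousLinearMap.ext fun _ => rfl

theorem imm_stmt : ImmStmt := by
  intro g x hg hD N hN
  obtain ⟨L, A, hA⟩ := Imm_compl _ hD
  have h1 : HasStrictFDerivAt (fun z : E 2 × ℂ => g z.1 + L z.2) (A : (E 2 × ℂ) →L[ℝ] E 4)
      (x, 0) := by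
    rw [hA]
    have h2 : HasStrictFDerivAt (fun z : E 2 × ℂ => g z.1)
        ((fderiv ℝ g x).comp (ContinuousLinearMap.fst ℝ (E 2) ℂ)) (x, 0) :=
      HasStrictFDerivAt.comp (x, (0 : ℂ)) (hg.hasStrictFDerivAt one_ne_zero) hasStrictFDerivAt_fst
    exact h2.add (L.comp (ContinuousLinearMap.snd ℝ (E 2) ℂ)).hasStrictFDerivAt
  obtain ⟨φ, hφ, hx⟩ : ∃ φ : OpenPartialHomeomorph (E 2 × ℂ) (E 4),
      (∀ z, φ z = g z.1 + L z.2) ∧ (x, 0) ∈ φ.source :=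
    ⟨h1.toOpenPartialHomeomorph _, fun _ => rfl, h1.mem_toOpenPartialHomeomorph_source⟩
  have h0 : ∀ a, φ (a, 0) = g a := fun a => by rw [hφ, map_zero, add_zero]
  have hO : IsOpen (interior N ∩ {a | (a, (0 : ℂ)) ∈ φ.source}) :=
    isOpen_interior.inter (φ.open_source.preimage (by fun_prop))
  have hxO : x ∈ interior N ∩ {a | (a, (0 : ℂ)) ∈ φ.source} := ⟨mem_interior_iff_mem_nhds.2 hN, hx⟩
  refine ⟨_, hO, hxO, fun a ha => interior_subset ha.1,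
    (φ.restrOpen _ (hO.prod isOpen_univ)).symm.transHomeomorph
      (Complex.orthonormalBasisOneI.repr.symm.toHomeomorph.prodCongr (Homeomorph.refl ℂ)),
    ?_, fun y hy => ?_⟩
  · rw [← h0]
    exact (φ.restrOpen _ (hO.prod isOpen_univ)).map_source ⟨hx, hxO, trivial⟩
  · have h2 : y ∈ φ.target := hy.1
    have h3 : (φ.symm y).1 ∈ interior N ∩ {a | (a, (0 : ℂ)) ∈ φ.source} := hy.2.1
    change (φ.symm y).2 = 0 ↔ _
    constructor
    · intro h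
      refine ⟨_, h3, ?_⟩
      rw [← h0, ← h]
      exact φ.right_inv h2
    · rintro ⟨a, ha, rfl⟩
      rw [← h0, φ.left_inv ha.2]

end Pool.Agent.MP_bc14e1_gt

end

section

open Set Metric
open scoped Classical

namespace Pool.Agent.MP_bc14e1_gt

theorem Seam_polar (A : E 4 ≃L[ℝ] ℝ × ℝ × ℂ) :
    ∃ Φ : OpenPartialHomeomorph (E 4) (ℝ × ℝ × ℂ), Φ.source = {y | 0 < (A y).1} ∧
      ∀ y, Φ y = (‖y‖, ((A y).1)⁻¹ • (A y).2) := by
  have hn : ∀ w : ℝ × ℂ, 0 < ‖A.symm (1, w)‖ := by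
    intro w
    rw [norm_pos_iff]
    intro h
    have := congrArg (fun y => (A y).1) h
    simp at this
  have h1 : Continuous fun y => (A y).1 := by fun_prop
  have hA : ∀ z : ℝ × ℝ × ℂ, A ((z.1 / ‖A.symm (1, z.2)‖) • A.symm (1, z.2)) =
      (z.1 / ‖A.symm (1, z.2)‖, (z.1 / ‖A.symm (1, z.2)‖) • z.2) := by
    intro z
    rw [map_smul, A.apply_symm_apply, Prod.smul_mk, smul_eq_mul, mul_one]
  refine ⟨{ toFun := fun y => (‖y‖, ((A y).1)⁻¹ • (A y).2)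
            invFun := fun z => (z.1 / ‖A.symm (1, z.2)‖) • A.symm (1, z.2)
            source := {y | 0 < (A y).1}
            target := {z | 0 < z.1}
            map_source' := fun y hy => ?_
            map_target' := fun z hz => ?_
            left_inv' := fun y hy => ?_
            right_inv' := fun z hz => ?_
            open_source := isOpen_lt continuous_const h1
            open_target := isOpen_lt continuous_const continuous_fst
            continuousOn_toFun := ?_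
            continuousOn_invFun := ?_ }, rfl, fun _ => rfl⟩
  · show 0 < ‖y‖
    rw [norm_pos_iff]
    rintro rfl
    simp at hy
  · show 0 < (A _).1
    rw [hA]
    exact div_pos hz (hn _)
  · have ha : 0 < (A y).1 := hy
    have hy0 : y ≠ 0 := by
      rintro rfl
      simp at ha
    have e : A.symm (1, ((A y).1)⁻¹ • (A y).2) = ((A y).1)⁻¹ • y := by
      rw [A.symm_apply_eq, map_smul]
      refine Prod.ext ?_ rfl
      simp [inv_mul_cancel₀ ha.ne']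
    show (‖y‖ / ‖A.symm (1, ((A y).1)⁻¹ • (A y).2)‖) • A.symm (1, ((A y).1)⁻¹ • (A y).2) = y
    have hy1 : ‖y‖ ≠ 0 := norm_ne_zero_iff.2 hy0
    rw [e, smul_smul, norm_smul, Real.norm_eq_abs, abs_of_pos (inv_pos.2 ha)]
    have : ‖y‖ / (((A y).1)⁻¹ * ‖y‖) * ((A y).1)⁻¹ = 1 := by field_simp
    rw [this, one_smul]
  · have hz' : 0 < z.1 := hz
    have hp := div_pos hz' (hn z.2)
    show (‖_‖, ((A _).1)⁻¹ • (A _).2) = z
    rw [hA, norm_smul, Real.norm_eq_abs, abs_of_pos hp, div_mul_cancel₀ _ (hn z.2).ne', smul_smul,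
      inv_mul_cancel₀ hp.ne', one_smul]
  · exact continuous_norm.continuousOn.prodMk
      ((h1.continuousOn.inv₀ fun y hy => ne_of_gt hy).smul (by fun_prop))
  · refine Continuous.continuousOn ?_
    exact (continuous_fst.div (by fun_prop) fun z => (hn z.2).ne').smul (by fun_prop)

theorem Seam_shear (V : Set (ℝ × ℝ)) (hV : IsOpen V) (h : ℝ × ℝ → ℂ) (hh : ContinuousOn h V) :
    ∃ S : OpenPartialHomeomorph (ℝ × ℝ × ℂ) (ℂ × ℂ), S.source = {z | (z.1, z.2.1) ∈ V} ∧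
      ∀ z, (S z).2 = z.2.2 - h (z.1, z.2.1) := by
  have c1 : Continuous fun z : ℝ × ℝ × ℂ => (z.1, z.2.1) := by fun_prop
  have c2 : Continuous fun w : ℂ × ℂ => (w.1.re, w.1.im) := by fun_prop
  refine ⟨{ toFun := fun z => (z.1 + z.2.1 * Complex.I, z.2.2 - h (z.1, z.2.1))
            invFun := fun w => (w.1.re, w.1.im, w.2 + h (w.1.re, w.1.im))
            source := {z | (z.1, z.2.1) ∈ V}
            target := {w | (w.1.re, w.1.im) ∈ V}
            map_source' := fun z hz => by simpa using hz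
            map_target' := fun w hw => hw
            left_inv' := fun z _ => by simp
            right_inv' := fun w _ => by simp
            open_source := hV.preimage c1
            open_target := hV.preimage c2
            continuousOn_toFun := ?_
            continuousOn_invFun := ?_ }, rfl, fun _ => rfl⟩
  · exact ContinuousOn.prodMk (by fun_prop)
      (ContinuousOn.sub (by fun_prop) (hh.comp c1.continuousOn fun z hz => hz))
  · exact ContinuousOn.prodMk (by fun_prop) (ContinuousOn.prodMk (by fun_prop)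
      (ContinuousOn.add (by fun_prop) (hh.comp c2.continuousOn fun z hz => hz)))

theorem Seam_core (A : E 4 ≃L[ℝ] ℝ × ℝ × ℂ) (g : E 2 → E 4) (u : E 2)
    (κ : OpenPartialHomeomorph (E 2) (ℝ × ℝ)) (hu : u ∈ κ.source) (hu1 : ‖u‖ = 1)
    (hκ : ∀ x, κ x = (‖g x‖, ((A (g x)).1)⁻¹ * (A (g x)).2.1)) (hg : ContinuousOn g κ.source)
    (hpos : ∀ x ∈ κ.source, 0 < (A (g x)).1) (hle : ∀ x ∈ κ.source, ‖x‖ ≤ 1 ↔ 1 ≤ ‖g x‖)
    (heq : ∀ x ∈ κ.source, ‖x‖ = 1 ↔ ‖g x‖ = 1) :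
    ∃ e : OpenPartialHomeomorph (E 4) (ℂ × ℂ), (∀ r ∈ Ioc (0 : ℝ) 1, r • g u ∈ e.source) ∧
      ∀ y ∈ e.source, (e y).2 = 0 ↔ y ∈ g '' (κ.source ∩ closedBall 0 1) ∨
        (‖y‖ < 1 ∧ ‖y‖⁻¹ • y ∈ g '' (κ.source ∩ sphere 0 1)) := by
  obtain ⟨Φ, hΦs, hΦ⟩ := Seam_polar A
  have hρ : Continuous fun z : ℝ × ℝ => (max z.1 1, z.2) := by fun_prop
  have hm : MapsTo g κ.source Φ.source := fun x hx => by rw [hΦs]; exact hpos x hx
  have hγ : ContinuousOn (fun z => (Φ (g (κ.symm z))).2.2) κ.target :=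
    ((Φ.continuousOn.comp hg hm).comp κ.continuousOn_symm κ.mapsTo_symm).snd.snd
  obtain ⟨S, hSs, hS⟩ := Seam_shear _ (κ.open_target.preimage hρ)
    (fun z => (Φ (g (κ.symm (max z.1 1, z.2)))).2.2) (hγ.comp hρ.continuousOn fun z hz => hz)
  have hκ' : ∀ x, κ x = ((Φ (g x)).1, (Φ (g x)).2.1) := fun x => by rw [hκ, hΦ]; rfl
  have hsm : ∀ r : ℝ, 0 < r → ∀ y, (r • y ∈ Φ.source ↔ y ∈ Φ.source) ∧
      (Φ (r • y)).2 = (Φ y).2 := by
    intro r hr y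
    refine ⟨?_, ?_⟩
    · simp [hΦs, hr]
    · rw [hΦ, hΦ, map_smul, Prod.smul_snd, Prod.smul_fst, smul_smul, smul_eq_mul, mul_inv,
        mul_right_comm, inv_mul_cancel₀ hr.ne', one_mul]
  have hn : ∀ y, (Φ y).1 = ‖y‖ := fun y => by rw [hΦ]
  refine ⟨Φ.trans S, fun r hr => ⟨((hsm r hr.1 _).1).2 (hm hu), ?_⟩, fun y hy => ?_⟩
  · have e : (max (Φ (r • g u)).1 1, (Φ (r • g u)).2.1) = κ u := by
      rw [hκ', (hsm r hr.1 _).2, hn, hn, norm_smul, (heq u hu).1 hu1, mul_one, Real.norm_eq_abs,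
        abs_of_pos hr.1, max_eq_right hr.2]
    show Φ (r • g u) ∈ S.source
    rw [hSs]
    show (max (Φ (r • g u)).1 1, (Φ (r • g u)).2.1) ∈ κ.target
    rw [e]
    exact κ.map_source hu
  · have hy1 : y ∈ Φ.source := hy.1
    have hy2 : (max ‖y‖ 1, (Φ y).2.1) ∈ κ.target := by
      have h : Φ y ∈ S.source := hy.2
      rw [hSs] at h
      rw [← hn]
      exact h
    have hy0 : 0 < ‖y‖ := by
      rw [norm_pos_iff]
      rintro rfl
      simp [hΦs] at hy1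
    have hi := hsm _ (inv_pos.2 hy0) y
    have hi1 : ‖‖y‖⁻¹ • y‖ = 1 := by
      rw [norm_smul, norm_inv, norm_norm, inv_mul_cancel₀ hy0.ne']
    show (S (Φ y)).2 = 0 ↔ _
    rw [hS, sub_eq_zero, hn]
    constructor
    · intro h
      have hx := κ.map_target hy2
      have hk := κ.right_inv hy2
      rw [hκ', Prod.mk.injEq] at hk
      have h2 : (Φ (g (κ.symm (max ‖y‖ 1, (Φ y).2.1)))).2 = (Φ y).2 := Prod.ext hk.2 h.symm
      rcases lt_or_ge ‖y‖ 1 with h1 | h1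
      · refine Or.inr ⟨h1, _, ⟨hx, ?_⟩, Φ.injOn (hm hx) (hi.1.2 hy1) (Prod.ext ?_ ?_)⟩
        · rw [mem_sphere_zero_iff_norm, heq _ hx, ← hn, hk.1, max_eq_right h1.le]
        · rw [hk.1, hn, hi1, max_eq_right h1.le]
        · rw [h2, hi.2]
      · refine Or.inl ⟨_, ⟨hx, ?_⟩, Φ.injOn (hm hx) hy1 (Prod.ext ?_ h2)⟩
        · rw [mem_closedBall_zero_iff, hle _ hx, ← hn, hk.1]
          exact le_max_right _ _
        · rw [hk.1, hn, max_eq_left h1]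
    · rintro (⟨x, ⟨hx, hx1⟩, rfl⟩ | ⟨h1, x, ⟨hx, hx1⟩, hxy⟩)
      · rw [mem_closedBall_zero_iff, hle _ hx] at hx1
        rw [max_eq_left hx1, ← hn, ← hκ', κ.left_inv hx]
      · have e : (max ‖y‖ 1, (Φ y).2.1) = κ x := by
          rw [hκ', hxy, hn, hi1, hi.2, max_eq_right h1.le]
        rw [e, κ.left_inv hx, hxy, hi.2]

theorem Seam_tan {φ : E 2 → ℝ} {L : E 2 →L[ℝ] ℝ} {u : E 2} (hφ : HasStrictFDerivAt φ L u)
    (hu : ‖u‖ = 1) (h : ∀ᶠ x in nhds u, ‖x‖ = 1 → φ x = 1) (v : E 2) (hv : inner ℝ u v = 0) :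
    L v = 0 := by
  have hex : IsLocalExtrOn φ {x | ‖x‖ ^ 2 = ‖u‖ ^ 2} u := by
    refine Or.inl ?_
    filter_upwards [nhdsWithin_le_nhds h, self_mem_nhdsWithin] with x hx hx'
    have h1 : ‖x‖ = 1 := by
      have : ‖x‖ ^ 2 = ‖u‖ ^ 2 := hx'
      rw [← hu]
      exact (pow_left_inj₀ (norm_nonneg _) (norm_nonneg _) two_ne_zero).1 this
    rw [hx h1, h.self_of_nhds hu]
  obtain ⟨a, b, hab, he⟩ :=
    hex.exists_multipliers_of_hasStrictFDerivAt_1d (hasStrictFDerivAt_norm_sq u) hφ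
  have hb : b ≠ 0 := by
    rintro rfl
    have := congrArg (fun f : E 2 →L[ℝ] ℝ => f u) he
    simp [hu] at this
    exact hab (by simp [this])
  have := congrArg (fun f : E 2 →L[ℝ] ℝ => f v) he
  simpa [hv, hb] using this

theorem Seam_side {φ : E 2 → ℝ} {L : E 2 →L[ℝ] ℝ} {u : E 2} (hφ : HasStrictFDerivAt φ L u)
    (hu : ‖u‖ = 1) (h : ∀ᶠ x in nhds u, ‖x‖ = 1 → φ x = 1) (hL : L u < 0) :
    ∀ᶠ x in nhds u, 1 < ‖x‖ → φ x < 1 := by
  have hc : Filter.Tendsto (fun x : E 2 => ‖x‖⁻¹ • x) (nhds u) (nhds u) := by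
    have : ContinuousAt (fun x : E 2 => ‖x‖⁻¹ • x) u :=
      (continuous_norm.continuousAt.inv₀ (by rw [hu]; exact one_ne_zero)).smul continuousAt_id
    simpa [ContinuousAt, hu] using this
  have h1 := (Filter.tendsto_id.prodMk_nhds hc).eventually
    (hφ.isLittleO.def (c := -L u / 2) (by linarith))
  have h2 := (L.continuous.continuousAt.tendsto.comp hc).eventually
    (gt_mem_nhds (show L u < L u / 2 by linarith))
  filter_upwards [h1, h2, hc.eventually h] with x a1 a2 a3 hx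
  have hx0 : 0 < ‖x‖ := by linarith
  have hn : ‖‖x‖⁻¹ • x‖ = 1 := by
    rw [norm_smul, norm_inv, norm_norm, inv_mul_cancel₀ hx0.ne']
  have e : x - ‖x‖⁻¹ • x = (‖x‖ - 1) • ‖x‖⁻¹ • x := by
    rw [sub_smul, one_smul, smul_smul, mul_inv_cancel₀ hx0.ne', one_smul]
  simp only [id, Function.comp] at a1 a2
  rw [a3 hn, e, map_smul, norm_smul, hn, mul_one, smul_eq_mul, Real.norm_eq_abs, Real.norm_eq_abs,
    abs_of_pos (sub_pos.2 hx)] at a1
  have := (abs_le.1 a1).2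
  nlinarith [mul_pos (sub_pos.2 hx) (sub_pos.2 a2)]

theorem Seam_coord (k T : E 4) (hk : ‖k‖ = 1) (hT : T ≠ 0) (hkT : inner ℝ k T = 0) :
    ∃ A : E 4 ≃L[ℝ] ℝ × ℝ × ℂ, (A k).1 = 1 ∧ (A k).2.1 = 0 ∧ (A T).2.1 ≠ 0 := by
  have hT' : 0 < ‖T‖ := norm_pos_iff.2 hT
  have ho : Orthonormal ℝ (({0, 1} : Set (Fin 4)).domRestrict ![k, ‖T‖⁻¹ • T, 0, 0]) := by
    refine ⟨?_, ?_⟩
    · rintro ⟨i, rfl | rfl⟩
      · exact hk
      · show ‖‖T‖⁻¹ • T‖ = 1
        rw [norm_smul, norm_inv, norm_norm, inv_mul_cancel₀ hT'.ne']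
    · rintro ⟨i, rfl | rfl⟩ ⟨j, rfl | rfl⟩ hij
      · exact absurd rfl hij
      · show inner ℝ k (‖T‖⁻¹ • T) = 0
        rw [inner_smul_right, hkT, mul_zero]
      · show inner ℝ (‖T‖⁻¹ • T) k = 0
        rw [real_inner_smul_left, real_inner_comm, hkT, mul_zero]
      · exact absurd rfl hij
  obtain ⟨b, hb⟩ := ho.exists_orthonormalBasis_extension_of_card_eq (by simp)
  have b0 : b 0 = k := hb 0 (by simp)
  have b1 : b 1 = ‖T‖⁻¹ • T := hb 1 (by simp)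
  let C : E 4 ≃ₗ[ℝ] ℝ × ℝ × ℂ :=
    { toFun := fun y => (y 0, y 1, ⟨y 2, y 3⟩)
      invFun := fun z => !₂[z.1, z.2.1, z.2.2.re, z.2.2.im]
      map_add' := fun _ _ => rfl
      map_smul' := fun c y => by
        refine Prod.ext rfl (Prod.ext rfl (Complex.ext ?_ ?_)) <;> simp
      left_inv := fun y => by
        ext i
        fin_cases i <;> rfl
      right_inv := fun _ => rfl }
  refine ⟨(b.repr.toLinearEquiv.trans C).toContinuousLinearEquiv, ?_, ?_, ?_⟩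
  · show b.repr k 0 = 1
    rw [b.repr_apply_apply, b0, real_inner_self_eq_norm_sq, hk, one_pow]
  · show b.repr k 1 = 0
    rw [b.repr_apply_apply, b1, real_inner_smul_left, real_inner_comm, hkT, mul_zero]
  · show b.repr T 1 ≠ 0
    rw [b.repr_apply_apply, b1, real_inner_smul_left, real_inner_self_eq_norm_sq]
    positivity

theorem seam_stmt : SeamStmt := by
  intro g u hu hg hinj h1 h2 hd N hN
  have hk : ‖g u‖ = 1 := h1.self_of_nhds hu
  have hk0 : g u ≠ 0 := by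
    intro h
    rw [h, norm_zero] at hk
    exact zero_ne_one hk
  have hD := hg.hasStrictFDerivAt one_ne_zero
  have hν := (hg.norm ℝ hk0).hasStrictFDerivAt one_ne_zero
  set L := fderiv ℝ (fun y => ‖g y‖) u
  set D := fderiv ℝ g u
  have hLu : L u < 0 := by
    have h0 : HasDerivAt (fun r : ℝ => r • u) u 1 := by
      simpa using (hasDerivAt_id (1 : ℝ)).smul_const u
    have h3 : HasFDerivAt (fun y => ‖g y‖) L ((1 : ℝ) • u) := by
      rw [one_smul]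
      exact hν.hasFDerivAt
    have h4 := (h3.comp_hasDerivAt (1 : ℝ) h0).deriv
    rw [← h4]
    exact hd
  have huu : u 0 ^ 2 + u 1 ^ 2 = 1 := by
    have := EuclideanSpace.real_norm_sq_eq u
    rw [hu, Fin.sum_univ_two] at this
    linarith
  let τ : E 2 := !₂[-u 1, u 0]
  have huτ : inner ℝ u τ = 0 := by
    simp [τ, PiLp.inner_apply, Fin.sum_univ_two]
    ring
  have hτ0 : τ ≠ 0 := by
    intro h
    have a0 : -u 1 = 0 := congrArg (fun v : E 2 => v 0) h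
    have a1 : u 0 = 0 := congrArg (fun v : E 2 => v 1) h
    rw [a1, neg_eq_zero.1 a0] at huu
    norm_num at huu
  have hdec : ∀ v : E 2, v = (u 0 * v 0 + u 1 * v 1) • u + (u 0 * v 1 - u 1 * v 0) • τ := by
    intro v
    ext i
    fin_cases i
    · simp [τ]
      linear_combination (-v 0) * huu
    · simp [τ]
      linear_combination (-v 1) * huu
  have hLτ : L τ = 0 := Seam_tan hν hu h1 τ huτ
  have hkT : inner ℝ (g u) (D τ) = 0 := by
    have := Seam_tan ((hasStrictFDerivAt_norm_sq (g u)).comp u hD) hu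
      (h1.mono fun x hx hx' => by simp [hx hx']) τ huτ
    simpa using this
  have hT : D τ ≠ 0 := fun h => hτ0 (hinj (by rw [h, map_zero]))
  obtain ⟨A, hA1, hA2, hA3⟩ := Seam_coord (g u) (D τ) hk hT hkT
  let a : E 4 →L[ℝ] ℝ := ContinuousLinearMap.fst ℝ _ _ ∘L (A : E 4 →L[ℝ] ℝ × ℝ × ℂ)
  let b : E 4 →L[ℝ] ℝ := ContinuousLinearMap.fst ℝ _ _ ∘L ContinuousLinearMap.snd ℝ _ _ ∘L
    (A : E 4 →L[ℝ] ℝ × ℝ × ℂ)
  have ha : ContDiffAt ℝ 1 (fun x => (A (g x)).1) u := a.contDiff.contDiffAt.comp u hg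
  have hb : HasStrictFDerivAt (fun x => (A (g x)).2.1) (b ∘L D) u := b.hasStrictFDerivAt.comp u hD
  have hab := ((ha.inv (by rw [hA1]; exact one_ne_zero)).hasStrictFDerivAt one_ne_zero).mul hb
  simp only [Pi.inv_apply, hA1, hA2, inv_one, one_smul, zero_smul, add_zero] at hab
  have hκ := hν.prodMk hab
  have hM : Function.Injective ((L.prod (b ∘L D) : E 2 →L[ℝ] ℝ × ℝ) : E 2 →ₗ[ℝ] ℝ × ℝ) := by
    rw [injective_iff_map_eq_zero]
    intro v hv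
    have e1 : L v = 0 := congrArg Prod.fst hv
    have e2 : (A (D v)).2.1 = 0 := congrArg Prod.snd hv
    rw [hdec v, map_add, map_smul, map_smul, hLτ, smul_zero, add_zero, smul_eq_mul] at e1
    have e3 := (mul_eq_zero.1 e1).resolve_right hLu.ne
    rw [hdec v, e3, zero_smul, zero_add, map_smul, map_smul] at e2
    have e4 : u 0 * v 1 - u 1 * v 0 = 0 := (mul_eq_zero.1 e2).resolve_right hA3
    rw [hdec v, e3, e4, zero_smul, zero_smul, add_zero]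
  have hκ' : HasStrictFDerivAt (fun x => (‖g x‖, ((A (g x)).1)⁻¹ * (A (g x)).2.1))
      ((LinearMap.linearEquivOfInjective _ hM (by simp)).toContinuousLinearEquiv :
        E 2 →L[ℝ] ℝ × ℝ) u := hκ
  have hpos : ∀ᶠ x in nhds u, 0 < (A (g x)).1 :=
    ha.continuousAt.tendsto.eventually (lt_mem_nhds (by rw [hA1]; exact one_pos))
  obtain ⟨O, hO, hOo, huO⟩ := _root_.eventually_nhds_iff.1 (((((h1.and h2).and
    (Seam_side hν hu h1 hLu)).and hpos).and (hg.eventually (by simp))).and hN)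
  let κ := (hκ'.toOpenPartialHomeomorph _).restrOpen O hOo
  have huκ : u ∈ κ.source := ⟨hκ'.mem_toOpenPartialHomeomorph_source, huO⟩
  refine ⟨κ.source, κ.open_source, huκ, fun x hx => (hO x hx.2).2, Seam_core A g u κ huκ hu
    (fun _ => rfl) (fun x hx => (hO x hx.2).1.2.continuousAt.continuousWithinAt)
    (fun x hx => (hO x hx.2).1.1.2) (fun x hx => ?_) fun x hx => ?_⟩
  · obtain ⟨⟨⟨⟨⟨a1, a2⟩, a3⟩, -⟩, -⟩, -⟩ := hO x hx.2
    exact ⟨fun h => h.eq_or_lt.elim (fun h => (a1 h).ge) fun h => (a2 h).le,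
      fun h => not_lt.1 fun h' => (a3 h').not_ge h⟩
  · obtain ⟨⟨⟨⟨⟨a1, a2⟩, a3⟩, -⟩, -⟩, -⟩ := hO x hx.2
    exact ⟨a1, fun h => le_antisymm (not_lt.1 fun h' => (a3 h').ne h)
      (not_lt.1 fun h' => (a2 h').ne' h)⟩

end Pool.Agent.MP_bc14e1_gt

end

section

open Set Metric
open scoped Classical

namespace Pool.Agent.MP_bc14e1_gt

open scoped Manifold ContDiff in
theorem FlatW_chart {K : Set (E 4)} (Z : ZD K) {ψ : OpenPartialHomeomorph Z.W (E 4)}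
    (hψ : ψ ∈ IsManifold.maximalAtlas (𝓡 4) ∞ Z.W) {x : E 2} (hx : x ∈ closedBall (0 : E 2) 1)
    (hs : Z.d x ∈ ψ.source) :
    ContDiffAt ℝ 1 (ψ ∘ Z.d) x ∧ Function.Injective (fderiv ℝ (ψ ∘ Z.d) x) := by
  have h1 := contMDiffAt_of_mem_maximalAtlas hψ hs
  have h2 := Z.sm x hx
  have hm : ψ.MDifferentiable (𝓡 4) (𝓡 4) :=
    ⟨(contMDiffOn_of_mem_maximalAtlas hψ).mdifferentiableOn (by simp),
      (contMDiffOn_symm_of_mem_maximalAtlas hψ).mdifferentiableOn (by simp)⟩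
  refine ⟨(contMDiffAt_iff_contDiffAt.1 (h1.comp x h2)).of_le (by simp), ?_⟩
  rw [← mfderiv_eq_fderiv, mfderiv_comp x (h1.mdifferentiableAt (by simp))
    (h2.mdifferentiableAt (by simp))]
  exact (hm.mfderiv_injective hs).comp (Z.imm x hx)

theorem FlatW_loc {W : Type} [TopologicalSpace W] {F : Set W}
    (ψ : OpenPartialHomeomorph W (E 4)) (e : OpenPartialHomeomorph (E 4) (ℂ × ℂ)) {w : W}
    (h1 : w ∈ ψ.source) (h2 : ψ w ∈ e.source)
    (h : ∀ᶠ w' in nhds w, w' ∈ ψ.source → ψ w' ∈ e.source → (w' ∈ F ↔ (e (ψ w')).2 = 0)) :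
    ∃ e', FlatCh F e' ∧ w ∈ e'.source := by
  obtain ⟨O, hO, hO1, hO2⟩ := eventually_nhds_iff.1 h
  refine ⟨(ψ.trans e).restrOpen O hO1, fun x hx => ?_, ⟨h1, h2⟩, hO2⟩
  exact hO x hx.2 hx.1.1 hx.1.2

theorem FlatW_cont {K : Set (E 4)} (Z : ZD K) : ContinuousOn Z.d (closedBall 0 1) :=
  fun x hx => (Z.sm x hx).continuousAt.continuousWithinAt

theorem FlatW_closed {K : Set (E 4)} (Z : ZD K) {N : Set (E 2)} (hN : IsOpen N) :
    IsClosed (Z.d '' (closedBall 0 1 \ N)) :=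
  (((isCompact_closedBall 0 1).diff hN).image_of_continuousOn
    ((FlatW_cont Z).mono diff_subset)).isClosed

theorem FlatW_int (hImm : ImmStmt) {K : Set (E 4)} (Z : ZD K) {x : E 2}
    (hx : x ∈ ball (0 : E 2) 1) : ∃ e, FlatCh Z.FW e ∧ Z.d x ∈ e.source := by
  have hx' := ball_subset_closedBall hx
  have hs := mem_chart_source (E 4) (Z.d x)
  obtain ⟨h1, h2⟩ := FlatW_chart Z (IsManifold.chart_mem_maximalAtlas (Z.d x)) hx' hs
  generalize chartAt (E 4) (Z.d x) = ψ at hs h1 h2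
  obtain ⟨N', hN', hxN, hsub, e, he, hee⟩ := hImm _ x h1 h2 (ball 0 1 ∩ Z.d ⁻¹' ψ.source)
    (Filter.inter_mem (isOpen_ball.mem_nhds hx)
      ((Z.sm x hx').continuousAt.preimage_mem_nhds (ψ.open_source.mem_nhds hs)))
  refine FlatW_loc ψ e hs he ?_
  have c1 : (Z.d '' (closedBall 0 1 \ N'))ᶜ ∈ nhds (Z.d x) := by
    refine (FlatW_closed Z hN').isOpen_compl.mem_nhds ?_
    rintro ⟨x', hx1, hx2⟩
    exact hx1.2 (Z.inj hx1.1 hx' hx2 ▸ hxN)
  have c2 : (Z.c.symm '' closedBall 0 1)ᶜ ∈ nhds (Z.d x) :=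
    ((isCompact_closedBall 0 1).image_of_continuousOn
      (Z.c.continuousOn_symm.mono Z.tgt)).isClosed.isOpen_compl.mem_nhds (Z.out x hx)
  filter_upwards [c1, c2] with w' k1 k2 s1 s2
  rw [hee _ s2]
  constructor
  · rintro (⟨x', hx1, rfl⟩ | ⟨v, hv, rfl⟩)
    · exact ⟨x', by_contra fun hn => k1 ⟨x', ⟨hx1, hn⟩, rfl⟩, rfl⟩
    · exact absurd ⟨v, mem_closedBall_zero_iff.2 hv.1.2.le, rfl⟩ k2
  · rintro ⟨x', hx1, hx2⟩
    exact Or.inl ⟨x', ball_subset_closedBall (hsub hx1).1, ψ.injOn (hsub hx1).2 s1 hx2⟩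

theorem FlatW_sph {K : Set (E 4)} (Z : ZD K) (hK : K ⊆ sphere 0 1) {u : E 2}
    (hu : u ∈ sphere (0 : E 2) 1) : Z.d u ∈ Z.c.source ∧ Z.c (Z.d u) ∈ K := by
  obtain ⟨k, hk, hk'⟩ : Z.d u ∈ Z.c.symm '' K := Z.bdy ▸ mem_image_of_mem _ hu
  have ht : k ∈ Z.c.target := Z.tgt (sphere_subset_closedBall (hK hk))
  rw [← hk', Z.c.right_inv ht]
  exact ⟨Z.c.map_target ht, hk⟩

theorem FlatW_of_K {K : Set (E 4)} (Z : ZD K) (hK : K ⊆ sphere 0 1) {k : E 4} (hk : k ∈ K) :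
    ∃ u ∈ sphere (0 : E 2) 1, Z.c (Z.d u) = k := by
  obtain ⟨u, hu, hu'⟩ : Z.c.symm k ∈ Z.d '' sphere 0 1 := Z.bdy ▸ mem_image_of_mem _ hk
  exact ⟨u, hu, by rw [hu', Z.c.right_inv (Z.tgt (sphere_subset_closedBall (hK hk)))]⟩

theorem FlatW_seam (hSeam : SeamStmt) {K : Set (E 4)} (Z : ZD K) (hK : K ⊆ sphere 0 1) {u : E 2}
    (hu : u ∈ sphere (0 : E 2) 1) {r : ℝ} (hr : 1 / 2 < r) (hr1 : r ≤ 1) :
    ∃ e, FlatCh Z.FW e ∧ Z.c.symm (r • Z.c (Z.d u)) ∈ e.source := by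
  have hu' := sphere_subset_closedBall hu
  obtain ⟨hs, hk⟩ := FlatW_sph Z hK hu
  obtain ⟨h1, h2⟩ := FlatW_chart Z Z.atl hu' hs
  have hN : Z.d ⁻¹' Z.c.source ∈ nhds u :=
    (Z.sm u hu').continuousAt.preimage_mem_nhds (Z.c.open_source.mem_nhds hs)
  have hn : ∀ x ∈ sphere (0 : E 2) 1, ‖Z.c (Z.d x)‖ = 1 := fun x hx =>
    mem_sphere_zero_iff_norm.1 (hK (FlatW_sph Z hK hx).2)
  obtain ⟨N', hN', huN, hsub, e, he, hee⟩ := hSeam _ u (mem_sphere_zero_iff_norm.1 hu) h1 h2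
    (Filter.Eventually.of_forall fun x hx => hn x (mem_sphere_zero_iff_norm.2 hx))
    (by
      filter_upwards [hN] with x hx hx1
      by_contra hc
      exact Z.out x (mem_ball_zero_iff.2 hx1)
        ⟨_, mem_closedBall_zero_iff.2 (not_lt.1 hc), Z.c.left_inv hx⟩)
    (Z.tr u hu) _ hN
  have hr0 : 0 < r := by linarith
  have hnr : ‖r • Z.c (Z.d u)‖ = r := by
    rw [norm_smul, hn u hu, mul_one, Real.norm_of_nonneg hr0.le]
  have hb : r • Z.c (Z.d u) ∈ closedBall (0 : E 4) 1 :=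
    mem_closedBall_zero_iff.2 (by rw [hnr]; exact hr1)
  have ht := Z.tgt hb
  have hw := Z.c.map_target ht
  have hcw := Z.c.right_inv ht
  have hct := Z.c.continuousAt hw
  refine FlatW_loc Z.c e hw (by rw [hcw]; exact he r ⟨hr0, hr1⟩) ?_
  have c0 : ∀ᶠ w' in nhds (Z.c.symm (r • Z.c (Z.d u))), 1 / 2 < ‖Z.c w'‖ :=
    continuousAt_const.eventually_lt hct.norm (by rw [hcw, hnr]; exact hr)
  have c1 : (Z.d '' (closedBall 0 1 \ N'))ᶜ ∈ nhds (Z.c.symm (r • Z.c (Z.d u))) := by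
    refine (FlatW_closed Z hN').isOpen_compl.mem_nhds ?_
    rintro ⟨x', hx1, hx2⟩
    rcases (mem_closedBall_zero_iff.1 hx1.1).lt_or_eq with hl | hl
    · exact Z.out x' (mem_ball_zero_iff.2 hl) ⟨_, hb, hx2.symm⟩
    · have h3 := hn x' (mem_sphere_zero_iff_norm.2 hl)
      rw [hx2, hcw, hnr] at h3
      rw [h3, one_smul, Z.c.left_inv hs] at hx2
      exact hx1.2 (Z.inj hx1.1 hu' hx2 ▸ huN)
  have c2 : ∀ᶠ w' in nhds (Z.c.symm (r • Z.c (Z.d u))),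
      ‖Z.c w'‖⁻¹ • Z.c w' ∈ ((Z.c ∘ Z.d) '' (sphere 0 1 \ N'))ᶜ := by
    have hcl : IsClosed ((Z.c ∘ Z.d) '' (sphere 0 1 \ N')) :=
      (((isCompact_sphere 0 1).diff hN').image_of_continuousOn
        (Z.c.continuousOn.comp ((FlatW_cont Z).mono
          (diff_subset.trans sphere_subset_closedBall))
          fun x hx => (FlatW_sph Z hK hx.1).1)).isClosed
    have hc : ContinuousAt (fun w' => ‖Z.c w'‖⁻¹ • Z.c w') (Z.c.symm (r • Z.c (Z.d u))) :=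
      (hct.norm.inv₀ (by rw [hcw, hnr]; exact hr0.ne')).smul hct
    refine hc.preimage_mem_nhds (hcl.isOpen_compl.mem_nhds ?_)
    rintro ⟨x', hx1, hx2⟩
    rw [hcw, hnr, smul_smul, inv_mul_cancel₀ hr0.ne', one_smul] at hx2
    have h3 := Z.c.injOn (FlatW_sph Z hK hx1.1).1 hs hx2
    exact hx1.2 (Z.inj (sphere_subset_closedBall hx1.1) hu' h3 ▸ huN)
  filter_upwards [c0, c1, c2] with w' k0 k1 k2 s1 s2
  rw [hee _ s2]
  constructor
  · rintro (⟨x', hx1, rfl⟩ | ⟨v, hv, rfl⟩)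
    · exact Or.inl ⟨x', ⟨by_contra fun hn => k1 ⟨x', ⟨hx1, hn⟩, rfl⟩, hx1⟩, rfl⟩
    · have hv' := Z.c.right_inv (Z.tgt (mem_closedBall_zero_iff.2 hv.1.2.le))
      rw [hv'] at k2 ⊢
      obtain ⟨x', hx1, hx2⟩ := FlatW_of_K Z hK hv.2
      exact Or.inr ⟨hv.1.2, x', ⟨by_contra fun hn => k2 ⟨x', ⟨hx1, hn⟩, hx2⟩, hx1⟩, hx2⟩
  · rintro (⟨x', hx1, hx2⟩ | ⟨hl, x', hx1, hx2⟩)
    · exact Or.inl ⟨x', hx1.2, Z.c.injOn (hsub hx1.1) s1 hx2⟩
    · refine Or.inr ⟨Z.c w', ⟨⟨k0, hl⟩, ?_⟩, Z.c.left_inv s1⟩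
      rw [← hx2]
      exact (FlatW_sph Z hK hx1.2).2

theorem flatW_stmt (hImm : ImmStmt) (hSeam : SeamStmt) : FlatWStmt := by
  rintro K Z hK w (⟨x, hx, rfl⟩ | ⟨v, hv, rfl⟩)
  · rcases (mem_closedBall_zero_iff.1 hx).lt_or_eq with hl | hl
    · exact FlatW_int hImm Z (mem_ball_zero_iff.2 hl)
    · have hu := mem_sphere_zero_iff_norm.2 hl
      have := FlatW_seam hSeam Z hK hu (r := 1) (by norm_num) le_rfl
      rwa [one_smul, Z.c.left_inv (FlatW_sph Z hK hu).1] at this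
  · obtain ⟨u, hu, hu'⟩ := FlatW_of_K Z hK hv.2
    have := FlatW_seam hSeam Z hK hu hv.1.1 hv.1.2.le
    have h0 : ‖v‖ ≠ 0 := by have := hv.1.1; intro h; rw [h] at this; norm_num at this
    rwa [hu', smul_smul, mul_inv_cancel₀ h0, one_smul] at this

end Pool.Agent.MP_bc14e1_gt

end

section

open Set Metric
open scoped Classical

namespace Pool.Agent.MP_bc14e1_gt

theorem DiscW_unit {x : E 2} (hx : 0 < ‖x‖) : ‖x‖⁻¹ • x ∈ sphere (0 : E 2) 1 := by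
  rw [mem_sphere_zero_iff_norm, norm_smul, norm_inv, norm_norm, inv_mul_cancel₀ hx.ne']

theorem discW_stmt : DiscWStmt := by
  intro K Z hK
  have hKt : ∀ v ∈ K, v ∈ Z.c.target := fun v hv => Z.tgt (sphere_subset_closedBall (hK hv))
  have hk : ∀ u ∈ sphere (0 : E 2) 1, Z.d u ∈ Z.c.source ∧ Z.c (Z.d u) ∈ K := by
    intro u hu
    have : Z.d u ∈ Z.c.symm '' K := Z.bdy ▸ mem_image_of_mem _ hu
    obtain ⟨v, hv, e⟩ := this
    rw [← e, Z.c.right_inv (hKt v hv)]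
    exact ⟨Z.c.map_target (hKt v hv), hv⟩
  have hk' : ∀ v ∈ K, ∃ u ∈ sphere (0 : E 2) 1, Z.c (Z.d u) = v := by
    intro v hv
    have : Z.c.symm v ∈ Z.d '' sphere 0 1 := Z.bdy ▸ mem_image_of_mem _ hv
    obtain ⟨u, hu, e⟩ := this
    exact ⟨u, hu, by rw [e, Z.c.right_inv (hKt v hv)]⟩
  have hn : ∀ u ∈ sphere (0 : E 2) 1, ‖Z.c (Z.d u)‖ = 1 := fun u hu =>
    mem_sphere_zero_iff_norm.1 (hK (hk u hu).2)
  have hbt : ∀ v ∈ ball (0 : E 4) 1, v ∈ Z.c.target := fun v hv =>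
    Z.tgt (ball_subset_closedBall hv)
  have F1 : ∀ x ∈ closedBall (0 : E 2) 1, Z.d x ∉ Z.c.symm '' ball 0 1 := by
    rintro x hx ⟨v, hv, e⟩
    rcases (mem_closedBall_zero_iff.1 hx).lt_or_eq with h | h
    · exact Z.out x (mem_ball_zero_iff.2 h) ⟨v, ball_subset_closedBall hv, e⟩
    · have := hn x (mem_sphere_zero_iff_norm.2 h)
      rw [← e, Z.c.right_inv (hbt v hv)] at this
      exact (mem_ball_zero_iff.1 hv).ne this
  have F2 : ∀ x ∈ closedBall (0 : E 2) 1, Z.hW (Z.d x) = -1 := fun x hx => if_neg (F1 x hx)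
  have F3 : ∀ v ∈ ball (0 : E 4) 1, Z.hW (Z.c.symm v) = 3 - 4 * ‖v‖ := fun v hv => by
    rw [ZD.hW, if_pos (mem_image_of_mem _ hv), Z.c.right_inv (hbt v hv)]
  obtain ⟨a, ha⟩ : ∃ a : E 2 → E 4, ∀ x, a x = (5 / 4 - ‖x‖ / 2) • Z.c (Z.d (‖x‖⁻¹ • x)) :=
    ⟨_, fun _ => rfl⟩
  have F5 : ∀ x, 0 < ‖x‖ → ‖x‖ ≤ 1 → ‖a x‖ = 5 / 4 - ‖x‖ / 2 := fun x h h' => by
    rw [ha, norm_smul, hn _ (DiscW_unit h), mul_one, Real.norm_of_nonneg (by linarith)]
  have F6 : ∀ x, 1 / 2 < ‖x‖ → ‖x‖ ≤ 1 → a x ∈ ball (0 : E 4) 1 := fun x h h' => by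
    rw [mem_ball_zero_iff, F5 x (by linarith) h']; linarith
  have F7 : ∀ x : E 2, ‖x‖ ≤ 1 / 2 → (2 : ℝ) • x ∈ closedBall (0 : E 2) 1 := fun x h => by
    rw [mem_closedBall_zero_iff, norm_smul, Real.norm_of_nonneg (by norm_num)]; linarith
  obtain ⟨δ, hδ⟩ : ∃ δ : E 2 → Z.W,
      ∀ x, δ x = if ‖x‖ ≤ 1 / 2 then Z.d ((2 : ℝ) • x) else Z.c.symm (a x) := ⟨_, fun _ => rfl⟩
  have h1 : ∀ x, ‖x‖ ≤ 1 / 2 → δ x = Z.d ((2 : ℝ) • x) := fun x h => by rw [hδ, if_pos h]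
  have h2 : ∀ x, 1 / 2 < ‖x‖ → δ x = Z.c.symm (a x) := fun x h => by rw [hδ, if_neg h.not_ge]
  have h3 : ∀ x, 1 / 2 ≤ ‖x‖ → δ x = Z.c.symm (a x) := fun x h => by
    rcases h.lt_or_eq with h | h
    · exact h2 x h
    · have hu := DiscW_unit (x := x) (by linarith)
      rw [h1 x h.ge, ha, ← h] at *
      norm_num at hu ⊢
      rw [Z.c.left_inv (hk _ (mem_sphere_zero_iff_norm.2 hu)).1]
  have hdc : ContinuousOn Z.d (closedBall 0 1) := fun x hx =>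
    (Z.sm x hx).continuousAt.continuousWithinAt
  have hlev : ∀ x, 1 / 2 < ‖x‖ → ‖x‖ ≤ 1 → Z.hW (δ x) = 2 * ‖x‖ - 2 := fun x h h' => by
    rw [h2 x h, F3 _ (F6 x h h'), F5 x (by linarith) h']; ring
  have him : δ '' closedBall 0 1 = Z.FW ∩ Z.hW ⁻¹' Iic 0 := by
    refine Subset.antisymm ?_ ?_
    · rintro _ ⟨x, hx, rfl⟩
      have hx' := mem_closedBall_zero_iff.1 hx
      rcases le_or_gt ‖x‖ (1 / 2) with h | h
      · rw [h1 x h]
        refine ⟨Or.inl (mem_image_of_mem _ (F7 x h)), ?_⟩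
        rw [mem_preimage, F2 _ (F7 x h)]
        norm_num
      · refine ⟨Or.inr ⟨a x, ⟨⟨?_, mem_ball_zero_iff.1 (F6 x h hx')⟩, ?_⟩, (h2 x h).symm⟩, ?_⟩
        · rw [F5 x (by linarith) hx']; linarith
        · rw [F5 x (by linarith) hx', ha, smul_smul, inv_mul_cancel₀ (by linarith), one_smul]
          exact (hk _ (DiscW_unit (by linarith))).2
        · rw [mem_preimage, hlev x h hx', mem_Iic]; linarith
    · rintro w ⟨⟨x, hx, rfl⟩ | ⟨v, ⟨hv, hvK⟩, rfl⟩, hw⟩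
      · have hx' := mem_closedBall_zero_iff.1 hx
        have e : ‖(1 / 2 : ℝ) • x‖ ≤ 1 / 2 := by
          rw [norm_smul, Real.norm_of_nonneg (by norm_num)]; linarith
        refine ⟨(1 / 2 : ℝ) • x, mem_closedBall_zero_iff.2 (by linarith), ?_⟩
        rw [h1 _ e, smul_smul]
        norm_num
      · rw [mem_preimage, F3 v (mem_ball_zero_iff.2 hv.2), mem_Iic] at hw
        obtain ⟨u, hu, e⟩ := hk' _ hvK
        have h1' := hv.1
        have h2' := hv.2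
        have e' : ‖(5 / 2 - 2 * ‖v‖) • u‖ = 5 / 2 - 2 * ‖v‖ := by
          rw [norm_smul, mem_sphere_zero_iff_norm.1 hu, mul_one, Real.norm_of_nonneg (by linarith)]
        refine ⟨(5 / 2 - 2 * ‖v‖) • u, mem_closedBall_zero_iff.2 (by linarith), ?_⟩
        rw [h2 _ (by linarith), ha, e', smul_smul, inv_mul_cancel₀ (by linarith), one_smul, e,
          smul_smul, show (5 / 4 - (5 / 2 - 2 * ‖v‖) / 2) = ‖v‖ by ring,
          mul_inv_cancel₀ (by linarith), one_smul]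
  refine ⟨δ, ?_, ?_, him, ?_⟩
  · have e : closedBall (0 : E 2) 1 = closedBall 0 (1 / 2) ∪ {x | 1 / 2 ≤ ‖x‖ ∧ ‖x‖ ≤ 1} := by
      ext x
      simp only [mem_closedBall_zero_iff, mem_union, mem_ofPred_eq]
      constructor
      · intro h
        rcases le_total ‖x‖ (1 / 2) with h' | h'
        · exact Or.inl h'
        · exact Or.inr ⟨h', h⟩
      · rintro (h | h)
        · linarith
        · exact h.2
    rw [e]
    refine ContinuousOn.union_of_isClosed ?_ ?_ isClosed_closedBall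
      ((isClosed_le continuous_const continuous_norm).inter
        (isClosed_le continuous_norm continuous_const))
    · refine ContinuousOn.congr (f := fun x => Z.d ((2 : ℝ) • x)) ?_
        fun x hx => h1 x (mem_closedBall_zero_iff.1 hx)
      exact hdc.comp (by fun_prop) fun x hx => F7 x (mem_closedBall_zero_iff.1 hx)
    · refine ContinuousOn.congr (f := fun x => Z.c.symm (a x)) ?_ fun x hx => h3 x hx.1
      have hp : ∀ x ∈ {x : E 2 | 1 / 2 ≤ ‖x‖ ∧ ‖x‖ ≤ 1}, 0 < ‖x‖ := fun x hx => by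
        have := hx.1; linarith
      refine Z.c.continuousOn_symm.comp ?_ fun x hx => Z.tgt ?_
      · rw [show a = fun x => (5 / 4 - ‖x‖ / 2) • Z.c (Z.d (‖x‖⁻¹ • x)) from funext ha]
        refine ContinuousOn.smul (f := fun x : E 2 => (5 / 4 - ‖x‖ / 2 : ℝ))
          (g := fun x : E 2 => Z.c (Z.d (‖x‖⁻¹ • x))) (by fun_prop) ?_
        refine Z.c.continuousOn.comp (f := fun x : E 2 => Z.d (‖x‖⁻¹ • x)) ?_
          fun x hx => (hk _ (DiscW_unit (hp x hx))).1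
        refine hdc.comp (f := fun x : E 2 => ‖x‖⁻¹ • x) ?_
          fun x hx => sphere_subset_closedBall (DiscW_unit (hp x hx))
        exact (continuous_norm.continuousOn.inv₀ fun x hx => (hp x hx).ne').smul continuousOn_id
      · rw [mem_closedBall_zero_iff, F5 x (hp x hx) hx.2]
        have := hx.1
        linarith
  · intro x hx y hy e
    have hx' := mem_closedBall_zero_iff.1 hx
    have hy' := mem_closedBall_zero_iff.1 hy
    rcases le_or_gt ‖x‖ (1 / 2) with h | h <;> rcases le_or_gt ‖y‖ (1 / 2) with h' | h'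
    · rw [h1 x h, h1 y h'] at e
      exact smul_right_injective _ two_ne_zero (Z.inj (F7 x h) (F7 y h') e)
    · rw [h1 x h, h2 y h'] at e
      exact (F1 _ (F7 x h) ⟨_, F6 y h' hy', e.symm⟩).elim
    · rw [h2 x h, h1 y h'] at e
      exact (F1 _ (F7 y h') ⟨_, F6 x h hx', e⟩).elim
    · rw [h2 x h, h2 y h'] at e
      have e1 : a x = a y :=
        Z.c.symm.injOn (hbt _ (F6 x h hx')) (hbt _ (F6 y h' hy')) e
      have e2 : ‖x‖ = ‖y‖ := by
        have := congrArg norm e1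
        rw [F5 x (by linarith) hx', F5 y (by linarith) hy'] at this
        linarith
      have hu := DiscW_unit (x := x) (by linarith)
      have hu' := DiscW_unit (x := y) (by linarith)
      rw [ha, ha, ← e2] at e1
      rw [← e2] at hu'
      have e3 := smul_right_injective _ (by linarith : (5 / 4 - ‖x‖ / 2 : ℝ) ≠ 0) e1
      have e4 := Z.inj (sphere_subset_closedBall hu) (sphere_subset_closedBall hu')
        (Z.c.injOn (hk _ hu).1 (hk _ hu').1 e3)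
      exact smul_right_injective _ (inv_ne_zero (by linarith : ‖x‖ ≠ 0)) e4
  · refine Subset.antisymm ?_ ?_
    · rintro _ ⟨x, hx, rfl⟩
      have hx' := mem_sphere_zero_iff_norm.1 hx
      have : δ x ∈ Z.FW ∩ Z.hW ⁻¹' Iic 0 :=
        him ▸ mem_image_of_mem _ (sphere_subset_closedBall hx)
      refine ⟨this.1, ?_⟩
      rw [mem_preimage, hlev x (by linarith) hx'.le, hx', mem_singleton_iff]
      norm_num
    · rintro w ⟨hw, hw'⟩
      rw [mem_preimage, mem_singleton_iff] at hw'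
      have : w ∈ δ '' closedBall 0 1 := him ▸ ⟨hw, hw'.le⟩
      obtain ⟨x, hx, rfl⟩ := this
      have hx' := mem_closedBall_zero_iff.1 hx
      refine ⟨x, mem_sphere_zero_iff_norm.2 ?_, rfl⟩
      rcases le_or_gt ‖x‖ (1 / 2) with h | h
      · rw [h1 x h, F2 _ (F7 x h)] at hw'
        norm_num at hw'
      · rw [hlev x h hx'] at hw'
        linarith

end Pool.Agent.MP_bc14e1_gt

end

section

open Set Metric
open scoped Classical

namespace Pool.Agent.MP_bc14e1_gt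

/-- A segment in the plane. -/
def Hur_seg (a b : ℝ × ℝ) : C(unitInterval, ℝ × ℝ) :=
  ⟨fun t => a + (t : ℝ) • (b - a), by fun_prop⟩

theorem Hur_dseg (a b : ℝ × ℝ) : dT ℤ _ (pth ℤ (Hur_seg a b)) = pt ℤ b - pt ℤ a := by
  rw [dT_pth]
  simp [Hur_seg]

theorem Hur_sq (h : CtrStmt) {X : Type} [TopologicalSpace X] {V : Set X} {F : ℝ × ℝ → X}
    (hF : Continuous F) (hV : ∀ q, F q ∈ V) {z : Tot ℤ (ℝ × ℝ)} (hz : z ∈ DG ℤ (ℝ × ℝ) 1)
    (h0 : dT ℤ _ z = 0) : psh ℤ F z ∈ BC ℤ V 1 := by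
  obtain ⟨b, hb, rfl⟩ := (h ℤ (ℝ × ℝ) univ 0 ⟨trivial, fun q => (1 - q.1) • q.2, by fun_prop,
    fun _ _ => trivial, fun y _ => by simp, fun y _ => by simp⟩).1 1 one_ne_zero
    ⟨⟨mem_CH_univ z, hz⟩, h0⟩
  exact ⟨psh ℤ F b, ⟨psh_mem_CH F (fun q _ => hV q) hb.1, psh_mem_DG F hb.2⟩, dT_psh_cont hF b⟩

theorem Hur_psh {X : Type} [TopologicalSpace X] {F : ℝ × ℝ → X} (hF : Continuous F)
    (a b : ℝ × ℝ) (γ : C(unitInterval, X)) (h : ∀ t : unitInterval, F (a + (t : ℝ) • (b - a)) = γ t) :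
    psh ℤ F (pth ℤ (Hur_seg a b)) = pth ℤ γ := by
  rw [psh_pth F _ (hF.comp (Hur_seg a b).continuous)]
  exact congrArg (pth ℤ) (ContinuousMap.ext h)

/-- A path in a subset as a path in the space. -/
def Hur_val {X : Type} [TopologicalSpace X] {V : Set X} {a b : V} (γ : Path a b) :
    C(unitInterval, X) := ⟨fun t => γ t, continuous_subtype_val.comp γ.continuous⟩

theorem Hur_tri (h : CtrStmt) {X : Type} [TopologicalSpace X] {V : Set X} {o a b : V}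
    (α : Path o a) (σ : Path a b) (β : Path o b) (H : (α.trans σ).Homotopic β) :
    pth ℤ (Hur_val σ) - (pth ℤ (Hur_val β) - pth ℤ (Hur_val α)) ∈ BC ℤ V 1 := by
  obtain ⟨H⟩ := H
  let F : ℝ × ℝ → X := fun q => H (projIcc 0 1 zero_le_one q.1, projIcc 0 1 zero_le_one q.2)
  have hF : Continuous F := continuous_subtype_val.comp (H.continuous.comp
    ((continuous_projIcc.comp continuous_fst).prodMk (continuous_projIcc.comp continuous_snd)))
  have hV : ∀ q, F q ∈ V := fun q => Subtype.prop _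
  have F0 : ∀ u : ℝ, F (0, u) = (α.trans σ).extend u := fun u => by
    simp only [F, projIcc_left]
    exact congrArg Subtype.val (H.toHomotopy.apply_zero _)
  have F1 : ∀ u : unitInterval, F (1, u) = β u := fun u => by
    simp only [F, projIcc_right, projIcc_val]
    exact congrArg Subtype.val (H.toHomotopy.apply_one _)
  have F2 : ∀ θ : ℝ, F (θ, 0) = o := fun θ => by
    simp only [F, projIcc_left]
    exact congrArg Subtype.val (H.source _)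
  have F3 : ∀ θ : ℝ, F (θ, 1) = b := fun θ => by
    simp only [F, projIcc_right]
    exact congrArg Subtype.val (H.target _)
  have e1 := Hur_psh hF (0, 0) (0, 1 / 2) (Hur_val α) fun t => by
    have e : ((0, 0) : ℝ × ℝ) + (t : ℝ) • ((0, 1 / 2) - (0, 0)) = (0, (t : ℝ) / 2) := by
      ext <;> simp [div_eq_mul_inv]
    rw [e, F0, Path.extend_trans_of_le_half _ _ (by linarith [t.2.2]), mul_div_cancel₀ _ two_ne_zero,
      Path.extend_extends']
    rfl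
  have e2 := Hur_psh hF (0, 1 / 2) (0, 1) (Hur_val σ) fun t => by
    have e : ((0, 1 / 2) : ℝ × ℝ) + (t : ℝ) • ((0, 1) - (0, 1 / 2)) = (0, (1 + (t : ℝ)) / 2) := by
      ext
      · simp
      · simp only [Prod.snd_add, Prod.smul_snd, Prod.snd_sub, smul_eq_mul]
        ring
    rw [e, F0, Path.extend_trans_of_half_le _ _ (by linarith [t.2.1]),
      mul_div_cancel₀ _ two_ne_zero, add_sub_cancel_left, Path.extend_extends']
    rfl
  have e3 := Hur_psh hF (1, 0) (1, 1) (Hur_val β) fun t => by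
    have e : ((1, 0) : ℝ × ℝ) + (t : ℝ) • ((1, 1) - (1, 0)) = (1, (t : ℝ)) := by
      ext <;> simp
    rw [e, F1]
    rfl
  have e4 := Hur_psh hF (0, 0) (1, 0) (ContinuousMap.const _ o) fun t => by
    have e : ((0, 0) : ℝ × ℝ) + (t : ℝ) • ((1, 0) - (0, 0)) = ((t : ℝ), 0) := by
      ext <;> simp
    rw [e, F2]
    rfl
  have e5 := Hur_psh hF (0, 1) (1, 1) (ContinuousMap.const _ b) fun t => by
    have e : ((0, 1) : ℝ × ℝ) + (t : ℝ) • ((1, 1) - (0, 1)) = ((t : ℝ), 1) := by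
      ext <;> simp
    rw [e, F3]
    rfl
  have e6 := Hur_psh hF (0, 0) (0, 0) (ContinuousMap.const _ o) fun t => by
    rw [sub_self, smul_zero, add_zero, F2]
    rfl
  have e7 := Hur_psh hF (0, 1) (0, 1) (ContinuousMap.const _ b) fun t => by
    rw [sub_self, smul_zero, add_zero, F3]
    rfl
  have k := Hur_sq h hF hV (z := pth ℤ (Hur_seg (0, 1 / 2) (0, 1)) -
    (pth ℤ (Hur_seg (1, 0) (1, 1)) - pth ℤ (Hur_seg (0, 0) (0, 1 / 2))) +
    (pth ℤ (Hur_seg (0, 1) (1, 1)) - pth ℤ (Hur_seg (0, 1) (0, 1))) -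
    (pth ℤ (Hur_seg (0, 0) (1, 0)) - pth ℤ (Hur_seg (0, 0) (0, 0))))
    (sub_mem (add_mem (sub_mem (pth_mem_DG _) (sub_mem (pth_mem_DG _) (pth_mem_DG _)))
      (sub_mem (pth_mem_DG _) (pth_mem_DG _))) (sub_mem (pth_mem_DG _) (pth_mem_DG _)))
    (by
      simp only [map_sub, map_add, Hur_dseg]
      abel)
  simp only [map_sub, map_add] at k
  rwa [e1, e2, e3, e4, e5, e6, e7, sub_self, sub_self, add_zero, sub_zero] at k

theorem hur_stmt (B : Bas1) : HurStmt := by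
  intro X _ V hV c hc
  obtain ⟨o⟩ : Nonempty V := inferInstance
  let f : X → Tot ℤ X := fun x =>
    if h : x ∈ V then pth ℤ (Hur_val (PathConnectedSpace.somePath o ⟨x, h⟩)) else 0
  have hs : c ∈ Finsupp.supported ℤ ℤ ({σ : TS X | range σ.2 ⊆ V} ∩ {σ | σ.1 = 1}) := by
    rw [Finsupp.supported_inter]
    exact hc.1
  have key : c - val0 ℤ f (dT ℤ X c) ∈ BC ℤ V 1 := by
    refine supported_ind (P := fun c => c - val0 ℤ f (dT ℤ X c) ∈ BC ℤ V 1) (by simp)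
      (fun a b ha hb => ?_) ?_ hs
    · rw [map_add, map_add, add_sub_add_comm]
      exact add_mem ha hb
    rintro ⟨k, σ⟩ ⟨hσ, rfl : k = 1⟩ n
    let s : C(unitInterval, X) :=
      σ.comp (stdSimplexHomeomorphUnitInterval.symm : C(unitInterval, Sx 1))
    have hsV : ∀ t, s t ∈ V := fun t => hσ ⟨_, rfl⟩
    let γ : Path (⟨s 0, hsV 0⟩ : V) ⟨s 1, hsV 1⟩ :=
      ⟨⟨fun t => ⟨s t, hsV t⟩, s.continuous.subtype_mk _⟩, rfl, rfl⟩
    have e : Finsupp.single (⟨1, σ⟩ : TS X) n = n • pth ℤ s := by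
      rw [pth, Finsupp.smul_single, smul_eq_mul, mul_one]
      congr 2
      ext y
      exact congrArg σ (stdSimplexHomeomorphUnitInterval.symm_apply_apply y).symm
    have h := Hur_tri B.ctr (PathConnectedSpace.somePath o _) γ (PathConnectedSpace.somePath o _)
      (SimplyConnectedSpace.paths_homotopic _ _)
    rw [e, map_smul, map_smul, ← smul_sub, dT_pth, map_sub, val0_pt, val0_pt]
    refine Submodule.smul_mem _ _ ?_
    simp only [f, dif_pos (hsV 0), dif_pos (hsV 1)]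
    exact h
  have h0 : dT ℤ X c = 0 := hc.2
  rwa [h0, map_zero, sub_zero] at key

end Pool.Agent.MP_bc14e1_gt

end

section

open Set Metric
open scoped Classical

namespace Pool.Agent.MP_bc14e1_gt

theorem HomW_union {α β : Type} [TopologicalSpace α] [TopologicalSpace β] {f : α → β}
    {S C₁ C₂ : Set α} (h₁ : IsClosed C₁) (h₂ : IsClosed C₂) (hS : S ⊆ C₁ ∪ C₂)
    (f₁ : ContinuousOn f (S ∩ C₁)) (f₂ : ContinuousOn f (S ∩ C₂)) : ContinuousOn f S := by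
  have key : ∀ C, IsClosed C → ContinuousOn f (S ∩ C) → ∀ x ∈ S,
      ContinuousWithinAt f (S ∩ C) x := fun C hC hf x hx => by
    by_cases h : x ∈ C
    · exact hf x ⟨hx, h⟩
    · exact continuousWithinAt_of_notMem_closure fun h' =>
        h (hC.closure_subset_iff.2 inter_subset_right h')
  intro x hx
  have := (key _ h₁ f₁ x hx).union (key _ h₂ f₂ x hx)
  rwa [← inter_union_distrib_left, inter_eq_left.2 hS] at this

theorem HomW_norm {s : ℝ} (hs : s ∈ Icc (0 : ℝ) 1) {v : E 4} (hv : 0 < ‖v‖) :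
    ‖((1 - s) + s * ‖v‖⁻¹) • v‖ = (1 - s) * ‖v‖ + s := by
  have : 0 ≤ (1 - s) + s * ‖v‖⁻¹ :=
    add_nonneg (sub_nonneg.2 hs.2) (mul_nonneg hs.1 (inv_nonneg.2 hv.le))
  rw [norm_smul, Real.norm_of_nonneg this, add_mul, mul_assoc, inv_mul_cancel₀ hv.ne', mul_one]

/-- The radial deformation of the complement of the half ball. -/
theorem HomW_def {W : Type} [TopologicalSpace W] [T2Space W] (c : OpenPartialHomeomorph W (E 4))
    (hc : closedBall 0 1 ⊆ c.target) :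
    ∃ H : ℝ × W → W,
      ContinuousOn H (Icc 0 1 ×ˢ (c.symm '' closedBall 0 (1 / 2))ᶜ) ∧
      MapsTo H (Icc 0 1 ×ˢ (c.symm '' closedBall 0 (1 / 2))ᶜ) (c.symm '' closedBall 0 (1 / 2))ᶜ ∧
      (∀ w ∈ (c.symm '' closedBall 0 (1 / 2))ᶜ, H (0, w) = w) ∧
      ∀ w ∈ (c.symm '' closedBall 0 (1 / 2))ᶜ, H (1, w) ∈ (c.symm '' ball 0 1)ᶜ := by
  have hB : ∀ w ∈ c.symm '' closedBall 0 1, w ∈ (c.symm '' closedBall 0 (1 / 2))ᶜ →
      w ∈ c.source ∧ 1 / 2 < ‖c w‖ ∧ ‖c w‖ ≤ 1 := by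
    rintro _ ⟨v, hv, rfl⟩ h
    rw [c.right_inv (hc hv)]
    refine ⟨c.map_target (hc hv), ?_, mem_closedBall_zero_iff.1 hv⟩
    by_contra h'
    exact h ⟨v, mem_closedBall_zero_iff.2 (not_lt.1 h'), rfl⟩
  have hI : ∀ v : E 4, ‖v‖ ≤ 1 → ∀ T ⊆ closedBall (0 : E 4) 1, v ∉ T → c.symm v ∉ c.symm '' T := by
    rintro v hv T hT hvT ⟨v', hv', e⟩
    exact hvT (c.symm.injOn (hc (hT hv')) (hc (mem_closedBall_zero_iff.2 hv)) e ▸ hv')
  have hN : ∀ s ∈ Icc (0 : ℝ) 1, ∀ v : E 4, 1 / 2 < ‖v‖ → ‖v‖ ≤ 1 →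
      1 / 2 < ‖((1 - s) + s * ‖v‖⁻¹) • v‖ ∧ ‖((1 - s) + s * ‖v‖⁻¹) • v‖ ≤ 1 := by
    intro s hs v h1 h2
    rw [HomW_norm hs (by linarith)]
    constructor <;> nlinarith [hs.1, hs.2]
  have hsub : c.symm '' ball 0 1 ⊆ c.symm '' closedBall 0 1 := image_mono ball_subset_closedBall
  refine ⟨fun x => if x.2 ∈ c.symm '' ball 0 1 then
    c.symm (((1 - x.1) + x.1 * ‖c x.2‖⁻¹) • c x.2) else x.2, ?_, ?_, ?_, ?_⟩
  · refine HomW_union (C₁ := Prod.snd ⁻¹' (c.symm '' ball 0 1)ᶜ)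
      (C₂ := Prod.snd ⁻¹' (c.symm '' closedBall 0 1))
      ((c.isOpen_image_symm_of_subset_target isOpen_ball
        (ball_subset_closedBall.trans hc)).isClosed_compl.preimage continuous_snd)
      (((isCompact_closedBall 0 1).image_of_continuousOn
        (c.continuousOn_symm.mono hc)).isClosed.preimage continuous_snd)
      (fun x _ => (em (x.2 ∈ c.symm '' ball 0 1)).symm.imp id fun h => hsub h) ?_ ?_
    · exact continuous_snd.continuousOn.congr fun x hx => if_neg hx.2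
    · have h1 : ContinuousOn (fun x : ℝ × W => c x.2)
          ((Icc 0 1 ×ˢ (c.symm '' closedBall 0 (1 / 2))ᶜ) ∩
            Prod.snd ⁻¹' (c.symm '' closedBall 0 1)) :=
        c.continuousOn.comp continuous_snd.continuousOn fun x hx => (hB _ hx.2 hx.1.2).1
      have h2 : ContinuousOn (fun x : ℝ × W => ((1 - x.1) + x.1 * ‖c x.2‖⁻¹) • c x.2)
          ((Icc 0 1 ×ˢ (c.symm '' closedBall 0 (1 / 2))ᶜ) ∩
            Prod.snd ⁻¹' (c.symm '' closedBall 0 1)) :=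
        ((continuous_const.sub continuous_fst).continuousOn.add (continuous_fst.continuousOn.mul
          (h1.norm.inv₀ fun x hx => by have := (hB _ hx.2 hx.1.2).2.1; linarith))).smul h1
      refine (c.continuousOn_symm.comp h2 fun x hx => hc (mem_closedBall_zero_iff.2
        (hN _ hx.1.1 _ (hB _ hx.2 hx.1.2).2.1 (hB _ hx.2 hx.1.2).2.2).2)).congr fun x hx => ?_
      by_cases h : x.2 ∈ c.symm '' ball 0 1
      · exact if_pos h
      · obtain ⟨a1, a2, a3⟩ := hB _ hx.2 hx.1.2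
        have a4 : ‖c x.2‖ = 1 := le_antisymm a3 (not_lt.1 fun h' =>
          h ⟨c x.2, mem_ball_zero_iff.2 h', c.left_inv a1⟩)
        refine (if_neg h).trans ?_
        rw [Function.comp_apply, a4, inv_one, mul_one, sub_add_cancel, one_smul, c.left_inv a1]
  · intro x hx
    by_cases h : x.2 ∈ c.symm '' ball 0 1
    · obtain ⟨-, a2, a3⟩ := hB _ (hsub h) hx.2
      obtain ⟨b1, b2⟩ := hN _ hx.1 _ a2 a3
      beta_reduce
      rw [if_pos h]
      exact hI _ b2 _ (closedBall_subset_closedBall (by norm_num)) fun h' =>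
        not_le.2 b1 (mem_closedBall_zero_iff.1 h')
    · beta_reduce
      rw [if_neg h]
      exact hx.2
  · intro w hw
    by_cases h : w ∈ c.symm '' ball 0 1
    · refine (if_pos h).trans ?_
      rw [zero_mul, add_zero, sub_zero, one_smul, c.left_inv (hB _ (hsub h) hw).1]
    · exact if_neg h
  · intro w hw
    by_cases h : w ∈ c.symm '' ball 0 1
    · obtain ⟨-, a2, a3⟩ := hB _ (hsub h) hw
      have e : ‖((1 - 1) + 1 * ‖c w‖⁻¹) • c w‖ = 1 := by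
        rw [HomW_norm ⟨zero_le_one, le_rfl⟩ (by linarith)]; ring
      beta_reduce
      rw [if_pos h]
      exact hI _ e.le _ ball_subset_closedBall fun h' => (mem_ball_zero_iff.1 h').ne e
    · beta_reduce
      rw [if_neg h]
      exact h

theorem HomW_push (κ : Kit) {W : Type} [TopologicalSpace W] {U V : Set W} {H : ℝ × W → W}
    (h1 : ContinuousOn H (Icc 0 1 ×ˢ U)) (h2 : MapsTo H (Icc 0 1 ×ˢ U) U)
    (h3 : ∀ w ∈ U, H (0, w) = w) (h4 : ∀ w ∈ U, H (1, w) ∈ V) {k : ℕ} {z : Tot ℤ W}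
    (hz : z ∈ ZC ℤ U k) : ∃ z' ∈ ZC ℤ V k, z - z' ∈ BC ℤ U k := by
  have hd : dT ℤ W z = 0 := hz.2
  have e := dT_hop κ h1 hz.1.1
  rw [hd, map_zero, add_zero, psh_of_eqOn_id h3 hz.1.1] at e
  refine ⟨psh ℤ (fun x => H (1, x)) z, ⟨⟨psh_mem_CH _ h4 hz.1.1, psh_mem_DG _ hz.1.2⟩, ?_⟩,
    -hop κ ℤ H z, neg_mem ⟨hop_mem_CH κ H h2 hz.1.1, hop_mem_DG κ H hz.1.2⟩, ?_⟩
  · change dT ℤ W _ = 0
    rw [eq_add_of_sub_eq e.symm, map_add, dT_dT, hd, add_zero]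
  · rw [map_neg, e, neg_sub]

theorem HomW_mono {W : Type} [TopologicalSpace W] {U V : Set W} (h : V ⊆ U) (k : ℕ) :
    BC ℤ V k ≤ BC ℤ U k := Submodule.map_mono (inf_le_inf_right _ (CH_mono h))

theorem homW_stmt (B : Bas1) (hHur : HurStmt) : HomWStmt := by
  intro K Z
  obtain ⟨κ⟩ := B.kit
  obtain ⟨H, h1, h2, h3, h4⟩ := HomW_def Z.c Z.tgt
  have hVU : (Z.c.symm '' ball 0 1)ᶜ ⊆ Z.U1 :=
    compl_subset_compl.2 (image_mono (closedBall_subset_ball (by norm_num)))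
  refine ⟨?_, fun z hz => ?_, fun z hz => ?_⟩
  · have := Z.sc
    obtain ⟨x, hx, hj⟩ : IsPathConnected (Z.c.symm '' ball 0 1)ᶜ :=
      isPathConnected_iff_pathConnectedSpace.2 inferInstance
    refine ⟨x, hVU hx, fun w hw => ((hj (h4 w hw)).mono hVU).trans (JoinedIn.symm ?_)⟩
    refine JoinedIn.ofLine (f := fun s => H (s, w))
      (h1.comp (continuous_id.prodMk continuous_const).continuousOn fun s hs => ⟨hs, hw⟩)
      (h3 w hw) rfl ?_
    rintro _ ⟨s, hs, rfl⟩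
    exact h2 ⟨hs, hw⟩
  · obtain ⟨z', hz', e⟩ := HomW_push κ h1 h2 h3 h4 hz
    have := add_mem e (HomW_mono hVU 1 (hHur _ _ Z.sc hz'))
    rwa [sub_add_cancel] at this
  · obtain ⟨z', hz', e⟩ := HomW_push κ h1 h2 h3 h4 hz
    obtain ⟨b, rfl⟩ := exists_inc hz'.1.2
    have hd : dT ℤ Z.W (inc ℤ 2 b) = 0 := hz'.2
    rw [dT_inc_succ, ← map_zero (inc ℤ 1)] at hd
    obtain ⟨n, ⟨b', hb', hn⟩, -⟩ := Z.gen b (inc_mem_CH.1 hz'.1.1) (inc_injective 1 hd)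
    have a := eq_zero_of_mem_CH_empty (inc_mem_CH.2 hn)
    rw [map_sub, map_sub, map_sum, sub_eq_zero, ← dT_inc_succ] at a
    simp only [map_smul] at a
    refine ⟨n, ?_⟩
    have := add_mem e (HomW_mono hVU 2 ⟨inc ℤ 3 b', ⟨inc_mem_CH.2 hb', inc_mem_DG 3 b'⟩, a.symm⟩)
    rwa [sub_add_sub_cancel] at this

end Pool.Agent.MP_bc14e1_gt

end

section

open Set Metric
open scoped Classical

namespace Pool.Agent.MP_bc14e1_gt

/-- The comparison of the pairings for an open embedding. -/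
theorem GNum_comp (hC : CompStmt) (κ : Kit) {X Y : Type} [TopologicalSpace X] [T2Space X]
    [ChartedSpace (E 4) X] [TopologicalSpace Y] [T2Space Y] (o : Orientation4 X) {q : Y → X}
    (hq : IsLocalHomeomorph q) (hi : Function.Injective q) {τ : TS (Y × Y) → ℝ}
    {τ' : TS (X × X) → ℝ} (h : IsThom o q τ) (h' : IsThom o id τ') {u v : Tot ℂ Y}
    (hu : u ∈ ZC ℂ univ 2) (hv : v ∈ ZC ℂ univ 2) :
    beta κ τ u v = beta κ τ' (psh ℂ q u) (psh ℂ q v) := by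
  let _ : MulAction Unit Y :=
    { smul := fun _ y => y
      one_smul := fun _ => rfl
      mul_smul := fun _ _ _ => rfl }
  have : ContinuousConstSMul Unit Y := ⟨fun _ => continuous_id⟩
  have := hC κ X X Unit Y X o o q id q τ τ' hq (Homeomorph.refl X).isLocalHomeomorph hq
    (fun _ _ => rfl) (fun _ _ _ h => h) (fun _ _ _ => rfl)
    (fun y y' => ⟨fun e => ⟨1, (hi e).symm⟩, fun ⟨_, e⟩ => congrArg q e.symm⟩)
    (fun _ _ _ _ => toFinite _) h h' u hu v hv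
  rwa [finsum_unique, Subsingleton.elim (default : Unit) 1, gs_one] at this

/-- Local degrees are preserved by an oriented open embedding. -/
theorem GNum_deg {W X : Type} [TopologicalSpace W] [T2Space W] [TopologicalSpace X]
    {o : Orientation4 W} {o' : Orientation4 X} {i : OpenPartialHomeomorph W X} (hO : OC o o' i)
    {y : i.source} {c : Tot ℝ i.source} {r : ℝ} (h : LocDeg o Subtype.val y c r) :
    LocDeg o' (i ∘ Subtype.val) y c r := by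
  obtain ⟨U, hU, hy, -, hc, hd, b, hb⟩ := h
  have hsub : ({y.1} : Set W) ⊆ i.source := singleton_subset_iff.2 y.2
  obtain ⟨z, hz, w, hw⟩ := exc_surj (R := ℤ) isClosed_singleton i.open_source hsub
    (inc_mem_DG 4 (o.o y.1)) (by rw [dT_inc_succ, inc_mem_CH]; exact o.rel _)
  obtain ⟨w', hw'⟩ := hO y.1 y.2 z hz ⟨w, hw⟩
  have hc1 : psh ℝ Subtype.val c ∈ CH ℝ i.source :=
    psh_mem_CH _ (fun x _ => x.2) (mem_CH_univ c)
  have hz1 : castZ ℝ W z ∈ CH ℝ i.source := cast_mem_CH _ hz.1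
  obtain ⟨b₁, hb₁, h₁⟩ := exc_inj (R := ℝ) isClosed_singleton i.open_source hsub
    (z := psh ℝ Subtype.val c - r • castZ ℝ W z) (w := b - r • castZ ℝ W w)
    (sub_mem hc1 (Submodule.smul_mem _ r hz1)) (by
      have := sub_mem hb (Submodule.smul_mem _ r (cast_mem_CH (Int.castRingHom ℝ) hw))
      rw [map_sub, map_sub, cast_dT] at this
      convert this using 1
      rw [map_sub, map_smul, smul_sub, smul_sub]
      abel)
  refine ⟨U, hU, hy, fun a _ a' _ e => Subtype.ext (i.injOn a.2 a'.2 e), hc, hd,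
    psh ℝ i b₁ + r • castZ ℝ X w', ?_⟩
  have h₂ : psh ℝ i (psh ℝ Subtype.val c - r • castZ ℝ W z - dT ℝ W b₁) ∈ CH ℝ {i y.1}ᶜ :=
    psh_mem_CH _ (fun x hx e => hx.2 (i.injOn hx.1 y.2 e)) h₁
  rw [map_sub, map_sub, map_smul, psh_psh' _ continuous_subtype_val,
    ← dT_psh i.continuousOn hb₁, ← cast_psh] at h₂
  have := add_mem h₂ (Submodule.smul_mem _ r (cast_mem_CH (Int.castRingHom ℝ) hw'))
  rw [map_sub, map_sub, cast_dT] at this
  simp only [Function.comp_apply]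
  convert this using 1
  rw [map_add, map_smul, smul_sub, smul_sub]
  abel

/-- Cycles in an open set come from the subspace. -/
theorem GNum_lift {W : Type} [TopologicalSpace W] {A : Set W} {x : Sing W 2 →₀ ℤ}
    (hx : x ∈ supp ℤ A 2) (h0 : bd ℤ W 1 x = 0) :
    ∃ u : Tot ℤ A, castZ ℂ A u ∈ ZC ℂ univ 2 ∧ psh ℤ Subtype.val u = inc ℤ 2 x := by
  let f : C(A, W) := ⟨Subtype.val, continuous_subtype_val⟩
  obtain ⟨b, -, rfl⟩ := exists_push_eq (A := univ) f Topology.IsEmbedding.subtypeVal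
    (c := x) (supp_mono (show A ⊆ f '' univ from fun w hw => ⟨⟨w, hw⟩, trivial, rfl⟩) 2 hx)
  refine ⟨inc ℤ 2 b, ⟨⟨mem_CH_univ _, cast_mem_DG _ (inc_mem_DG 2 b)⟩, ?_⟩, psh_inc f 2 b⟩
  rw [bd_push] at h0
  have : bd ℤ A 1 b = 0 := push_injective f Subtype.val_injective 1 (h0.trans (map_zero _).symm)
  rw [SetLike.mem_coe, LinearMap.mem_ker, ← cast_dT, dT_inc_succ, this, map_zero, map_zero]

theorem gNum_stmt (B : Bas2) (hLocDeg : LocDegStmt) : GNumStmt := by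
  intro κ W X _ _ _ _ _ _ o o' i hO τ hτ x hx y hy hx0 hy0 n hn
  have h1 : Topology.IsOpenEmbedding (Subtype.val : i.source → W) :=
    i.open_source.isOpenEmbedding_subtypeVal
  have h2 : Topology.IsOpenEmbedding (i ∘ (Subtype.val : i.source → W)) :=
    i.isOpenEmbedding_restrict
  obtain ⟨τW, hW⟩ := B.thomEx W W o id (Homeomorph.refl W).isLocalHomeomorph
  obtain ⟨τY, hY⟩ := B.thomEx X i.source o' _ h2.isLocalHomeomorph
  have hY' : IsThom o Subtype.val τY :=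
    ⟨hY.dg, hY.off, hY.coc, fun y c r h => hY.one y c r (GNum_deg hO h)⟩
  obtain ⟨u, hu, eu⟩ := GNum_lift hx hx0
  obtain ⟨v, hv, ev⟩ := GNum_lift hy hy0
  have e1 := GNum_comp B.comp κ o h1.isLocalHomeomorph h1.injective hY' hW hu hv
  have e2 := GNum_comp B.comp κ o' h2.isLocalHomeomorph h2.injective hY hτ hu hv
  rw [← cast_psh, ← cast_psh, eu, ev, B.inter κ W o τW hW x y n hn] at e1
  rw [← cast_psh, ← cast_psh, ← psh_psh' _ continuous_subtype_val,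
    ← psh_psh' _ continuous_subtype_val, eu, ev] at e2
  exact e2.symm.trans e1

end Pool.Agent.MP_bc14e1_gt

end

section

open Set Metric
open scoped Classical

namespace Pool.Agent.MP_bc14e1_gt

section Tr

variable {W X : Type} [TopologicalSpace W] [TopologicalSpace X] (i : OpenPartialHomeomorph W X)

theorem Dbl_zc {k : ℕ} {A : Set W} {B : Set X} (hA : A ⊆ i.source) (hAB : MapsTo i A B)
    {z : Tot ℤ W} (hz : z ∈ ZC ℤ A k) : psh ℤ i z ∈ ZC ℤ B k := by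
  refine ⟨⟨psh_mem_CH _ hAB hz.1.1, psh_mem_DG _ hz.1.2⟩, ?_⟩
  have h : dT ℤ W z = 0 := hz.2
  change dT ℤ X (psh ℤ i z) = 0
  rw [dT_psh (i.continuousOn.mono hA) hz.1.1, h, map_zero]

theorem Dbl_bc {k : ℕ} {z : Tot ℤ W} (hz : z ∈ BC ℤ i.source k) :
    psh ℤ i z ∈ BC ℤ i.target k := by
  obtain ⟨b, hb, rfl⟩ := hz
  exact ⟨psh ℤ i b, ⟨psh_mem_CH _ i.mapsTo hb.1, psh_mem_DG _ hb.2⟩,
    dT_psh i.continuousOn hb.1⟩

theorem Dbl_inv {z : Tot ℤ X} (hz : z ∈ CH ℤ i.target) : psh ℤ i (psh ℤ i.symm z) = z := by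
  rw [psh_psh _ i.continuousOn_symm hz]
  exact psh_of_eqOn_id (fun x hx => i.right_inv hx) hz

end Tr

theorem dbl_stmt (hGlue : GlueStmt) (hGTop : GTopStmt) (hGMan : GManStmt) (hGOri : GOriStmt)
    (hFlatW : FlatWStmt) (hDiscW : DiscWStmt) (hHomW : HomWStmt) (hGNum : GNumStmt) : DblStmt := by
  intro κ K ι hK hι hdet hιK hZ
  obtain ⟨Z⟩ := hZ.zd
  obtain ⟨Γ⟩ := hGlue K ι Z hι
  have T := hGTop K ι Z Γ hK hι hιK
  have := T.t2
  have := T.cpt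
  obtain ⟨ch, mf⟩ := hGMan K ι Z Γ
  obtain ⟨o', hoI, hoc⟩ := hGOri K ι Z Γ T.t2 hι hdet
  obtain ⟨δ, δc, δi, δ0, δ1⟩ := hDiscW K Z hK
  obtain ⟨c0, c1, c2⟩ := hHomW K Z
  obtain ⟨e, e1, e2, e3, e4, e5⟩ := T.emb
  have hsrc := Γ.src
  rw [← hsrc] at c0 c1 c2
  have fl1 : ∀ x ∈ Γ.F, x ∈ Γ.i.target → ∃ c, FlatCh Γ.F c ∧ x ∈ c.source := by
    intro x hx hx'
    have h1 : ∀ y ∈ Γ.i.target, y ∈ Γ.F ↔ Γ.i.symm y ∈ Z.FW := fun y hy => by
      rw [← T.Fi _ (hsrc ▸ Γ.i.map_target hy), Γ.i.right_inv hy]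
    obtain ⟨c, hc, hxc⟩ := hFlatW K Z hK _ ((h1 x hx').1 hx)
    exact ⟨Γ.i.symm.trans c, fun y hy => (h1 y hy.1).trans (hc _ hy.2), hx', hxc⟩
  have fl : Flat Γ.F := by
    refine ⟨T.cl, fun x hx => ?_⟩
    rcases Γ.cover x with h | h
    · exact fl1 x hx h
    · obtain ⟨c, hc, hxc⟩ := fl1 _ ((T.IF x).2 hx) h
      exact ⟨Γ.I.toOpenPartialHomeomorph.trans c,
        fun y hy => (T.IF y).symm.trans (hc _ hy.2), trivial, hxc⟩
  have im : ∀ J : Set ℝ, J ⊆ Iio 1 → Γ.i '' (Z.FW ∩ Z.hW ⁻¹' J) = Γ.F ∩ Γ.h ⁻¹' J := by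
    intro J hJ
    ext x
    constructor
    · rintro ⟨w, ⟨h1, h2⟩, rfl⟩
      refine ⟨(T.Fi w (T.sub h1)).2 h1, ?_⟩
      rwa [mem_preimage, T.hi w (T.sub h1)]
    · rintro ⟨h1, h2⟩
      have h3 : x ∈ Γ.i.target := T.tgt ▸ hJ h2
      have h4 : Γ.i.symm x ∈ Z.U1 := hsrc ▸ Γ.i.map_target h3
      refine ⟨Γ.i.symm x, ⟨(T.Fi _ h4).1 (by rwa [Γ.i.right_inv h3]), ?_⟩, Γ.i.right_inv h3⟩
      rw [mem_preimage, ← T.hi _ h4, Γ.i.right_inv h3]
      exact h2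
  have δm : MapsTo δ (closedBall 0 1) Γ.i.source := fun u hu => by
    have : δ u ∈ Z.FW ∩ Z.hW ⁻¹' Iic 0 := δ0 ▸ mem_image_of_mem δ hu
    exact hsrc ▸ T.sub this.1
  have hV : (Z.c.symm '' ball 0 1)ᶜ \ Z.d '' closedBall 0 1 ⊆ Γ.i.source := by
    rintro w ⟨h1, -⟩
    rw [hsrc]
    exact fun h => h1 (image_mono (closedBall_subset_ball (by norm_num)) h)
  have hS : ∀ j, inc ℤ 2 (Z.S j) ∈
      ZC ℤ ((Z.c.symm '' ball 0 1)ᶜ \ Z.d '' closedBall 0 1) 2 := fun j =>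
    ⟨⟨inc_mem_CH.2 (Z.Sm j).1, inc_mem_DG _ _⟩, by
      change dT ℤ _ (inc ℤ (1 + 1) (Z.S j)) = 0
      rw [dT_inc_succ, (Z.Sm j).2, map_zero]⟩
  have hS' : ∀ j, Z.S j ∈ supp ℤ Γ.i.source 2 := fun j =>
    inc_mem_CH.1 (CH_mono hV (hS j).1.1)
  refine ⟨{
    X := Γ.X, o := o', F := Γ.F, flat := fl, I := Γ.I, II := Γ.II, IF := T.IF, Io := hoI
    h := Γ.h, hc := T.hc, hI := T.hI, emb := e, src := e1, tgt := e2, h_emb := e3, F_emb := e4
    I_emb := e5, δ := Γ.i ∘ δ, δc := Γ.i.continuousOn.comp δc δm, δi := Γ.i.injOn.comp δi δm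
    δ0 := ?_, δ1 := ?_, conn := ?_, H1 := ?_, k := Z.k
    S := fun j => psh ℤ Γ.i (inc ℤ 2 (Z.S j)), Sm := fun j => ?_, H2 := ?_, num := ?_ }⟩
  · rw [image_comp, δ0, im (Iic 0) fun t (ht : t ≤ 0) => lt_of_le_of_lt ht one_pos]
  · rw [image_comp, δ1, im {0} fun t (ht : t = 0) => lt_of_le_of_lt ht.le one_pos]
  · rw [← T.tgt, ← Γ.i.image_source_eq_target]
    exact c0.image' Γ.i.continuousOn
  · rw [← T.tgt]
    intro z hz
    rw [← Dbl_inv Γ.i hz.1.1]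
    exact Dbl_bc Γ.i (c1 (Dbl_zc Γ.i.symm subset_rfl Γ.i.symm.mapsTo hz))
  · refine Dbl_zc Γ.i hV (fun w hw => ?_) (hS j)
    have h1 : w ∈ Z.U1 := hsrc ▸ hV hw
    refine ⟨fun h => ?_, ?_⟩
    · rcases (T.Fi w h1).1 h with h2 | ⟨v, hv, rfl⟩
      · exact hw.2 h2
      · exact hw.1 ⟨v, mem_ball_zero_iff.2 hv.1.2, rfl⟩
    · rw [mem_preimage, T.hi w h1, ZD.hW, if_neg hw.1]
      norm_num
  · rw [← T.tgt]
    intro z hz
    obtain ⟨n, hn⟩ := c2 _ (Dbl_zc Γ.i.symm subset_rfl Γ.i.symm.mapsTo hz)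
    have h1 := Dbl_bc Γ.i hn
    rw [map_sub, Dbl_inv Γ.i hz.1.1, map_sum] at h1
    simp only [map_smul] at h1
    exact ⟨n, h1⟩
  · intro τ hτ j j'
    rw [hGNum κ Z.W Γ.X Z.o o' Γ.i hoc τ hτ _ (hS' j) _ (hS' j') (Z.Sm j).2 (Z.Sm j').2 _
      (Z.num j j')]
    split_ifs <;> simp

end Pool.Agent.MP_bc14e1_gt

end
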