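import Pool.Agent.Mg.Fbc14e1.G6fb7b3

section

open Set Metric
open scoped Classical

namespace Pool.Agent.MP_bc14e1_gt

theorem MVs_factor {M N : Type} [AddCommGroup M] [Module ℂ M] [AddCommGroup N] [Module ℂ N]
    (φ : M →ₗ[ℂ] N) (S : Submodule ℂ N) (e : M →ₗ[ℂ] ℂ) (h : ∀ b, φ b ∈ S → e b = 0) :
    ∃ k : N →ₗ[ℂ] ℂ, (∀ b, k (φ b) = e b) ∧ ∀ c ∈ S, k c = 0 := by
  have h1 : e ∈ (LinearMap.ker (S.mkQ ∘ₗ φ)).dualAnnihilator := by
    rw [Submodule.mem_dualAnnihilator]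
    intro b hb
    exact h b ((Submodule.Quotient.mk_eq_zero S).1 hb)
  rw [← LinearMap.range_dualMap_eq_dualAnnihilator_ker] at h1
  obtain ⟨k, hk⟩ := h1
  refine ⟨k ∘ₗ S.mkQ, fun b => ?_, fun c hc => ?_⟩
  · rw [← hk]; rfl
  · rw [LinearMap.comp_apply, Submodule.mkQ_apply, (Submodule.Quotient.mk_eq_zero S).2 hc,
      map_zero]

theorem MVs_extend {M : Type} [AddCommGroup M] [Module ℂ M] (R W : Submodule ℂ M)
    (g : M →ₗ[ℂ] ℂ) (h : ∀ b ∈ R, b ∈ W → g b = 0) :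
    ∃ g' : M →ₗ[ℂ] ℂ, (∀ b ∈ R, g' b = g b) ∧ ∀ c ∈ W, g' c = 0 := by
  obtain ⟨k, hk, hW⟩ := MVs_factor R.subtype W (g ∘ₗ R.subtype) fun b hb => h b b.2 hb
  exact ⟨k, fun b hb => hk ⟨b, hb⟩, hW⟩

theorem MVs_sup_zero {M : Type} [AddCommGroup M] [Module ℂ M] {A C : Submodule ℂ M}
    {g : M →ₗ[ℂ] ℂ} (hA : ∀ b ∈ A, g b = 0) (hC : ∀ b ∈ C, g b = 0) :
    ∀ b ∈ A ⊔ C, g b = 0 := by
  intro b hb
  obtain ⟨a, ha, c, hc, rfl⟩ := Submodule.mem_sup.1 hb
  rw [map_add, hA a ha, hC c hc, add_zero]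

theorem MVs_sup_map {M : Type} [AddCommGroup M] [Module ℂ M] {A C : Submodule ℂ M}
    {g : M →ₗ[ℂ] M} (hA : ∀ b ∈ A, g b ∈ A) (hC : ∀ b ∈ C, g b ∈ C) :
    ∀ b ∈ A ⊔ C, g b ∈ A ⊔ C := by
  intro b hb
  obtain ⟨a, ha, c, hc, rfl⟩ := Submodule.mem_sup.1 hb
  rw [map_add]
  exact add_mem (Submodule.mem_sup_left (hA a ha)) (Submodule.mem_sup_right (hC c hc))

section

variable {G Y : Type} [Group G] [TopologicalSpace Y] [MulAction G Y] {s : G}
  {B : Tot ℂ Y →ₗ[ℂ] Tot ℂ Y →+ ℂ} {Z : Submodule ℂ (Tot ℂ Y)}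

theorem MVs_fun (B : Tot ℂ Y →ₗ[ℂ] Tot ℂ Y →+ ℂ) (u : Tot ℂ Y) :
    ∃ φ : Tot ℂ Y →ₗ[ℂ] ℂ, ∀ b, φ b = B b u :=
  ⟨{ toFun := fun b => B b u
     map_add' := fun a b => by rw [map_add]; rfl
     map_smul' := fun a b => by rw [map_smul]; rfl }, fun _ => rfl⟩

theorem MVs_N_mono {K K' : Set Y} (h : K ⊆ K') : CH ℂ K'ᶜ ⊔ Z ≤ CH ℂ Kᶜ ⊔ Z :=
  sup_le_sup_right (CH_mono (compl_subset_compl.2 h)) Z

omit [TopologicalSpace Y] in
theorem MVs_inv_compl {K : Set Y} (h : Inv s K) : Inv s Kᶜ := fun y => not_congr (h y)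

theorem MVs_sdHP_Z (hP : PP s B Z) (m : ℕ) : ∀ c ∈ Z, sdHP ℂ Y m c ∈ Z := by
  intro c hc
  rw [sdHP, LinearMap.sum_apply]
  exact sum_mem fun j _ => hP.sh _ (pow_mem hP.sd j hc)

theorem MVs_kill (hP : PP s B Z) {K : Set Y} (hK : Inv s K) {u : Tot ℂ Y} (hu : u ∈ CH ℂ K) :
    ∀ b ∈ CH ℂ Kᶜ ⊔ Z, B b u = 0 := by
  obtain ⟨φ, hφ⟩ := MVs_fun B u
  intro b hb
  rw [← hφ]
  refine MVs_sup_zero (fun b hb => ?_) (fun b hb => ?_) b hb
  · rw [hφ]; exact hP.loc _ _ (MVs_inv_compl hK) hK disjoint_compl_left b hb u hu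
  · rw [hφ]; exact hP.zl b hb u

theorem MVs_side {𝒦 : Set (Set Y)} {U : Set Y} (hA : Adm s 𝒦 U) (hi : PDi B Z 𝒦 U)
    {K K0 : Set Y} (hK : K ∈ 𝒦) (hK0 : K0 ∈ 𝒦) {v : Tot ℂ Y} (hv : v ∈ CH ℂ K0)
    (hdv : dT ℂ Y v ∈ Z)
    (h : ∀ b, dT ℂ Y b ∈ CH ℂ Kᶜ ⊔ Z → dT ℂ Y b ∈ CH ℂ K0ᶜ ⊔ Z → B b v = 0) :
    ∃ K' ∈ 𝒦, K ⊆ K' ∧ K0 ⊆ K' ∧ ∃ u ∈ CH ℂ K', v - dT ℂ Y u ∈ Z := by
  obtain ⟨u, hu, hZ⟩ := hi (K ∪ K0) (hA.union K hK K0 hK0) v (CH_mono subset_union_right hv) hdv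
    fun b hb => h b (MVs_N_mono subset_union_left hb) (MVs_N_mono subset_union_right hb)
  obtain ⟨L, hL, hLU, huL⟩ := exists_compact_CH hu
  obtain ⟨K', hK', hLK⟩ := hA.ex L hL hLU
  exact ⟨K ∪ K0 ∪ K', hA.union _ (hA.union K hK K0 hK0) K' hK',
    subset_union_left.trans subset_union_left, subset_union_right.trans subset_union_left,
    u, CH_mono (hLK.trans subset_union_right) huL, hZ⟩

theorem MVs_small (hP : PP s B Z) {K1 K2 : Set Y} (h1 : IsClosed K1) (h2 : IsClosed K2)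
    {g : Tot ℂ Y →ₗ[ℂ] ℂ} (hd : ∀ b, g (dT ℂ Y b) = 0)
    (hS : ∀ b ∈ CH ℂ K1ᶜ ⊔ CH ℂ K2ᶜ ⊔ Z, g b = 0) :
    ∃ g' : Tot ℂ Y →ₗ[ℂ] ℂ, (∀ b, dT ℂ Y b ∈ CH ℂ K1ᶜ ⊔ CH ℂ K2ᶜ ⊔ Z → g' b = g b) ∧
      (∀ b, g' (dT ℂ Y b) = 0) ∧ ∀ b ∈ CH ℂ (K1 ∩ K2)ᶜ ⊔ Z, g' b = 0 := by
  obtain ⟨g', hg, hW⟩ := MVs_extend ((CH ℂ K1ᶜ ⊔ CH ℂ K2ᶜ ⊔ Z).comap (dT ℂ Y))
    (LinearMap.range (dT ℂ Y) ⊔ (CH ℂ (K1 ∩ K2)ᶜ ⊔ Z)) g (by
      intro b hb hW
      obtain ⟨_, ⟨a, rfl⟩, c, hc, rfl⟩ := Submodule.mem_sup.1 hW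
      obtain ⟨o, ho, z, hz, rfl⟩ := Submodule.mem_sup.1 hc
      have hdo : dT ℂ Y o ∈ CH ℂ K1ᶜ ⊔ CH ℂ K2ᶜ ⊔ Z := by
        rw [Submodule.mem_comap, map_add, map_add, dT_dT, zero_add] at hb
        simpa using sub_mem hb (Submodule.mem_sup_right (hP.d z hz))
      rw [compl_inter] at ho
      obtain ⟨m, hm⟩ := sdT_small_two h1.isOpen_compl h2.isOpen_compl ho
      have e : o = (sdT ℂ Y ^ m) o + dT ℂ Y (sdHP ℂ Y m o) + sdHP ℂ Y m (dT ℂ Y o) := by
        rw [add_assoc, dT_sdHP]; abel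
      have ho0 : g o = 0 := by
        rw [e, map_add, map_add, hd, hS _ (Submodule.mem_sup_left (hm m le_rfl)),
          hS _ (MVs_sup_map (MVs_sup_map (fun _ => sdHP_mem_CH m) (fun _ => sdHP_mem_CH m))
            (MVs_sdHP_Z hP m) _ hdo)]
        simp
      rw [map_add, map_add, hd, ho0, hS z (Submodule.mem_sup_right hz)]
      simp)
  exact ⟨g', hg, fun b => hW _ (Submodule.mem_sup_left ⟨b, rfl⟩),
    fun b hb => hW _ (Submodule.mem_sup_right hb)⟩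

end

theorem mvs_stmt : MVsStmt := by
  intro G Y _ _ _ s B Z 𝒦₁ 𝒦₂ 𝒦₀ 𝒦 U V hP hA1 hA2 hA0 hM hi1 hi2 hs1 hs2 hs0 K hK f hfd hfK
  obtain ⟨K1, hK1, K2, hK2, hKK⟩ := hM.spl K hK
  have hdN : ∀ L : Set Y, ∀ b ∈ CH ℂ Lᶜ ⊔ Z, dT ℂ Y b ∈ CH ℂ Lᶜ ⊔ Z := fun L =>
    MVs_sup_map (fun _ => dT_mem_CH) hP.d
  obtain ⟨f1, hf1⟩ : ∃ f1 : Tot ℂ Y →ₗ[ℂ] ℂ, ∀ b, f1 b = f (prj ℂ K2ᶜ b) :=
    ⟨f ∘ₗ prj ℂ K2ᶜ, fun _ => rfl⟩
  have hf1Z : ∀ b ∈ Z, f1 b = 0 := fun b hb => by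
    rw [hf1]
    exact hfK _ (Submodule.mem_sup_right (hP.pr _ (MVs_inv_compl (hA2.kinv K2 hK2)) b hb))
  have hf1N : ∀ b ∈ CH ℂ K1ᶜ ⊔ Z, f1 b = 0 := by
    refine MVs_sup_zero (fun b hb => ?_) hf1Z
    rw [hf1]
    refine hfK _ (Submodule.mem_sup_left (CH_mono (compl_subset_compl.2 hKK) ?_))
    rw [compl_union, CH_inter]
    exact ⟨prj_mem_CH _ hb, prj_mem _ b⟩
  have hf2N : ∀ b ∈ CH ℂ K2ᶜ ⊔ Z, (f - f1) b = 0 := by
    refine MVs_sup_zero (fun b hb => ?_) (fun b hb => ?_)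
    · rw [LinearMap.sub_apply, hf1, prj_of_mem hb, sub_self]
    · rw [LinearMap.sub_apply, hf1Z b hb, hfK b (Submodule.mem_sup_right hb), sub_self]
  have hg2 : ∀ b, dT ℂ Y b ∈ CH ℂ K2ᶜ ⊔ Z → f1 (dT ℂ Y b) = 0 := fun b hb => by
    have := hf2N _ hb
    rwa [LinearMap.sub_apply, hfd, zero_sub, neg_eq_zero] at this
  obtain ⟨g', hg', hg'd, hg'N⟩ := MVs_small hP (hA1.cl K1 hK1) (hA2.cl K2 hK2)
    (g := f1 ∘ₗ dT ℂ Y) (fun b => by rw [LinearMap.comp_apply, dT_dT, map_zero])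
    (MVs_sup_zero (MVs_sup_zero
      (fun b hb => hf1N _ (Submodule.mem_sup_left (dT_mem_CH hb)))
      (fun b hb => hg2 b (Submodule.mem_sup_left (dT_mem_CH hb))))
      fun b hb => hf1Z _ (hP.d b hb))
  obtain ⟨K0, hK0, -, v, hv, hdv, hvB⟩ := hs0 (K1 ∩ K2) (hM.inter K1 hK1 K2 hK2) g' hg'd hg'N
  obtain ⟨L1, hL1, hKL1, h0L1, u1, hu1, hZ1⟩ := MVs_side hA1 hi1 hK1 (hM.le₁ hK0) hv hdv
    fun b hb hb0 => by
      rw [hvB b hb0, hg' b (sup_le_sup_right le_sup_left Z hb)]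
      exact hf1N _ hb
  obtain ⟨L2, hL2, hKL2, h0L2, u2, hu2, hZ2⟩ := MVs_side hA2 hi2 hK2 (hM.le₂ hK0) hv hdv
    fun b hb hb0 => by
      rw [hvB b hb0, hg' b (sup_le_sup_right le_sup_right Z hb)]
      exact hg2 b hb
  obtain ⟨φ1, hφ1⟩ := MVs_fun B u1
  obtain ⟨φ2, hφ2⟩ := MVs_fun B u2
  obtain ⟨φv, hφv⟩ := MVs_fun B v
  have e1 : ∀ b, B (dT ℂ Y b) u1 = B b v := fun b => by
    have := hP.zr b _ hZ1
    rw [map_sub, sub_eq_zero] at this
    rw [hP.stokes, this]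
  have e2 : ∀ b, B (dT ℂ Y b) u2 = B b v := fun b => by
    have := hP.zr b _ hZ2
    rw [map_sub, sub_eq_zero] at this
    rw [hP.stokes, this]
  obtain ⟨k, hk, hkS⟩ := MVs_factor (dT ℂ Y) (CH ℂ L1ᶜ ⊔ CH ℂ L2ᶜ ⊔ Z) (f1 ∘ₗ dT ℂ Y - φv)
    fun b hb => by
      have hb1 : dT ℂ Y b ∈ CH ℂ K0ᶜ ⊔ Z :=
        sup_le_sup_right (sup_le (CH_mono (compl_subset_compl.2 h0L1))
          (CH_mono (compl_subset_compl.2 h0L2))) Z hb
      have hb2 : dT ℂ Y b ∈ CH ℂ K1ᶜ ⊔ CH ℂ K2ᶜ ⊔ Z :=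
        sup_le_sup_right (sup_le_sup (CH_mono (compl_subset_compl.2 hKL1))
          (CH_mono (compl_subset_compl.2 hKL2))) Z hb
      rw [LinearMap.sub_apply, hφv, hvB b hb1, hg' b hb2, sub_self]
  simp only [LinearMap.sub_apply, LinearMap.comp_apply, hφv] at hk
  obtain ⟨M1, hM1, hLM1, w1, hw1, hdw1, hB1⟩ := hs1 L1 hL1 (f1 - φ1 - k)
    (fun b => by rw [LinearMap.sub_apply, LinearMap.sub_apply, hφ1, e1, hk, sub_self])
    fun b hb => by
      rw [LinearMap.sub_apply, LinearMap.sub_apply, hφ1, hf1N b (MVs_N_mono hKL1 hb),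
        MVs_kill hP (hA1.kinv L1 hL1) hu1 b hb, hkS b (sup_le_sup_right le_sup_left Z hb)]
      simp
  obtain ⟨M2, hM2, hLM2, w2, hw2, hdw2, hB2⟩ := hs2 L2 hL2 (f - f1 + φ2 + k)
    (fun b => by
      rw [LinearMap.add_apply, LinearMap.add_apply, LinearMap.sub_apply, hφ2, e2, hk, hfd]
      ring)
    fun b hb => by
      rw [LinearMap.add_apply, LinearMap.add_apply, hφ2, hf2N b (MVs_N_mono hKL2 hb),
        MVs_kill hP (hA2.kinv L2 hL2) hu2 b hb, hkS b (sup_le_sup_right le_sup_right Z hb)]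
      simp
  refine ⟨M1 ∪ M2, hM.union M1 hM1 M2 hM2,
    hKK.trans (union_subset_union (hKL1.trans hLM1) (hKL2.trans hLM2)), u1 - u2 + w1 + w2,
    add_mem (add_mem (sub_mem (CH_mono (hLM1.trans subset_union_left) hu1)
      (CH_mono (hLM2.trans subset_union_right) hu2)) (CH_mono subset_union_left hw1))
      (CH_mono subset_union_right hw2), ?_, fun b hb => ?_⟩
  · have e : dT ℂ Y (u1 - u2 + w1 + w2) =
        (v - dT ℂ Y u2) - (v - dT ℂ Y u1) + dT ℂ Y w1 + dT ℂ Y w2 := by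
      rw [map_add, map_add, map_sub]; abel
    rw [e]
    exact add_mem (add_mem (sub_mem hZ2 hZ1) hdw1) hdw2
  · rw [map_add, map_add, map_sub, hB1 b (MVs_N_mono subset_union_left hb),
      hB2 b (MVs_N_mono subset_union_right hb)]
    simp only [LinearMap.sub_apply, LinearMap.add_apply, hφ1, hφ2]
    ring

end Pool.Agent.MP_bc14e1_gt

end

section

/-! Statements: positivity. -/

open Set Metric
open scoped Classical Manifold ContDiff ComplexOrder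

namespace Pool.Agent.MP_bc14e1_gt

noncomputable section

/-- Cycles lift to the infinite cyclic cover. -/
def LiftZStmt : Prop :=
  ∀ (κ : Kit) (X G Y : Type) [TopologicalSpace X] [T2Space X] [CompactSpace X]
    [ChartedSpace (E 4) X] [Group G] [TopologicalSpace Y] [MulAction G Y]
    [ContinuousConstSMul G Y] (o : Orientation4 X) (F : Set X) (n : ℕ) (φ : Tot ℤ X →ₗ[ℤ] ℤ)
    (p : Y → X) (t : G) (l : Y → ℤ), XPack κ o F n φ → Pack1 F φ p t l →
    ∀ x ∈ ZC ℤ Fᶜ 2, ∃ u ∈ ZC ℤ (univ : Set Y) 2, psh ℤ p u = x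

/-- A continuous family of nondegenerate hermitian forms on the circle. -/
def HermStmt : Prop :=
  ∀ (n : ℕ) (M : Circle → Matrix (Fin n) (Fin n) ℂ), Continuous M → (∀ η, (M η).IsHermitian) →
    (∀ η, η ≠ 1 → (M η).det ≠ 0) → (M 1).PosDef → ∀ η, (M η).PosDef

/-- At `x` the function `f` decreases in some direction of a chart. -/
def Mono {X : Type} [TopologicalSpace X] (f : X → ℝ) (x : X) : Prop :=
  ∃ (e : OpenPartialHomeomorph X (E 4)) (v : E 4) (c r : ℝ), x ∈ e.source ∧ 0 < c ∧ 0 < r ∧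
    ball (e x) r ⊆ e.target ∧ ∀ z ∈ ball (e x) r, ∀ θ : ℝ, 0 ≤ θ → z + θ • v ∈ ball (e x) r →
      f (e.symm (z + θ • v)) ≤ f (e.symm z) - c * θ

/-- A family of functions all of whose signed sums have regular zeros. -/
def TransStmt : Prop :=
  ∀ (X ι : Type) [TopologicalSpace X] [T2Space X] [CompactSpace X] [ChartedSpace (E 4) X]
    [IsManifold (𝓡 4) ∞ X] (F N : Set X) (U : ι → Set X), IsClosed F → IsOpen N → F ⊆ N →
    (∀ i, IsOpen (U i)) → Fᶜ ⊆ ⋃ i, U i →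
    ∃ (n : ℕ) (i : Fin n → ι) (g₀ : X → ℝ) (g : Fin n → X → ℝ) (N' : Set X),
      Continuous g₀ ∧ (∀ k, Continuous (g k)) ∧ tsupport g₀ ⊆ N ∧
      (∀ k, tsupport (g k) ⊆ U (i k)) ∧ IsOpen N' ∧ F ⊆ N' ∧ N' ⊆ N ∧ (∀ x ∈ N', g₀ x = 1) ∧
      (∀ k, ∀ x ∈ N', g k x = 0) ∧ ∀ (ε₀ : ℝ) (ε : Fin n → ℝ), |ε₀| = 1 → (∀ k, |ε k| = 1) →
        ∀ x, ε₀ * g₀ x + ∑ k, ε k * g k x = 0 → Mono (fun x => ε₀ * g₀ x + ∑ k, ε k * g k x) x

/-- The analytic core of the transversality argument. -/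
def SardStmt : Prop :=
  ∀ (ι : Type) [Finite ι] (U : Set (E 4)) (f : ι → E 4 → ℝ), IsOpen U →
    (∀ i, ContDiffOn ℝ 2 (f i) U) → Dense {q : ℝ × (E 4 →L[ℝ] ℝ) | ∀ i, ∀ x ∈ U,
      f i x + q.1 + q.2 x = 0 → fderiv ℝ (f i) x + q.2 ≠ 0}

/-- The anti-invariant function. -/
def FnStmt : Prop :=
  ∀ (X G Y A G' Y' : Type) [TopologicalSpace X] [T2Space X] [CompactSpace X]
    [ChartedSpace (E 4) X] [IsManifold (𝓡 4) ∞ X] [Group G]
    [TopologicalSpace Y] [MulAction G Y] [ContinuousConstSMul G Y] [AddCommGroup A] [Finite A]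
    [Group G'] [TopologicalSpace Y'] [MulAction G' Y'] [ContinuousConstSMul G' Y']
    (F : Set X) (φ : Tot ℤ X →ₗ[ℤ] ℤ) (p : Y → X) (t : G) (l : Y → ℤ)
    (τ : A ≃ₗ[ℤ] A) (m : ℕ) (α : Tot ℤ Y →+ A) (q : Y' → Y) (j : Multiplicative A →* G') (t' : G')
    (l' : Y' → A), Pack1 F φ p t l → Pack2 F p t τ m α q j t' l' → (∀ a, τ a = a → a = 0) →
    ∀ B' B : AddSubgroup A, B' ≤ B → B'.relIndex B = 2 → ∃ f : Y' → ℝ, Continuous f ∧
      (∀ y, f (t' ^ m • y) = f y) ∧ (∀ a ∈ B', ∀ y, f (j (Multiplicative.ofAdd a) • y) = f y) ∧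
      (∀ a ∈ B, a ∉ B' → ∀ y, f (j (Multiplicative.ofAdd a) • y) = -f y) ∧
      (∃ N, IsOpen N ∧ F ⊆ N ∧ ∀ y, p (q y) ∈ N → |f y| = 1) ∧ ∀ y, f y = 0 → Mono f y

/-- One equivariant local push. -/
def Push1Stmt : Prop :=
  ∀ (X G Y : Type) [TopologicalSpace X] [T2Space X] [ChartedSpace (E 4) X] [Group G]
    [TopologicalSpace Y] [T2Space Y] [MulAction G Y] [ContinuousConstSMul G Y] (F : Set X)
    (p : Y → X) (s : G) (f : Y → ℝ), TC F p s → (∀ y, f (s • y) = f y) → ∀ y, Mono f y →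
    ∃ (W W' : Set Y) (c : ℝ) (H : ℝ × Y → Y), IsOpen W ∧ IsCompact W' ∧ y ∈ interior W' ∧ W' ⊆ W ∧
      0 < c ∧ Continuous H ∧ (∀ z, H (0, z) = z) ∧ (∀ θ z, H (θ, s • z) = s • H (θ, z)) ∧
      (∀ θ ∈ Icc (0 : ℝ) 1, ∀ z, f (H (θ, z)) ≤ f z) ∧
      ∀ θ ∈ Icc (0 : ℝ) 1, ∀ z ∈ W, f (H (θ, z)) ≤ f z - c * θ

def PushStmt : Prop :=
  ∀ (X G Y : Type) [TopologicalSpace X] [T2Space X] [ChartedSpace (E 4) X] [Group G]
    [TopologicalSpace Y] [T2Space Y] [MulAction G Y] [ContinuousConstSMul G Y] (F : Set X)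
    (p : Y → X) (s : G) (f : Y → ℝ), TC F p s → Continuous f → (∀ y, f (s • y) = f y) →
    Cocpt s {y | |f y| ≤ 1 / 2} → (∀ y, f y = 0 → Mono f y) →
    ∃ ε : ℝ, 0 < ε ∧ ε < 1 / 2 ∧ ∃ r H : Module.End ℂ (Tot ℂ Y),
      (∀ c, r (gs ℂ Y s c) = gs ℂ Y s (r c)) ∧ (∀ c, H (gs ℂ Y s c) = gs ℂ Y s (H c)) ∧
      (∀ k, ∀ c ∈ DG ℂ Y k, r c ∈ DG ℂ Y k) ∧
      (∀ c ∈ CH ℂ {y | f y < ε}, r c ∈ CH ℂ {y | f y < 0}) ∧
      ∀ c, dT ℂ Y (H c) + H (dT ℂ Y c) = c - r c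

/-- Away from finitely many points the first and second homology have no torsion. -/
def GenStmt : Prop :=
  ∀ (G Y : Type) [Group G] [TopologicalSpace Y] [MulAction G Y] [ContinuousConstSMul G Y] (s : G)
    (k : ℕ), FGI ℂ s (univ : Set Y) univ k → ∃ bad : Set Circle, bad.Finite ∧ ∀ ζ ∉ bad,
      ∀ z ∈ ZC ℂ (univ : Set Y) k, act ℂ Y s (piL ζ) z ∈ BC ℂ univ k → z ∈ BC ℂ univ k

/-- The positive family on the finite cover. -/
def Pos0Stmt : Prop :=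
  ∀ (κ : Kit) (X G Y A G' Y' : Type) [TopologicalSpace X] [T2Space X]
    [ChartedSpace (E 4) X] [Group G]
    [TopologicalSpace Y] [T2Space Y] [MulAction G Y] [ContinuousConstSMul G Y] [AddCommGroup A]
    [Finite A] [Group G'] [TopologicalSpace Y'] [T2Space Y'] [MulAction G' Y']
    [ContinuousConstSMul G' Y'] (o : Orientation4 X) (F : Set X) (φ : Tot ℤ X →ₗ[ℤ] ℤ) (p : Y → X)
    (t : G) (l : Y → ℤ) (τ : A ≃ₗ[ℤ] A) (m : ℕ) (α : Tot ℤ Y →+ A) (q : Y' → Y)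
    (j : Multiplicative A →* G') (t' : G') (l' : Y' → A) (n : ℕ) (τ₁ : TS (Y × Y) → ℝ)
    (τ₂ : TS (Y' × Y') → ℝ), Pack1 F φ p t l → Pack2 F p t τ m α q j t' l' → 0 < m →
    IsThom o p τ₁ → ThomInv τ₁ (fun y => t • y) → Pos1 t (beta κ τ₁) n →
    IsThom o (p ∘ q) τ₂ → ThomInv τ₂ (fun y => t' ^ m • y) →
    ∃ v : Fin (m * n) → Tot ℂ Y', (∀ i, v i ∈ ZC ℂ univ 2 ∧ ∀ a, gs ℂ Y' (j a) (v i) = v i) ∧
      ∀ ζ : Circle, ζ ≠ 1 → ∀ a : Fin (m * n) → ℂ, a ≠ 0 →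
        0 < (evL ζ (lamF (t' ^ m) (beta κ τ₂) (∑ i, a i • v i) (∑ i, a i • v i))).re

/-- The sum over the roots of a point of the circle. -/
def RootStmt : Prop :=
  ∀ (m : ℕ) (ζ : Circle), 0 < m → ∃ S : Finset Circle, S.card = m ∧ (∀ η ∈ S, η ^ m = ζ) ∧
    ∀ a : Lam ℂ, ∑ η ∈ S, evL η a = m * ∑ᶠ n : ℤ, ((ζ ^ n : Circle) : ℂ) * a.coeff (m * n)

/-- The dimension bound at a generic point. -/
def DimStmt : Prop :=
  ∀ (G Y : Type) [Group G] [TopologicalSpace Y] [MulAction G Y] [ContinuousConstSMul G Y] (s : G)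
    (B : Subgroup G) (n : ℕ) (ζ : Circle), Finite B → (∀ g, g * s = s * g) →
    (∀ (n : ℤ) (y : Y), s ^ n • y = y → n = 0) → Dep ℂ Y s B n →
    (∀ k, k = 1 ∨ k = 2 → ∀ z ∈ ZC ℂ (univ : Set Y) k,
      act ℂ Y s (piL ζ) z ∈ BC ℂ univ k → z ∈ BC ℂ univ k) →
    ∀ z : Fin (n + 1) → Tot ℂ Y, (∀ i, z i ∈ DG ℂ Y 2 ∧ dT ℂ Y (z i) ∈ Mul0 s (piL ζ) ∧
      ∀ g ∈ B, gs ℂ Y g (z i) = z i) →
      ∃ a : Fin (n + 1) → ℂ, a ≠ 0 ∧ ∃ w, ∑ i, a i • z i - dT ℂ Y w ∈ Mul0 s (piL ζ)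

end

end Pool.Agent.MP_bc14e1_gt

end

section

open Set Metric
open scoped Classical

namespace Pool.Agent.MP_bc14e1_gt

/-- If `g` acts surjectively on a finitely generated subquotient, it acts injectively. -/
theorem LiftZ_alg {R C : Type} [CommRing R] [AddCommGroup C] [Module R C] (Z B : Submodule R C)
    (g : R) {n : ℕ} (z : Fin n → C) (hz : ∀ i, z i ∈ Z)
    (hfg : ∀ y ∈ Z, ∃ a : Fin n → R, y - ∑ i, a i • z i ∈ B)
    (hs : ∀ y ∈ Z, ∃ w ∈ Z, y - g • w ∈ B) : ∀ y ∈ Z, g • y ∈ B → y ∈ B := by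
  have hN : (Z.map B.mkQ).FG := by
    refine (Submodule.fg_iff_exists_fin_generating_family).2 ⟨n, fun i => B.mkQ (z i), ?_⟩
    refine le_antisymm (Submodule.span_le.2 ?_) ?_
    · rintro _ ⟨i, rfl⟩
      exact Submodule.mem_map_of_mem (hz i)
    · rintro _ ⟨y, hy, rfl⟩
      obtain ⟨a, ha⟩ := hfg y hy
      have e : B.mkQ y = ∑ i, a i • B.mkQ (z i) := by
        rw [← Submodule.Quotient.eq] at ha
        simp only [← map_smul, ← map_sum]
        exact ha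
      rw [e]
      exact Submodule.sum_mem _ fun i _ =>
        Submodule.smul_mem _ _ (Submodule.subset_span ⟨i, rfl⟩)
  obtain ⟨r, hr, h0⟩ := Submodule.exists_sub_one_mem_and_smul_eq_zero_of_fg_of_le_smul
    (Ideal.span {g}) (Z.map B.mkQ) hN (by
      rintro _ ⟨y, hy, rfl⟩
      obtain ⟨w, hw, h⟩ := hs y hy
      have e : B.mkQ y = g • B.mkQ w := by
        rw [← Submodule.Quotient.eq] at h
        rw [← map_smul]
        exact h
      rw [e]
      exact Submodule.smul_mem_smul (Ideal.mem_span_singleton_self g)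
        (Submodule.mem_map_of_mem hw))
  obtain ⟨c, hc⟩ := Ideal.mem_span_singleton'.1 hr
  intro y hy hg
  have h1 : r • y ∈ B := by
    rw [← Submodule.Quotient.mk_eq_zero]
    exact h0 _ (Submodule.mem_map_of_mem hy)
  have e : y = r • y - c • g • y := by
    rw [← mul_smul, hc, sub_smul, one_smul, sub_sub_cancel]
  rw [e]
  exact sub_mem h1 (B.smul_mem c hg)

theorem liftZ_stmt (B : Bas2) : LiftZStmt := by
  intro κ X G Y _ _ _ _ _ _ _ _ o F n φ p t l hX hP x hx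
  obtain ⟨L1, L2⟩ := B.lift ℤ G X Y Fᶜ p hP.tc.cov
  have L3 := L2 t hP.gen
  have hp := hP.tc.cov.cont
  have hact : ∀ c : Tot ℤ Y, act ℤ Y t (LaurentPolynomial.T 1 - 1) c = gs ℤ Y t c - c := fun c => by
    rw [map_sub, act_T, map_one, zpow_one]
    rfl
  have hg : (LaurentPolynomial.T 1 - 1 : Lam ℤ) ≠ 0 := fun h => by
    have h1 : (LaurentPolynomial.T 1 : Lam ℤ) = LaurentPolynomial.T 0 := sub_eq_zero.1 h
    have h2 := congrArg LaurentPolynomial.degree h1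
    rw [LaurentPolynomial.degree_T, LaurentPolynomial.degree_T] at h2
    exact absurd (WithBot.coe_injective h2) one_ne_zero
  have htf : ∀ c : Tot ℤ Y, gs ℤ Y t c - c = 0 → c = 0 := fun c h =>
    (B.tf ℤ G Y t (fun n y h => hP.tc.inf n (hP.tc.cov.free _ y h)) _ hg c).1 (by rw [hact, h])
  have hcyc : ∀ w : Tot ℤ Y, dT ℤ Y (gs ℤ Y t w - w) = 0 → dT ℤ Y w = 0 := fun w h =>
    htf _ (by rwa [map_sub, dT_gs] at h)
  have hpg : ∀ w : Tot ℤ Y, psh ℤ p (gs ℤ Y t w) = psh ℤ p w := fun w => by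
    rw [gs, psh_psh' _ (continuous_const_smul t)]
    exact psh_congr (fun y _ => hP.tc.cov.inv t y) (mem_CH_univ w)
  obtain ⟨m, z, hz, hfg⟩ := B.fg ℤ X G Y F p t hP.tc univ univ isCompact_univ isOpen_univ
    Subset.rfl 1
  rw [preimage_univ] at hz hfg
  let BT : Submodule (Lam ℤ) (Tw ℤ Y t) := twSub (BC ℤ univ 1) fun k c hc => by
    obtain ⟨b, hb, rfl⟩ := hc
    exact ⟨_, ⟨mem_CH_univ _, gs_mem_DG _ hb.2⟩, dT_gs _ b⟩
  have key := LiftZ_alg (ZT ℤ Y t 1) BT (LaurentPolynomial.T 1 - 1) z hz hfg (by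
    intro y hy
    change Tot ℤ Y at y
    have hy0 : dT ℤ Y y = 0 := hy.2
    have h1 : psh ℤ p y ∈ ZC ℤ Fᶜ 1 :=
      ⟨⟨psh_mem_CH p (fun y _ => hP.tc.cov.mem y) (mem_CH_univ y), psh_mem_DG p hy.1.2⟩, by
        change dT ℤ X _ = 0
        rw [dT_psh_cont hp, hy0, map_zero]⟩
    obtain ⟨μ, -, -, hμ⟩ := hX.gen
    obtain ⟨b, hb, hdb⟩ := hμ _ h1
    rw [hP.hol, hy0, map_zero, zero_smul, sub_zero] at hdb
    obtain ⟨b', hb', rfl⟩ := L1 2 b hb
    obtain ⟨w, hw, e⟩ := L3 1 (y - dT ℤ Y b') (sub_mem hy.1.2 (dT_mem_DG hb')) (by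
      rw [map_sub, ← dT_psh_cont hp, hdb, sub_self])
    refine ⟨w, ⟨⟨mem_CH_univ _, hw⟩, hcyc w ?_⟩, b', ⟨mem_CH_univ _, hb'⟩, ?_⟩
    · rw [← e, map_sub, hy0, dT_dT, sub_zero]
    · change dT ℤ Y b' = y - act ℤ Y t (LaurentPolynomial.T 1 - 1) w
      rw [hact, ← e, sub_sub_cancel])
  obtain ⟨x', hx', rfl⟩ := L1 2 x hx.1
  have hx0 : dT ℤ X (psh ℤ p x') = 0 := hx.2
  obtain ⟨y, hy, e⟩ := L3 1 (dT ℤ Y x') (dT_mem_DG hx') (by rw [← dT_psh_cont hp, hx0])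
  obtain ⟨w, hw, hdw⟩ := key y ⟨⟨mem_CH_univ _, hy⟩, hcyc y (by rw [← e, dT_dT])⟩
    ⟨x', ⟨mem_CH_univ _, hx'⟩, e.trans (hact y).symm⟩
  refine ⟨x' - (gs ℤ Y t w - w), ⟨⟨mem_CH_univ _,
    sub_mem hx' (sub_mem (gs_mem_DG t hw.2) hw.2)⟩, ?_⟩, ?_⟩
  · change dT ℤ Y _ = 0
    rw [map_sub, map_sub, dT_gs, hdw, e, sub_self]
  · rw [map_sub, map_sub, hpg, sub_self, sub_zero]

end Pool.Agent.MP_bc14e1_gt

end

section

open Set Metric
open scoped Classical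

namespace Pool.Agent.MP_bc14e1_gt

open scoped ComplexOrder Matrix in
theorem herm_stmt : HermStmt := by
  intro n M hM hH hdet h1
  have hq : Continuous fun p : Circle × (Fin n → ℂ) => star p.2 ⬝ᵥ (M p.1 *ᵥ p.2) := by
    have h0 : Continuous fun p : Circle × (Fin n → ℂ) => M p.1 := hM.comp continuous_fst
    exact (continuous_snd.star).dotProduct (h0.matrix_mulVec continuous_snd)
  have him : ∀ η x, (star x ⬝ᵥ (M η *ᵥ x)).im = 0 := fun η x =>
    (hH η).im_star_dotProduct_mulVec_self x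
  have hopen : IsOpen {η | (M η).PosDef} := by
    rw [isOpen_iff_mem_nhds]
    intro η hη
    have hK : IsCompact (sphere (0 : Fin n → ℂ) 1) := isCompact_sphere _ _
    have hev := hK.eventually_forall_of_forall_eventually (x₀ := η)
      (P := fun ξ x => 0 < (star x ⬝ᵥ (M ξ *ᵥ x)).re) (by
        intro x hx
        have hx0 : x ≠ 0 := by
          rintro rfl
          simp at hx
        have hp : 0 < (star x ⬝ᵥ (M η *ᵥ x)).re :=
          (Complex.pos_iff.1 (Matrix.PosDef.dotProduct_mulVec_pos hη hx0)).1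
        have hc := (Complex.continuous_re.comp hq).continuousAt (x := (η, x))
        exact hc.eventually (lt_mem_nhds hp))
    filter_upwards [hev] with ξ hξ
    refine Matrix.PosDef.of_dotProduct_mulVec_pos (hH ξ) fun x hx => ?_
    have hn : 0 < ‖x‖ := norm_pos_iff.2 hx
    have hy := hξ (((‖x‖⁻¹ : ℝ) : ℂ) • x) (by
      rw [mem_sphere_zero_iff_norm, norm_smul, Complex.norm_real, norm_inv, norm_norm]
      exact inv_mul_cancel₀ hn.ne')
    rw [star_smul, Matrix.mulVec_smul, smul_dotProduct, dotProduct_smul, smul_smul,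
      Complex.star_def, Complex.conj_ofReal, ← Complex.ofReal_mul, smul_eq_mul,
      Complex.re_ofReal_mul] at hy
    refine Complex.pos_iff.2 ⟨?_, (him ξ x).symm⟩
    exact (pos_iff_pos_of_mul_pos hy).1 (by positivity)
  have hclosed : IsClosed {η | (M η).PosDef} := by
    refine isClosed_of_closure_subset fun η hη => ?_
    by_cases h : η = 1
    · subst h
      exact h1
    have hsd : (M η).PosSemidef := by
      refine Matrix.posSemidef_iff_dotProduct_mulVec.2 ⟨hH η, fun x => ?_⟩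
      have hc : IsClosed {ξ | 0 ≤ (star x ⬝ᵥ (M ξ *ᵥ x)).re} :=
        isClosed_le continuous_const
          (Complex.continuous_re.comp (hq.comp (continuous_id.prodMk continuous_const)))
      have hsub : {ξ | (M ξ).PosDef} ⊆ {ξ | 0 ≤ (star x ⬝ᵥ (M ξ *ᵥ x)).re} := fun ξ hξ =>
        (Complex.nonneg_iff.1 ((Matrix.PosDef.posSemidef hξ).dotProduct_mulVec_nonneg x)).1
      exact Complex.nonneg_iff.2 ⟨closure_minimal hsub hc hη, (him η x).symm⟩
    exact hsd.posDef_iff_det_ne_zero.2 (hdet η h)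
  have huniv := IsClopen.eq_univ ⟨hclosed, hopen⟩ ⟨1, h1⟩
  intro η
  have : η ∈ {η | (M η).PosDef} := by
    rw [huniv]
    trivial
  exact this

end Pool.Agent.MP_bc14e1_gt

end

section

open Set Metric
open scoped Classical

namespace Pool.Agent.MP_bc14e1_gt

theorem PsdAlg_coord {R H : Type} [CommRing R] [IsDomain R] [IsPrincipalIdealRing R]
    [AddCommGroup H] [Module R H] (B : Submodule R H) [Module.Finite R (H ⧸ B)] :
    ∃ (r : ℕ) (v : Fin r → H) (c : Fin r → H →ₗ[R] R),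
      (∀ i j, c i (v j) = if j = i then 1 else 0) ∧ (∀ i, ∀ z ∈ B, c i z = 0) ∧
      ∀ z, ∃ a : R, a ≠ 0 ∧ a • (z - ∑ i, c i z • v i) ∈ B := by
  obtain ⟨r, b⟩ : Σ r, Module.Basis (Fin r) R ((H ⧸ B) ⧸ Submodule.torsion R (H ⧸ B)) :=
    Module.basisOfFiniteTypeTorsionFree'
  let π : H →ₗ[R] (H ⧸ B) ⧸ Submodule.torsion R (H ⧸ B) :=
    (Submodule.torsion R (H ⧸ B)).mkQ ∘ₗ B.mkQ
  have hπ : Function.Surjective π :=
    (Submodule.mkQ_surjective _).comp (Submodule.mkQ_surjective _)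
  choose v hv using fun i => hπ (b i)
  refine ⟨r, v, fun i => b.coord i ∘ₗ π, fun i j => ?_, fun i z hz => ?_, fun z => ?_⟩
  · rw [LinearMap.comp_apply, hv, Module.Basis.coord_apply, Module.Basis.repr_self,
      Finsupp.single_apply]
  · have h1 : π z = 0 := by
      simp only [π, LinearMap.comp_apply, Submodule.mkQ_apply]
      rw [(Submodule.Quotient.mk_eq_zero B).2 hz, Submodule.Quotient.mk_zero]
    rw [LinearMap.comp_apply, h1, map_zero]
  · have h1 : π (z - ∑ i, (b.coord i ∘ₗ π) z • v i) = 0 := by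
      simp only [map_sub, map_sum, map_smul, hv, LinearMap.comp_apply, Module.Basis.coord_apply]
      rw [b.sum_repr, sub_self]
    generalize z - ∑ i, (b.coord i ∘ₗ π) z • v i = t at h1
    simp only [π, LinearMap.comp_apply, Submodule.mkQ_apply, Submodule.Quotient.mk_eq_zero] at h1
    obtain ⟨⟨a, ha⟩, h2⟩ := h1
    refine ⟨a, nonZeroDivisors.ne_zero ha, (Submodule.Quotient.mk_eq_zero B).1 ?_⟩
    rw [Submodule.Quotient.mk_smul]
    exact h2

theorem PsdAlg_expand {H : Type} [AddCommGroup H] [Module (Lam ℂ) H] {B : Submodule (Lam ℂ) H}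
    {l : H → H → Lam ℂ} (hl : Sesq l) (hh : ∀ u v, cj (l u v) = l v u)
    (hB : ∀ u ∈ B, ∀ v, l u v = 0) {r : ℕ} {v : Fin r → H} {c : Fin r → H →ₗ[Lam ℂ] Lam ℂ}
    (hc : ∀ z, ∃ a : Lam ℂ, a ≠ 0 ∧ a • (z - ∑ i, c i z • v i) ∈ B) (z w : H) :
    l z w = ∑ i, c i z * ∑ j, l (v i) (v j) * cj (c j w) := by
  have h1 : ∀ z w, l z w = ∑ i, c i z * l (v i) w := by
    intro z w
    let L : H →ₗ[Lam ℂ] Lam ℂ :=
      { toFun := fun u => l u w
        map_add' := fun u u' => hl.add_left u u' w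
        map_smul' := fun a u => hl.smul_left a u w }
    obtain ⟨a, ha, h⟩ := hc z
    have h2 : L (a • (z - ∑ i, c i z • v i)) = 0 := hB _ h w
    rw [map_smul, smul_eq_mul, mul_eq_zero, or_iff_right ha, map_sub, sub_eq_zero, map_sum] at h2
    refine h2.trans (Finset.sum_congr rfl fun i _ => ?_)
    rw [map_smul, smul_eq_mul]
    rfl
  rw [h1 z w]
  refine Finset.sum_congr rfl fun i _ => ?_
  rw [← hh w (v i), h1 w (v i), map_sum]
  congr 1
  exact Finset.sum_congr rfl fun j _ => by rw [map_mul, hh, mul_comm]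

open Matrix ComplexOrder in
theorem psdAlg_stmt (hLaur : LaurStmt) (hHerm : HermStmt) : PsdAlgStmt := by
  intro H _ _ B l n hfin hl hh hB huni hdep ⟨u, hu⟩
  obtain ⟨hpid, -, -, -, -, -, evC, evcj, -, -, -, hcont, -, -⟩ := hLaur
  obtain ⟨r, v, c, hcv, hcB, hc⟩ := PsdAlg_coord B
  have hsum : ∀ {m : ℕ} (e : Fin m → Fin r), Function.Injective e → ∀ (a : Fin m → Lam ℂ) k,
      c (e k) (∑ i, a i • v (e i)) = a k := by
    intro m e he a k
    simp only [map_sum, map_smul, hcv, he.eq_iff, smul_eq_mul, mul_ite, mul_one, mul_zero,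
      Finset.sum_ite_eq', Finset.mem_univ, if_true]
  let G : Circle → Matrix (Fin r) (Fin r) ℂ := fun η => Matrix.of fun i j => evL η (l (v i) (v j))
  have key : ∀ η z w, evL η (l z w) =
      (fun i => evL η (c i z)) ⬝ᵥ (G η *ᵥ star fun j => evL η (c j w)) := by
    intro η z w
    rw [PsdAlg_expand hl hh hB hc z w]
    simp only [map_sum, map_mul, evcj, dotProduct, mulVec, G, of_apply, Pi.star_apply,
      RCLike.star_def]
  have hA : (Matrix.of fun i j => evL 1 (c j (u i))) * G 1 *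
      (Matrix.of fun i j => evL 1 (c j (u i)))ᴴ = 1 := by
    ext i j
    rw [one_apply, ← hu, key, Matrix.mul_assoc]
    simp only [Matrix.mul_apply, dotProduct, mulVec, of_apply, Pi.star_apply, conjTranspose_apply]
  have hrn : r = n := by
    apply le_antisymm
    · by_contra hlt
      have hlt : n + 1 ≤ r := by omega
      obtain ⟨a, ha, h⟩ := hdep fun i => v (Fin.castLE hlt i)
      exact ha (funext fun k =>
        (hsum _ (Fin.castLE_injective hlt) a k).symm.trans (hcB _ _ h))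
    · have h1 := congrArg Matrix.rank hA
      rw [Matrix.rank_one, Fintype.card_fin, Matrix.mul_assoc] at h1
      rw [← h1]
      exact (Matrix.rank_mul_le_left _ _).trans (Matrix.rank_le_width _)
  subst hrn
  have hval : ∀ (η : Circle) (a : Fin r → ℂ),
      (fun i => evL η (c i (∑ i, (LaurentPolynomial.C (a i) : Lam ℂ) • v i))) = a := by
    intro η a
    funext k
    exact (congrArg (evL η) (hsum id Function.injective_id _ k)).trans (evC η _)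
  have hG : ∀ η, (G η).PosDef := by
    refine hHerm r G (continuous_matrix fun i j => hcont _) (fun η => ?_) (fun η hη hdet => ?_) ?_
    · ext i j
      simp only [conjTranspose_apply, G, of_apply, RCLike.star_def, ← evcj, hh]
    · obtain ⟨a, ha, h⟩ := Matrix.exists_vecMul_eq_zero_iff.2 hdet
      obtain ⟨k, hk⟩ := Function.ne_iff.1 ha
      obtain ⟨w, hw⟩ := huni η hη ((LaurentPolynomial.C (a k)⁻¹ : Lam ℂ) • c k)
        (fun z hz => by rw [LinearMap.smul_apply, hcB k z hz, smul_zero])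
        (∑ i, (LaurentPolynomial.C (a i) : Lam ℂ) • v i) (by
          rw [LinearMap.smul_apply, smul_eq_mul]
          refine (congrArg _ (hsum id Function.injective_id _ k)).trans ?_
          rw [← map_mul, inv_mul_cancel₀ hk, map_one])
      apply hw
      rw [key, hval, dotProduct_mulVec, h, zero_dotProduct]
    · have h1 : IsUnit (Matrix.of fun i j => evL 1 (c j (u i))) := by
        rw [Matrix.mul_assoc] at hA
        exact IsUnit.of_mul_eq_one _ hA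
      rw [← h1.posDef_star_right_conjugate_iff, star_eq_conjTranspose, hA]
      exact Matrix.PosDef.one
  refine ⟨⟨v, fun η a ha => ?_⟩, fun η z => ?_⟩
  · have h1 := (hG η).re_dotProduct_pos (x := star a) (star_ne_zero.2 ha)
    rw [star_star] at h1
    rw [key, hval]
    exact h1
  · have h1 := (hG η).posSemidef.re_dotProduct_nonneg (star fun i => evL η (c i z))
    rw [star_star] at h1
    rw [key]
    exact h1

end Pool.Agent.MP_bc14e1_gt

end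

section

open Set Metric
open scoped Classical

namespace Pool.Agent.MP_bc14e1_gt

section Aux

variable {G Y : Type} [Group G] [TopologicalSpace Y] [MulAction G Y] [ContinuousConstSMul G Y]

theorem Psd1_cj (a : Lam ℂ) (n : ℤ) : (cj a).coeff n = starRingEnd ℂ (a.coeff (-n)) := by
  simp [cj]

theorem Psd1_inv {s : G} {b : Form Y} (h : LK s b) (n : ℤ) (u v : Tot ℂ Y) :
    b (gs ℂ Y (s ^ n) u) (gs ℂ Y (s ^ n) v) = b u v := by
  induction n using Int.induction_on generalizing u v with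
  | zero => rw [zpow_zero, gs_one, gs_one]
  | succ n ih => rw [zpow_add_one, gs_mul, gs_mul, ih, h.inv]
  | pred n ih =>
    rw [zpow_sub_one, gs_mul, gs_mul, ih, ← h.inv, ← gs_mul, ← gs_mul, mul_inv_cancel, gs_one,
      gs_one]

/-- The boundaries inside the cycles. -/
noncomputable def Psd1_B (s : G) : Submodule (Lam ℂ) (ZT ℂ Y s 2) :=
  (twSub (s := s) (BC ℂ univ 2) (by
    rintro n _ ⟨b, hb, rfl⟩
    exact ⟨gs ℂ Y (s ^ n) b, ⟨mem_CH_univ _, gs_mem_DG _ hb.2⟩, dT_gs _ _⟩)).comap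
      (ZT ℂ Y s 2).subtype

theorem Psd1_mem_B {s : G} (z : ZT ℂ Y s 2) :
    z ∈ Psd1_B s ↔ (toTw ℂ Y s).symm z.1 ∈ BC ℂ univ 2 := Iff.rfl

theorem Psd1_sum {s : G} {n : ℕ} (a : Fin n → Lam ℂ) (z : Fin n → ZT ℂ Y s 2) :
    (toTw ℂ Y s).symm (∑ i, a i • z i : ZT ℂ Y s 2).1 =
      ∑ i, act ℂ Y s (a i) ((toTw ℂ Y s).symm (z i).1) := by
  rw [Submodule.coe_sum, map_sum]
  rfl

theorem Psd1_fin {s : G} (h : FGI ℂ s (univ : Set Y) univ 2) :
    Module.Finite (Lam ℂ) (ZT ℂ Y s 2 ⧸ Psd1_B s) := by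
  obtain ⟨n, z, hz, h⟩ := h
  let z' : Fin n → ZT ℂ Y s 2 := fun i => ⟨toTw ℂ Y s (z i), hz i⟩
  refine Module.Finite.of_surjective
    ((Psd1_B s).mkQ ∘ₗ Fintype.linearCombination (Lam ℂ) z') fun x => ?_
  obtain ⟨y, rfl⟩ := (Psd1_B s).mkQ_surjective x
  obtain ⟨a, ha⟩ := h ((toTw ℂ Y s).symm y.1) y.2
  refine ⟨a, ((Submodule.Quotient.eq _).2 ?_).symm⟩
  rw [Psd1_mem_B, Fintype.linearCombination_apply, Submodule.coe_sub, map_sub, Psd1_sum]
  exact ha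

end Aux

theorem psd1_stmt (B : Bas2) (hUni : UniStmt) (hRank1 : Rank1Stmt)
    (hRank2 : Rank2Stmt) (hLiftZ : LiftZStmt) (hPsdAlg : PsdAlgStmt) : Psd1Stmt := by
  intro κ X G Y _ _ _ _ _ _ _ _ _ o F n φ p t l τ hX h1 hτ hinv
  have hP := (B.pair κ X G Y o F p t τ h1.tc hτ hinv).1
  obtain ⟨hS, -, -, hco, hev⟩ := B.lam X G Y F p t _ h1.tc hP.lk
  obtain ⟨-, hloc, -, -, hfin⟩ := B.cov G X Y Fᶜ p h1.tc.cov
  have hfg := B.fg ℂ X G Y F p t h1.tc univ univ isCompact_univ isOpen_univ subset_rfl 2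
  rw [preimage_univ] at hfg
  have hd : ∀ z : ZT ℂ Y t 2, dT ℂ Y ((toTw ℂ Y t).symm z.1) = 0 := fun z => z.2.2
  have hdg : ∀ z : ZT ℂ Y t 2, (toTw ℂ Y t).symm z.1 ∈ DG ℂ Y 2 := fun z => z.2.1.2
  have key := hPsdAlg (ZT ℂ Y t 2) (Psd1_B t)
    (fun u v => lamF t (beta κ τ) ((toTw ℂ Y t).symm u.1) ((toTw ℂ Y t).symm v.1)) n
    (Psd1_fin hfg)
    ⟨fun u u' v => hS.add_left u.1 u'.1 v.1, fun a u v => hS.smul_left a u.1 v.1,
      fun u v v' => hS.add_right u.1 v.1 v'.1, fun a u v => hS.smul_right a u.1 v.1⟩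
    ?_ ?_ ?_ ?_ ?_
  · obtain ⟨⟨v, hv⟩, hpsd⟩ := key
    refine ⟨⟨fun i => (toTw ℂ Y t).symm (v i).1, fun i => (v i).2, fun η _ a ha => ?_⟩,
      ∅, finite_empty, fun η _ z hz => hpsd η ⟨toTw ℂ Y t z, hz⟩⟩
    have := hv η a ha
    simp only [Psd1_sum, act_C] at this
    exact this
  · intro u v
    obtain ⟨E₁, E₂, -, -, hE⟩ := hP.sym
    refine LaurentPolynomial.ext fun m => ?_
    rw [Psd1_cj, hco, hco]
    have e := hE _ (gs_mem_DG (t ^ (-m)) (hdg v)) _ (hdg u)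
    rw [dT_gs, hd, hd, map_zero, map_zero, map_zero, LinearMap.zero_apply, add_zero,
      sub_eq_zero] at e
    rw [← e, ← Psd1_inv hP.lk m, ← gs_mul, zpow_neg, mul_inv_cancel, gs_one]
  · intro u hu v
    obtain ⟨b, -, hb⟩ := (Psd1_mem_B u).1 hu
    refine LaurentPolynomial.ext fun m => ?_
    rw [hco, ← hb, hP.stokes, dT_gs, hd, map_zero, map_zero]
    rfl
  · intro ζ hζ f hf v hv
    obtain ⟨w, hw, hw'⟩ := hUni X G Y o F p t _ h1.tc hP ζ hζ f hf v hv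
    exact ⟨⟨toTw ℂ Y t w, hw⟩, hw'⟩
  · intro z
    have hb : ∀ (R : Type) [CommRing R] (c : Tot R Y), ∀ g ∈ ((⊥ : Subgroup G) : Set G),
        gs R Y g c = c := by
      intro R _ c g hg
      rw [Subgroup.mem_bot.1 hg, gs_one]
    have r1 := hRank1 X G Y F φ p t l n h1 hX.dep
    have r2 := hRank2 X G Y F p t ⊥ n h1.tc inferInstance fun z hz => by
      obtain ⟨a, ha, b, hb', -, e⟩ := r1 z fun i => ⟨(hz i).1, fun g hg => hg.elim⟩
      exact ⟨a, ha, b, hb', hb _ b, e⟩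
    obtain ⟨a, ha, b, hb', -, e⟩ := r2 (fun i => (toTw ℂ Y t).symm (z i).1)
      fun i => ⟨(z i).2, hb _ _⟩
    refine ⟨a, ha, ?_⟩
    rw [Psd1_mem_B, Psd1_sum, e]
    exact ⟨b, ⟨mem_CH_univ _, hb'⟩, rfl⟩
  · obtain ⟨x, hx, hx'⟩ := hX.cls
    choose u hu hu' using fun i => hLiftZ κ X G Y o F n φ p t l hX h1 (x i) (hx i)
    have hid : IsLocalHomeomorph (id : X → X) := (Homeomorph.refl X).isLocalHomeomorph
    obtain ⟨τ', hτ'⟩ := B.thomEx X X o id hid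
    have hz : ∀ i, castZ ℂ Y (u i) ∈ ZC ℂ (univ : Set Y) 2 := fun i =>
      ⟨⟨mem_CH_univ _, cast_mem_DG _ (hu i).1.2⟩, by
        have : dT ℤ Y (u i) = 0 := (hu i).2
        change dT ℂ Y _ = 0
        rw [← cast_dT, this, map_zero]⟩
    refine ⟨fun i => ⟨toTw ℂ Y t (castZ ℂ Y (u i)), hz i⟩, fun i j => ?_⟩
    have hbij : Function.Bijective fun m : ℤ => t ^ m := by
      refine ⟨fun a b e => ?_, fun g => (h1.gen g).imp fun _ e => e.symm⟩
      have e' : t ^ a = t ^ b := e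
      exact sub_eq_zero.1 (h1.tc.inf _ (by rw [zpow_sub, e', mul_inv_cancel]))
    have hc := B.comp κ X X G Y X o o p id p τ τ' hloc hid hloc h1.tc.cov.inv
      (fun _ _ _ h => h) h1.tc.cov.free
      (fun y y' => ⟨h1.tc.cov.trans y y', fun ⟨g, e⟩ => by rw [e, h1.tc.cov.inv]⟩)
      (hfin inferInstance).2 hτ hτ' _ (hz i) _ (hz j)
    rw [← cast_psh, ← cast_psh, hu', hu', hx' τ' hτ', ← finsum_comp _ hbij] at hc
    rw [← hc]
    refine (hev 1 _ _).trans (finsum_congr fun m => ?_)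
    rw [one_zpow, Circle.coe_one, one_mul]
    rfl

end Pool.Agent.MP_bc14e1_gt

end

section

open Set Metric
open scoped Classical

namespace Pool.Agent.MP_bc14e1_gt

theorem Gen_tors {R M : Type} [CommRing R] [IsDomain R] [IsNoetherianRing R] [AddCommGroup M]
    [Module R M] [Module.Finite R M] :
    ∃ D : R, D ≠ 0 ∧ ∀ (a : R) (x : M), a ≠ 0 → a • x = 0 → D • x = 0 := by
  obtain ⟨D, hD, hD'⟩ := Submodule.annihilator_top_inter_nonZeroDivisors
    (Submodule.torsion_isTorsion (R := R) (M := M))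
  refine ⟨D, nonZeroDivisors.ne_zero hD', fun a x ha hx => ?_⟩
  exact congrArg Subtype.val (Submodule.mem_annihilator.1 hD
    ⟨x, ⟨a, mem_nonZeroDivisors_of_ne_zero ha⟩, hx⟩ Submodule.mem_top)

section Aux

variable {G Y : Type} [Group G] [TopologicalSpace Y] [MulAction G Y] [ContinuousConstSMul G Y]

/-- The boundaries inside the cycles. -/
noncomputable def Gen_B (s : G) (k : ℕ) : Submodule (Lam ℂ) (ZT ℂ Y s k) :=
  (twSub (s := s) (BC ℂ univ k) (by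
    rintro n _ ⟨b, hb, rfl⟩
    exact ⟨gs ℂ Y (s ^ n) b, ⟨mem_CH_univ _, gs_mem_DG _ hb.2⟩, dT_gs _ _⟩)).comap
      (ZT ℂ Y s k).subtype

theorem Gen_mem_B {s : G} {k : ℕ} (z : ZT ℂ Y s k) :
    z ∈ Gen_B s k ↔ (toTw ℂ Y s).symm z.1 ∈ BC ℂ univ k := Iff.rfl

theorem Gen_sum {s : G} {k n : ℕ} (a : Fin n → Lam ℂ) (z : Fin n → ZT ℂ Y s k) :
    (toTw ℂ Y s).symm (∑ i, a i • z i : ZT ℂ Y s k).1 =
      ∑ i, act ℂ Y s (a i) ((toTw ℂ Y s).symm (z i).1) := by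
  rw [Submodule.coe_sum, map_sum]
  rfl

theorem Gen_fin {s : G} {k : ℕ} (h : FGI ℂ s (univ : Set Y) univ k) :
    Module.Finite (Lam ℂ) (ZT ℂ Y s k ⧸ Gen_B s k) := by
  obtain ⟨n, z, hz, h⟩ := h
  let z' : Fin n → ZT ℂ Y s k := fun i => ⟨toTw ℂ Y s (z i), hz i⟩
  refine Module.Finite.of_surjective
    ((Gen_B s k).mkQ ∘ₗ Fintype.linearCombination (Lam ℂ) z') fun x => ?_
  obtain ⟨y, rfl⟩ := (Gen_B s k).mkQ_surjective x
  obtain ⟨a, ha⟩ := h ((toTw ℂ Y s).symm y.1) y.2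
  refine ⟨a, ((Submodule.Quotient.eq _).2 ?_).symm⟩
  rw [Gen_mem_B, Fintype.linearCombination_apply, Submodule.coe_sub, map_sub, Gen_sum]
  exact ha

end Aux

theorem gen_stmt (hLaur : LaurStmt) : GenStmt := by
  intro G Y _ _ _ _ s k h
  obtain ⟨-, hN, -, -, -, -, hC, -, hdvd, hpr, -, -, hfin, -⟩ := hLaur
  have := hN ℂ
  have := Gen_fin h
  obtain ⟨D, hD, hD'⟩ := Gen_tors (R := Lam ℂ) (M := ZT ℂ Y s k ⧸ Gen_B s k)
  refine ⟨_, hfin D hD, fun ζ hζ z hz hb => ?_⟩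
  have hζ' : evL ζ D ≠ 0 := hζ
  let z' : ZT ℂ Y s k := ⟨toTw ℂ Y s z, hz⟩
  have h1 : piL ζ • (Gen_B s k).mkQ z' = 0 := by
    rw [← map_smul]
    exact (Submodule.Quotient.mk_eq_zero _).2 hb
  have h2 := hD' _ _ (hpr ζ).ne_zero h1
  obtain ⟨b, hb'⟩ := (hdvd ζ (D - LaurentPolynomial.C (evL ζ D))).1
    (by rw [map_sub, hC, sub_self])
  rw [sub_eq_iff_eq_add.1 hb', add_smul, mul_comm, mul_smul, h1, smul_zero, zero_add,
    ← map_smul] at h2
  have h3 : act ℂ Y s (LaurentPolynomial.C (evL ζ D)) z ∈ BC ℂ univ k :=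
    (Submodule.Quotient.mk_eq_zero (Gen_B s k)).1 h2
  rw [act_C] at h3
  exact (Submodule.smul_mem_iff _ hζ').1 h3

end Pool.Agent.MP_bc14e1_gt

end

section

open Set Metric
open scoped Classical

namespace Pool.Agent.MP_bc14e1_gt

theorem root_stmt (hLaur : LaurStmt) : RootStmt := by
  intro m ζ hm
  obtain ⟨-, -, -, -, -, hT, hC, -⟩ := hLaur
  have hm0 : (m : ℝ) ≠ 0 := by positivity
  have hmz : (m : ℤ) ≠ 0 := by positivity
  obtain ⟨t, rfl⟩ := Circle.exp_surjective ζ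
  set ζ := Circle.exp t with hζ
  let ξ : Circle := Circle.exp (2 * Real.pi / m)
  let η0 : Circle := Circle.exp (t / m)
  have hξ : IsPrimitiveRoot (ξ : ℂ) m := by
    have h := Complex.isPrimitiveRoot_exp m hm.ne'
    have e : (ξ : ℂ) = Complex.exp (2 * Real.pi * Complex.I / m) := by
      simp only [ξ, Circle.coe_exp]
      congr 1
      push_cast
      ring
    rwa [e]
  have hη0 : η0 ^ m = ζ := by
    simp only [η0, hζ]
    rw [← Circle.exp_nsmul]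
    congr 1
    rw [nsmul_eq_mul]
    field_simp
  have hξm : ξ ^ m = 1 := by
    apply Circle.ext
    simpa using hξ.pow_eq_one
  have hinj : Set.InjOn (fun k : ℕ => η0 * ξ ^ k) (Finset.range m : Set ℕ) := by
    intro i hi j hj hij
    have h1 : ξ ^ i = ξ ^ j := mul_left_cancel hij
    have h2 : (ξ : ℂ) ^ i = (ξ : ℂ) ^ j := by
      simpa using congrArg (fun z : Circle => (z : ℂ)) h1
    exact hξ.pow_inj (by simpa using hi) (by simpa using hj) h2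
  refine ⟨(Finset.range m).image fun k : ℕ => η0 * ξ ^ k, ?_, ?_, ?_⟩
  · rw [Finset.card_image_of_injOn hinj, Finset.card_range]
  · intro η hη
    obtain ⟨k, -, rfl⟩ := Finset.mem_image.1 hη
    rw [mul_pow, hη0, ← pow_mul, mul_comm k m, pow_mul, hξm, one_pow, mul_one]
  · intro a
    rw [Finset.sum_image hinj]
    have hfin : ∀ a : Lam ℂ,
        (Function.support fun n : ℤ => ((ζ ^ n : Circle) : ℂ) * a.coeff (m * n)).Finite := by
      intro a
      refine (a.coeff.support.finite_toSet.preimage (f := fun n : ℤ => (m : ℤ) * n)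
        (mul_right_injective₀ hmz).injOn).subset fun n hn => ?_
      simpa using right_ne_zero_of_mul hn
    induction a using LaurentPolynomial.induction_on' with
    | add p q hp hq =>
      simp only [map_add, Finset.sum_add_distrib, hp, hq, AddMonoidAlgebra.coeff_add,
        Finsupp.add_apply, mul_add]
      rw [finsum_add_distrib (hfin p) (hfin q), mul_add]
    | C_mul_T N c =>
      have hco : ∀ k : ℤ, (LaurentPolynomial.C c * LaurentPolynomial.T N : Lam ℂ).coeff k =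
          if N = k then c else 0 := by
        intro k
        rw [← LaurentPolynomial.single_eq_C_mul_T, AddMonoidAlgebra.coeff_single,
          Finsupp.single_apply]
      have hl : ∑ k ∈ Finset.range m, evL (η0 * ξ ^ k)
          (LaurentPolynomial.C c * LaurentPolynomial.T N) =
          c * (η0 : ℂ) ^ N * ∑ k ∈ Finset.range m, ((ξ : ℂ) ^ N) ^ k := by
        rw [Finset.mul_sum]
        refine Finset.sum_congr rfl fun k _ => ?_
        rw [map_mul, hT, hC]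
        push_cast
        rw [mul_zpow, ← zpow_natCast, ← zpow_natCast, ← zpow_mul, ← zpow_mul, mul_comm N k,
          mul_assoc]
      rw [hl]
      simp only [hco]
      by_cases hd : (m : ℤ) ∣ N
      · obtain ⟨n, rfl⟩ := hd
        rw [finsum_eq_single _ n fun x hx => by
          rw [if_neg fun h => hx (mul_left_cancel₀ hmz h).symm, mul_zero]]
        have e1 : (ξ : ℂ) ^ ((m : ℤ) * n) = 1 := by
          rw [zpow_mul, zpow_natCast, hξ.pow_eq_one, one_zpow]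
        have e2 : (η0 : ℂ) ^ ((m : ℤ) * n) = ((ζ ^ n : Circle) : ℂ) := by
          rw [← hη0, zpow_mul, zpow_natCast]
          push_cast
          rfl
        rw [e1, e2, if_pos rfl]
        simp only [one_pow, Finset.sum_const, Finset.card_range, nsmul_eq_mul, mul_one]
        ring
      · have e1 : (ξ : ℂ) ^ N ≠ 1 := fun h => hd ((hξ.zpow_eq_one_iff_dvd N).1 h)
        have e2 : ((ξ : ℂ) ^ N) ^ m = 1 := by
          rw [← zpow_natCast, ← zpow_mul, mul_comm, zpow_mul, zpow_natCast, hξ.pow_eq_one, one_zpow]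
        rw [geom_sum_eq e1, e2, finsum_eq_zero_of_forall_eq_zero fun n => by
          rw [if_neg fun h => hd ⟨n, h⟩, mul_zero]]
        simp

end Pool.Agent.MP_bc14e1_gt

end

section

open Set Metric
open scoped Classical

namespace Pool.Agent.MP_bc14e1_gt

theorem Pos0_ev (hL : LaurStmt) {C ι : Type} [AddCommGroup C] [Module (Lam ℂ) C] [Fintype ι]
    {l : C → C → Lam ℂ} (h : Sesq l) (η : Circle) (P : ι → Lam ℂ) (v : ι → C) :
    evL η (l (∑ i, P i • v i) (∑ i, P i • v i)) =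
      evL η (l (∑ i, (LaurentPolynomial.C (evL η (P i)) : Lam ℂ) • v i)
        (∑ i, (LaurentPolynomial.C (evL η (P i)) : Lam ℂ) • v i)) := by
  obtain ⟨-, -, -, -, -, -, hC, hj, -⟩ := hL
  have h1 : ∀ (x : ι → C) y, l (∑ i, x i) y = ∑ i, l (x i) y := fun x y =>
    map_sum (AddMonoidHom.mk' (fun u => l u y) fun a b => h.add_left a b y) x _
  have h2 : ∀ y (x : ι → C), l y (∑ i, x i) = ∑ i, l y (x i) := fun y x =>
    map_sum (AddMonoidHom.mk' (fun u => l y u) fun a b => h.add_right y a b) x _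
  simp only [h1, h2, h.smul_left, h.smul_right, map_sum, map_mul, hC, hj]

theorem Pos0_pos (hL : LaurStmt) (hRoot : RootStmt) {G Y : Type} [Group G] [TopologicalSpace Y]
    [MulAction G Y] [ContinuousConstSMul G Y] {t : G} {l : Tot ℂ Y → Tot ℂ Y → Lam ℂ}
    (h : Sesq (C := Tw ℂ Y t) l) {m n : ℕ} (hm : 0 < m) (v : Fin n → Tot ℂ Y)
    (hv : ∀ η : Circle, η ≠ 1 → ∀ a : Fin n → ℂ, a ≠ 0 →
      0 < (evL η (l (∑ i, a i • v i) (∑ i, a i • v i))).re)
    {ζ : Circle} (hζ : ζ ≠ 1) {a : Fin (m * n) → ℂ} (ha : a ≠ 0) {u : Tot ℂ Y}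
    (hu : u = ∑ i, a i • gs ℂ Y (t ^ ((finProdFinEquiv.symm i).1 : ℤ))
      (v (finProdFinEquiv.symm i).2)) :
    0 < (∑ᶠ k : ℤ, ((ζ ^ k : Circle) : ℂ) * (l u u).coeff (m * k)).re := by
  obtain ⟨S, hS, hr, hs⟩ := hRoot m ζ hm
  have h1 : ∀ η : Circle, evL η (l u u) =
      evL η (l (∑ i, (∑ k : Fin m, a (finProdFinEquiv (k, i)) * (η : ℂ) ^ (k : ℕ)) • v i)
        (∑ i, (∑ k : Fin m, a (finProdFinEquiv (k, i)) * (η : ℂ) ^ (k : ℕ)) • v i)) := by
    intro η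
    have h2 := Pos0_ev hL h η (fun i : Fin (m * n) => LaurentPolynomial.C (a i) *
      LaurentPolynomial.T ((finProdFinEquiv.symm i).1 : ℤ))
      fun i => toTw ℂ Y t (v (finProdFinEquiv.symm i).2)
    simp only [Tw.smul_def, ← map_sum, map_mul, Module.End.mul_apply, act_C, act_T,
      hL.2.2.2.2.2.1, hL.2.2.2.2.2.2.1] at h2
    rw [← hu, ← finProdFinEquiv.sum_comp, Fintype.sum_prod_type_right] at h2
    simp only [Equiv.symm_apply_apply, zpow_natCast, Circle.coe_pow] at h2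
    simp only [Finset.sum_smul, mul_smul]
    exact h2
  have h2 : 0 < (∑ η ∈ S, evL η (l u u)).re := by
    rw [Complex.re_sum]
    have hne : ∀ η ∈ S, η ≠ 1 := fun η hη e => hζ (by rw [← hr η hη, e, one_pow])
    refine Finset.sum_pos' (fun η hη => ?_) ?_
    · rw [h1]
      by_cases e : (fun i => ∑ k : Fin m, a (finProdFinEquiv (k, i)) * (η : ℂ) ^ (k : ℕ)) = 0
      · have h3 : l 0 0 = 0 := by
          have h4 := h.smul_left 0 (0 : Tw ℂ Y t) (0 : Tw ℂ Y t)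
          rw [zero_smul, zero_mul] at h4
          exact h4
        simp only [fun i => congrFun e i, Pi.zero_apply, zero_smul, Finset.sum_const_zero, h3,
          map_zero, Complex.zero_re, le_refl]
      · exact (hv η (hne η hη) _ e).le
    · by_contra hn
      refine ha (funext fun i => ?_)
      obtain ⟨⟨k, i⟩, rfl⟩ := finProdFinEquiv.surjective i
      refine congrFun (Matrix.eq_zero_of_forall_index_sum_mul_pow_eq_zero
        (f := fun k => (((S.equivFinOfCardEq hS).symm k : Circle) : ℂ))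
        (v := fun k => a (finProdFinEquiv (k, i)))
        (Circle.coe_injective.comp (Subtype.val_injective.comp (Equiv.injective _))) fun r => ?_) k
      by_contra e
      refine hn ⟨_, ((S.equivFinOfCardEq hS).symm r).2, ?_⟩
      rw [h1]
      exact hv _ (hne _ (Subtype.property _)) _ fun e' => e (congrFun e' i)
  rw [hs, Complex.mul_re, Complex.natCast_re, Complex.natCast_im, zero_mul, sub_zero] at h2
  exact pos_of_mul_pos_right h2 (Nat.cast_nonneg m)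

theorem pos0_stmt (B : Bas2) (hRoot : RootStmt) : Pos0Stmt := by
  intro κ X G Y A G' Y' _ _ _ _ _ _ _ _ _ _ _ _ _ _ _ o F φ p t l τ m α q j t' l' n τ₁ τ₂ P1 P2 hm
    T1 I1 ⟨v, hv, hpos⟩ T2 I2
  have : Finite j.range := Finite.of_surjective _ j.rangeRestrict_surjective
  have := Fintype.ofFinite j.range
  obtain ⟨tr, inj, h1, h2, h3, h4, h5⟩ := B.tr ℂ j.range Y Y' q P2.cov
  have h6 : ∀ (g : j.range) c, gs ℂ Y' g (tr c) = tr c := fun g c => (h4 _).2 ⟨c, rfl⟩ g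
  have h7 : ∀ (k : ℤ) c, tr (gs ℂ Y (t ^ k) c) = gs ℂ Y' (t' ^ k) (tr c) := fun k c => by
    rw [← act_T, ← act_T]
    refine map_act tr (fun c => (h5 (fun y => t • y) (Homeomorph.smul t')
      (continuous_const_smul t) P2.qt ?_ c).symm) _ c
    rintro ⟨_, a, rfl⟩
    refine ⟨⟨_, Multiplicative.ofAdd (τ a.toAdd), rfl⟩, fun y => ?_⟩
    change t' • j a • y = j _ • t' • y
    rw [← P2.conj, ← mul_smul, ← mul_smul, inv_mul_cancel_right, ofAdd_toAdd]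
  have h8 : ∀ c, psh ℂ q (tr c) = (Fintype.card j.range : ℂ) • c := fun c => inj (by
    rw [h1, finsum_eq_sum_of_fintype, map_smul]
    simp only [h6, Finset.sum_const, Finset.card_univ, Nat.cast_smul_eq_nsmul])
  have hz : ∀ c ∈ ZC ℂ (univ : Set Y) 2, tr c ∈ ZC ℂ (univ : Set Y') 2 := fun c hc =>
    ⟨⟨mem_CH_univ _, (h3 2 c).2 hc.1.2⟩, by
      have e : dT ℂ Y c = 0 := hc.2
      change dT ℂ Y' _ = 0
      rw [h2, e, map_zero]⟩
  have hg : ∀ (g : G), ∀ c ∈ ZC ℂ (univ : Set Y) 2, gs ℂ Y g c ∈ ZC ℂ (univ : Set Y) 2 :=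
    fun g c hc => ⟨⟨mem_CH_univ _, gs_mem_DG _ hc.1.2⟩, by
      have e : dT ℂ Y c = 0 := hc.2
      change dT ℂ Y _ = 0
      rw [dT_gs, e, map_zero]⟩
  have hN : (0 : ℝ) < Fintype.card j.range := Nat.cast_pos.2 Fintype.card_pos
  have h9 : ∀ u ∈ ZC ℂ (univ : Set Y) 2, ∀ w ∈ ZC ℂ (univ : Set Y) 2,
      beta κ τ₂ (tr u) (tr w) = Fintype.card j.range * beta κ τ₁ u w := fun u hu w hw => by
    have h := B.comp κ X X j.range Y' Y o o (p ∘ q) p q τ₂ τ₁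
      (B.cov G' X Y' _ _ P2.tc.cov).2.1 (B.cov G X Y _ _ P1.tc.cov).2.1
      (B.cov j.range Y Y' _ _ P2.cov).2.1 (fun g y => P2.tc.cov.inv g y) (fun _ _ _ h => h)
      P2.cov.free (fun y y' => ⟨P2.cov.trans y y', fun ⟨g, e⟩ => by rw [e, P2.cov.inv]⟩)
      (fun _ _ _ _ => Set.toFinite _) T2 T1 _ (hz u hu) _ (hz w hw)
    rw [finsum_eq_sum_of_fintype, h8, h8] at h
    simp only [h6, Finset.sum_const, Finset.card_univ, nsmul_eq_mul, LinearMap.map_smulₛₗ,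
      LinearMap.smul_apply, map_natCast, smul_eq_mul] at h
    exact mul_left_cancel₀ (Nat.cast_ne_zero.2 Fintype.card_ne_zero) h
  have L1 := B.lam X G Y F p t _ P1.tc (B.pair κ X G Y o F p t τ₁ P1.tc T1 I1).1.lk
  have L2 := B.lam X G' Y' F _ _ _ P2.tc (B.pair κ X G' Y' o F _ _ τ₂ P2.tc T2 I2).1.lk
  refine ⟨fun i => tr (gs ℂ Y (t ^ ((finProdFinEquiv.symm i).1 : ℤ))
    (v (finProdFinEquiv.symm i).2)), fun i => ⟨hz _ (hg _ _ (hv _)), fun a => h6 ⟨_, a, rfl⟩ _⟩,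
    fun ζ hζ a ha => ?_⟩
  simp only [← map_smul tr, ← map_sum tr]
  generalize hu : (∑ i, a i • gs ℂ Y (t ^ ((finProdFinEquiv.symm i).1 : ℤ))
    (v (finProdFinEquiv.symm i).2)) = u
  have hZ : u ∈ ZC ℂ (univ : Set Y) 2 :=
    hu ▸ Submodule.sum_mem _ fun i _ => Submodule.smul_mem _ _ (hg _ _ (hv _))
  have h := Pos0_pos B.laur hRoot L1.1 hm v hpos hζ ha hu.symm
  have e : evL ζ (lamF (t' ^ m) (beta κ τ₂) (tr u) (tr u)) = Fintype.card j.range *
      ∑ᶠ k : ℤ, ((ζ ^ k : Circle) : ℂ) * (lamF t (beta κ τ₁) u u).coeff (m * k) := by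
    rw [L2.2.2.2.2, mul_finsum]
    refine finsum_congr fun k => ?_
    rw [L1.2.2.2.1, ← zpow_natCast, ← zpow_mul, ← h7, h9 u hZ _ (hg _ _ hZ), mul_left_comm]
  rw [e, Complex.mul_re, Complex.natCast_re, Complex.natCast_im, zero_mul, sub_zero]
  exact mul_pos hN h

end Pool.Agent.MP_bc14e1_gt

end

section

open Set Metric
open scoped Classical

namespace Pool.Agent.MP_bc14e1_gt

theorem Dim_avg {G Y : Type} [Group G] [TopologicalSpace Y] [MulAction G Y]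
    [ContinuousConstSMul G Y] (B : Subgroup G) [Finite B] {k : ℕ} {c : Tot ℂ Y}
    (hc : c ∈ DG ℂ Y k) (hd : ∀ g ∈ B, gs ℂ Y g (dT ℂ Y c) = dT ℂ Y c) :
    ∃ c' ∈ DG ℂ Y k, dT ℂ Y c' = dT ℂ Y c ∧ ∀ g ∈ B, gs ℂ Y g c' = c' := by
  have := Fintype.ofFinite B
  have hN : (Fintype.card B : ℂ) ≠ 0 := Nat.cast_ne_zero.2 Fintype.card_ne_zero
  refine ⟨(Fintype.card B : ℂ)⁻¹ • ∑ g : B, gs ℂ Y (g : G) c,
    Submodule.smul_mem _ _ (Submodule.sum_mem _ fun g _ => gs_mem_DG _ hc), ?_, fun g hg => ?_⟩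
  · rw [map_smul, map_sum, Finset.sum_congr rfl fun (g : B) _ => (dT_gs (g : G) c).trans (hd g g.2),
      Finset.sum_const, Finset.card_univ, ← Nat.cast_smul_eq_nsmul ℂ, smul_smul,
      inv_mul_cancel₀ hN, one_smul]
  · rw [map_smul, map_sum]
    congr 1
    refine Fintype.sum_equiv (Equiv.mulLeft (⟨g, hg⟩ : B)) _ _ fun x => ?_
    rw [← gs_mul]
    rfl

theorem dim_stmt (B : Bas1) : DimStmt := by
  intro G Y _ _ _ _ s H n ζ _ hcen hfree hdep hdiv z hz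
  obtain ⟨-, hnoe, -, -, -, -, hC, -, hev, hprime, -⟩ := B.laur
  have hπ := hprime ζ
  have htf := B.tf ℂ G Y s hfree (piL ζ) hπ.ne_zero
  have hga : ∀ (g : G) (a : Lam ℂ) (c : Tot ℂ Y),
      gs ℂ Y g (act ℂ Y s a c) = act ℂ Y s a (gs ℂ Y g c) := fun g =>
    map_act (gs ℂ Y g) fun c => by rw [← gs_mul, ← gs_mul, hcen]
  have hc : ∀ i, ∃ c ∈ DG ℂ Y 2, act ℂ Y s (piL ζ) (dT ℂ Y c) = dT ℂ Y (z i) ∧
      ∀ g ∈ H, gs ℂ Y g c = c := by
    intro i
    obtain ⟨h1, ⟨y, hy⟩, h3⟩ := hz i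
    have y1 : y ∈ DG ℂ Y 1 := (htf y).2.2 1 (hy ▸ dT_mem_DG h1)
    have y2 : dT ℂ Y y = 0 := (htf _).1 (by rw [← dT_act, hy, dT_dT])
    have y3 : ∀ g ∈ H, gs ℂ Y g y = y := fun g hg => sub_eq_zero.1 ((htf _).1 (by
      rw [map_sub, ← hga, hy, ← dT_gs, h3 g hg, sub_self]))
    obtain ⟨c, c1, rfl⟩ := hdiv 1 (.inl rfl) y ⟨⟨mem_CH_univ _, y1⟩, y2⟩
      ⟨z i, ⟨mem_CH_univ _, h1⟩, hy.symm⟩
    obtain ⟨c', d1, d2, d3⟩ := Dim_avg H c1.2 y3
    exact ⟨c', d1, by rw [d2, hy], d3⟩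
  choose c c1 c2 c3 using hc
  let z' : Fin (n + 1) → Tot ℂ Y := fun i => z i - act ℂ Y s (piL ζ) (c i)
  have hz' : ∀ i, z' i ∈ ZC ℂ (univ : Set Y) 2 := fun i =>
    ⟨⟨mem_CH_univ _, sub_mem (hz i).1 (act_mem_DG s _ (c1 i))⟩, by
      rw [SetLike.mem_coe, LinearMap.mem_ker, map_sub, dT_act, c2, sub_self]⟩
  have hZ : ∀ a : Fin (n + 1) → Lam ℂ, ∑ i, act ℂ Y s (a i) (z' i) ∈ ZC ℂ (univ : Set Y) 2 :=
    fun a => Submodule.sum_mem _ fun i _ => ⟨⟨mem_CH_univ _, act_mem_DG s _ (hz' i).1.2⟩, by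
      rw [SetLike.mem_coe, LinearMap.mem_ker, dT_act, show dT ℂ Y (z' i) = 0 from (hz' i).2,
        map_zero]⟩
  have key : ∀ (m : ℕ) (a : Fin (n + 1) → Lam ℂ), (∃ i, ¬ piL ζ ^ m ∣ a i) →
      ∑ i, act ℂ Y s (a i) (z' i) ∈ BC ℂ (univ : Set Y) 2 →
      ∃ a' : Fin (n + 1) → Lam ℂ, (∃ i, ¬ piL ζ ∣ a' i) ∧
        ∑ i, act ℂ Y s (a' i) (z' i) ∈ BC ℂ (univ : Set Y) 2 := by
    intro m
    induction m with
    | zero =>
      rintro a ⟨i, hi⟩
      exact absurd (by rw [pow_zero]; exact one_dvd _) hi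
    | succ m ih =>
      rintro a ⟨i, hi⟩ hb
      by_cases hall : ∀ i, piL ζ ∣ a i
      · choose a' ha' using hall
        refine ih a' ⟨i, fun h => hi ?_⟩ (hdiv 2 (.inr rfl) _ (hZ a') ?_)
        · rw [ha' i, pow_succ']
          exact mul_dvd_mul_left _ h
        · rw [map_sum]
          simpa only [ha', map_mul, Module.End.mul_apply] using hb
      · exact ⟨a, not_forall.1 hall, hb⟩
  obtain ⟨a, ha0, b, hb, -, hab⟩ := hdep z' fun i => ⟨hz' i, fun g hg => by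
    simp only [z']
    rw [map_sub, hga, (hz i).2.2 g hg, c3 i g hg]⟩
  obtain ⟨i0, hi0⟩ := Function.ne_iff.1 ha0
  have := hnoe ℂ
  obtain ⟨m, hm⟩ := FiniteMultiplicity.of_prime_left hπ hi0
  obtain ⟨a', ⟨i1, hi1⟩, w, -, hw⟩ := key (m + 1) a ⟨i0, hm⟩ ⟨b, ⟨mem_CH_univ _, hb⟩, hab.symm⟩
  refine ⟨fun i => evL ζ (a' i), fun e => hi1 ((hev ζ _).1 (congrFun e i1)), w, ?_⟩
  rw [hw, ← Finset.sum_sub_distrib]
  refine Submodule.sum_mem _ fun i _ => ?_
  obtain ⟨d, hd⟩ := (hev ζ (a' i - LaurentPolynomial.C (evL ζ (a' i)))).1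
    (by rw [map_sub, hC, sub_self])
  refine ⟨evL ζ (a' i) • c i - act ℂ Y s d (z' i), ?_⟩
  rw [map_sub, map_smul, ← Module.End.mul_apply, ← map_mul, ← hd, map_sub (act ℂ Y s),
    LinearMap.sub_apply, act_C]
  simp only [z', smul_sub]
  abel

end Pool.Agent.MP_bc14e1_gt

end

section

open Set Metric
open scoped Classical

namespace Pool.Agent.MP_bc14e1_gt

theorem sard_stmt : SardStmt := by
  intro ι _ U f hU hf
  let g : ι → E 4 → ℝ × (E 4 →L[ℝ] ℝ) := fun i x =>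
    (-f i x + fderiv ℝ (f i) x x, -fderiv ℝ (f i) x)
  have hg : ∀ i, ∀ x ∈ U, ContDiffAt ℝ 1 (g i) x := by
    intro i x hx
    have h2 : ContDiffAt ℝ 2 (f i) x := (hf i).contDiffAt (hU.mem_nhds hx)
    have h1 : ContDiffAt ℝ 1 (fderiv ℝ (f i)) x := h2.fderiv_right (by norm_num)
    exact ((h2.of_le (by norm_num)).neg.add (h1.clm_apply contDiffAt_id)).prodMk h1.neg
  have hd : ∀ i, dimH (g i '' U) ≤ 4 := by
    intro i
    refine (dimH_image_le_of_locally_lipschitzOn fun x hx => ?_).trans ?_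
    · obtain ⟨K, t, ht, hK⟩ := (hg i x hx).exists_lipschitzOnWith
      exact ⟨K, t, mem_nhdsWithin_of_mem_nhds ht, hK⟩
    · refine (dimH_mono (subset_univ U)).trans ?_
      rw [Real.dimH_univ_eq_finrank]
      simp
  have hfr : Module.finrank ℝ (ℝ × (E 4 →L[ℝ] ℝ)) = 5 := by
    have h4 : Module.finrank ℝ (E 4 →L[ℝ] ℝ) = 4 := by
      rw [← (LinearMap.toContinuousLinearMap (𝕜 := ℝ) (E := E 4) (F' := ℝ)).finrank_eq,
        Module.finrank_linearMap]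
      simp
    rw [Module.finrank_prod, h4]
    simp
  have hlt : dimH (⋃ i, g i '' U) < Module.finrank ℝ (ℝ × (E 4 →L[ℝ] ℝ)) := by
    rw [dimH_iUnion, hfr]
    refine (iSup_le hd).trans_lt ?_
    norm_num
  refine (dense_compl_of_dimH_lt_finrank hlt).mono ?_
  intro q hq i x hx h0 h1
  apply hq
  refine mem_iUnion.2 ⟨i, x, hx, ?_⟩
  have h2 : q.2 = -fderiv ℝ (f i) x := eq_neg_of_add_eq_zero_right h1
  refine Prod.ext ?_ h2.symm
  rw [h2] at h0
  simp only [neg_apply] at h0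
  simp only [g]
  linarith

end Pool.Agent.MP_bc14e1_gt

end

section

open Set Metric Filter Topology
open scoped Classical Manifold ContDiff

namespace Pool.Agent.MP_bc14e1_gt

theorem Trans_open {P : Type} [NormedAddCommGroup P] [NormedSpace ℝ P] (H : P → E 4 → ℝ)
    (K : Set (E 4)) (hK : IsCompact K)
    (hH : ∀ q, ∀ z ∈ K, ContDiffAt ℝ 2 (fun p : P × E 4 => H p.1 p.2) (q, z)) :
    IsOpen {q | ∀ z ∈ K, H q z = 0 → fderiv ℝ (H q) z ≠ 0} := by
  refine isOpen_iff_mem_nhds.2 fun q hq => hK.eventually_forall_of_forall_eventually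
    (P := fun q z => H q z = 0 → fderiv ℝ (H q) z ≠ 0) fun z hz => ?_
  by_cases h : H q z = 0
  · have h1 : ContDiffAt ℝ 1 (fun p : P × E 4 => fderiv ℝ (H p.1) p.2) (q, z) := by
      refine ContDiffAt.fderiv (n := 2) (f := fun p : P × E 4 => H p.1) (g := fun p => p.2) ?_
        contDiffAt_snd (by norm_num)
      exact ContDiffAt.comp (g := fun p : P × E 4 => H p.1 p.2)
        (f := fun w : (P × E 4) × E 4 => (w.1.1, w.2)) ((q, z), z) (hH q z hz) (by fun_prop)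
    exact (h1.continuousAt.eventually_ne (hq z hz h)).mono fun _ h _ => h
  · exact ((hH q z hz).continuousAt.eventually_ne h).mono fun _ h h' => absurd h' h

theorem Trans_dense (hSard : SardStmt) {n : ℕ} (k : Fin n) (s : ℝ) (hs : s * s = 1)
    (H : (Fin n → ℝ × (E 4 →L[ℝ] ℝ)) → E 4 → ℝ) (V : Set (E 4)) (hV : IsOpen V)
    (hH : ∀ q, ContDiffOn ℝ 2 (H q) V)
    (hu : ∀ q u, ∀ z ∈ V, H (Function.update q k u) z =
      H (Function.update q k 0) z + s * (u.1 + u.2 z)) :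
    Dense {q | ∀ z ∈ V, H q z = 0 → fderiv ℝ (H q) z ≠ 0} := by
  intro q
  have hD := hSard Unit V (fun _ z => s * H (Function.update q k 0) z) hV
    (fun _ => contDiffOn_const.mul (hH _)) (q k)
  have hm : Continuous fun u => Function.update q k u := continuous_const.update k continuous_id
  have := map_mem_closure hm hD (t := {q | ∀ z ∈ V, H q z = 0 → fderiv ℝ (H q) z ≠ 0}) ?_
  · rwa [Function.update_eq_self] at this
  intro u hu' z hz h0 h1
  have e : ∀ z ∈ V, s * H (Function.update q k 0) z + u.1 + u.2 z =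
      s * H (Function.update q k u) z := fun z hz => by
    rw [hu q u z hz]
    linear_combination (-(u.1 + u.2 z)) * hs
  refine hu' () z hz (by rw [e z hz, h0, mul_zero]) ?_
  have d : ∀ q, DifferentiableAt ℝ (H q) z := fun q =>
    ((hH q).contDiffAt (hV.mem_nhds hz)).differentiableAt (by norm_num)
  have h2 : HasFDerivAt (fun z => s * H (Function.update q k 0) z + u.1 + u.2 z)
      (fderiv ℝ (fun z => s * H (Function.update q k 0) z) z + u.2) z :=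
    (((d _).const_mul s).hasFDerivAt.add_const u.1).add u.2.hasFDerivAt
  have h3 := ((d (Function.update q k u)).hasFDerivAt.const_mul s).congr_of_eventuallyEq
    (eventually_of_mem (hV.mem_nhds hz) e)
  rw [h2.unique h3, h1, smul_zero]

theorem Trans_mono {X : Type} [TopologicalSpace X] (f : X → ℝ) (x : X)
    (e : OpenPartialHomeomorph X (E 4)) (hx : x ∈ e.source)
    (hf : ContDiffAt ℝ 2 (fun z => f (e.symm z)) (e x))
    (h0 : fderiv ℝ (fun z => f (e.symm z)) (e x) ≠ 0) : Mono f x := by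
  set h : E 4 → ℝ := fun z => f (e.symm z) with hh
  obtain ⟨v, hv⟩ : ∃ v, fderiv ℝ h (e x) v = -2 := by
    obtain ⟨w, hw⟩ : ∃ w, fderiv ℝ h (e x) w ≠ 0 := by
      by_contra hc
      exact h0 (ContinuousLinearMap.ext fun w => by_contra fun h => hc ⟨w, h⟩)
    refine ⟨(-2 / fderiv ℝ h (e x) w) • w, ?_⟩
    rw [map_smul, smul_eq_mul, div_mul_cancel₀ _ hw]
  have h1 : ContinuousAt (fun z => fderiv ℝ h z v) (e x) :=
    ((hf.fderiv_right (m := 1) (by norm_num)).continuousAt).clm_apply continuousAt_const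
  have h2 : ∀ᶠ z in 𝓝 (e x), fderiv ℝ h z v < -1 :=
    h1.eventually_lt continuousAt_const (by rw [hv]; norm_num)
  have h3 : ∀ᶠ z in 𝓝 (e x), DifferentiableAt ℝ h z :=
    (hf.eventually (by simp)).mono fun z hz => hz.differentiableAt (by norm_num)
  obtain ⟨r, hr, h4⟩ := Metric.eventually_nhds_iff_ball.1
    (h2.and (h3.and (e.open_target.mem_nhds (e.map_source hx))))
  refine ⟨e, v, 1, r, hx, one_pos, hr, fun z hz => (h4 z hz).2.2, fun z hz θ hθ hz' => ?_⟩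
  have hb : ∀ s ∈ Icc (0 : ℝ) 1, z + s • θ • v ∈ ball (e x) r := fun s hs =>
    (convex_ball _ _).add_smul_mem hz hz' hs
  have hd : ∀ s ∈ Icc (0 : ℝ) 1, HasDerivAt (fun s : ℝ => h (z + s • θ • v))
      (fderiv ℝ h (z + s • θ • v) (θ • v)) s := fun s hs => by
    have := ((hasDerivAt_id s).smul_const (θ • v)).const_add z
    rw [one_smul] at this
    exact (h4 _ (hb s hs)).2.1.hasFDerivAt.comp_hasDerivAt s this
  have h5 := (convex_Icc (0 : ℝ) 1).image_sub_le_mul_sub_of_deriv_le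
    (f := fun s : ℝ => h (z + s • θ • v)) (C := -θ)
    (fun s hs => (hd s hs).continuousAt.continuousWithinAt)
    (fun s hs => (hd s (interior_subset hs)).differentiableAt.differentiableWithinAt)
    (fun s hs => by
      rw [(hd s (interior_subset hs)).deriv, map_smul, smul_eq_mul]
      nlinarith [(h4 _ (hb s (interior_subset hs))).1]) 0 (by simp) 1 (by simp) zero_le_one
  simp only [one_smul, zero_smul, add_zero] at h5
  change h (z + θ • v) ≤ h z - 1 * θ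
  linarith

theorem Trans_chart {X F : Type} [TopologicalSpace X] [ChartedSpace (E 4) X]
    [IsManifold (𝓡 4) ∞ X] [NormedAddCommGroup F] [NormedSpace ℝ F] {u : X → F}
    (hu : ContMDiff (𝓡 4) 𝓘(ℝ, F) ∞ u) (c : X) {z : E 4} (hz : z ∈ (chartAt (E 4) c).target) :
    ContDiffAt ℝ 2 (fun z => u ((chartAt (E 4) c).symm z)) z := by
  have h1 : ContMDiffOn (𝓡 4) 𝓘(ℝ, F) ∞ (u ∘ (chartAt (E 4) c).symm) (chartAt (E 4) c).target :=
    hu.comp_contMDiffOn contMDiffOn_chart_symm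
  exact ((contMDiffOn_iff_contDiffOn.1 h1).contDiffAt
    ((chartAt (E 4) c).open_target.mem_nhds hz)).of_le (by norm_cast)

theorem Trans_local {X : Type} [TopologicalSpace X] [T2Space X] [CompactSpace X]
    [ChartedSpace (E 4) X] [IsManifold (𝓡 4) ∞ X] (O : Set X) (hO : IsOpen O) (x : X)
    (hx : x ∈ O) : ∃ (ρ : X → ℝ) (W C : Set X), ContMDiff (𝓡 4) 𝓘(ℝ, ℝ) ∞ ρ ∧
      ContMDiff (𝓡 4) 𝓘(ℝ, E 4) ∞ (fun y => ρ y • chartAt (E 4) x y) ∧ tsupport ρ ⊆ O ∧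
      IsOpen W ∧ W ⊆ (chartAt (E 4) x).source ∧ (∀ y ∈ W, ρ y = 1) ∧ IsCompact C ∧ C ⊆ W ∧
      C ∈ 𝓝 x := by
  obtain ⟨ρ, -, h1⟩ := (SmoothBumpFunction.nhds_basis_tsupport (I := 𝓡 4) x).mem_iff.1
    (hO.mem_nhds hx)
  obtain ⟨W, h2, h3, h4⟩ := eventually_nhds_iff.1
    (ρ.eventuallyEq_one.and (chart_source_mem_nhds (E 4) x))
  obtain ⟨C, h5, h6, h7⟩ := exists_compact_subset h3 h4
  exact ⟨ρ, W, C, ρ.contMDiff, ρ.contMDiff_smul contMDiffOn_chart, h1, h3, fun y hy => (h2 y hy).2,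
    fun y hy => (h2 y hy).1, h5, h7, mem_interior_iff_mem_nhds.1 h6⟩

theorem Trans_core (hSard : SardStmt) {X : Type} [TopologicalSpace X] [CompactSpace X]
    [ChartedSpace (E 4) X] [IsManifold (𝓡 4) ∞ X] {n : ℕ} (c : Fin n → X) (g₀ : X → ℝ)
    (ρ : Fin n → X → ℝ) (W C : Fin n → Set X) (h0 : ContMDiff (𝓡 4) 𝓘(ℝ, ℝ) ∞ g₀)
    (h1 : ∀ k, ContMDiff (𝓡 4) 𝓘(ℝ, ℝ) ∞ (ρ k))
    (h2 : ∀ k, ContMDiff (𝓡 4) 𝓘(ℝ, E 4) ∞ (fun y => ρ k y • chartAt (E 4) (c k) y))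
    (h3 : ∀ k, IsOpen (W k)) (h4 : ∀ k, W k ⊆ (chartAt (E 4) (c k)).source)
    (h5 : ∀ k, ∀ y ∈ W k, ρ k y = 1) (h6 : ∀ k, IsCompact (C k)) (h7 : ∀ k, C k ⊆ W k) :
    ∃ g : Fin n → X → ℝ, (∀ k, Continuous (g k)) ∧ (∀ k x, ρ k x = 0 → g k x = 0) ∧
      (∀ x, ∑ k, |g k x| < 1) ∧ ∀ (ε₀ : ℝ) (ε : Fin n → ℝ), |ε₀| = 1 → (∀ k, |ε k| = 1) →
        ∀ k, ∀ x ∈ C k, ε₀ * g₀ x + ∑ k, ε k * g k x = 0 →
          Mono (fun x => ε₀ * g₀ x + ∑ k, ε k * g k x) x := by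
  let G : Fin n → ℝ × (E 4 →L[ℝ] ℝ) → X → ℝ := fun k u x =>
    u.1 * ρ k x + u.2 (ρ k x • chartAt (E 4) (c k) x)
  let sg : Bool → ℝ := fun b => if b then 1 else -1
  have hsg : ∀ t : ℝ, |t| = 1 → ∃ b, sg b = t := fun t ht => by
    rcases eq_or_eq_neg_of_abs_eq ht with rfl | rfl
    exacts [⟨true, rfl⟩, ⟨false, rfl⟩]
  let H : Fin n × Bool × (Fin n → Bool) → (Fin n → ℝ × (E 4 →L[ℝ] ℝ)) → E 4 → ℝ := fun a q z =>
    sg a.2.1 * g₀ ((chartAt (E 4) (c a.1)).symm z) +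
      ∑ j, sg (a.2.2 j) * G j (q j) ((chartAt (E 4) (c a.1)).symm z)
  have hH : ∀ a q, ∀ z ∈ (chartAt (E 4) (c a.1)).target, ContDiffAt ℝ 2
      (fun p : (Fin n → ℝ × (E 4 →L[ℝ] ℝ)) × E 4 => H a p.1 p.2) (q, z) := by
    intro a q z hz
    refine (contDiffAt_const.mul ((Trans_chart h0 _ hz).comp (q, z) contDiffAt_snd)).add
      (ContDiffAt.sum fun j _ => contDiffAt_const.mul (ContDiffAt.add (ContDiffAt.mul ?_
        ((Trans_chart (h1 j) _ hz).comp (q, z) contDiffAt_snd)) (ContDiffAt.clm_apply ?_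
        ((Trans_chart (h2 j) _ hz).comp (q, z) contDiffAt_snd))))
    · fun_prop
    · fun_prop
  have hH' : ∀ a q, ∀ z ∈ (chartAt (E 4) (c a.1)).target, ContDiffAt ℝ 2 (H a q) z :=
    fun a q z hz => ContDiffAt.comp (f := fun z => (q, z)) z (hH a q z hz) (by fun_prop)
  have hD : Dense (⋂ a : Fin n × Bool × (Fin n → Bool), {q | ∀ z ∈ chartAt (E 4) (c a.1) '' C a.1,
      H a q z = 0 → fderiv ℝ (H a q) z ≠ 0}) := by
    refine dense_iInter_of_isOpen (fun a => Trans_open _ _ ((h6 a.1).image_of_continuousOn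
      ((chartAt (E 4) (c a.1)).continuousOn.mono ((h7 _).trans (h4 _)))) ?_) fun a => ?_
    · rintro q _ ⟨x, hx, rfl⟩
      exact hH a q _ ((chartAt (E 4) (c a.1)).map_source (h4 _ (h7 _ hx)))
    refine (Trans_dense hSard a.1 (sg (a.2.2 a.1)) (by cases a.2.2 a.1 <;> simp [sg]) (H a)
      ((chartAt (E 4) (c a.1)).target ∩ (chartAt (E 4) (c a.1)).symm ⁻¹' W a.1)
      ((chartAt (E 4) (c a.1)).isOpen_inter_preimage_symm (h3 _))
      (fun q z hz => (hH' a q z hz.1).contDiffWithinAt) ?_).mono ?_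
    · intro q u z hz
      simp only [H]
      rw [← Finset.add_sum_erase _ _ (Finset.mem_univ a.1),
        ← Finset.add_sum_erase _ _ (Finset.mem_univ a.1),
        Finset.sum_congr rfl (g := fun j => sg (a.2.2 j) *
          G j (Function.update q a.1 0 j) ((chartAt (E 4) (c a.1)).symm z)) fun j hj => by
          rw [Function.update_of_ne (Finset.ne_of_mem_erase hj),
            Function.update_of_ne (Finset.ne_of_mem_erase hj)]]
      simp only [Function.update_self, G, h5 _ _ hz.2, (chartAt (E 4) (c a.1)).right_inv hz.1,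
        one_smul, Prod.fst_zero, Prod.snd_zero, zero_apply]
      ring
    · rintro q hq _ ⟨x, hx, rfl⟩
      refine hq _ ⟨(chartAt (E 4) (c a.1)).map_source (h4 _ (h7 _ hx)), ?_⟩
      rw [mem_preimage, (chartAt (E 4) (c a.1)).left_inv (h4 _ (h7 _ hx))]
      exact h7 _ hx
  have hc : Continuous fun p : (Fin n → ℝ × (E 4 →L[ℝ] ℝ)) × X => ∑ k, |G k (p.1 k) p.2| := by
    refine continuous_finsetSum _ fun k _ => Continuous.abs (Continuous.add (Continuous.mul ?_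
      ((h1 k).continuous.comp continuous_snd)) (Continuous.clm_apply ?_
      ((h2 k).continuous.comp continuous_snd)))
    · fun_prop
    · fun_prop
  have hs : ∀ᶠ q in 𝓝 (0 : Fin n → ℝ × (E 4 →L[ℝ] ℝ)), ∀ x ∈ univ, ∑ k, |G k (q k) x| < 1 :=
    isCompact_univ.eventually_forall_of_forall_eventually fun x _ =>
      hc.continuousAt.eventually_lt continuousAt_const (by simp [G])
  obtain ⟨q, hq, hq'⟩ := hD.inter_nhds_nonempty hs
  refine ⟨fun k => G k (q k), fun k => (continuous_const.mul (h1 k).continuous).add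
    ((q k).2.continuous.comp (h2 k).continuous), fun k x h => by simp [G, h],
    fun x => hq' x trivial, fun ε₀ ε e0 e k x hx hz => ?_⟩
  obtain ⟨b, rfl⟩ := hsg _ e0
  choose β hβ using fun j => hsg _ (e j)
  obtain rfl : ε = fun j => sg (β j) := funext fun j => (hβ j).symm
  have hx' := h4 _ (h7 _ hx)
  refine Trans_mono _ x (chartAt (E 4) (c k)) hx'
    (hH' (k, b, β) q _ ((chartAt (E 4) (c k)).map_source hx'))
    (mem_iInter.1 hq (k, b, β) _ (mem_image_of_mem _ hx) ?_)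
  simp only [H]
  rw [(chartAt (E 4) (c k)).left_inv hx']
  exact hz

theorem trans_stmt (hSard : SardStmt) : TransStmt := by
  intro X ι _ _ _ _ _ F N U hF hN hFN hU hc
  obtain ⟨g₀, a0, a1, -⟩ := exists_contMDiffMap_zero_one_nhds_of_isClosed (𝓡 4) (n := ⊤)
    hN.isClosed_compl hF (disjoint_left.2 fun x hx hx' => hx (hFN hx'))
  obtain ⟨N1, b1, b2, b3⟩ := mem_nhdsSet_iff_exists.1 a1
  obtain ⟨N', c1, c2, c3⟩ := normal_exists_closure_subset hF b1 b2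
  have hl : ∀ x : (N1ᶜ : Set X), ∃ i, x.1 ∈ U i ∩ (closure N')ᶜ := fun x => by
    obtain ⟨i, hi⟩ := mem_iUnion.1 (hc (fun h => x.2 (b2 h) : x.1 ∈ Fᶜ))
    exact ⟨i, hi, fun h => x.2 (c3 h)⟩
  choose i hi using hl
  choose ρ W C d1 d2 d3 d4 d5 d6 d7 d8 d9 using fun x : (N1ᶜ : Set X) =>
    Trans_local _ ((hU (i x)).inter isClosed_closure.isOpen_compl) x.1 (hi x)
  obtain ⟨t, ht⟩ := b1.isClosed_compl.isCompact.elim_nhds_subcover' (fun x hx => C ⟨x, hx⟩)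
    fun x hx => d9 ⟨x, hx⟩
  let c : Fin t.card → (N1ᶜ : Set X) := fun k => (t.equivFin.symm k).1
  obtain ⟨g, e1, e2, e3, e4⟩ := Trans_core hSard (fun k => (c k).1) g₀ (fun k => ρ (c k))
    (fun k => W (c k)) (fun k => C (c k)) g₀.contMDiff (fun k => d1 _) (fun k => d2 _)
    (fun k => d4 _) (fun k => d5 _) (fun k => d6 _) (fun k => d7 _) (fun k => d8 _)
  have hts : ∀ k, tsupport (g k) ⊆ U (i (c k)) ∩ (closure N')ᶜ := fun k =>
    (closure_mono (t := Function.support (ρ (c k))) (s := Function.support (g k))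
      fun x hx h => hx (e2 k x h)).trans (d3 (c k))
  have hN1 : N1 ⊆ N := fun x hx => by
    by_contra h
    exact zero_ne_one ((a0.self_of_nhdsSet x h).symm.trans (b3 hx))
  refine ⟨t.card, fun k => i (c k), g₀, g, N', g₀.contMDiff.continuous, e1, fun x hx => ?_,
    fun k x hx => (hts k hx).1, c1, c2, fun x hx => hN1 (c3 (subset_closure hx)),
    fun x hx => b3 (c3 (subset_closure hx)), fun k x hx => ?_, fun ε₀ ε f1 f2 x hz => ?_⟩
  · by_contra h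
    exact notMem_tsupport_iff_eventuallyEq.2 (a0.filter_mono (nhds_le_nhdsSet h)) hx
  · by_contra h
    exact (hts k (subset_closure h)).2 (subset_closure hx)
  by_cases hx : x ∈ N1
  · exfalso
    have h1 : g₀ x = 1 := b3 hx
    have h2 : |∑ k, ε k * g k x| ≤ ∑ k, |g k x| :=
      (Finset.abs_sum_le_sum_abs _ _).trans (Finset.sum_le_sum fun k _ => by
        rw [abs_mul, f2, one_mul])
    rw [h1, mul_one, add_eq_zero_iff_neg_eq] at hz
    rw [← hz, abs_neg, f1] at h2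
    exact absurd (e3 x) (not_lt.2 h2)
  · obtain ⟨y, hy, hxy⟩ := mem_iUnion₂.1 (ht hx)
    refine e4 ε₀ ε f1 f2 (t.equivFin ⟨y, hy⟩) x ?_ hz
    simp only [c, Equiv.symm_apply_apply]
    exact hxy

end Pool.Agent.MP_bc14e1_gt

end

section

open Set Metric
open scoped Classical

namespace Pool.Agent.MP_bc14e1_gt

theorem Fn_chi {A : Type} [AddCommGroup A] (B' B : AddSubgroup A) (hle : B' ≤ B)
    (h2 : B'.relIndex B = 2) : ∃ χ : A → ℝ, (∀ a, |χ a| = 1) ∧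
      (∀ b ∈ B', ∀ a, χ (b + a) = χ a) ∧ ∀ b ∈ B, b ∉ B' → ∀ a, χ (b + a) = -χ a := by
  let r : A → A := fun a => Quotient.out (QuotientAddGroup.mk a : A ⧸ B)
  have hr : ∀ a, a - r a ∈ B := by
    intro a
    have h : (QuotientAddGroup.mk (r a) : A ⧸ B) = QuotientAddGroup.mk a := Quotient.out_eq _
    have h' := QuotientAddGroup.eq.1 h
    rwa [neg_add_eq_sub] at h'
  have hrb : ∀ b ∈ B, ∀ a, r (b + a) = r a := by
    intro b hb a
    have h : (QuotientAddGroup.mk (b + a) : A ⧸ B) = QuotientAddGroup.mk a := by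
      rw [QuotientAddGroup.eq]
      have : -(b + a) + a = -b := by abel
      rw [this]
      exact B.neg_mem hb
    simp only [r, h]
  refine ⟨fun a => if a - r a ∈ B' then 1 else -1, fun a => ?_, fun b hb a => ?_,
    fun b hb hb' a => ?_⟩
  · dsimp only
    split_ifs <;> simp
  · dsimp only
    rw [hrb b (hle hb), add_sub_assoc]
    simp only [B'.add_mem_cancel_left hb]
  · dsimp only
    rw [hrb b hb, add_sub_assoc]
    have h := AddSubgroup.add_mem_iff_of_index_two (H := B'.addSubgroupOf B) h2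
      (a := ⟨b, hb⟩) (b := ⟨a - r a, hr a⟩)
    simp only [AddSubgroup.mem_addSubgroupOf, AddSubgroup.coe_add] at h
    by_cases hx : a - r a ∈ B'
    · rw [if_pos hx, if_neg]
      intro h'
      exact hb' ((h.1 h').2 hx)
    · rw [if_neg hx, if_pos, neg_neg]
      exact h.2 ⟨fun h' => absurd h' hb', fun h' => absurd h' hx⟩

theorem Fn_loc {X Y G : Type} [TopologicalSpace X] [TopologicalSpace Y] [Group G] [MulAction G Y]
    [ContinuousConstSMul G Y] {Z : Set X} {p : Y → X} (hc : GCov G Z p) (x : X) (hx : x ∈ Z) :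
    ∃ U, IsOpen U ∧ x ∈ U ∧ ∃ γ : Y → G, ∀ y, p y ∈ U →
      (∀ᶠ y' in nhds y, γ y' = γ y) ∧ ∀ h, γ (h • y) = h * γ y := by
  obtain ⟨U, hU, hxU, -, σ, -, hσ, hop⟩ := hc.sec x hx
  have hex : ∀ y, ∃ g : G, p y ∈ U → y = g • σ (p y) := by
    intro y
    by_cases hy : p y ∈ U
    · obtain ⟨g, hg⟩ := hc.trans (σ (p y)) y (hσ _ hy)
      exact ⟨g, fun _ => hg⟩
    · exact ⟨1, fun h => absurd h hy⟩
  choose γ hγ using hex
  have huniq : ∀ y g, p y ∈ U → y = g • σ (p y) → γ y = g := by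
    intro y g hy hg
    have h1 : (g⁻¹ * γ y) • σ (p y) = σ (p y) := by
      rw [mul_smul, ← hγ y hy, inv_smul_eq_iff, ← hg]
    have := hc.free _ _ h1
    exact (inv_mul_eq_one.1 this).symm
  refine ⟨U, hU, hxU, γ, fun y hy => ⟨?_, fun h => ?_⟩⟩
  · have ho : IsOpen ((fun z => (γ y)⁻¹ • z) ⁻¹' (σ '' U)) :=
      hop.preimage (continuous_const_smul _)
    have hm : y ∈ (fun z => (γ y)⁻¹ • z) ⁻¹' (σ '' U) :=
      ⟨p y, hy, by rw [eq_inv_smul_iff, ← hγ y hy]⟩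
    filter_upwards [ho.mem_nhds hm] with y' hy'
    obtain ⟨x', hx', he⟩ := hy'
    have he' : y' = γ y • σ x' := by rw [he, smul_inv_smul]
    have hp : p y' = x' := by rw [he', hc.inv, hσ _ hx']
    exact huniq y' _ (hp ▸ hx') (by rw [hp]; exact he')
  · refine huniq _ _ (by rw [hc.inv]; exact hy) ?_
    rw [hc.inv, mul_smul, ← hγ y hy]

theorem Fn_mono {X Y : Type} [TopologicalSpace X] [TopologicalSpace Y] {p : Y → X}
    (hp : IsLocalHomeomorph p) {f : Y → ℝ} {g : X → ℝ} {y : Y} (hg : Mono g (p y))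
    (he : ∀ᶠ y' in nhds y, f y' = g (p y')) : Mono f y := by
  obtain ⟨e₀, hy, hpe⟩ := hp y
  obtain ⟨e, v, c, r, hx, hc, hr, -, hmono⟩ := hg
  have hs : y ∈ (e₀.trans e).source := ⟨hy, by rw [hpe] at hx; exact hx⟩
  have hey : (e₀.trans e) y = e (p y) := by rw [hpe]; rfl
  have h1 : ∀ᶠ z in nhds ((e₀.trans e) y),
      f ((e₀.trans e).symm z) = g (p ((e₀.trans e).symm z)) :=
    ((e₀.trans e).tendsto_symm hs).eventually he
  have h2 : ∀ᶠ z in nhds ((e₀.trans e) y), z ∈ (e₀.trans e).target :=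
    (e₀.trans e).open_target.mem_nhds ((e₀.trans e).map_source hs)
  obtain ⟨r', hr', hb⟩ := Metric.eventually_nhds_iff_ball.1 (h1.and h2)
  have h3 : ∀ z ∈ ball ((e₀.trans e) y) (min r r'), f ((e₀.trans e).symm z) = g (e.symm z) := by
    intro z hz
    have hz' := hb z (ball_subset_ball (min_le_right _ _) hz)
    rw [hz'.1, hpe]
    congr 1
    exact e₀.right_inv hz'.2.2
  have h4 : ∀ z ∈ ball ((e₀.trans e) y) (min r r'), z ∈ ball (e (p y)) r := by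
    intro z hz
    rw [← hey]
    exact ball_subset_ball (min_le_left _ _) hz
  refine ⟨e₀.trans e, v, c, min r r', hs, hc, lt_min hr hr', fun z hz =>
    (hb z (ball_subset_ball (min_le_right _ _) hz)).2, fun z hz θ hθ hz' => ?_⟩
  rw [h3 _ hz, h3 _ hz']
  exact hmono z (h4 _ hz) θ hθ (h4 _ hz')

theorem Fn_ev {X Y : Type} [TopologicalSpace X] [TopologicalSpace Y] {p : Y → X}
    (hp : Continuous p) {V : Set X} {g : X → ℝ} (hg : tsupport g ⊆ V) {ε : Y → ℝ}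
    (hε : ∀ y, p y ∈ V → ∀ᶠ y' in nhds y, ε y' = ε y) (y : Y) :
    ∀ᶠ y' in nhds y, ε y' * g (p y') = ε y * g (p y') := by
  by_cases hy : p y ∈ V
  · filter_upwards [hε y hy] with y' h
    rw [h]
  · have h0 : g =ᶠ[nhds (p y)] 0 := notMem_tsupport_iff_eventuallyEq.1 fun h => hy (hg h)
    filter_upwards [hp.continuousAt.tendsto.eventually h0] with y' h
    rw [h, Pi.zero_apply, mul_zero, mul_zero]

theorem Fn_eq {X Y : Type} [TopologicalSpace X] {p : Y → X} {V : Set X} {g : X → ℝ}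
    (hg : tsupport g ⊆ V) {ε : Y → ℝ} {y y' : Y} (c : ℝ) (hp : p y' = p y)
    (hε : p y ∈ V → ε y' = c * ε y) : ε y' * g (p y') = c * (ε y * g (p y)) := by
  rw [hp]
  by_cases hy : p y ∈ V
  · rw [hε hy, mul_assoc]
  · rw [image_eq_zero_of_notMem_tsupport fun h => hy (hg h), mul_zero, mul_zero, mul_zero]

theorem fn_stmt (B : Bas2) (hLocCtr : LocCtrStmt) (hKap : KapStmt) (hTrans : TransStmt) : FnStmt := by
  intro X G Y A G' Y' _ _ _ _ _ _ _ _ _ _ _ _ _ _ _ F φ p t l τ m α q j t' l' P1 P2 hτ B' B₀ hle h2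
  rcases isEmpty_or_nonempty Y' with hE | ⟨⟨y₀⟩⟩
  · exact ⟨fun _ => 0, continuous_const, fun y => isEmptyElim y, fun _ _ y => isEmptyElim y,
      fun _ _ _ y => isEmptyElim y, ⟨univ, isOpen_univ, subset_univ _, fun y => isEmptyElim y⟩,
      fun y => isEmptyElim y⟩
  have hcov := P2.tc.cov
  have hlh := (B.cov G' X Y' Fᶜ (p ∘ q) hcov).2.1
  -- the coordinate in A of an element of the group
  have hqz : ∀ (n : ℤ) (y : Y'), q (t' ^ n • y) = t ^ n • q y := by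
    have hinv : ∀ y, q (t'⁻¹ • y) = t⁻¹ • q y := by
      intro y
      rw [eq_inv_smul_iff, ← P2.qt, smul_inv_smul]
    intro n
    induction n using Int.induction_on with
    | zero => simp
    | succ n ih =>
      intro y
      rw [zpow_add_one, zpow_add_one, mul_smul, mul_smul, ih, P2.qt]
    | pred n ih =>
      intro y
      rw [zpow_sub_one, zpow_sub_one, mul_smul, mul_smul, ih, hinv]
  have hqj : ∀ a y, q (j a • y) = q y := fun a y => P2.cov.inv ⟨j a, a, rfl⟩ y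
  have huq : ∀ (a a' : A) (n n' : ℤ), j (Multiplicative.ofAdd a) * t' ^ n =
      j (Multiplicative.ofAdd a') * t' ^ n' → a = a' := by
    intro a a' n n' h
    have h1 : t ^ n • q y₀ = t ^ n' • q y₀ := by
      rw [← hqz, ← hqz, ← hqj (Multiplicative.ofAdd a),
        ← hqj (Multiplicative.ofAdd a') (t' ^ n' • y₀), ← mul_smul, ← mul_smul, h]
    have h2 : t ^ (-n' + n) = 1 := by
      refine P1.tc.cov.free _ (q y₀) ?_
      rw [zpow_add, mul_smul, h1, ← mul_smul, ← zpow_add, neg_add_cancel, zpow_zero, one_smul]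
    have h3 : n = n' := by
      have := P1.tc.inf _ h2
      omega
    rw [h3] at h
    exact Multiplicative.ofAdd.injective (P2.jinj (mul_right_cancel h))
  choose K L hKL using P2.gen
  have hKj : ∀ a g, K (j (Multiplicative.ofAdd a) * g) = a + K g := by
    intro a g
    refine huq _ _ (L (j (Multiplicative.ofAdd a) * g)) (L g) ?_
    rw [← hKL, ofAdd_add, map_mul, mul_assoc, ← hKL]
  have hKs : ∀ g, K (t' ^ m * g) = K g := by
    intro g
    refine huq _ _ (L (t' ^ m * g)) (L g + m) ?_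
    rw [← hKL, zpow_add, ← mul_assoc, ← hKL, zpow_natCast, P2.tc.cen]
  obtain ⟨N, hN, hFN, k, hk⟩ := hKap X G Y A G' Y' F φ p t l τ m α q j t' l'
    P1.tc.flat.cl.isCompact P1 P2 hτ
  choose U hU hxU γ hγ using fun x : ↥Fᶜ => Fn_loc hcov x.1 x.2
  obtain ⟨n, i, g₀, g, N', hg₀, hg, hs₀, hs, hN', hFN', -, h1, h0, hmono⟩ :=
    hTrans X ↥Fᶜ F N U P1.tc.flat.cl hN hFN hU fun x hx => mem_iUnion.2 ⟨⟨x, hx⟩, hxU _⟩
  obtain ⟨χ, hχ1, hχ2, hχ3⟩ := Fn_chi B' B₀ hle h2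
  let f : Y' → ℝ := fun y => χ (k y) * g₀ (p (q y)) + ∑ c, χ (K (γ (i c) y)) * g c (p (q y))
  have hev : ∀ y, ∀ᶠ y' in nhds y, f y' =
      χ (k y) * g₀ (p (q y')) + ∑ c, χ (K (γ (i c) y)) * g c (p (q y')) := by
    intro y
    have e0 := Fn_ev hcov.cont hs₀ (ε := fun y => χ (k y))
      (fun y hy => (hk y hy).1.mono fun y' h => by rw [h]) y
    have e1 := Filter.eventually_all.2 fun c => Fn_ev hcov.cont (hs c)
      (ε := fun y => χ (K (γ (i c) y)))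
      (fun y hy => (hγ (i c) y hy).1.mono fun y' h => by rw [h]) y
    filter_upwards [e0, e1] with y' a0 a1
    exact congrArg₂ (· + ·) a0 (Finset.sum_congr rfl fun c _ => a1 c)
  have heq : ∀ (h : G') (c : ℝ) (y : Y'), (p (q y) ∈ N → χ (k (h • y)) = c * χ (k y)) →
      (∀ g, χ (K (h * g)) = c * χ (K g)) → f (h • y) = c * f y := by
    intro h c y a0 a1
    have e0 := Fn_eq (p := p ∘ q) hs₀ (ε := fun y => χ (k y)) c (hcov.inv h y) a0
    have e1 := fun b => Fn_eq (p := p ∘ q) (hs b) (ε := fun y => χ (K (γ (i b) y))) c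
      (hcov.inv h y) fun hy => by rw [(hγ (i b) y hy).2, a1]
    simp only [f, mul_add, Finset.mul_sum]
    exact congrArg₂ (· + ·) e0 (Finset.sum_congr rfl fun b _ => e1 b)
  refine ⟨f, continuous_iff_continuousAt.2 fun y => ?_, fun y => ?_, fun a ha y => ?_,
    fun a ha ha' y => ?_, ⟨N', hN', hFN', fun y hy => ?_⟩, fun y hy => ?_⟩
  · refine ContinuousAt.congr (Continuous.continuousAt ?_) (Filter.EventuallyEq.symm (hev y))
    exact (continuous_const.mul (hg₀.comp hcov.cont)).add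
      (continuous_finsetSum _ fun c _ => continuous_const.mul ((hg c).comp hcov.cont))
  · rw [heq _ 1 y (fun hy => by rw [(hk y hy).2.2, one_mul]) (fun g => by rw [hKs, one_mul]),
      one_mul]
  · rw [heq _ 1 y (fun hy => by rw [(hk y hy).2.1, hχ2 a ha, one_mul])
      (fun g => by rw [hKj, hχ2 a ha, one_mul]), one_mul]
  · rw [heq _ (-1) y (fun hy => by rw [(hk y hy).2.1, hχ3 a ha ha', neg_one_mul])
      (fun g => by rw [hKj, hχ3 a ha ha', neg_one_mul]), neg_one_mul]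
  · simp only [f, h1 _ hy, h0 _ _ hy, mul_one, mul_zero, Finset.sum_const_zero, add_zero, hχ1]
  · exact Fn_mono hlh (hmono (χ (k y)) (fun c => χ (K (γ (i c) y))) (hχ1 _) (fun _ => hχ1 _)
      (p (q y)) hy) (hev y)

end Pool.Agent.MP_bc14e1_gt

end

section

open Set Metric
open scoped Classical

namespace Pool.Agent.MP_bc14e1_gt

section
variable {G Y : Type} [Group G] [TopologicalSpace Y] [MulAction G Y] [ContinuousConstSMul G Y]

/-- Equivariant extension of a local homotopy. -/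
theorem Push1_ext (s : G) {U L : Set Y} (hU : IsOpen U) (hL : L ⊆ U) (hc : IsClosed (sat s L))
    (hw : ∀ z ∈ U, ∀ n : ℤ, s ^ n • z ∈ U → n = 0) (h : ℝ × Y → Y)
    (h1 : ContinuousOn h (univ ×ˢ U)) (h2 : ∀ θ, ∀ z ∈ U, z ∉ L → h (θ, z) = z) :
    ∃ H : ℝ × Y → Y, Continuous H ∧ (∀ θ z, H (θ, s • z) = s • H (θ, z)) ∧
      (∀ θ z (n : ℤ), s ^ n • z ∈ U → H (θ, z) = s ^ (-n) • h (θ, s ^ n • z)) ∧
      ∀ θ z, (∀ n : ℤ, s ^ n • z ∉ U) → H (θ, z) = z := by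
  let H : ℝ × Y → Y := fun a =>
    if e : ∃ n : ℤ, s ^ n • a.2 ∈ U then s ^ (-e.choose) • h (a.1, s ^ e.choose • a.2) else a.2
  have k1 : ∀ θ z (n : ℤ), s ^ n • z ∈ U → H (θ, z) = s ^ (-n) • h (θ, s ^ n • z) := by
    intro θ z n hn
    have e : ∃ n : ℤ, s ^ n • z ∈ U := ⟨n, hn⟩
    have e1 : e.choose - n = 0 := hw _ hn _ (by
      rw [smul_smul, ← zpow_add, sub_add_cancel]
      exact e.choose_spec)
    have e2 : e.choose = n := by omega
    simp only [H, dif_pos e, e2]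
  have k2 : ∀ θ z, (∀ n : ℤ, s ^ n • z ∉ U) → H (θ, z) = z := fun θ z hz =>
    dif_neg fun ⟨n, hn⟩ => hz n hn
  have k3 : ∀ θ z, z ∉ sat s L → H (θ, z) = z := by
    intro θ z hz
    by_cases e : ∃ n : ℤ, s ^ n • z ∈ U
    · obtain ⟨n, hn⟩ := e
      have e1 : s ^ (-n) • s ^ n • z = z := by rw [smul_smul, ← zpow_add, neg_add_cancel, zpow_zero,
        one_smul]
      rw [k1 θ z n hn, h2 θ _ hn fun h' => hz (mem_iUnion.2 ⟨-n, _, h', e1⟩), e1]
    · exact k2 θ z fun n hn => e ⟨n, hn⟩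
  refine ⟨H, continuous_iff_continuousAt.2 fun a => ?_, fun θ z => ?_, k1, k2⟩
  · by_cases ha : a.2 ∈ sat s L
    · obtain ⟨n, z, hz, e⟩ := mem_iUnion.1 ha
      have hn : s ^ (-n) • a.2 ∈ U := by
        rw [← e, smul_smul, ← zpow_add, neg_add_cancel, zpow_zero, one_smul]
        exact hL hz
      have c1 : Continuous fun b : ℝ × Y => (b.1, s ^ (-n) • b.2) :=
        continuous_fst.prodMk (continuous_snd.const_smul _)
      have c2 : ContinuousAt (fun b : ℝ × Y => s ^ (- -n) • h (b.1, s ^ (-n) • b.2)) a :=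
        (ContinuousAt.comp (f := fun b : ℝ × Y => (b.1, s ^ (-n) • b.2))
          (h1.continuousAt ((isOpen_univ.prod hU).mem_nhds ⟨trivial, hn⟩))
          c1.continuousAt).const_smul _
      refine c2.congr ?_
      filter_upwards [(hU.preimage (continuous_snd.const_smul (s ^ (-n)))).mem_nhds hn] with b hb
      exact (k1 b.1 b.2 (-n) hb).symm
    · refine continuousAt_snd.congr ?_
      filter_upwards [(hc.isOpen_compl.preimage continuous_snd).mem_nhds ha] with b hb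
      exact (k3 b.1 b.2 hb).symm
  · have e0 : ∀ n : ℤ, s ^ n • s • z = s ^ (n + 1) • z := fun n => by
      rw [smul_smul, zpow_add_one]
    by_cases e : ∃ n : ℤ, s ^ n • s • z ∈ U
    · obtain ⟨n, hn⟩ := e
      rw [k1 θ _ n hn, k1 θ z (n + 1) (e0 n ▸ hn), e0, smul_smul s, ← zpow_one_add]
      congr 2
      ring
    · rw [k2 θ _ fun n hn => e ⟨n, hn⟩, k2 θ z fun n hn => e ⟨n - 1, by
        rwa [e0, sub_add_cancel]⟩]

/-- A wandering neighbourhood. -/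
theorem Push1_wand {X : Type} [TopologicalSpace X] {F : Set X} {p : Y → X} {s : G} (T : TC F p s)
    (y : Y) : ∃ N, IsOpen N ∧ y ∈ N ∧ ∀ z ∈ N, ∀ n : ℤ, s ^ n • z ∈ N → n = 0 := by
  obtain ⟨U, -, hy, -, σ, -, h1, h2⟩ := T.cov.sec (p y) (T.cov.mem y)
  obtain ⟨g, hg⟩ := T.cov.trans y (σ (p y)) (h1 _ hy).symm
  refine ⟨(fun z => g • z) ⁻¹' (σ '' U), h2.preimage (continuous_const_smul g),
    ⟨_, hy, hg⟩, ?_⟩
  rintro z ⟨x, hx, e⟩ n ⟨x', hx', e'⟩
  have e1 : x = x' := by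
    rw [← h1 x hx, ← h1 x' hx', e, e', T.cov.inv, T.cov.inv, T.cov.inv]
  rw [← e1, e] at e'
  exact T.inf n (T.cov.free _ z (MulAction.injective g e').symm)

end

theorem push1_stmt (B : Bas1) (hFam : FamStmt) : Push1Stmt := by
  intro X G Y _ _ _ _ _ _ _ _ F p s f T hf y ⟨e, v, c, r0, hy, hc, hr0, hb, hm⟩
  obtain ⟨N, hN, hyN, hw⟩ := Push1_wand T y
  obtain ⟨r1, hr1, h1⟩ := Metric.mem_nhds_iff.1 ((e.continuousAt_symm (e.map_source hy)).preimage_mem_nhds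
    (hN.mem_nhds (by rwa [e.left_inv hy])))
  obtain ⟨r, hr, hrr, hrN⟩ : ∃ r, 0 < r ∧ ball (e y) r ⊆ ball (e y) r0 ∧
      ball (e y) r ⊆ e.symm ⁻¹' N :=
    ⟨min r0 r1, lt_min hr0 hr1, ball_subset_ball (min_le_left _ _),
      (ball_subset_ball (min_le_right _ _)).trans h1⟩
  have hfn : ∀ (n : ℤ) z, f (s ^ n • z) = f z := by
    intro n
    induction n using Int.induction_on with
    | zero => intro z; rw [zpow_zero, one_smul]
    | succ n ih => intro z; rw [zpow_add_one, mul_smul, ih, hf]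
    | pred n ih => intro z; rw [zpow_sub_one, mul_smul, ih, ← hf, smul_inv_smul]
  have hv : 0 < ‖v‖ + 1 := by positivity
  obtain ⟨δ, hδ, hδ1, hδ2⟩ : ∃ δ : ℝ, 0 < δ ∧ δ ≤ r / 4 ∧ δ * ‖v‖ ≤ r / 4 := by
    refine ⟨r / 4 / (‖v‖ + 1), by positivity, div_le_self (by positivity) (by simp), ?_⟩
    rw [div_mul_eq_mul_div, div_le_iff₀ hv]
    nlinarith
  let a : ℝ × E 4 → ℝ := fun b => max 0 (min b.1 1) * max 0 (min δ (r / 2 - dist b.2 (e y)))
  have ac : Continuous a := by fun_prop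
  have a0 : ∀ b, 0 ≤ a b := fun b => mul_nonneg (le_max_left _ _) (le_max_left _ _)
  have a1 : ∀ b, a b ≤ δ := fun b => (mul_le_mul (max_le zero_le_one (min_le_right _ _))
    (max_le hδ.le (min_le_left _ _)) (le_max_left _ _) zero_le_one).trans (one_mul δ).le
  have a2 : ∀ b : ℝ × E 4, r / 2 ≤ dist b.2 (e y) → a b = 0 := fun b h => by
    simp only [a]
    rw [max_eq_left (b := min δ _) (min_le_of_right_le (by linarith)), mul_zero]
  have a3 : ∀ θ, ∀ w ∈ ball (e y) r, w + a (θ, w) • v ∈ ball (e y) r := by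
    intro θ w hw
    by_cases h : r / 2 ≤ dist w (e y)
    · rwa [a2 (θ, w) h, zero_smul, add_zero]
    · have e1 : dist (w + a (θ, w) • v) w ≤ r / 4 := by
        rw [dist_self_add_left, norm_smul, Real.norm_of_nonneg (a0 _)]
        exact (mul_le_mul_of_nonneg_right (a1 _) (norm_nonneg v)).trans hδ2
      have := dist_triangle (w + a (θ, w) • v) w (e y)
      rw [mem_ball]
      linarith
  have hcl : ∀ t, t < r → closedBall (e y) t ⊆ e.target := fun t ht =>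
    (closedBall_subset_ball ht).trans (hrr.trans hb)
  have hop : ∀ t, IsOpen (e.source ∩ e ⁻¹' ball (e y) t) := fun t =>
    e.isOpen_inter_preimage isOpen_ball
  have hcp : ∀ t, t < r → IsCompact (e.symm '' closedBall (e y) t) := fun t ht =>
    (isCompact_closedBall _ _).image_of_continuousOn (e.continuousOn_symm.mono (hcl t ht))
  have hsub : ∀ t t', t < t' → t < r →
      e.symm '' closedBall (e y) t ⊆ e.source ∩ e ⁻¹' ball (e y) t' := by
    rintro t t' h h' _ ⟨w, hw, rfl⟩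
    refine ⟨e.map_target (hcl t h' hw), ?_⟩
    rw [mem_preimage, e.right_inv (hcl t h' hw)]
    exact closedBall_subset_ball h hw
  obtain ⟨H, H1, H2, H3, H4⟩ := Push1_ext s (hop r) (hsub (r / 2) r (by linarith) (by linarith))
    ((hFam X G Y F p s T).1 _ (hcp (r / 2) (by linarith))).1
    (fun z hz n hn => hw z (by rw [← e.left_inv hz.1]; exact hrN hz.2) n
      (by rw [← e.left_inv hn.1]; exact hrN hn.2))
    (fun b => e.symm (e b.2 + a (b.1, e b.2) • v))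
    (by
      have c1 : ContinuousOn (fun b : ℝ × Y => e b.2) (univ ×ˢ (e.source ∩ e ⁻¹' ball (e y) r)) :=
        e.continuousOn.comp continuousOn_snd fun b hb => hb.2.1
      exact e.continuousOn_symm.comp (c1.add ((ac.comp_continuousOn
        (continuousOn_fst.prodMk c1)).smul continuousOn_const)) fun b h => hb (hrr (a3 _ _ h.2.2)))
    (fun θ z hz h => by
      have : r / 2 ≤ dist (e z) (e y) := by
        by_contra h'
        exact h ⟨e z, (not_le.1 h').le, e.left_inv hz.1⟩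
      simp only [a2 (θ, e z) this, zero_smul, add_zero, e.left_inv hz.1])
  have key : ∀ θ z (n : ℤ), s ^ n • z ∈ e.source ∩ e ⁻¹' ball (e y) r →
      f (H (θ, z)) ≤ f z - c * a (θ, e (s ^ n • z)) := by
    intro θ z n hn
    have := hm _ (hrr hn.2) _ (a0 _) (hrr (a3 θ _ hn.2))
    rw [e.left_inv hn.1, hfn] at this
    rwa [H3 θ z n hn, hfn]
  refine ⟨e.source ∩ e ⁻¹' ball (e y) (r / 4), e.symm '' closedBall (e y) (r / 8), c * δ, H, hop _,
    hcp _ (by linarith), ?_, hsub _ _ (by linarith) (by linarith), mul_pos hc hδ, H1, fun z => ?_,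
    H2, fun θ _ z => ?_, fun θ hθ z hz => ?_⟩
  · refine mem_interior.2 ⟨_, ?_, hop (r / 8), hy, mem_ball_self (by linarith)⟩
    exact fun z hz => ⟨e z, ball_subset_closedBall hz.2, e.left_inv hz.1⟩
  · by_cases h : ∃ n : ℤ, s ^ n • z ∈ e.source ∩ e ⁻¹' ball (e y) r
    · obtain ⟨n, hn⟩ := h
      have : a (0, e (s ^ n • z)) = 0 := by simp [a]
      rw [H3 0 z n hn]
      simp only [this, zero_smul, add_zero, e.left_inv hn.1]
      rw [smul_smul, ← zpow_add, neg_add_cancel, zpow_zero, one_smul]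
    · exact H4 0 z fun n hn => h ⟨n, hn⟩
  · by_cases h : ∃ n : ℤ, s ^ n • z ∈ e.source ∩ e ⁻¹' ball (e y) r
    · obtain ⟨n, hn⟩ := h
      exact (key θ z n hn).trans (sub_le_self _ (mul_nonneg hc.le (a0 _)))
    · rw [H4 θ z fun n hn => h ⟨n, hn⟩]
  · have h := key θ z 0 (by
      rw [zpow_zero, one_smul]
      exact ⟨hz.1, ball_subset_ball (by linarith) hz.2⟩)
    have h' : dist (e z) (e y) < r / 4 := hz.2
    have : a (θ, e z) = θ * δ := by
      simp only [a]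
      rw [min_eq_left hθ.2, max_eq_right hθ.1, min_eq_left (by linarith), max_eq_right hδ.le]
    rw [zpow_zero, one_smul, this] at h
    linarith

end Pool.Agent.MP_bc14e1_gt

end

section

open Set Metric
open scoped Classical

namespace Pool.Agent.MP_bc14e1_gt

section
open Topology Filter

variable {G Y : Type} [Group G] [TopologicalSpace Y] [MulAction G Y]

/-- An equivariant deformation that does not increase `f` and decreases it near `C`. -/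
def Push_P (s : G) (f : Y → ℝ) (C : Set Y) : Prop :=
  ∃ K : ℝ × Y → Y, Continuous K ∧ (∀ z, K (0, z) = z) ∧ (∀ θ z, K (θ, s • z) = s • K (θ, z)) ∧
    (∀ θ ∈ Icc (0 : ℝ) 1, ∀ z, f (K (θ, z)) ≤ f z) ∧
    ∀ z ∈ C, ∀ᶠ q : ℝ × Y in 𝓝 (0, z), 0 < q.1 → f (K (q.1, q.2)) < f q.2

theorem Push_lt (z : Y) : ∀ᶠ q : ℝ × Y in 𝓝 (0, z), q.1 < 1 :=
  (isOpen_lt continuous_fst continuous_const).mem_nhds (zero_lt_one (α := ℝ))

theorem Push_union {s : G} {f : Y → ℝ} {C D : Set Y} (h : Push_P s f C) (h' : Push_P s f D) :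
    Push_P s f (C ∪ D) := by
  obtain ⟨K, k1, k2, k3, k4, k5⟩ := h
  obtain ⟨J, j1, j2, j3, j4, j5⟩ := h'
  have hc : Continuous fun q : ℝ × Y => (q.1, K q) := continuous_fst.prodMk k1
  refine ⟨fun q => J (q.1, K q), j1.comp hc, fun z => by simp only [k2, j2],
    fun θ z => by simp only [k3, j3], fun θ hθ z => (j4 θ hθ _).trans (k4 θ hθ z), ?_⟩
  rintro z (hz | hz)
  · filter_upwards [k5 z hz, Push_lt z] with q h1 h2 h3
    exact (j4 _ ⟨h3.le, h2.le⟩ _).trans_lt (h1 h3)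
  · have ht : Tendsto (fun q : ℝ × Y => (q.1, K q)) (𝓝 (0, z)) (𝓝 (0, z)) :=
      hc.tendsto' _ _ (by rw [k2])
    filter_upwards [ht.eventually (j5 z hz), Push_lt z] with q h1 h2 h3
    exact (h1 h3).trans_le (k4 _ ⟨h3.le, h2.le⟩ _)

omit [TopologicalSpace Y] in
theorem Push_zpow {s : G} {k : Y → Y} (hk : ∀ z, k (s • z) = s • k z) (n : ℤ) (z : Y) :
    k (s ^ n • z) = s ^ n • k z := by
  induction n using Int.induction_on generalizing z with
  | zero => simp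
  | succ n ih => rw [zpow_add_one, mul_smul, mul_smul, ih, hk]
  | pred n ih =>
    rw [zpow_sub_one, mul_smul, mul_smul, ih, smul_left_cancel_iff, eq_inv_smul_iff, ← hk,
      smul_inv_smul]

omit [TopologicalSpace Y] in
theorem Push_inv {s : G} {f : Y → ℝ} (hf : ∀ y, f (s • y) = f y) (n : ℤ) (z : Y) :
    f (s ^ n • z) = f z :=
  (Inv.zpow (s := s) (A := {y | f y = f z}) (fun y => by simp only [mem_ofPred_eq, hf]) n z).2 rfl

/-- The global push on the level of spaces. -/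
theorem Push_top {s : G} {f : Y → ℝ} (hc : Continuous f) (hf : ∀ y, f (s • y) = f y)
    (hL : Cocpt s {y | |f y| ≤ 1 / 2}) (h1 : ∀ y, f y = 0 → ∃ W ∈ 𝓝 y, Push_P s f W) :
    ∃ ε : ℝ, 0 < ε ∧ ε < 1 / 2 ∧ ∃ K : ℝ × Y → Y, Continuous K ∧ (∀ z, K (0, z) = z) ∧
      (∀ θ z, K (θ, s • z) = s • K (θ, z)) ∧ ∀ y, f y < ε → f (K (1, y)) < 0 := by
  obtain ⟨-, -, L, hL, hs⟩ := hL
  have hC : IsCompact (L ∩ {y | f y = 0}) := hL.inter_right (isClosed_eq hc continuous_const)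
  obtain ⟨K, k1, k2, k3, k4, k5⟩ : Push_P s f (L ∩ {y | f y = 0}) := by
    refine hC.induction_on ⟨Prod.snd, continuous_snd, fun _ => rfl, fun _ _ => rfl,
      fun _ _ _ => le_rfl, fun _ h => h.elim⟩ ?_ (fun _ _ => Push_union) fun y hy => ?_
    · rintro C D h ⟨K, k1, k2, k3, k4, k5⟩
      exact ⟨K, k1, k2, k3, k4, fun z hz => k5 z (h hz)⟩
    · obtain ⟨W, w1, w2⟩ := h1 y hy.2
      exact ⟨W, mem_nhdsWithin_of_mem_nhds w1, w2⟩
  have h2 := hC.eventually_forall_of_forall_eventually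
    (P := fun θ z => 0 < θ → f (K (θ, z)) < f z) k5
  obtain ⟨t, ⟨t1, t2⟩, t3⟩ := (((h2.and (gt_mem_nhds (zero_lt_one (α := ℝ)))).filter_mono
    (nhdsWithin_le_nhds (s := Ioi (0 : ℝ)))).and self_mem_nhdsWithin).exists
  have t4 : t ∈ Icc (0 : ℝ) 1 := ⟨le_of_lt t3, le_of_lt t2⟩
  have hD : IsCompact (L ∩ {y | 0 ≤ f (K (t, y))}) :=
    hL.inter_right (isClosed_le continuous_const (by fun_prop))
  obtain ⟨ε, e1, e2⟩ := hD.exists_forall_le' (a := 0) hc.continuousOn fun y hy => by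
    refine lt_of_le_of_ne (le_trans hy.2 (k4 t t4 y)) fun e => ?_
    have := t1 y ⟨hy.1, e.symm⟩ t3
    rw [← e] at this
    exact absurd hy.2 (not_le.2 this)
  refine ⟨min ε (1 / 4), lt_min e1 (by norm_num), (min_le_right _ _).trans_lt (by norm_num),
    fun q => K (q.1 * t, q.2), by fun_prop, fun z => by simp only [zero_mul, k2],
    fun θ z => k3 _ _, fun y hy => ?_⟩
  simp only [one_mul]
  rcases lt_or_ge (f y) 0 with h | h
  · exact (k4 t t4 y).trans_lt h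
  · have h3 := lt_min_iff.1 hy
    obtain ⟨n, z, hz, rfl⟩ := mem_iUnion.1 (hs (show |f y| ≤ 1 / 2 by
      rw [abs_of_nonneg h]; linarith [h3.2]))
    simp only [Push_inv hf] at h3
    rw [Push_zpow (k := fun z => K (t, z)) (k3 t), Push_inv hf]
    by_contra h4
    exact absurd (e2 z ⟨hz, not_lt.1 h4⟩) (not_le.2 h3.1)

end

theorem push_stmt (B : Bas1) (hPush1 : Push1Stmt) : PushStmt := by
  intro X G Y _ _ _ _ _ _ _ _ F p s f tc hc hf hL hM
  obtain ⟨κ⟩ := B.kit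
  obtain ⟨ε, e1, e2, K, k1, k2, k3, k4⟩ := Push_top hc hf hL fun y hy => by
    obtain ⟨W, W', c, H, w1, -, w2, w3, c0, h1, h2, h3, h4, h5⟩ :=
      hPush1 X G Y F p s f tc hf y (hM y hy)
    refine ⟨W, w1.mem_nhds (w3 (interior_subset w2)), H, h1, h2, h3, h4, fun z hz => ?_⟩
    filter_upwards [Push_lt z, (w1.preimage continuous_snd).mem_nhds (show (0, z) ∈ _ from hz)]
      with q q1 q2 q3
    have := h5 q.1 ⟨q3.le, q1.le⟩ q.2 q2
    have := mul_pos c0 q3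
    linarith
  have k5 : Continuous fun z => K (1, z) := by fun_prop
  refine ⟨ε, e1, e2, psh ℂ fun z => K (1, z), -hop κ ℂ K, fun c => ?_, fun c => ?_,
    fun k c h => psh_mem_DG _ h, fun c h => psh_mem_CH _ (fun y hy => k4 y hy) h, fun c => ?_⟩
  · rw [gs, psh_psh' _ (continuous_const_smul s), psh_psh' _ k5]
    exact psh_congr (fun z _ => k3 1 z) (mem_CH_univ c)
  · rw [LinearMap.neg_apply, LinearMap.neg_apply, map_neg, gs,
      hop_psh κ K (continuous_const_smul s).continuousOn (mem_CH_univ c),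
      psh_hop κ _ k1.continuousOn (mem_CH_univ c)]
    exact congrArg _ (hop_congr κ (fun q _ => k3 q.1 q.2) (mem_CH_univ c))
  · rw [LinearMap.neg_apply, LinearMap.neg_apply, map_neg, ← neg_add,
      dT_hop κ k1.continuousOn (mem_CH_univ c), neg_sub,
      psh_of_eqOn_id (fun z _ => k2 z) (mem_CH_univ c)]

end Pool.Agent.MP_bc14e1_gt

end

section

open Set Metric
open scoped Classical

namespace Pool.Agent.MP_bc14e1_gt

section Aux

variable {G Y : Type} [Group G] [TopologicalSpace Y] [MulAction G Y] [ContinuousConstSMul G Y]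

omit [ContinuousConstSMul G Y] in
theorem Nov_cocpt {s : G} {K K' : Set Y} (hK : Cocpt s K) (hc : IsClosed K') (hi : Inv s K')
    (hs : K' ⊆ K) : Cocpt s K' := by
  obtain ⟨-, -, L, hL, hKL⟩ := hK
  exact ⟨hc, hi, L, hL, hs.trans hKL⟩

theorem Nov_map {s : G} {g : Lam ℂ} (f : Module.End ℂ (Tot ℂ Y))
    (hf : ∀ c, f (gs ℂ Y s c) = gs ℂ Y s (f c)) {c : Tot ℂ Y} (h : c ∈ Mul0 s g) :
    f c ∈ Mul0 s g := by
  obtain ⟨y, rfl⟩ := h
  exact ⟨f y, (map_act f hf g y).symm⟩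

theorem Nov_deg {s : G} {g : Lam ℂ} {A : Set Y} {u u' w : Tot ℂ Y} (hu : u ∈ DG ℂ Y 2)
    (hu' : u' ∈ CH ℂ A) (h : u - u' - dT ℂ Y w ∈ Mul0 s g) :
    ∃ v ∈ CC ℂ A 2, ∃ w', u - v - dT ℂ Y w' ∈ Mul0 s g := by
  refine ⟨deg ℂ Y 2 u', ⟨deg_mem_CH 2 hu', deg_mem 2 u'⟩, deg ℂ Y 3 w, ?_⟩
  have := Nov_map (deg ℂ Y 2) (fun c => deg_psh _ 2 c) h
  rwa [map_sub, map_sub, deg_of_mem hu, deg_dT] at this

theorem Nov_pow (s : G) (k : ℕ) : (gs ℂ Y s - 1) ^ k =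
    act ℂ Y s ((LaurentPolynomial.T 1 - 1 : Lam ℂ) ^ k) := by
  rw [map_pow, map_sub, map_one, act_T, zpow_one]

theorem Nov_comm (s : G) (a b : Lam ℂ) (c : Tot ℂ Y) :
    act ℂ Y s a (act ℂ Y s b c) = act ℂ Y s b (act ℂ Y s a c) := by
  rw [← Module.End.mul_apply, ← map_mul, mul_comm, map_mul, Module.End.mul_apply]

/-- A chain near the surface that is a cycle modulo the prime bounds modulo the prime. -/
theorem Nov_near {s : G} {ζ : Circle} (hζ : ζ ≠ 1) {A₁ A₂ : Set Y} (h21 : A₂ ⊆ A₁)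
    (hi : Inv s A₁) {k₁ k₂ : ℕ}
    (h₁ : ∀ z ∈ CH ℂ A₁, dT ℂ Y z = 0 → ∃ b, ((gs ℂ Y s - 1) ^ k₁) z = dT ℂ Y b)
    (h₂ : ∀ z ∈ CH ℂ A₂, dT ℂ Y z = 0 → ∃ b ∈ CH ℂ A₁, ((gs ℂ Y s - 1) ^ k₂) z = dT ℂ Y b)
    {c y : Tot ℂ Y} (hc : c ∈ CH ℂ A₂) (hy : y ∈ CH ℂ A₂) (hy0 : dT ℂ Y y = 0)
    (hd : dT ℂ Y c = act ℂ Y s (piL ζ) y) : ∃ w, c - dT ℂ Y w ∈ Mul0 s (piL ζ) := by
  obtain ⟨b, hb, e⟩ := h₂ y hy hy0
  rw [Nov_pow] at e
  set D : Lam ℂ := LaurentPolynomial.T 1 - 1 with hD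
  have hz : act ℂ Y s (D ^ k₂) c - act ℂ Y s (piL ζ) b ∈ CH ℂ A₁ :=
    sub_mem (act_mem_CH hi _ (CH_mono h21 hc)) (act_mem_CH hi _ hb)
  have hz0 : dT ℂ Y (act ℂ Y s (D ^ k₂) c - act ℂ Y s (piL ζ) b) = 0 := by
    rw [map_sub, dT_act, dT_act, hd, ← e, Nov_comm, sub_self]
  obtain ⟨b', e'⟩ := h₁ _ hz hz0
  rw [Nov_pow, ← hD, map_sub, ← Module.End.mul_apply, ← map_mul, ← pow_add, Nov_comm] at e'
  have hne : ((ζ : ℂ) - 1) ^ (k₁ + k₂) ≠ 0 :=
    pow_ne_zero _ (sub_ne_zero.2 fun h => hζ (Circle.ext h))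
  obtain ⟨g, hg⟩ : piL ζ ∣ D ^ (k₁ + k₂) - LaurentPolynomial.C (((ζ : ℂ) - 1) ^ (k₁ + k₂)) := by
    have : piL ζ = D - LaurentPolynomial.C ((ζ : ℂ) - 1) := by
      rw [piL, hD, map_sub, map_one]; abel
    rw [this, map_pow]
    exact sub_dvd_pow_sub_pow _ _ _
  have e2 : act ℂ Y s (D ^ (k₁ + k₂)) c - ((ζ : ℂ) - 1) ^ (k₁ + k₂) • c =
      act ℂ Y s (piL ζ) (act ℂ Y s g c) := by
    rw [← act_C s, ← LinearMap.sub_apply, ← map_sub, hg, map_mul, Module.End.mul_apply]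
  refine ⟨(((ζ : ℂ) - 1) ^ (k₁ + k₂))⁻¹ • b', (((ζ : ℂ) - 1) ^ (k₁ + k₂))⁻¹ •
    (act ℂ Y s (D ^ k₁) b - act ℂ Y s g c), ?_⟩
  rw [map_smul, map_smul, map_sub, ← e2, ← e', ← sub_eq_zero]
  have : c = (((ζ : ℂ) - 1) ^ (k₁ + k₂))⁻¹ • (((ζ : ℂ) - 1) ^ (k₁ + k₂) • c) := by
    rw [smul_smul, inv_mul_cancel₀ hne, one_smul]
  generalize ((ζ : ℂ) - 1) ^ (k₁ + k₂) • c = c' at this ⊢
  generalize act ℂ Y s (D ^ (k₁ + k₂)) c = c''
  rw [this]
  module

end Aux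

theorem nov_stmt (B : Bas2) (hFam : FamStmt)
    (hFn : FnStmt) (hPush : PushStmt) (hInj0 : Inj0Stmt) : NovStmt := by
  intro X G Y A G' Y' _ _ _ _ _ _ _ _ _ _ _ _ _ _ _ _ o F φ p t l τ m α q j t' l' β h1 h2 hτ hβ
    B' B₀ hle hidx
  obtain ⟨f, hfc, hfs, hB', hB, ⟨N, hNo, hFN, hN⟩, hmono⟩ :=
    hFn X G Y A G' Y' F φ p t l τ m α q j t' l' h1 h2 hτ B' B₀ hle hidx
  refine ⟨f, hfs, hB', hB, fun ζ hζ u hu hdu horth => ?_⟩
  have hTC := h2.tc
  generalize t' ^ m = s at *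
  have hFc : IsCompact F := hTC.flat.cl.isCompact
  have hP : ∀ S : Set X, Inv s ((p ∘ q) ⁻¹' S) := fun S y => by
    rw [mem_preimage, mem_preimage, hTC.cov.inv]
  have hco : ∀ M : Set X, IsOpen M → F ⊆ M → Cocpt s ((p ∘ q) ⁻¹' Mᶜ) := fun M hM hFM =>
    (hFam X G' Y' F (p ∘ q) s hTC).2.2.2.2.2.1 _ hM.isClosed_compl.isCompact
      (compl_subset_compl.2 hFM)
  have hhalf : Cocpt s {y | |f y| ≤ 1 / 2} := by
    refine Nov_cocpt (hco N hNo hFN) (isClosed_le hfc.abs continuous_const)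
      (fun y => by simp only [Set.mem_ofPred_eq, hfs]) fun y hy hy' => ?_
    have := hN y hy'
    rw [Set.mem_ofPred_eq, this] at hy
    norm_num at hy
  obtain ⟨ε, hε0, hε, r, H, -, hH, -, hr, hdH⟩ :=
    hPush X G' Y' F (p ∘ q) s f hTC hfc hfs hhalf hmono
  obtain ⟨N₁, hN₁, hFN₁, -, k₁, hk₁⟩ :=
    B.pa ℂ X G' Y' F (p ∘ q) s hTC hFc univ isOpen_univ (subset_univ _)
  obtain ⟨N₂, hN₂, hFN₂, h21, k₂, hk₂⟩ :=
    B.pa ℂ X G' Y' F (p ∘ q) s hTC hFc (N₁ ∩ N) (hN₁.inter hNo) (subset_inter hFN₁ hFN)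
  have hK : Cocpt s ({y | ε ≤ f y} ∩ (p ∘ q) ⁻¹' N₂ᶜ) :=
    Nov_cocpt (hco N₂ hN₂ hFN₂)
      ((isClosed_le continuous_const hfc).inter (hco N₂ hN₂ hFN₂).1)
      (fun y => by simp only [mem_inter_iff, Set.mem_ofPred_eq, hfs, hP _ y]) inter_subset_right
  obtain ⟨w, hw⟩ := hInj0 X G' Y' o F (p ∘ q) s β hTC hβ ζ {y | 0 < f y} _
    (isOpen_lt continuous_const hfc) (fun y => by simp only [Set.mem_ofPred_eq, hfs]) hK
    (fun y hy => lt_of_lt_of_le hε0 hy.1) u hu hdu horth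
  obtain ⟨c, hc, y₀, hy₀, e⟩ := Submodule.mem_sup.1 hw
  have hdj : Disjoint ((p ∘ q) ⁻¹' N₂ ∩ {y | 1 / 2 < f y}) {y | f y < ε} :=
    Set.disjoint_left.2 fun y hy hy' => by
      have a : 1 / 2 < f y := hy.2
      have b : f y < ε := hy'
      linarith
  have hsub : ({y | ε ≤ f y} ∩ (p ∘ q) ⁻¹' N₂ᶜ)ᶜ ⊆
      ((p ∘ q) ⁻¹' N₂ ∩ {y | 1 / 2 < f y}) ∪ {y | f y < ε} := by
    intro y hy
    by_cases h : f y < ε
    · exact Or.inr h
    · have hy2 : (p ∘ q) y ∈ N₂ := by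
        by_contra h'
        exact hy ⟨not_lt.1 h, h'⟩
      refine Or.inl ⟨hy2, ?_⟩
      have a := hN y (h21 hy2).2
      rw [abs_of_pos (lt_of_lt_of_le hε0 (not_lt.1 h))] at a
      change 1 / 2 < f y
      rw [a]; norm_num
  have hc' := CH_mono hsub hc
  rw [CH_union_of_disjoint ((hN₂.preimage hTC.cov.cont).inter (isOpen_lt continuous_const hfc))
    (isOpen_lt hfc continuous_const) hdj] at hc'
  obtain ⟨cp, hcp, cm, hcm, rfl⟩ := Submodule.mem_sup.1 hc'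
  have hAp : Inv s ((p ∘ q) ⁻¹' N₂ ∩ {y | 1 / 2 < f y}) := fun y => by
    simp only [mem_inter_iff, Set.mem_ofPred_eq, hfs, hP _ y]
  have hd : dT ℂ Y' cp + dT ℂ Y' cm ∈ Mul0 s (piL ζ) := by
    have a := congrArg (dT ℂ Y') e
    rw [map_add, map_add, map_sub, dT_dT, sub_zero] at a
    rw [eq_sub_of_add_eq a]
    exact sub_mem hdu (Nov_map _ (dT_gs s) hy₀)
  obtain ⟨y₁, hy₁⟩ := id hd
  have hdp : dT ℂ Y' cp =
      act ℂ Y' s (piL ζ) (prj ℂ ((p ∘ q) ⁻¹' N₂ ∩ {y | 1 / 2 < f y}) y₁) := by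
    rw [← map_act _ (prj_gs s hAp), hy₁, map_add, prj_of_mem (dT_mem_CH hcp),
      prj_eq_zero hdj (dT_mem_CH hcm), add_zero]
  have hdm : dT ℂ Y' cm ∈ Mul0 s (piL ζ) := by
    have := sub_mem hd (show dT ℂ Y' cp ∈ Mul0 s (piL ζ) from ⟨_, hdp.symm⟩)
    rwa [add_sub_cancel_left] at this
  have hy0 : dT ℂ Y' (prj ℂ ((p ∘ q) ⁻¹' N₂ ∩ {y | 1 / 2 < f y}) y₁) = 0 := by
    refine (B.tf ℂ G' Y' s (fun n y h => hTC.inf n (hTC.cov.free _ y h)) (piL ζ)
      (B.laur.2.2.2.2.2.2.2.2.2.1 ζ).ne_zero _).1 ?_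
    rw [← dT_act, ← hdp, dT_dT]
  obtain ⟨w', hw'⟩ := Nov_near hζ (A₁ := (p ∘ q) ⁻¹' N₁) (A₂ := (p ∘ q) ⁻¹' N₂)
    (preimage_mono (h21.trans inter_subset_left)) (hP _)
    (fun z hz hz0 => (hk₁ z hz hz0).imp fun _ h => h.2)
    (fun z hz hz0 => (hk₂ z hz hz0).imp fun _ h =>
      ⟨CH_mono (preimage_mono inter_subset_left) h.1, h.2⟩)
    (CH_mono inter_subset_left hcp) (CH_mono inter_subset_left (prj_mem _ y₁)) hy0 hdp
  refine Nov_deg (w := w + w' + H cm) hu (hr cm hcm) ?_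
  have a : u - r cm - dT ℂ Y' (w + w' + H cm) =
      (cp - dT ℂ Y' w') + H (dT ℂ Y' cm) + y₀ := by
    have a1 : u = cp + cm + y₀ + dT ℂ Y' w := by rw [e, sub_add_cancel]
    have a2 : r cm = cm - (dT ℂ Y' (H cm) + H (dT ℂ Y' cm)) := by rw [hdH, sub_sub_cancel]
    rw [map_add, map_add, a2]
    conv_lhs => rw [a1]
    abel
  rw [a]
  exact add_mem (add_mem hw' (Nov_map H hH hdm)) hy₀

end Pool.Agent.MP_bc14e1_gt

end

section

open Set Metric
open scoped Classical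

namespace Pool.Agent.MP_bc14e1_gt

section Aux

variable {G Y : Type} [Group G] [TopologicalSpace Y] [MulAction G Y] [ContinuousConstSMul G Y]

theorem Psd2_cj (a : Lam ℂ) (n : ℤ) : (cj a).coeff n = starRingEnd ℂ (a.coeff (-n)) := by
  simp [cj]

theorem Psd2_inv {s : G} {b : Form Y} (h : LK s b) (n : ℤ) (u v : Tot ℂ Y) :
    b (gs ℂ Y (s ^ n) u) (gs ℂ Y (s ^ n) v) = b u v := by
  induction n using Int.induction_on generalizing u v with
  | zero => rw [zpow_zero, gs_one, gs_one]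
  | succ n ih => rw [zpow_add_one, gs_mul, gs_mul, ih, h.inv]
  | pred n ih =>
    rw [zpow_sub_one, gs_mul, gs_mul, ih, ← h.inv, ← gs_mul, ← gs_mul, mul_inv_cancel, gs_one,
      gs_one]

theorem Psd2_smul_left {s : G} {l : Tot ℂ Y → Tot ℂ Y → Lam ℂ} (hS : Sesq (C := Tw ℂ Y s) l)
    (a : Lam ℂ) (u v : Tot ℂ Y) : l (act ℂ Y s a u) v = a * l u v :=
  hS.smul_left a u v

theorem Psd2_smul_right {s : G} {l : Tot ℂ Y → Tot ℂ Y → Lam ℂ} (hS : Sesq (C := Tw ℂ Y s) l)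
    (a : Lam ℂ) (u v : Tot ℂ Y) : l u (act ℂ Y s a v) = cj a * l u v :=
  hS.smul_right a u v

theorem Psd2_add_left {s : G} {l : Tot ℂ Y → Tot ℂ Y → Lam ℂ} (hS : Sesq (C := Tw ℂ Y s) l)
    (u u' v : Tot ℂ Y) : l (u + u') v = l u v + l u' v :=
  hS.add_left u u' v

theorem Psd2_add_right {s : G} {l : Tot ℂ Y → Tot ℂ Y → Lam ℂ} (hS : Sesq (C := Tw ℂ Y s) l)
    (u v v' : Tot ℂ Y) : l u (v + v') = l u v + l u v' :=
  hS.add_right u v v'

/-- The value of a sesquilinear form over the Laurent polynomials at a point of the circle. -/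
noncomputable def Psd2_form (hL : LaurStmt) {s : G} {l : Tot ℂ Y → Tot ℂ Y → Lam ℂ}
    (hS : Sesq (C := Tw ℂ Y s) l) (ζ : Circle) : Form Y :=
  LinearMap.mk₂'ₛₗ (RingHom.id ℂ) (starRingEnd ℂ) (fun u v => evL ζ (l u v))
    (fun u u' v => by rw [Psd2_add_left hS, map_add])
    (fun a u v => by
      rw [← act_C s a u, Psd2_smul_left hS, map_mul, hL.2.2.2.2.2.2.1]; rfl)
    (fun u v v' => by rw [Psd2_add_right hS, map_add])
    (fun a u v => by
      rw [← act_C s a v, Psd2_smul_right hS, map_mul, hL.2.2.2.2.1, hL.2.2.2.2.2.2.1]; rfl)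

theorem Psd2_form_apply (hL : LaurStmt) {s : G} {l : Tot ℂ Y → Tot ℂ Y → Lam ℂ}
    (hS : Sesq (C := Tw ℂ Y s) l) (ζ : Circle) (u v : Tot ℂ Y) :
    Psd2_form hL hS ζ u v = evL ζ (l u v) := rfl

theorem Psd2_ev_pi (hL : LaurStmt) (ζ : Circle) : evL ζ (piL ζ) = 0 :=
  (hL.2.2.2.2.2.2.2.2.1 ζ _).2 dvd_rfl

theorem Psd2_zero_left (hL : LaurStmt) {s : G} {l : Tot ℂ Y → Tot ℂ Y → Lam ℂ}
    (hS : Sesq (C := Tw ℂ Y s) l) (ζ : Circle) {u : Tot ℂ Y} (hu : u ∈ Mul0 s (piL ζ))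
    (v : Tot ℂ Y) : evL ζ (l u v) = 0 := by
  obtain ⟨w, rfl⟩ := hu
  rw [Psd2_smul_left hS, map_mul, Psd2_ev_pi hL, zero_mul]

theorem Psd2_zero_right (hL : LaurStmt) {s : G} {l : Tot ℂ Y → Tot ℂ Y → Lam ℂ}
    (hS : Sesq (C := Tw ℂ Y s) l) (ζ : Circle) (u : Tot ℂ Y) {v : Tot ℂ Y}
    (hv : v ∈ Mul0 s (piL ζ)) : evL ζ (l u v) = 0 := by
  obtain ⟨w, rfl⟩ := hv
  rw [Psd2_smul_right hS, map_mul, hL.2.2.2.2.2.2.2.1, Psd2_ev_pi hL, map_zero, zero_mul]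

theorem Psd2_gs_comm {s : G} (hc : ∀ g, g * s = s * g) (g : G) (c : Tot ℂ Y) :
    gs ℂ Y g (gs ℂ Y s c) = gs ℂ Y s (gs ℂ Y g c) := by
  rw [← gs_mul, ← gs_mul, hc]

theorem Psd2_gs_Mul0 {s : G} (hc : ∀ g, g * s = s * g) (g : G) {a : Lam ℂ} {c : Tot ℂ Y}
    (h : c ∈ Mul0 s a) : gs ℂ Y g c ∈ Mul0 s a := by
  obtain ⟨w, rfl⟩ := h
  exact ⟨gs ℂ Y g w, (map_act _ (Psd2_gs_comm hc g) a w).symm⟩

theorem Psd2_dT_Mul0 {s : G} {a : Lam ℂ} {c : Tot ℂ Y} (h : c ∈ Mul0 s a) :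
    dT ℂ Y c ∈ Mul0 s a := by
  obtain ⟨w, rfl⟩ := h
  exact ⟨dT ℂ Y w, (dT_act s a w).symm⟩

/-- Chains of degree two whose boundary is a multiple of `a`. -/
noncomputable def Psd2_V (s : G) (a : Lam ℂ) : Submodule ℂ (Tot ℂ Y) :=
  DG ℂ Y 2 ⊓ (Mul0 s a).comap (dT ℂ Y)

theorem Psd2_mem_V {s : G} {a : Lam ℂ} {c : Tot ℂ Y} :
    c ∈ Psd2_V s a ↔ c ∈ DG ℂ Y 2 ∧ dT ℂ Y c ∈ Mul0 s a := Iff.rfl

theorem Psd2_gs_V {s : G} (hc : ∀ g, g * s = s * g) (g : G) (a : Lam ℂ) :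
    ∀ c ∈ (Psd2_V s a : Submodule ℂ (Tot ℂ Y)), gs ℂ Y g c ∈ Psd2_V s a := fun c h =>
  Psd2_mem_V.2 ⟨gs_mem_DG g h.1, by rw [dT_gs]; exact Psd2_gs_Mul0 hc g h.2⟩

/-- The action of the group on `Psd2_V`. -/
noncomputable def Psd2_rho {s : G} (hc : ∀ g, g * s = s * g) (a : Lam ℂ) :
    G →* Module.End ℂ (Psd2_V s a : Submodule ℂ (Tot ℂ Y)) where
  toFun g := (gs ℂ Y g).restrict (Psd2_gs_V hc g a)
  map_one' := LinearMap.ext fun c => Subtype.ext (gs_one c.1)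
  map_mul' g h := LinearMap.ext fun c => Subtype.ext (gs_mul g h c.1)

theorem Psd2_rho_val {s : G} (hc : ∀ g, g * s = s * g) (a : Lam ℂ) (g : G)
    (c : (Psd2_V s a : Submodule ℂ (Tot ℂ Y))) : (Psd2_rho hc a g c).1 = gs ℂ Y g c.1 := rfl

theorem Psd2_zpow_comm {s : G} (hc : ∀ g, g * s = s * g) (g : G) (n : ℤ) (c : Tot ℂ Y) :
    gs ℂ Y (s ^ n) (gs ℂ Y g c) = gs ℂ Y g (gs ℂ Y (s ^ n) c) := by
  have : Commute g s := hc g
  rw [← gs_mul, ← gs_mul, (this.zpow_right n).eq]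

end Aux

theorem psd2_stmt (B : Bas2) (hRank1 : Rank1Stmt) (hRank2 : Rank2Stmt) (hRank3 : Rank3Stmt)
    (hGen : GenStmt) (hPos0 : Pos0Stmt) (hDim : DimStmt) (hNov : NovStmt) (hTower : TowerStmt) : Psd2Stmt := by
  intro κ X G Y A G' Y' _ _ _ _ _ _ _ _ _ _ _ _ _ _ _ _ _ o F φ p t l τ m α q j t' l' n r τ₁ τ₂
    h1 h2 hm hcard hfix hdep hτ₁ hi₁ hpos hτ₂ hi₂ hij
  have hL := B.laur
  obtain ⟨hP, hinv⟩ := B.pair κ X G' Y' o F (p ∘ q) (t' ^ m) τ₂ h2.tc hτ₂ hi₂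
  obtain ⟨hS, hloc, -, hco, -⟩ := B.lam X G' Y' F (p ∘ q) (t' ^ m) _ h2.tc hP.lk
  have hc := h2.tc.cen
  have hfg : ∀ k, FGI ℂ (t' ^ m) (univ : Set Y') univ k := fun k => by
    have := B.fg ℂ X G' Y' F (p ∘ q) (t' ^ m) h2.tc univ univ isCompact_univ isOpen_univ
      subset_rfl k
    rwa [preimage_univ] at this
  obtain ⟨bad₁, hb₁, hg₁⟩ := hGen G' Y' (t' ^ m) 1 (hfg 1)
  obtain ⟨bad₂, hb₂, hg₂⟩ := hGen G' Y' (t' ^ m) 2 (hfg 2)
  obtain ⟨v₀, hv₀, hv₀'⟩ := hPos0 κ X G Y A G' Y' o F φ p t l τ m α q j t' l' n τ₁ τ₂ h1 h2 hm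
    hτ₁ hi₁ hpos hτ₂ hi₂
  refine ⟨{1} ∪ bad₁ ∪ bad₂, ((finite_singleton _).union hb₁).union hb₂, fun ζ hζ z hz => ?_⟩
  have hζ1 : ζ ≠ 1 := fun h => hζ (Or.inl (Or.inl h))
  have hζ₁ : ζ ∉ bad₁ := fun h => hζ (Or.inl (Or.inr h))
  have hζ₂ : ζ ∉ bad₂ := fun h => hζ (Or.inr h)
  have hst : ∀ u v, lamF (t' ^ m) (beta κ τ₂) (dT ℂ Y' u) v =
      lamF (t' ^ m) (beta κ τ₂) u (dT ℂ Y' v) := fun u v =>
    LaurentPolynomial.ext fun k => by rw [hco, hco, hP.stokes, dT_gs]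
  have hrad : ∀ x w : Tot ℂ Y', x - dT ℂ Y' w ∈ Mul0 (t' ^ m) (piL ζ) →
      ∀ v ∈ (Psd2_V (t' ^ m) (piL ζ) : Submodule ℂ (Tot ℂ Y')),
        Psd2_form hL hS ζ x v = 0 := fun x w h v hv => by
    have e : x = (x - dT ℂ Y' w) + dT ℂ Y' w := (sub_add_cancel _ _).symm
    rw [e, map_add, LinearMap.add_apply, Psd2_form_apply, Psd2_form_apply,
      Psd2_zero_left hL hS ζ h, hst, Psd2_zero_right hL hS ζ _ hv.2, add_zero]
  have hZ : ∀ z ∈ ZC ℂ (univ : Set Y') 2, z ∈ Psd2_V (t' ^ m) (piL ζ) := fun z hz =>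
    Psd2_mem_V.2 ⟨hz.1.2, by
      have : dT ℂ Y' z = 0 := hz.2
      rw [this]; exact zero_mem _⟩
  have key := hTower (Psd2_V (Y := Y') (t' ^ m) (piL ζ)) A
    ((Psd2_form hL hS ζ).domRestrict₁₂ _ _) ((Psd2_rho hc (piL ζ)).comp j) (m * n) r hcard
    ?_ ?_ ?_ ?_ ?_ ⟨z, hZ z hz⟩
  · exact key
  · intro u v
    obtain ⟨E₁, E₂, hE₁, hE₂, hE⟩ := hP.sym
    obtain ⟨hS₁, -, -, hco₁, -⟩ := B.lam X G' Y' F (p ∘ q) (t' ^ m) _ h2.tc hE₁
    obtain ⟨hS₂, -, -, hco₂, -⟩ := B.lam X G' Y' F (p ∘ q) (t' ^ m) _ h2.tc hE₂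
    have e : lamF (t' ^ m) (beta κ τ₂) v.1 u.1 = cj (lamF (t' ^ m) (beta κ τ₂) u.1 v.1) +
        (lamF (t' ^ m) E₁ (dT ℂ Y' v.1) u.1 + lamF (t' ^ m) E₂ v.1 (dT ℂ Y' u.1)) := by
      refine LaurentPolynomial.ext fun k => ?_
      have e := hE _ v.2.1 _ (gs_mem_DG ((t' ^ m) ^ k) u.2.1)
      rw [dT_gs] at e
      have e' : beta κ τ₂ u.1 (gs ℂ Y' ((t' ^ m) ^ (-k)) v.1) =
          beta κ τ₂ (gs ℂ Y' ((t' ^ m) ^ k) u.1) v.1 := by
        rw [← Psd2_inv hP.lk k, ← gs_mul, zpow_neg, mul_inv_cancel, gs_one]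
      have a1 : ∀ a b : Lam ℂ, (a + b).coeff k = a.coeff k + b.coeff k := fun a b => by simp
      rw [a1, a1, Psd2_cj, hco, hco, hco₁, hco₂, e', ← e]
      ring
    change starRingEnd ℂ (evL ζ (lamF (t' ^ m) (beta κ τ₂) u.1 v.1)) =
      evL ζ (lamF (t' ^ m) (beta κ τ₂) v.1 u.1)
    rw [e, map_add, map_add, Psd2_zero_left hL hS₁ ζ v.2.2, Psd2_zero_right hL hS₂ ζ _ u.2.2,
      hL.2.2.2.2.2.2.2.1, add_zero, add_zero]
  · intro a u v
    change evL ζ (lamF (t' ^ m) (beta κ τ₂) (gs ℂ Y' (j a) u.1) (gs ℂ Y' (j a) v.1)) =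
      evL ζ (lamF (t' ^ m) (beta κ τ₂) u.1 v.1)
    refine congrArg _ (LaurentPolynomial.ext fun k => ?_)
    rw [hco, hco, Psd2_zpow_comm hc, hinv _ (hij a)]
  · refine ⟨fun i => ⟨v₀ i, hZ _ (hv₀ i).1⟩, fun i a => Subtype.ext ((hv₀ i).2 a), fun a ha => ?_⟩
    have := hv₀' ζ hζ1 a ha
    rw [LinearMap.domRestrict₁₂_apply, Psd2_form_apply, Submodule.coe_sum]
    exact this
  · intro C z hz
    have r1 := hRank1 X G Y F φ p t l n h1 hdep
    have r3 := hRank3 X G Y A G' Y' F p t τ m α q j t' l' n r h2 hm hcard r1 C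
    have hfin : Finite (C.toSubgroup.map j : Subgroup G') :=
      Set.Finite.to_subtype (Set.Finite.image _ (Set.toFinite _))
    have r2 := hRank2 X G' Y' F (p ∘ q) (t' ^ m) _ _ h2.tc hfin r3
    obtain ⟨a, ha, w, hw⟩ := hDim G' Y' (t' ^ m) _ _ ζ hfin hc
      (fun k y h => h2.tc.inf k (h2.tc.cov.free _ y h)) r2
      (fun k hk => by
        rcases hk with rfl | rfl
        · exact hg₁ ζ hζ₁
        · exact hg₂ ζ hζ₂)
      (fun i => (z i).1) (fun i => ⟨(z i).2.1, (z i).2.2, by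
        rintro _ ⟨g, hg, rfl⟩
        exact congrArg Subtype.val (hz i (Multiplicative.toAdd g) hg)⟩)
    refine ⟨a, ha, fun v => ?_⟩
    rw [LinearMap.domRestrict₁₂_apply, Submodule.coe_sum]
    exact hrad _ w hw v.1 v.2
  · intro C' C hle hidx
    obtain ⟨f, hfs, hf', hf, hcut⟩ := hNov X G Y A G' Y' o F φ p t l τ m α q j t' l' _ h1 h2 hfix
      hP C' C hle hidx
    refine ⟨(CH ℂ {y | 0 < f y}).comap (Psd2_V (Y := Y') (t' ^ m) (piL ζ)).subtype,
      (CH ℂ {y | f y < 0}).comap (Psd2_V (Y := Y') (t' ^ m) (piL ζ)).subtype, ?_, ?_, ?_, ?_, ?_⟩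
    · intro a ha x hx
      exact gs_mem_CH (j (Multiplicative.ofAdd a)) (fun y hy => by
        simp only [mem_ofPred_eq] at hy ⊢
        rwa [hf' a ha]) hx
    · intro a ha ha' x hx
      exact gs_mem_CH (j (Multiplicative.ofAdd a)) (fun y hy => by
        simp only [mem_ofPred_eq] at hy ⊢
        rw [hf a ha ha']; linarith) hx
    · intro a ha ha' x hx
      exact gs_mem_CH (j (Multiplicative.ofAdd a)) (fun y hy => by
        simp only [mem_ofPred_eq] at hy ⊢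
        rw [hf a ha ha']; linarith) hx
    · intro x hx y hy
      have := hloc {y | 0 < f y} {y | f y < 0} (fun y => by simp only [mem_ofPred_eq, hfs])
        (Set.disjoint_left.2 fun y (h : 0 < f y) (h' : f y < 0) => lt_asymm h h') x.1 hx y.1 hy
      rw [LinearMap.domRestrict₁₂_apply, Psd2_form_apply, this, map_zero]
    · intro u hu
      obtain ⟨u', hu', w, hw⟩ := hcut ζ hζ1 u.1 u.2.1 u.2.2 fun x hx hx' =>
        hu ⟨x, Psd2_mem_V.2 ⟨hx.2, hx'⟩⟩ hx.1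
      have hd : dT ℂ Y' u' ∈ Mul0 (t' ^ m) (piL ζ) := by
        have e : dT ℂ Y' u' = dT ℂ Y' u.1 - dT ℂ Y' (u.1 - u' - dT ℂ Y' w) := by
          rw [map_sub, map_sub, dT_dT]; abel
        rw [e]
        exact sub_mem u.2.2 (Psd2_dT_Mul0 hw)
      exact ⟨⟨u', Psd2_mem_V.2 ⟨hu'.2, hd⟩⟩, hu'.1, fun v => hrad _ w hw v.1 v.2⟩

end Pool.Agent.MP_bc14e1_gt

end

section

/-! Local homology `H(X, X - A)` and the steps of the proof of `XPStmt`. -/

open Set Metric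
open scoped Classical

namespace Pool.Agent.MP_bc14e1_gt

noncomputable section

section Defs

variable (R : Type) [CommRing R] {X : Type} [TopologicalSpace X]

/-- Chains with boundary off `A`. -/
def XRel (A : Set X) : Submodule R (Tot R X) := (CH R Aᶜ).comap (dT R X)

/-- Chains that are zero in `H(X, X - A)`. -/
def XTriv (A : Set X) : Submodule R (Tot R X) := LinearMap.range (dT R X) ⊔ CH R Aᶜ

/-- The orientation class at a point. -/
def XO (o : Orientation4 X) (x : X) : Tot R X := castZ R X (inc ℤ 4 (o.o x))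

/-- `H_k(X, X - A) = 0`. -/
def XVan (A : Set X) (k : ℕ) : Prop := ∀ c ∈ DG R X k, c ∈ XRel R A → c ∈ XTriv R A

/-- `H_k(X, X - A)` is free of rank one. -/
def XRk1 (A : Set X) (k : ℕ) : Prop :=
  ∃ g ∈ DG R X k, g ∈ XRel R A ∧
    ∀ c ∈ DG R X k, c ∈ XRel R A → ∃! r : R, c - r • g ∈ XTriv R A

/-- A class in `H_4(X, X - A)` is zero if it is zero at each point. -/
def XInj (A : Set X) : Prop :=
  ∀ c ∈ DG R X 4, c ∈ XRel R A → (∀ x ∈ A, c ∈ XTriv R {x}) → c ∈ XTriv R A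

/-- `w` is a fundamental class along `A`. -/
def XCl (o : Orientation4 X) (A : Set X) (w : Tot R X) : Prop :=
  w ∈ DG R X 4 ∧ w ∈ XRel R A ∧ ∀ x ∈ A, w - XO R o x ∈ XTriv R {x}

/-- The local homology at points. -/
structure XLoc (o : Orientation4 X) : Prop where
  van : ∀ x : X, ∀ k, k ≠ 4 → XVan R {x} k
  gen : ∀ x : X, ∀ c ∈ DG R X 4, c ∈ XRel R {x} → ∃! r : R, c - r • XO R o x ∈ XTriv R {x}

/-- Compact sets with the local homology of a point (or of several points). -/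
structure XGd (o : Orientation4 X) (A : Set X) : Prop where
  cpt : IsCompact A
  van : ∀ k, k ≠ 4 → XVan R A k
  inj : XInj R A
  cls : ∃ w, XCl R o A w

/-- The augmentation. -/
def XAug (X : Type) [TopologicalSpace X] : Tot R X →ₗ[R] R := val0 R fun _ => (1 : R)

end Defs

/-- The standard loop. -/
def XLoop : C(unitInterval, ℂ) :=
  ⟨fun θ => Complex.exp (2 * Real.pi * Complex.I * (θ : ℝ)), by fun_prop⟩

/-- The rotation loop as a chain. -/
def XMer {X : Type} [TopologicalSpace X] (e : OpenPartialHomeomorph X (ℂ × ℂ)) (z w : ℂ) :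
    Tot ℤ X := psh ℤ (fun u => e.symm (z, u * w)) (pth ℤ XLoop)

/-- The generators of the second homology of the double. -/
def XS {κ : Kit} {K : Set (E 4)} {ι : E 4 ≃ₗᵢ[ℝ] E 4} (Γ : Geo κ K ι) :
    Fin Γ.k ⊕ Fin Γ.k → Tot ℤ Γ.X := Sum.elim Γ.S fun i => psh ℤ Γ.I (Γ.S i)

section Api

variable {R : Type} [CommRing R] {X Y : Type} [TopologicalSpace X] [TopologicalSpace Y]
  {A B : Set X} {c : Tot R X}

theorem mem_XRel : c ∈ XRel R A ↔ dT R X c ∈ CH R Aᶜ := Iff.rfl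

theorem mem_XTriv : c ∈ XTriv R A ↔ ∃ b, c - dT R X b ∈ CH R Aᶜ := by
  rw [XTriv, Submodule.mem_sup]
  constructor
  · rintro ⟨_, ⟨b, rfl⟩, z, hz, rfl⟩
    exact ⟨b, by rwa [add_sub_cancel_left]⟩
  · rintro ⟨b, hb⟩
    exact ⟨_, ⟨b, rfl⟩, _, hb, add_sub_cancel _ _⟩

theorem dT_mem_XTriv (A : Set X) (b : Tot R X) : dT R X b ∈ XTriv R A :=
  Submodule.mem_sup_left ⟨b, rfl⟩

theorem mem_XTriv_of_CH (h : c ∈ CH R Aᶜ) : c ∈ XTriv R A := Submodule.mem_sup_right h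

theorem mem_XRel_of_CH (h : c ∈ CH R Aᶜ) : c ∈ XRel R A := dT_mem_CH h

theorem XTriv_le_XRel : XTriv R A ≤ XRel R A := by
  refine sup_le ?_ fun _ h => mem_XRel_of_CH h
  rintro _ ⟨b, rfl⟩
  rw [mem_XRel, dT_dT]
  exact zero_mem _

theorem XRel_anti (h : A ⊆ B) : XRel R B ≤ XRel R A :=
  fun _ hc => CH_mono (compl_subset_compl.2 h) hc

theorem XTriv_anti (h : A ⊆ B) : XTriv R B ≤ XTriv R A :=
  sup_le_sup_left (CH_mono (compl_subset_compl.2 h)) _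

theorem mem_XTriv_empty (c : Tot R X) : c ∈ XTriv R (∅ : Set X) :=
  mem_XTriv_of_CH (by rw [compl_empty]; exact mem_CH_univ c)

theorem mem_XRel_union : c ∈ XRel R (A ∪ B) ↔ c ∈ XRel R A ∧ c ∈ XRel R B := by
  rw [mem_XRel, compl_union, CH_inter]; rfl

theorem deg_mem_XRel (k : ℕ) (h : c ∈ XRel R A) : deg R X k c ∈ XRel R A := by
  rw [mem_XRel]
  rcases k with _ | k
  · rw [dT_of_DG_zero (deg_mem 0 c)]; exact zero_mem _
  · rw [← deg_dT]; exact deg_mem_CH k h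

theorem deg_mem_XTriv (k : ℕ) (h : c ∈ XTriv R A) : deg R X k c ∈ XTriv R A := by
  obtain ⟨b, hb⟩ := mem_XTriv.1 h
  exact mem_XTriv.2 ⟨deg R X (k + 1) b, by rw [← deg_dT, ← map_sub]; exact deg_mem_CH k hb⟩

/-- The bounding chain can be chosen homogeneous. -/
theorem mem_XTriv_DG {k : ℕ} (hc : c ∈ DG R X k) (h : c ∈ XTriv R A) :
    ∃ b ∈ DG R X (k + 1), c - dT R X b ∈ CH R Aᶜ := by
  obtain ⟨b, hb⟩ := mem_XTriv.1 h
  refine ⟨deg R X (k + 1) b, deg_mem _ _, ?_⟩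
  have := deg_mem_CH k hb
  rwa [map_sub, deg_of_mem hc, deg_dT] at this

theorem mem_BC {k : ℕ} : c ∈ BC R A k ↔ ∃ b, b ∈ CH R A ∧ b ∈ DG R X (k + 1) ∧ dT R X b = c := by
  simp only [BC, CC, Submodule.mem_map, Submodule.mem_inf, and_assoc]

theorem mem_ZC {k : ℕ} : c ∈ ZC R A k ↔ c ∈ CH R A ∧ c ∈ DG R X k ∧ dT R X c = 0 := by
  simp only [ZC, CC, Submodule.mem_inf, LinearMap.mem_ker, and_assoc]

/-- A homogeneous chain that bounds in `A` is a boundary. -/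
theorem mem_BC_of_dT {k : ℕ} (hc : c ∈ DG R X k) {b : Tot R X} (hb : b ∈ CH R A)
    (h : dT R X b = c) : c ∈ BC R A k :=
  mem_BC.2 ⟨deg R X (k + 1) b, deg_mem_CH _ hb, deg_mem _ _, by rw [← deg_dT, h, deg_of_mem hc]⟩

theorem sub_sdT_mem_XTriv (m : ℕ) (h : c ∈ XRel R A) : c - (sdT R X ^ m) c ∈ XTriv R A := by
  rw [← dT_sdHP]
  exact add_mem (dT_mem_XTriv _ _) (mem_XTriv_of_CH (sdHP_mem_CH m h))

/-- A chain off `A` is off a neighbourhood of `A`. -/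
theorem exists_open_CH [T2Space X] (h : c ∈ CH R Aᶜ) :
    ∃ U, IsOpen U ∧ A ⊆ U ∧ c ∈ CH R Uᶜ := by
  obtain ⟨K, hK, hKA, hc⟩ := exists_compact_CH h
  exact ⟨Kᶜ, hK.isClosed.isOpen_compl, subset_compl_comm.1 hKA, by rwa [compl_compl]⟩

theorem exists_open_XRel [T2Space X] (h : c ∈ XRel R A) :
    ∃ U, IsOpen U ∧ A ⊆ U ∧ c ∈ XRel R U := exists_open_CH h

theorem exists_open_XTriv [T2Space X] (h : c ∈ XTriv R A) :
    ∃ U, IsOpen U ∧ A ⊆ U ∧ c ∈ XTriv R U := by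
  obtain ⟨b, hb⟩ := mem_XTriv.1 h
  obtain ⟨U, h1, h2, h3⟩ := exists_open_CH hb
  exact ⟨U, h1, h2, mem_XTriv.2 ⟨b, h3⟩⟩

theorem psh_mem_XTriv {f : X → Y} (hf : Continuous f) {B : Set Y} (hB : MapsTo f Aᶜ Bᶜ)
    (h : c ∈ XTriv R A) : psh R f c ∈ XTriv R B := by
  obtain ⟨b, hb⟩ := mem_XTriv.1 h
  exact mem_XTriv.2 ⟨psh R f b, by rw [dT_psh_cont hf, ← map_sub]; exact psh_mem_CH f hB hb⟩

theorem psh_mem_XRel {f : X → Y} (hf : Continuous f) {B : Set Y} (hB : MapsTo f Aᶜ Bᶜ)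
    (h : c ∈ XRel R A) : psh R f c ∈ XRel R B := by
  rw [mem_XRel, dT_psh_cont hf]; exact psh_mem_CH f hB h

theorem cast_mem_XTriv {S : Type} [CommRing S] (φ : R →+* S) (h : c ∈ XTriv R A) :
    cast φ X c ∈ XTriv S A := by
  obtain ⟨b, hb⟩ := mem_XTriv.1 h
  exact mem_XTriv.2 ⟨cast φ X b, by rw [← cast_dT, ← map_sub]; exact cast_mem_CH φ hb⟩

theorem cast_mem_XRel {S : Type} [CommRing S] (φ : R →+* S) (h : c ∈ XRel R A) :
    cast φ X c ∈ XRel S A := by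
  rw [mem_XRel, ← cast_dT]; exact cast_mem_CH φ h

theorem null_iff_XTriv {k : ℕ} (z : Sing X k →₀ ℤ) :
    Null univ Aᶜ k z ↔ inc ℤ k z ∈ XTriv ℤ A := by
  constructor
  · rintro ⟨b, -, hb⟩
    exact mem_XTriv.2 ⟨inc ℤ (k + 1) b, by rw [dT_inc_succ, ← map_sub, inc_mem_CH]; exact hb⟩
  · intro h
    obtain ⟨b, hb, h2⟩ := mem_XTriv_DG (inc_mem_DG k z) h
    obtain ⟨b, rfl⟩ := exists_inc hb
    rw [dT_inc_succ, ← map_sub, inc_mem_CH] at h2
    exact ⟨b, inc_mem_CH.1 (mem_CH_univ _), h2⟩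

theorem inc_mem_XRel {k : ℕ} (z : Sing X (k + 1) →₀ R) :
    inc R (k + 1) z ∈ XRel R A ↔ bd R X k z ∈ supp R Aᶜ k := by
  rw [mem_XRel, dT_inc_succ, inc_mem_CH]

theorem XO_mem_DG (o : Orientation4 X) (x : X) : XO R o x ∈ DG R X 4 :=
  cast_mem_DG _ (inc_mem_DG _ _)

theorem XO_mem_XRel (o : Orientation4 X) (x : X) : XO R o x ∈ XRel R {x} :=
  cast_mem_XRel _ ((inc_mem_XRel _).2 (o.rel x))

theorem XCl.mono {o : Orientation4 X} {w : Tot R X} (h : XCl R o B w) (hAB : A ⊆ B) :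
    XCl R o A w := ⟨h.1, XRel_anti hAB h.2.1, fun x hx => h.2.2 x (hAB hx)⟩

theorem exists_XCl_nhds (o : Orientation4 X) (x : X) : ∃ U ∈ nhds x, ∃ w, XCl R o U w := by
  obtain ⟨U, hU, w, h1, h2⟩ := o.loc x
  refine ⟨U, hU, castZ R X (inc ℤ 4 w), cast_mem_DG _ (inc_mem_DG _ _),
    cast_mem_XRel _ ((inc_mem_XRel _).2 h1), fun y hy => ?_⟩
  rw [XO, ← map_sub, ← map_sub]
  exact cast_mem_XTriv _ ((null_iff_XTriv _).1 (h2 y hy))

/-- A multiple of the orientation class that is zero has coefficient zero. -/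
theorem XLoc.eq_zero {o : Orientation4 X} (h : XLoc R o) {x : X} {r : R}
    (hr : r • XO R o x ∈ XTriv R {x}) : r = 0 := by
  refine (h.gen x (r • XO R o x) (Submodule.smul_mem _ _ (XO_mem_DG o x))
    (Submodule.smul_mem _ _ (XO_mem_XRel o x))).unique ?_ ?_
  · rw [sub_self]; exact zero_mem _
  · rwa [zero_smul, sub_zero]

theorem XLoc.gd_of_subsingleton {o : Orientation4 X} (h : XLoc R o) (hA : A.Subsingleton) :
    XGd R o A := by
  rcases hA.eq_empty_or_singleton with rfl | ⟨x, rfl⟩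
  · exact ⟨isCompact_empty, fun _ _ c _ _ => mem_XTriv_empty c, fun c _ _ _ => mem_XTriv_empty c,
      0, zero_mem _, zero_mem _, fun _ hx => hx.elim⟩
  · refine ⟨isCompact_singleton, h.van x, fun c _ _ hc => hc x rfl, XO R o x, XO_mem_DG o x,
      XO_mem_XRel o x, ?_⟩
    rintro _ rfl
    rw [sub_self]; exact zero_mem _

theorem dT_XLoop : dT R ℂ (pth R XLoop) = 0 := by
  rw [dT_pth]
  have : XLoop 1 = XLoop 0 := by
    simp [XLoop, Complex.exp_two_pi_mul_I]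
  rw [this, sub_self]

theorem norm_XLoop (θ : unitInterval) : ‖XLoop θ‖ = 1 := by
  have : (2 * Real.pi * Complex.I * (θ : ℝ) : ℂ) = ((2 * Real.pi * θ : ℝ) : ℂ) * Complex.I := by
    push_cast; ring
  change ‖Complex.exp _‖ = 1
  rw [this, Complex.norm_exp_ofReal_mul_I]

theorem XLoop_mem_CH : pth R XLoop ∈ CH R (sphere (0 : ℂ) 1) :=
  pth_mem_CH fun t => mem_sphere_zero_iff_norm.2 (norm_XLoop t)

end Api

/-! ### The steps -/

/-- Local homology at the points of an oriented manifold. -/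
def XPtStmt : Prop :=
  ∀ (R : Type) [CommRing R] (X : Type) [TopologicalSpace X] [T2Space X] [ChartedSpace (E 4) X]
    (o : Orientation4 X), XLoc R o

/-- The Mayer-Vietoris sequence of local homology. -/
def XMVStmt : Prop :=
  ∀ (R : Type) [CommRing R] (X : Type) [TopologicalSpace X] (A B : Set X), IsClosed A →
    IsClosed B → ∀ k,
    (∀ a ∈ DG R X k, ∀ b ∈ DG R X k, a ∈ XRel R A → b ∈ XRel R B → a - b ∈ XTriv R (A ∩ B) →
      ∃ c ∈ DG R X k, c ∈ XRel R (A ∪ B) ∧ c - a ∈ XTriv R A ∧ c - b ∈ XTriv R B) ∧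
    ((∀ y ∈ DG R X (k + 1), y ∈ XRel R (A ∩ B) → y ∈ XRel R A ⊔ XRel R B ⊔ XTriv R (A ∩ B)) →
      ∀ c ∈ DG R X k, c ∈ XRel R (A ∪ B) → c ∈ XTriv R A → c ∈ XTriv R B →
        c ∈ XTriv R (A ∪ B)) ∧
    (XVan R A k → XVan R B k → ∀ g ∈ DG R X (k + 1), g ∈ XRel R (A ∩ B) →
      (∀ y ∈ DG R X (k + 1), y ∈ XRel R (A ∩ B) →
        ∃! r : R, y - r • g ∈ XRel R A ⊔ XRel R B ⊔ XTriv R (A ∩ B)) → XRk1 R (A ∪ B) k)

/-- The degree is locally constant. -/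
def XConnStmt : Prop :=
  ∀ (R : Type) [CommRing R] (X : Type) [TopologicalSpace X] [T2Space X] (o : Orientation4 X),
    XLoc R o → (∀ A w, XCl R o A w → ∃ U, IsOpen U ∧ A ⊆ U ∧ XCl R o U w) ∧
    ∀ A w, IsPreconnected A → XInj R A → XCl R o A w →
      ∀ y ∈ DG R X 4, y ∈ XRel R A → ∃ r : R, y - r • w ∈ XTriv R A

/-- From the levels of a function to the whole set. -/
def XSlabStmt : Prop :=
  ∀ (R : Type) [CommRing R] (X P : Type) [TopologicalSpace X] [T2Space X] [TopologicalSpace P]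
    (o : Orientation4 X) (K : Set P) (f : P → X) (l : P → ℝ), XLoc R o → IsCompact K →
    ContinuousOn f K → InjOn f K → Continuous l →
    (∀ t, XGd R o (f '' (K ∩ l ⁻¹' {t})) ∧ IsPreconnected (f '' (K ∩ l ⁻¹' {t}))) →
    XGd R o (f '' K)

/-- Embedded discs and their boundary circles. -/
def XDiscStmt : Prop :=
  ∀ (R : Type) [CommRing R] (X : Type) [TopologicalSpace X] [T2Space X] (o : Orientation4 X)
    (δ : E 2 → X), XLoc R o → ContinuousOn δ (closedBall 0 1) → InjOn δ (closedBall 0 1) →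
    XGd R o (δ '' closedBall 0 1) ∧ ∃ (A₁ A₂ : Set X) (p q : X), XGd R o A₁ ∧ XGd R o A₂ ∧
      IsPreconnected A₁ ∧ IsPreconnected A₂ ∧ p ≠ q ∧ A₁ ∩ A₂ = {p, q} ∧ A₁ ∪ A₂ = δ '' sphere 0 1

/-- The local homology of a sphere. -/
def XThetaStmt : Prop :=
  ∀ (R : Type) [CommRing R] (X : Type) [TopologicalSpace X] [T2Space X] (o : Orientation4 X)
    (D₁ D₂ A₁ A₂ : Set X) (p q : X), XLoc R o → XGd R o D₁ → XGd R o D₂ → XGd R o A₁ →
    XGd R o A₂ → IsPreconnected A₁ → IsPreconnected A₂ → p ≠ q → A₁ ∩ A₂ = {p, q} →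
    D₁ ∩ D₂ = A₁ ∪ A₂ → XVan R (D₁ ∪ D₂) 3 ∧ XRk1 R (D₁ ∪ D₂) 2

/-- Homology in degree zero. -/
def XH0Stmt : Prop :=
  (∀ (X : Type) [TopologicalSpace X] (A : Set X) (x y : X), x ∈ A → ∀ c ∈ CH ℤ A,
    dT ℤ X c = pt ℤ y - pt ℤ x → JoinedIn A x y) ∧
  (∀ (R : Type) [CommRing R] (X : Type) [TopologicalSpace X] (c : Tot R X),
    XAug R X (dT R X c) = 0) ∧
  ∀ (R : Type) [CommRing R] (X : Type) [TopologicalSpace X] (A : Set X), IsPathConnected A →
    ∃ x₀ ∈ A, ∃ ρ : Module.End R (Tot R X), (∀ c, ρ c ∈ CC R A 1) ∧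
      ∀ c ∈ CC R A 0, dT R X (ρ c) = c - XAug R X c • pt R x₀

def XShellStmt : Prop := IsPathConnected shell ∧ ZC ℤ shell 1 ≤ BC ℤ shell 1

/-- The integral homology of the double. -/
def XGlobStmt : Prop :=
  ∀ (κ : Kit) (K : Set (E 4)) (ι : E 4 ≃ₗᵢ[ℝ] E 4) (Γ : Geo κ K ι),
    IsPathConnected (univ : Set Γ.X) ∧ ZC ℤ (univ : Set Γ.X) 1 ≤ BC ℤ univ 1 ∧
    ∀ z ∈ ZC ℤ (univ : Set Γ.X) 2, ∃ n : Fin Γ.k ⊕ Fin Γ.k → ℤ,
      z - ∑ i, n i • XS Γ i ∈ BC ℤ univ 2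

/-- Reduction modulo two. -/
def XMod2Stmt : Prop :=
  ∀ (X ι : Type) [TopologicalSpace X] [Fintype ι] (x : ι → Tot ℤ X),
    ZC ℤ (univ : Set X) 1 ≤ BC ℤ univ 1 →
    (∀ z ∈ ZC ℤ (univ : Set X) 2, ∃ n : ι → ℤ, z - ∑ i, n i • x i ∈ BC ℤ univ 2) →
    ∀ z ∈ ZC (ZMod 2) (univ : Set X) 2, ∃ n : ι → ZMod 2,
      z - ∑ i, n i • castZ (ZMod 2) X (x i) ∈ BC (ZMod 2) univ 2

/-- The standard loop generates the first homology of the punctured plane. -/
def XCircStmt : Prop :=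
  ∀ c ∈ ZC ℤ ({0}ᶜ : Set ℂ) 1, ∃ n : ℤ, c - n • pth ℤ XLoop ∈ BC ℤ ({0}ᶜ : Set ℂ) 1

/-- The meridian generates the first homology of a box minus the surface. -/
def XBoxStmt : Prop :=
  ∀ (X : Type) [TopologicalSpace X] (F : Set X) (e : OpenPartialHomeomorph X (ℂ × ℂ))
    (V T : Set ℂ) (z w : ℂ), FlatCh F e → Convex ℝ V → (∀ u ∈ T, ∀ u', ‖u'‖ ≤ ‖u‖ → u' ∈ T) →
    V ×ˢ T ⊆ e.target → z ∈ V → w ∈ T → w ≠ 0 →
    XMer e z w ∈ ZC ℤ (e.symm '' (V ×ˢ T) \ F) 1 ∧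
    ∀ c ∈ ZC ℤ (e.symm '' (V ×ˢ T) \ F) 1, ∃ n : ℤ, c - n • XMer e z w ∈ BC ℤ Fᶜ 1

/-- Every meridian is a generator. -/
def XRotStmt : Prop :=
  ∀ (X : Type) [TopologicalSpace X] (F : Set X) (φ : Tot ℤ X →ₗ[ℤ] ℤ), Flat F →
    IsPreconnected F → (∀ c ∈ CH ℤ Fᶜ, φ (dT ℤ X c) = 0) →
    (∃ g ∈ DG ℤ X 2, g ∈ XRel ℤ F ∧ φ (dT ℤ X g) = 1) →
    ∀ e z w, Mer F e z w → ∀ γ : C(unitInterval, X), (∀ θ : unitInterval, γ θ = rotL e z w θ) →
      φ (pth ℤ γ) = 1 ∨ φ (pth ℤ γ) = -1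

/-- The intersection matrix. -/
def XClsStmt : Prop :=
  ∀ (κ : Kit) (K : Set (E 4)) (ι : E 4 ≃ₗᵢ[ℝ] E 4) (Γ : Geo κ K ι),
    (∀ i, XS Γ i ∈ ZC ℤ Γ.Fᶜ 2) ∧ ∀ τ, IsThom Γ.o id τ → ∀ i j,
      beta κ τ (castZ ℂ Γ.X (XS Γ i)) (castZ ℂ Γ.X (XS Γ j)) = if i = j then 1 else 0

end

end Pool.Agent.MP_bc14e1_gt

end

section

open Set Metric
open scoped Classical

namespace Pool.Agent.MP_bc14e1_gt

section
variable {X : Type} [TopologicalSpace X] {F : Set X}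

theorem XPA_conn (B : Bas2) (h0 : XH0Stmt) (hF : Flat F) (hX : IsPathConnected (univ : Set X)) :
    IsPathConnected Fᶜ := by
  have L := B.lemA ℤ X ℂ ℂ F {e | FlatCh F e} hF.cl (fun e he => he) hF.ch univ isOpen_univ
  have hne : ∃ x, x ∈ Fᶜ := by
    obtain ⟨x, -⟩ := hX.nonempty
    obtain ⟨b, -, hb⟩ := (L 0 (pt ℤ x) ⟨mem_CH_univ _, pt_mem_DG x⟩
      (by rw [dT_pt]; exact zero_mem _)).1 (by simp)
    by_contra hn
    have he : Fᶜ = ∅ := eq_empty_of_forall_notMem fun x hx => hn ⟨x, hx⟩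
    rw [he] at hb
    have := congrArg (XAug ℤ X) (eq_zero_of_mem_CH_empty hb)
    rw [map_sub, h0.2.1, XAug, val0_pt, map_zero] at this
    omega
  obtain ⟨x, hx⟩ := hne
  refine ⟨x, hx, fun y hy => ?_⟩
  let γ := (hX.joinedIn x trivial y trivial).somePath
  have hd : dT ℤ X (pth ℤ (γ : C(unitInterval, X))) = pt ℤ y - pt ℤ x := by
    rw [dT_pth]; simp
  obtain ⟨b, -, hb⟩ := (L 1 (pth ℤ (γ : C(unitInterval, X))) ⟨mem_CH_univ _, pth_mem_DG _⟩
    (by rw [hd]; exact sub_mem (pt_mem_CH hy) (pt_mem_CH hx))).1 (by simp)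
  exact h0.1 X Fᶜ x y hx _ hb (by rw [map_sub, dT_dT, sub_zero, hd])

/-- The second homology of the complement. -/
theorem XPA_dep {R ι : Type} [Field R] [Fintype ι] {n : ℕ} (hn : Fintype.card ι = n)
    (x : ι → Tot R X) (hx : ∀ i, x i ∈ CC R Fᶜ 2) (hv : XVan R F 3)
    (h : ∀ z ∈ ZC R (univ : Set X) 2, ∃ a : ι → R, z - ∑ i, a i • x i ∈ BC R univ 2) :
    Dep0 R Fᶜ n := by
  intro z hz
  have key : ∀ j, ∃ a : ι → R, z j - ∑ i, a i • x i ∈ BC R Fᶜ 2 := by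
    intro j
    obtain ⟨h1, h2, h3⟩ := mem_ZC.1 (hz j)
    obtain ⟨a, ha⟩ := h (z j) (mem_ZC.2 ⟨mem_CH_univ _, h2, h3⟩)
    obtain ⟨b, -, hb, e⟩ := mem_BC.1 ha
    have hm : z j - ∑ i, a i • x i ∈ CC R Fᶜ 2 :=
      sub_mem ⟨h1, h2⟩ (Submodule.sum_mem _ fun i _ => Submodule.smul_mem _ _ (hx i))
    obtain ⟨u, hu⟩ := mem_XTriv.1 (hv b hb (by rw [mem_XRel, e]; exact hm.1))
    exact ⟨a, mem_BC_of_dT hm.2 hu (by rw [map_sub, dT_dT, sub_zero, e])⟩
  choose a ha using key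
  have hdep : ¬ LinearIndependent R a := fun hi => by
    have := hi.fintype_card_le_finrank
    rw [Module.finrank_pi, Fintype.card_fin] at this
    omega
  obtain ⟨g, hg, j, hj⟩ := Fintype.not_linearIndependent_iff.1 hdep
  refine ⟨g, fun h0 => hj (congrFun h0 j), ?_⟩
  have h1 : ∑ j, g j • (z j - ∑ i, a j i • x i) ∈ BC R Fᶜ 2 :=
    Submodule.sum_mem _ fun j _ => Submodule.smul_mem _ _ (ha j)
  have h2 : ∑ j, g j • ∑ i, a j i • x i = 0 := by
    simp only [Finset.smul_sum, smul_smul]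
    rw [Finset.sum_comm]
    refine Finset.sum_eq_zero fun i _ => ?_
    have := congrFun hg i
    simp only [Finset.sum_apply, Pi.smul_apply, smul_eq_mul, Pi.zero_apply] at this
    rw [← Finset.sum_smul, this, zero_smul]
  simp only [smul_sub, Finset.sum_sub_distrib] at h1
  rwa [h2, sub_zero] at h1

/-- The first homology of the complement. -/
theorem XPA_h1 (h1 : ZC ℤ (univ : Set X) 1 ≤ BC ℤ univ 1)
    (h2 : ∀ z ∈ ZC ℤ (univ : Set X) 2, z ∈ XTriv ℤ F) (hr : XRk1 ℤ F 2) :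
    ∃ g ∈ DG ℤ X 2, g ∈ XRel ℤ F ∧
      ∀ z ∈ ZC ℤ Fᶜ 1, ∃! n : ℤ, z - n • dT ℤ X g ∈ BC ℤ Fᶜ 1 := by
  obtain ⟨g, hg, hgr, H⟩ := hr
  refine ⟨g, hg, hgr, fun z hz => ?_⟩
  obtain ⟨z1, z2, z3⟩ := mem_ZC.1 hz
  obtain ⟨c, -, hc, rfl⟩ := mem_BC.1 (h1 (mem_ZC.2 ⟨mem_CH_univ _, z2, z3⟩))
  refine (existsUnique_congr fun n => ?_).1 (H c hc z1)
  rw [← map_smul, ← map_sub]
  have hd : c - n • g ∈ DG ℤ X 2 := sub_mem hc (Submodule.smul_mem _ _ hg)
  constructor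
  · intro h
    obtain ⟨u, hu⟩ := mem_XTriv.1 h
    exact mem_BC_of_dT (dT_mem_DG hd) hu (by rw [map_sub, dT_dT, sub_zero])
  · intro h
    obtain ⟨b, b1, b2, b3⟩ := mem_BC.1 h
    have := add_mem (h2 (c - n • g - b) (mem_ZC.2 ⟨mem_CH_univ _, sub_mem hd b2,
      by rw [map_sub, b3, sub_self]⟩)) (mem_XTriv_of_CH b1)
    rwa [sub_add_cancel] at this

/-- The cocycle. -/
theorem XPA_phi (h0 : XH0Stmt) {Z : Set X} (hZ : IsPathConnected Z) {μ : Tot ℤ X}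
    (hμ : μ ∈ ZC ℤ Z 1) (H : ∀ z ∈ ZC ℤ Z 1, ∃! n : ℤ, z - n • μ ∈ BC ℤ Z 1) :
    ∃ φ : Tot ℤ X →ₗ[ℤ] ℤ, (∀ c ∈ CH ℤ Z, φ (dT ℤ X c) = 0) ∧
      (∀ k, k ≠ 1 → ∀ c ∈ DG ℤ X k, φ c = 0) ∧ φ μ = 1 ∧
      ∀ z ∈ ZC ℤ Z 1, z - φ z • μ ∈ BC ℤ Z 1 := by
  obtain ⟨x₀, -, ρ, hρ, hd⟩ := h0.2.2 ℤ X Z hZ
  choose f hf hu using H
  simp only at hf hu
  let φ₀ : ZC ℤ Z 1 →+ ℤ := AddMonoidHom.mk' (fun z => f z.1 z.2) fun a b => by
    refine (hu _ (a + b).2 _ ?_).symm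
    have := add_mem (hf a.1 a.2) (hf b.1 b.2)
    rwa [show a.1 - f a.1 a.2 • μ + (b.1 - f b.1 b.2 • μ) =
      (a + b).1 - (f a.1 a.2 + f b.1 b.2) • μ by
        rw [add_smul, Submodule.coe_add]; abel] at this
  let T : Module.End ℤ (Tot ℤ X) := (1 - ρ * dT ℤ X) * deg ℤ X 1 * prj ℤ Z
  have hT : ∀ c, T c = deg ℤ X 1 (prj ℤ Z c) - ρ (dT ℤ X (deg ℤ X 1 (prj ℤ Z c))) := fun c => rfl
  have hTm : ∀ c, T c ∈ ZC ℤ Z 1 := by
    intro c
    have h1 : deg ℤ X 1 (prj ℤ Z c) ∈ CC ℤ Z 1 := ⟨deg_mem_CH 1 (prj_mem Z c), deg_mem 1 _⟩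
    rw [hT]
    refine mem_ZC.2 ⟨sub_mem h1.1 (hρ _).1, sub_mem h1.2 (hρ _).2, ?_⟩
    rw [map_sub, hd _ ⟨dT_mem_CH h1.1, dT_mem_DG h1.2⟩, h0.2.1, zero_smul, sub_zero, sub_self]
  let φ : Tot ℤ X →ₗ[ℤ] ℤ := φ₀.toIntLinearMap ∘ₗ T.codRestrict _ hTm
  have hφ : ∀ c, φ c = f (T c) (hTm c) := fun c => rfl
  have hTz : ∀ z ∈ ZC ℤ Z 1, T z = z := by
    intro z hz
    obtain ⟨z1, z2, z3⟩ := mem_ZC.1 hz
    rw [hT, prj_of_mem z1, deg_of_mem z2, z3, map_zero, sub_zero]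
  have hφz : ∀ z ∈ ZC ℤ Z 1, z - φ z • μ ∈ BC ℤ Z 1 := by
    intro z hz
    have := hf (T z) (hTm z)
    rwa [← hφ, hTz z hz] at this
  refine ⟨φ, fun c hc => ?_, fun k hk c hc => ?_, ?_, hφz⟩
  · rw [hφ]
    refine (hu _ (hTm _) 0 ?_).symm
    rw [zero_smul, sub_zero, hT, prj_of_mem (dT_mem_CH hc), deg_dT, dT_dT, map_zero, sub_zero]
    exact mem_BC.2 ⟨_, deg_mem_CH _ hc, deg_mem _ _, rfl⟩
  · rw [hφ]
    refine (hu _ (hTm _) 0 ?_).symm
    rw [zero_smul, sub_zero, hT, deg_eq_zero hk.symm (prj_mem_DG Z hc), map_zero, map_zero,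
      sub_zero]
    exact zero_mem _
  · rw [hu _ hμ _ (hφz μ hμ)]
    refine (hu _ hμ 1 ?_).symm
    rw [one_smul, sub_self]
    exact zero_mem _

end

theorem XPA_main (B : Bas2) (hPt : XPtStmt) (hD : XDiscStmt) (hT : XThetaStmt) (h0 : XH0Stmt)
    (hG : XGlobStmt) (h2 : XMod2Stmt) (hR : XRotStmt) (hC : XClsStmt) : XPStmt := by
  intro κ K ι Γ
  obtain ⟨gc, g1, g2⟩ := hG κ K ι Γ
  obtain ⟨c1, c2⟩ := hC κ K ι Γ
  have hIc : Continuous Γ.I := Γ.I.continuous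
  have hD2 : (Γ.I ∘ Γ.δ) '' closedBall 0 1 = Γ.F ∩ Γ.h ⁻¹' Ici 0 := by
    rw [image_comp, Γ.δ0]
    ext x
    constructor
    · rintro ⟨y, ⟨hy, hy'⟩, rfl⟩
      refine ⟨(Γ.IF y).2 hy, ?_⟩
      rw [mem_preimage, Γ.hI]
      exact neg_nonneg.2 (show Γ.h y ≤ 0 from hy')
    · rintro ⟨hx, hx'⟩
      refine ⟨Γ.I x, ⟨(Γ.IF x).2 hx, ?_⟩, Γ.II x⟩
      rw [mem_preimage, Γ.hI]
      exact neg_nonpos.2 (show 0 ≤ Γ.h x from hx')
  have hU : Γ.δ '' closedBall 0 1 ∪ (Γ.I ∘ Γ.δ) '' closedBall 0 1 = Γ.F := by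
    rw [hD2, Γ.δ0, ← inter_union_distrib_left, ← preimage_union, Iic_union_Ici, preimage_univ,
      inter_univ]
  have hN : Γ.δ '' closedBall 0 1 ∩ (Γ.I ∘ Γ.δ) '' closedBall 0 1 = Γ.δ '' sphere 0 1 := by
    rw [hD2, Γ.δ0, Γ.δ1, ← inter_inter_distrib_left, ← preimage_inter, inter_comm (Iic _),
      Ici_inter_Iic, Icc_self]
  have hc2 : ContinuousOn (Γ.I ∘ Γ.δ) (closedBall 0 1) := hIc.comp_continuousOn Γ.δc
  have hloc : ∀ (R : Type) [CommRing R], XVan R Γ.F 3 ∧ XRk1 R Γ.F 2 := by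
    intro R _
    have hL := hPt R Γ.X Γ.o
    obtain ⟨d1, A₁, A₂, p, q, a1, a2, a3, a4, a5, a6, a7⟩ := hD R Γ.X Γ.o Γ.δ hL Γ.δc Γ.δi
    obtain ⟨d2, -⟩ := hD R Γ.X Γ.o (Γ.I ∘ Γ.δ) hL hc2 (Γ.I.injective.comp_injOn Γ.δi)
    have := hT R Γ.X Γ.o _ _ A₁ A₂ p q hL d1 d2 a1 a2 a3 a4 a5 a6 (hN.trans a7.symm)
    rwa [hU] at this
  have hFc : IsPreconnected Γ.F := by
    obtain ⟨u, hu⟩ : (sphere (0 : E 2) 1).Nonempty := NormedSpace.sphere_nonempty.2 zero_le_one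
    have hm : Γ.δ u ∈ Γ.δ '' closedBall 0 1 ∩ (Γ.I ∘ Γ.δ) '' closedBall 0 1 :=
      hN ▸ mem_image_of_mem _ hu
    rw [← hU]
    exact IsPreconnected.union _ hm.1 hm.2
      ((convex_closedBall _ _).isPreconnected.image _ Γ.δc)
      ((convex_closedBall _ _).isPreconnected.image _ hc2)
  have conn := XPA_conn B h0 Γ.flat gc
  obtain ⟨g, hg, hgr, H⟩ := XPA_h1 (F := Γ.F) g1 (fun z hz => by
    obtain ⟨n, hn⟩ := g2 z hz
    obtain ⟨b, -, -, e⟩ := mem_BC.1 hn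
    refine mem_XTriv.2 ⟨b, ?_⟩
    rw [e, sub_sub_cancel]
    exact Submodule.sum_mem _ fun i _ => Submodule.smul_mem _ _ (mem_ZC.1 (c1 i)).1) (hloc ℤ).2
  have hμ : dT ℤ Γ.X g ∈ ZC ℤ Γ.Fᶜ 1 := mem_ZC.2 ⟨hgr, dT_mem_DG hg, dT_dT g⟩
  obtain ⟨φ, p1, p2, p3, p4⟩ := XPA_phi h0 conn hμ H
  let e : Fin (2 * Γ.k) ≃ Fin Γ.k ⊕ Fin Γ.k :=
    (finCongr (two_mul Γ.k)).trans finSumFinEquiv.symm
  refine ⟨φ, conn, p1, p2, ⟨_, hμ, p3, p4⟩, hR Γ.X Γ.F φ Γ.flat hFc p1 ⟨g, hg, hgr, p3⟩, ?_,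
    fun i => XS Γ (e i), fun i => c1 _, fun τ hτ i j => ?_⟩
  · exact XPA_dep (by simp [two_mul]) (fun i => castZ (ZMod 2) Γ.X (XS Γ i))
      (fun i => ⟨cast_mem_CH _ (mem_ZC.1 (c1 i)).1, cast_mem_DG _ (mem_ZC.1 (c1 i)).2.1⟩)
      (hloc (ZMod 2)).1 (h2 Γ.X _ (XS Γ) g1 g2)
  · rw [c2 τ hτ]
    exact if_congr e.injective.eq_iff rfl rfl

end Pool.Agent.MP_bc14e1_gt

end

section

open Set Metric
open scoped Classical

namespace Pool.Agent.MP_bc14e1_gt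

theorem XPBox_norm {t : ℝ} (ht : t ∈ Icc (0 : ℝ) 1) {u : ℂ} (hu : u ≠ 0) (w : ℂ) :
    ‖((1 - t) + t * (‖w‖ * ‖u‖⁻¹)) • u‖ = (1 - t) * ‖u‖ + t * ‖w‖ := by
  have : 0 ≤ (1 - t) + t * (‖w‖ * ‖u‖⁻¹) :=
    add_nonneg (sub_nonneg.2 ht.2) (mul_nonneg ht.1 (by positivity))
  rw [norm_smul, Real.norm_of_nonneg this, add_mul, mul_assoc, mul_assoc,
    inv_mul_cancel₀ (norm_ne_zero_iff.2 hu), mul_one]

theorem XPBox_unit {u : ℂ} (hu : u ≠ 0) (w : ℂ) : ‖‖u‖⁻¹ • (u * w)‖ = ‖w‖ := by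
  rw [norm_smul, norm_mul, norm_inv, norm_norm, ← mul_assoc,
    inv_mul_cancel₀ (norm_ne_zero_iff.2 hu), one_mul]

theorem xbox_stmt (B : Bas2) (hC : XCircStmt) : XBoxStmt := by
  intro X _ F e V T z w hF hV hT hVT hz hw hw0
  obtain ⟨κ⟩ := B.kit
  set A : Set X := e.symm '' (V ×ˢ T) \ F with hAdef
  have hA : ∀ x ∈ A, x ∈ e.source ∧ (e x).1 ∈ V ∧ (e x).2 ∈ T ∧ (e x).2 ≠ 0 := by
    rintro _ ⟨⟨v, hv, rfl⟩, h⟩
    have hs := e.map_target (hVT hv)
    refine ⟨hs, ?_, ?_, fun h' => h ((hF _ hs).2 h')⟩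
    · rw [e.right_inv (hVT hv)]; exact hv.1
    · rw [e.right_inv (hVT hv)]; exact hv.2
  have hoff : ∀ a ∈ V, ∀ u ∈ T, u ≠ 0 → e.symm (a, u) ∈ A := fun a ha u hu hu0 =>
    ⟨⟨(a, u), ⟨ha, hu⟩, rfl⟩, fun h => hu0 (by
      have := (hF _ (e.map_target (hVT (show (a, u) ∈ V ×ˢ T from ⟨ha, hu⟩)))).1 h
      rwa [e.right_inv (hVT ⟨ha, hu⟩)] at this)⟩
  have hrad : ∀ t ∈ Icc (0 : ℝ) 1, ∀ u ∈ T, u ≠ 0 →
      ((1 - t) + t * (‖w‖ * ‖u‖⁻¹)) • u ∈ T ∧ ((1 - t) + t * (‖w‖ * ‖u‖⁻¹)) • u ≠ 0 := by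
    intro t ht u hu hu0
    have a := XPBox_norm ht hu0 w
    have b := norm_pos_iff.2 hu0
    have c := norm_pos_iff.2 hw0
    constructor
    · rcases le_total ‖u‖ ‖w‖ with h | h
      · exact hT w hw _ (by rw [a]; nlinarith [ht.1, ht.2])
      · exact hT u hu _ (by rw [a]; nlinarith [ht.1, ht.2])
    · rw [← norm_pos_iff, a]
      rcases le_total ‖u‖ ‖w‖ with h | h <;> nlinarith [ht.1, ht.2]
  have hun : ∀ u : ℂ, u ≠ 0 → ‖u‖⁻¹ • (u * w) ∈ T ∧ ‖u‖⁻¹ • (u * w) ≠ 0 := fun u hu =>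
    ⟨hT w hw _ (XPBox_unit hu w).le, by rwa [← norm_ne_zero_iff, XPBox_unit hu, norm_ne_zero_iff]⟩
  let g : ℂ → X := fun u => e.symm (z, ‖u‖⁻¹ • (u * w))
  have hgm : MapsTo g {0}ᶜ A := fun u hu => hoff z hz _ (hun u hu).1 (hun u hu).2
  have hgc : ContinuousOn g {0}ᶜ :=
    e.continuousOn_symm.comp (continuousOn_const.prodMk
      ((continuous_norm.continuousOn.inv₀ fun u hu => norm_ne_zero_iff.2 hu).smul
        (continuous_id.mul continuous_const).continuousOn))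
      fun u hu => hVT ⟨hz, (hun u hu).1⟩
  have hL : pth ℤ XLoop ∈ CH ℤ ({0}ᶜ : Set ℂ) :=
    CH_mono (fun u hu h => by
      rw [mem_singleton_iff.1 h, mem_sphere_zero_iff_norm, norm_zero] at hu
      exact zero_ne_one hu) XLoop_mem_CH
  have hM : XMer e z w = psh ℤ g (pth ℤ XLoop) :=
    psh_congr (fun u hu => by
      change e.symm _ = e.symm _
      rw [mem_sphere_zero_iff_norm.1 hu, inv_one, one_smul]) XLoop_mem_CH
  have hMd : XMer e z w ∈ DG ℤ X 1 := psh_mem_DG _ (pth_mem_DG _)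
  refine ⟨mem_ZC.2 ⟨hM ▸ psh_mem_CH g hgm hL, hMd, by
    rw [hM, dT_psh hgc hL, dT_XLoop, map_zero]⟩, fun c hc => ?_⟩
  obtain ⟨c1, c2, c3⟩ := mem_ZC.1 hc
  let q : X → ℂ := fun x => (e x).2 / w
  have hec : ContinuousOn e A := e.continuousOn.mono fun x hx => (hA x hx).1
  have hqc : ContinuousOn q A := hec.snd.div_const w
  have hqm : MapsTo q A {0}ᶜ := fun x hx => div_ne_zero (hA x hx).2.2.2 hw0
  let H : ℝ × X → X := fun y => e.symm ((1 - y.1) • (e y.2).1 + y.1 • z,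
    ((1 - y.1) + y.1 * (‖w‖ * ‖(e y.2).2‖⁻¹)) • (e y.2).2)
  have hV' : ∀ y ∈ Icc (0 : ℝ) 1 ×ˢ A, (1 - y.1) • (e y.2).1 + y.1 • z ∈ V := fun y hy =>
    hV (hA _ hy.2).2.1 hz (sub_nonneg.2 hy.1.2) hy.1.1 (sub_add_cancel _ _)
  have hHm : MapsTo H (Icc 0 1 ×ˢ A) A := fun y hy =>
    hoff _ (hV' y hy) _ (hrad _ hy.1 _ (hA _ hy.2).2.2.1 (hA _ hy.2).2.2.2).1
      (hrad _ hy.1 _ (hA _ hy.2).2.2.1 (hA _ hy.2).2.2.2).2
  have hHc : ContinuousOn H (Icc 0 1 ×ˢ A) := by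
    have h1 : ContinuousOn (fun y : ℝ × X => e y.2) (Icc 0 1 ×ˢ A) :=
      hec.comp continuous_snd.continuousOn fun y hy => hy.2
    have h2 : ContinuousOn (fun y : ℝ × X => 1 - y.1) (Icc 0 1 ×ˢ A) :=
      (continuous_const.sub continuous_fst).continuousOn
    exact e.continuousOn_symm.comp
      (((h2.smul h1.fst).add (continuous_fst.smul continuous_const).continuousOn).prodMk
        ((h2.add (continuous_fst.continuousOn.mul (continuousOn_const.mul (h1.snd.norm.inv₀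
          fun y hy => norm_ne_zero_iff.2 (hA _ hy.2).2.2.2)))).smul h1.snd))
      fun y hy => hVT ⟨hV' y hy, (hrad _ hy.1 _ (hA _ hy.2).2.2.1 (hA _ hy.2).2.2.2).1⟩
  have h0 : ∀ x ∈ A, H (0, x) = x := fun x hx => by
    change e.symm _ = x
    simp only [sub_zero, one_smul, zero_smul, add_zero, zero_mul]
    exact e.left_inv (hA x hx).1
  have h1 : EqOn (fun x => H (1, x)) (g ∘ q) A := fun x hx => by
    change e.symm _ = e.symm (z, ‖(e x).2 / w‖⁻¹ • ((e x).2 / w * w))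
    rw [div_mul_cancel₀ _ hw0, norm_div, inv_div, div_eq_mul_inv]
    simp only [sub_self, zero_smul, one_smul, zero_add, one_mul]
  have e1 := dT_hop κ hHc c1
  rw [c3, map_zero, add_zero, psh_of_eqOn_id h0 c1, psh_congr h1 c1, ← psh_psh g hqc c1] at e1
  obtain ⟨n, hn⟩ := hC (psh ℤ q c) (mem_ZC.2 ⟨psh_mem_CH q hqm c1, psh_mem_DG q c2, by
    rw [dT_psh hqc c1, c3, map_zero]⟩)
  obtain ⟨b, hb, -, e2⟩ := mem_BC.1 hn
  refine ⟨n, mem_BC_of_dT (sub_mem c2 (Submodule.smul_mem _ _ hMd))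
    (b := psh ℤ g b - hop κ ℤ H c)
    (CH_mono (fun x hx => hx.2) (sub_mem (psh_mem_CH g hgm hb) (hop_mem_CH κ H hHm c1))) ?_⟩
  rw [map_sub, e1, dT_psh hgc hb, e2, map_sub, map_smul, ← hM]
  abel

end Pool.Agent.MP_bc14e1_gt

end

section

open Set Metric
open scoped Classical

namespace Pool.Agent.MP_bc14e1_gt

theorem XPCirc_ne : (2 * Real.pi * Complex.I : ℂ) ≠ 0 := Complex.two_pi_I_ne_zero

theorem XPCirc_cov [MulAction (Multiplicative ℤ) ℂ]
    (hs : ∀ (g : Multiplicative ℤ) (y : ℂ), g • y = y + (Multiplicative.toAdd g : ℤ)) :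
    GCov (Multiplicative ℤ) ({0}ᶜ : Set ℂ)
      (fun y : ℂ => Complex.exp (2 * Real.pi * Complex.I * y)) where
  cont := by fun_prop
  inv g y := by
    rw [hs, Complex.exp_eq_exp_iff_exists_int]
    exact ⟨Multiplicative.toAdd g, by ring⟩
  mem y := Complex.exp_ne_zero _
  free g y h := by
    rw [hs, add_eq_left, Int.cast_eq_zero] at h
    exact toAdd_eq_zero.1 h
  trans y y' h := by
    obtain ⟨n, hn⟩ := Complex.exp_eq_exp_iff_exists_int.1 h.symm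
    refine ⟨Multiplicative.ofAdd n, ?_⟩
    rw [hs, toAdd_ofAdd]
    apply mul_left_cancel₀ XPCirc_ne
    rw [hn]; ring
  sec x hx := by
    have hx0 : x ≠ 0 := hx
    refine ⟨{u | u / x ∈ Complex.slitPlane}, Complex.isOpen_slitPlane.preimage (by fun_prop),
      by simp [hx0], fun u hu h => ?_,
      fun u => (Complex.log (u / x) + Complex.log x) / (2 * Real.pi * Complex.I), ?_, ?_, ?_⟩
    · rw [mem_singleton_iff] at h
      subst h
      simp at hu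
    · refine ContinuousOn.div_const (ContinuousOn.add ?_ continuousOn_const) _
      exact ContinuousOn.clog (by fun_prop) fun u hu => hu
    · intro u hu
      have hu0 : u / x ≠ 0 := Complex.slitPlane_ne_zero hu
      rw [mul_div_cancel₀ _ XPCirc_ne, Complex.exp_add, Complex.exp_log hu0, Complex.exp_log hx0,
        div_mul_cancel₀ _ hx0]
    · have : (fun u => (Complex.log (u / x) + Complex.log x) / (2 * Real.pi * Complex.I)) ''
          {u | u / x ∈ Complex.slitPlane} =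
          (fun y : ℂ => (2 * Real.pi * Complex.I * y - Complex.log x).im) ⁻¹'
            Ioo (-Real.pi) Real.pi := by
        ext y
        constructor
        · rintro ⟨u, hu, rfl⟩
          simp only [mem_preimage]
          rw [mul_div_cancel₀ _ XPCirc_ne, add_sub_cancel_right, Complex.log_im]
          exact ⟨Complex.neg_pi_lt_arg _,
            lt_of_le_of_ne (Complex.arg_le_pi _) (Complex.slitPlane_arg_ne_pi hu)⟩
        · intro hy
          have he : Complex.exp (2 * Real.pi * Complex.I * y) / x =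
              Complex.exp (2 * Real.pi * Complex.I * y - Complex.log x) := by
            rw [Complex.exp_sub, Complex.exp_log hx0]
          have hl : Complex.log (Complex.exp (2 * Real.pi * Complex.I * y - Complex.log x)) =
              2 * Real.pi * Complex.I * y - Complex.log x := Complex.log_exp hy.1 hy.2.le
          refine ⟨Complex.exp (2 * Real.pi * Complex.I * y), ?_, ?_⟩
          · change Complex.exp (2 * Real.pi * Complex.I * y) / x ∈ Complex.slitPlane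
            rw [he, Complex.mem_slitPlane_iff_arg]
            refine ⟨?_, Complex.exp_ne_zero _⟩
            rw [← Complex.log_im, hl]
            exact hy.2.ne
          · change (Complex.log (Complex.exp (2 * Real.pi * Complex.I * y) / x) + Complex.log x) /
              (2 * Real.pi * Complex.I) = y
            rw [he, hl, sub_add_cancel, mul_div_cancel_left₀ _ XPCirc_ne]
      rw [this]
      exact isOpen_Ioo.preimage (by fun_prop)

theorem XPCirc_ctr : Ctr (univ : Set ℂ) 0 :=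
  ⟨trivial, fun q => ((1 - q.1 : ℝ) : ℂ) * q.2, by fun_prop, fun _ _ => trivial,
    fun y _ => by simp, fun y _ => by simp⟩

theorem XPCirc_main (B : Bas2) [MulAction (Multiplicative ℤ) ℂ]
    [ContinuousConstSMul (Multiplicative ℤ) ℂ]
    (hs : ∀ (g : Multiplicative ℤ) (y : ℂ), g • y = y + (Multiplicative.toAdd g : ℤ)) :
    XCircStmt := by
  intro c hc
  obtain ⟨hc1, hc2, hc3⟩ := mem_ZC.1 hc
  have hG := XPCirc_cov hs
  set p : ℂ → ℂ := fun y : ℂ => Complex.exp (2 * Real.pi * Complex.I * y) with hp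
  obtain ⟨h1, h2⟩ := B.lift ℤ (Multiplicative ℤ) ℂ ℂ _ p hG
  obtain ⟨k1, k2⟩ := B.ctr ℤ ℂ univ 0 XPCirc_ctr
  obtain ⟨c2, hd2, rfl⟩ := h1 1 c (Submodule.mem_inf.2 ⟨hc1, hc2⟩)
  rw [dT_psh_cont hG.cont] at hc3
  obtain ⟨v, hv, hv2⟩ := h2 (Multiplicative.ofAdd 1)
    (fun g => ⟨Multiplicative.toAdd g, by
      rw [← ofAdd_zsmul, smul_eq_mul, mul_one, ofAdd_toAdd]⟩) 0 _ (dT_mem_DG hd2) hc3
  obtain ⟨u, -, hu, hu2⟩ := mem_BC.1 (k2 v (Submodule.mem_inf.2 ⟨mem_CH_univ v, hv⟩))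
  set n : ℤ := val0 ℤ (fun _ => (1 : ℤ)) v
  set t : Multiplicative ℤ := Multiplicative.ofAdd 1
  let L : C(unitInterval, ℂ) := ⟨fun θ => ((θ : ℝ) : ℂ), by fun_prop⟩
  have hL : dT ℤ ℂ (pth ℤ L) = gs ℤ ℂ t (pt ℤ 0) - pt ℤ 0 := by
    rw [dT_pth, gs, psh_pt, hs]
    simp [L, t]
  have hz : c2 - n • pth ℤ L - (gs ℤ ℂ t u - u) ∈ ZC ℤ (univ : Set ℂ) 1 := by
    refine mem_ZC.2 ⟨mem_CH_univ _, sub_mem (sub_mem hd2 (Submodule.smul_mem _ _ (pth_mem_DG _)))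
      (sub_mem (gs_mem_DG _ hu) hu), ?_⟩
    rw [map_sub, map_sub, map_sub, map_smul, dT_gs, hu2, hv2, hL, map_sub, map_smul, smul_sub]
    abel
  obtain ⟨b, -, hb, hb2⟩ := mem_BC.1 (k1 1 one_ne_zero hz)
  refine ⟨n, mem_BC.2 ⟨psh ℤ p b, psh_mem_CH p (fun y _ => hG.mem y) (mem_CH_univ b),
    psh_mem_DG p hb, ?_⟩⟩
  have e1 : psh ℤ p (gs ℤ ℂ t u) = psh ℤ p u := by
    rw [gs, psh_psh' _ (continuous_const_smul t)]
    exact psh_congr (fun y _ => hG.inv t y) (mem_CH_univ u)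
  have e2 : psh ℤ p (pth ℤ L) = pth ℤ XLoop := psh_pth p L (hG.cont.comp L.continuous)
  rw [dT_psh_cont hG.cont, hb2, map_sub, map_sub, map_sub, map_smul, e1, e2, sub_self, sub_zero]

theorem xcirc_stmt (B : Bas2) : XCircStmt := by
  letI : MulAction (Multiplicative ℤ) ℂ :=
    { smul := fun g y => y + (Multiplicative.toAdd g : ℤ)
      one_smul := fun y => by
        change y + ((0 : ℤ) : ℂ) = y
        simp
      mul_smul := fun g h y => by
        change y + ((Multiplicative.toAdd g + Multiplicative.toAdd h : ℤ) : ℂ) =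
          y + ((Multiplicative.toAdd h : ℤ) : ℂ) + ((Multiplicative.toAdd g : ℤ) : ℂ)
        push_cast
        ring }
  haveI : ContinuousConstSMul (Multiplicative ℤ) ℂ :=
    ⟨fun g => continuous_id.add continuous_const⟩
  exact XPCirc_main B fun _ _ => rfl

end Pool.Agent.MP_bc14e1_gt

end

section

open Set Metric
open scoped Classical

namespace Pool.Agent.MP_bc14e1_gt

theorem XPCls_disj (κ : Kit) {X Y : Type} [TopologicalSpace X] [TopologicalSpace Y]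
    {o : Orientation4 X} {q : Y → X} {τ : TS (Y × Y) → ℝ} (hτ : IsThom o q τ) {A B : Set Y}
    (hAB : Disjoint A B) {u v : Tot ℂ Y} (hu : u ∈ CH ℂ A) (hv : v ∈ CH ℂ B) :
    beta κ τ u v = 0 := by
  have h := κ.mem ℂ Y Y A B _ (sgn_mem_CH sgc hu) _ (cast_mem_CH (starRingEnd ℂ) hv)
  change coevC τ (κ.cx ℂ Y Y (sgn ℂ Y sgc u) (cjT Y v)) = 0
  refine supported_ind (P := fun c => coevC τ c = 0) (map_zero _)
    (fun a b ha hb => by rw [map_add, ha, hb, add_zero]) (fun σ hσ a => ?_) h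
  have h0 : τ σ = 0 := hτ.off σ fun t e => by
    have := hσ ⟨t, rfl⟩
    exact Set.disjoint_left.1 hAB this.1 (e ▸ this.2)
  rw [coevC, Finsupp.linearCombination_single, h0, Complex.ofReal_zero, smul_zero]

theorem XPCls_loc {X : Type} [TopologicalSpace X] (o : Orientation4 X) (I : X ≃ₜ X)
    (II : ∀ x, I (I x) = x) (Io : OriPres o I) (y : X) (c : Tot ℝ X) (r : ℝ)
    (h : LocDeg o (id ∘ I) y c r) : LocDeg o id y c r := by
  obtain ⟨U, hU, hy, -, hc, hd, hb⟩ := h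
  refine ⟨U, hU, hy, injOn_id U, hc, hd, ?_⟩
  have h1 : psh ℝ I c - r • castZ ℝ X (inc ℤ 4 (o.o (I y))) ∈ XTriv ℝ {I y} := mem_XTriv.2 hb
  have hm : MapsTo I ({I y}ᶜ : Set X) ({y}ᶜ : Set X) := fun x hx e => hx (by
    rw [mem_singleton_iff] at e ⊢
    rw [← e, II])
  have h2 := psh_mem_XTriv I.continuous hm h1
  have h3 := cast_mem_XTriv (Int.castRingHom ℝ) ((null_iff_XTriv _).1 (Io (I y)))
  rw [II, map_sub, map_sub, ← psh_inc, cast_psh] at h3
  rw [map_sub, map_smul, psh_psh' _ I.continuous,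
    psh_of_eqOn_id (f := I ∘ I) (A := univ) (fun x _ => II x) (mem_CH_univ c)] at h2
  apply mem_XTriv.1
  have h4 := add_mem h2 (Submodule.smul_mem _ r h3)
  rw [smul_sub] at h4
  rw [psh_id]
  exact (sub_add_sub_cancel c _ _).subst (motive := fun z => z ∈ XTriv ℝ {y}) h4

theorem XPCls_inv (B : Bas2) (κ : Kit) {X : Type} [TopologicalSpace X] [T2Space X]
    [ChartedSpace (E 4) X] (o : Orientation4 X) (I : X ≃ₜ X) (II : ∀ x, I (I x) = x)
    (Io : OriPres o I) {τ : TS (X × X) → ℝ} (hτ : IsThom o id τ) {u v : Tot ℂ X}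
    (hu : u ∈ ZC ℂ univ 2) (hv : v ∈ ZC ℂ univ 2) :
    beta κ τ (psh ℂ I u) (psh ℂ I v) = beta κ τ u v := by
  letI : MulAction Unit X :=
    { smul := fun _ y => y, one_smul := fun _ => rfl, mul_smul := fun _ _ _ => rfl }
  haveI : ContinuousConstSMul Unit X := ⟨fun _ => continuous_id⟩
  have := B.comp κ X X Unit X X o o id id I τ τ (Homeomorph.refl X).isLocalHomeomorph
    (Homeomorph.refl X).isLocalHomeomorph I.isLocalHomeomorph (fun _ _ => rfl)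
    (XPCls_loc o I II Io) (fun _ _ _ => rfl)
    (fun y y' => ⟨fun e => ⟨(), (I.injective e).symm⟩, fun ⟨_, e⟩ => by rw [e]; rfl⟩)
    (fun _ _ _ _ => toFinite _) hτ hτ u hu v hv
  rw [← this, finsum_unique, show (default : Unit) = 1 from rfl, gs_one]

theorem xcls_stmt (B : Bas2) : XClsStmt := by
  intro κ K ι Γ
  have hS := fun i => mem_ZC.1 (Γ.Sm i)
  have hI : ∀ i, psh ℤ Γ.I (Γ.S i) ∈ CH ℤ (Γ.Fᶜ ∩ Γ.h ⁻¹' Ioi 0) := fun i =>
    psh_mem_CH _ (fun x hx => mem_inter (fun e => hx.1 ((Γ.IF x).1 e)) (by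
      have : Γ.h x < 0 := hx.2
      change 0 < Γ.h (Γ.I x)
      rw [Γ.hI]; linarith)) (hS i).1
  have hd : Disjoint (Γ.Fᶜ ∩ Γ.h ⁻¹' Iio 0) (Γ.Fᶜ ∩ Γ.h ⁻¹' Ioi 0) :=
    Set.disjoint_left.2 fun x h1 h2 => lt_asymm (show Γ.h x < 0 from h1.2) h2.2
  refine ⟨?_, fun τ hτ => ?_⟩
  · rintro (i | i)
    · exact mem_ZC.2 ⟨CH_mono inter_subset_left (hS i).1, (hS i).2⟩
    · refine mem_ZC.2 ⟨CH_mono inter_subset_left (hI i), psh_mem_DG _ (hS i).2.1, ?_⟩
      change dT ℤ _ (psh ℤ Γ.I (Γ.S i)) = 0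
      rw [dT_psh_cont Γ.I.continuous, (hS i).2.2, map_zero]
  · have hz : ∀ i, castZ ℂ Γ.X (Γ.S i) ∈ ZC ℂ (univ : Set Γ.X) 2 := fun i =>
      mem_ZC.2 ⟨mem_CH_univ _, cast_mem_DG _ (hS i).2.1, by
        rw [← cast_dT, (hS i).2.2, map_zero]⟩
    rintro (i | i) (j | j)
    · simpa [XS] using Γ.num τ hτ i j
    · rw [if_neg (by simp)]
      exact XPCls_disj κ hτ hd (cast_mem_CH _ (hS i).1) (cast_mem_CH _ (hI j))
    · rw [if_neg (by simp)]
      exact XPCls_disj κ hτ hd.symm (cast_mem_CH _ (hI i)) (cast_mem_CH _ (hS j).1)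
    · change beta κ τ (castZ ℂ Γ.X (psh ℤ Γ.I (Γ.S i))) (castZ ℂ Γ.X (psh ℤ Γ.I (Γ.S j))) = _
      rw [cast_psh, cast_psh, XPCls_inv B κ Γ.o Γ.I Γ.II Γ.Io hτ (hz i) (hz j), Γ.num τ hτ]
      simp

end Pool.Agent.MP_bc14e1_gt

end

section

open Set Metric
open scoped Classical

namespace Pool.Agent.MP_bc14e1_gt

/-- The degree at a point is the degree at the nearby points. -/
theorem XPConn_loc {R : Type} [CommRing R] {X : Type} [TopologicalSpace X] [T2Space X]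
    (o : Orientation4 X) {c : Tot R X} {x : X} {r : R} (h : c - r • XO R o x ∈ XTriv R {x}) :
    ∀ᶠ y in nhds x, c - r • XO R o y ∈ XTriv R {y} := by
  obtain ⟨U, hU, w, hw⟩ := exists_XCl_nhds (R := R) o x
  have h1 : c - r • w ∈ XTriv R {x} := by
    have := sub_mem h (Submodule.smul_mem _ r (hw.2.2 x (mem_of_mem_nhds hU)))
    rwa [smul_sub, sub_sub_sub_cancel_right] at this
  obtain ⟨V, hV, hxV, h2⟩ := exists_open_XTriv h1
  filter_upwards [hU, hV.mem_nhds (hxV rfl)] with y hyU hyV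
  have := add_mem (XTriv_anti (singleton_subset_iff.2 hyV) h2)
    (Submodule.smul_mem _ r (hw.2.2 y hyU))
  rwa [smul_sub, sub_add_sub_cancel] at this

theorem xconn_stmt : XConnStmt := by
  intro R _ X _ _ o hL
  refine ⟨fun A w hw => ?_, fun A w hA hI hw y hy hr => ?_⟩
  · obtain ⟨U, hU, hAU, h⟩ := exists_open_XRel hw.2.1
    refine ⟨U ∩ interior {x | w - XO R o x ∈ XTriv R {x}}, hU.inter isOpen_interior,
      fun x hx => ⟨hAU hx, mem_interior_iff_mem_nhds.2 ?_⟩, hw.1,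
      XRel_anti inter_subset_left h, fun x hx =>
        interior_subset (s := {x | w - XO R o x ∈ XTriv R {x}}) hx.2⟩
    have := XPConn_loc o (c := w) (x := x) (r := (1 : R)) (by rw [one_smul]; exact hw.2.2 x hx)
    simp only [one_smul] at this
    exact this
  · rcases A.eq_empty_or_nonempty with rfl | ⟨p, hp⟩
    · exact ⟨0, mem_XTriv_empty _⟩
    have hx : ∀ x ∈ A, ∃! r : R, y - r • XO R o x ∈ XTriv R {x} := fun x hx =>
      hL.gen x y hy (XRel_anti (singleton_subset_iff.2 hx) hr)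
    obtain ⟨r, hr0⟩ := (hx p hp).exists
    have key : ∀ x ∈ A, y - r • XO R o x ∈ XTriv R {x} := by
      intro x hxA
      refine hA.induction₂' (fun a b => y - r • XO R o a ∈ XTriv R {a} → y - r • XO R o b ∈
        XTriv R {b}) (fun a ha => ?_) (fun a b c _ _ _ h1 h2 h => h2 (h1 h)) hp hxA hr0
      obtain ⟨s, hs⟩ := (hx a ha).exists
      filter_upwards [nhdsWithin_le_nhds (XPConn_loc o hs), self_mem_nhdsWithin] with b hb hbA
      refine ⟨fun h => ?_, fun h => ?_⟩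
      · rwa [(hx a ha).unique h hs]
      · rwa [(hx b hbA).unique h hb]
    refine ⟨r, hI _ (sub_mem hy (Submodule.smul_mem _ _ hw.1))
      (sub_mem hr (Submodule.smul_mem _ _ hw.2.1)) fun x hx => ?_⟩
    have := sub_mem (key x hx) (Submodule.smul_mem _ r (hw.2.2 x hx))
    rwa [smul_sub, sub_sub_sub_cancel_right] at this

end Pool.Agent.MP_bc14e1_gt

end

section

open Set Metric
open scoped Classical

namespace Pool.Agent.MP_bc14e1_gt

theorem XPDisc_sphere (x : E 2) : x ∈ sphere (0 : E 2) 1 ↔ x 0 ^ 2 + x 1 ^ 2 = 1 := by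
  rw [EuclideanSpace.sphere_zero_eq 1 zero_le_one, mem_ofPred_eq, Fin.sum_univ_two, one_pow]

theorem XPDisc_ext {x y : E 2} (h0 : x 0 = y 0) (h1 : x 1 = y 1) : x = y := by
  ext i
  fin_cases i
  · exact h0
  · exact h1

theorem XPDisc_cont (i : Fin 2) : Continuous fun x : E 2 => x i := by fun_prop

/-- Sets that are mapped injectively to the line. -/
theorem XPDisc_line (hS : XSlabStmt) {R : Type} [CommRing R] {X : Type} [TopologicalSpace X]
    [T2Space X] {o : Orientation4 X} {δ : E 2 → X} (hL : XLoc R o)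
    (hc : ContinuousOn δ (closedBall 0 1)) (hi : InjOn δ (closedBall 0 1)) {K : Set (E 2)}
    (hK : IsCompact K) (hs : K ⊆ closedBall 0 1) (i : Fin 2) (hl : InjOn (fun x : E 2 => x i) K) :
    XGd R o (δ '' K) := by
  refine hS R X (E 2) o K δ (fun x => x i) hL hK (hc.mono hs) (hi.mono hs) (XPDisc_cont i)
    fun t => ?_
  have h : (δ '' (K ∩ (fun x : E 2 => x i) ⁻¹' {t})).Subsingleton :=
    Set.Subsingleton.image (fun x hx y hy => hl hx.1 hy.1 (hx.2.trans hy.2.symm)) δ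
  exact ⟨hL.gd_of_subsingleton h, h.isPreconnected⟩

/-- The half circles. -/
def XPDisc_H (e : ℝ) : Set (E 2) := sphere 0 1 ∩ {x | 0 ≤ e * x 1}

theorem XPDisc_H_eq {e : ℝ} (he : e ^ 2 = 1) :
    XPDisc_H e = (fun t : ℝ => (!₂[t, e * √(1 - t ^ 2)] : E 2)) '' Icc (-1) 1 := by
  ext x
  rw [XPDisc_H, mem_inter_iff, XPDisc_sphere, mem_ofPred_eq]
  constructor
  · rintro ⟨h1, h2⟩
    refine ⟨x 0, abs_le.1 ((sq_le_one_iff_abs_le_one _).1 (by nlinarith [sq_nonneg (x 1)])),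
      XPDisc_ext rfl ?_⟩
    have h3 : 1 - x 0 ^ 2 = (e * x 1) ^ 2 := by
      rw [mul_pow, he]
      linarith
    change e * √(1 - x 0 ^ 2) = x 1
    rw [h3, Real.sqrt_sq h2, ← mul_assoc, ← sq, he, one_mul]
  · rintro ⟨t, ht, rfl⟩
    have h3 : 0 ≤ 1 - t ^ 2 := sub_nonneg.2 ((sq_le_one_iff_abs_le_one _).2 (abs_le.2 ht))
    change t ^ 2 + (e * √(1 - t ^ 2)) ^ 2 = 1 ∧ 0 ≤ e * (e * √(1 - t ^ 2))
    rw [mul_pow, he, Real.sq_sqrt h3, ← mul_assoc, ← sq, he, one_mul, one_mul]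
    exact ⟨by ring, Real.sqrt_nonneg _⟩

theorem XPDisc_H_sub (e : ℝ) : XPDisc_H e ⊆ closedBall 0 1 :=
  inter_subset_left.trans sphere_subset_closedBall

theorem XPDisc_arc (hS : XSlabStmt) {R : Type} [CommRing R] {X : Type} [TopologicalSpace X]
    [T2Space X] {o : Orientation4 X} {δ : E 2 → X} (hL : XLoc R o)
    (hc : ContinuousOn δ (closedBall 0 1)) (hi : InjOn δ (closedBall 0 1)) {e : ℝ}
    (he : e ^ 2 = 1) : XGd R o (δ '' XPDisc_H e) ∧ IsPreconnected (δ '' XPDisc_H e) := by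
  have hg : Continuous fun t : ℝ => (!₂[t, e * √(1 - t ^ 2)] : E 2) := by
    refine (PiLp.continuous_toLp 2 _).comp (continuous_pi fun i => ?_)
    fin_cases i
    · exact continuous_id
    · exact (by fun_prop : Continuous fun t : ℝ => e * √(1 - t ^ 2))
  refine ⟨XPDisc_line hS hL hc hi ?_ (XPDisc_H_sub e) 0 ?_,
    IsPreconnected.image ?_ δ (hc.mono (XPDisc_H_sub e))⟩
  · rw [XPDisc_H_eq he]
    exact isCompact_Icc.image hg
  · rw [XPDisc_H_eq he]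
    rintro _ ⟨t, -, rfl⟩ _ ⟨s, -, rfl⟩ h
    obtain rfl : t = s := h
    rfl
  · rw [XPDisc_H_eq he]
    exact isPreconnected_Icc.image _ hg.continuousOn

theorem XPDisc_inter : XPDisc_H 1 ∩ XPDisc_H (-1) = {!₂[1, 0], !₂[-1, 0]} := by
  ext x
  simp only [XPDisc_H, mem_inter_iff, XPDisc_sphere, mem_ofPred_eq, mem_insert_iff,
    mem_singleton_iff]
  constructor
  · rintro ⟨⟨h1, h2⟩, -, h3⟩
    have h4 : x 1 = 0 := by linarith
    rw [h4, zero_pow two_ne_zero, add_zero, sq_eq_one_iff] at h1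
    exact h1.imp (fun h => XPDisc_ext h h4) fun h => XPDisc_ext h h4
  · rintro (rfl | rfl) <;> simp

theorem XPDisc_union : XPDisc_H 1 ∪ XPDisc_H (-1) = sphere 0 1 := by
  rw [XPDisc_H, XPDisc_H, ← inter_union_distrib_left]
  refine inter_eq_left.2 fun x _ => ?_
  rcases le_total 0 (x 1) with h | h
  · exact Or.inl (show 0 ≤ 1 * x 1 by linarith)
  · exact Or.inr (show 0 ≤ -1 * x 1 by linarith)

theorem xdisc_stmt (hS : XSlabStmt) : XDiscStmt := by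
  intro R _ X _ _ o δ hL hc hi
  constructor
  · refine hS R X (E 2) o _ δ (fun x => x 0) hL (isCompact_closedBall 0 1) hc hi (XPDisc_cont 0)
      fun t => ⟨XPDisc_line hS hL hc hi ((isCompact_closedBall 0 1).inter_right
        (isClosed_singleton.preimage (XPDisc_cont 0))) inter_subset_left 1
        fun x hx y hy h => XPDisc_ext (hx.2.trans hy.2.symm) h, ?_⟩
    refine IsPreconnected.image (Convex.isPreconnected ((convex_closedBall 0 1).inter ?_)) δ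
      (hc.mono inter_subset_left)
    exact (convex_singleton t).linear_preimage (EuclideanSpace.proj (𝕜 := ℝ) (0 : Fin 2)).toLinearMap
  · obtain ⟨a1, a2⟩ := XPDisc_arc hS hL hc hi (e := 1) (by norm_num)
    obtain ⟨b1, b2⟩ := XPDisc_arc hS hL hc hi (e := -1) (by norm_num)
    have hp : ∀ x ∈ ({!₂[1, 0], !₂[-1, 0]} : Set (E 2)), x ∈ closedBall (0 : E 2) 1 :=
      fun x hx => XPDisc_H_sub 1 (XPDisc_inter.ge hx).1
    refine ⟨_, _, δ !₂[1, 0], δ !₂[-1, 0], a1, b1, a2, b2, fun h => ?_, ?_, ?_⟩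
    · have h1 := congrArg (fun x : E 2 => x 0)
        (hi (hp _ (Or.inl rfl)) (hp _ (Or.inr rfl)) h)
      have h2 : (1 : ℝ) = -1 := h1
      norm_num at h2
    · rw [← hi.image_inter (XPDisc_H_sub 1) (XPDisc_H_sub (-1)), XPDisc_inter, image_pair]
    · rw [← image_union, XPDisc_union]

end Pool.Agent.MP_bc14e1_gt

end

section

open Set Metric
open scoped Classical

namespace Pool.Agent.MP_bc14e1_gt

section Aux

variable {X Y : Type} [TopologicalSpace X] [TopologicalSpace Y]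

/-- A cycle is homologous to a sum of cycles in the two open sets. -/
theorem XPGlob_mv {U V : Set X} (hU : IsOpen U) (hV : IsOpen V) (hc : univ ⊆ U ∪ V) {k : ℕ}
    (hN : ∀ b, dT ℤ X b ∈ CH ℤ (U ∩ V) → dT ℤ X b ∈ DG ℤ X k → dT ℤ X b ∈ BC ℤ (U ∩ V) k)
    {z : Tot ℤ X} (hz : z ∈ ZC ℤ univ (k + 1)) :
    ∃ z₁ ∈ ZC ℤ U (k + 1), ∃ z₂ ∈ ZC ℤ V (k + 1), z - z₁ - z₂ ∈ BC ℤ univ (k + 1) := by
  obtain ⟨-, hd, h0⟩ := mem_ZC.1 hz
  obtain ⟨m, hm⟩ := sdT_small_two hU hV (CH_mono hc (mem_CH_univ z))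
  obtain ⟨a, ha, b, hb, hab⟩ := Submodule.mem_sup.1 (hm m le_rfl)
  have e : deg ℤ X (k + 1) a + deg ℤ X (k + 1) b = (sdT ℤ X ^ m) z := by
    rw [← map_add, hab, deg_of_mem (sdT_pow_mem_DG m hd)]
  have ha' := deg_mem_CH (k + 1) ha
  have hb' := deg_mem_CH (k + 1) hb
  have ha'' := deg_mem (k + 1) a
  have hb'' := deg_mem (k + 1) b
  generalize deg ℤ X (k + 1) a = a' at e ha' ha''
  generalize deg ℤ X (k + 1) b = b' at e hb' hb''
  have e' : dT ℤ X a' = -dT ℤ X b' := by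
    rw [eq_neg_iff_add_eq_zero, ← map_add, e, dT_sdT_pow, h0, map_zero]
  obtain ⟨v, hv, hv', ev⟩ := mem_BC.1 (hN a' (by
    rw [CH_inter]
    exact ⟨dT_mem_CH ha', by rw [e']; exact neg_mem (dT_mem_CH hb')⟩) (dT_mem_DG ha''))
  refine ⟨a' - v, mem_ZC.2 ⟨sub_mem ha' (CH_mono inter_subset_left hv), sub_mem ha'' hv', ?_⟩,
    b' + v, mem_ZC.2 ⟨add_mem hb' (CH_mono inter_subset_right hv), add_mem hb'' hv', ?_⟩,
    mem_BC.2 ⟨sdHP ℤ X m z, mem_CH_univ _, sdHP_mem_DG m hd, ?_⟩⟩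
  · rw [map_sub, ev, sub_self]
  · rw [map_add, ev, e', add_neg_cancel]
  · have := dT_sdHP m z
    rw [h0, map_zero, add_zero, ← e] at this
    rw [this]
    abel

theorem XPGlob_ZC {f : X → Y} {A : Set X} {B : Set Y} (hf : ContinuousOn f A) (hm : MapsTo f A B)
    {k : ℕ} {c : Tot ℤ X} (hc : c ∈ ZC ℤ A k) : psh ℤ f c ∈ ZC ℤ B k := by
  obtain ⟨h1, h2, h3⟩ := mem_ZC.1 hc
  exact mem_ZC.2 ⟨psh_mem_CH f hm h1, psh_mem_DG f h2, by rw [dT_psh hf h1, h3, map_zero]⟩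

theorem XPGlob_BC {f : X → Y} {A : Set X} {B : Set Y} (hf : ContinuousOn f A) (hm : MapsTo f A B)
    {k : ℕ} {c : Tot ℤ X} (hc : c ∈ BC ℤ A k) : psh ℤ f c ∈ BC ℤ B k := by
  obtain ⟨b, h1, h2, rfl⟩ := mem_BC.1 hc
  exact mem_BC.2 ⟨psh ℤ f b, psh_mem_CH f hm h1, psh_mem_DG f h2, dT_psh hf h1⟩

theorem XPGlob_mono {A : Set X} {k : ℕ} {c : Tot ℤ X} (hc : c ∈ BC ℤ A k) : c ∈ BC ℤ univ k := by
  obtain ⟨b, -, h2, rfl⟩ := mem_BC.1 hc
  exact mem_BC.2 ⟨b, mem_CH_univ b, h2, rfl⟩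

end Aux

theorem xglob_stmt (h0 : XH0Stmt) (hS : XShellStmt) : XGlobStmt := by
  intro κ K ι Γ
  have hU : IsOpen (Γ.h ⁻¹' Iio 1) := isOpen_Iio.preimage Γ.hc
  have hV : IsOpen (Γ.h ⁻¹' Ioi (-1)) := isOpen_Ioi.preimage Γ.hc
  have hc : univ ⊆ Γ.h ⁻¹' Iio 1 ∪ Γ.h ⁻¹' Ioi (-1) := fun x _ =>
    (lt_or_ge (Γ.h x) 1).imp id fun h => lt_of_lt_of_le (by norm_num) h
  have hN : Γ.h ⁻¹' Iio 1 ∩ Γ.h ⁻¹' Ioi (-1) = Γ.emb.target := by
    rw [Γ.tgt, ← preimage_inter, inter_comm, Ioi_inter_Iio]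
  have hm : MapsTo Γ.I (Γ.h ⁻¹' Ioi (-1)) (Γ.h ⁻¹' Iio 1) := fun x hx => by
    rw [mem_preimage, Γ.hI]
    exact neg_lt.1 (show -1 < Γ.h x from hx)
  have hm' : MapsTo Γ.I (Γ.h ⁻¹' Iio 1) (Γ.h ⁻¹' Ioi (-1)) := fun x hx => by
    rw [mem_preimage, Γ.hI]
    exact neg_lt_neg (show Γ.h x < 1 from hx)
  have hII : ∀ c : Tot ℤ Γ.X, psh ℤ Γ.I (psh ℤ Γ.I c) = c := fun c => by
    rw [psh_psh' _ Γ.I.continuous]
    exact psh_of_eqOn_id (fun x _ => Γ.II x) (mem_CH_univ c)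
  have hIc : ∀ A, ContinuousOn Γ.I A := fun _ => Γ.I.continuous.continuousOn
  have hNc : IsPathConnected Γ.emb.target := by
    rw [← Γ.emb.image_source_eq_target]
    exact (Γ.src ▸ hS.1).image' Γ.emb.continuousOn
  have hN1 : ZC ℤ Γ.emb.target 1 ≤ BC ℤ Γ.emb.target 1 := fun c hc => by
    have h1 := XPGlob_ZC Γ.emb.continuousOn_symm Γ.emb.mapsTo_symm hc
    rw [Γ.src] at h1
    have h2 := hS.2 h1
    rw [← Γ.src] at h2
    have h3 := XPGlob_BC Γ.emb.continuousOn Γ.emb.mapsTo h2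
    rwa [psh_psh _ Γ.emb.continuousOn_symm hc.1.1,
      psh_of_eqOn_id (f := Γ.emb ∘ Γ.emb.symm) (fun x hx => Γ.emb.right_inv hx) hc.1.1] at h3
  refine ⟨?_, fun z hz => ?_, fun z hz => ?_⟩
  · have hVc : IsPathConnected (Γ.h ⁻¹' Ioi (-1)) := by
      have : Γ.h ⁻¹' Ioi (-1) = Γ.I '' (Γ.h ⁻¹' Iio 1) :=
        Subset.antisymm (fun x hx => ⟨Γ.I x, hm hx, Γ.II x⟩) hm'.image_subset
      rw [this]
      exact Γ.conn.image Γ.I.continuous
    rw [← univ_subset_iff.1 hc]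
    exact Γ.conn.union hVc (hN ▸ hNc.nonempty)
  · obtain ⟨z₁, h₁, z₂, h₂, h⟩ := XPGlob_mv hU hV hc (k := 0) (fun b hb hb' => by
      rw [hN] at hb ⊢
      obtain ⟨x₀, -, ρ, hρ, hρ'⟩ := h0.2.2 ℤ Γ.X _ hNc
      have := hρ' _ ⟨hb, hb'⟩
      rw [h0.2.1, zero_smul, sub_zero] at this
      exact mem_BC.2 ⟨_, (hρ _).1, (hρ _).2, this⟩) hz
    have h3 := XPGlob_BC (hIc _) (mapsTo_univ _ _) (Γ.H1 (XPGlob_ZC (hIc _) hm h₂))
    rw [hII] at h3
    have := add_mem (add_mem h (XPGlob_mono (Γ.H1 h₁))) h3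
    rwa [show z - z₁ - z₂ + z₁ + z₂ = z by abel] at this
  · obtain ⟨z₁, h₁, z₂, h₂, h⟩ := XPGlob_mv hU hV hc (k := 1) (fun b hb hb' => by
      rw [hN] at hb ⊢
      exact hN1 (mem_ZC.2 ⟨hb, hb', dT_dT b⟩)) hz
    obtain ⟨n₁, e₁⟩ := Γ.H2 z₁ h₁
    obtain ⟨n₂, e₂⟩ := Γ.H2 _ (XPGlob_ZC (hIc _) hm h₂)
    have h3 := XPGlob_BC (hIc _) (mapsTo_univ _ _) e₂
    rw [map_sub, hII, map_sum] at h3
    refine ⟨Sum.elim n₁ n₂, ?_⟩
    have := add_mem (add_mem h (XPGlob_mono e₁)) h3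
    convert this using 1
    simp only [Fintype.sum_sum_type, XS, Sum.elim_inl, Sum.elim_inr, map_smul]
    abel

end Pool.Agent.MP_bc14e1_gt

end

section

open Set Metric
open scoped Classical

namespace Pool.Agent.MP_bc14e1_gt

/-- A function that is constant along the paths in `A` kills the boundaries in `A`. -/
theorem XPH0_val {R : Type} [CommRing R] {X : Type} [TopologicalSpace X] {A : Set X} (f : X → R)
    (hf : ∀ γ : C(unitInterval, X), (∀ t, γ t ∈ A) → f (γ 1) = f (γ 0)) {c : Tot R X}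
    (hc : c ∈ CH R A) : val0 R f (dT R X c) = 0 := by
  refine LinearMap.mem_ker.1 ?_
  refine map_CH (T := LinearMap.ker (val0 R f)) (dT R X) (fun k σ hσ => ?_) hc
  rw [LinearMap.mem_ker]
  rcases k with _ | _ | k
  · rw [dT_of_DG_zero (single_mem_DG ⟨0, σ⟩ 1), map_zero]
  · let γ : C(unitInterval, X) :=
      σ.comp (stdSimplexHomeomorphUnitInterval.symm : C(unitInterval, Sx 1))
    have e : (Finsupp.single ⟨1, σ⟩ 1 : Tot R X) = pth R γ := by
      rw [pth]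
      congr 2
      ext t
      simp [γ]
    rw [e, dT_pth, map_sub, val0_pt, val0_pt, hf γ fun t => hσ _, sub_self]
  · exact val0_of_DG f (Nat.succ_ne_zero k) (dT_mem_DG (single_mem_DG ⟨k + 2, σ⟩ 1))

theorem xh0_stmt : XH0Stmt := by
  refine ⟨fun X _ A x y hx c hc h => ?_, fun R _ X _ c => ?_, fun R _ X _ A hA => ?_⟩
  · have h1 := XPH0_val (A := A) (fun z => if JoinedIn A x z then (1 : ℤ) else 0) (fun γ hγ => by
      have : JoinedIn A (γ 0) (γ 1) := ⟨⟨γ, rfl, rfl⟩, hγ⟩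
      exact if_congr ⟨fun h => h.trans this.symm, fun h => h.trans this⟩ rfl rfl) hc
    rw [h, map_sub, val0_pt, val0_pt, if_pos (JoinedIn.refl hx)] at h1
    by_contra hn
    rw [if_neg hn] at h1
    omega
  · exact XPH0_val _ (fun _ _ => rfl) (mem_CH_univ c)
  · obtain ⟨x₀, hx₀, hj⟩ := hA
    let g : X → Tot R X := fun x =>
      if h : x ∈ A then pth R ((hj h).somePath : C(unitInterval, X)) else 0
    have hg : ∀ x, g x ∈ CC R A 1 := by
      intro x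
      by_cases h : x ∈ A
      · simp only [g, dif_pos h]
        exact ⟨pth_mem_CH fun t => (hj h).somePath_mem t, pth_mem_DG _⟩
      · simp only [g, dif_neg h]
        exact zero_mem _
    refine ⟨x₀, hx₀, val0 R g, fun c => ?_, fun c hc => ?_⟩
    · rw [val0, Finsupp.linearCombination_apply]
      refine Submodule.sum_mem _ fun σ _ => Submodule.smul_mem _ _ ?_
      split_ifs
      exacts [hg _, zero_mem _]
    · refine DG_zero_ind (P := fun c => dT R X (val0 R g c) = c - XAug R X c • pt R x₀) (by simp)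
        (fun a b ha hb => ?_) (fun x hx a => ?_) hc.1 hc.2
      · rw [map_add, map_add, ha, hb, map_add, add_smul]; abel
      · rw [map_smul, map_smul, map_smul, val0_pt, XAug, val0_pt]
        simp only [g, dif_pos hx]
        rw [dT_pth, smul_sub]
        simp

end Pool.Agent.MP_bc14e1_gt

end

section

open Set Metric
open scoped Classical

namespace Pool.Agent.MP_bc14e1_gt

section
variable {R : Type} [CommRing R] {X : Type} [TopologicalSpace X] {A B : Set X}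

/-- A chain off `A ∩ B` whose boundary splits is, up to a boundary, a sum. -/
theorem XPMV_split (hA : IsClosed A) (hB : IsClosed B) {v α β : Tot R X}
    (hv : v ∈ CH R (A ∩ B)ᶜ) (hα : α ∈ CH R Aᶜ) (hβ : β ∈ CH R Bᶜ) (h : dT R X v = α + β) :
    ∃ u, ∃ v₁ ∈ CH R Aᶜ, ∃ v₂ ∈ CH R Bᶜ, v = dT R X u + v₁ + v₂ := by
  rw [compl_inter] at hv
  obtain ⟨m, hm⟩ := sdT_small_two hA.isOpen_compl hB.isOpen_compl hv
  obtain ⟨v₁, h1, v₂, h2, e⟩ := Submodule.mem_sup.1 (hm m le_rfl)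
  refine ⟨sdHP R X m v, v₁ + sdHP R X m α, add_mem h1 (sdHP_mem_CH m hα),
    v₂ + sdHP R X m β, add_mem h2 (sdHP_mem_CH m hβ), ?_⟩
  have := dT_sdHP m v
  rw [h, map_add, ← e] at this
  linear_combination (norm := abel) -this

theorem XPMV_prj {α β : Tot R X} (hα : α ∈ CH R Aᶜ) (hβ : β ∈ CH R Bᶜ) :
    prj R Aᶜ (α + β) - α ∈ CH R (A ∪ B)ᶜ := by
  rw [map_add, prj_of_mem hα, add_sub_cancel_left, compl_union, CH_inter]
  exact ⟨prj_mem _ _, prj_mem_CH _ hβ⟩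

/-- Chains whose boundary splits. -/
noncomputable def XPMV_Sm (R : Type) [CommRing R] (A B : Set X) : Submodule R (Tot R X) :=
  (CH R Aᶜ ⊔ CH R Bᶜ).comap (dT R X)

/-- The connecting map. -/
noncomputable def XPMV_cn (R : Type) [CommRing R] (A : Set X) : Module.End R (Tot R X) :=
  prj R Aᶜ ∘ₗ dT R X

theorem XPMV_ex (hA : IsClosed A) (hB : IsClosed B) {k : ℕ} {y : Tot R X} (hy : y ∈ DG R X k)
    (h : y ∈ XRel R (A ∩ B)) :
    ∃ y' ∈ DG R X k, y' ∈ XPMV_Sm R A B ∧ y - y' ∈ XTriv R (A ∩ B) := by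
  have h' : dT R X y ∈ CH R (Aᶜ ∪ Bᶜ) := by rw [← compl_inter]; exact h
  obtain ⟨m, hm⟩ := sdT_small_two hA.isOpen_compl hB.isOpen_compl h'
  refine ⟨(sdT R X ^ m) y, sdT_pow_mem_DG m hy, ?_, sub_sdT_mem_XTriv m h⟩
  change dT R X _ ∈ CH R Aᶜ ⊔ CH R Bᶜ
  rw [dT_sdT_pow]
  exact hm m le_rfl

theorem XPMV_cn_rel {y : Tot R X} (h : y ∈ XPMV_Sm R A B) : XPMV_cn R A y ∈ XRel R (A ∪ B) := by
  obtain ⟨α, hα, β, hβ, e⟩ := Submodule.mem_sup.1 h
  have h1 := XPMV_prj hα hβ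
  have h2 : α ∈ XRel R (A ∪ B) := by
    refine mem_XRel_union.2 ⟨mem_XRel_of_CH hα, ?_⟩
    have : dT R X α = -dT R X β := by
      rw [eq_neg_iff_add_eq_zero, ← map_add, e, dT_dT]
    rw [mem_XRel, this]
    exact neg_mem (dT_mem_CH hβ)
  have := add_mem (mem_XRel_of_CH h1) h2
  rwa [sub_add_cancel, e] at this

theorem XPMV_rel_le : XRel R A ⊔ XRel R B ≤ XPMV_Sm R A B :=
  sup_le (fun _ h => Submodule.mem_sup_left h) fun _ h => Submodule.mem_sup_right h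

theorem XPMV_sm_le : XPMV_Sm R A B ≤ XRel R (A ∩ B) := fun _ h =>
  (sup_le (CH_mono (compl_subset_compl.2 inter_subset_left))
    (CH_mono (compl_subset_compl.2 inter_subset_right)) : CH R Aᶜ ⊔ CH R Bᶜ ≤ CH R (A ∩ B)ᶜ) h

theorem XPMV_cn_iff (hA : IsClosed A) (hB : IsClosed B) {y : Tot R X} (h : y ∈ XPMV_Sm R A B) :
    XPMV_cn R A y ∈ XTriv R (A ∪ B) ↔ y ∈ XRel R A ⊔ XRel R B ⊔ XTriv R (A ∩ B) := by
  have key : ∀ z ∈ XRel R A ⊔ XRel R B, XPMV_cn R A z ∈ XTriv R (A ∪ B) := by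
    intro z hz
    obtain ⟨a, ha, b, hb, rfl⟩ := Submodule.mem_sup.1 hz
    refine mem_XTriv.2 ⟨a, ?_⟩
    have := XPMV_prj (mem_XRel.1 ha) (mem_XRel.1 hb)
    rwa [← map_add] at this
  constructor
  · intro hc
    obtain ⟨u, hu⟩ := mem_XTriv.1 hc
    obtain ⟨α, hα, β, hβ, e⟩ := Submodule.mem_sup.1 h
    have h1 := XPMV_prj hα hβ
    rw [e] at h1
    have h2 : α - dT R X u ∈ CH R (A ∪ B)ᶜ := by
      have := sub_mem hu h1
      rwa [show XPMV_cn R A y - dT R X u - (prj R Aᶜ (dT R X y) - α) = α - dT R X u by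
        change prj R Aᶜ (dT R X y) - _ - _ = _
        abel] at this
    rw [compl_union, CH_inter] at h2
    refine Submodule.mem_sup_left (Submodule.mem_sup.2 ⟨u, ?_, y - u, ?_, add_sub_cancel _ _⟩)
    · have := sub_mem hα h2.1
      rwa [sub_sub_cancel] at this
    · have := add_mem h2.2 hβ
      rw [mem_XRel, map_sub, ← e]
      rwa [show α + β - dT R X u = α - dT R X u + β by abel]
  · intro hy
    obtain ⟨z, hz, t, ht, rfl⟩ := Submodule.mem_sup.1 hy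
    refine key _ (add_mem hz ?_)
    have h1 : t ∈ XPMV_Sm R A B := by
      have := sub_mem h (XPMV_rel_le hz)
      rwa [add_sub_cancel_left] at this
    obtain ⟨α, hα, β, hβ, e⟩ := Submodule.mem_sup.1 h1
    obtain ⟨u, hu⟩ := mem_XTriv.1 ht
    obtain ⟨u', v₁, h1, v₂, h2, e'⟩ := XPMV_split hA hB hu hα hβ
      (by rw [map_sub, dT_dT, sub_zero, e])
    refine Submodule.mem_sup.2 ⟨dT R X (u + u') + v₁,
      add_mem (XTriv_le_XRel (dT_mem_XTriv _ _)) (mem_XRel_of_CH h1), v₂, mem_XRel_of_CH h2, ?_⟩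
    rw [map_add]
    linear_combination (norm := abel) -e'

theorem XPMV_onto {k : ℕ} {c : Tot R X} (hc : c ∈ DG R X k) (h1 : c ∈ XTriv R A)
    (h2 : c ∈ XTriv R B) : ∃ y ∈ DG R X (k + 1), y ∈ XPMV_Sm R A B ∧
      c - XPMV_cn R A y ∈ XTriv R (A ∪ B) := by
  obtain ⟨u, hu, ha⟩ := mem_XTriv_DG hc h1
  obtain ⟨u', hu', hb⟩ := mem_XTriv_DG hc h2
  have e : dT R X (u' - u) = (c - dT R X u) + -(c - dT R X u') := by rw [map_sub]; abel
  refine ⟨u' - u, sub_mem hu' hu, ?_, mem_XTriv.2 ⟨u, ?_⟩⟩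
  · change dT R X _ ∈ CH R Aᶜ ⊔ CH R Bᶜ
    rw [e]
    exact Submodule.add_mem_sup ha (neg_mem hb)
  · have := neg_mem (XPMV_prj ha (neg_mem hb))
    rw [← e] at this
    rwa [show c - XPMV_cn R A (u' - u) - dT R X u =
      -(prj R Aᶜ (dT R X (u' - u)) - (c - dT R X u)) by
        change c - prj R Aᶜ (dT R X (u' - u)) - _ = _
        abel]

end

theorem xmv_stmt : XMVStmt := by
  intro R _ X _ A B hA hB k
  refine ⟨fun a ha b hb hra hrb hab => ?_, fun H c hc _ h1 h2 => ?_, fun vA vB g hg hgr H => ?_⟩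
  · obtain ⟨u, hu⟩ := mem_XTriv.1 hab
    obtain ⟨u', v₁, h1, v₂, h2, e⟩ := XPMV_split hA hB hu (mem_XRel.1 hra)
      (neg_mem (mem_XRel.1 hrb)) (by rw [map_sub, dT_dT, sub_zero, map_sub, sub_eq_add_neg])
    have t1 : a - v₁ - a ∈ XTriv R A := by
      rw [sub_sub_cancel_left]; exact neg_mem (mem_XTriv_of_CH h1)
    have t2 : a - v₁ - b ∈ XTriv R B := by
      refine mem_XTriv.2 ⟨u + u', ?_⟩
      rwa [show a - v₁ - b - dT R X (u + u') = v₂ by
        rw [map_add]; linear_combination (norm := abel) e]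
    refine ⟨deg R X k (a - v₁), deg_mem _ _, deg_mem_XRel k (mem_XRel_union.2 ⟨?_, ?_⟩), ?_, ?_⟩
    · exact sub_mem hra (mem_XRel_of_CH h1)
    · have := add_mem (XTriv_le_XRel t2) hrb
      rwa [sub_add_cancel] at this
    · have := deg_mem_XTriv k t1
      rwa [map_sub, deg_of_mem ha] at this
    · have := deg_mem_XTriv k t2
      rwa [map_sub, deg_of_mem hb] at this
  · obtain ⟨y, hy, hs, h⟩ := XPMV_onto hc h1 h2
    have := add_mem h ((XPMV_cn_iff hA hB hs).2 (H y hy (XPMV_sm_le hs)))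
    rwa [sub_add_cancel] at this
  · obtain ⟨g', hg', hs', ht'⟩ := XPMV_ex hA hB hg hgr
    refine ⟨XPMV_cn R A g', prj_mem_DG _ (dT_mem_DG hg'), XPMV_cn_rel hs', fun c hc hr => ?_⟩
    obtain ⟨y, hy, hs, h⟩ := XPMV_onto hc (vA c hc (mem_XRel_union.1 hr).1)
      (vB c hc (mem_XRel_union.1 hr).2)
    refine (existsUnique_congr fun r => ?_).1 (H y hy (XPMV_sm_le hs))
    have e1 : y - r • g = (y - r • g') + -(r • (g - g')) := by rw [smul_sub]; abel
    have e2 : c - r • XPMV_cn R A g' = XPMV_cn R A (y - r • g') + (c - XPMV_cn R A y) := by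
      rw [map_sub, map_smul]; abel
    rw [e1, e2, Submodule.add_mem_iff_left _ h,
      Submodule.add_mem_iff_left _ (neg_mem (Submodule.mem_sup_right (Submodule.smul_mem _ _ ht'))),
      XPMV_cn_iff hA hB (sub_mem hs (Submodule.smul_mem _ _ hs'))]

end Pool.Agent.MP_bc14e1_gt

end

section

open Set Metric
open scoped Classical

namespace Pool.Agent.MP_bc14e1_gt

theorem XPMod2_range {R S X : Type} [CommRing R] [CommRing S] [TopologicalSpace X] (f : R → S)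
    (hf : f 0 = 0) {k : ℕ} {c : Tot R X} (h : c ∈ DG R X k) :
    Finsupp.mapRange f hf c ∈ DG S X k :=
  mem_DG.2 fun σ hσ => mem_DG.1 h σ (Finsupp.support_mapRange hσ)

theorem xmod2_stmt : XMod2Stmt := by
  intro X ι _ _ x h1 h2 z hz
  obtain ⟨z2, d2, e2⟩ : ∃ z2 ∈ DG ℤ X 2, castZ (ZMod 2) X z2 = z :=
    ⟨Finsupp.mapRange (fun a => (a.val : ℤ)) (by simp) z, XPMod2_range _ _ hz.1.2, by
      ext σ
      simp [cast_apply]⟩
  have e3 : castZ (ZMod 2) X (dT ℤ X z2) = 0 := by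
    rw [cast_dT, e2]
    exact hz.2
  obtain ⟨y, d1, e4⟩ : ∃ y ∈ DG ℤ X 1, (2 : ℤ) • y = dT ℤ X z2 :=
    ⟨Finsupp.mapRange (fun a => a / 2) (by simp) (dT ℤ X z2), XPMod2_range _ _ (dT_mem_DG d2), by
      ext σ
      exact Int.mul_ediv_cancel' ((ZMod.intCast_zmod_eq_zero_iff_dvd _ 2).1
        (DFunLike.congr_fun e3 σ))⟩
  have e5 : dT ℤ X y = 0 := by
    have := dT_dT z2
    rw [← e4, map_smul] at this
    exact (smul_eq_zero.1 this).resolve_left two_ne_zero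
  obtain ⟨w, hw, e6⟩ := h1 ⟨⟨mem_CH_univ y, d1⟩, e5⟩
  obtain ⟨n, b, hb, e7⟩ := h2 (z2 - (2 : ℤ) • w)
    ⟨⟨mem_CH_univ _, sub_mem d2 (Submodule.smul_mem _ _ hw.2)⟩, by
      rw [SetLike.mem_coe, LinearMap.mem_ker, map_sub, map_smul, e6, e4, sub_self]⟩
  refine ⟨fun i => (n i : ZMod 2), castZ (ZMod 2) X b,
    ⟨mem_CH_univ _, cast_mem_DG _ hb.2⟩, ?_⟩
  have e8 : Int.castRingHom (ZMod 2) 2 = 0 := rfl
  rw [← cast_dT, e7, map_sub, map_sub, e2, map_smulₛₗ, e8, zero_smul, sub_zero, map_sum]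
  simp only [map_smulₛₗ, eq_intCast]

end Pool.Agent.MP_bc14e1_gt

end

section

open Set Metric
open scoped Classical

namespace Pool.Agent.MP_bc14e1_gt

theorem XPPt_chart {X : Type} [TopologicalSpace X] [ChartedSpace (E 4) X] (x : X) :
    ∃ e : OpenPartialHomeomorph X (E 4), x ∈ e.source ∧ e.target = univ ∧ e x = 0 := by
  obtain ⟨r, hr, hb⟩ := Metric.isOpen_iff.1 (chartAt (E 4) x).open_target _ (mem_chart_target _ x)
  refine ⟨(chartAt (E 4) x).trans (OpenPartialHomeomorph.univBall (chartAt (E 4) x x) r).symm,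
    ?_, ?_, ?_⟩
  · rw [OpenPartialHomeomorph.trans_source, OpenPartialHomeomorph.symm_source,
      OpenPartialHomeomorph.univBall_target _ hr]
    exact ⟨mem_chart_source _ x, mem_ball_self hr⟩
  · rw [OpenPartialHomeomorph.trans_target, OpenPartialHomeomorph.symm_target,
      OpenPartialHomeomorph.univBall_source, univ_inter, eq_univ_iff_forall]
    intro y
    refine hb ?_
    rw [← OpenPartialHomeomorph.univBall_target (E := E 4) _ hr]
    exact (OpenPartialHomeomorph.univBall (chartAt (E 4) x x) r).map_source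
      (by rw [OpenPartialHomeomorph.univBall_source]; trivial)
  · rw [OpenPartialHomeomorph.trans_apply]
    exact OpenPartialHomeomorph.univBall_symm_apply_center _ _

section

variable {R : Type} [CommRing R] {X : Type} [TopologicalSpace X] [T2Space X]
  {e : OpenPartialHomeomorph X (E 4)} {x : X}

omit [T2Space X] in
theorem XPPt_cont (ht : e.target = univ) : Continuous e.symm := by
  rw [← continuousOn_univ, ← ht]; exact e.continuousOn_symm

omit [T2Space X] in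
theorem XPPt_maps (hx : x ∈ e.source) (h0 : e x = 0) :
    MapsTo e (e.source ∩ {x}ᶜ) ({0}ᶜ : Set (E 4)) := fun y hy h =>
  hy.2 (e.injOn hy.1 hx (h.trans h0.symm))

omit [T2Space X] in
theorem XPPt_maps' (ht : e.target = univ) (h0 : e x = 0) :
    MapsTo e.symm ({0}ᶜ : Set (E 4)) {x}ᶜ := fun y hy h => by
  apply hy
  have := e.right_inv (x := y) (by rw [ht]; trivial)
  rw [show e.symm y = x from h, h0] at this
  exact this.symm

omit [T2Space X] in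
theorem XPPt_pow {Y : Type} [TopologicalSpace Y] {g : Y → X} (hg : Continuous g) (m : ℕ)
    (c : Tot R Y) : (sdT R X ^ m) (psh R g c) = psh R g ((sdT R Y ^ m) c) := by
  induction m with
  | zero => rfl
  | succ m ih =>
    rw [pow_succ', pow_succ', Module.End.mul_apply, Module.End.mul_apply, ih,
      sdT_psh hg.continuousOn (mem_CH_univ _)]

theorem XPPt_small (hx : x ∈ e.source) (c : Tot R X) :
    ∃ m : ℕ, ∃ c₁ ∈ CH R e.source, ∃ c₂ ∈ CH R ({x}ᶜ : Set X), c₁ + c₂ = (sdT R X ^ m) c := by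
  have hu : e.source ∪ {x}ᶜ = univ := eq_univ_iff_forall.2 fun y => by
    by_cases h : y = x
    · exact Or.inl (h ▸ hx)
    · exact Or.inr h
  obtain ⟨m, hm⟩ := sdT_small_two (R := R) e.open_source isOpen_compl_singleton (c := c)
    (hu ▸ mem_CH_univ c)
  exact ⟨m, Submodule.mem_sup.1 (hm m le_rfl)⟩

theorem XPPt_surj (hx : x ∈ e.source) (h0 : e x = 0) {k : ℕ} {c : Tot R X} (hc : c ∈ DG R X k)
    (hr : c ∈ XRel R {x}) : ∃ c' ∈ DG R (E 4) k, c' ∈ XRel R ({0} : Set (E 4)) ∧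
      c - psh R e.symm c' ∈ XTriv R {x} := by
  obtain ⟨m, c₁, h1, c₂, h2, h3⟩ := XPPt_small hx c
  have h4 : deg R X k c₁ + deg R X k c₂ = (sdT R X ^ m) c := by
    rw [← map_add, h3, deg_of_mem (sdT_pow_mem_DG m hc)]
  have h5 := deg_mem_CH k h1
  have h6 := deg_mem_CH k h2
  have h7 : dT R X (deg R X k c₁) ∈ CH R (e.source ∩ {x}ᶜ) := by
    rw [CH_inter]
    refine ⟨dT_mem_CH h5, ?_⟩
    rw [eq_sub_of_add_eq h4, map_sub, dT_sdT_pow]
    exact sub_mem (sdT_pow_mem_CH m hr) (dT_mem_CH h6)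
  refine ⟨psh R e (deg R X k c₁), psh_mem_DG _ (deg_mem _ _), ?_, ?_⟩
  · rw [mem_XRel, dT_psh e.continuousOn h5]
    exact psh_mem_CH _ (XPPt_maps hx h0) h7
  · rw [psh_psh _ e.continuousOn h5, psh_of_eqOn_id (f := e.symm ∘ e) (fun y hy => e.left_inv hy) h5,
      eq_sub_of_add_eq h4, ← sub_add]
    exact add_mem (sub_sdT_mem_XTriv m hr) (mem_XTriv_of_CH h6)

theorem XPPt_inj (hx : x ∈ e.source) (ht : e.target = univ) (h0 : e x = 0) {c : Tot R (E 4)}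
    (hr : c ∈ XRel R ({0} : Set (E 4))) (h : psh R e.symm c ∈ XTriv R {x}) :
    c ∈ XTriv R ({0} : Set (E 4)) := by
  obtain ⟨b, hb⟩ := mem_XTriv.1 h
  obtain ⟨m, b₁, h1, b₂, h2, h3⟩ := XPPt_small hx b
  have h4 : psh R e.symm ((sdT R _ ^ m) c) ∈ CH R e.source :=
    psh_mem_CH _ (fun y _ => e.map_target (by rw [ht]; trivial)) (mem_CH_univ _)
  have h5 : psh R e.symm ((sdT R _ ^ m) c) - dT R X b₁ ∈ CH R (e.source ∩ {x}ᶜ) := by
    rw [CH_inter]
    refine ⟨sub_mem h4 (dT_mem_CH h1), ?_⟩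
    rw [eq_sub_of_add_eq h3, map_sub, dT_sdT_pow, ← XPPt_pow (XPPt_cont ht), ← sub_add, ← map_sub]
    exact add_mem (sdT_pow_mem_CH m hb) (dT_mem_CH h2)
  have h6 := psh_mem_CH _ (XPPt_maps hx h0) h5
  rw [map_sub, psh_psh' _ (XPPt_cont ht),
    psh_of_eqOn_id (f := e ∘ e.symm) (fun y _ => e.right_inv (by rw [ht]; trivial))
      (mem_CH_univ _),
    ← dT_psh e.continuousOn h1] at h6
  have h7 := add_mem (sub_sdT_mem_XTriv m hr) (mem_XTriv.2 ⟨_, h6⟩)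
  rwa [sub_add_cancel] at h7

end

theorem XPPt_castZ {X : Type} [TopologicalSpace X] (c : Tot ℤ X) : castZ ℤ X c = c := by
  ext σ; rw [cast_apply]; rfl

theorem xpt_stmt (B : Bas2) : XPtStmt := by
  intro R _ X _ _ _ o
  obtain ⟨oE, d1, r1, hE⟩ := B.locHom 4
  refine ⟨fun x k hk c hc hr => ?_, fun x => ?_⟩
  · obtain ⟨e, hx, ht, h0⟩ := XPPt_chart x
    obtain ⟨c', h1, h2, h3⟩ := XPPt_surj hx h0 hc hr
    have h4 := add_mem h3 (psh_mem_XTriv (XPPt_cont ht) (XPPt_maps' ht h0)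
      (mem_XTriv.2 ((hE R k c' h1 h2).1 hk)))
    rwa [sub_add_cancel] at h4
  obtain ⟨e, hx, ht, h0⟩ := XPPt_chart x
  have gen : ∀ (S : Type) [CommRing S], ∀ c ∈ DG S X 4, c ∈ XRel S {x} →
      ∃! r : S, c - r • castZ S X (psh ℤ e.symm oE) ∈ XTriv S {x} := by
    intro S _ c hc hr
    obtain ⟨c', h1, h2, h3⟩ := XPPt_surj hx h0 hc hr
    obtain ⟨r, h4, h5⟩ := (hE S 4 c' h1 h2).2 rfl
    rw [cast_psh]
    refine ⟨r, ?_, fun r' h6 => h5 r' (mem_XTriv.1 ?_)⟩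
    · have h6 := add_mem h3 (psh_mem_XTriv (XPPt_cont ht) (XPPt_maps' ht h0) (mem_XTriv.2 h4))
      rwa [map_sub, map_smul, sub_add_sub_cancel] at h6
    · refine XPPt_inj hx ht h0 (sub_mem h2 (Submodule.smul_mem _ _ (cast_mem_XRel _ r1))) ?_
      have h7 := sub_mem h6 h3
      rwa [sub_sub_sub_cancel_left, ← map_smul, ← map_sub] at h7
  have d2 : psh ℤ e.symm oE ∈ DG ℤ X 4 := psh_mem_DG _ d1
  have r2 : psh ℤ e.symm oE ∈ XRel ℤ {x} := psh_mem_XRel (XPPt_cont ht) (XPPt_maps' ht h0) r1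
  obtain ⟨n, hn, -⟩ := gen ℤ (inc ℤ 4 (o.o x)) (inc_mem_DG _ _) ((inc_mem_XRel _).2 (o.rel x))
  obtain ⟨z, hz⟩ := exists_inc d2
  obtain ⟨m, hm, -⟩ := o.gen x z ((inc_mem_XRel _).1 (hz ▸ r2))
  rw [null_iff_XTriv, map_sub, map_zsmul, hz] at hm
  rw [XPPt_castZ] at hn
  have hmn : m * n = 1 := by
    refine (gen ℤ _ d2 r2).unique ?_ ?_
    · rw [XPPt_castZ]
      have := add_mem hm (Submodule.smul_mem _ m hn)
      rwa [smul_sub, sub_add_sub_cancel, smul_smul] at this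
    · rw [XPPt_castZ, one_smul, sub_self]; exact zero_mem _
  have hn' : XO R o x - (n : R) • castZ R X (psh ℤ e.symm oE) ∈ XTriv R {x} := by
    have := cast_mem_XTriv (Int.castRingHom R) hn
    rwa [map_sub, map_zsmul, ← Int.cast_smul_eq_zsmul R] at this
  have hmn' : (m : R) * (n : R) = 1 := by rw [← Int.cast_mul, hmn, Int.cast_one]
  intro c hc hr
  obtain ⟨r, h1, h2⟩ := gen R c hc hr
  refine ⟨r * m, ?_, fun r' h3 => ?_⟩
  · have := sub_mem h1 (Submodule.smul_mem _ (r * m) hn')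
    rw [smul_sub, smul_smul, mul_assoc, hmn', mul_one] at this
    simpa only [sub_sub_sub_cancel_right] using this
  · have := add_mem h3 (Submodule.smul_mem _ r' hn')
    rw [smul_sub, sub_add_sub_cancel, smul_smul] at this
    rw [← h2 _ this, mul_assoc, mul_comm (n : R), hmn', mul_one]

end Pool.Agent.MP_bc14e1_gt

end

section

open Set Metric
open scoped Classical

namespace Pool.Agent.MP_bc14e1_gt

theorem XPRot_box {T : Set (ℂ × ℂ)} (hT : IsOpen T) {z : ℂ} (hz : (z, (0 : ℂ)) ∈ T) :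
    ∃ r > 0, ball z r ×ˢ ball (0 : ℂ) r ⊆ T := by
  obtain ⟨r, hr, h⟩ := Metric.isOpen_iff.1 hT _ hz
  exact ⟨r, hr, by rwa [ball_prod_same]⟩

theorem XPRot_small {w : ℂ} (hw : w ≠ 0) {r : ℝ} (hr : 0 < r) :
    ∃ u : ℂ, u ≠ 0 ∧ ‖u‖ ≤ ‖w‖ ∧ ‖u‖ < r := by
  have h : 0 < min ‖w‖ (r / 2) := lt_min (norm_pos_iff.2 hw) (half_pos hr)
  refine ⟨(min ‖w‖ (r / 2) : ℝ), by exact_mod_cast h.ne', ?_, ?_⟩ <;>
    rw [Complex.norm_real, Real.norm_of_nonneg h.le]
  exacts [min_le_left _ _, (min_le_right _ _).trans_lt (half_lt_self hr)]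

theorem xrot_stmt (B : Bas2) (hB : XBoxStmt) : XRotStmt := by
  intro X _ F φ hF hc hφ ⟨g, hg, hg', hg1⟩ e₀ z₀ w₀ hM γ hγ
  have hball (r : ℝ) : ∀ u ∈ ball (0 : ℂ) r, ∀ u' : ℂ, ‖u'‖ ≤ ‖u‖ → u' ∈ ball (0 : ℂ) r :=
    fun u hu u' h => mem_ball_zero_iff.2 (h.trans_lt (mem_ball_zero_iff.1 hu))
  have hcb (r : ℝ) : ∀ u ∈ closedBall (0 : ℂ) r, ∀ u' : ℂ, ‖u'‖ ≤ ‖u‖ →
      u' ∈ closedBall (0 : ℂ) r :=
    fun u hu u' h => mem_closedBall_zero_iff.2 (h.trans (mem_closedBall_zero_iff.1 hu))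
  have h0 {e : OpenPartialHomeomorph X (ℂ × ℂ)} {V T : Set ℂ} {z w : ℂ} (he : FlatCh F e)
      (hV : Convex ℝ V) (hT : ∀ u ∈ T, ∀ u', ‖u'‖ ≤ ‖u‖ → u' ∈ T) (h : V ×ˢ T ⊆ e.target)
      (hz : z ∈ V) (hw : w ∈ T) (hw0 : w ≠ 0) {c : Tot ℤ X}
      (hc : c ∈ ZC ℤ (e.symm '' (V ×ˢ T) \ F) 1) : φ (XMer e z w) ∣ φ c := by
    obtain ⟨n, b, hb, h1⟩ := (hB X F e V T z w he hV hT h hz hw hw0).2 c hc
    have h2 := hφ b hb.1
    rw [h1, map_sub, map_zsmul, sub_eq_zero, smul_eq_mul] at h2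
    exact h2 ▸ dvd_mul_left _ _
  have hmer {e : OpenPartialHomeomorph X (ℂ × ℂ)} {z w : ℂ} (h : Mer F e z w) {r : ℝ}
      (hr : r ≤ ‖w‖) : ({z} : Set ℂ) ×ˢ closedBall (0 : ℂ) r ⊆ e.target := by
    rintro ⟨_, u⟩ ⟨rfl, hu⟩
    exact h.2.2 u ((mem_closedBall_zero_iff.1 hu).trans hr)
  have hA {e : OpenPartialHomeomorph X (ℂ × ℂ)} {z w u v : ℂ} (h : Mer F e z w) (hu : u ≠ 0)
      (hu' : ‖u‖ ≤ ‖w‖) (hv : v ≠ 0) (hv' : ‖v‖ ≤ ‖w‖) : φ (XMer e z u) ∣ φ (XMer e z v) :=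
    h0 h.1 (convex_singleton z) (hcb _) (hmer h le_rfl) rfl (mem_closedBall_zero_iff.2 hu') hu
      (hB X F e _ _ z v h.1 (convex_singleton z) (hcb _) (hmer h le_rfl) rfl
        (mem_closedBall_zero_iff.2 hv') hv).1
  have hC {e e' : OpenPartialHomeomorph X (ℂ × ℂ)} {z w z' w' : ℂ} (h : Mer F e z w)
      (h' : Mer F e' z' w') (hx : e.symm (z, 0) = e'.symm (z', 0)) :
      φ (XMer e z w) ∣ φ (XMer e' z' w') := by
    obtain ⟨r, hr, h1⟩ := XPRot_box e.open_target (h.2.2 0 (by simp))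
    have hU : IsOpen (e.symm '' (ball z r ×ˢ ball (0 : ℂ) r)) :=
      e.symm.isOpen_image_of_subset_source (isOpen_ball.prod isOpen_ball) h1
    obtain ⟨r', hr', h2⟩ := XPRot_box (e'.symm.isOpen_inter_preimage hU) (z := z')
      ⟨h'.2.2 0 (by simp), (z, 0), ⟨mem_ball_self hr, mem_ball_self hr⟩, hx⟩
    obtain ⟨u, hu, hu1, hu2⟩ := XPRot_small h.2.1 hr
    obtain ⟨v, hv, hv1, hv2⟩ := XPRot_small h'.2.1 hr'
    refine (hA h h.2.1 le_rfl hu hu1).trans (Dvd.dvd.trans ?_ (hA h' hv hv1 h'.2.1 le_rfl))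
    obtain ⟨h3, h4, h5⟩ := mem_ZC.1 (hB X F e' _ _ z' v h'.1 (convex_ball z' r') (hball r')
      (h2.trans inter_subset_left) (mem_ball_self hr') (mem_ball_zero_iff.2 hv2) hv).1
    refine h0 h.1 (convex_ball z r) (hball r) h1 (mem_ball_self hr) (mem_ball_zero_iff.2 hu2) hu
      (mem_ZC.2 ⟨CH_mono (sdiff_subset_sdiff_left ?_) h3, h4, h5⟩)
    rintro _ ⟨y, hy, rfl⟩
    exact (h2 hy).2
  let N : X → Set ℤ := fun x => {n | ∀ e z w, Mer F e z w → e.symm (z, 0) = x → φ (XMer e z w) ∣ n}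
  have hN {e : OpenPartialHomeomorph X (ℂ × ℂ)} {z w : ℂ} (h : Mer F e z w) (n : ℤ) :
      n ∈ N (e.symm (z, 0)) ↔ φ (XMer e z w) ∣ n :=
    ⟨fun hn => hn e z w h rfl, fun hn e' z' w' h' hx => (hC h' h hx).trans hn⟩
  have hmb {e : OpenPartialHomeomorph X (ℂ × ℂ)} (he : FlatCh F e) {z : ℂ} {r : ℝ} (hr : 0 < r)
      (h : ∀ u ∈ ball (0 : ℂ) r, (z, u) ∈ e.target) : ∃ w ∈ ball (0 : ℂ) r, Mer F e z w := by
    obtain ⟨u, hu, -, hu2⟩ := XPRot_small one_ne_zero hr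
    exact ⟨u, mem_ball_zero_iff.2 hu2, he, hu,
      fun w hw => h w (mem_ball_zero_iff.2 (hw.trans_lt hu2))⟩
  have hmF {e : OpenPartialHomeomorph X (ℂ × ℂ)} {z w : ℂ} (h : Mer F e z w) :
      e.symm (z, 0) ∈ F := by
    have h1 := h.2.2 0 (by simp)
    rw [h.1 _ (e.map_target h1), e.right_inv h1]
  have hcon : ∀ x ∈ F, ∀ y ∈ F, N x = N y := fun x hx y hy => by
    refine hc.induction₂ (fun x y => N x = N y) (fun x hx => ?_)
      (fun _ _ _ _ _ _ => Eq.trans) (fun _ _ _ _ => Eq.symm) hx hy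
    obtain ⟨e, he, hxe⟩ := hF.ch x hx
    have e1 : e x = ((e x).1, 0) := Prod.ext rfl ((he x hxe).1 hx)
    obtain ⟨r, hr, h1⟩ := XPRot_box e.open_target (e1 ▸ e.map_source hxe)
    have hU : IsOpen (e.source ∩ e ⁻¹' (ball (e x).1 r ×ˢ ball (0 : ℂ) r)) :=
      e.isOpen_inter_preimage (isOpen_ball.prod isOpen_ball)
    have hxU : e x ∈ ball (e x).1 r ×ˢ ball (0 : ℂ) r :=
      ⟨mem_ball_self hr, by rw [(he x hxe).1 hx]; exact mem_ball_self hr⟩
    filter_upwards [mem_nhdsWithin_of_mem_nhds (hU.mem_nhds ⟨hxe, hxU⟩), self_mem_nhdsWithin]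
      with y hy hyF
    have e2 : e y = ((e y).1, 0) := Prod.ext rfl ((he y hy.1).1 hyF)
    obtain ⟨u, hu, hMu⟩ := hmb he hr fun u hu => h1 (a := ((e x).1, u)) ⟨hxU.1, hu⟩
    obtain ⟨v, hv, hMv⟩ := hmb he hr fun u hu => h1 (a := ((e y).1, u)) ⟨hy.2.1, hu⟩
    ext n
    rw [← e.left_inv hxe, ← e.left_inv hy.1, e1, e2, hN hMu, hN hMv]
    exact ⟨(h0 he (convex_ball _ r) (hball r) h1 hy.2.1 hv hMv.2.1
        (hB X F e _ _ _ u he (convex_ball _ r) (hball r) h1 hxU.1 hu hMu.2.1).1).trans,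
      (h0 he (convex_ball _ r) (hball r) h1 hxU.1 hu hMu.2.1
        (hB X F e _ _ _ v he (convex_ball _ r) (hball r) h1 hy.2.1 hv hMv.2.1).1).trans⟩
  obtain ⟨c, hcs, b, -, hb⟩ := (B.lemA ℤ X ℂ ℂ F {e | FlatCh F e} hF.cl (fun e he => he) hF.ch
    univ isOpen_univ 2 g ⟨mem_CH_univ g, hg⟩ hg').2 Complex.finrank_real_complex.symm
  have h1 : φ (dT ℤ X c) = 1 := by
    have := hφ _ hb
    rwa [map_sub, dT_dT, sub_zero, map_sub, map_sub, hg1, sub_eq_zero, eq_comm] at this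
  have h2 : φ (XMer e₀ z₀ w₀) ∣ φ (dT ℤ X c) := by
    clear h1 hb
    induction hcs using Submodule.span_induction with
    | zero => simp
    | add x y _ _ hx hy => rw [map_add, map_add]; exact dvd_add hx hy
    | smul a x _ hx => rw [map_smul, map_smul]; exact hx.mul_left a
    | mem y hy =>
      obtain ⟨e, he, z, ρ, h3, c₀, h4, h5, rfl⟩ := hy
      rcases le_or_gt ρ 0 with hρ | hρ
      · rw [ball_eq_empty.2 hρ] at h4
        simp [eq_zero_of_mem_CH_empty h4.1]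
      obtain ⟨u, hu, hMu⟩ := hmb he hρ fun u hu => (h3 u hu).1
      have h6 : φ (XMer e₀ z₀ w₀) ∣ φ (XMer e z u) := by
        rw [← hN hM, hcon _ (hmF hM) _ (hmF hMu), hN hMu]
      have h7 : ContinuousOn (fun w => e.symm (z, w)) (ball (0 : ℂ) ρ) :=
        e.continuousOn_symm.comp (by fun_prop) fun w hw => (h3 w hw).1
      refine h6.trans (h0 he (convex_singleton z) (hball ρ) ?_ rfl hu hMu.2.1
        (mem_ZC.2 ⟨?_, dT_mem_DG (psh_mem_DG _ h4.2), dT_dT _⟩))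
      · rintro ⟨_, w⟩ ⟨rfl, hw⟩
        exact (h3 w hw).1
      · rw [dT_psh h7 h4.1]
        refine psh_mem_CH (A := ball (0 : ℂ) ρ ∩ {0}ᶜ) _ (fun w hw => ?_)
          ((CH_inter _ _).ge ⟨dT_mem_CH h4.1, h5⟩)
        refine ⟨⟨(z, w), ⟨rfl, hw.1⟩, rfl⟩, fun hF' => hw.2 ?_⟩
        have h8 := (he _ (e.map_target (h3 w hw.1).1)).1 hF'
        rwa [e.right_inv (h3 w hw.1).1] at h8
  have h3 : XMer e₀ z₀ w₀ = pth ℤ γ := by
    have e1 : (fun u => e₀.symm (z₀, u * w₀)) ∘ XLoop = γ := funext fun θ => (hγ θ).symm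
    rw [XMer, psh_pth _ _ (e1 ▸ γ.continuous)]
    congr 1
    exact ContinuousMap.ext fun θ => (hγ θ).symm
  rw [h1, h3] at h2
  exact Int.isUnit_iff.1 (isUnit_of_dvd_one h2)

end Pool.Agent.MP_bc14e1_gt

end

section

open Set Metric
open scoped Classical

namespace Pool.Agent.MP_bc14e1_gt

/-- The radial deformation onto the middle sphere. -/
noncomputable def XPShell_H (q : ℝ × E 4) : E 4 := (1 - q.1 + q.1 * (3 / 4 / ‖q.2‖)) • q.2

theorem XPShell_cont : ContinuousOn XPShell_H {q | q.2 ≠ 0} := by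
  have h : ContinuousOn (fun q : ℝ × E 4 => 3 / 4 / ‖q.2‖) {q | q.2 ≠ 0} :=
    continuousOn_const.div (by fun_prop) fun q hq => norm_ne_zero_iff.2 hq
  unfold XPShell_H
  fun_prop

theorem XPShell_norm {t : ℝ} (ht : t ∈ Icc (0 : ℝ) 1) {x : E 4} (hx : x ≠ 0) :
    ‖XPShell_H (t, x)‖ = (1 - t) * ‖x‖ + t * (3 / 4) := by
  have h := norm_pos_iff.2 hx
  have h1 : 0 ≤ 1 - t := sub_nonneg.2 ht.2
  have h0 := ht.1
  rw [XPShell_H, norm_smul, Real.norm_of_nonneg (by positivity), add_mul, mul_assoc,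
    div_mul_cancel₀ _ h.ne']

theorem XPShell_ne {x : E 4} (hx : x ∈ shell) : x ≠ 0 :=
  norm_pos_iff.1 (lt_trans one_half_pos hx.1)

theorem XPShell_conn : IsPathConnected shell := by
  have h1 : IsPathConnected (Ioo (1 / 2 : ℝ) 1) :=
    (convex_Ioo _ _).isPathConnected (nonempty_Ioo.2 (by norm_num))
  have h2 : IsPathConnected (sphere (0 : E 4) 1) :=
    isPathConnected_sphere (by
      rw [← Module.finrank_eq_rank, finrank_euclideanSpace_fin]
      norm_num) 0 zero_le_one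
  have h3 := (h1.prod h2).image (f := fun q : ℝ × E 4 => q.1 • q.2) (by fun_prop)
  convert h3 using 1
  ext x
  constructor
  · intro hx
    have h := norm_ne_zero_iff.2 (XPShell_ne hx)
    exact ⟨(‖x‖, ‖x‖⁻¹ • x), ⟨hx, by
      rw [mem_sphere_zero_iff_norm, norm_smul, norm_inv, norm_norm, inv_mul_cancel₀ h]⟩,
      smul_inv_smul₀ h x⟩
  · rintro ⟨⟨t, y⟩, ⟨ht, hy⟩, rfl⟩
    have e : ‖t • y‖ = t := by
      rw [norm_smul, mem_sphere_zero_iff_norm.1 hy, mul_one,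
        Real.norm_of_nonneg (one_half_pos.trans ht.1).le]
    exact ⟨ht.1.trans_eq e.symm, e.trans_lt ht.2⟩

theorem xshell_stmt (B : Bas2) : XShellStmt := by
  refine ⟨XPShell_conn, fun c hc => ?_⟩
  obtain ⟨κ⟩ := B.kit
  obtain ⟨hc1, hc2, hc3⟩ := mem_ZC.1 hc
  obtain ⟨b, hb, hbc⟩ := (B.ctr ℤ (E 4) univ 0 ⟨trivial, fun q => (1 - q.1) • q.2, by fun_prop,
    fun _ _ => trivial, fun y _ => by simp, fun y _ => by simp⟩).1 1 one_ne_zero
    ⟨⟨mem_CH_univ c, hc2⟩, hc3⟩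
  obtain ⟨o, -, -, ho⟩ := B.locHom 4
  obtain ⟨b2, hb2⟩ := (ho ℤ 2 b hb.2 (by
    rw [hbc]
    exact CH_mono (fun x hx => XPShell_ne hx) hc1)).1 (by norm_num)
  have e1 : dT ℤ _ (b - dT ℤ _ b2) = c := by rw [map_sub, dT_dT, sub_zero, hbc]
  have hr : ContinuousOn (fun x => XPShell_H (1, x)) ({0}ᶜ : Set (E 4)) :=
    XPShell_cont.comp (f := fun x => ((1 : ℝ), x)) (by fun_prop) fun x hx => hx
  have e2 := dT_hop κ (R := ℤ) (A := shell)
    (XPShell_cont.mono fun q hq => XPShell_ne hq.2) hc1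
  rw [hc3, map_zero, add_zero, psh_of_eqOn_id (f := fun x => XPShell_H (0, x))
    (fun x _ => by simp [XPShell_H]) hc1] at e2
  refine mem_BC_of_dT hc2 (b := psh ℤ (fun x => XPShell_H (1, x)) (b - dT ℤ _ b2) -
    hop κ ℤ XPShell_H c) (sub_mem (psh_mem_CH _ (fun x hx => ?_) hb2)
    (hop_mem_CH κ _ (fun q hq => ?_) hc1)) ?_
  · change 1 / 2 < ‖_‖ ∧ ‖_‖ < 1
    rw [XPShell_norm ⟨zero_le_one, le_rfl⟩ hx]
    norm_num
  · change 1 / 2 < ‖XPShell_H (q.1, q.2)‖ ∧ ‖XPShell_H (q.1, q.2)‖ < 1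
    rw [XPShell_norm hq.1 (XPShell_ne hq.2)]
    obtain ⟨⟨h0, h1⟩, h2, h3⟩ := hq
    rcases h1.eq_or_lt with h | h
    · rw [h]
      norm_num
    · constructor <;> nlinarith
  · rw [map_sub, dT_psh hr hb2, e1, e2, sub_sub_cancel]

end Pool.Agent.MP_bc14e1_gt

end

section

open Set Metric
open scoped Classical

namespace Pool.Agent.MP_bc14e1_gt

section

variable {X P : Type} [TopologicalSpace X] [TopologicalSpace P] {K : Set P} {f : P → X}
  {l : P → ℝ}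

theorem XPSlab_cpt (hK : IsCompact K) (hf : ContinuousOn f K) (hl : Continuous l) (a b : ℝ) :
    IsCompact (f '' (K ∩ l ⁻¹' Icc a b)) :=
  (hK.inter_right (isClosed_Icc.preimage hl)).image_of_continuousOn (hf.mono inter_subset_left)

omit [TopologicalSpace X] [TopologicalSpace P] in
theorem XPSlab_union {a b c : ℝ} (hab : a ≤ b) (hbc : b ≤ c) :
    f '' (K ∩ l ⁻¹' Icc a b) ∪ f '' (K ∩ l ⁻¹' Icc b c) = f '' (K ∩ l ⁻¹' Icc a c) := by
  rw [← image_union, ← inter_union_distrib_left, ← preimage_union, Icc_union_Icc_eq_Icc hab hbc]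

omit [TopologicalSpace X] [TopologicalSpace P] in
theorem XPSlab_inter (hi : InjOn f K) {a b c : ℝ} (hab : a ≤ b) (hbc : b ≤ c) :
    f '' (K ∩ l ⁻¹' Icc a b) ∩ f '' (K ∩ l ⁻¹' Icc b c) = f '' (K ∩ l ⁻¹' {b}) := by
  rw [← hi.image_inter inter_subset_left inter_subset_left, ← inter_inter_distrib_left,
    ← preimage_inter, Icc_inter_Icc_eq_singleton hab hbc]

theorem XPSlab_ind (hK : IsCompact K) (hf : ContinuousOn f K) (hl : Continuous l)
    (Q : Set X → Prop) (hanti : ∀ A B, A ⊆ B → Q B → Q A)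
    (hloc : ∀ t, ∃ U, IsOpen U ∧ f '' (K ∩ l ⁻¹' {t}) ⊆ U ∧ Q U)
    (hglue : ∀ a b c, a ≤ b → b ≤ c → Q (f '' (K ∩ l ⁻¹' Icc a b)) →
      Q (f '' (K ∩ l ⁻¹' Icc b c)) → Q (f '' (K ∩ l ⁻¹' Icc a c))) : Q (f '' K) := by
  have key : ∀ x y : ℝ, x ≤ y → Q (f '' (K ∩ l ⁻¹' Icc x y)) := by
    intro x y
    refine isPreconnected_univ.induction₂'
      (fun x y : ℝ => x ≤ y → Q (f '' (K ∩ l ⁻¹' Icc x y))) (fun t _ => ?_) ?_
      (mem_univ x) (mem_univ y)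
    · obtain ⟨U, hU, hLU, hQ⟩ := hloc t
      obtain ⟨u, hu, hue⟩ := continuousOn_iff_isClosed.1 hf Uᶜ hU.isClosed_compl
      have hC : IsClosed (l '' (K ∩ u)) := ((hK.inter_right hu).image hl).isClosed
      have ht : t ∈ (l '' (K ∩ u))ᶜ := by
        rintro ⟨p, hp, hpt⟩
        have : p ∈ f ⁻¹' Uᶜ ∩ K := hue ▸ ⟨hp.2, hp.1⟩
        exact this.1 (hLU ⟨p, ⟨hp.1, hpt⟩, rfl⟩)
      obtain ⟨α, β, hαβ, hsub⟩ :=
        mem_nhds_iff_exists_Ioo_subset.1 (hC.isOpen_compl.mem_nhds ht)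
      have hin : ∀ a ∈ Ioo α β, ∀ b ∈ Ioo α β, Q (f '' (K ∩ l ⁻¹' Icc a b)) := by
        intro a ha b hb
        refine hanti _ _ ?_ hQ
        rintro _ ⟨p, hp, rfl⟩
        by_contra hn
        have : p ∈ u ∩ K := hue ▸ ⟨hn, hp.1⟩
        exact hsub ⟨ha.1.trans_le hp.2.1, hp.2.2.trans_lt hb.2⟩ ⟨p, ⟨hp.1, this.1⟩, rfl⟩
      rw [nhdsWithin_univ]
      filter_upwards [isOpen_Ioo.mem_nhds hαβ] with s hs
      exact ⟨fun _ => hin _ hαβ _ hs, fun _ => hin _ hs _ hαβ⟩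
    · intro a b c _ _ _ h1 h2 hac
      rcases le_total a b with hab | hab
      · rcases le_total b c with hbc | hbc
        · exact hglue a b c hab hbc (h1 hab) (h2 hbc)
        · exact hanti _ _ (image_mono (inter_subset_inter_right _
            (preimage_mono (Icc_subset_Icc_right hbc)))) (h1 hab)
      · exact hanti _ _ (image_mono (inter_subset_inter_right _
          (preimage_mono (Icc_subset_Icc_left hab)))) (h2 (hab.trans hac))
  obtain ⟨M, hM⟩ := hK.exists_bound_of_continuousOn hl.continuousOn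
  refine hanti _ _ (image_mono fun p hp => ?_) (key (-|M|) |M| (neg_le_self (abs_nonneg M)))
  exact ⟨hp, abs_le.1 ((hM p hp).trans (le_abs_self M))⟩

end

theorem xslab_stmt (hMV : XMVStmt) (hC : XConnStmt) : XSlabStmt := by
  intro R _ X P _ _ _ o K f l hloc hK hf hi hl hlev
  have hcl := fun a b => (XPSlab_cpt hK hf hl a b).isClosed
  have hsub : ∀ J : Set ℝ, f '' (K ∩ l ⁻¹' J) ⊆ f '' K := fun J => image_mono inter_subset_left
  have h1 : ∃ w, XCl R o (f '' K) w := by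
    refine XPSlab_ind hK hf hl (fun A => ∃ w, XCl R o A w)
      (fun A B h ⟨w, hw⟩ => ⟨w, hw.mono h⟩) (fun t => ?_) ?_
    · obtain ⟨w, hw⟩ := (hlev t).1.cls
      obtain ⟨U, hU, h2, h3⟩ := (hC R X o hloc).1 _ w hw
      exact ⟨U, hU, h2, w, h3⟩
    · rintro x y z hxy hyz ⟨a, ha⟩ ⟨b, hb⟩
      have hI := XPSlab_inter (l := l) hi hxy hyz
      have ha' := ha.mono (hI.ge.trans inter_subset_left)
      have hb' := hb.mono (hI.ge.trans inter_subset_right)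
      obtain ⟨c, c1, c2, c3, c4⟩ := (hMV R X _ _ (hcl x y) (hcl y z) 4).1 a ha.1 b hb.1 ha.2.1
        hb.2.1 (by
          rw [hI]
          refine (hlev y).1.inj _ (sub_mem ha.1 hb.1) (sub_mem ha'.2.1 hb'.2.1) fun p hp => ?_
          rw [← sub_sub_sub_cancel_right a b (XO R o p)]
          exact sub_mem (ha'.2.2 p hp) (hb'.2.2 p hp))
      rw [← XPSlab_union hxy hyz]
      refine ⟨c, c1, c2, ?_⟩
      rintro p (hp | hp)
      · rw [← sub_add_sub_cancel c a]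
        exact add_mem (XTriv_anti (singleton_subset_iff.2 hp) c3) (ha.2.2 p hp)
      · rw [← sub_add_sub_cancel c b]
        exact add_mem (XTriv_anti (singleton_subset_iff.2 hp) c4) (hb.2.2 p hp)
  obtain ⟨w, hw⟩ := h1
  have h2 : ∀ k, ∀ c ∈ DG R X k, c ∈ XRel R (f '' K) →
      (∀ t, c ∈ XTriv R (f '' (K ∩ l ⁻¹' {t}))) → c ∈ XTriv R (f '' K) := by
    intro k c hc hr ht
    refine XPSlab_ind hK hf hl (fun A => c ∈ XTriv R A) (fun A B h hB => XTriv_anti h hB)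
      (fun t => exists_open_XTriv (ht t)) fun x y z hxy hyz q1 q2 => ?_
    rw [← XPSlab_union hxy hyz]
    refine (hMV R X _ _ (hcl x y) (hcl y z) k).2.1 (fun u hu hur => ?_) c hc
      (XRel_anti (union_subset (hsub _) (hsub _)) hr) q1 q2
    rw [XPSlab_inter hi hxy hyz] at hur ⊢
    by_cases hk : k + 1 = 4
    · rw [hk] at hu
      obtain ⟨r, hr⟩ := (hC R X o hloc).2 _ w (hlev y).2 (hlev y).1.inj (hw.mono (hsub _)) u hu hur
      rw [← add_sub_cancel (r • w) u]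
      exact Submodule.add_mem_sup (Submodule.mem_sup_left
        (Submodule.smul_mem _ r (XRel_anti (hsub _) hw.2.1))) hr
    · exact Submodule.mem_sup_right ((hlev y).1.van _ hk u hu hur)
  exact ⟨hK.image_of_continuousOn hf,
    fun k hk c hc hr => h2 k c hc hr fun t => (hlev t).1.van k hk c hc (XRel_anti (hsub _) hr),
    fun c hc hr hp => h2 4 c hc hr fun t => (hlev t).1.inj c hc (XRel_anti (hsub _) hr)
      fun p hp' => hp p (hsub _ hp'), w, hw⟩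

end Pool.Agent.MP_bc14e1_gt

end

section

open Set Metric
open scoped Classical

namespace Pool.Agent.MP_bc14e1_gt

theorem XPTheta_uniq {R M : Type} [CommRing R] [AddCommGroup M] [Module R M] {N : Submodule R M}
    {y g : M} (h : ∃ r : R, y - r • g ∈ N) (h0 : ∀ r : R, r • g ∈ N → r = 0) :
    ∃! r : R, y - r • g ∈ N := by
  obtain ⟨r, hr⟩ := h
  refine ⟨r, hr, fun r' hr' => sub_eq_zero.1 (h0 _ ?_)⟩
  refine mem_of_eq_of_mem ?_ (sub_mem hr hr')
  rw [sub_smul]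
  abel

theorem XPTheta_deg {R X : Type} [CommRing R] [TopologicalSpace X] {A B C : Set X} {k : ℕ}
    {c : Tot R X} (hc : c ∈ DG R X k) (h : c ∈ XRel R A ⊔ XRel R B ⊔ XTriv R C) :
    ∃ a ∈ DG R X k, ∃ b ∈ DG R X k, a ∈ XRel R A ∧ b ∈ XRel R B ∧ c - a - b ∈ XTriv R C := by
  obtain ⟨_, hy, t, ht, e⟩ := Submodule.mem_sup.1 h
  obtain ⟨a, ha, b, hb, rfl⟩ := Submodule.mem_sup.1 hy
  refine ⟨_, deg_mem k a, _, deg_mem k b, deg_mem_XRel k ha, deg_mem_XRel k hb, ?_⟩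
  refine mem_of_eq_of_mem ?_ (deg_mem_XTriv k ht)
  rw [← deg_of_mem hc, ← e, map_add, map_add]
  abel

theorem XPTheta_sup {R X : Type} [CommRing R] [TopologicalSpace X] {A B C : Set X}
    {c a : Tot R X} (ha : a ∈ XRel R A) (h : c - a ∈ XTriv R C) :
    c ∈ XRel R A ⊔ XRel R B ⊔ XTriv R C := by
  rw [← add_sub_cancel a c]
  exact add_mem (Submodule.mem_sup_left (Submodule.mem_sup_left ha)) (Submodule.mem_sup_right h)

theorem xtheta_stmt (hMV : XMVStmt) (hC : XConnStmt) : XThetaStmt := by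
  intro R _ X _ _ o D₁ D₂ A₁ A₂ p q hL d1 d2 a1 a2 c1 c2 hpq hA hD
  have hp : p ∈ A₁ ∩ A₂ := hA ▸ Or.inl rfl
  have hq : q ∈ A₁ ∩ A₂ := hA ▸ Or.inr rfl
  have hA' : A₁ ∩ A₂ = {p} ∪ {q} := hA
  have he : ({p} : Set X) ∩ {q} = ∅ := singleton_inter_eq_empty.2 hpq
  have M := hMV R X {p} {q} isClosed_singleton isClosed_singleton
  rw [he, ← hA'] at M
  have sp : {p} ⊆ A₁ ∩ A₂ := singleton_subset_iff.2 hp
  have sq : {q} ⊆ A₁ ∩ A₂ := singleton_subset_iff.2 hq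
  have hP := fun k => (M k).2.1 fun y _ _ => Submodule.mem_sup_right (mem_XTriv_empty y)
  obtain ⟨g, g1, g2, g3, g4⟩ := (M 4).1 _ (XO_mem_DG o p) 0 (zero_mem _) (XO_mem_XRel o p)
    (zero_mem _) (mem_XTriv_empty _)
  rw [sub_zero] at g4
  have MA := hMV R X A₁ A₂ a1.cpt.isClosed a2.cpt.isClosed
  have MD := hMV R X D₁ D₂ d1.cpt.isClosed d2.cpt.isClosed
  rw [hD] at MD
  have s1 : A₁ ∪ A₂ ⊆ D₁ := hD ▸ inter_subset_left
  have s2 : A₁ ∪ A₂ ⊆ D₂ := hD ▸ inter_subset_right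
  have hI : XInj R (A₁ ∪ A₂) := fun c hc h h' =>
    (MA 4).2.1 (fun y hy h5 => Submodule.mem_sup_right (hP 5 y hy h5
      (hL.van p 5 (by decide) y hy (XRel_anti sp h5))
      (hL.van q 5 (by decide) y hy (XRel_anti sq h5)))) c hc h
      (a1.inj c hc (XRel_anti subset_union_left h) fun x hx => h' x (Or.inl hx))
      (a2.inj c hc (XRel_anti subset_union_right h) fun x hx => h' x (Or.inr hx))
  obtain ⟨w, hw⟩ := d1.cls
  obtain ⟨w₁, w1⟩ := a1.cls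
  obtain ⟨w₂, w2⟩ := a2.cls
  have hR : XRk1 R (A₁ ∪ A₂) 3 := by
    refine (MA 3).2.2 (a1.van 3 (by decide)) (a2.van 3 (by decide)) g g1 g2 fun y hy h => ?_
    refine XPTheta_uniq ?_ fun r hr => ?_
    · obtain ⟨rp, h1, -⟩ := hL.gen p y hy (XRel_anti sp h)
      obtain ⟨rq, h2, -⟩ := hL.gen q y hy (XRel_anti sq h)
      refine ⟨rp - rq, XPTheta_sup (Submodule.smul_mem _ rq w1.2.1) (hP 4 _ ?_ ?_ ?_ ?_)⟩
      · exact sub_mem (sub_mem hy (Submodule.smul_mem _ _ g1)) (Submodule.smul_mem _ _ w1.1)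
      · exact sub_mem (sub_mem h (Submodule.smul_mem _ _ g2))
          (Submodule.smul_mem _ _ (XRel_anti inter_subset_left w1.2.1))
      · refine mem_of_eq_of_mem ?_ (sub_mem (sub_mem h1 (Submodule.smul_mem _ (rp - rq) g3))
          (Submodule.smul_mem _ rq (w1.2.2 p hp.1)))
        module
      · refine mem_of_eq_of_mem ?_ (sub_mem (sub_mem h2 (Submodule.smul_mem _ (rp - rq) g4))
          (Submodule.smul_mem _ rq (w1.2.2 q hq.1)))
        module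
    · obtain ⟨a, ha, b, hb, h1, h2, h3⟩ := XPTheta_deg (Submodule.smul_mem _ r g1) hr
      obtain ⟨r₁, h4⟩ := (hC R X o hL).2 A₁ w₁ c1 a1.inj w1 a ha h1
      obtain ⟨r₂, h5⟩ := (hC R X o hL).2 A₂ w₂ c2 a2.inj w2 b hb h2
      have h6 : ∀ x ∈ A₁ ∩ A₂, r • g - (r₁ + r₂) • XO R o x ∈ XTriv R {x} := by
        intro x hx
        refine mem_of_eq_of_mem ?_ (add_mem (add_mem (add_mem (add_mem
          (XTriv_anti (singleton_subset_iff.2 hx) h3)
          (XTriv_anti (singleton_subset_iff.2 hx.1) h4))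
          (XTriv_anti (singleton_subset_iff.2 hx.2) h5))
          (Submodule.smul_mem _ r₁ (w1.2.2 x hx.1))) (Submodule.smul_mem _ r₂ (w2.2.2 x hx.2)))
        module
      have h7 : r₁ + r₂ = 0 := hL.eq_zero (x := q) (by
        refine mem_of_eq_of_mem ?_ (sub_mem (Submodule.smul_mem _ r g4) (h6 q hq))
        module)
      refine hL.eq_zero (x := p) ?_
      refine mem_of_eq_of_mem ?_ (sub_mem (h6 p hp) (Submodule.smul_mem _ r g3))
      rw [h7]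
      module
  constructor
  · intro c hc h
    refine (MD 3).2.1 (fun y hy h' => ?_) c hc h
      (d1.van 3 (by decide) c hc (XRel_anti subset_union_left h))
      (d2.van 3 (by decide) c hc (XRel_anti subset_union_right h))
    obtain ⟨r, hr⟩ := (hC R X o hL).2 _ w (c1.union p hp.1 hp.2 c2) hI (hw.mono s1) y hy h'
    exact XPTheta_sup (Submodule.smul_mem _ r hw.2.1) hr
  · obtain ⟨γ, h1, h2, h3⟩ := hR
    refine (MD 2).2.2 (d1.van 2 (by decide)) (d2.van 2 (by decide)) γ h1 h2 fun y hy h => ?_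
    refine XPTheta_uniq ((h3 y hy h).exists.imp fun r hr => Submodule.mem_sup_right hr)
      fun r hr => ?_
    obtain ⟨a, ha, b, hb, h4, h5, h6⟩ := XPTheta_deg (Submodule.smul_mem _ r h1) hr
    have h7 := add_mem (add_mem h6 (XTriv_anti s1 (d1.van 3 (by decide) a ha h4)))
      (XTriv_anti s2 (d2.van 3 (by decide) b hb h5))
    refine (h3 0 (zero_mem _) (zero_mem _)).unique ?_ ?_
    · refine mem_of_eq_of_mem ?_ (neg_mem h7)
      abel
    · simp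

end Pool.Agent.MP_bc14e1_gt

end

section

open Set Metric
open scoped Classical

namespace Pool.Agent.MP_bc14e1_gt

theorem xp_stmt (B : Bas2) : XPStmt :=
  XPA_main B (xpt_stmt B) (xdisc_stmt (xslab_stmt xmv_stmt xconn_stmt))
    (xtheta_stmt xmv_stmt xconn_stmt) xh0_stmt (xglob_stmt xh0_stmt (xshell_stmt B)) xmod2_stmt
    (xrot_stmt B (xbox_stmt B (xcirc_stmt B))) (xcls_stmt B)

end Pool.Agent.MP_bc14e1_gt

end

section

/-! Chains that are small for an open cover. -/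

open Set Metric
open scoped Classical

namespace Pool.Agent.MP_bc14e1_gt

variable {S : Type} [CommRing S] {Y : Type} [TopologicalSpace Y] {M N : Type} [AddCommGroup M]
  [Module S M] [AddCommGroup N] [Module S N]

theorem Dehn_val0_dT (f : Y → M) {k : ℕ} (hk : k ≠ 1) {c : Tot S Y} (h : c ∈ DG S Y k) :
    val0 S f (dT S Y c) = 0 := by
  rcases k with _ | k
  · rw [dT_of_DG_zero h, map_zero]
  · exact val0_of_DG f (fun e => hk (by rw [e])) (dT_mem_DG h)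

theorem Dehn_val0_pth (f : Y → M) (γ : C(unitInterval, Y)) :
    val0 S f (dT S Y (pth S γ)) = f (γ 1) - f (γ 0) := by
  rw [dT_pth, map_sub, val0_pt, val0_pt]

theorem Dehn_ind {A : Set Y} {W : Submodule S M} (F : Tot S Y →ₗ[S] M)
    (h0 : ∀ k, k ≠ 1 → ∀ c ∈ DG S Y k, F c = 0)
    (h1 : ∀ γ : C(unitInterval, Y), (∀ t, γ t ∈ A) → F (pth S γ) ∈ W) {c : Tot S Y}
    (hc : c ∈ CH S A) : F c ∈ W := by
  refine map_CH F (fun k σ hσ => ?_) hc
  by_cases hk : k = 1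
  · subst hk
    have := h1 (σ.comp (stdSimplexHomeomorphUnitInterval.symm : C(unitInterval, Sx 1)))
      fun t => hσ _
    rwa [pth, ContinuousMap.comp_assoc, Homeomorph.symm_comp_toContinuousMap,
      ContinuousMap.comp_id] at this
  · rw [h0 k hk _ (single_mem_DG ⟨k, σ⟩ 1)]
    exact zero_mem _

theorem Dehn_joined {A : Set Y} (γ : C(unitInterval, Y)) (h : ∀ t, γ t ∈ A) :
    JoinedIn A (γ 0) (γ 1) := ⟨⟨γ, rfl, rfl⟩, h⟩

theorem Dehn_val0_mem {A : Set Y} {W : Submodule S M} {f : Y → M}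
    (h : ∀ x y, JoinedIn A x y → f x - f y ∈ W) {c : Tot S Y} (hc : c ∈ CH S A) :
    val0 S f (dT S Y c) ∈ W :=
  Dehn_ind (val0 S f ∘ₗ dT S Y) (fun _ hk _ => Dehn_val0_dT f hk) (fun γ hγ => by
    rw [LinearMap.comp_apply, Dehn_val0_pth]
    exact h _ _ (Dehn_joined γ hγ).symm) hc

theorem Dehn_val0_eq {A : Set Y} {f : Y → M} (h : ∀ x y, JoinedIn A x y → f x = f y)
    {c : Tot S Y} (hc : c ∈ CH S A) : val0 S f (dT S Y c) = 0 :=
  (Submodule.mem_bot S).1 (Dehn_val0_mem (fun x y e => by rw [h x y e, sub_self]; rfl) hc)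

theorem Dehn_val0_add (f g : Y → M) (c : Tot S Y) :
    val0 S (fun y => f y + g y) c = val0 S f c + val0 S g c := by
  induction c using Finsupp.induction_linear with
  | zero => simp
  | add a b ha hb => simp only [map_add, ha, hb]; abel
  | single σ a => simp only [val0, Finsupp.linearCombination_single]; split_ifs <;> simp

theorem Dehn_val0_sub (f g : Y → M) (c : Tot S Y) :
    val0 S (fun y => f y - g y) c = val0 S f c - val0 S g c := by
  rw [eq_sub_iff_add_eq, ← Dehn_val0_add]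
  simp only [sub_add_cancel]

theorem Dehn_val0_map (L : M →ₗ[S] N) (f : Y → M) (c : Tot S Y) :
    L (val0 S f c) = val0 S (fun y => L (f y)) c := by
  induction c using Finsupp.induction_linear with
  | zero => simp
  | add a b ha hb => simp only [map_add, ha, hb]
  | single σ a => simp only [val0, Finsupp.linearCombination_single]; split_ifs <;> simp

theorem Dehn_val0_congr {A : Set Y} {f g : Y → M} (h : ∀ y ∈ A, f y = g y) {c : Tot S Y}
    (hc : c ∈ CH S A) : val0 S f c = val0 S g c := by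
  refine sub_eq_zero.1 ((Submodule.mem_bot S).1
    (map_CH (val0 S f - val0 S g) (fun k σ hσ => ?_) hc))
  simp [val0, h _ (hσ _)]

variable {ι : Type} {A : ι → Set Y}

theorem Dehn_small (hA : ∀ i, IsOpen (A i)) {c : Tot S Y} (h : c ∈ CH S (⋃ i, A i))
    (hd : dT S Y c ∈ ⨆ i, CH S (A i)) : ∃ c' ∈ ⨆ i, CH S (A i), dT S Y c' = dT S Y c := by
  obtain ⟨m, hm⟩ := sdT_small hA h
  have h1 : (⨆ i, CH S (A i)) ≤ (⨆ i, CH S (A i)).comap (sdHP S Y m) :=
    iSup_le fun i _ hc => Submodule.mem_iSup_of_mem i (sdHP_mem_CH m hc)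
  refine ⟨_, add_mem (hm m le_rfl) (h1 hd), ?_⟩
  have h2 := congrArg (dT S Y) (dT_sdHP m c)
  rw [map_add, dT_dT, zero_add, map_sub] at h2
  rw [map_add, h2, add_sub_cancel]

theorem Dehn_glue {W : Submodule S N} (F : ι → Tot S Y →ₗ[S] N)
    (h : ∀ i j, ∀ c ∈ CH S (A i ∩ A j), F i c - F j c ∈ W) :
    ∃ Th : Tot S Y →ₗ[S] N, ∀ i, ∀ c ∈ CH S (A i), Th c - F i c ∈ W := by
  refine ⟨Finsupp.linearCombination S fun σ : TS Y =>
    if e : ∃ j, ∀ t, σ.2 t ∈ A j then F e.choose (Finsupp.single σ 1) else 0, fun i c hc => ?_⟩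
  refine map_CH (_ - F i) (fun k σ hσ => ?_) hc
  have e : ∃ j, ∀ t, σ t ∈ A j := ⟨i, hσ⟩
  rw [LinearMap.sub_apply, Finsupp.linearCombination_single, one_smul, dif_pos e]
  exact h _ _ _ (single_mem_CH _ fun t => ⟨e.choose_spec t, hσ t⟩)

omit [TopologicalSpace Y] in
theorem Dehn_home (F : ι → Y → M) (h : ∀ i j y, y ∈ A i → y ∈ A j → F i y = F j y) :
    ∃ Ψ : Y → M, ∀ i, ∀ y ∈ A i, Ψ y = F i y :=
  ⟨fun y => if e : ∃ j, y ∈ A j then F e.choose y else 0, fun i y hy => by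
    have e : ∃ j, y ∈ A j := ⟨i, hy⟩
    exact (dif_pos e).trans (h _ _ y e.choose_spec hy)⟩

/-- The comparison map from small chains. -/
theorem Dehn_cech (hA : ∀ i, IsOpen (A i)) (W : Submodule S N) (φ : ι → Y → N)
    (hφ : ∀ i j x y, JoinedIn (A i ∩ A j) x y → φ i x - φ j x - (φ i y - φ j y) ∈ W) :
    ∃ Th : Tot S Y →ₗ[S] N, (∀ i, ∀ c ∈ CH S (A i), Th c - val0 S (φ i) (dT S Y c) ∈ W) ∧
      (∀ w ∈ CH S (⋃ i, A i), dT S Y w ∈ ⨆ i, CH S (A i) → Th (dT S Y w) ∈ W) ∧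
      ∀ (M : Type) [AddCommGroup M] [Module S M] (L : N →ₗ[S] M) (F : ι → Y → M)
        (P : Tot S Y →ₗ[S] M), W ≤ LinearMap.ker L →
        (∀ i j y, y ∈ A i → y ∈ A j → F i y - L (φ i y) = F j y - L (φ j y)) →
        (∀ i, ∀ c ∈ CH S (A i), val0 S (F i) (dT S Y c) = P c) →
        ∀ z ∈ ⨆ i, CH S (A i), dT S Y z = 0 → L (Th z) = P z := by
  obtain ⟨Th, h1⟩ := Dehn_glue (W := W) (fun i => val0 S (φ i) ∘ₗ dT S Y) fun i j c hc => by
    rw [LinearMap.comp_apply, LinearMap.comp_apply, ← Dehn_val0_sub]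
    exact Dehn_val0_mem (hφ i j) hc
  refine ⟨Th, h1, fun w hw hd => ?_, fun M _ _ L F P hL hF hP z hz hd => ?_⟩
  · obtain ⟨w', h2, h3⟩ := Dehn_small hA hw hd
    have h4 : (⨆ i, CH S (A i)) ≤ W.comap (Th ∘ₗ dT S Y) := iSup_le fun i c hc => by
      have := h1 i _ (dT_mem_CH hc)
      rwa [LinearMap.comp_apply, dT_dT, map_zero, sub_zero] at this
    exact h3 ▸ h4 h2
  · obtain ⟨Ψ, hΨ⟩ := Dehn_home (fun i y => F i y - L (φ i y)) hF
    have h4 : (⨆ i, CH S (A i)) ≤ LinearMap.ker (L ∘ₗ Th + val0 S Ψ ∘ₗ dT S Y - P) :=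
      iSup_le fun i c hc => by
        have h5 : L (Th c - val0 S (φ i) (dT S Y c)) = 0 := hL (h1 i c hc)
        rw [map_sub, sub_eq_zero] at h5
        change L (Th c) + val0 S Ψ (dT S Y c) - P c = 0
        rw [h5, Dehn_val0_congr (hΨ i) (dT_mem_CH hc), Dehn_val0_sub, Dehn_val0_map, hP i c hc,
          add_sub_cancel, sub_self]
    have h5 : L (Th z) + val0 S Ψ (dT S Y z) - P z = 0 := h4 hz
    rwa [hd, map_zero, add_zero, sub_eq_zero] at h5

/-- Functions that are constant along paths in the sets of an open cover. -/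
theorem Dehn_const (hA : ∀ i, IsOpen (A i)) {W : Submodule S M} (F : ι → Y → M)
    (h : ∀ i j y, y ∈ A i → y ∈ A j → F i y - F j y ∈ W)
    (h' : ∀ i x y, JoinedIn (A i) x y → F i x = F i y) {i j : ι} {x y : Y} (hx : x ∈ A i)
    (hy : y ∈ A j) (e : JoinedIn (⋃ i, A i) x y) : F j y - F i x ∈ W := by
  obtain ⟨Ψ, hΨ⟩ := Dehn_home (fun i y => W.mkQ (F i y)) fun i j y hi hj =>
    (Submodule.Quotient.eq W).2 (h i j y hi hj)
  obtain ⟨γ, hγ⟩ := e
  have h1 : dT S Y (pth S γ.toContinuousMap) = pt S y - pt S x := by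
    rw [dT_pth]
    exact congrArg₂ (fun a b => pt S a - pt S b) γ.target γ.source
  obtain ⟨c, h2, h3⟩ := Dehn_small hA (pth_mem_CH (R := S) (γ := γ.toContinuousMap) hγ) (by
    rw [h1]
    exact sub_mem (Submodule.mem_iSup_of_mem j (pt_mem_CH hy))
      (Submodule.mem_iSup_of_mem i (pt_mem_CH hx)))
  have h4 : (⨆ i, CH S (A i)) ≤ LinearMap.ker (val0 S Ψ ∘ₗ dT S Y) := iSup_le fun i c hc =>
    Dehn_val0_eq (fun x y e => by rw [hΨ i x e.source_mem, hΨ i y e.target_mem, h' i x y e]) hc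
  have h5 : val0 S Ψ (dT S Y c) = 0 := h4 h2
  rw [h3, h1, map_sub, val0_pt, val0_pt, hΨ j y hy, hΨ i x hx, sub_eq_zero] at h5
  exact (Submodule.Quotient.eq W).1 h5

theorem Dehn_side {P Q : Set Y} (hP : IsOpen P) (hQ : IsOpen Q) (hd : Disjoint P Q) {x y : Y}
    (e : JoinedIn (P ∪ Q) x y) (hx : x ∈ P) : y ∈ P := by
  obtain ⟨γ, hγ⟩ := e
  exact (isPreconnected_range γ.continuous).subset_left_of_subset_union hP hQ hd
    (range_subset_iff.2 hγ) ⟨x, γ.source_mem_range, hx⟩ γ.target_mem_range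

theorem Dehn_ctr_pc {P : Set Y} {x : Y} (h : Ctr P x) : IsPathConnected P := by
  obtain ⟨hx, H, h1, h2, h3, h4⟩ := h
  refine ⟨x, hx, fun y hy => JoinedIn.symm ?_⟩
  refine JoinedIn.ofLine (f := fun t => H (t, y))
    (h1.comp (by fun_prop) fun t ht => ⟨ht, hy⟩) (h3 y hy) (h4 y hy) ?_
  rintro _ ⟨t, ht, rfl⟩
  exact h2 ⟨ht, hy⟩

end Pool.Agent.MP_bc14e1_gt

end

section

/-! Sheets of a regular cover over the sets of a diagram. -/

open Set Metric Topology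
open scoped Classical

namespace Pool.Agent.MP_bc14e1_gt

variable {G X Y : Type} [Group G] [TopologicalSpace X] [TopologicalSpace Y] [MulAction G Y]
  [ContinuousConstSMul G Y] {Z A : Set X} {p : Y → X} {σ : X → Y} {l : Y → G}

/-- A section over `A` with the labels of the sheets. -/
structure Dehn_Sec (p : Y → X) (A : Set X) (σ : X → Y) (l : Y → G) : Prop where
  cont : ContinuousOn σ A
  sec : ∀ x ∈ A, p (σ x) = x
  lab : ∀ y, p y ∈ A → ∀ g, l y = g ↔ g • σ (p y) = y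

omit [ContinuousConstSMul G Y] in
theorem Dehn_exists_lab (hc : GCov G Z p) (h1 : ContinuousOn σ A) (h2 : ∀ x ∈ A, p (σ x) = x) :
    ∃ l : Y → G, Dehn_Sec p A σ l := by
  have h : ∀ y, ∃ g : G, p y ∈ A → g • σ (p y) = y := fun y => by
    by_cases hy : p y ∈ A
    · obtain ⟨g, hg⟩ := hc.trans _ y (h2 _ hy)
      exact ⟨g, fun _ => hg.symm⟩
    · exact ⟨1, fun e => absurd e hy⟩
  choose l hl using h
  refine ⟨l, h1, h2, fun y hy g => ⟨fun e => e ▸ hl y hy, fun e => ?_⟩⟩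
  refine (inv_mul_eq_one.1 (hc.free _ (σ (p y)) ?_)).symm
  rw [mul_smul, hl y hy, inv_smul_eq_iff, e]

namespace Dehn_Sec

omit [ContinuousConstSMul G Y] in
theorem self (h : Dehn_Sec p A σ l) {y : Y} (hy : p y ∈ A) : l y • σ (p y) = y :=
  (h.lab y hy _).1 rfl

omit [ContinuousConstSMul G Y] in
theorem proj (h : Dehn_Sec p A σ l) (hc : GCov G Z p) (g : G) {x : X} (hx : x ∈ A) :
    p (g • σ x) = x := (hc.inv _ _).trans (h.sec x hx)

omit [ContinuousConstSMul G Y] in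
theorem base (h : Dehn_Sec p A σ l) (hc : GCov G Z p) (g : G) {x : X} (hx : x ∈ A) :
    l (g • σ x) = g := by
  have e := h.proj hc g hx
  exact (h.lab _ (e.symm ▸ hx) g).2 (by rw [e])

omit [ContinuousConstSMul G Y] in
theorem smul (h : Dehn_Sec p A σ l) (hc : GCov G Z p) (g : G) {y : Y} (hy : p y ∈ A) :
    l (g • y) = g * l y := by
  rw [← h.base hc (g * l y) hy, mul_smul, h.self hy]

theorem join (h : Dehn_Sec p A σ l) (hc : GCov G Z p) {P : Set X} (hP : P ⊆ A)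
    (hp : IsPathConnected P) {y : Y} (hy : p y ∈ P) {x : X} (hx : x ∈ P) :
    JoinedIn (p ⁻¹' P) y (l y • σ x) := by
  have h1 := (hp.joinedIn _ hy _ hx).map_continuousOn (f := fun x => l y • σ x)
    ((h.cont.mono hP).const_smul _)
  rw [h.self (hP hy)] at h1
  refine h1.mono ?_
  rintro _ ⟨z, hz, rfl⟩
  rwa [mem_preimage, h.proj hc _ (hP hz)]

theorem path (h : Dehn_Sec p A σ l) (hc : GCov G Z p) (γ : C(unitInterval, Y))
    (hγ : ∀ t, p (γ t) ∈ A) (s t : unitInterval) : l (γ s) = l (γ t) := by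
  refine IsLocallyConstant.apply_eq_of_preconnectedSpace (f := fun t => l (γ t))
    ((IsLocallyConstant.iff_eventually_eq _).2 fun t => ?_) s t
  obtain ⟨V, -, h1, -, τ, -, h2, h3⟩ := hc.sec _ (hc.mem (γ t))
  obtain ⟨g, hg⟩ := hc.trans (γ t) _ (h2 _ h1).symm
  have c1 : Continuous fun s => g • γ s := γ.continuous.const_smul g
  have c2 : Continuous fun s => g • l (γ t) • σ (p (γ s)) :=
    ((h.cont.comp_continuous (hc.cont.comp γ.continuous) hγ).const_smul _).const_smul g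
  have k : ∀ w ∈ τ '' V, τ (p w) = w := by
    rintro _ ⟨x, hx, rfl⟩
    rw [h2 x hx]
  filter_upwards [c1.continuousAt.eventually_mem (h3.mem_nhds ⟨_, h1, hg⟩),
    c2.continuousAt.eventually_mem (h3.mem_nhds ⟨_, h1, by rw [h.self (hγ t), hg]⟩)] with s e1 e2
  have e3 := k _ e1
  have e4 := k _ e2
  rw [hc.inv] at e3
  rw [hc.inv, h.proj hc _ (hγ s), e3] at e4
  exact (h.lab _ (hγ s) _).2 (MulAction.injective g e4).symm

theorem lc (h : Dehn_Sec p A σ l) (hc : GCov G Z p) {P : Set X} (hP : P ⊆ A) {y y' : Y}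
    (e : JoinedIn (p ⁻¹' P) y y') : l y = l y' := by
  obtain ⟨γ, hγ⟩ := e
  exact (congrArg l γ.source).symm.trans
    ((h.path hc γ.toContinuousMap (fun t => hP (hγ t)) 0 1).trans (congrArg l γ.target))

theorem ctr (h : Dehn_Sec p A σ l) (hc : GCov G Z p) {x : X} (hx : Ctr A x) (g : G) :
    Ctr {y | p y ∈ A ∧ l y = g} (g • σ x) := by
  obtain ⟨h0, H, h1, h2, h3, h4⟩ := hx
  have k : ∀ z ∈ A, g • σ z ∈ {y | p y ∈ A ∧ l y = g} := fun z hz =>
    ⟨(h.proj hc g hz).symm ▸ hz, h.base hc g hz⟩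
  refine ⟨k x h0, fun z => g • σ (H (z.1, p z.2)), ?_, fun z hz => k _ (h2 ⟨hz.1, hz.2.1⟩),
    fun y hy => ?_, fun y hy => by simp only [h4 _ hy.1]⟩
  · refine ContinuousOn.const_smul (h.cont.comp (h1.comp ?_ fun z hz => ⟨hz.1, hz.2.1⟩)
      fun z hz => h2 ⟨hz.1, hz.2.1⟩) g
    exact (continuous_fst.prodMk (hc.cont.comp continuous_snd)).continuousOn
  · simp only [h3 _ hy.1]
    exact (h.lab y hy.1 g).1 hy.2

/-- Classes of the paths from the base points of the sheets. -/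
theorem tail (h : Dehn_Sec p A σ l) (hC : CtrStmt) (hc : GCov G Z p) {x : X} (hx : Ctr A x)
    {S : Type} [CommRing S] (W : Submodule S (Tot S Y)) (hW : BC S (p ⁻¹' A) 1 ≤ W) :
    ∃ T : Y → Tot S Y ⧸ W, (∀ c ∈ CH S (p ⁻¹' A),
      val0 S T (dT S Y c) = W.mkQ (deg S Y 1 c)) ∧ ∀ g : G, T (g • σ x) = 0 := by
  have h1 : ∀ y, ∃ t : Tot S Y, p y ∈ A → t ∈ CC S {z | p z ∈ A ∧ l z = l y} 1 ∧
      dT S Y t = pt S y - pt S (l y • σ x) := fun y => by
    by_cases hy : p y ∈ A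
    · obtain ⟨t, h1, h2⟩ := (hC S Y _ _ (h.ctr hc hx (l y))).2 (pt S y)
        ⟨pt_mem_CH ⟨hy, rfl⟩, pt_mem_DG y⟩
      rw [val0_pt, one_smul] at h2
      exact ⟨t, fun _ => ⟨h1, h2⟩⟩
    · exact ⟨0, fun e => absurd e hy⟩
  choose t ht using h1
  have h2 : ∀ g : G, ∀ z ∈ CC S {z | p z ∈ A ∧ l z = g} 1, dT S Y z = 0 → W.mkQ z = 0 :=
    fun g z hz hd => by
      obtain ⟨w, h2, h3⟩ := (hC S Y _ _ (h.ctr hc hx g)).1 1 one_ne_zero ⟨hz, hd⟩
      exact (Submodule.Quotient.mk_eq_zero W).2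
        (hW ⟨w, ⟨CH_mono (fun _ e => e.1) h2.1, h2.2⟩, h3⟩)
  refine ⟨fun y => W.mkQ (t y), fun c hc' => ?_, fun g => ?_⟩
  · refine sub_eq_zero.1 ((Submodule.mem_bot S).1 (Dehn_ind
      (val0 S (fun y => W.mkQ (t y)) ∘ₗ dT S Y - W.mkQ ∘ₗ deg S Y 1) (fun k hk c e => ?_)
      (fun γ hγ => ?_) hc'))
    · rw [LinearMap.sub_apply, LinearMap.comp_apply, LinearMap.comp_apply, Dehn_val0_dT _ hk e,
        deg_eq_zero hk.symm e, map_zero, sub_zero]
    · rw [LinearMap.sub_apply, LinearMap.comp_apply, LinearMap.comp_apply, Submodule.mem_bot]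
      obtain ⟨a1, a2⟩ := ht _ (hγ 1)
      obtain ⟨b1, b2⟩ := ht _ (hγ 0)
      rw [h.path hc γ hγ 0 1] at b1 b2
      rw [Dehn_val0_pth, deg_of_mem (pth_mem_DG γ), ← map_sub, ← map_sub]
      refine h2 _ _ (sub_mem (sub_mem a1 b1)
        ⟨pth_mem_CH fun s => ⟨hγ s, h.path hc γ hγ s 1⟩, pth_mem_DG γ⟩) ?_
      rw [map_sub, map_sub, a2, b2, dT_pth]
      abel
  · obtain ⟨a1, a2⟩ := ht (g • σ x) ((h.proj hc g hx.1).symm ▸ hx.1)
    refine h2 _ _ a1 ?_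
    rw [a2, h.base hc g hx.1, sub_self]

end Dehn_Sec

variable {Reg Cr : Type} {O : Set X} {reg : Cr → Fin 4 → Reg} {D : DehnData O reg}
  {σU σL : X → Y} {h : Reg → G}

theorem Dehn_Rg (D : DehnData O reg) (R : Reg) : D.Rg R ⊆ D.Up ∩ D.Lo :=
  D.unR ▸ subset_iUnion D.Rg R

theorem Dehn_U1 (D : DehnData O reg) (c : Cr) : D.U1 c ⊆ D.B c ∩ D.Up :=
  (D.un c).1 ▸ subset_union_left

theorem Dehn_U2 (D : DehnData O reg) (c : Cr) : D.U2 c ⊆ D.B c ∩ D.Up :=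
  (D.un c).1 ▸ subset_union_right

theorem Dehn_L1 (D : DehnData O reg) (c : Cr) : D.L1 c ⊆ D.B c ∩ D.Lo :=
  (D.un c).2 ▸ subset_union_left

theorem Dehn_L2 (D : DehnData O reg) (c : Cr) : D.L2 c ⊆ D.B c ∩ D.Lo :=
  (D.un c).2 ▸ subset_union_right

/-- The labels of all sheets. -/
structure Dehn_Lab (D : DehnData O reg) (p : Y → X) (σU σL : X → Y) (h : Reg → G) (u v : Y → G)
    (σ : Cr → X → Y) (l : Cr → Y → G) : Prop where
  sU : Dehn_Sec p D.Up σU u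
  sL : Dehn_Sec p D.Lo σL v
  sB : ∀ c, Dehn_Sec p (D.B c) (σ c) (l c)
  vR : ∀ R y, p y ∈ D.Rg R → v y = u y * h R
  u1 : ∀ c y, p y ∈ D.U1 c → u y = l c y
  u2 : ∀ c y, p y ∈ D.U2 c → u y = l c y * (h (reg c 1) * (h (reg c 2))⁻¹)
  hol : ∀ c, h (reg c 0) = h (reg c 1) * (h (reg c 2))⁻¹ * h (reg c 3)

/-- A function whose restriction to `p ⁻¹ P` is constant along paths only depends on the sheet. -/
theorem Dehn_Sec.two {M : Type} (h : Dehn_Sec p A σ l) (hc : GCov G Z p) {P Q : Set X}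
    (hP : P ⊆ A ∩ Q) (hp : IsPathConnected P) {f : Y → M}
    (hf : ∀ y y', JoinedIn (p ⁻¹' (A ∩ Q)) y y' → f y = f y') {y : Y} (hy : p y ∈ P) {x : X}
    (hx : x ∈ P) : f y = f (l y • σ x) :=
  hf _ _ ((h.join hc (fun _ e => (hP e).1) hp hy hx).mono (preimage_mono hP))

theorem Dehn_exists (hs : SecStmt) (hc : GCov G Z p) (hO : O ⊆ Z) (hS : DehnSec D p σU σL h) :
    ∃ u v σ l, Dehn_Lab D p σU σL h u v σ l := by
  obtain ⟨u, sU⟩ := Dehn_exists_lab hc hS.cU hS.pU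
  obtain ⟨v, sL⟩ := Dehn_exists_lab hc hS.cL hS.pL
  have vR : ∀ R y, p y ∈ D.Rg R → v y = u y * h R := fun R y hy => by
    rw [sU.two hc (Dehn_Rg D R) (D.pcR R) (fun _ _ => sL.lc hc inter_subset_right) hy (D.rm R),
      hS.hol, ← mul_smul, sL.base hc _ (Dehn_Rg D R (D.rm R)).2]
  choose q0 h0 using fun c => (D.ne c).1
  have k0 : ∀ c, p (σU (q0 c)) = q0 c := fun c => hS.pU _ (Dehn_U1 D c (h0 c).1).2
  have h1 : ∀ c, ∃ (σ : X → Y) (l : Y → G), Dehn_Sec p (D.B c) σ l ∧ σ (q0 c) = σU (q0 c) :=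
    fun c => by
      obtain ⟨x, hx⟩ := D.ctB c
      obtain ⟨σ, a1, a2, a3, -⟩ := hs G X Y Z p hc (D.B c) x
        (fun z hz => hO (D.cover ▸ Or.inr (mem_iUnion.2 ⟨c, hz⟩))) hx (σU (q0 c))
        ((k0 c).symm ▸ (Dehn_U1 D c (h0 c).1).1)
      obtain ⟨l, hl⟩ := Dehn_exists_lab hc a1 a2
      exact ⟨σ, l, hl, by rwa [k0] at a3⟩
  choose σ l sB e0 using h1
  have u1 : ∀ c y, p y ∈ D.U1 c → u y = l c y := fun c y hy => by
    rw [(sB c).two hc (Dehn_U1 D c) (D.pc c).1 (fun _ _ => sU.lc hc inter_subset_right) hy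
      (h0 c).1, e0, sU.base hc _ (Dehn_U1 D c (h0 c).1).2]
  have v1 : ∀ c y k, ∀ P ⊆ D.B c ∩ D.Lo, IsPathConnected P → (D.U1 c ∩ P).Nonempty →
      D.U1 c ∩ P ⊆ D.Rg (reg c k) → p y ∈ P → v y = l c y * h (reg c k) := by
    rintro c y k P hP hp ⟨x, hx⟩ hR hy
    have e := (sB c).proj hc (l c y) (hP hx.2).1
    rw [(sB c).two hc hP hp (fun _ _ => sL.lc hc inter_subset_right) hy hx.2,
      vR _ _ (e.symm ▸ hR hx), u1 c _ (e.symm ▸ hx.1), (sB c).base hc _ (hP hx.2).1]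
  have u2 : ∀ c y, p y ∈ D.U2 c → u y = l c y * (h (reg c 1) * (h (reg c 2))⁻¹) := fun c y hy => by
    obtain ⟨x, hx⟩ := (D.ne c).2.2.1
    have e := (sB c).proj hc (l c y) (Dehn_U2 D c hx.1).1
    have a1 := v1 c (l c y • σ c x) 1 _ (Dehn_L2 D c) (D.pc c).2.2.2 (D.ne c).2.1 (D.sub c).2.1
      (e.symm ▸ hx.2)
    rw [vR _ _ (e.symm ▸ (D.sub c).2.2.1 hx), (sB c).base hc _ (Dehn_U2 D c hx.1).1] at a1
    rw [(sB c).two hc (Dehn_U2 D c) (D.pc c).2.1 (fun _ _ => sU.lc hc inter_subset_right) hy hx.1,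
      ← mul_assoc, ← a1, mul_inv_cancel_right]
  refine ⟨u, v, σ, l, sU, sL, sB, vR, u1, u2, fun c => ?_⟩
  obtain ⟨x, hx⟩ := (D.ne c).2.2.2
  have e := (sB c).sec x (Dehn_U2 D c hx.1).1
  have a1 := v1 c (σ c x) 0 _ (Dehn_L1 D c) (D.pc c).2.2.1 (D.ne c).1 (D.sub c).1 (e.symm ▸ hx.2)
  rw [vR _ _ (e.symm ▸ (D.sub c).2.2.2 hx), u2 c _ (e.symm ▸ hx.1), mul_assoc] at a1
  exact (mul_left_cancel a1).symm

/-- The four quadrants at a crossing. -/
theorem Dehn_Lab.quad {u v : Y → G} {σ : Cr → X → Y} {l : Cr → Y → G}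
    (H : Dehn_Lab D p σU σL h u v σ l) (hc : GCov G Z p) (c : Cr) {M : Type} [AddCommGroup M]
    (fU fL : Y → M) (e : Reg × G → M) (hR : ∀ R y, p y ∈ D.Rg R → fU y - fL y = e (R, u y))
    (hU : ∀ y y', JoinedIn (p ⁻¹' (D.B c ∩ D.Up)) y y' → fU y = fU y')
    (hL : ∀ y y', JoinedIn (p ⁻¹' (D.B c ∩ D.Lo)) y y' → fL y = fL y')
    (h0 : ∀ y, p y ∈ D.U1 c → fU y = 0) :
    (∀ y, p y ∈ D.L1 c → fL y = -e (reg c 0, l c y)) ∧
    (∀ y, p y ∈ D.L2 c → fL y = -e (reg c 1, l c y)) ∧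
    (∀ y, p y ∈ D.U2 c →
      fU y = e (reg c 2, l c y * (h (reg c 1) * (h (reg c 2))⁻¹)) - e (reg c 1, l c y)) ∧
    ∀ g, e (reg c 0, g) - e (reg c 1, g) + e (reg c 2, g * (h (reg c 1) * (h (reg c 2))⁻¹)) -
      e (reg c 3, g * (h (reg c 1) * (h (reg c 2))⁻¹)) = 0 := by
  have sB := H.sB c
  have a1 : ∀ y k, ∀ P ⊆ D.B c ∩ D.Lo, IsPathConnected P → (D.U1 c ∩ P).Nonempty →
      D.U1 c ∩ P ⊆ D.Rg (reg c k) → p y ∈ P → fL y = -e (reg c k, l c y) := by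
    rintro y k P hP hp ⟨x, hx⟩ hs hy
    have b := sB.proj hc (l c y) (hP hx.2).1
    have b1 := hR _ _ (b.symm ▸ hs hx)
    rw [h0 _ (b.symm ▸ hx.1), H.u1 c _ (b.symm ▸ hx.1), sB.base hc _ (hP hx.2).1, zero_sub] at b1
    rw [sB.two hc hP hp hL hy hx.2, ← b1, neg_neg]
  have a2 := fun y => a1 y 0 _ (Dehn_L1 D c) (D.pc c).2.2.1 (D.ne c).1 (D.sub c).1
  have a3 := fun y => a1 y 1 _ (Dehn_L2 D c) (D.pc c).2.2.2 (D.ne c).2.1 (D.sub c).2.1
  have a4 : ∀ y, p y ∈ D.U2 c →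
      fU y = e (reg c 2, l c y * (h (reg c 1) * (h (reg c 2))⁻¹)) - e (reg c 1, l c y) := by
    intro y hy
    obtain ⟨x, hx⟩ := (D.ne c).2.2.1
    have b := sB.proj hc (l c y) (Dehn_U2 D c hx.1).1
    have b1 := hR _ _ (b.symm ▸ (D.sub c).2.2.1 hx)
    rw [a3 _ (b.symm ▸ hx.2), H.u2 c _ (b.symm ▸ hx.1), sB.base hc _ (Dehn_U2 D c hx.1).1] at b1
    rw [sB.two hc (Dehn_U2 D c) (D.pc c).2.1 hU hy hx.1, ← b1]
    abel
  refine ⟨a2, a3, a4, fun g => ?_⟩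
  obtain ⟨x, hx⟩ := (D.ne c).2.2.2
  have b := sB.proj hc g (Dehn_U2 D c hx.1).1
  have b1 := hR _ _ (b.symm ▸ (D.sub c).2.2.2 hx)
  rw [a2 _ (b.symm ▸ hx.2), a4 _ (b.symm ▸ hx.1), H.u2 c _ (b.symm ▸ hx.1),
    sB.base hc _ (Dehn_U2 D c hx.1).1] at b1
  rw [← b1]
  abel

end Pool.Agent.MP_bc14e1_gt

end

section

open Set Metric
open scoped Classical

namespace Pool.Agent.MP_bc14e1_gt

section

variable {G X Y Reg Cr : Type} [Group G] [TopologicalSpace X] [TopologicalSpace Y] [MulAction G Y]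
  [ContinuousConstSMul G Y] {Z O : Set X} {p : Y → X} {reg : Cr → Fin 4 → Reg}
  {D : DehnData O reg} {σU σL : X → Y} {h : Reg → G} {u v : Y → G} {σ : Cr → X → Y}
  {l : Cr → Y → G} {S : Type} [CommRing S]

/-- The open cover. -/
def Dehn_A (D : DehnData O reg) (p : Y → X) : Bool ⊕ Cr → Set Y
  | .inl false => p ⁻¹' D.Up
  | .inl true => p ⁻¹' D.Lo
  | .inr c => p ⁻¹' D.B c

theorem Dehn_A_open (D : DehnData O reg) (hp : Continuous p) : ∀ i, IsOpen (Dehn_A D p i)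
  | .inl false => D.opU.preimage hp
  | .inl true => D.opL.preimage hp
  | .inr c => (D.opB c).preimage hp

omit [TopologicalSpace Y] in
theorem Dehn_A_union (D : DehnData O reg) (p : Y → X) : ⋃ i, Dehn_A D p i = p ⁻¹' O := by
  ext y
  refine Iff.trans ?_ (Set.ext_iff.1 D.cover (p y))
  simp only [mem_iUnion, Sum.exists, Bool.exists_bool, mem_union]
  rfl

omit [TopologicalSpace Y] in
theorem Dehn_A_sub (D : DehnData O reg) (p : Y → X) (i : Bool ⊕ Cr) : Dehn_A D p i ⊆ p ⁻¹' O :=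
  Dehn_A_union D p ▸ subset_iUnion _ i

theorem Dehn_pair {M : Type} {J : Bool ⊕ Cr → Bool ⊕ Cr → Prop} {f : Bool ⊕ Cr → M}
    (hs : ∀ i j, J i j → J j i) (h0 : ∀ c c', J (.inr c) (.inr c') → c = c')
    (h1 : J (.inl false) (.inl true) → f (.inl false) = f (.inl true))
    (h2 : ∀ b c, J (.inr c) (.inl b) → f (.inr c) = f (.inl b)) : ∀ i j, J i j → f i = f j
  | .inl false, .inl false, _ => rfl
  | .inl true, .inl true, _ => rfl
  | .inl false, .inl true, e => h1 e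
  | .inl true, .inl false, e => (h1 (hs _ _ e)).symm
  | .inl b, .inr c, e => (h2 b c (hs _ _ e)).symm
  | .inr c, .inl b, e => h2 b c e
  | .inr c, .inr c', e => by rw [h0 c c' e]

theorem Dehn_fin {α M : Type} [AddCommGroup M] [Module S M] {W : Submodule S M}
    (F : (α →₀ S) →ₗ[S] M) (hF : ∀ z, F (Finsupp.single z 1) ∈ W) (x : α →₀ S) : F x ∈ W := by
  induction x using Finsupp.induction_linear with
  | zero => simp
  | add a b ha hb => rw [map_add]; exact add_mem ha hb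
  | single z a =>
    rw [← mul_one a, ← smul_eq_mul, ← Finsupp.smul_single, map_smul]
    exact W.smul_mem _ (hF z)

theorem Dehn_pc {M : Type} [AddCommGroup M] [Module S M] {A A' : Set Y} {F F' : Y → M}
    {P : Tot S Y →ₗ[S] M} (h : ∀ c ∈ CH S A, val0 S F (dT S Y c) = P c)
    (h' : ∀ c ∈ CH S A', val0 S F' (dT S Y c) = P c) (y y' : Y) (e : JoinedIn (A ∩ A') y y') :
    F y - F' y = F y' - F' y' := by
  obtain ⟨γ, hγ⟩ := e
  have h1 := (h _ (pth_mem_CH (γ := γ.toContinuousMap) fun t => (hγ t).1)).trans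
    (h' _ (pth_mem_CH (γ := γ.toContinuousMap) fun t => (hγ t).2)).symm
  rw [Dehn_val0_pth, Dehn_val0_pth, Path.coe_toContinuousMap, γ.source, γ.target] at h1
  rw [sub_eq_sub_iff_sub_eq_sub, ← neg_sub, h1, neg_sub]

theorem Dehn_if {P Q : Set X} (hp : Continuous p) (hP : IsOpen P) (hQ : IsOpen Q)
    (hd : Disjoint P Q) {y y' : Y} (e : JoinedIn (p ⁻¹' (P ∪ Q)) y y') : p y ∈ P ↔ p y' ∈ P :=
  ⟨Dehn_side (hP.preimage hp) (hQ.preimage hp) (hd.preimage p) e,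
    Dehn_side (hP.preimage hp) (hQ.preimage hp) (hd.preimage p) e.symm⟩

/-- The potentials. -/
theorem Dehn_Lab.phi (H : Dehn_Lab D p σU σL h u v σ l) (hc : GCov G Z p) :
    ∃ φ : Bool ⊕ Cr → Y → (Reg × G →₀ S),
      (∀ i j x y, JoinedIn (Dehn_A D p i ∩ Dehn_A D p j) x y →
        φ i x - φ j x - (φ i y - φ j y) ∈ LinearMap.range (d2A S reg h)) ∧
      (∀ R y, p y ∈ D.Rg R → φ (.inl false) y - φ (.inl true) y - Finsupp.single (R, u y) 1 ∈
        LinearMap.range (d2A S reg h)) ∧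
      ∀ (M : Type) [AddCommGroup M] [Module S M] (L : (Reg × G →₀ S) →ₗ[S] M)
        (F : Bool ⊕ Cr → Y → M) (P : Tot S Y →ₗ[S] M),
        (∀ i, ∀ c ∈ CH S (Dehn_A D p i), val0 S (F i) (dT S Y c) = P c) →
        (∀ R y, p y ∈ D.Rg R → F (.inl false) y - F (.inl true) y =
          L (Finsupp.single (R, u y) 1)) →
        (∀ c y, p y ∈ D.U1 c → F (.inl false) y - F (.inr c) y = 0) →
        LinearMap.range (d2A S reg h) ≤ LinearMap.ker L ∧ ∀ i j y, y ∈ Dehn_A D p i →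
          y ∈ Dehn_A D p j → F i y - L (φ i y) = F j y - L (φ j y) := by
  have dj : ∀ c c' x, x ∈ D.B c → x ∈ D.B c' → c = c' := fun c c' x h1 h2 =>
    by_contra fun e => disjoint_left.1 (D.djB e) h1 h2
  have dR : ∀ R R' x, x ∈ D.Rg R → x ∈ D.Rg R' → R = R' := fun c c' x h1 h2 =>
    by_contra fun e => disjoint_left.1 (D.djR e) h1 h2
  obtain ⟨α, hα⟩ : ∃ α : Cr → Y → (Reg × G →₀ S), ∀ c y, α c y = if p y ∈ D.U1 c then 0 else
    Finsupp.single (reg c 2, l c y * (h (reg c 1) * (h (reg c 2))⁻¹)) 1 -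
      Finsupp.single (reg c 1, l c y) 1 := ⟨_, fun _ _ => rfl⟩
  obtain ⟨β, hβ⟩ : ∃ β : Cr → Y → (Reg × G →₀ S), ∀ c y, β c y = if p y ∈ D.L1 c then
    -Finsupp.single (reg c 0, l c y) 1 else -Finsupp.single (reg c 1, l c y) 1 :=
    ⟨_, fun _ _ => rfl⟩
  obtain ⟨φU, φL, eU, eL, eR⟩ : ∃ φU φL : Y → (Reg × G →₀ S),
      (∀ c y, p y ∈ D.B c → φU y = α c y) ∧ (∀ c y, p y ∈ D.B c → φL y = β c y) ∧
      ∀ R y, p y ∈ D.Rg R → (¬ ∃ c, p y ∈ D.B c) → φU y - φL y = Finsupp.single (R, u y) 1 := by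
    refine ⟨fun y => if e : ∃ c, p y ∈ D.B c then α e.choose y else
      if e : ∃ R, p y ∈ D.Rg R then Finsupp.single (e.choose, u y) 1 else 0,
      fun y => if e : ∃ c, p y ∈ D.B c then β e.choose y else 0, fun c y hy => ?_,
      fun c y hy => ?_, fun R y hy e => ?_⟩
    · have e : ∃ c, p y ∈ D.B c := ⟨c, hy⟩
      simp only [dif_pos e, dj _ _ _ e.choose_spec hy]
    · have e : ∃ c, p y ∈ D.B c := ⟨c, hy⟩
      simp only [dif_pos e, dj _ _ _ e.choose_spec hy]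
    · have e' : ∃ R, p y ∈ D.Rg R := ⟨R, hy⟩
      simp only [dif_neg e, dif_pos e', dR _ _ _ e'.choose_spec hy, sub_zero]
  have cU : ∀ c x, x ∈ D.B c ∩ D.Up → x ∉ D.U1 c → x ∈ D.U2 c := fun c x h1 h2 =>
    (((D.un c).1.symm ▸ h1 : x ∈ D.U1 c ∪ D.U2 c)).resolve_left h2
  have cL : ∀ c x, x ∈ D.B c ∩ D.Lo → x ∉ D.L1 c → x ∈ D.L2 c := fun c x h1 h2 =>
    (((D.un c).2.symm ▸ h1 : x ∈ D.L1 c ∪ D.L2 c)).resolve_left h2
  have k1 : ∀ R y, p y ∈ D.Rg R →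
      φU y - φL y - Finsupp.single (R, u y) 1 ∈ LinearMap.range (d2A S reg h) := by
    intro R y hy
    by_cases e : ∃ c, p y ∈ D.B c
    swap
    · rw [eR R y hy e, sub_self]
      exact zero_mem _
    obtain ⟨c, e⟩ := e
    rw [eU c y e, eL c y e, hα, hβ]
    have b1 := cU c _ ⟨e, (Dehn_Rg D R hy).1⟩
    have b2 := cL c _ ⟨e, (Dehn_Rg D R hy).2⟩
    split_ifs with a1 a2 a2
    · rw [dR _ _ _ hy ((D.sub c).1 ⟨a1, a2⟩), H.u1 c y a1]
      simp
    · rw [dR _ _ _ hy ((D.sub c).2.1 ⟨a1, b2 a2⟩), H.u1 c y a1]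
      simp
    · rw [dR _ _ _ hy ((D.sub c).2.2.2 ⟨b1 a1, a2⟩), H.u2 c y (b1 a1)]
      refine ⟨Finsupp.single (c, l c y) 1, ?_⟩
      rw [d2A, Finsupp.linearCombination_single, one_smul]
      abel
    · rw [dR _ _ _ hy ((D.sub c).2.2.1 ⟨b1 a1, b2 a2⟩), H.u2 c y (b1 a1)]
      simp
  have eRg : ∀ y, p y ∈ D.Up → p y ∈ D.Lo → ∃ R, p y ∈ D.Rg R := fun y h1 h2 =>
    mem_iUnion.1 (D.unR.symm ▸ (⟨h1, h2⟩ : p y ∈ D.Up ∩ D.Lo))
  refine ⟨Sum.elim (fun b => cond b φL φU) 0, fun i j x y e => ?_, k1,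
    fun M _ _ L F P hP hR h0 => ?_⟩
  · rw [sub_sub_sub_comm, ← Submodule.Quotient.eq]
    refine Dehn_pair (J := fun i j => JoinedIn (Dehn_A D p i ∩ Dehn_A D p j) x y)
      (f := fun i => Submodule.Quotient.mk (Sum.elim (fun b => cond b φL φU) 0 i x -
        Sum.elim (fun b => cond b φL φU) 0 i y)) (fun i j e => inter_comm _ _ ▸ e)
      (fun c c' e => dj c c' _ e.source_mem.1 e.source_mem.2) (fun e => ?_) ?_ i j e
    · obtain ⟨R, hR⟩ := eRg x e.source_mem.1 e.source_mem.2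
      have hR' : p y ∈ D.Rg R := by
        refine (Dehn_if hc.cont (D.opR R) (Q := ⋃ R' ∈ ({R}ᶜ : Set Reg), D.Rg R')
          (isOpen_biUnion fun R' _ => D.opR R')
          (disjoint_iUnion₂_right.2 fun R' e => D.djR (Ne.symm e)) (e.mono fun z hz => ?_)).1 hR
        obtain ⟨R', e⟩ := eRg z hz.1 hz.2
        by_cases e' : R' = R
        exacts [.inl (e' ▸ e), .inr (mem_biUnion e' e)]
      have := sub_mem (k1 R x hR) (k1 R y hR')
      rw [H.sU.lc hc (P := D.Up ∩ D.Lo) inter_subset_left e, sub_sub_sub_cancel_right] at this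
      rw [Submodule.Quotient.eq, sub_sub_sub_comm]
      exact this
    · rintro (_ | _) c e
      · have e' : JoinedIn (p ⁻¹' (D.U1 c ∪ D.U2 c)) x y := (D.un c).1.symm ▸ e
        change Submodule.Quotient.mk (0 - 0) = Submodule.Quotient.mk (φU x - φU y)
        rw [eU c x e.source_mem.1, eU c y e.target_mem.1, hα, hα, sub_self,
          (H.sB c).lc hc (P := D.B c ∩ D.Up) inter_subset_left e,
          Dehn_if hc.cont (D.op c).1 (D.op c).2.1 (D.dj c).1 e', sub_self]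
      · have e' : JoinedIn (p ⁻¹' (D.L1 c ∪ D.L2 c)) x y := (D.un c).2.symm ▸ e
        change Submodule.Quotient.mk (0 - 0) = Submodule.Quotient.mk (φL x - φL y)
        rw [eL c x e.source_mem.1, eL c y e.target_mem.1, hβ, hβ, sub_self,
          (H.sB c).lc hc (P := D.B c ∩ D.Lo) inter_subset_left e,
          Dehn_if hc.cont (D.op c).2.2.1 (D.op c).2.2.2 (D.dj c).2 e', sub_self]
  have q := fun c => H.quad hc c (fun y => F (.inl false) y - F (.inr c) y)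
    (fun y => F (.inl true) y - F (.inr c) y) (fun z => L (Finsupp.single z 1))
    (fun R y hy => by rw [sub_sub_sub_cancel_right, hR R y hy])
    (fun y y' e => Dehn_pc (hP (.inl false)) (hP (.inr c)) y y' (inter_comm _ _ ▸ e))
    (fun y y' e => Dehn_pc (hP (.inl true)) (hP (.inr c)) y y' (inter_comm _ _ ▸ e)) (h0 c)
  have hL : LinearMap.range (d2A S reg h) ≤ LinearMap.ker L := by
    rintro _ ⟨x, rfl⟩
    refine Dehn_fin _ (fun z => ?_) x
    rw [LinearMap.mem_ker, d2A, Finsupp.linearCombination_single, one_smul, map_sub, map_add,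
      map_sub]
    exact (q z.1).2.2.2 z.2
  refine ⟨hL, fun i j y hi hj => Dehn_pair (J := fun i j => y ∈ Dehn_A D p i ∧ y ∈ Dehn_A D p j)
    (f := fun i => F i y - L (Sum.elim (fun b => cond b φL φU) 0 i y)) (fun _ _ => And.symm)
    (fun c c' e => dj c c' _ e.1 e.2) (fun e => ?_) ?_ i j ⟨hi, hj⟩⟩
  · obtain ⟨R, e'⟩ := eRg y e.1 e.2
    have a1 : L _ = 0 := hL (k1 R y e')
    rw [map_sub, map_sub, ← hR R y e', sub_eq_zero] at a1
    exact sub_eq_sub_iff_sub_eq_sub.1 a1.symm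
  · rintro (_ | _) c e
    · change F _ y - L 0 = F _ y - L (φU y)
      rw [map_zero, sub_zero, eq_sub_iff_add_eq', ← eq_sub_iff_add_eq, eU c y e.1, hα]
      split_ifs with a1
      · rw [h0 c y a1, map_zero]
      · rw [map_sub]
        exact ((q c).2.2.1 y (cU c _ e a1)).symm
    · change F _ y - L 0 = F _ y - L (φL y)
      rw [map_zero, sub_zero, eq_sub_iff_add_eq', ← eq_sub_iff_add_eq, eL c y e.1, hβ]
      split_ifs with a1
      · rw [map_neg]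
        exact ((q c).1 y a1).symm
      · rw [map_neg]
        exact ((q c).2.1 y (cL c _ e a1)).symm

/-- The lifted paths. -/
theorem Dehn_Lab.ell (H : Dehn_Lab D p σU σL h u v σ l) (hc : GCov G Z p) :
    ∃ γ δ : Reg × G → C(unitInterval, Y), (∀ z t, γ z t ∈ Dehn_A D p (.inl false)) ∧
      (∀ z t, δ z t ∈ Dehn_A D p (.inl true)) ∧ (∀ z, γ z 0 = z.2 • σU D.n) ∧
      (∀ z, γ z 1 = z.2 • σU (D.r z.1)) ∧ (∀ z, δ z 0 = (z.2 * h z.1) • σL (D.r z.1)) ∧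
      (∀ z, δ z 1 = (z.2 * h z.1) • σL D.s) ∧ ∀ (S : Type) [CommRing S] z,
        ellC S (D.ell σU σL h) (Finsupp.single z 1) = pth S (γ z) + pth S (δ z) := by
  have c1 : ∀ R, Continuous (σU ∘ D.a R) := fun R =>
    H.sU.cont.comp_continuous (D.a R).continuous (D.am R)
  have c2 : ∀ R, Continuous (σL ∘ D.b R) := fun R =>
    H.sL.cont.comp_continuous (D.b R).continuous (D.bm R)
  refine ⟨fun z => ⟨fun t => z.2 • σU (D.a z.1 t), (c1 z.1).const_smul _⟩,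
    fun z => ⟨fun t => (z.2 * h z.1) • σL (D.b z.1 t), (c2 z.1).const_smul _⟩,
    fun z t => ?_, fun z t => ?_, fun z => congrArg (fun x => z.2 • σU x) (D.a0 _),
    fun z => congrArg (fun x => z.2 • σU x) (D.a1 _),
    fun z => congrArg (fun x => (z.2 * h z.1) • σL x) (D.b0 _),
    fun z => congrArg (fun x => (z.2 * h z.1) • σL x) (D.b1 _), fun S _ z => ?_⟩
  · exact ((H.sU.proj hc z.2 (D.am z.1 t)).symm ▸ D.am z.1 t : p (z.2 • σU (D.a z.1 t)) ∈ D.Up)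
  · exact ((H.sL.proj hc _ (D.bm z.1 t)).symm ▸ D.bm z.1 t :
      p ((z.2 * h z.1) • σL (D.b z.1 t)) ∈ D.Lo)
  · rw [ellC, Finsupp.linearCombination_single, one_smul, DehnData.ell, psh_pth _ _ (c1 _),
      psh_pth _ _ (c2 _), map_add, map_add, gs, gs, cast_psh, cast_pth, cast_pth,
      psh_psh' _ (continuous_const_smul _),
      psh_pth _ _ ((continuous_const_smul _).comp (map_continuous _)),
      psh_pth _ _ (((continuous_const_smul _).comp (continuous_const_smul _)).comp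
        (map_continuous _))]
    simp only [mul_smul]
    rfl

theorem Dehn_Lab.main (H : Dehn_Lab D p σU σL h u v σ l) (hC : CtrStmt) (hc : GCov G Z p)
    (hS : DehnSec D p σU σL h) (S : Type) [CommRing S] :
    (∀ z ∈ ZC S (p ⁻¹' O) 1, ∃ x : (Reg × G) →₀ S,
      d1A S h x = 0 ∧ z - ellC S (D.ell σU σL h) x ∈ BC S (p ⁻¹' O) 1) ∧
    (∀ x : (Reg × G) →₀ S, d1A S h x = 0 →
      (ellC S (D.ell σU σL h) x ∈ BC S (p ⁻¹' O) 1 ↔ x ∈ LinearMap.range (d2A S reg h))) ∧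
    ∀ g : G, JoinedIn (p ⁻¹' O) (σU D.n) (g • σU D.n) →
      Finsupp.single (false, g) 1 - Finsupp.single (false, 1) 1 ∈ LinearMap.range (d1A S h) := by
  have hA := Dehn_A_open D hc.cont
  obtain ⟨φ, f1, f2, f3⟩ := H.phi (S := S) hc
  obtain ⟨γ, δ, g1, g2, g3, g4, g5, g6, g7⟩ := H.ell hc
  obtain ⟨Th, t1, t2, t3⟩ := Dehn_cech hA _ φ f1
  have hW : ∀ i, BC S (Dehn_A D p i) 1 ≤ BC S (p ⁻¹' O) 1 := fun i =>
    Submodule.map_mono (inf_le_inf_right _ (CH_mono (Dehn_A_sub D p i)))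
  obtain ⟨TU, a1, a2⟩ := H.sU.tail hC hc D.ctU _ (hW (.inl false))
  obtain ⟨TL, a3, a4⟩ := H.sL.tail hC hc D.ctL _ (hW (.inl true))
  choose TB a5 _ using fun c => (H.sB c).tail hC hc (D.ctB c).choose_spec _ (hW (.inr c))
  choose q0 h0 using fun c => (D.ne c).1
  have e0 : ∀ z : Reg × G, δ z 0 = γ z 1 := fun z => by rw [g4, g5, hS.hol, mul_smul]
  have hP : ∀ i, ∀ c ∈ CH S (Dehn_A D p i), val0 S (Sum.elim (fun b => cond b TL TU)
      (fun c y => TB c y + (TU (l c y • σ c (q0 c)) - TB c (l c y • σ c (q0 c)))) i)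
      (dT S Y c) = ((BC S (p ⁻¹' O) 1).mkQ ∘ₗ deg S Y 1) c := by
    rintro ((_ | _) | c) w hw
    · exact a1 w hw
    · exact a3 w hw
    · refine (Dehn_val0_add _ _ _).trans ?_
      rw [a5 c w hw, Dehn_val0_eq (fun x y e => by rw [(H.sB c).lc hc subset_rfl e]) hw, add_zero]
      rfl
  obtain ⟨b1, b2⟩ := f3 _ ((BC S (p ⁻¹' O) 1).mkQ ∘ₗ ellC S (D.ell σU σL h)) _ _ hP
    (fun R y hy => by
      have c1 := a1 _ (pth_mem_CH (g1 (R, u y)))
      have c2 := a3 _ (pth_mem_CH (g2 (R, u y)))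
      rw [Dehn_val0_pth, deg_of_mem (pth_mem_DG _)] at c1 c2
      rw [g3, a2, sub_zero] at c1
      rw [g6, a4, zero_sub, e0] at c2
      rw [LinearMap.comp_apply, g7, map_add, ← c1, ← c2, g4, ← sub_eq_add_neg]
      exact H.sU.two hc (Dehn_Rg D R) (D.pcR R) (f := fun y => TU y - TL y)
        (Dehn_pc (hP (.inl false)) (hP (.inl true))) hy (D.rm R))
    (fun c y hy => by
      refine (sub_add_eq_sub_sub _ _ _).trans (sub_eq_zero.2 ?_)
      exact (H.sB c).two hc (Dehn_U1 D c) (D.pc c).1 (f := fun y => TU y - TB c y)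
        (fun y y' e => Dehn_pc (P := (BC S (p ⁻¹' O) 1).mkQ ∘ₗ deg S Y 1) a1 (a5 c) y y'
          (inter_comm _ _ ▸ e)) hy (h0 c).1)
  let E : Bool ⊕ Cr → Y → (Bool × G →₀ S) := Sum.elim
    (fun b y => Finsupp.single (b, cond b v u y) 1) fun c y => Finsupp.single (false, l c y) 1
  have hE : ∀ i x y, JoinedIn (Dehn_A D p i) x y → E i x = E i y := by
    rintro ((_ | _) | c) x y e
    · exact congrArg (fun g => Finsupp.single (false, g) (1 : S)) (H.sU.lc hc subset_rfl e)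
    · exact congrArg (fun g => Finsupp.single (true, g) (1 : S)) (H.sL.lc hc subset_rfl e)
    · exact congrArg (fun g => Finsupp.single (false, g) (1 : S)) ((H.sB c).lc hc subset_rfl e)
  have hP' : ∀ i, ∀ c ∈ CH S (Dehn_A D p i), val0 S (E i) (dT S Y c) =
      (0 : Tot S Y →ₗ[S] (Bool × G →₀ S)) c := fun i c => Dehn_val0_eq (hE i)
  obtain ⟨b3, b4⟩ := f3 _ (-d1A S h) E _ hP'
    (fun R y hy => by
      rw [LinearMap.neg_apply, d1A, Finsupp.linearCombination_single, one_smul, neg_sub,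
        ← H.vR R y hy]
      rfl)
    fun c y hy => sub_eq_zero.2 (congrArg (fun g => Finsupp.single (false, g) (1 : S))
      (H.u1 c y hy))
  refine ⟨fun z hz => ?_, fun x hx => ⟨?_, fun e => ?_⟩, fun g e => ?_⟩
  · have hd : dT S Y z = 0 := hz.2
    obtain ⟨m, hm⟩ := sdT_small hA (Dehn_A_union D p ▸ hz.1.1)
    have hd' : dT S Y ((sdT S Y ^ m) z) = 0 := by rw [dT_sdT_pow, hd, map_zero]
    refine ⟨Th ((sdT S Y ^ m) z), neg_eq_zero.1 (t3 _ _ _ _ b3 b4 hP' _ (hm m le_rfl) hd'), ?_⟩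
    have c1 := t3 _ _ _ _ b1 b2 hP _ (hm m le_rfl) hd'
    rw [LinearMap.comp_apply, LinearMap.comp_apply, deg_of_mem (sdT_pow_mem_DG m hz.1.2)] at c1
    have c2 := dT_sdHP m z
    rw [hd, map_zero, add_zero] at c2
    have c3 := add_mem (⟨_, ⟨sdHP_mem_CH m hz.1.1, sdHP_mem_DG m hz.1.2⟩, c2⟩ :
      _ ∈ BC S (p ⁻¹' O) 1) ((Submodule.Quotient.eq _).1 c1.symm)
    rwa [sub_add_sub_cancel] at c3
  · rintro ⟨w, hw, e⟩
    have c1 := t2 w (Dehn_A_union D p ▸ hw.1) (e ▸ Dehn_fin _ (fun z => by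
      rw [g7]
      exact add_mem (Submodule.mem_iSup_of_mem _ (pth_mem_CH (g1 z)))
        (Submodule.mem_iSup_of_mem _ (pth_mem_CH (g2 z)))) x)
    have c2 := Dehn_fin (W := LinearMap.range (d2A S reg h))
      (Th ∘ₗ ellC S (D.ell σU σL h) - LinearMap.id - Finsupp.linearCombination S
        (fun z : Bool × G => φ (.inl z.1) (z.2 • cond z.1 (σL D.s) (σU D.n))) ∘ₗ d1A S h)
      (fun z => by
        have d1 := t1 _ _ (pth_mem_CH (g1 z))
        have d2 := t1 _ _ (pth_mem_CH (g2 z))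
        have d3 := f2 z.1 (γ z 1) (by
          rw [g4, H.sU.proj hc _ (Dehn_Rg D _ (D.rm _)).1]
          exact D.rm _)
        rw [Dehn_val0_pth] at d1 d2
        rw [g3] at d1
        rw [g6, e0] at d2
        rw [show u (γ z 1) = z.2 by rw [g4, H.sU.base hc _ (Dehn_Rg D _ (D.rm _)).1]] at d3
        simp only [LinearMap.sub_apply, LinearMap.comp_apply, LinearMap.id_apply, g7, d1A, map_add,
          map_sub, Finsupp.linearCombination_single, one_smul, cond]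
        convert add_mem (add_mem d1 d2) d3 using 1
        abel) x
    rw [LinearMap.sub_apply, LinearMap.sub_apply, LinearMap.comp_apply, LinearMap.comp_apply, hx,
      map_zero, sub_zero, LinearMap.id_apply, ← e] at c2
    simpa using sub_mem c1 c2
  · exact (Submodule.Quotient.mk_eq_zero _).1 (b1 e)
  · have n1 : ∀ g : G, g • σU D.n ∈ Dehn_A D p (.inl false) := fun g =>
      ((H.sU.proj hc g D.ctU.1).symm ▸ D.ctU.1 : p (g • σU D.n) ∈ D.Up)
    rw [← one_smul G (σU D.n), ← mul_smul, mul_one, ← Dehn_A_union] at e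
    have c1 := Dehn_const hA (W := LinearMap.range (d1A S h)) E (fun i j y hi hj =>
      ⟨φ j y - φ i y, by
        rw [sub_eq_sub_iff_sub_eq_sub.1 (b4 i j y hi hj), map_sub, LinearMap.neg_apply,
          LinearMap.neg_apply, neg_sub_neg]⟩) hE (n1 1) (n1 g) e
    simpa only [E, Sum.elim_inl, cond, H.sU.base hc _ D.ctU.1] using c1

end

theorem dehn_stmt (B : Bas1) : DehnStmt := by
  intro G X Y Reg Cr _ _ _ _ _ _ _ _ Z O p reg D σU σL h hc hO hS
  obtain ⟨u, v, σ, l, H⟩ := Dehn_exists B.sec hc hO hS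
  obtain ⟨γ, δ, g1, g2, g3, g4, g5, g6, g7⟩ := H.ell hc
  have e1 : ∀ R, D.ell σU σL h R = pth ℤ (γ (R, 1)) + pth ℤ (δ (R, 1)) := fun R => by
    rw [← g7, ellC, Finsupp.linearCombination_single, one_smul, gs_one]
    exact Finsupp.ext fun _ => rfl
  have hU : ∀ y, p y ∈ D.Up → ∃ g : G, JoinedIn (p ⁻¹' O) y (g • σU D.n) := fun y hy =>
    ⟨_, (H.sU.join hc subset_rfl (Dehn_ctr_pc D.ctU) hy D.ctU.1).mono
      (Dehn_A_sub D p (.inl false))⟩
  refine ⟨fun R => ?_, fun R => ?_, H.hol, fun S _ => (H.main B.ctr hc hS S).1,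
    fun S _ => (H.main B.ctr hc hS S).2.1, fun y hy => ?_, (H.main B.ctr hc hS ℤ).2.2⟩
  · rw [e1]
    exact add_mem ⟨pth_mem_CH fun t => Dehn_A_sub D p _ (g1 _ t), pth_mem_DG _⟩
      ⟨pth_mem_CH fun t => Dehn_A_sub D p _ (g2 _ t), pth_mem_DG _⟩
  · rw [e1, map_add, dT_pth, dT_pth, g3, g4, g5, g6, hS.hol]
    simp only [one_smul, one_mul]
    abel
  · obtain ⟨(_ | _) | c, hi⟩ := mem_iUnion.1 (Dehn_A_union D p ▸ hy)
    · exact hU y hi
    · have R : Reg := Classical.arbitrary _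
      have e := Dehn_Rg D R (D.rm R)
      obtain ⟨g, hg⟩ := hU (v y • σL (D.r R)) ((H.sL.proj hc _ e.2).symm ▸ e.1)
      exact ⟨g, ((H.sL.join hc subset_rfl (Dehn_ctr_pc D.ctL) hi e.2).mono
        (Dehn_A_sub D p (.inl true))).trans hg⟩
    · obtain ⟨x, hx, -⟩ := (D.ne c).1
      have e := Dehn_U1 D c hx
      obtain ⟨g, hg⟩ := hU (l c y • σ c x) (((H.sB c).proj hc _ e.1).symm ▸ e.2)
      exact ⟨g, (((H.sB c).join hc subset_rfl (Dehn_ctr_pc (D.ctB c).choose_spec) hi e.1).mono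
        (Dehn_A_sub D p (.inr c))).trans hg⟩

end Pool.Agent.MP_bc14e1_gt

end

section

open Set Metric
open scoped Classical

namespace Pool.Agent.MP_bc14e1_gt

section Aux

variable {G Y Reg Cr : Type} [Group G] [TopologicalSpace Y] [MulAction G Y]
  [ContinuousConstSMul G Y]

/-- Transport along the powers of `t`. -/
noncomputable def Len2_tr (t : G) (A : Type) : ((A × ℤ) →₀ ℂ) →ₗ[ℂ] ((A × G) →₀ ℂ) :=
  Finsupp.lmapDomain ℂ ℂ fun x => (x.1, t ^ x.2)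

theorem Len2_tr_single (t : G) {A : Type} (x : A × ℤ) (a : ℂ) :
    Len2_tr t A (Finsupp.single x a) = Finsupp.single (x.1, t ^ x.2) a :=
  Finsupp.mapDomain_single

theorem Len2_tr_inj {t : G} (ht : ∀ n : ℤ, t ^ n = 1 → n = 0) (A : Type) :
    Function.Injective (Len2_tr t A) := by
  refine Finsupp.mapDomain_injective fun x y h => ?_
  obtain ⟨h1, h2⟩ := Prod.mk.inj h
  refine Prod.ext h1 (sub_eq_zero.1 (ht _ ?_))
  rw [zpow_sub, h2, mul_inv_cancel]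

theorem Len2_tr_surj {t : G} (ht : ∀ g : G, ∃ n : ℤ, g = t ^ n) (A : Type) :
    Function.Surjective (Len2_tr t A) := by
  refine Finsupp.mapDomain_surjective fun y => ?_
  obtain ⟨n, hn⟩ := ht y.2
  exact ⟨(y.1, n), Prod.ext rfl hn.symm⟩

theorem Len2_d1 (t : G) (gap : Reg → ℤ) (x : (Reg × ℤ) →₀ ℂ) :
    d1A ℂ (fun r => t ^ gap r) (Len2_tr t Reg x) =
      Len2_tr t Bool (d1T gap (fun _ _ => 1) x) := by
  induction x using Finsupp.induction_linear with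
  | zero => simp
  | add a b ha hb => simp only [map_add, ha, hb]
  | single z a =>
    simp only [Len2_tr_single, d1A, d1T, Finsupp.linearCombination_single, map_smul, map_sub,
      one_smul, zpow_add]

theorem Len2_d2 (t : G) (reg : Cr → Fin 4 → Reg) (gap : Reg → ℤ) (x : (Cr × ℤ) →₀ ℂ) :
    d2A ℂ reg (fun r => t ^ gap r) (Len2_tr t Cr x) =
      Len2_tr t Reg (d2T reg gap (fun _ _ => 1) x) := by
  induction x using Finsupp.induction_linear with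
  | zero => simp
  | add a b ha hb => simp only [map_add, ha, hb]
  | single z a =>
    simp only [Len2_tr_single, d2A, d2T, Finsupp.linearCombination_single, map_smul, map_sub,
      map_add, one_smul, div_one, zpow_add, zpow_sub, add_sub_assoc]

theorem Len2_dd {reg : Cr → Fin 4 → Reg} {h : Reg → G}
    (hol : ∀ c, h (reg c 0) = h (reg c 1) * (h (reg c 2))⁻¹ * h (reg c 3)) (x : (Cr × G) →₀ ℂ) :
    d1A ℂ h (d2A ℂ reg h x) = 0 := by
  induction x using Finsupp.induction_linear with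
  | zero => simp
  | add a b ha hb => simp only [map_add, ha, hb, add_zero]
  | single z a =>
    simp only [d2A, d1A, Finsupp.linearCombination_single, map_smul, map_sub, map_add, one_smul,
      hol z.1, mul_assoc, inv_mul_cancel, mul_one]
    rw [smul_eq_zero]
    right
    abel

/-- The singular chain of a chain of the complex over the integers. -/
noncomputable def Len2_E (t : G) (l : Reg → Tot ℤ Y) : ((Reg × ℤ) →₀ ℂ) →ₗ[ℂ] Tw ℂ Y t :=
  (toTw ℂ Y t).toLinearMap ∘ₗ ellC ℂ l ∘ₗ Len2_tr t Reg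

theorem Len2_C (t : G) (a : ℂ) (c : Tw ℂ Y t) : (LaurentPolynomial.C a : Lam ℂ) • c = a • c :=
  act_C t a c

theorem Len2_T (t : G) (l : Reg → Tot ℤ Y) (x : (Reg × ℤ) →₀ ℂ) :
    (LaurentPolynomial.T 1 : Lam ℂ) • Len2_E t l x = Len2_E t l (shT Reg 1 x) := by
  change act ℂ Y t (LaurentPolynomial.T 1) (ellC ℂ l (Len2_tr t Reg x)) =
    ellC ℂ l (Len2_tr t Reg (shT Reg 1 x))
  rw [act_T]
  induction x using Finsupp.induction_linear with
  | zero => simp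
  | add a b ha hb => simp only [map_add, ha, hb]
  | single z a =>
    rw [shT, Finsupp.lmapDomain_apply, Finsupp.mapDomain_single, Len2_tr_single, Len2_tr_single]
    simp only [ellC, Finsupp.linearCombination_single, map_smul]
    rw [← gs_mul, ← zpow_add, add_comm]

theorem Len2_pi (t : G) (l : Reg → Tot ℤ Y) (ζ : Circle) (x : (Reg × ℤ) →₀ ℂ) :
    piL ζ • Len2_E t l x = Len2_E t l (piT Reg 1 ζ x) := by
  rw [piL, sub_smul, Len2_T, Len2_C, piT, LinearMap.sub_apply, map_sub, LinearMap.smul_apply,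
    map_smul, Module.End.one_apply]

theorem Len2_poly (t : G) (l : Reg → Tot ℤ Y) (D : Polynomial ℂ) (x : (Reg × ℤ) →₀ ℂ) :
    (Polynomial.toLaurent D : Lam ℂ) • Len2_E t l x =
      Len2_E t l (Polynomial.aeval (shT Reg 1) D x) := by
  induction D using Polynomial.induction_on generalizing x with
  | C a =>
    rw [Polynomial.toLaurent_C, Len2_C, Polynomial.aeval_C, Module.algebraMap_end_apply, map_smul]
  | add p q hp hq => rw [map_add, add_smul, hp, hq, map_add, LinearMap.add_apply, map_add]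
  | monomial n a h =>
    rw [pow_succ, ← mul_assoc, map_mul, mul_smul, Polynomial.toLaurent_X, Len2_T, h,
      map_mul (Polynomial.aeval (shT Reg 1)) _ Polynomial.X, Polynomial.aeval_X,
      Module.End.mul_apply]

theorem Len2_ev (ζ : Circle) (D : Polynomial ℂ) :
    evL ζ (Polynomial.toLaurent D) = D.eval (ζ : ℂ) := by
  have h1 : evL ζ (LaurentPolynomial.T 1) = ζ := by
    rw [evL, LaurentPolynomial.T, AddMonoidAlgebra.lift_single, one_smul]
    exact congrArg (fun z : Circle => (z : ℂ)) (zpow_one ζ)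
  induction D using Polynomial.induction_on with
  | C a =>
    rw [Polynomial.toLaurent_C, LaurentPolynomial.C_eq_algebraMap, AlgHom.commutes,
      Polynomial.eval_C]
    rfl
  | add p q hp hq => rw [map_add, map_add, hp, hq, Polynomial.eval_add]
  | monomial n a h =>
    rw [pow_succ, ← mul_assoc, map_mul, map_mul, h, Polynomial.toLaurent_X, h1,
      Polynomial.eval_mul (q := Polynomial.X), Polynomial.eval_X]

end Aux

theorem len2_stmt : Len2Stmt := by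
  intro G Y Reg Cr _ _ _ _ f t hf reg gap l yn ys ζ D hs hi hT
  have hZ : ∀ x, d1T gap (fun _ _ => 1) x = 0 →
      Len2_E t l x ∈ ZN (dTw ℂ Y t) (lvTw ℂ t f hf) := by
    intro x hx
    refine D.ellC_mem (S := ℂ) Subset.rfl (fun g y hy => ?_) (by rw [Len2_d1, hx, map_zero])
    obtain ⟨n, rfl⟩ := hs g
    exact (Inv.zpow (s := t) (A := f ⁻¹' Ioo (-1) 1)
      (fun y => by simp only [mem_preimage, hf]) n y).2 hy
  have hB : ∀ x ∈ LinearMap.range (d2T reg gap fun _ _ => 1),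
      Len2_E t l x ∈ BN (dTw ℂ Y t) (lvTw ℂ t f hf) := by
    rintro _ ⟨w, rfl⟩
    have h := (D.inj ℂ _ (Len2_dd D.hol (Len2_tr t Cr w))).2 ⟨_, rfl⟩
    rw [Len2_d2] at h
    exact h
  have hG : ∀ y ∈ ZN (dTw ℂ Y t) (lvTw ℂ t f hf), ∃ x, d1T gap (fun _ _ => 1) x = 0 ∧
      y - Len2_E t l x ∈ BN (dTw ℂ Y t) (lvTw ℂ t f hf) := by
    intro y hy
    obtain ⟨x, h1, h2⟩ := D.gen ℂ y hy
    obtain ⟨x, rfl⟩ := Len2_tr_surj hs Reg x
    refine ⟨x, Len2_tr_inj hi Bool ?_, h2⟩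
    rw [← Len2_d1, h1, map_zero]
  obtain ⟨P, hP, ha⟩ := hT.ann
  obtain ⟨x₁, x₂, h₁, h₂, hb⟩ := hT.top
  refine ⟨⟨Polynomial.toLaurent P, by rwa [Len2_ev], fun y hy => ?_⟩,
    _, hZ x₁ h₁, _, hZ x₂ h₂, fun y hy => ?_⟩
  · obtain ⟨x, hx, hy'⟩ := hG y hy
    have h := add_mem (Submodule.smul_mem _ (piL ζ * Polynomial.toLaurent P) hy') (hB _ (ha x hx))
    rwa [← Len2_pi, ← Len2_poly, ← mul_smul, ← smul_add, sub_add_cancel] at h
  · obtain ⟨x, hx, hy'⟩ := hG y hy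
    obtain ⟨μ₁, μ₂, y', h3, h4⟩ := hb x hx
    refine ⟨μ₁, μ₂, _, hZ y' h3, ?_⟩
    have h := add_mem hy' (hB _ h4)
    rw [map_sub, map_sub, map_sub, map_smul, map_smul, ← Len2_pi, ← Len2_C, ← Len2_C] at h
    convert h using 1
    abel

end Pool.Agent.MP_bc14e1_gt

end

section

open Set Metric
open scoped Classical

namespace Pool.Agent.MP_bc14e1_gt

theorem Norm2_pre {X : Type} [TopologicalSpace X] {A : Set X} {x : X} (h : Ctr A x) :
    IsPreconnected A := by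
  obtain ⟨-, H, h1, h2, h3, h4⟩ := h
  refine isPreconnected_of_forall x fun y hy => ⟨H '' (Icc 0 1 ×ˢ {y}), ?_, ?_, ?_, ?_⟩
  · rintro _ ⟨⟨a, b⟩, ⟨ha, hb⟩, rfl⟩
    exact h2 ⟨ha, (mem_singleton_iff.1 hb : b = y) ▸ hy⟩
  · exact ⟨(1, y), ⟨⟨zero_le_one, le_rfl⟩, rfl⟩, h4 y hy⟩
  · exact ⟨(0, y), ⟨⟨le_rfl, zero_le_one⟩, rfl⟩, h3 y hy⟩
  · exact (isPreconnected_Icc.prod isPreconnected_singleton).image _
      (h1.mono (prod_mono subset_rfl (singleton_subset_iff.2 hy)))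

theorem Norm2_sep {G X Y : Type} [Group G] [TopologicalSpace X] [TopologicalSpace Y]
    [MulAction G Y] [ContinuousConstSMul G Y] {Z : Set X} {p : Y → X} (h : GCov G Z p) :
    IsSeparatedMap p := by
  intro y1 y2 e hne
  obtain ⟨U, -, hU, -, σ, -, h2, h3⟩ := h.sec (p y1) (h.mem y1)
  obtain ⟨g1, e1⟩ := h.trans (σ (p y1)) y1 (h2 _ hU)
  obtain ⟨g2, e2⟩ := h.trans (σ (p y1)) y2 ((h2 _ hU).trans e)
  refine ⟨(fun y => g1⁻¹ • y) ⁻¹' (σ '' U), (fun y => g2⁻¹ • y) ⁻¹' (σ '' U),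
    h3.preimage (continuous_const_smul _), h3.preimage (continuous_const_smul _),
    ⟨p y1, hU, (eq_inv_smul_iff.2 e1.symm)⟩, ⟨p y1, hU, (eq_inv_smul_iff.2 e2.symm)⟩, ?_⟩
  rw [Set.disjoint_left]
  rintro y ⟨a, ha, ea⟩ ⟨b, hb, eb⟩
  have hab : a = b := by rw [← h2 a ha, ← h2 b hb, ea, eb, h.inv, h.inv]
  have h4 : (g2 * g1⁻¹) • y = y := by
    have : g1⁻¹ • y = g2⁻¹ • y := ea.symm.trans (hab ▸ eb)
    rw [mul_smul, this, smul_inv_smul]
  apply hne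
  rw [e2, mul_inv_eq_one.1 (h.free _ _ h4)]
  exact e1

section

variable {X G Y A G' Y' Reg Cr : Type} [TopologicalSpace X] [Group G]
  [TopologicalSpace Y] [MulAction G Y] [ContinuousConstSMul G Y] [AddCommGroup A]
  [Group G'] [TopologicalSpace Y'] [MulAction G' Y'] [ContinuousConstSMul G' Y']
  {F O : Set X} {p : Y → X} {t : G} {τ : A ≃ₗ[ℤ] A} {m : ℕ}
  {α : Tot ℤ Y →+ A} {q : Y' → Y} {j : Multiplicative A →* G'} {t' : G'} {l' : Y' → A}

theorem Norm2_lift (B : Bas1) (h1 : GCov G Fᶜ p) (P : Pack2 F p t τ m α q j t' l') {U : Set X}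
    {x : X} (hU : U ⊆ Fᶜ) (hc : Ctr U x) {σ : X → Y} (h2 : ContinuousOn σ U)
    (h3 : ∀ x ∈ U, p (σ x) = x) : ∃ σ' : X → Y', ContinuousOn σ' U ∧ ∀ x ∈ U, q (σ' x) = σ x := by
  obtain ⟨y, hy⟩ := (B.cov _ _ _ _ _ P.cov).2.2.2.1 (σ x) trivial
  have e : (p ∘ q) y = x := by rw [Function.comp_apply, hy, h3 x hc.1]
  obtain ⟨σ', k1, k2, k3, -⟩ := B.sec _ _ _ _ _ P.tc.cov U x hU hc y (e ▸ hc.1)
  refine ⟨σ', k1, (Norm2_sep h1).eqOn_of_comp_eqOn
    (B.cov _ _ _ _ _ h1).2.1.isLocallyInjective (Norm2_pre hc)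
    (P.cov.cont.comp_continuousOn k1) h2 (fun z hz => (k2 z hz).trans (h3 z hz).symm) hc.1 ?_⟩
  rw [e] at k3
  rw [k3, hy]

omit [ContinuousConstSMul G Y] [ContinuousConstSMul G' Y'] in
theorem Norm2_qt (P : Pack2 F p t τ m α q j t' l') (n : ℤ) (y : Y') :
    q (t' ^ n • y) = t ^ n • q y := by
  induction n using Int.induction_on generalizing y with
  | zero => simp
  | succ n ih => rw [zpow_add_one, zpow_add_one, mul_smul, mul_smul, ih, P.qt]
  | pred n ih =>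
    rw [zpow_sub_one, zpow_sub_one, mul_smul, mul_smul, ih]
    congr 1
    rw [eq_inv_smul_iff, ← P.qt, smul_inv_smul]

omit [ContinuousConstSMul G Y] [ContinuousConstSMul G' Y'] in
theorem Norm2_qj (P : Pack2 F p t τ m α q j t' l') (a : Multiplicative A) (y : Y') :
    q (j a • y) = q y := P.cov.inv ⟨j a, a, rfl⟩ y

omit [ContinuousConstSMul G Y] [ContinuousConstSMul G' Y'] in
theorem Norm2_lt (P : Pack2 F p t τ m α q j t' l') (n : ℤ) (y : Y') :
    l' (t' ^ n • y) = (τ ^ n) (l' y) := by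
  induction n using Int.induction_on generalizing y with
  | zero => simp
  | succ n ih => rw [zpow_add_one, zpow_add_one, mul_smul, ih, P.lt, LinearEquiv.mul_apply]
  | pred n ih =>
    rw [zpow_sub_one, zpow_sub_one, mul_smul, ih, LinearEquiv.mul_apply]
    congr 1
    apply τ.injective
    rw [← P.lt, smul_inv_smul, ← LinearEquiv.mul_apply, mul_inv_cancel]
    rfl

omit [ContinuousConstSMul G Y] [ContinuousConstSMul G' Y'] in
theorem Norm2_conj (P : Pack2 F p t τ m α q j t' l') (n : ℤ) (a : A) :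
    t' ^ n * j (Multiplicative.ofAdd a) = j (Multiplicative.ofAdd ((τ ^ n) a)) * t' ^ n := by
  induction n using Int.induction_on generalizing a with
  | zero => simp
  | succ n ih =>
    rw [zpow_add_one, zpow_add_one, LinearEquiv.mul_apply, ← mul_assoc, ← ih, ← P.conj]
    group
  | pred n ih =>
    have e : τ (τ⁻¹ a) = a := by
      rw [← LinearEquiv.mul_apply, mul_inv_cancel]
      rfl
    rw [zpow_sub_one, zpow_sub_one, LinearEquiv.mul_apply, ← mul_assoc, ← ih]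
    conv_lhs => rw [← e, ← P.conj]
    group

variable {reg : Cr → Fin 4 → Reg} {gap : Reg → ℤ} {D : DehnData O reg} {σU σL : X → Y}

theorem Norm2_sec [Finite A] (B : Bas1) (h1 : GCov G Fᶜ p) (P : Pack2 F p t τ m α q j t' l')
    (hτ : ∀ a, τ a = a → a = 0) (hO : O ⊆ Fᶜ) (S : DehnSec D p σU σL fun r => t ^ gap r)
    {R0 R1 : Reg} (g0 : gap R0 = 0) (g1 : gap R1 = 1) :
    ∃ (a : Reg → A) (σU' σL' : X → Y'),
      DehnSec D (p ∘ q) σU' σL' (fun r => j (Multiplicative.ofAdd (a r)) * t' ^ gap r) ∧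
      a R0 = 0 ∧ a R1 = 0 ∧ (∀ x ∈ D.Up, q (σU' x) = σU x) ∧ ∀ x ∈ D.Lo, q (σL' x) = σL x := by
  have hU : D.Up ⊆ Fᶜ := fun x hx => hO (D.cover ▸ Or.inl (Or.inl hx))
  have hL : D.Lo ⊆ Fᶜ := fun x hx => hO (D.cover ▸ Or.inl (Or.inr hx))
  obtain ⟨sU, u1, u2⟩ := Norm2_lift B h1 P hU D.ctU S.cU S.pU
  obtain ⟨sL, l1, l2⟩ := Norm2_lift B h1 P hL D.ctL S.cL S.pL
  have hr : ∀ R, D.r R ∈ D.Up ∩ D.Lo := fun R => D.unR ▸ mem_iUnion.2 ⟨R, D.rm R⟩
  have key : ∀ R, ∃ a : A,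
      sU (D.r R) = j (Multiplicative.ofAdd a) • t' ^ gap R • sL (D.r R) := by
    intro R
    obtain ⟨⟨_, a, rfl⟩, e⟩ := P.cov.trans (t' ^ gap R • sL (D.r R)) (sU (D.r R)) (by
      rw [Norm2_qt P, u2 _ (hr R).1, l2 _ (hr R).2, S.hol])
    exact ⟨a.toAdd, e⟩
  choose a ha using key
  have hinj : Function.Injective fun v : A => τ v - v := by
    intro v w e
    have := hτ (v - w) (by
      rw [map_sub]
      exact sub_eq_sub_iff_sub_eq_sub.1 e)
    exact sub_eq_zero.1 this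
  obtain ⟨v, hv⟩ := Finite.injective_iff_surjective.1 hinj (a R1 - a R0)
  simp only at hv
  refine ⟨fun R => v - a R0 + a R - (τ ^ gap R) v,
    fun x => j (Multiplicative.ofAdd (v - a R0)) • sU x,
    fun x => j (Multiplicative.ofAdd v) • sL x, ⟨u1.const_smul _, l1.const_smul _, ?_, ?_, ?_⟩,
    ?_, ?_, fun x hx => ?_, fun x hx => ?_⟩
  · intro x hx
    rw [Function.comp_apply, Norm2_qj P, u2 x hx, S.pU x hx]
  · intro x hx
    rw [Function.comp_apply, Norm2_qj P, l2 x hx, S.pL x hx]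
  · intro R
    rw [ha R, ← mul_smul, ← mul_smul, ← mul_smul, mul_assoc _ (t' ^ gap R), Norm2_conj P,
      ← mul_assoc, ← map_mul j, ← map_mul j, ← ofAdd_add, ← ofAdd_add, sub_add_cancel]
  · simp [g0]
  · simp only [g1, zpow_one]
    rw [sub_eq_iff_eq_add.1 hv]
    abel
  · rw [Norm2_qj P, u2 x hx]
  · rw [Norm2_qj P, l2 x hx]

omit [ContinuousConstSMul G Y] in
theorem Norm2_alpha (P : Pack2 F p t τ m α q j t' l') {a : Reg → A} {σU' σL' : X → Y'}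
    (S : DehnSec D (p ∘ q) σU' σL' fun r => j (Multiplicative.ofAdd (a r)) * t' ^ gap r)
    (hU : ∀ x ∈ D.Up, q (σU' x) = σU x) (hL : ∀ x ∈ D.Lo, q (σL' x) = σL x) (n : ℤ) (R : Reg) :
    α (gs ℤ Y (t ^ n) (D.ell σU σL (fun r => t ^ gap r) R)) =
      (τ ^ n) (a R) + ((τ ^ (n + gap R)) (l' (σL' D.s)) - (τ ^ n) (l' (σU' D.n))) := by
  have hq : ∀ (g : G) (g' : G'), (∀ y, q (g' • y) = g • q y) → ∀ c,
      psh ℤ q (gs ℤ Y' g' c) = gs ℤ Y g (psh ℤ q c) := by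
    intro g g' h c
    rw [gs, gs, psh_psh' _ (continuous_const_smul _), psh_psh' _ P.cov.cont]
    exact psh_congr (fun y _ => h y) (mem_CH_univ c)
  have ma : pth ℤ (D.a R) ∈ CH ℤ D.Up := pth_mem_CH (D.am R)
  have mb : pth ℤ (D.b R) ∈ CH ℤ D.Lo := pth_mem_CH (D.bm R)
  have e1 : psh ℤ q (D.ell σU' σL' (fun r => j (Multiplicative.ofAdd (a r)) * t' ^ gap r) R) =
      D.ell σU σL (fun r => t ^ gap r) R := by
    rw [DehnData.ell, DehnData.ell, map_add, hq (t ^ gap R) _ (fun y => by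
      rw [mul_smul, Norm2_qj P, Norm2_qt P]), psh_psh _ S.cU ma, psh_psh _ S.cL mb,
      psh_congr (f := q ∘ σU') (g := σU) hU ma, psh_congr (f := q ∘ σL') (g := σL) hL mb]
  rw [← e1, ← hq (t ^ n) (t' ^ n) (Norm2_qt P n), P.hol, dT_gs, DehnData.ell, map_add, dT_gs,
    dT_psh S.cU ma, dT_psh S.cL mb, dT_pth, dT_pth, D.a0, D.a1, D.b0, D.b1]
  simp only [map_add, map_sub, gs, psh_pt, val0_pt]
  rw [S.hol R]
  simp only [mul_smul, Norm2_lt P, P.la, map_add, zpow_add, LinearEquiv.mul_apply]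
  abel

end

theorem Norm2_red (n : ℤ) (c : Eis ℤ) :
    red8 ((om ℤ ^ n : (Eis ℤ)ˣ) * c) = (om (ZMod 8) ^ n : (Eis (ZMod 8))ˣ) * red8 c := by
  induction n using Int.induction_on generalizing c with
  | zero => simp
  | succ n ih =>
    rw [zpow_add_one, zpow_add_one, Units.val_mul, Units.val_mul, mul_assoc, mul_assoc, ih]
    congr 1
    ext <;> simp [red8, om]
  | pred n ih =>
    rw [zpow_sub_one, zpow_sub_one, Units.val_mul, Units.val_mul, mul_assoc, mul_assoc, ih]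
    congr 1
    ext <;> simp [red8, om]

theorem Norm2_cyc {G Reg : Type} [Group G] {t : G} {gap : Reg → ℤ} {R0 R1 : Reg}
    (g0 : gap R0 = 0) (g1 : gap R1 = 1) (N : Submodule ℤ ((Reg × G) →₀ ℤ))
    (h0 : ∀ g, Finsupp.single (R0, g) 1 ∈ N) (h1 : ∀ g, Finsupp.single (R1, g) 1 ∈ N)
    (r : Reg) (g : G) : ∃ y ∈ N, d1A ℤ (fun r => t ^ gap r) y =
      d1A ℤ (fun r => t ^ gap r) (Finsupp.single (r, g) 1) := by
  have e : ∀ r g, d1A ℤ (fun r => t ^ gap r) (Finsupp.single (r, g) 1) =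
      Finsupp.single (true, g * t ^ gap r) 1 - Finsupp.single (false, g) 1 := by
    intro r g
    rw [d1A, Finsupp.linearCombination_single, one_smul]
  have k1 : ∀ h : G, Finsupp.single (true, h * t) 1 - Finsupp.single (true, h) 1 ∈
      N.map (d1A ℤ fun r => t ^ gap r) := fun h =>
    ⟨_, sub_mem (h1 h) (h0 h), by rw [map_sub, e, e, g0, g1]; simp⟩
  have k2 : ∀ n : ℤ, Finsupp.single (true, g * t ^ n) 1 - Finsupp.single (true, g) 1 ∈
      N.map (d1A ℤ fun r => t ^ gap r) := by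
    intro n
    induction n using Int.induction_on with
    | zero => simp
    | succ n ih =>
      have := add_mem (k1 (g * t ^ (n : ℤ))) ih
      rwa [sub_add_sub_cancel, mul_assoc, ← zpow_add_one] at this
    | pred n ih =>
      have := sub_mem ih (k1 (g * t ^ (-(n : ℤ) - 1)))
      rwa [mul_assoc, ← zpow_add_one, sub_add_cancel, sub_sub_sub_cancel_left] at this
  obtain ⟨y, hy, hy'⟩ := k2 (gap r)
  refine ⟨y + Finsupp.single (R0, g) 1, add_mem hy (h0 g), ?_⟩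
  rw [map_add, hy', e, e, g0]
  simp

theorem norm2_stmt (B : Bas1) : Norm2Stmt := by
  intro X G Y A G' Y' Reg Cr _ _ _ _ _ _ _ _ _ _ _ F O φ p t l τ m α q j t' l' reg gap R0 R1 D σU σL
    lg c χ ψ P1 P hτ hO S g0 g1 c0 c1 hlg H
  obtain ⟨a, σU', σL', S', a0, a1, hU, hL⟩ := Norm2_sec B P1.tc.cov P hτ hO S g0 g1
  refine ⟨a, σU', σL', S', a0, a1, fun r n => ?_⟩
  have hl : ∀ n : ℤ, lg (t ^ n) = n := fun n =>
    sub_eq_zero.1 (P1.tc.inf _ (by rw [zpow_sub, hlg, mul_inv_cancel]))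
  let L1 : ((Reg × G) →₀ ℤ) →ₗ[ℤ] A :=
    Finsupp.linearCombination ℤ fun x => (τ ^ lg x.2) (a x.1)
  let L2 : ((Bool × G) →₀ ℤ) →ₗ[ℤ] A :=
    Finsupp.linearCombination ℤ fun x => (τ ^ lg x.2) (cond x.1 (l' (σL' D.s)) (l' (σU' D.n)))
  have key : ∀ x, α (ellC ℤ (D.ell σU σL fun r => t ^ gap r) x) =
      L1 x + L2 (d1A ℤ (fun r => t ^ gap r) x) := by
    intro x
    induction x using Finsupp.induction_linear with
    | zero => simp
    | add a b ha hb =>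
      simp only [map_add, ha, hb]
      abel
    | single z k =>
      obtain ⟨R, g⟩ := z
      obtain ⟨n, rfl⟩ := P1.gen g
      have e : ∀ w : Tot ℤ Y, castZ ℤ Y w = w := fun w => by
        ext σ
        rw [cast_apply]
        simp
      simp only [L1, L2, ellC, d1A, Finsupp.linearCombination_single, map_zsmul, map_sub, e,
        one_smul, Norm2_alpha P S' hU hL, ← zpow_add, hl, cond, smul_add]
  obtain ⟨y, hy, hy'⟩ := Norm2_cyc (t := t) g0 g1 (LinearMap.ker L1 ⊓ LinearMap.ker (colE lg c))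
    (fun g => ⟨by simp [L1, a0], by simp [colE, c0]⟩)
    (fun g => ⟨by simp [L1, a1], by simp [colE, c1]⟩) r (t ^ n)
  have hz : d1A ℤ (fun r => t ^ gap r) (Finsupp.single (r, t ^ n) 1 - y) = 0 := by
    rw [map_sub, hy', sub_self]
  have := H _ hz
  rw [key, hz, map_zero, add_zero, map_sub L1, map_sub (colE lg c), LinearMap.mem_ker.1 hy.1,
    LinearMap.mem_ker.1 hy.2, sub_zero, sub_zero] at this
  simp only [L1, colE, Finsupp.linearCombination_single, one_smul, hl, Norm2_red] at this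
  exact this

end Pool.Agent.MP_bc14e1_gt

end

section

/-! Averaging over a finite abelian group and the comparison of the two Dehn complexes. -/

open Set Metric
open scoped Classical

namespace Pool.Agent.MP_bc14e1_gt

noncomputable section

section Avg

variable {A : Type} [AddCommGroup A] [Fintype A] (ψ : AddChar A ℂ)
  {V W : Type} [AddCommGroup V] [Module ℂ V] [AddCommGroup W] [Module ℂ W]

/-- The projector to the eigenspace of the character. -/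
def Len1_avg (ρ : A → Module.End ℂ V) : Module.End ℂ V :=
  ∑ b, ((Fintype.card A : ℂ)⁻¹ * ψ (-b)) • ρ b

theorem Len1_avg_apply (ρ : A → Module.End ℂ V) (v : V) :
    Len1_avg ψ ρ v = ∑ b, ((Fintype.card A : ℂ)⁻¹ * ψ (-b)) • ρ b v := by
  simp only [Len1_avg, LinearMap.sum_apply, LinearMap.smul_apply]

theorem Len1_avg_map (ρ : A → Module.End ℂ V) (ρ' : A → Module.End ℂ W) (F : V →ₗ[ℂ] W)
    (h : ∀ b v, F (ρ b v) = ρ' b (F v)) (v : V) :
    F (Len1_avg ψ ρ v) = Len1_avg ψ ρ' (F v) := by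
  simp only [Len1_avg_apply, map_sum, map_smul, h]

theorem Len1_avg_eig (ρ : A → Module.End ℂ V) (F : V →ₗ[ℂ] W)
    (h : ∀ b v, F (ρ b v) = ψ b • F v) (v : V) : F (Len1_avg ψ ρ v) = F v := by
  have e : ∀ b, ((Fintype.card A : ℂ)⁻¹ * ψ (-b)) * ψ b = (Fintype.card A : ℂ)⁻¹ := fun b => by
    rw [mul_assoc, ← AddChar.map_add_eq_mul, neg_add_cancel, AddChar.map_zero_eq_one, mul_one]
  have hc : (Fintype.card A : ℂ) ≠ 0 := Nat.cast_ne_zero.2 Fintype.card_ne_zero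
  simp only [Len1_avg_apply, map_sum, map_smul, h, smul_smul, e]
  rw [Finset.sum_const, Finset.card_univ, ← Nat.cast_smul_eq_nsmul ℂ, smul_smul,
    mul_inv_cancel₀ hc, one_smul]

theorem Len1_avg_rho (ρ : A → Module.End ℂ V) (hρ : ∀ a b v, ρ (a + b) v = ρ a (ρ b v)) (a : A)
    (v : V) : Len1_avg ψ ρ (ρ a v) = ψ a • Len1_avg ψ ρ v := by
  simp only [Len1_avg_apply, Finset.smul_sum, smul_smul, ← hρ]
  refine Fintype.sum_equiv (Equiv.addRight a) _ _ fun b => ?_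
  have e : a + -(b + a) = -b := by abel
  simp only [Equiv.coe_addRight]
  rw [mul_left_comm, ← AddChar.map_add_eq_mul, e]

theorem Len1_avg_avg (ρ : A → Module.End ℂ V) (hρ : ∀ a b v, ρ (a + b) v = ρ a (ρ b v)) (v : V) :
    Len1_avg ψ ρ (Len1_avg ψ ρ v) = Len1_avg ψ ρ v :=
  Len1_avg_eig ψ ρ _ (Len1_avg_rho ψ ρ hρ) v

theorem Len1_avg_mem (ρ : A → Module.End ℂ V) (M : Submodule ℂ V)
    (h : ∀ b, ∀ v ∈ M, ρ b v ∈ M) {v : V} (hv : v ∈ M) : Len1_avg ψ ρ v ∈ M := by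
  rw [Len1_avg_apply]
  exact Submodule.sum_mem _ fun b _ => M.smul_mem _ (h b v hv)

end Avg

section Left

variable {G Reg Cr : Type} [Group G]

/-- Left multiplication on the second factor. -/
def Len1_L (P : Type) (g : G) : Module.End ℂ ((P × G) →₀ ℂ) :=
  Finsupp.lmapDomain ℂ ℂ fun x => (x.1, g * x.2)

theorem Len1_L_single {P : Type} (g : G) (x : P × G) (a : ℂ) :
    Len1_L P g (Finsupp.single x a) = Finsupp.single (x.1, g * x.2) a :=
  Finsupp.mapDomain_single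

theorem Len1_L_mul {P : Type} (g g' : G) (v : (P × G) →₀ ℂ) :
    Len1_L P (g * g') v = Len1_L P g (Len1_L P g' v) := by
  induction v using Finsupp.induction_linear with
  | zero => simp only [map_zero]
  | add a b ha hb => simp only [map_add, ha, hb]
  | single z a => simp only [Len1_L_single, mul_assoc]

theorem Len1_d1A_L (h : Reg → G) (g : G) (v : (Reg × G) →₀ ℂ) :
    d1A ℂ h (Len1_L Reg g v) = Len1_L Bool g (d1A ℂ h v) := by
  induction v using Finsupp.induction_linear with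
  | zero => simp only [map_zero]
  | add a b ha hb => simp only [map_add, ha, hb]
  | single z a =>
    simp only [Len1_L_single, d1A, Finsupp.linearCombination_single, map_smul, map_sub, mul_assoc]

theorem Len1_d2A_L (reg : Cr → Fin 4 → Reg) (h : Reg → G) (g : G) (v : (Cr × G) →₀ ℂ) :
    d2A ℂ reg h (Len1_L Cr g v) = Len1_L Reg g (d2A ℂ reg h v) := by
  induction v using Finsupp.induction_linear with
  | zero => simp only [map_zero]
  | add a b ha hb => simp only [map_add, ha, hb]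
  | single z a =>
    simp only [Len1_L_single, d2A, Finsupp.linearCombination_single, map_smul, map_sub, map_add,
      mul_assoc]

theorem Len1_ellC_L {Y : Type} [TopologicalSpace Y] [MulAction G Y] [ContinuousConstSMul G Y]
    (l : Reg → Tot ℤ Y) (g : G) (v : (Reg × G) →₀ ℂ) :
    ellC ℂ l (Len1_L Reg g v) = gs ℂ Y g (ellC ℂ l v) := by
  induction v using Finsupp.induction_linear with
  | zero => simp only [map_zero]
  | add a b ha hb => simp only [map_add, ha, hb]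
  | single z a =>
    simp only [Len1_L_single, ellC, Finsupp.linearCombination_single, map_smul, gs_mul]

/-- The map to the twisted complex. -/
def Len1_Psi (P : Type) (c : G → ℂ) (nu : G → ℤ) : ((P × G) →₀ ℂ) →ₗ[ℂ] ((P × ℤ) →₀ ℂ) :=
  Finsupp.linearCombination ℂ fun x => c x.2 • Finsupp.single (x.1, nu x.2) 1

omit [Group G] in
theorem Len1_Psi_single {P : Type} (c : G → ℂ) (nu : G → ℤ) (x : P × G) (a : ℂ) :
    Len1_Psi P c nu (Finsupp.single x a) = a • c x.2 • Finsupp.single (x.1, nu x.2) 1 :=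
  Finsupp.linearCombination_single _ _ _

variable {c : G → ℂ} {nu : G → ℤ} {h : Reg → G} {gap : Reg → ℤ} {w : Reg → ℤ → ℂ}

theorem Len1_Psi_d1 (hc : ∀ g r, c (g * h r) = c g * w r (nu g))
    (hn : ∀ g r, nu (g * h r) = nu g + gap r) (v : (Reg × G) →₀ ℂ) :
    Len1_Psi Bool c nu (d1A ℂ h v) = d1T gap w (Len1_Psi Reg c nu v) := by
  induction v using Finsupp.induction_linear with
  | zero => simp only [map_zero]
  | add a b ha hb => simp only [map_add, ha, hb]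
  | single z a =>
    simp only [Len1_Psi_single, d1A, d1T, Finsupp.linearCombination_single, map_smul, map_sub,
      one_smul, hc, hn, smul_sub, mul_smul]

theorem Len1_Psi_d2 (reg : Cr → Fin 4 → Reg) (hc : ∀ g r, c (g * h r) = c g * w r (nu g))
    (hn : ∀ g r, nu (g * h r) = nu g + gap r) (hw : ∀ r n, w r n ≠ 0) (v : (Cr × G) →₀ ℂ) :
    Len1_Psi Reg c nu (d2A ℂ reg h v) = d2T reg gap w (Len1_Psi Cr c nu v) := by
  have e : ∀ g r r', g * (h r * (h r')⁻¹) * h r' = g * h r := fun g r r' => by group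
  have hn' : ∀ g r r', nu (g * (h r * (h r')⁻¹)) = nu g + (gap r - gap r') := fun g r r' => by
    have := hn (g * (h r * (h r')⁻¹)) r'
    rw [e, hn] at this
    omega
  have hc' : ∀ g r r', c (g * (h r * (h r')⁻¹)) =
      c g * (w r (nu g) / w r' (nu g + (gap r - gap r'))) := fun g r r' => by
    have := hc (g * (h r * (h r')⁻¹)) r'
    rw [e, hc, hn'] at this
    rw [← mul_div_assoc, this, mul_div_cancel_right₀ _ (hw _ _)]
  induction v using Finsupp.induction_linear with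
  | zero => simp only [map_zero]
  | add a b ha hb => simp only [map_add, ha, hb]
  | single z a =>
    simp only [Len1_Psi_single, d2A, d2T, Finsupp.linearCombination_single, map_smul, map_sub,
      map_add, one_smul, hc', hn', smul_sub, smul_add, mul_smul]
    abel

theorem Len1_Psi_L {P : Type} {s : G} {m : ℤ} (hc : ∀ g, c (s * g) = c g)
    (hn : ∀ g, nu (s * g) = nu g + m) (v : (P × G) →₀ ℂ) :
    Len1_Psi P c nu (Len1_L P s v) = shT P m (Len1_Psi P c nu v) := by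
  induction v using Finsupp.induction_linear with
  | zero => simp only [map_zero]
  | add a b ha hb => simp only [map_add, ha, hb]
  | single z a =>
    simp only [Len1_L_single, Len1_Psi_single, map_smul, hc, hn, shT, Finsupp.lmapDomain_apply,
      Finsupp.mapDomain_single]

end Left

section Io

variable {G A Reg Cr : Type} [Group G] [AddCommGroup A] [Fintype A]

/-- Coordinates on the group. -/
structure Len1_H (ψ : AddChar A ℂ) (k : A → G) (t : G) (c : G → ℂ) (nu : G → ℤ) : Prop where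
  add : ∀ a b, k (a + b) = k a * k b
  ck : ∀ a g, c (k a * g) = ψ a * c g
  nk : ∀ a g, nu (k a * g) = nu g
  ct : ∀ n : ℤ, c (t ^ n) = 1
  nt : ∀ n : ℤ, nu (t ^ n) = n
  dec : ∀ g, ∃ a, g = k a * t ^ nu g

/-- The projector on the Dehn complex. -/
def Len1_eA (P : Type) (ψ : AddChar A ℂ) (k : A → G) : Module.End ℂ ((P × G) →₀ ℂ) :=
  Len1_avg ψ fun b => Len1_L P (k b)

/-- The map from the twisted complex. -/
def Len1_io (P : Type) (ψ : AddChar A ℂ) (k : A → G) (t : G) :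
    ((P × ℤ) →₀ ℂ) →ₗ[ℂ] ((P × G) →₀ ℂ) :=
  Len1_eA P ψ k ∘ₗ Finsupp.lmapDomain ℂ ℂ fun x => (x.1, t ^ x.2)

variable {ψ : AddChar A ℂ} {k : A → G} {t : G} {c : G → ℂ} {nu : G → ℤ} {P : Type}

theorem Len1_io_single (x : P × ℤ) (a : ℂ) :
    Len1_io P ψ k t (Finsupp.single x a) = Len1_eA P ψ k (Finsupp.single (x.1, t ^ x.2) a) := by
  simp only [Len1_io, LinearMap.comp_apply, Finsupp.lmapDomain_apply, Finsupp.mapDomain_single]

theorem Len1_H.Psi_eA (H : Len1_H ψ k t c nu) (v : (P × G) →₀ ℂ) :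
    Len1_Psi P c nu (Len1_eA P ψ k v) = Len1_Psi P c nu v := by
  refine Len1_avg_eig ψ _ _ (fun b v => ?_) v
  induction v using Finsupp.induction_linear with
  | zero => simp only [map_zero, smul_zero]
  | add a b ha hb => simp only [map_add, ha, hb, smul_add]
  | single z a =>
    simp only [Len1_L_single, Len1_Psi_single, H.ck, H.nk, mul_smul]
    exact smul_comm _ _ _

theorem Len1_H.eA_L (H : Len1_H ψ k t c nu) (a : A) (v : (P × G) →₀ ℂ) :
    Len1_eA P ψ k (Len1_L P (k a) v) = ψ a • Len1_eA P ψ k v :=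
  Len1_avg_rho ψ (fun b => Len1_L P (k b)) (fun a b v => by rw [H.add, Len1_L_mul]) a v

theorem Len1_H.Psi_io (H : Len1_H ψ k t c nu) (y : (P × ℤ) →₀ ℂ) :
    Len1_Psi P c nu (Len1_io P ψ k t y) = y := by
  induction y using Finsupp.induction_linear with
  | zero => simp only [map_zero]
  | add a b ha hb => simp only [map_add, ha, hb]
  | single z a =>
    rw [Len1_io_single, H.Psi_eA, Len1_Psi_single, H.ct, H.nt, one_smul, Finsupp.smul_single,
      smul_eq_mul, mul_one]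

theorem Len1_H.io_Psi (H : Len1_H ψ k t c nu) (v : (P × G) →₀ ℂ) :
    Len1_io P ψ k t (Len1_Psi P c nu v) = Len1_eA P ψ k v := by
  induction v using Finsupp.induction_linear with
  | zero => simp only [map_zero]
  | add a b ha hb => simp only [map_add, ha, hb]
  | single z a =>
    obtain ⟨b, hb⟩ := H.dec z.2
    have e1 : c z.2 = ψ b := by rw [hb, H.ck, H.ct, mul_one]
    have e2 : Finsupp.single z a = a • Len1_L P (k b) (Finsupp.single (z.1, t ^ nu z.2) 1) := by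
      rw [Len1_L_single, ← hb, Finsupp.smul_single, smul_eq_mul, mul_one]
    rw [Len1_Psi_single, map_smul, map_smul, Len1_io_single, e1, e2, map_smul, H.eA_L]

theorem Len1_H.eA_io (H : Len1_H ψ k t c nu) (y : (P × ℤ) →₀ ℂ) :
    Len1_eA P ψ k (Len1_io P ψ k t y) = Len1_io P ψ k t y := by
  rw [← H.io_Psi, H.Psi_io]

/-- A pair of maps that is compatible with `Psi` and the group is compatible with `io`. -/
theorem Len1_H.io_map (H : Len1_H ψ k t c nu) {Q : Type}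
    (F : ((P × G) →₀ ℂ) →ₗ[ℂ] ((Q × G) →₀ ℂ)) (F' : ((P × ℤ) →₀ ℂ) →ₗ[ℂ] ((Q × ℤ) →₀ ℂ))
    (hF : ∀ b v, F (Len1_L P (k b) v) = Len1_L Q (k b) (F v))
    (hF' : ∀ v, Len1_Psi Q c nu (F v) = F' (Len1_Psi P c nu v)) (y : (P × ℤ) →₀ ℂ) :
    F (Len1_io P ψ k t y) = Len1_io Q ψ k t (F' y) := by
  have e : F (Len1_eA P ψ k (Len1_io P ψ k t y)) = Len1_eA Q ψ k (F (Len1_io P ψ k t y)) :=
    Len1_avg_map ψ _ _ F hF _
  rw [H.eA_io] at e
  rw [e, ← H.io_Psi, hF', H.Psi_io]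

end Io

section Grp

variable {G A : Type} [Group G] [AddCommGroup A] [Finite A]

omit [Finite A] in
theorem Len1_conj {τ : A ≃ₗ[ℤ] A} {k : A → G} {t : G} (hτ : ∀ a, t * k a * t⁻¹ = k (τ a)) (n : ℤ)
    (a : A) : t ^ n * k a = k ((τ ^ n) a) * t ^ n := by
  have h1 : ∀ a, t * k a = k (τ a) * t := fun a => by rw [← hτ, inv_mul_cancel_right]
  have h2 : ∀ a, t⁻¹ * k a = k (τ⁻¹ a) * t⁻¹ := fun a => by
    have := h1 (τ⁻¹ a)
    rw [← LinearEquiv.mul_apply, mul_inv_cancel, LinearEquiv.coe_one, id] at this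
    rw [inv_mul_eq_iff_eq_mul, ← mul_assoc, this, mul_inv_cancel_right]
  induction n using Int.induction_on generalizing a with
  | zero => simp
  | succ n ih => rw [zpow_add_one, zpow_add_one, mul_assoc, h1, ← mul_assoc, ih, mul_assoc]; rfl
  | pred n ih => rw [zpow_sub_one, zpow_sub_one, mul_assoc, h2, ← mul_assoc, ih, mul_assoc]; rfl

theorem Len1_coord {j : Multiplicative A →* G} {t : G} {m : ℕ} (hj : Function.Injective j)
    (hg : ∀ g, ∃ (a : A) (n : ℤ), g = j (Multiplicative.ofAdd a) * t ^ n)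
    (hm : ∀ n : ℤ, (t ^ m) ^ n = 1 → n = 0) :
    ∃ (al : G → A) (nu : G → ℤ), (∀ g, g = j (Multiplicative.ofAdd (al g)) * t ^ nu g) ∧
      ∀ (a : A) (n : ℤ), al (j (Multiplicative.ofAdd a) * t ^ n) = a ∧
        nu (j (Multiplicative.ofAdd a) * t ^ n) = n := by
  choose al nu h using hg
  refine ⟨al, nu, h, fun a n => ?_⟩
  set g := j (Multiplicative.ofAdd a) * t ^ n with hg
  have e : j (Multiplicative.ofAdd (al g)) * t ^ nu g = j (Multiplicative.ofAdd a) * t ^ n :=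
    (h g).symm.trans hg
  have e1 : t ^ (nu g - n) = j ((Multiplicative.ofAdd (al g))⁻¹ * Multiplicative.ofAdd a) := by
    rw [map_mul, map_inv, eq_inv_mul_iff_mul_eq, zpow_sub, ← mul_assoc, e, mul_inv_cancel_right]
  have e2 : (t ^ (nu g - n)) ^ Nat.card (Multiplicative A) = 1 := by
    rw [e1, ← map_pow, pow_card_eq_one', map_one]
  have e3 : (t ^ m) ^ ((nu g - n) * Nat.card (Multiplicative A)) = 1 := by
    rw [← zpow_natCast, ← zpow_mul, mul_comm, zpow_mul, zpow_mul, zpow_natCast, zpow_natCast, e2,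
      one_pow]
  have e4 : nu g = n := by
    have := hm _ e3
    have hc : (Nat.card (Multiplicative A) : ℤ) ≠ 0 := Nat.cast_ne_zero.2 Nat.card_pos.ne'
    exact sub_eq_zero.1 ((mul_eq_zero.1 this).resolve_right hc)
  rw [e4, mul_left_inj] at e
  exact ⟨Multiplicative.ofAdd.injective (hj e), e4⟩

end Grp

end

end Pool.Agent.MP_bc14e1_gt

end

section

open Set Metric
open scoped Classical

namespace Pool.Agent.MP_bc14e1_gt

noncomputable section

theorem Len1_cj_C (a : ℂ) :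
    cj (LaurentPolynomial.C a) = LaurentPolynomial.C (starRingEnd ℂ a) := by
  have e : AddMonoidAlgebra.mapRingHom ℤ (starRingEnd ℂ) (LaurentPolynomial.C a) =
      LaurentPolynomial.C (starRingEnd ℂ a) := AddMonoidAlgebra.mapRingHom_single _ _ _
  exact (congrArg (LaurentPolynomial.invert (R := ℂ)) e).trans (LaurentPolynomial.invert_C _)

section Top

variable {G Y A Reg Cr : Type} [Group G] [TopologicalSpace Y] [MulAction G Y]
  [ContinuousConstSMul G Y] [AddCommGroup A] [Fintype A]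

variable (Y) in
/-- The projector on singular chains. -/
def Len1_E (ψ : AddChar A ℂ) (k : A → G) : Module.End ℂ (Tot ℂ Y) :=
  Len1_avg ψ fun b => gs ℂ Y (k b)

variable {ψ : AddChar A ℂ} {k : A → G} {t s : G} {c : G → ℂ} {nu : G → ℤ}

theorem Len1_E_gs (hs : ∀ g, g * s = s * g) (v : Tot ℂ Y) :
    Len1_E Y ψ k (gs ℂ Y s v) = gs ℂ Y s (Len1_E Y ψ k v) :=
  (Len1_avg_map ψ _ _ (gs ℂ Y s) (fun b v => by rw [← gs_mul, ← gs_mul, hs]) v).symm

theorem Len1_dT_E (v : Tot ℂ Y) : dT ℂ Y (Len1_E Y ψ k v) = Len1_E Y ψ k (dT ℂ Y v) :=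
  Len1_avg_map ψ _ _ (dT ℂ Y) (fun _ v => dT_gs _ v) v

omit [ContinuousConstSMul G Y] in
theorem Len1_E_CC {O : Set Y} (hO : ∀ (g : G), ∀ y ∈ O, g • y ∈ O) {n : ℕ} {v : Tot ℂ Y}
    (hv : v ∈ CC ℂ O n) : Len1_E Y ψ k v ∈ CC ℂ O n :=
  Len1_avg_mem ψ (fun b => gs ℂ Y (k b)) (CC ℂ O n)
    (fun _ _ h => ⟨gs_mem_CH _ (hO _) h.1, gs_mem_DG _ h.2⟩) hv

theorem Len1_E_BC {O : Set Y} (hO : ∀ (g : G), ∀ y ∈ O, g • y ∈ O) {n : ℕ} {v : Tot ℂ Y}
    (hv : v ∈ BC ℂ O n) : Len1_E Y ψ k v ∈ BC ℂ O n := by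
  obtain ⟨b, hb, rfl⟩ := hv
  exact ⟨_, Len1_E_CC hO hb, Len1_dT_E b⟩

theorem Len1_adj (hk : ∀ a b, k (a + b) = k a * k b) {lam : Tot ℂ Y → Tot ℂ Y → Lam ℂ}
    (hl : Sesq (C := Tw ℂ Y s) lam)
    (hlam : ∀ a u v, lam (gs ℂ Y (k a) u) (gs ℂ Y (k a) v) = lam u v) (u v : Tot ℂ Y) :
    lam (Len1_E Y ψ k u) v = lam u (Len1_E Y ψ k v) := by
  have h1 : ∀ (a : ℂ) (u v : Tot ℂ Y), lam (a • u) v = LaurentPolynomial.C a * lam u v :=
    fun a u v => (congrArg (fun x => lam x v) (act_C s a u)).symm.trans (hl.smul_left _ u v)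
  have h2 : ∀ (a : ℂ) (u v : Tot ℂ Y),
      lam u (a • v) = LaurentPolynomial.C (starRingEnd ℂ a) * lam u v := fun a u v =>
    ((congrArg (lam u) (act_C s a v)).symm.trans (hl.smul_right _ u v)).trans (by rw [Len1_cj_C])
  have h3 : ∀ F : A → Tot ℂ Y, lam (∑ b, F b) v = ∑ b, lam (F b) v := fun F =>
    map_sum (AddMonoidHom.mk' (fun x : Tot ℂ Y => lam x v) fun x y => hl.add_left x y v) F _
  have h4 : ∀ F : A → Tot ℂ Y, lam u (∑ b, F b) = ∑ b, lam u (F b) := fun F =>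
    map_sum (AddMonoidHom.mk' (fun x : Tot ℂ Y => lam u x) fun x y => hl.add_right u x y) F _
  have k0 : k 0 = 1 := by
    have := hk 0 0
    rw [add_zero] at this
    exact left_eq_mul.1 this
  rw [Len1_E, Len1_avg_apply, Len1_avg_apply, h3, h4]
  refine Fintype.sum_equiv (Equiv.neg A) _ _ fun b => ?_
  have e : lam (gs ℂ Y (k b) u) v = lam u (gs ℂ Y (k (-b)) v) := by
    rw [← hlam b u, ← gs_mul, ← hk, add_neg_cancel, k0, gs_one]
  rw [h1, h2, e, Equiv.neg_apply, neg_neg, map_mul (starRingEnd ℂ), ← AddChar.map_neg_eq_conj,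
    map_inv₀, map_natCast]

theorem Len1_proj (hk : ∀ a b, k (a + b) = k a * k b) (hs : ∀ g, g * s = s * g) {f : Y → ℝ}
    (hf : ∀ y, f (s • y) = f y) (hG : ∀ (g : G) y, f (g • y) = f y)
    {lam : Tot ℂ Y → Tot ℂ Y → Lam ℂ} (hl : Sesq (C := Tw ℂ Y s) lam)
    (hlam : ∀ a u v, lam (gs ℂ Y (k a) u) (gs ℂ Y (k a) v) = lam u v) :
    Proj (dTw ℂ Y s) (lvTw ℂ s f hf) lam (twMap (Len1_E Y ψ k) (Len1_E_gs hs)) where
  ee v := Len1_avg_avg ψ (fun b => gs ℂ Y (k b)) (fun a b v => by rw [hk, gs_mul]) v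
  ed v := (Len1_dT_E v).symm
  mem n J _ hv := Len1_E_CC (O := f ⁻¹' J) (n := n)
    (fun g y hy => by rw [mem_preimage, hG]; exact hy) hv
  adj u v := Len1_adj hk hl hlam u v

variable {O : Set Y} {reg : Cr → Fin 4 → Reg} {h : Reg → G} {l : Reg → Tot ℤ Y} {yn ys : Y}
  {gap : Reg → ℤ} {w : Reg → ℤ → ℂ} {m : ℤ}

/-- The comparison map from the twisted complex to singular chains. -/
structure Len1_Phi (O : Set Y) (reg : Cr → Fin 4 → Reg) (gap : Reg → ℤ) (w : Reg → ℤ → ℂ) (m : ℤ)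
    (s : G) (E : Module.End ℂ (Tot ℂ Y)) (Φ : ((Reg × ℤ) →₀ ℂ) →ₗ[ℂ] Tot ℂ Y) : Prop where
  cyc : ∀ y, d1T gap w y = 0 → Φ y ∈ ZC ℂ O 1
  ex : ∀ y, E (Φ y) = Φ y
  inj : ∀ y, d1T gap w y = 0 → (Φ y ∈ BC ℂ O 1 ↔ y ∈ LinearMap.range (d2T reg gap w))
  gen : ∀ z ∈ ZC ℂ O 1, E z = z → ∃ y, d1T gap w y = 0 ∧ z - Φ y ∈ BC ℂ O 1
  sh : ∀ y, Φ (shT Reg m y) = gs ℂ Y s (Φ y)
  sh1 : ∀ y, d1T gap w y = 0 → d1T gap w (shT Reg m y) = 0

theorem Len1_phi (H : Len1_H ψ k t c nu) (D : DehnMap O reg h l yn ys)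
    (hO : ∀ (g : G), ∀ y ∈ O, g • y ∈ O) (hc : ∀ g r, c (g * h r) = c g * w r (nu g))
    (hn : ∀ g r, nu (g * h r) = nu g + gap r) (hw : ∀ r n, w r n ≠ 0) (hs : ∀ g, g * s = s * g)
    (hcs : ∀ g, c (s * g) = c g) (hns : ∀ g, nu (s * g) = nu g + m) :
    Len1_Phi O reg gap w m s (Len1_E Y ψ k) (ellC ℂ l ∘ₗ Len1_io Reg ψ k t) := by
  have d1 : ∀ y, d1A ℂ h (Len1_io Reg ψ k t y) = Len1_io Bool ψ k t (d1T gap w y) :=
    H.io_map _ _ (fun b => Len1_d1A_L h _) (Len1_Psi_d1 hc hn)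
  have d2 : ∀ y, d2A ℂ reg h (Len1_io Cr ψ k t y) = Len1_io Reg ψ k t (d2T reg gap w y) :=
    H.io_map _ _ (fun b => Len1_d2A_L reg h _) (Len1_Psi_d2 reg hc hn hw)
  have d3 : ∀ y, Len1_L Reg s (Len1_io Reg ψ k t y) = Len1_io Reg ψ k t (shT Reg m y) :=
    H.io_map _ _ (fun b v => by rw [← Len1_L_mul, ← Len1_L_mul, hs]) (Len1_Psi_L hcs hns)
  have d0 : ∀ y, d1T gap w y = 0 → d1A ℂ h (Len1_io Reg ψ k t y) = 0 := fun y hy => by
    rw [d1, hy, map_zero]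
  have eE : ∀ v, ellC ℂ l (Len1_eA Reg ψ k v) = Len1_E Y ψ k (ellC ℂ l v) :=
    Len1_avg_map ψ _ _ (ellC ℂ l) fun b => Len1_ellC_L l _
  refine ⟨fun y hy => D.ellC_mem Subset.rfl hO (d0 y hy), fun y => ?_, fun y hy => ?_,
    fun z hz hE => ?_, fun y => ?_, fun y hy => ?_⟩
  · rw [LinearMap.comp_apply, ← eE, H.eA_io]
  · rw [LinearMap.comp_apply, D.inj ℂ _ (d0 y hy)]
    constructor
    · rintro ⟨u, hu⟩
      exact ⟨Len1_Psi Cr c nu u, by rw [← Len1_Psi_d2 reg hc hn hw, hu, H.Psi_io]⟩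
    · rintro ⟨u, rfl⟩
      exact ⟨_, d2 u⟩
  · obtain ⟨u, hu, hb⟩ := D.gen ℂ z hz
    refine ⟨Len1_Psi Reg c nu u, by rw [← Len1_Psi_d1 hc hn, hu, map_zero], ?_⟩
    have := Len1_E_BC (ψ := ψ) (k := k) hO hb
    rwa [map_sub, hE, ← eE, ← H.io_Psi] at this
  · rw [LinearMap.comp_apply, LinearMap.comp_apply, ← d3, Len1_ellC_L]
  · rw [← H.Psi_io (shT Reg m y), ← Len1_Psi_d1 hc hn, ← d3, Len1_d1A_L, d0 y hy, map_zero,
      map_zero]

theorem Len1_act_piL (ζ : Circle) (v : Tot ℂ Y) :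
    act ℂ Y s (piL ζ) v = gs ℂ Y s v - (ζ : ℂ) • v := by
  rw [piL, map_sub, LinearMap.sub_apply, act_T, act_C, zpow_one]

theorem Len1_act_BC (hO : ∀ (g : G), ∀ y ∈ O, g • y ∈ O) (a : Lam ℂ) {n : ℕ} {v : Tot ℂ Y}
    (hv : v ∈ BC ℂ O n) : act ℂ Y s a v ∈ BC ℂ O n := by
  refine act_mem (fun i v hv => ?_) a hv
  obtain ⟨b, hb, rfl⟩ := hv
  exact ⟨_, ⟨gs_mem_CH _ (hO _) hb.1, gs_mem_DG _ hb.2⟩, dT_gs _ b⟩

variable {E : Module.End ℂ (Tot ℂ Y)} {Φ : ((Reg × ℤ) →₀ ℂ) →ₗ[ℂ] Tot ℂ Y}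

theorem Len1_Phi.pi (P : Len1_Phi O reg gap w m s E Φ) (ζ : Circle) (y : (Reg × ℤ) →₀ ℂ) :
    Φ (piT Reg m ζ y) = act ℂ Y s (piL ζ) (Φ y) := by
  rw [Len1_act_piL, piT, LinearMap.sub_apply, map_sub, P.sh, LinearMap.smul_apply,
    Module.End.one_apply, map_smul]

omit [ContinuousConstSMul G Y] in
theorem Len1_Phi.pi1 (P : Len1_Phi O reg gap w m s E Φ) (ζ : ℂ) {y : (Reg × ℤ) →₀ ℂ}
    (hy : d1T gap w y = 0) : d1T gap w (piT Reg m ζ y) = 0 := by
  rw [piT, LinearMap.sub_apply, map_sub, P.sh1 y hy, LinearMap.smul_apply, Module.End.one_apply,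
    map_smul, hy, smul_zero, sub_zero]

theorem Len1_Phi.pow (P : Len1_Phi O reg gap w m s E Φ) (ζ : Circle) (n : ℕ)
    {y : (Reg × ℤ) →₀ ℂ} (hy : d1T gap w y = 0) :
    d1T gap w ((piT Reg m ζ ^ n) y) = 0 ∧
      Φ ((piT Reg m ζ ^ n) y) = act ℂ Y s (piL ζ ^ n) (Φ y) := by
  induction n with
  | zero => rw [pow_zero, pow_zero, map_one]; exact ⟨hy, rfl⟩
  | succ n ih =>
    rw [pow_succ', pow_succ', map_mul, Module.End.mul_apply, Module.End.mul_apply, P.pi, ih.2]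
    exact ⟨P.pi1 _ ih.1, rfl⟩

theorem Len1_Phi.prim (P : Len1_Phi O reg gap w m s E Φ) (hO : ∀ (g : G), ∀ y ∈ O, g • y ∈ O)
    {ζ : Circle} {x : (Reg × ℤ) →₀ ℂ} (L : Len1T reg gap w m ζ x) {y : Tot ℂ Y}
    (hy : y ∈ ZC ℂ O 1) (hE : E y = y) (n : ℕ) (hn : act ℂ Y s (piL ζ ^ n) y ∈ BC ℂ O 1) :
    ∃ μ : ℂ, y - act ℂ Y s (LaurentPolynomial.C μ) (Φ x) ∈ BC ℂ O 1 := by
  obtain ⟨u, hu, hb⟩ := P.gen y hy hE
  have h1 := sub_mem hn (Len1_act_BC (s := s) hO (piL ζ ^ n) hb)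
  rw [map_sub, sub_sub_cancel, ← (P.pow ζ n hu).2, P.inj _ (P.pow ζ n hu).1] at h1
  obtain ⟨μ, hμ⟩ := L.prim u hu n h1
  have h2 := (P.inj _ (by rw [map_sub, map_smul, hu, L.cyc, smul_zero, sub_zero])).2 hμ
  refine ⟨μ, ?_⟩
  have h3 := add_mem hb h2
  rwa [map_sub, map_smul, sub_add_sub_cancel, ← act_C s] at h3

theorem Len1_Phi.top (P : Len1_Phi O reg gap w m s E Φ) {ζ : Circle} {x : (Reg × ℤ) →₀ ℂ}
    (L : Len1T reg gap w m ζ x) {y : Tot ℂ Y} (hy : y ∈ ZC ℂ O 1) (hE : E y = y) :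
    ∃ μ : ℂ, ∃ y' ∈ ZC ℂ O 1, y - act ℂ Y s (LaurentPolynomial.C μ) (Φ x) -
      act ℂ Y s (piL ζ) y' ∈ BC ℂ O 1 := by
  obtain ⟨u, hu, hb⟩ := P.gen y hy hE
  obtain ⟨μ, u', hu', hμ⟩ := L.top u hu
  have h2 := (P.inj _ (by
    rw [map_sub, map_sub, map_smul, hu, L.cyc, P.pi1 _ hu', smul_zero, sub_zero, sub_zero])).2 hμ
  refine ⟨μ, Φ u', P.cyc u' hu', ?_⟩
  have h3 := add_mem hb h2
  rwa [map_sub, map_sub, map_smul, P.pi, ← add_sub_assoc, sub_add_sub_cancel, ← act_C s] at h3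

theorem Len1_Phi.len {f : Y → ℝ} (hf : ∀ y, f (s • y) = f y)
    (P : Len1_Phi (f ⁻¹' Ioo (-1) 1) reg gap w m s E Φ)
    (hO : ∀ (g : G), ∀ y ∈ f ⁻¹' Ioo (-1) 1, g • y ∈ f ⁻¹' Ioo (-1) 1)
    (hE : ∀ v, E (gs ℂ Y s v) = gs ℂ Y s (E v)) {ζ : Circle} {x : (Reg × ℤ) →₀ ℂ}
    (L : Len1T reg gap w m ζ x) :
    Len1 (dTw ℂ Y s) (lvTw ℂ s f hf) (twMap E hE) ζ (toTw ℂ Y s (Φ x)) where
  cyc := P.cyc x L.cyc
  ex := P.ex x
  tor := by
    have := (P.inj _ (P.pi1 _ L.cyc)).2 L.tor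
    rw [P.pi] at this
    exact this
  nz h := L.nz ((P.inj x L.cyc).1 h)
  prim _ hy hE n hn := P.prim hO L hy hE n hn
  top _ hy hE := P.top L hy hE

end Top

theorem len1_stmt : Len1Stmt := by
  intro G Y A Reg Cr _ _ _ _ _ _ f t m hf τ j reg gap a l yn ys ψ lam ζ x D hG hj hτ hg hs hm hl
    hlam L
  let _ := Fintype.ofFinite A
  obtain ⟨al, nu, h1, h2⟩ := Len1_coord hj hg hm
  have hk : ∀ a b : A, j (Multiplicative.ofAdd (a + b)) =
      j (Multiplicative.ofAdd a) * j (Multiplicative.ofAdd b) := fun a b => by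
    rw [ofAdd_add, map_mul]
  have key : ∀ (g : G) (b : A) (n : ℤ), al (g * (j (Multiplicative.ofAdd b) * t ^ n)) =
      al g + (τ ^ nu g) b ∧ nu (g * (j (Multiplicative.ofAdd b) * t ^ n)) = nu g + n := by
    intro g b n
    have e : g * (j (Multiplicative.ofAdd b) * t ^ n) =
        j (Multiplicative.ofAdd (al g + (τ ^ nu g) b)) * t ^ (nu g + n) := by
      have := Len1_conj (k := fun a => j (Multiplicative.ofAdd a)) hτ (nu g) b
      rw [hk, zpow_add, mul_assoc, ← mul_assoc (j _) (t ^ nu g), ← this, ← mul_assoc, ← mul_assoc,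
        ← mul_assoc, ← h1]
    rw [e]
    exact h2 _ _
  have kl : ∀ (b : A) (g : G), al (j (Multiplicative.ofAdd b) * g) = b + al g ∧
      nu (j (Multiplicative.ofAdd b) * g) = nu g := by
    intro b g
    have e : j (Multiplicative.ofAdd b) * g = j (Multiplicative.ofAdd (b + al g)) * t ^ nu g := by
      rw [hk, mul_assoc, ← h1]
    rw [e]
    exact h2 _ _
  have kt : ∀ n : ℤ, j (Multiplicative.ofAdd (0 : A)) * t ^ n = t ^ n := fun n => by
    rw [ofAdd_zero, map_one, one_mul]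
  have H : Len1_H ψ (fun a => j (Multiplicative.ofAdd a)) t (fun g => ψ (al g)) nu :=
    ⟨hk, fun b g => by rw [(kl b g).1, AddChar.map_add_eq_mul], fun b g => (kl b g).2,
      fun n => by rw [← kt, (h2 _ _).1, AddChar.map_zero_eq_one], fun n => by rw [← kt, (h2 _ _).2],
      fun g => ⟨_, h1 g⟩⟩
  have ks : ∀ g, al (t ^ m * g) = al g ∧ nu (t ^ m * g) = nu g + m := fun g => by
    have := key g 0 m
    rwa [kt, map_zero, add_zero, zpow_natCast, hs] at this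
  have hO : ∀ (g : G), ∀ y ∈ f ⁻¹' Ioo (-1) 1, g • y ∈ f ⁻¹' Ioo (-1) 1 := fun g y hy => by
    rw [mem_preimage, hG]; exact hy
  have P := Len1_phi (w := fun r n => ψ ((τ ^ n) (a r))) (gap := gap) (m := m) H D hO
    (fun g r => by rw [(key _ _ _).1, AddChar.map_add_eq_mul]) (fun g r => (key _ _ _).2)
    (fun r n => (ψ.val_isUnit _).ne_zero) hs (fun g => by rw [(ks g).1]) fun g => (ks g).2
  exact ⟨_, _, Len1_proj hk hs hf hG hl fun b => hlam _, P.len hf hO (Len1_E_gs hs) L⟩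

end

end Pool.Agent.MP_bc14e1_gt

end
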