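import Pool.Agent.Mg.Fbc14e1.G199efb

section

/-! Singular chains: elementary properties, cones, subdivision (adapted from MP_4f4d9f_gt). -/

namespace Pool.Agent.MP_bc14e1_gt

/-- The augmentation. -/
noncomputable def aug (R : Type) [Ring R] (X : Type) [TopologicalSpace X] :
    (Sing X 0 →₀ R) →ₗ[R] R := Finsupp.linearCombination R fun _ => 1

section Basic


open Finsupp

variable (R : Type) [Ring R] {X Y Z : Type} [TopologicalSpace X] [TopologicalSpace Y]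
  [TopologicalSpace Z]

theorem bd_apply (k : ℕ) (c : Sing X (k + 1) →₀ R) :
    bd R X k c = ∑ i : Fin (k + 2), (-1 : ℤ) ^ (i : ℕ) • mapDomain (face i) c := by
  simp only [bd, LinearMap.sum_apply, LinearMap.smul_apply, lmapDomain_apply]

theorem bd_single (k : ℕ) (σ : Sing X (k + 1)) (a : R) :
    bd R X k (single σ a) = ∑ i : Fin (k + 2), (-1 : ℤ) ^ (i : ℕ) • single (face i σ) a := by
  simp only [bd_apply, mapDomain_single]

theorem push_single (f : C(X, Y)) (k : ℕ) (σ : Sing X k) (a : R) :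
    push R f k (single σ a) = single (f.comp σ) a := by
  simp only [push, lmapDomain_apply, mapDomain_single]

theorem aug_single (σ : Sing X 0) (a : R) : aug R X (single σ a) = a := by
  simp [aug]

theorem face_comp (f : C(X, Y)) {k : ℕ} (i : Fin (k + 2)) (σ : Sing X (k + 1)) :
    face i (f.comp σ) = f.comp (face i σ) := rfl

theorem face_face {k : ℕ} (σ : Sing X (k + 2)) (i : Fin (k + 3)) (j : Fin (k + 2)) :
    face j (face i σ) = face (j.predAbove i) (face (i.succAbove j) σ) := by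
  ext t
  simp only [face, ContinuousMap.comp_apply, ContinuousMap.coe_mk, stdSimplex.map_comp_apply]
  congr 2
  funext m
  exact (Fin.succAbove_succAbove_succAbove_predAbove i j m).symm

theorem bd_bd (k : ℕ) (c : Sing X (k + 2) →₀ R) : bd R X k (bd R X (k + 1) c) = 0 := by
  induction c using Finsupp.induction_linear with
  | zero => simp
  | add a b ha hb => simp [ha, hb]
  | single σ a =>
    simp only [bd_single, map_sum, map_zsmul, Finset.smul_sum, smul_smul]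
    rw [← Finset.sum_product']
    refine Finset.sum_involution (fun p _ => (p.1.succAbove p.2, p.2.predAbove p.1))
      ?_ ?_ (fun _ _ => by simp) ?_
    · rintro ⟨i, j⟩ -
      dsimp only
      rw [← face_face, ← add_smul]
      convert zero_smul ℤ _
      have := Fin.neg_one_pow_succAbove_add_predAbove (R := ℤ) i j
      rw [← pow_add, ← pow_add, this]
      ring
    · rintro ⟨i, j⟩ - - h
      exact Fin.succAbove_ne i j (congrArg Prod.fst h)
    · rintro ⟨i, j⟩ -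
      exact Prod.ext (Fin.succAbove_succAbove_predAbove i j) (Fin.predAbove_predAbove_succAbove i j)

theorem aug_bd (c : Sing X 1 →₀ R) : aug R X (bd R X 0 c) = 0 := by
  induction c using Finsupp.induction_linear with
  | zero => simp
  | add a b ha hb => simp [ha, hb]
  | single σ a =>
    simp only [bd_single, map_sum, map_zsmul, aug_single]
    simp [Fin.sum_univ_two]

theorem bd_push (f : C(X, Y)) (k : ℕ) (c : Sing X (k + 1) →₀ R) :
    bd R Y k (push R f (k + 1) c) = push R f k (bd R X k c) := by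
  induction c using Finsupp.induction_linear with
  | zero => simp
  | add a b ha hb => simp [ha, hb]
  | single σ a => simp only [push_single, bd_single, map_sum, map_zsmul, face_comp]

theorem aug_push (f : C(X, Y)) (c : Sing X 0 →₀ R) : aug R Y (push R f 0 c) = aug R X c := by
  induction c using Finsupp.induction_linear with
  | zero => simp
  | add a b ha hb => simp [ha, hb]
  | single σ a => simp only [push_single, aug_single]

theorem push_push (g : C(Y, Z)) (f : C(X, Y)) (k : ℕ) (c : Sing X k →₀ R) :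
    push R g k (push R f k c) = push R (g.comp f) k c := by
  simp only [push, lmapDomain_apply, ← mapDomain_comp]
  rfl

theorem push_id (k : ℕ) (c : Sing X k →₀ R) : push R (ContinuousMap.id X) k c = c := by
  simp only [push, lmapDomain_apply]
  exact mapDomain_id

variable {R}

theorem mem_supp {A : Set X} {k : ℕ} {c : Sing X k →₀ R} :
    c ∈ supp R A k ↔ ∀ σ ∈ c.support, ∀ t, σ t ∈ A := by
  simp only [supp, mem_supported, Set.subset_def, Finset.mem_coe, Set.mem_setOf_eq, Set.mem_range,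
    forall_exists_index, forall_apply_eq_imp_iff]

theorem single_mem_supp {A : Set X} {k : ℕ} {σ : Sing X k} (a : R) (h : ∀ t, σ t ∈ A) :
    single σ a ∈ supp R A k :=
  single_mem_supported R a (by rintro _ ⟨t, rfl⟩; exact h t)

/-- Induction on chains supported in `A`. -/
theorem supp_induction {A : Set X} {k : ℕ} {P : (Sing X k →₀ R) → Prop} (h0 : P 0)
    (hadd : ∀ a b, P a → P b → P (a + b))
    (h1 : ∀ (σ : Sing X k) (a : R), (∀ t, σ t ∈ A) → P (single σ a))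
    {c : Sing X k →₀ R} (hc : c ∈ supp R A k) : P c := by
  rw [← c.sum_single, Finsupp.sum]
  exact Finset.sum_induction _ P hadd h0 fun σ hσ => h1 σ _ (mem_supp.1 hc σ hσ)

theorem supp_mono {A B : Set X} (h : A ⊆ B) (k : ℕ) : supp R A k ≤ supp R B k :=
  supported_mono fun _ hσ => Set.Subset.trans hσ h

theorem supp_inter (A B : Set X) (k : ℕ) : supp R (A ∩ B) k = supp R A k ⊓ supp R B k := by
  ext c
  simp only [Submodule.mem_inf, mem_supp, Set.mem_inter_iff, forall_and]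

theorem mem_supp_univ {k : ℕ} (c : Sing X k →₀ R) : c ∈ supp R Set.univ k :=
  mem_supp.2 fun _ _ _ => trivial

theorem eq_zero_of_mem_supp_empty {k : ℕ} {c : Sing X k →₀ R} (h : c ∈ supp R ∅ k) : c = 0 := by
  rw [← support_eq_empty, Finset.eq_empty_iff_forall_notMem]
  exact fun σ hσ => mem_supp.1 h σ hσ (Classical.arbitrary _)

theorem bd_mem_supp {A : Set X} {k : ℕ} {c : Sing X (k + 1) →₀ R} (h : c ∈ supp R A (k + 1)) :
    bd R X k c ∈ supp R A k := by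
  refine supp_induction (P := fun c => bd R X k c ∈ supp R A k) (by simp)
    (fun a b ha hb => by simpa using add_mem ha hb) (fun σ a hσ => ?_) h
  rw [bd_single]
  exact sum_mem fun i _ => zsmul_mem (single_mem_supp (σ := face i σ) a fun t => hσ _) _

theorem push_mem_supp (f : C(X, Y)) {A : Set X} {B : Set Y} (hf : Set.MapsTo f A B) {k : ℕ}
    {c : Sing X k →₀ R} (h : c ∈ supp R A k) : push R f k c ∈ supp R B k := by
  refine supp_induction (P := fun c => push R f k c ∈ supp R B k) (by simp)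
    (fun a b ha hb => by simpa using add_mem ha hb) (fun σ a hσ => ?_) h
  rw [push_single]
  exact single_mem_supp a fun t => hf (hσ t)

/-- A chain is carried by a compact set. -/
theorem exists_compact_supp {A : Set X} {k : ℕ} {c : Sing X k →₀ R} (h : c ∈ supp R A k) :
    ∃ K, IsCompact K ∧ K ⊆ A ∧ c ∈ supp R K k := by
  refine ⟨⋃ σ ∈ c.support, Set.range σ,
    c.support.isCompact_biUnion fun σ _ => isCompact_range σ.continuous, ?_, ?_⟩
  · simp only [Set.iUnion_subset_iff]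
    rintro σ hσ _ ⟨t, rfl⟩
    exact mem_supp.1 h σ hσ t
  · exact mem_supp.2 fun σ hσ t => Set.mem_biUnion hσ ⟨t, rfl⟩

/-- A `0`-chain in `A ∪ B` is the sum of a `0`-chain in `A` and a `0`-chain in `B`. -/
theorem supp_union_zero (A B : Set X) : supp R (A ∪ B) 0 = supp R A 0 ⊔ supp R B 0 := by
  refine le_antisymm (fun c hc => ?_)
    (sup_le (supp_mono Set.subset_union_left 0) (supp_mono Set.subset_union_right 0))
  refine supp_induction (P := fun c => c ∈ supp R A 0 ⊔ supp R B 0) (zero_mem _)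
    (fun a b ha hb => add_mem ha hb) (fun σ a hσ => ?_) hc
  rcases hσ default with h | h
  · exact Submodule.mem_sup_left (single_mem_supp a fun t => by rwa [Subsingleton.elim t default])
  · exact Submodule.mem_sup_right (single_mem_supp a fun t => by rwa [Subsingleton.elim t default])

theorem push_injective (f : C(X, Y)) (hf : Function.Injective f) (k : ℕ) :
    Function.Injective (push R f k) :=
  mapDomain_injective fun _ _ h => ContinuousMap.ext fun t => hf (congrArg (· t) h)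

/-- Chains supported in the range of an embedding come from the source. -/
theorem exists_push_eq (f : C(X, Y)) (hf : Topology.IsEmbedding f) {A : Set X} {k : ℕ}
    {c : Sing Y k →₀ R} (h : c ∈ supp R (f '' A) k) : ∃ b ∈ supp R A k, push R f k b = c := by
  refine supp_induction (P := fun c => ∃ b ∈ supp R A k, push R f k b = c) ⟨0, zero_mem _, by simp⟩
    ?_ (fun σ a hσ => ?_) h
  · rintro _ _ ⟨a, ha, rfl⟩ ⟨b, hb, rfl⟩
    exact ⟨a + b, add_mem ha hb, by simp⟩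
  · choose g hg hg' using hσ
    have hc : Continuous g := hf.continuous_iff.2 (by
      convert σ.continuous using 1
      exact funext hg')
    refine ⟨single ⟨g, hc⟩ a, single_mem_supp a hg, ?_⟩
    rw [push_single]
    congr 1
    exact ContinuousMap.ext hg'

end Basic

section Cone


open Finsupp

/-- The standard simplex. -/
abbrev Sx (k : ℕ) : Type := stdSimplex ℝ (Fin (k + 1))

/-- The inclusion of the `i`-th face. -/
noncomputable def coface {k : ℕ} (i : Fin (k + 2)) : C(Sx k, Sx (k + 1)) :=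
  ⟨stdSimplex.map i.succAbove, stdSimplex.continuous_map _⟩

theorem coface_same {k : ℕ} (i : Fin (k + 2)) (x : Sx k) : coface i x i = 0 := by
  show FunOnFinite.linearMap ℝ ℝ i.succAbove x i = 0
  rw [FunOnFinite.linearMap_apply_apply]
  exact Finset.sum_eq_zero fun j hj => absurd (Finset.mem_filter.1 hj).2 (Fin.succAbove_ne i j)

theorem coface_succAbove {k : ℕ} (i : Fin (k + 2)) (x : Sx k) (j : Fin (k + 1)) :
    coface i x (i.succAbove j) = x j := by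
  show FunOnFinite.linearMap ℝ ℝ i.succAbove x (i.succAbove j) = x j
  rw [FunOnFinite.linearMap_apply_apply]
  simp [Finset.filter_eq']

/-- The quotient map from the cylinder onto the cone. -/
noncomputable def cyl (k : ℕ) : C(unitInterval × Sx k, Sx (k + 1)) where
  toFun p := ⟨Fin.cons (p.1 : ℝ) fun j => (1 - p.1) * p.2 j, by
    refine ⟨Fin.cases p.1.2.1 fun j => mul_nonneg (sub_nonneg.2 p.1.2.2) (stdSimplex.zero_le p.2 j), ?_⟩
    simp [Fin.sum_univ_succ (n := k + 1), ← Finset.mul_sum]⟩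
  continuous_toFun := by
    refine Continuous.subtype_mk (continuous_pi fun j => ?_) _
    refine Fin.cases ?_ (fun j => ?_) j
    · simp only [Fin.cons_zero]; fun_prop
    · simp only [Fin.cons_succ]
      exact (continuous_const.sub (continuous_subtype_val.comp continuous_fst)).mul
        ((continuous_apply j).comp (continuous_subtype_val.comp continuous_snd))

theorem cyl_zero {k : ℕ} (s : unitInterval) (y : Sx k) : cyl k (s, y) 0 = s := rfl

theorem cyl_succ {k : ℕ} (s : unitInterval) (y : Sx k) (j : Fin (k + 1)) :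
    cyl k (s, y) j.succ = (1 - s) * y j := rfl

theorem cyl_surj (k : ℕ) : Function.Surjective (cyl k) := by
  intro x
  have hs : x 0 + ∑ j : Fin (k + 1), x j.succ = 1 := by
    rw [← Fin.sum_univ_succ]; exact stdSimplex.sum_eq_one x
  by_cases h : x 0 = 1
  · refine ⟨(1, Classical.arbitrary _), stdSimplex.ext (funext fun j => ?_)⟩
    refine Fin.cases ?_ (fun j => ?_) j
    · rw [cyl_zero, h]; rfl
    · rw [cyl_succ]
      have h0 : ∑ j : Fin (k + 1), x j.succ = 0 := by linarith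
      rw [(Finset.sum_eq_zero_iff_of_nonneg fun j _ => stdSimplex.zero_le x _).1 h0 j (Finset.mem_univ _)]
      simp
  · have h1 : 0 < 1 - x 0 := sub_pos.2 (lt_of_le_of_ne (stdSimplex.le_one x 0) h)
    refine ⟨(⟨x 0, stdSimplex.zero_le x 0, stdSimplex.le_one x 0⟩, ⟨fun j => x j.succ / (1 - x 0),
      fun j => div_nonneg (stdSimplex.zero_le x _) h1.le, ?_⟩), stdSimplex.ext (funext fun j => ?_)⟩
    · rw [← Finset.sum_div, div_eq_one_iff_eq h1.ne']; linarith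
    · refine Fin.cases rfl (fun j => ?_) j
      rw [cyl_succ]
      exact mul_div_cancel₀ _ h1.ne'

theorem cyl_quot (k : ℕ) : Topology.IsQuotientMap (cyl k) :=
  IsClosedMap.isQuotientMap (cyl k).continuous.isClosedMap (cyl k).continuous (cyl_surj k)

theorem cyl_eq {k : ℕ} {p q : unitInterval × Sx k} (h : cyl k p = cyl k q) :
    p = q ∨ (p.1 = 1 ∧ q.1 = 1) := by
  obtain ⟨s, y⟩ := p
  obtain ⟨t, z⟩ := q
  obtain rfl : s = t := Subtype.ext (congrArg (fun x : Sx (k + 1) => x 0) h)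
  by_cases h1 : s = 1
  · exact Or.inr ⟨h1, h1⟩
  · refine Or.inl (Prod.ext rfl (stdSimplex.ext (funext fun j => ?_)))
    have h2 : (1 - s : ℝ) ≠ 0 := fun h3 => h1 (Subtype.ext (sub_eq_zero.1 h3).symm)
    exact mul_left_cancel₀ h2 (congrArg (fun x : Sx (k + 1) => x j.succ) h)

theorem coface_zero_eq {k : ℕ} (y : Sx k) : coface 0 y = cyl k (0, y) := by
  refine stdSimplex.ext (funext fun j => ?_)
  refine Fin.cases ?_ (fun j => ?_) j
  · rw [coface_same, cyl_zero]; rfl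
  · rw [cyl_succ, ← Fin.succAbove_zero_apply, coface_succAbove]; simp

theorem coface_succ_cyl {k : ℕ} (i : Fin (k + 2)) (s : unitInterval) (y : Sx k) :
    coface i.succ (cyl k (s, y)) = cyl (k + 1) (s, coface i y) := by
  refine stdSimplex.ext (funext fun j => ?_)
  refine Fin.cases ?_ (fun j => ?_) j
  · rw [cyl_zero, ← Fin.succ_succAbove_zero i, coface_succAbove, cyl_zero]
  · rw [cyl_succ]
    refine Fin.succAboveCases i ?_ (fun j => ?_) j
    · rw [coface_same, coface_same, mul_zero]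
    · rw [← Fin.succ_succAbove_succ, coface_succAbove, coface_succAbove, cyl_succ]

theorem coface_one_eq (y : Sx 0) : coface (1 : Fin 2) y = cyl 0 (1, y) := by
  refine stdSimplex.ext (funext fun j => ?_)
  refine Fin.cases ?_ (fun j => ?_) j
  · rw [cyl_zero]
    exact (coface_succAbove (1 : Fin 2) y 0).trans (stdSimplex.eq_one_of_unique (X := Fin 1) y 0)
  · rw [cyl_succ, Subsingleton.elim j 0]
    exact (coface_same (1 : Fin 2) y).trans (by simp)

variable (R : Type) [Ring R] {X Y : Type} [TopologicalSpace X] [TopologicalSpace Y]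
  {f : C(X, Y)} {y₀ : Y}

theorem cone_factors (H : f.Homotopy (ContinuousMap.const X y₀)) {k : ℕ} (σ : Sing X k) :
    Function.FactorsThrough
      (H.toContinuousMap.comp ((ContinuousMap.id unitInterval).prodMap σ)) (cyl k) := by
  intro p q h
  rcases cyl_eq h with rfl | ⟨h1, h2⟩
  · rfl
  · show H (p.1, σ p.2) = H (q.1, σ q.2)
    rw [h1, h2, H.apply_one, H.apply_one]
    rfl

/-- The cone over a singular simplex along a null-homotopy. -/
noncomputable def coneS (H : f.Homotopy (ContinuousMap.const X y₀)) {k : ℕ} (σ : Sing X k) :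
    Sing Y (k + 1) :=
  (cyl_quot k).lift _ (cone_factors H σ)

theorem coneS_cyl (H : f.Homotopy (ContinuousMap.const X y₀)) {k : ℕ} (σ : Sing X k)
    (s : unitInterval) (y : Sx k) : coneS H σ (cyl k (s, y)) = H (s, σ y) :=
  congrArg (fun g : C(unitInterval × Sx k, Y) => g (s, y))
    ((cyl_quot k).lift_comp _ (cone_factors H σ))

theorem face_zero_coneS (H : f.Homotopy (ContinuousMap.const X y₀)) {k : ℕ} (σ : Sing X k) :
    face 0 (coneS H σ) = f.comp σ := by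
  ext y
  show coneS H σ (coface 0 y) = f (σ y)
  rw [coface_zero_eq, coneS_cyl, H.apply_zero]

theorem face_succ_coneS (H : f.Homotopy (ContinuousMap.const X y₀)) {k : ℕ} (σ : Sing X (k + 1))
    (i : Fin (k + 2)) : face i.succ (coneS H σ) = coneS H (face i σ) := by
  ext x
  obtain ⟨⟨s, y⟩, rfl⟩ := cyl_surj k x
  show coneS H σ (coface i.succ (cyl k (s, y))) = _
  rw [coface_succ_cyl, coneS_cyl, coneS_cyl]
  rfl

theorem face_one_coneS (H : f.Homotopy (ContinuousMap.const X y₀)) (σ : Sing X 0) :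
    face (1 : Fin 2) (coneS H σ) = ContinuousMap.const _ y₀ := by
  ext y
  show coneS H σ (coface 1 y) = y₀
  rw [coface_one_eq, coneS_cyl, H.apply_one]
  rfl

/-- The cone operator on chains. -/
noncomputable def cone (H : f.Homotopy (ContinuousMap.const X y₀)) (k : ℕ) :
    (Sing X k →₀ R) →ₗ[R] (Sing Y (k + 1) →₀ R) := lmapDomain R R (coneS H)

theorem cone_single (H : f.Homotopy (ContinuousMap.const X y₀)) (k : ℕ) (σ : Sing X k) (a : R) :
    cone R H k (single σ a) = single (coneS H σ) a := by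
  simp only [cone, lmapDomain_apply, mapDomain_single]

theorem bd_cone_succ (H : f.Homotopy (ContinuousMap.const X y₀)) (k : ℕ)
    (c : Sing X (k + 1) →₀ R) :
    bd R Y (k + 1) (cone R H (k + 1) c) = push R f (k + 1) c - cone R H k (bd R X k c) := by
  induction c using Finsupp.induction_linear with
  | zero => simp
  | add a b ha hb => simp only [map_add, ha, hb]; abel
  | single σ a =>
    rw [cone_single, bd_single, bd_single, push_single, Fin.sum_univ_succ, face_zero_coneS, map_sum,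
      sub_eq_add_neg, ← Finset.sum_neg_distrib]
    simp only [face_succ_coneS, map_zsmul, cone_single, Fin.val_zero, pow_zero, one_smul,
      Fin.val_succ, pow_succ, mul_neg, mul_one, neg_smul]

theorem bd_cone_zero (H : f.Homotopy (ContinuousMap.const X y₀)) (c : Sing X 0 →₀ R) :
    bd R Y 0 (cone R H 0 c) =
      push R f 0 c - single (ContinuousMap.const _ y₀) (aug R X c) := by
  induction c using Finsupp.induction_linear with
  | zero => simp
  | add a b ha hb => simp only [map_add, ha, hb, single_add]; abel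
  | single σ a =>
    rw [cone_single, bd_single, push_single, aug_single, Fin.sum_univ_two, face_zero_coneS,
      face_one_coneS]
    simp [sub_eq_add_neg]

variable {R} in
theorem cone_mem_supp (H : f.Homotopy (ContinuousMap.const X y₀)) {A : Set X} {B : Set Y}
    (hAB : ∀ s, ∀ x ∈ A, H (s, x) ∈ B) {k : ℕ} {c : Sing X k →₀ R} (h : c ∈ supp R A k) :
    cone R H k c ∈ supp R B (k + 1) := by
  refine supp_induction (P := fun c => cone R H k c ∈ supp R B (k + 1)) (by simp)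
    (fun a b ha hb => by simpa using add_mem ha hb) (fun σ a hσ => ?_) h
  rw [cone_single]
  refine single_mem_supp a fun t => ?_
  obtain ⟨⟨s, y⟩, rfl⟩ := cyl_surj k t
  rw [coneS_cyl]
  exact hAB s _ (hσ y)

end Cone

section Subdiv


open Finsupp

variable (R : Type) [Ring R] {X Y : Type} [TopologicalSpace X] [TopologicalSpace Y]

variable (X) in
/-- The natural operator on chains defined by a universal chain on the standard simplex. -/
noncomputable def ev {k l : ℕ} (m : Sing (Sx k) l →₀ R) :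
    (Sing X k →₀ R) →ₗ[R] (Sing X l →₀ R) :=
  linearCombination R fun σ : Sing X k => push R σ l m

theorem ev_single {k l : ℕ} (m : Sing (Sx k) l →₀ R) (σ : Sing X k) (a : R) :
    ev R X m (single σ a) = a • push R σ l m := linearCombination_single ..

theorem push_ev (f : C(X, Y)) {k l : ℕ} (m : Sing (Sx k) l →₀ R) (c : Sing X k →₀ R) :
    push R f l (ev R X m c) = ev R Y m (push R f k c) := by
  induction c using Finsupp.induction_linear with
  | zero => simp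
  | add a b ha hb => simp only [map_add, ha, hb]
  | single σ a => rw [push_single, ev_single, ev_single, map_smul, push_push]

variable {R} in
theorem ev_mem_supp {k l : ℕ} (m : Sing (Sx k) l →₀ R) {A : Set X} {c : Sing X k →₀ R}
    (h : c ∈ supp R A k) : ev R X m c ∈ supp R A l := by
  refine supp_induction (P := fun c => ev R X m c ∈ supp R A l) (by simp)
    (fun a b ha hb => by simpa using add_mem ha hb) (fun σ a hσ => ?_) h
  rw [ev_single]
  exact Submodule.smul_mem _ _ (push_mem_supp σ (fun t _ => hσ t) (mem_supp_univ m))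

/-- The fundamental chain of the standard simplex. -/
noncomputable def iota (k : ℕ) : Sing (Sx k) k →₀ R := single (ContinuousMap.id _) 1

theorem push_iota {k : ℕ} (σ : Sing X k) : push R σ k (iota R k) = single σ 1 :=
  push_single R σ k _ 1

theorem ev_iota {k : ℕ} (c : Sing X k →₀ R) : ev R X (iota R k) c = c := by
  induction c using Finsupp.induction_linear with
  | zero => simp
  | add a b ha hb => simp only [map_add, ha, hb]
  | single σ a => rw [ev_single, push_iota, smul_single, smul_eq_mul, mul_one]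

theorem ev_apply_iota {k l : ℕ} (m : Sing (Sx k) l →₀ R) : ev R (Sx k) m (iota R k) = m := by
  rw [iota, ev_single, one_smul, push_id]

/-- The straight-line contraction of the standard simplex to its barycentre. -/
noncomputable def bary (k : ℕ) :
    (ContinuousMap.id (Sx k)).Homotopy (ContinuousMap.const _ stdSimplex.barycenter) where
  toFun p := ⟨(1 - p.1 : ℝ) • p.2.1 + (p.1 : ℝ) • (stdSimplex.barycenter : Sx k).1,
    convex_stdSimplex ℝ _ p.2.2 (stdSimplex.barycenter : Sx k).2 (sub_nonneg.2 p.1.2.2) p.1.2.1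
      (sub_add_cancel _ _)⟩
  continuous_toFun := Continuous.subtype_mk (by fun_prop) _
  map_zero_left x := Subtype.ext (by simp)
  map_one_left x := Subtype.ext (by simp)

/-- The subdivision of the standard simplex. -/
noncomputable def sdU : (k : ℕ) → (Sing (Sx k) k →₀ R)
  | 0 => iota R 0
  | k + 1 => cone R (bary (k + 1)) k (ev R _ (sdU k) (bd R _ k (iota R (k + 1))))

/-- The universal chain homotopy. -/
noncomputable def sdHU : (k : ℕ) → (Sing (Sx k) (k + 1) →₀ R)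
  | 0 => 0
  | k + 1 => cone R (bary (k + 1)) (k + 1)
      (iota R (k + 1) - sdU R (k + 1) - ev R _ (sdHU k) (bd R _ k (iota R (k + 1))))

variable (X) in
/-- Barycentric subdivision. -/
noncomputable def sdR (k : ℕ) : (Sing X k →₀ R) →ₗ[R] (Sing X k →₀ R) := ev R X (sdU R k)

variable (X) in
/-- The chain homotopy between the identity and the subdivision. -/
noncomputable def sdHR (k : ℕ) : (Sing X k →₀ R) →ₗ[R] (Sing X (k + 1) →₀ R) := ev R X (sdHU R k)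

theorem sdR_zero (c : Sing X 0 →₀ R) : sdR R X 0 c = c := ev_iota R c

theorem sdHR_zero (c : Sing X 0 →₀ R) : sdHR R X 0 c = 0 := by
  induction c using Finsupp.induction_linear with
  | zero => simp
  | add a b ha hb => simp only [map_add, ha, hb, add_zero]
  | single σ a => rw [sdHR, ev_single, sdHU, map_zero, smul_zero]

theorem push_sdR (f : C(X, Y)) (k : ℕ) (c : Sing X k →₀ R) :
    push R f k (sdR R X k c) = sdR R Y k (push R f k c) := push_ev R f _ c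

theorem push_sdHR (f : C(X, Y)) (k : ℕ) (c : Sing X k →₀ R) :
    push R f (k + 1) (sdHR R X k c) = sdHR R Y k (push R f k c) := push_ev R f _ c

theorem bd_sdR_of {k : ℕ}
    (h : bd R _ k (sdU R (k + 1)) = sdR R _ k (bd R _ k (iota R (k + 1))))
    (c : Sing X (k + 1) →₀ R) : bd R X k (sdR R X (k + 1) c) = sdR R X k (bd R X k c) := by
  induction c using Finsupp.induction_linear with
  | zero => simp
  | add a b ha hb => simp only [map_add, ha, hb]
  | single σ a =>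
    rw [sdR, ev_single, map_smul, bd_push, h, push_sdR, ← bd_push, push_iota, ← map_smul,
      ← map_smul, smul_single, smul_eq_mul, mul_one]

theorem bd_sdU (k : ℕ) :
    bd R _ k (sdU R (k + 1)) = sdR R _ k (bd R _ k (iota R (k + 1))) := by
  induction k with
  | zero =>
    rw [sdU, bd_cone_zero, push_id, sdU, ev_iota, aug_bd, single_zero, sub_zero, sdR_zero]
  | succ k ih =>
    rw [sdU, bd_cone_succ, push_id]
    have := bd_sdR_of R ih (bd R _ (k + 1) (iota R (k + 1 + 1)))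
    rw [bd_bd, map_zero, sdR] at this
    rw [this, map_zero, sub_zero, sdR]

theorem bd_sdR (k : ℕ) (c : Sing X (k + 1) →₀ R) :
    bd R X k (sdR R X (k + 1) c) = sdR R X k (bd R X k c) := bd_sdR_of R (bd_sdU R k) c

theorem bd_sdHR_of {k : ℕ}
    (h : bd R _ (k + 1) (sdHU R (k + 1)) =
      iota R (k + 1) - sdU R (k + 1) - sdHR R _ k (bd R _ k (iota R (k + 1))))
    (c : Sing X (k + 1) →₀ R) :
    bd R X (k + 1) (sdHR R X (k + 1) c) = c - sdR R X (k + 1) c - sdHR R X k (bd R X k c) := by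
  induction c using Finsupp.induction_linear with
  | zero => simp
  | add a b ha hb => simp only [map_add, ha, hb]; abel
  | single σ a =>
    rw [sdHR, ev_single, map_smul, bd_push, h, map_sub, map_sub, push_sdHR, ← bd_push, push_iota,
      smul_sub, smul_sub, ← map_smul (sdHR R X k), ← map_smul (bd R X k), smul_single, smul_eq_mul,
      mul_one, sdR, ev_single]

theorem bd_sdHU (k : ℕ) : bd R _ (k + 1) (sdHU R (k + 1)) =
    iota R (k + 1) - sdU R (k + 1) - sdHR R _ k (bd R _ k (iota R (k + 1))) := by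
  induction k with
  | zero =>
    rw [sdHU, bd_cone_succ, push_id, ← sdHR, sdHR_zero, sub_zero, map_sub, bd_sdU, sdR_zero,
      sub_self, map_zero, sub_zero]
  | succ k ih =>
    rw [sdHU, bd_cone_succ, push_id, ← sdHR, map_sub (bd R _ _), map_sub (bd R _ _), bd_sdU,
      bd_sdHR_of R ih, bd_bd, map_zero, sub_zero, sub_self, map_zero, sub_zero]

theorem bd_sdHR (k : ℕ) (c : Sing X (k + 1) →₀ R) :
    bd R X (k + 1) (sdHR R X (k + 1) c) = c - sdR R X (k + 1) c - sdHR R X k (bd R X k c) :=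
  bd_sdHR_of R (bd_sdHU R k) c

variable {R} in
theorem sdR_mem_supp {A : Set X} {k : ℕ} {c : Sing X k →₀ R} (h : c ∈ supp R A k) :
    sdR R X k c ∈ supp R A k := ev_mem_supp _ h

variable {R} in
theorem sdHR_mem_supp {A : Set X} {k : ℕ} {c : Sing X k →₀ R} (h : c ∈ supp R A k) :
    sdHR R X k c ∈ supp R A (k + 1) := ev_mem_supp _ h

/-! ### Mesh -/

/-- An affine simplex with one coordinate bounded below by `δ`. -/
def Doeb (δ : ℝ) {n k : ℕ} (ρ : Sing (Sx n) k) : Prop :=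
  (∃ L : (Fin (k + 1) → ℝ) →ₗ[ℝ] (Fin (n + 1) → ℝ), ∀ x : Sx k, (ρ x).1 = L x.1) ∧
    ∃ j, ∀ x, δ ≤ ρ x j

theorem Doeb.coface {δ : ℝ} {n k : ℕ} {ρ : Sing (Sx n) k} (h : Doeb δ ρ) (i : Fin (n + 2)) :
    Doeb δ ((coface i).comp ρ) := by
  obtain ⟨⟨L, hL⟩, j, hj⟩ := h
  refine ⟨⟨FunOnFinite.linearMap ℝ ℝ i.succAbove ∘ₗ L, fun x => ?_⟩, i.succAbove j, fun x => ?_⟩
  · rw [LinearMap.comp_apply, ← hL]; rfl
  · rw [ContinuousMap.comp_apply, coface_succAbove]; exact hj x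

theorem Doeb.cone {δ : ℝ} {n k : ℕ} {ρ : Sing (Sx n) k} (h : Doeb δ ρ)
    (hδ : ((n + 1 : ℕ) : ℝ)⁻¹ ≤ δ) : Doeb ((n + 1 : ℕ) : ℝ)⁻¹ (coneS (bary n) ρ) := by
  obtain ⟨⟨L, hL⟩, j, hj⟩ := h
  refine ⟨⟨L ∘ₗ LinearMap.funLeft ℝ ℝ Fin.succ +
    (LinearMap.proj 0).smulRight (stdSimplex.barycenter : Sx n).1, fun x => ?_⟩, j, fun x => ?_⟩
  · obtain ⟨⟨s, y⟩, rfl⟩ := cyl_surj k x
    rw [coneS_cyl]
    show (1 - s : ℝ) • (ρ y).1 + (s : ℝ) • (stdSimplex.barycenter : Sx n).1 =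
      L ((1 - s : ℝ) • y.1) + (s : ℝ) • (stdSimplex.barycenter : Sx n).1
    rw [map_smul, hL]
  · obtain ⟨⟨s, y⟩, rfl⟩ := cyl_surj k x
    rw [coneS_cyl]
    show _ ≤ (1 - s : ℝ) * ρ y j + (s : ℝ) * (Fintype.card (Fin (n + 1)) : ℝ)⁻¹
    rw [Fintype.card_fin]
    nlinarith [mul_le_mul_of_nonneg_left (hδ.trans (hj y)) (sub_nonneg.2 s.2.2)]

/-- The `ℓ¹` distance on the standard simplex. -/
noncomputable def dOne {k : ℕ} (x y : Sx k) : ℝ := ∑ i, |x i - y i|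

theorem dOne_nonneg {k : ℕ} (x y : Sx k) : 0 ≤ dOne x y :=
  Finset.sum_nonneg fun _ _ => abs_nonneg _

theorem dOne_le_two {k : ℕ} (x y : Sx k) : dOne x y ≤ 2 := by
  calc dOne x y ≤ ∑ i, (x i + y i) := Finset.sum_le_sum fun i _ => by
        have := stdSimplex.zero_le x i
        have := stdSimplex.zero_le y i
        rw [abs_le]; constructor <;> linarith
    _ = 2 := by rw [Finset.sum_add_distrib, stdSimplex.sum_eq_one, stdSimplex.sum_eq_one]; norm_num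

theorem dist_le_dOne {k : ℕ} (x y : Sx k) : dist x y ≤ dOne x y := by
  rw [Subtype.dist_eq]
  exact (dist_pi_le_iff (dOne_nonneg x y)).2 fun i =>
    Finset.single_le_sum (f := fun i => |x i - y i|) (fun _ _ => abs_nonneg _) (Finset.mem_univ i)

theorem Doeb.contract {δ : ℝ} {n k : ℕ} {ρ : Sing (Sx n) k} (h : Doeb δ ρ) (x y : Sx k) :
    dOne (ρ x) (ρ y) ≤ (1 - δ) * dOne x y := by
  classical
  obtain ⟨⟨L, hL⟩, j, hj⟩ := h
  set w : Fin (k + 1) → Fin (n + 1) → ℝ :=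
    fun i l => ρ (stdSimplex.vertex i) l - δ * (Pi.single j 1 : Fin (n + 1) → ℝ) l with hw
  have hw0 : ∀ i l, 0 ≤ w i l := fun i l => by
    by_cases hl : l = j
    · subst hl; simpa [hw] using hj _
    · simp [hw, Pi.single_eq_of_ne hl]
  have hw1 : ∀ i, ∑ l, w i l = 1 - δ := fun i => by
    simp [hw, Finset.sum_sub_distrib, ← Finset.mul_sum]
  have hx : ∀ (x : Sx k) l, ρ x l = ∑ i, x i * ρ (stdSimplex.vertex i) l := fun x l => by
    show (ρ x).1 l = ∑ i, x.1 i * (ρ (stdSimplex.vertex i)).1 l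
    simp only [hL]
    conv_lhs => rw [pi_eq_sum_univ' x.1, map_sum]
    simp
  have hd : ∀ l, ρ x l - ρ y l = ∑ i, (x i - y i) * w i l := fun l => by
    rw [hx x, hx y]
    simp only [hw, mul_sub, sub_mul, Finset.sum_sub_distrib, ← Finset.sum_mul,
      stdSimplex.sum_eq_one]
    ring
  calc dOne (ρ x) (ρ y) ≤ ∑ l, ∑ i, |x i - y i| * w i l := Finset.sum_le_sum fun l _ => by
        rw [hd]
        refine (Finset.abs_sum_le_sum_abs _ _).trans (Finset.sum_le_sum fun i _ => ?_)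
        rw [abs_mul, abs_of_nonneg (hw0 i l)]
    _ = (1 - δ) * dOne x y := by
        rw [Finset.sum_comm, dOne, Finset.mul_sum]
        exact Finset.sum_congr rfl fun i _ => by rw [← Finset.mul_sum, hw1, mul_comm]

variable {R} in
theorem map_supported {α β : Type} {S : Set α} {T : Submodule R (β →₀ R)}
    (F : (α →₀ R) →ₗ[R] (β →₀ R)) (h : ∀ a ∈ S, F (single a 1) ∈ T) {c : α →₀ R}
    (hc : c ∈ supported R R S) : F c ∈ T := by
  rw [supported_eq_span_single] at hc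
  refine (Submodule.span_le (p := T.comap F)).2 ?_ hc
  rintro _ ⟨a, ha, rfl⟩
  exact h a ha

theorem sdU_doeb (k : ℕ) : sdU R k ∈ supported R R {ρ | Doeb ((k + 1 : ℕ) : ℝ)⁻¹ ρ} := by
  induction k with
  | zero =>
    refine single_mem_supported R _ ⟨⟨LinearMap.id, fun _ => rfl⟩, 0, fun x => ?_⟩
    exact le_of_eq_of_le (by simp) (stdSimplex.eq_one_of_unique (X := Fin 1) x 0).ge
  | succ k ih =>
    rw [sdU, iota, bd_single, map_sum, map_sum]
    refine sum_mem fun i _ => ?_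
    rw [map_zsmul, map_zsmul, ev_single, one_smul]
    refine zsmul_mem (map_supported (cone R (bary (k + 1)) k ∘ₗ push R _ k) (fun ρ hρ => ?_) ih) _
    rw [LinearMap.comp_apply, push_single, cone_single]
    refine single_mem_supported R _ (Doeb.cone (Doeb.coface hρ i) ?_)
    exact inv_anti₀ (by positivity) (by norm_cast; omega)

theorem sdR_pow_single {k : ℕ} (σ : Sing X k) (m : ℕ) :
    (sdR R X k ^ m) (single σ 1) ∈ supported R R {τ | ∃ ρ : Sing (Sx k) k, τ = σ.comp ρ ∧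
      ∀ x y, dOne (ρ x) (ρ y) ≤ (1 - ((k + 1 : ℕ) : ℝ)⁻¹) ^ m * dOne x y} := by
  induction m with
  | zero => exact single_mem_supported R _ ⟨ContinuousMap.id _, rfl, fun x y => by simp⟩
  | succ m ih =>
    rw [pow_succ' (sdR R X k), Module.End.mul_apply]
    refine map_supported _ ?_ ih
    rintro _ ⟨ρ, rfl, hρ⟩
    rw [sdR, ev_single, one_smul]
    refine map_supported _ (fun ρ' hρ' => ?_) (sdU_doeb R k)
    rw [push_single]
    refine single_mem_supported R _ ⟨ρ.comp ρ', rfl, fun x y => (hρ _ _).trans ?_⟩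
    rw [pow_succ, mul_assoc]
    refine mul_le_mul_of_nonneg_left (Doeb.contract hρ' x y) (pow_nonneg (sub_nonneg.2 ?_) _)
    exact inv_le_one_of_one_le₀ (by norm_cast; omega)

variable {R}

/-- Small chains for any family of open sets. -/
theorem sdR_small {ι : Type} {U : ι → Set X} (hU : ∀ i, IsOpen (U i)) {k : ℕ} {c : Sing X k →₀ R}
    (h : c ∈ supp R (⋃ i, U i) k) :
    ∃ m : ℕ, ∀ m' ≥ m, (sdR R X k ^ m') c ∈ ⨆ i, supp R (U i) k := by
  refine supp_induction (P := fun c => ∃ m : ℕ, ∀ m' ≥ m, (sdR R X k ^ m') c ∈ ⨆ i, supp R (U i) k)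
    ⟨0, fun _ _ => by simp⟩ ?_ (fun σ a hσ => ?_) h
  · rintro a b ⟨m, hm⟩ ⟨n, hn⟩
    refine ⟨max m n, fun m' h' => ?_⟩
    rw [map_add]
    exact add_mem (hm _ (le_of_max_le_left h')) (hn _ (le_of_max_le_right h'))
  obtain ⟨ε, hε, hL⟩ := lebesgue_number_lemma_of_metric (isCompact_univ (X := Sx k))
    (c := fun i => σ ⁻¹' U i) (fun i => (hU i).preimage σ.continuous)
    fun t _ => by simpa using hσ t
  have h0 : (0 : ℝ) ≤ 1 - ((k + 1 : ℕ) : ℝ)⁻¹ :=
    sub_nonneg.2 (inv_le_one_of_one_le₀ (by norm_cast; omega))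
  have h1 : 1 - ((k + 1 : ℕ) : ℝ)⁻¹ < 1 := sub_lt_self _ (by positivity)
  obtain ⟨m, hm⟩ := exists_pow_lt_of_lt_one (half_pos hε) h1
  refine ⟨m, fun m' h' => ?_⟩
  rw [← mul_one a, ← smul_eq_mul, ← smul_single, map_smul]
  refine Submodule.smul_mem _ _ (map_supported LinearMap.id ?_ (sdR_pow_single R σ m'))
  rintro _ ⟨ρ, rfl, hρ⟩
  obtain ⟨i, hi⟩ := hL (ρ (Classical.arbitrary _)) trivial
  refine Submodule.mem_iSup_of_mem i (single_mem_supp _ fun t => hi ?_)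
  have h2 := (pow_le_pow_of_le_one h0 h1.le h').trans_lt hm
  have h3 := mul_le_mul_of_nonneg_left (dOne_le_two t (Classical.arbitrary _)) (pow_nonneg h0 m')
  exact (dist_le_dOne _ _).trans_lt ((hρ _ _).trans_lt (by linarith))

theorem sdR_small_two {U V : Set X} (hU : IsOpen U) (hV : IsOpen V) {k : ℕ} {c : Sing X k →₀ R}
    (h : c ∈ supp R (U ∪ V) k) :
    ∃ m : ℕ, ∀ m' ≥ m, (sdR R X k ^ m') c ∈ supp R U k ⊔ supp R V k := by
  obtain ⟨m, hm⟩ := sdR_small (U := fun b : Bool => cond b U V) (by rintro (_ | _) <;> assumption)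
    (by rwa [← Set.union_eq_iUnion])
  refine ⟨m, fun m' h' => ?_⟩
  have := hm m' h'
  rwa [iSup_bool_eq] at this

/-- A chain in a directed union of open sets lies in one of them. -/
theorem exists_supp_of_directed {ι : Type} [Nonempty ι] {U : ι → Set X} (hU : ∀ i, IsOpen (U i))
    (hd : Directed (· ⊆ ·) U) {k : ℕ} {c : Sing X k →₀ R} (h : c ∈ supp R (⋃ i, U i) k) :
    ∃ i, c ∈ supp R (U i) k := by
  obtain ⟨K, hK, hKU, hc⟩ := exists_compact_supp h
  obtain ⟨i, hi⟩ := hK.elim_directed_cover U hU hKU hd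
  exact ⟨i, supp_mono hi k hc⟩

/-! ### Iterated subdivision and the small-chain lemma -/

variable (R X) in
/-- The chain homotopy between the identity and the `m`-fold subdivision. -/
noncomputable def sdHPow (m k : ℕ) : (Sing X k →₀ R) →ₗ[R] (Sing X (k + 1) →₀ R) :=
  ∑ j ∈ Finset.range m, sdHR R X k ∘ₗ (sdR R X k ^ j)

theorem bd_sdR_pow (m k : ℕ) (c : Sing X (k + 1) →₀ R) :
    bd R X k ((sdR R X (k + 1) ^ m) c) = (sdR R X k ^ m) (bd R X k c) := by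
  induction m with
  | zero => rfl
  | succ m ih => rw [pow_succ', pow_succ', Module.End.mul_apply, Module.End.mul_apply, bd_sdR, ih]

theorem bd_sdHPow (m k : ℕ) (c : Sing X (k + 1) →₀ R) :
    bd R X (k + 1) (sdHPow R X m (k + 1) c) =
      c - (sdR R X (k + 1) ^ m) c - sdHPow R X m k (bd R X k c) := by
  induction m with
  | zero => simp [sdHPow]
  | succ m ih =>
    simp only [sdHPow, Finset.sum_range_succ, LinearMap.add_apply, map_add, LinearMap.comp_apply]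
      at ih ⊢
    rw [ih, bd_sdHR, bd_sdR_pow, pow_succ', Module.End.mul_apply]
    abel

theorem sdR_pow_mem_supp {A : Set X} (m : ℕ) {k : ℕ} {c : Sing X k →₀ R} (h : c ∈ supp R A k) :
    (sdR R X k ^ m) c ∈ supp R A k := by
  induction m with
  | zero => exact h
  | succ m ih => rw [pow_succ', Module.End.mul_apply]; exact sdR_mem_supp ih

theorem sdHPow_mem_supp {A : Set X} (m : ℕ) {k : ℕ} {c : Sing X k →₀ R} (h : c ∈ supp R A k) :
    sdHPow R X m k c ∈ supp R A (k + 1) := by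
  rw [sdHPow, LinearMap.sum_apply]
  exact sum_mem fun j _ => sdHR_mem_supp (sdR_pow_mem_supp j h)

/-- A chain in `A ∪ B` with small boundary is homologous to a small chain. -/
theorem small_chainR {A B : Set X} (hA : IsOpen A) (hB : IsOpen B) (k : ℕ)
    (c : Sing X (k + 1) →₀ R) (hc : c ∈ supp R (A ∪ B) (k + 1))
    (hd : bd R X k c ∈ supp R A k ⊔ supp R B k) :
    ∃ h ∈ supp R (A ∪ B) (k + 2),
      c - bd R X (k + 1) h ∈ supp R A (k + 1) ⊔ supp R B (k + 1) := by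
  obtain ⟨m, hm⟩ := sdR_small_two hA hB hc
  refine ⟨_, sdHPow_mem_supp m hc, ?_⟩
  rw [bd_sdHPow, sub_sub, sub_sub_cancel]
  refine add_mem (hm m le_rfl) ?_
  obtain ⟨a, ha, b, hb, hab⟩ := Submodule.mem_sup.1 hd
  rw [← hab, map_add]
  exact Submodule.add_mem_sup (sdHPow_mem_supp m ha) (sdHPow_mem_supp m hb)

end Subdiv

end Pool.Agent.MP_bc14e1_gt

end

section

/-! The total singular complex and its basic operators. -/

open Set Metric
open scoped Classical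

namespace Pool.Agent.MP_bc14e1_gt

noncomputable section

/-- Singular simplices of all degrees. -/
abbrev TS (X : Type) [TopologicalSpace X] : Type := Σ k : ℕ, Sing X k

/-- The total singular chain complex. -/
abbrev Tot (R : Type) [CommRing R] (X : Type) [TopologicalSpace X] : Type := TS X →₀ R

section Defs

variable (R : Type) [CommRing R] {X Y : Type} [TopologicalSpace X] [TopologicalSpace Y]

/-- Chains of degree `k` as elements of the total complex. -/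
def inc (k : ℕ) : (Sing X k →₀ R) →ₗ[R] Tot R X := Finsupp.lmapDomain R R (Sigma.mk k)

/-- An operator on the total complex from operators in each degree. -/
def tl {M : Type} [AddCommGroup M] [Module R M] (F : ∀ k, (Sing X k →₀ R) →ₗ[R] M) :
    Tot R X →ₗ[R] M :=
  Finsupp.lsum R fun σ : TS X => F σ.1 ∘ₗ Finsupp.lsingle σ.2

def dK (X : Type) [TopologicalSpace X] : ∀ k, (Sing X k →₀ R) →ₗ[R] Tot R X
  | 0 => 0
  | k + 1 => inc R k ∘ₗ bd R X k

/-- The boundary. -/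
def dT (X : Type) [TopologicalSpace X] : Module.End R (Tot R X) := tl R (dK R X)

/-- Barycentric subdivision. -/
def sdT (X : Type) [TopologicalSpace X] : Module.End R (Tot R X) :=
  tl R fun k => inc R k ∘ₗ sdR R X k

/-- The homotopy from the identity to the subdivision. -/
def sdH (X : Type) [TopologicalSpace X] : Module.End R (Tot R X) :=
  tl R fun k => inc R (k + 1) ∘ₗ sdHR R X k

/-- The homotopy from the identity to the `m`-fold subdivision. -/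
def sdHP (X : Type) [TopologicalSpace X] (m : ℕ) : Module.End R (Tot R X) :=
  ∑ j ∈ Finset.range m, sdH R X * sdT R X ^ j

/-- Chains in the subset `A`. -/
def CH (A : Set X) : Submodule R (Tot R X) := Finsupp.supported R R {σ | range σ.2 ⊆ A}

/-- Chains of degree `k`. -/
def DG (X : Type) [TopologicalSpace X] (k : ℕ) : Submodule R (Tot R X) :=
  Finsupp.supported R R {σ | σ.1 = k}

/-- Keep the simplices with property `P`. -/
def flt (P : TS X → Prop) : Module.End R (Tot R X) :=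
  Finsupp.lsum R fun σ : TS X => if P σ then Finsupp.lsingle σ else 0

/-- The part of a chain in `A`. -/
def prj (A : Set X) : Module.End R (Tot R X) := flt R fun σ => range σ.2 ⊆ A

/-- The part of a chain of degree `k`. -/
def deg (X : Type) [TopologicalSpace X] (k : ℕ) : Module.End R (Tot R X) :=
  flt R fun σ => σ.1 = k

/-- Push-forward along any function; simplices on which it is not continuous go to zero. -/
def psh (f : X → Y) : Tot R X →ₗ[R] Tot R Y :=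
  Finsupp.lsum R fun σ : TS X =>
    if h : Continuous (f ∘ σ.2) then Finsupp.lsingle (⟨σ.1, ⟨f ∘ σ.2, h⟩⟩ : TS Y) else 0

/-- A point as a chain. -/
def pt (x : X) : Tot R X := Finsupp.single ⟨0, ContinuousMap.const _ x⟩ 1

/-- A path as a chain. -/
def pth (γ : C(unitInterval, X)) : Tot R X :=
  Finsupp.single ⟨1, γ.comp (stdSimplexHomeomorphUnitInterval : C(Sx 1, unitInterval))⟩ 1

/-- The linear extension of a function on points to chains of degree zero. -/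
def val0 {M : Type} [AddCommGroup M] [Module R M] (f : X → M) : Tot R X →ₗ[R] M :=
  Finsupp.linearCombination R fun σ : TS X =>
    if σ.1 = 0 then f (σ.2 stdSimplex.barycenter) else 0

/-- Multiplication by the sign `e k` in degree `k`. -/
def sgn (X : Type) [TopologicalSpace X] (e : ℕ → ℤ) : Module.End R (Tot R X) :=
  Finsupp.lsum R fun σ : TS X => e σ.1 • Finsupp.lsingle σ

/-- Multiplication by `(-1) ^ k` in degree `k`. -/
def eps (X : Type) [TopologicalSpace X] : Module.End R (Tot R X) := sgn R X fun k => (-1) ^ k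

variable {R} in
/-- Change of coefficients. -/
def cast {S : Type} [CommRing S] (φ : R →+* S) (X : Type) [TopologicalSpace X] :
    Tot R X →ₛₗ[φ] Tot S X where
  toFun := Finsupp.mapRange φ φ.map_zero
  map_add' := Finsupp.mapRange_add φ.map_add
  map_smul' a c := by ext σ; simp

/-- Integral chains as chains over `R`. -/
abbrev castZ (X : Type) [TopologicalSpace X] : Tot ℤ X →ₛₗ[Int.castRingHom R] Tot R X :=
  cast (Int.castRingHom R) X

/-- Complex conjugation of chains. -/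
abbrev cjT (X : Type) [TopologicalSpace X] : Tot ℂ X →ₗ⋆[ℂ] Tot ℂ X := cast (starRingEnd ℂ) X

end Defs

section Api

open Finsupp

variable {R : Type} [CommRing R] {X Y Z : Type} [TopologicalSpace X] [TopologicalSpace Y]
  [TopologicalSpace Z]

theorem inc_single (k : ℕ) (σ : Sing X k) (a : R) :
    inc R k (single σ a) = single ⟨k, σ⟩ a := by
  simp [inc, mapDomain_single]

theorem inc_injective (k : ℕ) : Function.Injective (inc R (X := X) k) :=
  mapDomain_injective sigma_mk_injective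

theorem tl_single {M : Type} [AddCommGroup M] [Module R M] (F : ∀ k, (Sing X k →₀ R) →ₗ[R] M)
    (σ : TS X) (a : R) : tl R F (single σ a) = F σ.1 (single σ.2 a) := by
  simp [tl]

theorem tl_inc {M : Type} [AddCommGroup M] [Module R M] (F : ∀ k, (Sing X k →₀ R) →ₗ[R] M)
    (k : ℕ) (c : Sing X k →₀ R) : tl R F (inc R k c) = F k c := by
  induction c using Finsupp.induction_linear with
  | zero => simp
  | add a b ha hb => simp [ha, hb]
  | single σ a => rw [inc_single, tl_single]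

/-- Linear statements can be checked on the chains `inc k c`. -/
theorem Tot.ind {P : Tot R X → Prop} (h0 : P 0) (hadd : ∀ a b, P a → P b → P (a + b))
    (h1 : ∀ (k : ℕ) (σ : Sing X k) (a : R), P (inc R k (single σ a))) (c : Tot R X) : P c := by
  induction c using Finsupp.induction_linear with
  | zero => exact h0
  | add a b ha hb => exact hadd a b ha hb
  | single σ a => rw [← inc_single]; exact h1 _ _ _

theorem dT_inc_zero (c : Sing X 0 →₀ R) : dT R X (inc R 0 c) = 0 := by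
  rw [dT, tl_inc]; rfl

theorem dT_inc_succ (k : ℕ) (c : Sing X (k + 1) →₀ R) :
    dT R X (inc R (k + 1) c) = inc R k (bd R X k c) := by
  rw [dT, tl_inc]; rfl

theorem sdT_inc (k : ℕ) (c : Sing X k →₀ R) : sdT R X (inc R k c) = inc R k (sdR R X k c) := by
  rw [sdT, tl_inc]; rfl

theorem sdH_inc (k : ℕ) (c : Sing X k →₀ R) :
    sdH R X (inc R k c) = inc R (k + 1) (sdHR R X k c) := by
  rw [sdH, tl_inc]; rfl

theorem dT_dT (c : Tot R X) : dT R X (dT R X c) = 0 := by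
  induction c using Tot.ind with
  | h0 => simp
  | hadd a b ha hb => simp [ha, hb]
  | h1 k σ a =>
    rcases k with _ | _ | k
    · rw [dT_inc_zero, map_zero]
    · rw [dT_inc_succ, dT_inc_zero]
    · rw [dT_inc_succ, dT_inc_succ, bd_bd, map_zero]

theorem supported_ind {α : Type} {S : Set α} {P : (α →₀ R) → Prop} (h0 : P 0)
    (hadd : ∀ a b, P a → P b → P (a + b)) (h1 : ∀ σ ∈ S, ∀ a : R, P (single σ a))
    {c : α →₀ R} (hc : c ∈ supported R R S) : P c := by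
  rw [← c.sum_single, Finsupp.sum]
  exact Finset.sum_induction _ P hadd h0 fun σ hσ => h1 σ ((mem_supported R c).1 hc hσ) _

theorem mem_CH {A : Set X} {c : Tot R X} : c ∈ CH R A ↔ ∀ σ ∈ c.support, ∀ t, σ.2 t ∈ A := by
  simp only [CH, mem_supported, Set.subset_def, Finset.mem_coe, Set.mem_setOf_eq, Set.mem_range,
    forall_exists_index, forall_apply_eq_imp_iff]

theorem mem_DG {k : ℕ} {c : Tot R X} : c ∈ DG R X k ↔ ∀ σ ∈ c.support, σ.1 = k := by
  simp only [DG, mem_supported, Set.subset_def, Finset.mem_coe, Set.mem_setOf_eq]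

theorem single_mem_CH {A : Set X} {σ : TS X} (a : R) (h : ∀ t, σ.2 t ∈ A) :
    single σ a ∈ CH R A :=
  single_mem_supported R a (by rintro _ ⟨t, rfl⟩; exact h t)

theorem single_mem_DG (σ : TS X) (a : R) : single σ a ∈ DG R X σ.1 :=
  single_mem_supported R a rfl

theorem CH_ind {A : Set X} {P : Tot R X → Prop} (h0 : P 0)
    (hadd : ∀ a b, P a → P b → P (a + b))
    (h1 : ∀ (k : ℕ) (σ : Sing X k) (a : R), (∀ t, σ t ∈ A) → P (inc R k (single σ a)))
    {c : Tot R X} (hc : c ∈ CH R A) : P c :=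
  supported_ind h0 hadd (fun σ hσ a => by
    rw [← inc_single]; exact h1 _ _ _ fun t => hσ ⟨t, rfl⟩) hc

theorem inc_mem_CH {A : Set X} {k : ℕ} {c : Sing X k →₀ R} :
    inc R k c ∈ CH R A ↔ c ∈ supp R A k := by
  rw [mem_CH, mem_supp, inc, lmapDomain_apply, mapDomain_support_of_injective sigma_mk_injective]
  simp

theorem inc_mem_DG (k : ℕ) (c : Sing X k →₀ R) : inc R k c ∈ DG R X k := by
  induction c using Finsupp.induction_linear with
  | zero => simp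
  | add a b ha hb => rw [map_add]; exact add_mem ha hb
  | single σ a => rw [inc_single]; exact single_mem_DG ⟨k, σ⟩ a

theorem exists_inc {k : ℕ} {c : Tot R X} (h : c ∈ DG R X k) : ∃ b, inc R k b = c := by
  refine supported_ind (P := fun c => ∃ b, inc R k b = c) ⟨0, map_zero _⟩ ?_ ?_ h
  · rintro _ _ ⟨a, rfl⟩ ⟨b, rfl⟩; exact ⟨a + b, map_add _ _ _⟩
  · rintro ⟨_, σ⟩ rfl a; exact ⟨single σ a, inc_single _ _ _⟩

theorem CH_mono {A B : Set X} (h : A ⊆ B) : CH R A ≤ CH R B :=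
  supported_mono fun _ hσ => Set.Subset.trans hσ h

theorem CH_inter (A B : Set X) : CH R (A ∩ B) = CH R A ⊓ CH R B := by
  ext c
  simp only [Submodule.mem_inf, mem_CH, Set.mem_inter_iff, forall_and]

theorem mem_CH_univ (c : Tot R X) : c ∈ CH R (univ : Set X) := mem_CH.2 fun _ _ _ => trivial

theorem eq_zero_of_mem_CH_empty {c : Tot R X} (h : c ∈ CH R (∅ : Set X)) : c = 0 := by
  rw [← support_eq_empty, Finset.eq_empty_iff_forall_notMem]
  exact fun σ hσ => mem_CH.1 h σ hσ (Classical.arbitrary _)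

theorem eq_zero_of_mem_DG {k l : ℕ} (hkl : k ≠ l) {c : Tot R X} (h : c ∈ DG R X k)
    (h' : c ∈ DG R X l) : c = 0 := by
  rw [← support_eq_empty, Finset.eq_empty_iff_forall_notMem]
  exact fun σ hσ => hkl ((mem_DG.1 h σ hσ).symm.trans (mem_DG.1 h' σ hσ))

theorem exists_compact_CH {A : Set X} {c : Tot R X} (h : c ∈ CH R A) :
    ∃ K, IsCompact K ∧ K ⊆ A ∧ c ∈ CH R K := by
  refine ⟨⋃ σ ∈ c.support, Set.range σ.2,
    c.support.isCompact_biUnion fun σ _ => isCompact_range σ.2.continuous, ?_, ?_⟩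
  · simp only [Set.iUnion_subset_iff]
    rintro σ hσ _ ⟨t, rfl⟩
    exact mem_CH.1 h σ hσ t
  · exact mem_CH.2 fun σ hσ t => Set.mem_biUnion hσ ⟨t, rfl⟩

theorem exists_CH_of_directed {ι : Type} [Nonempty ι] {U : ι → Set X} (hU : ∀ i, IsOpen (U i))
    (hd : Directed (· ⊆ ·) U) {c : Tot R X} (h : c ∈ CH R (⋃ i, U i)) : ∃ i, c ∈ CH R (U i) := by
  obtain ⟨K, hK, hKU, hc⟩ := exists_compact_CH h
  obtain ⟨i, hi⟩ := hK.elim_directed_cover U hU hKU hd
  exact ⟨i, CH_mono hi hc⟩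

/-- An operator maps `CH A` into a submodule if it does so on simplices. -/
theorem map_CH {M : Type} [AddCommGroup M] [Module R M] {A : Set X} {T : Submodule R M}
    (F : Tot R X →ₗ[R] M) (h : ∀ (k : ℕ) (σ : Sing X k), (∀ t, σ t ∈ A) → F (single ⟨k, σ⟩ 1) ∈ T)
    {c : Tot R X} (hc : c ∈ CH R A) : F c ∈ T := by
  refine CH_ind (P := fun c => F c ∈ T) (by simp) (fun a b ha hb => by
    rw [map_add]; exact add_mem ha hb) (fun k σ a hσ => ?_) hc
  rw [inc_single, ← mul_one a, ← smul_eq_mul, ← smul_single, map_smul]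
  exact T.smul_mem _ (h k σ hσ)

theorem dT_mem_CH {A : Set X} {c : Tot R X} (h : c ∈ CH R A) : dT R X c ∈ CH R A := by
  refine map_CH _ (fun k σ hσ => ?_) h
  rw [← inc_single]
  rcases k with _ | k
  · rw [dT_inc_zero]; exact zero_mem _
  · rw [dT_inc_succ, inc_mem_CH]; exact bd_mem_supp (single_mem_supp _ hσ)

theorem dT_mem_DG {k : ℕ} {c : Tot R X} (h : c ∈ DG R X (k + 1)) : dT R X c ∈ DG R X k := by
  obtain ⟨b, rfl⟩ := exists_inc h
  rw [dT_inc_succ]; exact inc_mem_DG _ _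

theorem dT_of_DG_zero {c : Tot R X} (h : c ∈ DG R X 0) : dT R X c = 0 := by
  obtain ⟨b, rfl⟩ := exists_inc h
  exact dT_inc_zero b

theorem flt_single (P : TS X → Prop) (σ : TS X) (a : R) :
    flt R P (single σ a) = if P σ then single σ a else 0 := by
  rw [flt, lsum_single]; split_ifs <;> rfl

theorem flt_apply (P : TS X → Prop) (c : Tot R X) (σ : TS X) :
    flt R P c σ = if P σ then c σ else 0 := by
  induction c using Finsupp.induction_linear with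
  | zero => simp
  | add a b ha hb => rw [map_add, Finsupp.add_apply, ha, hb, Finsupp.add_apply]; split_ifs <;> simp
  | single τ a =>
    rw [flt_single]
    by_cases h : τ = σ
    · subst h; split_ifs <;> simp
    · split_ifs <;> simp [h]

theorem flt_mem (P : TS X → Prop) (c : Tot R X) : flt R P c ∈ supported R R {σ | P σ} :=
  (mem_supported' R _).2 fun σ hσ => by rw [flt_apply]; exact if_neg hσ

theorem flt_of_mem {P : TS X → Prop} {c : Tot R X} (h : c ∈ supported R R {σ | P σ}) :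
    flt R P c = c := by
  ext σ
  rw [flt_apply]
  split_ifs with hσ
  · rfl
  · exact ((mem_supported' R _).1 h σ hσ).symm

theorem flt_mem_supported (P : TS X → Prop) {S : Set (TS X)} {c : Tot R X}
    (h : c ∈ supported R R S) : flt R P c ∈ supported R R S :=
  (mem_supported' R _).2 fun σ hσ => by rw [flt_apply, (mem_supported' R _).1 h σ hσ, ite_self]

theorem prj_mem (A : Set X) (c : Tot R X) : prj R A c ∈ CH R A := flt_mem _ c

theorem prj_of_mem {A : Set X} {c : Tot R X} (h : c ∈ CH R A) : prj R A c = c := flt_of_mem h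

theorem prj_mem_CH (A : Set X) {B : Set X} {c : Tot R X} (h : c ∈ CH R B) :
    prj R A c ∈ CH R B := flt_mem_supported _ h

theorem prj_mem_DG (A : Set X) {k : ℕ} {c : Tot R X} (h : c ∈ DG R X k) :
    prj R A c ∈ DG R X k := flt_mem_supported _ h

theorem prj_eq_zero {A B : Set X} (hAB : Disjoint A B) {c : Tot R X} (h : c ∈ CH R B) :
    prj R A c = 0 := by
  apply eq_zero_of_mem_CH_empty
  rw [← hAB.inter_eq, CH_inter]
  exact ⟨prj_mem A c, prj_mem_CH A h⟩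

theorem deg_mem (k : ℕ) (c : Tot R X) : deg R X k c ∈ DG R X k := flt_mem _ c

theorem deg_of_mem {k : ℕ} {c : Tot R X} (h : c ∈ DG R X k) : deg R X k c = c := flt_of_mem h

theorem deg_mem_CH (k : ℕ) {B : Set X} {c : Tot R X} (h : c ∈ CH R B) :
    deg R X k c ∈ CH R B := flt_mem_supported _ h

theorem deg_eq_zero {k l : ℕ} (hkl : k ≠ l) {c : Tot R X} (h : c ∈ DG R X l) :
    deg R X k c = 0 := eq_zero_of_mem_DG hkl (deg_mem k c) (flt_mem_supported _ h)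

theorem deg_inc (k l : ℕ) (c : Sing X l →₀ R) :
    deg R X k (inc R l c) = if l = k then inc R l c else 0 := by
  split_ifs with h
  · subst h; exact deg_of_mem (inc_mem_DG _ _)
  · exact deg_eq_zero (Ne.symm h) (inc_mem_DG _ _)

theorem deg_dT (k : ℕ) (c : Tot R X) : deg R X k (dT R X c) = dT R X (deg R X (k + 1) c) := by
  induction c using Tot.ind with
  | h0 => simp
  | hadd a b ha hb => simp [ha, hb]
  | h1 l σ a =>
    rcases l with _ | l
    · rw [dT_inc_zero, deg_inc, if_neg (by omega), map_zero, map_zero]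
    · rw [dT_inc_succ, deg_inc, deg_inc]
      by_cases h : l = k
      · rw [if_pos h, if_pos (by omega), dT_inc_succ]
      · rw [if_neg h, if_neg (by omega), map_zero]

/-- A chain is the sum of its homogeneous parts. -/
theorem exists_sum_deg (c : Tot R X) :
    ∃ n, ∀ m ≥ n, ∑ k ∈ Finset.range m, deg R X k c = c := by
  refine ⟨c.support.sup (fun σ => σ.1) + 1, fun m hm => ?_⟩
  ext σ
  rw [Finsupp.finset_sum_apply]
  simp only [deg, flt_apply]
  by_cases h : σ.1 ∈ Finset.range m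
  · exact (Finset.sum_eq_single_of_mem _ h fun b _ hb => if_neg (Ne.symm hb)).trans (if_pos rfl)
  · refine (Finset.sum_eq_zero fun b hb => if_neg fun e : σ.1 = b => h (e ▸ hb)).trans ?_
    by_contra h'
    have := Finset.le_sup (f := fun σ : TS X => σ.1) (mem_support_iff.2 (Ne.symm h'))
    exact h (Finset.mem_range.2 (by omega))

theorem psh_single (f : X → Y) (σ : TS X) (h : Continuous (f ∘ σ.2)) (a : R) :
    psh R f (single σ a) = single ⟨σ.1, ⟨f ∘ σ.2, h⟩⟩ a := by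
  rw [psh, lsum_single, dif_pos h]; rfl

theorem psh_single_not (f : X → Y) (σ : TS X) (h : ¬ Continuous (f ∘ σ.2)) (a : R) :
    psh R f (single σ a) = 0 := by
  rw [psh, lsum_single, dif_neg h]; rfl

theorem psh_inc (f : C(X, Y)) (k : ℕ) (c : Sing X k →₀ R) :
    psh R f (inc R k c) = inc R k (push R f k c) := by
  induction c using Finsupp.induction_linear with
  | zero => simp
  | add a b ha hb => simp [ha, hb]
  | single σ a =>
    rw [inc_single, push_single, inc_single, psh_single _ _ (f.continuous.comp σ.continuous)]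
    rfl

theorem psh_mem_CH (f : X → Y) {A : Set X} {B : Set Y} (hf : MapsTo f A B) {c : Tot R X}
    (h : c ∈ CH R A) : psh R f c ∈ CH R B := by
  refine map_CH _ (fun k σ hσ => ?_) h
  by_cases hc : Continuous (f ∘ σ)
  · rw [psh_single f ⟨k, σ⟩ hc]; exact single_mem_CH _ fun t => hf (hσ t)
  · rw [psh_single_not f ⟨k, σ⟩ hc]; exact zero_mem _

theorem psh_mem_DG (f : X → Y) {k : ℕ} {c : Tot R X} (h : c ∈ DG R X k) :
    psh R f c ∈ DG R Y k := by
  refine map_supported _ ?_ h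
  rintro σ rfl
  by_cases hc : Continuous (f ∘ σ.2)
  · rw [psh_single f σ hc]; exact single_mem_DG ⟨σ.1, _⟩ _
  · rw [psh_single_not f σ hc]; exact zero_mem _

theorem psh_congr {f g : X → Y} {A : Set X} (hfg : EqOn f g A) {c : Tot R X} (h : c ∈ CH R A) :
    psh R f c = psh R g c := by
  refine supported_ind (P := fun c => psh R f c = psh R g c) (by simp)
    (fun a b ha hb => by simp [ha, hb]) (fun σ hσ a => ?_) h
  have : f ∘ σ.2 = g ∘ σ.2 := funext fun t => hfg (hσ ⟨t, rfl⟩)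
  simp only [psh, lsum_single, this]

theorem psh_psh (g : Y → Z) {f : X → Y} {A : Set X} (hf : ContinuousOn f A) {c : Tot R X}
    (h : c ∈ CH R A) : psh R g (psh R f c) = psh R (g ∘ f) c := by
  refine supported_ind (P := fun c => psh R g (psh R f c) = psh R (g ∘ f) c) (by simp)
    (fun a b ha hb => by simp [ha, hb]) (fun σ hσ a => ?_) h
  have h1 : Continuous (f ∘ σ.2) := hf.comp_continuous σ.2.continuous fun t => hσ ⟨t, rfl⟩
  rw [psh_single f σ h1]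
  by_cases hc : Continuous ((g ∘ f) ∘ σ.2)
  · rw [psh_single _ σ hc]; exact psh_single g ⟨σ.1, ⟨f ∘ σ.2, h1⟩⟩ hc a
  · rw [psh_single_not _ σ hc]; exact psh_single_not g ⟨σ.1, ⟨f ∘ σ.2, h1⟩⟩ hc a

theorem psh_psh' (g : Y → Z) {f : X → Y} (hf : Continuous f) (c : Tot R X) :
    psh R g (psh R f c) = psh R (g ∘ f) c := psh_psh g hf.continuousOn (mem_CH_univ c)

theorem psh_id (c : Tot R X) : psh R id c = c := by
  induction c using Finsupp.induction_linear with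
  | zero => simp
  | add a b ha hb => simp [ha, hb]
  | single σ a => exact psh_single id σ σ.2.continuous a

theorem psh_of_eqOn_id {f : X → X} {A : Set X} (hf : ∀ x ∈ A, f x = x) {c : Tot R X}
    (h : c ∈ CH R A) : psh R f c = c := (psh_congr (g := id) hf h).trans (psh_id c)

/-- An operator that is natural for continuous maps is natural for maps that are continuous on
the support. -/
theorem nat_psh (F : ∀ (X : Type) [TopologicalSpace X], Module.End R (Tot R X))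
    (hF : ∀ (X Y : Type) [TopologicalSpace X] [TopologicalSpace Y] (f : C(X, Y)) (c : Tot R X),
      F Y (psh R f c) = psh R f (F X c))
    {f : X → Y} {A : Set X} (hf : ContinuousOn f A) {c : Tot R X} (h : c ∈ CH R A) :
    F Y (psh R f c) = psh R f (F X c) := by
  refine supported_ind (P := fun c => F Y (psh R f c) = psh R f (F X c)) (by simp)
    (fun a b ha hb => by simp [ha, hb]) (fun σ hσ a => ?_) h
  have h1 : Continuous (f ∘ σ.2) := hf.comp_continuous σ.2.continuous fun t => hσ ⟨t, rfl⟩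
  have e : (single σ a : Tot R X) =
      psh R σ.2 (single ⟨σ.1, ContinuousMap.id _⟩ a : Tot R (Sx σ.1)) := by
    exact (psh_single σ.2 ⟨σ.1, ContinuousMap.id _⟩ σ.2.continuous a).symm
  rw [e, psh_psh' _ σ.2.continuous, hF _ _ σ.2, psh_psh' _ σ.2.continuous]
  exact hF _ _ ⟨f ∘ σ.2, h1⟩ _

theorem dT_psh' (f : C(X, Y)) (c : Tot R X) : dT R Y (psh R f c) = psh R f (dT R X c) := by
  induction c using Tot.ind with
  | h0 => simp
  | hadd a b ha hb => simp [ha, hb]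
  | h1 k σ a =>
    rcases k with _ | k
    · rw [psh_inc, dT_inc_zero, dT_inc_zero, map_zero]
    · rw [psh_inc, dT_inc_succ, dT_inc_succ, psh_inc, bd_push]

theorem dT_psh {f : X → Y} {A : Set X} (hf : ContinuousOn f A) {c : Tot R X} (h : c ∈ CH R A) :
    dT R Y (psh R f c) = psh R f (dT R X c) :=
  nat_psh (fun X _ => dT R X) (fun _ _ _ _ => dT_psh') hf h

theorem dT_psh_cont {f : X → Y} (hf : Continuous f) (c : Tot R X) :
    dT R Y (psh R f c) = psh R f (dT R X c) := dT_psh' ⟨f, hf⟩ c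

theorem sdT_psh {f : X → Y} {A : Set X} (hf : ContinuousOn f A) {c : Tot R X} (h : c ∈ CH R A) :
    sdT R Y (psh R f c) = psh R f (sdT R X c) := by
  refine nat_psh (fun X _ => sdT R X) (fun X Y _ _ f c => ?_) hf h
  induction c using Tot.ind with
  | h0 => simp
  | hadd a b ha hb => simp [ha, hb]
  | h1 k σ a => rw [psh_inc, sdT_inc, sdT_inc, psh_inc, push_sdR]

theorem sdH_psh {f : X → Y} {A : Set X} (hf : ContinuousOn f A) {c : Tot R X} (h : c ∈ CH R A) :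
    sdH R Y (psh R f c) = psh R f (sdH R X c) := by
  refine nat_psh (fun X _ => sdH R X) (fun X Y _ _ f c => ?_) hf h
  induction c using Tot.ind with
  | h0 => simp
  | hadd a b ha hb => simp [ha, hb]
  | h1 k σ a => rw [psh_inc, sdH_inc, sdH_inc, psh_inc, push_sdHR]

theorem deg_psh (f : X → Y) (k : ℕ) (c : Tot R X) :
    deg R Y k (psh R f c) = psh R f (deg R X k c) := by
  induction c using Tot.ind with
  | h0 => simp
  | hadd a b ha hb => simp [ha, hb]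
  | h1 l σ a =>
    rw [deg_inc]
    split_ifs with h
    · subst h; exact deg_of_mem (psh_mem_DG f (inc_mem_DG _ _))
    · rw [map_zero]; exact deg_eq_zero (Ne.symm h) (psh_mem_DG f (inc_mem_DG _ _))

theorem psh_pt (f : X → Y) (x : X) : psh R f (pt R x) = pt R (f x) :=
  psh_single f ⟨0, ContinuousMap.const _ x⟩ (continuous_const (y := f x)) 1

theorem pt_mem_CH {A : Set X} {x : X} (h : x ∈ A) : pt R x ∈ CH R A :=
  single_mem_CH _ fun _ => h

theorem pt_mem_DG (x : X) : pt R x ∈ DG R X 0 := single_mem_DG ⟨0, _⟩ _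

theorem dT_pt (x : X) : dT R X (pt R x) = 0 := dT_of_DG_zero (pt_mem_DG x)

theorem pth_mem_CH {A : Set X} {γ : C(unitInterval, X)} (h : ∀ t, γ t ∈ A) : pth R γ ∈ CH R A :=
  single_mem_CH _ fun _ => h _

theorem pth_mem_DG (γ : C(unitInterval, X)) : pth R γ ∈ DG R X 1 := single_mem_DG ⟨1, _⟩ _

theorem psh_pth (f : X → Y) (γ : C(unitInterval, X)) (h : Continuous (f ∘ γ)) :
    psh R f (pth R γ) = pth R ⟨f ∘ γ, h⟩ :=
  psh_single f ⟨1, γ.comp (stdSimplexHomeomorphUnitInterval : C(Sx 1, unitInterval))⟩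
    (h.comp stdSimplexHomeomorphUnitInterval.continuous) 1

theorem dT_pth (γ : C(unitInterval, X)) : dT R X (pth R γ) = pt R (γ 1) - pt R (γ 0) := by
  rw [pth, ← inc_single, dT_inc_succ, bd_single, Fin.sum_univ_two, map_add, map_zsmul, map_zsmul,
    inc_single, inc_single, pt, pt]
  have h (i : Fin 2) (y : Sx 0) : (coface i y : Sx 1) (i.succAbove 0) = 1 :=
    (coface_succAbove i y 0).trans (stdSimplex.eq_one_of_unique (X := Fin 1) y 0)
  have h0 : face 0 (γ.comp (stdSimplexHomeomorphUnitInterval : C(Sx 1, unitInterval))) =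
      ContinuousMap.const _ (γ 1) := by
    ext y
    exact congrArg γ (Subtype.ext (h 0 y))
  have h1 : face 1 (γ.comp (stdSimplexHomeomorphUnitInterval : C(Sx 1, unitInterval))) =
      ContinuousMap.const _ (γ 0) := by
    ext y
    exact congrArg γ (Subtype.ext (coface_same (1 : Fin 2) y))
  rw [h0, h1]
  simp [sub_eq_add_neg]

theorem val0_pt {M : Type} [AddCommGroup M] [Module R M] (f : X → M) (x : X) :
    val0 R f (pt R x) = f x := by
  simp [val0, pt]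

theorem val0_of_DG {M : Type} [AddCommGroup M] [Module R M] (f : X → M) {k : ℕ} (hk : k ≠ 0)
    {c : Tot R X} (h : c ∈ DG R X k) : val0 R f c = 0 := by
  refine supported_ind (P := fun c => val0 R f c = 0) (by simp)
    (fun a b ha hb => by simp [ha, hb]) ?_ h
  rintro σ rfl a
  simp [val0, hk]

/-- Chains of degree zero in `A` are combinations of points of `A`. -/
theorem DG_zero_ind {A : Set X} {P : Tot R X → Prop} (h0 : P 0)
    (hadd : ∀ a b, P a → P b → P (a + b)) (h1 : ∀ x ∈ A, ∀ a : R, P (a • pt R x))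
    {c : Tot R X} (hc : c ∈ CH R A) (hd : c ∈ DG R X 0) : P c := by
  have : c ∈ supported R R ({σ : TS X | range σ.2 ⊆ A} ∩ {σ | σ.1 = 0}) := by
    rw [supported_inter]; exact ⟨hc, hd⟩
  refine supported_ind h0 hadd ?_ this
  rintro ⟨k, σ⟩ ⟨hσ, rfl : k = 0⟩ a
  have e : σ = ContinuousMap.const _ (σ stdSimplex.barycenter) := by
    ext y; exact congrArg σ (Subsingleton.elim _ _)
  have := h1 (σ stdSimplex.barycenter) (hσ ⟨_, rfl⟩) a
  rwa [pt, smul_single, smul_eq_mul, mul_one, ← e] at this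

theorem sgn_single (e : ℕ → ℤ) (σ : TS X) (a : R) :
    sgn R X e (single σ a) = e σ.1 • single σ a := by
  rw [sgn, lsum_single]; rfl

theorem sgn_of_DG (e : ℕ → ℤ) {k : ℕ} {c : Tot R X} (h : c ∈ DG R X k) :
    sgn R X e c = e k • c := by
  refine supported_ind (P := fun c => sgn R X e c = e k • c) (by simp)
    (fun a b ha hb => by simp [ha, hb]) ?_ h
  rintro σ rfl a
  exact sgn_single e σ a

theorem sgn_mem_CH (e : ℕ → ℤ) {A : Set X} {c : Tot R X} (h : c ∈ CH R A) :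
    sgn R X e c ∈ CH R A :=
  map_CH _ (fun k σ hσ => by rw [sgn_single]; exact zsmul_mem (single_mem_CH _ hσ) _) h

theorem dT_sdT (c : Tot R X) : dT R X (sdT R X c) = sdT R X (dT R X c) := by
  induction c using Tot.ind with
  | h0 => simp
  | hadd a b ha hb => simp [ha, hb]
  | h1 k σ a =>
    rcases k with _ | k
    · rw [sdT_inc, dT_inc_zero, dT_inc_zero, map_zero]
    · rw [sdT_inc, dT_inc_succ, dT_inc_succ, sdT_inc, bd_sdR]

theorem dT_sdH (c : Tot R X) : dT R X (sdH R X c) + sdH R X (dT R X c) = c - sdT R X c := by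
  induction c using Tot.ind with
  | h0 => simp
  | hadd a b ha hb => simp only [map_add]; rw [add_add_add_comm, ha, hb]; abel
  | h1 k σ a =>
    rcases k with _ | k
    · rw [sdH_inc, sdHR_zero, dT_inc_zero, sdT_inc, sdR_zero]; simp
    · rw [sdH_inc, dT_inc_succ, dT_inc_succ, sdH_inc, sdT_inc, bd_sdHR, map_sub, map_sub]; abel

theorem sdT_mem_CH {A : Set X} {c : Tot R X} (h : c ∈ CH R A) : sdT R X c ∈ CH R A :=
  map_CH _ (fun k σ hσ => by
    rw [← inc_single, sdT_inc, inc_mem_CH]; exact sdR_mem_supp (single_mem_supp _ hσ)) h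

theorem sdH_mem_CH {A : Set X} {c : Tot R X} (h : c ∈ CH R A) : sdH R X c ∈ CH R A :=
  map_CH _ (fun k σ hσ => by
    rw [← inc_single, sdH_inc, inc_mem_CH]; exact sdHR_mem_supp (single_mem_supp _ hσ)) h

theorem sdT_mem_DG {k : ℕ} {c : Tot R X} (h : c ∈ DG R X k) : sdT R X c ∈ DG R X k := by
  obtain ⟨b, rfl⟩ := exists_inc h
  rw [sdT_inc]; exact inc_mem_DG _ _

theorem sdH_mem_DG {k : ℕ} {c : Tot R X} (h : c ∈ DG R X k) : sdH R X c ∈ DG R X (k + 1) := by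
  obtain ⟨b, rfl⟩ := exists_inc h
  rw [sdH_inc]; exact inc_mem_DG _ _

theorem pow_mem {M : Type} [AddCommGroup M] [Module R M] {f : Module.End R M}
    {S : Submodule R M} (hf : ∀ c ∈ S, f c ∈ S) (m : ℕ) {c : M} (h : c ∈ S) : (f ^ m) c ∈ S := by
  induction m with
  | zero => exact h
  | succ m ih => rw [pow_succ', Module.End.mul_apply]; exact hf _ ih

theorem sdT_pow_mem_CH {A : Set X} (m : ℕ) {c : Tot R X} (h : c ∈ CH R A) :
    (sdT R X ^ m) c ∈ CH R A := pow_mem (fun _ => sdT_mem_CH) m h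

theorem sdT_pow_mem_DG {k : ℕ} (m : ℕ) {c : Tot R X} (h : c ∈ DG R X k) :
    (sdT R X ^ m) c ∈ DG R X k := pow_mem (fun _ => sdT_mem_DG) m h

theorem sdHP_mem_CH {A : Set X} (m : ℕ) {c : Tot R X} (h : c ∈ CH R A) :
    sdHP R X m c ∈ CH R A := by
  rw [sdHP, LinearMap.sum_apply]
  exact sum_mem fun j _ => sdH_mem_CH (sdT_pow_mem_CH j h)

theorem sdHP_mem_DG {k : ℕ} (m : ℕ) {c : Tot R X} (h : c ∈ DG R X k) :
    sdHP R X m c ∈ DG R X (k + 1) := by
  rw [sdHP, LinearMap.sum_apply]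
  exact sum_mem fun j _ => sdH_mem_DG (sdT_pow_mem_DG j h)

theorem dT_sdT_pow (m : ℕ) (c : Tot R X) :
    dT R X ((sdT R X ^ m) c) = (sdT R X ^ m) (dT R X c) := by
  induction m with
  | zero => rfl
  | succ m ih => rw [pow_succ', Module.End.mul_apply, Module.End.mul_apply, dT_sdT, ih]

theorem dT_sdHP (m : ℕ) (c : Tot R X) :
    dT R X (sdHP R X m c) + sdHP R X m (dT R X c) = c - (sdT R X ^ m) c := by
  induction m with
  | zero => simp [sdHP]
  | succ m ih =>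
    simp only [sdHP, Finset.sum_range_succ, LinearMap.add_apply, map_add, Module.End.mul_apply]
      at ih ⊢
    rw [add_add_add_comm, ih, ← dT_sdT_pow, dT_sdH, pow_succ', Module.End.mul_apply]
    abel

theorem sdT_pow_inc (m k : ℕ) (c : Sing X k →₀ R) :
    (sdT R X ^ m) (inc R k c) = inc R k ((sdR R X k ^ m) c) := by
  induction m with
  | zero => rfl
  | succ m ih => rw [pow_succ', pow_succ', Module.End.mul_apply, Module.End.mul_apply, ih, sdT_inc]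

/-- Small chains for any family of open sets. -/
theorem sdT_small {ι : Type} {U : ι → Set X} (hU : ∀ i, IsOpen (U i)) {c : Tot R X}
    (h : c ∈ CH R (⋃ i, U i)) : ∃ m : ℕ, ∀ m' ≥ m, (sdT R X ^ m') c ∈ ⨆ i, CH R (U i) := by
  refine CH_ind (P := fun c => ∃ m : ℕ, ∀ m' ≥ m, (sdT R X ^ m') c ∈ ⨆ i, CH R (U i))
    ⟨0, fun _ _ => by simp⟩ ?_ (fun k σ a hσ => ?_) h
  · rintro a b ⟨m, hm⟩ ⟨n, hn⟩
    refine ⟨max m n, fun m' h' => ?_⟩
    rw [map_add]
    exact add_mem (hm _ (le_of_max_le_left h')) (hn _ (le_of_max_le_right h'))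
  obtain ⟨m, hm⟩ := sdR_small hU (single_mem_supp a hσ)
  refine ⟨m, fun m' h' => ?_⟩
  rw [sdT_pow_inc]
  have : (⨆ i, supp R (U i) k) ≤ (⨆ i, CH R (U i)).comap (inc R k) :=
    iSup_le fun i c hc => Submodule.mem_iSup_of_mem i (inc_mem_CH.2 hc)
  exact this (hm m' h')

theorem sdT_small_two {U V : Set X} (hU : IsOpen U) (hV : IsOpen V) {c : Tot R X}
    (h : c ∈ CH R (U ∪ V)) : ∃ m : ℕ, ∀ m' ≥ m, (sdT R X ^ m') c ∈ CH R U ⊔ CH R V := by
  obtain ⟨m, hm⟩ := sdT_small (U := fun b : Bool => cond b U V)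
    (by rintro (_ | _) <;> assumption) (by rwa [← Set.union_eq_iUnion])
  refine ⟨m, fun m' h' => ?_⟩
  have := hm m' h'
  rwa [iSup_bool_eq] at this

/-- Chains in a disjoint union of open sets split. -/
theorem CH_union_of_disjoint {U V : Set X} (hU : IsOpen U) (hV : IsOpen V) (hd : Disjoint U V) :
    CH R (U ∪ V) = CH R U ⊔ CH R V := by
  refine le_antisymm (fun c hc => ?_)
    (sup_le (CH_mono subset_union_left) (CH_mono subset_union_right))
  refine map_CH (T := CH R U ⊔ CH R V) LinearMap.id (fun k σ hσ => ?_) hc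
  rcases (isPreconnected_range σ.continuous).subset_or_subset hU hV hd
    (by rintro _ ⟨t, rfl⟩; exact hσ t) with h | h
  · exact Submodule.mem_sup_left (single_mem_CH _ fun t => h ⟨t, rfl⟩)
  · exact Submodule.mem_sup_right (single_mem_CH _ fun t => h ⟨t, rfl⟩)

variable {S : Type} [CommRing S] (φ : R →+* S)

theorem cast_apply (c : Tot R X) (σ : TS X) : cast φ X c σ = φ (c σ) := rfl

theorem cast_single (σ : TS X) (a : R) : cast φ X (single σ a) = single σ (φ a) :=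
  mapRange_single (hf := φ.map_zero)

theorem cast_mem_supported {T : Set (TS X)} {c : Tot R X} (h : c ∈ supported R R T) :
    cast φ X c ∈ supported S S T :=
  (mem_supported' S _).2 fun σ hσ => by rw [cast_apply, (mem_supported' R _).1 h σ hσ, map_zero]

theorem cast_mem_CH {A : Set X} {c : Tot R X} (h : c ∈ CH R A) : cast φ X c ∈ CH S A :=
  cast_mem_supported φ h

theorem cast_mem_DG {k : ℕ} {c : Tot R X} (h : c ∈ DG R X k) : cast φ X c ∈ DG S X k :=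
  cast_mem_supported φ h

theorem cast_psh (f : X → Y) (c : Tot R X) : cast φ Y (psh R f c) = psh S f (cast φ X c) := by
  induction c using Finsupp.induction_linear with
  | zero => simp
  | add a b ha hb => simp [ha, hb]
  | single σ a =>
    rw [cast_single]
    by_cases h : Continuous (f ∘ σ.2)
    · rw [psh_single f σ h, psh_single f σ h, cast_single]
    · rw [psh_single_not f σ h, psh_single_not f σ h, map_zero]

theorem cast_dT (c : Tot R X) : cast φ X (dT R X c) = dT S X (cast φ X c) := by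
  induction c using Finsupp.induction_linear with
  | zero => simp
  | add a b ha hb => simp [ha, hb]
  | single σ a =>
    obtain ⟨k, σ⟩ := σ
    rw [cast_single, ← inc_single, ← inc_single]
    rcases k with _ | k
    · rw [dT_inc_zero, dT_inc_zero, map_zero]
    · rw [dT_inc_succ, dT_inc_succ, bd_single, bd_single, map_sum, map_sum, map_sum]
      refine Finset.sum_congr rfl fun i _ => ?_
      rw [map_zsmul, map_zsmul, map_zsmul, inc_single, inc_single, cast_single]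

theorem cast_pt (x : X) : cast φ X (pt R x) = pt S x := by rw [pt, cast_single, map_one, pt]

theorem cast_pth (γ : C(unitInterval, X)) : cast φ X (pth R γ) = pth S γ := by
  rw [pth, cast_single, map_one, pth]

end Api

end

end Pool.Agent.MP_bc14e1_gt

end

section

/-! Cross products, homotopy operators, group actions on chains, Laurent polynomials. -/

open Set Metric
open scoped Classical

namespace Pool.Agent.MP_bc14e1_gt

noncomputable section

/-- A cross product of singular chains with its properties. -/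
structure Kit where
  cx : ∀ (R : Type) [CommRing R] (X Y : Type) [TopologicalSpace X] [TopologicalSpace Y],
    Tot R X →ₗ[R] Tot R Y →ₗ[R] Tot R (X × Y)
  sw : ∀ (R : Type) [CommRing R] (X Y : Type) [TopologicalSpace X] [TopologicalSpace Y],
    Tot R X →ₗ[R] Tot R Y →ₗ[R] Tot R (Y × X)
  leib : ∀ (R : Type) [CommRing R] (X Y : Type) [TopologicalSpace X] [TopologicalSpace Y]
    (u : Tot R X) (v : Tot R Y),
    dT R _ (cx R X Y u v) = cx R X Y (dT R X u) v + cx R X Y (eps R X u) (dT R Y v)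
  nat : ∀ (R : Type) [CommRing R] (X Y X' Y' : Type) [TopologicalSpace X] [TopologicalSpace Y]
    [TopologicalSpace X'] [TopologicalSpace Y'] (f : X → X') (g : Y → Y') (A : Set X) (B : Set Y),
    ContinuousOn f A → ContinuousOn g B → ∀ u ∈ CH R A, ∀ v ∈ CH R B,
    psh R (Prod.map f g) (cx R X Y u v) = cx R X' Y' (psh R f u) (psh R g v)
  mem : ∀ (R : Type) [CommRing R] (X Y : Type) [TopologicalSpace X] [TopologicalSpace Y]
    (A : Set X) (B : Set Y), ∀ u ∈ CH R A, ∀ v ∈ CH R B, cx R X Y u v ∈ CH R (A ×ˢ B)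
  dg : ∀ (R : Type) [CommRing R] (X Y : Type) [TopologicalSpace X] [TopologicalSpace Y]
    (p q : ℕ), ∀ u ∈ DG R X p, ∀ v ∈ DG R Y q, cx R X Y u v ∈ DG R (X × Y) (p + q)
  x_pt : ∀ (R : Type) [CommRing R] (X Y : Type) [TopologicalSpace X] [TopologicalSpace Y]
    (u : Tot R X) (y : Y), cx R X Y u (pt R y) = psh R (fun x => (x, y)) u
  pt_x : ∀ (R : Type) [CommRing R] (X Y : Type) [TopologicalSpace X] [TopologicalSpace Y]
    (x : X) (v : Tot R Y), cx R X Y (pt R x) v = psh R (fun y => (x, y)) v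
  cst : ∀ (R S : Type) [CommRing R] [CommRing S] (φ : R →+* S) (X Y : Type) [TopologicalSpace X]
    [TopologicalSpace Y] (u : Tot R X) (v : Tot R Y),
    cast φ _ (cx R X Y u v) = cx S X Y (cast φ X u) (cast φ Y v)
  c22 : ∀ (X Y : Type) [TopologicalSpace X] [TopologicalSpace Y] (x : Sing X 2 →₀ ℤ)
    (y : Sing Y 2 →₀ ℤ), cx ℤ X Y (inc ℤ 2 x) (inc ℤ 2 y) = inc ℤ 4 (cross22 x y)
  sw_d : ∀ (R : Type) [CommRing R] (X Y : Type) [TopologicalSpace X] [TopologicalSpace Y]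
    (p q : ℕ), ∀ u ∈ DG R X p, ∀ v ∈ DG R Y q,
    psh R Prod.swap (cx R X Y u v) - (-1 : ℤ) ^ (p * q) • cx R Y X v u =
      dT R _ (sw R X Y u v) + sw R X Y (dT R X u) v + sw R X Y (eps R X u) (dT R Y v)
  sw_nat : ∀ (R : Type) [CommRing R] (X Y X' Y' : Type) [TopologicalSpace X] [TopologicalSpace Y]
    [TopologicalSpace X'] [TopologicalSpace Y'] (f : X → X') (g : Y → Y'),
    Continuous f → Continuous g → ∀ u v,
    psh R (Prod.map g f) (sw R X Y u v) = sw R X' Y' (psh R f u) (psh R g v)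
  sw_mem : ∀ (R : Type) [CommRing R] (X Y : Type) [TopologicalSpace X] [TopologicalSpace Y]
    (A : Set X) (B : Set Y), ∀ u ∈ CH R A, ∀ v ∈ CH R B, sw R X Y u v ∈ CH R (B ×ˢ A)
  sw_dg : ∀ (R : Type) [CommRing R] (X Y : Type) [TopologicalSpace X] [TopologicalSpace Y]
    (p q : ℕ), ∀ u ∈ DG R X p, ∀ v ∈ DG R Y q, sw R X Y u v ∈ DG R (Y × X) (p + q + 1)

section Hop

variable (κ : Kit) (R : Type) [CommRing R] {X Y Z : Type} [TopologicalSpace X]
  [TopologicalSpace Y] [TopologicalSpace Z]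

/-- The unit interval as a chain in the line. -/
def ivl : Tot R ℝ := pth R ⟨Subtype.val, continuous_subtype_val⟩

/-- The chain homotopy of a homotopy. -/
def hop (H : ℝ × X → Y) : Tot R X →ₗ[R] Tot R Y := psh R H ∘ₗ κ.cx R ℝ X (ivl R)

variable {R}

theorem ivl_mem_CH : ivl R ∈ CH R (Icc (0 : ℝ) 1) := pth_mem_CH fun t => t.2

theorem hop_mem_CH (H : ℝ × X → Y) {A : Set X} {B : Set Y} (hH : MapsTo H (Icc 0 1 ×ˢ A) B)
    {c : Tot R X} (h : c ∈ CH R A) : hop κ R H c ∈ CH R B :=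
  psh_mem_CH H hH (κ.mem R ℝ X _ _ _ ivl_mem_CH _ h)

theorem hop_mem_DG (H : ℝ × X → Y) {k : ℕ} {c : Tot R X} (h : c ∈ DG R X k) :
    hop κ R H c ∈ DG R Y (k + 1) :=
  psh_mem_DG H (add_comm 1 k ▸ κ.dg R ℝ X 1 k _ (pth_mem_DG _) _ h)

theorem dT_hop {H : ℝ × X → Y} {A : Set X} (hH : ContinuousOn H (Icc 0 1 ×ˢ A)) {c : Tot R X}
    (h : c ∈ CH R A) : dT R Y (hop κ R H c) + hop κ R H (dT R X c) =
      psh R (fun x => H (1, x)) c - psh R (fun x => H (0, x)) c := by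
  have e : eps R ℝ (ivl R) = -ivl R := by
    rw [eps, ivl, sgn_of_DG _ (pth_mem_DG _)]; simp
  have d : dT R ℝ (ivl R) = pt R 1 - pt R 0 := dT_pth _
  simp only [hop, LinearMap.comp_apply]
  rw [dT_psh hH (κ.mem R ℝ X _ _ _ ivl_mem_CH _ h), κ.leib, e, d, map_neg, LinearMap.neg_apply,
    map_add, map_neg, neg_add_cancel_right, map_sub, LinearMap.sub_apply, κ.pt_x, κ.pt_x, map_sub,
    psh_psh' _ (by fun_prop), psh_psh' _ (by fun_prop)]
  rfl

theorem psh_hop (f : Y → Z) {H : ℝ × X → Y} {A : Set X} (hH : ContinuousOn H (Icc 0 1 ×ˢ A))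
    {c : Tot R X} (h : c ∈ CH R A) : psh R f (hop κ R H c) = hop κ R (f ∘ H) c :=
  psh_psh f hH (κ.mem R ℝ X _ _ _ ivl_mem_CH _ h)

theorem hop_psh (H : ℝ × Y → Z) {f : X → Y} {A : Set X} (hf : ContinuousOn f A) {c : Tot R X}
    (h : c ∈ CH R A) : hop κ R H (psh R f c) = hop κ R (H ∘ Prod.map id f) c := by
  simp only [hop, LinearMap.comp_apply]
  have := κ.nat R ℝ X ℝ Y id f _ A continuousOn_id hf _ ivl_mem_CH _ h
  rw [psh_id] at this
  rw [← this, psh_psh H (continuousOn_id.prodMap hf) (κ.mem R ℝ X _ _ _ ivl_mem_CH _ h)]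

theorem hop_congr {H H' : ℝ × X → Y} {A : Set X} (hH : EqOn H H' (Icc 0 1 ×ˢ A)) {c : Tot R X}
    (h : c ∈ CH R A) : hop κ R H c = hop κ R H' c :=
  psh_congr hH (κ.mem R ℝ X _ _ _ ivl_mem_CH _ h)

theorem cast_hop {S : Type} [CommRing S] (φ : R →+* S) (H : ℝ × X → Y) (c : Tot R X) :
    cast φ Y (hop κ R H c) = hop κ S H (cast φ X c) := by
  simp only [hop, LinearMap.comp_apply]
  rw [cast_psh, κ.cst, ivl, cast_pth, ivl]

end Hop

/-- Laurent polynomials. -/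
abbrev Lam (R : Type) [CommRing R] : Type := LaurentPolynomial R

section Act

variable (R : Type) [CommRing R] {G : Type} [Group G] (Y : Type) [TopologicalSpace Y]
  [MulAction G Y] [ContinuousConstSMul G Y]

/-- The action of a group element on chains. -/
def gs (g : G) : Module.End R (Tot R Y) := psh R fun y : Y => g • y

/-- The action of the group on chains. -/
def gsH : G →* Module.End R (Tot R Y) where
  toFun := gs R Y
  map_one' := LinearMap.ext fun c => psh_of_eqOn_id (fun y _ => one_smul G y) (mem_CH_univ c)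
  map_mul' g h := LinearMap.ext fun c => by
    rw [Module.End.mul_apply, gs, gs, gs, psh_psh' _ (continuous_const_smul h)]
    exact psh_congr (fun y _ => mul_smul g h y) (mem_CH_univ c)

/-- The action of Laurent polynomials in `s` on chains. -/
def act (s : G) : Lam R →ₐ[R] Module.End R (Tot R Y) :=
  AddMonoidAlgebra.lift R _ ℤ ((gsH R Y).comp (zpowersHom G s))

/-- The chain complex as a module over the Laurent polynomials in `s`. -/
def Tw (_s : G) : Type := Tot R Y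

instance (s : G) : AddCommGroup (Tw R Y s) := inferInstanceAs (AddCommGroup (Tot R Y))

instance (s : G) : Module R (Tw R Y s) := inferInstanceAs (Module R (Tot R Y))

instance (s : G) : Module (Lam R) (Tw R Y s) := Module.compHom (Tot R Y) (act R Y s).toRingHom

/-- The identification of `Tw` with `Tot`. -/
def toTw (s : G) : Tot R Y ≃ₗ[R] Tw R Y s := LinearEquiv.refl R (Tot R Y)

variable {R Y}

theorem Tw.smul_def (s : G) (a : Lam R) (c : Tot R Y) :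
    a • toTw R Y s c = toTw R Y s (act R Y s a c) := rfl

instance (s : G) : IsScalarTower R (Lam R) (Tw R Y s) :=
  ⟨fun r a c => by
    change act R Y s (r • a) c = r • act R Y s a c
    rw [map_smul]; rfl⟩

theorem gs_mul (g h : G) (c : Tot R Y) : gs R Y (g * h) c = gs R Y g (gs R Y h c) := by
  change gsH R Y (g * h) c = _
  rw [map_mul]; rfl

theorem gs_one (c : Tot R Y) : gs R Y (1 : G) c = c := by
  change gsH R Y 1 c = _
  rw [map_one]; rfl

theorem act_T (s : G) (n : ℤ) : act R Y s (LaurentPolynomial.T n) = gs R Y (s ^ n) := by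
  rw [act, LaurentPolynomial.T, AddMonoidAlgebra.lift_single, one_smul]; rfl

theorem act_C (s : G) (a : R) (c : Tot R Y) : act R Y s (LaurentPolynomial.C a) c = a • c := by
  rw [LaurentPolynomial.C_eq_algebraMap, AlgHom.commutes]; rfl

theorem dT_gs (g : G) (c : Tot R Y) : dT R Y (gs R Y g c) = gs R Y g (dT R Y c) :=
  dT_psh_cont (continuous_const_smul g) c

omit [ContinuousConstSMul G Y] in
theorem gs_mem_DG (g : G) {k : ℕ} {c : Tot R Y} (h : c ∈ DG R Y k) : gs R Y g c ∈ DG R Y k :=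
  psh_mem_DG _ h

omit [ContinuousConstSMul G Y] in
theorem gs_mem_CH (g : G) {A B : Set Y} (hg : ∀ y ∈ A, g • y ∈ B) {c : Tot R Y}
    (h : c ∈ CH R A) : gs R Y g c ∈ CH R B := psh_mem_CH _ hg h

/-- A linear map that intertwines the actions of `s` and `s'` is linear over the Laurent
polynomials. -/
theorem map_act {G' Y' : Type} [Group G'] [TopologicalSpace Y'] [MulAction G' Y']
    [ContinuousConstSMul G' Y'] {s : G} {s' : G'} (f : Tot R Y →ₗ[R] Tot R Y')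
    (hf : ∀ c, f (gs R Y s c) = gs R Y' s' (f c)) (a : Lam R) (c : Tot R Y) :
    f (act R Y s a c) = act R Y' s' a (f c) := by
  have hn : ∀ (n : ℕ) c, f (gs R Y (s ^ n) c) = gs R Y' (s' ^ n) (f c) := by
    intro n
    induction n with
    | zero => intro c; rw [pow_zero, pow_zero, gs_one, gs_one]
    | succ n ih => intro c; rw [pow_succ, pow_succ, gs_mul, gs_mul, ih, hf]
  have hz : ∀ (n : ℤ) c, f (gs R Y (s ^ n) c) = gs R Y' (s' ^ n) (f c) := by
    rintro (n | n) c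
    · simpa using hn n c
    · have := hn (n + 1) (gs R Y (s ^ Int.negSucc n) c)
      rw [← gs_mul, zpow_negSucc, mul_inv_cancel, gs_one] at this
      rw [this, ← gs_mul, zpow_negSucc, zpow_negSucc, inv_mul_cancel, gs_one]
  induction a using LaurentPolynomial.induction_on' with
  | add p q hp hq => simp only [map_add, LinearMap.add_apply, hp, hq]
  | C_mul_T n a =>
    rw [map_mul, map_mul, Module.End.mul_apply, Module.End.mul_apply, act_C, act_C, act_T, act_T,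
      map_smul, hz]

/-- A submodule that is stable under the powers of `s` is stable under Laurent polynomials. -/
theorem act_mem {s : G} {M : Submodule R (Tot R Y)} (hM : ∀ n : ℤ, ∀ c ∈ M, gs R Y (s ^ n) c ∈ M)
    (a : Lam R) {c : Tot R Y} (h : c ∈ M) : act R Y s a c ∈ M := by
  induction a using LaurentPolynomial.induction_on' with
  | add p q hp hq => rw [map_add, LinearMap.add_apply]; exact add_mem hp hq
  | C_mul_T n a =>
    rw [map_mul, Module.End.mul_apply, act_C, act_T]; exact M.smul_mem _ (hM n c h)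

/-- Sets that are invariant under `s`. -/
def Inv (s : G) (A : Set Y) : Prop := ∀ y, s • y ∈ A ↔ y ∈ A

omit [TopologicalSpace Y] [ContinuousConstSMul G Y] in
theorem Inv.zpow {s : G} {A : Set Y} (hA : Inv s A) (n : ℤ) (y : Y) : s ^ n • y ∈ A ↔ y ∈ A := by
  induction n using Int.induction_on generalizing y with
  | zero => simp
  | succ n ih => rw [zpow_add_one, mul_smul, ih, hA]
  | pred n ih => rw [zpow_sub_one, mul_smul, ih, ← hA, smul_inv_smul]

theorem act_mem_CH {s : G} {A : Set Y} (hA : Inv s A) (a : Lam R) {c : Tot R Y}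
    (h : c ∈ CH R A) : act R Y s a c ∈ CH R A :=
  act_mem (fun n _ hc => gs_mem_CH _ (fun y hy => (hA.zpow n y).2 hy) hc) a h

theorem act_mem_DG (s : G) (a : Lam R) {k : ℕ} {c : Tot R Y} (h : c ∈ DG R Y k) :
    act R Y s a c ∈ DG R Y k := act_mem (fun _ _ hc => gs_mem_DG _ hc) a h

theorem dT_act (s : G) (a : Lam R) (c : Tot R Y) :
    dT R Y (act R Y s a c) = act R Y s a (dT R Y c) := map_act _ (dT_gs s) a c

theorem prj_gs (g : G) {A : Set Y} (hA : Inv g A) (c : Tot R Y) :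
    prj R A (gs R Y g c) = gs R Y g (prj R A c) := by
  induction c using Finsupp.induction_linear with
  | zero => simp
  | add a b ha hb => simp [ha, hb]
  | single σ a =>
    have h : Continuous ((fun y : Y => g • y) ∘ σ.2) :=
      (continuous_const_smul g).comp σ.2.continuous
    have e : range ((fun y : Y => g • y) ∘ σ.2) ⊆ A ↔ range σ.2 ⊆ A := by
      simp only [range_subset_iff, Function.comp_apply, hA _]
    rw [gs, psh_single _ σ h, prj, flt_single, flt_single]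
    by_cases h' : range σ.2 ⊆ A
    · rw [if_pos h', psh_single _ σ h]; exact if_pos (e.2 h')
    · rw [if_neg h', map_zero]; exact if_neg fun h'' => h' (e.1 h'')

/-- An equivariant operator as a linear map over the Laurent polynomials. -/
def twMap {s : G} (f : Module.End R (Tot R Y)) (hf : ∀ c, f (gs R Y s c) = gs R Y s (f c)) :
    Tw R Y s →ₗ[Lam R] Tw R Y s where
  toFun := f
  map_add' := f.map_add
  map_smul' := map_act f hf

/-- A stable submodule as a submodule over the Laurent polynomials. -/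
def twSub {s : G} (M : Submodule R (Tot R Y)) (hM : ∀ n : ℤ, ∀ c ∈ M, gs R Y (s ^ n) c ∈ M) :
    Submodule (Lam R) (Tw R Y s) where
  carrier := M.carrier
  add_mem' := M.add_mem
  zero_mem' := M.zero_mem
  smul_mem' a _ h := act_mem hM a h

variable (R Y) in
/-- The boundary as a linear map over the Laurent polynomials. -/
def dTw (s : G) : Tw R Y s →ₗ[Lam R] Tw R Y s := twMap (dT R Y) (dT_gs s)

variable (R) in
/-- Chains of degree `k` over the set `J` for an invariant map `f`. -/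
def lvTw {S : Type} (s : G) (f : Y → S) (hf : ∀ y, f (s • y) = f y) (k : ℕ) (J : Set S) :
    Submodule (Lam R) (Tw R Y s) :=
  twSub (CH R (f ⁻¹' J) ⊓ DG R Y k) fun n _ h =>
    ⟨gs_mem_CH _ (fun y hy => (Inv.zpow (s := s) (A := f ⁻¹' J)
      (fun y => by simp only [mem_preimage, hf]) n y).2 hy) h.1, gs_mem_DG _ h.2⟩

end Act

/-- The involution of the complex Laurent polynomials. -/
def cj : Lam ℂ →+* Lam ℂ :=
  (LaurentPolynomial.invert (R := ℂ)).toRingEquiv.toRingHom.comp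
    (AddMonoidAlgebra.mapRingHom ℤ (starRingEnd ℂ))

/-- Evaluation at a point of the unit circle. -/
def evL (ω : Circle) : Lam ℂ →ₐ[ℂ] ℂ :=
  AddMonoidAlgebra.lift ℂ ℂ ℤ (Circle.coeHom.comp (zpowersHom Circle ω))

/-- The prime `T - ω`. -/
def piL (ω : Circle) : Lam ℂ := LaurentPolynomial.T 1 - LaurentPolynomial.C (ω : ℂ)

end

end Pool.Agent.MP_bc14e1_gt

end

section

/-! The structures used in the proof. -/

open Set Metric
open scoped Classical Manifold ContDiff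

namespace Pool.Agent.MP_bc14e1_gt

noncomputable section

section Chains

variable (R : Type) [CommRing R] {X : Type} [TopologicalSpace X]

/-- Chains of degree `k` in `A`. -/
def CC (A : Set X) (k : ℕ) : Submodule R (Tot R X) := CH R A ⊓ DG R X k

/-- Cycles of degree `k` in `A`. -/
def ZC (A : Set X) (k : ℕ) : Submodule R (Tot R X) := CC R A k ⊓ LinearMap.ker (dT R X)

/-- Boundaries of degree `k` in `A`. -/
def BC (A : Set X) (k : ℕ) : Submodule R (Tot R X) := (CC R A (k + 1)).map (dT R X)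

/-- The second homology of `A` has dimension at most `n`. -/
def Dep0 (A : Set X) (n : ℕ) : Prop :=
  ∀ z : Fin (n + 1) → Tot R X, (∀ i, z i ∈ ZC R A 2) →
    ∃ a : Fin (n + 1) → R, a ≠ 0 ∧ ∑ i, a i • z i ∈ BC R A 2

/-- `A` contracts to `x` inside `A`. -/
def Ctr (A : Set X) (x : X) : Prop :=
  x ∈ A ∧ ∃ H : ℝ × X → X, ContinuousOn H (Icc 0 1 ×ˢ A) ∧ MapsTo H (Icc 0 1 ×ˢ A) A ∧
    (∀ y ∈ A, H (0, y) = y) ∧ ∀ y ∈ A, H (1, y) = x

end Chains

/-! ### Flat surfaces and covers -/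

section Cov

variable {X Y : Type} [TopologicalSpace X] [TopologicalSpace Y]

/-- A chart in which `F` is a coordinate plane. -/
def FlatCh (F : Set X) (e : OpenPartialHomeomorph X (ℂ × ℂ)) : Prop :=
  ∀ x ∈ e.source, x ∈ F ↔ (e x).2 = 0

structure Flat (F : Set X) : Prop where
  cl : IsClosed F
  ch : ∀ x ∈ F, ∃ e, FlatCh F e ∧ x ∈ e.source

/-- The rotation loop in a chart. -/
def rotL (e : OpenPartialHomeomorph X (ℂ × ℂ)) (z w : ℂ) (θ : ℝ) : X :=
  e.symm (z, Complex.exp (2 * Real.pi * Complex.I * θ) * w)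

/-- The rotation loop bounds a normal disc in the chart. -/
def Mer (F : Set X) (e : OpenPartialHomeomorph X (ℂ × ℂ)) (z w : ℂ) : Prop :=
  FlatCh F e ∧ w ≠ 0 ∧ ∀ w' : ℂ, ‖w'‖ ≤ ‖w‖ → (z, w') ∈ e.target

/-- Sets that contain the normal disc through each point. -/
def DiscCl (B : Set (ℂ × ℂ)) : Prop := ∀ x ∈ B, ∀ w' : ℂ, ‖w'‖ ≤ ‖x.2‖ → (x.1, w') ∈ B

/-- Rotation invariant sets. -/
def RotInv (B : Set (ℂ × ℂ)) : Prop := ∀ x ∈ B, ∀ w' : ℂ, ‖w'‖ = ‖x.2‖ → (x.1, w') ∈ B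

/-- A regular cover of the open set `Z` with group `G`. -/
structure GCov (G : Type) [Group G] [MulAction G Y] (Z : Set X) (p : Y → X) : Prop where
  cont : Continuous p
  inv : ∀ (g : G) (y : Y), p (g • y) = p y
  mem : ∀ y, p y ∈ Z
  free : ∀ (g : G) (y : Y), g • y = y → g = 1
  trans : ∀ y y', p y = p y' → ∃ g : G, y' = g • y
  sec : ∀ x ∈ Z, ∃ U, IsOpen U ∧ x ∈ U ∧ U ⊆ Z ∧ ∃ σ : X → Y, ContinuousOn σ U ∧
    (∀ x ∈ U, p (σ x) = x) ∧ IsOpen (σ '' U)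

variable {G : Type} [Group G] [MulAction G Y]

instance subCont [ContinuousConstSMul G Y] (H : Subgroup G) : ContinuousConstSMul H Y :=
  ⟨fun g => continuous_const_smul (g : G)⟩

/-- A cover of the complement of a flat surface in which a power of each meridian is the central
element `s` or its inverse. -/
structure TC (F : Set X) (p : Y → X) (s : G) : Prop where
  flat : Flat F
  cov : GCov G Fᶜ p
  cen : ∀ g, g * s = s * g
  inf : ∀ n : ℤ, s ^ n = 1 → n = 0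
  fin : (Subgroup.zpowers s).FiniteIndex
  rot : ∃ m : ℕ, ∀ e z w, Mer F e z w → ∀ γ : C(unitInterval, Y),
    (∀ θ : unitInterval, p (γ θ) = rotL e z w θ) →
    ∃ g : G, γ 1 = g • γ 0 ∧ (g ^ m = s ∨ g ^ m = s⁻¹)

/-- Closed invariant sets that are compact modulo `s`. -/
def Cocpt (s : G) (K : Set Y) : Prop :=
  IsClosed K ∧ Inv s K ∧ ∃ L, IsCompact L ∧ K ⊆ ⋃ n : ℤ, (fun y => s ^ n • y) '' L

/-- The invariant second homology has rank at most `n`. -/
def Dep (R : Type) [CommRing R] (Y : Type) [TopologicalSpace Y] [MulAction G Y]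
    [ContinuousConstSMul G Y] (s : G) (B : Set G) (n : ℕ) : Prop :=
  ∀ z : Fin (n + 1) → Tot R Y, (∀ i, z i ∈ ZC R univ 2 ∧ ∀ g ∈ B, gs R Y g (z i) = z i) →
    ∃ a : Fin (n + 1) → Lam R, a ≠ 0 ∧ ∃ b ∈ DG R Y 3, (∀ g ∈ B, gs R Y g b = b) ∧
      ∑ i, act R Y s (a i) (z i) = dT R Y b

/-- The image of the homology of `A` in the homology of `B` is finitely generated. -/
def FGI (R : Type) [CommRing R] [ContinuousConstSMul G Y] (s : G) (A B : Set Y) (k : ℕ) : Prop :=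
  ∃ (n : ℕ) (z : Fin n → Tot R Y), (∀ i, z i ∈ ZC R B k) ∧
    ∀ y ∈ ZC R A k, ∃ a : Fin n → Lam R, y - ∑ i, act R Y s (a i) (z i) ∈ BC R B k

/-- The infinite cyclic cover defined by the cocycle `φ`. -/
structure Pack1 (F : Set X) (φ : Tot ℤ X →ₗ[ℤ] ℤ) (p : Y → X) (t : G) (l : Y → ℤ) : Prop where
  tc : TC F p t
  gen : ∀ g : G, ∃ n : ℤ, g = t ^ n
  lev : ∀ y, l (t • y) = l y + 1
  hol : ∀ c : Tot ℤ Y, φ (psh ℤ p c) = val0 ℤ l (dT ℤ Y c)
  conn : PathConnectedSpace Y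

/-- The finite abelian cover of the infinite cyclic cover defined by the cocycle `α`. -/
structure Pack2 (F : Set X) (p : Y → X) (t : G) {A : Type} [AddCommGroup A] (τ : A ≃ₗ[ℤ] A) (m : ℕ)
    (α : Tot ℤ Y →+ A) {Y' G' : Type} [TopologicalSpace Y'] [Group G'] [MulAction G' Y']
    (q : Y' → Y) (j : Multiplicative A →* G') (t' : G') (l : Y' → A) : Prop where
  tc : TC F (p ∘ q) (t' ^ m)
  cov : GCov j.range univ q
  jinj : Function.Injective j
  conj : ∀ a, t' * j (Multiplicative.ofAdd a) * t'⁻¹ = j (Multiplicative.ofAdd (τ a))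
  gen : ∀ g, ∃ (a : A) (n : ℤ), g = j (Multiplicative.ofAdd a) * t' ^ n
  qt : ∀ y, q (t' • y) = t • q y
  la : ∀ a y, l (j (Multiplicative.ofAdd a) • y) = a + l y
  lt : ∀ y, l (t' • y) = τ (l y)
  hol : ∀ c : Tot ℤ Y', α (psh ℤ q c) = val0 ℤ l (dT ℤ Y' c)

end Cov

/-! ### Thom cocycles and the intersection pairing -/

section Thom

variable {X Y : Type} [TopologicalSpace X] [TopologicalSpace Y]

/-- `f` preserves the orientation. -/
def OriPres (o : Orientation4 X) (f : X ≃ₜ X) : Prop :=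
  ∀ x, Null univ {f x}ᶜ 4 (push ℤ (f : C(X, X)) 4 (o.o x) - o.o (f x))

/-- The local degree at `y` of the chain `c` for the orientation pulled back along `q`. -/
def LocDeg (o : Orientation4 X) (q : Y → X) (y : Y) (c : Tot ℝ Y) (r : ℝ) : Prop :=
  ∃ U, IsOpen U ∧ y ∈ U ∧ InjOn q U ∧ c ∈ CC ℝ U 4 ∧ dT ℝ Y c ∈ CH ℝ (U \ {y}) ∧
    ∃ b, psh ℝ q c - r • castZ ℝ X (inc ℤ 4 (o.o (q y))) - dT ℝ X b ∈ CH ℝ {q y}ᶜ

def coevR (τ : TS X → ℝ) : Tot ℝ X →ₗ[ℝ] ℝ := Finsupp.linearCombination ℝ τ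

def coevC (τ : TS X → ℝ) : Tot ℂ X →ₗ[ℂ] ℂ := Finsupp.linearCombination ℂ fun σ => (τ σ : ℂ)

/-- A Thom cocycle of the diagonal. -/
structure IsThom (o : Orientation4 X) (q : Y → X) (τ : TS (Y × Y) → ℝ) : Prop where
  dg : ∀ σ, σ.1 ≠ 4 → τ σ = 0
  off : ∀ σ : TS (Y × Y), (∀ t, (σ.2 t).1 ≠ (σ.2 t).2) → τ σ = 0
  coc : ∀ c, coevR τ (dT ℝ _ c) = 0
  one : ∀ y c r, LocDeg o q y c r → coevR τ (psh ℝ (fun x => (x, y)) c) = r

/-- Invariance of a cochain under a map. -/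
def ThomInv (τ : TS (Y × Y) → ℝ) (f : Y → Y) : Prop :=
  ∀ c, coevR τ (psh ℝ (Prod.map f f) c) = coevR τ c

def sgc (k : ℕ) : ℤ := (-1) ^ (k * (k - 1) / 2 + 1)

/-- Sesquilinear forms on complex chains. -/
abbrev Form (Y : Type) [TopologicalSpace Y] : Type := Tot ℂ Y →ₗ[ℂ] Tot ℂ Y →ₗ⋆[ℂ] ℂ

/-- The intersection pairing of chains defined by a Thom cocycle. -/
def beta (κ : Kit) (τ : TS (Y × Y) → ℝ) : Form Y :=
  LinearMap.mk₂'ₛₗ (RingHom.id ℂ) (starRingEnd ℂ)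
    (fun u v => coevC τ (κ.cx ℂ Y Y (sgn ℂ Y sgc u) (cjT Y v)))
    (fun _ _ _ => by simp) (fun _ _ _ => by simp) (fun _ _ _ => by simp)
    (fun _ _ _ => by rw [LinearMap.map_smulₛₗ, map_smul, map_smul])

variable {G : Type} [Group G] [MulAction G Y]

/-- Invariant forms that vanish on chains with disjoint supports. -/
structure LK (s : G) (b : Form Y) : Prop where
  inv : ∀ u v, b (gs ℂ Y s u) (gs ℂ Y s v) = b u v
  loc : ∀ A B : Set Y, Disjoint A B → ∀ u ∈ CH ℂ A, ∀ v ∈ CH ℂ B, b u v = 0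

/-- The equivariant form with values in the Laurent polynomials. -/
def lamF (s : G) (b : Form Y) (u v : Tot ℂ Y) : Lam ℂ :=
  ∑ᶠ n : ℤ, LaurentPolynomial.T n * LaurentPolynomial.C (b u (gs ℂ Y (s ^ n) v))

/-- The properties of the intersection pairing. -/
structure Pair (o : Orientation4 X) (q : Y → X) (s : G) (b : Form Y) : Prop where
  lk : LK s b
  stokes : ∀ u v, b (dT ℂ Y u) v = b u (dT ℂ Y v)
  dg : ∀ k l, k + l ≠ 4 → ∀ u ∈ DG ℂ Y k, ∀ v ∈ DG ℂ Y l, b u v = 0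
  one : ∀ y c r, LocDeg o q y c r → b (cast Complex.ofRealHom Y c) (pt ℂ y) = -r
  real : ∀ u v, b (cjT Y u) (cjT Y v) = starRingEnd ℂ (b u v)
  sym : ∃ E₁ E₂, LK s E₁ ∧ LK s E₂ ∧ ∀ u ∈ DG ℂ Y 2, ∀ v ∈ DG ℂ Y 2,
    b u v - starRingEnd ℂ (b v u) = E₁ (dT ℂ Y u) v + E₂ u (dT ℂ Y v)

/-- Multiples of the Laurent polynomial `g`. -/
def Mul0 [ContinuousConstSMul G Y] (s : G) (g : Lam ℂ) : Submodule ℂ (Tot ℂ Y) :=
  LinearMap.range (act ℂ Y s g)

end Thom

/-! ### The closed manifold -/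

def shell : Set (E 4) := {x | 1 / 2 < ‖x‖ ∧ ‖x‖ < 1}

/-- The involution of the shell. -/
def invS (ι : E 4 ≃ₗᵢ[ℝ] E 4) (x : E 4) : E 4 := ((3 / 2 - ‖x‖) / ‖x‖) • ι x

/-- The complement of the cone over `K` in the shell. -/
def shellO (K : Set (E 4)) : Set (E 4) := {x | x ∈ shell ∧ ‖x‖⁻¹ • x ∉ K}

/-- The double of a definite manifold along the involution `ι`, with the sphere `F`. -/
structure Geo (κ : Kit) (K : Set (E 4)) (ι : E 4 ≃ₗᵢ[ℝ] E 4) where
  X : Type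
  [top : TopologicalSpace X]
  [t2 : T2Space X]
  [cpt : CompactSpace X]
  [ch : ChartedSpace (E 4) X]
  [mf : IsManifold (𝓡 4) ∞ X]
  o : Orientation4 X
  F : Set X
  flat : Flat F
  I : X ≃ₜ X
  II : ∀ x, I (I x) = x
  IF : ∀ x, I x ∈ F ↔ x ∈ F
  Io : OriPres o I
  h : X → ℝ
  hc : Continuous h
  hI : ∀ x, h (I x) = -h x
  emb : OpenPartialHomeomorph (E 4) X
  src : emb.source = shell
  tgt : emb.target = h ⁻¹' Ioo (-1) 1
  h_emb : ∀ x ∈ shell, h (emb x) = 3 - 4 * ‖x‖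
  F_emb : ∀ x ∈ shell, emb x ∈ F ↔ ‖x‖⁻¹ • x ∈ K
  I_emb : ∀ x ∈ shell, I (emb x) = emb (invS ι x)
  δ : E 2 → X
  δc : ContinuousOn δ (closedBall 0 1)
  δi : InjOn δ (closedBall 0 1)
  δ0 : δ '' closedBall 0 1 = F ∩ h ⁻¹' Iic 0
  δ1 : δ '' sphere 0 1 = F ∩ h ⁻¹' {0}
  conn : IsPathConnected (h ⁻¹' Iio 1)
  H1 : ZC ℤ (h ⁻¹' Iio 1) 1 ≤ BC ℤ (h ⁻¹' Iio 1) 1
  k : ℕ
  S : Fin k → Tot ℤ X
  Sm : ∀ i, S i ∈ ZC ℤ (Fᶜ ∩ h ⁻¹' Iio 0) 2
  H2 : ∀ z ∈ ZC ℤ (h ⁻¹' Iio 1) 2, ∃ n : Fin k → ℤ, z - ∑ i, n i • S i ∈ BC ℤ (h ⁻¹' Iio 1) 2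
  num : ∀ τ, IsThom o id τ → ∀ i j,
    beta κ τ (castZ ℂ X (S i)) (castZ ℂ X (S j)) = if i = j then 1 else 0

attribute [instance] Geo.top Geo.t2 Geo.cpt Geo.ch Geo.mf

/-- The homology of the complement of the sphere. -/
structure XPack (κ : Kit) {X : Type} [TopologicalSpace X] (o : Orientation4 X) (F : Set X) (n : ℕ)
    (φ : Tot ℤ X →ₗ[ℤ] ℤ) : Prop where
  conn : IsPathConnected Fᶜ
  coc : ∀ c ∈ CH ℤ Fᶜ, φ (dT ℤ X c) = 0
  dg : ∀ k, k ≠ 1 → ∀ c ∈ DG ℤ X k, φ c = 0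
  gen : ∃ μ ∈ ZC ℤ Fᶜ 1, φ μ = 1 ∧ ∀ z ∈ ZC ℤ Fᶜ 1, z - φ z • μ ∈ BC ℤ Fᶜ 1
  rot : ∀ e z w, Mer F e z w → ∀ γ : C(unitInterval, X),
    (∀ θ : unitInterval, γ θ = rotL e z w θ) → φ (pth ℤ γ) = 1 ∨ φ (pth ℤ γ) = -1
  dep : Dep0 (ZMod 2) Fᶜ n
  cls : ∃ x : Fin n → Tot ℤ X, (∀ i, x i ∈ ZC ℤ Fᶜ 2) ∧ ∀ τ, IsThom o id τ → ∀ i j,
    beta κ τ (castZ ℂ X (x i)) (castZ ℂ X (x j)) = if i = j then 1 else 0

/-! ### Dehn presentations -/

/-- The open cover of a knot complement given by a diagram. -/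
structure DehnData {Z : Type} [TopologicalSpace Z] (O : Set Z) {Reg Cr : Type}
    (reg : Cr → Fin 4 → Reg) where
  Up : Set Z
  Lo : Set Z
  n : Z
  s : Z
  Rg : Reg → Set Z
  B : Cr → Set Z
  U1 : Cr → Set Z
  U2 : Cr → Set Z
  L1 : Cr → Set Z
  L2 : Cr → Set Z
  r : Reg → Z
  a : Reg → C(unitInterval, Z)
  b : Reg → C(unitInterval, Z)
  opU : IsOpen Up
  opL : IsOpen Lo
  ctU : Ctr Up n
  ctL : Ctr Lo s
  opR : ∀ R, IsOpen (Rg R)
  pcR : ∀ R, IsPathConnected (Rg R)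
  djR : Pairwise fun R R' => Disjoint (Rg R) (Rg R')
  unR : ⋃ R, Rg R = Up ∩ Lo
  opB : ∀ c, IsOpen (B c)
  ctB : ∀ c, ∃ x, Ctr (B c) x
  djB : Pairwise fun c c' => Disjoint (B c) (B c')
  cover : Up ∪ Lo ∪ ⋃ c, B c = O
  op : ∀ c, IsOpen (U1 c) ∧ IsOpen (U2 c) ∧ IsOpen (L1 c) ∧ IsOpen (L2 c)
  pc : ∀ c, IsPathConnected (U1 c) ∧ IsPathConnected (U2 c) ∧ IsPathConnected (L1 c) ∧
    IsPathConnected (L2 c)
  dj : ∀ c, Disjoint (U1 c) (U2 c) ∧ Disjoint (L1 c) (L2 c)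
  un : ∀ c, U1 c ∪ U2 c = B c ∩ Up ∧ L1 c ∪ L2 c = B c ∩ Lo
  ne : ∀ c, (U1 c ∩ L1 c).Nonempty ∧ (U1 c ∩ L2 c).Nonempty ∧ (U2 c ∩ L2 c).Nonempty ∧
    (U2 c ∩ L1 c).Nonempty
  sub : ∀ c, U1 c ∩ L1 c ⊆ Rg (reg c 0) ∧ U1 c ∩ L2 c ⊆ Rg (reg c 1) ∧
    U2 c ∩ L2 c ⊆ Rg (reg c 2) ∧ U2 c ∩ L1 c ⊆ Rg (reg c 3)
  rm : ∀ R, r R ∈ Rg R
  a0 : ∀ R, a R 0 = n
  a1 : ∀ R, a R 1 = r R
  am : ∀ R t, a R t ∈ Up
  b0 : ∀ R, b R 0 = r R
  b1 : ∀ R, b R 1 = s
  bm : ∀ R t, b R t ∈ Lo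

/-- The map `f` preserves the upper and lower parts and permutes the regions by `ρ`. -/
structure DehnData.Sym {Z : Type} [TopologicalSpace Z] {O : Set Z} {Reg Cr : Type}
    {reg : Cr → Fin 4 → Reg} (D : DehnData O reg) (f : Z → Z) (ρ : Reg → Reg) : Prop where
  up : MapsTo f D.Up D.Up
  lo : MapsTo f D.Lo D.Lo
  rg : ∀ R, MapsTo f (D.Rg R) (D.Rg (ρ R))

section Dehn

variable (S : Type) [CommRing S] {Reg Cr G : Type} [Group G]

/-- The first boundary map of the Dehn complex. -/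
def d1A (h : Reg → G) : ((Reg × G) →₀ S) →ₗ[S] ((Bool × G) →₀ S) :=
  Finsupp.linearCombination S fun x =>
    Finsupp.single (true, x.2 * h x.1) 1 - Finsupp.single (false, x.2) 1

/-- The second boundary map of the Dehn complex. -/
def d2A (reg : Cr → Fin 4 → Reg) (h : Reg → G) : ((Cr × G) →₀ S) →ₗ[S] ((Reg × G) →₀ S) :=
  Finsupp.linearCombination S fun x =>
    Finsupp.single (reg x.1 0, x.2) 1 - Finsupp.single (reg x.1 1, x.2) 1 +
      Finsupp.single (reg x.1 2, x.2 * (h (reg x.1 1) * (h (reg x.1 2))⁻¹)) 1 -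
      Finsupp.single (reg x.1 3, x.2 * (h (reg x.1 1) * (h (reg x.1 2))⁻¹)) 1

variable {X Y : Type} [TopologicalSpace X] [TopologicalSpace Y] [MulAction G Y]

/-- The singular chain of a chain of the Dehn complex. -/
def ellC (l : Reg → Tot ℤ Y) : ((Reg × G) →₀ S) →ₗ[S] Tot S Y :=
  Finsupp.linearCombination S fun x => gs S Y x.2 (castZ S Y (l x.1))

/-- Sections over the upper and lower parts and their holonomy. -/
structure DehnSec {O : Set X} {reg : Cr → Fin 4 → Reg} (D : DehnData O reg) (p : Y → X)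
    (σU σL : X → Y) (h : Reg → G) : Prop where
  cU : ContinuousOn σU D.Up
  cL : ContinuousOn σL D.Lo
  pU : ∀ x ∈ D.Up, p (σU x) = x
  pL : ∀ x ∈ D.Lo, p (σL x) = x
  hol : ∀ R, σU (D.r R) = h R • σL (D.r R)

/-- The lifted path through the region `R`. -/
def DehnData.ell {O : Set X} {reg : Cr → Fin 4 → Reg} (D : DehnData O reg) (σU σL : X → Y)
    (h : Reg → G) (R : Reg) : Tot ℤ Y :=
  psh ℤ σU (pth ℤ (D.a R)) + gs ℤ Y (h R) (psh ℤ σL (pth ℤ (D.b R)))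

/-- The Dehn complex computes the homology of `O` in low degrees. -/
structure DehnMap (O : Set Y) (reg : Cr → Fin 4 → Reg) (h : Reg → G) (l : Reg → Tot ℤ Y)
    (yn ys : Y) : Prop where
  mem : ∀ R, l R ∈ CC ℤ O 1
  bd : ∀ R, dT ℤ Y (l R) = pt ℤ (h R • ys) - pt ℤ yn
  hol : ∀ c, h (reg c 0) = h (reg c 1) * (h (reg c 2))⁻¹ * h (reg c 3)
  gen : ∀ (S : Type) [CommRing S], ∀ z ∈ ZC S O 1, ∃ x : (Reg × G) →₀ S,
    d1A S h x = 0 ∧ z - ellC S l x ∈ BC S O 1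
  inj : ∀ (S : Type) [CommRing S] (x : (Reg × G) →₀ S), d1A S h x = 0 →
    (ellC S l x ∈ BC S O 1 ↔ x ∈ LinearMap.range (d2A S reg h))
  h0 : ∀ y ∈ O, ∃ g : G, JoinedIn O y (g • yn)
  h0i : ∀ g : G, JoinedIn O yn (g • yn) →
    Finsupp.single (false, g) 1 - Finsupp.single (false, 1) 1 ∈ LinearMap.range (d1A ℤ h)

variable {S} [ContinuousConstSMul G Y] {O : Set Y} {reg : Cr → Fin 4 → Reg} {h : Reg → G}
  {l : Reg → Tot ℤ Y} {yn ys : Y}

theorem DehnMap.dT_ellC (D : DehnMap O reg h l yn ys) (x : (Reg × G) →₀ S) :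
    dT S Y (ellC S l x) = Finsupp.linearCombination S
      (fun z : Bool × G => pt S (z.2 • cond z.1 ys yn)) (d1A S h x) := by
  induction x using Finsupp.induction_linear with
  | zero => simp
  | add a b ha hb => simp only [map_add, ha, hb]
  | single z a =>
    simp only [ellC, d1A, Finsupp.linearCombination_single, map_smul, map_sub, one_smul, cond]
    rw [dT_gs, ← cast_dT, D.bd, map_sub, cast_pt, cast_pt, map_sub, gs, psh_pt, psh_pt, mul_smul]

theorem DehnMap.ellC_mem (D : DehnMap O reg h l yn ys) {O' : Set Y} (hO : O ⊆ O')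
    (hO' : ∀ (g : G), ∀ y ∈ O', g • y ∈ O') {x : (Reg × G) →₀ S} (hx : d1A S h x = 0) :
    ellC S l x ∈ ZC S O' 1 := by
  refine ⟨?_, by rw [SetLike.mem_coe, LinearMap.mem_ker, D.dT_ellC, hx, map_zero]⟩
  rw [ellC, Finsupp.linearCombination_apply]
  exact Submodule.sum_mem _ fun z _ => Submodule.smul_mem _ _
    ⟨gs_mem_CH _ (hO' _) (cast_mem_CH _ (CH_mono hO (D.mem z.1).1)),
      gs_mem_DG _ (cast_mem_DG _ (D.mem z.1).2)⟩

end Dehn

/-! ### Colourings and twisted complexes -/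

/-- The ring `R[ω]` with `ω ^ 2 = ω - 1`. -/
abbrev Eis (R : Type) [CommRing R] : Type := QuadraticAlgebra R (-1) 1

/-- The unit `ω`. -/
def om (R : Type) [CommRing R] : (Eis R)ˣ where
  val := ⟨0, 1⟩
  inv := ⟨1, -1⟩
  val_inv := by ext <;> simp [QuadraticAlgebra.re_one, QuadraticAlgebra.im_one]
  inv_val := by ext <;> simp [QuadraticAlgebra.re_one, QuadraticAlgebra.im_one]

/-- Reduction modulo eight. -/
def red8 (x : Eis ℤ) : Eis (ZMod 8) := ⟨x.re, x.im⟩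

/-- The primitive sixth root of unity. -/
def omC : Circle := Circle.exp (Real.pi / 3)

section Tw

variable {Reg Cr : Type} (reg : Cr → Fin 4 → Reg) (gap : Reg → ℤ)

/-- Dehn colourings with values in `R[ω]`. -/
def IsCol {R : Type} [CommRing R] (c : Reg → Eis R) : Prop :=
  ∀ x, c (reg x 0) - c (reg x 1) +
    (om R ^ (gap (reg x 1) - gap (reg x 2)) : (Eis R)ˣ) * (c (reg x 2) - c (reg x 3)) = 0

/-- The colouring is compatible with the symmetry `ρ`. -/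
def JComp {R : Type} [CommRing R] (ρ : Reg → Reg) (c : Reg → Eis R) : Prop :=
  ∃ μ u v : Eis R, ∀ r, star (c (ρ r)) = μ * c r + u + v * (om R ^ gap r : (Eis R)ˣ)

def d1T (w : Reg → ℤ → ℂ) : ((Reg × ℤ) →₀ ℂ) →ₗ[ℂ] ((Bool × ℤ) →₀ ℂ) :=
  Finsupp.linearCombination ℂ fun x =>
    w x.1 x.2 • Finsupp.single (true, x.2 + gap x.1) 1 - Finsupp.single (false, x.2) 1

def d2T (w : Reg → ℤ → ℂ) : ((Cr × ℤ) →₀ ℂ) →ₗ[ℂ] ((Reg × ℤ) →₀ ℂ) :=
  Finsupp.linearCombination ℂ fun x =>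
    Finsupp.single (reg x.1 0, x.2) 1 - Finsupp.single (reg x.1 1, x.2) 1 +
      (w (reg x.1 1) x.2 / w (reg x.1 2) (x.2 + (gap (reg x.1 1) - gap (reg x.1 2)))) •
        (Finsupp.single (reg x.1 2, x.2 + (gap (reg x.1 1) - gap (reg x.1 2))) 1 -
          Finsupp.single (reg x.1 3, x.2 + (gap (reg x.1 1) - gap (reg x.1 2))) 1)

/-- The shift by `m`. -/
def shT (Reg : Type) (m : ℤ) : Module.End ℂ ((Reg × ℤ) →₀ ℂ) :=
  Finsupp.lmapDomain ℂ ℂ fun x => (x.1, x.2 + m)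

/-- The operator `shift - ω`. -/
def piT (Reg : Type) (m : ℤ) (ζ : ℂ) : Module.End ℂ ((Reg × ℤ) →₀ ℂ) := shT Reg m - ζ • 1

/-- The primary part at `ω` of the twisted homology has length one. -/
structure Len1T (w : Reg → ℤ → ℂ) (m : ℤ) (ζ : ℂ) (x : (Reg × ℤ) →₀ ℂ) : Prop where
  cyc : d1T gap w x = 0
  tor : piT Reg m ζ x ∈ LinearMap.range (d2T reg gap w)
  nz : x ∉ LinearMap.range (d2T reg gap w)
  prim : ∀ y, d1T gap w y = 0 → ∀ k : ℕ, (piT Reg m ζ ^ k) y ∈ LinearMap.range (d2T reg gap w) →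
    ∃ μ : ℂ, y - μ • x ∈ LinearMap.range (d2T reg gap w)
  top : ∀ y, d1T gap w y = 0 → ∃ (μ : ℂ) (y' : (Reg × ℤ) →₀ ℂ), d1T gap w y' = 0 ∧
    y - μ • x - piT Reg m ζ y' ∈ LinearMap.range (d2T reg gap w)

/-- The primary part at `ω` of the untwisted homology is killed by `t - ω` and has dimension at
most two. -/
structure Len2T (ζ : ℂ) : Prop where
  ann : ∃ D : Polynomial ℂ, D.eval ζ ≠ 0 ∧ ∀ y, d1T gap (fun _ _ => 1) y = 0 →
    piT Reg 1 ζ (Polynomial.aeval (shT Reg 1) D y) ∈ LinearMap.range (d2T reg gap fun _ _ => 1)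
  top : ∃ x₁ x₂, d1T gap (fun _ _ => 1) x₁ = 0 ∧ d1T gap (fun _ _ => 1) x₂ = 0 ∧
    ∀ y, d1T gap (fun _ _ => 1) y = 0 → ∃ (μ₁ μ₂ : ℂ) (y' : (Reg × ℤ) →₀ ℂ),
      d1T gap (fun _ _ => 1) y' = 0 ∧
      y - μ₁ • x₁ - μ₂ • x₂ - piT Reg 1 ζ y' ∈ LinearMap.range (d2T reg gap fun _ _ => 1)

/-- The twisted homology for the colouring `c` has a simple root on the unit circle. -/
def TwOK (χ : AddChar (Eis (ZMod 8)) ℂ) (c : Reg → Eis (ZMod 8)) : Prop :=
  ∀ j : ℕ, ∃ ζ : Circle, ζ ≠ 1 ∧ ∃ x, Len1T reg gap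
    (fun r n => χ ((om (ZMod 8) ^ n : (Eis (ZMod 8))ˣ) * c r)) (6 * 2 ^ j) ζ x

end Tw

/-- The algebraic certificate of the knot. -/
structure Cert {Reg Cr : Type} (reg : Cr → Fin 4 → Reg) (ρ : Reg → Reg) where
  gap : Reg → ℤ
  R0 : Reg
  R1 : Reg
  g0 : gap R0 = 0
  g1 : gap R1 = 1
  gρ : ∃ k, ∀ r, gap (ρ r) = k - gap r
  gapU : ∀ n : Reg → ℤ, (∀ c, n (reg c 0) = n (reg c 1) - n (reg c 2) + n (reg c 3)) →
    ∃ a b, ∀ r, n r = a + b * gap r
  c1 : Reg → Eis ℤ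
  c2 : Reg → Eis ℤ
  col1 : IsCol reg gap c1 ∧ c1 R0 = 0 ∧ c1 R1 = 0
  col2 : IsCol reg gap c2 ∧ c2 R0 = 0 ∧ c2 R1 = 0
  colZ : ∀ c : Reg → Eis ℤ, IsCol reg gap c → c R0 = 0 → c R1 = 0 →
    ∃ a b, ∀ r, c r = a * c1 r + b * c2 r
  len2 : Len2T reg gap omC
  tw : ∀ a b : Eis (ZMod 8), IsUnit a ∨ IsUnit b →
    JComp gap ρ (fun r => a * red8 (c1 r) + b * red8 (c2 r)) →
    ∃ χ, TwOK reg gap χ fun r => a * red8 (c1 r) + b * red8 (c2 r)
  ex : ∃ (a b : Eis ℤ) (χ : AddChar (Eis (ZMod 8)) ℂ),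
    TwOK reg gap χ fun r => red8 (a * c1 r + b * c2 r)

/-! ### The algebraic shadow of a cover of the double -/

section AS

variable {C : Type} [AddCommGroup C] [Module (Lam ℂ) C]

/-- Sesquilinear forms over the Laurent polynomials. -/
structure Sesq (l : C → C → Lam ℂ) : Prop where
  add_left : ∀ u u' v, l (u + u') v = l u v + l u' v
  smul_left : ∀ (a : Lam ℂ) u v, l (a • u) v = a * l u v
  add_right : ∀ u v v', l u (v + v') = l u v + l u v'
  smul_right : ∀ (a : Lam ℂ) u v, l u (a • v) = cj a * l u v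

variable (d : C →ₗ[Lam ℂ] C) (M : ℕ → Set ℝ → Submodule (Lam ℂ) C)

/-- Sesquilinear forms that vanish on chains with disjoint levels. -/
def LocS (l : C → C → Lam ℂ) : Prop :=
  Sesq l ∧ ∀ k k' J J', Disjoint J J' → ∀ u ∈ M k J, ∀ v ∈ M k' J', l u v = 0

/-- A chain deformation of the levels `J'` into the levels `J`. -/
def Retr (J' J : Set ℝ) : Prop :=
  ∃ r H : C →ₗ[Lam ℂ] C, ∀ k,
    (∀ c ∈ M k J', r c ∈ M k J ∧ H c ∈ M (k + 1) J' ∧ d (H c) + H (d c) = c - r c) ∧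
    ∀ c ∈ M k J, H c ∈ M (k + 1) J

structure IsAS (l : C → C → Lam ℂ) : Prop where
  dd : ∀ c, d (d c) = 0
  d_mem : ∀ k J, ∀ c ∈ M (k + 1) J, d c ∈ M k J
  d_zero : ∀ J, ∀ c ∈ M 0 J, d c = 0
  mono : ∀ k J J', J ⊆ J' → M k J ≤ M k J'
  inter : ∀ k J J', M k J ⊓ M k J' ≤ M k (J ∩ J')
  tf0 : ∀ g : Lam ℂ, g ≠ 0 → ∀ c : C, g • c = 0 → c = 0
  tf : ∀ g : Lam ℂ, g ≠ 0 → ∀ k J, ∀ c : C, g • c ∈ M k J → c ∈ M k J
  cpt : ∀ k J, ∀ c ∈ M k J, ∃ J₀ ⊆ J, IsCompact J₀ ∧ c ∈ M k J₀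
  retrN : ∀ a' a b b' : ℝ, -1 ≤ a' → a' ≤ a → a < b → b ≤ b' → b' ≤ 1 →
    Retr d M (Ioo a' b') (Ioo a b)
  retrV : ∀ b b' : ℝ, -1 < b → b ≤ b' → b' ≤ 1 → Retr d M (Iio b') (Iio b)
  loc : LocS M l
  stokes : ∀ u v, l (d u) v = l u (d v)
  sym : ∃ E₁ E₂, LocS M E₁ ∧ LocS M E₂ ∧ ∀ u ∈ M 2 univ, ∀ v ∈ M 2 univ,
    l u v - cj (l v u) = E₁ (d u) v + E₂ u (d v)
  psd : ∃ bad : Set Circle, bad.Finite ∧ ∀ η ∉ bad, ∀ z ∈ M 2 univ, d z = 0 →
    0 ≤ (evL η (l z z)).re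
  pdV : ∀ ζ : Circle, ζ ≠ 1 → ∀ (n : ℕ) (c : ℝ), -1 < c → c < 1 → ∀ x ∈ M 1 (Iic c), d x = 0 →
    (¬ ∃ w ∈ M 2 (Iio 1), ∃ y ∈ M 1 (Iio 1), x = d w + piL ζ ^ n • y) →
    ∃ b ∈ M 3 (Iio 1), ∃ a ∈ M 2 (Iio 1), ∃ r ∈ M 2 (Ioo c 1),
      d b = piL ζ ^ n • a + r ∧ ¬ piL ζ ^ n ∣ l b x
  pdN : ∀ ζ : Circle, ζ ≠ 1 → ∀ a c : ℝ, -1 < a → c < 1 → ∀ u ∈ M 2 (Icc a c),
    (∃ y, d u = piL ζ • y) →
    (¬ ∃ w ∈ M 3 (Ioo (-1) 1), ∃ y ∈ M 2 (Ioo (-1) 1), u = d w + piL ζ • y) →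
    ∃ b ∈ M 2 (Ioo (-1) 1), ∃ a' ∈ M 1 (Ioo (-1) 1), ∃ r₁ ∈ M 1 (Ioo (-1) a),
      ∃ r₂ ∈ M 1 (Ioo c 1), d b = piL ζ • a' + r₁ + r₂ ∧ (∃ y, d r₁ = piL ζ • y) ∧
        evL ζ (l b u) ≠ 0
  fgV : ∃ (n : ℕ) (z : Fin n → C), (∀ i, z i ∈ M 1 (Iio 1) ∧ d (z i) = 0) ∧
    ∀ y ∈ M 1 (Iio 1), d y = 0 →
      ∃ a : Fin n → Lam ℂ, ∃ b ∈ M 2 (Iio 1), y = ∑ i, a i • z i + d b
  mv : ∀ y ∈ M 1 (Ioo (-1) 1), ∀ c ∈ M 2 univ, y = d c →
    ∃ c₁ ∈ M 2 (Iio 1), ∃ c₂ ∈ M 2 (Ioi (-1)), y = d c₁ + d c₂ ∧ d c₁ ∈ M 1 (Ioo (-1) 1)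

/-- The deck transformation acts trivially on the components over the shell. -/
def H0N : Prop :=
  ∀ y ∈ M 0 (Ioo (-1) 1), ∃ w ∈ M 1 (Ioo (-1) 1), (LaurentPolynomial.T 1 - 1 : Lam ℂ) • y = d w

/-- Cycles over the shell. -/
def ZN : Submodule (Lam ℂ) C := M 1 (Ioo (-1) 1) ⊓ LinearMap.ker d

/-- Boundaries over the shell. -/
def BN : Submodule (Lam ℂ) C := (M 2 (Ioo (-1) 1)).map d

/-- A self-adjoint projector. -/
structure Proj (l : C → C → Lam ℂ) (e : C →ₗ[Lam ℂ] C) : Prop where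
  ee : ∀ c, e (e c) = e c
  ed : ∀ c, e (d c) = d (e c)
  mem : ∀ k J, ∀ c ∈ M k J, e c ∈ M k J
  adj : ∀ u v, l (e u) v = l u (e v)

structure Len1 (e : C →ₗ[Lam ℂ] C) (ζ : Circle) (x : C) : Prop where
  cyc : x ∈ ZN d M
  ex : e x = x
  tor : piL ζ • x ∈ BN d M
  nz : x ∉ BN d M
  prim : ∀ y ∈ ZN d M, e y = y → ∀ n : ℕ, piL ζ ^ n • y ∈ BN d M →
    ∃ μ : ℂ, y - (LaurentPolynomial.C μ : Lam ℂ) • x ∈ BN d M
  top : ∀ y ∈ ZN d M, e y = y → ∃ μ : ℂ, ∃ y' ∈ ZN d M,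
    y - (LaurentPolynomial.C μ : Lam ℂ) • x - piL ζ • y' ∈ BN d M

structure Len2 (ζ : Circle) : Prop where
  ann : ∃ D : Lam ℂ, evL ζ D ≠ 0 ∧ ∀ y ∈ ZN d M, (piL ζ * D) • y ∈ BN d M
  top : ∃ x₁ ∈ ZN d M, ∃ x₂ ∈ ZN d M, ∀ y ∈ ZN d M, ∃ μ₁ μ₂ : ℂ, ∃ y' ∈ ZN d M,
    y - (LaurentPolynomial.C μ₁ : Lam ℂ) • x₁ - (LaurentPolynomial.C μ₂ : Lam ℂ) • x₂ -
      piL ζ • y' ∈ BN d M

/-- An antilinear involution that reverses the levels and preserves the form. -/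
structure JInv (l : C → C → Lam ℂ) (J : C →+ C) : Prop where
  smul : ∀ (a : Lam ℂ) c, J (a • c) = cj a • J c
  JJ : ∀ c, J (J c) = c
  Jd : ∀ c, J (d c) = d (J c)
  mem : ∀ k S, ∀ c ∈ M k S, J c ∈ M k ((fun r => -r) ⁻¹' S)
  inv : ∃ E₁ E₂, LocS M E₁ ∧ LocS M E₂ ∧ ∀ u ∈ M 2 univ, ∀ v ∈ M 2 univ,
    cj (l (J u) (J v)) - l u v = E₁ (d u) v + E₂ u (d v)

/-- The cycles over the shell that bound span at most a line modulo `T - ω`. -/
def Line (ζ : Circle) : Prop :=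
  ∃ w ∈ ZN d M, ∀ y ∈ ZN d M, (∃ b ∈ M 2 univ, y = d b) → ∃ μ : ℂ, ∃ y' ∈ ZN d M,
    y - (LaurentPolynomial.C μ : Lam ℂ) • w - piL ζ • y' ∈ BN d M

end AS

end

end Pool.Agent.MP_bc14e1_gt

end

section

/-! The statements of the steps of the proof. -/

open Set Metric
open scoped Classical Manifold ContDiff

namespace Pool.Agent.MP_bc14e1_gt

noncomputable section

section Defs

variable (R : Type) [CommRing R] {G : Type} [Group G] (Y : Type) [TopologicalSpace Y]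
  [MulAction G Y] [ContinuousConstSMul G Y]

/-- Cycles as a module over the Laurent polynomials. -/
def ZT (s : G) (k : ℕ) : Submodule (Lam R) (Tw R Y s) :=
  twSub (ZC R univ k) fun _ c h => ⟨⟨mem_CH_univ _, gs_mem_DG _ h.1.2⟩, by
    have : dT R Y c = 0 := h.2
    change dT R Y _ = 0
    rw [dT_gs, this, map_zero]⟩

variable {Y}

/-- There are `n` cycles whose Gram matrix is positive definite on the circle away from one. -/
def Pos1 (s : G) (b : Form Y) (n : ℕ) : Prop :=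
  ∃ v : Fin n → Tot ℂ Y, (∀ i, v i ∈ ZC ℂ univ 2) ∧ ∀ η : Circle, η ≠ 1 → ∀ a : Fin n → ℂ, a ≠ 0 →
    0 < (evL η (lamF s b (∑ i, a i • v i) (∑ i, a i • v i))).re

/-- The equivariant intersection form is positive semidefinite on the circle. -/
def Psd (s : G) (b : Form Y) : Prop :=
  ∃ bad : Set Circle, bad.Finite ∧ ∀ η ∉ bad, ∀ z ∈ ZC ℂ univ 2, 0 ≤ (evL η (lamF s b z z)).re

/-- The value of a colouring on a chain of the Dehn complex. -/
def colE {Reg G : Type} (lg : G → ℤ) (c : Reg → Eis ℤ) : ((Reg × G) →₀ ℤ) →ₗ[ℤ] Eis ℤ :=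
  Finsupp.linearCombination ℤ fun x => (om ℤ ^ lg x.2 : (Eis ℤ)ˣ) * c x.1

end Defs

/-! ### Basic homology -/

def KitStmt : Prop := Nonempty Kit

/-- Contractible sets are acyclic. -/
def CtrStmt : Prop :=
  ∀ (R : Type) [CommRing R] (X : Type) [TopologicalSpace X] (A : Set X) (x : X), Ctr A x →
    (∀ k, k ≠ 0 → ZC R A k ≤ BC R A k) ∧
    ∀ c ∈ CC R A 0, c - val0 R (fun _ => (1 : R)) c • pt R x ∈ BC R A 0

/-- The local homology of Euclidean space. -/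
def LocHomStmt : Prop :=
  ∀ n : ℕ, ∃ o ∈ DG ℤ (E n) n, dT ℤ _ o ∈ CH ℤ ({0}ᶜ : Set (E n)) ∧
    ∀ (R : Type) [CommRing R] (k : ℕ), ∀ c ∈ DG R (E n) k, dT R _ c ∈ CH R ({0}ᶜ : Set (E n)) →
      (k ≠ n → ∃ b, c - dT R _ b ∈ CH R ({0}ᶜ : Set (E n))) ∧
      (k = n → ∃! r : R, ∃ b, c - r • castZ R _ o - dT R _ b ∈ CH R ({0}ᶜ : Set (E n)))

/-- Cycles and boundaries over a flat extension of the integers. -/
def FlatStmt : Prop :=
  ∀ (S : Type) [Field S] [CharZero S] (X : Type) [TopologicalSpace X] (A B : Set X) (k : ℕ),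
    (∀ z ∈ CC S A k, dT S X z ∈ CH S B → z ∈ Submodule.span S
      (castZ S X '' {y | y ∈ CC ℤ A k ∧ dT ℤ X y ∈ CH ℤ B})) ∧
    ∀ y : Tot ℤ X, (∃ b ∈ CH S A, castZ S X y - dT S X b ∈ CH S B) →
      ∃ n : ℤ, n ≠ 0 ∧ ∃ b ∈ CH ℤ A, n • y - dT ℤ X b ∈ CH ℤ B

/-- The homology of the complement of a flat closed set of codimension `q`. -/
def LemAStmt : Prop :=
  ∀ (R : Type) [CommRing R] (M P Q : Type) [TopologicalSpace M] [NormedAddCommGroup P]
    [NormedSpace ℝ P] [NormedAddCommGroup Q] [NormedSpace ℝ Q] [FiniteDimensional ℝ Q]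
    (S : Set M) (𝒜 : Set (OpenPartialHomeomorph M (P × Q))), IsClosed S →
    (∀ e ∈ 𝒜, ∀ x ∈ e.source, x ∈ S ↔ (e x).2 = 0) → (∀ x ∈ S, ∃ e ∈ 𝒜, x ∈ e.source) →
    ∀ W, IsOpen W → ∀ k, ∀ c ∈ CC R W k, dT R M c ∈ CH R Sᶜ →
      (k < Module.finrank ℝ Q → ∃ b ∈ CH R W, c - dT R M b ∈ CH R Sᶜ) ∧
      (k = Module.finrank ℝ Q → ∃ c' ∈ Submodule.span R {y | ∃ e ∈ 𝒜, ∃ (x : P) (ρ : ℝ),
          (∀ w ∈ ball (0 : Q) ρ, (x, w) ∈ e.target ∧ e.symm (x, w) ∈ W) ∧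
          ∃ c₀ ∈ CC R (ball (0 : Q) ρ) k, dT R Q c₀ ∈ CH R ({0}ᶜ : Set Q) ∧
            y = psh R (fun w => e.symm (x, w)) c₀},
        ∃ b ∈ CH R W, c - c' - dT R M b ∈ CH R Sᶜ)

/-! ### Covers -/

def CovStmt : Prop :=
  ∀ (G X Y : Type) [Group G] [TopologicalSpace X] [TopologicalSpace Y] [MulAction G Y]
    [ContinuousConstSMul G Y] (Z : Set X) (p : Y → X), GCov G Z p →
    IsOpen Z ∧ IsLocalHomeomorph p ∧ IsCoveringMapOn p Z ∧ (∀ x ∈ Z, ∃ y, p y = x) ∧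
    (T2Space X → T2Space Y ∧ ∀ K K' : Set Y, IsCompact K → IsCompact K' →
      {g : G | ∃ y ∈ K, g • y ∈ K'}.Finite)

/-- Equivariant lifting of homotopies. -/
def HLStmt : Prop :=
  ∀ (G X Y : Type) [Group G] [TopologicalSpace X] [TopologicalSpace Y] [MulAction G Y]
    [ContinuousConstSMul G Y] (Z : Set X) (p : Y → X), GCov G Z p →
    ∀ (A : Set X) (H : ℝ × X → X), ContinuousOn H (Icc 0 1 ×ˢ (A ∩ Z)) →
    MapsTo H (Icc 0 1 ×ˢ (A ∩ Z)) Z → (∀ x ∈ A ∩ Z, H (0, x) = x) →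
    ∃ H' : ℝ × Y → Y, ContinuousOn H' (Icc 0 1 ×ˢ (p ⁻¹' A)) ∧ (∀ y, H' (0, y) = y) ∧
      (∀ θ ∈ Icc (0 : ℝ) 1, ∀ y ∈ p ⁻¹' A, p (H' (θ, y)) = H (θ, p y)) ∧
      ∀ (g : G) θ y, H' (θ, g • y) = g • H' (θ, y)

/-- Sections over contractible sets. -/
def SecStmt : Prop :=
  ∀ (G X Y : Type) [Group G] [TopologicalSpace X] [TopologicalSpace Y] [MulAction G Y]
    [ContinuousConstSMul G Y] (Z : Set X) (p : Y → X), GCov G Z p →
    ∀ (A : Set X) (x : X), A ⊆ Z → Ctr A x → ∀ y, p y ∈ A →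
    ∃ σ : X → Y, ContinuousOn σ A ∧ (∀ x ∈ A, p (σ x) = x) ∧ σ (p y) = y ∧
      (IsOpen A → IsOpen (σ '' A))

/-- Chains lift, and the kernel of the projection for a cyclic group. -/
def LiftStmt : Prop :=
  ∀ (R : Type) [CommRing R] (G X Y : Type) [Group G] [TopologicalSpace X] [TopologicalSpace Y]
    [MulAction G Y] [ContinuousConstSMul G Y] (Z : Set X) (p : Y → X), GCov G Z p →
    (∀ k, ∀ c ∈ CC R Z k, ∃ c' ∈ DG R Y k, psh R p c' = c) ∧
    ∀ t : G, (∀ g : G, ∃ n : ℤ, g = t ^ n) → ∀ k, ∀ c ∈ DG R Y k, psh R p c = 0 →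
      ∃ w ∈ DG R Y k, c = gs R Y t w - w

/-- Chains are torsion free. -/
def TfStmt : Prop :=
  ∀ (R : Type) [CommRing R] [IsDomain R] (G Y : Type) [Group G] [TopologicalSpace Y]
    [MulAction G Y] [ContinuousConstSMul G Y] (s : G), (∀ (n : ℤ) (y : Y), s ^ n • y = y → n = 0) →
    ∀ a : Lam R, a ≠ 0 → ∀ c : Tot R Y, (act R Y s a c = 0 → c = 0) ∧
      (∀ A, Inv s A → act R Y s a c ∈ CH R A → c ∈ CH R A) ∧
      ∀ k, act R Y s a c ∈ DG R Y k → c ∈ DG R Y k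

/-- The transfer of a finite cover. -/
def TrStmt : Prop :=
  ∀ (R : Type) [CommRing R] (G X Y : Type) [Group G] [Finite G] [TopologicalSpace X]
    [TopologicalSpace Y] [MulAction G Y] [ContinuousConstSMul G Y] (p : Y → X), GCov G univ p →
    ∃ tr : Tot R X →ₗ[R] Tot R Y, Function.Injective tr ∧
      (∀ c, tr (psh R p c) = ∑ᶠ g : G, gs R Y g c) ∧ (∀ c, dT R Y (tr c) = tr (dT R X c)) ∧
      (∀ k, ∀ c, tr c ∈ DG R Y k ↔ c ∈ DG R X k) ∧
      (∀ c, (∀ g : G, gs R Y g c = c) ↔ c ∈ LinearMap.range tr) ∧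
      ∀ (f : X → X) (f' : Y ≃ₜ Y), Continuous f → (∀ y, p (f' y) = f (p y)) →
        (∀ g : G, ∃ g' : G, ∀ y, f' (g • y) = g' • f' y) →
        ∀ c, psh R f' (tr c) = tr (psh R f c)

/-- The rotation about the surface. -/
def RotStmt : Prop :=
  ∀ (R : Type) [CommRing R] (G X Y : Type) [Group G] [TopologicalSpace X] [TopologicalSpace Y]
    [MulAction G Y] [ContinuousConstSMul G Y] (F : Set X) (p : Y → X) (s : G), TC F p s →
    ∀ (e : OpenPartialHomeomorph X (ℂ × ℂ)) (B : Set (ℂ × ℂ)), FlatCh F e → IsOpen B →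
    B ⊆ e.target → DiscCl B → ∃ H : Module.End R (Tot R Y),
      (∀ c, H (gs R Y s c) = gs R Y s (H c)) ∧ (∀ k, ∀ c ∈ DG R Y k, H c ∈ DG R Y (k + 1)) ∧
      (∀ B' ⊆ B, RotInv B' → ∀ c ∈ CH R (p ⁻¹' (e.symm '' B')),
        H c ∈ CH R (p ⁻¹' (e.symm '' B'))) ∧
      ∀ c ∈ CH R (p ⁻¹' (e.symm '' B)), dT R Y (H c) + H (dT R Y c) = gs R Y s c - c

/-- Deformation along the levels of the shell. -/
def RetrStmt : Prop :=
  ∀ (κ : Kit) (K : Set (E 4)) (ι : E 4 ≃ₗᵢ[ℝ] E 4) (Γ : Geo κ K ι) (G Y : Type) [Group G]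
    [TopologicalSpace Y] [MulAction G Y] [ContinuousConstSMul G Y] (p : Y → Γ.X) (s : G),
    GCov G Γ.Fᶜ p → ∀ hf : ∀ y, (Γ.h ∘ p) (s • y) = (Γ.h ∘ p) y,
    (∀ a' a b b' : ℝ, -1 ≤ a' → a' ≤ a → a < b → b ≤ b' → b' ≤ 1 →
      Retr (dTw ℂ Y s) (lvTw ℂ s (Γ.h ∘ p) hf) (Ioo a' b') (Ioo a b)) ∧
    ∀ b b' : ℝ, -1 < b → b ≤ b' → b' ≤ 1 →
      Retr (dTw ℂ Y s) (lvTw ℂ s (Γ.h ∘ p) hf) (Iio b') (Iio b)

/-- The infinite cyclic cover and the lift of the involution. -/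
def Pack1Stmt : Prop :=
  ∀ (κ : Kit) (X : Type) [TopologicalSpace X] [T2Space X] [ChartedSpace (E 4) X]
    (o : Orientation4 X) (F : Set X) (n : ℕ) (φ : Tot ℤ X →ₗ[ℤ] ℤ) (I : X ≃ₜ X), Flat F →
    XPack κ o F n φ → (∀ x, I (I x) = x) → (∀ x, I x ∈ F ↔ x ∈ F) →
    ∃ (Y : Type) (_ : TopologicalSpace Y) (_ : T2Space Y) (_ : MulAction (Multiplicative ℤ) Y)
      (_ : ContinuousConstSMul (Multiplicative ℤ) Y) (p : Y → X) (l : Y → ℤ),
      Pack1 F φ p (Multiplicative.ofAdd (1 : ℤ)) l ∧ ∃ (J : Y ≃ₜ Y) (ε : ℤ), (ε = 1 ∨ ε = -1) ∧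
        (∀ y, p (J y) = I (p y)) ∧ (∀ (g : Multiplicative ℤ) y, J (g • y) = g ^ ε • J y) ∧
        ∃ g : Multiplicative ℤ, ∀ y, J (J y) = g • y

/-- The metabelian cover. -/
def Pack2Stmt : Prop :=
  ∀ (X G Y A : Type) [TopologicalSpace X] [T2Space X] [ChartedSpace (E 4) X] [Group G]
    [TopologicalSpace Y] [MulAction G Y] [ContinuousConstSMul G Y] [AddCommGroup A] [Finite A]
    (F : Set X) (φ : Tot ℤ X →ₗ[ℤ] ℤ) (p : Y → X) (t : G) (l : Y → ℤ) (τ : A ≃ₗ[ℤ] A) (m : ℕ)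
    (α₀ : ZC ℤ (univ : Set Y) 1 →+ A), Pack1 F φ p t l → 0 < m → τ ^ m = 1 →
    (∀ a, τ a = a → a = 0) → (∀ z : ZC ℤ (univ : Set Y) 1, z.1 ∈ BC ℤ univ 1 → α₀ z = 0) →
    (∀ z z' : ZC ℤ (univ : Set Y) 1, z'.1 = gs ℤ Y t z.1 → α₀ z' = τ (α₀ z)) →
    ∃ (α : Tot ℤ Y →+ A) (G' Y' : Type) (_ : Group G') (_ : TopologicalSpace Y') (_ : T2Space Y')
      (_ : MulAction G' Y') (_ : ContinuousConstSMul G' Y') (q : Y' → Y)
      (j : Multiplicative A →* G') (t' : G') (l' : Y' → A),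
      Pack2 F p t τ m α q j t' l' ∧ ∀ z : ZC ℤ (univ : Set Y) 1, α z.1 = α₀ z

/-! ### The intersection pairing -/

def ThomExStmt : Prop :=
  ∀ (X Y : Type) [TopologicalSpace X] [T2Space X] [ChartedSpace (E 4) X] [TopologicalSpace Y]
    [T2Space Y] (o : Orientation4 X) (q : Y → X), IsLocalHomeomorph q → ∃ τ, IsThom o q τ

/-- An invariant Thom cocycle. -/
def ThomInvStmt : Prop :=
  ∀ (X G Y : Type) [TopologicalSpace X] [T2Space X] [ChartedSpace (E 4) X] [Group G]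
    [TopologicalSpace Y] [T2Space Y] [MulAction G Y] [ContinuousConstSMul G Y]
    (o : Orientation4 X) (F : Set X) (p : Y → X) (s : G) (A : Subgroup G), TC F p s → Finite A →
    ∃ τ, IsThom o p τ ∧ ThomInv τ (fun y => s • y) ∧ ∀ a ∈ A, ThomInv τ fun y => a • y

def PairStmt : Prop :=
  ∀ (κ : Kit) (X G Y : Type) [TopologicalSpace X] [T2Space X] [ChartedSpace (E 4) X] [Group G]
    [TopologicalSpace Y] [T2Space Y] [MulAction G Y] [ContinuousConstSMul G Y]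
    (o : Orientation4 X) (F : Set X) (p : Y → X) (s : G) (τ : TS (Y × Y) → ℝ), TC F p s →
    IsThom o p τ → ThomInv τ (fun y => s • y) → Pair o p s (beta κ τ) ∧
      ∀ g : G, ThomInv τ (fun y => g • y) →
        ∀ u v, beta κ τ (gs ℂ Y g u) (gs ℂ Y g v) = beta κ τ u v

/-- Invariance under a lift of an orientation preserving homeomorphism. -/
def InvStmt : Prop :=
  ∀ (κ : Kit) (X G Y : Type) [TopologicalSpace X] [T2Space X] [ChartedSpace (E 4) X] [Group G]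
    [TopologicalSpace Y] [T2Space Y] [MulAction G Y] [ContinuousConstSMul G Y]
    (o : Orientation4 X) (F : Set X) (p : Y → X) (s : G) (τ : TS (Y × Y) → ℝ) (I : X ≃ₜ X)
    (J : Y ≃ₜ Y), TC F p s → IsThom o p τ → ThomInv τ (fun y => s • y) → OriPres o I →
    (∀ y, p (J y) = I (p y)) → (∀ y, J (s • y) = s⁻¹ • J y) →
    ∃ E₁ E₂, LK s E₁ ∧ LK s E₂ ∧ ∀ u ∈ DG ℂ Y 2, ∀ v ∈ DG ℂ Y 2,
      beta κ τ (psh ℂ J u) (psh ℂ J v) - beta κ τ u v = E₁ (dT ℂ Y u) v + E₂ u (dT ℂ Y v)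

/-- Comparison of the pairings of a cover and of its base. -/
def CompStmt : Prop :=
  ∀ (κ : Kit) (X X' G Y Y' : Type) [TopologicalSpace X] [T2Space X] [ChartedSpace (E 4) X]
    [TopologicalSpace X'] [T2Space X'] [ChartedSpace (E 4) X'] [Group G]
    [TopologicalSpace Y] [T2Space Y] [TopologicalSpace Y'] [T2Space Y'] [MulAction G Y]
    [ContinuousConstSMul G Y] (o : Orientation4 X) (o' : Orientation4 X') (p : Y → X)
    (p' : Y' → X') (q : Y → Y') (τ : TS (Y × Y) → ℝ) (τ' : TS (Y' × Y') → ℝ),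
    IsLocalHomeomorph p → IsLocalHomeomorph p' → IsLocalHomeomorph q →
    (∀ (g : G) y, p (g • y) = p y) → (∀ y c r, LocDeg o' (p' ∘ q) y c r → LocDeg o p y c r) →
    (∀ (g : G) (y : Y), g • y = y → g = 1) → (∀ y y', q y = q y' ↔ ∃ g : G, y' = g • y) →
    (∀ K K' : Set Y, IsCompact K → IsCompact K' → {g : G | ∃ y ∈ K, g • y ∈ K'}.Finite) →
    IsThom o p τ → IsThom o' p' τ' → ∀ u ∈ ZC ℂ univ 2, ∀ v ∈ ZC ℂ univ 2,
      ∑ᶠ g : G, beta κ τ u (gs ℂ Y g v) = beta κ τ' (psh ℂ q u) (psh ℂ q v)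

/-- The pairing computes intersection numbers. -/
def InterStmt : Prop :=
  ∀ (κ : Kit) (X : Type) [TopologicalSpace X] (o : Orientation4 X) (τ : TS (X × X) → ℝ),
    IsThom o id τ → ∀ x y n, InterNum o x y n →
      beta κ τ (castZ ℂ X (inc ℤ 2 x)) (castZ ℂ X (inc ℤ 2 y)) = n

/-- The equivariant form. -/
def LamStmt : Prop :=
  ∀ (X G Y : Type) [TopologicalSpace X] [T2Space X] [Group G] [TopologicalSpace Y]
    [MulAction G Y] [ContinuousConstSMul G Y] (F : Set X) (p : Y → X) (s : G) (b : Form Y),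
    TC F p s → LK s b → Sesq (C := Tw ℂ Y s) (lamF s b) ∧
      (∀ A B : Set Y, Inv s B → Disjoint A B → ∀ u ∈ CH ℂ A, ∀ v ∈ CH ℂ B, lamF s b u v = 0) ∧
      (∀ u v, {g : G | b u (gs ℂ Y g v) ≠ 0}.Finite) ∧
      (∀ u v n, (lamF s b u v).coeff n = b u (gs ℂ Y (s ^ n) v)) ∧
      ∀ (η : Circle) u v,
        evL η (lamF s b u v) = ∑ᶠ n : ℤ, ((η ^ n : Circle) : ℂ) * b u (gs ℂ Y (s ^ n) v)

/-- Facts on Laurent polynomials. -/
def LaurStmt : Prop :=
  IsPrincipalIdealRing (Lam ℂ) ∧ (∀ (R : Type) [CommRing R] [IsNoetherianRing R],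
    IsNoetherianRing (Lam R)) ∧ (∀ a, cj (cj a) = a) ∧
  (∀ n, cj (LaurentPolynomial.T n) = LaurentPolynomial.T (-n)) ∧
  (∀ a : ℂ, cj (LaurentPolynomial.C a) = LaurentPolynomial.C (starRingEnd ℂ a)) ∧
  (∀ (η : Circle) n, evL η (LaurentPolynomial.T n) = ((η ^ n : Circle) : ℂ)) ∧
  (∀ (η : Circle) (a : ℂ), evL η (LaurentPolynomial.C a) = a) ∧
  (∀ η a, evL η (cj a) = starRingEnd ℂ (evL η a)) ∧ (∀ η a, evL η a = 0 ↔ piL η ∣ a) ∧
  (∀ η, Prime (piL η)) ∧
  (∀ η : Circle, cj (piL η) =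
    -(LaurentPolynomial.T (-1) * LaurentPolynomial.C ((η⁻¹ : Circle) : ℂ)) * piL η) ∧
  (∀ a : Lam ℂ, Continuous fun η => evL η a) ∧
  (∀ a : Lam ℂ, a ≠ 0 → {η | evL η a = 0}.Finite) ∧
  ∀ (η : Circle) (a : Lam ℂ) (bad : Set Circle), bad.Finite → cj a = a →
    (∀ ξ ∉ bad, 0 ≤ (evL ξ a).re) → evL η a = 0 → piL η ^ 2 ∣ a

/-! ### Duality -/

def PDIStmt : Prop :=
  ∀ (X G Y : Type) [TopologicalSpace X] [T2Space X] [ChartedSpace (E 4) X] [Group G]
    [TopologicalSpace Y] [T2Space Y] [MulAction G Y] [ContinuousConstSMul G Y]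
    (o : Orientation4 X) (F : Set X) (p : Y → X) (s : G) (β : Form Y), TC F p s → Pair o p s β →
    ∀ ζ : Circle, ζ ≠ 1 → ∀ (n : ℕ) (O K : Set X), IsOpen O → IsCompact K → K ⊆ O →
    ∀ u ∈ CH ℂ (p ⁻¹' K), dT ℂ Y u ∈ Mul0 s (piL ζ ^ n) →
    (¬ ∃ w ∈ CH ℂ (p ⁻¹' O), u - dT ℂ Y w ∈ Mul0 s (piL ζ ^ n)) →
    ∃ b, dT ℂ Y b ∈ CH ℂ (p ⁻¹' Kᶜ) ⊔ Mul0 s (piL ζ ^ n) ∧ ¬ piL ζ ^ n ∣ lamF s β b u

/-- The form is unimodular away from one. -/
def UniStmt : Prop :=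
  ∀ (X G Y : Type) [TopologicalSpace X] [T2Space X] [CompactSpace X] [ChartedSpace (E 4) X]
    [Group G] [TopologicalSpace Y] [T2Space Y] [MulAction G Y] [ContinuousConstSMul G Y]
    (o : Orientation4 X) (F : Set X) (p : Y → X) (s : G) (β : Form Y), TC F p s → Pair o p s β →
    ∀ ζ : Circle, ζ ≠ 1 → ∀ f : ZT ℂ Y s 2 →ₗ[Lam ℂ] Lam ℂ,
    (∀ z : ZT ℂ Y s 2, (toTw ℂ Y s).symm z.1 ∈ BC ℂ univ 2 → f z = 0) → ∀ v, f v = 1 →
    ∃ w ∈ ZC ℂ univ 2, evL ζ (lamF s β v.1 w) ≠ 0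

def Inj0Stmt : Prop :=
  ∀ (X G Y : Type) [TopologicalSpace X] [T2Space X] [ChartedSpace (E 4) X] [Group G]
    [TopologicalSpace Y] [T2Space Y] [MulAction G Y] [ContinuousConstSMul G Y]
    (o : Orientation4 X) (F : Set X) (p : Y → X) (s : G) (β : Form Y), TC F p s → Pair o p s β →
    ∀ (ζ : Circle) (U K : Set Y), IsOpen U → Inv s U → Cocpt s K → K ⊆ U →
    ∀ u ∈ DG ℂ Y 2, dT ℂ Y u ∈ Mul0 s (piL ζ) →
    (∀ x ∈ CC ℂ U 2, dT ℂ Y x ∈ Mul0 s (piL ζ) → evL ζ (lamF s β u x) = 0) →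
    ∃ w, u - dT ℂ Y w ∈ CH ℂ Kᶜ ⊔ Mul0 s (piL ζ)

/-! ### Finiteness -/

def FGStmt : Prop :=
  ∀ (R : Type) [CommRing R] [IsNoetherianRing R] (X G Y : Type) [TopologicalSpace X] [T2Space X]
    [ChartedSpace (E 4) X] [Group G] [TopologicalSpace Y] [MulAction G Y]
    [ContinuousConstSMul G Y] (F : Set X) (p : Y → X) (s : G), TC F p s →
    ∀ L O : Set X, IsCompact L → IsOpen O → L ⊆ O → ∀ k, FGI R s (p ⁻¹' L) (p ⁻¹' O) k

/-- Near the surface the homology is killed by a power of `s - 1`. -/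
def PAStmt : Prop :=
  ∀ (R : Type) [CommRing R] (X G Y : Type) [TopologicalSpace X] [T2Space X] [Group G]
    [TopologicalSpace Y] [MulAction G Y] [ContinuousConstSMul G Y] (F : Set X) (p : Y → X)
    (s : G), TC F p s → IsCompact F → ∀ N', IsOpen N' → F ⊆ N' →
    ∃ N, IsOpen N ∧ F ⊆ N ∧ N ⊆ N' ∧ ∃ k : ℕ, ∀ z ∈ CH R (p ⁻¹' N), dT R Y z = 0 →
      ∃ b ∈ CH R (p ⁻¹' N'), ((gs R Y s - 1) ^ k) z = dT R Y b

/-- The finite cover is trivial near the surface. -/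
def KapStmt : Prop :=
  ∀ (X G Y A G' Y' : Type) [TopologicalSpace X] [T2Space X] [ChartedSpace (E 4) X] [Group G]
    [TopologicalSpace Y] [MulAction G Y] [ContinuousConstSMul G Y] [AddCommGroup A]
    [Group G'] [TopologicalSpace Y'] [MulAction G' Y'] [ContinuousConstSMul G' Y']
    (F : Set X) (φ : Tot ℤ X →ₗ[ℤ] ℤ) (p : Y → X) (t : G) (l : Y → ℤ) (τ : A ≃ₗ[ℤ] A) (m : ℕ)
    (α : Tot ℤ Y →+ A) (q : Y' → Y) (j : Multiplicative A →* G') (t' : G') (l' : Y' → A),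
    IsCompact F → Pack1 F φ p t l → Pack2 F p t τ m α q j t' l' → (∀ a, τ a = a → a = 0) →
    ∃ N, IsOpen N ∧ F ⊆ N ∧ ∃ k : Y' → A, ∀ y, p (q y) ∈ N → (∀ᶠ y' in nhds y, k y' = k y) ∧
      (∀ a, k (j (Multiplicative.ofAdd a) • y) = a + k y) ∧ k (t' ^ m • y) = k y

def Rank1Stmt : Prop :=
  ∀ (X G Y : Type) [TopologicalSpace X] [T2Space X] [CompactSpace X] [ChartedSpace (E 4) X]
    [Group G] [TopologicalSpace Y] [MulAction G Y] [ContinuousConstSMul G Y] (F : Set X)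
    (φ : Tot ℤ X →ₗ[ℤ] ℤ) (p : Y → X) (t : G) (l : Y → ℤ) (n : ℕ), Pack1 F φ p t l →
    Dep0 (ZMod 2) Fᶜ n → Dep (ZMod 2) Y t ∅ n

def Rank2Stmt : Prop :=
  ∀ (X G Y : Type) [TopologicalSpace X] [T2Space X] [CompactSpace X] [ChartedSpace (E 4) X]
    [Group G] [TopologicalSpace Y] [MulAction G Y] [ContinuousConstSMul G Y] (F : Set X)
    (p : Y → X) (s : G) (B : Subgroup G) (n : ℕ), TC F p s → Finite B →
    Dep (ZMod 2) Y s B n → Dep ℂ Y s B n

def Rank3Stmt : Prop :=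
  ∀ (X G Y A G' Y' : Type) [TopologicalSpace X] [Group G]
    [TopologicalSpace Y] [MulAction G Y] [ContinuousConstSMul G Y] [AddCommGroup A] [Finite A]
    [Group G'] [TopologicalSpace Y'] [MulAction G' Y'] [ContinuousConstSMul G' Y']
    (F : Set X) (p : Y → X) (t : G) (τ : A ≃ₗ[ℤ] A) (m : ℕ)
    (α : Tot ℤ Y →+ A) (q : Y' → Y) (j : Multiplicative A →* G') (t' : G') (l' : Y' → A) (n r : ℕ),
    Pack2 F p t τ m α q j t' l' → 0 < m → Nat.card A = 2 ^ r → Dep (ZMod 2) Y t ∅ n →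
    ∀ B : AddSubgroup A,
      Dep (ZMod 2) Y' (t' ^ m) (B.toSubgroup.map j : Subgroup G') (B.index * (m * n))

/-! ### Positivity -/

def PsdAlgStmt : Prop :=
  ∀ (H : Type) [AddCommGroup H] [Module (Lam ℂ) H] (B : Submodule (Lam ℂ) H) (l : H → H → Lam ℂ)
    (n : ℕ), Module.Finite (Lam ℂ) (H ⧸ B) → Sesq l → (∀ u v, cj (l u v) = l v u) →
    (∀ u ∈ B, ∀ v, l u v = 0) →
    (∀ ζ : Circle, ζ ≠ 1 → ∀ f : H →ₗ[Lam ℂ] Lam ℂ, (∀ z ∈ B, f z = 0) → ∀ v, f v = 1 →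
      ∃ w, evL ζ (l v w) ≠ 0) →
    (∀ z : Fin (n + 1) → H, ∃ a : Fin (n + 1) → Lam ℂ, a ≠ 0 ∧ ∑ i, a i • z i ∈ B) →
    (∃ u : Fin n → H, ∀ i j, evL 1 (l (u i) (u j)) = if i = j then 1 else 0) →
    (∃ v : Fin n → H, ∀ η : Circle, ∀ a : Fin n → ℂ, a ≠ 0 →
      0 < (evL η (l (∑ i, (LaurentPolynomial.C (a i) : Lam ℂ) • v i)
        (∑ i, (LaurentPolynomial.C (a i) : Lam ℂ) • v i))).re) ∧
    ∀ (η : Circle) z, 0 ≤ (evL η (l z z)).re

def Psd1Stmt : Prop :=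
  ∀ (κ : Kit) (X G Y : Type) [TopologicalSpace X] [T2Space X] [CompactSpace X]
    [ChartedSpace (E 4) X] [Group G] [TopologicalSpace Y] [T2Space Y] [MulAction G Y]
    [ContinuousConstSMul G Y] (o : Orientation4 X) (F : Set X) (n : ℕ) (φ : Tot ℤ X →ₗ[ℤ] ℤ)
    (p : Y → X) (t : G) (l : Y → ℤ) (τ : TS (Y × Y) → ℝ), XPack κ o F n φ → Pack1 F φ p t l →
    IsThom o p τ → ThomInv τ (fun y => t • y) → Pos1 t (beta κ τ) n ∧ Psd t (beta κ τ)

/-- The linear algebra of a tower of double covers. -/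
def TowerStmt : Prop :=
  ∀ (V A : Type) [AddCommGroup V] [Module ℂ V] [AddCommGroup A] [Finite A]
    (b : V →ₗ[ℂ] V →ₗ⋆[ℂ] ℂ) (ρ : Multiplicative A →* Module.End ℂ V) (n r : ℕ),
    Nat.card A = 2 ^ r → (∀ u v, starRingEnd ℂ (b u v) = b v u) →
    (∀ a u v, b (ρ a u) (ρ a v) = b u v) →
    (∃ v : Fin n → V, (∀ i a, ρ a (v i) = v i) ∧ ∀ a : Fin n → ℂ, a ≠ 0 →
      0 < (b (∑ i, a i • v i) (∑ i, a i • v i)).re) →
    (∀ (B : AddSubgroup A) (z : Fin (B.index * n + 1) → V),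
      (∀ i, ∀ a ∈ B, ρ (Multiplicative.ofAdd a) (z i) = z i) →
      ∃ a : Fin (B.index * n + 1) → ℂ, a ≠ 0 ∧ ∀ v, b (∑ i, a i • z i) v = 0) →
    (∀ B' B : AddSubgroup A, B' ≤ B → B'.relIndex B = 2 → ∃ M₁ M₂ : Submodule ℂ V,
      (∀ a ∈ B', ∀ x ∈ M₁, ρ (Multiplicative.ofAdd a) x ∈ M₁) ∧
      (∀ a ∈ B, a ∉ B' → ∀ x ∈ M₁, ρ (Multiplicative.ofAdd a) x ∈ M₂) ∧
      (∀ a ∈ B, a ∉ B' → ∀ x ∈ M₂, ρ (Multiplicative.ofAdd a) x ∈ M₁) ∧
      (∀ x ∈ M₁, ∀ y ∈ M₂, b x y = 0) ∧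
      ∀ u, (∀ x ∈ M₁, b u x = 0) → ∃ u' ∈ M₂, ∀ v, b (u - u') v = 0) →
    ∀ v, 0 ≤ (b v v).re

/-- Cutting the cover along the zero set of an anti-invariant function. -/
def NovStmt : Prop :=
  ∀ (X G Y A G' Y' : Type) [TopologicalSpace X] [T2Space X] [CompactSpace X]
    [ChartedSpace (E 4) X] [IsManifold (𝓡 4) ∞ X] [Group G]
    [TopologicalSpace Y] [MulAction G Y] [ContinuousConstSMul G Y] [AddCommGroup A] [Finite A]
    [Group G'] [TopologicalSpace Y'] [T2Space Y'] [MulAction G' Y'] [ContinuousConstSMul G' Y']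
    (o : Orientation4 X) (F : Set X) (φ : Tot ℤ X →ₗ[ℤ] ℤ) (p : Y → X) (t : G) (l : Y → ℤ)
    (τ : A ≃ₗ[ℤ] A) (m : ℕ) (α : Tot ℤ Y →+ A) (q : Y' → Y) (j : Multiplicative A →* G') (t' : G')
    (l' : Y' → A) (β : Form Y'), Pack1 F φ p t l → Pack2 F p t τ m α q j t' l' →
    (∀ a, τ a = a → a = 0) → Pair o (p ∘ q) (t' ^ m) β →
    ∀ B' B : AddSubgroup A, B' ≤ B → B'.relIndex B = 2 → ∃ f : Y' → ℝ,
      (∀ y, f (t' ^ m • y) = f y) ∧ (∀ a ∈ B', ∀ y, f (j (Multiplicative.ofAdd a) • y) = f y) ∧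
      (∀ a ∈ B, a ∉ B' → ∀ y, f (j (Multiplicative.ofAdd a) • y) = -f y) ∧
      ∀ ζ : Circle, ζ ≠ 1 → ∀ u ∈ DG ℂ Y' 2, dT ℂ Y' u ∈ Mul0 (t' ^ m) (piL ζ) →
        (∀ x ∈ CC ℂ {y | 0 < f y} 2, dT ℂ Y' x ∈ Mul0 (t' ^ m) (piL ζ) →
          evL ζ (lamF (t' ^ m) β u x) = 0) →
        ∃ u' ∈ CC ℂ {y | f y < 0} 2, ∃ w, u - u' - dT ℂ Y' w ∈ Mul0 (t' ^ m) (piL ζ)

def Psd2Stmt : Prop :=
  ∀ (κ : Kit) (X G Y A G' Y' : Type) [TopologicalSpace X] [T2Space X] [CompactSpace X]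
    [ChartedSpace (E 4) X] [IsManifold (𝓡 4) ∞ X] [Group G]
    [TopologicalSpace Y] [T2Space Y] [MulAction G Y] [ContinuousConstSMul G Y] [AddCommGroup A]
    [Finite A] [Group G'] [TopologicalSpace Y'] [T2Space Y'] [MulAction G' Y']
    [ContinuousConstSMul G' Y'] (o : Orientation4 X) (F : Set X) (φ : Tot ℤ X →ₗ[ℤ] ℤ) (p : Y → X)
    (t : G) (l : Y → ℤ) (τ : A ≃ₗ[ℤ] A) (m : ℕ) (α : Tot ℤ Y →+ A) (q : Y' → Y)
    (j : Multiplicative A →* G') (t' : G') (l' : Y' → A) (n r : ℕ) (τ₁ : TS (Y × Y) → ℝ)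
    (τ₂ : TS (Y' × Y') → ℝ), Pack1 F φ p t l → Pack2 F p t τ m α q j t' l' → 0 < m →
    Nat.card A = 2 ^ r → (∀ a, τ a = a → a = 0) → Dep0 (ZMod 2) Fᶜ n →
    IsThom o p τ₁ → ThomInv τ₁ (fun y => t • y) → Pos1 t (beta κ τ₁) n →
    IsThom o (p ∘ q) τ₂ → ThomInv τ₂ (fun y => t' ^ m • y) →
    (∀ a, ThomInv τ₂ fun y => j a • y) → Psd (t' ^ m) (beta κ τ₂)

/-! ### The double -/

def NegStmt : Prop := ∀ K, ZeroSign (-1) K → ZeroSign 1 K

def SliceZeroStmt : Prop := ∀ K, K ⊆ sphere 0 1 → Slice K → ZeroSign 1 K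

def DblStmt : Prop :=
  ∀ (κ : Kit) (K : Set (E 4)) (ι : E 4 ≃ₗᵢ[ℝ] E 4), K ⊆ sphere 0 1 → (∀ x, ι (ι x) = x) →
    LinearMap.det (ι.toLinearEquiv : E 4 →ₗ[ℝ] E 4) = -1 → ι '' K = K → ZeroSign 1 K →
    Nonempty (Geo κ K ι)

def XPStmt : Prop :=
  ∀ (κ : Kit) (K : Set (E 4)) (ι : E 4 ≃ₗᵢ[ℝ] E 4) (Γ : Geo κ K ι),
    ∃ φ, XPack κ Γ.o Γ.F (2 * Γ.k) φ

/-! ### The Dehn presentation -/

def DehnStmt : Prop :=
  ∀ (G X Y Reg Cr : Type) [Group G] [TopologicalSpace X] [TopologicalSpace Y] [MulAction G Y]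
    [ContinuousConstSMul G Y] [Finite Reg] [Finite Cr] [Nonempty Reg] (Z O : Set X) (p : Y → X)
    (reg : Cr → Fin 4 → Reg) (D : DehnData O reg) (σU σL : X → Y) (h : Reg → G),
    GCov G Z p → O ⊆ Z → DehnSec D p σU σL h →
    DehnMap (p ⁻¹' O) reg h (D.ell σU σL h) (σU D.n) (σL D.s)

/-- The action of a lifted symmetry on the Dehn complex. -/
def DehnSymStmt : Prop :=
  ∀ (G X Y Reg Cr : Type) [Group G] [TopologicalSpace X] [TopologicalSpace Y] [MulAction G Y]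
    [ContinuousConstSMul G Y] (Z O : Set X) (p : Y → X)
    (reg : Cr → Fin 4 → Reg) (D : DehnData O reg) (σU σL : X → Y) (h : Reg → G) (I : X → X)
    (ρ : Reg → Reg) (J : Y → Y) (θ : G →* G), GCov G Z p → O ⊆ Z → DehnSec D p σU σL h →
    D.Sym I ρ → Continuous J → (∀ y, p (J y) = I (p y)) → (∀ g y, J (g • y) = θ g • J y) →
    ∃ a b : G, (∀ r, θ (h r) = a * h (ρ r) * b) ∧ ∀ x : (Reg × G) →₀ ℤ, d1A ℤ h x = 0 →
      psh ℤ J (ellC ℤ (D.ell σU σL h) x) -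
        ellC ℤ (D.ell σU σL h) (x.mapDomain fun z => (ρ z.1, θ z.2 * a)) ∈ BC ℤ (p ⁻¹' O) 1

/-- Transport of the diagram to the double. -/
def DehnPushStmt : Prop :=
  ∀ (κ : Kit) (K : Set (E 4)) (ι : E 4 ≃ₗᵢ[ℝ] E 4) (Γ : Geo κ K ι) (Reg Cr : Type)
    (reg : Cr → Fin 4 → Reg) (ρ : Reg → Reg) (D : DehnData (shellO K) reg), D.Sym (invS ι) ρ →
    ∃ D' : DehnData (Γ.h ⁻¹' Ioo (-1) 1 ∩ Γ.Fᶜ) reg, D'.Sym Γ.I ρ

def KnotStmt : Prop :=
  ∃ (K : LongKnot) (ι : E 4 ≃ₗᵢ[ℝ] E 4) (Reg Cr : Type) (_ : Finite Reg) (_ : Finite Cr)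
    (reg : Cr → Fin 4 → Reg) (ρ : Reg → Reg) (D : DehnData (shellO (closeUp K.f)) reg),
    Slice (closeUp (sumCurve K K)) ∧ (∀ x, ι (ι x) = x) ∧
    LinearMap.det (ι.toLinearEquiv : E 4 →ₗ[ℝ] E 4) = -1 ∧ ι '' closeUp K.f = closeUp K.f ∧
    (∀ x ∈ closeUp K.f, ι x ≠ x) ∧ D.Sym (invS ι) ρ ∧ Nonempty (Cert reg ρ)

/-! ### The algebraic shadow -/

def ASStmt : Prop :=
  ∀ (κ : Kit) (K : Set (E 4)) (ι : E 4 ≃ₗᵢ[ℝ] E 4) (Γ : Geo κ K ι) (G Y : Type) [Group G]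
    [TopologicalSpace Y] [T2Space Y] [MulAction G Y] [ContinuousConstSMul G Y] (p : Y → Γ.X)
    (s : G) (β : Form Y), TC Γ.F p s → Pair Γ.o p s β → Psd s β →
    ∀ hf : ∀ y, (Γ.h ∘ p) (s • y) = (Γ.h ∘ p) y,
      IsAS (dTw ℂ Y s) (lvTw ℂ s (Γ.h ∘ p) hf) (lamF s β)

def A3Stmt : Prop :=
  ∀ (C : Type) [AddCommGroup C] [Module (Lam ℂ) C] (d : C →ₗ[Lam ℂ] C)
    (M : ℕ → Set ℝ → Submodule (Lam ℂ) C) (l : C → C → Lam ℂ) (J : C →+ C) (ζ : Circle),
    IsAS d M l → H0N d M → JInv d M l J → ζ ≠ 1 → Len2 d M ζ → Line d M ζ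

def ClashStmt : Prop :=
  ∀ (C : Type) [AddCommGroup C] [Module (Lam ℂ) C] (d : C →ₗ[Lam ℂ] C)
    (M : ℕ → Set ℝ → Submodule (Lam ℂ) C) (l : C → C → Lam ℂ) (e : C →ₗ[Lam ℂ] C) (ζ : Circle)
    (x : C), IsAS d M l → H0N d M → Proj d M l e → ζ ≠ 1 → Len1 d M e ζ x → False

/-! ### From the diagram to the algebra -/

def FlipStmt : Prop :=
  ∀ (κ : Kit) (X G Y : Type) [TopologicalSpace X] [Group G] [TopologicalSpace Y] [MulAction G Y]
    (o : Orientation4 X) (F : Set X) (n : ℕ) (φ : Tot ℤ X →ₗ[ℤ] ℤ) (p : Y → X) (t : G)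
    (l : Y → ℤ), XPack κ o F n φ → Pack1 F φ p t l →
    XPack κ o F n (-φ) ∧ Pack1 F (-φ) p t⁻¹ fun y => -l y

/-- Normalised sections of the infinite cyclic cover. -/
def Norm1Stmt : Prop :=
  ∀ (X G Y Reg Cr : Type) [TopologicalSpace X] [Group G] [TopologicalSpace Y] [MulAction G Y]
    [ContinuousConstSMul G Y] [Finite Reg] [Finite Cr] (F N : Set X) (φ : Tot ℤ X →ₗ[ℤ] ℤ)
    (p : Y → X) (t : G) (l : Y → ℤ) (reg : Cr → Fin 4 → Reg) (ρ : Reg → Reg)
    (D : DehnData (N ∩ Fᶜ) reg) (C : Cert reg ρ), Pack1 F φ p t l → IsOpen N →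
    (F ∩ N).Nonempty → ∃ t', (t' = t ∨ t' = t⁻¹) ∧ ∃ σU σL : X → Y,
      DehnSec D p σU σL fun r => t' ^ C.gap r

def H0Stmt : Prop :=
  ∀ (G Y Reg Cr : Type) [Group G] [TopologicalSpace Y] [MulAction G Y] [ContinuousConstSMul G Y]
    (f : Y → ℝ) (t : G) (m : ℕ) (hf : ∀ y, f (t ^ m • y) = f y) (reg : Cr → Fin 4 → Reg)
    (h : Reg → G) (l : Reg → Tot ℤ Y) (yn ys : Y) (R0 R1 : Reg),
    DehnMap (f ⁻¹' Ioo (-1) 1) reg h l yn ys → (∀ (g : G) y, f (g • y) = f y) →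
    (∀ g, g * t ^ m = t ^ m * g) → h R0 = 1 → h R1 = t →
    H0N (dTw ℂ Y (t ^ m)) (lvTw ℂ (t ^ m) f hf)

def Len2Stmt : Prop :=
  ∀ (G Y Reg Cr : Type) [Group G] [TopologicalSpace Y] [MulAction G Y] [ContinuousConstSMul G Y]
    (f : Y → ℝ) (t : G) (hf : ∀ y, f (t • y) = f y) (reg : Cr → Fin 4 → Reg) (gap : Reg → ℤ)
    (l : Reg → Tot ℤ Y) (yn ys : Y) (ζ : Circle),
    DehnMap (f ⁻¹' Ioo (-1) 1) reg (fun r => t ^ gap r) l yn ys → (∀ g : G, ∃ n : ℤ, g = t ^ n) →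
    (∀ n : ℤ, t ^ n = 1 → n = 0) → Len2T reg gap ζ → Len2 (dTw ℂ Y t) (lvTw ℂ t f hf) ζ

def JStmt : Prop :=
  ∀ (κ : Kit) (K : Set (E 4)) (ι : E 4 ≃ₗᵢ[ℝ] E 4) (Γ : Geo κ K ι) (G Y : Type) [Group G]
    [TopologicalSpace Y] [T2Space Y] [MulAction G Y] [ContinuousConstSMul G Y] (p : Y → Γ.X)
    (s : G) (τ : TS (Y × Y) → ℝ) (J : Y ≃ₜ Y), TC Γ.F p s → IsThom Γ.o p τ →
    ThomInv τ (fun y => s • y) → (∀ y, p (J y) = Γ.I (p y)) → (∀ y, J (s • y) = s⁻¹ • J y) →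
    (∀ y, J (J y) = y) → ∀ hf : ∀ y, (Γ.h ∘ p) (s • y) = (Γ.h ∘ p) y,
      JInv (dTw ℂ Y s) (lvTw ℂ s (Γ.h ∘ p) hf) (lamF s (beta κ τ))
        ((cjT Y).toAddMonoidHom.comp (psh ℂ J).toAddMonoidHom)

/-- The choice of the colouring. -/
def ColStmt : Prop :=
  ∀ (G Y Reg Cr : Type) [Group G] [TopologicalSpace Y] [MulAction G Y] [ContinuousConstSMul G Y]
    (f : Y → ℝ) (t : G) (hf : ∀ y, f (t • y) = f y) (lg : G → ℤ) (reg : Cr → Fin 4 → Reg)
    (ρ : Reg → Reg) (C : Cert reg ρ) (l : Reg → Tot ℤ Y) (yn ys : Y) (J : Y → Y) (a₀ : G),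
    DehnMap (f ⁻¹' Ioo (-1) 1) reg (fun r => t ^ C.gap r) l yn ys → (∀ g : G, t ^ lg g = g) →
    (∀ n : ℤ, t ^ n = 1 → n = 0) → Continuous J →
    (∀ x : (Reg × G) →₀ ℤ, d1A ℤ (fun r => t ^ C.gap r) x = 0 →
      psh ℤ J (ellC ℤ l x) - ellC ℤ l (x.mapDomain fun z => (ρ z.1, z.2⁻¹ * a₀)) ∈
        BC ℤ (f ⁻¹' Ioo (-1) 1) 1) →
    Line (dTw ℂ Y t) (lvTw ℂ t f hf) omC →
    ∃ (c : Reg → Eis ℤ) (χ : AddChar (Eis (ZMod 8)) ℂ), IsCol reg C.gap c ∧ c C.R0 = 0 ∧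
      c C.R1 = 0 ∧ TwOK reg C.gap χ (fun r => red8 (c r)) ∧ ∀ x : (Reg × G) →₀ ℤ,
        d1A ℤ (fun r => t ^ C.gap r) x = 0 → ellC ℤ l x ∈ BC ℤ univ 1 → colE lg c x = 0

/-- Extension of a character to a finite quotient of two-power order. -/
def ExtStmt : Prop :=
  ∀ (H : Type) [AddCommGroup H] [Module (Lam ℤ) H] [Module.Finite (Lam ℤ) H]
    (M : Submodule (Lam ℤ) H) (c : M →+ Eis ℤ) (χ : AddChar (Eis (ZMod 8)) ℂ),
    (∀ y : M, c ((LaurentPolynomial.T 1 : Lam ℤ) • y) = (om ℤ : (Eis ℤ)ˣ) * c y) →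
    ∃ (A : Type) (_ : AddCommGroup A) (_ : Finite A) (r e : ℕ) (τ : A ≃ₗ[ℤ] A) (α : H →+ A)
      (ψ : AddChar A ℂ), Nat.card A = 2 ^ r ∧ τ ^ (6 * 2 ^ e) = 1 ∧ (∀ a, τ a = a → a = 0) ∧
      (∀ y, α ((LaurentPolynomial.T 1 : Lam ℤ) • y) = τ (α y)) ∧
      ∀ y : M, ψ (α y) = χ (red8 (c y))

def AlphaStmt : Prop :=
  ∀ (G Y Reg Cr : Type) [Group G] [TopologicalSpace Y] [MulAction G Y] [ContinuousConstSMul G Y]
    (O : Set Y) (t : G) (lg : G → ℤ) (reg : Cr → Fin 4 → Reg) (gap : Reg → ℤ)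
    (l : Reg → Tot ℤ Y) (yn ys : Y) (c : Reg → Eis ℤ) (χ : AddChar (Eis (ZMod 8)) ℂ),
    DehnMap O reg (fun r => t ^ gap r) l yn ys → (∀ g : G, t ^ lg g = g) →
    (∀ n : ℤ, t ^ n = 1 → n = 0) → FGI ℤ t (univ : Set Y) univ 1 →
    (∀ x : (Reg × G) →₀ ℤ, d1A ℤ (fun r => t ^ gap r) x = 0 → ellC ℤ l x ∈ BC ℤ univ 1 →
      colE lg c x = 0) →
    ∃ (A : Type) (_ : AddCommGroup A) (_ : Finite A) (r e : ℕ) (τ : A ≃ₗ[ℤ] A)
      (α₀ : ZC ℤ (univ : Set Y) 1 →+ A) (ψ : AddChar A ℂ), Nat.card A = 2 ^ r ∧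
      τ ^ (6 * 2 ^ e) = 1 ∧ (∀ a, τ a = a → a = 0) ∧
      (∀ z : ZC ℤ (univ : Set Y) 1, z.1 ∈ BC ℤ univ 1 → α₀ z = 0) ∧
      (∀ z z' : ZC ℤ (univ : Set Y) 1, z'.1 = gs ℤ Y t z.1 → α₀ z' = τ (α₀ z)) ∧
      ∀ (x : (Reg × G) →₀ ℤ) (z : ZC ℤ (univ : Set Y) 1), d1A ℤ (fun r => t ^ gap r) x = 0 →
        z.1 = ellC ℤ l x → ψ (α₀ z) = χ (red8 (colE lg c x))

/-- Normalised sections of the metabelian cover. -/
def Norm2Stmt : Prop :=
  ∀ (X G Y A G' Y' Reg Cr : Type) [TopologicalSpace X] [Group G]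
    [TopologicalSpace Y] [MulAction G Y] [ContinuousConstSMul G Y] [AddCommGroup A] [Finite A]
    [Group G'] [TopologicalSpace Y'] [MulAction G' Y'] [ContinuousConstSMul G' Y']
    (F O : Set X) (φ : Tot ℤ X →ₗ[ℤ] ℤ) (p : Y → X) (t : G) (l : Y → ℤ) (τ : A ≃ₗ[ℤ] A) (m : ℕ)
    (α : Tot ℤ Y →+ A) (q : Y' → Y) (j : Multiplicative A →* G') (t' : G') (l' : Y' → A)
    (reg : Cr → Fin 4 → Reg) (gap : Reg → ℤ) (R0 R1 : Reg) (D : DehnData O reg) (σU σL : X → Y)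
    (lg : G → ℤ) (c : Reg → Eis ℤ) (χ : AddChar (Eis (ZMod 8)) ℂ) (ψ : AddChar A ℂ),
    Pack1 F φ p t l → Pack2 F p t τ m α q j t' l' → (∀ a, τ a = a → a = 0) → O ⊆ Fᶜ →
    DehnSec D p σU σL (fun r => t ^ gap r) → gap R0 = 0 → gap R1 = 1 → c R0 = 0 → c R1 = 0 →
    (∀ g : G, t ^ lg g = g) →
    (∀ x : (Reg × G) →₀ ℤ, d1A ℤ (fun r => t ^ gap r) x = 0 →
      ψ (α (ellC ℤ (D.ell σU σL fun r => t ^ gap r) x)) = χ (red8 (colE lg c x))) →
    ∃ (a : Reg → A) (σU' σL' : X → Y'),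
      DehnSec D (p ∘ q) σU' σL' (fun r => j (Multiplicative.ofAdd (a r)) * t' ^ gap r) ∧
      a R0 = 0 ∧ a R1 = 0 ∧ ∀ r (n : ℤ),
        ψ ((τ ^ n) (a r)) = χ ((om (ZMod 8) ^ n : (Eis (ZMod 8))ˣ) * red8 (c r))

def Len1Stmt : Prop :=
  ∀ (G Y A Reg Cr : Type) [Group G] [TopologicalSpace Y] [MulAction G Y] [ContinuousConstSMul G Y]
    [AddCommGroup A] [Finite A] (f : Y → ℝ) (t : G) (m : ℕ) (hf : ∀ y, f (t ^ m • y) = f y)
    (τ : A ≃ₗ[ℤ] A) (j : Multiplicative A →* G) (reg : Cr → Fin 4 → Reg) (gap : Reg → ℤ)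
    (a : Reg → A) (l : Reg → Tot ℤ Y) (yn ys : Y) (ψ : AddChar A ℂ) (lam : Tot ℂ Y → Tot ℂ Y → Lam ℂ)
    (ζ : Circle) (x : (Reg × ℤ) →₀ ℂ),
    DehnMap (f ⁻¹' Ioo (-1) 1) reg (fun r => j (Multiplicative.ofAdd (a r)) * t ^ gap r) l yn ys →
    (∀ (g : G) y, f (g • y) = f y) → Function.Injective j →
    (∀ a, t * j (Multiplicative.ofAdd a) * t⁻¹ = j (Multiplicative.ofAdd (τ a))) →
    (∀ g, ∃ (a : A) (n : ℤ), g = j (Multiplicative.ofAdd a) * t ^ n) →
    (∀ g, g * t ^ m = t ^ m * g) → (∀ n : ℤ, (t ^ m) ^ n = 1 → n = 0) →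
    Sesq (C := Tw ℂ Y (t ^ m)) lam → (∀ a u v, lam (gs ℂ Y (j a) u) (gs ℂ Y (j a) v) = lam u v) →
    Len1T reg gap (fun r n => ψ ((τ ^ n) (a r))) m ζ x →
    ∃ (e : Tw ℂ Y (t ^ m) →ₗ[Lam ℂ] Tw ℂ Y (t ^ m)) (x' : Tw ℂ Y (t ^ m)),
      Proj (dTw ℂ Y (t ^ m)) (lvTw ℂ (t ^ m) f hf) lam e ∧
      Len1 (dTw ℂ Y (t ^ m)) (lvTw ℂ (t ^ m) f hf) e ζ x'

/-- The obstruction: there is no double. -/
def ObsStmt : Prop :=
  ∀ (κ : Kit) (K : Set (E 4)) (ι : E 4 ≃ₗᵢ[ℝ] E 4) (Reg Cr : Type) [Finite Reg] [Finite Cr]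
    (reg : Cr → Fin 4 → Reg) (ρ : Reg → Reg) (D : DehnData (shellO K) reg),
    D.Sym (invS ι) ρ → Nonempty (Cert reg ρ) → IsEmpty (Geo κ K ι)

/-- The basic facts. -/
structure Bas1 : Prop where
  kit : KitStmt
  ctr : CtrStmt
  locHom : LocHomStmt
  flat : FlatStmt
  cov : CovStmt
  hl : HLStmt
  sec : SecStmt
  lift : LiftStmt
  tf : TfStmt
  tr : TrStmt
  laur : LaurStmt
  lam : LamStmt

/-- The general theorems on covers and pairings. -/
structure Bas2 : Prop extends Bas1 where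
  lemA : LemAStmt
  rot : RotStmt
  thomEx : ThomExStmt
  thomInv : ThomInvStmt
  pair : PairStmt
  inv : InvStmt
  comp : CompStmt
  inter : InterStmt
  fg : FGStmt
  pa : PAStmt

end

end Pool.Agent.MP_bc14e1_gt

end

section

open Set Metric
open scoped Classical

namespace Pool.Agent.MP_bc14e1_gt

section
variable {R : Type} [CommRing R] {X : Type} [TopologicalSpace X]

theorem Ctr_dT (x : X) (k : ℕ) (r : R) :
    dT R X (Finsupp.single ⟨k + 1, ContinuousMap.const _ x⟩ r) =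
      if Even (k + 2) then 0 else Finsupp.single ⟨k, ContinuousMap.const _ x⟩ r := by
  have e : ∀ i : Fin (k + 2), face i (ContinuousMap.const _ x : Sing X (k + 1)) =
      ContinuousMap.const _ x := fun _ => rfl
  rw [← inc_single, dT_inc_succ, bd_single]
  simp only [e]
  rw [← Finset.sum_smul, Fin.sum_neg_one_pow, map_zsmul, inc_single]
  split_ifs <;> simp

theorem Ctr_psh (x : X) {k : ℕ} {c : Tot R X} (h : c ∈ DG R X k) :
    ∃ r : R, psh R (fun _ => x) c = Finsupp.single ⟨k, ContinuousMap.const _ x⟩ r := by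
  refine supported_ind (P := fun c => ∃ r : R,
    psh R (fun _ => x) c = Finsupp.single ⟨k, ContinuousMap.const _ x⟩ r) ⟨0, by simp⟩ ?_ ?_ h
  · rintro a b ⟨r, hr⟩ ⟨s, hs⟩
    exact ⟨r + s, by rw [map_add, hr, hs, Finsupp.single_add]⟩
  · rintro σ rfl a
    exact ⟨a, psh_single _ σ continuous_const a⟩

theorem Ctr_bd {A : Set X} {x : X} (hx : x ∈ A) (k : ℕ) (r : R)
    (h : dT R X (Finsupp.single ⟨k + 1, ContinuousMap.const _ x⟩ r) = 0) :
    (Finsupp.single ⟨k + 1, ContinuousMap.const _ x⟩ r : Tot R X) ∈ BC R A (k + 1) := by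
  by_cases hk : Even (k + 2)
  · refine ⟨Finsupp.single ⟨k + 1 + 1, ContinuousMap.const _ x⟩ r,
      ⟨single_mem_CH _ fun _ => hx, single_mem_DG _ _⟩, ?_⟩
    rw [Ctr_dT, if_neg (Nat.even_add_one.not.2 (not_not.2 hk))]
  · rw [Ctr_dT, if_neg hk, Finsupp.single_eq_zero] at h
    rw [h, Finsupp.single_zero]
    exact zero_mem _

theorem Ctr_hom (κ : Kit) {A : Set X} {x : X} (h : Ctr A x) {k : ℕ} {c : Tot R X}
    (hc : c ∈ CC R A k) (hd : dT R X c = 0) : psh R (fun _ => x) c - c ∈ BC R A k := by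
  obtain ⟨-, H, h1, h2, h3, h4⟩ := h
  have := dT_hop κ h1 hc.1
  rw [hd, map_zero, add_zero, psh_of_eqOn_id h3 hc.1,
    psh_congr (g := fun _ => x) (fun y hy => h4 y hy) hc.1] at this
  exact ⟨_, ⟨hop_mem_CH κ H h2 hc.1, hop_mem_DG κ H hc.2⟩, this⟩

end

theorem ctr_stmt (κ : Kit) : CtrStmt := by
  intro R _ X _ A x h
  refine ⟨fun k hk z hz => ?_, fun c hc => ?_⟩
  · obtain ⟨k, rfl⟩ := Nat.exists_eq_succ_of_ne_zero hk
    have hd : dT R X z = 0 := hz.2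
    obtain ⟨r, hr⟩ := Ctr_psh x hz.1.2
    have h1 := Ctr_bd h.1 k r (by rw [← hr, dT_psh_cont continuous_const, hd, map_zero])
    have h2 := sub_mem (hr ▸ h1) (Ctr_hom κ h hz.1 hd)
    rwa [sub_sub_cancel] at h2
  · have e : psh R (fun _ => x) c = val0 R (fun _ => (1 : R)) c • pt R x := by
      refine DG_zero_ind (P := fun c => psh R (fun _ => x) c =
        val0 R (fun _ => (1 : R)) c • pt R x) (by simp) (fun a b ha hb => ?_) (fun y _ a => ?_)
        hc.1 hc.2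
      · rw [map_add, map_add, ha, hb, add_smul]
      · rw [map_smul, map_smul, psh_pt, val0_pt, smul_eq_mul, mul_one]
    have := neg_mem (Ctr_hom κ h hc (dT_of_DG_zero hc.2))
    rwa [neg_sub, e] at this

end Pool.Agent.MP_bc14e1_gt

end

section

open Set Metric
open scoped Classical

namespace Pool.Agent.MP_bc14e1_gt

section Aux

open Finsupp

variable {R S X : Type} [CommRing R] [CommRing S] [TopologicalSpace X]

theorem Flat_mr_dT (f : S →+ R) (c : Tot S X) :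
    mapRange.addMonoidHom f (dT S X c) = dT R X (mapRange.addMonoidHom f c) := by
  have hs : ∀ (σ : TS X) (a : S), mapRange.addMonoidHom f (single σ a) = single σ (f a) :=
    fun σ a => mapRange_single (hf := f.map_zero)
  induction c using Finsupp.induction_linear with
  | zero => simp
  | add a b ha hb => simp only [map_add, ha, hb]
  | single σ a =>
    obtain ⟨k, σ⟩ := σ
    rw [hs, ← inc_single, ← inc_single]
    rcases k with _ | k
    · rw [dT_inc_zero, dT_inc_zero, map_zero]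
    · rw [dT_inc_succ, dT_inc_succ, bd_single, bd_single, map_sum, map_sum, map_sum]
      refine Finset.sum_congr rfl fun i _ => ?_
      rw [map_zsmul, map_zsmul, map_zsmul, inc_single, inc_single, hs]

theorem Flat_mr_mem (f : S →+ R) {T : Set (TS X)} {c : Tot S X} (h : c ∈ supported S S T) :
    mapRange.addMonoidHom f c ∈ supported R R T :=
  (mem_supported' R _).2 fun σ hσ => by
    change f (c σ) = 0
    rw [(mem_supported' S _).1 h σ hσ, map_zero]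

theorem Flat_reflect {T : Set (TS X)} {y : Tot ℤ X} (h : castZ ℚ X y ∈ supported ℚ ℚ T) :
    y ∈ supported ℤ ℤ T :=
  (mem_supported' ℤ _).2 fun σ hσ => by
    have := (mem_supported' ℚ _).1 h σ hσ
    rw [cast_apply] at this
    simpa using this

theorem Flat_den (y : Tot ℚ X) : ∃ N : ℤ, N ≠ 0 ∧ ∃ y' : Tot ℤ X, castZ ℚ X y' = (N : ℚ) • y := by
  induction y using Finsupp.induction_linear with
  | zero => exact ⟨1, one_ne_zero, 0, by simp⟩
  | add a b ha hb =>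
    obtain ⟨N, hN, a', ha⟩ := ha
    obtain ⟨M, hM, b', hb⟩ := hb
    refine ⟨N * M, mul_ne_zero hN hM, M • a' + N • b', ?_⟩
    rw [map_add, map_smulₛₗ, map_smulₛₗ, ha, hb, smul_smul, smul_smul, smul_add]
    simp [mul_comm]
  | single σ a =>
    refine ⟨a.den, by exact_mod_cast a.den_nz, single σ a.num, ?_⟩
    rw [cast_single, smul_single]
    simp [Rat.den_mul_eq_num]

end Aux

theorem flat_stmt : FlatStmt := by
  intro S _ _ X _ A B k
  refine ⟨fun z hz hd => ?_, fun y ⟨b, hb, hy⟩ => ?_⟩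
  · let e := Module.Basis.ofVectorSpace ℚ S
    let I := z.support.biUnion fun σ => (e.repr (z σ)).support
    have hsum : z = ∑ i ∈ I, e i • cast (algebraMap ℚ S) X
        (Finsupp.mapRange.addMonoidHom (e.coord i).toAddMonoidHom z) := by
      ext σ
      rw [Finsupp.finsetSum_apply]
      have h1 : (e.repr (z σ)).support ⊆ I := by
        by_cases h : σ ∈ z.support
        · exact Finset.subset_biUnion_of_mem (fun σ => (e.repr (z σ)).support) h
        · rw [Finsupp.notMem_support_iff.1 h]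
          simp
      conv_lhs => rw [← e.linearCombination_repr (z σ), Finsupp.linearCombination_apply,
        Finsupp.sum_of_support_subset _ h1 (fun i a => a • e i) (fun i _ => zero_smul _ _)]
      refine Finset.sum_congr rfl fun i _ => ?_
      rw [Algebra.smul_def, mul_comm]
      rfl
    rw [hsum]
    refine Submodule.sum_mem _ fun i _ => Submodule.smul_mem _ _ ?_
    obtain ⟨N, hN, y, hy⟩ := Flat_den (Finsupp.mapRange.addMonoidHom (e.coord i).toAddMonoidHom z)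
    have hN' : (N : S) ≠ 0 := by exact_mod_cast hN
    have h1 : cast (algebraMap ℚ S) X
        (Finsupp.mapRange.addMonoidHom (e.coord i).toAddMonoidHom z) =
        (N : S)⁻¹ • castZ S X y := by
      have h2 : castZ S X y = cast (algebraMap ℚ S) X (castZ ℚ X y) := by
        ext σ
        simp [cast_apply]
      rw [h2, hy, map_smulₛₗ, smul_smul]
      simp [hN']
    rw [h1]
    refine Submodule.smul_mem _ _ (Submodule.subset_span ⟨y, ⟨⟨?_, ?_⟩, ?_⟩, rfl⟩)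
    · exact Flat_reflect (hy ▸ Submodule.smul_mem _ _ (Flat_mr_mem _ hz.1))
    · exact Flat_reflect (hy ▸ Submodule.smul_mem _ _ (Flat_mr_mem _ hz.2))
    · refine Flat_reflect ?_
      rw [cast_dT, hy, map_smul, ← Flat_mr_dT]
      exact Submodule.smul_mem _ _ (Flat_mr_mem _ hd)
  · obtain ⟨f, hf⟩ := LinearMap.exists_leftInverse_of_injective (Algebra.linearMap ℚ S)
      (LinearMap.ker_eq_bot.2 (algebraMap ℚ S).injective)
    have h1 : Finsupp.mapRange.addMonoidHom f.toAddMonoidHom (castZ S X y) = castZ ℚ X y := by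
      ext σ
      have := LinearMap.congr_fun hf (y σ)
      change f ((y σ : ℤ) : S) = ((y σ : ℤ) : ℚ)
      simpa using this
    obtain ⟨N, hN, b', hb'⟩ := Flat_den (Finsupp.mapRange.addMonoidHom f.toAddMonoidHom b)
    refine ⟨N, hN, b', Flat_reflect (hb' ▸ Submodule.smul_mem _ _ (Flat_mr_mem _ hb)),
      Flat_reflect ?_⟩
    have h2 := Flat_mr_mem f.toAddMonoidHom hy
    rw [map_sub, h1, Flat_mr_dT] at h2
    rw [map_sub, map_smulₛₗ, cast_dT, hb', map_smul, eq_intCast, ← smul_sub]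
    exact Submodule.smul_mem _ _ h2

end Pool.Agent.MP_bc14e1_gt

end

section

open Set Metric
open scoped Classical

namespace Pool.Agent.MP_bc14e1_gt

section
open Topology Filter

variable {G X Y : Type} [Group G] [TopologicalSpace X] [TopologicalSpace Y] [MulAction G Y]
  [ContinuousConstSMul G Y] {Z : Set X} {p : Y → X}

/-- A local section through a given point. -/
theorem Cov_sec (h : GCov G Z p) (y : Y) : ∃ (U : Set X) (σ : X → Y), IsOpen U ∧ p y ∈ U ∧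
    ContinuousOn σ U ∧ (∀ x ∈ U, p (σ x) = x) ∧ IsOpen (σ '' U) ∧ σ (p y) = y := by
  obtain ⟨U, h1, h2, -, σ, h3, h4, h5⟩ := h.sec _ (h.mem y)
  obtain ⟨g, hg⟩ := h.trans _ y (h4 _ h2)
  refine ⟨U, fun x => g • σ x, h1, h2, h3.const_smul g, fun x hx => by rw [h.inv, h4 x hx], ?_,
    hg.symm⟩
  rw [← image_image (g • ·) σ]
  exact isOpenMap_smul g _ h5

theorem Cov_loc (h : GCov G Z p) : IsLocalHomeomorph p := fun y => by
  obtain ⟨U, σ, h1, h2, h3, h4, h5, h6⟩ := Cov_sec h y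
  refine ⟨⟨⟨⟨p, σ, σ '' U, U, ?_, fun x hx => mem_image_of_mem σ hx, ?_, h4⟩,
    h.cont.continuousOn, h3⟩, h5, h1⟩, ⟨_, h2, h6⟩, rfl⟩
  · rintro _ ⟨x, hx, rfl⟩
    rwa [h4 x hx]
  · rintro _ ⟨x, hx, rfl⟩
    rw [h4 x hx]

/-- A neighbourhood that is disjoint from its translates. -/
theorem Cov_nhds (h : GCov G Z p) (y : Y) :
    ∃ V ∈ 𝓝 y, ∀ g : G, ∀ a ∈ V, g • a ∈ V → g = 1 := by
  obtain ⟨U, σ, -, h2, -, h4, h5, h6⟩ := Cov_sec h y
  refine ⟨σ '' U, h5.mem_nhds ⟨_, h2, h6⟩, ?_⟩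
  rintro g _ ⟨x, hx, rfl⟩ ⟨x', hx', e⟩
  have : x' = x := by rw [← h4 x' hx', e, h.inv, h4 x hx]
  exact h.free g _ (by rw [← e, this])

omit [ContinuousConstSMul G Y] in
theorem Cov_surj (h : GCov G Z p) (x : X) (hx : x ∈ Z) : ∃ y, p y = x :=
  let ⟨_, _, h2, _, σ, _, h4, _⟩ := h.sec x hx; ⟨σ x, h4 x h2⟩

theorem Cov_cov (h : GCov G Z p) : IsCoveringMap fun y => (⟨p y, h.mem y⟩ : Z) := by
  refine IsQuotientCoveringMap.isCoveringMap _ G
    { toIsQuotientMap := ((Cov_loc h).isOpenMap.subtype_mk h.mem).isQuotientMap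
        (h.cont.subtype_mk h.mem) fun x => (Cov_surj h x x.2).imp fun _ e => Subtype.ext e
      continuous_const_smul := continuous_const_smul
      apply_eq_iff_mem_orbit := fun {a b} => ⟨fun e => ?_, ?_⟩
      disjoint := fun y => ?_ }
  · obtain ⟨g, hg⟩ := h.trans b a (congrArg Subtype.val e).symm
    exact ⟨g, hg.symm⟩
  · rintro ⟨g, rfl⟩
    exact Subtype.ext (h.inv g b)
  · obtain ⟨V, h1, h2⟩ := Cov_nhds h y
    refine ⟨V, h1, ?_⟩
    rintro g ⟨_, ⟨a, ha, rfl⟩, hb⟩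
    exact h2 g a ha hb

theorem Cov_t2 [T2Space X] (h : GCov G Z p) : T2Space Y := ⟨fun a b hab => by
  by_cases e : p a = p b
  · exact (Cov_cov h).isSeparatedMap a b (Subtype.ext e) hab
  · exact separated_by_continuous h.cont e⟩

theorem Cov_fin [T2Space X] (h : GCov G Z p) {S : Set (Y × Y)} (hS : IsCompact S) :
    {g : G | ∃ q ∈ S, g • q.1 = q.2}.Finite := by
  refine hS.induction_on (p := fun S => {g : G | ∃ q ∈ S, g • q.1 = q.2}.Finite) (by simp)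
    (fun A B hAB hB => hB.subset fun g ⟨q, h1, h2⟩ => ⟨q, hAB h1, h2⟩)
    (fun A B hA hB => (hA.union hB).subset ?_) ?_
  · rintro g ⟨q, h1 | h1, h2⟩
    exacts [.inl ⟨q, h1, h2⟩, .inr ⟨q, h1, h2⟩]
  · rintro ⟨a, b⟩ -
    by_cases e : p a = p b
    · obtain ⟨g, rfl⟩ := h.trans a b e
      obtain ⟨V, h1, h2⟩ := Cov_nhds h a
      refine ⟨V ×ˢ ((g⁻¹ • ·) ⁻¹' V), mem_nhdsWithin_of_mem_nhds (prod_mem_nhds h1
        ((continuous_const_smul g⁻¹).continuousAt.preimage_mem_nhds (by rwa [inv_smul_smul]))),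
        (finite_singleton g).subset ?_⟩
      rintro k ⟨q, ⟨q1, q2⟩, q3⟩
      exact (inv_mul_eq_one.1 (h2 (g⁻¹ * k) q.1 q1 (by rwa [mul_smul, q3]))).symm
    · refine ⟨{q | p q.1 ≠ p q.2}, mem_nhdsWithin_of_mem_nhds ((isOpen_ne_fun
        (h.cont.comp continuous_fst) (h.cont.comp continuous_snd)).mem_nhds e),
        finite_empty.subset ?_⟩
      rintro k ⟨q, q1, q2⟩
      exact q1 (by rw [← q2, h.inv])

end

theorem cov_stmt : CovStmt := by
  intro G X Y _ _ _ _ _ Z p h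
  have hZ : IsOpen Z := isOpen_iff_forall_mem_open.2 fun x hx =>
    let ⟨U, h1, h2, h3, _⟩ := h.sec x hx; ⟨U, h3, h1, h2⟩
  refine ⟨hZ, Cov_loc h, .of_isCoveringMap_subtype hZ h.mem (Cov_cov h), Cov_surj h,
    fun _ => ⟨Cov_t2 h, fun K K' hK hK' => (Cov_fin h (hK.prod hK')).subset ?_⟩⟩
  rintro g ⟨y, h1, h2⟩
  exact ⟨(y, g • y), ⟨h1, h2⟩, rfl⟩

end Pool.Agent.MP_bc14e1_gt

end

section

open Set Metric
open scoped Classical

namespace Pool.Agent.MP_bc14e1_gt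

theorem HL_cov {X Y : Type} [TopologicalSpace X] [TopologicalSpace Y] {Z : Set X} {p : Y → X}
    (hm : ∀ y, p y ∈ Z) (hc : IsCoveringMapOn p Z) :
    IsCoveringMap (fun y => (⟨p y, hm y⟩ : Z)) := by
  have e : p ⁻¹' Z = univ := eq_univ_of_forall hm
  exact hc.isCoveringMap_restrictPreimage.comp_homeomorph
    ((Homeomorph.setCongr e).trans (Homeomorph.Set.univ Y)).symm

theorem hl_stmt (hCov : CovStmt) : HLStmt := by
  intro G X Y _ _ _ _ _ Z p h A H hH hM h0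
  have cov := HL_cov h.mem (hCov G X Y Z p h).2.2.1
  have hin : ∀ ta : unitInterval × (p ⁻¹' A),
      ((ta.1 : ℝ), p ta.2) ∈ Icc (0 : ℝ) 1 ×ˢ (A ∩ Z) := fun ta => ⟨ta.1.2, ta.2.2, h.mem _⟩
  let Hc : C(unitInterval × (p ⁻¹' A), Z) :=
    ⟨fun ta => ⟨H (ta.1, p ta.2), hM (hin ta)⟩,
      (hH.comp_continuous ((continuous_subtype_val.comp continuous_fst).prodMk
        (h.cont.comp (continuous_subtype_val.comp continuous_snd))) hin).subtype_mk _⟩
  let f : C(p ⁻¹' A, Y) := ⟨Subtype.val, continuous_subtype_val⟩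
  have H0 : ∀ a, Hc (0, a) = (fun y => (⟨p y, h.mem y⟩ : Z)) (f a) := fun a =>
    Subtype.ext (h0 _ ⟨a.2, h.mem _⟩)
  obtain ⟨L, hL, hL0⟩ : ∃ L : C(unitInterval × (p ⁻¹' A), Y),
      (∀ ta, p (L ta) = H (ta.1, p ta.2)) ∧ ∀ a, L (0, a) = a :=
    ⟨cov.liftHomotopy Hc f H0,
      fun ta => congrArg Subtype.val (congrFun (cov.liftHomotopy_lifts Hc f H0) ta),
      cov.liftHomotopy_zero Hc f H0⟩
  refine ⟨fun z => if hy : p z.2 ∈ A then L (projIcc 0 1 zero_le_one z.1, ⟨z.2, hy⟩) else z.2,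
    ?_, ?_, ?_, ?_⟩
  · rw [continuousOn_iff_continuous_domRestrict]
    have hc : Continuous fun z : (Icc (0 : ℝ) 1 ×ˢ (p ⁻¹' A) : Set (ℝ × Y)) =>
        L (projIcc 0 1 zero_le_one z.1.1, ⟨z.1.2, z.2.2⟩) :=
      L.continuous.comp ((continuous_projIcc.comp (continuous_fst.comp
        continuous_subtype_val)).prodMk
          ((continuous_snd.comp continuous_subtype_val).subtype_mk _))
    refine hc.congr fun z => ?_
    have hz : p z.1.2 ∈ A := z.2.2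
    simp only [domRestrict_apply, dif_pos hz]
  · intro y
    by_cases hy : p y ∈ A
    · simp only [dif_pos hy, projIcc_left]
      exact hL0 ⟨y, hy⟩
    · exact dif_neg hy
  · intro θ hθ y hy
    have hy' : p y ∈ A := hy
    simp only [dif_pos hy', hL, projIcc_of_mem zero_le_one hθ]
  · intro g θ y
    by_cases hy : p y ∈ A
    · have hg : p (g • y) ∈ A := by rw [h.inv]; exact hy
      simp only [dif_pos hy, dif_pos hg]
      have key : (fun t : unitInterval => L (t, ⟨g • y, hg⟩)) =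
          fun t : unitInterval => g • L (t, ⟨y, hy⟩) := by
        refine cov.eq_of_comp_eq (L.continuous.comp (Continuous.prodMk_left _))
          ((L.continuous.comp (Continuous.prodMk_left _)).const_smul g) ?_ 0 ?_
        · funext t
          apply Subtype.ext
          simp only [Function.comp_apply, hL, h.inv]
        · simp only [hL0]
      exact congrFun key _
    · have hg : ¬ p (g • y) ∈ A := by rw [h.inv]; exact hy
      simp only [dif_neg hy, dif_neg hg]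

end Pool.Agent.MP_bc14e1_gt

end

section

open Set Metric
open scoped Classical

namespace Pool.Agent.MP_bc14e1_gt

/-- A section over a contractible set. -/
theorem Sec_ex {X Y : Type} [TopologicalSpace X] [TopologicalSpace Y] {p : Y → X} {A : Set X}
    {x : X} (hp : IsCoveringMapOn p A) (hA : Ctr A x) (y₀ : Y) (h₀ : p y₀ = x) :
    ∃ σ : X → Y, ContinuousOn σ A ∧ ∀ x ∈ A, p (σ x) = x := by
  obtain ⟨hx, H, hH, hm, h0, h1⟩ := hA
  have cov := hp.isCoveringMap_restrictPreimage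
  have hmem : ∀ z : unitInterval × A, ((1 - z.1.1, z.2.1) : ℝ × X) ∈ Icc (0 : ℝ) 1 ×ˢ A :=
    fun z => ⟨⟨sub_nonneg.2 z.1.2.2, sub_le_self _ z.1.2.1⟩, z.2.2⟩
  let K : C(unitInterval × A, A) :=
    ⟨fun z => ⟨H (1 - z.1.1, z.2.1), hm (hmem z)⟩,
      (hH.comp_continuous (by fun_prop) hmem).subtype_mk _⟩
  let f : C(A, p ⁻¹' A) := ContinuousMap.const _ ⟨y₀, by rw [mem_preimage, h₀]; exact hx⟩
  have hK : ∀ a, K (0, a) = A.restrictPreimage p (f a) := by
    intro a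
    apply Subtype.ext
    change H (1 - 0, a.1) = p y₀
    rw [sub_zero, h1 _ a.2, h₀]
  let L := cov.liftHomotopy K f hK
  refine ⟨fun a => if h : a ∈ A then (L (1, ⟨a, h⟩)).1 else y₀, ?_, fun a ha => ?_⟩
  · rw [continuousOn_iff_continuous_domRestrict]
    have : A.domRestrict (fun a => if h : a ∈ A then (L (1, ⟨a, h⟩)).1 else y₀) =
        fun a : A => (L (1, a)).1 := funext fun a => dif_pos a.2
    rw [this]
    fun_prop
  · have := congrArg Subtype.val (congrFun (cov.liftHomotopy_lifts K f hK) (1, ⟨a, ha⟩))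
    simp only [dif_pos ha]
    refine this.trans ?_
    change H (1 - 1, a) = a
    rw [sub_self, h0 _ ha]

/-- The image of a section over an open set is open. -/
theorem Sec_open {X Y : Type} [TopologicalSpace X] [TopologicalSpace Y] {p : Y → X} {A : Set X}
    (hp : IsLocalHomeomorph p) (hA : IsOpen A) {σ : X → Y} (hc : ContinuousOn σ A)
    (hσ : ∀ x ∈ A, p (σ x) = x) : IsOpen (σ '' A) := by
  refine isOpen_iff_mem_nhds.2 ?_
  rintro _ ⟨x, hx, rfl⟩
  obtain ⟨e, he, rfl⟩ := hp (σ x)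
  have h1 : e.source ∈ nhds (σ x) := e.open_source.mem_nhds he
  have h2 : σ ⁻¹' e.source ∩ A ∈ nhds (e (σ x)) := by
    rw [hσ x hx]
    exact Filter.inter_mem ((hc.continuousAt (hA.mem_nhds hx)).preimage_mem_nhds h1)
      (hA.mem_nhds hx)
  refine Filter.mem_of_superset
    (Filter.inter_mem h1 (hp.continuous.continuousAt.preimage_mem_nhds h2)) ?_
  rintro y ⟨hy, hy1, hy2⟩
  exact ⟨e y, hy2, e.injOn hy1 hy (hσ _ hy2)⟩

theorem sec_stmt (hCov : CovStmt) (hHL : HLStmt) : SecStmt := by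
  intro G X Y _ _ _ _ _ Z p hp A x hAZ hA y hy
  obtain ⟨-, hl, hc, hs, -⟩ := hCov G X Y Z p hp
  obtain ⟨y₀, h₀⟩ := hs x (hAZ hA.1)
  obtain ⟨σ, hσc, hσ⟩ := Sec_ex (hc.mono hAZ) hA y₀ h₀
  obtain ⟨g, hg⟩ := hp.trans (σ (p y)) y (hσ _ hy)
  have h1 : ContinuousOn (fun x => g • σ x) A := hσc.const_smul g
  have h2 : ∀ x ∈ A, p (g • σ x) = x := fun x hx => by rw [hp.inv, hσ x hx]
  exact ⟨fun x => g • σ x, h1, h2, hg.symm, fun hA' => Sec_open hl hA' h1 h2⟩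

end Pool.Agent.MP_bc14e1_gt

end

section

open Set Metric
open scoped Classical

namespace Pool.Agent.MP_bc14e1_gt

theorem Lift_ex {X Y : Type} [TopologicalSpace X] [TopologicalSpace Y] {Z : Set X} {p : Y → X}
    (h : IsCoveringMapOn p Z) {k : ℕ} (σ : Sing X k) (hσ : ∀ t, σ t ∈ Z)
    {a : stdSimplex ℝ (Fin (k + 1))} {y : Y} (hy : p y = σ a) :
    ∃! F : Sing Y k, F a = y ∧ p ∘ F = σ := by
  have := (convex_stdSimplex ℝ (Fin (k + 1))).contractibleSpace ⟨a.1, a.2⟩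
  have := (convex_stdSimplex ℝ (Fin (k + 1))).locallyPathConnectedSpace
  exact h.existsUnique_continuousMap_lifts σ hy hσ

theorem Lift_pow {R : Type} [CommRing R] {G Y : Type} [Group G] [TopologicalSpace Y]
    [MulAction G Y] [ContinuousConstSMul G Y] (t : G) (k : ℕ) (n : ℤ) {c : Tot R Y}
    (hc : c ∈ DG R Y k) :
    gs R Y (t ^ n) c - c ∈ (DG R Y k).map (gs R Y t - 1) := by
  induction n using Int.induction_on with
  | zero => rw [zpow_zero, gs_one, sub_self]; exact zero_mem _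
  | succ n ih =>
    have e : gs R Y (t ^ ((n : ℤ) + 1)) c - c =
        (gs R Y t - 1) (gs R Y (t ^ (n : ℤ)) c) + (gs R Y (t ^ (n : ℤ)) c - c) := by
      rw [add_comm (n : ℤ) 1, zpow_one_add, gs_mul, LinearMap.sub_apply, Module.End.one_apply]
      abel
    rw [e]
    exact add_mem (Submodule.mem_map_of_mem (gs_mem_DG _ hc)) ih
  | pred n ih =>
    have e : gs R Y (t ^ (-(n : ℤ) - 1)) c - c = (gs R Y (t ^ (-(n : ℤ))) c - c) -
        (gs R Y t - 1) (gs R Y (t ^ (-(n : ℤ) - 1)) c) := by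
      rw [LinearMap.sub_apply, Module.End.one_apply, ← gs_mul, ← zpow_one_add, add_sub_cancel]
      abel
    rw [e]
    exact sub_mem ih (Submodule.mem_map_of_mem (gs_mem_DG _ hc))

theorem lift_stmt (hCov : CovStmt) : LiftStmt := by
  intro R _ G X Y _ _ _ _ _ Z p h
  obtain ⟨-, -, hc, hs, -⟩ := hCov G X Y Z p h
  have hex : ∀ (k : ℕ) (σ : Sing X k), (∀ t, σ t ∈ Z) → ∃ F : Sing Y k, p ∘ F = σ := by
    intro k σ hσ
    obtain ⟨y, hy⟩ := hs _ (hσ (Classical.arbitrary _))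
    obtain ⟨F, hF, -⟩ := Lift_ex hc σ hσ hy
    exact ⟨F, hF.2⟩
  have hp : ∀ (k : ℕ) (F : Sing Y k) (σ : Sing X k), p ∘ F = σ → ∀ a : R,
      psh R p (Finsupp.single ⟨k, F⟩ a) = Finsupp.single ⟨k, σ⟩ a := by
    intro k F σ e a
    rw [psh_single p ⟨k, F⟩ (h.cont.comp F.continuous)]
    congr 2
    exact ContinuousMap.ext (congrFun e)
  refine ⟨fun k c hcc => ?_, fun t ht k c hck h0 => ?_⟩
  · have h1 : c ∈ Finsupp.supported R R {σ : TS X | σ.1 = k ∧ ∀ t, σ.2 t ∈ Z} :=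
      (Finsupp.mem_supported R c).2 fun σ hσ => ⟨mem_DG.1 hcc.2 σ hσ, mem_CH.1 hcc.1 σ hσ⟩
    refine supported_ind (P := fun c => ∃ c' ∈ DG R Y k, psh R p c' = c)
      ⟨0, zero_mem _, map_zero _⟩ ?_ ?_ h1
    · rintro _ _ ⟨a, ha, rfl⟩ ⟨b, hb, rfl⟩
      exact ⟨a + b, add_mem ha hb, map_add _ _ _⟩
    · rintro ⟨_, σ⟩ ⟨rfl, hσ⟩ a
      obtain ⟨F, hF⟩ := hex _ σ hσ
      exact ⟨_, single_mem_DG ⟨_, F⟩ a, hp _ F σ hF a⟩
  · choose r hr using hex
    let L : Tot R X →ₗ[R] Tot R Y := Finsupp.linearCombination R fun σ : TS X =>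
      if hσ : ∀ t, σ.2 t ∈ Z then Finsupp.single ⟨σ.1, r σ.1 σ.2 hσ⟩ 1 else 0
    have key : c - L (psh R p c) ∈ (DG R Y k).map (gs R Y t - 1) := by
      refine supported_ind (P := fun c => c - L (psh R p c) ∈ (DG R Y k).map (gs R Y t - 1))
        (by simp) ?_ ?_ hck
      · intro a b ha hb
        rw [map_add, map_add, add_sub_add_comm]
        exact add_mem ha hb
      · rintro ⟨m, F⟩ rfl a
        let σ : Sing X m := ⟨p ∘ F, h.cont.comp F.continuous⟩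
        have hσ : ∀ t, σ t ∈ Z := fun t => h.mem _
        have e1 : L (psh R p (Finsupp.single ⟨_, F⟩ a)) = Finsupp.single ⟨_, r _ σ hσ⟩ a := by
          rw [hp _ F σ rfl, Finsupp.linearCombination_single, dif_pos hσ, Finsupp.smul_single,
            smul_eq_mul, mul_one]
        let x : stdSimplex ℝ (Fin (m + 1)) := Classical.arbitrary _
        obtain ⟨g, hg⟩ := h.trans (r _ σ hσ x) (F x) (congrFun (hr _ σ hσ) x)
        obtain ⟨n, rfl⟩ := ht g
        have hcg : Continuous ((fun y : Y => t ^ n • y) ∘ r _ σ hσ) :=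
          (continuous_const_smul _).comp (r _ σ hσ).continuous
        have e2 : F = ⟨_, hcg⟩ :=
          (Lift_ex hc σ hσ (a := x) (y := F x) rfl).unique ⟨rfl, rfl⟩
            ⟨hg.symm, funext fun u => (h.inv _ _).trans (congrFun (hr _ σ hσ) u)⟩
        have e3 : (Finsupp.single ⟨_, F⟩ a : Tot R Y) =
            gs R Y (t ^ n) (Finsupp.single ⟨_, r _ σ hσ⟩ a) := by
          rw [gs, psh_single _ ⟨_, r _ σ hσ⟩ hcg, ← e2]
        rw [e1, e3]
        exact Lift_pow t _ n (single_mem_DG ⟨_, r _ σ hσ⟩ a)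
    rw [h0, map_zero, sub_zero] at key
    obtain ⟨w, hw, e⟩ := key
    exact ⟨w, hw, e.symm⟩

end Pool.Agent.MP_bc14e1_gt

end

section

open Set Metric
open scoped Classical

namespace Pool.Agent.MP_bc14e1_gt

theorem Tr_abs {R S S' G : Type} [CommRing R] [Group G] [Fintype G] (a : G → S' → S')
    (π : S' → S) (hinv : ∀ g σ, π (a g σ) = π σ)
    (hfree : ∀ g g' σ, a g σ = a g' σ → g = g')
    (htr : ∀ σ σ', π σ = π σ' → ∃ g, σ' = a g σ) (hs : Function.Surjective π) :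
    ∃ tr : (S →₀ R) →ₗ[R] (S' →₀ R), (∀ c σ, tr c σ = c (π σ)) ∧
      ∀ c, tr (Finsupp.mapDomain π c) = ∑ g, Finsupp.mapDomain (a g) c := by
  have key : ∀ (σ σ' : S') (r : R), (∑ g, Finsupp.single (a g σ) r : S' →₀ R) σ' =
      (Finsupp.single (π σ) r : S →₀ R) (π σ') := by
    intro σ σ' r
    rw [Finsupp.finsetSum_apply]
    by_cases h : π σ = π σ'
    · obtain ⟨g, rfl⟩ := htr σ σ' h
      rw [Finset.sum_eq_single g, hinv, Finsupp.single_eq_same, Finsupp.single_eq_same]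
      · intro g' _ hg
        exact Finsupp.single_eq_of_ne fun e => hg (hfree _ _ _ e).symm
      · simp
    · rw [Finsupp.single_eq_of_ne (Ne.symm h)]
      refine Finset.sum_eq_zero fun g _ => Finsupp.single_eq_of_ne fun e => h ?_
      rw [e, hinv]
  choose l hl using hs
  let tr : (S →₀ R) →ₗ[R] (S' →₀ R) :=
    Finsupp.lsum R fun s : S => ∑ g, Finsupp.lsingle (a g (l s))
  have h1 : ∀ c σ, tr c σ = c (π σ) := by
    intro c σ
    induction c using Finsupp.induction_linear with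
    | zero => simp
    | add x y hx hy => rw [map_add, Finsupp.add_apply, hx, hy, Finsupp.add_apply]
    | single s r =>
      have : tr (Finsupp.single s r) = ∑ g, Finsupp.single (a g (l s)) r := by
        simp only [tr, Finsupp.lsum_single, LinearMap.sum_apply, Finsupp.lsingle_apply]
      rw [this, key, hl]
  refine ⟨tr, h1, fun c => ?_⟩
  induction c using Finsupp.induction_linear with
  | zero => simp
  | add x y hx hy =>
    simp only [Finsupp.mapDomain_add, map_add, hx, hy, Finset.sum_add_distrib]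
  | single σ r =>
    ext σ'
    simp only [Finsupp.mapDomain_single]
    rw [h1, key]

/-- The map on simplices induced by a continuous map. -/
def Tr_map {X Y : Type} [TopologicalSpace X] [TopologicalSpace Y] {f : X → Y} (hf : Continuous f)
    (σ : TS X) : TS Y := ⟨σ.1, ⟨f ∘ σ.2, hf.comp σ.2.continuous⟩⟩

theorem Tr_psh {R X Y : Type} [CommRing R] [TopologicalSpace X] [TopologicalSpace Y] {f : X → Y}
    (hf : Continuous f) (c : Tot R X) : psh R f c = Finsupp.mapDomain (Tr_map hf) c := by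
  induction c using Finsupp.induction_linear with
  | zero => simp
  | add x y hx hy => rw [map_add, Finsupp.mapDomain_add, hx, hy]
  | single σ r =>
    rw [Finsupp.mapDomain_single, psh_single f σ (hf.comp σ.2.continuous)]
    rfl

theorem tr_stmt (hCov : CovStmt) (hLift : LiftStmt) : TrStmt := by
  intro R _ G X Y _ _ _ _ _ _ p hp
  have := Fintype.ofFinite G
  have hcov : IsCoveringMap p :=
    isCoveringMap_iff_isCoveringMapOn_univ.2 (hCov G X Y univ p hp).2.2.1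
  let π : TS Y → TS X := Tr_map hp.cont
  let a : G → TS Y → TS Y := fun g => Tr_map (continuous_const_smul g)
  have hinv : ∀ g σ, π (a g σ) = π σ := by
    rintro g ⟨k, σ⟩
    exact congrArg (Sigma.mk k) (ContinuousMap.ext fun t => hp.inv g _)
  have hfree0 : ∀ (g g' : G) (y : Y), g • y = g' • y → g = g' := by
    intro g g' y h
    have := hp.free (g'⁻¹ * g) y (by rw [mul_smul, h, inv_smul_smul])
    rw [inv_mul_eq_one] at this
    exact this.symm
  have hfree : ∀ g g' σ, a g σ = a g' σ → g = g' := by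
    rintro g g' ⟨k, σ⟩ h
    have h' := sigma_mk_injective (β := fun k => Sing Y k) h
    exact hfree0 g g' _ (DFunLike.congr_fun h' (Classical.arbitrary _))
  have htr : ∀ σ σ', π σ = π σ' → ∃ g, σ' = a g σ := by
    rintro ⟨k, σ⟩ ⟨k', σ'⟩ h
    obtain rfl : k = k' := congrArg Sigma.fst h
    have h' := sigma_mk_injective (β := fun k => Sing X k) h
    have h'' : ∀ t, p (σ t) = p (σ' t) := fun t => DFunLike.congr_fun h' t
    let t₀ : Sx k := Classical.arbitrary _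
    obtain ⟨g, hg⟩ := hp.trans _ _ (h'' t₀)
    refine ⟨g, congrArg (Sigma.mk k) (ContinuousMap.ext fun t => ?_)⟩
    have := hcov.eq_of_comp_eq σ'.continuous ((continuous_const_smul g).comp σ.continuous)
      (funext fun t => ((hp.inv g _).trans (h'' t)).symm) t₀ hg
    exact congrFun this t
  have hs : Function.Surjective π := by
    intro σ
    obtain ⟨c', -, hc'⟩ := (hLift ℤ G X Y univ p hp).1 σ.1 (Finsupp.single σ 1)
      ⟨mem_CH_univ _, single_mem_DG σ 1⟩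
    rw [Tr_psh hp.cont] at hc'
    by_contra hne
    have := Finsupp.mapDomain_notin_range (f := Tr_map hp.cont) c' σ hne
    rw [hc', Finsupp.single_eq_same] at this
    exact one_ne_zero this
  obtain ⟨tr, h1, h2⟩ := Tr_abs (R := R) a π hinv hfree htr hs
  have h2' : ∀ c, tr (psh R p c) = ∑ g : G, gs R Y g c := by
    intro c
    rw [Tr_psh hp.cont, h2]
    exact Finset.sum_congr rfl fun g _ => (Tr_psh (continuous_const_smul g) c).symm
  have hsur : ∀ c : Tot R X, ∃ c', psh R p c' = c := by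
    intro c
    obtain ⟨c', hc'⟩ := Finsupp.mapDomain_surjective (M := R) hs c
    exact ⟨c', (Tr_psh hp.cont c').trans hc'⟩
  have hga : ∀ (g : G) (c : Tot R Y) σ, gs R Y g c (a g σ) = c σ := by
    intro g c σ
    rw [gs, Tr_psh (continuous_const_smul g)]
    refine Finsupp.mapDomain_apply ?_ c σ
    rintro ⟨k, σ⟩ ⟨k', σ'⟩ h
    obtain rfl : k = k' := congrArg Sigma.fst h
    have h' := sigma_mk_injective (β := fun k => Sing Y k) h
    refine congrArg (Sigma.mk k) (ContinuousMap.ext fun t => ?_)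
    exact MulAction.injective g (DFunLike.congr_fun h' t)
  refine ⟨tr, ?_, fun c => ?_, fun c => ?_, fun k c => ?_, fun c => ⟨fun h => ?_, ?_⟩, ?_⟩
  · intro c c' h
    ext s
    obtain ⟨σ, rfl⟩ := hs s
    rw [← h1, ← h1, h]
  · rw [h2', finsum_eq_sum_of_fintype]
  · obtain ⟨c, rfl⟩ := hsur c
    rw [dT_psh_cont hp.cont, h2', h2', map_sum]
    exact Finset.sum_congr rfl fun g _ => dT_gs g c
  · rw [mem_DG, mem_DG]
    refine ⟨fun h s hs' => ?_, fun h σ hσ => ?_⟩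
    · obtain ⟨σ, rfl⟩ := hs s
      exact h σ (by rwa [Finsupp.mem_support_iff, h1, ← Finsupp.mem_support_iff])
    · exact h (π σ) (by rwa [Finsupp.mem_support_iff, ← h1, ← Finsupp.mem_support_iff])
  · choose l hl using hs
    have hli : Function.Injective l := fun s s' e => by rw [← hl s, e, hl]
    refine ⟨Finsupp.comapDomain l c hli.injOn, ?_⟩
    ext σ
    rw [h1, Finsupp.comapDomain_apply]
    obtain ⟨g, hg⟩ := htr σ (l (π σ)) (hl _).symm
    rw [hg, ← hga g c σ, h g]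
  · rintro ⟨c, rfl⟩ g
    obtain ⟨c, rfl⟩ := hsur c
    rw [h2', map_sum]
    simp only [← gs_mul]
    exact Equiv.sum_comp (Equiv.mulLeft g) fun g' => gs R Y g' c
  · intro f f' hf hpf hg c
    obtain ⟨c, rfl⟩ := hsur c
    rcases isEmpty_or_nonempty Y with hY | ⟨⟨y₀⟩⟩
    · have : IsEmpty (TS Y) := ⟨fun σ => hY.false (σ.2 (Classical.arbitrary _))⟩
      exact Subsingleton.elim _ _
    choose φ hφ using hg
    have hφi : Function.Injective φ := fun g g' e =>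
      hfree0 g g' y₀ (f'.injective (by rw [hφ, hφ, e]))
    have e : psh R f (psh R p c) = psh R p (psh R f' c) := by
      rw [psh_psh' _ hp.cont, psh_psh' _ f'.continuous]
      exact psh_congr (fun y _ => (hpf y).symm) (mem_CH_univ c)
    rw [e, h2', h2', map_sum]
    refine Fintype.sum_bijective φ (Finite.injective_iff_bijective.1 hφi) _ _ fun g => ?_
    rw [gs, gs, psh_psh' _ (continuous_const_smul g), psh_psh' _ f'.continuous]
    exact psh_congr (fun y _ => hφ g y) (mem_CH_univ c)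

end Pool.Agent.MP_bc14e1_gt

end

section

/-! Statements: construction of covers, finiteness, ranks. -/

open Set Metric
open scoped Classical

namespace Pool.Agent.MP_bc14e1_gt

noncomputable section

/-- The cover defined by a cocycle with values in an abelian group. -/
def ExCovStmt : Prop :=
  ∀ (X A : Type) [TopologicalSpace X] [AddCommGroup A] (Z : Set X) (α : Tot ℤ X →+ A),
    (∀ x ∈ Z, ∃ U, IsOpen U ∧ U ⊆ Z ∧ Ctr U x ∧ ∀ y ∈ U, ∀ V ∈ nhds y, ∃ V' ∈ nhds y,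
      V' ⊆ V ∧ IsPathConnected V') →
    (∀ c ∈ CH ℤ Z, α (dT ℤ X c) = 0) → (∀ k, k ≠ 1 → ∀ c ∈ DG ℤ X k, α c = 0) →
    ∃ (Y : Type) (_ : TopologicalSpace Y) (_ : MulAction (Multiplicative A) Y)
      (_ : ContinuousConstSMul (Multiplicative A) Y) (p : Y → X) (l : Y → A),
      GCov (Multiplicative A) Z p ∧ (∀ a y, l (Multiplicative.ofAdd a • y) = a + l y) ∧
      (∀ c : Tot ℤ Y, α (psh ℤ p c) = val0 ℤ l (dT ℤ Y c)) ∧
      ∀ f : Y → Y, Continuous (p ∘ f) →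
        (∀ γ : C(unitInterval, Y), l (f (γ 1)) - l (f (γ 0)) = α (psh ℤ (p ∘ f) (pth ℤ γ))) →
        Continuous f

/-- Open subsets of manifolds and of their covers are locally contractible. -/
def LocCtrStmt : Prop :=
  ∀ (X Y : Type) [TopologicalSpace X] [ChartedSpace (E 4) X] [TopologicalSpace Y] (p : Y → X),
    IsLocalHomeomorph p → ∀ y : Y, ∀ W ∈ nhds y,
      (∃ e : OpenPartialHomeomorph Y (E 4), y ∈ e.source ∧ e.source ⊆ W ∧ InjOn p e.source) ∧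
      (∃ U, IsOpen U ∧ U ⊆ W ∧ Ctr U y) ∧ ∃ V' ∈ nhds y, V' ⊆ W ∧ IsPathConnected V'

/-- The infinite cyclic cover. -/
def P1aStmt : Prop :=
  ∀ (κ : Kit) (X Y : Type) [TopologicalSpace X] [TopologicalSpace Y]
    [MulAction (Multiplicative ℤ) Y] [ContinuousConstSMul (Multiplicative ℤ) Y]
    (o : Orientation4 X) (F : Set X) (n : ℕ) (φ : Tot ℤ X →ₗ[ℤ] ℤ) (p : Y → X) (l : Y → ℤ), Flat F →
    XPack κ o F n φ → GCov (Multiplicative ℤ) Fᶜ p →
    (∀ a y, l (Multiplicative.ofAdd a • y) = a + l y) →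
    (∀ c : Tot ℤ Y, φ (psh ℤ p c) = val0 ℤ l (dT ℤ Y c)) →
    Pack1 F φ p (Multiplicative.ofAdd (1 : ℤ)) l

/-- Equivariant extension of a homomorphism from cycles to chains. -/
def P2aStmt : Prop :=
  ∀ (G Y A : Type) [Group G] [TopologicalSpace Y] [MulAction G Y] [ContinuousConstSMul G Y]
    [AddCommGroup A] (t : G) (τ : A ≃ₗ[ℤ] A) (α₀ : ZC ℤ (univ : Set Y) 1 →+ A),
    PathConnectedSpace Y → (∀ (n : ℤ) (y : Y), t ^ n • y = y → n = 0) →
    (∀ z : ZC ℤ (univ : Set Y) 1, z.1 ∈ BC ℤ univ 1 → α₀ z = 0) →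
    (∀ z z' : ZC ℤ (univ : Set Y) 1, z'.1 = gs ℤ Y t z.1 → α₀ z' = τ (α₀ z)) →
    ∃ α : Tot ℤ Y →+ A, (∀ z : ZC ℤ (univ : Set Y) 1, α z.1 = α₀ z) ∧
      (∀ c, α (dT ℤ Y c) = 0) ∧ (∀ k, k ≠ 1 → ∀ c ∈ DG ℤ Y k, α c = 0) ∧
      ∀ c, α (gs ℤ Y t c) = τ (α c)

/-- The finiteness property of a compact set. -/
def FGL (R : Type) [CommRing R] {X G Y : Type} [TopologicalSpace X] [Group G] [TopologicalSpace Y]
    [MulAction G Y] [ContinuousConstSMul G Y] (p : Y → X) (s : G) (L : Set X) : Prop :=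
  ∀ k O, IsOpen O → L ⊆ O → ∃ N, IsOpen N ∧ L ⊆ N ∧ N ⊆ O ∧ FGI R s (p ⁻¹' N) (p ⁻¹' O) k

def FGMVStmt : Prop :=
  ∀ (R : Type) [CommRing R] [IsNoetherianRing R] (X G Y : Type) [TopologicalSpace X] [T2Space X]
    [Group G] [TopologicalSpace Y] [MulAction G Y] [ContinuousConstSMul G Y] (p : Y → X) (s : G),
    Continuous p → (∀ y, p (s • y) = p y) → FGL R p s ∅ ∧ ∀ A B : Set X, IsCompact A →
      IsCompact B → FGL R p s A → FGL R p s B → FGL R p s (A ∩ B) → FGL R p s (A ∪ B)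

/-- Contractible open sets off the surface. -/
def FGCtrStmt : Prop :=
  ∀ (R : Type) [CommRing R] (X G Y : Type) [TopologicalSpace X]
    [Group G] [TopologicalSpace Y] [MulAction G Y] [ContinuousConstSMul G Y] (F : Set X)
    (p : Y → X) (s : G), TC F p s → ∀ N x, IsOpen N → N ⊆ Fᶜ → Ctr N x →
    ∀ k, FGI R s (p ⁻¹' N) (p ⁻¹' N) k

def FGOffStmt : Prop :=
  ∀ (R : Type) [CommRing R] [IsNoetherianRing R] (X G Y : Type) [TopologicalSpace X] [T2Space X]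
    [ChartedSpace (E 4) X] [Group G] [TopologicalSpace Y] [MulAction G Y]
    [ContinuousConstSMul G Y] (F : Set X) (p : Y → X) (s : G), TC F p s →
    ∀ L, IsCompact L → L ⊆ Fᶜ → FGL R p s L

/-- Convex rotation invariant sets in a flat chart. -/
def FGRotStmt : Prop :=
  ∀ (R : Type) [CommRing R] [IsNoetherianRing R] (X G Y : Type) [TopologicalSpace X] [T2Space X]
    [ChartedSpace (E 4) X] [Group G] [TopologicalSpace Y] [MulAction G Y]
    [ContinuousConstSMul G Y] (F : Set X) (p : Y → X) (s : G), TC F p s →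
    ∀ (e : OpenPartialHomeomorph X (ℂ × ℂ)) (L : Set (ℂ × ℂ)), FlatCh F e → IsCompact L →
    Convex ℝ L → RotInv L → L ⊆ e.target → FGL R p s (e.symm '' L)

/-- The rank does not exceed the rank of the reduction modulo a prime element. -/
def DropStmt : Prop :=
  ∀ (Λ H : Type) [CommRing Λ] [IsDomain Λ] [AddCommGroup H] [Module Λ H] [Module.Finite Λ H]
    (ϖ : Λ) (n : ℕ), Prime ϖ →
    (∀ z : Fin (n + 1) → H, ∃ a : Fin (n + 1) → Λ, (∃ i, ¬ ϖ ∣ a i) ∧
      ∃ w, ∑ i, a i • z i = ϖ • w) →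
    ∀ z : Fin (n + 1) → H, ∃ a : Fin (n + 1) → Λ, a ≠ 0 ∧ ∑ i, a i • z i = 0

/-- Ranks under a finite extension, in exact sequences and under extension of scalars. -/
def RkAlgStmt : Prop :=
  (∀ (Λ Λ' H : Type) [CommRing Λ] [IsDomain Λ] [CommRing Λ'] [IsDomain Λ'] [AddCommGroup H]
    [Module Λ' H] (f : Λ →+* Λ') (m n : ℕ) (e : Fin m → Λ'), Function.Injective f →
    (∀ x : Λ', ∃ a : Fin m → Λ, x = ∑ i, f (a i) * e i) →
    (∀ z : Fin (n + 1) → H, ∃ a : Fin (n + 1) → Λ', a ≠ 0 ∧ ∑ i, a i • z i = 0) →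
    ∀ z : Fin (m * n + 1) → H, ∃ a : Fin (m * n + 1) → Λ, a ≠ 0 ∧ ∑ i, f (a i) • z i = 0) ∧
  (∀ (Λ H₁ H₂ H₃ : Type) [CommRing Λ] [IsDomain Λ] [AddCommGroup H₁] [Module Λ H₁]
    [AddCommGroup H₂] [Module Λ H₂] [AddCommGroup H₃] [Module Λ H₃] (f : H₁ →ₗ[Λ] H₂)
    (g : H₂ →ₗ[Λ] H₃) (n : ℕ), LinearMap.ker g ≤ LinearMap.range f →
    (∀ z : Fin (n + 1) → H₁, ∃ a : Fin (n + 1) → Λ, a ≠ 0 ∧ ∑ i, a i • z i = 0) →
    (∀ z : Fin (n + 1) → H₃, ∃ a : Fin (n + 1) → Λ, a ≠ 0 ∧ ∑ i, a i • z i = 0) →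
    ∀ z : Fin (2 * n + 1) → H₂, ∃ a : Fin (2 * n + 1) → Λ, a ≠ 0 ∧ ∑ i, a i • z i = 0) ∧
  ∀ (Λ Λ' H : Type) [CommRing Λ] [IsDomain Λ] [CommRing Λ'] [IsDomain Λ'] [AddCommGroup H]
    [Module Λ' H] (f : Λ →+* Λ') (S : Set H) (n : ℕ), Function.Injective f →
    Submodule.span Λ' S = ⊤ →
    (∀ z : Fin (n + 1) → H, (∀ i, z i ∈ S) → ∃ a : Fin (n + 1) → Λ, a ≠ 0 ∧
      ∑ i, f (a i) • z i = 0) →
    ∀ z : Fin (n + 1) → H, ∃ a : Fin (n + 1) → Λ', a ≠ 0 ∧ ∑ i, a i • z i = 0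

/-- From the field with two elements to the integers. -/
def Rank2aStmt : Prop :=
  ∀ (G Y : Type) [Group G] [TopologicalSpace Y] [MulAction G Y] [ContinuousConstSMul G Y] (s : G)
    (B : Set G) (n : ℕ), (∀ g, g * s = s * g) → FGI ℤ s (univ : Set Y) univ 2 →
    Dep (ZMod 2) Y s B n →
    ∀ z : Fin (n + 1) → Tot ℤ Y, (∀ i, z i ∈ ZC ℤ univ 2 ∧ ∀ g ∈ B, gs ℤ Y g (z i) = z i) →
      ∃ a : Fin (n + 1) → Lam ℤ, a ≠ 0 ∧ ∑ i, act ℤ Y s (a i) (z i) ∈ BC ℤ univ 2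

/-- The doubling step. -/
def RankDStmt : Prop :=
  ∀ (G Y : Type) [Group G] [TopologicalSpace Y] [MulAction G Y] [ContinuousConstSMul G Y] (s : G)
    (B' B : Subgroup G) (n : ℕ), (∀ g, g * s = s * g) → (∀ (g : G) (y : Y), g • y = y → g = 1) →
    B' ≤ B → B'.relIndex B = 2 → Dep (ZMod 2) Y s B n → Dep (ZMod 2) Y s B' (2 * n)

end

end Pool.Agent.MP_bc14e1_gt

end

section

open Set Metric
open scoped Classical

namespace Pool.Agent.MP_bc14e1_gt

theorem LocCtr_ctr {M N : Type} [TopologicalSpace M] [NormedAddCommGroup N] [NormedSpace ℝ N]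
    (e : OpenPartialHomeomorph M N) {V : Set N} (hV : Convex ℝ V) (hVe : V ⊆ e.target) {y : M}
    (hy : y ∈ e.source) (hyV : e y ∈ V) : Ctr (e.symm '' V) y := by
  have h1 : ∀ m ∈ e.symm '' V, m ∈ e.source ∧ e m ∈ V := by
    rintro _ ⟨v, hv, rfl⟩
    exact ⟨e.map_target (hVe hv), by rwa [e.right_inv (hVe hv)]⟩
  have h2 : MapsTo (fun q : ℝ × M => (1 - q.1) • e q.2 + q.1 • e y)
      (Icc 0 1 ×ˢ (e.symm '' V)) V := fun q hq =>
    hV (h1 _ hq.2).2 hyV (sub_nonneg.2 hq.1.2) hq.1.1 (sub_add_cancel _ _)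
  refine ⟨⟨e y, hyV, e.left_inv hy⟩, fun q => e.symm ((1 - q.1) • e q.2 + q.1 • e y), ?_,
    fun q hq => ⟨_, h2 hq, rfl⟩, fun m hm => ?_, fun m _ => ?_⟩
  · refine e.continuousOn_symm.comp ?_ fun q hq => hVe (h2 hq)
    have h3 : ContinuousOn (fun q : ℝ × M => e q.2) (Icc 0 1 ×ˢ (e.symm '' V)) :=
      e.continuousOn.comp continuousOn_snd fun q hq => (h1 _ hq.2).1
    exact ((continuousOn_const.sub continuousOn_fst).smul h3).add
      (continuousOn_fst.smul continuousOn_const)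
  · simp only [sub_zero, one_smul, zero_smul, add_zero]
    exact e.left_inv (h1 m hm).1
  · simp only [sub_self, one_smul, zero_smul, zero_add]
    exact e.left_inv hy

theorem locCtr_stmt : LocCtrStmt := by
  intro X Y _ _ _ p hp y W hW
  obtain ⟨e0, hy0, rfl⟩ := hp y
  let e := (e0.restrOpen (interior W) isOpen_interior).trans (chartAt (E 4) (e0 y))
  have hy : y ∈ e.source :=
    ⟨⟨hy0, mem_interior_iff_mem_nhds.2 hW⟩, mem_chart_source (E 4) (e0 y)⟩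
  have hW' : e.source ⊆ W := fun m hm => interior_subset hm.1.2
  obtain ⟨r, hr, hb⟩ := Metric.isOpen_iff.1 e.open_target (e y) (e.map_source hy)
  have hU : IsOpen (e.symm '' ball (e y) r) :=
    e.symm.isOpen_image_of_subset_source isOpen_ball hb
  have hs : e.symm '' ball (e y) r ⊆ W := by
    rintro _ ⟨v, hv, rfl⟩
    exact hW' (e.map_target (hb hv))
  have hc := LocCtr_ctr e (convex_ball (e y) r) hb hy (mem_ball_self hr)
  refine ⟨⟨e, hy, hW', e0.injOn.mono fun m hm => hm.1.1⟩, ⟨_, hU, hs, hc⟩,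
    _, hU.mem_nhds hc.1, hs, ?_⟩
  exact ((convex_ball (e y) r).isPathConnected ⟨_, mem_ball_self hr⟩).image'
    (e.continuousOn_symm.mono hb)

end Pool.Agent.MP_bc14e1_gt

end

section

open Set Metric
open scoped Classical

namespace Pool.Agent.MP_bc14e1_gt

section Aux

variable {X A : Type} [TopologicalSpace X] [AddCommGroup A]

/-- A potential for the cocycle on a contractible set. -/
theorem ExCov_pot (B : CtrStmt) {U : Set X} {x : X} (hU : Ctr U x) (α : Tot ℤ X →+ A)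
    (hα : ∀ c ∈ CH ℤ U, α (dT ℤ X c) = 0) :
    ∃ k : X → A, ∀ γ : C(unitInterval, X), (∀ t, γ t ∈ U) →
      α (pth ℤ γ) = k (γ 1) - k (γ 0) := by
  obtain ⟨h1, h0⟩ := B ℤ X U x hU
  have : ∀ y, ∃ b : Tot ℤ X, y ∈ U → b ∈ CC ℤ U 1 ∧ dT ℤ X b = pt ℤ y - pt ℤ x := by
    intro y
    by_cases hy : y ∈ U
    · obtain ⟨b, hb, e⟩ := h0 (pt ℤ y) ⟨pt_mem_CH hy, pt_mem_DG y⟩
      rw [val0_pt, one_smul] at e
      exact ⟨b, fun _ => ⟨hb, e⟩⟩
    · exact ⟨0, fun h => absurd h hy⟩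
  choose b hb using this
  refine ⟨fun y => α (b y), fun γ hγ => ?_⟩
  have hz : pth ℤ γ - (b (γ 1) - b (γ 0)) ∈ ZC ℤ U 1 := by
    refine ⟨sub_mem (show pth ℤ γ ∈ CC ℤ U 1 from ⟨pth_mem_CH hγ, pth_mem_DG γ⟩)
      (sub_mem (hb _ (hγ 1)).1 (hb _ (hγ 0)).1), ?_⟩
    rw [SetLike.mem_coe, LinearMap.mem_ker, map_sub, map_sub, dT_pth, (hb _ (hγ 1)).2,
      (hb _ (hγ 0)).2]
    abel
  obtain ⟨w, hw, e⟩ := h1 1 one_ne_zero hz
  have := hα w hw.1
  rw [e, map_sub, map_sub, sub_eq_zero] at this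
  exact this

/-- The total space of the cover. -/
@[ext] structure ExCov_Y (Z : Set X) (α : Tot ℤ X →+ A) : Type where
  x : X
  hx : x ∈ Z
  a : A

variable {Z : Set X} {α : Tot ℤ X →+ A}

/-- The open sets of the cover. -/
def ExCov_Op (S : Set (ExCov_Y Z α)) : Prop :=
  ∀ y ∈ S, ∃ V ∈ nhds y.x, ∀ (y' : ExCov_Y Z α) (γ : C(unitInterval, X)), (∀ t, γ t ∈ V) →
    γ 0 = y.x → γ 1 = y'.x → y'.a - y.a = α (pth ℤ γ) → y' ∈ S

instance ExCov_top : TopologicalSpace (ExCov_Y Z α) where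
  IsOpen := ExCov_Op
  isOpen_univ := fun _ _ => ⟨univ, Filter.univ_mem, fun _ _ _ _ _ _ => trivial⟩
  isOpen_inter := by
    intro S T hS hT y hy
    obtain ⟨V, hV, h⟩ := hS y hy.1
    obtain ⟨W, hW, h'⟩ := hT y hy.2
    exact ⟨V ∩ W, Filter.inter_mem hV hW, fun y' γ hγ h0 h1 e =>
      ⟨h y' γ (fun t => (hγ t).1) h0 h1 e, h' y' γ (fun t => (hγ t).2) h0 h1 e⟩⟩
  isOpen_sUnion := by
    rintro s hs y ⟨S, hS, hy⟩
    obtain ⟨V, hV, h⟩ := hs S hS y hy
    exact ⟨V, hV, fun y' γ hγ h0 h1 e => ⟨S, hS, h y' γ hγ h0 h1 e⟩⟩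

theorem ExCov_open {S : Set (ExCov_Y Z α)} : IsOpen S ↔ ExCov_Op S := Iff.rfl

instance ExCov_act : MulAction (Multiplicative A) (ExCov_Y Z α) where
  smul g y := ⟨y.x, y.hx, g.toAdd + y.a⟩
  one_smul y := ExCov_Y.ext rfl (zero_add y.a)
  mul_smul g h y := ExCov_Y.ext rfl (add_assoc g.toAdd h.toAdd y.a)

theorem ExCov_smul_x (g : Multiplicative A) (y : ExCov_Y Z α) : (g • y).x = y.x := rfl

theorem ExCov_smul_a (g : Multiplicative A) (y : ExCov_Y Z α) : (g • y).a = g.toAdd + y.a := rfl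

instance ExCov_cact : ContinuousConstSMul (Multiplicative A) (ExCov_Y Z α) where
  continuous_const_smul g := by
    refine continuous_def.2 fun S hS => ExCov_open.2 fun y hy => ?_
    obtain ⟨V, hV, h⟩ := ExCov_open.1 hS _ hy
    refine ⟨V, hV, fun y' γ hγ h0 h1 e => h (g • y') γ hγ h0 h1 ?_⟩
    rw [ExCov_smul_a, ExCov_smul_a, add_sub_add_left_eq_sub, e]

theorem ExCov_cont : Continuous (ExCov_Y.x : ExCov_Y Z α → X) := by
  refine continuous_def.2 fun O hO => ExCov_open.2 fun y hy => ?_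
  refine ⟨O, hO.mem_nhds hy, fun y' γ hγ _ h1 _ => ?_⟩
  rw [mem_preimage, ← h1]
  exact hγ 1

/-- A local section through a given point. -/
theorem ExCov_sec (B : CtrStmt)
    (hZ : ∀ x ∈ Z, ∃ U, IsOpen U ∧ U ⊆ Z ∧ Ctr U x ∧ ∀ y ∈ U, ∀ V ∈ nhds y, ∃ V' ∈ nhds y,
      V' ⊆ V ∧ IsPathConnected V')
    (hα : ∀ c ∈ CH ℤ Z, α (dT ℤ X c) = 0) (y₀ : ExCov_Y Z α) :
    ∃ U, IsOpen U ∧ y₀.x ∈ U ∧ U ⊆ Z ∧ ∃ σ : X → ExCov_Y Z α, ContinuousOn σ U ∧
      (∀ x ∈ U, (σ x).x = x) ∧ IsOpen (σ '' U) ∧ σ y₀.x = y₀ ∧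
      (∀ V ∈ nhds y₀.x, ∃ V' ∈ nhds y₀.x, V' ⊆ V ∧ IsPathConnected V') ∧
      ∀ γ : C(unitInterval, X), (∀ t, γ t ∈ U) → α (pth ℤ γ) = (σ (γ 1)).a - (σ (γ 0)).a := by
  obtain ⟨U, hUo, hUZ, hU, hl⟩ := hZ y₀.x y₀.hx
  obtain ⟨k, hk⟩ := ExCov_pot B hU α fun c hc => hα c (CH_mono hUZ hc)
  let σ : X → ExCov_Y Z α := fun x =>
    if h : x ∈ Z then ⟨x, h, y₀.a - k y₀.x + k x⟩ else y₀
  have hx : ∀ x ∈ U, (σ x).x = x := fun x h => by simp only [σ, dif_pos (hUZ h)]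
  have ha : ∀ x ∈ U, (σ x).a = y₀.a - k y₀.x + k x := fun x h => by
    simp only [σ, dif_pos (hUZ h)]
  have hp : ∀ γ : C(unitInterval, X), (∀ t, γ t ∈ U) →
      α (pth ℤ γ) = (σ (γ 1)).a - (σ (γ 0)).a := fun γ hγ => by
    rw [hk γ hγ, ha _ (hγ 1), ha _ (hγ 0), add_sub_add_left_eq_sub]
  refine ⟨U, hUo, hU.1, hUZ, σ, ?_, hx, ?_, ?_, hl _ hU.1, hp⟩
  · intro x hxU
    refine ContinuousAt.continuousWithinAt ?_
    intro N hN
    obtain ⟨S, hSN, hS, hxS⟩ := _root_.mem_nhds_iff.1 hN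
    obtain ⟨V, hV, h⟩ := ExCov_open.1 hS _ hxS
    rw [hx x hxU] at hV
    obtain ⟨V', hV', hs, hc⟩ := hl x hxU (V ∩ U) (Filter.inter_mem hV (hUo.mem_nhds hxU))
    refine Filter.mem_map.2 (Filter.mem_of_superset hV' fun x' hx' => hSN ?_)
    obtain ⟨γ, hγ⟩ := hc.joinedIn x (mem_of_mem_nhds hV') x' hx'
    refine h (σ x') γ.toContinuousMap (fun t => (hs (hγ t)).1) ?_ ?_ ?_
    · rw [hx x hxU]; exact γ.source
    · rw [hx x' (hs hx').2]; exact γ.target
    · rw [hp γ.toContinuousMap fun t => (hs (hγ t)).2]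
      simp
  · refine ExCov_open.2 ?_
    rintro _ ⟨x, hxU, rfl⟩
    refine ⟨U, by rw [hx x hxU]; exact hUo.mem_nhds hxU, fun y' γ hγ h0 h1 e => ?_⟩
    rw [hx x hxU] at h0
    refine ⟨γ 1, hγ 1, ExCov_Y.ext ((hx _ (hγ 1)).trans h1) ?_⟩
    rw [hp γ hγ, h0] at e
    exact (sub_left_inj.1 e).symm
  · exact ExCov_Y.ext (hx _ hU.1) (by rw [ha _ hU.1, sub_add_cancel])

/-- The holonomy of the cover. -/
theorem ExCov_hol (B : CtrStmt)
    (hZ : ∀ x ∈ Z, ∃ U, IsOpen U ∧ U ⊆ Z ∧ Ctr U x ∧ ∀ y ∈ U, ∀ V ∈ nhds y, ∃ V' ∈ nhds y,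
      V' ⊆ V ∧ IsPathConnected V')
    (hα : ∀ c ∈ CH ℤ Z, α (dT ℤ X c) = 0) (hd : ∀ k, k ≠ 1 → ∀ c ∈ DG ℤ X k, α c = 0)
    (c : Tot ℤ (ExCov_Y Z α)) :
    α (psh ℤ ExCov_Y.x c) = val0 ℤ ExCov_Y.a (dT ℤ _ c) := by
  let Φ : Tot ℤ (ExCov_Y Z α) →ₗ[ℤ] A :=
    α.toIntLinearMap ∘ₗ psh ℤ ExCov_Y.x - val0 ℤ ExCov_Y.a ∘ₗ dT ℤ _
  have hΦ : ∀ c, Φ c = α (psh ℤ ExCov_Y.x c) - val0 ℤ ExCov_Y.a (dT ℤ _ c) := fun c => rfl
  have hdg : ∀ k, k ≠ 1 → ∀ c ∈ DG ℤ (ExCov_Y Z α) k, Φ c = 0 := by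
    intro k hk c hc
    rw [hΦ, hd k hk _ (psh_mem_DG _ hc)]
    rcases k with _ | k
    · rw [dT_of_DG_zero hc, map_zero, sub_zero]
    · rw [val0_of_DG _ (fun h => hk (by rw [h])) (dT_mem_DG hc), sub_zero]
  have hbd : ∀ c, Φ (dT ℤ _ c) = 0 := by
    intro c
    rw [hΦ, dT_dT, map_zero, sub_zero, ← dT_psh_cont ExCov_cont]
    exact hα _ (psh_mem_CH _ (fun y _ => y.hx) (mem_CH_univ c))
  choose U hUo hU hUZ σ hc hx ho h0 hl hp using ExCov_sec B hZ hα
  have hsh : ∀ y, CH ℤ (σ y '' U y) ≤ LinearMap.ker Φ := by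
    intro y c hc
    refine map_CH (T := LinearMap.ker Φ) LinearMap.id (fun k s hs => ?_) hc
    rw [LinearMap.id_apply, LinearMap.mem_ker]
    by_cases hk : k = 1
    · subst hk
      let γ : C(unitInterval, ExCov_Y Z α) :=
        s.comp (stdSimplexHomeomorphUnitInterval.symm : C(unitInterval, Sx 1))
      have e : (Finsupp.single ⟨1, s⟩ 1 : Tot ℤ (ExCov_Y Z α)) = pth ℤ γ := by
        rw [pth]
        congr 2
        ext t <;> simp [γ]
      have hγ : ∀ t, (γ t).x ∈ U y ∧ σ y (γ t).x = γ t := by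
        intro t
        obtain ⟨x, hxU, e⟩ := hs (stdSimplexHomeomorphUnitInterval.symm t)
        have e' : γ t = σ y x := e.symm
        rw [e', hx y x hxU]
        exact ⟨hxU, rfl⟩
      rw [e, hΦ, psh_pth _ γ (ExCov_cont.comp γ.continuous), dT_pth, map_sub, val0_pt, val0_pt,
        hp y _ fun t => (hγ t).1]
      change (σ y (γ 1).x).a - (σ y (γ 0).x).a - _ = 0
      rw [(hγ 1).2, (hγ 0).2, sub_self]
    · exact hdg k hk _ (single_mem_DG ⟨k, s⟩ 1)
  have hmem : ∀ y, y ∈ σ y '' U y := fun y => ⟨y.x, hU y, h0 y⟩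
  rw [← sub_eq_zero, ← hΦ]
  induction c using Tot.ind with
  | h0 => exact map_zero Φ
  | hadd a b ha hb => rw [map_add, ha, hb, add_zero]
  | h1 k s a =>
    by_cases hk : k = 1
    · subst hk
      have hc1 := inc_mem_DG (R := ℤ) 1 (Finsupp.single s a)
      generalize inc ℤ 1 (Finsupp.single s a) = c at hc1
      obtain ⟨m, hm⟩ := sdT_small (U := fun y => σ y '' U y) ho (c := c)
        (CH_mono (fun y _ => mem_iUnion.2 ⟨y, hmem y⟩) (mem_CH_univ c))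
      have e1 : Φ ((sdT ℤ _ ^ m) c) = 0 := iSup_le hsh (hm m le_rfl)
      have e2 : Φ (sdHP ℤ _ m (dT ℤ _ c)) = 0 := by
        refine DG_zero_ind (P := fun w => Φ (sdHP ℤ _ m w) = 0) (by simp)
          (fun a b ha hb => by rw [map_add, map_add, ha, hb, add_zero]) (fun y _ a => ?_)
          (mem_CH_univ _) (dT_mem_DG hc1)
        exact hsh y (sdHP_mem_CH m (Submodule.smul_mem _ a (pt_mem_CH (hmem y))))
      have e3 := congrArg Φ (dT_sdHP m c)
      rw [map_add, map_sub, hbd, e1, e2] at e3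
      simpa using e3.symm
    · exact hdg k hk _ (inc_mem_DG _ _)

/-- The continuity criterion. -/
theorem ExCov_crit (B : CtrStmt)
    (hZ : ∀ x ∈ Z, ∃ U, IsOpen U ∧ U ⊆ Z ∧ Ctr U x ∧ ∀ y ∈ U, ∀ V ∈ nhds y, ∃ V' ∈ nhds y,
      V' ⊆ V ∧ IsPathConnected V')
    (hα : ∀ c ∈ CH ℤ Z, α (dT ℤ X c) = 0) (f : ExCov_Y Z α → ExCov_Y Z α)
    (hf : Continuous (ExCov_Y.x ∘ f))
    (h : ∀ γ : C(unitInterval, ExCov_Y Z α),
      (f (γ 1)).a - (f (γ 0)).a = α (psh ℤ (ExCov_Y.x ∘ f) (pth ℤ γ))) : Continuous f := by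
  refine continuous_def.2 fun S hS => isOpen_iff_mem_nhds.2 fun y hy => ?_
  obtain ⟨V, hV, hS'⟩ := ExCov_open.1 hS _ hy
  obtain ⟨U, hUo, hU, -, σ, hc, hx, ho, h0, hl, -⟩ := ExCov_sec B hZ hα y
  have hN : (ExCov_Y.x ∘ f) ⁻¹' V ∈ nhds (σ y.x) := by
    rw [h0]; exact hf.continuousAt.preimage_mem_nhds hV
  obtain ⟨V', hV', hs, hpc⟩ := hl (σ ⁻¹' ((ExCov_Y.x ∘ f) ⁻¹' V) ∩ U)
    (Filter.inter_mem ((hc.continuousAt (hUo.mem_nhds hU)).preimage_mem_nhds hN)
      (hUo.mem_nhds hU))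
  have hW : σ '' V' ∈ nhds y := by
    refine Filter.mem_of_superset (Filter.inter_mem (ho.mem_nhds ⟨y.x, hU, h0⟩)
      (ExCov_cont.continuousAt.preimage_mem_nhds hV')) ?_
    rintro _ ⟨⟨x, hxU, rfl⟩, h2⟩
    rw [mem_preimage, hx x hxU] at h2
    exact ⟨x, h2, rfl⟩
  have hWc : IsPathConnected (σ '' V') := hpc.image' (hc.mono fun x hx => (hs hx).2)
  refine Filter.mem_of_superset hW fun y' hy' => ?_
  obtain ⟨γ, hγ⟩ := hWc.joinedIn y (mem_of_mem_nhds hW) y' hy'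
  have hcγ : Continuous ((ExCov_Y.x ∘ f) ∘ γ.toContinuousMap) := hf.comp γ.continuous
  have e := h γ.toContinuousMap
  rw [psh_pth _ _ hcγ] at e
  refine hS' (f y') ⟨_, hcγ⟩ (fun t => ?_) ?_ ?_ ?_
  · obtain ⟨x, hx, e⟩ := hγ t
    have := (hs hx).1
    rw [mem_preimage, e] at this
    exact this
  · exact congrArg (ExCov_Y.x ∘ f) γ.source
  · exact congrArg (ExCov_Y.x ∘ f) γ.target
  · rw [← e]; simp

end Aux

theorem exCov_stmt (B : Bas1) : ExCovStmt := by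
  intro X A _ _ Z α hZ hα hd
  refine ⟨ExCov_Y Z α, inferInstance, inferInstance, inferInstance, ExCov_Y.x, ExCov_Y.a,
    ⟨ExCov_cont, fun _ _ => rfl, fun y => y.hx, fun g y h => ?_, fun y y' h => ?_,
      fun x hx => ?_⟩, fun _ _ => rfl, ExCov_hol B.ctr hZ hα hd, ExCov_crit B.ctr hZ hα⟩
  · have := congrArg ExCov_Y.a h
    rw [ExCov_smul_a, add_eq_right] at this
    exact this
  · exact ⟨Multiplicative.ofAdd (y'.a - y.a), ExCov_Y.ext h.symm (sub_add_cancel _ _).symm⟩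
  · obtain ⟨U, hUo, hU, hUZ, σ, hc, hx', ho, -⟩ := ExCov_sec B.ctr hZ hα ⟨x, hx, 0⟩
    exact ⟨U, hUo, hU, hUZ, σ, hc, hx', ho⟩

end Pool.Agent.MP_bc14e1_gt

end

section

open Set Metric
open scoped Classical

namespace Pool.Agent.MP_bc14e1_gt

theorem P1a_ind {Y : Type} [TopologicalSpace Y] {P : Tot ℤ Y → Prop} (h0 : P 0)
    (hadd : ∀ a b, P a → P b → P (a + b))
    (h1 : ∀ (γ : C(unitInterval, Y)) (a : ℤ), P (a • pth ℤ γ)) {c : Tot ℤ Y}
    (hc : c ∈ DG ℤ Y 1) : P c := by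
  refine supported_ind h0 hadd ?_ hc
  rintro ⟨k, σ⟩ (rfl : k = 1) a
  have := h1 (σ.comp (stdSimplexHomeomorphUnitInterval.symm : C(unitInterval, Sx 1))) a
  have e : (σ.comp (stdSimplexHomeomorphUnitInterval.symm : C(unitInterval, Sx 1))).comp
      (stdSimplexHomeomorphUnitInterval : C(Sx 1, unitInterval)) = σ := by
    ext t
    exact congrArg σ (stdSimplexHomeomorphUnitInterval.symm_apply_apply t)
  rwa [pth, e, Finsupp.smul_single, smul_eq_mul, mul_one] at this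

theorem P1a_lift {X Y : Type} [TopologicalSpace X] [TopologicalSpace Y] {Z : Set X} {p : Y → X}
    (hp : IsCoveringMapOn p Z) {y : Y} {x : X} (h : JoinedIn Z (p y) x) :
    ∃ y', p y' = x ∧ Joined y y' := by
  obtain ⟨γ⟩ := h.joined_subtype
  obtain ⟨Γ, h1, h2⟩ := hp.isCoveringMap_restrictPreimage.exists_path_lifts
    (γ : C(unitInterval, Z)) ⟨y, h.source_mem⟩ γ.source
  refine ⟨Γ 1, congrArg Subtype.val ((congrFun h1 1).trans γ.target),
    ⟨⟨⟨fun t => Γ t, by fun_prop⟩, congrArg Subtype.val h2, rfl⟩⟩⟩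

theorem P1a_conn (B : Bas1) {X Y : Type} [TopologicalSpace X] [TopologicalSpace Y]
    [MulAction (Multiplicative ℤ) Y] [ContinuousConstSMul (Multiplicative ℤ) Y] {Z : Set X}
    {p : Y → X} {l : Y → ℤ} (hZ : IsPathConnected Z) (hp : GCov (Multiplicative ℤ) Z p)
    (hl : ∀ a y, l (Multiplicative.ofAdd a • y) = a + l y) {μ : Tot ℤ Y} (hμ : μ ∈ DG ℤ Y 1)
    (hd : dT ℤ X (psh ℤ p μ) = 0) (h1 : val0 ℤ l (dT ℤ Y μ) = 1) : PathConnectedSpace Y := by
  obtain ⟨-, -, hc, hs, -⟩ := B.cov _ X Y Z p hp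
  obtain ⟨x0, hx0⟩ := hZ.nonempty
  obtain ⟨y0, rfl⟩ := hs x0 hx0
  have tr : ∀ (a : ℤ) {y y' : Y}, Joined y y' →
      Joined (Multiplicative.ofAdd a • y) (Multiplicative.ofAdd a • y') := fun a y y' h =>
    h.map (continuous_const_smul (Multiplicative.ofAdd a))
  have ad : ∀ (a b : ℤ) (y : Y), Multiplicative.ofAdd a • Multiplicative.ofAdd b • y =
      Multiplicative.ofAdd (a + b) • y := fun a b y => by rw [ofAdd_add, mul_smul]
  let D : AddSubgroup ℤ :=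
    { carrier := {n | Joined y0 (Multiplicative.ofAdd n • y0)}
      zero_mem' := by
        change Joined y0 (Multiplicative.ofAdd 0 • y0)
        rw [ofAdd_zero, one_smul]
      add_mem' := fun {a b} ha hb => Joined.trans ha (ad a b y0 ▸ tr a hb)
      neg_mem' := fun {a} ha => by
        have := tr (-a) ha
        rw [ad, neg_add_cancel, ofAdd_zero, one_smul] at this
        exact this.symm }
  have dif : ∀ a b : ℤ, Joined (Multiplicative.ofAdd a • y0) (Multiplicative.ofAdd b • y0) →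
      b - a ∈ D := fun a b h => by
    have := tr (-a) h
    rw [ad, ad, neg_add_cancel, ofAdd_zero, one_smul, neg_add_eq_sub] at this
    exact this
  have hn : ∀ y : Y, ∃ n : ℤ, Joined y (Multiplicative.ofAdd n • y0) := fun y => by
    obtain ⟨y', e, h⟩ := P1a_lift hc (hZ.joinedIn _ (hp.mem y) _ hx0)
    obtain ⟨g, rfl⟩ := hp.trans y0 y' e.symm
    exact ⟨g.toAdd, h⟩
  choose n hn using hn
  have hr : ∀ x : X, ∃ r : ℤ, ∀ y, p y = x → l y - n y - r ∈ D := fun x => by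
    by_cases h : ∃ y, p y = x
    · obtain ⟨y', rfl⟩ := h
      refine ⟨l y' - n y', fun y e => ?_⟩
      obtain ⟨g, rfl⟩ := hp.trans y y' e
      have h2 := dif _ _ ((ad g.toAdd (n y) y0 ▸ tr g.toAdd (hn y)).symm.trans (hn (g • y)))
      have h3 : l (g • y) = g.toAdd + l y := hl g.toAdd y
      rw [h3]
      convert h2 using 1
      ring
    · exact ⟨0, fun y e => absurd ⟨y, e⟩ h⟩
  choose r hr using hr
  have key : val0 ℤ l (dT ℤ Y μ) - val0 ℤ r (dT ℤ X (psh ℤ p μ)) ∈ D := by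
    refine P1a_ind (P := fun c => val0 ℤ l (dT ℤ Y c) - val0 ℤ r (dT ℤ X (psh ℤ p c)) ∈ D)
      (by simp) (fun a b ha hb => ?_) (fun γ a => ?_) hμ
    · simp only [map_add]
      rw [add_sub_add_comm]
      exact add_mem ha hb
    · simp only [map_smul]
      rw [← smul_sub]
      refine zsmul_mem ?_ a
      rw [psh_pth p γ (hp.cont.comp γ.continuous), dT_pth, dT_pth, map_sub, map_sub, val0_pt,
        val0_pt, val0_pt, val0_pt]
      have j : Joined (γ 0) (γ 1) := ⟨⟨γ, rfl, rfl⟩⟩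
      have h2 := add_mem (sub_mem (hr _ (γ 1) rfl) (hr _ (γ 0) rfl))
        (dif _ _ ((hn (γ 0)).symm.trans (j.trans (hn (γ 1)))))
      change l (γ 1) - l (γ 0) - (r (p (γ 1)) - r (p (γ 0))) ∈ D
      convert h2 using 1
      ring
  rw [hd, map_zero, sub_zero, h1] at key
  have all : ∀ y, Joined y0 y := fun y => by
    have h2 : n y ∈ D := by simpa using zsmul_mem key (n y)
    exact Joined.trans h2 (hn y).symm
  exact ⟨⟨y0⟩, fun y y' => (all y).symm.trans (all y')⟩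

theorem p1a_stmt (B : Bas1) : P1aStmt := by
  intro κ X Y _ _ _ _ o F n φ p l hF hX hp hl hol
  have gen : ∀ g : Multiplicative ℤ, g = Multiplicative.ofAdd (1 : ℤ) ^ g.toAdd := fun g => by
    rw [← ofAdd_zsmul, smul_eq_mul, mul_one, ofAdd_toAdd]
  refine ⟨⟨hF, hp, fun g => mul_comm _ _, fun m hm => ?_, ?_, 1, fun e z w he γ hγ => ?_⟩,
    fun g => ⟨_, gen g⟩, fun y => by rw [hl, add_comm], hol, ?_⟩
  · rw [← ofAdd_zsmul, smul_eq_mul, mul_one] at hm
    exact ofAdd_eq_one.1 hm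
  · have : Subgroup.zpowers (Multiplicative.ofAdd (1 : ℤ)) = ⊤ :=
      (Subgroup.eq_top_iff' _).2 fun g => ⟨_, (gen g).symm⟩
    rw [this]
    infer_instance
  · have e01 : p (γ 0) = p (γ 1) := by
      rw [hγ, hγ]
      simp [rotL]
    obtain ⟨g, hg⟩ := hp.trans _ _ e01
    have h1 := hX.rot e z w he ⟨p ∘ γ, hp.cont.comp γ.continuous⟩ hγ
    rw [← psh_pth p γ (hp.cont.comp γ.continuous), hol, dT_pth, map_sub, val0_pt, val0_pt, hg,
      show l (g • γ 0) = g.toAdd + l (γ 0) from hl g.toAdd _, add_sub_cancel_right] at h1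
    refine ⟨g, hg, ?_⟩
    rw [pow_one]
    rcases h1 with h1 | h1
    · exact Or.inl (congrArg Multiplicative.ofAdd h1)
    · exact Or.inr (congrArg Multiplicative.ofAdd h1)
  · obtain ⟨μ, hμ, h1, -⟩ := hX.gen
    obtain ⟨μ', h2, rfl⟩ := (B.lift ℤ _ X Y Fᶜ p hp).1 1 μ hμ.1
    exact P1a_conn B hX.conn hp hl h2 hμ.2 ((hol μ').symm.trans h1)

end Pool.Agent.MP_bc14e1_gt

end

section

open Set Metric
open scoped Classical

namespace Pool.Agent.MP_bc14e1_gt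

/-- A homomorphism that kills the cycles is a coboundary on paths. -/
theorem Pack1_pot {X : Type} [TopologicalSpace X] {Z : Set X} (hZ : IsPathConnected Z)
    (β : Tot ℤ X →ₗ[ℤ] ℤ) (hβ : ∀ z ∈ ZC ℤ Z 1, β z = 0) :
    ∃ ψ : X → ℤ, ∀ γ : C(unitInterval, X), (∀ t, γ t ∈ Z) →
      β (pth ℤ γ) = ψ (γ 1) - ψ (γ 0) := by
  obtain ⟨x0, -, hx⟩ := hZ
  have h : ∀ x, ∃ δ : C(unitInterval, X), x ∈ Z → δ 0 = x0 ∧ δ 1 = x ∧ ∀ t, δ t ∈ Z := by
    intro x
    by_cases hxZ : x ∈ Z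
    · obtain ⟨δ, hδ⟩ := hx hxZ
      exact ⟨δ.toContinuousMap, fun _ => ⟨δ.source, δ.target, hδ⟩⟩
    · exact ⟨ContinuousMap.const _ x, fun h => absurd h hxZ⟩
  choose δ hδ using h
  refine ⟨fun x => β (pth ℤ (δ x)), fun γ hγ => ?_⟩
  obtain ⟨a0, a1, a2⟩ := hδ (γ 0) (hγ 0)
  obtain ⟨b0, b1, b2⟩ := hδ (γ 1) (hγ 1)
  have hz : pth ℤ (δ (γ 0)) + pth ℤ γ - pth ℤ (δ (γ 1)) ∈ ZC ℤ Z 1 := by
    refine ⟨⟨sub_mem (add_mem (pth_mem_CH a2) (pth_mem_CH hγ)) (pth_mem_CH b2),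
      sub_mem (add_mem (pth_mem_DG _) (pth_mem_DG _)) (pth_mem_DG _)⟩, ?_⟩
    rw [SetLike.mem_coe, LinearMap.mem_ker, map_sub, map_add, dT_pth, dT_pth, dT_pth, a0, a1, b0,
      b1]
    abel
  have := hβ _ hz
  rw [map_sub, map_add] at this
  linarith

/-- The sign by which an involution acts on the cocycle. -/
theorem Pack1_sign {X : Type} [TopologicalSpace X] {Z : Set X} (φ : Tot ℤ X →ₗ[ℤ] ℤ)
    (hc : ∀ c ∈ CH ℤ Z, φ (dT ℤ X c) = 0)
    (hg : ∃ μ ∈ ZC ℤ Z 1, φ μ = 1 ∧ ∀ z ∈ ZC ℤ Z 1, z - φ z • μ ∈ BC ℤ Z 1)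
    {I : X → X} (hI : Continuous I) (hII : ∀ x, I (I x) = x) (hZ : MapsTo I Z Z) :
    ∃ ε : ℤ, ε * ε = 1 ∧ ∀ z ∈ ZC ℤ Z 1, φ (psh ℤ I z) = ε * φ z := by
  obtain ⟨μ, hμ, h1, h2⟩ := hg
  have key : ∀ z ∈ ZC ℤ Z 1, φ (psh ℤ I z) = φ (psh ℤ I μ) * φ z := by
    intro z hz
    obtain ⟨b, hb, e⟩ := h2 z hz
    have h3 := hc _ (psh_mem_CH I hZ hb.1)
    rw [dT_psh_cont hI, e, map_sub, map_sub, map_smul, map_smul, smul_eq_mul] at h3
    linarith
  refine ⟨φ (psh ℤ I μ), ?_, key⟩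
  have hμ' : psh ℤ I μ ∈ ZC ℤ Z 1 := by
    refine ⟨⟨psh_mem_CH I hZ hμ.1.1, psh_mem_DG I hμ.1.2⟩, ?_⟩
    have : dT ℤ X μ = 0 := hμ.2
    rw [SetLike.mem_coe, LinearMap.mem_ker, dT_psh_cont hI, this, map_zero]
  have h4 := key _ hμ'
  have e : I ∘ I = id := funext hII
  rw [psh_psh' I hI, e, psh_id, h1] at h4
  exact h4.symm

theorem pack1_stmt (B : Bas1) (hLocCtr : LocCtrStmt)
    (hExCov : ExCovStmt) (hP1a : P1aStmt) : Pack1Stmt := by
  intro κ X _ _ _ o F n φ I hF hX hII hIF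
  have hloc := hLocCtr X X id (Homeomorph.refl X).isLocalHomeomorph
  obtain ⟨Y, tY, aY, cY, p, l, hcov, hlev, hhol, hcont⟩ := hExCov X ℤ Fᶜ φ.toAddMonoidHom
    (fun x hx => by
      obtain ⟨-, ⟨U, hU, hUF, hUx⟩, -⟩ := hloc x Fᶜ (hF.cl.isOpen_compl.mem_nhds hx)
      exact ⟨U, hU, hUF, hUx, fun y _ V hV => (hloc y V hV).2.2⟩)
    hX.coc hX.dg
  obtain ⟨-, -, -, hsurj, hT2⟩ := B.cov _ X Y Fᶜ p hcov
  have hP := hP1a κ X Y o F n φ p l hF hX hcov hlev hhol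
  have hIZ : MapsTo I Fᶜ Fᶜ := fun x hx h => hx ((hIF x).1 h)
  obtain ⟨ε, hε, hφ⟩ := Pack1_sign φ hX.coc hX.gen I.continuous hII hIZ
  obtain ⟨ψ, hψ⟩ := Pack1_pot hX.conn (φ ∘ₗ psh ℤ I - ε • φ) fun z hz => by
    rw [LinearMap.sub_apply, LinearMap.comp_apply, LinearMap.smul_apply, hφ z hz, smul_eq_mul,
      sub_self]
  simp only [LinearMap.sub_apply, LinearMap.comp_apply, LinearMap.smul_apply, smul_eq_mul] at hψ
  have hlev' : ∀ (g : Multiplicative ℤ) y, l (g • y) = g.toAdd + l y := fun g y => hlev g.toAdd y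
  have uniq : ∀ y y', p y = p y' → l y = l y' → y = y' := by
    intro y y' h1 h2
    obtain ⟨g, rfl⟩ := hcov.trans y y' h1
    rw [hlev'] at h2
    have : g = 1 := Multiplicative.toAdd.injective (by rw [toAdd_one]; linarith)
    rw [this, one_smul]
  have hex : ∀ y, ∃ y', p y' = I (p y) ∧ l y' = ε * l y + ψ (p y) := by
    intro y
    obtain ⟨y1, h1⟩ := hsurj (I (p y)) (hIZ (hcov.mem y))
    refine ⟨Multiplicative.ofAdd (ε * l y + ψ (p y) - l y1) • y1, ?_, ?_⟩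
    · rw [hcov.inv, h1]
    · rw [hlev]
      ring
  choose J hJp hJl using hex
  have hJc : Continuous J := by
    have e : p ∘ J = I ∘ p := funext hJp
    refine hcont J (by rw [e]; exact I.continuous.comp hcov.cont) fun γ => ?_
    have h1 := hhol (pth ℤ γ)
    rw [dT_pth, map_sub, val0_pt, val0_pt] at h1
    have hγ : Continuous (p ∘ γ) := hcov.cont.comp γ.continuous
    have h2 := hψ ⟨p ∘ γ, hγ⟩ fun t => hcov.mem _
    rw [← psh_pth p γ hγ] at h2
    rw [e, ← psh_psh' I hcov.cont, hJl, hJl]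
    change φ _ = _ at h1
    change _ = φ _
    change _ = ψ (p (γ 1)) - ψ (p (γ 0)) at h2
    rw [h1] at h2
    linarith
  have hconst : ∃ c : ℤ, ∀ x ∈ Fᶜ, ε * ψ x + ψ (I x) = c := by
    obtain ⟨x0, -, hx⟩ := hX.conn
    refine ⟨ε * ψ x0 + ψ (I x0), fun x hxZ => ?_⟩
    obtain ⟨δ, hδ⟩ := hx hxZ
    have h1 := hψ δ.toContinuousMap hδ
    have hγ : Continuous (I ∘ δ.toContinuousMap) := I.continuous.comp δ.continuous
    have h2 := hψ ⟨I ∘ δ.toContinuousMap, hγ⟩ fun t => hIZ (hδ t)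
    have e : I ∘ I = id := funext hII
    rw [← psh_pth I _ hγ, psh_psh' I I.continuous, e, psh_id] at h2
    change _ = ψ (I (δ 1)) - ψ (I (δ 0)) at h2
    change _ = ψ (δ 1) - ψ (δ 0) at h1
    rw [δ.source, δ.target] at h1 h2
    linear_combination -ε * h1 - h2 - φ (pth ℤ δ.toContinuousMap) * hε
  obtain ⟨c, hc⟩ := hconst
  have hJJ : ∀ y, J (J y) = Multiplicative.ofAdd c • y := by
    intro y
    apply uniq
    · rw [hJp, hJp, hII, hcov.inv]
    · rw [hJl, hJl, hJp, hlev, ← hc (p y) (hcov.mem y)]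
      linear_combination l y * hε
  have hli : ∀ y, (Multiplicative.ofAdd c)⁻¹ • J (J y) = y := fun y => by rw [hJJ, inv_smul_smul]
  refine ⟨Y, tY, (hT2 inferInstance).1, aY, cY, p, l, hP,
    { toFun := J
      invFun := fun y => (Multiplicative.ofAdd c)⁻¹ • J y
      left_inv := hli
      right_inv := fun y => ?_
      continuous_toFun := hJc
      continuous_invFun := (continuous_const_smul _).comp hJc }, ε,
    Int.eq_one_or_neg_one_of_mul_eq_one hε, hJp, fun g y => ?_, _, hJJ⟩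
  · have h1 : J (J ((Multiplicative.ofAdd c)⁻¹ • y)) = y := by rw [hJJ, smul_inv_smul]
    change J ((Multiplicative.ofAdd c)⁻¹ • J y) = y
    rw [← h1, hli]
  · change J (g • y) = g ^ ε • J y
    apply uniq
    · rw [hJp, hcov.inv, hcov.inv, hJp]
    · rw [hJl, hlev', hlev', hJl, hcov.inv, toAdd_zpow, smul_eq_mul]
      ring

end Pool.Agent.MP_bc14e1_gt

end

section

open Set Metric
open scoped Classical

namespace Pool.Agent.MP_bc14e1_gt

theorem P2a_val0 {X M : Type} [TopologicalSpace X] [AddCommGroup M] (m : M) (c : Tot ℤ X) :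
    val0 ℤ (fun _ : X => m) (dT ℤ X c) = 0 := by
  have h : ∀ b : Sing X 0 →₀ ℤ, val0 ℤ (fun _ : X => m) (inc ℤ 0 b) = aug ℤ X b • m := by
    intro b
    induction b using Finsupp.induction_linear with
    | zero => simp
    | add a b ha hb => rw [map_add, map_add, ha, hb, map_add, add_smul]
    | single σ a => rw [inc_single, aug_single]; simp [val0]
  induction c using Tot.ind with
  | h0 => simp
  | hadd a b ha hb => rw [map_add, map_add, ha, hb, add_zero]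
  | h1 k σ a =>
    rcases k with _ | _ | k
    · rw [dT_inc_zero, map_zero]
    · rw [dT_inc_succ, h, aug_bd, zero_smul]
    · rw [dT_inc_succ]
      exact val0_of_DG _ (Nat.succ_ne_zero k) (inc_mem_DG _ _)

theorem P2a_rep {G Y : Type} [Group G] [MulAction G Y] (t : G)
    (hf : ∀ (n : ℤ) (y : Y), t ^ n • y = y → n = 0) :
    ∃ (x : Y → Y) (N : Y → ℤ), (∀ y, t ^ N y • x y = y) ∧ (∀ y, x (t • y) = x y) ∧
      ∀ y, N (t • y) = N y + 1 := by
  have h0 : ∀ S : Set Y, S.Nonempty → ∃ x, x ∈ S := fun _ h => h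
  choose f hfS using h0
  have hne : ∀ y : Y, {x | ∃ n : ℤ, t ^ n • x = y}.Nonempty := fun y =>
    ⟨y, 0, by rw [zpow_zero, one_smul]⟩
  have hS : ∀ y : Y, {x | ∃ n : ℤ, t ^ n • x = t • y} = {x | ∃ n : ℤ, t ^ n • x = y} := by
    intro y
    ext x
    constructor
    · rintro ⟨n, hn⟩
      exact ⟨-1 + n, by rw [zpow_add, mul_smul, hn, zpow_neg_one, inv_smul_smul]⟩
    · rintro ⟨n, hn⟩
      exact ⟨1 + n, by rw [zpow_add, mul_smul, hn, zpow_one]⟩
  have hx : ∀ y, f _ (hne (t • y)) = f _ (hne y) := fun y => by simp only [hS]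
  choose N hN using fun y => hfS _ (hne y)
  refine ⟨fun y => f _ (hne y), N, hN, hx, fun y => ?_⟩
  have h1 := hN (t • y)
  rw [hx] at h1
  have h2 := hf (-(1 + N y) + N (t • y)) (f _ (hne y)) (by
    rw [zpow_add, mul_smul, h1, zpow_neg, inv_smul_eq_iff, zpow_add, mul_smul, hN, zpow_one])
  omega

theorem P2a_fun {G Y : Type} [Group G] [TopologicalSpace Y] [MulAction G Y]
    [ContinuousConstSMul G Y] [PathConnectedSpace Y] (t : G)
    (hf : ∀ (n : ℤ) (y : Y), t ^ n • y = y → n = 0) :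
    ∃ (y₀ : Y) (w : Tot ℤ Y) (P : Y → Tot ℤ Y), (∀ y, P y ∈ DG ℤ Y 1) ∧
      (∀ y, dT ℤ Y (P y) = pt ℤ y - pt ℤ y₀) ∧ ∀ y, P (t • y) = gs ℤ Y t (P y) + w := by
  obtain ⟨y₀⟩ : Nonempty Y := inferInstance
  have hr : ∀ y : Y, ∃ c ∈ DG ℤ Y 1, dT ℤ Y c = pt ℤ y - pt ℤ y₀ := fun y =>
    ⟨pth ℤ (PathConnectedSpace.somePath y₀ y).toContinuousMap, pth_mem_DG _, by
      rw [dT_pth]; simp⟩
  choose r hr1 hr2 using hr
  obtain ⟨x, N, h1, h2, h3⟩ := P2a_rep t hf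
  have hpt : ∀ (g : G) (y : Y), gs ℤ Y g (pt ℤ y) = pt ℤ (g • y) := fun g y => psh_pt _ y
  let e : Equiv.Perm (Tot ℤ Y) :=
    { toFun := fun c => gs ℤ Y t c + r (t • y₀)
      invFun := fun c => gs ℤ Y t⁻¹ (c - r (t • y₀))
      left_inv := fun c => by
        simp only [add_sub_cancel_right]
        rw [← gs_mul, inv_mul_cancel, gs_one]
      right_inv := fun c => by
        simp only
        rw [← gs_mul, mul_inv_cancel, gs_one, sub_add_cancel] }
  have hQ : ∀ (n : ℤ) (y : Y) (c : Tot ℤ Y), c ∈ DG ℤ Y 1 ∧ dT ℤ Y c = pt ℤ y - pt ℤ y₀ →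
      (e ^ n) c ∈ DG ℤ Y 1 ∧ dT ℤ Y ((e ^ n) c) = pt ℤ (t ^ n • y) - pt ℤ y₀ := by
    intro n
    induction n using Int.induction_on with
    | zero => intro y c h; simpa using h
    | succ n ih =>
      intro y c h
      rw [zpow_add_one, zpow_add_one, mul_smul, Equiv.Perm.mul_apply]
      refine ih _ _ ⟨add_mem (gs_mem_DG t h.1) (hr1 _), ?_⟩
      change dT ℤ Y (gs ℤ Y t c + r (t • y₀)) = _
      rw [map_add, dT_gs, h.2, hr2, map_sub, hpt, hpt, sub_add_sub_cancel]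
    | pred n ih =>
      intro y c h
      rw [zpow_sub_one, zpow_sub_one, mul_smul, Equiv.Perm.mul_apply]
      refine ih _ _ ⟨gs_mem_DG t⁻¹ (sub_mem h.1 (hr1 _)), ?_⟩
      change dT ℤ Y (gs ℤ Y t⁻¹ (c - r (t • y₀))) = _
      rw [dT_gs, map_sub, h.2, hr2, sub_sub_sub_cancel_right, map_sub, hpt, hpt, inv_smul_smul]
  refine ⟨y₀, r (t • y₀), fun y => (e ^ N y) (r (x y)), fun y => (hQ _ _ _ ⟨hr1 _, hr2 _⟩).1,
    fun y => ?_, fun y => ?_⟩
  · rw [(hQ _ _ _ ⟨hr1 _, hr2 _⟩).2, h1]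
  · beta_reduce
    rw [h2, h3, add_comm (N y), zpow_one_add, Equiv.Perm.mul_apply]
    rfl

theorem p2a_stmt (B : Bas1) : P2aStmt := by
  intro G Y A _ _ _ _ _ t τ α₀ hY hf hB hτ
  obtain ⟨y₀, w, P, h1, h2, h3⟩ := P2a_fun t hf
  have hR : ∀ b ∈ DG ℤ Y 0, val0 ℤ P b ∈ DG ℤ Y 1 ∧
      dT ℤ Y (val0 ℤ P b) = b - val0 ℤ (fun _ : Y => pt ℤ y₀) b ∧
      val0 ℤ P (gs ℤ Y t b) = gs ℤ Y t (val0 ℤ P b) + val0 ℤ (fun _ : Y => w) b := by
    intro b hb
    refine DG_zero_ind (P := fun b => val0 ℤ P b ∈ DG ℤ Y 1 ∧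
      dT ℤ Y (val0 ℤ P b) = b - val0 ℤ (fun _ : Y => pt ℤ y₀) b ∧
      val0 ℤ P (gs ℤ Y t b) = gs ℤ Y t (val0 ℤ P b) + val0 ℤ (fun _ : Y => w) b)
      (by simp) ?_ ?_ (mem_CH_univ b) hb
    · rintro a b ⟨a1, a2, a3⟩ ⟨b1, b2, b3⟩
      simp only [map_add]
      refine ⟨add_mem a1 b1, ?_, ?_⟩
      · rw [a2, b2]; abel
      · rw [a3, b3]; abel
    · intro y _ a
      have hpt : gs ℤ Y t (pt ℤ y) = pt ℤ (t • y) := psh_pt _ y
      simp only [map_smul, hpt, val0_pt, h2, h3, smul_sub, smul_add, and_self, and_true]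
      exact Submodule.smul_mem _ _ (h1 y)
  let π : Tot ℤ Y →ₗ[ℤ] Tot ℤ Y := deg ℤ Y 1 - val0 ℤ P ∘ₗ dT ℤ Y ∘ₗ deg ℤ Y 1
  have hπ : ∀ c, π c = deg ℤ Y 1 c - val0 ℤ P (dT ℤ Y (deg ℤ Y 1 c)) := fun c => rfl
  have hmem : ∀ c, π c ∈ ZC ℤ (univ : Set Y) 1 := by
    intro c
    obtain ⟨k1, k2, -⟩ := hR _ (dT_mem_DG (deg_mem 1 c))
    refine ⟨⟨mem_CH_univ _, sub_mem (deg_mem 1 c) k1⟩, ?_⟩
    change dT ℤ Y (π c) = 0
    rw [hπ, map_sub, k2, P2a_val0, sub_zero, sub_self]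
  refine ⟨α₀.comp (π.codRestrict _ hmem).toAddMonoidHom, fun z => ?_, fun c => ?_,
    fun k hk c hc => ?_, fun c => ?_⟩
  · refine congrArg α₀ (Subtype.ext ?_)
    change π z.1 = z.1
    have h : dT ℤ Y z.1 = 0 := z.2.2
    rw [hπ, deg_of_mem z.2.1.2, h, map_zero, sub_zero]
  · refine hB _ ⟨deg ℤ Y 2 c, ⟨mem_CH_univ _, deg_mem 2 c⟩, ?_⟩
    change _ = π (dT ℤ Y c)
    rw [hπ, deg_dT, dT_dT, map_zero, sub_zero]
  · refine (congrArg α₀ (Subtype.ext ?_)).trans (map_zero α₀)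
    change π c = 0
    rw [hπ, deg_eq_zero hk.symm hc, map_zero, map_zero, sub_zero]
  · refine hτ _ _ ?_
    change π (gs ℤ Y t c) = gs ℤ Y t (π c)
    have h : deg ℤ Y 1 (gs ℤ Y t c) = gs ℤ Y t (deg ℤ Y 1 c) := deg_psh _ 1 c
    rw [hπ, hπ, h, dT_gs, (hR _ (dT_mem_DG (deg_mem 1 c))).2.2, P2a_val0, add_zero, map_sub]

end Pool.Agent.MP_bc14e1_gt

end

section

open Set Metric
open scoped Classical

namespace Pool.Agent.MP_bc14e1_gt

section Alg

variable {L C : Type} [CommRing L] [AddCommGroup C] [Module L C]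

/-- The elements of `Z` are generated modulo `Bd` by finitely many elements of `Z'`. -/
def FGMV_fg (Z Z' Bd : Submodule L C) : Prop := ∃ F : Submodule L C, F.FG ∧ F ≤ Z' ∧ Z ≤ F ⊔ Bd

theorem FGMV_lift {C' : Type} [AddCommGroup C'] [Module L C'] (D : Submodule L C)
    (δ : C →ₗ[L] C') (h : (D.map δ).FG) :
    ∃ D' : Submodule L C, D'.FG ∧ D' ≤ D ∧ D.map δ ≤ D'.map δ := by
  obtain ⟨n, z, hz⟩ := Submodule.fg_iff_exists_fin_generating_family.1 h
  have h1 : ∀ i, ∃ x ∈ D, δ x = z i := fun i =>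
    Submodule.mem_map.1 (hz ▸ Submodule.subset_span (mem_range_self i))
  choose x hx hx' using h1
  refine ⟨Submodule.span L (range x), Submodule.fg_span (finite_range x),
    Submodule.span_le.2 (range_subset_iff.2 hx), ?_⟩
  rw [← hz]
  exact Submodule.span_le.2 (range_subset_iff.2 fun i =>
    ⟨x i, Submodule.subset_span (mem_range_self i), hx' i⟩)

theorem FGMV_alg [IsNoetherianRing L] (d : C →ₗ[L] C) {MU MV MA MB MO M0 BO F0 : Submodule L C}
    (hUA : MU ≤ MA) (hVB : MV ≤ MB) (h0A : M0 ≤ MA) (h0B : M0 ≤ MB) (hAO : MA ≤ MO)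
    (hBO : MB ≤ MO) (hF0 : F0.FG)
    (h0 : ∀ a ∈ MU, ∀ b ∈ MV, d a + d b = 0 → d a ∈ F0 ⊔ M0.map d)
    (hA : FGMV_fg (MA ⊓ LinearMap.ker d) (MO ⊓ LinearMap.ker d) BO)
    (hB : FGMV_fg (MB ⊓ LinearMap.ker d) (MO ⊓ LinearMap.ker d) BO) :
    FGMV_fg ((MU ⊔ MV) ⊓ LinearMap.ker d) (MO ⊓ LinearMap.ker d) BO := by
  obtain ⟨FA, hFA, hFA1, hFA2⟩ := hA
  obtain ⟨FB, hFB, hFB1, hFB2⟩ := hB
  obtain ⟨D', hD', hD1, hD2⟩ := FGMV_lift
    (MU.prod MV ⊓ LinearMap.ker (d ∘ₗ LinearMap.coprod LinearMap.id LinearMap.id))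
    ((M0.map d).mkQ ∘ₗ d ∘ₗ LinearMap.fst L C C) ((hF0.map (M0.map d).mkQ).of_le (by
      rintro _ ⟨⟨a, b⟩, ⟨⟨ha, hb⟩, hab⟩, rfl⟩
      obtain ⟨f, hf, w, hw, e⟩ := Submodule.mem_sup.1 (h0 a ha b hb (by
        rw [← map_add]
        exact hab))
      refine ⟨f, hf, ?_⟩
      change (M0.map d).mkQ f = (M0.map d).mkQ (d a)
      rw [← e, map_add, Submodule.mkQ_apply _ w, (Submodule.Quotient.mk_eq_zero _).2 hw,
        add_zero]))
  refine ⟨D'.map (LinearMap.coprod LinearMap.id LinearMap.id) ⊔ (FA ⊔ FB),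
    (hD'.map _).sup (hFA.sup hFB), sup_le ?_ (sup_le hFA1 hFB1), ?_⟩
  · rintro _ ⟨⟨a, b⟩, hab, rfl⟩
    obtain ⟨⟨ha, hb⟩, h⟩ := hD1 hab
    exact ⟨MO.add_mem (hAO (hUA ha)) (hBO (hVB hb)), h⟩
  · rintro y ⟨hy, hy0⟩
    obtain ⟨a, ha, b, hb, rfl⟩ := Submodule.mem_sup.1 hy
    obtain ⟨⟨a', b'⟩, hab', e⟩ := hD2 ⟨(a, b), ⟨⟨ha, hb⟩, hy0⟩, rfl⟩
    obtain ⟨⟨ha', hb'⟩, h'⟩ := hD1 hab'
    obtain ⟨v, hv, hv'⟩ : d a' - d a ∈ M0.map d := (Submodule.Quotient.eq _).1 e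
    have e1 : d (a + b) = 0 := hy0
    have e2 : d (a' + b') = 0 := h'
    rw [map_add] at e1 e2
    have h1 := hFA2 (x := a - a' + v) ⟨MA.add_mem (MA.sub_mem (hUA ha) (hUA ha')) (h0A hv), by
      rw [SetLike.mem_coe, LinearMap.mem_ker, map_add, map_sub, hv']
      abel⟩
    have h2 := hFB2 (x := b - b' - v) ⟨MB.sub_mem (MB.sub_mem (hVB hb) (hVB hb')) (h0B hv), by
      rw [SetLike.mem_coe, LinearMap.mem_ker, map_sub, map_sub, hv',
        eq_neg_of_add_eq_zero_right e1, eq_neg_of_add_eq_zero_right e2]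
      abel⟩
    have e3 : a + b = (a' + b') + ((a - a' + v) + (b - b' - v)) := by abel
    rw [e3]
    refine Submodule.add_mem _ (Submodule.mem_sup_left (Submodule.mem_sup_left
      ⟨(a', b'), hab', rfl⟩)) (Submodule.add_mem _ ?_ ?_)
    · exact sup_le_sup_right (le_sup_left.trans le_sup_right) BO h1
    · exact sup_le_sup_right (le_sup_right.trans le_sup_right) BO h2

end Alg

section Top

variable {R : Type} [CommRing R] {X G Y : Type} [Group G] [TopologicalSpace Y] [MulAction G Y]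
  [ContinuousConstSMul G Y] {p : Y → X} {s : G}

theorem FGMV_iff (hp : ∀ y, p (s • y) = p y) (N O : Set X) (k : ℕ) :
    FGI R s (p ⁻¹' N) (p ⁻¹' O) k ↔
      FGMV_fg (lvTw R s p hp k N ⊓ LinearMap.ker (dTw R Y s))
        (lvTw R s p hp k O ⊓ LinearMap.ker (dTw R Y s))
        ((lvTw R s p hp (k + 1) O).map (dTw R Y s)) := by
  constructor
  · rintro ⟨n, z, hz, h⟩
    refine ⟨Submodule.span (Lam R) (range fun i => toTw R Y s (z i)),
      Submodule.fg_span (finite_range _), Submodule.span_le.2 (range_subset_iff.2 hz),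
      fun y hy => ?_⟩
    obtain ⟨a, ha⟩ := h y hy
    refine Submodule.mem_sup.2 ⟨∑ i, a i • toTw R Y s (z i),
      Submodule.sum_mem _ fun i _ => Submodule.smul_mem _ _
        (Submodule.subset_span (mem_range_self i)),
      y - ∑ i, a i • toTw R Y s (z i), ha, add_sub_cancel _ _⟩
  · rintro ⟨F, hF, h1, h2⟩
    obtain ⟨n, z, rfl⟩ := Submodule.fg_iff_exists_fin_generating_family.1 hF
    refine ⟨n, z, fun i => h1 (Submodule.subset_span (mem_range_self i)), fun y hy => ?_⟩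
    obtain ⟨f, hf, w, hw, e⟩ := Submodule.mem_sup.1 (h2 (x := toTw R Y s y) hy)
    obtain ⟨a, rfl⟩ := (Submodule.mem_span_range_iff_exists_fun _).1 hf
    have e' : toTw R Y s y - ∑ i, a i • z i = w := by rw [← e, add_sub_cancel_left]
    refine ⟨a, ?_⟩
    change toTw R Y s y - ∑ i, a i • z i ∈ (lvTw R s p hp (k + 1) O).map (dTw R Y s)
    rwa [e']

theorem FGMV_mono (hp : ∀ y, p (s • y) = p y) (k : ℕ) {N O : Set X} (h : N ⊆ O) :
    lvTw R s p hp k N ≤ lvTw R s p hp k O :=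
  fun _ hc => ⟨CH_mono (preimage_mono h) hc.1, hc.2⟩

theorem FGMV_small {U V : Set Y} (hU : IsOpen U) (hV : IsOpen V) {k : ℕ} {y : Tot R Y}
    (hy : y ∈ ZC R (U ∪ V) k) : ∃ a ∈ CC R U k, ∃ b ∈ CC R V k, dT R Y (a + b) = 0 ∧
      y - (a + b) ∈ BC R (U ∪ V) k := by
  obtain ⟨m, hm⟩ := sdT_small_two hU hV hy.1.1
  obtain ⟨a, ha, b, hb, e⟩ := Submodule.mem_sup.1 (hm m le_rfl)
  have h0 : dT R Y y = 0 := hy.2
  have e1 : deg R Y k a + deg R Y k b = (sdT R Y ^ m) y := by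
    rw [← map_add, e, deg_of_mem (sdT_pow_mem_DG m hy.1.2)]
  refine ⟨deg R Y k a, ⟨deg_mem_CH k ha, deg_mem k a⟩, deg R Y k b,
    ⟨deg_mem_CH k hb, deg_mem k b⟩, ?_, sdHP R Y m y,
    ⟨sdHP_mem_CH m hy.1.1, sdHP_mem_DG m hy.1.2⟩, ?_⟩
  · rw [e1, dT_sdT_pow, h0, map_zero]
  · rw [e1, ← dT_sdHP, h0, map_zero, add_zero]

theorem FGMV_step [IsNoetherianRing (Lam R)] [TopologicalSpace X] (hc : Continuous p)
    (hp : ∀ y, p (s • y) = p y) {k : ℕ} {U V NA NB O : Set X} (hU : IsOpen U) (hV : IsOpen V)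
    (hUA : U ⊆ NA) (hVB : V ⊆ NB) (hAO : NA ⊆ O) (hBO : NB ⊆ O)
    (hA : FGI R s (p ⁻¹' NA) (p ⁻¹' O) k) (hB : FGI R s (p ⁻¹' NB) (p ⁻¹' O) k)
    {F0 : Submodule (Lam R) (Tw R Y s)} (hF0 : F0.FG)
    (h0 : ∀ a ∈ lvTw R s p hp k U, ∀ b ∈ lvTw R s p hp k V, dTw R Y s a + dTw R Y s b = 0 →
      dTw R Y s a ∈ F0 ⊔ (lvTw R s p hp k (NA ∩ NB)).map (dTw R Y s)) :
    FGI R s (p ⁻¹' (U ∪ V)) (p ⁻¹' O) k := by
  obtain ⟨F, hF, h1, h2⟩ := FGMV_alg (dTw R Y s) (FGMV_mono hp k hUA) (FGMV_mono hp k hVB)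
    (FGMV_mono hp k inter_subset_left) (FGMV_mono hp k inter_subset_right) (FGMV_mono hp k hAO)
    (FGMV_mono hp k hBO) hF0 h0 ((FGMV_iff hp _ _ _).1 hA) ((FGMV_iff hp _ _ _).1 hB)
  refine (FGMV_iff hp _ _ _).2 ⟨F, hF, h1, fun y hy => ?_⟩
  obtain ⟨a, ha, b, hb, hab, hw⟩ := FGMV_small (R := R) (hU.preimage hc) (hV.preimage hc)
    (k := k) (y := y) hy
  have h3 := h2 (x := toTw R Y s a + toTw R Y s b)
    ⟨Submodule.add_mem_sup (S := lvTw R s p hp k U) (T := lvTw R s p hp k V) ha hb, hab⟩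
  have h4 : y - (toTw R Y s a + toTw R Y s b) ∈
      (lvTw R s p hp (k + 1) (U ∪ V)).map (dTw R Y s) := hw
  have h5 := Submodule.map_mono (f := dTw R Y s)
    (FGMV_mono hp (k + 1) (union_subset (hUA.trans hAO) (hVB.trans hBO))) h4
  have h6 := Submodule.add_mem _ h3 (Submodule.mem_sup_right h5)
  rwa [add_sub_cancel] at h6

end Top

theorem fgMV_stmt (B : Bas1) : FGMVStmt := by
  intro R _ _ X G Y _ _ _ _ _ _ p s hc hp
  have := B.laur.2.1 R
  refine ⟨fun k O _ _ => ⟨∅, isOpen_empty, Subset.rfl, empty_subset _, 0, Fin.elim0,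
    fun i => i.elim0, fun y hy => ⟨Fin.elim0, ?_⟩⟩, fun A B' hA hB fA fB fI k O hO hAB => ?_⟩
  · rw [eq_zero_of_mem_CH_empty hy.1.1, Finset.univ_eq_empty, Finset.sum_empty, sub_zero]
    exact Submodule.zero_mem _
  obtain ⟨NA, oA, sA, tA, gA⟩ := fA k O hO (subset_union_left.trans hAB)
  obtain ⟨NB, oB, sB, tB, gB⟩ := fB k O hO (subset_union_right.trans hAB)
  cases k with
  | zero =>
    refine ⟨NA ∪ NB, oA.union oB, union_subset_union sA sB, union_subset tA tB,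
      FGMV_step hc hp oA oB Subset.rfl Subset.rfl tA tB gA gB Submodule.fg_bot
        fun a ha _ _ _ => ?_⟩
    have h : dTw R Y s a = 0 := dT_of_DG_zero ha.2
    rw [h]
    exact Submodule.zero_mem _
  | succ k =>
    obtain ⟨N0, o0, s0, -, g0⟩ := fI k (NA ∩ NB) (oA.inter oB) (inter_subset_inter sA sB)
    obtain ⟨U, V, oU, oV, sU, sV, hUV⟩ := exists_nhds_inter hA hB o0 s0
    obtain ⟨F0, hF0, -, h2⟩ := (FGMV_iff hp _ _ _).1 g0
    refine ⟨U ∩ NA ∪ V ∩ NB, (oU.inter oA).union (oV.inter oB),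
      union_subset_union (subset_inter sU sA) (subset_inter sV sB),
      union_subset (inter_subset_right.trans tA) (inter_subset_right.trans tB),
      FGMV_step hc hp (oU.inter oA) (oV.inter oB) inter_subset_right inter_subset_right tA tB gA gB
        hF0 fun a ha b hb hab => h2 ⟨⟨?_, dT_mem_DG ha.2⟩, dT_dT a⟩⟩
    have h3 : dT R Y a ∈ CH R (p ⁻¹' (U ∩ NA)) := dT_mem_CH ha.1
    have h4 : dT R Y a ∈ CH R (p ⁻¹' (V ∩ NB)) := by
      have e : dT R Y a = -dT R Y b := eq_neg_of_add_eq_zero_left hab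
      rw [e]
      exact Submodule.neg_mem _ (dT_mem_CH hb.1)
    have h5 : dT R Y a ∈ CH R (p ⁻¹' (U ∩ NA) ∩ p ⁻¹' (V ∩ NB)) := by
      rw [CH_inter]
      exact ⟨h3, h4⟩
    exact CH_mono (B := p ⁻¹' N0) (fun y hy => hUV ⟨hy.1.1, hy.2.1⟩) h5

end Pool.Agent.MP_bc14e1_gt

end

section

open Set Metric
open scoped Classical

namespace Pool.Agent.MP_bc14e1_gt

/-- Cycles in a union of two disjoint open sets split. -/
theorem FGCtr_two {R Y : Type} [CommRing R] [TopologicalSpace Y] {U V : Set Y} (hU : IsOpen U)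
    (hV : IsOpen V) (hd : Disjoint U V) (k : ℕ) : ZC R (U ∪ V) k ≤ ZC R U k ⊔ ZC R V k := by
  rintro c ⟨⟨h1, h2⟩, h3⟩
  rw [SetLike.mem_coe, CH_union_of_disjoint hU hV hd] at h1
  obtain ⟨a, ha, b, hb, e⟩ := Submodule.mem_sup.1 h1
  have e' : deg R Y k a + deg R Y k b = c := by rw [← map_add, e, deg_of_mem h2]
  have ha' := deg_mem_CH k ha
  have hb' := deg_mem_CH k hb
  have h4 : dT R Y (deg R Y k a) + dT R Y (deg R Y k b) = 0 := by
    rw [← map_add, e']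
    exact h3
  have h5 : dT R Y (deg R Y k a) = 0 := by
    apply eq_zero_of_mem_CH_empty
    rw [← hd.inter_eq, CH_inter]
    refine ⟨dT_mem_CH ha', ?_⟩
    rw [eq_neg_of_add_eq_zero_left h4]
    exact neg_mem (dT_mem_CH hb')
  rw [h5, zero_add] at h4
  exact Submodule.mem_sup.2 ⟨_, ⟨⟨ha', deg_mem k a⟩, h5⟩, _, ⟨⟨hb', deg_mem k b⟩, h4⟩, e'⟩

/-- Cycles in a disjoint union of open sets split. -/
theorem FGCtr_disj {R Y ι : Type} [CommRing R] [TopologicalSpace Y] (S : ι → Set Y)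
    (hS : ∀ i, IsOpen (S i)) (hd : Pairwise fun i j => Disjoint (S i) (S j)) (k : ℕ)
    (T : Submodule R (Tot R Y)) (h : ∀ i, ZC R (S i) k ≤ T) : ZC R (⋃ i, S i) k ≤ T := by
  have hop : ∀ t : Finset ι, IsOpen (⋃ i ∈ t, S i) := fun t => isOpen_biUnion fun i _ => hS i
  have key : ∀ t : Finset ι, ZC R (⋃ i ∈ t, S i) k ≤ T := by
    intro t
    induction t using Finset.induction_on with
    | empty =>
      intro c hc
      have : c = 0 := eq_zero_of_mem_CH_empty (by simpa using hc.1.1)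
      rw [this]
      exact zero_mem _
    | insert a t ha ih =>
      rw [Finset.set_biUnion_insert]
      refine (FGCtr_two (hS a) (hop t) ?_ k).trans (sup_le (h a) ih)
      rw [Set.disjoint_iUnion₂_right]
      exact fun i hi => hd fun e => ha (e ▸ hi)
  intro c hc
  have h1 : c ∈ CH R (⋃ t : Finset ι, ⋃ i ∈ t, S i) := by
    rw [← Set.iUnion_eq_iUnion_finset]
    exact hc.1.1
  obtain ⟨t, ht⟩ := exists_CH_of_directed hop (directed_of_isDirected_le fun t t' htt' =>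
    Set.biUnion_subset_biUnion_left (Finset.coe_subset.2 htt')) h1
  exact key t ⟨⟨ht, hc.1.2⟩, hc.2⟩

theorem FGCtr_psh_BC {R X Y : Type} [CommRing R] [TopologicalSpace X] [TopologicalSpace Y]
    {f : X → Y} {A : Set X} {C : Set Y} (hf : ContinuousOn f A) (hm : MapsTo f A C) {k : ℕ}
    {c : Tot R X} (hc : c ∈ BC R A k) : psh R f c ∈ BC R C k := by
  obtain ⟨b, hb, rfl⟩ := hc
  exact ⟨psh R f b, ⟨psh_mem_CH f hm hb.1, psh_mem_DG f hb.2⟩, dT_psh hf hb.1⟩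

theorem fgCtr_stmt (B : Bas1) : FGCtrStmt := by
  intro R _ X G Y _ _ _ _ _ F p s hT N x hN hNF hC k
  obtain ⟨-, -, -, hsurj, -⟩ := B.cov G X Y Fᶜ p hT.cov
  obtain ⟨y0, hy0⟩ := hsurj x (hNF hC.1)
  obtain ⟨σ, hσ, hpσ, -, hop⟩ := B.sec G X Y Fᶜ p hT.cov N x hNF hC y0 (hy0 ▸ hC.1)
  obtain ⟨hpos, hzero⟩ := B.ctr R X N x hC
  have hcont : ∀ g : G, ContinuousOn (fun u => g • σ u) N := fun g =>
    (continuous_const_smul g).comp_continuousOn hσ
  have hmap : ∀ g : G, MapsTo (fun u => g • σ u) N (p ⁻¹' N) := fun g u hu => by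
    change p (g • σ u) ∈ N
    rw [hT.cov.inv, hpσ u hu]
    exact hu
  have hcover : p ⁻¹' N = ⋃ g : G, (fun u => g • σ u) '' N := by
    apply Set.Subset.antisymm
    · intro y hy
      obtain ⟨g, hg⟩ := hT.cov.trans (σ (p y)) y (hpσ _ hy)
      exact Set.mem_iUnion.2 ⟨g, p y, hy, hg.symm⟩
    · exact Set.iUnion_subset fun g => (hmap g).image_subset
  have hred : ∀ T : Submodule R (Tot R Y),
      (∀ g : G, ∀ c ∈ ZC R N k, psh R (fun u => g • σ u) c ∈ T) → ZC R (p ⁻¹' N) k ≤ T := by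
    intro T hTm
    rw [hcover]
    refine FGCtr_disj _ (fun g => ?_) (fun g g' hg => ?_) k T fun g c hc => ?_
    · have : (fun u => g • σ u) '' N = (fun y : Y => g • y) '' (σ '' N) := by
        rw [Set.image_image]
      rw [this]
      exact isOpenMap_smul g _ (hop hN)
    · refine Set.disjoint_left.2 ?_
      rintro _ ⟨a, ha, rfl⟩ ⟨b, hb, e⟩
      have e' : g' • σ b = g • σ a := e
      have hab : b = a := by
        have := congrArg p e'
        rwa [hT.cov.inv, hT.cov.inv, hpσ a ha, hpσ b hb] at this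
      subst hab
      have := hT.cov.free (g⁻¹ * g') (σ b) (by rw [mul_smul, e', inv_smul_smul])
      exact hg (inv_mul_eq_one.1 this)
    · have h1 : psh R p c ∈ ZC R N k := by
        refine ⟨⟨psh_mem_CH p (fun y hy => (hmap g).image_subset hy) hc.1.1,
          psh_mem_DG p hc.1.2⟩, ?_⟩
        have : dT R Y c = 0 := hc.2
        rw [SetLike.mem_coe, LinearMap.mem_ker, dT_psh_cont hT.cov.cont, this, map_zero]
      have h2 := hTm g _ h1
      rw [psh_psh' _ hT.cov.cont, psh_of_eqOn_id (A := (fun u => g • σ u) '' N) ?_ hc.1.1] at h2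
      · exact h2
      · rintro _ ⟨a, ha, rfl⟩
        change g • σ (p (g • σ a)) = g • σ a
        rw [hT.cov.inv, hpσ a ha]
  by_cases hk : k = 0
  · subst hk
    have hfin := hT.fin
    obtain ⟨n, ⟨e⟩⟩ := Finite.exists_equiv_fin (G ⧸ Subgroup.zpowers s)
    let z : Fin n → Tot R Y := fun i => pt R ((e.symm i).out • σ x)
    let T : Submodule R (Tot R Y) :=
      { carrier := {y | ∃ a : Fin n → Lam R, y - ∑ i, act R Y s (a i) (z i) ∈ BC R (p ⁻¹' N) 0}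
        zero_mem' := ⟨0, by simp⟩
        add_mem' := by
          rintro u v ⟨a, ha⟩ ⟨b, hb⟩
          refine ⟨a + b, ?_⟩
          have := add_mem ha hb
          simp only [Pi.add_apply, map_add, LinearMap.add_apply, Finset.sum_add_distrib]
          rwa [sub_add_sub_comm] at this
        smul_mem' := by
          rintro r u ⟨a, ha⟩
          refine ⟨r • a, ?_⟩
          have := Submodule.smul_mem _ r ha
          simp only [Pi.smul_apply, map_smul, LinearMap.smul_apply]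
          rwa [smul_sub, Finset.smul_sum] at this }
    refine ⟨n, z, fun i => ⟨⟨pt_mem_CH (hmap _ hC.1), pt_mem_DG _⟩, dT_pt _⟩, hred T ?_⟩
    intro g c hc
    have h1 := FGCtr_psh_BC (hcont g) (hmap g) (hzero c hc.1)
    rw [map_sub, map_smul, psh_pt] at h1
    have h2 : pt R (g • σ x) ∈ T := by
      obtain ⟨⟨_, m, rfl⟩, hm⟩ := QuotientGroup.mk_out_eq_mul (Subgroup.zpowers s) g
      refine ⟨Pi.single (e (QuotientGroup.mk g)) (LaurentPolynomial.T (-m)), ?_⟩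
      rw [Finset.sum_eq_single (e (QuotientGroup.mk g))
        (fun i _ hi => by rw [Pi.single_eq_of_ne hi, map_zero, LinearMap.zero_apply])
        (fun h => absurd (Finset.mem_univ _) h), Pi.single_eq_same, act_T]
      have hc : Commute g s := hT.cen g
      have : s ^ (-m) • (e.symm (e (QuotientGroup.mk g))).out • σ x = g • σ x := by
        rw [e.symm_apply_apply, hm, ← mul_smul]
        change (s ^ (-m) * (g * s ^ m)) • σ x = _
        rw [(hc.zpow_right m).eq, ← mul_assoc, ← zpow_add, neg_add_cancel, zpow_zero, one_mul]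
      change _ - gs R Y _ (pt R _) ∈ _
      rw [gs, psh_pt, this, sub_self]
      exact zero_mem _
    have h3 : psh R (fun u => g • σ u) c - val0 R (fun _ => (1 : R)) c • pt R (g • σ x) ∈ T :=
      ⟨0, by simpa using h1⟩
    have := add_mem h3 (T.smul_mem (val0 R (fun _ => (1 : R)) c) h2)
    rwa [sub_add_cancel] at this
  · refine ⟨0, Fin.elim0, fun i => i.elim0, fun y hy => ⟨Fin.elim0, ?_⟩⟩
    rw [Finset.univ_eq_empty, Finset.sum_empty, sub_zero]
    exact hred _ (fun g c hc => FGCtr_psh_BC (hcont g) (hmap g) (hpos k hk hc)) hy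

end Pool.Agent.MP_bc14e1_gt

end

section

open Set Metric
open scoped Classical

namespace Pool.Agent.MP_bc14e1_gt

theorem FGOff_mono {R : Type} [CommRing R] {G Y : Type} [Group G] [TopologicalSpace Y]
    [MulAction G Y] [ContinuousConstSMul G Y] {s : G} {A B B' : Set Y} {k : ℕ} (hB : B ⊆ B')
    (h : FGI R s A B k) : FGI R s A B' k := by
  obtain ⟨n, z, h1, h2⟩ := h
  refine ⟨n, z, fun i => ⟨⟨CH_mono hB (h1 i).1.1, (h1 i).1.2⟩, (h1 i).2⟩, fun y hy => ?_⟩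
  obtain ⟨a, b, hb, e⟩ := h2 y hy
  exact ⟨a, b, ⟨CH_mono hB hb.1, hb.2⟩, e⟩

theorem FGOff_ctr {X V : Type} [TopologicalSpace X] [NormedAddCommGroup V] [NormedSpace ℝ V]
    (e : OpenPartialHomeomorph X V) {T : Set V} (hT : Convex ℝ T) (hs : T ⊆ e.target) {c : V}
    (hc : c ∈ T) : Ctr (e.symm '' T) (e.symm c) := by
  have h1 : ∀ x ∈ e.symm '' T, x ∈ e.source ∧ e x ∈ T := by
    rintro _ ⟨v, hv, rfl⟩
    exact ⟨e.map_target (hs hv), by rwa [e.right_inv (hs hv)]⟩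
  have h2 : MapsTo (fun z : ℝ × X => (1 - z.1) • e z.2 + z.1 • c) (Icc 0 1 ×ˢ (e.symm '' T)) T :=
    fun z hz => hT (h1 _ hz.2).2 hc (sub_nonneg.2 hz.1.2) hz.1.1 (sub_add_cancel _ _)
  refine ⟨mem_image_of_mem _ hc, fun z => e.symm ((1 - z.1) • e z.2 + z.1 • c), ?_,
    fun z hz => mem_image_of_mem _ (h2 hz), fun y hy => ?_, fun y _ => ?_⟩
  · refine e.continuousOn_symm.comp ?_ fun z hz => hs (h2 hz)
    have h3 : ContinuousOn (fun z : ℝ × X => e z.2) (Icc 0 1 ×ˢ (e.symm '' T)) :=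
      e.continuousOn.comp continuousOn_snd fun z hz => (h1 _ hz.2).1
    exact ((continuousOn_const.sub continuousOn_fst).smul h3).add
      (continuousOn_fst.smul continuousOn_const)
  · simp only [sub_zero, one_smul, zero_smul, add_zero]
    exact e.left_inv (h1 y hy).1
  · simp

theorem fgOff_stmt (B : Bas1) (hFGMV : FGMVStmt) (hFGCtr : FGCtrStmt) : FGOffStmt := by
  intro R _ _ X G Y _ _ _ _ _ _ _ F p s h L hL hLF
  obtain ⟨h0, hMV⟩ := hFGMV R X G Y p s h.cov.cont (h.cov.inv s)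
  have hF : IsOpen Fᶜ := h.flat.cl.isOpen_compl
  have conv : ∀ (e : OpenPartialHomeomorph X (E 4)) (C : Set (E 4)), IsCompact C → Convex ℝ C →
      C ⊆ e.target → e.symm '' C ⊆ Fᶜ → FGL R p s (e.symm '' C) := by
    intro e C h1 h2 h3 h4
    rcases C.eq_empty_or_nonempty with rfl | ⟨c, hc⟩
    · rwa [image_empty]
    intro k O hO hCO
    obtain ⟨δ, hδ, hW⟩ := h1.exists_thickening_subset_open
      (e.isOpen_inter_preimage_symm (hO.inter hF)) fun v hv =>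
        ⟨h3 hv, hCO (mem_image_of_mem _ hv), h4 (mem_image_of_mem _ hv)⟩
    have h5 : thickening δ C ⊆ e.target := fun v hv => (hW hv).1
    have h6 : IsOpen (e.symm '' thickening δ C) :=
      e.isOpen_image_symm_of_subset_target isOpen_thickening h5
    have h7 : e.symm '' thickening δ C ⊆ O ∩ Fᶜ := by
      rintro _ ⟨v, hv, rfl⟩
      exact (hW hv).2
    refine ⟨_, h6, image_mono (self_subset_thickening hδ C), fun x hx => (h7 hx).1, ?_⟩
    exact FGOff_mono (preimage_mono fun x hx => (h7 hx).1)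
      (hFGCtr R X G Y F p s h _ _ h6 (fun x hx => (h7 hx).2)
        (FGOff_ctr e (h2.thickening δ) h5 (self_subset_thickening hδ C hc)) k)
  refine ind_compact (P := FGL R p s) h0 (T := fun x : X => (chartAt (E 4) x).source)
    (fun x => (chartAt (E 4) x).open_source) (S := Fᶜ) ?_ hMV hL hLF
    fun x _ => mem_iUnion.2 ⟨x, mem_chart_source _ x⟩
  intro x L hL hLF hLe k O hO hLO
  generalize chartAt (E 4) x = e at hLe
  have hW := e.isOpen_inter_preimage_symm (hO.inter hF)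
  have hK : IsCompact (e '' L) := hL.image_of_continuousOn (e.continuousOn.mono hLe)
  have h1 : ∀ v ∈ e '' L, ∃ r > 0, closedBall v r ⊆ e.target ∩ e.symm ⁻¹' (O ∩ Fᶜ) := by
    rintro _ ⟨y, hy, rfl⟩
    refine nhds_basis_closedBall.mem_iff.1 (hW.mem_nhds ⟨e.map_source (hLe hy), ?_⟩)
    rw [mem_preimage, e.left_inv (hLe hy)]
    exact ⟨hLO hy, hLF hy⟩
  choose! r hr using h1
  obtain ⟨T, hT, hc⟩ := hK.elim_nhds_subcover (fun v => closedBall v (r v))
    fun v hv => closedBall_mem_nhds v (hr v hv).1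
  have key : FGL R p s (⋃ v ∈ T, e.symm '' closedBall v (r v)) := by
    refine ind_fin (𝓑 := {A | ∃ C, IsCompact C ∧ Convex ℝ C ∧ C ⊆ e.target ∧
      e.symm '' C ⊆ Fᶜ ∧ A = e.symm '' C}) (Q := IsCompact) (fun _ _ => IsCompact.union)
      isCompact_empty ?_ h0 ?_ ?_ hMV T _ fun v hv => ⟨_, isCompact_closedBall _ _,
        convex_closedBall _ _, fun w hw => ((hr v (hT v hv)).2 hw).1, ?_, rfl⟩
    · rintro _ ⟨C, c1, -, c3, -, rfl⟩
      exact c1.image_of_continuousOn (e.continuousOn_symm.mono c3)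
    · rintro _ ⟨C, c1, c2, c3, c4, rfl⟩ _ ⟨C', d1, d2, d3, -, rfl⟩
      exact ⟨C ∩ C', c1.inter d1, c2.inter d2, inter_subset_left.trans c3,
        (image_mono inter_subset_left).trans c4, (e.symm.injOn.image_inter c3 d3).symm⟩
    · rintro _ ⟨C, c1, c2, c3, c4, rfl⟩
      exact conv e C c1 c2 c3 c4
    · rintro _ ⟨w, hw, rfl⟩
      exact ((hr v (hT v hv)).2 hw).2.2
  obtain ⟨N, n1, n2, n3⟩ := key k O hO (iUnion₂_subset fun v hv => by
    rintro _ ⟨w, hw, rfl⟩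
    exact ((hr v (hT v hv)).2 hw).2.1)
  refine ⟨N, n1, fun y hy => n2 ?_, n3⟩
  obtain ⟨v, hv, hy'⟩ := mem_iUnion₂.1 (hc (mem_image_of_mem e hy))
  exact mem_iUnion₂.2 ⟨v, hv, e y, hy', e.left_inv (hLe hy)⟩

end Pool.Agent.MP_bc14e1_gt

end

section

open Set Metric
open scoped Classical

namespace Pool.Agent.MP_bc14e1_gt

theorem FGRot_move (κ : Kit) {R : Type} [CommRing R] {G Y : Type} [Group G] [TopologicalSpace Y]
    [MulAction G Y] [ContinuousConstSMul G Y] {s : G} {A A1 O : Set Y} {k : ℕ} {H : ℝ × Y → Y}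
    (hH : ContinuousOn H (Icc 0 1 ×ˢ A)) (h0 : ∀ y, H (0, y) = y)
    (hO : MapsTo H (Icc 0 1 ×ˢ A) O) (h1 : ∀ y ∈ A, H (1, y) ∈ A1) (h : FGI R s A1 O k) :
    FGI R s A O k := by
  obtain ⟨n, z, hz, h⟩ := h
  refine ⟨n, z, hz, fun y hy => ?_⟩
  have hd : dT R Y y = 0 := hy.2
  have hc : ContinuousOn (fun y => H (1, y)) A :=
    hH.comp (f := fun y => ((1 : ℝ), y)) (by fun_prop) fun y hy => ⟨⟨zero_le_one, le_rfl⟩, hy⟩
  obtain ⟨a, ha⟩ := h (psh R (fun y => H (1, y)) y)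
    ⟨⟨psh_mem_CH _ h1 hy.1.1, psh_mem_DG _ hy.1.2⟩, by
      change dT R Y _ = 0
      rw [dT_psh hc hy.1.1, hd, map_zero]⟩
  have e := dT_hop κ hH hy.1.1
  rw [hd, map_zero, add_zero, psh_of_eqOn_id (fun y _ => h0 y) hy.1.1] at e
  have hb : psh R (fun y => H (1, y)) y - y ∈ BC R O k :=
    ⟨_, ⟨hop_mem_CH κ H hO hy.1.1, hop_mem_DG κ H hy.1.2⟩, e⟩
  have h2 := Submodule.sub_mem _ ha hb
  rw [sub_sub_sub_cancel_left] at h2
  exact ⟨a, h2⟩

/-- The straight homotopy onto a circle. -/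
noncomputable def FGRot_h (z : ℂ) (r : ℝ) (q : ℝ × ℂ × ℂ) : ℂ × ℂ :=
  (1 - q.1) • q.2 + q.1 • (z, (r / ‖q.2.2‖) • q.2.2)

theorem FGRot_cont (z : ℂ) (r : ℝ) : ContinuousOn (FGRot_h z r) {q | q.2.2 ≠ 0} := by
  have h : ContinuousOn (fun q : ℝ × ℂ × ℂ => r / ‖q.2.2‖) {q | q.2.2 ≠ 0} :=
    continuousOn_const.div (by fun_prop) fun q hq => norm_ne_zero_iff.2 hq
  unfold FGRot_h
  fun_prop

theorem FGRot_norm {r : ℝ} (hr : 0 < r) {w : ℂ} (hw : w ≠ 0) : ‖(r / ‖w‖) • w‖ = r := by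
  rw [norm_smul, Real.norm_of_nonneg (by positivity), div_mul_cancel₀ _ (norm_ne_zero_iff.2 hw)]

theorem FGRot_ne (z : ℂ) {r : ℝ} (hr : 0 < r) {θ : ℝ} (hθ : θ ∈ Icc (0 : ℝ) 1) {x : ℂ × ℂ}
    (hx : x.2 ≠ 0) : (FGRot_h z r (θ, x)).2 ≠ 0 := by
  have e : (FGRot_h z r (θ, x)).2 = (1 - θ + θ * (r / ‖x.2‖)) • x.2 := by
    rw [add_smul, mul_smul]
    rfl
  have h : 0 < r / ‖x.2‖ := div_pos hr (norm_pos_iff.2 hx)
  rw [e]
  refine smul_ne_zero (ne_of_gt ?_) hx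
  rcases hθ.1.eq_or_lt with h0 | h0
  · rw [← h0]
    norm_num
  · have := mul_pos h0 h
    linarith [hθ.2]

theorem fgRot_stmt (B : Bas1) (hFGMV : FGMVStmt) (hFGOff : FGOffStmt) : FGRotStmt := by
  intro R _ _ X G Y _ _ _ _ _ _ _ F p s T e L he hL hC hR hLe
  rcases L.eq_empty_or_nonempty with rfl | ⟨x0, hx0⟩
  · rw [image_empty]
    exact (hFGMV R X G Y p s T.cov.cont (T.cov.inv s)).1
  intro k O hO hLO
  obtain ⟨κ⟩ := B.kit
  obtain ⟨δ, hδ, hB⟩ := hL.exists_thickening_subset_open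
    (e.continuousOn_symm.isOpen_inter_preimage e.open_target hO)
    fun x hx => ⟨hLe hx, hLO ⟨x, hx, rfl⟩⟩
  have hr : 0 < δ / 2 := half_pos hδ
  have hz : (x0.1, (0 : ℂ)) ∈ L := by
    have h := hC hx0 (hR x0 hx0 (-x0.2) (norm_neg _)) (a := 1 / 2) (b := 1 / 2) (by norm_num)
      (by norm_num) (by norm_num)
    convert h using 1
    ext
    · simp only [Prod.fst_add, Prod.smul_fst, ← add_smul]
      norm_num
    · simp
  have hw : ∀ w : ℂ, ‖w‖ = δ / 2 → (x0.1, w) ∈ thickening δ L := fun w hw =>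
    mem_thickening_iff.2 ⟨_, hz, by
      rw [Prod.dist_eq, dist_self, dist_zero_right, hw, max_eq_right hr.le]
      exact half_lt_self hδ⟩
  have hm : ∀ θ ∈ Icc (0 : ℝ) 1, ∀ x ∈ thickening δ L, x.2 ≠ 0 →
      FGRot_h x0.1 (δ / 2) (θ, x) ∈ thickening δ L := fun θ hθ x hx hx' =>
    hC.thickening δ hx (hw _ (FGRot_norm hr hx')) (sub_nonneg.2 hθ.2) hθ.1 (sub_add_cancel _ _)
  have hF : ∀ x ∈ e.source, x ∈ Fᶜ → (e x).2 ≠ 0 := fun x hx hx' h => hx' ((he x hx).2 h)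
  have hF' : ∀ x ∈ e.target, x.2 ≠ 0 → e.symm x ∈ Fᶜ := fun x hx hx' h =>
    hx' (by simpa only [e.right_inv hx] using (he _ (e.map_target hx)).1 h)
  obtain ⟨H, hH, h0, h1, -⟩ := B.hl G X Y Fᶜ p T.cov (e.source ∩ e ⁻¹' thickening δ L)
    (fun q => e.symm (FGRot_h x0.1 (δ / 2) (q.1, e q.2)))
    (e.continuousOn_symm.comp ((FGRot_cont _ _).comp (continuousOn_fst.prodMk
      (e.continuousOn.comp continuousOn_snd fun q hq => hq.2.1.1))
      fun q hq => hF _ hq.2.1.1 hq.2.2)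
      fun q hq => (hB (hm _ hq.1 _ hq.2.1.2 (hF _ hq.2.1.1 hq.2.2))).1)
    (fun q hq => hF' _ (hB (hm _ hq.1 _ hq.2.1.2 (hF _ hq.2.1.1 hq.2.2))).1
      (FGRot_ne _ hr hq.1 (hF _ hq.2.1.1 hq.2.2)))
    (fun x hx => by
      simp only [FGRot_h, sub_zero, one_smul, zero_smul, add_zero]
      exact e.left_inv hx.1.1)
  have hS : ∀ x ∈ ({x0.1} : Set ℂ) ×ˢ sphere (0 : ℂ) (δ / 2), x ∈ thickening δ L ∧ x.2 ≠ 0 := by
    rintro ⟨a, w⟩ ⟨rfl, hw'⟩
    rw [mem_sphere_zero_iff_norm] at hw'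
    exact ⟨hw w hw', norm_pos_iff.1 (hw' ▸ hr)⟩
  obtain ⟨N1, -, hN1, -, g⟩ := hFGOff R X G Y F p s T
    (e.symm '' (({x0.1} : Set ℂ) ×ˢ sphere (0 : ℂ) (δ / 2)))
    ((isCompact_singleton.prod (isCompact_sphere _ _)).image_of_continuousOn
      (e.continuousOn_symm.mono fun x hx => (hB (hS x hx).1).1))
    (by
      rintro _ ⟨x, hx, rfl⟩
      exact hF' x (hB (hS x hx).1).1 (hS x hx).2) k O hO
    (by
      rintro _ ⟨x, hx, rfl⟩
      exact (hB (hS x hx).1).2)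
  refine ⟨e.source ∩ e ⁻¹' thickening δ L, e.isOpen_inter_preimage isOpen_thickening, ?_,
    fun x hx => ?_, FGRot_move κ hH h0 (fun q hq => ?_) (fun y hy => hN1 ?_) g⟩
  · rintro _ ⟨x, hx, rfl⟩
    refine ⟨e.map_target (hLe hx), ?_⟩
    rw [mem_preimage, e.right_inv (hLe hx)]
    exact self_subset_thickening hδ L hx
  · have h := (hB hx.2).2
    rwa [mem_preimage, e.left_inv hx.1] at h
  · rw [mem_preimage, h1 q.1 hq.1 q.2 hq.2]
    exact (hB (hm _ hq.1 _ hq.2.2 (hF _ hq.2.1 (T.cov.mem _)))).2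
  · rw [h1 1 ⟨zero_le_one, le_rfl⟩ y hy]
    refine ⟨_, ?_, rfl⟩
    simp only [FGRot_h, sub_self, zero_smul, one_smul, zero_add]
    exact ⟨rfl, mem_sphere_zero_iff_norm.2 (FGRot_norm hr (hF _ hy.1 (T.cov.mem _)))⟩

end Pool.Agent.MP_bc14e1_gt

end

section

open Set Metric
open scoped Classical

namespace Pool.Agent.MP_bc14e1_gt

theorem FG_rot {c : ℂ × ℂ} (hc : c.2 = 0) (r : ℝ) : RotInv (closedBall c r) := by
  intro x hx w hw
  rw [mem_closedBall, Prod.dist_eq, hc, dist_zero_right] at hx ⊢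
  rwa [hw]

theorem FG_chart {X : Type} [TopologicalSpace X] [T2Space X] {P : Set X → Prop} {F : Set X}
    (hF : IsClosed F) (h0 : P ∅)
    (hMV : ∀ A B, IsCompact A → IsCompact B → P A → P B → P (A ∩ B) → P (A ∪ B))
    (hOff : ∀ L, IsCompact L → L ⊆ Fᶜ → P L) {e : OpenPartialHomeomorph X (ℂ × ℂ)}
    (he : FlatCh F e) (hRot : ∀ C, IsCompact C → Convex ℝ C → RotInv C → C ⊆ e.target →
      P (e.symm '' C)) {L O : Set X} (hL : IsCompact L) (hLe : L ⊆ e.source) (hO : IsOpen O)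
    (hLO : L ⊆ O) : ∃ L', L ⊆ L' ∧ L' ⊆ O ∧ P L' := by
  have h1 : ∀ x : (L ∩ F : Set X), ∃ r > 0, closedBall (e x) r ⊆ e.target ∩ e.symm ⁻¹' O :=
    fun x => nhds_basis_closedBall.mem_iff.1 ((e.isOpen_inter_preimage_symm hO).mem_nhds
      ⟨e.map_source (hLe x.2.1), by
        rw [mem_preimage, e.left_inv (hLe x.2.1)]
        exact hLO x.2.1⟩)
  choose r hr hr' using h1
  have hU : ∀ x : (L ∩ F : Set X), IsOpen (e.source ∩ e ⁻¹' ball (e x) (r x)) := fun x =>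
    e.isOpen_inter_preimage isOpen_ball
  obtain ⟨t, ht⟩ := (hL.inter_right hF).elim_finite_subcover _ hU fun x hx =>
    mem_iUnion.2 ⟨⟨x, hx⟩, hLe hx.1, mem_ball_self (hr ⟨x, hx⟩)⟩
  have hc : ∀ C, IsCompact C → C ⊆ e.target → IsCompact (e.symm '' C) := fun C h h' =>
    h.image_of_continuousOn (e.continuousOn_symm.mono h')
  have h2 : P (⋃ x ∈ t, e.symm '' closedBall (e x) (r x)) := by
    refine ind_fin (Q := IsCompact) (𝓑 := {A | ∃ C, IsCompact C ∧ Convex ℝ C ∧ RotInv C ∧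
      C ⊆ e.target ∧ A = e.symm '' C}) (fun _ _ => IsCompact.union) isCompact_empty ?_ h0 ?_ ?_ hMV
      t _ fun x _ => ⟨_, isCompact_closedBall _ _, convex_closedBall _ _,
        FG_rot ((he x (hLe x.2.1)).1 x.2.2) _, (hr' x).trans inter_subset_left, rfl⟩
    · rintro _ ⟨C, a1, -, -, a4, rfl⟩
      exact hc C a1 a4
    · rintro _ ⟨C, a1, a2, a3, a4, rfl⟩ _ ⟨D, b1, b2, b3, b4, rfl⟩
      exact ⟨C ∩ D, a1.inter b1, a2.inter b2, fun x hx w hw => ⟨a3 x hx.1 w hw, b3 x hx.2 w hw⟩,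
        inter_subset_left.trans a4, (e.symm.injOn.image_inter a4 b4).symm⟩
    · rintro _ ⟨C, a1, a2, a3, a4, rfl⟩
      exact hRot C a1 a2 a3 a4
  have h3 : IsCompact (⋃ x ∈ t, e.symm '' closedBall (e x) (r x)) :=
    t.isCompact_biUnion fun x _ => hc _ (isCompact_closedBall _ _)
      ((hr' x).trans inter_subset_left)
  have h4 := hL.diff (isOpen_biUnion (s := (t : Set (L ∩ F : Set X))) fun x _ => hU x)
  have h5 : L \ ⋃ x ∈ (t : Set (L ∩ F : Set X)), e.source ∩ e ⁻¹' ball (e x) (r x) ⊆ Fᶜ :=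
    fun x hx hxF => hx.2 (ht ⟨hx.1, hxF⟩)
  refine ⟨_, fun x hx => ?_, union_subset (iUnion₂_subset fun x _ => ?_) (sdiff_subset.trans hLO),
    hMV _ _ h3 h4 h2 (hOff _ h4 h5) (hOff _ (h3.inter h4) (inter_subset_right.trans h5))⟩
  · by_cases h : x ∈ ⋃ x ∈ (t : Set (L ∩ F : Set X)), e.source ∩ e ⁻¹' ball (e x) (r x)
    · obtain ⟨y, hy, h⟩ := mem_iUnion₂.1 h
      exact .inl (mem_iUnion₂.2 ⟨y, hy, e x, ball_subset_closedBall h.2, e.left_inv h.1⟩)
    · exact .inr ⟨hx, h⟩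
  · exact image_subset_iff.2 ((hr' x).trans inter_subset_right)

theorem fg_stmt (B : Bas1) (hFGMV : FGMVStmt)
    (hFGOff : FGOffStmt) (hFGRot : FGRotStmt) : FGStmt := by
  intro R _ _ X G Y _ _ _ _ _ _ _ F p s h L O hL hO hLO k
  obtain ⟨h0, hMV⟩ := hFGMV R X G Y p s h.cov.cont (h.cov.inv s)
  have h1 : FGL R p s L := by
    refine ind_compact (ι := Option {e // FlatCh F e}) (T := fun o => o.elim Fᶜ fun e => e.1.source)
      (S := univ) h0 ?_ ?_ hMV hL (subset_univ L) fun x _ => ?_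
    · rintro (_ | e)
      exacts [h.flat.cl.isOpen_compl, e.1.open_source]
    · rintro (_ | e) L hL - hLe
      · exact hFGOff R X G Y F p s h L hL hLe
      · intro k O hO hLO
        obtain ⟨L', a1, a2, a3⟩ := FG_chart h.flat.cl h0 hMV (hFGOff R X G Y F p s h) e.2
          (fun C => hFGRot R X G Y F p s h e.1 C e.2) hL hLe hO hLO
        obtain ⟨N, b1, b2, b3⟩ := a3 k O hO a2
        exact ⟨N, b1, a1.trans b2, b3⟩
    · by_cases hx : x ∈ F
      · obtain ⟨e, he, hx'⟩ := h.flat.ch x hx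
        exact mem_iUnion.2 ⟨some ⟨e, he⟩, hx'⟩
      · exact mem_iUnion.2 ⟨none, hx⟩
  obtain ⟨N, -, b2, -, n, z, b3, b4⟩ := h1 k O hO hLO
  exact ⟨n, z, b3, fun y hy => b4 y ⟨⟨CH_mono (preimage_mono b2) hy.1.1, hy.1.2⟩, hy.2⟩⟩

end Pool.Agent.MP_bc14e1_gt

end

section

open Set Metric
open scoped Classical

namespace Pool.Agent.MP_bc14e1_gt

section

variable {R : Type} [CommRing R] {G X Y : Type} [Group G] [TopologicalSpace X]
  [TopologicalSpace Y] [MulAction G Y] [ContinuousConstSMul G Y]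

theorem Rot_iter (κ : Kit) (s : G) {O : Set Y} {H : ℝ × Y → Y}
    (hc : ContinuousOn H (Icc 0 1 ×ˢ O)) (h0 : ∀ y, H (0, y) = y)
    (he : ∀ θ y, H (θ, s • y) = s • H (θ, y)) (hO : MapsTo H (Icc 0 1 ×ˢ O) O) (n : ℕ) :
    ∃ K : Module.End R (Tot R Y), (∀ c ∈ CH R O, K (gs R Y s c) = gs R Y s (K c)) ∧
      (∀ k, ∀ c ∈ DG R Y k, K c ∈ DG R Y (k + 1)) ∧
      (∀ O', MapsTo H (Icc 0 1 ×ˢ O') O' → ∀ c ∈ CH R O', K c ∈ CH R O') ∧
      ∀ c ∈ CH R O, dT R Y (K c) + K (dT R Y c) = psh R (fun y => H (1, y))^[n] c - c := by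
  have hm : ∀ O', MapsTo H (Icc 0 1 ×ˢ O') O' → MapsTo (fun y => H (1, y)) O' O' :=
    fun O' h y hy => h ⟨right_mem_Icc.2 zero_le_one, hy⟩
  have hJ : ContinuousOn (fun y => H (1, y)) O :=
    hc.comp (by fun_prop) fun y hy => ⟨right_mem_Icc.2 zero_le_one, hy⟩
  have hs : Continuous fun y : Y => s • y := continuous_const_smul s
  induction n with
  | zero => exact ⟨0, by simp, by simp, by simp, fun c _ => by simp [psh_id]⟩
  | succ n ih =>
    obtain ⟨K, k1, k2, k3, k4⟩ := ih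
    have j1 : ContinuousOn (fun y => H (1, y))^[n] O := hJ.iterate (hm O hO) n
    have j2 : MapsTo (fun y => H (1, y))^[n] O O := (hm O hO).iterate n
    have j3 : (fun y => H (1, y))^[n] ∘ (fun y : Y => s • y) =
        (fun y : Y => s • y) ∘ (fun y => H (1, y))^[n] :=
      funext (Function.Commute.iterate_left (f := fun y => H (1, y)) (g := fun y : Y => s • y)
        (fun y => he 1 y) n)
    refine ⟨K + hop κ R H ∘ₗ psh R (fun y => H (1, y))^[n], fun c h => ?_, fun k c h => ?_,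
      fun O' h' c h => ?_, fun c h => ?_⟩
    · have e1 : psh R (fun y => H (1, y))^[n] (gs R Y s c) =
          gs R Y s (psh R (fun y => H (1, y))^[n] c) := by
        rw [gs, psh_psh' _ hs, psh_psh _ j1 h, j3]
      have e2 : H ∘ Prod.map id (fun y : Y => s • y) = (fun y : Y => s • y) ∘ H :=
        funext fun x => he x.1 x.2
      simp only [LinearMap.add_apply, LinearMap.comp_apply, map_add]
      rw [k1 c h, e1, gs, hop_psh κ H hs.continuousOn (mem_CH_univ _),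
        psh_hop κ _ hc (psh_mem_CH _ j2 h), e2]
    · exact add_mem (k2 k c h) (hop_mem_DG κ H (psh_mem_DG _ h))
    · exact add_mem (k3 O' h' c h) (hop_mem_CH κ H h' (psh_mem_CH _ ((hm O' h').iterate n) h))
    · have e1 := dT_hop κ hc (psh_mem_CH _ j2 h)
      rw [psh_psh _ j1 h, psh_of_eqOn_id (fun y _ => h0 y) (mem_CH_univ _), dT_psh j1 h,
        ← Function.iterate_succ'] at e1
      simp only [LinearMap.add_apply, LinearMap.comp_apply, map_add]
      rw [add_add_add_comm, k4 c h, e1]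
      abel

omit [TopologicalSpace X] in
theorem Rot_open {p : Y → X} (hp : IsLocallyInjective p) (hi : ∀ (g : G) y, p (g • y) = p y)
    {O : Set Y} (hO : IsOpen O) {f : Y → Y} (hf : ContinuousOn f O) (h : ∀ y ∈ O, p (f y) = p y)
    (g : G) : IsOpen {y | y ∈ O ∧ f y = g • y} := by
  refine isOpen_iff_mem_nhds.2 fun y hy => ?_
  obtain ⟨U, hU, h1, h2⟩ := hp (g • y)
  have a1 : f ⁻¹' U ∈ nhds y :=
    (hf.continuousAt (hO.mem_nhds hy.1)).preimage_mem_nhds (hU.mem_nhds (hy.2.symm ▸ h1))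
  have a2 : (fun y : Y => g • y) ⁻¹' U ∈ nhds y :=
    (continuous_const_smul g).continuousAt.preimage_mem_nhds (hU.mem_nhds h1)
  filter_upwards [a1, a2, hO.mem_nhds hy.1] with x b1 b2 b3
  exact ⟨b3, h2 b1 b2 ((h x b3).trans (hi g x).symm)⟩

theorem Rot_prj {U V : Set Y} (hU : IsOpen U) (hV : IsOpen V) (hd : Disjoint U V) {c : Tot R Y}
    (h : c ∈ CH R (U ∪ V)) : prj R U c + prj R V c = c ∧
      prj R U (dT R Y c) = dT R Y (prj R U c) ∧ prj R V (dT R Y c) = dT R Y (prj R V c) := by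
  rw [CH_union_of_disjoint hU hV hd] at h
  obtain ⟨a, ha, b, hb, rfl⟩ := Submodule.mem_sup.1 h
  simp only [map_add, prj_of_mem ha, prj_of_mem hb, prj_eq_zero hd hb, prj_eq_zero hd.symm ha,
    prj_of_mem (dT_mem_CH ha), prj_of_mem (dT_mem_CH hb), prj_eq_zero hd (dT_mem_CH hb),
    prj_eq_zero hd.symm (dT_mem_CH ha), add_zero, zero_add, and_self]

theorem Rot_glue (s : G) {O U V : Set Y} (hU : IsOpen U) (hV : IsOpen V) (hd : Disjoint U V)
    (hO : O = U ∪ V) (iU : Inv s U) (iV : Inv s V) {J : Y → Y} (jU : ∀ y ∈ U, J y = s • y)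
    (jV : ∀ y ∈ V, J y = s⁻¹ • y) (K : Module.End R (Tot R Y))
    (k1 : ∀ c ∈ CH R O, K (gs R Y s c) = gs R Y s (K c))
    (k2 : ∀ k, ∀ c ∈ DG R Y k, K c ∈ DG R Y (k + 1))
    (k4 : ∀ c ∈ CH R O, dT R Y (K c) + K (dT R Y c) = psh R J c - c) :
    ∃ H : Module.End R (Tot R Y), (∀ c, H (gs R Y s c) = gs R Y s (H c)) ∧
      (∀ k, ∀ c ∈ DG R Y k, H c ∈ DG R Y (k + 1)) ∧
      (∀ O' : Set Y, (∀ y ∈ O', s • y ∈ O') → (∀ c ∈ CH R O', K c ∈ CH R O') →
        ∀ c ∈ CH R O', H c ∈ CH R O') ∧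
      ∀ c ∈ CH R O, dT R Y (H c) + H (dT R Y c) = gs R Y s c - c := by
  subst hO
  have mU : ∀ c, prj R U c ∈ CH R (U ∪ V) := fun c => CH_mono subset_union_left (prj_mem U c)
  have mV : ∀ c, prj R V c ∈ CH R (U ∪ V) := fun c => CH_mono subset_union_right (prj_mem V c)
  refine ⟨K ∘ₗ prj R U - gs R Y s ∘ₗ K ∘ₗ prj R V, fun c => ?_, fun k c h => ?_,
    fun O' h1 h2 c h => ?_, fun c h => ?_⟩
  · simp only [LinearMap.sub_apply, LinearMap.comp_apply, map_sub]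
    rw [prj_gs s iU, prj_gs s iV, k1 _ (mU c), k1 _ (mV c)]
  · exact sub_mem (k2 k _ (prj_mem_DG U h)) (gs_mem_DG s (k2 k _ (prj_mem_DG V h)))
  · exact sub_mem (h2 _ (prj_mem_CH U h)) (gs_mem_CH s h1 (h2 _ (prj_mem_CH V h)))
  · obtain ⟨e1, e2, e3⟩ := Rot_prj hU hV hd h
    have e4 := k4 _ (mU c)
    have e5 := congrArg (gs R Y s) (k4 _ (mV c))
    rw [psh_congr (g := fun y : Y => s • y) jU (prj_mem U c), ← gs] at e4
    rw [psh_congr (g := fun y : Y => s⁻¹ • y) jV (prj_mem V c), ← gs, map_add, map_sub, ← gs_mul,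
      mul_inv_cancel, gs_one] at e5
    simp only [LinearMap.sub_apply, LinearMap.comp_apply, map_sub]
    rw [e2, e3, dT_gs, sub_add_sub_comm, e4, e5]
    conv_rhs => rw [← e1, map_add]
    abel

end

theorem Rot_norm (θ : ℝ) (w : ℂ) : ‖Complex.exp (2 * Real.pi * Complex.I * θ) * w‖ = ‖w‖ := by
  have h : (2 * Real.pi * Complex.I * θ : ℂ) = ((2 * Real.pi * θ : ℝ) : ℂ) * Complex.I := by
    push_cast
    ring
  rw [norm_mul, h, Complex.norm_exp_ofReal_mul_I, one_mul]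

theorem rot_stmt (B : Bas1) : RotStmt := by
  intro R _ G X Y _ _ _ _ _ F p s T e D hF hD hDt hdc
  obtain ⟨κ⟩ := B.kit
  obtain ⟨m, hm⟩ := T.rot
  have hp : IsLocallyInjective p := (B.cov G X Y _ p T.cov).2.1.isLocallyInjective
  have a1 : ∀ D' ⊆ D, ∀ x ∈ e.symm '' D', x ∈ e.source ∧ e x ∈ D' := by
    rintro D' h _ ⟨b, hb, rfl⟩
    exact ⟨e.map_target (hDt (h hb)), by rwa [e.right_inv (hDt (h hb))]⟩
  have a2 : RotInv D := fun x hx w' h => hdc x hx w' h.le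
  have a3 : ∀ D' ⊆ D, RotInv D' → ∀ x ∈ e.symm '' D', ∀ θ : ℝ,
      ((e x).1, Complex.exp (2 * Real.pi * Complex.I * θ) * (e x).2) ∈ D' :=
    fun D' h h' x hx θ => h' _ (a1 D' h x hx).2 _ (Rot_norm θ _)
  obtain ⟨H, h1, h2, h3, h4⟩ := B.hl G X Y _ p T.cov (e.symm '' D)
    (fun q => rotL e (e q.2).1 (e q.2).2 q.1)
    (by
      have c1 : ContinuousOn (fun q : ℝ × X => e q.2) (Icc 0 1 ×ˢ (e.symm '' D ∩ Fᶜ)) :=
        e.continuousOn.comp continuousOn_snd fun q hq => (a1 D Subset.rfl _ hq.2.1).1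
      refine e.continuousOn_symm.comp (c1.fst.prodMk (ContinuousOn.mul ?_ c1.snd))
        fun q hq => hDt (a3 D Subset.rfl a2 _ hq.2.1 _)
      fun_prop)
    (fun q hq h => by
      have h5 := hDt (a3 D Subset.rfl a2 _ hq.2.1 q.1)
      have h6 := (hF _ (e.map_target h5)).1 h
      rw [e.right_inv h5] at h6
      exact hq.2.2 ((hF _ (a1 D Subset.rfl _ hq.2.1).1).2
        ((mul_eq_zero.1 h6).resolve_left (Complex.exp_ne_zero _))))
    (fun x hx => by simpa [rotL] using e.left_inv (a1 D Subset.rfl _ hx.1).1)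
  have b1 : ∀ D' ⊆ D, RotInv D' →
      MapsTo H (Icc 0 1 ×ˢ (p ⁻¹' (e.symm '' D'))) (p ⁻¹' (e.symm '' D')) := fun D' h h' q hq => by
    rw [mem_preimage, h3 q.1 hq.1 q.2 (image_mono h hq.2)]
    exact ⟨_, a3 D' h h' _ hq.2 _, rfl⟩
  have b2 : IsOpen (p ⁻¹' (e.symm '' D)) :=
    (e.isOpen_image_symm_of_subset_target hD hDt).preimage T.cov.cont
  have b3 : ∀ (g : G) y, (fun y => H (1, y))^[m] (g • y) = g • (fun y => H (1, y))^[m] y :=
    fun g => Function.Commute.iterate_left (f := fun y => H (1, y)) (g := fun y : Y => g • y)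
      (fun y => h4 g 1 y) m
  have b4 : ∀ y ∈ p ⁻¹' (e.symm '' D),
      (fun y => H (1, y))^[m] y = s • y ∨ (fun y => H (1, y))^[m] y = s⁻¹ • y := by
    intro y hy
    obtain ⟨g, g1, g2⟩ := hm e (e (p y)).1 (e (p y)).2
      ⟨hF, fun h => T.cov.mem y ((hF _ (a1 D Subset.rfl _ hy).1).2 h),
        fun w' h => hDt (hdc _ (a1 D Subset.rfl _ hy).2 w' h)⟩
      ⟨fun θ => H (θ, y), h1.comp_continuous (by fun_prop) fun θ => ⟨θ.2, hy⟩⟩
      fun θ => h3 θ θ.2 y hy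
    replace g1 : H (1, y) = g • y := g1.trans (congrArg (g • ·) (h2 y))
    have g3 : ∀ n, (fun y => H (1, y))^[n] y = g ^ n • y := fun n => by
      induction n with
      | zero => simp
      | succ n ih => rw [Function.iterate_succ_apply', ih, h4, g1, pow_succ, mul_smul]
    rw [g3]
    exact g2.imp (fun h => by rw [h]) fun h => by rw [h]
  have b5 : ContinuousOn (fun y => H (1, y))^[m] (p ⁻¹' (e.symm '' D)) :=
    (h1.comp (f := fun y : Y => ((1 : ℝ), y)) (by fun_prop)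
      fun y hy => ⟨right_mem_Icc.2 zero_le_one, hy⟩).iterate
      (fun y hy => b1 D Subset.rfl a2 ⟨right_mem_Icc.2 zero_le_one, hy⟩) m
  have b6 : ∀ y ∈ p ⁻¹' (e.symm '' D), p ((fun y => H (1, y))^[m] y) = p y := fun y hy => by
    rcases b4 y hy with h | h <;> rw [h, T.cov.inv]
  obtain ⟨K, k1, k2, k3, k4⟩ := Rot_iter (R := R) κ s h1 h2 (h4 s) (b1 D Subset.rfl a2) m
  obtain ⟨H', l1, l2, l3, l4⟩ := Rot_glue s (Rot_open hp T.cov.inv b2 b5 b6 s)
    (Rot_open hp T.cov.inv b2 b5 b6 s⁻¹)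
    (Set.disjoint_left.2 fun y h h' => by
      have h5 : s ^ (2 : ℤ) • y = y := by
        rw [zpow_two, mul_smul, ← h.2, h'.2, smul_inv_smul]
      exact two_ne_zero (T.inf 2 (T.cov.free _ _ h5)))
    (Subset.antisymm (fun y hy => (b4 y hy).imp (fun h => ⟨hy, h⟩) fun h => ⟨hy, h⟩)
      fun y hy => hy.elim And.left And.left)
    (fun y => by simp only [mem_ofPred_eq, mem_preimage, T.cov.inv, b3, smul_left_cancel_iff])
    (fun y => by
      simp only [mem_ofPred_eq, mem_preimage, T.cov.inv, b3, inv_smul_smul]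
      rw [eq_inv_smul_iff])
    (fun y h => h.2) (fun y h => h.2) K k1 k2 k4
  exact ⟨H', l1, l2, fun D' h h' => l3 _
    (fun y hy => by rwa [mem_preimage, T.cov.inv]) (k3 _ (b1 D' h h')), l4⟩

end Pool.Agent.MP_bc14e1_gt

end

section

/-! Statements: Poincare duality modulo a power of a prime. -/

open Set Metric
open scoped Classical

namespace Pool.Agent.MP_bc14e1_gt

noncomputable section

/-- A Frobenius functional of the quotient by `g`. -/
structure Frob (g : Lam ℂ) (ρ : Lam ℂ →ₗ[ℂ] ℂ) : Prop where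
  ne : g ≠ 0
  cjd : g ∣ cj g
  kill : ∀ a, ρ (g * a) = 0
  inj : ∀ a', (∀ a, ρ (a * cj a') = 0) → g ∣ a'
  surj : ∀ f : Lam ℂ →ₗ[ℂ] ℂ, (∀ a, f (g * a) = 0) → ∃ a', ∀ a, f a = ρ (a * cj a')

def FrobStmt : Prop :=
  ∀ ζ : Circle, Frob (piL ζ) (evL ζ).toLinearMap ∧ ∀ n : ℕ, ∃ ρ, Frob (piL ζ ^ n) ρ

section

variable {G Y : Type} [Group G] [TopologicalSpace Y] [MulAction G Y]

/-- A pairing modulo the subcomplex `Z`. -/
structure PP (s : G) (B : Tot ℂ Y →ₗ[ℂ] Tot ℂ Y →+ ℂ) (Z : Submodule ℂ (Tot ℂ Y)) : Prop where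
  stokes : ∀ b u, B (dT ℂ Y b) u = B b (dT ℂ Y u)
  loc : ∀ A A' : Set Y, Inv s A → Inv s A' → Disjoint A A' → ∀ b ∈ CH ℂ A, ∀ u ∈ CH ℂ A',
    B b u = 0
  zl : ∀ b ∈ Z, ∀ u, B b u = 0
  zr : ∀ b, ∀ u ∈ Z, B b u = 0
  d : ∀ c ∈ Z, dT ℂ Y c ∈ Z
  sd : ∀ c ∈ Z, sdT ℂ Y c ∈ Z
  sh : ∀ c ∈ Z, sdH ℂ Y c ∈ Z
  pr : ∀ A, Inv s A → ∀ c ∈ Z, prj ℂ A c ∈ Z

/-- A family of supports for the open set `U`. -/
structure Adm (s : G) (𝒦 : Set (Set Y)) (U : Set Y) : Prop where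
  op : IsOpen U
  inv : Inv s U
  cl : ∀ K ∈ 𝒦, IsClosed K
  kinv : ∀ K ∈ 𝒦, Inv s K
  sub : ∀ K ∈ 𝒦, K ⊆ U
  union : ∀ K ∈ 𝒦, ∀ K' ∈ 𝒦, K ∪ K' ∈ 𝒦
  ex : ∀ L, IsCompact L → L ⊆ U → ∃ K ∈ 𝒦, L ⊆ K

/-- The families of supports of two open sets, their intersection and their union. -/
structure MVF {Y : Type} (𝒦₁ 𝒦₂ 𝒦₀ 𝒦 : Set (Set Y)) : Prop where
  inter : ∀ K ∈ 𝒦₁, ∀ K' ∈ 𝒦₂, K ∩ K' ∈ 𝒦₀
  union : ∀ K ∈ 𝒦₁, ∀ K' ∈ 𝒦₂, K ∪ K' ∈ 𝒦
  le₁ : 𝒦₀ ⊆ 𝒦₁
  le₂ : 𝒦₀ ⊆ 𝒦₂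
  spl : ∀ K ∈ 𝒦, ∃ K₁ ∈ 𝒦₁, ∃ K₂ ∈ 𝒦₂, K ⊆ K₁ ∪ K₂

/-- The saturation of a set. -/
def sat (s : G) (A : Set Y) : Set Y := ⋃ n : ℤ, (fun y => s ^ n • y) '' A

/-- Supports that are compact modulo `s`. -/
def KY (s : G) (U : Set Y) : Set (Set Y) := {K | Cocpt s K ∧ K ⊆ U}

/-- Supports that are preimages of compact sets. -/
def KX {X Y : Type} [TopologicalSpace X] (p : Y → X) (O : Set X) : Set (Set Y) :=
  {K | ∃ L, IsCompact L ∧ L ⊆ O ∧ K = p ⁻¹' L}

variable (B : Tot ℂ Y →ₗ[ℂ] Tot ℂ Y →+ ℂ) (Z : Submodule ℂ (Tot ℂ Y)) (𝒦 : Set (Set Y))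

def PDi (U : Set Y) : Prop :=
  ∀ K ∈ 𝒦, ∀ u ∈ CH ℂ K, dT ℂ Y u ∈ Z →
    (∀ b, dT ℂ Y b ∈ CH ℂ Kᶜ ⊔ Z → B b u = 0) → ∃ w ∈ CH ℂ U, u - dT ℂ Y w ∈ Z

def PDs : Prop :=
  ∀ K ∈ 𝒦, ∀ f : Tot ℂ Y →ₗ[ℂ] ℂ, (∀ b, f (dT ℂ Y b) = 0) →
    (∀ b ∈ CH ℂ Kᶜ ⊔ Z, f b = 0) → ∃ K' ∈ 𝒦, K ⊆ K' ∧ ∃ u ∈ CH ℂ K', dT ℂ Y u ∈ Z ∧
      ∀ b, dT ℂ Y b ∈ CH ℂ K'ᶜ ⊔ Z → B b u = f b

end

def MViStmt : Prop :=
  ∀ (G Y : Type) [Group G] [TopologicalSpace Y] [MulAction G Y] (s : G)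
    (B : Tot ℂ Y →ₗ[ℂ] Tot ℂ Y →+ ℂ) (Z : Submodule ℂ (Tot ℂ Y)) (𝒦₁ 𝒦₂ 𝒦₀ 𝒦 : Set (Set Y))
    (U V : Set Y), PP s B Z → Adm s 𝒦₁ U → Adm s 𝒦₂ V → Adm s 𝒦₀ (U ∩ V) → MVF 𝒦₁ 𝒦₂ 𝒦₀ 𝒦 →
    PDi B Z 𝒦₁ U → PDi B Z 𝒦₂ V → PDi B Z 𝒦₀ (U ∩ V) → PDs B Z 𝒦₀ → PDi B Z 𝒦 (U ∪ V)

def MVsStmt : Prop :=
  ∀ (G Y : Type) [Group G] [TopologicalSpace Y] [MulAction G Y] (s : G)
    (B : Tot ℂ Y →ₗ[ℂ] Tot ℂ Y →+ ℂ) (Z : Submodule ℂ (Tot ℂ Y)) (𝒦₁ 𝒦₂ 𝒦₀ 𝒦 : Set (Set Y))
    (U V : Set Y), PP s B Z → Adm s 𝒦₁ U → Adm s 𝒦₂ V → Adm s 𝒦₀ (U ∩ V) → MVF 𝒦₁ 𝒦₂ 𝒦₀ 𝒦 →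
    PDi B Z 𝒦₁ U → PDi B Z 𝒦₂ V → PDs B Z 𝒦₁ → PDs B Z 𝒦₂ → PDs B Z 𝒦₀ → PDs B Z 𝒦

/-- The pairing `ρ ∘ lam`. -/
def PPStmt : Prop :=
  ∀ (X G Y : Type) [TopologicalSpace X] [T2Space X] [Group G]
    [TopologicalSpace Y] [MulAction G Y] [ContinuousConstSMul G Y]
    (o : Orientation4 X) (F : Set X) (p : Y → X) (s : G) (β : Form Y), TC F p s → Pair o p s β →
    ∀ g ρ, Frob g ρ → ∃ B : Tot ℂ Y →ₗ[ℂ] Tot ℂ Y →+ ℂ,
      (∀ b u, B b u = ρ (lamF s β b u)) ∧ PP s B (Mul0 s g)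

/-- The two families of supports. -/
def FamStmt : Prop :=
  ∀ (X G Y : Type) [TopologicalSpace X] [T2Space X] [ChartedSpace (E 4) X] [Group G]
    [TopologicalSpace Y] [T2Space Y] [MulAction G Y] [ContinuousConstSMul G Y]
    (F : Set X) (p : Y → X) (s : G), TC F p s →
    (∀ L : Set Y, IsCompact L → Cocpt s (sat s L)) ∧
    (∀ K : Set Y, Cocpt s K → ∃ L, IsCompact L ∧ K = sat s L) ∧
    (∀ U : Set Y, IsOpen U → Inv s U → Adm s (KY s U) U) ∧
    (∀ U V : Set Y, IsOpen U → Inv s U → IsOpen V → Inv s V →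
      MVF (KY s U) (KY s V) (KY s (U ∩ V)) (KY s (U ∪ V))) ∧
    (∀ K : Set Y, Cocpt s K → IsCompact (p '' K)) ∧
    (∀ L : Set X, IsCompact L → L ⊆ Fᶜ → Cocpt s (p ⁻¹' L)) ∧
    (∀ O, IsOpen O → Adm s (KX p O) (p ⁻¹' O)) ∧
    ∀ O O', IsOpen O → IsOpen O' → MVF (KX p O) (KX p O') (KX p (O ∩ O')) (KX p (O ∪ O'))

/-- The homology over the translates of a convex chart set. -/
def Base1HStmt : Prop :=
  ∀ (X G Y : Type) [TopologicalSpace X] [T2Space X] [Group G]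
    [TopologicalSpace Y] [T2Space Y] [MulAction G Y] [ContinuousConstSMul G Y]
    (o : Orientation4 X) (F : Set X) (p : Y → X) (s : G), TC F p s →
    ∀ g : Lam ℂ, g ≠ 0 → ∀ e : OpenPartialHomeomorph Y (E 4), InjOn p e.source →
    ∀ V, IsOpen V → Convex ℝ V → V ⊆ e.target → ∀ x ∈ V,
      (∀ u ∈ CH ℂ (sat s (e.symm '' V)), dT ℂ Y u ∈ Mul0 s g →
        ∃ a : Lam ℂ, ∃ w ∈ CH ℂ (sat s (e.symm '' V)),
          u - act ℂ Y s a (pt ℂ (e.symm x)) - dT ℂ Y w ∈ Mul0 s g) ∧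
      ∀ L, IsCompact L → Convex ℝ L → L ⊆ V → x ∈ L →
        ∃ c ∈ CH ℝ (e.symm '' V), LocDeg o p (e.symm x) c 1 ∧ dT ℝ Y c ∈ CH ℝ (e.symm '' L)ᶜ ∧
          ∀ b, dT ℂ Y b ∈ CH ℂ (sat s (e.symm '' L))ᶜ ⊔ Mul0 s g → ∃ (a : Lam ℂ) (w : Tot ℂ Y),
            b - act ℂ Y s a (cast Complex.ofRealHom Y c) - dT ℂ Y w ∈
              CH ℂ (sat s (e.symm '' L))ᶜ ⊔ Mul0 s g

/-- Duality over the translates of a convex chart set. -/
def Base1Stmt : Prop :=
  ∀ (X G Y : Type) [TopologicalSpace X] [T2Space X] [ChartedSpace (E 4) X] [Group G]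
    [TopologicalSpace Y] [T2Space Y] [MulAction G Y] [ContinuousConstSMul G Y]
    (o : Orientation4 X) (F : Set X) (p : Y → X) (s : G) (β : Form Y), TC F p s → Pair o p s β →
    ∀ g ρ, Frob g ρ → ∀ B : Tot ℂ Y →ₗ[ℂ] Tot ℂ Y →+ ℂ, (∀ b u, B b u = ρ (lamF s β b u)) →
    PP s B (Mul0 s g) → ∀ e : OpenPartialHomeomorph Y (E 4), InjOn p e.source →
    ∀ V, IsOpen V → Convex ℝ V → V ⊆ e.target →
      PDi B (Mul0 s g) (KY s (sat s (e.symm '' V))) (sat s (e.symm '' V)) ∧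
      PDs B (Mul0 s g) (KY s (sat s (e.symm '' V)))

def PD1Stmt : Prop :=
  ∀ (X G Y : Type) [TopologicalSpace X] [T2Space X] [ChartedSpace (E 4) X] [Group G]
    [TopologicalSpace Y] [T2Space Y] [MulAction G Y] [ContinuousConstSMul G Y]
    (o : Orientation4 X) (F : Set X) (p : Y → X) (s : G) (β : Form Y), TC F p s → Pair o p s β →
    ∀ g ρ, Frob g ρ → ∀ B : Tot ℂ Y →ₗ[ℂ] Tot ℂ Y →+ ℂ, (∀ b u, B b u = ρ (lamF s β b u)) →
    PP s B (Mul0 s g) → ∀ U, IsOpen U → Inv s U →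
      PDi B (Mul0 s g) (KY s U) U ∧ PDs B (Mul0 s g) (KY s U)

/-- Duality over a neighbourhood of the surface in a flat chart: both sides vanish. -/
def Base2Stmt : Prop :=
  ∀ (X G Y : Type) [TopologicalSpace X] [T2Space X] [Group G]
    [TopologicalSpace Y] [MulAction G Y] [ContinuousConstSMul G Y]
    (F : Set X) (p : Y → X) (s : G), TC F p s → ∀ ζ : Circle, ζ ≠ 1 → ∀ (n : ℕ)
    (B : Tot ℂ Y →ₗ[ℂ] Tot ℂ Y →+ ℂ) (e : OpenPartialHomeomorph X (ℂ × ℂ)) (V : Set (ℂ × ℂ)),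
    FlatCh F e → IsOpen V → V ⊆ e.target → DiscCl V →
      PDi B (Mul0 s (piL ζ ^ n)) (KX p (e.symm '' V)) (p ⁻¹' (e.symm '' V)) ∧
      PDs B (Mul0 s (piL ζ ^ n)) (KX p (e.symm '' V))

def PD2Stmt : Prop :=
  ∀ (X G Y : Type) [TopologicalSpace X] [T2Space X] [ChartedSpace (E 4) X] [Group G]
    [TopologicalSpace Y] [T2Space Y] [MulAction G Y] [ContinuousConstSMul G Y]
    (o : Orientation4 X) (F : Set X) (p : Y → X) (s : G) (β : Form Y), TC F p s → Pair o p s β →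
    ∀ ζ : Circle, ζ ≠ 1 → ∀ (n : ℕ) ρ, Frob (piL ζ ^ n) ρ →
    ∀ B : Tot ℂ Y →ₗ[ℂ] Tot ℂ Y →+ ℂ, (∀ b u, B b u = ρ (lamF s β b u)) →
    PP s B (Mul0 s (piL ζ ^ n)) → ∀ O, IsOpen O →
      PDi B (Mul0 s (piL ζ ^ n)) (KX p O) (p ⁻¹' O) ∧ PDs B (Mul0 s (piL ζ ^ n)) (KX p O)

end

end Pool.Agent.MP_bc14e1_gt

end

section

open Set Metric
open scoped Classical

namespace Pool.Agent.MP_bc14e1_gt

theorem Frob_div {A : Type} [CommRing A] [IsDomain A] [Algebra ℂ A] (ev : A →ₐ[ℂ] ℂ) {π : A}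
    (hπ : π ≠ 0) (hev : ∀ a, ev a = 0 ↔ π ∣ a) :
    ∃ D : A →ₗ[ℂ] A, ∀ a, π * D a = a - algebraMap ℂ A (ev a) := by
  have h : ∀ a, ∃ b, π * b = a - algebraMap ℂ A (ev a) := fun a => by
    obtain ⟨b, hb⟩ := (hev (a - algebraMap ℂ A (ev a))).1 (by simp)
    exact ⟨b, hb.symm⟩
  choose D hD using h
  refine ⟨⟨⟨D, fun a b => mul_left_cancel₀ hπ ?_⟩, fun r a => mul_left_cancel₀ hπ ?_⟩, hD⟩
  · rw [mul_add, hD, hD, hD, map_add, map_add]
    ring
  · simp only [RingHom.id_apply]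
    rw [mul_smul_comm, hD, hD, map_smul, smul_eq_mul, map_mul, Algebra.smul_def, Algebra.smul_def]
    ring

theorem Frob_ex {A : Type} [CommRing A] [IsDomain A] [Algebra ℂ A] (ev : A →ₐ[ℂ] ℂ) {π : A}
    (hπ : π ≠ 0) (hev : ∀ a, ev a = 0 ↔ π ∣ a) :
    ∃ ρ : ℕ → A →ₗ[ℂ] ℂ, ρ 1 = ev.toLinearMap ∧ ∀ n, (∀ a, ρ n (π ^ n * a) = 0) ∧
      (∀ b, (∀ a, ρ n (a * b) = 0) → π ^ n ∣ b) ∧
      ∀ f : A →ₗ[ℂ] ℂ, (∀ a, f (π ^ n * a) = 0) → ∃ b, ∀ a, f a = ρ n (a * b) := by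
  obtain ⟨D, hD⟩ := Frob_div ev hπ hev
  have hev0 : ∀ a, ev (π * a) = 0 := fun a => (hev _).2 (dvd_mul_right _ _)
  have hDπ : ∀ a, D (π * a) = a := fun a => mul_left_cancel₀ hπ (by rw [hD, hev0]; simp)
  obtain ⟨ρ, h0, h1, hs⟩ : ∃ ρ : ℕ → A →ₗ[ℂ] ℂ, ρ 0 = 0 ∧ ρ 1 = ev.toLinearMap ∧
      ∀ n a, ρ (n + 1) (π * a) = ρ n a := by
    refine ⟨fun n => Nat.casesOn n 0 fun m => ev.toLinearMap ∘ₗ D ^ m, rfl, ?_, ?_⟩
    · ext a
      simp
    · rintro (_ | n) a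
      · simpa using hev0 a
      · simp only [LinearMap.comp_apply]
        rw [pow_succ, Module.End.mul_apply, hDπ]
  have hp : ∀ n m a, ρ (n + m) (π ^ m * a) = ρ n a := by
    intro n m a
    induction m with
    | zero => simp
    | succ m ih => rw [← add_assoc, pow_succ', mul_assoc, hs, ih]
  have ht : ∀ n a, ρ (n + 1) (π ^ n * a) = ev a := fun n a => by
    rw [add_comm, hp, h1]
    rfl
  refine ⟨ρ, h1, fun n => ⟨fun a => ?_, ?_, ?_⟩⟩
  · have := hp 0 n a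
    rwa [zero_add, h0] at this
  · induction n with
    | zero => intro b _; simp
    | succ n ih =>
      intro b hb
      obtain ⟨b', rfl⟩ := (hev b).1 (by rw [← ht n b, hb])
      rw [pow_succ']
      refine mul_dvd_mul_left _ (ih b' fun a => ?_)
      rw [← hs, ← hb a]
      congr 1
      ring
  · induction n with
    | zero =>
      intro f hf
      refine ⟨0, fun a => ?_⟩
      simpa using hf a
    | succ n ih =>
      intro f hf
      obtain ⟨b', hb'⟩ := ih (f ∘ₗ LinearMap.mulLeft ℂ π) fun a => by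
        rw [← hf a, pow_succ', mul_assoc]
        rfl
      refine ⟨b' + π ^ n * algebraMap ℂ A (f 1 - ρ (n + 1) b'), fun a => ?_⟩
      have ha : a = ev a • (1 : A) + π * D a := by
        rw [hD, Algebra.smul_def]
        ring
      have e1 : f (π * D a) = ρ (n + 1) (π * D a * b') := by
        rw [mul_assoc, hs]
        exact hb' (D a)
      have e2 : ρ (n + 1) (a * b') = ev a * ρ (n + 1) b' + ρ (n + 1) (π * D a * b') := by
        conv_lhs => rw [ha]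
        rw [add_mul, map_add, smul_mul_assoc, one_mul, map_smul, smul_eq_mul]
      have e3 : f a = ev a * f 1 + f (π * D a) := by
        conv_lhs => rw [ha]
        rw [map_add, map_smul, smul_eq_mul]
      rw [mul_add, map_add, mul_left_comm, ht, e2, e3, e1, map_mul ev, AlgHom.commutes]
      simp only [Algebra.algebraMap_self, RingHom.id_apply]
      ring

theorem frob_stmt (hLaur : LaurStmt) : FrobStmt := by
  intro ζ
  obtain ⟨-, -, hcc, -, -, -, -, -, hev, hpr, hcj, -⟩ := hLaur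
  obtain ⟨ρ, h1, hρ⟩ := Frob_ex (evL ζ) (hpr ζ).ne_zero (hev ζ)
  have hd : ∀ n : ℕ, piL ζ ^ n ∣ cj (piL ζ ^ n) := fun n => by
    rw [map_pow, hcj]
    exact pow_dvd_pow_of_dvd (dvd_mul_left _ _) n
  have key : ∀ n : ℕ, Frob (piL ζ ^ n) (ρ n) := fun n => by
    refine ⟨pow_ne_zero n (hpr ζ).ne_zero, hd n, (hρ n).1, fun a' ha' => ?_, fun f hf => ?_⟩
    · have := map_dvd cj ((hρ n).2.1 _ ha')
      rw [hcc] at this
      exact (hd n).trans this
    · obtain ⟨b, hb⟩ := (hρ n).2.2 f hf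
      exact ⟨cj b, fun a => by rw [hcc, hb]⟩
  refine ⟨?_, fun n => ⟨ρ n, key n⟩⟩
  have := key 1
  rwa [pow_one, h1] at this

end Pool.Agent.MP_bc14e1_gt

end

section

open Set Metric
open scoped Classical

namespace Pool.Agent.MP_bc14e1_gt

theorem PP_map {G Y : Type} [Group G] [TopologicalSpace Y] [MulAction G Y]
    [ContinuousConstSMul G Y] {s : G} {g : Lam ℂ} (f : Module.End ℂ (Tot ℂ Y))
    (hf : ∀ c, f (gs ℂ Y s c) = gs ℂ Y s (f c)) {c : Tot ℂ Y} (h : c ∈ Mul0 s g) :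
    f c ∈ Mul0 s g := by
  obtain ⟨y, rfl⟩ := h
  exact ⟨f y, (map_act f hf g y).symm⟩

theorem pp_stmt (B : Bas1) : PPStmt := by
  intro X G Y _ _ _ _ _ _ o F p s β hTC hβ g ρ hρ
  obtain ⟨hS, hloc, -⟩ := B.lam X G Y F p s β hTC hβ.lk
  have al : ∀ u u' v : Tot ℂ Y, lamF s β (u + u') v = lamF s β u v + lamF s β u' v := hS.add_left
  have ar : ∀ u v v' : Tot ℂ Y, lamF s β u (v + v') = lamF s β u v + lamF s β u v' := hS.add_right
  have sl : ∀ (a : Lam ℂ) (u v : Tot ℂ Y), lamF s β (act ℂ Y s a u) v = a * lamF s β u v :=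
    hS.smul_left
  have sr : ∀ (a : Lam ℂ) (u v : Tot ℂ Y), lamF s β u (act ℂ Y s a v) = cj a * lamF s β u v :=
    hS.smul_right
  let B₀ : Tot ℂ Y →ₗ[ℂ] Tot ℂ Y →+ ℂ :=
    { toFun := fun b => AddMonoidHom.mk' (fun u => ρ (lamF s β b u)) fun u u' => by
        rw [ar, map_add]
      map_add' := fun b b' => AddMonoidHom.ext fun u => by
        change ρ (lamF s β (b + b') u) = ρ (lamF s β b u) + ρ (lamF s β b' u)
        rw [al, map_add]
      map_smul' := fun a b => AddMonoidHom.ext fun u => by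
        change ρ (lamF s β (a • b) u) = a • ρ (lamF s β b u)
        rw [← act_C s, sl, ← map_smul, ← LaurentPolynomial.smul_eq_C_mul] }
  have hB : ∀ b u, B₀ b u = ρ (lamF s β b u) := fun _ _ => rfl
  refine ⟨B₀, hB, fun b u => ?_, fun A A' _ hA' hd b hb u hu => ?_, ?_, ?_,
    fun c hc => PP_map _ (dT_gs s) hc,
    fun c hc => PP_map _ (fun c => sdT_psh (continuous_const_smul s).continuousOn
      (mem_CH_univ c)) hc,
    fun c hc => PP_map _ (fun c => sdH_psh (continuous_const_smul s).continuousOn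
      (mem_CH_univ c)) hc,
    fun A hA c hc => PP_map _ (prj_gs s hA) hc⟩
  · rw [hB, hB, lamF, lamF]
    refine congrArg ρ (finsum_congr fun n => ?_)
    rw [hβ.stokes, dT_gs]
  · rw [hB, hloc A A' hA' hd b hb u hu, map_zero]
  · rintro _ ⟨y, rfl⟩ u
    rw [hB, sl, hρ.kill]
  · rintro b _ ⟨y, rfl⟩
    obtain ⟨c, hc⟩ := hρ.cjd
    rw [hB, sr, hc, mul_assoc, hρ.kill]

end Pool.Agent.MP_bc14e1_gt

end

section

open Set Metric
open scoped Classical

namespace Pool.Agent.MP_bc14e1_gt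

section
open Topology Filter

variable {G Y : Type} [Group G] [MulAction G Y] {s : G}

theorem Fam_mem {A : Set Y} {y : Y} : y ∈ sat s A ↔ ∃ n : ℤ, ∃ a ∈ A, s ^ n • a = y := by
  simp only [sat, mem_iUnion, mem_image]

theorem Fam_sub (A : Set Y) : A ⊆ sat s A := fun y hy => Fam_mem.2 ⟨0, y, hy, by simp⟩

theorem Fam_mono {A B : Set Y} (h : A ⊆ B) : sat s A ⊆ sat s B := fun _ hy =>
  let ⟨n, a, h1, h2⟩ := Fam_mem.1 hy; Fam_mem.2 ⟨n, a, h h1, h2⟩

theorem Fam_le {A U : Set Y} (hU : Inv s U) (h : A ⊆ U) : sat s A ⊆ U := fun y hy => by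
  obtain ⟨n, a, h1, rfl⟩ := Fam_mem.1 hy
  exact (hU.zpow n a).2 (h h1)

theorem Fam_inv (A : Set Y) : Inv s (sat s A) := fun y => by
  simp only [Fam_mem]
  constructor
  · rintro ⟨n, a, h1, h2⟩
    exact ⟨-1 + n, a, h1, by rw [zpow_add, mul_smul, h2, zpow_neg_one, inv_smul_smul]⟩
  · rintro ⟨n, a, h1, rfl⟩
    exact ⟨1 + n, a, h1, by rw [zpow_add, mul_smul, zpow_one]⟩

variable [TopologicalSpace Y]

theorem Fam_union {K K' : Set Y} (h : Cocpt s K) (h' : Cocpt s K') : Cocpt s (K ∪ K') := by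
  obtain ⟨h1, h2, L, h3, h4⟩ := h
  obtain ⟨k1, k2, L', k3, k4⟩ := h'
  exact ⟨h1.union k1, fun y => or_congr (h2 y) (k2 y), L ∪ L', h3.union k3,
    union_subset (h4.trans (Fam_mono subset_union_left)) (k4.trans (Fam_mono subset_union_right))⟩

theorem Fam_inter {K K' : Set Y} (h : Cocpt s K) (h' : Cocpt s K') : Cocpt s (K ∩ K') := by
  obtain ⟨h1, h2, L, h3, h4⟩ := h
  exact ⟨h1.inter h'.1, fun y => and_congr (h2 y) (h'.2.1 y), L, h3, inter_subset_left.trans h4⟩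

theorem Fam_eq {K : Set Y} (h : Cocpt s K) : ∃ L, IsCompact L ∧ K = sat s L := by
  obtain ⟨h1, h2, L, h3, h4⟩ := h
  refine ⟨L ∩ K, h3.inter_right h1, Subset.antisymm (fun y hy => ?_) (Fam_le h2 inter_subset_right)⟩
  obtain ⟨n, a, ha, rfl⟩ := Fam_mem.1 (h4 hy)
  exact Fam_mem.2 ⟨n, a, ⟨ha, (h2.zpow n a).1 hy⟩, rfl⟩

theorem Fam_nhds {y : Y} (e : OpenPartialHomeomorph Y (E 4)) (hy : y ∈ e.source) :
    ∃ N ∈ 𝓝 y, IsCompact N := by
  obtain ⟨K, h1, h2, h3⟩ := exists_compact_subset e.open_target (e.map_source hy)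
  refine ⟨e.symm '' K, ?_, h1.image_of_continuousOn (e.continuousOn_symm.mono h3)⟩
  have := e.symm.image_mem_nhds (e.map_source hy) (mem_interior_iff_mem_nhds.1 h2)
  rwa [e.left_inv hy] at this

end

theorem fam_stmt (B : Bas1) (hLocCtr : LocCtrStmt) : FamStmt := by
  intro X G Y _ _ _ _ _ _ _ _ F p s tc
  obtain ⟨-, hl, -, hs, hp⟩ := B.cov G X Y Fᶜ p tc.cov
  obtain ⟨-, hp⟩ := hp inferInstance
  have hN : ∀ y : Y, ∃ N ∈ nhds y, IsCompact N := fun y => by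
    obtain ⟨⟨e, he, -⟩, -⟩ := hLocCtr X Y p hl y univ Filter.univ_mem
    exact Fam_nhds e he
  have hi : Function.Injective fun n : ℤ => s ^ n := fun a b e =>
    sub_eq_zero.1 (tc.inf _ (by rw [zpow_sub, show s ^ a = s ^ b from e, mul_inv_cancel]))
  have h1 : ∀ L : Set Y, IsCompact L → Cocpt s (sat s L) := fun L hL => by
    refine ⟨LocallyFinite.isClosed_iUnion (fun y => ?_)
      fun n => (hL.image (continuous_const_smul _)).isClosed, Fam_inv L, L, hL, subset_rfl⟩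
    obtain ⟨N, n1, n2⟩ := hN y
    refine ⟨N, n1, ((hp L N hL n2).preimage hi.injOn).subset ?_⟩
    rintro n ⟨_, ⟨a, ha, rfl⟩, hb⟩
    exact ⟨a, ha, hb⟩
  have hI : ∀ A : Set X, Inv s (p ⁻¹' A) := fun A y => by
    rw [mem_preimage, tc.cov.inv, mem_preimage]
  refine ⟨h1, fun K => Fam_eq, fun U u1 u2 => ⟨u1, u2, fun K h => h.1.1, fun K h => h.1.2.1,
    fun K h => h.2, fun K h K' h' => ⟨Fam_union h.1 h'.1, union_subset h.2 h'.2⟩,
    fun L l1 l2 => ⟨sat s L, ⟨h1 L l1, Fam_le u2 l2⟩, Fam_sub L⟩⟩,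
    fun U V u1 u2 v1 v2 => ⟨fun K h K' h' => ⟨Fam_inter h.1 h'.1, inter_subset_inter h.2 h'.2⟩,
      fun K h K' h' => ⟨Fam_union h.1 h'.1, union_subset_union h.2 h'.2⟩,
      fun K h => ⟨h.1, h.2.trans inter_subset_left⟩,
      fun K h => ⟨h.1, h.2.trans inter_subset_right⟩, fun K h => ?_⟩, fun K h => ?_,
    fun L l1 l2 => ⟨l1.isClosed.preimage tc.cov.cont, hI L, ?_⟩,
    fun O hO => ⟨hO.preimage tc.cov.cont, hI O, ?_, ?_, ?_, ?_, fun L l1 l2 =>
      ⟨p ⁻¹' (p '' L), ⟨_, l1.image tc.cov.cont, image_subset_iff.2 l2, rfl⟩,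
        subset_preimage_image p L⟩⟩, fun O O' hO hO' => ⟨?_, ?_, ?_, ?_, ?_⟩⟩
  · obtain ⟨L, l1, rfl⟩ := Fam_eq h.1
    obtain ⟨L₁, L₂, a1, a2, a3, a4, rfl⟩ := l1.binary_compact_cover u1 v1 ((Fam_sub L).trans h.2)
    refine ⟨_, ⟨h1 L₁ a1, Fam_le u2 a3⟩, _, ⟨h1 L₂ a2, Fam_le v2 a4⟩, fun y hy => ?_⟩
    obtain ⟨n, a, ha | ha, e⟩ := Fam_mem.1 hy
    exacts [.inl (Fam_mem.2 ⟨n, a, ha, e⟩), .inr (Fam_mem.2 ⟨n, a, ha, e⟩)]
  · obtain ⟨L, l1, rfl⟩ := Fam_eq h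
    rw [show p '' sat s L = p '' L from Subset.antisymm
      (image_subset_iff.2 (Fam_le (hI _) (subset_preimage_image p L))) (image_mono (Fam_sub L))]
    exact l1.image tc.cov.cont
  · obtain ⟨C, c1, c2⟩ : ∃ C, IsCompact C ∧ L ⊆ p '' C := by
      refine l1.induction_on ⟨∅, isCompact_empty, empty_subset _⟩
        (fun A A' h ⟨C, c1, c2⟩ => ⟨C, c1, h.trans c2⟩)
        (fun A A' ⟨C, c1, c2⟩ ⟨C', d1, d2⟩ => ⟨C ∪ C', c1.union d1, by
          rw [image_union]; exact union_subset_union c2 d2⟩) fun x hx => ?_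
      obtain ⟨y, rfl⟩ := hs x (l2 hx)
      obtain ⟨N, n1, n2⟩ := hN y
      exact ⟨p '' N, mem_nhdsWithin_of_mem_nhds (hl.isOpenMap.image_mem_nhds n1), N, n2,
        subset_rfl⟩
    have := tc.fin
    refine ⟨⋃ q : G ⧸ Subgroup.zpowers s, (fun y => q.out • y) '' C,
      isCompact_iUnion fun q => c1.image (continuous_const_smul _), fun y hy => ?_⟩
    obtain ⟨c, hc, e⟩ := c2 hy
    obtain ⟨g, rfl⟩ := tc.cov.trans c y e
    obtain ⟨⟨_, n, rfl⟩, hn⟩ := QuotientGroup.mk_out_eq_mul (Subgroup.zpowers s) g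
    refine Fam_mem.2 ⟨-n, _, mem_iUnion.2 ⟨(g : G ⧸ Subgroup.zpowers s), c, hc, rfl⟩, ?_⟩
    rw [hn, ← mul_smul, (Commute.zpow_right (tc.cen g) n).eq, zpow_neg, inv_mul_cancel_left]
  · rintro _ ⟨L, l1, -, rfl⟩
    exact l1.isClosed.preimage tc.cov.cont
  · rintro _ ⟨L, -, -, rfl⟩
    exact hI L
  · rintro _ ⟨L, -, l2, rfl⟩
    exact preimage_mono l2
  · rintro _ ⟨L, l1, l2, rfl⟩ _ ⟨L', m1, m2, rfl⟩
    exact ⟨L ∪ L', l1.union m1, union_subset l2 m2, rfl⟩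
  · rintro _ ⟨L, l1, l2, rfl⟩ _ ⟨L', m1, m2, rfl⟩
    exact ⟨L ∩ L', l1.inter m1, inter_subset_inter l2 m2, rfl⟩
  · rintro _ ⟨L, l1, l2, rfl⟩ _ ⟨L', m1, m2, rfl⟩
    exact ⟨L ∪ L', l1.union m1, union_subset_union l2 m2, rfl⟩
  · rintro _ ⟨L, l1, l2, rfl⟩
    exact ⟨L, l1, l2.trans inter_subset_left, rfl⟩
  · rintro _ ⟨L, l1, l2, rfl⟩
    exact ⟨L, l1, l2.trans inter_subset_right, rfl⟩
  · rintro _ ⟨L, l1, l2, rfl⟩
    obtain ⟨L₁, L₂, a1, a2, a3, a4, rfl⟩ := l1.binary_compact_cover hO hO' l2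
    exact ⟨_, ⟨L₁, a1, a3, rfl⟩, _, ⟨L₂, a2, a4, rfl⟩, subset_rfl⟩

end Pool.Agent.MP_bc14e1_gt

end

section

open Set Metric
open scoped Classical

namespace Pool.Agent.MP_bc14e1_gt

section
variable {G Y : Type} [Group G] [MulAction G Y] {s : G}

theorem Base1_mem {A : Set Y} {y : Y} : y ∈ sat s A ↔ ∃ n : ℤ, ∃ a ∈ A, s ^ n • a = y := by
  simp [sat]

theorem Base1_sub (A : Set Y) : A ⊆ sat s A := fun y hy => Base1_mem.2 ⟨0, y, hy, by simp⟩

theorem Base1_mono {A B : Set Y} (h : A ⊆ B) : sat s A ⊆ sat s B := fun _ hy =>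
  let ⟨n, a, ha, e⟩ := Base1_mem.1 hy
  Base1_mem.2 ⟨n, a, h ha, e⟩

theorem Base1_le {A U : Set Y} (hU : Inv s U) (h : A ⊆ U) : sat s A ⊆ U := fun y hy => by
  obtain ⟨n, a, ha, rfl⟩ := Base1_mem.1 hy
  exact (hU.zpow n a).2 (h ha)

theorem Base1_inv (A : Set Y) : Inv s (sat s A) := fun y => by
  simp only [Base1_mem]
  constructor
  · rintro ⟨n, a, ha, e⟩
    refine ⟨-1 + n, a, ha, ?_⟩
    rw [zpow_add, mul_smul, e, zpow_neg_one, inv_smul_smul]
  · rintro ⟨n, a, ha, e⟩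
    refine ⟨1 + n, a, ha, ?_⟩
    rw [zpow_add, mul_smul, e, zpow_one]

theorem Base1_compl {A : Set Y} (h : Inv s A) : Inv s Aᶜ := fun y => not_congr (h y)

end

theorem Base1_cvx {V S : Set (E 4)} (hV : IsOpen V) (hc : Convex ℝ V) (hS : IsCompact S)
    (hSV : S ⊆ V) : ∃ L, IsCompact L ∧ Convex ℝ L ∧ L ⊆ V ∧ S ⊆ L := by
  obtain ⟨δ, hδ, hth⟩ := hS.exists_thickening_subset_open hV hSV
  obtain ⟨R, hR⟩ := hS.isBounded.subset_closedBall (0 : E 4)
  refine ⟨closedBall 0 R ∩ (thickening δ Vᶜ)ᶜ,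
    (isCompact_closedBall _ _).inter_right isOpen_thickening.isClosed_compl,
    (convex_closedBall _ _).inter ?_, ?_, fun z hz => ⟨hR hz, ?_⟩⟩
  · intro z1 h1 z2 h2 a b ha hb hab hz
    obtain ⟨w, hw, hd⟩ := mem_thickening_iff.1 hz
    apply hw
    have k : ∀ z ∈ (thickening δ Vᶜ)ᶜ, z + (w - (a • z1 + b • z2)) ∈ V := by
      intro z hz'
      by_contra hn
      refine hz' (mem_thickening_iff.2 ⟨_, hn, ?_⟩)
      rw [dist_self_add_right, ← dist_eq_norm, dist_comm]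
      exact hd
    have := hc (k z1 h1) (k z2 h2) ha hb hab
    have e : a • (z1 + (w - (a • z1 + b • z2))) + b • (z2 + (w - (a • z1 + b • z2))) = w := by
      rw [smul_add, smul_add, add_add_add_comm, ← add_smul, hab, one_smul, add_sub_cancel]
    rwa [e] at this
  · intro z hz
    by_contra hn
    exact hz.2 (self_subset_thickening hδ _ hn)
  · intro hz'
    obtain ⟨w, hw, hd⟩ := mem_thickening_iff.1 hz'
    exact hw (hth (mem_thickening_iff.2 ⟨z, hz, by rwa [dist_comm]⟩))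

theorem Base1_red {G Y : Type} [Group G] [TopologicalSpace Y] [MulAction G Y]
    [ContinuousConstSMul G Y] {s : G} (e : OpenPartialHomeomorph Y (E 4)) {V : Set (E 4)}
    (hV : IsOpen V) (hc : Convex ℝ V) (hVe : V ⊆ e.target) {x : E 4} (hx : x ∈ V) {C : Set Y}
    (hC : IsCompact C) (hCU : C ⊆ sat s (e.symm '' V)) :
    ∃ L, IsCompact L ∧ Convex ℝ L ∧ L ⊆ V ∧ x ∈ L ∧ C ⊆ sat s (e.symm '' L) := by
  have key : ∃ S, IsCompact S ∧ S ⊆ V ∧ C ⊆ sat s (e.symm '' S) := by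
    refine hC.induction_on (p := fun C => ∃ S, IsCompact S ∧ S ⊆ V ∧ C ⊆ sat s (e.symm '' S))
      ⟨∅, isCompact_empty, empty_subset _, empty_subset _⟩ ?_ ?_ ?_
    · rintro A B hAB ⟨S, h1, h2, h3⟩
      exact ⟨S, h1, h2, hAB.trans h3⟩
    · rintro A B ⟨S, h1, h2, h3⟩ ⟨S', h1', h2', h3'⟩
      exact ⟨S ∪ S', h1.union h1', union_subset h2 h2',
        union_subset (h3.trans (Base1_mono (image_mono subset_union_left)))
          (h3'.trans (Base1_mono (image_mono subset_union_right)))⟩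
    · intro y hy
      obtain ⟨n, _, ⟨v, hv, rfl⟩, rfl⟩ := Base1_mem.1 (hCU hy)
      obtain ⟨r, hr, hrV⟩ := nhds_basis_closedBall.mem_iff.1 (hV.mem_nhds hv)
      refine ⟨(fun y => s ^ n • y) '' (e.symm '' ball v r), mem_nhdsWithin_of_mem_nhds ?_,
        closedBall v r, isCompact_closedBall _ _, hrV, ?_⟩
      · refine IsOpen.mem_nhds ?_ ⟨_, ⟨v, mem_ball_self hr, rfl⟩, rfl⟩
        refine isOpenMap_smul (s ^ n) _ ?_
        exact e.symm.isOpen_image_of_subset_source isOpen_ball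
          (ball_subset_closedBall.trans (hrV.trans hVe))
      · rintro _ ⟨_, ⟨w, hw, rfl⟩, rfl⟩
        exact Base1_mem.2 ⟨n, _, ⟨w, ball_subset_closedBall hw, rfl⟩, rfl⟩
  obtain ⟨S, h1, h2, h3⟩ := key
  obtain ⟨L, g1, g2, g3, g4⟩ := Base1_cvx hV hc (h1.insert x) (insert_subset hx h2)
  exact ⟨L, g1, g2, g3, g4 (mem_insert _ _),
    h3.trans (Base1_mono (image_mono ((subset_insert _ _).trans g4)))⟩

theorem base1_stmt (B : Bas1) (hFam : FamStmt) (hBase1H : Base1HStmt) : Base1Stmt := by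
  intro X G Y _ _ _ _ _ _ _ _ o F p s β hT hP g ρ hg B' hB hPP e hinj V hV hc hVe
  obtain ⟨f1, f2, -⟩ := hFam X G Y F p s hT
  have hH := hBase1H X G Y o F p s hT g hg.ne e hinj V hV hc hVe
  obtain ⟨hS, -, -, hco, -⟩ := B.lam X G Y F p s β hT hP.lk
  have hl : ∀ a u v, lamF s β (act ℂ Y s a u) v = a * lamF s β u v := hS.smul_left
  have hr : ∀ a u v, lamF s β u (act ℂ Y s a v) = cj a * lamF s β u v := hS.smul_right
  have hsrc : e.symm '' V ⊆ e.source := by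
    rintro _ ⟨v, hv, rfl⟩
    exact e.map_target (hVe hv)
  have hfree : ∀ (n : ℤ), ∀ y ∈ e.source, s ^ n • y ∈ e.source → n = 0 := fun n y hy hn =>
    hT.inf n (hT.cov.free _ y (hinj hn hy (hT.cov.inv _ y)))
  have hone : ∀ x ∈ V, ∀ c ∈ CH ℝ (e.symm '' V), LocDeg o p (e.symm x) c 1 →
      lamF s β (cast Complex.ofRealHom Y c) (pt ℂ (e.symm x)) = -1 := by
    intro x hx c hcV hd
    refine AddMonoidAlgebra.coeff_injective (Finsupp.ext fun n => ?_)
    rw [hco, gs, psh_pt, AddMonoidAlgebra.coeff_neg, Finsupp.neg_apply, AddMonoidAlgebra.one_def,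
      AddMonoidAlgebra.coeff_single, Finsupp.single_apply]
    split_ifs with h
    · subst h
      rw [zpow_zero, one_smul, hP.one _ c 1 hd]
      simp
    · rw [neg_zero]
      refine hP.lk.loc (e.symm '' V) {s ^ n • e.symm x} ?_ _ (cast_mem_CH _ hcV) _
        (pt_mem_CH rfl)
      rw [disjoint_singleton_right]
      exact fun hn => h (hfree n _ (hsrc ⟨x, hx, rfl⟩) (hsrc hn)).symm
  have hbd : ∀ L ⊆ V, ∀ c ∈ CH ℝ (e.symm '' V), dT ℝ Y c ∈ CH ℝ (e.symm '' L)ᶜ → ∀ a,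
      dT ℂ Y (act ℂ Y s a (cast Complex.ofRealHom Y c)) ∈ CH ℂ (sat s (e.symm '' L))ᶜ := by
    intro L hL c hcV hd a
    rw [dT_act, ← cast_dT]
    refine act_mem_CH (Base1_compl (Base1_inv _)) a (cast_mem_CH _ ?_)
    have h1 : dT ℝ Y c ∈ CH ℝ (e.symm '' V ∩ (e.symm '' L)ᶜ) := by
      rw [CH_inter]
      exact ⟨dT_mem_CH hcV, hd⟩
    refine CH_mono ?_ h1
    rintro y ⟨hy, hy'⟩ hn
    obtain ⟨n, a, ha, rfl⟩ := Base1_mem.1 hn
    have := hfree n a (hsrc (image_mono hL ha)) (hsrc hy)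
    subst this
    exact hy' (by simpa using ha)
  have hK : ∀ x ∈ V, ∀ K ∈ KY s (sat s (e.symm '' V)), ∀ w ∈ CH ℂ (sat s (e.symm '' V)),
      ∃ L, IsCompact L ∧ Convex ℝ L ∧ L ⊆ V ∧ x ∈ L ∧ K ⊆ sat s (e.symm '' L) ∧
        w ∈ CH ℂ (sat s (e.symm '' L)) := by
    intro x hx K hK w hw
    obtain ⟨L', hL', rfl⟩ := f2 K hK.1
    obtain ⟨C, hC, hCU, hwC⟩ := exists_compact_CH hw
    obtain ⟨L, g1, g2, g3, g4, g5⟩ := Base1_red e hV hc hVe hx (hL'.union hC)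
      (union_subset ((Base1_sub _).trans hK.2) hCU)
    exact ⟨L, g1, g2, g3, g4, Base1_le (Base1_inv _) (subset_union_left.trans g5),
      CH_mono (subset_union_right.trans g5) hwC⟩
  rcases V.eq_empty_or_nonempty with rfl | ⟨x, hx⟩
  · have he : ∀ K ∈ KY s (sat s (e.symm '' ∅)), K = ∅ := fun K hK =>
      subset_eq_empty hK.2 (by simp [sat])
    refine ⟨fun K hK u hu _ _ => ⟨0, zero_mem _, ?_⟩,
      fun K hK f _ hf => ⟨K, hK, Subset.rfl, 0, zero_mem _, by simp, fun b _ => ?_⟩⟩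
    · rw [he K hK] at hu
      rw [eq_zero_of_mem_CH_empty hu]
      simp
    · rw [map_zero, hf b (Submodule.mem_sup_left ?_)]
      rw [he K hK, compl_empty]
      exact mem_CH_univ b
  obtain ⟨H1, H2⟩ := hH x hx
  constructor
  · intro K hKY u hu hdu h0
    obtain ⟨a, w, hw, hz⟩ := H1 u (CH_mono hKY.2 hu) hdu
    obtain ⟨L, g1, g2, g3, g4, g5, g6⟩ := hK x hx K hKY w hw
    obtain ⟨c, hcV, hd, hdc, -⟩ := H2 L g1 g2 g3 g4
    have hga : g ∣ a := by
      refine hg.inj a fun a' => ?_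
      have hb := hbd L g3 c hcV hdc a'
      have e0 := h0 _ (Submodule.mem_sup_left (CH_mono (compl_subset_compl.2 g5) hb))
      have e1 := hPP.zr (act ℂ Y s a' (cast Complex.ofRealHom Y c)) _ hz
      have e2 := hPP.loc _ _ (Base1_compl (Base1_inv _)) (Base1_inv _) disjoint_compl_left _ hb
        w g6
      rw [map_sub, map_sub, e0, ← hPP.stokes, e2, hB, hl, hr, hone x hx c hcV hd] at e1
      simpa using e1
    obtain ⟨a', rfl⟩ := hga
    refine ⟨w, hw, ?_⟩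
    have h1 : act ℂ Y s (g * a') (pt ℂ (e.symm x)) ∈ Mul0 s g :=
      ⟨act ℂ Y s a' (pt ℂ (e.symm x)), by rw [map_mul]; rfl⟩
    have := add_mem hz h1
    rwa [sub_right_comm, sub_add_cancel] at this
  · intro K hKY f hf1 hf2
    obtain ⟨L, g1, g2, g3, g4, g5, -⟩ := hK x hx K hKY 0 (zero_mem _)
    obtain ⟨c, hcV, hd, hdc, hgen⟩ := H2 L g1 g2 g3 g4
    let φ : Lam ℂ →ₗ[ℂ] ℂ := f ∘ₗ LinearMap.applyₗ (cast Complex.ofRealHom Y c) ∘ₗ
      (act ℂ Y s).toLinearMap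
    have hφ : ∀ a, φ a = f (act ℂ Y s a (cast Complex.ofRealHom Y c)) := fun _ => rfl
    obtain ⟨a', ha'⟩ := hg.surj φ fun a => by
      rw [hφ]
      exact hf2 _ (Submodule.mem_sup_right
        ⟨act ℂ Y s a (cast Complex.ofRealHom Y c), by rw [map_mul]; rfl⟩)
    have hu : -act ℂ Y s a' (pt ℂ (e.symm x)) ∈ CH ℂ (sat s (e.symm '' L)) :=
      neg_mem (act_mem_CH (Base1_inv _) a' (pt_mem_CH (Base1_sub _ ⟨x, g4, rfl⟩)))
    have hdu : dT ℂ Y (-act ℂ Y s a' (pt ℂ (e.symm x))) = 0 := by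
      rw [map_neg, dT_act, dT_pt, map_zero, neg_zero]
    refine ⟨sat s (e.symm '' L), ⟨f1 _ (g1.image_of_continuousOn
      (e.continuousOn_symm.mono (g3.trans hVe))), Base1_mono (image_mono g3)⟩, g5, _, hu,
      by rw [hdu]; exact zero_mem _, fun b hb => ?_⟩
    obtain ⟨a, w, hz⟩ := hgen b hb
    have hle : CH ℂ (sat s (e.symm '' L))ᶜ ⊔ Mul0 s g ≤ CH ℂ Kᶜ ⊔ Mul0 s g :=
      sup_le_sup_right (CH_mono (compl_subset_compl.2 g5)) _
    have e1 := hf2 _ (hle hz)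
    have e2 : B' (b - act ℂ Y s a (cast Complex.ofRealHom Y c) - dT ℂ Y w)
        (-act ℂ Y s a' (pt ℂ (e.symm x))) = 0 := by
      obtain ⟨y, hy, z, hz', ez⟩ := Submodule.mem_sup.1 hz
      rw [← ez, map_add, AddMonoidHom.add_apply, hPP.zl z hz', add_zero]
      exact hPP.loc _ _ (Base1_compl (Base1_inv _)) (Base1_inv _) disjoint_compl_left y hy _ hu
    rw [map_sub, map_sub, hf1, sub_zero, ← hφ, ha', sub_eq_zero] at e1
    rw [map_sub, map_sub, AddMonoidHom.sub_apply, AddMonoidHom.sub_apply, hPP.stokes, hdu,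
      map_zero, sub_zero, sub_eq_zero] at e2
    rw [e1, e2, map_neg, hB, hl, hr, hone x hx c hcV hd]
    simp

end Pool.Agent.MP_bc14e1_gt

end

section

open Set Metric
open scoped Classical

namespace Pool.Agent.MP_bc14e1_gt

section

variable {G Y : Type} [Group G] [MulAction G Y] {s : G}

theorem PD1_mem {A : Set Y} {y : Y} : y ∈ sat s A ↔ ∃ (n : ℤ), ∃ x ∈ A, s ^ n • x = y := by
  simp [sat]

theorem PD1_sub (A : Set Y) : A ⊆ sat s A := fun y hy => PD1_mem.2 ⟨0, y, hy, by simp⟩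

theorem PD1_mono {A B : Set Y} (h : A ⊆ B) : sat s A ⊆ sat s B := fun y hy => by
  obtain ⟨n, x, hx, rfl⟩ := PD1_mem.1 hy
  exact PD1_mem.2 ⟨n, x, h hx, rfl⟩

theorem PD1_inv (A : Set Y) : Inv s (sat s A) := by
  intro y
  constructor
  · intro hy
    obtain ⟨n, x, hx, h⟩ := PD1_mem.1 hy
    refine PD1_mem.2 ⟨-1 + n, x, hx, ?_⟩
    rw [zpow_add, mul_smul, h, zpow_neg_one, inv_smul_smul]
  · intro hy
    obtain ⟨n, x, hx, rfl⟩ := PD1_mem.1 hy
    refine PD1_mem.2 ⟨1 + n, x, hx, ?_⟩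
    rw [zpow_add, mul_smul, zpow_one]

theorem PD1_le {A U : Set Y} (hU : Inv s U) (h : A ⊆ U) : sat s A ⊆ U := fun y hy => by
  obtain ⟨n, x, hx, rfl⟩ := PD1_mem.1 hy
  exact (hU.zpow n x).2 (h hx)

theorem PD1_union (A B : Set Y) : sat s (A ∪ B) = sat s A ∪ sat s B := by
  simp only [sat, image_union, iUnion_union_distrib]

theorem PD1_iUnion {ι : Type} (U : ι → Set Y) : sat s (⋃ i, U i) = ⋃ i, sat s (U i) := by
  simp only [sat, image_iUnion]
  exact iUnion_comm _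

theorem PD1_inter {X : Type} {p : Y → X} (hp : ∀ (g : G) (y : Y), p (g • y) = p y) {S A B : Set Y}
    (hS : InjOn p S) (hA : A ⊆ S) (hB : B ⊆ S) : sat s (A ∩ B) = sat s A ∩ sat s B := by
  refine Subset.antisymm (subset_inter (PD1_mono inter_subset_left) (PD1_mono inter_subset_right))
    ?_
  rintro y ⟨h1, h2⟩
  obtain ⟨n, x, hx, rfl⟩ := PD1_mem.1 h1
  obtain ⟨k, z, hz, h⟩ := PD1_mem.1 h2
  have : z = x := hS (hB hz) (hA hx) (by rw [← hp (s ^ k), h, hp])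
  subst this
  exact PD1_mem.2 ⟨n, z, ⟨hx, hz⟩, rfl⟩

theorem PD1_open [TopologicalSpace Y] [ContinuousConstSMul G Y] {A : Set Y} (hA : IsOpen A) :
    IsOpen (sat s A) :=
  isOpen_iUnion fun n => isOpenMap_smul (s ^ n) A hA

end

theorem pd1_stmt (B : Bas1) (hLocCtr : LocCtrStmt) (hFam : FamStmt)
    (hMVi : MViStmt) (hMVs : MVsStmt) (hBase1 : Base1Stmt) : PD1Stmt := by
  intro X G Y _ _ _ _ _ _ _ _ o F p s β htc hP g ρ hρ Bf hB hPP U hU hU'
  obtain ⟨-, f2, f3, f4, -⟩ := hFam X G Y F p s htc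
  obtain ⟨-, hloc, -⟩ := B.cov G X Y _ p htc.cov
  let P : Set Y → Prop := fun U => PDi Bf (Mul0 s g) (KY s U) U ∧ PDs Bf (Mul0 s g) (KY s U)
  let Q : Set Y → Prop := fun U => IsOpen U ∧ Inv s U
  have hQ : ∀ A A', Q A → Q A' → Q (A ∪ A') := fun A A' h h' =>
    ⟨h.1.union h'.1, fun y => or_congr (h.2 y) (h'.2 y)⟩
  have hQ' : ∀ A A', Q A → Q A' → Q (A ∩ A') := fun A A' h h' =>
    ⟨h.1.inter h'.1, fun y => and_congr (h.2 y) (h'.2 y)⟩
  have hQs : ∀ A, IsOpen A → Q (sat s A) := fun A hA => ⟨PD1_open hA, PD1_inv A⟩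
  have hMV : ∀ A A', Q A → Q A' → P A → P A' → P (A ∩ A') → P (A ∪ A') :=
    fun A A' hA hA' h1 h2 h3 =>
      ⟨hMVi G Y s Bf _ _ _ _ _ _ _ hPP (f3 A hA.1 hA.2) (f3 A' hA'.1 hA'.2)
        (f3 _ (hQ' _ _ hA hA').1 (hQ' _ _ hA hA').2) (f4 A A' hA.1 hA.2 hA'.1 hA'.2)
        h1.1 h2.1 h3.1 h3.2,
      hMVs G Y s Bf _ _ _ _ _ _ _ hPP (f3 A hA.1 hA.2) (f3 A' hA'.1 hA'.2)
        (f3 _ (hQ' _ _ hA hA').1 (hQ' _ _ hA hA').2) (f4 A A' hA.1 hA.2 hA'.1 hA'.2)
        h1.1 h2.1 h1.2 h2.2 h3.2⟩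
  have hD : ∀ (ι : Type) [Nonempty ι] (U : ι → Set Y), (∀ i, Q (U i)) → Directed (· ⊆ ·) U →
      (∀ i, P (U i)) → P (⋃ i, U i) := by
    intro ι _ U hU hd h
    have key : ∀ K ∈ KY s (⋃ i, U i), ∃ i, K ∈ KY s (U i) := by
      rintro K ⟨hK, hKU⟩
      obtain ⟨L, hL, rfl⟩ := f2 K hK
      obtain ⟨i, hi⟩ := hL.elim_directed_cover U (fun i => (hU i).1) ((PD1_sub L).trans hKU) hd
      exact ⟨i, hK, PD1_le (hU i).2 hi⟩
    constructor
    · intro K hK u hu hdu hb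
      obtain ⟨i, hi⟩ := key K hK
      obtain ⟨w, hw, h1⟩ := (h i).1 K hi u hu hdu hb
      exact ⟨w, CH_mono (subset_iUnion U i) hw, h1⟩
    · intro K hK f hf hf'
      obtain ⟨i, hi⟩ := key K hK
      obtain ⟨K', hK', h1⟩ := (h i).2 K hi f hf hf'
      exact ⟨K', ⟨hK'.1, hK'.2.trans (subset_iUnion U i)⟩, h1⟩
  have h0 : P ∅ := by
    constructor
    · intro K hK u hu _ _
      refine ⟨0, Submodule.zero_mem _, ?_⟩
      rw [eq_zero_of_mem_CH_empty (CH_mono hK.2 hu)]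
      simp
    · intro K hK f _ hf'
      refine ⟨K, hK, Subset.rfl, 0, Submodule.zero_mem _, by simp, fun b _ => ?_⟩
      rw [map_zero, hf' b (Submodule.mem_sup_left ?_)]
      rw [subset_empty_iff.1 hK.2, compl_empty]
      exact mem_CH_univ b
  have hch : ∀ e : OpenPartialHomeomorph Y (E 4), InjOn p e.source → ∀ W, IsOpen W →
      W ⊆ e.target → P (sat s (e.symm '' W)) := by
    intro e he W hW hWT
    have ho : ∀ A, IsOpen A → A ⊆ e.target → IsOpen (e.symm '' A) :=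
      fun A hA h => e.symm.isOpen_image_of_subset_source hA h
    have hs : ∀ A, A ⊆ e.target → e.symm '' A ⊆ e.source := by
      rintro A h _ ⟨x, hx, rfl⟩
      exact e.map_target (h hx)
    refine ind_convex (T := e.target) (P := fun W => P (sat s (e.symm '' W)))
      (fun C h1 h2 _ h3 => hBase1 X G Y o F p s β htc hP g ρ hρ Bf hB hPP e he C h1 h2 h3)
      (fun A A' hA hA' hT hT' h1 h2 h3 => ?_) (fun ι _ V hV hT hd h => ?_) hW hWT
    · rw [image_union, PD1_union]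
      rw [e.symm.injOn.image_inter hT hT',
        PD1_inter htc.cov.inv he (hs _ hT) (hs _ hT')] at h3
      exact hMV _ _ (hQs _ (ho _ hA hT)) (hQs _ (ho _ hA' hT')) h1 h2 h3
    · rw [image_iUnion, PD1_iUnion]
      exact hD ι _ (fun i => hQs _ (ho _ (hV i) (hT i)))
        (fun i j => (hd i j).imp fun _ hk =>
          ⟨PD1_mono (image_mono hk.1), PD1_mono (image_mono hk.2)⟩) h
  refine ind_cover (P := P) (Q := Q) hQ hQ' ⟨isOpen_empty, fun _ => Iff.rfl⟩ h0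
    (ι := {e : OpenPartialHomeomorph Y (E 4) // InjOn p e.source})
    (T := fun e => sat s e.1.source) (fun e => hQs _ e.1.open_source) ?_ hMV hD ⟨hU, hU'⟩
    fun y _ => ?_
  · rintro ⟨e, he⟩ V hV hVT
    have e1 : e.symm '' (e '' (V ∩ e.source)) = V ∩ e.source :=
      e.toPartialEquiv.symm_image_image_of_subset_source inter_subset_right
    have e2 : V = sat s (V ∩ e.source) := by
      refine Subset.antisymm (fun y hy => ?_) (PD1_le hV.2 inter_subset_left)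
      obtain ⟨n, x, hx, rfl⟩ := PD1_mem.1 (hVT hy)
      exact PD1_mem.2 ⟨n, x, ⟨(hV.2.zpow n x).1 hy, hx⟩, rfl⟩
    rw [e2, ← e1]
    exact hch e he _ (e.isOpen_image_of_subset_source (hV.1.inter e.open_source)
      inter_subset_right) ((image_mono inter_subset_right).trans e.mapsTo.image_subset)
  · obtain ⟨e, hy, -, he⟩ := (hLocCtr X Y p hloc y univ Filter.univ_mem).1
    exact mem_iUnion.2 ⟨⟨e, he⟩, PD1_sub _ hy⟩

end Pool.Agent.MP_bc14e1_gt

end

section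

open Set Metric
open scoped Classical

namespace Pool.Agent.MP_bc14e1_gt

theorem Base2_cop {ζ : Circle} (hζ : ζ ≠ 1) (n : ℕ) :
    ∃ a b : Lam ℂ, a * (LaurentPolynomial.T 1 - 1) + b * piL ζ ^ n = 1 := by
  have h0 : (ζ : ℂ) - 1 ≠ 0 := sub_ne_zero.2 fun e => hζ (Circle.ext e)
  have h : IsCoprime (LaurentPolynomial.T 1 - 1 : Lam ℂ) (piL ζ) := by
    refine ⟨LaurentPolynomial.C ((ζ : ℂ) - 1)⁻¹, -LaurentPolynomial.C ((ζ : ℂ) - 1)⁻¹, ?_⟩
    have e : (LaurentPolynomial.C ((ζ : ℂ) - 1)⁻¹ : Lam ℂ) * (LaurentPolynomial.C (ζ : ℂ) - 1) =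
        1 := by
      rw [← map_one LaurentPolynomial.C, ← map_sub, ← map_mul, inv_mul_cancel₀ h0]
    rw [piL]
    linear_combination e
  exact h.pow_right

section Aux

variable {G Y : Type} [Group G] [TopologicalSpace Y] [MulAction G Y] [ContinuousConstSMul G Y]

theorem Base2_comm (s : G) (a b : Lam ℂ) (c : Tot ℂ Y) :
    act ℂ Y s a (act ℂ Y s b c) = act ℂ Y s b (act ℂ Y s a c) := by
  rw [← Module.End.mul_apply, ← map_mul, mul_comm, map_mul, Module.End.mul_apply]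

theorem Base2_key {s : G} {a b g : Lam ℂ} (hab : a * (LaurentPolynomial.T 1 - 1) + b * g = 1)
    {H : Module.End ℂ (Tot ℂ Y)} (hH : ∀ c, H (gs ℂ Y s c) = gs ℂ Y s (H c)) {c o z : Tot ℂ Y}
    (hc : dT ℂ Y (H c) + H (dT ℂ Y c) = gs ℂ Y s c - c) (hd : dT ℂ Y c = o + act ℂ Y s g z) :
    c = dT ℂ Y (act ℂ Y s a (H c)) + act ℂ Y s a (H o) +
      act ℂ Y s g (act ℂ Y s a (H z) + act ℂ Y s b c) := by
  have e1 : act ℂ Y s (LaurentPolynomial.T 1 - 1) c = gs ℂ Y s c - c := by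
    rw [map_sub, map_one, act_T, zpow_one]
    rfl
  have e2 := congrArg (fun x => act ℂ Y s x c) hab
  simp only [map_add, map_mul, map_one, LinearMap.add_apply, Module.End.mul_apply,
    Module.End.one_apply] at e2
  rw [e1, ← hc, hd, map_add H, map_act H hH, map_add, map_add, ← dT_act, Base2_comm s a g,
    Base2_comm s b g] at e2
  rw [map_add]
  refine e2.symm.trans ?_
  abel

theorem Base2_sd (s : G) (m : ℕ) (c : Tot ℂ Y) :
    (sdT ℂ Y ^ m) (gs ℂ Y s c) = gs ℂ Y s ((sdT ℂ Y ^ m) c) := by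
  induction m with
  | zero => rfl
  | succ m ih =>
    rw [pow_succ', Module.End.mul_apply, Module.End.mul_apply, ih]
    exact sdT_psh (continuous_const_smul s).continuousOn (mem_CH_univ _)

theorem Base2_sdHP (s : G) (m : ℕ) (c : Tot ℂ Y) :
    sdHP ℂ Y m (gs ℂ Y s c) = gs ℂ Y s (sdHP ℂ Y m c) := by
  rw [sdHP, LinearMap.sum_apply, LinearMap.sum_apply, map_sum]
  refine Finset.sum_congr rfl fun j _ => ?_
  rw [Module.End.mul_apply, Module.End.mul_apply, Base2_sd]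
  exact sdH_psh (continuous_const_smul s).continuousOn (mem_CH_univ _)

/-- Relative cycles can be moved into `O`. -/
theorem Base2_small {s : G} {g : Lam ℂ} {O W : Set Y} (hO : IsOpen O) (hW : IsOpen W)
    (hOW : O ∪ W = univ) (hi : Inv s O) {b : Tot ℂ Y} (hb : dT ℂ Y b ∈ CH ℂ W ⊔ Mul0 s g) :
    ∃ c ∈ CH ℂ O, ∃ o ∈ CH ℂ (O ∩ W), ∃ z, dT ℂ Y c = o + act ℂ Y s g z ∧
      ∃ w, ∃ r ∈ CH ℂ W ⊔ Mul0 s g, b = c + dT ℂ Y w + r := by
  obtain ⟨o, ho, _, ⟨z, rfl⟩, e⟩ := Submodule.mem_sup.1 hb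
  obtain ⟨m, hm⟩ := sdT_small_two hO hW (c := b) (hOW ▸ mem_CH_univ b)
  obtain ⟨c, hc, c', hc', e'⟩ := Submodule.mem_sup.1 (hm m le_rfl)
  have h1 : dT ℂ Y c = ((sdT ℂ Y ^ m) o - dT ℂ Y c') + act ℂ Y s g ((sdT ℂ Y ^ m) z) := by
    rw [← map_act _ (Base2_sd s m), sub_add_eq_add_sub, ← map_add, e, ← dT_sdT_pow, ← e',
      map_add, add_sub_cancel_right]
  refine ⟨c, hc, prj ℂ O ((sdT ℂ Y ^ m) o - dT ℂ Y c'), ?_, prj ℂ O ((sdT ℂ Y ^ m) z), ?_,
    sdHP ℂ Y m b, c' + sdHP ℂ Y m o + act ℂ Y s g (sdHP ℂ Y m z), ?_, ?_⟩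
  · rw [CH_inter]
    exact ⟨prj_mem _ _, prj_mem_CH _ (sub_mem (sdT_pow_mem_CH m ho) (dT_mem_CH hc'))⟩
  · rw [← map_act _ (prj_gs s hi), ← map_add, ← h1, prj_of_mem (dT_mem_CH hc)]
  · exact Submodule.add_mem_sup (add_mem hc' (sdHP_mem_CH m ho)) ⟨_, rfl⟩
  · have h2 := dT_sdHP m b
    rw [← e, ← e', map_add (sdHP ℂ Y m), map_act _ (Base2_sdHP s m)] at h2
    refine (sub_eq_iff_eq_add.1 h2.symm).trans ?_
    abel

end Aux

/-- The rotation saturation of a set. -/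
def Base2_sat (A : Set (ℂ × ℂ)) : Set (ℂ × ℂ) :=
  (fun x : ℂ × ℂ => (x.1, ‖x.2‖)) ⁻¹' ((fun x : ℂ × ℂ => (x.1, ‖x.2‖)) '' A)

theorem Base2_sat_cpt {A : Set (ℂ × ℂ)} (hA : IsCompact A) : IsCompact (Base2_sat A) := by
  have hc : Continuous fun x : ℂ × ℂ => (x.1, ‖x.2‖) := by fun_prop
  obtain ⟨r, hr⟩ := hA.isBounded.subset_closedBall 0
  refine (isCompact_closedBall 0 r).of_isClosed_subset ((hA.image hc).isClosed.preimage hc) ?_
  rintro x ⟨y, hy, e⟩
  obtain ⟨e1, e2⟩ := Prod.mk.inj e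
  have := hr hy
  rw [mem_closedBall_zero_iff, Prod.norm_def] at this ⊢
  rwa [← e1, ← e2]

theorem base2_stmt (B : Bas1) (hRot : RotStmt) : Base2Stmt := by
  intro X G Y _ _ _ _ _ _ F p s tc ζ hζ n β e V hF hV hVt hD
  obtain ⟨a, b, hab⟩ := Base2_cop hζ n
  obtain ⟨H, hH, -, hH1, hH2⟩ := hRot ℂ G X Y F p s tc e V hF hV hVt hD
  have hinv : ∀ A : Set X, Inv s (p ⁻¹' A) := fun A y => by
    rw [mem_preimage, mem_preimage, tc.cov.inv]
  have hR : RotInv V := fun x hx w hw => hD x hx w hw.le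
  constructor
  · rintro _ ⟨L, -, hLV, rfl⟩ u hu ⟨z, hz⟩ -
    have hu' : u ∈ CH ℂ (p ⁻¹' (e.symm '' V)) := CH_mono (preimage_mono hLV) hu
    have k := Base2_key hab hH (o := 0) (hH2 u hu') (by rw [zero_add, hz])
    rw [map_zero, map_zero, add_zero] at k
    exact ⟨act ℂ Y s a (H u), act_mem_CH (hinv _) a (hH1 V subset_rfl hR u hu'), _,
      (sub_eq_of_eq_add' k).symm⟩
  · rintro _ ⟨L, hL, hLV, rfl⟩ f hf hf'
    have hLs : L ⊆ e.source := hLV.trans (by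
      rintro _ ⟨v, hv, rfl⟩
      exact e.map_target (hVt hv))
    have heL : e '' L ⊆ V := by
      rintro _ ⟨x, hx, rfl⟩
      obtain ⟨v, hv, rfl⟩ := hLV hx
      rwa [e.right_inv (hVt hv)]
    have hS : Base2_sat (e '' L) ⊆ V := by
      rintro x ⟨y, hy, e'⟩
      obtain ⟨e1, e2⟩ := Prod.mk.inj e'
      have := hR y (heL hy) x.2 e2.symm
      rwa [e1] at this
    have hc : IsCompact (e.symm '' Base2_sat (e '' L)) :=
      (Base2_sat_cpt (hL.image_of_continuousOn (e.continuousOn.mono hLs))).image_of_continuousOn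
        (e.continuousOn_symm.mono (hS.trans hVt))
    have hLL : L ⊆ e.symm '' Base2_sat (e '' L) := fun x hx =>
      ⟨e x, ⟨e x, ⟨x, hx, rfl⟩, rfl⟩, e.left_inv (hLs hx)⟩
    have hKK : (p ⁻¹' (e.symm '' Base2_sat (e '' L)))ᶜ ⊆ (p ⁻¹' L)ᶜ :=
      compl_subset_compl.2 (preimage_mono hLL)
    refine ⟨_, ⟨_, hc, image_mono hS, rfl⟩, preimage_mono hLL, 0, zero_mem _,
      by rw [map_zero]; exact zero_mem _, fun b' hb' => ?_⟩
    obtain ⟨c, hc', o, ho, z, hd, w, r, hr, rfl⟩ := Base2_small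
      ((e.isOpen_image_symm_of_subset_target hV hVt).preimage tc.cov.cont)
      (hc.isClosed.preimage tc.cov.cont).isOpen_compl
      (univ_subset_iff.1 ((union_compl_self _).superset.trans
        (union_subset_union_left _ (preimage_mono (image_mono hS)))))
      (hinv _) hb'
    have ho' : o ∈ CH ℂ (p ⁻¹' (e.symm '' (V \ Base2_sat (e '' L)))) := by
      refine CH_mono ?_ ho
      rintro y ⟨⟨v, hv, e'⟩, hy⟩
      exact ⟨v, ⟨hv, fun h => hy ⟨v, h, e'⟩⟩, e'⟩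
    have hR' : RotInv (V \ Base2_sat (e '' L)) := by
      rintro x ⟨hx, hx'⟩ w' hw
      refine ⟨hR x hx w' hw, fun ⟨y, hy, e'⟩ => hx' ⟨y, hy, e'.trans ?_⟩⟩
      exact congrArg (Prod.mk x.1) hw
    have hsub : p ⁻¹' (e.symm '' (V \ Base2_sat (e '' L))) ⊆ (p ⁻¹' L)ᶜ := by
      rintro y ⟨v, ⟨hv, hv'⟩, e'⟩ hy
      exact hv' ⟨v, ⟨p y, hy, by rw [← e', e.right_inv (hVt hv)]⟩, rfl⟩
    have k := Base2_key hab hH (hH2 c hc') hd
    have f1 := hf' _ (Submodule.mem_sup_left (CH_mono hsub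
      (act_mem_CH (hinv _) a (hH1 _ sdiff_subset hR' o ho'))))
    have f2 : f c = 0 := by
      rw [k, map_add, map_add, hf, f1, hf' _ (Submodule.mem_sup_right ⟨_, rfl⟩), add_zero,
        add_zero]
    have f3 : CH ℂ (p ⁻¹' (e.symm '' Base2_sat (e '' L)))ᶜ ⊔ Mul0 s (piL ζ ^ n) ≤
        CH ℂ (p ⁻¹' L)ᶜ ⊔ Mul0 s (piL ζ ^ n) := sup_le_sup_right (CH_mono hKK) _
    rw [map_zero, map_add, map_add, f2, hf, hf' r (f3 hr), add_zero, add_zero]

end Pool.Agent.MP_bc14e1_gt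

end

section

open Set Metric
open scoped Classical

namespace Pool.Agent.MP_bc14e1_gt

theorem PD2_disc {T : Set (ℂ × ℂ)} (hT : IsOpen T) : ∃ V, IsOpen V ∧ V ⊆ T ∧ DiscCl V ∧
    ∀ x ∈ T, x.2 = 0 → x ∈ V := by
  refine ⟨{x | ∀ u ∈ closedBall (0 : ℂ) 1, (x.1, u * x.2) ∈ T}, ?_, fun x hx => ?_, ?_, ?_⟩
  · refine isOpen_iff_mem_nhds.2 fun x hx => ?_
    refine (isCompact_closedBall (0 : ℂ) 1).eventually_forall_of_forall_eventually
      (P := fun (x : ℂ × ℂ) (u : ℂ) => (x.1, u * x.2) ∈ T) fun u hu => ?_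
    have hc : Continuous fun z : (ℂ × ℂ) × ℂ => (z.1.1, z.2 * z.1.2) := by fun_prop
    exact hc.continuousAt (hT.mem_nhds (hx u hu))
  · simpa using hx 1 (by simp)
  · intro x hx w hw u hu
    by_cases h0 : x.2 = 0
    · have : w = 0 := by simpa [h0] using hw
      simpa [this, h0] using hx u hu
    · have h1 := hx (u * (w / x.2)) (by
        rw [mem_closedBall_zero_iff] at hu ⊢
        rw [norm_mul, norm_div]
        exact mul_le_one₀ hu (by positivity) (div_le_one_of_le₀ hw (norm_nonneg _)))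
      rwa [mul_assoc, div_mul_cancel₀ _ h0] at h1
  · rintro ⟨z, w⟩ hx rfl u -
    simpa using hx

theorem pd2_stmt (B : Bas1) (hFam : FamStmt) (hMVi : MViStmt)
    (hMVs : MVsStmt) (hPD1 : PD1Stmt) (hBase2 : Base2Stmt) : PD2Stmt := by
  intro X G Y _ _ _ _ _ _ _ _ o F p s β htc hP ζ hζ n ρ hρ Bf hB hPP O hO
  obtain ⟨-, -, -, -, f5, f6, f7, f8⟩ := hFam X G Y F p s htc
  let P : Set X → Prop := fun O => PDi Bf (Mul0 s (piL ζ ^ n)) (KX p O) (p ⁻¹' O) ∧
    PDs Bf (Mul0 s (piL ζ ^ n)) (KX p O)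
  have hoff : ∀ O, IsOpen O → O ⊆ Fᶜ → P O := by
    intro O hO hF
    obtain ⟨h1, h2⟩ := hPD1 X G Y o F p s β htc hP _ ρ hρ Bf hB hPP (p ⁻¹' O)
      (hO.preimage htc.cov.cont) fun y => by simp only [mem_preimage, htc.cov.inv]
    have hK : ∀ K ∈ KX p O, K ∈ KY s (p ⁻¹' O) := by
      rintro _ ⟨L, hL, hLO, rfl⟩
      exact ⟨f6 L hL (hLO.trans hF), preimage_mono hLO⟩
    refine ⟨fun K h => h1 K (hK K h), fun K h f hf hf' => ?_⟩
    obtain ⟨K', hK', hKK, u, hu, hd, hb⟩ := h2 K (hK K h) f hf hf'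
    refine ⟨p ⁻¹' (p '' K'), ⟨_, f5 K' hK'.1, image_subset_iff.2 hK'.2, rfl⟩,
      hKK.trans (subset_preimage_image p K'), u, CH_mono (subset_preimage_image p K') hu, hd,
      fun b h => hb b ?_⟩
    have h3 : CH ℂ (p ⁻¹' (p '' K'))ᶜ ⊔ Mul0 s (piL ζ ^ n) ≤ CH ℂ K'ᶜ ⊔ Mul0 s (piL ζ ^ n) :=
      sup_le_sup_right (CH_mono (compl_subset_compl.2 (subset_preimage_image p K'))) _
    exact h3 h
  have hMV : ∀ A A', IsOpen A → IsOpen A' → P A → P A' → P (A ∩ A') → P (A ∪ A') :=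
    fun A A' hA hA' h1 h2 h3 =>
      ⟨hMVi G Y s Bf _ _ _ _ _ _ _ hPP (f7 A hA) (f7 A' hA') (f7 _ (hA.inter hA'))
        (f8 A A' hA hA') h1.1 h2.1 h3.1 h3.2,
      hMVs G Y s Bf _ _ _ _ _ _ _ hPP (f7 A hA) (f7 A' hA') (f7 _ (hA.inter hA'))
        (f8 A A' hA hA') h1.1 h2.1 h1.2 h2.2 h3.2⟩
  have hch : ∀ e, FlatCh F e → ∀ O, IsOpen O → O ⊆ e.source → P O := by
    intro e he O hO hs
    obtain ⟨V, hV, hVT, hD, h0⟩ := PD2_disc (e.isOpen_image_of_subset_source hO hs)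
    have hVt : V ⊆ e.target := hVT.trans ((image_mono hs).trans e.mapsTo.image_subset)
    have hV' : IsOpen (e.symm '' V) := e.symm.isOpen_image_of_subset_source hV hVt
    have e1 : O = (O \ F) ∪ e.symm '' V := by
      refine Subset.antisymm (fun x hx => ?_) (union_subset sdiff_subset ?_)
      · by_cases hx' : x ∈ F
        · exact Or.inr ⟨e x, h0 _ ⟨x, hx, rfl⟩ ((he x (hs hx)).1 hx'), e.left_inv (hs hx)⟩
        · exact Or.inl ⟨hx, hx'⟩
      · rintro _ ⟨z, hz, rfl⟩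
        obtain ⟨x, hx, rfl⟩ := hVT hz
        rwa [e.left_inv (hs hx)]
    have hO' : IsOpen (O \ F) := hO.sdiff htc.flat.cl
    rw [e1]
    exact hMV _ _ hO' hV' (hoff _ hO' fun _ h => h.2)
      (hBase2 X G Y F p s htc ζ hζ n Bf e V he hV hVt hD)
      (hoff _ (hO'.inter hV') fun _ h => h.1.2)
  refine ind_cover (P := P) (Q := IsOpen) (fun _ _ => IsOpen.union) (fun _ _ => IsOpen.inter)
    isOpen_empty (hoff _ isOpen_empty (empty_subset _))
    (ι := Option {e : OpenPartialHomeomorph X (ℂ × ℂ) // FlatCh F e})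
    (T := fun i => i.elim Fᶜ fun e => e.1.source) ?_ ?_ hMV ?_ hO fun x _ => ?_
  · rintro (_ | e)
    exacts [htc.flat.cl.isOpen_compl, e.1.open_source]
  · rintro (_ | e) U hU h
    exacts [hoff U hU h, hch e.1 e.2 U hU h]
  · intro ι _ U hU hd h
    constructor
    · rintro _ ⟨L, hL, hLU, rfl⟩ u hu hdu hb
      obtain ⟨i, hi⟩ := hL.elim_directed_cover U hU hLU hd
      obtain ⟨w, hw, h1⟩ := (h i).1 _ ⟨L, hL, hi, rfl⟩ u hu hdu hb
      exact ⟨w, CH_mono (preimage_mono (subset_iUnion U i)) hw, h1⟩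
    · rintro _ ⟨L, hL, hLU, rfl⟩ f hf hf'
      obtain ⟨i, hi⟩ := hL.elim_directed_cover U hU hLU hd
      obtain ⟨_, ⟨L', hL', hLU', rfl⟩, h1⟩ := (h i).2 _ ⟨L, hL, hi, rfl⟩ f hf hf'
      exact ⟨_, ⟨L', hL', hLU'.trans (subset_iUnion U i), rfl⟩, h1⟩
  · by_cases hx : x ∈ F
    · obtain ⟨e, he, hx⟩ := htc.flat.ch x hx
      exact mem_iUnion.2 ⟨some ⟨e, he⟩, hx⟩
    · exact mem_iUnion.2 ⟨none, hx⟩

end Pool.Agent.MP_bc14e1_gt

end

section

open Set Metric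
open scoped Classical

namespace Pool.Agent.MP_bc14e1_gt

theorem Drop_zero {Λ H : Type} [CommRing Λ] [IsDomain Λ] [AddCommGroup H] [Module Λ H]
    [Module.Finite Λ H] {ϖ : Λ} (hp : Prime ϖ)
    (h : ∀ z : H, ∃ a, ¬ ϖ ∣ a ∧ ∃ w, a • z = ϖ • w) : Module.rank Λ H = 0 := by
  obtain ⟨m, s, hs⟩ := Module.Finite.exists_fin (R := Λ) (M := H)
  choose a ha w hw using h
  have hc : ¬ ϖ ∣ ∏ j, a (s j) := fun e =>
    let ⟨j, _, hj⟩ := (hp.dvd_finsetProd_iff _).1 e; ha _ hj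
  have hr : LinearMap.range (algebraMap Λ (Module.End Λ H) (∏ j, a (s j))) ≤
      Ideal.span {ϖ} • ⊤ := by
    rw [LinearMap.range_eq_map, ← hs, Submodule.map_span_le, hs]
    rintro _ ⟨j, rfl⟩
    rw [Module.algebraMap_end_apply, ← Finset.prod_erase_mul _ _ (Finset.mem_univ j), mul_smul, hw]
    exact Submodule.smul_mem _ _
      (Submodule.smul_mem_smul (Ideal.mem_span_singleton_self ϖ) Submodule.mem_top)
  generalize ∏ j, a (s j) = c at hc hr
  obtain ⟨p, p1, -, p2, p3⟩ :=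
    LinearMap.exists_monic_and_natDegree_eq_and_coeff_mem_pow_and_aeval_eq_zero Λ _ _ hr
  rw [Polynomial.aeval_algebraMap_apply_eq_algebraMap_eval] at p3
  refine rank_eq_zero_iff.2 fun z => ⟨p.eval c, fun e => hc (hp.dvd_of_dvd_pow
    (n := p.natDegree) ?_), LinearMap.congr_fun p3 z⟩
  rw [Polynomial.eval_eq_sum_range, Finset.sum_range_succ, p1.coeff_natDegree, one_mul,
    add_eq_zero_iff_neg_eq] at e
  rw [← e, dvd_neg]
  refine Finset.dvd_sum fun k hk => Dvd.dvd.mul_right (Ideal.mem_span_singleton.1 ?_) _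
  exact Ideal.pow_le_self (Nat.sub_ne_zero_of_lt (Finset.mem_range.1 hk)) (p2 k)

theorem Drop_rank {Λ : Type} [CommRing Λ] [IsDomain Λ] {ϖ : Λ} (hp : Prime ϖ) (n : ℕ) :
    ∀ (H : Type) [AddCommGroup H] [Module Λ H] [Module.Finite Λ H],
    (∀ z : Fin (n + 1) → H, ∃ a : Fin (n + 1) → Λ, (∃ i, ¬ ϖ ∣ a i) ∧
      ∃ w, ∑ i, a i • z i = ϖ • w) → Module.rank Λ H ≤ n := by
  induction n with
  | zero =>
    intro H _ _ _ h
    refine (Drop_zero hp fun z => ?_).le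
    obtain ⟨a, ⟨i, hi⟩, w, hw⟩ := h fun _ => z
    exact ⟨a 0, Subsingleton.elim (α := Fin 1) i 0 ▸ hi, w, by simpa using hw⟩
  | succ n ih =>
    intro H _ _ _ h
    by_cases h0 : ∀ z : H, ∃ a, ¬ ϖ ∣ a ∧ ∃ w, a • z = ϖ • w
    · exact (Drop_zero hp h0).trans_le zero_le
    obtain ⟨x, hx⟩ := not_forall.1 h0
    have h1 := ih (H ⧸ Submodule.span Λ {x}) fun z => by
      choose y hy using fun i => (Submodule.span Λ {x}).mkQ_surjective (z i)
      obtain ⟨a, ⟨i, hi⟩, w, hw⟩ := h (Fin.cons x y)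
      rw [Fin.sum_univ_succ] at hw
      simp only [Fin.cons_zero, Fin.cons_succ] at hw
      refine ⟨fun i => a i.succ, ?_, (Submodule.span Λ {x}).mkQ w, ?_⟩
      · by_contra hn
        push Not at hn
        choose b hb using id hn
        refine hx ⟨a 0, Fin.cases (motive := fun i => ¬ ϖ ∣ a i → ¬ ϖ ∣ a 0) id
          (fun j hj => (hj (hn j)).elim) i hi, w - ∑ i, b i • y i, ?_⟩
        rw [smul_sub, ← hw, Finset.smul_sum]
        simp only [hb, mul_smul, add_sub_cancel_right]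
      · have h2 : (Submodule.span Λ {x}).mkQ x = 0 :=
          (Submodule.Quotient.mk_eq_zero _).2 (Submodule.mem_span_singleton_self x)
        rw [← map_smul, ← hw, map_add, map_smul, h2, smul_zero, zero_add, map_sum]
        simp only [map_smul, hy]
    rw [← (Submodule.span Λ {x}).rank_quotient_add_rank, Nat.cast_succ]
    exact add_le_add h1 ((rank_span_le _).trans_eq (Cardinal.mk_singleton x))

theorem drop_stmt : DropStmt := by
  intro Λ H _ _ _ _ _ ϖ n hp h z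
  have h1 := Drop_rank hp n H h
  have h2 : ¬ LinearIndependent Λ z := fun e => by
    have := (Module.le_rank_iff.2 ⟨z, e⟩).trans h1
    exact absurd (Nat.cast_le.1 this) (by omega)
  obtain ⟨a, h3, i, hi⟩ := Fintype.not_linearIndependent_iff.1 h2
  exact ⟨a, fun e => hi (congrFun e i), h3⟩

end Pool.Agent.MP_bc14e1_gt

end

section

open Set Metric
open scoped Classical

namespace Pool.Agent.MP_bc14e1_gt

section

open LaurentPolynomial

variable {R : Type} [CommRing R]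

/-- Evaluation at one. -/
noncomputable def Rank1_ev (R : Type) [CommRing R] : Lam R →ₐ[R] R :=
  AddMonoidAlgebra.lift R R ℤ 1

theorem Rank1_ev_T (n : ℤ) : Rank1_ev R (T n) = 1 := by
  rw [Rank1_ev, LaurentPolynomial.T, AddMonoidAlgebra.lift_single, one_smul]; rfl

theorem Rank1_ev_C (a : R) : Rank1_ev R (C a) = a := by
  rw [LaurentPolynomial.C_eq_algebraMap, AlgHom.commutes]; rfl

theorem Rank1_dvd_T (n : ℤ) : (T 1 - 1 : Lam R) ∣ T n - 1 := by
  induction n using Int.induction_on with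
  | zero => simp
  | succ n ih =>
    have : (T (n + 1) - 1 : Lam R) = T 1 * (T n - 1) + (T 1 - 1) := by
      rw [T_add]; ring
    rw [this]
    exact dvd_add (ih.mul_left _) dvd_rfl
  | pred n ih =>
    have e : (T (-(n : ℤ)) : Lam R) = T (-(n : ℤ) - 1) * T 1 := by
      rw [← T_add]; congr 1; ring
    have : (T (-(n : ℤ) - 1) - 1 : Lam R) = (T (-(n : ℤ)) - 1) - T (-(n : ℤ) - 1) * (T 1 - 1) := by
      rw [e]; ring
    rw [this]
    exact dvd_sub ih (dvd_mul_left _ _)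

theorem Rank1_dvd_sub (a : Lam R) : (T 1 - 1 : Lam R) ∣ a - C (Rank1_ev R a) := by
  induction a using LaurentPolynomial.induction_on' with
  | add p q hp hq =>
    have : p + q - C (Rank1_ev R (p + q)) = (p - C (Rank1_ev R p)) + (q - C (Rank1_ev R q)) := by
      rw [map_add, map_add]; ring
    rw [this]
    exact dvd_add hp hq
  | C_mul_T n a =>
    rw [map_mul, Rank1_ev_T, Rank1_ev_C, mul_one, ← mul_sub_one]
    exact (Rank1_dvd_T n).mul_left _

theorem Rank1_dvd_iff (a : Lam R) : (T 1 - 1 : Lam R) ∣ a ↔ Rank1_ev R a = 0 := by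
  constructor
  · rintro ⟨b, rfl⟩
    rw [map_mul, map_sub, Rank1_ev_T, map_one, sub_self, zero_mul]
  · intro h
    have := Rank1_dvd_sub a
    rwa [h, map_zero, sub_zero] at this

theorem Rank1_prime [IsDomain R] : Prime (T 1 - 1 : Lam R) := by
  refine ⟨fun h => ?_, fun h => ?_, fun a b h => ?_⟩
  · have h1 : (T 1 : Lam R) = T 0 := by rw [T_zero]; exact sub_eq_zero.1 h
    have h2 := congrArg LaurentPolynomial.degree h1
    rw [degree_T, degree_T] at h2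
    exact absurd (WithBot.coe_injective h2) one_ne_zero
  · have := (Rank1_dvd_iff (1 : Lam R)).1 h.dvd
    rw [map_one] at this
    exact one_ne_zero this
  · rw [Rank1_dvd_iff, map_mul] at h
    rw [Rank1_dvd_iff, Rank1_dvd_iff]
    exact mul_eq_zero.1 h

variable {G Y : Type} [Group G] [TopologicalSpace Y] [MulAction G Y] [ContinuousConstSMul G Y]

variable (R Y) in
/-- The boundaries inside the cycles. -/
noncomputable def Rank1_B (s : G) : Submodule (Lam R) (ZT R Y s 2) :=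
  (twSub (s := s) (BC R univ 2) fun n _ h => by
    obtain ⟨b, hb, rfl⟩ := h
    exact ⟨gs R Y (s ^ n) b, ⟨mem_CH_univ _, gs_mem_DG _ hb.2⟩, dT_gs _ _⟩).comap
      (ZT R Y s 2).subtype

theorem Rank1_mem (s : G) (z : ZT R Y s 2) :
    z ∈ Rank1_B R Y s ↔ (toTw R Y s).symm z.1 ∈ BC R univ 2 := Iff.rfl

theorem Rank1_val (s : G) {m : ℕ} (a : Fin m → Lam R) (z : Fin m → ZT R Y s 2) :
    (toTw R Y s).symm (∑ i, a i • z i : ZT R Y s 2).1 =
      ∑ i, act R Y s (a i) ((toTw R Y s).symm (z i).1) := by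
  rw [Submodule.coe_sum, map_sum]
  rfl

theorem Rank1_fin (s : G) (h : FGI R s (univ : Set Y) univ 2) :
    Module.Finite (Lam R) (ZT R Y s 2 ⧸ Rank1_B R Y s) := by
  obtain ⟨m, z, hz, h⟩ := h
  let z' : Fin m → ZT R Y s 2 := fun i => ⟨toTw R Y s (z i), hz i⟩
  refine Module.Finite.of_surjective
    ((Rank1_B R Y s).mkQ ∘ₗ Fintype.linearCombination (Lam R) z') fun x => ?_
  obtain ⟨y, rfl⟩ := (Rank1_B R Y s).mkQ_surjective x
  obtain ⟨a, ha⟩ := h ((toTw R Y s).symm y.1) y.2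
  refine ⟨a, ?_⟩
  rw [LinearMap.comp_apply, Fintype.linearCombination_apply, eq_comm, Submodule.mkQ_apply,
    Submodule.mkQ_apply, Submodule.Quotient.eq, Rank1_mem, Submodule.coe_sub, map_sub, Rank1_val]
  exact ha

end

theorem rank1_stmt (B : Bas2) (hDrop : DropStmt) : Rank1Stmt := by
  intro X G Y _ _ _ _ _ _ _ _ F φ p t l n hP hD z hz
  have hcov := hP.tc.cov
  have hfg := B.fg (ZMod 2) X G Y F p t hP.tc univ univ isCompact_univ isOpen_univ subset_rfl 2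
  rw [preimage_univ] at hfg
  have := Rank1_fin t hfg
  have hfree : ∀ (k : ℤ) (y : Y), t ^ k • y = y → k = 0 := fun k y h =>
    hP.tc.inf k (hcov.free _ y h)
  obtain ⟨hl1, hl2⟩ := B.lift (ZMod 2) G X Y Fᶜ p hcov
  have hact : ∀ w, act (ZMod 2) Y t (LaurentPolynomial.T 1 - 1) w = gs (ZMod 2) Y t w - w := by
    intro w
    rw [map_sub, LinearMap.sub_apply, act_T, zpow_one, map_one, Module.End.one_apply]
  have key := hDrop (Lam (ZMod 2)) (ZT (ZMod 2) Y t 2 ⧸ Rank1_B (ZMod 2) Y t)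
    (LaurentPolynomial.T 1 - 1) n Rank1_prime (fun x => by
      choose y hy using fun i => (Rank1_B (ZMod 2) Y t).mkQ_surjective (x i)
      let u : Fin (n + 1) → Tot (ZMod 2) Y := fun i => (toTw (ZMod 2) Y t).symm (y i).1
      have hu : ∀ i, u i ∈ ZC (ZMod 2) univ 2 := fun i => (y i).2
      have hu0 : ∀ i, dT (ZMod 2) Y (u i) = 0 := fun i => (hu i).2
      obtain ⟨a, ha, b, hb, hab⟩ := hD (fun i => psh (ZMod 2) p (u i)) fun i =>
        ⟨⟨psh_mem_CH p (A := univ) (fun y _ => hcov.mem y) (mem_CH_univ _),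
          psh_mem_DG p (hu i).1.2⟩, by
          change dT (ZMod 2) X _ = 0
          rw [dT_psh_cont hcov.cont, hu0, map_zero]⟩
      obtain ⟨b', hb', rfl⟩ := hl1 3 b hb
      obtain ⟨w, hw, hc⟩ := hl2 t hP.gen 2 (∑ i, a i • u i - dT (ZMod 2) Y b')
        (sub_mem (Submodule.sum_mem _ fun i _ => Submodule.smul_mem _ _ (hu i).1.2)
          (dT_mem_DG hb')) (by
          rw [map_sub, ← dT_psh_cont hcov.cont, hab, map_sum]
          simp only [map_smul, sub_self])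
      have hw0 : dT (ZMod 2) Y w = 0 := by
        refine (B.tf (ZMod 2) G Y t hfree _ (Rank1_prime (R := ZMod 2)).ne_zero _).1 ?_
        rw [← dT_act, hact, ← hc, map_sub, dT_dT, map_sum]
        simp only [map_smul, hu0, smul_zero, Finset.sum_const_zero, sub_self]
      refine ⟨fun i => LaurentPolynomial.C (a i), ?_,
        (Rank1_B (ZMod 2) Y t).mkQ ⟨toTw (ZMod 2) Y t w, ⟨mem_CH_univ _, hw⟩, hw0⟩, ?_⟩
      · obtain ⟨i, hi⟩ := Function.ne_iff.1 ha
        exact ⟨i, fun h => hi (by rwa [Rank1_dvd_iff, Rank1_ev_C] at h)⟩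
      · simp only [← hy, ← map_smul, ← map_sum]
        rw [Submodule.mkQ_apply, Submodule.mkQ_apply, Submodule.Quotient.eq, Rank1_mem,
          Submodule.coe_sub, map_sub, Rank1_val]
        simp only [act_C]
        refine ⟨b', ⟨mem_CH_univ _, hb'⟩, ?_⟩
        change _ = ∑ i, a i • u i - act (ZMod 2) Y t (LaurentPolynomial.T 1 - 1) w
        rw [hact, ← hc, sub_sub_cancel])
    fun i => (Rank1_B (ZMod 2) Y t).mkQ ⟨toTw (ZMod 2) Y t (z i), (hz i).1⟩
  obtain ⟨a, ha, h⟩ := key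
  simp only [← map_smul, ← map_sum] at h
  rw [Submodule.mkQ_apply, Submodule.Quotient.mk_eq_zero, Rank1_mem, Rank1_val] at h
  obtain ⟨b, hb, h⟩ := h
  exact ⟨a, ha, b, hb.2, fun g hg => absurd hg (notMem_empty g), h.symm⟩

end Pool.Agent.MP_bc14e1_gt

end

section

open Set Metric
open scoped Classical

namespace Pool.Agent.MP_bc14e1_gt

section

variable {R H : Type} [CommRing R] [IsDomain R] [AddCommGroup H] [Module R H]

theorem RkAlg_iff (n : ℕ) :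
    (∀ z : Fin (n + 1) → H, ∃ a : Fin (n + 1) → R, a ≠ 0 ∧ ∑ i, a i • z i = 0) ↔
      Module.rank R H ≤ n := by
  rw [← not_lt, ← Cardinal.natCast_add_one_le_iff, ← Nat.cast_add_one, Module.le_rank_iff,
    not_exists]
  refine forall_congr' fun z => ?_
  rw [Fintype.not_linearIndependent_iff]
  refine exists_congr fun a => ?_
  rw [and_comm, Function.ne_iff]
  rfl

theorem RkAlg_tors (N : Submodule R H) (h : ∀ x, ∃ a : R, a ≠ 0 ∧ a • x ∈ N) :
    Module.rank R H = Module.rank R N := by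
  rw [← rank_quotient_add_rank_of_isDomain N, rank_eq_zero_iff.2, zero_add]
  intro x
  obtain ⟨x, rfl⟩ := N.mkQ_surjective x
  obtain ⟨a, ha, hx⟩ := h x
  exact ⟨a, ha, by rw [← map_smul]; exact (Submodule.Quotient.mk_eq_zero N).2 hx⟩

theorem RkAlg_max (S : Set H) (hS : Submodule.span R S = ⊤) :
    ∃ I ⊆ S, LinearIndepOn R id I ∧ ∀ x, ∃ a : R, a ≠ 0 ∧ a • x ∈ Submodule.span R I := by
  obtain ⟨I, h1, h2⟩ := exists_maximal_linearIndepOn R (Subtype.val : S → H)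
  refine ⟨Subtype.val '' I, by simp, h1.id_image, fun x => ?_⟩
  have hx : x ∈ Submodule.span R S := hS ▸ Submodule.mem_top
  induction hx using Submodule.span_induction with
  | mem x hx =>
    by_cases h : (⟨x, hx⟩ : S) ∈ I
    · exact ⟨1, one_ne_zero, Submodule.smul_mem _ _ (Submodule.subset_span ⟨_, h, rfl⟩)⟩
    · exact h2 _ h
  | zero => exact ⟨1, one_ne_zero, by simp⟩
  | add x y _ _ hx hy =>
    obtain ⟨a, ha, hx⟩ := hx
    obtain ⟨b, hb, hy⟩ := hy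
    refine ⟨a * b, mul_ne_zero ha hb, ?_⟩
    rw [smul_add]
    exact add_mem (by rw [mul_comm, mul_smul]; exact Submodule.smul_mem _ _ hx)
      (by rw [mul_smul]; exact Submodule.smul_mem _ _ hy)
  | smul c x _ hx =>
    obtain ⟨a, ha, hx⟩ := hx
    exact ⟨a, ha, by rw [smul_comm]; exact Submodule.smul_mem _ _ hx⟩

end

theorem rkAlg_stmt : RkAlgStmt := by
  refine ⟨?_, ?_, ?_⟩
  · intro Λ Λ' H _ _ _ _ _ _ f m n e _ he hz
    let _ := f.toAlgebra
    let _ : Module Λ H := Module.compHom H f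
    have hs : ∀ (a : Λ) (x : H), a • x = f a • x := fun _ _ => rfl
    refine (RkAlg_iff (R := Λ) (m * n)).2 ?_
    obtain ⟨I, -, h1, h2⟩ := RkAlg_max (R := Λ') (univ : Set H) Submodule.span_univ
    have hI : Cardinal.mk I ≤ n := h1.cardinal_le_rank.trans ((RkAlg_iff n).1 hz)
    have _ : Module.Finite Λ Λ' := ⟨⟨Finset.univ.image e, eq_top_iff.2 fun x _ => by
      obtain ⟨a, rfl⟩ := he x
      exact Submodule.sum_mem _ fun i _ => Submodule.smul_mem _ (a i)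
        (Submodule.subset_span (by simp))⟩⟩
    set N := Submodule.span Λ (range fun p : Fin m × I => e p.1 • (p.2 : H)) with hN
    have h3 : ∀ y ∈ Submodule.span Λ' I, ∀ c : Λ', c • y ∈ N := fun y hy => by
      induction hy using Submodule.span_induction with
      | mem x hx =>
        intro c
        obtain ⟨a, rfl⟩ := he c
        rw [Finset.sum_smul]
        refine Submodule.sum_mem _ fun i _ => ?_
        rw [mul_smul, ← hs]
        exact Submodule.smul_mem _ _ (Submodule.subset_span ⟨(i, ⟨x, hx⟩), rfl⟩)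
      | zero => simp
      | add x y _ _ hx hy => exact fun c => by rw [smul_add]; exact add_mem (hx c) (hy c)
      | smul a x _ hx => exact fun c => by rw [smul_smul]; exact hx _
    rw [RkAlg_tors N fun x => ?_]
    · refine (rank_span_le _).trans (Cardinal.mk_range_le.trans ?_)
      rw [Cardinal.mk_prod, Cardinal.lift_id, Cardinal.lift_id, Cardinal.mk_fin, Nat.cast_mul]
      exact mul_le_mul_right hI _
    · obtain ⟨a, ha, hx⟩ := h2 x
      obtain ⟨r, hr, c, hc⟩ := (Algebra.IsAlgebraic.isAlgebraic (R := Λ) a).exists_nonzero_dvd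
        (mem_nonZeroDivisors_of_ne_zero ha)
      refine ⟨r, hr, ?_⟩
      have hc' : f r = a * c := hc
      rw [hs, hc', mul_comm, mul_smul]
      exact h3 _ hx c
  · intro Λ H₁ H₂ H₃ _ _ _ _ _ _ _ _ f g n hk h1 h3
    refine (RkAlg_iff (2 * n)).2 ?_
    rw [← LinearMap.rank_range_add_rank_ker g, two_mul, Nat.cast_add]
    exact add_le_add ((Submodule.rank_le _).trans ((RkAlg_iff n).1 h3))
      ((Submodule.rank_mono hk).trans ((rank_range_le f).trans ((RkAlg_iff n).1 h1)))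
  · intro Λ Λ' H _ _ _ _ _ _ f S n hf hS hz
    refine (RkAlg_iff n).2 ?_
    obtain ⟨I, hI, h1, h2⟩ := RkAlg_max S hS
    rw [RkAlg_tors _ h2]
    refine (rank_span_le _).trans (not_lt.1 fun h => ?_)
    rw [← Cardinal.natCast_add_one_le_iff, ← Nat.cast_add_one, ← Cardinal.mk_fin] at h
    obtain ⟨j⟩ := (Cardinal.le_def _ _).1 h
    obtain ⟨a, ha, h0⟩ := hz (fun i => j i) fun i => hI (j i).2
    exact ha (funext fun i => hf ((Fintype.linearIndependent_iff.1 (h1.comp j j.injective)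
      (fun i => f (a i)) h0 i).trans (map_zero f).symm))

end Pool.Agent.MP_bc14e1_gt

end

section

open Set Metric
open scoped Classical

namespace Pool.Agent.MP_bc14e1_gt

theorem RankD_alg (hR : RkAlgStmt) {Λ M : Type} [CommRing Λ] [IsDomain Λ] [AddCommGroup M]
    [Module Λ M] (Z Z' D D' : Submodule Λ M) (N : M →ₗ[Λ] M) (n : ℕ) (h1 : Z ≤ Z') (h2 : D ≤ D')
    (h3 : ∀ z ∈ Z', N z ∈ Z) (h4 : ∀ z ∈ D', N z ∈ D)
    (h5 : ∀ z ∈ Z', N z ∈ D → ∃ w ∈ Z, z - w ∈ D')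
    (h : ∀ z : Fin (n + 1) → M, (∀ i, z i ∈ Z) → ∃ a : Fin (n + 1) → Λ, a ≠ 0 ∧
      ∑ i, a i • z i ∈ D)
    (z : Fin (2 * n + 1) → M) (hz : ∀ i, z i ∈ Z') :
    ∃ a : Fin (2 * n + 1) → Λ, a ≠ 0 ∧ ∑ i, a i • z i ∈ D' := by
  have k : ∀ y : Fin (n + 1) → Z ⧸ D.comap Z.subtype, ∃ a : Fin (n + 1) → Λ, a ≠ 0 ∧
      ∑ i, a i • y i = 0 := fun y => by
    choose x hx using fun i => (D.comap Z.subtype).mkQ_surjective (y i)
    obtain ⟨a, ha, e⟩ := h (fun i => x i) fun i => (x i).2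
    refine ⟨a, ha, ?_⟩
    simp only [← hx, ← map_smul, ← map_sum]
    refine (Submodule.Quotient.mk_eq_zero _).2 ?_
    simpa using e
  obtain ⟨a, ha, e⟩ := hR.2.1 Λ _ _ _
    ((D.comap Z.subtype).mapQ (D'.comap Z'.subtype) (Submodule.inclusion h1) fun x hx => h2 hx)
    ((D'.comap Z'.subtype).mapQ (D.comap Z.subtype) (N.restrict h3) fun x hx => h4 x hx) n
    (fun y hy => by
      obtain ⟨x, rfl⟩ := (D'.comap Z'.subtype).mkQ_surjective y
      obtain ⟨w, hw, e⟩ := h5 x x.2 ((Submodule.Quotient.mk_eq_zero (D.comap Z.subtype)).1 hy)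
      exact ⟨Submodule.Quotient.mk ⟨w, hw⟩, ((Submodule.Quotient.eq (D'.comap Z'.subtype)).2 e).symm⟩) k k
    fun i => (D'.comap Z'.subtype).mkQ ⟨z i, hz i⟩
  refine ⟨a, ha, ?_⟩
  simp only [← map_smul, ← map_sum] at e
  simpa using (Submodule.Quotient.mk_eq_zero _).1 e

section

variable {R : Type} [CommRing R] {G Y : Type} [Group G] [TopologicalSpace Y] [MulAction G Y]
  [ContinuousConstSMul G Y]

theorem RankD_flt (g : G) {S T : Set Y} (h : ∀ y, g • y ∈ S ↔ y ∈ T) (c : Tot R Y) :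
    flt R (fun σ => σ.2 stdSimplex.barycenter ∈ S) (gs R Y g c) =
      gs R Y g (flt R (fun σ => σ.2 stdSimplex.barycenter ∈ T) c) := by
  induction c using Finsupp.induction_linear with
  | zero => simp
  | add a b ha hb => simp [ha, hb]
  | single σ a =>
    have h0 : Continuous ((fun y : Y => g • y) ∘ σ.2) :=
      (continuous_const_smul g).comp σ.2.continuous
    rw [gs, psh_single _ σ h0, flt_single, flt_single]
    by_cases h' : σ.2 stdSimplex.barycenter ∈ T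
    · rw [if_pos h', psh_single _ σ h0]; exact if_pos ((h _).2 h')
    · rw [if_neg h', map_zero]; exact if_neg fun h'' => h' ((h _).1 h'')

omit [TopologicalSpace Y] [ContinuousConstSMul G Y] in
theorem RankD_set (hf : ∀ (g : G) (y : Y), g • y = y → g = 1) {B' B : Subgroup G}
    (key : ∀ a ∈ B, ∀ b ∈ B, a * b ∈ B' ↔ (a ∈ B' ↔ b ∈ B')) :
    ∃ S : Set Y, ∀ g ∈ B, ∀ y, g • y ∈ S ↔ (g ∈ B' ↔ y ∈ S) := by
  let r : Y → Y := fun y => (Quotient.mk (MulAction.orbitRel B Y) y).out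
  have r1 : ∀ y, ∃ h ∈ B, h • r y = y := fun y => by
    obtain ⟨h, e⟩ := (MulAction.orbitRel B Y).symm (Quotient.mk_out (s := MulAction.orbitRel B Y) y)
    exact ⟨h, h.2, e⟩
  have r2 : ∀ g ∈ B, ∀ y, r (g • y) = r y := fun g hg y =>
    congrArg Quotient.out (Quotient.sound ⟨⟨g, hg⟩, rfl⟩)
  have r3 : ∀ y, ∀ h : G, h • r y = y → ((∃ k ∈ B', k • r y = y) ↔ h ∈ B') := fun y h e => by
    refine ⟨fun ⟨k, hk, e'⟩ => ?_, fun hh => ⟨h, hh, e⟩⟩
    have := hf (k⁻¹ * h) (r y) (by rw [mul_smul, e, inv_smul_eq_iff, e'])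
    rwa [← inv_mul_eq_one.1 this]
  refine ⟨{y | ∃ k ∈ B', k • r y = y}, fun g hg y => ?_⟩
  obtain ⟨h, hh, e⟩ := r1 y
  exact (r3 (g • y) (g * h) (by rw [r2 g hg, mul_smul, e])).trans
    ((key g hg h hh).trans (iff_congr Iff.rfl (r3 y h e).symm))

variable (R Y) in
/-- Invariant chains. -/
def RankD_I (B : Subgroup G) : Submodule R (Tot R Y) where
  carrier := {c | ∀ g ∈ B, gs R Y g c = c}
  add_mem' := fun ha hb g hg => by rw [map_add, ha g hg, hb g hg]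
  zero_mem' := fun g _ => map_zero _
  smul_mem' := fun a c hc g hg => by rw [map_smul, hc g hg]

theorem RankD_gs_I {t : G} (ht : ∀ g, Commute g t) {B : Subgroup G} {c : Tot R Y}
    (hc : c ∈ RankD_I R Y B) : gs R Y t c ∈ RankD_I R Y B := fun g hg => by
  rw [← gs_mul, ht g, gs_mul, hc g hg]

theorem RankD_gs_Z (t : G) {c : Tot R Y} (hc : c ∈ ZC R (univ : Set Y) 2) :
    gs R Y t c ∈ ZC R (univ : Set Y) 2 :=
  ⟨⟨mem_CH_univ _, gs_mem_DG t hc.1.2⟩, by
    have : dT R Y c = 0 := hc.2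
    show dT R Y _ = 0
    rw [dT_gs, this, map_zero]⟩

variable (R Y) in
/-- Invariant cycles. -/
noncomputable def RankD_Z {s : G} (hs : ∀ g, g * s = s * g) (B : Subgroup G) :
    Submodule (Lam R) (Tw R Y s) :=
  twSub (ZC R univ 2 ⊓ RankD_I R Y B) fun n _ hc =>
    ⟨RankD_gs_Z _ hc.1, RankD_gs_I (fun g => Commute.zpow_right (hs g) n) hc.2⟩

variable (R Y) in
/-- Boundaries of invariant chains. -/
noncomputable def RankD_D {s : G} (hs : ∀ g, g * s = s * g) (B : Subgroup G) :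
    Submodule (Lam R) (Tw R Y s) :=
  twSub ((DG R Y 3 ⊓ RankD_I R Y B).map (dT R Y)) (by
    rintro n _ ⟨c, hc, rfl⟩
    exact ⟨_, ⟨gs_mem_DG _ hc.1, RankD_gs_I (fun g => Commute.zpow_right (hs g) n) hc.2⟩,
      dT_gs _ c⟩)

end

theorem rankD_stmt (B : Bas1) (hRkAlg : RkAlgStmt) : RankDStmt := by
  intro G Y _ _ _ _ s B' B n hs hf hle hi h z hz
  have key : ∀ a ∈ B, ∀ b ∈ B, a * b ∈ B' ↔ (a ∈ B' ↔ b ∈ B') := fun a ha b hb =>
    Subgroup.mul_mem_iff_of_index_two (H := B'.subgroupOf B) hi (a := ⟨a, ha⟩) (b := ⟨b, hb⟩)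
  obtain ⟨t, ht, ht'⟩ : ∃ t ∈ B, t ∉ B' := SetLike.not_le_iff_exists.1 fun e => by
    rw [Subgroup.relIndex_eq_one.2 e] at hi
    exact absurd hi (by norm_num)
  obtain ⟨S, hS⟩ := RankD_set hf key
  have k1 : ∀ c ∈ RankD_I (ZMod 2) Y B', ∀ g ∈ B, g ∉ B' →
      gs (ZMod 2) Y g c = gs (ZMod 2) Y t c := fun c hc g hg hg' => by
    rw [← mul_inv_cancel_left t g, gs_mul, hc _ ((key _ (B.inv_mem ht) g hg).2
      (iff_of_false (fun e => ht' (B'.inv_mem_iff.1 e)) hg'))]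
  have k2 : ∀ c ∈ RankD_I (ZMod 2) Y B', c + gs (ZMod 2) Y t c ∈ RankD_I (ZMod 2) Y B :=
    fun c hc g hg => by
      rw [map_add, ← gs_mul]
      by_cases hg' : g ∈ B'
      · rw [hc g hg', k1 c hc _ (B.mul_mem hg ht) fun e => ht' (((key g hg t ht).1 e).1 hg')]
      · rw [k1 c hc g hg hg', hc _ ((key g hg t ht).2 (iff_of_false hg' ht')), add_comm]
  have k3 : ∀ c ∈ RankD_I (ZMod 2) Y B', c + gs (ZMod 2) Y t c = 0 →
      c ∈ RankD_I (ZMod 2) Y B := fun c hc e g hg => by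
    by_cases hg' : g ∈ B'
    · exact hc g hg'
    · rw [k1 c hc g hg hg', eq_neg_of_add_eq_zero_right e, ZModModule.neg_eq_self]
  have k4 : ∀ c ∈ DG (ZMod 2) Y 3 ⊓ RankD_I (ZMod 2) Y B,
      ∃ c' ∈ DG (ZMod 2) Y 3 ⊓ RankD_I (ZMod 2) Y B', c' + gs (ZMod 2) Y t c' = c :=
    fun c hc => by
      refine ⟨flt _ (fun σ => σ.2 stdSimplex.barycenter ∈ S) c,
        ⟨flt_mem_supported _ hc.1, fun g hg => ?_⟩, ?_⟩
      · rw [← RankD_flt g (S := S) fun y => (hS g (hle hg) y).trans (iff_true_left hg),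
          hc.2 g (hle hg)]
      · rw [← RankD_flt t (S := Sᶜ) fun y => (not_congr (hS t ht y)).trans (by tauto), hc.2 t ht]
        ext σ
        rw [Finsupp.add_apply, flt_apply, flt_apply]
        by_cases e : σ.2 stdSimplex.barycenter ∈ S <;> simp [e]
  obtain ⟨a, ha, b, hb, e⟩ := RankD_alg hRkAlg (RankD_Z (ZMod 2) Y hs B) (RankD_Z (ZMod 2) Y hs B')
    (RankD_D (ZMod 2) Y hs B) (RankD_D (ZMod 2) Y hs B')
    (twMap (1 + gs (ZMod 2) Y t) fun c => by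
      simp only [LinearMap.add_apply, Module.End.one_apply, map_add, ← gs_mul, hs t]) n
    (fun c hc => ⟨hc.1, fun g hg => hc.2 g (hle hg)⟩)
    (fun c ⟨b, hb, e⟩ => ⟨b, ⟨hb.1, fun g hg => hb.2 g (hle hg)⟩, e⟩)
    (fun c hc => ⟨add_mem hc.1 (RankD_gs_Z t hc.1), k2 c hc.2⟩)
    (by
      rintro _ ⟨b, hb, rfl⟩
      exact ⟨_, ⟨add_mem hb.1 (gs_mem_DG t hb.1), k2 b hb.2⟩,
        (map_add _ _ _).trans (congrArg _ (dT_gs t b))⟩)
    (by
      rintro (c : Tot (ZMod 2) Y) hc ⟨b, hb, (e : _ = c + gs (ZMod 2) Y t c)⟩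
      obtain ⟨b', hb', rfl⟩ := k4 b hb
      have i1 : dT (ZMod 2) Y b' ∈ ZC (ZMod 2) univ 2 ⊓ RankD_I (ZMod 2) Y B' :=
        ⟨⟨⟨mem_CH_univ _, dT_mem_DG hb'.1⟩, dT_dT b'⟩, fun g hg => by rw [← dT_gs, hb'.2 g hg]⟩
      have i2 : c - dT (ZMod 2) Y b' ∈ ZC (ZMod 2) univ 2 ⊓ RankD_I (ZMod 2) Y B' :=
        sub_mem hc i1
      refine ⟨c - dT (ZMod 2) Y b', ⟨i2.1, k3 _ i2.2 ?_⟩, b', hb', (sub_sub_cancel c _).symm⟩
      rw [map_add, dT_gs] at e
      rw [map_sub, sub_add_sub_comm, e, sub_self])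
    (fun z hz => by
      obtain ⟨a, ha, b, hb, hb', e⟩ := h z hz
      exact ⟨a, ha, b, ⟨hb, hb'⟩, e.symm⟩) z hz
  exact ⟨a, ha, b, hb.1, hb.2, e.symm⟩

end Pool.Agent.MP_bc14e1_gt

end

section

open Set Metric
open scoped Classical

namespace Pool.Agent.MP_bc14e1_gt

section
variable {R : Type} [CommRing R]

/-- substitution of `T ^ m` for `T` -/
noncomputable def Rank3_f (R : Type) [CommRing R] (m : ℕ) : Lam R →+* Lam R :=
  AddMonoidAlgebra.mapDomainRingHom R (AddMonoidHom.mulLeft (m : ℤ))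

theorem Rank3_f_CT (m : ℕ) (a : R) (n : ℤ) :
    Rank3_f R m (LaurentPolynomial.C a * LaurentPolynomial.T n) =
      LaurentPolynomial.C a * LaurentPolynomial.T (m * n) := by
  rw [← LaurentPolynomial.single_eq_C_mul_T, ← LaurentPolynomial.single_eq_C_mul_T]
  exact AddMonoidAlgebra.mapDomain_single

theorem Rank3_f_inj {m : ℕ} (hm : 0 < m) : Function.Injective (Rank3_f R m) :=
  AddMonoidAlgebra.mapDomain_injective (mul_right_injective₀ (by exact_mod_cast hm.ne'))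

theorem Rank3_span {m : ℕ} (hm : 0 < m) (x : Lam R) : ∃ a : Fin m → Lam R,
    x = ∑ i, Rank3_f R m (a i) * LaurentPolynomial.T (i.1 : ℤ) := by
  induction x using LaurentPolynomial.induction_on' with
  | add p q hp hq =>
    obtain ⟨a, rfl⟩ := hp
    obtain ⟨b, rfl⟩ := hq
    exact ⟨a + b, by simp only [Pi.add_apply, map_add, add_mul, Finset.sum_add_distrib]⟩
  | C_mul_T n a =>
    have h0 : (0 : ℤ) < m := by exact_mod_cast hm
    have h1 := Int.emod_nonneg n h0.ne'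
    have h2 := Int.emod_lt_of_pos n h0
    refine ⟨Pi.single ⟨(n % m).toNat, by omega⟩
      (LaurentPolynomial.C a * LaurentPolynomial.T (n / m)), ?_⟩
    rw [Finset.sum_eq_single ⟨(n % m).toNat, by omega⟩
      (fun i _ hi => by rw [Pi.single_eq_of_ne hi, map_zero, zero_mul]) (by simp),
      Pi.single_eq_same, Rank3_f_CT, mul_assoc, ← LaurentPolynomial.T_add,
      Int.toNat_of_nonneg h1, Int.mul_ediv_add_emod]

variable {G Y : Type} [Group G] [TopologicalSpace Y] [MulAction G Y] [ContinuousConstSMul G Y]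

theorem Rank3_act (t : G) (m : ℕ) (a : Lam R) :
    act R Y t (Rank3_f R m a) = act R Y (t ^ m) a := by
  induction a using LaurentPolynomial.induction_on' with
  | add p q hp hq => simp only [map_add, hp, hq]
  | C_mul_T n a =>
    refine LinearMap.ext fun c => ?_
    rw [Rank3_f_CT, map_mul, map_mul, Module.End.mul_apply, Module.End.mul_apply, act_C, act_C,
      act_T, act_T, zpow_mul, zpow_natCast]

theorem Rank3_pow [IsDomain R] (hRk : RkAlgStmt) {t : G} {m n : ℕ} (hm : 0 < m)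
    (h : Dep R Y t ∅ n) : Dep R Y (t ^ m) ∅ (m * n) := by
  let Z : Submodule (Lam R) (Tw R Y t) := twSub (ZC R univ 2) fun k c hc =>
    ⟨⟨mem_CH_univ _, gs_mem_DG _ hc.1.2⟩, by
      rw [SetLike.mem_coe, LinearMap.mem_ker, dT_gs, LinearMap.mem_ker.1 hc.2, map_zero]⟩
  let B : Submodule (Lam R) (Tw R Y t) := twSub ((DG R Y 3).map (dT R Y)) (by
    rintro k _ ⟨b, hb, rfl⟩
    exact ⟨_, gs_mem_DG _ hb, dT_gs _ _⟩)
  have key : ∀ {k : ℕ} (a : Fin k → Lam R) (z : Fin k → Z),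
      ∑ i, a i • (B.comap Z.subtype).mkQ (z i) = 0 ↔
        ∃ b ∈ DG R Y 3, dT R Y b = ∑ i, act R Y t (a i) (z i).1 := fun a z => by
    simp only [← map_smul, ← map_sum]
    rw [Submodule.mkQ_apply, Submodule.Quotient.mk_eq_zero, Submodule.mem_comap, map_sum]
    exact Iff.rfl
  intro z hz
  obtain ⟨a, h1, h2⟩ := hRk.1 (Lam R) (Lam R) (Z ⧸ B.comap Z.subtype) (Rank3_f R m) m n
    (fun i => LaurentPolynomial.T (i.1 : ℤ)) (Rank3_f_inj hm) (Rank3_span hm) (fun w => by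
      choose y hy using fun i => (B.comap Z.subtype).mkQ_surjective (w i)
      obtain ⟨a, h1, b, h2, -, h3⟩ := h (fun i => (y i).1) fun i => ⟨(y i).2, by simp⟩
      exact ⟨a, h1, by simpa only [hy] using (key a y).2 ⟨b, h2, h3.symm⟩⟩)
    fun i => (B.comap Z.subtype).mkQ ⟨z i, (hz i).1⟩
  obtain ⟨b, h3, h4⟩ := (key _ _).1 h2
  exact ⟨a, h1, b, h3, by simp, by simpa only [Rank3_act] using h4.symm⟩

theorem Rank3_tr (hT : TrStmt) {G' Y' : Type} [Group G'] [TopologicalSpace Y'] [MulAction G' Y']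
    [ContinuousConstSMul G' Y'] {H : Subgroup G'} [Finite H] {q : Y' → Y} (hq : GCov H univ q)
    {s : G} {s' : G'} (h1 : ∀ y, q (s' • y) = s • q y) (h2 : ∀ g, g * s' = s' * g) {n : ℕ}
    (h : Dep R Y s ∅ n) : Dep R Y' s' H n := by
  obtain ⟨tr, a1, -, a2, a3, a4, a5⟩ := hT R H Y Y' q hq
  have e : ∀ c, tr (gs R Y s c) = gs R Y' s' (tr c) := fun c =>
    (a5 (fun y => s • y) (Homeomorph.smul s') (continuous_const_smul s) h1
      (fun g => ⟨g, fun y => by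
        change s' • g.1 • y = g.1 • s' • y
        rw [← mul_smul, ← mul_smul, h2]⟩) c).symm
  intro z hz
  choose c hc using fun i => (a4 (z i)).1 fun g => (hz i).2 g.1 g.2
  obtain ⟨a, b1, b, b2, -, b3⟩ := h c fun i => ⟨⟨⟨mem_CH_univ _,
    (a3 2 _).1 (hc i ▸ (hz i).1.1.2)⟩, a1 (by
      rw [← a2, hc, map_zero]
      exact (hz i).1.2)⟩, by simp⟩
  refine ⟨a, b1, tr b, (a3 3 _).2 b2, fun g hg => (a4 _).2 ⟨b, rfl⟩ ⟨g, hg⟩, ?_⟩
  rw [a2, ← b3, map_sum]
  simp only [map_act tr e, hc]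

end

theorem Rank3_up {A : Type} [AddCommGroup A] [Finite A] {r : ℕ} (hA : Nat.card A = 2 ^ r)
    {B : AddSubgroup A} (hB : B ≠ ⊤) : ∃ B₁, B ≤ B₁ ∧ B.relIndex B₁ = 2 := by
  obtain ⟨k, -, hk⟩ := (Nat.dvd_prime_pow Nat.prime_two).1 (hA ▸ B.index_dvd_card)
  have h0 : k ≠ 0 := fun e => hB (AddSubgroup.index_eq_one.1 (by rw [hk, e, pow_zero]))
  obtain ⟨x, hx⟩ := exists_prime_addOrderOf_dvd_card' (G := A ⧸ B) 2
    (by rw [← AddSubgroup.index, hk]; exact dvd_pow_self 2 h0)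
  refine ⟨(AddSubgroup.zmultiples x).comap (QuotientAddGroup.mk' B), fun a ha => ?_, ?_⟩
  · rw [AddSubgroup.mem_comap, QuotientAddGroup.mk'_apply, (QuotientAddGroup.eq_zero_iff a).2 ha]
    exact zero_mem _
  · have := AddSubgroup.relIndex_comap ⊥ (QuotientAddGroup.mk' B)
      ((AddSubgroup.zmultiples x).comap (QuotientAddGroup.mk' B))
    rwa [AddMonoidHom.comap_bot, QuotientAddGroup.ker_mk',
      AddSubgroup.map_comap_eq_self_of_surjective (QuotientAddGroup.mk'_surjective B),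
      AddSubgroup.relIndex_bot_left, Nat.card_zmultiples, hx] at this

theorem rank3_stmt (B : Bas1) (hRkAlg : RkAlgStmt) (hRankD : RankDStmt) : Rank3Stmt := by
  intro X G Y A G' Y' _ _ _ _ _ _ _ _ _ _ _ F p t τ m α q j t' l' n r hP hm hA hD
  have hfin : Finite j.range := Finite.of_surjective _ j.rangeRestrict_surjective
  have h1 : ∀ (k : ℕ) y, q (t' ^ k • y) = t ^ k • q y := fun k => by
    induction k with
    | zero => simp
    | succ k ih => intro y; rw [pow_succ, pow_succ, mul_smul, mul_smul, ih, hP.qt]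
  have h2 := Rank3_tr B.tr hP.cov (h1 m) hP.tc.cen (Rank3_pow hRkAlg hm hD)
  have key : ∀ k, ∀ C : AddSubgroup A, C.index = k →
      Dep (ZMod 2) Y' (t' ^ m) (C.toSubgroup.map j : Subgroup G') (k * (m * n)) := by
    intro k
    induction k using Nat.strong_induction_on with
    | _ k ih =>
      intro C hC
      by_cases h : C = ⊤
      · subst h
        rw [← hC, AddSubgroup.index_top, one_mul]
        have : (⊤ : AddSubgroup A).toSubgroup.map j = j.range := (MonoidHom.range_eq_map j).symm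
        rwa [this]
      · obtain ⟨C₁, h3, h4⟩ := Rank3_up hA h
        have h5 := AddSubgroup.relIndex_mul_index h3
        have h6 : C₁.index ≠ 0 := AddSubgroup.index_ne_zero_of_finite
        rw [h4, hC] at h5
        rw [← h5, mul_assoc]
        exact hRankD G' Y' _ _ (C₁.toSubgroup.map j) _ hP.tc.cen hP.tc.cov.free
          (Subgroup.map_mono fun _ ha => h3 ha)
          (by rw [Subgroup.relIndex_map_map_of_injective _ _ hP.jinj,
            AddSubgroup.relIndex_toSubgroup, h4]) (ih _ (by omega) C₁ rfl)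
  exact fun C => key _ C rfl

end Pool.Agent.MP_bc14e1_gt

end

section

open Set Metric
open scoped Classical

namespace Pool.Agent.MP_bc14e1_gt

section

variable {Y Y' : Type} [TopologicalSpace Y] [TopologicalSpace Y']

theorem Kap_val0_psh {M : Type} [AddCommGroup M] (f : Y' → M) (f' : Y → M) (τ : M →ₗ[ℤ] M)
    {g : Y → Y'} (hg : Continuous g) (h : ∀ y, f (g y) = τ (f' y)) (c : Tot ℤ Y) :
    val0 ℤ f (psh ℤ g c) = τ (val0 ℤ f' c) := by
  induction c using Finsupp.induction_linear with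
  | zero => simp
  | add a b ha hb => simp [ha, hb]
  | single σ a =>
    rw [psh_single g σ (hg.comp σ.2.continuous)]
    simp only [val0, Finsupp.linearCombination_single, map_smul]
    split_ifs
    · exact congrArg (a • ·) (h _)
    · rw [map_zero]

theorem Kap_val0_dT {O : Set Y} (f : Y → ℤ) (hf : ∀ y y', JoinedIn O y y' → f y = f y')
    {c : Tot ℤ Y} (h1 : c ∈ CH ℤ O) (h2 : c ∈ DG ℤ Y 1) : val0 ℤ f (dT ℤ Y c) = 0 := by
  have h3 : c ∈ Finsupp.supported ℤ ℤ {σ : TS Y | σ.1 = 1 ∧ ∀ t, σ.2 t ∈ O} :=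
    (Finsupp.mem_supported ℤ c).2 fun σ hσ => ⟨mem_DG.1 h2 σ hσ, mem_CH.1 h1 σ hσ⟩
  refine supported_ind (P := fun c => val0 ℤ f (dT ℤ Y c) = 0) (by simp)
    (fun a b ha hb => by simp [ha, hb]) ?_ h3
  rintro ⟨_, σ⟩ ⟨rfl, hσ⟩ a
  let γ : C(unitInterval, Y) :=
    σ.comp (stdSimplexHomeomorphUnitInterval.symm : C(unitInterval, Sx 1))
  have e : (Finsupp.single ⟨1, σ⟩ a : Tot ℤ Y) = a • pth ℤ γ := by
    rw [pth, Finsupp.smul_single, smul_eq_mul, mul_one]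
    congr 2
    ext x
    simp [γ]
  have hj : JoinedIn O (γ 0) (γ 1) := ⟨⟨γ, rfl, rfl⟩, fun t => hσ _⟩
  rw [e, map_smul, map_smul, dT_pth, map_sub, val0_pt, val0_pt, hf _ _ hj, sub_self, smul_zero]

theorem Kap_joined {O : Set Y} {y y' : Y} (hy : y ∈ O) {c : Tot ℤ Y} (h1 : c ∈ CH ℤ O)
    (h2 : c ∈ DG ℤ Y 1) (h : dT ℤ Y c = pt ℤ y' - pt ℤ y) : JoinedIn O y y' := by
  have h3 := Kap_val0_dT (O := O) (fun z => if JoinedIn O y z then 1 else 0) (fun z z' hz => by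
    have : JoinedIn O y z ↔ JoinedIn O y z' := ⟨fun h => h.trans hz, fun h => h.trans hz.symm⟩
    simp only [this]) h1 h2
  rw [h, map_sub, val0_pt, val0_pt, if_pos (JoinedIn.refl hy)] at h3
  by_contra hn
  rw [if_neg hn] at h3
  exact absurd h3 (by decide)

/-- A function that is constant on path components and equivariant. -/
theorem Kap_fun {A G' : Type} [AddCommGroup A] [Group G'] [MulAction G' Y']
    [ContinuousConstSMul G' Y'] (j : Multiplicative A →* G') {O : Set Y'}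
    (hO : ∀ (g : G'), ∀ y ∈ O, g • y ∈ O)
    (hfree : ∀ a y, JoinedIn O y (j (Multiplicative.ofAdd a) • y) → a = 0) :
    ∃ k : Y' → A, ∀ y ∈ O, (∀ y', JoinedIn O y y' → k y' = k y) ∧
      ∀ a, k (j (Multiplicative.ofAdd a) • y) = a + k y := by
  have hsm : ∀ (g : G') y y', JoinedIn O y y' → JoinedIn O (g • y) (g • y') := fun g y y' h =>
    (h.map (continuous_const_smul g)).mono (by rintro _ ⟨z, hz, rfl⟩; exact hO g z hz)
  have hj : ∀ (a b : A) (y : Y'), j (Multiplicative.ofAdd (a + b)) • y =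
      j (Multiplicative.ofAdd a) • j (Multiplicative.ofAdd b) • y := fun a b y => by
    rw [ofAdd_add, map_mul, mul_smul]
  have hj0 : ∀ y : Y', j (Multiplicative.ofAdd (0 : A)) • y = y := fun y => by
    rw [ofAdd_zero, map_one, one_smul]
  let P : Y' → Y' → A → Prop := fun y z a => JoinedIn O (j (Multiplicative.ofAdd a) • z) y
  let S : Y' → Set Y' := fun y => {z | ∃ a, P y z a}
  let r : Set Y' → Y' → Y' := fun T y => if h : T.Nonempty then h.choose else y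
  have hS : ∀ y ∈ O, (S y).Nonempty := fun y hy =>
    ⟨y, 0, by simp only [P, hj0]; exact JoinedIn.refl hy⟩
  have hr : ∀ y ∈ O, ∃ a, P y (r (S y) y) a := fun y hy => by
    simp only [r, dif_pos (hS y hy)]
    exact (hS y hy).choose_spec
  have hrr : ∀ y ∈ O, ∀ y', S y' = S y → r (S y') y' = r (S y) y := fun y hy y' e => by
    simp only [r, e, dif_pos (hS y hy)]
  have huniq : ∀ y z a b, P y z a → P y z b → a = b := by
    intro y z a b ha hb
    have h1 : JoinedIn O (j (Multiplicative.ofAdd b) • z)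
        (j (Multiplicative.ofAdd (a - b)) • j (Multiplicative.ofAdd b) • z) := by
      rw [← hj, sub_add_cancel]
      exact hb.trans ha.symm
    exact sub_eq_zero.1 (hfree _ _ h1)
  have hP : ∀ y z a b, P y z b → P (j (Multiplicative.ofAdd a) • y) z (a + b) := by
    intro y z a b h
    simp only [P, hj]
    exact hsm _ _ _ h
  let k : Y' → A := fun y => Classical.epsilon (P y (r (S y) y))
  have hk : ∀ y ∈ O, P y (r (S y) y) (k y) := fun y hy => Classical.epsilon_spec (hr y hy)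
  refine ⟨k, fun y hy => ⟨fun y' h => ?_, fun a => ?_⟩⟩
  · have e : S y' = S y := Set.ext fun z => exists_congr fun a =>
      ⟨fun h' => JoinedIn.trans h' h.symm, fun h' => JoinedIn.trans h' h⟩
    have h1 := hk y' h.target_mem
    rw [hrr y hy y' e] at h1
    exact huniq _ _ _ _ h1 (JoinedIn.trans (hk y hy) h)
  · have e : S (j (Multiplicative.ofAdd a) • y) = S y := Set.ext fun z => by
      refine ⟨fun ⟨b, hb⟩ => ⟨-a + b, ?_⟩, fun ⟨b, hb⟩ => ⟨a + b, hP _ _ _ _ hb⟩⟩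
      have := hP _ _ (-a) _ hb
      rwa [← hj, neg_add_cancel, hj0] at this
    have h1 := hk _ (hO (j (Multiplicative.ofAdd a)) y hy)
    rw [hrr y hy _ e] at h1
    exact huniq _ _ _ _ h1 (hP _ _ _ _ (hk y hy))

end

theorem kap_stmt (B : Bas2) (hLocCtr : LocCtrStmt) : KapStmt := by
  intro X G Y A G' Y' _ _ _ _ _ _ _ _ _ _ _ _ F φ p t l τ m α q j t' l' hF h1 h2 hτ
  obtain ⟨N1, hN1, hFN1, -, n, hn⟩ := B.pa ℤ X G Y F p t h1.tc hF univ isOpen_univ (subset_univ _)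
  have hq := h2.cov.cont
  have hlift : ∀ c : Tot ℤ Y, ∃ c', psh ℤ q c' = c := by
    intro c
    induction c using Finsupp.induction_linear with
    | zero => exact ⟨0, map_zero _⟩
    | add a b ha hb =>
      obtain ⟨a, rfl⟩ := ha
      obtain ⟨b, rfl⟩ := hb
      exact ⟨a + b, map_add _ _ _⟩
    | single σ a =>
      obtain ⟨c', -, h⟩ := (B.lift ℤ j.range Y Y' univ q h2.cov).1 σ.1 _
        ⟨mem_CH_univ _, single_mem_DG σ a⟩
      exact ⟨c', h⟩
  have hαt : ∀ c, α (gs ℤ Y t c) = τ (α c) := by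
    intro c
    obtain ⟨c, rfl⟩ := hlift c
    have e : gs ℤ Y t (psh ℤ q c) = psh ℤ q (gs ℤ Y' t' c) := by
      rw [gs, gs, psh_psh' _ hq, psh_psh' _ (continuous_const_smul t')]
      congr 2
      funext y
      exact (h2.qt y).symm
    rw [e, h2.hol, h2.hol, dT_gs]
    exact Kap_val0_psh l' l' (τ : A →ₗ[ℤ] A) (continuous_const_smul t') h2.lt _
  have hαd : ∀ b, α (dT ℤ Y b) = 0 := by
    intro b
    obtain ⟨b, rfl⟩ := hlift b
    rw [dT_psh_cont hq, h2.hol, dT_dT, map_zero]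
  have hαp : ∀ (i : ℕ) (z : Tot ℤ Y), α (((gs ℤ Y t - 1) ^ i) z) = 0 → α z = 0 := by
    intro i
    induction i with
    | zero => intro z h; simpa using h
    | succ i ih =>
      intro z h
      rw [pow_succ', Module.End.mul_apply, LinearMap.sub_apply, Module.End.one_apply, map_sub,
        hαt, sub_eq_zero] at h
      exact ih z (hτ _ h)
  let N : Set X := {x | ∃ (e : OpenPartialHomeomorph X (ℂ × ℂ)) (D : Set (ℂ × ℂ)), FlatCh F e ∧
    IsOpen D ∧ D ⊆ e.target ∧ DiscCl D ∧ e.symm '' D ⊆ N1 ∧ x ∈ e.symm '' D}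
  have hNo : IsOpen N := by
    refine isOpen_iff_forall_mem_open.2 ?_
    rintro x ⟨e, D, d1, d2, d3, d4, d5, d6⟩
    exact ⟨e.symm '' D, fun x' hx' => ⟨e, D, d1, d2, d3, d4, d5, hx'⟩,
      e.isOpen_image_symm_of_subset_target d2 d3, d6⟩
  have hNN : N ⊆ N1 := by
    rintro x ⟨e, D, -, -, -, -, d5, d6⟩
    exact d5 d6
  have hFN : F ⊆ N := by
    intro x hx
    obtain ⟨e, he, hxe⟩ := h1.tc.flat.ch x hx
    have hW : IsOpen (e.target ∩ e.symm ⁻¹' N1) := e.symm.isOpen_inter_preimage hN1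
    obtain ⟨ρ, hρ, hb⟩ := Metric.isOpen_iff.1 hW (e x)
      ⟨e.map_source hxe, by rw [mem_preimage, e.left_inv hxe]; exact hFN1 hx⟩
    refine ⟨e, ball (e x) ρ, he, isOpen_ball, fun z hz => (hb hz).1, ?_, ?_,
      e x, mem_ball_self hρ, e.left_inv hxe⟩
    · intro z hz w hw
      rw [mem_ball, Prod.dist_eq, max_lt_iff, (he x hxe).1 hx, dist_zero_right] at hz ⊢
      exact ⟨hz.1, hw.trans_lt hz.2⟩
    · rintro _ ⟨z, hz, rfl⟩
      exact (hb hz).2
  have hO : ∀ (g : G'), ∀ y ∈ (p ∘ q) ⁻¹' N, g • y ∈ (p ∘ q) ⁻¹' N := fun g y hy => by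
    rw [mem_preimage, h2.tc.cov.inv]
    exact hy
  have hfree : ∀ a y, JoinedIn ((p ∘ q) ⁻¹' N) y (j (Multiplicative.ofAdd a) • y) → a = 0 := by
    rintro a y ⟨γ, hγ⟩
    have hc : pth ℤ γ.toContinuousMap ∈ CH ℤ ((p ∘ q) ⁻¹' N) := pth_mem_CH hγ
    have hd : dT ℤ Y' (pth ℤ γ.toContinuousMap) =
        pt ℤ (j (Multiplicative.ofAdd a) • y) - pt ℤ y := by
      rw [dT_pth]
      exact congrArg₂ (fun u v => pt ℤ u - pt ℤ v) γ.target γ.source
    have hqa : q (j (Multiplicative.ofAdd a) • y) = q y :=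
      h2.cov.inv (⟨_, Multiplicative.ofAdd a, rfl⟩ : j.range) y
    obtain ⟨b, -, hb⟩ := hn (psh ℤ q (pth ℤ γ.toContinuousMap))
      (psh_mem_CH q (fun u hu => hNN hu) hc)
      (by rw [dT_psh_cont hq, hd, map_sub, psh_pt, psh_pt, hqa, sub_self])
    have h3 := hαp n _ (by rw [hb, hαd])
    rwa [h2.hol, hd, map_sub, val0_pt, val0_pt, h2.la, add_sub_cancel_right] at h3
  obtain ⟨k, hk⟩ := Kap_fun j hO hfree
  refine ⟨N, hNo, hFN, k, fun y hy => ⟨?_, (hk y hy).2, (hk y hy).1 _ ?_⟩⟩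
  · obtain ⟨-, -, V, hV, hVO, hVp⟩ := hLocCtr X Y' (p ∘ q)
      (B.cov G' X Y' _ _ h2.tc.cov).2.1 y ((p ∘ q) ⁻¹' N)
      ((hNo.preimage h2.tc.cov.cont).mem_nhds hy)
    filter_upwards [hV] with y' hy'
    exact (hk y hy).1 y' ((hVp.joinedIn y (mem_of_mem_nhds hV) y' hy').mono hVO)
  · obtain ⟨e, D, d1, d2, d3, d4, d5, d6⟩ := id hy
    obtain ⟨H, -, r2, r3, r4⟩ := B.rot ℤ G' X Y' F (p ∘ q) (t' ^ m) h2.tc e D d1 d2 d3 d4
    have hy' : pt ℤ y ∈ CH ℤ ((p ∘ q) ⁻¹' (e.symm '' D)) := pt_mem_CH d6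
    have h3 := r4 _ hy'
    rw [dT_pt, map_zero, add_zero, gs, psh_pt] at h3
    refine Kap_joined hy (CH_mono ?_ (r3 D subset_rfl (fun x hx w hw => d4 x hx w hw.le) _ hy'))
      (r2 0 _ (pt_mem_DG y)) h3
    exact fun u hu => ⟨e, D, d1, d2, d3, d4, d5, hu⟩

end Pool.Agent.MP_bc14e1_gt

end

section

open Set Metric
open scoped Classical

namespace Pool.Agent.MP_bc14e1_gt

theorem Inj0_deg {G Y : Type} [Group G] [TopologicalSpace Y] [MulAction G Y]
    [ContinuousConstSMul G Y] {s : G} {g : Lam ℂ} (k : ℕ) {c : Tot ℂ Y} (h : c ∈ Mul0 s g) :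
    deg ℂ Y k c ∈ Mul0 s g := by
  obtain ⟨b, rfl⟩ := h
  exact ⟨deg ℂ Y k b, (map_act (deg ℂ Y k) (fun c => deg_psh _ k c) g b).symm⟩

theorem inj0_stmt (B : Bas1) (hFrob : FrobStmt) (hPP : PPStmt) (hPD1 : PD1Stmt) : Inj0Stmt := by
  intro X G Y _ _ _ _ _ _ _ _ o F p s β hT hP ζ U K hU hUi hK hKU u hu hdu h
  by_contra hn
  have hW : u ∉ LinearMap.range (dT ℂ Y) ⊔ (CH ℂ Kᶜ ⊔ Mul0 s (piL ζ)) := by
    intro hm
    obtain ⟨_, ⟨w, rfl⟩, c, hc, e⟩ := Submodule.mem_sup.1 hm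
    exact hn ⟨w, by rw [← e, add_sub_cancel_left]; exact hc⟩
  obtain ⟨f, hfu, hf⟩ := Submodule.exists_dual_map_eq_bot_of_notMem hW inferInstance
  have hf0 : ∀ c ∈ LinearMap.range (dT ℂ Y) ⊔ (CH ℂ Kᶜ ⊔ Mul0 s (piL ζ)), f c = 0 :=
    fun c hc => (Submodule.mem_bot ℂ).1 (hf ▸ Submodule.mem_map_of_mem hc)
  obtain ⟨B', hB, hPP'⟩ := hPP X G Y o F p s β hT hP _ _ (hFrob ζ).1
  obtain ⟨K', hK', -, x, hx, hdx, hBx⟩ :=
    (hPD1 X G Y o F p s β hT hP _ _ (hFrob ζ).1 B' hB hPP' U hU hUi).2 K ⟨hK, hKU⟩ f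
      (fun b => hf0 _ (Submodule.mem_sup_left ⟨b, rfl⟩))
      fun b hb => hf0 _ (Submodule.mem_sup_right hb)
  apply hfu
  rw [← hBx u (Submodule.mem_sup_right hdu)]
  obtain ⟨n, hn'⟩ := exists_sum_deg x
  rw [← hn' n le_rfl, map_sum]
  refine Finset.sum_eq_zero fun k _ => ?_
  rw [hB]
  by_cases hk : k = 2
  · subst hk
    refine h _ ⟨deg_mem_CH 2 (CH_mono hK'.2 hx), deg_mem 2 x⟩ ?_
    rw [← deg_dT]
    exact Inj0_deg 1 hdx
  · have e : lamF s β u (deg ℂ Y k x) = 0 := by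
      rw [lamF]
      refine finsum_eq_zero_of_forall_eq_zero fun m => ?_
      rw [hP.dg 2 k (by omega) u hu _ (gs_mem_DG _ (deg_mem k x)), map_zero, mul_zero]
    rw [e, map_zero]

end Pool.Agent.MP_bc14e1_gt

end

section

open Set Metric
open scoped Classical

namespace Pool.Agent.MP_bc14e1_gt

section Aux

variable {G X Y : Type} [Group G] [TopologicalSpace X] [TopologicalSpace Y] [MulAction G Y]
  [ContinuousConstSMul G Y] {Z : Set X} {p : Y → X}

theorem DehnSym_sheet (h : GCov G Z p) (y : Y) :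
    ∃ V, IsOpen V ∧ y ∈ V ∧ InjOn p V := by
  obtain ⟨U, -, hy, -, σ, -, hσ, hV⟩ := h.sec _ (h.mem y)
  obtain ⟨k, hk⟩ := h.trans y (σ (p y)) (hσ _ hy).symm
  refine ⟨(fun z => k • z) ⁻¹' (σ '' U), hV.preimage (continuous_const_smul k),
    ⟨p y, hy, hk⟩, ?_⟩
  rintro z ⟨u, hu, hz⟩ z' ⟨u', hu', hz'⟩ e
  have h1 : u = p z := by rw [← hσ u hu, hz, h.inv]
  have h2 : u' = p z' := by rw [← hσ u' hu', hz', h.inv]
  have h3 : k • z = k • z' := by
    have hz1 : σ u = k • z := hz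
    have hz2 : σ u' = k • z' := hz'
    rw [← hz1, ← hz2, h1, h2, e]
  exact smul_left_cancel k h3

theorem DehnSym_sep (h : GCov G Z p) : IsSeparatedMap p := by
  intro y y' e hne
  obtain ⟨V, hV, hy, hi⟩ := DehnSym_sheet h y
  obtain ⟨g, rfl⟩ := h.trans y y' e
  refine ⟨V, (fun z => g⁻¹ • z) ⁻¹' V, hV, hV.preimage (continuous_const_smul _), hy,
    by simpa using hy, disjoint_left.2 fun z hz hz' => hne ?_⟩
  have h1 : g⁻¹ • z = z := hi hz' hz (h.inv _ _)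
  rw [inv_eq_one.1 (h.free _ _ h1), one_smul]

theorem DehnSym_uniq (h : GCov G Z p) {A : Set X} (hA : IsPreconnected A) {f g : X → Y}
    (hf : ContinuousOn f A) (hg : ContinuousOn g A) (he : ∀ x ∈ A, p (f x) = p (g x)) {x₀ : X}
    (hx : x₀ ∈ A) {c : G} (hc : f x₀ = c • g x₀) : ∀ x ∈ A, f x = c • g x :=
  (DehnSym_sep h).eqOn_of_comp_eqOn (g₂ := fun x => c • g x) (DehnSym_sheet h) hA hf
    (hg.const_smul c) (fun x hx => (he x hx).trans (h.inv c _).symm) hx hc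

theorem DehnSym_pc {A : Set X} {x : X} (h : Ctr A x) : IsPathConnected A := by
  obtain ⟨hx, H, hH, hm, h0, h1⟩ := h
  refine ⟨x, hx, fun y hy => JoinedIn.symm ?_⟩
  refine ⟨⟨⟨fun t => H (t, y), hH.comp_continuous (by fun_prop) fun t => ⟨t.2, hy⟩⟩,
    h0 y hy, h1 y hy⟩, fun t => hm ⟨t.2, hy⟩⟩

theorem DehnSym_path {A : Set X} (h : IsPathConnected A) {x y : X} (hx : x ∈ A) (hy : y ∈ A) :
    ∃ c ∈ CC ℤ A 1, dT ℤ X c = pt ℤ y - pt ℤ x := by
  obtain ⟨γ, hγ⟩ := h.joinedIn x hx y hy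
  refine ⟨pth ℤ γ.toContinuousMap, ⟨pth_mem_CH hγ, pth_mem_DG _⟩, ?_⟩
  rw [dT_pth]
  simp

theorem DehnSym_gs (h : GCov G Z p) {O : Set X} (g : G) {c : Tot ℤ Y}
    (hc : c ∈ BC ℤ (p ⁻¹' O) 1) : gs ℤ Y g c ∈ BC ℤ (p ⁻¹' O) 1 := by
  obtain ⟨b, hb, rfl⟩ := hc
  exact ⟨gs ℤ Y g b, ⟨gs_mem_CH g (fun y hy => by simpa only [mem_preimage, h.inv] using hy) hb.1,
    gs_mem_DG g hb.2⟩, dT_gs g b⟩

omit [MulAction G Y] [ContinuousConstSMul G Y] in
theorem DehnSym_bc (B : Bas1) {A O : Set X} {x : X} (hA : Ctr A x) (hO : A ⊆ O) {σ : X → Y}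
    (hσ : ContinuousOn σ A) (hp : ∀ x ∈ A, p (σ x) = x) {c : Tot ℤ X} (hc : c ∈ CC ℤ A 1)
    (hd : dT ℤ X c = 0) : psh ℤ σ c ∈ BC ℤ (p ⁻¹' O) 1 := by
  obtain ⟨b, hb, rfl⟩ := (B.ctr ℤ X A x hA).1 1 one_ne_zero ⟨hc, hd⟩
  refine ⟨psh ℤ σ b, ⟨psh_mem_CH σ (fun x hx => ?_) hb.1, psh_mem_DG σ hb.2⟩, dT_psh hσ hb.1⟩
  rw [mem_preimage, hp x hx]
  exact hO hx

omit [ContinuousConstSMul G Y] in
theorem DehnSym_lift {A : Set X} {σ : X → Y} {I : X → X} {J : Y → Y} {a : G}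
    (hσ : ContinuousOn σ A) (hI : ContinuousOn I A) (hm : MapsTo I A A)
    (he : ∀ x ∈ A, J (σ x) = a • σ (I x)) {c : Tot ℤ X} (hc : c ∈ CH ℤ A) :
    psh ℤ J (psh ℤ σ c) = gs ℤ Y a (psh ℤ σ (psh ℤ I c)) := by
  rw [psh_psh J hσ hc, psh_psh σ hI hc, gs, psh_psh _ (hσ.comp hI hm) hc]
  exact psh_congr he hc

theorem DehnSym_J {J : Y → Y} {θ : G →* G} (hJ : Continuous J) (he : ∀ g y, J (g • y) = θ g • J y)
    (g : G) (c : Tot ℤ Y) : psh ℤ J (gs ℤ Y g c) = gs ℤ Y (θ g) (psh ℤ J c) := by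
  rw [gs, gs, psh_psh' _ (continuous_const_smul g), psh_psh' _ hJ]
  exact psh_congr (fun y _ => he g y) (mem_CH_univ c)

omit [MulAction G Y] [ContinuousConstSMul G Y] in
theorem DehnSym_cast (c : Tot ℤ Y) : castZ ℤ Y c = c := by
  ext σ
  rw [cast_apply]
  simp

end Aux

theorem dehnSym_stmt (B : Bas1) : DehnSymStmt := by
  intro G X Y Reg Cr _ _ _ _ _ Z O p reg D σU σL h I ρ J θ hp _ hs hI hJ hpJ hθ
  have hUO : D.Up ⊆ O := (subset_union_left.trans subset_union_left).trans D.cover.subset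
  have hLO : D.Lo ⊆ O := (subset_union_right.trans subset_union_left).trans D.cover.subset
  have hR : ∀ R, D.Rg R ⊆ D.Up ∩ D.Lo := fun R => D.unR ▸ subset_iUnion D.Rg R
  have pU := DehnSym_pc D.ctU
  have pL := DehnSym_pc D.ctL
  have cU : ContinuousOn I D.Up :=
    ((hp.cont.comp hJ).comp_continuousOn hs.cU).congr fun x hx => by
      simp only [Function.comp_apply, hpJ, hs.pU x hx]
  have cL : ContinuousOn I D.Lo :=
    ((hp.cont.comp hJ).comp_continuousOn hs.cL).congr fun x hx => by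
      simp only [Function.comp_apply, hpJ, hs.pL x hx]
  have eU : ∀ x ∈ D.Up, p (J (σU x)) = p (σU (I x)) := fun x hx => by
    rw [hpJ, hs.pU x hx, hs.pU _ (hI.up hx)]
  have eL : ∀ x ∈ D.Lo, p (J (σL x)) = p (σL (I x)) := fun x hx => by
    rw [hpJ, hs.pL x hx, hs.pL _ (hI.lo hx)]
  obtain ⟨a, ha⟩ := hp.trans _ _ (eU _ D.ctU.1).symm
  obtain ⟨b, hb⟩ := hp.trans _ _ (eL _ D.ctL.1).symm
  have ha' : ∀ x ∈ D.Up, J (σU x) = a • σU (I x) :=
    DehnSym_uniq hp pU.isConnected.isPreconnected (hJ.comp_continuousOn hs.cU)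
      (hs.cU.comp cU hI.up) eU D.ctU.1 ha
  have hb' : ∀ x ∈ D.Lo, J (σL x) = b • σL (I x) :=
    DehnSym_uniq hp pL.isConnected.isPreconnected (hJ.comp_continuousOn hs.cL)
      (hs.cL.comp cL hI.lo) eL D.ctL.1 hb
  have hh : ∀ R, ∀ x ∈ D.Rg R, σU x = h R • σL x := fun R =>
    DehnSym_uniq hp (D.pcR R).isConnected.isPreconnected (hs.cU.mono fun x hx => (hR R hx).1)
      (hs.cL.mono fun x hx => (hR R hx).2)
      (fun x hx => (hs.pU x (hR R hx).1).trans (hs.pL x (hR R hx).2).symm) (D.rm R) (hs.hol R)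
  have hab : ∀ R, θ (h R) * b = a * h (ρ R) := by
    intro R
    have h1 := ha' _ (hR R (D.rm R)).1
    rw [hs.hol, hθ, hb' _ (hR R (D.rm R)).2, hh _ _ (hI.rg R (D.rm R)), ← mul_smul, ← mul_smul,
      ← inv_smul_eq_iff, ← mul_smul] at h1
    exact (inv_mul_eq_one.1 (hp.free _ _ h1)).symm
  refine ⟨a, b⁻¹, fun R => by rw [← hab, mul_inv_cancel_right], ?_⟩
  obtain ⟨γ, γm, γd⟩ := DehnSym_path pU (hI.up D.ctU.1) D.ctU.1
  obtain ⟨γ', γm', γd'⟩ := DehnSym_path pL D.ctL.1 (hI.lo D.ctL.1)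
  have am : ∀ R, pth ℤ (D.a R) ∈ CC ℤ D.Up 1 := fun R => ⟨pth_mem_CH (D.am R), pth_mem_DG _⟩
  have bm : ∀ R, pth ℤ (D.b R) ∈ CC ℤ D.Lo 1 := fun R => ⟨pth_mem_CH (D.bm R), pth_mem_DG _⟩
  have key : ∀ R, psh ℤ J (D.ell σU σL h R) - gs ℤ Y a (D.ell σU σL h (ρ R)) -
      (gs ℤ Y (θ (h R) * b) (psh ℤ σL γ') + gs ℤ Y a (psh ℤ σU γ)) ∈ BC ℤ (p ⁻¹' O) 1 := by
    intro R
    obtain ⟨δ, δm, δd⟩ := DehnSym_path (D.pcR (ρ R)) (D.rm _) (hI.rg R (D.rm R))
    have δU : δ ∈ CC ℤ D.Up 1 := ⟨CH_mono (fun x hx => (hR _ hx).1) δm.1, δm.2⟩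
    have δL : δ ∈ CC ℤ D.Lo 1 := ⟨CH_mono (fun x hx => (hR _ hx).2) δm.1, δm.2⟩
    have h1 := DehnSym_bc B D.ctU hUO hs.cU hs.pU
      (c := psh ℤ I (pth ℤ (D.a R)) - (γ + pth ℤ (D.a (ρ R)) + δ))
      (sub_mem ⟨psh_mem_CH I hI.up (am R).1, psh_mem_DG I (am R).2⟩
        (add_mem (add_mem γm (am _)) δU)) (by
        rw [map_sub, map_add, map_add, dT_psh cU (am R).1, γd, δd, dT_pth, dT_pth, map_sub,
          psh_pt, psh_pt, D.a0, D.a1, D.a0, D.a1]
        abel)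
    have h2 := DehnSym_bc B D.ctL hLO hs.cL hs.pL
      (c := psh ℤ I (pth ℤ (D.b R)) - (pth ℤ (D.b (ρ R)) + γ' - δ))
      (sub_mem ⟨psh_mem_CH I hI.lo (bm R).1, psh_mem_DG I (bm R).2⟩
        (sub_mem (add_mem (bm _) γm') δL)) (by
        rw [map_sub, map_sub, map_add, dT_psh cL (bm R).1, γd', δd, dT_pth, dT_pth, map_sub,
          psh_pt, psh_pt, D.b0, D.b1, D.b0, D.b1]
        abel)
    have h3 : psh ℤ σU δ = gs ℤ Y (h (ρ R)) (psh ℤ σL δ) := by
      rw [gs, psh_psh _ hs.cL δL.1]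
      exact psh_congr (hh _) δm.1
    have h4 := add_mem (DehnSym_gs hp a h1) (DehnSym_gs hp (a * h (ρ R)) h2)
    convert h4 using 1
    simp only [DehnData.ell, map_add, map_sub]
    rw [DehnSym_J hJ hθ, DehnSym_lift hs.cU cU hI.up ha' (am R).1,
      DehnSym_lift hs.cL cL hI.lo hb' (bm R).1, h3, ← gs_mul, ← gs_mul, ← gs_mul, hab]
    abel
  let L : ((Bool × G) →₀ ℤ) →ₗ[ℤ] Tot ℤ Y := Finsupp.linearCombination ℤ fun z =>
    cond z.1 (gs ℤ Y (θ z.2 * b) (psh ℤ σL γ')) (-gs ℤ Y (θ z.2 * a) (psh ℤ σU γ))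
  have all : ∀ x : (Reg × G) →₀ ℤ, psh ℤ J (ellC ℤ (D.ell σU σL h) x) -
      ellC ℤ (D.ell σU σL h) (x.mapDomain fun z => (ρ z.1, θ z.2 * a)) - L (d1A ℤ h x) ∈
        BC ℤ (p ⁻¹' O) 1 := by
    intro x
    induction x using Finsupp.induction_linear with
    | zero => simp
    | add x y hx hy =>
      convert add_mem hx hy using 1
      simp only [Finsupp.mapDomain_add, map_add]
      abel
    | single z n =>
      have h1 := Submodule.smul_mem _ n (DehnSym_gs hp (θ z.2) (key z.1))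
      convert h1 using 1
      simp only [Finsupp.mapDomain_single, ellC, d1A, L, Finsupp.linearCombination_single,
        map_smul, map_sub, map_add, one_smul, cond, DehnSym_cast, DehnSym_J hJ hθ, ← gs_mul,
        map_mul, mul_assoc, smul_sub, smul_add, smul_neg]
      abel
  intro x hx
  have := all x
  rwa [hx, map_zero, sub_zero] at this

end Pool.Agent.MP_bc14e1_gt

end

section

open Set Metric
open scoped Classical

namespace Pool.Agent.MP_bc14e1_gt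

section Aux

variable {Z X : Type} [TopologicalSpace Z] [TopologicalSpace X] (e : OpenPartialHomeomorph Z X)

theorem DehnPush_ctr {A : Set Z} {x : Z} (hA : A ⊆ e.source) (h : Ctr A x) :
    Ctr (e '' A) (e x) := by
  obtain ⟨hx, H, hc, hm, h0, h1⟩ := h
  have hs : ∀ y ∈ e '' A, e.symm y ∈ A := by
    rintro _ ⟨a, ha, rfl⟩
    rwa [e.left_inv (hA ha)]
  have hm' : MapsTo (fun p : ℝ × X => (p.1, e.symm p.2)) (Icc 0 1 ×ˢ (e '' A)) (Icc 0 1 ×ˢ A) :=
    fun p hp => ⟨hp.1, hs _ hp.2⟩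
  refine ⟨mem_image_of_mem _ hx, fun p => e (H (p.1, e.symm p.2)), ?_, ?_, ?_, ?_⟩
  · refine e.continuousOn.comp (hc.comp ?_ hm') fun p hp => hA (hm (hm' hp))
    refine continuousOn_fst.prodMk (e.continuousOn_symm.comp continuousOn_snd ?_)
    rintro ⟨t, _⟩ ⟨_, a, ha, rfl⟩
    exact e.map_source (hA ha)
  · exact fun p hp => mem_image_of_mem _ (hm (hm' hp))
  · rintro _ ⟨a, ha, rfl⟩
    simp only [e.left_inv (hA ha), h0 a ha]
  · intro y hy
    simp only [h1 _ (hs y hy)]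

theorem DehnPush_dj {A B : Set Z} (hA : A ⊆ e.source) (hB : B ⊆ e.source) (h : Disjoint A B) :
    Disjoint (e '' A) (e '' B) :=
  (disjoint_image_image fun a ha b hb hab =>
    disjoint_left.1 h ha (by rwa [e.injOn (hA ha) (hB hb) hab]))

theorem DehnPush_inter {A B : Set Z} (hA : A ⊆ e.source) (hB : B ⊆ e.source) :
    e '' A ∩ e '' B = e '' (A ∩ B) :=
  (e.injOn.image_inter hA hB).symm

/-- The image of a path. -/
noncomputable def DehnPush_path (γ : C(unitInterval, Z)) (h : ∀ t, γ t ∈ e.source) : C(unitInterval, X) :=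
  ⟨fun t => e (γ t), e.continuousOn.comp_continuous γ.continuous h⟩

variable {O : Set Z} {Reg Cr : Type} {reg : Cr → Fin 4 → Reg}

theorem DehnPush_up (D : DehnData O reg) : D.Up ⊆ O :=
  (subset_union_left.trans subset_union_left).trans D.cover.subset

theorem DehnPush_lo (D : DehnData O reg) : D.Lo ⊆ O :=
  (subset_union_right.trans subset_union_left).trans D.cover.subset

theorem DehnPush_B (D : DehnData O reg) (c : Cr) : D.B c ⊆ O :=
  ((subset_iUnion D.B c).trans subset_union_right).trans D.cover.subset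

theorem DehnPush_rg (D : DehnData O reg) (R : Reg) : D.Rg R ⊆ O :=
  ((subset_iUnion D.Rg R).trans (D.unR.subset.trans inter_subset_left)).trans (DehnPush_up D)

theorem DehnPush_U1 (D : DehnData O reg) (c : Cr) : D.U1 c ⊆ O :=
  (subset_union_left.trans ((D.un c).1.subset.trans inter_subset_left)).trans (DehnPush_B D c)

theorem DehnPush_U2 (D : DehnData O reg) (c : Cr) : D.U2 c ⊆ O :=
  (subset_union_right.trans ((D.un c).1.subset.trans inter_subset_left)).trans (DehnPush_B D c)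

theorem DehnPush_L1 (D : DehnData O reg) (c : Cr) : D.L1 c ⊆ O :=
  (subset_union_left.trans ((D.un c).2.subset.trans inter_subset_left)).trans (DehnPush_B D c)

theorem DehnPush_L2 (D : DehnData O reg) (c : Cr) : D.L2 c ⊆ O :=
  (subset_union_right.trans ((D.un c).2.subset.trans inter_subset_left)).trans (DehnPush_B D c)

/-- The image of the diagram under an open embedding. -/
noncomputable def DehnPush_data (D : DehnData O reg) (hO : O ⊆ e.source) : DehnData (e '' O) reg where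
  Up := e '' D.Up
  Lo := e '' D.Lo
  n := e D.n
  s := e D.s
  Rg R := e '' D.Rg R
  B c := e '' D.B c
  U1 c := e '' D.U1 c
  U2 c := e '' D.U2 c
  L1 c := e '' D.L1 c
  L2 c := e '' D.L2 c
  r R := e (D.r R)
  a R := DehnPush_path e (D.a R) fun t => hO (DehnPush_up D (D.am R t))
  b R := DehnPush_path e (D.b R) fun t => hO (DehnPush_lo D (D.bm R t))
  opU := e.isOpen_image_of_subset_source D.opU ((DehnPush_up D).trans hO)
  opL := e.isOpen_image_of_subset_source D.opL ((DehnPush_lo D).trans hO)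
  ctU := DehnPush_ctr e ((DehnPush_up D).trans hO) D.ctU
  ctL := DehnPush_ctr e ((DehnPush_lo D).trans hO) D.ctL
  opR R := e.isOpen_image_of_subset_source (D.opR R) ((DehnPush_rg D R).trans hO)
  pcR R := (D.pcR R).image' (e.continuousOn.mono ((DehnPush_rg D R).trans hO))
  djR R R' h := DehnPush_dj e ((DehnPush_rg D R).trans hO) ((DehnPush_rg D R').trans hO) (D.djR h)
  unR := by
    rw [← image_iUnion, D.unR,
      DehnPush_inter e ((DehnPush_up D).trans hO) ((DehnPush_lo D).trans hO)]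
  opB c := e.isOpen_image_of_subset_source (D.opB c) ((DehnPush_B D c).trans hO)
  ctB c := let ⟨x, hx⟩ := D.ctB c; ⟨e x, DehnPush_ctr e ((DehnPush_B D c).trans hO) hx⟩
  djB c c' h := DehnPush_dj e ((DehnPush_B D c).trans hO) ((DehnPush_B D c').trans hO) (D.djB h)
  cover := by rw [← image_iUnion, ← image_union, ← image_union, D.cover]
  op c := ⟨e.isOpen_image_of_subset_source (D.op c).1 ((DehnPush_U1 D c).trans hO),
    e.isOpen_image_of_subset_source (D.op c).2.1 ((DehnPush_U2 D c).trans hO),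
    e.isOpen_image_of_subset_source (D.op c).2.2.1 ((DehnPush_L1 D c).trans hO),
    e.isOpen_image_of_subset_source (D.op c).2.2.2 ((DehnPush_L2 D c).trans hO)⟩
  pc c := ⟨(D.pc c).1.image' (e.continuousOn.mono ((DehnPush_U1 D c).trans hO)),
    (D.pc c).2.1.image' (e.continuousOn.mono ((DehnPush_U2 D c).trans hO)),
    (D.pc c).2.2.1.image' (e.continuousOn.mono ((DehnPush_L1 D c).trans hO)),
    (D.pc c).2.2.2.image' (e.continuousOn.mono ((DehnPush_L2 D c).trans hO))⟩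
  dj c := ⟨DehnPush_dj e ((DehnPush_U1 D c).trans hO) ((DehnPush_U2 D c).trans hO) (D.dj c).1,
    DehnPush_dj e ((DehnPush_L1 D c).trans hO) ((DehnPush_L2 D c).trans hO) (D.dj c).2⟩
  un c := by
    rw [← image_union, ← image_union, (D.un c).1, (D.un c).2,
      DehnPush_inter e ((DehnPush_B D c).trans hO) ((DehnPush_up D).trans hO),
      DehnPush_inter e ((DehnPush_B D c).trans hO) ((DehnPush_lo D).trans hO)]
    exact ⟨rfl, rfl⟩
  ne c := ⟨((D.ne c).1.image e).mono (image_inter_subset _ _ _),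
    ((D.ne c).2.1.image e).mono (image_inter_subset _ _ _),
    ((D.ne c).2.2.1.image e).mono (image_inter_subset _ _ _),
    ((D.ne c).2.2.2.image e).mono (image_inter_subset _ _ _)⟩
  sub c := by
    rw [DehnPush_inter e ((DehnPush_U1 D c).trans hO) ((DehnPush_L1 D c).trans hO),
      DehnPush_inter e ((DehnPush_U1 D c).trans hO) ((DehnPush_L2 D c).trans hO),
      DehnPush_inter e ((DehnPush_U2 D c).trans hO) ((DehnPush_L2 D c).trans hO),
      DehnPush_inter e ((DehnPush_U2 D c).trans hO) ((DehnPush_L1 D c).trans hO)]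
    exact ⟨image_mono (D.sub c).1, image_mono (D.sub c).2.1, image_mono (D.sub c).2.2.1,
      image_mono (D.sub c).2.2.2⟩
  rm R := mem_image_of_mem _ (D.rm R)
  a0 R := congrArg e (D.a0 R)
  a1 R := congrArg e (D.a1 R)
  am R t := mem_image_of_mem _ (D.am R t)
  b0 R := congrArg e (D.b0 R)
  b1 R := congrArg e (D.b1 R)
  bm R t := mem_image_of_mem _ (D.bm R t)

theorem DehnPush_sym (D : DehnData O reg) (hO : O ⊆ e.source) {f : Z → Z} {g : X → X}
    {ρ : Reg → Reg} (hs : D.Sym f ρ) (hg : ∀ x ∈ O, g (e x) = e (f x)) :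
    (DehnPush_data e D hO).Sym g ρ where
  up := by
    rintro _ ⟨x, hx, rfl⟩
    exact ⟨f x, hs.up hx, (hg x (DehnPush_up D hx)).symm⟩
  lo := by
    rintro _ ⟨x, hx, rfl⟩
    exact ⟨f x, hs.lo hx, (hg x (DehnPush_lo D hx)).symm⟩
  rg R := by
    rintro _ ⟨x, hx, rfl⟩
    exact ⟨f x, hs.rg R hx, (hg x (DehnPush_rg D R hx)).symm⟩

end Aux

theorem dehnPush_stmt : DehnPushStmt := by
  intro κ K ι Γ Reg Cr reg ρ D hs
  have hO : shellO K ⊆ Γ.emb.source := fun x hx => by rw [Γ.src]; exact hx.1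
  have him : Γ.emb '' shellO K = Γ.h ⁻¹' Ioo (-1) 1 ∩ Γ.Fᶜ := by
    ext y
    constructor
    · rintro ⟨x, hx, rfl⟩
      refine ⟨?_, fun hF => hx.2 ((Γ.F_emb x hx.1).1 hF)⟩
      rw [← Γ.tgt]
      exact Γ.emb.map_source (hO hx)
    · rintro ⟨h1, h2⟩
      rw [← Γ.tgt] at h1
      have hx : Γ.emb.symm y ∈ shell := by rw [← Γ.src]; exact Γ.emb.map_target h1
      refine ⟨Γ.emb.symm y, ⟨hx, fun hK => h2 ?_⟩, Γ.emb.right_inv h1⟩
      have := (Γ.F_emb _ hx).2 hK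
      rwa [Γ.emb.right_inv h1] at this
  rw [← him]
  exact ⟨DehnPush_data Γ.emb D hO, DehnPush_sym Γ.emb D hO hs fun x hx => Γ.I_emb x hx.1⟩

end Pool.Agent.MP_bc14e1_gt

end

section

open Set Metric
open scoped Classical Topology

namespace Pool.Agent.MP_bc14e1_gt

/-- From a homotopy of the base to a chain deformation of the cover. -/
theorem Retr_of_htpy (B : Bas1) (κ : Kit) {X G Y : Type} [TopologicalSpace X] [Group G]
    [TopologicalSpace Y] [MulAction G Y] [ContinuousConstSMul G Y] {Z : Set X} {p : Y → X} (s : G)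
    (hp : GCov G Z p) (h : X → ℝ) (hf : ∀ y, (h ∘ p) (s • y) = (h ∘ p) y) {J' J : Set ℝ}
    (hJ : J ⊆ J') (H : ℝ × X → X) (hc : ContinuousOn H (Icc 0 1 ×ˢ (h ⁻¹' J' ∩ Z)))
    (hZ : MapsTo H (Icc 0 1 ×ˢ (h ⁻¹' J' ∩ Z)) Z) (h0 : ∀ x ∈ h ⁻¹' J' ∩ Z, H (0, x) = x)
    (h1 : ∀ x, h x ∈ J' → h (H (1, x)) ∈ J)
    (h2 : ∀ θ ∈ Icc (0 : ℝ) 1, ∀ x, h x ∈ J' → h (H (θ, x)) ∈ J')
    (h3 : ∀ θ ∈ Icc (0 : ℝ) 1, ∀ x, h x ∈ J → h (H (θ, x)) ∈ J) :
    Retr (dTw ℂ Y s) (lvTw ℂ s (h ∘ p) hf) J' J := by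
  obtain ⟨H', c', z', p', e'⟩ := B.hl G X Y Z p hp (h ⁻¹' J') H hc hZ h0
  set A : Set Y := p ⁻¹' (h ⁻¹' J') with hA
  have hinv : Inv s A := fun y => by
    simp only [hA, mem_preimage]
    rw [show h (p (s • y)) = h (p y) from hf y]
  have c1 : ContinuousOn (fun y => H' (1, y)) A :=
    c'.comp (by fun_prop) fun y hy => ⟨⟨zero_le_one, le_rfl⟩, hy⟩
  have eH : ∀ c, (-(hop κ ℂ H') ∘ₗ prj ℂ A) (gs ℂ Y s c) =
      gs ℂ Y s ((-(hop κ ℂ H') ∘ₗ prj ℂ A) c) := by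
    intro c
    simp only [LinearMap.comp_apply, LinearMap.neg_apply, map_neg]
    rw [prj_gs s hinv, gs, hop_psh κ H' (continuous_const_smul s).continuousOn (prj_mem A c),
      psh_hop κ _ c' (prj_mem A c)]
    have : (H' ∘ Prod.map id fun x => s • x) = (fun y => s • y) ∘ H' :=
      funext fun z => e' s z.1 z.2
    rw [this]
  have er : ∀ c, (psh ℂ (fun y => H' (1, y)) ∘ₗ prj ℂ A) (gs ℂ Y s c) =
      gs ℂ Y s ((psh ℂ (fun y => H' (1, y)) ∘ₗ prj ℂ A) c) := by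
    intro c
    simp only [LinearMap.comp_apply]
    rw [prj_gs s hinv, gs, psh_psh' _ (continuous_const_smul s), psh_psh _ c1 (prj_mem A c)]
    congr 2
    funext y
    exact e' s 1 y
  refine ⟨twMap _ er, twMap _ eH, fun k => ⟨fun c hc => ?_, fun c hc => ?_⟩⟩
  · have hc1 : (c : Tot ℂ Y) ∈ CH ℂ A := hc.1
    have hc2 : (c : Tot ℂ Y) ∈ DG ℂ Y k := hc.2
    refine ⟨⟨?_, ?_⟩, ⟨?_, ?_⟩, ?_⟩
    · change psh ℂ (fun y => H' (1, y)) (prj ℂ A c) ∈ CH ℂ _
      refine psh_mem_CH _ (fun y hy => ?_) (prj_mem A c)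
      change h (p (H' (1, y))) ∈ J
      rw [p' 1 ⟨zero_le_one, le_rfl⟩ y hy]
      exact h1 _ hy
    · change psh ℂ (fun y => H' (1, y)) (prj ℂ A c) ∈ DG ℂ Y k
      exact psh_mem_DG _ (prj_mem_DG A hc2)
    · change -(hop κ ℂ H' (prj ℂ A c)) ∈ CH ℂ _
      refine neg_mem (hop_mem_CH κ _ (fun z hz => ?_) (prj_mem A c))
      change h (p (H' (z.1, z.2))) ∈ J'
      rw [p' z.1 hz.1 z.2 hz.2]
      exact h2 _ hz.1 _ hz.2
    · change -(hop κ ℂ H' (prj ℂ A c)) ∈ DG ℂ Y (k + 1)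
      exact neg_mem (hop_mem_DG κ _ (prj_mem_DG A hc2))
    · have key : ∀ c : Tot ℂ Y, c ∈ CH ℂ A →
          dT ℂ Y (-(hop κ ℂ H' (prj ℂ A c))) + -(hop κ ℂ H' (prj ℂ A (dT ℂ Y c))) =
            c - psh ℂ (fun y => H' (1, y)) (prj ℂ A c) := by
        intro c hc1
        rw [prj_of_mem hc1, prj_of_mem (dT_mem_CH hc1), map_neg, ← neg_add, dT_hop κ c' hc1,
          psh_of_eqOn_id (f := fun y => H' (0, y)) (fun y _ => z' y) hc1, neg_sub]
      exact key c hc1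
  · have hc1 : (c : Tot ℂ Y) ∈ CH ℂ ((h ∘ p) ⁻¹' J) := hc.1
    have hc2 : (c : Tot ℂ Y) ∈ DG ℂ Y k := hc.2
    refine ⟨?_, ?_⟩
    · change -(hop κ ℂ H' (prj ℂ A c)) ∈ CH ℂ _
      refine neg_mem (hop_mem_CH κ _ (fun z hz => ?_) (prj_mem_CH A hc1))
      change h (p (H' (z.1, z.2))) ∈ J
      rw [p' z.1 hz.1 z.2 (hJ hz.2)]
      exact h3 _ hz.1 _ hz.2
    · change -(hop κ ℂ H' (prj ℂ A c)) ∈ DG ℂ Y (k + 1)
      exact neg_mem (hop_mem_DG κ _ (prj_mem_DG A hc2))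

section Level

variable {κ : Kit} {K : Set (E 4)} {ι : E 4 ≃ₗᵢ[ℝ] E 4} (Γ : Geo κ K ι)

/-- The new level. -/
def Retr_lev (m : ℝ → ℝ) (θ t : ℝ) : ℝ := (1 - θ) * t + θ * m t

/-- Rescaling of a vector to the level `l`. -/
noncomputable def Retr_sc (l : ℝ) (v : E 4) : E 4 := ((3 - l) / 4 / ‖v‖) • v

/-- The homotopy that changes the level. -/
noncomputable def Retr_H (m : ℝ → ℝ) (z : ℝ × Γ.X) : Γ.X :=
  if Γ.h z.2 ∈ Ioo (-1 : ℝ) 1 then Γ.emb (Retr_sc (Retr_lev m z.1 (Γ.h z.2)) (Γ.emb.symm z.2))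
  else z.2

theorem Retr_norm {l : ℝ} (hl : l < 3) {v : E 4} (hv : v ∈ shell) :
    ‖Retr_sc l v‖ = (3 - l) / 4 := by
  have h0 : 0 < ‖v‖ := by linarith [hv.1]
  rw [Retr_sc, norm_smul, Real.norm_eq_abs, abs_of_pos (by apply div_pos <;> linarith)]
  field_simp

theorem Retr_shell {l : ℝ} (hl : l ∈ Ioo (-1 : ℝ) 1) {v : E 4} (hv : v ∈ shell) :
    Retr_sc l v ∈ shell := by
  have := Retr_norm (l := l) (by linarith [hl.2]) hv
  constructor <;> rw [this] <;> linarith [hl.1, hl.2]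

theorem Retr_dir {l : ℝ} (hl : l < 3) {v : E 4} (hv : v ∈ shell) :
    ‖Retr_sc l v‖⁻¹ • Retr_sc l v = ‖v‖⁻¹ • v := by
  have h0 : 0 < ‖v‖ := by linarith [hv.1]
  have h1 : (3 - l) ≠ 0 := by linarith
  rw [Retr_norm hl hv, Retr_sc, smul_smul]
  congr 1
  field_simp

theorem Retr_symm {x : Γ.X} (hx : Γ.h x ∈ Ioo (-1 : ℝ) 1) :
    Γ.emb.symm x ∈ shell ∧ Γ.emb (Γ.emb.symm x) = x := by
  have ht : x ∈ Γ.emb.target := by rw [Γ.tgt]; exact hx
  exact ⟨Γ.src ▸ Γ.emb.map_target ht, Γ.emb.right_inv ht⟩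

theorem Retr_fix {m : ℝ → ℝ} {θ : ℝ} {x : Γ.X} (hx : Retr_lev m θ (Γ.h x) = Γ.h x) :
    Retr_H Γ m (θ, x) = x := by
  unfold Retr_H
  split_ifs with h
  · obtain ⟨h1, h2⟩ := Retr_symm Γ h
    have h0 : 0 < ‖Γ.emb.symm x‖ := by linarith [h1.1]
    have h3 := Γ.h_emb _ h1
    rw [h2] at h3
    have : Retr_sc (Γ.h x) (Γ.emb.symm x) = Γ.emb.symm x := by
      rw [Retr_sc, h3, show (3 - (3 - 4 * ‖Γ.emb.symm x‖)) / 4 / ‖Γ.emb.symm x‖ = 1 by
        field_simp; ring, one_smul]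
    simp only [hx, this, h2]
  · rfl

theorem Retr_conv {J : Set ℝ} (hJ : Convex ℝ J) {m : ℝ → ℝ} {θ t : ℝ} (hθ : θ ∈ Icc (0 : ℝ) 1)
    (ht : t ∈ J) (hm : m t ∈ J) : Retr_lev m θ t ∈ J :=
  hJ ht hm (sub_nonneg.2 hθ.2) hθ.1 (by ring)

theorem Retr_in {m : ℝ → ℝ} {θ : ℝ} {x : Γ.X} (hx : Γ.h x ∈ Ioo (-1 : ℝ) 1)
    (hl : Retr_lev m θ (Γ.h x) ∈ Ioo (-1 : ℝ) 1) :
    Γ.h (Retr_H Γ m (θ, x)) = Retr_lev m θ (Γ.h x) ∧ (Retr_H Γ m (θ, x) ∈ Γ.F ↔ x ∈ Γ.F) := by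
  obtain ⟨h1, h2⟩ := Retr_symm Γ hx
  have h3 : Retr_lev m θ (Γ.h x) < 3 := by linarith [hl.2]
  have e : Retr_H Γ m (θ, x) = Γ.emb (Retr_sc (Retr_lev m θ (Γ.h x)) (Γ.emb.symm x)) :=
    if_pos hx
  rw [e]
  refine ⟨?_, ?_⟩
  · rw [Γ.h_emb _ (Retr_shell hl h1), Retr_norm h3 h1]; ring
  · rw [Γ.F_emb _ (Retr_shell hl h1), Retr_dir h3 h1, ← Γ.F_emb _ h1, h2]

theorem Retr_cont {m : ℝ → ℝ} (hm : Continuous m) :
    ContinuousOn (Retr_H Γ m)
      (Icc 0 1 ×ˢ {x | Γ.h x ∈ Ioo (-1 : ℝ) 1 ∧ m (Γ.h x) ∈ Ioo (-1 : ℝ) 1}) := by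
  have hc := Γ.hc
  have c1 : ContinuousOn (fun z : ℝ × Γ.X => Γ.emb.symm z.2)
      (Icc 0 1 ×ˢ {x | Γ.h x ∈ Ioo (-1 : ℝ) 1 ∧ m (Γ.h x) ∈ Ioo (-1 : ℝ) 1}) :=
    Γ.emb.continuousOn_symm.comp continuous_snd.continuousOn fun z hz => by
      rw [Γ.tgt]; exact hz.2.1
  have c2 : Continuous fun z : ℝ × Γ.X => (3 - Retr_lev m z.1 (Γ.h z.2)) / 4 := by
    unfold Retr_lev; fun_prop
  have c3 : ContinuousOn (fun z : ℝ × Γ.X => Retr_sc (Retr_lev m z.1 (Γ.h z.2)) (Γ.emb.symm z.2))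
      (Icc 0 1 ×ˢ {x | Γ.h x ∈ Ioo (-1 : ℝ) 1 ∧ m (Γ.h x) ∈ Ioo (-1 : ℝ) 1}) := by
    refine (c2.continuousOn.div c1.norm fun z hz => ?_).smul c1
    have := (Retr_symm Γ hz.2.1).1.1
    linarith
  refine (Γ.emb.continuousOn.comp c3 fun z hz => ?_).congr fun z hz => if_pos hz.2.1
  rw [Γ.src]
  exact Retr_shell (Retr_conv (convex_Ioo _ _) hz.1 hz.2.1 hz.2.2) (Retr_symm Γ hz.2.1).1

theorem Retr_gen (B : Bas1) {G Y : Type} [Group G] [TopologicalSpace Y] [MulAction G Y]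
    [ContinuousConstSMul G Y] {p : Y → Γ.X} (s : G) (hp : GCov G Γ.Fᶜ p)
    (hf : ∀ y, (Γ.h ∘ p) (s • y) = (Γ.h ∘ p) y) {J' J : Set ℝ} (hJ : J ⊆ J') (cJ : Convex ℝ J)
    (cJ' : Convex ℝ J') {m : ℝ → ℝ} (hm : Continuous m) (m1 : ∀ t ∈ J', m t ∈ J)
    (m2 : ∀ t ∈ J', t ∈ Ioo (-1 : ℝ) 1 → m t ∈ Ioo (-1 : ℝ) 1)
    (m3 : ∀ t ∈ J', t ∉ Ioo (-1 : ℝ) 1 → ∀ᶠ u in 𝓝 t, m u = u) :
    Retr (dTw ℂ Y s) (lvTw ℂ s (Γ.h ∘ p) hf) J' J := by
  have key : ∀ θ ∈ Icc (0 : ℝ) 1, ∀ x, Γ.h x ∈ J' →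
      Γ.h (Retr_H Γ m (θ, x)) = Retr_lev m θ (Γ.h x) ∧ (Retr_H Γ m (θ, x) ∈ Γ.F ↔ x ∈ Γ.F) := by
    intro θ hθ x hx
    by_cases h : Γ.h x ∈ Ioo (-1 : ℝ) 1
    · exact Retr_in Γ h (Retr_conv (convex_Ioo _ _) hθ h (m2 _ hx h))
    · have e : Retr_lev m θ (Γ.h x) = Γ.h x := by
        rw [Retr_lev, (m3 _ hx h).self_of_nhds]; ring
      rw [Retr_fix Γ e, e]
      exact ⟨rfl, Iff.rfl⟩
  refine Retr_of_htpy B κ s hp Γ.h hf hJ (Retr_H Γ m) (fun z hz => ?_) (fun z hz => ?_)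
    (fun x _ => Retr_fix Γ (by rw [Retr_lev]; ring)) (fun x hx => ?_) (fun θ hθ x hx => ?_)
    (fun θ hθ x hx => ?_)
  · by_cases h : Γ.h z.2 ∈ Ioo (-1 : ℝ) 1
    · refine (Retr_cont Γ hm z ⟨hz.1, h, m2 _ hz.2.1 h⟩).mono_of_mem_nhdsWithin ?_
      have ho : IsOpen ((fun w : ℝ × Γ.X => Γ.h w.2) ⁻¹' Ioo (-1 : ℝ) 1) :=
        isOpen_Ioo.preimage (Γ.hc.comp continuous_snd)
      filter_upwards [self_mem_nhdsWithin, mem_nhdsWithin_of_mem_nhds (ho.mem_nhds h)] with w h1 h2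
      exact ⟨h1.1, h2, m2 _ h1.2.1 h2⟩
    · have hcz : ContinuousAt (fun w : ℝ × Γ.X => Γ.h w.2) z :=
        (Γ.hc.comp continuous_snd).continuousAt
      have ev : Retr_H Γ m =ᶠ[𝓝 z] Prod.snd := by
        filter_upwards [hcz.eventually (m3 _ hz.2.1 h)] with w hw
        exact Retr_fix Γ (θ := w.1) (x := w.2) (by rw [Retr_lev, hw]; ring)
      exact (continuousAt_snd.congr ev.symm).continuousWithinAt
  · exact fun hF => hz.2.2 ((key z.1 hz.1 z.2 hz.2.1).2.1 hF)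
  · rw [(key 1 ⟨zero_le_one, le_rfl⟩ x hx).1, Retr_lev]
    simpa using m1 _ hx
  · rw [(key θ hθ x hx).1]
    exact Retr_conv cJ' hθ hx (hJ (m1 _ hx))
  · rw [(key θ hθ x (hJ hx)).1]
    exact Retr_conv cJ hθ hx (m1 _ (hJ hx))

end Level

theorem retr_stmt (B : Bas1) : RetrStmt := by
  intro κ K ι Γ G Y _ _ _ _ p s hp hf
  refine ⟨fun a' a b b' h1 h2 h3 h4 h5 => ?_, fun b b' h1 h2 h3 => ?_⟩
  · refine Retr_gen Γ B s hp hf (Ioo_subset_Ioo h2 h4) (convex_Ioo _ _) (convex_Ioo _ _)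
      (m := fun _ => (a + b) / 2) continuous_const (fun _ _ => ⟨by linarith, by linarith⟩)
      (fun _ _ _ => ⟨by linarith, by linarith⟩) fun t ht hn => ?_
    exact (hn ⟨by linarith [ht.1], by linarith [ht.2]⟩).elim
  · refine Retr_gen Γ B s hp hf (Iio_subset_Iio h2) (convex_Iio _) (convex_Iio _)
      (m := fun t => min t ((b - 1) / 2)) (by fun_prop)
      (fun t _ => mem_Iio.2 (lt_of_le_of_lt (min_le_right _ _) (by linarith)))
      (fun t _ ht => ⟨lt_min ht.1 (by linarith), lt_of_le_of_lt (min_le_left _ _) ht.2⟩)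
      fun t ht hn => ?_
    have h4 : t < (b - 1) / 2 := by
      have h5 : t < b' := ht
      by_contra h6
      exact hn ⟨by linarith, by linarith⟩
    filter_upwards [Iio_mem_nhds h4] with u hu
    exact min_eq_left (le_of_lt hu)

end Pool.Agent.MP_bc14e1_gt

end

section

open Set Metric
open scoped Classical

namespace Pool.Agent.MP_bc14e1_gt

theorem pdi_stmt (B : Bas1) (hFrob : FrobStmt) (hPP : PPStmt) (hPD2 : PD2Stmt) : PDIStmt := by
  intro X G Y _ _ _ _ _ _ _ _ o F p s β hT hP ζ hζ n O K hO hK hKO u hu hdu hn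
  obtain ⟨ρ, hρ⟩ := (hFrob ζ).2 n
  obtain ⟨B', hB, hpp⟩ := hPP X G Y o F p s β hT hP _ ρ hρ
  have h := (hPD2 X G Y o F p s β hT hP ζ hζ n ρ hρ B' hB hpp O hO).1
  by_contra hc
  refine hn (h (p ⁻¹' K) ⟨K, hK, hKO, rfl⟩ u hu hdu fun b hb => ?_)
  have hd : piL ζ ^ n ∣ lamF s β b u := by
    by_contra hd
    exact hc ⟨b, hb, hd⟩
  obtain ⟨a, ha⟩ := hd
  rw [hB, ha, hρ.kill]

end Pool.Agent.MP_bc14e1_gt

end

section

open Set Metric
open scoped Classical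

namespace Pool.Agent.MP_bc14e1_gt

theorem flip_stmt : FlipStmt := by
  intro κ X G Y _ _ _ _ o F n φ p t l hX hP
  have hv : ∀ c : Tot ℤ Y, val0 ℤ (fun y => -l y) c = -val0 ℤ l c := by
    intro c
    induction c using Finsupp.induction_linear with
    | zero => simp
    | add a b ha hb => rw [map_add, map_add, ha, hb, neg_add]
    | single σ a =>
      simp only [val0, Finsupp.linearCombination_single]
      split_ifs <;> simp
  refine ⟨⟨hX.conn, fun c hc => ?_, fun k hk c hc => ?_, ?_, fun e z w h γ hγ => ?_, hX.dep,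
    hX.cls⟩, ⟨hP.tc.flat, hP.tc.cov, fun g => (Commute.inv_right (hP.tc.cen g) :), fun n h => ?_,
      ?_, ?_⟩, fun g => ?_, fun y => ?_, fun c => ?_, hP.conn⟩
  · rw [LinearMap.neg_apply, hX.coc c hc, neg_zero]
  · rw [LinearMap.neg_apply, hX.dg k hk c hc, neg_zero]
  · obtain ⟨μ, h1, h2, h3⟩ := hX.gen
    refine ⟨-μ, neg_mem h1, by rw [LinearMap.neg_apply, map_neg, neg_neg, h2], fun z hz => ?_⟩
    rw [LinearMap.neg_apply, neg_smul_neg]
    exact h3 z hz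
  · rw [LinearMap.neg_apply, neg_eq_iff_eq_neg, neg_inj]
    exact (hX.rot e z w h γ hγ).symm
  · exact hP.tc.inf n (by rwa [inv_zpow, inv_eq_one] at h)
  · rw [Subgroup.zpowers_inv]
    exact hP.tc.fin
  · obtain ⟨m, hm⟩ := hP.tc.rot
    refine ⟨m, fun e z w h γ hγ => (hm e z w h γ hγ).imp fun g hg => ⟨hg.1, ?_⟩⟩
    rw [inv_inv]
    exact hg.2.symm
  · obtain ⟨n, rfl⟩ := hP.gen g
    exact ⟨-n, by rw [inv_zpow', neg_neg]⟩
  · have := hP.lev (t⁻¹ • y)
    rw [smul_inv_smul] at this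
    omega
  · rw [LinearMap.neg_apply, hv, hP.hol]

end Pool.Agent.MP_bc14e1_gt

end

section

open Set Metric
open scoped Classical

namespace Pool.Agent.MP_bc14e1_gt

theorem Norm1_inj {G : Type} [Group G] {t : G} (ht : ∀ n : ℤ, t ^ n = 1 → n = 0) {a b : ℤ}
    (h : t ^ a = t ^ b) : a = b :=
  sub_eq_zero.1 (ht _ (by rw [zpow_sub, h, mul_inv_cancel]))

/-- A small meridian inside an open set that meets the surface. -/
theorem Norm1_mer {X : Type} [TopologicalSpace X] {F N : Set X} (hF : Flat F) (hN : IsOpen N)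
    (h : (F ∩ N).Nonempty) : ∃ e z w, Mer F e z w ∧ Continuous (rotL e z w) ∧
      ∀ θ, rotL e z w θ ∈ N ∩ Fᶜ := by
  obtain ⟨x, hxF, hxN⟩ := h
  obtain ⟨e, he, hx⟩ := hF.ch x hxF
  have h0 : ((e x).1, (0 : ℂ)) = e x := Prod.ext rfl ((he x hx).1 hxF).symm
  have h1 : (fun w : ℂ => ((e x).1, w)) ⁻¹' (e.target ∩ e.symm ⁻¹' N) ∈ nhds (0 : ℂ) := by
    refine ((e.isOpen_inter_preimage_symm hN).preimage (by fun_prop)).mem_nhds ?_
    rw [mem_preimage, h0]
    exact ⟨e.map_source hx, by rwa [mem_preimage, e.left_inv hx]⟩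
  obtain ⟨ε, hε, h2⟩ := nhds_basis_closedBall.mem_iff.1 h1
  have hn : ‖(ε : ℂ)‖ = ε := by rw [Complex.norm_real, Real.norm_of_nonneg hε.le]
  have h3 : ∀ w' : ℂ, ‖w'‖ ≤ ‖(ε : ℂ)‖ → ((e x).1, w') ∈ e.target ∩ e.symm ⁻¹' N :=
    fun w' hw => h2 (mem_closedBall_zero_iff.2 (hn ▸ hw))
  have hw0 : (ε : ℂ) ≠ 0 := Complex.ofReal_ne_zero.2 hε.ne'
  have h4 : ∀ θ : ℝ, ((e x).1, Complex.exp (2 * Real.pi * Complex.I * θ) * ε) ∈
      e.target ∩ e.symm ⁻¹' N := by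
    intro θ
    refine h3 _ (le_of_eq ?_)
    have : (2 * Real.pi * Complex.I * θ : ℂ) = ((2 * Real.pi * θ : ℝ) : ℂ) * Complex.I := by
      push_cast
      ring
    rw [norm_mul, this, Complex.norm_exp_ofReal_mul_I, one_mul]
  refine ⟨e, (e x).1, ε, ⟨he, hw0, fun w' hw => (h3 w' hw).1⟩,
    e.continuousOn_symm.comp_continuous (by fun_prop) fun θ => (h4 θ).1,
    fun θ => ⟨(h4 θ).2, fun hθ => ?_⟩⟩
  have h5 := (he _ (e.map_target (h4 θ).1)).1 hθ
  rw [e.right_inv (h4 θ).1] at h5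
  exact mul_ne_zero (Complex.exp_ne_zero _) hw0 h5

/-- A lifted meridian joins a point to its translate by a generator. -/
theorem Norm1_join (B : Bas1) {X G Y : Type} [TopologicalSpace X] [Group G] [TopologicalSpace Y]
    [MulAction G Y] [ContinuousConstSMul G Y] {F N : Set X} {p : Y → X} {t : G} (hT : TC F p t)
    (hg : ∀ g : G, ∃ n : ℤ, g = t ^ n) (hN : IsOpen N) (h : (F ∩ N).Nonempty) :
    ∃ (y : Y) (k : ℤ), IsUnit k ∧ JoinedIn (p ⁻¹' (N ∩ Fᶜ)) y (t ^ k • y) := by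
  obtain ⟨e, z, w, hm, hc, hO⟩ := Norm1_mer hT.flat hN h
  obtain ⟨y, hy⟩ := (B.cov G X Y _ p hT.cov).2.2.2.1 _ (hO 0).2
  obtain ⟨H, H1, -, H3, -⟩ := B.hl G X Y _ p hT.cov {rotL e z w 0} (fun q => rotL e z w q.1)
    (hc.comp continuous_fst).continuousOn (fun q _ => (hO q.1).2) fun x hx => hx.1.symm
  let γ : C(unitInterval, Y) := ⟨fun θ => H (θ, y),
    H1.comp_continuous (by fun_prop) fun θ => ⟨θ.2, hy⟩⟩
  have hγ : ∀ θ : unitInterval, p (γ θ) = rotL e z w θ := fun θ => H3 θ θ.2 y hy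
  obtain ⟨m, hm'⟩ := hT.rot
  obtain ⟨g, h1, h2⟩ := hm' e z w hm γ hγ
  obtain ⟨k, rfl⟩ := hg g
  refine ⟨γ 0, k, ?_, ⟨γ, rfl, h1⟩, fun θ => ?_⟩
  · rw [← zpow_natCast, ← zpow_mul] at h2
    rcases h2 with h2 | h2
    · exact IsUnit.of_mul_eq_one _ (Norm1_inj hT.inf (h2.trans (zpow_one t).symm))
    · refine IsUnit.of_mul_eq_one (-(m : ℤ)) ?_
      rw [mul_neg, Norm1_inj hT.inf (h2.trans (zpow_neg_one t).symm), neg_neg]
  · change p (γ θ) ∈ N ∩ Fᶜ
    rw [hγ]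
    exact hO θ

theorem Norm1_dvd {G Reg : Type} [Group G] {t : G} (ht : ∀ n : ℤ, t ^ n = 1 → n = 0)
    (hg : ∀ g : G, ∃ n : ℤ, g = t ^ n) (n gap : Reg → ℤ) {a b k : ℤ}
    (hn : ∀ r, n r = a + b * gap r)
    (h : Finsupp.single (false, t ^ k) 1 - Finsupp.single (false, 1) 1 ∈
      LinearMap.range (d1A ℤ fun r => t ^ n r)) : b ∣ k := by
  choose lg hlg using hg
  have h1 : ∀ j, lg (t ^ j) = j := fun j => Norm1_inj ht (hlg _).symm
  let χ : Bool × G → ℤ := fun z => if b ∣ lg z.2 - cond z.1 a 0 then 1 else 0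
  have h2 : ∀ x, Finsupp.linearCombination ℤ χ (d1A ℤ (fun r => t ^ n r) x) = 0 := by
    intro x
    induction x using Finsupp.induction_linear with
    | zero => simp
    | add u v hu hv => rw [map_add, map_add, hu, hv, add_zero]
    | single z c =>
      have e : lg (z.2 * t ^ n z.1) - a = lg z.2 - 0 + b * gap z.1 := by
        conv_lhs => rw [hlg z.2, ← zpow_add, h1, hn]
        ring
      simp only [d1A, Finsupp.linearCombination_single, map_smul, map_sub, one_smul, χ, cond, e,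
        dvd_add_left (dvd_mul_right b (gap z.1)), sub_self, smul_zero]
  obtain ⟨x, hx⟩ := h
  have h3 := h2 x
  have h4 : lg 1 = 0 := by simpa using h1 0
  rw [hx] at h3
  simp only [map_sub, Finsupp.linearCombination_single, one_smul, χ, cond, h1, h4, sub_zero,
    dvd_zero, if_true] at h3
  by_contra hn'
  rw [if_neg hn'] at h3
  exact absurd h3 (by norm_num)

theorem norm1_stmt (B : Bas1) (hDehn : DehnStmt) : Norm1Stmt := by
  intro X G Y Reg Cr _ _ _ _ _ _ _ F N φ p t l reg ρ D C P hN hF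
  have cov := P.tc.cov
  have hU : D.Up ⊆ Fᶜ := fun x hx => (D.cover.subset (.inl (.inl hx))).2
  have hL : D.Lo ⊆ Fᶜ := fun x hx => (D.cover.subset (.inl (.inr hx))).2
  obtain ⟨yU, hyU⟩ := (B.cov G X Y _ p cov).2.2.2.1 _ (hU D.ctU.1)
  obtain ⟨yL, hyL⟩ := (B.cov G X Y _ p cov).2.2.2.1 _ (hL D.ctL.1)
  obtain ⟨σU, u1, u2, -⟩ := B.sec G X Y _ p cov _ _ hU D.ctU yU (hyU ▸ D.ctU.1)
  obtain ⟨σL, l1, l2, -⟩ := B.sec G X Y _ p cov _ _ hL D.ctL yL (hyL ▸ D.ctL.1)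
  have hn : ∀ R, ∃ n : ℤ, σU (D.r R) = t ^ n • σL (D.r R) := by
    intro R
    have hr : D.r R ∈ D.Up ∩ D.Lo := D.unR.subset (mem_iUnion.2 ⟨R, D.rm R⟩)
    obtain ⟨g, hg⟩ := cov.trans _ _ ((l2 _ hr.2).trans (u2 _ hr.1).symm)
    obtain ⟨n, rfl⟩ := P.gen g
    exact ⟨n, hg⟩
  choose n hn using hn
  have : Nonempty Reg := ⟨C.R0⟩
  have DM := hDehn G X Y Reg Cr _ _ p reg D σU σL (fun R => t ^ n R) cov inter_subset_right
    ⟨u1, l1, u2, l2, hn⟩
  obtain ⟨a, b, hab⟩ := C.gapU n fun c => Norm1_inj P.tc.inf (by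
    rw [zpow_add, zpow_sub]
    exact DM.hol c)
  have tr : ∀ (g : G) {y y' : Y}, JoinedIn (p ⁻¹' (N ∩ Fᶜ)) y y' →
      JoinedIn (p ⁻¹' (N ∩ Fᶜ)) (g • y) (g • y') := by
    intro g y y' h
    refine (h.map (continuous_const_smul g)).mono ?_
    rintro _ ⟨u, hu, rfl⟩
    rwa [mem_preimage, cov.inv]
  obtain ⟨y, k, hk, hj⟩ := Norm1_join B P.tc P.gen hN hF
  obtain ⟨g, hg⟩ := DM.h0 y hj.source_mem
  have h1 := tr g⁻¹ ((hg.symm.trans hj).trans (tr (t ^ k) hg))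
  obtain ⟨j, rfl⟩ := P.gen g
  rw [inv_smul_smul, ← mul_smul, ← mul_smul, ← zpow_neg, ← zpow_add, ← zpow_add,
    neg_add_cancel_comm] at h1
  have hb := isUnit_of_dvd_unit (Norm1_dvd P.tc.inf P.gen n C.gap hab (DM.h0i _ h1)) hk
  refine ⟨t ^ b, ?_, σU, fun x => t ^ a • σL x, u1, l1.const_smul _, u2,
    fun x hx => (cov.inv _ _).trans (l2 x hx), fun R => ?_⟩
  · rcases Int.isUnit_iff.1 hb with rfl | rfl
    · exact .inl (zpow_one t)
    · exact .inr (zpow_neg_one t)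
  · rw [hn, hab, ← mul_smul, ← zpow_mul, ← zpow_add, add_comm]

end Pool.Agent.MP_bc14e1_gt

end

section

open Set Metric
open scoped Classical

namespace Pool.Agent.MP_bc14e1_gt

section

variable {G Y : Type} [Group G] [TopologicalSpace Y] [MulAction G Y] [ContinuousConstSMul G Y]
  {O : Set Y}

theorem H0_gs (hO : ∀ (g : G), ∀ y ∈ O, g • y ∈ O) (g : G) {c : Tot ℂ Y} (hc : c ∈ BC ℂ O 0) :
    gs ℂ Y g c ∈ BC ℂ O 0 := by
  obtain ⟨w, hw, rfl⟩ := hc
  exact ⟨gs ℂ Y g w, ⟨gs_mem_CH g (hO g) hw.1, gs_mem_DG g hw.2⟩, dT_gs g w⟩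

omit [ContinuousConstSMul G Y] in
theorem H0_pt (g : G) (y : Y) : gs ℂ Y g (pt ℂ y) = pt ℂ (g • y) := psh_pt _ y

theorem H0_join {x y : Y} (h : JoinedIn O x y) : pt ℂ y - pt ℂ x ∈ BC ℂ O 0 := by
  obtain ⟨γ, hγ⟩ := h
  refine ⟨pth ℂ γ.toContinuousMap, ⟨pth_mem_CH hγ, pth_mem_DG _⟩, ?_⟩
  rw [dT_pth]
  simp

theorem H0_pow (hO : ∀ (g : G), ∀ y ∈ O, g • y ∈ O) {t : G} {y : Y}
    (h : pt ℂ (t • y) - pt ℂ y ∈ BC ℂ O 0) (k : ℕ) : pt ℂ (t ^ k • y) - pt ℂ y ∈ BC ℂ O 0 := by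
  induction k with
  | zero => simp
  | succ k ih =>
    have := add_mem (H0_gs hO t ih) h
    rwa [map_sub, H0_pt, H0_pt, sub_add_sub_cancel, smul_smul, ← pow_succ'] at this

end

theorem h0_stmt : H0Stmt := by
  intro G Y Reg Cr _ _ _ _ f t m hf reg h l yn ys R0 R1 D hG hc h0 h1 y hy
  change Tot ℂ Y at y
  have hO : ∀ (g : G), ∀ y ∈ f ⁻¹' Ioo (-1) 1, g • y ∈ f ⁻¹' Ioo (-1) 1 := fun g y hy => by
    rw [mem_preimage, hG]; exact hy
  have hl : ∀ R, pt ℂ (h R • ys) - pt ℂ yn ∈ BC ℂ (f ⁻¹' Ioo (-1) 1) 0 := fun R =>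
    ⟨castZ ℂ Y (l R), ⟨cast_mem_CH _ (D.mem R).1, cast_mem_DG _ (D.mem R).2⟩, by
      rw [← cast_dT, D.bd, map_sub, cast_pt, cast_pt]⟩
  have ht : pt ℂ (t • yn) - pt ℂ yn ∈ BC ℂ (f ⁻¹' Ioo (-1) 1) 0 := by
    have := sub_mem (hl R1) (H0_gs hO t (hl R0))
    rw [h0, h1, map_sub, H0_pt, H0_pt, one_smul] at this
    have e : pt ℂ (t • yn) - pt ℂ yn =
        pt ℂ (t • ys) - pt ℂ yn - (pt ℂ (t • ys) - pt ℂ (t • yn)) := by abel
    rwa [e]
  have hs := H0_pow hO ht m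
  have key : gs ℂ Y (t ^ m) y - y ∈ BC ℂ (f ⁻¹' Ioo (-1) 1) 0 := by
    refine DG_zero_ind (P := fun c => gs ℂ Y (t ^ m) c - c ∈ BC ℂ (f ⁻¹' Ioo (-1) 1) 0) (by simp)
      (fun a b ha hb => ?_) (fun x hx a => ?_) hy.1 hy.2
    · rw [map_add, add_sub_add_comm]
      exact add_mem ha hb
    · rw [map_smul, ← smul_sub]
      refine Submodule.smul_mem _ a ?_
      obtain ⟨g, hg⟩ := D.h0 x hx
      have a1 := H0_join hg
      have a2 := H0_gs hO (t ^ m) a1
      have a3 := H0_gs hO g hs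
      rw [map_sub, H0_pt, H0_pt] at a2 a3
      rw [smul_smul, hc, mul_smul] at a3
      have := add_mem (sub_mem a3 a2) a1
      rw [H0_pt]
      have e : pt ℂ (t ^ m • x) - pt ℂ x = pt ℂ (t ^ m • g • yn) - pt ℂ (g • yn) -
        (pt ℂ (t ^ m • g • yn) - pt ℂ (t ^ m • x)) + (pt ℂ (g • yn) - pt ℂ x) := by abel
      rwa [e]
  obtain ⟨w, hw, e⟩ := key
  refine ⟨w, hw, ?_⟩
  change act ℂ Y (t ^ m) (LaurentPolynomial.T 1 - 1) y = dT ℂ Y w
  rw [e, map_sub, map_one, act_T, zpow_one]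
  rfl

end Pool.Agent.MP_bc14e1_gt

end

section

open Set Metric
open scoped Classical

namespace Pool.Agent.MP_bc14e1_gt

theorem J_coeff (a : Lam ℂ) (n : ℤ) : (cj a).coeff n = starRingEnd ℂ (a.coeff (-n)) := by
  change (LaurentPolynomial.invert (AddMonoidAlgebra.mapRingHom ℤ (starRingEnd ℂ) a)).coeff n = _
  rw [LaurentPolynomial.invert_apply, AddMonoidAlgebra.coeff_mapRingHom]

section

variable {G Y : Type} [Group G] [TopologicalSpace Y] [MulAction G Y] [ContinuousConstSMul G Y]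

omit [TopologicalSpace Y] [ContinuousConstSMul G Y] in
theorem J_zpow {s : G} {J : Y → Y} (hJ : ∀ y, J (s • y) = s⁻¹ • J y) (n : ℤ) (y : Y) :
    J (s ^ n • y) = s ^ (-n) • J y := by
  induction n using Int.induction_on generalizing y with
  | zero => simp
  | succ n ih => rw [zpow_add_one, mul_smul, ih, hJ, smul_smul, ← zpow_sub_one, neg_add']
  | pred n ih =>
    have h : J (s⁻¹ • y) = s • J y := by
      have := hJ (s⁻¹ • y)
      rw [smul_inv_smul] at this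
      rw [this, smul_inv_smul]
    rw [zpow_sub_one, mul_smul, ih, h, smul_smul, ← zpow_add_one, neg_sub', sub_neg_eq_add]

theorem J_gs {s : G} (J : Y ≃ₜ Y) (hJ : ∀ y, J (s • y) = s⁻¹ • J y) (n : ℤ) (c : Tot ℂ Y) :
    psh ℂ J (gs ℂ Y (s ^ n) c) = gs ℂ Y (s ^ (-n)) (psh ℂ J c) := by
  rw [gs, gs, psh_psh' _ (continuous_const_smul _), psh_psh' _ J.continuous]
  exact psh_congr (fun y _ => J_zpow hJ n y) (mem_CH_univ c)

omit [ContinuousConstSMul G Y] in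
theorem J_cj_gs (g : G) (c : Tot ℂ Y) : cjT Y (gs ℂ Y g c) = gs ℂ Y g (cjT Y c) :=
  cast_psh _ _ c

theorem J_cj_cj (c : Tot ℂ Y) : cjT Y (cjT Y c) = c := by
  ext σ
  rw [cast_apply, cast_apply, Complex.conj_conj]

theorem J_act (hL : LaurStmt) {s : G} (J : Y ≃ₜ Y) (hJ : ∀ y, J (s • y) = s⁻¹ • J y) (a : Lam ℂ)
    (c : Tot ℂ Y) : cjT Y (psh ℂ J (act ℂ Y s a c)) = act ℂ Y s (cj a) (cjT Y (psh ℂ J c)) := by
  induction a using LaurentPolynomial.induction_on' with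
  | add p q hp hq => simp only [map_add, LinearMap.add_apply, hp, hq]
  | C_mul_T n a =>
    rw [map_mul, map_mul, map_mul, hL.2.2.2.1, hL.2.2.2.2.1, Module.End.mul_apply,
      Module.End.mul_apply, act_C, act_C, act_T, act_T, map_smul, LinearMap.map_smulₛₗ,
      J_gs J hJ, J_cj_gs]

theorem J_loc (hL : LamStmt) {X : Type} [TopologicalSpace X] [T2Space X] {F : Set X} {p : Y → X}
    {s : G} (hT : TC F p s) {b : Form Y} (hb : LK s b) (f : Y → ℝ) (hf : ∀ y, f (s • y) = f y) :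
    LocS (lvTw ℂ s f hf) (lamF s b) := by
  obtain ⟨h1, h2, -⟩ := hL X G Y F p s b hT hb
  refine ⟨h1, fun k k' A A' hd u hu v hv => ?_⟩
  exact h2 (f ⁻¹' A) (f ⁻¹' A') (fun y => by simp only [mem_preimage, hf]) (hd.preimage f)
    u hu.1 v hv.1

end

theorem j_stmt (B : Bas2) : JStmt := by
  intro κ K ι Γ G Y _ _ _ _ _ p s τ J hT hτ hτs hp hJ hJJ hf
  refine ⟨fun a c => J_act B.laur J hJ a c, fun c => ?_, fun c => ?_, fun k S c hc => ?_, ?_⟩
  · change cjT Y (psh ℂ J (cjT Y (psh ℂ J c))) = c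
    rw [cast_psh, J_cj_cj, psh_psh' _ J.continuous]
    exact psh_of_eqOn_id (fun y _ => hJJ y) (mem_CH_univ _)
  · change cjT Y (psh ℂ J (dT ℂ Y c)) = dT ℂ Y (cjT Y (psh ℂ J c))
    rw [← cast_dT, dT_psh_cont J.continuous]
  · refine ⟨cast_mem_CH _ (psh_mem_CH J (fun y hy => ?_) hc.1), cast_mem_DG _ (psh_mem_DG J hc.2)⟩
    change -Γ.h (p (J y)) ∈ S
    rw [hp, Γ.hI, neg_neg]
    exact hy
  · obtain ⟨hP, -⟩ := B.pair κ Γ.X G Y Γ.o Γ.F p s τ hT hτ hτs
    obtain ⟨E₁, E₂, h₁, h₂, hE⟩ := B.inv κ Γ.X G Y Γ.o Γ.F p s τ Γ.I J hT hτ hτs Γ.Io hp hJ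
    refine ⟨lamF s E₁, lamF s E₂, J_loc B.lam hT h₁ _ hf, J_loc B.lam hT h₂ _ hf,
      fun u hu v hv => ?_⟩
    have c0 := (B.lam Γ.X G Y Γ.F p s _ hT hP.lk).2.2.2.1
    have c1 := (B.lam Γ.X G Y Γ.F p s _ hT h₁).2.2.2.1
    have c2 := (B.lam Γ.X G Y Γ.F p s _ hT h₂).2.2.2.1
    refine LaurentPolynomial.ext fun n => ?_
    change (cj (lamF s (beta κ τ) (cjT Y (psh ℂ J u)) (cjT Y (psh ℂ J v)))).coeff n -
      (lamF s (beta κ τ) u v).coeff n =
      (lamF s E₁ (dT ℂ Y u) v).coeff n + (lamF s E₂ u (dT ℂ Y v)).coeff n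
    rw [J_coeff, c0, c0, c1, c2, ← J_cj_gs, hP.real, Complex.conj_conj, ← J_gs J hJ, ← dT_gs]
    exact hE u hu.2 _ (gs_mem_DG _ hv.2)

end Pool.Agent.MP_bc14e1_gt

end

section

open Set Metric
open scoped Classical

namespace Pool.Agent.MP_bc14e1_gt

theorem Neg_null {X : Type} [TopologicalSpace X] {A B : Set X} {k : ℕ} {c : Sing X k →₀ ℤ}
    (h : Null A B k c) : Null A B k (-c) := by
  obtain ⟨b, hb, h⟩ := h
  refine ⟨-b, neg_mem hb, ?_⟩
  rw [map_neg, neg_sub_neg, ← neg_sub]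
  exact neg_mem h

/-- The opposite orientation. -/
noncomputable def Neg_ori {W : Type} [TopologicalSpace W] (o : Orientation4 W) :
    Orientation4 W where
  o p := -o.o p
  rel p := by rw [map_neg]; exact neg_mem (o.rel p)
  gen p c hc := by
    obtain ⟨n, hn, hu⟩ := o.gen p c hc
    refine ⟨-n, by simpa only [smul_neg, neg_smul, neg_neg] using hn, fun m hm => ?_⟩
    rw [← hu (-m) (by simpa only [smul_neg, neg_smul] using hm), neg_neg]
  loc p := by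
    obtain ⟨U, hU, w, hw, h⟩ := o.loc p
    refine ⟨U, hU, -w, by rw [map_neg]; exact neg_mem hw, fun q hq => ?_⟩
    rw [neg_sub_neg, ← neg_sub]
    exact Neg_null (h q hq)

theorem Neg_inter {W : Type} [TopologicalSpace W] {o : Orientation4 W} {x y : Sing W 2 →₀ ℤ}
    {n : ℤ} (h : InterNum o x y n) : InterNum (Neg_ori o) x y (-n) := by
  obtain ⟨p, h⟩ := h
  refine ⟨p, ?_⟩
  change Null _ _ 4 (_ - -n • push ℤ _ 4 (-o.o p))
  rwa [map_neg, neg_smul_neg]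

theorem neg_stmt : NegStmt := by
  rintro K ⟨W, i1, i2, i3, i4, i5, o, c, V, d, k, S, h1, h2, h3, h4, h5, h6, h7, h8, h9, h10, h11,
    h12, h13⟩
  refine ⟨W, i1, i2, i3, i4, i5, Neg_ori o, c, V, d, k, S, h1, h2, h3, h4, h5, h6, h7, h8, h9, h10,
    h11, h12, fun i j => ?_⟩
  have := Neg_inter (h13 i j)
  split_ifs at this ⊢
  · rwa [neg_neg] at this
  · rwa [neg_zero] at this

end Pool.Agent.MP_bc14e1_gt

end
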