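import Pool.Agent.Mg.Fbc14e1.G199efb

section

/-! The closed braid: tables, step function, strands. -/

open Set Metric
open scoped ContDiff

namespace Pool.Agent.MP_bc14e1_gt

/-- A smooth step function, `0` below `1/3` and `1` above `2/3`. -/
noncomputable def stp (τ : ℝ) : ℝ := Real.smoothTransition (3 * τ - 1)

theorem smoothTransition_one_sub (x : ℝ) :
    Real.smoothTransition (1 - x) = 1 - Real.smoothTransition x := by
  have h := Real.smoothTransition.pos_denom x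
  unfold Real.smoothTransition
  rw [sub_sub_cancel, add_comm (expNegInvGlue (1 - x))]
  field_simp
  ring

theorem stp_contDiff : ContDiff ℝ ∞ stp :=
  Real.smoothTransition.contDiff.comp ((contDiff_const.mul contDiff_id).sub contDiff_const)

theorem stp_continuous : Continuous stp := stp_contDiff.continuous

theorem stp_zero {τ : ℝ} (h : τ ≤ 1 / 3) : stp τ = 0 :=
  Real.smoothTransition.zero_of_nonpos (by linarith)

theorem stp_one {τ : ℝ} (h : 2 / 3 ≤ τ) : stp τ = 1 :=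
  Real.smoothTransition.one_of_one_le (by linarith)

theorem stp_nonneg (τ : ℝ) : 0 ≤ stp τ := Real.smoothTransition.nonneg _

theorem stp_le_one (τ : ℝ) : stp τ ≤ 1 := Real.smoothTransition.le_one _

theorem stp_pos {τ : ℝ} (h : 1 / 3 < τ) : 0 < stp τ :=
  Real.smoothTransition.pos_of_pos (by linarith)

theorem stp_lt_one {τ : ℝ} (h : τ < 2 / 3) : stp τ < 1 :=
  Real.smoothTransition.lt_one_of_lt_one (by linarith)

theorem stp_one_sub (τ : ℝ) : stp (1 - τ) = 1 - stp τ := by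
  unfold stp
  rw [← smoothTransition_one_sub]
  congr 1
  ring

theorem stp_half : stp (1 / 2) = 1 / 2 := by
  have := stp_one_sub (1 / 2)
  norm_num at this
  linarith

theorem expNegInvGlue_lt {x y : ℝ} (hy : 0 < y) (h : x < y) :
    expNegInvGlue x < expNegInvGlue y := by
  rcases le_or_gt x 0 with hx | hx
  · rw [expNegInvGlue.zero_of_nonpos hx]
    exact expNegInvGlue.pos_of_pos hy
  · unfold expNegInvGlue
    rw [if_neg (not_le.2 hx), if_neg (not_le.2 hy)]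
    exact Real.exp_lt_exp.2 (neg_lt_neg (inv_strictAnti₀ hx h))

theorem stp_lt_half {τ : ℝ} (h : τ < 1 / 2) : stp τ < 1 / 2 := by
  have h1 := Real.smoothTransition.pos_denom (3 * τ - 1)
  have h2 : expNegInvGlue (3 * τ - 1) < expNegInvGlue (1 - (3 * τ - 1)) :=
    expNegInvGlue_lt (by linarith) (by linarith)
  unfold stp Real.smoothTransition
  rw [div_lt_iff₀ h1]
  linarith

theorem half_lt_stp {τ : ℝ} (h : 1 / 2 < τ) : 1 / 2 < stp τ := by
  have h1 := stp_lt_half (τ := 1 - τ) (by linarith)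
  rw [stp_one_sub] at h1
  linarith

theorem stp_eq_half {τ : ℝ} (h : stp τ = 1 / 2) : τ = 1 / 2 := by
  rcases lt_trichotomy τ (1 / 2) with h1 | h1 | h1
  · exact absurd h (stp_lt_half h1).ne
  · exact h1
  · exact absurd h (half_lt_stp h1).ne'

/-- The side of the crossing in each of the `22` slabs (listed three times). -/
def sdZ : ZMod 66 → ℤ :=
  ![-1, -1, 1, 1, -1, -1, -1, 1, 1, -1, -1, 1, 1, -1, -1, 1, 1, 1, -1, -1, 1, 1,
    -1, -1, 1, 1, -1, -1, -1, 1, 1, -1, -1, 1, 1, -1, -1, 1, 1, 1, -1, -1, 1, 1,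
    -1, -1, 1, 1, -1, -1, -1, 1, 1, -1, -1, 1, 1, -1, -1, 1, 1, 1, -1, -1, 1, 1]

/-- The position of the knot at the `66` slab boundaries it meets. -/
def posZ : ZMod 66 → ℤ :=
  ![0, -1, 0, 1, 0, -1, 0, -1, -1, -1, 0, -1, -1, -1, 0, -1, -1, -1, -1, 0, -1, -1,
    -1, 0, -1, -1, -1, 0, -1, 0, 1, 0, -1, 0, 1, 0, -1, 0, 1, 0, 1, 1, 1, 0,
    1, 1, 1, 0, 1, 1, 1, 1, 0, 1, 1, 1, 0, 1, 1, 1, 0, 1, 0, -1, 0, 1]

/-- The side of the crossing in slab `k`. -/
def sd (k : ℤ) : ℤ := sdZ (k : ZMod 66)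

/-- The position of the knot at parameter `k`. -/
def pos (k : ℤ) : ℤ := posZ (k : ZMod 66)

theorem sd_cases (k : ℤ) : sd k = 1 ∨ sd k = -1 := by
  unfold sd
  generalize (k : ZMod 66) = r
  revert r
  decide +kernel

theorem sd_add11 (k : ℤ) : sd (k + 11) = -sd k := by
  unfold sd
  push_cast
  generalize (k : ZMod 66) = r
  revert r
  decide +kernel

theorem sd_add22 (k : ℤ) : sd (k + 22) = sd k := by
  rw [show k + 22 = k + 11 + 11 by ring, sd_add11, sd_add11, neg_neg]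

theorem sd_add_mul (k j : ℤ) : sd (k + 22 * j) = sd k := by
  induction j using Int.induction_on with
  | zero => simp
  | succ j ih => rw [show k + 22 * ((j : ℤ) + 1) = k + 22 * j + 22 by ring, sd_add22, ih]
  | pred j ih =>
    rw [← sd_add22, show k + 22 * (-(j : ℤ) - 1) + 22 = k + 22 * -j by ring, ih]

theorem sd_neg (k : ℤ) : sd (-k - 1) = -sd k := by
  unfold sd
  push_cast
  generalize (k : ZMod 66) = r
  revert r
  decide +kernel

theorem pos_cases (k : ℤ) : (pos k = 0 ∧ pos (k + 1) = sd k) ∨ (pos k = sd k ∧ pos (k + 1) = 0) ∨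
    (pos k = -sd k ∧ pos (k + 1) = -sd k) := by
  unfold sd pos
  push_cast
  generalize (k : ZMod 66) = r
  revert r
  decide +kernel

theorem pos_neg (k : ℤ) : pos (-k) = -pos k := by
  unfold pos
  push_cast
  generalize (k : ZMod 66) = r
  revert r
  decide +kernel

theorem pos_add66 (k j : ℤ) : pos (k + 66 * j) = pos k := by
  unfold pos
  push_cast
  rw [show (66 : ZMod 66) = 0 from rfl, zero_mul, add_zero]

theorem pos_ne (k : ℤ) : pos (k + 22) ≠ pos k ∧ pos (k + 44) ≠ pos k := by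
  unfold pos
  push_cast
  generalize (k : ZMod 66) = r
  revert r
  decide +kernel

theorem pos_inj {k j : ℤ} (h : pos (k + 22 * j) = pos k) : (3 : ℤ) ∣ j := by
  obtain ⟨q, hq | hq | hq⟩ : ∃ q : ℤ, j = 3 * q ∨ j = 3 * q + 1 ∨ j = 3 * q + 2 :=
    ⟨j / 3, by omega⟩
  · exact ⟨q, hq⟩
  · rw [hq, show k + 22 * (3 * q + 1) = k + 22 + 66 * q by ring, pos_add66] at h
    exact absurd h (pos_ne k).1
  · rw [hq, show k + 22 * (3 * q + 2) = k + 44 + 66 * q by ring, pos_add66] at h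
    exact absurd h (pos_ne k).2

theorem pos_surj (k : ℤ) : (∃ j : ℤ, pos (k + 22 * j) = 0) ∧ (∃ j : ℤ, pos (k + 22 * j) = sd k) ∧
    ∃ j : ℤ, pos (k + 22 * j) = -sd k := by
  have h : (pos k = 0 ∨ pos (k + 22) = 0 ∨ pos (k + 44) = 0) ∧
      (pos k = sd k ∨ pos (k + 22) = sd k ∨ pos (k + 44) = sd k) ∧
      (pos k = -sd k ∨ pos (k + 22) = -sd k ∨ pos (k + 44) = -sd k) := by
    unfold sd pos
    push_cast
    generalize (k : ZMod 66) = r
    revert r
    decide +kernel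
  have key : ∀ p : ℤ, (pos k = p ∨ pos (k + 22) = p ∨ pos (k + 44) = p) →
      ∃ j : ℤ, pos (k + 22 * j) = p := by
    rintro p (h | h | h)
    · exact ⟨0, by simpa using h⟩
    · exact ⟨1, by simpa using h⟩
    · exact ⟨2, by simpa using h⟩
  exact ⟨key _ h.1, key _ h.2.1, key _ h.2.2⟩

theorem pos_zero : pos 0 = 0 := by decide +kernel

theorem pos_33 : pos 33 = 0 := by decide +kernel

theorem pos_11 : pos 11 = -1 := by decide +kernel

/-- The point of `S³` with angle `π ψ / 11` and fibre coordinates `a`, `b`. -/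
noncomputable def emb (ψ a b : ℝ) : E 4 :=
  (√(1 + a ^ 2 + b ^ 2))⁻¹ • !₂[Real.cos (Real.pi * ψ / 11), Real.sin (Real.pi * ψ / 11), a, b]

/-- The three strands at level `ψ`: over, under, and the one that does not cross. -/
def Str (ψ a b : ℝ) : Prop :=
  (a = sd ⌊ψ⌋ * stp (Int.fract ψ) ∧ b = stp (Int.fract ψ) * (1 - stp (Int.fract ψ))) ∨
  (a = sd ⌊ψ⌋ * (1 - stp (Int.fract ψ)) ∧ b = -(stp (Int.fract ψ) * (1 - stp (Int.fract ψ)))) ∨
  (a = -sd ⌊ψ⌋ ∧ b = 0)

/-- The knot as a subset of `S³`. -/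
def Kset : Set (E 4) := {v | ∃ ψ a b : ℝ, Str ψ a b ∧ v = emb ψ a b}

/-- First fibre coordinate along the knot. -/
noncomputable def cA (ψ : ℝ) : ℝ :=
  pos ⌊ψ⌋ + (pos (⌊ψ⌋ + 1) - pos ⌊ψ⌋) * stp (Int.fract ψ)

/-- Second fibre coordinate along the knot. -/
noncomputable def cB (ψ : ℝ) : ℝ :=
  sd ⌊ψ⌋ * (pos (⌊ψ⌋ + 1) - pos ⌊ψ⌋) * (stp (Int.fract ψ) * (1 - stp (Int.fract ψ)))

/-- The knot, parametrised with period `66`. -/
noncomputable def kap (ψ : ℝ) : E 4 := emb ψ (cA ψ) (cB ψ)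

/-- The involution `diag(-1, -1, -1, 1)`. -/
noncomputable def iot (v : E 4) : E 4 := !₂[-v 0, -v 1, -v 2, v 3]

end Pool.Agent.MP_bc14e1_gt

end

section

/-! Solid torus coordinates on the sphere; the symmetry of the knot. -/

open Set Metric
open scoped ContDiff

namespace Pool.Agent.MP_bc14e1_gt

theorem nrm_pos (a b : ℝ) : 0 < √(1 + a ^ 2 + b ^ 2) := Real.sqrt_pos.2 (by positivity)

theorem emb_0 (ψ a b : ℝ) :
    emb ψ a b 0 = (√(1 + a ^ 2 + b ^ 2))⁻¹ * Real.cos (Real.pi * ψ / 11) := by simp [emb]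

theorem emb_1 (ψ a b : ℝ) :
    emb ψ a b 1 = (√(1 + a ^ 2 + b ^ 2))⁻¹ * Real.sin (Real.pi * ψ / 11) := by simp [emb]

theorem emb_2 (ψ a b : ℝ) : emb ψ a b 2 = (√(1 + a ^ 2 + b ^ 2))⁻¹ * a := by simp [emb]

theorem emb_3 (ψ a b : ℝ) : emb ψ a b 3 = (√(1 + a ^ 2 + b ^ 2))⁻¹ * b := by simp [emb]

theorem E4_ext {v w : E 4} (h0 : v 0 = w 0) (h1 : v 1 = w 1) (h2 : v 2 = w 2) (h3 : v 3 = w 3) :
    v = w := by
  ext i
  fin_cases i
  exacts [h0, h1, h2, h3]

theorem E4_norm_sq (v : E 4) : ‖v‖ ^ 2 = v 0 ^ 2 + v 1 ^ 2 + v 2 ^ 2 + v 3 ^ 2 := by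
  rw [EuclideanSpace.real_norm_sq_eq, Fin.sum_univ_four]

theorem emb_rad (ψ a b : ℝ) :
    emb ψ a b 0 ^ 2 + emb ψ a b 1 ^ 2 = (√(1 + a ^ 2 + b ^ 2))⁻¹ ^ 2 := by
  rw [emb_0, emb_1, mul_pow, mul_pow, ← mul_add, Real.cos_sq_add_sin_sq, mul_one]

theorem norm_emb (ψ a b : ℝ) : ‖emb ψ a b‖ = 1 := by
  have h : ‖emb ψ a b‖ ^ 2 = 1 := by
    rw [E4_norm_sq, emb_rad, emb_2, emb_3, mul_pow, mul_pow, inv_pow,
      Real.sq_sqrt (by positivity)]
    field_simp
  nlinarith [norm_nonneg (emb ψ a b)]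

theorem emb_add22 (ψ a b : ℝ) (j : ℤ) : emb (ψ + 22 * j) a b = emb ψ a b := by
  have h : Real.pi * (ψ + 22 * j) / 11 = Real.pi * ψ / 11 + j * (2 * Real.pi) := by ring
  unfold emb
  rw [h, Real.cos_add_int_mul_two_pi, Real.sin_add_int_mul_two_pi]

theorem emb_eq_iff {ψ a b ψ' a' b' : ℝ} :
    emb ψ a b = emb ψ' a' b' ↔ a = a' ∧ b = b' ∧ ∃ j : ℤ, ψ' = ψ + 22 * j := by
  constructor
  · intro h
    have hn : (√(1 + a ^ 2 + b ^ 2))⁻¹ = (√(1 + a' ^ 2 + b' ^ 2))⁻¹ := by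
      have h1 := emb_rad ψ a b
      rw [h, emb_rad] at h1
      exact (pow_left_inj₀ (inv_pos.2 (nrm_pos a b)).le (inv_pos.2 (nrm_pos a' b')).le
        two_ne_zero).1 h1.symm
    have hp := (inv_pos.2 (nrm_pos a' b')).ne'
    have h0 := emb_0 ψ a b
    have h1 := emb_1 ψ a b
    have h2 := emb_2 ψ a b
    have h3 := emb_3 ψ a b
    rw [h, hn] at h0 h1 h2 h3
    rw [emb_0] at h0
    rw [emb_1] at h1
    rw [emb_2] at h2
    rw [emb_3] at h3
    refine ⟨(mul_left_cancel₀ hp h2).symm, (mul_left_cancel₀ hp h3).symm, ?_⟩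
    have hc := mul_left_cancel₀ hp h0
    have hs := mul_left_cancel₀ hp h1
    have h4 : Real.cos (Real.pi * ψ' / 11 - Real.pi * ψ / 11) = 1 := by
      rw [Real.cos_sub, hc, hs, ← sq, ← sq, Real.cos_sq_add_sin_sq]
    obtain ⟨j, hj⟩ := (Real.cos_eq_one_iff _).1 h4
    refine ⟨j, mul_left_cancel₀ Real.pi_ne_zero ?_⟩
    linarith
  · rintro ⟨rfl, rfl, j, rfl⟩
    exact (emb_add22 _ _ _ _).symm

theorem emb_contDiff : ContDiff ℝ ∞ fun p : ℝ × ℝ × ℝ => emb p.1 p.2.1 p.2.2 := by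
  unfold emb
  refine ContDiff.smul (ContDiff.inv (ContDiff.sqrt (by fun_prop) fun p => by positivity)
    fun p => (nrm_pos _ _).ne') ?_
  rw [contDiff_euclidean]
  intro i
  fin_cases i <;> simp <;> fun_prop

theorem emb_continuous : Continuous fun p : ℝ × ℝ × ℝ => emb p.1 p.2.1 p.2.2 :=
  emb_contDiff.continuous

theorem iot_emb (ψ a b : ℝ) : iot (emb ψ a b) = emb (ψ + 11) (-a) b := by
  have h : Real.pi * (ψ + 11) / 11 = Real.pi * ψ / 11 + Real.pi := by ring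
  refine E4_ext ?_ ?_ ?_ ?_ <;>
    simp [iot, emb_0, emb_1, emb_2, emb_3, h, Real.cos_add_pi, Real.sin_add_pi]

theorem floor_add22 (ψ : ℝ) (j : ℤ) : ⌊ψ + 22 * j⌋ = ⌊ψ⌋ + 22 * j := by
  rw [show (22 : ℝ) * j = ((22 * j : ℤ) : ℝ) by push_cast; ring, Int.floor_add_intCast]

theorem fract_add22 (ψ : ℝ) (j : ℤ) : Int.fract (ψ + 22 * j) = Int.fract ψ := by
  rw [show (22 : ℝ) * j = ((22 * j : ℤ) : ℝ) by push_cast; ring, Int.fract_add_intCast]

theorem str_add22 {ψ a b : ℝ} (j : ℤ) : Str (ψ + 22 * j) a b ↔ Str ψ a b := by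
  unfold Str
  rw [floor_add22, fract_add22, sd_add_mul]

theorem str_add11 {ψ a b : ℝ} (h : Str ψ a b) : Str (ψ + 11) (-a) b := by
  unfold Str at *
  rw [show (11 : ℝ) = ((11 : ℤ) : ℝ) by norm_num, Int.floor_add_intCast, Int.fract_add_intCast,
    sd_add11]
  push_cast
  rcases h with ⟨h1, h2⟩ | ⟨h1, h2⟩ | ⟨h1, h2⟩
  · exact Or.inl ⟨by rw [h1]; ring, h2⟩
  · exact Or.inr (Or.inl ⟨by rw [h1]; ring, h2⟩)
  · exact Or.inr (Or.inr ⟨by rw [h1], h2⟩)

theorem emb_mem_Kset {ψ a b : ℝ} : emb ψ a b ∈ Kset ↔ Str ψ a b := by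
  constructor
  · rintro ⟨ψ', a', b', h, he⟩
    obtain ⟨rfl, rfl, j, rfl⟩ := emb_eq_iff.1 he
    exact (str_add22 j).1 h
  · exact fun h => ⟨ψ, a, b, h, rfl⟩

theorem Kset_subset_sphere : Kset ⊆ sphere 0 1 := by
  rintro _ ⟨ψ, a, b, -, rfl⟩
  simpa using norm_emb ψ a b

theorem iot_iot (v : E 4) : iot (iot v) = v := by
  refine E4_ext ?_ ?_ ?_ ?_ <;> simp [iot]

theorem iot_mem_Kset {v : E 4} (h : v ∈ Kset) : iot v ∈ Kset := by
  obtain ⟨ψ, a, b, h, rfl⟩ := h
  exact ⟨_, _, _, str_add11 h, iot_emb ψ a b⟩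

/-- The involution as a linear map. -/
noncomputable def iotL : E 4 →ₗ[ℝ] E 4 :=
  Matrix.toLin (EuclideanSpace.basisFun (Fin 4) ℝ).toBasis (EuclideanSpace.basisFun (Fin 4) ℝ).toBasis
    (Matrix.diagonal ![-1, -1, -1, 1])

theorem iotL_apply (v : E 4) : iotL v = iot v := by
  refine E4_ext ?_ ?_ ?_ ?_ <;>
    simp [iotL, iot, Matrix.toLin_apply, Fin.sum_univ_four, Matrix.mulVec_diagonal]

theorem norm_iot (v : E 4) : ‖iot v‖ = ‖v‖ := by
  have h : ‖iot v‖ ^ 2 = ‖v‖ ^ 2 := by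
    rw [E4_norm_sq, E4_norm_sq]
    simp [iot]
  exact (pow_left_inj₀ (norm_nonneg _) (norm_nonneg _) two_ne_zero).1 h

/-- The involution as a linear isometry. -/
noncomputable def iotE : E 4 ≃ₗᵢ[ℝ] E 4 where
  toLinearEquiv := LinearEquiv.ofInvolutive iotL fun v => by rw [iotL_apply, iotL_apply, iot_iot]
  norm_map' v := by
    change ‖iotL v‖ = _
    rw [iotL_apply, norm_iot]

theorem iotE_apply (v : E 4) : iotE v = iot v := iotL_apply v

theorem iotE_det : LinearMap.det (iotE.toLinearEquiv : E 4 →ₗ[ℝ] E 4) = -1 := by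
  change LinearMap.det iotL = -1
  rw [iotL, LinearMap.det_toLin, Matrix.det_diagonal, Fin.prod_univ_four]
  simp

theorem iotE_image : iotE '' Kset = Kset := by
  ext v
  constructor
  · rintro ⟨w, hw, rfl⟩
    rw [iotE_apply]
    exact iot_mem_Kset hw
  · exact fun h => ⟨iot v, iot_mem_Kset h, by rw [iotE_apply, iot_iot]⟩

theorem iot_ne {v : E 4} (h : v ∈ Kset) : iot v ≠ v := by
  obtain ⟨ψ, a, b, -, rfl⟩ := h
  rw [iot_emb]
  intro h
  obtain ⟨-, -, j, hj⟩ := emb_eq_iff.1 h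
  have : (11 + 22 * j : ℤ) = 0 := by exact_mod_cast (by linarith : (11 + 22 * j : ℝ) = 0)
  omega

theorem strongPosAmph_Kset : StrongPosAmph Kset :=
  ⟨iotE, fun v => by rw [iotE_apply, iotE_apply, iot_iot], iotE_det, iotE_image,
    fun v hv => by rw [iotE_apply]; exact iot_ne hv⟩

end Pool.Agent.MP_bc14e1_gt

end

section

/-! The solid torus coordinates are a local homeomorphism; contractible pieces. -/

open Set Metric Filter Topology

namespace Pool.Agent.MP_bc14e1_gt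

/-- The three-sphere. -/
abbrev S3 : Type := sphere (0 : E 4) 1

/-- Solid torus coordinates as a map to the sphere. -/
noncomputable def embS (p : ℝ × ℝ × ℝ) : S3 :=
  ⟨emb p.1 p.2.1 p.2.2, by simpa using norm_emb p.1 p.2.1 p.2.2⟩

theorem embS_continuous : Continuous embS := emb_continuous.subtype_mk _

/-- Distance from the circle `v 0 = v 1 = 0` direction. -/
noncomputable def rad (v : E 4) : ℝ := √(v 0 ^ 2 + v 1 ^ 2)

theorem rad_nonneg (v : E 4) : 0 ≤ rad v := Real.sqrt_nonneg _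

theorem rad_continuous : Continuous rad := by
  unfold rad
  fun_prop

theorem rad_emb (ψ a b : ℝ) : rad (emb ψ a b) = (√(1 + a ^ 2 + b ^ 2))⁻¹ := by
  rw [rad, emb_rad, Real.sqrt_sq (inv_pos.2 (nrm_pos a b)).le]

theorem rad_emb_pos (ψ a b : ℝ) : 0 < rad (emb ψ a b) := by
  rw [rad_emb]
  exact inv_pos.2 (nrm_pos a b)

theorem rad_eq_zero {v : E 4} : rad v = 0 ↔ v 0 = 0 ∧ v 1 = 0 := by
  rw [rad, Real.sqrt_eq_zero (by positivity)]
  constructor
  · intro h
    constructor <;> nlinarith [sq_nonneg (v 0), sq_nonneg (v 1)]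
  · rintro ⟨h0, h1⟩
    simp [h0, h1]

/-- A local inverse of the coordinates near angle `ψ₀`. -/
noncomputable def sec (ψ₀ : ℝ) (v : E 4) : ℝ × ℝ × ℝ :=
  (ψ₀ + 11 / Real.pi * Complex.arg ((v 0 + v 1 * Complex.I) *
    Complex.exp (-(Real.pi * ψ₀ / 11 : ℝ) * Complex.I)), v 2 / rad v, v 3 / rad v)

theorem norm_cx (v : E 4) : ‖(v 0 + v 1 * Complex.I : ℂ)‖ = rad v := by
  rw [rad, Complex.norm_add_mul_I]

theorem emb_sec (ψ₀ : ℝ) {v : E 4} (hv : ‖v‖ = 1) (h : rad v ≠ 0) :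
    emb (sec ψ₀ v).1 (sec ψ₀ v).2.1 (sec ψ₀ v).2.2 = v := by
  have hr : 0 < rad v := (rad_nonneg v).lt_of_ne' h
  have hsq : rad v ^ 2 = v 0 ^ 2 + v 1 ^ 2 := Real.sq_sqrt (by positivity)
  have hn : √(1 + (v 2 / rad v) ^ 2 + (v 3 / rad v) ^ 2) = (rad v)⁻¹ := by
    rw [Real.sqrt_eq_iff_mul_self_eq (by positivity) (by positivity)]
    have h1 := E4_norm_sq v
    rw [hv] at h1
    field_simp
    nlinarith
  set z : ℂ := v 0 + v 1 * Complex.I with hz
  set θ : ℝ := Real.pi * ψ₀ / 11 with hθ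
  set w : ℂ := z * Complex.exp (-(θ : ℝ) * Complex.I) with hw
  have hwn : ‖w‖ = rad v := by
    rw [hw, norm_mul, hz, norm_cx, ← Complex.ofReal_neg, Complex.norm_exp_ofReal_mul_I, mul_one]
  have h1 : Real.pi * (sec ψ₀ v).1 / 11 = θ + Complex.arg w := by
    simp only [sec]
    rw [← hz, ← hθ, ← hw, hθ]
    field_simp
  have h2 : (rad v : ℂ) * Complex.exp (((θ + Complex.arg w : ℝ) : ℂ) * Complex.I) = z := by
    have h3 := Complex.norm_mul_exp_arg_mul_I w
    rw [hwn] at h3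
    rw [Complex.ofReal_add, add_mul, Complex.exp_add, mul_left_comm, h3, hw, mul_left_comm,
      ← Complex.exp_add]
    simp
  have hre := congrArg Complex.re h2
  have him := congrArg Complex.im h2
  rw [Complex.re_ofReal_mul, Complex.exp_ofReal_mul_I_re] at hre
  rw [Complex.im_ofReal_mul, Complex.exp_ofReal_mul_I_im] at him
  have hzre : z.re = v 0 := by simp [hz]
  have hzim : z.im = v 1 := by simp [hz]
  refine E4_ext ?_ ?_ ?_ ?_
  · rw [emb_0, h1]
    simp only [sec]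
    rw [hn, inv_inv, hre, hzre]
  · rw [emb_1, h1]
    simp only [sec]
    rw [hn, inv_inv, him, hzim]
  · rw [emb_2]
    simp only [sec]
    rw [hn, inv_inv]
    field_simp
  · rw [emb_3]
    simp only [sec]
    rw [hn, inv_inv]
    field_simp

theorem cx_emb (ψ a b : ℝ) : ((emb ψ a b 0 : ℝ) + (emb ψ a b 1 : ℝ) * Complex.I : ℂ) *
    Complex.exp (-(Real.pi * ψ / 11 : ℝ) * Complex.I) = (rad (emb ψ a b) : ℝ) := by
  rw [rad_emb, emb_0, emb_1]
  set θ : ℝ := Real.pi * ψ / 11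
  have h : ((Real.cos θ : ℝ) + (Real.sin θ : ℝ) * Complex.I : ℂ) =
      Complex.exp ((θ : ℝ) * Complex.I) := by
    rw [Complex.exp_mul_I, Complex.ofReal_cos, Complex.ofReal_sin]
  rw [Complex.ofReal_mul, Complex.ofReal_mul, mul_assoc, ← mul_add, h, mul_assoc,
    ← Complex.exp_add]
  simp

theorem sec_emb (ψ a b : ℝ) : sec ψ (emb ψ a b) = (ψ, a, b) := by
  have h := (inv_pos.2 (nrm_pos a b)).ne'
  simp only [sec]
  rw [cx_emb, Complex.arg_ofReal_of_nonneg (rad_nonneg _), mul_zero, add_zero, rad_emb, emb_2,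
    emb_3, mul_div_cancel_left₀ _ h, mul_div_cancel_left₀ _ h]

theorem sec_continuousAt (ψ a b : ℝ) : ContinuousAt (sec ψ) (emb ψ a b) := by
  have hr := (rad_emb_pos ψ a b).ne'
  refine ContinuousAt.prodMk ?_ (ContinuousAt.prodMk ?_ ?_)
  · refine continuousAt_const.add (continuousAt_const.mul ?_)
    refine ContinuousAt.comp (f := fun v : E 4 => ((v 0 : ℝ) + (v 1 : ℝ) * Complex.I : ℂ) *
      Complex.exp (-(Real.pi * ψ / 11 : ℝ) * Complex.I)) (Complex.continuousAt_arg ?_) (by fun_prop)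
    rw [cx_emb]
    exact Complex.ofReal_mem_slitPlane.2 (rad_emb_pos ψ a b)
  · exact ContinuousAt.div (by fun_prop) rad_continuous.continuousAt hr
  · exact ContinuousAt.div (by fun_prop) rad_continuous.continuousAt hr

theorem exists_emb {v : E 4} (hv : ‖v‖ = 1) (h : rad v ≠ 0) : ∃ ψ a b, v = emb ψ a b :=
  ⟨_, _, _, (emb_sec 0 hv h).symm⟩

theorem exists_embS (v : S3) (h : rad v.1 ≠ 0) : ∃ p, v = embS p :=
  ⟨sec 0 v.1, Subtype.ext (emb_sec 0 (by simp) h).symm⟩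

theorem embS_isOpenMap : IsOpenMap embS := by
  refine IsOpenMap.of_nhds_le fun p => ?_
  obtain ⟨ψ, a, b⟩ := p
  have hc : ContinuousAt (fun v : S3 => sec ψ v.1) (embS (ψ, a, b)) :=
    ContinuousAt.comp (g := sec ψ) (f := fun v : S3 => v.1) (x := embS (ψ, a, b))
      (sec_continuousAt ψ a b) continuous_subtype_val.continuousAt
  have h1 : ∀ᶠ v : S3 in 𝓝 (embS (ψ, a, b)), embS (sec ψ v.1) = v := by
    have h2 : ∀ᶠ v : S3 in 𝓝 (embS (ψ, a, b)), rad v.1 ≠ 0 :=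
      (rad_continuous.comp continuous_subtype_val).continuousAt.eventually_ne
        (rad_emb_pos ψ a b).ne'
    exact h2.mono fun v hv => Subtype.ext (emb_sec ψ (by simp) hv)
  have h3 : Tendsto (fun v : S3 => sec ψ v.1) (𝓝 (embS (ψ, a, b))) (𝓝 (ψ, a, b)) := by
    have := hc.tendsto
    rwa [show sec ψ (embS (ψ, a, b)).1 = (ψ, a, b) from sec_emb ψ a b] at this
  calc 𝓝 (embS (ψ, a, b)) = map (fun v : S3 => embS (sec ψ v.1)) (𝓝 (embS (ψ, a, b))) := by
        rw [map_congr h1, map_id']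
    _ ≤ map embS (𝓝 (ψ, a, b)) := by
        rw [← Function.comp_def embS, ← map_map]
        exact map_mono h3

theorem embS_eq_iff {p q : ℝ × ℝ × ℝ} :
    embS p = embS q ↔ p.2 = q.2 ∧ ∃ j : ℤ, q.1 = p.1 + 22 * j := by
  rw [Subtype.ext_iff]
  change emb _ _ _ = emb _ _ _ ↔ _
  rw [emb_eq_iff, Prod.ext_iff, and_assoc]

theorem embS_add22 (ψ : ℝ) (x : ℝ × ℝ) (j : ℤ) : embS (ψ + 22 * j, x) = embS (ψ, x) :=
  Subtype.ext (emb_add22 _ _ _ _)

/-- A set that is fibrewise star-shaped over an interval is contractible. -/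
theorem contractible_fibre {I : Set ℝ} (hI : Convex ℝ I) (hne : I.Nonempty) {S : Set (ℝ × ℝ × ℝ)}
    (hS : ∀ p ∈ S, p.1 ∈ I) {c : ℝ → ℝ × ℝ} (hc : ContinuousOn c I) (hm : ∀ ψ ∈ I, (ψ, c ψ) ∈ S)
    (hst : ∀ p ∈ S, ∀ s : ℝ, 0 ≤ s → s ≤ 1 → (p.1, (1 - s) • p.2 + s • c p.1) ∈ S) :
    ContractibleSpace S := by
  have := hI.contractibleSpace hne
  have hc' : Continuous fun x : I => c x.1 := continuousOn_iff_continuous_domRestrict.1 hc
  let f : C(S, I) := ⟨fun p => ⟨p.1.1, hS p.1 p.2⟩, by fun_prop⟩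
  let g : C(I, S) := ⟨fun x => ⟨(x.1, c x.1), hm x.1 x.2⟩,
    (continuous_subtype_val.prodMk hc').subtype_mk _⟩
  have hcf : Continuous fun p : S => c p.1.1 := hc'.comp f.continuous
  refine ContinuousMap.HomotopyEquiv.contractibleSpace (Y := I) ⟨f, g, ⟨?_⟩, ?_⟩
  · refine ContinuousMap.Homotopy.symm
      ⟨⟨fun q => ⟨(q.2.1.1, (1 - q.1.1) • q.2.1.2 + q.1.1 • c q.2.1.1),
        hst _ q.2.2 _ q.1.2.1 q.1.2.2⟩, ?_⟩, fun p => ?_, fun p => ?_⟩
    · refine Continuous.subtype_mk (Continuous.prodMk (by fun_prop) ?_) _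
      have h1 : Continuous fun q : unitInterval × S => (1 - q.1.1) • q.2.1.2 := by fun_prop
      have h2 : Continuous fun q : unitInterval × S => q.1.1 := by fun_prop
      exact h1.add (h2.smul (hcf.comp continuous_snd))
    · simp
    · simp [f, g]
  · exact ContinuousMap.Homotopic.refl _

/-- The image of a contractible set of angular width less than a full turn is contractible. -/
theorem contractible_embS {S : Set (ℝ × ℝ × ℝ)} (ho : IsOpen S) {α : ℝ}
    (hS : ∀ p ∈ S, α < p.1 ∧ p.1 < α + 22) [ContractibleSpace S] :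
    ContractibleSpace (embS '' S) := by
  have hinj : Function.Injective (S.domRestrict embS) := by
    intro p q h
    obtain ⟨h2, j, hj⟩ := embS_eq_iff.1 h
    have h1 := hS _ p.2
    have h3 := hS _ q.2
    have h4 : (-1 : ℝ) < j := by linarith
    have h5 : (j : ℝ) < 1 := by linarith
    have h6 : j = 0 := by
      have : (-1 : ℤ) < j := by exact_mod_cast h4
      have : j < 1 := by exact_mod_cast h5
      omega
    rw [h6] at hj
    exact Subtype.ext (Prod.ext (by simpa using hj.symm) h2)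
  have he : IsOpenEmbedding (S.domRestrict embS) :=
    IsOpenEmbedding.of_continuous_injective_isOpenMap
      (embS_continuous.comp continuous_subtype_val) hinj
      (embS_isOpenMap.comp ho.isOpenMap_subtype_val)
  rw [← range_domRestrict]
  exact he.isEmbedding.toHomeomorph.symm.contractibleSpace

/-- A subset of the sphere that is closed under moving towards `q` is contractible. -/
theorem contractible_star {U : Set S3} {q : S3} (hq : q ∈ U) (hne : ∀ v ∈ U, v.1 ≠ -q.1)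
    (hst : ∀ v ∈ U, ∀ s : ℝ, 0 < s → s < 1 → ∀ (w : S3) (r : ℝ), 0 < r →
      w.1 = r • ((1 - s) • v.1 + s • q.1) → w ∈ U) : ContractibleSpace U := by
  have hnz : ∀ (v : U) (s : unitInterval), (1 - s.1) • v.1.1 + s.1 • q.1 ≠ 0 := by
    intro v s h
    have hv : ‖v.1.1‖ = 1 := by simp
    have hq' : ‖q.1‖ = 1 := by simp
    have h1 : (1 - s.1) • v.1.1 = -(s.1 • q.1) := eq_neg_of_add_eq_zero_left h
    have h2 := congrArg norm h1
    rw [norm_neg, norm_smul, norm_smul, hv, hq', Real.norm_of_nonneg (sub_nonneg.2 s.2.2),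
      Real.norm_of_nonneg s.2.1] at h2
    have h3 : s.1 = 1 / 2 := by linarith
    rw [h3, ← smul_neg, show (1 : ℝ) - 1 / 2 = 1 / 2 by norm_num] at h1
    exact hne _ v.2 (smul_right_injective _ (by norm_num) h1)
  obtain ⟨F, hF⟩ : ∃ F : unitInterval × U → S3, ∀ x, (F x).1 =
      ‖(1 - x.1.1) • x.2.1.1 + x.1.1 • q.1‖⁻¹ • ((1 - x.1.1) • x.2.1.1 + x.1.1 • q.1) :=
    ⟨fun x => ⟨_, mem_sphere_zero_iff_norm.2 (norm_smul_inv_norm (𝕜 := ℝ) (hnz x.2 x.1))⟩,
      fun _ => rfl⟩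
  have hF0 : ∀ v : U, F (0, v) = v.1 := fun v => Subtype.ext (by rw [hF]; simp)
  have hF1 : ∀ v : U, F (1, v) = q := fun v => Subtype.ext (by rw [hF]; simp)
  have hFU : ∀ x, F x ∈ U := by
    rintro ⟨s, v⟩
    rcases s.2.1.eq_or_lt with h0 | h0
    · rw [show s = 0 from Subtype.ext h0.symm, hF0]
      exact v.2
    rcases s.2.2.eq_or_lt with h1 | h1
    · rw [show s = 1 from Subtype.ext h1, hF1]
      exact hq
    exact hst _ v.2 s.1 h0 h1 _ _ (inv_pos.2 (norm_pos_iff.2 (hnz v s))) (hF _)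
  have hFc : Continuous F := by
    have h1 : Continuous fun x : unitInterval × U => (1 - x.1.1) • x.2.1.1 + x.1.1 • q.1 := by
      fun_prop
    rw [continuous_induced_rng]
    exact ((h1.norm.inv₀ fun x => norm_ne_zero_iff.2 (hnz x.2 x.1)).smul h1).congr
      fun x => (hF x).symm
  rw [contractible_iff_id_nullhomotopic]
  exact ⟨⟨q, hq⟩, ⟨⟨⟨fun x => ⟨F x, hFU x⟩, hFc.subtype_mk _⟩, fun v => Subtype.ext (hF0 v),
    fun v => Subtype.ext (hF1 v)⟩⟩⟩

end Pool.Agent.MP_bc14e1_gt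

end

section

/-! The parametrised closed braid: cases, smoothness, symmetry. -/

open Set Metric
open scoped ContDiff

namespace Pool.Agent.MP_bc14e1_gt

theorem Knot_sd_cases (k : ℤ) : (sd k : ℝ) = 1 ∨ (sd k : ℝ) = -1 := by
  rcases sd_cases k with h | h <;> rw [h] <;> simp

theorem Knot_c1 {ψ : ℝ} (h : pos ⌊ψ⌋ = 0) : cA ψ = sd ⌊ψ⌋ * stp (Int.fract ψ) ∧
    cB ψ = stp (Int.fract ψ) * (1 - stp (Int.fract ψ)) := by
  have h1 : pos (⌊ψ⌋ + 1) = sd ⌊ψ⌋ := by
    have := pos_cases ⌊ψ⌋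
    have := sd_cases ⌊ψ⌋
    omega
  unfold cA cB
  rw [h, h1]
  rcases Knot_sd_cases ⌊ψ⌋ with h2 | h2 <;> rw [h2] <;> constructor <;> push_cast <;> ring

theorem Knot_c2 {ψ : ℝ} (h : pos ⌊ψ⌋ = sd ⌊ψ⌋) : cA ψ = sd ⌊ψ⌋ * (1 - stp (Int.fract ψ)) ∧
    cB ψ = -(stp (Int.fract ψ) * (1 - stp (Int.fract ψ))) := by
  have h1 : pos (⌊ψ⌋ + 1) = 0 := by
    have := pos_cases ⌊ψ⌋
    have := sd_cases ⌊ψ⌋
    omega
  unfold cA cB
  rw [h, h1]
  rcases Knot_sd_cases ⌊ψ⌋ with h2 | h2 <;> rw [h2] <;> constructor <;> push_cast <;> ring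

theorem Knot_c3 {ψ : ℝ} (h : pos ⌊ψ⌋ = -sd ⌊ψ⌋) : cA ψ = -sd ⌊ψ⌋ ∧ cB ψ = 0 := by
  have h1 : pos (⌊ψ⌋ + 1) = -sd ⌊ψ⌋ := by
    have := pos_cases ⌊ψ⌋
    have := sd_cases ⌊ψ⌋
    omega
  unfold cA cB
  rw [h, h1]
  constructor <;> push_cast <;> ring

theorem Knot_tri (k : ℤ) : pos k = 0 ∨ pos k = sd k ∨ pos k = -sd k := by
  have := pos_cases k
  omega

theorem Knot_range : range kap = Kset := by
  ext v
  constructor
  · rintro ⟨ψ, rfl⟩
    refine ⟨ψ, cA ψ, cB ψ, ?_, rfl⟩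
    rcases Knot_tri ⌊ψ⌋ with h | h | h
    · exact Or.inl (Knot_c1 h)
    · exact Or.inr (Or.inl (Knot_c2 h))
    · exact Or.inr (Or.inr (Knot_c3 h))
  · rintro ⟨ψ, a, b, h, rfl⟩
    obtain ⟨⟨j1, h1⟩, ⟨j2, h2⟩, ⟨j3, h3⟩⟩ := pos_surj ⌊ψ⌋
    rcases h with ⟨ha, hb⟩ | ⟨ha, hb⟩ | ⟨ha, hb⟩
    · have h4 := Knot_c1 (ψ := ψ + 22 * j1) (by rw [floor_add22, h1])
      rw [floor_add22, fract_add22, sd_add_mul] at h4
      exact ⟨ψ + 22 * j1, by rw [kap, h4.1, h4.2, emb_add22, ha, hb]⟩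
    · have h4 := Knot_c2 (ψ := ψ + 22 * j2) (by rw [floor_add22, h2, sd_add_mul])
      rw [floor_add22, fract_add22, sd_add_mul] at h4
      exact ⟨ψ + 22 * j2, by rw [kap, h4.1, h4.2, emb_add22, ha, hb]⟩
    · have h4 := Knot_c3 (ψ := ψ + 22 * j3) (by rw [floor_add22, h3, sd_add_mul])
      rw [floor_add22, sd_add_mul] at h4
      exact ⟨ψ + 22 * j3, by rw [kap, h4.1, h4.2, emb_add22, ha, hb]⟩

theorem Knot_near_gen (Φ : ℤ → ℝ → ℝ) (c : ℤ → ℝ) (h0 : ∀ k τ, τ ≤ 1 / 3 → Φ k τ = c k)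
    (h1 : ∀ k τ, 2 / 3 ≤ τ → Φ k τ = c (k + 1)) (k : ℤ) (y : ℝ) (ha : (k : ℝ) - 1 / 3 ≤ y)
    (hb : y ≤ k + 1 / 3) : Φ ⌊y⌋ (Int.fract y) = c k := by
  rcases le_or_gt (k : ℝ) y with h | h
  · have h2 : ⌊y⌋ = k := Int.floor_eq_iff.2 ⟨h, by linarith⟩
    rw [h0 _ _ (by rw [Int.fract, h2]; linarith), h2]
  · have h2 : ⌊y⌋ = k - 1 := Int.floor_eq_iff.2 ⟨by push_cast; linarith, by push_cast; linarith⟩
    rw [h1 _ _ (by rw [Int.fract, h2]; push_cast; linarith), h2, sub_add_cancel]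

theorem Knot_smooth_gen (Φ : ℤ → ℝ → ℝ) (c : ℤ → ℝ) (hΦ : ∀ k, ContDiff ℝ ∞ (Φ k))
    (h0 : ∀ k τ, τ ≤ 1 / 3 → Φ k τ = c k) (h1 : ∀ k τ, 2 / 3 ≤ τ → Φ k τ = c (k + 1)) :
    ContDiff ℝ ∞ fun y : ℝ => Φ ⌊y⌋ (Int.fract y) := by
  rw [contDiff_iff_contDiffAt]
  intro x
  rcases (Int.floor_le x).eq_or_lt with h | h
  · refine (contDiffAt_const (c := c ⌊x⌋)).congr_of_eventuallyEq ?_
    filter_upwards [Ioo_mem_nhds (show x - 1 / 3 < x by linarith) (show x < x + 1 / 3 by linarith)]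
      with y hy
    exact Knot_near_gen Φ c h0 h1 ⌊x⌋ y (by rw [h]; exact hy.1.le) (by rw [h]; exact hy.2.le)
  · have h2 : ContDiffAt ℝ ∞ (fun y : ℝ => Φ ⌊x⌋ (y - ⌊x⌋)) x :=
      ((hΦ ⌊x⌋).comp (contDiff_id.sub contDiff_const)).contDiffAt
    refine h2.congr_of_eventuallyEq ?_
    filter_upwards [Ioo_mem_nhds h (Int.lt_floor_add_one x)] with y hy
    have h3 : ⌊y⌋ = ⌊x⌋ := Int.floor_eq_iff.2 ⟨hy.1.le, hy.2⟩
    rw [Int.fract, h3]

theorem Knot_cA_near (k : ℤ) (y : ℝ) (ha : (k : ℝ) - 1 / 3 ≤ y) (hb : y ≤ k + 1 / 3) :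
    cA y = pos k :=
  Knot_near_gen (fun k τ => pos k + (pos (k + 1) - pos k) * stp τ) (fun k => pos k)
    (fun k τ h => by rw [stp_zero h]; ring) (fun k τ h => by rw [stp_one h]; ring) k y ha hb

theorem Knot_cB_near (k : ℤ) (y : ℝ) (ha : (k : ℝ) - 1 / 3 ≤ y) (hb : y ≤ k + 1 / 3) :
    cB y = 0 :=
  Knot_near_gen (fun k τ => sd k * (pos (k + 1) - pos k) * (stp τ * (1 - stp τ))) (fun _ => 0)
    (fun k τ h => by rw [stp_zero h]; ring) (fun k τ h => by rw [stp_one h]; ring) k y ha hb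

theorem Knot_cA_smooth : ContDiff ℝ ∞ cA :=
  Knot_smooth_gen (fun k τ => pos k + (pos (k + 1) - pos k) * stp τ) (fun k => pos k)
    (fun _ => contDiff_const.add (contDiff_const.mul stp_contDiff))
    (fun k τ h => by rw [stp_zero h]; ring) (fun k τ h => by rw [stp_one h]; ring)

theorem Knot_cB_smooth : ContDiff ℝ ∞ cB :=
  Knot_smooth_gen (fun k τ => sd k * (pos (k + 1) - pos k) * (stp τ * (1 - stp τ))) (fun _ => 0)
    (fun _ => contDiff_const.mul (stp_contDiff.mul (contDiff_const.sub stp_contDiff)))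
    (fun k τ h => by rw [stp_zero h]; ring) (fun k τ h => by rw [stp_one h]; ring)

theorem Knot_kap_smooth : ContDiff ℝ ∞ kap :=
  emb_contDiff.comp (contDiff_id.prodMk (Knot_cA_smooth.prodMk Knot_cB_smooth))

theorem Knot_add66 (ψ : ℝ) (j : ℤ) : kap (ψ + 66 * j) = kap ψ := by
  have h : ψ + 66 * j = ψ + 22 * ((3 * j : ℤ) : ℝ) := by push_cast; ring
  have h1 : pos (⌊ψ⌋ + 22 * (3 * j)) = pos ⌊ψ⌋ := by
    rw [show ⌊ψ⌋ + 22 * (3 * j) = ⌊ψ⌋ + 66 * j by ring, pos_add66]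
  have h2 : pos (⌊ψ⌋ + 22 * (3 * j) + 1) = pos (⌊ψ⌋ + 1) := by
    rw [show ⌊ψ⌋ + 22 * (3 * j) + 1 = ⌊ψ⌋ + 1 + 66 * j by ring, pos_add66]
  unfold kap cA cB
  rw [h, floor_add22, fract_add22, sd_add_mul, h1, h2, emb_add22]

theorem Knot_inj {ψ ψ' : ℝ} (h : kap ψ = kap ψ') : ∃ j : ℤ, ψ' = ψ + 66 * j := by
  obtain ⟨ha, hb, j, rfl⟩ := emb_eq_iff.1 h
  have key : pos (⌊ψ⌋ + 22 * j) = pos ⌊ψ⌋ := by
    have s0 := stp_nonneg (Int.fract ψ)
    have s1 := stp_le_one (Int.fract ψ)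
    have hs := Knot_sd_cases ⌊ψ⌋
    have t := Knot_tri ⌊ψ + 22 * j⌋
    have c1 := Knot_c1 (ψ := ψ + 22 * j)
    have c2 := Knot_c2 (ψ := ψ + 22 * j)
    have c3 := Knot_c3 (ψ := ψ + 22 * j)
    rw [← ha, ← hb] at c1 c2 c3
    rw [floor_add22, sd_add_mul] at t c1 c2 c3
    rw [fract_add22] at c1 c2
    rcases Knot_tri ⌊ψ⌋ with h1 | h1 | h1 <;> rcases t with h2 | h2 | h2
    all_goals first
      | (rw [h1, h2]; done)
      | exfalso
    · obtain ⟨e1, e2⟩ := Knot_c1 h1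
      obtain ⟨e3, e4⟩ := c2 h2
      rcases hs with hs | hs <;> rw [hs] at e1 e3 <;> nlinarith
    · obtain ⟨e1, e2⟩ := Knot_c1 h1
      obtain ⟨e3, e4⟩ := c3 h2
      rcases hs with hs | hs <;> rw [hs] at e1 e3 <;> linarith
    · obtain ⟨e1, e2⟩ := Knot_c2 h1
      obtain ⟨e3, e4⟩ := c1 h2
      rcases hs with hs | hs <;> rw [hs] at e1 e3 <;> nlinarith
    · obtain ⟨e1, e2⟩ := Knot_c2 h1
      obtain ⟨e3, e4⟩ := c3 h2
      rcases hs with hs | hs <;> rw [hs] at e1 e3 <;> linarith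
    · obtain ⟨e1, e2⟩ := Knot_c3 h1
      obtain ⟨e3, e4⟩ := c1 h2
      rcases hs with hs | hs <;> rw [hs] at e1 e3 <;> linarith
    · obtain ⟨e1, e2⟩ := Knot_c3 h1
      obtain ⟨e3, e4⟩ := c2 h2
      rcases hs with hs | hs <;> rw [hs] at e1 e3 <;> linarith
  obtain ⟨q, rfl⟩ := pos_inj key
  exact ⟨q, by push_cast; ring⟩

theorem Knot_compact : IsCompact Kset := by
  rw [← Knot_range]
  have hp : Function.Periodic kap 66 := fun x => by simpa using Knot_add66 x 1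
  exact hp.compact_of_continuous (by norm_num) Knot_kap_smooth.continuous

theorem Knot_c_neg (x : ℝ) : cA (-x) = -cA x ∧ cB (-x) = -cB x := by
  by_cases hx : Int.fract x = 0
  · have h : (⌊x⌋ : ℝ) = x := by
      have := Int.fract_add_floor x
      linarith
    rw [Knot_cA_near (-⌊x⌋) (-x) (by push_cast; linarith) (by push_cast; linarith),
      Knot_cB_near (-⌊x⌋) (-x) (by push_cast; linarith) (by push_cast; linarith),
      Knot_cA_near ⌊x⌋ x (by linarith) (by linarith),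
      Knot_cB_near ⌊x⌋ x (by linarith) (by linarith), pos_neg]
    simp
  · have h0 : (⌊x⌋ : ℝ) < x := by
      have h1 := Int.fract_add_floor x
      have h2 := (Int.fract_nonneg x).lt_of_ne' hx
      linarith
    have h1 := Int.lt_floor_add_one x
    have h : ⌊-x⌋ = -⌊x⌋ - 1 :=
      Int.floor_eq_iff.2 ⟨by push_cast; linarith, by push_cast; linarith⟩
    have h2 : pos (-⌊x⌋ - 1) = -pos (⌊x⌋ + 1) := by
      rw [← pos_neg]
      congr 1
      ring
    unfold cA cB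
    rw [h, Int.fract_neg hx, stp_one_sub, sd_neg, sub_add_cancel, h2, pos_neg]
    constructor <;> push_cast <;> ring

theorem Knot_kap_neg (x : ℝ) : kap (-x) 0 = kap x 0 ∧ kap (-x) 1 = -kap x 1 ∧
    kap (-x) 2 = -kap x 2 ∧ kap (-x) 3 = -kap x 3 := by
  have h : Real.pi * -x / 11 = -(Real.pi * x / 11) := by ring
  unfold kap
  rw [(Knot_c_neg x).1, (Knot_c_neg x).2]
  simp only [emb_0, emb_1, emb_2, emb_3]
  rw [h]
  simp only [Real.cos_neg, Real.sin_neg, neg_sq, mul_neg, and_self]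

theorem Knot_kap_33 : kap 33 = !₂[-1, 0, 0, 0] := by
  have ha : cA 33 = 0 := by
    rw [Knot_cA_near 33 33 (by norm_num) (by norm_num), pos_33, Int.cast_zero]
  have hb : cB 33 = 0 := Knot_cB_near 33 33 (by norm_num) (by norm_num)
  have h : Real.pi * 33 / 11 = Real.pi + 2 * Real.pi := by ring
  unfold kap
  rw [ha, hb]
  refine E4_ext ?_ ?_ ?_ ?_
  · rw [emb_0, h, Real.cos_add_two_pi]
    simp
  · rw [emb_1, h, Real.sin_add_two_pi]
    simp
  · rw [emb_2]
    simp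
  · rw [emb_3]
    simp

theorem Knot_ne_pole {ψ : ℝ} (h1 : -33 < ψ) (h2 : ψ < 33) : 1 + kap ψ 0 ≠ 0 := by
  intro h
  have hn : ‖kap ψ‖ = 1 := norm_emb _ _ _
  have h3 := E4_norm_sq (kap ψ)
  have h0 : kap ψ 0 = -1 := by linarith
  rw [hn, h0] at h3
  have e1 : kap ψ 1 = 0 := by nlinarith [sq_nonneg (kap ψ 1), sq_nonneg (kap ψ 2), sq_nonneg (kap ψ 3)]
  have e2 : kap ψ 2 = 0 := by nlinarith [sq_nonneg (kap ψ 1), sq_nonneg (kap ψ 2), sq_nonneg (kap ψ 3)]
  have e3 : kap ψ 3 = 0 := by nlinarith [sq_nonneg (kap ψ 1), sq_nonneg (kap ψ 2), sq_nonneg (kap ψ 3)]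
  have h4 : kap ψ = kap 33 := by
    rw [Knot_kap_33]
    exact E4_ext (by simpa using h0) (by simpa using e1) (by simpa using e2) (by simpa using e3)
  obtain ⟨j, hj⟩ := Knot_inj h4
  have h5 : (0 : ℝ) < j := by linarith
  have h6 : (j : ℝ) < 1 := by linarith
  have h7 : 0 < j := by exact_mod_cast h5
  have h8 : j < 1 := by exact_mod_cast h6
  omega

end Pool.Agent.MP_bc14e1_gt

end

section

/-! The closed braid is the closure of an odd long knot. -/

open Set Metric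
open scoped ContDiff

namespace Pool.Agent.MP_bc14e1_gt

theorem range_kap : range kap = Kset := Knot_range

theorem cA_contDiff : ContDiff ℝ ∞ cA := Knot_cA_smooth

theorem cB_contDiff : ContDiff ℝ ∞ cB := Knot_cB_smooth

theorem kap_contDiff : ContDiff ℝ ∞ kap := Knot_kap_smooth

theorem kap_add66 (ψ : ℝ) (j : ℤ) : kap (ψ + 66 * j) = kap ψ := Knot_add66 ψ j

theorem kap_inj {ψ ψ' : ℝ} (h : kap ψ = kap ψ') : ∃ j : ℤ, ψ' = ψ + 66 * j := Knot_inj h

theorem isCompact_Kset : IsCompact Kset := Knot_compact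

/-- An odd monotone step from `-1` to `1`. -/
noncomputable def Knot_g (t : ℝ) : ℝ := 2 * Real.smoothTransition ((t + 1) / 2) - 1

/-- The reparametrisation of the line onto `(-33, 33)`. -/
noncomputable def Knot_psi (t : ℝ) : ℝ := 22 / Real.pi * Real.arctan t + 22 * Knot_g t

theorem Knot_g_smooth : ContDiff ℝ ∞ Knot_g :=
  (contDiff_const.mul (Real.smoothTransition.contDiff.comp
    ((contDiff_id.add contDiff_const).div_const 2))).sub contDiff_const

theorem Knot_g_mono : Monotone Knot_g := by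
  intro s t h
  have := Real.smoothTransition.monotone (show (s + 1) / 2 ≤ (t + 1) / 2 by linarith)
  unfold Knot_g
  linarith

theorem Knot_g_neg (t : ℝ) : Knot_g (-t) = -Knot_g t := by
  unfold Knot_g
  rw [show (-t + 1) / 2 = 1 - (t + 1) / 2 by ring, smoothTransition_one_sub]
  ring

theorem Knot_g_one {t : ℝ} (h : 1 ≤ t) : Knot_g t = 1 := by
  unfold Knot_g
  rw [Real.smoothTransition.one_of_one_le (by linarith)]
  ring

theorem Knot_g_le (t : ℝ) : Knot_g t ≤ 1 := by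
  have := Real.smoothTransition.le_one ((t + 1) / 2)
  unfold Knot_g
  linarith

theorem Knot_psi_smooth : ContDiff ℝ ∞ Knot_psi :=
  (contDiff_const.mul Real.contDiff_arctan).add (contDiff_const.mul Knot_g_smooth)

theorem Knot_psi_neg (t : ℝ) : Knot_psi (-t) = -Knot_psi t := by
  unfold Knot_psi
  rw [Real.arctan_neg, Knot_g_neg]
  ring

theorem Knot_psi_mono : StrictMono Knot_psi := by
  intro s t h
  have h1 := mul_lt_mul_of_pos_left (Real.arctan_strictMono h)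
    (div_pos (by norm_num : (0 : ℝ) < 22) Real.pi_pos)
  have h2 := Knot_g_mono h.le
  unfold Knot_psi
  linarith

theorem Knot_psi_lt (t : ℝ) : Knot_psi t < 33 := by
  have h1 := mul_lt_mul_of_pos_left (Real.arctan_lt_pi_div_two t)
    (div_pos (by norm_num : (0 : ℝ) < 22) Real.pi_pos)
  have h2 : 22 / Real.pi * (Real.pi / 2) = 11 := by
    field_simp
    norm_num
  have h3 := Knot_g_le t
  unfold Knot_psi
  linarith

theorem Knot_psi_gt (t : ℝ) : -33 < Knot_psi t := by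
  have := Knot_psi_lt (-t)
  rw [Knot_psi_neg] at this
  linarith

theorem Knot_psi_ev {y : ℝ} (hy : y < 33) : ∀ᶠ t in Filter.atTop, y < Knot_psi t := by
  have h1 : Filter.Tendsto (fun t => 22 / Real.pi * Real.arctan t + 22) Filter.atTop
      (nhds (22 / Real.pi * (Real.pi / 2) + 22)) :=
    ((Real.tendsto_arctan_atTop.mono_right nhdsWithin_le_nhds).const_mul _).add_const _
  have h2 : 22 / Real.pi * (Real.pi / 2) + 22 = 33 := by
    field_simp
    norm_num
  rw [h2] at h1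
  filter_upwards [h1.eventually (lt_mem_nhds hy), Filter.eventually_ge_atTop (1 : ℝ)] with t h3 h4
  unfold Knot_psi
  rw [Knot_g_one h4, mul_one]
  exact h3

theorem Knot_psi_surj {y : ℝ} (h1 : -33 < y) (h2 : y < 33) : ∃ t, Knot_psi t = y := by
  obtain ⟨b, hb⟩ := (Knot_psi_ev h2).exists
  obtain ⟨a, ha⟩ := (Knot_psi_ev (y := -y) (by linarith)).exists
  exact intermediate_value_univ (-a) b Knot_psi_smooth.continuous
    ⟨by rw [Knot_psi_neg]; linarith, hb.le⟩

theorem Knot_psi_deriv (t : ℝ) : ∃ d, 0 < d ∧ HasDerivAt Knot_psi d t := by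
  have h1 : HasDerivAt Knot_g (deriv Knot_g t) t :=
    (Knot_g_smooth.differentiable (by simp) t).hasDerivAt
  have h2 := h1.nonneg_of_monotone Knot_g_mono
  refine ⟨_, ?_, ((Real.hasDerivAt_arctan t).const_mul (22 / Real.pi)).add (h1.const_mul 22)⟩
  have := Real.pi_pos
  positivity

/-- Stereographic projection. -/
noncomputable def Knot_st (v : E 4) : E 3 := (1 + v 0)⁻¹ • !₂[v 1, v 2, v 3]

theorem Knot_st0 (v : E 4) : Knot_st v 0 = (1 + v 0)⁻¹ * v 1 := by simp [Knot_st]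

theorem Knot_st1 (v : E 4) : Knot_st v 1 = (1 + v 0)⁻¹ * v 2 := by simp [Knot_st]

theorem Knot_st2 (v : E 4) : Knot_st v 2 = (1 + v 0)⁻¹ * v 3 := by simp [Knot_st]

theorem Knot_E3_ext {v w : E 3} (h0 : v 0 = w 0) (h1 : v 1 = w 1) (h2 : v 2 = w 2) : v = w := by
  ext i
  fin_cases i
  exacts [h0, h1, h2]

theorem Knot_stereo (v : E 4) (hv : ‖v‖ = 1) (h : 1 + v 0 ≠ 0) : stereoInv (Knot_st v) = v := by
  have h1 := E4_norm_sq v
  rw [hv] at h1
  have h2 : ‖Knot_st v‖ ^ 2 = (1 - v 0) / (1 + v 0) := by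
    rw [EuclideanSpace.real_norm_sq_eq, Fin.sum_univ_three, Knot_st0, Knot_st1, Knot_st2]
    field_simp
    linarith
  have h3 : (1 + ‖Knot_st v‖ ^ 2)⁻¹ = (1 + v 0) / 2 := by
    rw [h2]
    field_simp
    ring
  unfold stereoInv
  rw [h3, h2]
  refine E4_ext ?_ ?_ ?_ ?_
  · simp
    field_simp
    ring
  · simp [Knot_st0]
    field_simp
  · simp [Knot_st1]
    field_simp
  · simp [Knot_st2]
    field_simp

theorem Knot_stereoInv_smooth : ContDiff ℝ ∞ stereoInv := by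
  unfold stereoInv
  have h : ContDiff ℝ ∞ fun w : E 3 => ‖w‖ ^ 2 := contDiff_norm_sq ℝ
  refine ContDiff.smul ((contDiff_const.add h).inv fun w => by positivity) ?_
  rw [contDiff_euclidean]
  intro i
  fin_cases i
  · simpa using contDiff_const.sub h
  all_goals simp
  all_goals fun_prop

/-- The long knot. -/
noncomputable def Knot_f (t : ℝ) : E 3 := Knot_st (kap (Knot_psi t))

theorem Knot_f_ne (t : ℝ) : 1 + kap (Knot_psi t) 0 ≠ 0 :=
  Knot_ne_pole (Knot_psi_gt t) (Knot_psi_lt t)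

theorem Knot_f_inv (t : ℝ) : stereoInv (Knot_f t) = kap (Knot_psi t) :=
  Knot_stereo _ (norm_emb _ _ _) (Knot_f_ne t)

theorem Knot_f_smooth : ContDiff ℝ ∞ Knot_f := by
  have h : ∀ i, ContDiff ℝ ∞ fun t => kap (Knot_psi t) i :=
    contDiff_euclidean.1 (kap_contDiff.comp Knot_psi_smooth)
  unfold Knot_f Knot_st
  refine ContDiff.smul ((contDiff_const.add (h 0)).inv Knot_f_ne) ?_
  rw [contDiff_euclidean]
  intro i
  fin_cases i
  · simpa using h 1
  · simpa using h 2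
  · simpa using h 3

theorem Knot_f_inj : Function.Injective Knot_f := by
  intro s t h
  have h1 : kap (Knot_psi s) = kap (Knot_psi t) := by rw [← Knot_f_inv, ← Knot_f_inv, h]
  obtain ⟨j, hj⟩ := kap_inj h1
  have a1 := Knot_psi_lt s
  have a2 := Knot_psi_lt t
  have a3 := Knot_psi_gt s
  have a4 := Knot_psi_gt t
  have h5 : (-1 : ℝ) < j := by linarith
  have h6 : (j : ℝ) < 1 := by linarith
  have h7 : -1 < j := by exact_mod_cast h5
  have h8 : j < 1 := by exact_mod_cast h6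
  have h9 : j = 0 := by omega
  rw [h9, Int.cast_zero, mul_zero, add_zero] at hj
  exact (Knot_psi_mono.injective hj).symm

theorem Knot_f_neg (t : ℝ) : Knot_f (-t) = -Knot_f t := by
  obtain ⟨h0, h1, h2, h3⟩ := Knot_kap_neg (Knot_psi t)
  unfold Knot_f
  rw [Knot_psi_neg]
  refine Knot_E3_ext ?_ ?_ ?_
  · rw [PiLp.neg_apply, Knot_st0, Knot_st0, h0, h1, mul_neg]
  · rw [PiLp.neg_apply, Knot_st1, Knot_st1, h0, h2, mul_neg]
  · rw [PiLp.neg_apply, Knot_st2, Knot_st2, h0, h3, mul_neg]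

theorem Knot_f_imm (t : ℝ) : deriv Knot_f t ≠ 0 := by
  intro h
  have h1 : HasDerivAt Knot_f 0 t := h ▸ (Knot_f_smooth.differentiable (by simp) t).hasDerivAt
  have h2 := (Knot_stereoInv_smooth.differentiable (by simp) (Knot_f t)).hasFDerivAt.comp_hasDerivAt
    t h1
  rw [map_zero] at h2
  have h3 : stereoInv ∘ Knot_f = fun s => kap (Knot_psi s) := funext Knot_f_inv
  rw [h3] at h2
  have h4 : ∀ i, HasDerivAt (fun s => kap (Knot_psi s) i) 0 t := fun i => by
    have h0 := (EuclideanSpace.proj (𝕜 := ℝ) i).hasFDerivAt.comp_hasDerivAt t h2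
    rw [map_zero] at h0
    exact h0
  set θ : ℝ := Real.pi * Knot_psi t / 11 with hθ
  have h5 := ((h4 0).const_mul (-Real.sin θ)).add ((h4 1).const_mul (Real.cos θ))
  obtain ⟨d, hd, hψ⟩ := Knot_psi_deriv t
  let n : ℝ → ℝ := fun s => (√(1 + cA (Knot_psi s) ^ 2 + cB (Knot_psi s) ^ 2))⁻¹
  have hn : ContDiff ℝ ∞ n :=
    ContDiff.inv (ContDiff.sqrt ((contDiff_const.add
      ((cA_contDiff.comp Knot_psi_smooth).pow 2)).add ((cB_contDiff.comp Knot_psi_smooth).pow 2))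
      fun s => by positivity) fun s => (nrm_pos _ _).ne'
  have hn0 : 0 < n t := inv_pos.2 (nrm_pos _ _)
  have h6 := (hn.differentiable (by simp) t).hasDerivAt.mul
    ((((hψ.const_mul Real.pi).div_const 11).sub_const θ).sin)
  have h7 : (n * fun s => Real.sin (Real.pi * Knot_psi s / 11 - θ)) =
      (fun s => -Real.sin θ * kap (Knot_psi s) 0) + fun s => Real.cos θ * kap (Knot_psi s) 1 := by
    funext s
    simp only [Pi.mul_apply, Pi.add_apply, kap, emb_0, emb_1, Real.sin_sub, n]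
    ring
  rw [h7] at h6
  have h8 := h5.unique h6
  rw [← hθ, sub_self, Real.sin_zero, Real.cos_zero] at h8
  have h9 : 0 < n t * (1 * (Real.pi * d / 11)) := by
    have := Real.pi_pos
    positivity
  linarith

theorem Knot_f_far : ∃ R₀ : ℝ, 0 < R₀ ∧ ∀ t, R₀ ≤ |t| → Knot_f t = EuclideanSpace.single 0 t := by
  have key : ∀ᶠ t in Filter.atTop, Knot_f t = EuclideanSpace.single 0 t := by
    filter_upwards [Knot_psi_ev (y := 33 - 1 / 3) (by norm_num),
      Filter.eventually_ge_atTop (1 : ℝ)] with t h1 h2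
    have h3 := Knot_psi_lt t
    have ha : cA (Knot_psi t) = 0 := by
      rw [Knot_cA_near 33 _ (by push_cast; linarith) (by push_cast; linarith), pos_33,
        Int.cast_zero]
    have hb : cB (Knot_psi t) = 0 :=
      Knot_cB_near 33 _ (by push_cast; linarith) (by push_cast; linarith)
    have h4 : Real.pi * Knot_psi t / 11 = 2 * Real.arctan t + 2 * Real.pi := by
      unfold Knot_psi
      rw [Knot_g_one h2]
      field_simp
      ring
    have hc := Real.cos_arctan_pos t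
    have h5 : Real.sin (Real.arctan t) = t * Real.cos (Real.arctan t) := by
      have := Real.tan_arctan t
      rw [Real.tan_eq_sin_div_cos, div_eq_iff hc.ne'] at this
      exact this
    unfold Knot_f kap
    rw [ha, hb]
    refine Knot_E3_ext ?_ ?_ ?_
    · rw [Knot_st0, emb_0, emb_1, h4, Real.cos_add_two_pi, Real.sin_add_two_pi, Real.cos_two_mul,
        Real.sin_two_mul, h5]
      simp
      field_simp
    · rw [Knot_st1, emb_2]
      simp
    · rw [Knot_st2, emb_3]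
      simp
  obtain ⟨a, ha⟩ := Filter.eventually_atTop.1 key
  refine ⟨max a 1, lt_of_lt_of_le one_pos (le_max_right _ _), fun t ht => ?_⟩
  rcases le_total 0 t with h | h
  · rw [abs_of_nonneg h] at ht
    exact ha t ((le_max_left _ _).trans ht)
  · rw [abs_of_nonpos h] at ht
    have h1 := ha (-t) ((le_max_left _ _).trans ht)
    rw [Knot_f_neg, neg_eq_iff_eq_neg] at h1
    rw [h1]
    refine Knot_E3_ext ?_ ?_ ?_ <;> simp

theorem Knot_closeUp : closeUp Knot_f = Kset := by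
  rw [← range_kap, closeUp, ← Knot_kap_33]
  ext v
  constructor
  · rintro (rfl | ⟨t, rfl⟩)
    · exact ⟨33, rfl⟩
    · exact ⟨_, (Knot_f_inv t).symm⟩
  · rintro ⟨ψ, rfl⟩
    obtain ⟨m, hm, -⟩ := existsUnique_add_zsmul_mem_Ioc (show (0 : ℝ) < 66 by norm_num) ψ (-33)
    rw [zsmul_eq_mul, mul_comm] at hm
    rw [← kap_add66 ψ m]
    rcases hm.2.eq_or_lt with h | h
    · left
      rw [h]
      norm_num
    · obtain ⟨t, ht⟩ := Knot_psi_surj hm.1 (by linarith)
      exact Or.inr ⟨t, by rw [← ht]; exact Knot_f_inv t⟩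

theorem exists_longKnot : ∃ K : LongKnot, closeUp K.f = Kset ∧ (∀ t, K.f (-t) = -K.f t) ∧
    ∃ R₀ < K.R, ∀ t, R₀ ≤ |t| → K.f t = EuclideanSpace.single 0 t := by
  obtain ⟨R₀, h0, h1⟩ := Knot_f_far
  obtain ⟨B, hB⟩ := (isCompact_Icc (a := -R₀) (b := R₀)).exists_bound_of_continuousOn
    Knot_f_smooth.continuous.continuousOn
  have h2 : R₀ < max R₀ B + 1 := lt_of_le_of_lt (le_max_left _ _) (lt_add_one _)
  have h3 : B < max R₀ B + 1 := lt_of_le_of_lt (le_max_right _ _) (lt_add_one _)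
  refine ⟨⟨Knot_f, max R₀ B + 1, h0.trans h2, Knot_f_smooth, Knot_f_inj, Knot_f_imm,
    fun t ht => h1 t (h2.le.trans ht), fun t ht => ?_⟩, Knot_closeUp, Knot_f_neg, R₀, h2, h1⟩
  rcases le_total |t| R₀ with h | h
  · exact (hB t (abs_le.1 h)).trans_lt h3
  · rw [h1 t h]
    simpa using ht

end Pool.Agent.MP_bc14e1_gt

end

section

/-! The open sets of the Dehn decomposition of the knot complement. -/

open Set Metric

namespace Pool.Agent.MP_bc14e1_gt

/-- The knot in the sphere. -/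
def KS : Set S3 := {v | v.1 ∈ Kset}

/-- The involution of the sphere. -/
noncomputable def iotS (v : S3) : S3 := ⟨iot v.1, by simp [norm_iot]⟩

/-- The pole `(0, 0, 0, ε)`. -/
noncomputable def pole (ε : Bool) : S3 :=
  ⟨EuclideanSpace.single 3 (if ε then 1 else -1), by cases ε <;> simp⟩

/-- Points not at or below the knot. -/
def Up : Set S3 :=
  (insert (pole false) (embS '' {p | ∃ b, Str p.1 p.2.1 b ∧ p.2.2 ≤ b}))ᶜ

/-- Points not at or above the knot. -/
def Um : Set S3 :=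
  (insert (pole true) (embS '' {p | ∃ b, Str p.1 p.2.1 b ∧ b ≤ p.2.2}))ᶜ

/-- The position of the middle strand. -/
noncomputable def mu (ψ : ℝ) : ℝ :=
  sd ⌊ψ⌋ * min (stp (Int.fract ψ)) (1 - stp (Int.fract ψ))

/-- The position of the outer strand on side `s`, multiplied by `s`. -/
noncomputable def hi (s ψ : ℝ) : ℝ := 1 - max (s * mu ψ) 0

/-- Distance to the next crossing on the same side. -/
def nxZ : ZMod 22 → ℤ := ![1, 3, 1, 4, 1, 1, 3, 1, 3, 1, 3, 1, 3, 1, 4, 1, 1, 3, 1, 3, 1, 3]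

/-- Distance to the next crossing on the same side. -/
def nx (k : ℤ) : ℤ := nxZ (k : ZMod 22)

/-- The region between two strands that starts at crossing `k`. -/
def Gap (k : ℤ) : Set S3 :=
  embS '' {p | k + 1 / 2 < p.1 ∧ p.1 < k + nx k + 1 / 2 ∧ sd k * mu p.1 < sd k * p.2.1 ∧
    sd k * p.2.1 < hi (sd k) p.1}

/-- The outer region on side `s`. -/
def Out (s : ℝ) : Set S3 :=
  embS '' {p | hi s p.1 < s * p.2.1} ∪ {v | rad v.1 < s * v.1 2}

/-- The `24` regions. -/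
def Reg (r : Fin 24) : Set S3 :=
  if (r : ℕ) < 22 then Gap (r : ℕ) else if (r : ℕ) = 22 then Out (-1) else Out 1

/-- The parameter domain of the box at crossing `k`. -/
def boxP (k : ℤ) : Set (ℝ × ℝ × ℝ) :=
  {p | k + 1 / 3 < p.1 ∧ p.1 < k + 2 / 3 ∧ -(1 / 2) < sd k * p.2.1 ∧
    |p.2.2| < stp (p.1 - k) * (1 - stp (p.1 - k))}

/-- The box between the two strands of crossing `k`. -/
def Box (k : Fin 22) : Set S3 := embS '' boxP (k : ℕ)

/-- The two sides of the over strand. -/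
def Bp (k : Fin 22) (i : Bool) : Set S3 :=
  embS '' (boxP (k : ℕ) ∩ {p | if i then stp (p.1 - (k : ℕ)) < sd (k : ℕ) * p.2.1
    else sd (k : ℕ) * p.2.1 < stp (p.1 - (k : ℕ))})

/-- The two sides of the under strand. -/
def Bm (k : Fin 22) (j : Bool) : Set S3 :=
  embS '' (boxP (k : ℕ) ∩ {p | if j then 1 - stp (p.1 - (k : ℕ)) < sd (k : ℕ) * p.2.1
    else sd (k : ℕ) * p.2.1 < 1 - stp (p.1 - (k : ℕ))})

/-- The region that contains the quadrant `(i, j)` of crossing `k`. -/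
def qd (k : Fin 22) : Bool → Bool → Fin 24
  | false, false =>
    ![21, 21, 1, 1, 3, 3, 3, 6, 6, 8, 8, 10, 10, 12, 12, 14, 14, 14, 17, 17, 19, 19] k
  | true, false =>
    ![19, 0, 21, 2, 1, 4, 5, 3, 7, 6, 9, 8, 11, 10, 13, 12, 15, 16, 14, 18, 17, 20] k
  | false, true => k.castLE (by norm_num)
  | true, true =>
    ![22, 22, 23, 23, 22, 22, 22, 23, 23, 22, 22, 23, 23, 22, 22, 23, 23, 23, 22, 22, 23, 23] k

/-- The action of the involution on regions. -/
def iotR : Fin 24 → Fin 24 :=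
  ![11, 12, 13, 14, 15, 16, 17, 18, 19, 20, 21, 0, 1, 2, 3, 4, 5, 6, 7, 8, 9, 10, 23, 22]

theorem iotS_embS (ψ a b : ℝ) : iotS (embS (ψ, a, b)) = embS (ψ + 11, -a, b) :=
  Subtype.ext (iot_emb ψ a b)

theorem embS_mem_KS {ψ a b : ℝ} : embS (ψ, a, b) ∈ KS ↔ Str ψ a b := emb_mem_Kset

theorem rad_pole (ε : Bool) : rad (pole ε).1 = 0 := rad_eq_zero.2 ⟨by simp [pole], by simp [pole]⟩

theorem embS_ne_pole (p : ℝ × ℝ × ℝ) (ε : Bool) : embS p ≠ pole ε := fun h =>
  (rad_emb_pos p.1 p.2.1 p.2.2).ne' (by rw [← rad_pole ε, ← h]; rfl)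

theorem embS_mem_Up {ψ a b : ℝ} : embS (ψ, a, b) ∈ Up ↔ ∀ b', Str ψ a b' → b' < b := by
  simp only [Up, mem_compl_iff, mem_insert_iff, embS_ne_pole, false_or]
  constructor
  · intro h b' hb
    by_contra hlt
    exact h ⟨(ψ, a, b), ⟨b', hb, not_lt.1 hlt⟩, rfl⟩
  · rintro h ⟨⟨ψ', a', b'⟩, ⟨c, hc, hle⟩, he⟩
    obtain ⟨h2, j, hj⟩ := embS_eq_iff.1 he
    obtain ⟨rfl, rfl⟩ := Prod.ext_iff.1 h2
    dsimp only at hj hc hle
    rw [hj] at h
    exact absurd (h c ((str_add22 j).2 hc)) (not_lt.2 hle)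

theorem embS_mem_Um {ψ a b : ℝ} : embS (ψ, a, b) ∈ Um ↔ ∀ b', Str ψ a b' → b < b' := by
  simp only [Um, mem_compl_iff, mem_insert_iff, embS_ne_pole, false_or]
  constructor
  · intro h b' hb
    by_contra hlt
    exact h ⟨(ψ, a, b), ⟨b', hb, not_lt.1 hlt⟩, rfl⟩
  · rintro h ⟨⟨ψ', a', b'⟩, ⟨c, hc, hle⟩, he⟩
    obtain ⟨h2, j, hj⟩ := embS_eq_iff.1 he
    obtain ⟨rfl, rfl⟩ := Prod.ext_iff.1 h2
    dsimp only at hj hc hle
    rw [hj] at h
    exact absurd (h c ((str_add22 j).2 hc)) (not_lt.2 hle)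

theorem mem_Up_of_rad {v : S3} (h : rad v.1 = 0) : v ∈ Up ↔ v ≠ pole false := by
  simp only [Up, mem_compl_iff, mem_insert_iff, not_or, and_iff_left_iff_imp]
  rintro - ⟨p, -, rfl⟩
  exact (rad_emb_pos p.1 p.2.1 p.2.2).ne' h

theorem mem_Um_of_rad {v : S3} (h : rad v.1 = 0) : v ∈ Um ↔ v ≠ pole true := by
  simp only [Um, mem_compl_iff, mem_insert_iff, not_or, and_iff_left_iff_imp]
  rintro - ⟨p, -, rfl⟩
  exact (rad_emb_pos p.1 p.2.1 p.2.2).ne' h

end Pool.Agent.MP_bc14e1_gt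

end

section

/-! The elimination table of the Dehn presentation. -/

namespace Pool.Agent.MP_bc14e1_gt

/-- `true` if crossing `k` is on the side `-1` (the level of `g₀₀ g₁₀⁻¹` is `+1`). -/
def epsB (k : Fin 22) : Bool := decide ((qd k true true : ℕ) = 22)

/-- The shifted block index. -/
def nj (k : Fin 22) (j : Fin 6) : Fin 6 := if epsB k then j + 1 else j - 1

/-- The block index wraps upwards. -/
def upB (k : Fin 22) (j : Fin 6) : Bool := epsB k && decide ((j : ℕ) = 5)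

/-- The block index wraps downwards. -/
def dnB (k : Fin 22) (j : Fin 6) : Bool := !epsB k && decide ((j : ℕ) = 0)

/-- Tables of polynomials indexed by region, block index and generator. -/
abbrev Tab : Type := List (List (List (List Z8)))

/-- An entry of a table. -/
def Tab.en (T : Tab) (r : Fin 24) (j : Fin 6) (i : Fin 12) : List Z8 :=
  ((T.getD r []).getD j []).getD i []

/-- An entry of the exponent table. -/
def expo (Ex : List (List ℕ)) (k : Fin 22) (j : Fin 6) : ℕ := (Ex.getD k []).getD j 0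

/-- The twisted difference of the regions `11` and `10`. -/
def Tab.tw (T : Tab) (Ex : List (List ℕ)) (k : Fin 22) (j : Fin 6) (i : Fin 12) : List Z8 :=
  shZ (upB k j) ((subZ (T.en (qd k true true) (nj k j) i) (T.en (qd k true false) (nj k j) i)).map
    (Z8.mulA (expo Ex k j)))

/-- The defect of relation `k`. -/
def Tab.res (T : Tab) (Ex : List (List ℕ)) (k : Fin 22) (j : Fin 6) (i : Fin 12) : List Z8 :=
  subZ (shZ (dnB k j) (subZ (T.en (qd k false true) j i) (T.en (qd k false false) j i)))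
    (T.tw Ex k j i)

/-- The initial entries: `x ^ 2` times the generators. -/
def ini (r : Fin 24) (j : Fin 6) (i : Fin 12) : List Z8 :=
  if ((r : ℕ) = 21 ∧ (i : ℕ) = j) ∨ ((r : ℕ) = 23 ∧ (i : ℕ) = j + 6) then ofInts [0, 0, 1] else []

/-- One elimination step. -/
def Tab.step (Ex : List (List ℕ)) (T : Tab) (k : Fin 22) : Tab :=
  if (k : ℕ) = 19 ∨ (k : ℕ) = 21 then T else
    T.set k ((List.finRange 6).map fun j => (List.finRange 12).map fun i =>
      addZ (T.en (qd k false false) j i) (if dnB k j then (T.tw Ex k j i).tail else T.tw Ex k j i))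

/-- The elimination table. -/
def tab (Ex : List (List ℕ)) : Tab :=
  (List.finRange 22).foldl (Tab.step Ex) ((List.finRange 24).map fun r =>
    (List.finRange 6).map fun j => (List.finRange 12).map fun i => ini r j i)

/-- An entry of a square table. -/
def en₂ (A : List (List (List Z8))) (i j : Fin 12) : List Z8 := (A.getD i []).getD j []

/-- The table solves the relations other than `19` and `21`, whose defects are the rows of `A`. -/
def tabOK (Ex : List (List ℕ)) (A : List (List (List Z8))) (T : Tab) : Bool :=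
  ((List.finRange 22).all fun k => (List.finRange 6).all fun j => (List.finRange 12).all fun i =>
    (subZ (T.res Ex k j i) (if (k : ℕ) = 19 then en₂ A (j.castLE (by norm_num)) i
      else if (k : ℕ) = 21 then en₂ A (j.addNat 6) i else [])).all Z8.isZero) &&
  ([19, 21, 22, 23].all fun r : Fin 24 => (List.finRange 6).all fun j =>
    (List.finRange 12).all fun i => (subZ (T.en r j i) (ini r j i)).all Z8.isZero)

end Pool.Agent.MP_bc14e1_gt

end

section

/-! The upper and lower pieces of the knot complement. -/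

open Set Metric

namespace Pool.Agent.MP_bc14e1_gt

/-- The last coordinate of the pole. -/
noncomputable def R1_sg (ε : Bool) : ℝ := if ε then 1 else -1

theorem R1_sg_sq (ε : Bool) : R1_sg ε * R1_sg ε = 1 := by cases ε <;> simp [R1_sg]

theorem R1_sg_not (ε : Bool) : R1_sg (!ε) = -R1_sg ε := by cases ε <;> simp [R1_sg]

theorem R1_pole (ε : Bool) : (pole ε).1 0 = 0 ∧ (pole ε).1 1 = 0 ∧ (pole ε).1 2 = 0 ∧
    (pole ε).1 3 = R1_sg ε := by simp [pole, R1_sg]

theorem R1_pos {w : S3} {l ψ a b : ℝ} (hl : 0 < l)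
    (h0 : w.1 0 = l * Real.cos (Real.pi * ψ / 11)) (h1 : w.1 1 = l * Real.sin (Real.pi * ψ / 11))
    (h2 : w.1 2 = l * a) (h3 : w.1 3 = l * b) : w = embS (ψ, a, b) := by
  have h := E4_norm_sq w.1
  rw [show ‖w.1‖ = 1 by simp, h0, h1, h2, h3] at h
  have hn : √(1 + a ^ 2 + b ^ 2) = l⁻¹ := by
    rw [Real.sqrt_eq_iff_mul_self_eq (by positivity) (by positivity)]
    field_simp
    linear_combination -h - l ^ 2 * Real.cos_sq_add_sin_sq (Real.pi * ψ / 11)
  refine Subtype.ext (E4_ext ?_ ?_ ?_ ?_)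
  · exact h0.trans (by rw [← inv_inv l, ← hn]; exact (emb_0 ψ a b).symm)
  · exact h1.trans (by rw [← inv_inv l, ← hn]; exact (emb_1 ψ a b).symm)
  · exact h2.trans (by rw [← inv_inv l, ← hn]; exact (emb_2 ψ a b).symm)
  · exact h3.trans (by rw [← inv_inv l, ← hn]; exact (emb_3 ψ a b).symm)

theorem R1_move {w : S3} {r s ψ a b : ℝ} (ε : Bool) (hr : 0 < r) (hs : s < 1)
    (h : w.1 = r • ((1 - s) • emb ψ a b + s • (pole ε).1)) :
    w = embS (ψ, a, b + R1_sg ε * (s * √(1 + a ^ 2 + b ^ 2) / (1 - s))) := by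
  obtain ⟨p0, p1, p2, p3⟩ := R1_pole ε
  have hn := nrm_pos a b
  have ht : 0 < 1 - s := by linarith
  refine R1_pos (l := r * (1 - s) * (√(1 + a ^ 2 + b ^ 2))⁻¹) (by positivity) ?_ ?_ ?_ ?_ <;>
    simp only [h, PiLp.smul_apply, PiLp.add_apply, smul_eq_mul, emb_0, emb_1, emb_2, emb_3, p0, p1,
      p2, p3] <;> field_simp <;> ring

theorem R1_open {U : Set S3} (ε : Bool)
    (hE : ∀ ψ a b, embS (ψ, a, b) ∈ U ↔ ∀ b', Str ψ a b' → R1_sg ε * (b - b') < 0)
    (hR : ∀ v : S3, rad v.1 = 0 → (v ∈ U ↔ v ≠ pole ε)) : IsOpen U := by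
  obtain ⟨p0, p1, p2, p3⟩ := R1_pole ε
  let x : E 4 × ℝ → E 4 := fun p => (1 - p.2) • p.1 + p.2 • (pole ε).1
  have hx : Continuous x := by fun_prop
  have hc : IsCompact ((univ ×ˢ Kset ×ˢ Icc (0 : ℝ) 1) ∩
      {p : S3 × E 4 × ℝ | ‖x p.2‖ • p.1.1 = x p.2}) :=
    (isCompact_univ.prod (isCompact_Kset.prod isCompact_Icc)).inter_right
      (isClosed_eq (by fun_prop) (by fun_prop))
  rw [← isClosed_compl_iff]
  convert (hc.image continuous_fst).isClosed using 1
  ext v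
  constructor
  · intro hv
    by_cases h : rad v.1 = 0
    · have h1 : v = pole ε := by simpa [hR v h] using hv
      exact ⟨(v, kap 0, 1), ⟨⟨trivial, range_kap ▸ mem_range_self _, by simp⟩, by simp [x, h1]⟩,
        rfl⟩
    · obtain ⟨⟨ψ, a, b⟩, rfl⟩ := exists_embS v h
      rw [mem_compl_iff, hE] at hv
      push Not at hv
      obtain ⟨c, hc1, hc2⟩ := hv
      have hn := nrm_pos a c
      have hm := nrm_pos a b
      obtain ⟨d, hd⟩ : ∃ d, d = R1_sg ε * (b - c) := ⟨_, rfl⟩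
      have hb : d * R1_sg ε = b - c := by linear_combination R1_sg ε * hd + (b - c) * R1_sg_sq ε
      rw [← hd] at hc2
      have e : x (emb ψ a c, d / (√(1 + a ^ 2 + c ^ 2) + d)) =
          (√(1 + a ^ 2 + b ^ 2) / (√(1 + a ^ 2 + c ^ 2) + d)) • emb ψ a b := by
        refine E4_ext ?_ ?_ ?_ ?_ <;>
          simp only [x, PiLp.smul_apply, PiLp.add_apply, smul_eq_mul, emb_0, emb_1, emb_2, emb_3,
            p0, p1, p2, p3] <;> field_simp
        · ring
        · ring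
        · ring
        · linear_combination √(1 + a ^ 2 + c ^ 2) * hb
      refine ⟨(_, emb ψ a c, d / (√(1 + a ^ 2 + c ^ 2) + d)),
        ⟨⟨trivial, emb_mem_Kset.2 hc1, by positivity, ?_⟩, ?_⟩, rfl⟩
      · rw [div_le_one (by positivity)]; linarith
      · change ‖x _‖ • emb ψ a b = x _
        rw [e, norm_smul, norm_emb, mul_one, Real.norm_of_nonneg (by positivity)]
  · rintro ⟨⟨v, _, s⟩, ⟨⟨-, ⟨ψ, a, b, hb, rfl⟩, h0, h1⟩, h⟩, rfl⟩ hv
    change ‖x (emb ψ a b, s)‖ • v.1 = x (emb ψ a b, s) at h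
    change s ≤ 1 at h1
    change 0 ≤ s at h0
    rcases h1.eq_or_lt with rfl | h1
    · have h2 : v = pole ε := Subtype.ext (by simpa [x] using h)
      exact (hR v (h2 ▸ rad_pole ε)).1 hv h2
    · have hne : x (emb ψ a b, s) ≠ 0 := by
        intro h2
        have e0 := congrArg (fun z : E 4 => z 0) h2
        have e1 := congrArg (fun z : E 4 => z 1) h2
        simp only [x, PiLp.smul_apply, PiLp.add_apply, smul_eq_mul, p0, p1, mul_zero, add_zero,
          PiLp.zero_apply, mul_eq_zero, (sub_pos.2 h1).ne', false_or] at e0 e1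
        exact (rad_emb_pos ψ a b).ne' (rad_eq_zero.2 ⟨e0, e1⟩)
      have hp := norm_pos_iff.2 hne
      have h2 := R1_move (w := v) ε (inv_pos.2 hp) h1 ((eq_inv_smul_iff₀ hp.ne').2 h)
      have h3 := (hE _ _ _).1 (h2 ▸ hv) b hb
      rw [add_sub_cancel_left, ← mul_assoc, R1_sg_sq, one_mul] at h3
      exact absurd h3 (not_lt.2 (div_nonneg (by positivity) (by linarith)))

theorem R1_contr {U : Set S3} (ε : Bool)
    (hE : ∀ ψ a b, embS (ψ, a, b) ∈ U ↔ ∀ b', Str ψ a b' → R1_sg ε * (b - b') < 0)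
    (hR : ∀ v : S3, rad v.1 = 0 → (v ∈ U ↔ v ≠ pole ε)) : ContractibleSpace U := by
  obtain ⟨p0, p1, p2, p3⟩ := R1_pole ε
  obtain ⟨q0, q1, q2, q3⟩ := R1_pole (!ε)
  rw [R1_sg_not] at q3
  have hs := R1_sg_sq ε
  refine contractible_star (q := pole (!ε)) ((hR _ (rad_pole _)).2 fun h => ?_)
    (fun v hv h => ?_) fun v hv s h0 h1 w r hr h => ?_
  · rw [h, p3] at q3
    nlinarith
  · have h2 : v = pole ε := Subtype.ext (h.trans (E4_ext (by simp [p0, q0]) (by simp [p1, q1])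
      (by simp [p2, q2]) (by simp [p3, q3])))
    exact (hR v (h2 ▸ rad_pole ε)).1 hv h2
  · by_cases hv0 : rad v.1 = 0
    · obtain ⟨v0, v1⟩ := rad_eq_zero.1 hv0
      refine (hR w (rad_eq_zero.2 ⟨by simp [h, v0, q0], by simp [h, v1, q1]⟩)).2 fun hw => ?_
      have e2 := congrArg (fun z : E 4 => z 2) h
      have e3 := congrArg (fun z : E 4 => z 3) h
      simp only [hw, PiLp.smul_apply, PiLp.add_apply, smul_eq_mul, p2, p3, q2, q3, mul_zero,
        add_zero] at e2 e3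
      have v2 : v.1 2 = 0 := by
        simpa [hr.ne', (sub_pos.2 h1).ne'] using e2
      have hn := E4_norm_sq v.1
      rw [show ‖v.1‖ = 1 by simp, v0, v1, v2] at hn
      have h3 : (v.1 3 - R1_sg ε) * (v.1 3 + R1_sg ε) = 0 := by linear_combination -hn - hs
      rcases mul_eq_zero.1 h3 with h4 | h4
      · exact (hR v hv0).1 hv (Subtype.ext (E4_ext (v0.trans p0.symm) (v1.trans p1.symm)
          (v2.trans p2.symm) ((sub_eq_zero.1 h4).trans p3.symm)))
      · have h5 : r = -1 := by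
          linear_combination R1_sg ε * e3 + R1_sg ε * r * (1 - s) * h4 - (r + 1) * hs
        linarith
    · obtain ⟨⟨ψ, a, b⟩, rfl⟩ := exists_embS v hv0
      rw [R1_move (!ε) hr h1 h, hE]
      intro c hc
      have h2 := (hE _ _ _).1 hv c hc
      have h3 : 0 ≤ s * √(1 + a ^ 2 + b ^ 2) / (1 - s) := div_nonneg (by positivity) (by linarith)
      rw [R1_sg_not]
      nlinarith

theorem R1_Up (ψ a b : ℝ) :
    embS (ψ, a, b) ∈ Up ↔ ∀ b', Str ψ a b' → R1_sg false * (b - b') < 0 := by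
  simp [embS_mem_Up, R1_sg]

theorem R1_Um (ψ a b : ℝ) :
    embS (ψ, a, b) ∈ Um ↔ ∀ b', Str ψ a b' → R1_sg true * (b - b') < 0 := by
  simp [embS_mem_Um, R1_sg]

theorem R1_str {ψ a b : ℝ} (h : Str (ψ + 11) (-a) b) : Str ψ a b := by
  have := str_add11 h
  rw [neg_neg, show ψ + 11 + 11 = ψ + 22 * ((1 : ℤ) : ℝ) by push_cast; ring] at this
  exact (str_add22 1).1 this

theorem R1_rad (v : S3) : rad (iotS v).1 = rad v.1 := by simp [iotS, rad, iot]

theorem R1_iot_pole (ε : Bool) : iotS (pole ε) = pole ε := by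
  obtain ⟨p0, p1, p2, -⟩ := R1_pole ε
  exact Subtype.ext (E4_ext (by simp [iotS, iot, p0]) (by simp [iotS, iot, p1])
    (by simp [iotS, iot, p2]) (by simp [iotS, iot]))

theorem iotS_continuous : Continuous iotS := by
  exact ((iotE.continuous.comp continuous_subtype_val).congr
    fun v => iotE_apply v.1).subtype_mk _

theorem iotS_iotS (v : S3) : iotS (iotS v) = v := by
  exact Subtype.ext (iot_iot v.1)

theorem isOpen_Up : IsOpen Up := by
  exact R1_open false R1_Up fun _ => mem_Up_of_rad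

theorem isOpen_Um : IsOpen Um := by
  exact R1_open true R1_Um fun _ => mem_Um_of_rad

theorem contractible_Up : ContractibleSpace Up := by
  exact R1_contr false R1_Up fun _ => mem_Up_of_rad

theorem contractible_Um : ContractibleSpace Um := by
  exact R1_contr true R1_Um fun _ => mem_Um_of_rad

theorem iotS_mem_Up {v : S3} (h : v ∈ Up) : iotS v ∈ Up := by
  by_cases h0 : rad v.1 = 0
  · refine (mem_Up_of_rad ((R1_rad v).trans h0)).2 fun h1 => (mem_Up_of_rad h0).1 h ?_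
    rw [← iotS_iotS v, h1, R1_iot_pole]
  · obtain ⟨⟨ψ, a, b⟩, rfl⟩ := exists_embS v h0
    rw [iotS_embS, embS_mem_Up]
    exact fun c hc => embS_mem_Up.1 h c (R1_str hc)

theorem iotS_mem_Um {v : S3} (h : v ∈ Um) : iotS v ∈ Um := by
  by_cases h0 : rad v.1 = 0
  · refine (mem_Um_of_rad ((R1_rad v).trans h0)).2 fun h1 => (mem_Um_of_rad h0).1 h ?_
    rw [← iotS_iotS v, h1, R1_iot_pole]
  · obtain ⟨⟨ψ, a, b⟩, rfl⟩ := exists_embS v h0
    rw [iotS_embS, embS_mem_Um]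
    exact fun c hc => embS_mem_Um.1 h c (R1_str hc)

theorem compl_KS : KSᶜ = Up ∪ Um ∪ ⋃ k, Box k := by
  ext v
  simp only [mem_compl_iff, mem_union, mem_iUnion]
  by_cases h0 : rad v.1 = 0
  · refine iff_of_true ?_ (Or.inl ?_)
    · rintro ⟨ψ, a, b, -, h⟩
      exact (rad_emb_pos ψ a b).ne' (h ▸ h0)
    · rw [mem_Up_of_rad h0, mem_Um_of_rad h0]
      by_contra h
      push Not at h
      have h1 := (R1_pole false).2.2.2
      rw [← h.1, h.2, (R1_pole true).2.2.2] at h1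
      norm_num [R1_sg] at h1
  obtain ⟨⟨ψ, a, b⟩, rfl⟩ := exists_embS v h0
  rw [embS_mem_KS, embS_mem_Up, embS_mem_Um]
  constructor
  · intro h
    by_contra h1
    push Not at h1
    obtain ⟨⟨⟨b2, s2, l2⟩, b1, s1, l1⟩, h3⟩ := h1
    have m2 : b < b2 := lt_of_le_of_ne l2 fun e => h (e ▸ s2)
    have m1 : b1 < b := lt_of_le_of_ne l1 fun e => h (e ▸ s1)
    have t0 := stp_nonneg (Int.fract ψ)
    have t1 := stp_le_one (Int.fract ψ)
    have t2 := mul_nonneg t0 (sub_nonneg.2 t1)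
    have key : stp (Int.fract ψ) = 1 / 2 ∧ a = sd ⌊ψ⌋ * (1 / 2) ∧ b1 = -(1 / 4) ∧ b2 = 1 / 4 := by
      rcases Knot_sd_cases ⌊ψ⌋ with e | e <;> simp only [Str, e] at s1 s2 ⊢ <;>
        rcases s1 with ⟨x1, y1⟩ | ⟨x1, y1⟩ | ⟨x1, y1⟩ <;>
        rcases s2 with ⟨x2, y2⟩ | ⟨x2, y2⟩ | ⟨x2, y2⟩ <;>
        first
        | (exfalso; linarith)
        | (have z : stp (Int.fract ψ) = 1 / 2 := by linarith
           rw [z] at x1 y1 y2
           exact ⟨z, by linarith, by linarith, by linarith⟩)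
    obtain ⟨k1, k2, k3, k4⟩ := key
    have hf := stp_eq_half k1
    obtain ⟨k, j, hk⟩ : ∃ (k : Fin 22) (j : ℤ), ⌊ψ⌋ = ((k : ℕ) : ℤ) + 22 * j :=
      ⟨⟨(⌊ψ⌋ % 22).toNat, by omega⟩, ⌊ψ⌋ / 22, by simp only; omega⟩
    have hψ : ψ = (((k : ℕ) : ℤ) : ℝ) + 1 / 2 + 22 * j := by
      have := Int.floor_add_fract ψ
      rw [hk, hf] at this
      push_cast at this ⊢
      linarith
    refine h3 k ⟨((((k : ℕ) : ℤ) : ℝ) + 1 / 2, a, b), ⟨by simp only; linarith,
      by simp only; linarith, ?_, ?_⟩, by rw [hψ, embS_add22]⟩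
    · rw [k2, hk, sd_add_mul]
      rcases Knot_sd_cases (k : ℕ) with e | e <;> simp only [e] <;> norm_num
    · simp only [add_sub_cancel_left, stp_half]
      rw [abs_lt]
      constructor <;> linarith
  · rintro ((h | h) | ⟨k, ⟨ψ', a', b'⟩, ⟨h1, h2, h3, h4⟩, he⟩) hs
    · exact lt_irrefl _ (h b hs)
    · exact lt_irrefl _ (h b hs)
    · rw [← embS_mem_KS, ← he, embS_mem_KS] at hs
      dsimp only at h1 h2 h3 h4
      have hf : ⌊ψ'⌋ = (k : ℕ) := Int.floor_eq_iff.2 ⟨by linarith, by linarith⟩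
      rw [Str, Int.fract, hf] at hs
      rcases hs with ⟨-, e⟩ | ⟨-, e⟩ | ⟨e, -⟩
      · exact absurd (le_abs_self b') (by linarith)
      · exact absurd (neg_le_abs b') (by linarith)
      · rw [e] at h3
        rcases Knot_sd_cases (k : ℕ) with e | e <;> rw [e] at h3 <;> linarith

end Pool.Agent.MP_bc14e1_gt

end

section

/-! The regions of the diagram. -/

open Set Metric

namespace Pool.Agent.MP_bc14e1_gt

theorem R2_cont_gen (Φ : ℤ → ℝ → ℝ) (c : ℤ → ℝ) (hΦ : ∀ k, Continuous (Φ k))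
    (h0 : ∀ k τ, τ ≤ 1 / 3 → Φ k τ = c k) (h1 : ∀ k τ, 2 / 3 ≤ τ → Φ k τ = c (k + 1)) :
    Continuous fun y : ℝ => Φ ⌊y⌋ (Int.fract y) := by
  rw [continuous_iff_continuousAt]
  intro x
  rcases (Int.floor_le x).eq_or_lt with h | h
  · refine (continuousAt_const (y := c ⌊x⌋)).congr ?_
    filter_upwards [Ioo_mem_nhds (show x - 1 / 3 < x by linarith) (show x < x + 1 / 3 by linarith)]
      with y hy
    exact (Knot_near_gen Φ c h0 h1 ⌊x⌋ y (by rw [h]; exact hy.1.le)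
      (by rw [h]; exact hy.2.le)).symm
  · have h2 : ContinuousAt (fun y : ℝ => Φ ⌊x⌋ (y - ⌊x⌋)) x :=
      ((hΦ ⌊x⌋).comp (continuous_id.sub continuous_const)).continuousAt
    refine h2.congr ?_
    filter_upwards [Ioo_mem_nhds h (Int.lt_floor_add_one x)] with y hy
    have h3 : ⌊y⌋ = ⌊x⌋ := Int.floor_eq_iff.2 ⟨hy.1.le, hy.2⟩
    rw [Int.fract, h3]

theorem mu_continuous : Continuous mu :=
  R2_cont_gen (fun k τ => sd k * min (stp τ) (1 - stp τ)) (fun _ => 0)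
    (fun _ => continuous_const.mul (stp_continuous.min (continuous_const.sub stp_continuous)))
    (fun k τ h => by rw [stp_zero h]; simp) (fun k τ h => by rw [stp_one h]; simp)

theorem R2_hi_continuous (s : ℝ) : Continuous (hi s) :=
  continuous_const.sub ((continuous_const.mul mu_continuous).max continuous_const)

/-- The parameter domain of a gap. -/
def R2_gapP (k : ℤ) : Set (ℝ × ℝ × ℝ) :=
  {p | k + 1 / 2 < p.1 ∧ p.1 < k + nx k + 1 / 2 ∧ sd k * mu p.1 < sd k * p.2.1 ∧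
    sd k * p.2.1 < hi (sd k) p.1}

theorem R2_gapP_open (k : ℤ) : IsOpen (R2_gapP k) := by
  have h1 : Continuous fun p : ℝ × ℝ × ℝ => mu p.1 := mu_continuous.comp continuous_fst
  have h2 : Continuous fun p : ℝ × ℝ × ℝ => hi (sd k) p.1 :=
    (R2_hi_continuous _).comp continuous_fst
  have h3 : Continuous fun p : ℝ × ℝ × ℝ => (sd k : ℝ) * p.2.1 := by fun_prop
  exact (isOpen_lt continuous_const continuous_fst).inter
    ((isOpen_lt continuous_fst continuous_const).inter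
      ((isOpen_lt (continuous_const.mul h1) h3).inter (isOpen_lt h3 h2)))

theorem R2_Gap_open (k : ℤ) : IsOpen (Gap k) := embS_isOpenMap _ (R2_gapP_open k)

theorem R2_Out_open (s : ℝ) : IsOpen (Out s) := by
  refine IsOpen.union (embS_isOpenMap _ (isOpen_lt ((R2_hi_continuous s).comp continuous_fst)
    (by fun_prop))) (isOpen_lt (rad_continuous.comp continuous_subtype_val) (by fun_prop))

theorem isOpen_Reg (r : Fin 24) : IsOpen (Reg r) := by
  unfold Reg
  split_ifs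
  exacts [R2_Gap_open _, R2_Out_open _, R2_Out_open _]

theorem R2_nx_bound (k : ℤ) : 1 ≤ nx k ∧ nx k ≤ 4 := by
  unfold nx
  generalize (k : ZMod 22) = r
  revert r
  decide +kernel

theorem R2_table : ∀ r : Fin 22, ∀ d : Fin 4, 0 < ((d : ℕ) : ℤ) → ((d : ℕ) : ℤ) < nx (r : ℕ) →
    sd ((r : ℕ) + (d : ℕ)) = -sd (r : ℕ) := by
  decide +kernel

theorem R2_table' {k : ℕ} (hk : k < 22) {m : ℤ} (h1 : (k : ℤ) < m) (h2 : m < k + nx k) :
    sd m = -sd k := by
  have h3 := (R2_nx_bound k).2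
  have h4 : (m - k).toNat < 4 := by omega
  have h5 := R2_table ⟨k, hk⟩ ⟨(m - k).toNat, h4⟩ (by dsimp only; omega) (by dsimp only; omega)
  dsimp only at h5
  rwa [show (k : ℤ) + ((m - k).toNat : ℕ) = m by omega] at h5

theorem R2_mu_lt {k : ℕ} (hk : k < 22) {ψ : ℝ} (h1 : ((k : ℤ) : ℝ) + 1 / 2 < ψ)
    (h2 : ψ < ((k : ℤ) : ℝ) + nx k + 1 / 2) : sd k * mu ψ < hi (sd k) ψ := by
  have h3 : (sd k : ℝ) * mu ψ < 1 / 2 := by
    have ha := stp_nonneg (Int.fract ψ)
    have hb := stp_le_one (Int.fract ψ)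
    have hc : 0 ≤ min (stp (Int.fract ψ)) (1 - stp (Int.fract ψ)) := le_min ha (by linarith)
    have hd := min_le_left (stp (Int.fract ψ)) (1 - stp (Int.fract ψ))
    have he := min_le_right (stp (Int.fract ψ)) (1 - stp (Int.fract ψ))
    by_contra hlt
    rw [not_lt, mu] at hlt
    have hs : sd ⌊ψ⌋ = sd k := by
      rcases sd_cases k with h | h <;> rcases sd_cases ⌊ψ⌋ with h' | h' <;> rw [h, h'] at hlt <;>
        push_cast at hlt <;> first | omega | linarith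
    have hsq : (sd k : ℝ) * sd k = 1 := by
      rcases Knot_sd_cases k with h | h <;> rw [h] <;> norm_num
    rw [hs, ← mul_assoc, hsq, one_mul] at hlt
    have hf : Int.fract ψ = 1 / 2 := stp_eq_half (by linarith)
    have hψ : ψ = ⌊ψ⌋ + 1 / 2 := by rw [← hf, Int.floor_add_fract]
    have h4 : (k : ℤ) < ⌊ψ⌋ := by
      have : ((k : ℤ) : ℝ) < ⌊ψ⌋ := by linarith
      exact_mod_cast this
    have h5 : ⌊ψ⌋ < k + nx k := by
      have : (⌊ψ⌋ : ℝ) < ((k : ℤ) : ℝ) + nx k := by linarith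
      exact_mod_cast this
    have h6 := R2_table' hk h4 h5
    have h7 := sd_cases k
    omega
  unfold hi
  rcases le_total ((sd k : ℝ) * mu ψ) 0 with h | h
  · rw [max_eq_right h]
    linarith
  · rw [max_eq_left h]
    linarith

theorem R2_Gap_contractible {k : ℕ} (hk : k < 22) : ContractibleSpace (Gap k) := by
  have hb := R2_nx_bound k
  have hb1 : (1 : ℝ) ≤ nx k := by exact_mod_cast hb.1
  have hb2 : (nx k : ℝ) ≤ 4 := by exact_mod_cast hb.2
  have hsq : (sd k : ℝ) * sd k = 1 := by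
    rcases Knot_sd_cases k with h | h <;> rw [h] <;> norm_num
  have : ContractibleSpace (R2_gapP k) := by
    refine contractible_fibre (I := Ioo (((k : ℤ) : ℝ) + 1 / 2) (((k : ℤ) : ℝ) + nx k + 1 / 2))
      (convex_Ioo _ _) (nonempty_Ioo.2 (by linarith)) (fun p hp => ⟨hp.1, hp.2.1⟩)
      (c := fun ψ => (sd k * ((sd k * mu ψ + hi (sd k) ψ) / 2), 0)) ?_ ?_ ?_
    · refine Continuous.continuousOn (Continuous.prodMk ?_ continuous_const)
      exact continuous_const.mul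
        (((continuous_const.mul mu_continuous).add (R2_hi_continuous _)).div_const _)
    · intro ψ hψ
      have h := R2_mu_lt hk hψ.1 hψ.2
      refine ⟨hψ.1, hψ.2, ?_, ?_⟩ <;> dsimp only <;> rw [← mul_assoc (sd k : ℝ), hsq] <;> linarith
    · rintro ⟨ψ, a, b⟩ ⟨h1, h2, h3, h4⟩ s hs0 hs1
      dsimp only at h1 h2 h3 h4
      have h5 : (sd k : ℝ) * ((1 - s) * a + s * (sd k * ((sd k * mu ψ + hi (sd k) ψ) / 2))) =
          (1 - s) * (sd k * a) + s * ((sd k * mu ψ + hi (sd k) ψ) / 2) := by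
        linear_combination (s * ((sd k * mu ψ + hi (sd k) ψ) / 2)) * hsq
      refine ⟨h1, h2, ?_, ?_⟩
      · change _ < (sd k : ℝ) * ((1 - s) * a + s * (sd k * ((sd k * mu ψ + hi (sd k) ψ) / 2)))
        rw [h5]
        change (sd k : ℝ) * mu ψ < _
        generalize (sd k : ℝ) * mu ψ = m at *
        generalize (sd k : ℝ) * a = x at *
        generalize hi (sd k) ψ = y at *
        rcases hs0.eq_or_lt with h | h
        · rw [← h]
          linarith
        · nlinarith [mul_nonneg (sub_nonneg.2 hs1) (sub_pos.2 h3).le,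
            mul_pos h (sub_pos.2 (h3.trans h4))]
      · change (sd k : ℝ) * ((1 - s) * a + s * (sd k * ((sd k * mu ψ + hi (sd k) ψ) / 2))) < _
        rw [h5]
        change _ < hi (sd k) ψ
        generalize (sd k : ℝ) * mu ψ = m at *
        generalize (sd k : ℝ) * a = x at *
        generalize hi (sd k) ψ = y at *
        rcases hs0.eq_or_lt with h | h
        · rw [← h]
          linarith
        · nlinarith [mul_nonneg (sub_nonneg.2 hs1) (sub_pos.2 h4).le,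
            mul_pos h (sub_pos.2 (h3.trans h4))]
  exact contractible_embS (S := R2_gapP k) (R2_gapP_open k) (α := ((k : ℤ) : ℝ))
    fun p hp => ⟨by linarith [hp.1], by linarith [hp.2.1]⟩

theorem R2_eq_emb {w : E 4} (hw : ‖w‖ = 1) {ρ ψ a b : ℝ} (hρ : 0 < ρ)
    (h0 : w 0 = ρ * Real.cos (Real.pi * ψ / 11)) (h1 : w 1 = ρ * Real.sin (Real.pi * ψ / 11))
    (h2 : w 2 = ρ * a) (h3 : w 3 = ρ * b) : w = emb ψ a b := by
  have h := E4_norm_sq w
  rw [hw, h0, h1, h2, h3] at h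
  have h4 : ρ ^ 2 * (1 + a ^ 2 + b ^ 2) = 1 := by
    linear_combination -h - ρ ^ 2 * Real.cos_sq_add_sin_sq (Real.pi * ψ / 11)
  have h5 : √(1 + a ^ 2 + b ^ 2) = ρ⁻¹ := by
    rw [Real.sqrt_eq_iff_mul_self_eq (by positivity) (by positivity)]
    field_simp
    linarith
  refine E4_ext ?_ ?_ ?_ ?_
  · rw [emb_0, h5, inv_inv, h0]
  · rw [emb_1, h5, inv_inv, h1]
  · rw [emb_2, h5, inv_inv, h2]
  · rw [emb_3, h5, inv_inv, h3]

theorem R2_Out_contractible {s : ℝ} (hs : s * s = 1) : ContractibleSpace (Out s) := by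
  have hn : ‖(EuclideanSpace.single 2 s : E 4)‖ = 1 := by
    rw [PiLp.norm_single, Real.norm_eq_abs]
    have h := abs_nonneg s
    have h2 := abs_mul_abs_self s
    nlinarith
  obtain ⟨q, hq0, hq1, hq2, hq3⟩ : ∃ q : S3, q.1 0 = 0 ∧ q.1 1 = 0 ∧ q.1 2 = s ∧ q.1 3 = 0 :=
    ⟨⟨EuclideanSpace.single 2 s, mem_sphere_zero_iff_norm.2 hn⟩, by simp, by simp, by simp,
      by simp⟩
  refine contractible_star (q := q) (Or.inr ?_) ?_ ?_
  · change rad q.1 < s * q.1 2
    rw [rad_eq_zero.2 ⟨hq0, hq1⟩, hq2, hs]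
    exact one_pos
  · intro v hv h
    have h0 : rad v.1 = 0 := rad_eq_zero.2 ⟨by rw [h]; simp [hq0], by rw [h]; simp [hq1]⟩
    rcases hv with ⟨p, -, rfl⟩ | hv
    · exact (rad_emb_pos p.1 p.2.1 p.2.2).ne' h0
    · change rad v.1 < s * v.1 2 at hv
      have h2 : v.1 2 = -s := by rw [h]; simp [hq2]
      rw [h0, h2] at hv
      linarith
  · intro v hv t ht0 ht1 w r hr hw
    have ht : 0 < 1 - t := sub_pos.2 ht1
    have hc : ∀ i, w.1 i = r * ((1 - t) * v.1 i + t * q.1 i) := fun i => by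
      rw [hw]
      simp [mul_add]
    rcases hv with ⟨⟨ψ, a, b⟩, hp, rfl⟩ | hv
    · have hN := nrm_pos a b
      change hi s ψ < s * a at hp
      refine Or.inl ⟨(ψ, a + t * s * √(1 + a ^ 2 + b ^ 2) / (1 - t), b), ?_, Subtype.ext ?_⟩
      · change hi s ψ < s * (a + t * s * √(1 + a ^ 2 + b ^ 2) / (1 - t))
        have h1 : s * (a + t * s * √(1 + a ^ 2 + b ^ 2) / (1 - t)) =
            s * a + t * √(1 + a ^ 2 + b ^ 2) / (1 - t) := by
          linear_combination (t * √(1 + a ^ 2 + b ^ 2) / (1 - t)) * hs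
        have h2 : 0 < t * √(1 + a ^ 2 + b ^ 2) / (1 - t) := by positivity
        linarith
      · refine (R2_eq_emb (ρ := r * (1 - t) * (√(1 + a ^ 2 + b ^ 2))⁻¹) (by simp)
          (by positivity) ?_ ?_ ?_ ?_).symm
        · rw [hc, hq0, show (embS (ψ, a, b)).1 = emb ψ a b from rfl, emb_0]
          ring
        · rw [hc, hq1, show (embS (ψ, a, b)).1 = emb ψ a b from rfl, emb_1]
          ring
        · rw [hc, hq2, show (embS (ψ, a, b)).1 = emb ψ a b from rfl, emb_2]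
          field_simp
        · rw [hc, hq3, show (embS (ψ, a, b)).1 = emb ψ a b from rfl, emb_3]
          ring
    · change rad v.1 < s * v.1 2 at hv
      refine Or.inr ?_
      change rad w.1 < s * w.1 2
      have h1 : rad w.1 = r * (1 - t) * rad v.1 := by
        unfold rad
        rw [hc 0, hc 1, hq0, hq1, show (r * ((1 - t) * v.1 0 + t * 0)) ^ 2 +
          (r * ((1 - t) * v.1 1 + t * 0)) ^ 2 = (r * (1 - t)) ^ 2 * (v.1 0 ^ 2 + v.1 1 ^ 2) by ring,
          Real.sqrt_mul (by positivity), Real.sqrt_sq (by positivity)]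
      have h2 : s * w.1 2 = r * (1 - t) * (s * v.1 2) + r * t := by
        rw [hc 2, hq2]
        linear_combination (r * t) * hs
      rw [h1, h2]
      have h3 := mul_lt_mul_of_pos_left hv (mul_pos hr ht)
      have h4 := mul_pos hr ht0
      linarith

theorem contractible_Reg (r : Fin 24) : ContractibleSpace (Reg r) := by
  by_cases h1 : (r : ℕ) < 22
  · rw [Reg, if_pos h1]
    exact R2_Gap_contractible h1
  by_cases h2 : (r : ℕ) = 22
  · rw [Reg, if_neg h1, if_pos h2]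
    exact R2_Out_contractible (by norm_num)
  · rw [Reg, if_neg h1, if_neg h2]
    exact R2_Out_contractible (by norm_num)

theorem R2_sd_shift (k j : ℤ) : sd (k + 11 + 22 * j) = -sd k := by rw [sd_add_mul, sd_add11]

theorem R2_nx_shift (k j : ℤ) : nx (k + 11 + 22 * j) = nx k := by
  unfold nx
  push_cast
  rw [show (22 : ZMod 22) = 0 from rfl, zero_mul, add_zero]
  generalize (k : ZMod 22) = r
  revert r
  decide +kernel

theorem R2_mu_shift (ψ : ℝ) (j : ℤ) : mu (ψ + 11 + 22 * j) = -mu ψ := by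
  unfold mu
  rw [floor_add22, fract_add22, sd_add_mul, show (11 : ℝ) = ((11 : ℤ) : ℝ) by norm_num,
    Int.floor_add_intCast, Int.fract_add_intCast, sd_add11]
  push_cast
  ring

theorem R2_hi_shift (s ψ : ℝ) (j : ℤ) : hi (-s) (ψ + 11 + 22 * j) = hi s ψ := by
  unfold hi
  rw [R2_mu_shift, neg_mul_neg]

theorem R2_iotS_Gap {k : ℤ} (j : ℤ) {v : S3} (h : v ∈ Gap k) :
    iotS v ∈ Gap (k + 11 + 22 * j) := by
  obtain ⟨⟨ψ, a, b⟩, ⟨h1, h2, h3, h4⟩, rfl⟩ := h
  dsimp only at h1 h2 h3 h4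
  refine ⟨(ψ + 11 + 22 * j, -a, b), ⟨?_, ?_, ?_, ?_⟩, by rw [iotS_embS, embS_add22]⟩ <;> dsimp only
  · push_cast
    linarith
  · rw [R2_nx_shift]
    push_cast
    linarith
  · rw [R2_sd_shift, R2_mu_shift]
    push_cast
    linarith
  · rw [R2_sd_shift]
    push_cast
    rw [R2_hi_shift]
    linarith

theorem R2_iotS_Out {s : ℝ} {v : S3} (h : v ∈ Out s) : iotS v ∈ Out (-s) := by
  rcases h with ⟨⟨ψ, a, b⟩, hp, rfl⟩ | h
  · change hi s ψ < s * a at hp
    refine Or.inl ⟨(ψ + 11 + 22 * ((0 : ℤ) : ℝ), -a, b), ?_, by rw [iotS_embS, embS_add22]⟩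
    change hi (-s) (ψ + 11 + 22 * ((0 : ℤ) : ℝ)) < -s * -a
    rw [R2_hi_shift]
    linarith
  · change rad v.1 < s * v.1 2 at h
    refine Or.inr ?_
    change rad (iot v.1) < -s * iot v.1 2
    have h1 : rad (iot v.1) = rad v.1 := by simp [rad, iot]
    have h2 : iot v.1 2 = -v.1 2 := by simp [iot]
    rw [h1, h2]
    linarith

theorem R2_iotR : ∀ r : Fin 24, (r : ℕ) < 22 → (iotR r : ℕ) < 22 ∧
    (((iotR r : ℕ) : ℤ) = (r : ℕ) + 11 + 22 * 0 ∨ ((iotR r : ℕ) : ℤ) = (r : ℕ) + 11 + 22 * (-1)) := by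
  decide +kernel

theorem iotS_mem_Reg {r : Fin 24} {v : S3} (h : v ∈ Reg r) : iotS v ∈ Reg (iotR r) := by
  by_cases h1 : (r : ℕ) < 22
  · obtain ⟨h2, h3⟩ := R2_iotR r h1
    rw [Reg, if_pos h1] at h
    rw [Reg, if_pos h2]
    rcases h3 with h3 | h3 <;> rw [h3] <;> exact R2_iotS_Gap _ h
  · obtain rfl | rfl : r = 22 ∨ r = 23 := by
      revert h1
      generalize r = x
      revert x
      decide
    · have h2 : v ∈ Out (-1) := h
      have h3 := R2_iotS_Out h2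
      rw [neg_neg] at h3
      exact h3
    · have h2 : v ∈ Out 1 := h
      exact R2_iotS_Out h2

end Pool.Agent.MP_bc14e1_gt

end

section

/-! The boxes at the crossings. -/

open Set Metric

namespace Pool.Agent.MP_bc14e1_gt

/-- One side of a threshold. -/
def R3_c (i : Bool) (t x : ℝ) : Prop := if i then t < x else x < t

theorem R3_c_conv {i : Bool} {t x y s : ℝ} (hx : R3_c i t x) (hy : R3_c i t y) (h0 : 0 ≤ s)
    (h1 : s ≤ 1) : R3_c i t ((1 - s) * x + s * y) := by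
  cases i
  · simp only [R3_c, Bool.false_eq_true, if_false] at *
    rcases le_total x y with h | h <;> nlinarith
  · simp only [R3_c, if_true] at *
    rcases le_total x y with h | h <;> nlinarith

theorem R3_c_open (i : Bool) {f g : ℝ × ℝ × ℝ → ℝ} (hf : Continuous f) (hg : Continuous g) :
    IsOpen {p | R3_c i (f p) (g p)} := by
  cases i
  · simp only [R3_c, Bool.false_eq_true, if_false]
    exact isOpen_lt hg hf
  · simp only [R3_c, if_true]
    exact isOpen_lt hf hg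

theorem R3_c_ne {i : Bool} {t x : ℝ} (h : R3_c i t x) : x ≠ t := by
  cases i
  · exact ne_of_lt h
  · exact ne_of_gt h

theorem R3_sd_sq (k : ℤ) : (sd k : ℝ) * sd k = 1 := by
  rcases sd_cases k with h | h <;> simp [h]

theorem R3_stp_cont (c : ℝ) : Continuous fun p : ℝ × ℝ × ℝ => stp (p.1 - c) :=
  stp_continuous.comp (by fun_prop)

theorem R3_open (k : ℤ) : IsOpen (boxP k) := by
  have h := R3_stp_cont k
  unfold boxP
  refine IsOpen.and ?_ (IsOpen.and ?_ (IsOpen.and ?_ ?_)) <;>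
    exact isOpen_lt (by fun_prop) (by fun_prop)

theorem R3_eq {k l : ℤ} {p q : ℝ × ℝ × ℝ} (hp : p ∈ boxP k) (hq : q ∈ boxP l)
    (h : embS p = embS q) : p.2 = q.2 ∧ ∃ j : ℤ, q.1 = p.1 + 22 * j ∧ l = k + 22 * j := by
  obtain ⟨h2, j, hj⟩ := embS_eq_iff.1 h
  refine ⟨h2, j, hj, ?_⟩
  have h3 : ((l - 1 : ℤ) : ℝ) < (k + 22 * j : ℤ) := by
    push_cast
    linarith [hp.1, hp.2.1, hq.1, hq.2.1]
  have h4 : ((k + 22 * j : ℤ) : ℝ) < (l + 1 : ℤ) := by
    push_cast
    linarith [hp.1, hp.2.1, hq.1, hq.2.1]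
  have h5 := Int.cast_lt.1 h3
  have h6 := Int.cast_lt.1 h4
  omega

theorem R3_injOn (k : ℤ) : InjOn embS (boxP k) := by
  intro p hp q hq h
  obtain ⟨h2, j, hj, hk⟩ := R3_eq hp hq h
  obtain rfl : j = 0 := by omega
  exact Prod.ext (by simpa using hj.symm) h2

theorem R3_contr (k : ℤ) (C : ℝ → ℝ → Prop) (al be x0 : ℝ) (h1 : 1 / 3 ≤ al) (h2 : al < be)
    (h3 : be ≤ 2 / 3) (ho : IsOpen {p : ℝ × ℝ × ℝ | C (stp (p.1 - k)) (sd k * p.2.1)})
    (hI : ∀ τ x, 1 / 3 < τ → τ < 2 / 3 → C (stp τ) x → al < τ ∧ τ < be) (hx : -(1 / 2) < x0)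
    (hm : ∀ τ, al < τ → τ < be → C (stp τ) x0)
    (hc : ∀ t x y s, C t x → C t y → 0 ≤ s → s ≤ 1 → C t ((1 - s) * x + s * y)) :
    ContractibleSpace (embS '' (boxP k ∩ {p | C (stp (p.1 - k)) (sd k * p.2.1)})) := by
  have hI' : ∀ p ∈ boxP k ∩ {p | C (stp (p.1 - k)) (sd k * p.2.1)},
      p.1 ∈ Ioo (k + al) (k + be) := fun p hp => by
    have h := hI _ _ (by linarith [hp.1.1]) (by linarith [hp.1.2.1]) hp.2
    exact ⟨by linarith [h.1], by linarith [h.2]⟩
  have hx0 : (sd k : ℝ) * (sd k * x0) = x0 := by rw [← mul_assoc, R3_sd_sq, one_mul]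
  have : ContractibleSpace (boxP k ∩ {p | C (stp (p.1 - k)) (sd k * p.2.1)} : Set _) := by
    refine contractible_fibre (convex_Ioo _ _) (nonempty_Ioo.2 (by linarith)) hI'
      (c := fun _ => (sd k * x0, 0)) continuousOn_const (fun ψ hψ => ?_) fun p hp s h0 h1 => ?_
    · refine ⟨⟨by linarith [hψ.1], by linarith [hψ.2], ?_, ?_⟩, ?_⟩
      · change _ < (sd k : ℝ) * (sd k * x0)
        rwa [hx0]
      · change |(0 : ℝ)| < stp (ψ - k) * (1 - stp (ψ - k))
        rw [abs_zero]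
        exact mul_pos (stp_pos (by linarith [hψ.1])) (sub_pos.2 (stp_lt_one (by linarith [hψ.2])))
      · change C (stp (ψ - k)) ((sd k : ℝ) * (sd k * x0))
        rw [hx0]
        exact hm _ (by linarith [hψ.1]) (by linarith [hψ.2])
    · have e : (sd k : ℝ) * ((1 - s) * p.2.1 + s * (sd k * x0)) =
          (1 - s) * (sd k * p.2.1) + s * x0 := by
        linear_combination s * hx0
      refine ⟨⟨hp.1.1, hp.1.2.1, ?_, ?_⟩, ?_⟩
      · change _ < (sd k : ℝ) * ((1 - s) * p.2.1 + s * (sd k * x0))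
        rw [e]
        exact R3_c_conv (i := true) hp.1.2.2.1 hx h0 h1
      · change |(1 - s) * p.2.2 + s * 0| < stp (p.1 - k) * (1 - stp (p.1 - k))
        rw [mul_zero, add_zero, abs_mul, abs_of_nonneg (sub_nonneg.2 h1)]
        nlinarith [hp.1.2.2.2, abs_nonneg p.2.2]
      · change C (stp (p.1 - k)) ((sd k : ℝ) * ((1 - s) * p.2.1 + s * (sd k * x0)))
        rw [e]
        exact hc _ _ _ _ hp.2 (hm _ (by linarith [(hI' p hp).1]) (by linarith [(hI' p hp).2])) h0 h1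
  exact contractible_embS ((R3_open k).inter ho) (α := k) fun p hp =>
    ⟨by linarith [hp.1.1], by linarith [hp.1.2.1]⟩

theorem R3_Bp (k : Fin 22) (i : Bool) : Bp k i = embS '' (boxP (k : ℕ) ∩
    {p | R3_c i (stp (p.1 - ((k : ℕ) : ℤ))) (sd (k : ℕ) * p.2.1)}) := by
  rw [Int.cast_natCast]
  rfl

theorem R3_Bm (k : Fin 22) (i : Bool) : Bm k i = embS '' (boxP (k : ℕ) ∩
    {p | R3_c i (1 - stp (p.1 - ((k : ℕ) : ℤ))) (sd (k : ℕ) * p.2.1)}) := by
  rw [Int.cast_natCast]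
  rfl

theorem R3_inter (k : ℤ) (A B : Set (ℝ × ℝ × ℝ)) :
    embS '' (boxP k ∩ A) ∩ embS '' (boxP k ∩ B) = embS '' (boxP k ∩ (A ∩ B)) := by
  rw [← (R3_injOn k).image_inter inter_subset_left inter_subset_left, ← inter_inter_distrib_left]

theorem R3_x0 (i : Bool) {t : ℝ} (h0 : 0 < t) (h1 : t < 1) :
    R3_c i t (if i then 2 else -(1 / 4)) := by
  cases i
  · change -(1 / 4) < t
    linarith
  · change t < 2
    linarith

theorem R3_x0_lt (i : Bool) : -(1 / 2 : ℝ) < if i then 2 else -(1 / 4) := by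
  cases i <;> norm_num

theorem R3_str {k : ℤ} {ψ a b b' : ℝ} (h : (ψ, a, b) ∈ boxP k) : Str ψ a b' ↔
    (sd k * a = stp (ψ - k) ∧ b' = stp (ψ - k) * (1 - stp (ψ - k))) ∨
    (sd k * a = 1 - stp (ψ - k) ∧ b' = -(stp (ψ - k) * (1 - stp (ψ - k)))) := by
  have hf : ⌊ψ⌋ = k := Int.floor_eq_iff.2 ⟨by linarith [h.1], by linarith [h.2.1]⟩
  have key : ∀ t : ℝ, a = sd k * t ↔ sd k * a = t := fun t =>
    ⟨fun e => by rw [e, ← mul_assoc, R3_sd_sq, one_mul],
      fun e => by rw [← e, ← mul_assoc, R3_sd_sq, one_mul]⟩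
  rw [Str, Int.fract, hf, key, key, ← or_assoc, or_iff_left]
  rintro ⟨e, -⟩
  have h1 : -(1 / 2) < sd k * a := h.2.2.1
  rw [e, mul_neg, R3_sd_sq] at h1
  linarith

theorem R3_split (k : ℤ) (f : ℝ × ℝ × ℝ → ℝ) (U : Set S3)
    (h : ∀ p ∈ boxP k, embS p ∈ U ↔ sd k * p.2.1 ≠ f p) :
    embS '' boxP k ∩ U = embS '' (boxP k ∩ {p | R3_c false (f p) (sd k * p.2.1)}) ∪
      embS '' (boxP k ∩ {p | R3_c true (f p) (sd k * p.2.1)}) := by
  ext v
  constructor
  · rintro ⟨⟨p, hp, rfl⟩, hU⟩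
    rcases lt_or_gt_of_ne ((h p hp).1 hU) with e | e
    · exact Or.inl ⟨p, ⟨hp, e⟩, rfl⟩
    · exact Or.inr ⟨p, ⟨hp, e⟩, rfl⟩
  · rintro (⟨p, ⟨hp, e⟩, rfl⟩ | ⟨p, ⟨hp, e⟩, rfl⟩)
    · exact ⟨⟨p, hp, rfl⟩, (h p hp).2 (R3_c_ne (i := false) e)⟩
    · exact ⟨⟨p, hp, rfl⟩, (h p hp).2 (R3_c_ne (i := true) e)⟩

theorem R3_disj (k : ℤ) (f g : ℝ × ℝ × ℝ → ℝ) :
    Disjoint (embS '' (boxP k ∩ {p | R3_c false (f p) (g p)}))
      (embS '' (boxP k ∩ {p | R3_c true (f p) (g p)})) := by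
  rw [disjoint_iff_inter_eq_empty, R3_inter, image_eq_empty, eq_empty_iff_forall_notMem]
  rintro p ⟨-, h1, h2⟩
  exact lt_asymm (show g p < f p from h1) h2

theorem isOpen_Box (k : Fin 22) : IsOpen (Box k) := embS_isOpenMap _ (R3_open _)

theorem isOpen_Bp (k : Fin 22) (i : Bool) : IsOpen (Bp k i) := by
  rw [R3_Bp]
  exact embS_isOpenMap _ ((R3_open _).inter (R3_c_open i (R3_stp_cont _) (by fun_prop)))

theorem isOpen_Bm (k : Fin 22) (j : Bool) : IsOpen (Bm k j) := by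
  rw [R3_Bm]
  exact embS_isOpenMap _ ((R3_open _).inter
    (R3_c_open j (continuous_const.sub (R3_stp_cont _)) (by fun_prop)))

theorem contractible_Box (k : Fin 22) : ContractibleSpace (Box k) := by
  have h := R3_contr (k : ℕ) (fun _ _ => True) (1 / 3) (2 / 3) 0 le_rfl (by norm_num) le_rfl
    isOpen_univ (fun _ _ h1 h2 _ => ⟨h1, h2⟩) (by norm_num) (fun _ _ _ => trivial)
    fun _ _ _ _ _ _ _ _ => trivial
  rwa [Set.ofPred_true, inter_univ] at h

theorem contractible_Bp (k : Fin 22) (i : Bool) : ContractibleSpace (Bp k i) := by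
  rw [R3_Bp]
  exact R3_contr (k : ℕ) (fun t x => R3_c i t x) (1 / 3) (2 / 3) _ le_rfl (by norm_num) le_rfl
    (R3_c_open i (R3_stp_cont _) (by fun_prop)) (fun _ _ h1 h2 _ => ⟨h1, h2⟩) (R3_x0_lt i)
    (fun _ h1 h2 => R3_x0 i (stp_pos h1) (stp_lt_one h2)) fun _ _ _ _ => R3_c_conv

theorem contractible_Bm (k : Fin 22) (j : Bool) : ContractibleSpace (Bm k j) := by
  rw [R3_Bm]
  exact R3_contr (k : ℕ) (fun t x => R3_c j (1 - t) x) (1 / 3) (2 / 3) _ le_rfl (by norm_num)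
    le_rfl (R3_c_open j (continuous_const.sub (R3_stp_cont _)) (by fun_prop))
    (fun _ _ h1 h2 _ => ⟨h1, h2⟩) (R3_x0_lt j)
    (fun _ h1 h2 => R3_x0 j (sub_pos.2 (stp_lt_one h2)) (sub_lt_self _ (stp_pos h1)))
    fun _ _ _ _ => R3_c_conv

theorem contractible_quad (k : Fin 22) (i j : Bool) :
    ContractibleSpace (Bp k i ∩ Bm k j : Set S3) := by
  rw [R3_Bp, R3_Bm, R3_inter]
  have key := fun al be x0 h1 h2 h3 hI hx hm =>
    R3_contr (k : ℕ) (fun t x => R3_c i t x ∧ R3_c j (1 - t) x) al be x0 h1 h2 h3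
      ((R3_c_open i (R3_stp_cont _) (by fun_prop)).inter
        (R3_c_open j (continuous_const.sub (R3_stp_cont _)) (by fun_prop))) hI hx hm
      fun _ _ _ _ hx hy h0 h1 => ⟨R3_c_conv hx.1 hy.1 h0 h1, R3_c_conv hx.2 hy.2 h0 h1⟩
  by_cases hij : i = j
  · subst hij
    exact key (1 / 3) (2 / 3) _ le_rfl (by norm_num) le_rfl (fun _ _ h1 h2 _ => ⟨h1, h2⟩)
      (R3_x0_lt i) fun _ h1 h2 => ⟨R3_x0 i (stp_pos h1) (stp_lt_one h2),
        R3_x0 i (sub_pos.2 (stp_lt_one h2)) (sub_lt_self _ (stp_pos h1))⟩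
  cases i <;> cases j
  · exact absurd rfl hij
  · refine key (1 / 2) (2 / 3) (1 / 2) (by norm_num) (by norm_num) le_rfl
      (fun τ x _ h2 h => ⟨?_, h2⟩) (by norm_num) fun τ h1 _ => ⟨half_lt_stp h1, ?_⟩
    · have h3 : x < stp τ := h.1
      have h4 : 1 - stp τ < x := h.2
      rcases lt_trichotomy τ (1 / 2) with e | e | e
      · linarith [stp_lt_half e]
      · rw [e, stp_half] at h3 h4
        linarith
      · exact e
    · change 1 - stp τ < 1 / 2
      linarith [half_lt_stp h1]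
  · refine key (1 / 3) (1 / 2) (1 / 2) le_rfl (by norm_num) (by norm_num)
      (fun τ x h1 _ h => ⟨h1, ?_⟩) (by norm_num) fun τ _ h2 => ⟨stp_lt_half h2, ?_⟩
    · have h3 : stp τ < x := h.1
      have h4 : x < 1 - stp τ := h.2
      rcases lt_trichotomy τ (1 / 2) with e | e | e
      · exact e
      · rw [e, stp_half] at h3 h4
        linarith
      · linarith [half_lt_stp e]
    · change 1 / 2 < 1 - stp τ
      linarith [stp_lt_half h2]
  · exact absurd rfl hij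

theorem disjoint_Box {k l : Fin 22} (h : k ≠ l) : Disjoint (Box k) (Box l) := by
  rw [Set.disjoint_left]
  rintro _ ⟨p, hp, rfl⟩ ⟨q, hq, e⟩
  obtain ⟨-, j, -, hj⟩ := R3_eq hq hp e
  exact h (Fin.ext (by omega))

theorem disjoint_Bp (k : Fin 22) : Disjoint (Bp k false) (Bp k true) := by
  rw [R3_Bp, R3_Bp]
  exact R3_disj _ _ _

theorem disjoint_Bm (k : Fin 22) : Disjoint (Bm k false) (Bm k true) := by
  rw [R3_Bm, R3_Bm]
  exact R3_disj _ _ _

theorem Box_inter_Up (k : Fin 22) : Box k ∩ Up = Bp k false ∪ Bp k true := by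
  rw [R3_Bp, R3_Bp]
  refine R3_split _ _ _ ?_
  rintro ⟨ψ, a, b⟩ hp
  have hb := abs_lt.1 hp.2.2.2
  rw [embS_mem_Up]
  refine ⟨fun h e => lt_asymm (h _ ((R3_str hp).2 (Or.inl ⟨e, rfl⟩))) hb.2, fun h b' hb' => ?_⟩
  rcases (R3_str hp).1 hb' with ⟨e, -⟩ | ⟨-, e⟩
  · exact absurd e h
  · rw [e]
    exact hb.1

theorem Box_inter_Um (k : Fin 22) : Box k ∩ Um = Bm k false ∪ Bm k true := by
  rw [R3_Bm, R3_Bm]
  refine R3_split _ _ _ ?_
  rintro ⟨ψ, a, b⟩ hp
  have hb := abs_lt.1 hp.2.2.2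
  rw [embS_mem_Um]
  refine ⟨fun h e => lt_asymm (h _ ((R3_str hp).2 (Or.inr ⟨e, rfl⟩))) hb.1, fun h b' hb' => ?_⟩
  rcases (R3_str hp).1 hb' with ⟨-, e⟩ | ⟨e, -⟩
  · rw [e]
    exact hb.2
  · exact absurd e h

end Pool.Agent.MP_bc14e1_gt

end
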