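import Mathlib
import Pool.Agent.Mg.Fbc14e1.G6fb7b3
import Pool.Agent.Mg.Fbc14e1.Gfa8ece

section

/-! Linear algebra of primary parts. -/

open Polynomial

namespace Pool.Agent.MP_bc14e1_gt

section Aux

variable {V : Type} [AddCommGroup V] [Module ℂ V]

theorem Abs_stable (S : Module.End ℂ V) {Z : Submodule ℂ V} (hZ : ∀ v ∈ Z, S v ∈ Z) (p : ℂ[X])
    {v : V} (hv : v ∈ Z) : aeval S p v ∈ Z :=
  Polynomial.aeval_apply_smul_mem_of_le_comap hv p S (fun w hw => hZ w hw)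

theorem Abs_mul (S : Module.End ℂ V) (p q : ℂ[X]) (v : V) :
    aeval S (p * q) v = aeval S p (aeval S q v) := by
  rw [map_mul, Module.End.mul_apply]

theorem Abs_lin (S : Module.End ℂ V) (s : ℂ) (v : V) : aeval S (X - C s) v = S v - s • v := by
  rw [map_sub, aeval_X, aeval_C, LinearMap.sub_apply, Module.algebraMap_end_apply]

theorem Abs_eval (S : Module.End ℂ V) {W : Submodule ℂ V} (hW : ∀ v ∈ W, S v ∈ W) {s : ℂ}
    (p : ℂ[X]) {v : V} (hv : S v - s • v ∈ W) : aeval S p v - p.eval s • v ∈ W := by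
  obtain ⟨q, hq⟩ := X_sub_C_dvd_sub_C_eval (p := p) (a := s)
  have h : aeval S p v - p.eval s • v = aeval S q (S v - s • v) := by
    rw [← Abs_lin S s v, ← Abs_mul, mul_comm, ← hq, map_sub, aeval_C, LinearMap.sub_apply,
      Module.algebraMap_end_apply]
  rw [h]
  exact Abs_stable S hW q hv

theorem Abs_phi (S : Module.End ℂ V) {s : ℂ} (φ : V →ₗ[ℂ] ℂ) (hφ : ∀ v, φ (S v) = s * φ v)
    (p : ℂ[X]) (v : V) : φ (aeval S p v) = p.eval s * φ v := by
  have h := Abs_eval S (W := LinearMap.ker φ) (s := s) (fun w hw => by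
    rw [LinearMap.mem_ker] at hw ⊢
    rw [hφ, hw, mul_zero]) p (v := v) (by
    rw [LinearMap.mem_ker, map_sub, map_smul, hφ, smul_eq_mul, sub_self])
  rwa [LinearMap.mem_ker, map_sub, map_smul, smul_eq_mul, sub_eq_zero] at h

theorem Abs_pi (S : Module.End ℂ V) (s : ℂ) (N : ℕ) :
    aeval S (X ^ N - C (s ^ N)) = S ^ N - s ^ N • (1 : Module.End ℂ V) := by
  rw [map_sub, map_pow, aeval_X, aeval_C, Algebra.algebraMap_eq_smul_one]

theorem Abs_coprime {s : ℂ} (h0 : s ≠ 0) {N : ℕ} {D : ℂ[X]}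
    (hD : ∀ η : ℂ, η ^ N = 1 → D.eval (η * s) ≠ 0) : IsCoprime (X ^ N - C (s ^ N)) D := by
  rw [Polynomial.isCoprime_iff_aeval_ne_zero_of_isAlgClosed ℂ ℂ]
  intro a
  by_cases h : a ^ N = s ^ N
  · right
    have h1 := hD (a / s) (by rw [div_pow, h, div_self (pow_ne_zero _ h0)])
    rwa [div_mul_cancel₀ _ h0, ← coe_aeval_eq_eval] at h1
  · left
    rw [map_sub, map_pow, aeval_X, aeval_C]
    exact sub_ne_zero.2 h

theorem Abs_co (S : Module.End ℂ V) {Z W : Submodule ℂ V} (hco : ∀ v, S v - v ∈ Z ⊔ W) (v : V) :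
    ∃ x ∈ Z, S v - v - x ∈ W := by
  obtain ⟨x, hx, w, hw, h⟩ := Submodule.mem_sup.1 (hco v)
  exact ⟨x, hx, by rwa [← h, add_sub_cancel_left]⟩

end Aux

theorem abs_len1 {V : Type} [AddCommGroup V] [Module ℂ V] (S : Module.End ℂ V)
    (Z B W : Submodule ℂ V) (hZ : ∀ v ∈ Z, S v ∈ Z) (hB : ∀ v ∈ B, S v ∈ B)
    (hW : ∀ v ∈ W, S v ∈ W) (hBW : B ≤ W) (hZW : Z ⊓ W ≤ B) (hco : ∀ v, S v - v ∈ Z ⊔ W)
    {s₀ : ℂ} (hs : s₀ ≠ 1) (h0 : s₀ ≠ 0) {N : ℕ} (hN : 0 < N) {D : ℂ[X]}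
    (hD : ∀ η : ℂ, η ^ N = 1 → D.eval (η * s₀) ≠ 0)
    (hkill : ∀ v, aeval S ((X - C s₀) * D) v ∈ W) (g : V)
    (hrank : ∀ v, ∃ (t : ℂ) (u : V), v - t • g - (S u - s₀ • u) ∈ W)
    (φ : V →ₗ[ℂ] ℂ) (hφW : ∀ v ∈ W, φ v = 0) (hφS : ∀ v, φ (S v) = s₀ * φ v) (hφ : φ ≠ 0) :
    ∃ x ∈ Z, (S ^ N - s₀ ^ N • (1 : Module.End ℂ V)) x ∈ B ∧ x ∉ B ∧
      (∀ y ∈ Z, ∀ k : ℕ, ((S ^ N - s₀ ^ N • (1 : Module.End ℂ V)) ^ k) y ∈ B →
        ∃ μ : ℂ, y - μ • x ∈ B) ∧
      ∀ y ∈ Z, ∃ μ : ℂ, ∃ y' ∈ Z,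
        y - μ • x - (S ^ N - s₀ ^ N • (1 : Module.End ℂ V)) y' ∈ B := by
  have hg : φ g ≠ 0 := fun hg => hφ (LinearMap.ext fun v => by
    obtain ⟨t, u, h⟩ := hrank v
    have h1 := hφW _ h
    rw [map_sub, map_sub, map_sub, map_smul, map_smul, hφS, hg, smul_zero, smul_eq_mul,
      sub_self, sub_zero, sub_zero] at h1
    exact h1)
  have hD1 : D.eval s₀ ≠ 0 := by simpa using hD 1 (one_pow _)
  have hs1 : s₀ - 1 ≠ 0 := sub_ne_zero.2 hs
  have hx0 : S (aeval S D g) - s₀ • aeval S D g ∈ W := by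
    rw [← Abs_lin, ← Abs_mul]
    exact hkill g
  have hφ0 : φ (aeval S D g) ≠ 0 := by
    rw [Abs_phi S φ hφS]
    exact mul_ne_zero hD1 hg
  have hDy : ∀ y, ∃ t : ℂ, aeval S D y - t • aeval S D g ∈ W := fun y => by
    obtain ⟨t, u, h⟩ := hrank y
    have h1 := Abs_stable S hW D h
    have h2 : aeval S D (S u - s₀ • u) ∈ W := by
      rw [← Abs_lin, ← Abs_mul, mul_comm]
      exact hkill u
    rw [map_sub, map_sub, map_smul] at h1
    exact ⟨t, by simpa using W.add_mem h1 h2⟩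
  generalize aeval S D g = x0 at hx0 hφ0 hDy
  obtain ⟨x, hx, hxW⟩ := Abs_co S hco x0
  have h1 : x - (s₀ - 1) • x0 ∈ W := by
    have e : x - (s₀ - 1) • x0 = (S x0 - s₀ • x0) - (S x0 - x0 - x) := by module
    rw [e]
    exact W.sub_mem hx0 hxW
  have h2 : S x - s₀ • x ∈ W := by
    have e : S x - s₀ • x = (s₀ - 1) • (S x0 - s₀ • x0) +
        (S (x - (s₀ - 1) • x0) - s₀ • (x - (s₀ - 1) • x0)) := by
      rw [map_sub, map_smul]
      module
    rw [e]
    exact W.add_mem (W.smul_mem _ hx0) (W.sub_mem (hW _ h1) (W.smul_mem _ h1))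
  have h3 : ∀ (v : ℂ[X]) (y : V), ∃ μ : ℂ, aeval S (v * D) y - μ • x ∈ W := fun v y => by
    obtain ⟨t, ht⟩ := hDy y
    have a1 : aeval S D y - (t * (s₀ - 1)⁻¹) • x ∈ W := by
      have e : aeval S D y - (t * (s₀ - 1)⁻¹) • x =
          (aeval S D y - t • x0) - (t * (s₀ - 1)⁻¹) • (x - (s₀ - 1) • x0) := by
        rw [smul_sub, smul_smul, inv_mul_cancel_right₀ hs1]
        module
      rw [e]
      exact W.sub_mem ht (W.smul_mem _ h1)
    have a2 := Abs_stable S hW v a1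
    have a3 := W.smul_mem (t * (s₀ - 1)⁻¹) (Abs_eval S hW v h2)
    refine ⟨t * (s₀ - 1)⁻¹ * v.eval s₀, ?_⟩
    have a4 := W.add_mem a2 a3
    rw [map_sub, map_smul, smul_sub, smul_smul, sub_add_sub_cancel] at a4
    rwa [Abs_mul]
  have hcop := Abs_coprime h0 hD
  rw [← Abs_pi]
  refine ⟨x, hx, hZW ⟨Abs_stable S hZ _ hx, ?_⟩, fun hxB => ?_, fun y hy k hk => ?_,
    fun y hy => ?_⟩
  · have a1 := Abs_eval S hW (X ^ N - C (s₀ ^ N)) h2
    rwa [eval_sub, eval_pow, eval_X, eval_C, sub_self, zero_smul, sub_zero] at a1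
  · have a1 := hφW _ h1
    rw [map_sub, map_smul, hφW _ (hBW hxB), smul_eq_mul, zero_sub, neg_eq_zero] at a1
    exact mul_ne_zero hs1 hφ0 a1
  · obtain ⟨u, v, huv⟩ := hcop.pow_left (m := k)
    obtain ⟨μ, hμ⟩ := h3 v y
    refine ⟨μ, hZW ⟨Z.sub_mem hy (Z.smul_mem _ hx), ?_⟩⟩
    rw [← map_pow] at hk
    have a1 := hBW (Abs_stable S hB u hk)
    have a2 := W.add_mem a1 hμ
    rwa [← Abs_mul, ← add_sub_assoc, ← LinearMap.add_apply, ← map_add, huv, map_one,
      Module.End.one_apply] at a2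
  · obtain ⟨u, v, huv⟩ := hcop
    obtain ⟨μ, hμ⟩ := h3 v y
    have a0 := Abs_stable S hZ u hy
    refine ⟨μ, aeval S u y, a0, hZW ⟨Z.sub_mem (Z.sub_mem hy (Z.smul_mem _ hx))
      (Abs_stable S hZ _ a0), ?_⟩⟩
    have a1 : y = aeval S (X ^ N - C (s₀ ^ N)) (aeval S u y) + aeval S (v * D) y := by
      rw [← Abs_mul, ← LinearMap.add_apply, ← map_add, mul_comm, huv, map_one,
        Module.End.one_apply]
    have e : y - μ • x - aeval S (X ^ N - C (s₀ ^ N)) (aeval S u y) =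
        aeval S (v * D) y - μ • x := by
      rw [sub_right_comm, sub_left_inj, sub_eq_iff_eq_add']
      exact a1
    rw [SetLike.mem_coe, e]
    exact hμ

theorem abs_len2 {V : Type} [AddCommGroup V] [Module ℂ V] (S : Module.End ℂ V)
    (Z B W : Submodule ℂ V) (hZ : ∀ v ∈ Z, S v ∈ Z)
    (hW : ∀ v ∈ W, S v ∈ W) (hZW : Z ⊓ W ≤ B) (hco : ∀ v, S v - v ∈ Z ⊔ W)
    {ζ : ℂ} (hs : ζ ≠ 1) {D : ℂ[X]} (hkill : ∀ v, aeval S ((X - C ζ) * D) v ∈ W) (g₁ g₂ : V)
    (hrank : ∀ v, ∃ (t₁ t₂ : ℂ) (u : V), v - t₁ • g₁ - t₂ • g₂ - (S u - ζ • u) ∈ W) :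
    (∀ y ∈ Z, (S - ζ • (1 : Module.End ℂ V)) (aeval S D y) ∈ B) ∧
    ∃ x₁ ∈ Z, ∃ x₂ ∈ Z, ∀ y ∈ Z, ∃ μ₁ μ₂ : ℂ, ∃ y' ∈ Z,
      y - μ₁ • x₁ - μ₂ • x₂ - (S - ζ • (1 : Module.End ℂ V)) y' ∈ B := by
  have hπ : ∀ v, (S - ζ • (1 : Module.End ℂ V)) v = S v - ζ • v := fun v => rfl
  have hπZ : ∀ v ∈ Z, S v - ζ • v ∈ Z := fun v hv => Z.sub_mem (hZ v hv) (Z.smul_mem _ hv)
  have hs1 : ζ - 1 ≠ 0 := sub_ne_zero.2 hs
  refine ⟨fun y hy => ?_, ?_⟩
  · rw [hπ]
    refine hZW ⟨hπZ _ (Abs_stable S hZ D hy), ?_⟩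
    rw [SetLike.mem_coe, ← Abs_lin, ← Abs_mul]
    exact hkill y
  obtain ⟨x₁, hx₁, a1⟩ := Abs_co S hco g₁
  obtain ⟨x₂, hx₂, a2⟩ := Abs_co S hco g₂
  refine ⟨x₁, hx₁, x₂, hx₂, fun y hy => ?_⟩
  obtain ⟨t₁, t₂, u, h⟩ := hrank y
  obtain ⟨u', hu', a3⟩ := Abs_co S hco u
  have hy' : (ζ - 1)⁻¹ • (u' - y) ∈ Z := Z.smul_mem _ (Z.sub_mem hu' hy)
  refine ⟨(ζ - 1)⁻¹ * t₁, (ζ - 1)⁻¹ * t₂, (ζ - 1)⁻¹ • (u' - y), hy', ?_⟩
  rw [hπ]
  refine hZW ⟨Z.sub_mem (Z.sub_mem (Z.sub_mem hy (Z.smul_mem _ hx₁)) (Z.smul_mem _ hx₂))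
    (hπZ _ hy'), ?_⟩
  have b : (ζ - 1) • y - t₁ • x₁ - t₂ • x₂ - (S (u' - y) - ζ • (u' - y)) ∈ W := by
    have b1 := W.add_mem (W.add_mem (W.add_mem (W.sub_mem (hW _ h) h) (W.smul_mem t₁ a1))
      (W.smul_mem t₂ a2)) (W.sub_mem (hW _ a3) (W.smul_mem ζ a3))
    convert b1 using 1
    simp only [map_sub, map_smul]
    module
  have b2 := W.smul_mem (ζ - 1)⁻¹ b
  rw [smul_sub, smul_sub, smul_sub, inv_smul_smul₀ hs1] at b2
  rw [SetLike.mem_coe, map_smul]
  convert b2 using 1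
  module

end Pool.Agent.MP_bc14e1_gt

end

section

/-! The combinatorial data of the diagram. -/

open Set Metric

namespace Pool.Agent.MP_bc14e1_gt

/-- The four regions at a crossing. -/
def regK (k : Fin 22) : Fin 4 → Fin 24 :=
  ![qd k false false, qd k false true, qd k true true, qd k true false]

/-- The level of a region. -/
def gapK : Fin 24 → ℤ := ![1, 1, 2, 2, 1, 1, 1, 2, 2, 1, 1, 2, 2, 1, 1, 2, 2, 2, 1, 1, 2, 2, 0, 3]

/-- The first colouring. -/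
def colA : Fin 24 → Eis ℤ :=
  ![⟨1, 0⟩, ⟨1, -1⟩, ⟨0, 0⟩, ⟨1, -1⟩, ⟨0, -1⟩, ⟨0, 0⟩, ⟨1, -1⟩, ⟨1, 0⟩, ⟨0, 0⟩, ⟨-1, 0⟩, ⟨0, 1⟩,
    ⟨0, 1⟩, ⟨-1, 1⟩, ⟨0, 0⟩, ⟨-1, 1⟩, ⟨-1, 0⟩, ⟨0, 0⟩, ⟨-1, 1⟩, ⟨0, 1⟩, ⟨0, 0⟩, ⟨0, -1⟩, ⟨1, 0⟩,
    ⟨0, 0⟩, ⟨0, 0⟩]

/-- The second colouring. -/
def colB : Fin 24 → Eis ℤ :=
  ![⟨0, 0⟩, ⟨0, 0⟩, ⟨1, -1⟩, ⟨1, 0⟩, ⟨1, 0⟩, ⟨1, -1⟩, ⟨0, 0⟩, ⟨0, 0⟩, ⟨1, -1⟩, ⟨1, -1⟩, ⟨0, -1⟩,
    ⟨1, -1⟩, ⟨1, -1⟩, ⟨0, 0⟩, ⟨1, -1⟩, ⟨2, -1⟩, ⟨1, 0⟩, ⟨1, -1⟩, ⟨0, -1⟩, ⟨0, 0⟩, ⟨1, 0⟩, ⟨0, 0⟩,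
    ⟨0, 0⟩, ⟨1, 0⟩]

/-- The colouring modulo eight with the values `x` and `y` at the regions `21` and `23`. -/
def col8 (x y : Eis (ZMod 8)) (r : Fin 24) : Eis (ZMod 8) := x * red8 (colA r) + y * red8 (colB r)

/-- The exponent table belongs to the colouring with the values `x` and `y`. -/
def exOK (Ex : List (List ℕ)) (x y : Eis (ZMod 8)) : Prop :=
  ∀ (k : Fin 22) (j : Fin 6), ((expo Ex k j : ℕ) : ZMod 8) =
    ((⟨0, 1⟩ : Eis (ZMod 8)) ^ (j : ℕ) * (col8 x y (regK k 1) -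
      (if epsB k then (⟨0, 1⟩ : Eis (ZMod 8)) else ⟨1, -1⟩) * col8 x y (regK k 2))).re

instance (Ex : List (List ℕ)) (x y : Eis (ZMod 8)) : Decidable (exOK Ex x y) := by
  unfold exOK
  infer_instance

section

variable {Rg Cr : Type} (reg : Cr → Fin 4 → Rg) (gap : Rg → ℤ) (w : Rg → ℤ → ℂ)

/-- Weights of a twisted Dehn complex that are trivial at two regions and have period `m`. -/
structure WOK (R0 R1 : Rg) (m : ℤ) : Prop where
  g0 : gap R0 = 0
  g1 : gap R1 = 1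
  gq : ∀ c, gap (reg c 0) = gap (reg c 1) - gap (reg c 2) + gap (reg c 3)
  w0 : ∀ n, w R0 n = 1
  w1 : ∀ n, w R1 n = 1
  ne : ∀ r n, w r n ≠ 0
  wq : ∀ c n, w (reg c 0) n * w (reg c 2) (n + (gap (reg c 1) - gap (reg c 2))) =
    w (reg c 1) n * w (reg c 3) (n + (gap (reg c 1) - gap (reg c 2)))
  per : ∀ r n, w r (n + m) = w r n

/-- Boundaries together with the chains on the two base regions. -/
noncomputable def WT (R0 R1 : Rg) : Submodule ℂ ((Rg × ℤ) →₀ ℂ) :=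
  LinearMap.range (d2T reg gap w) ⊔ Finsupp.supported ℂ ℂ {x | x.1 = R0 ∨ x.1 = R1}

end

/-- The twelve generators. -/
noncomputable def genK (i : Fin 12) : (Fin 24 × ℤ) →₀ ℂ :=
  if (i : ℕ) < 6 then Finsupp.single (21, (i : ℕ)) 1 else Finsupp.single (23, (i : ℕ) - 6) 1

/-- The weights of the relations are the powers of `a` in the exponent table. -/
def WE (w : Fin 24 → ℤ → ℂ) (a : ℂ) (Ex : List (List ℕ)) : Prop :=
  ∀ (k : Fin 22) (j : Fin 6), w (regK k 1) (j : ℕ) /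
    w (regK k 2) ((j : ℕ) + (gapK (regK k 1) - gapK (regK k 2))) = a ^ expo Ex k j

theorem gapK_eps (k : Fin 22) :
    gapK (regK k 1) - gapK (regK k 2) = if epsB k then 1 else -1 := by
  revert k
  decide

theorem regK_one (k : Fin 22) : regK k 1 = k.castLE (by norm_num) := rfl

theorem gapK_quad (k : Fin 22) :
    gapK (regK k 0) = gapK (regK k 1) - gapK (regK k 2) + gapK (regK k 3) := by
  revert k
  decide

theorem gapK_iotR (r : Fin 24) : gapK (iotR r) = 3 - gapK r := by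
  revert r
  decide

/-- The cone over a subset of the sphere inside the shell. -/
def shC (A : Set S3) : Set (E 4) :=
  {x | x ∈ shell ∧ ∃ v ∈ A, (v : E 4) = ‖x‖⁻¹ • x}

end Pool.Agent.MP_bc14e1_gt

end

section

/-! General facts on twisted Dehn complexes. -/

namespace Pool.Agent.MP_bc14e1_gt

variable {Rg Cr : Type} {reg : Cr → Fin 4 → Rg} {gap : Rg → ℤ} {w : Rg → ℤ → ℂ} {R0 R1 : Rg}
  {m : ℤ}

theorem shT_single (m : ℤ) (r : Rg) (n : ℤ) (c : ℂ) :
    shT Rg m (Finsupp.single (r, n) c) = Finsupp.single (r, n + m) c := by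
  rw [shT, Finsupp.lmapDomain_apply, Finsupp.mapDomain_single]

theorem Cx_sh_sh (m k : ℤ) (v : (Rg × ℤ) →₀ ℂ) : shT Rg m (shT Rg k v) = shT Rg (k + m) v := by
  induction v using Finsupp.induction_linear with
  | zero => simp
  | add a b ha hb => simp only [map_add, ha, hb]
  | single z a =>
    obtain ⟨r, n⟩ := z
    simp only [shT_single, add_assoc]

theorem Cx_sh_zero (v : (Rg × ℤ) →₀ ℂ) : shT Rg 0 v = v := by
  induction v using Finsupp.induction_linear with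
  | zero => simp
  | add a b ha hb => simp only [map_add, ha, hb]
  | single z a =>
    obtain ⟨r, n⟩ := z
    simp only [shT_single, add_zero]

theorem shT_pow (m : ℤ) (N : ℕ) : shT Rg m ^ N = shT Rg (m * N) := by
  refine LinearMap.ext fun v => ?_
  induction N with
  | zero => simp [Cx_sh_zero]
  | succ N ih =>
    rw [pow_succ', Module.End.mul_apply, ih, Cx_sh_sh, Nat.cast_succ, mul_add, mul_one]

theorem Cx_d1 (gap : Rg → ℤ) (w : Rg → ℤ → ℂ) (r : Rg) (n : ℤ) (c : ℂ) :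
    d1T gap w (Finsupp.single (r, n) c) =
      c • (w r n • Finsupp.single (true, n + gap r) 1 - Finsupp.single (false, n) 1) := by
  rw [d1T, Finsupp.linearCombination_single]

theorem Cx_d2 (reg : Cr → Fin 4 → Rg) (gap : Rg → ℤ) (w : Rg → ℤ → ℂ) (x : Cr) (n : ℤ) (c : ℂ) :
    d2T reg gap w (Finsupp.single (x, n) c) =
      c • (Finsupp.single (reg x 0, n) 1 - Finsupp.single (reg x 1, n) 1 +
      (w (reg x 1) n / w (reg x 2) (n + (gap (reg x 1) - gap (reg x 2)))) •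
        (Finsupp.single (reg x 2, n + (gap (reg x 1) - gap (reg x 2))) 1 -
          Finsupp.single (reg x 3, n + (gap (reg x 1) - gap (reg x 2))) 1)) := by
  rw [d2T, Finsupp.linearCombination_single]

theorem Cx_d1_sh (h : WOK reg gap w R0 R1 m) (v : (Rg × ℤ) →₀ ℂ) :
    d1T gap w (shT Rg m v) = shT Bool m (d1T gap w v) := by
  induction v using Finsupp.induction_linear with
  | zero => simp
  | add a b ha hb => simp only [map_add, ha, hb]
  | single z a =>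
    obtain ⟨r, n⟩ := z
    simp only [shT_single, Cx_d1, map_smul, map_sub, h.per, add_right_comm n m]

theorem Cx_d2_sh (h : WOK reg gap w R0 R1 m) (v : (Cr × ℤ) →₀ ℂ) :
    d2T reg gap w (shT Cr m v) = shT Rg m (d2T reg gap w v) := by
  induction v using Finsupp.induction_linear with
  | zero => simp
  | add a b ha hb => simp only [map_add, ha, hb]
  | single z a =>
    obtain ⟨r, n⟩ := z
    simp only [shT_single, Cx_d2, map_smul, map_sub, map_add, h.per, add_right_comm n m]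

theorem Cx_neg (h : WOK reg gap w R0 R1 m) : WOK reg gap w R0 R1 (-m) :=
  ⟨h.g0, h.g1, h.gq, h.w0, h.w1, h.ne, h.wq, fun r n => by
    rw [← h.per r (n + -m), neg_add_cancel_right]⟩

theorem Cx_supp_le {S : Submodule ℂ ((Rg × ℤ) →₀ ℂ)} (h0 : ∀ n, Finsupp.single (R0, n) 1 ∈ S)
    (h1 : ∀ n, Finsupp.single (R1, n) 1 ∈ S) :
    Finsupp.supported ℂ ℂ {x : Rg × ℤ | x.1 = R0 ∨ x.1 = R1} ≤ S := by
  rw [Finsupp.supported_eq_span_single, Submodule.span_le]
  rintro _ ⟨⟨r, n⟩, rfl | rfl, rfl⟩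
  exacts [h0 n, h1 n]

theorem WOK.range_le_ker (h : WOK reg gap w R0 R1 m) :
    LinearMap.range (d2T reg gap w) ≤ LinearMap.ker (d1T gap w) := by
  rintro _ ⟨v, rfl⟩
  rw [LinearMap.mem_ker]
  induction v using Finsupp.induction_linear with
  | zero => simp
  | add a b ha hb => simp only [map_add, ha, hb, add_zero]
  | single z a =>
    obtain ⟨x, n⟩ := z
    have e1 : n + (gap (reg x 1) - gap (reg x 2)) + gap (reg x 2) = n + gap (reg x 1) := by ring
    have e2 : n + (gap (reg x 1) - gap (reg x 2)) + gap (reg x 3) = n + gap (reg x 0) := by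
      rw [h.gq]; ring
    have e3 := h.wq x n
    have e4 := h.ne (reg x 2) (n + (gap (reg x 1) - gap (reg x 2)))
    simp only [Cx_d2, map_smul, map_sub, map_add, Cx_d1, one_smul, e1, e2]
    generalize w (reg x 2) (n + (gap (reg x 1) - gap (reg x 2))) = w2 at *
    generalize w (reg x 3) (n + (gap (reg x 1) - gap (reg x 2))) = w3 at *
    have e5 : w (reg x 0) n = w (reg x 1) n / w2 * w3 := by
      field_simp
      exact e3
    have e6 : w (reg x 1) n / w2 * w2 = w (reg x 1) n := div_mul_cancel₀ _ e4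
    rw [e5, sub_sub_sub_cancel_right, sub_sub_sub_cancel_right, smul_sub, smul_smul, smul_smul, e6,
      sub_add_sub_cancel, sub_self, smul_zero]

theorem WOK.sh_ker (h : WOK reg gap w R0 R1 m) :
    ∀ v ∈ LinearMap.ker (d1T gap w), shT Rg m v ∈ LinearMap.ker (d1T gap w) := by
  intro v hv
  rw [LinearMap.mem_ker] at hv ⊢
  rw [Cx_d1_sh h, hv, map_zero]

theorem WOK.sh_range (h : WOK reg gap w R0 R1 m) :
    ∀ v ∈ LinearMap.range (d2T reg gap w), shT Rg m v ∈ LinearMap.range (d2T reg gap w) := by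
  rintro _ ⟨v, rfl⟩
  exact ⟨_, Cx_d2_sh h v⟩

theorem Cx_sh_WT (h : WOK reg gap w R0 R1 m) {v : (Rg × ℤ) →₀ ℂ} (hv : v ∈ WT reg gap w R0 R1) :
    shT Rg m v ∈ WT reg gap w R0 R1 := by
  have : WT reg gap w R0 R1 ≤ (WT reg gap w R0 R1).comap (shT Rg m) := by
    refine sup_le (fun v hv => Submodule.mem_sup_left (h.sh_range v hv))
      (Cx_supp_le (fun n => ?_) fun n => ?_)
    · rw [Submodule.mem_comap, shT_single]
      exact Submodule.mem_sup_right (Finsupp.single_mem_supported ℂ _ (Or.inl rfl))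
    · rw [Submodule.mem_comap, shT_single]
      exact Submodule.mem_sup_right (Finsupp.single_mem_supported ℂ _ (Or.inr rfl))
  exact this hv

theorem WOK.sh_WT (h : WOK reg gap w R0 R1 m) :
    ∀ v, shT Rg m v ∈ WT reg gap w R0 R1 ↔ v ∈ WT reg gap w R0 R1 := by
  refine fun v => ⟨fun hv => ?_, Cx_sh_WT h⟩
  have := Cx_sh_WT (Cx_neg h) hv
  rwa [Cx_sh_sh, add_neg_cancel, Cx_sh_zero] at this

theorem Cx_coef (h : WOK reg gap w R0 R1 m) {f : (Rg × ℤ) →₀ ℂ}
    (hf : f ∈ Finsupp.supported ℂ ℂ {x : Rg × ℤ | x.1 = R0 ∨ x.1 = R1}) (n : ℤ) :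
    d1T gap w f (true, n + 1) = f (R0, n + 1) + f (R1, n) ∧
      d1T gap w f (false, n) = -(f (R0, n) + f (R1, n)) := by
  classical
  have hne : R0 ≠ R1 := fun e => by
    have := h.g1
    rw [← e, h.g0] at this
    exact zero_ne_one this
  constructor
  · have := Cx_supp_le (R0 := R0) (R1 := R1) (S := LinearMap.eqLocus
      ((Finsupp.lapply (true, n + 1) : _ →ₗ[ℂ] ℂ).comp (d1T gap w))
      (Finsupp.lapply (R0, n + 1) + Finsupp.lapply (R1, n))) (fun k => ?_) (fun k => ?_) hf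
    · exact this
    · simp [LinearMap.mem_eqLocus, Cx_d1, h.w0, h.g0, Finsupp.single_apply, hne]
    · simp [LinearMap.mem_eqLocus, Cx_d1, h.w1, h.g1, Finsupp.single_apply, hne.symm]
  · have := Cx_supp_le (R0 := R0) (R1 := R1) (S := LinearMap.eqLocus
      ((Finsupp.lapply (false, n) : _ →ₗ[ℂ] ℂ).comp (d1T gap w))
      (-(Finsupp.lapply (R0, n) + Finsupp.lapply (R1, n)))) (fun k => ?_) (fun k => ?_) hf
    · exact this
    · simp [LinearMap.mem_eqLocus, Cx_d1, h.w0, h.g0, Finsupp.single_apply, hne]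
    · simp [LinearMap.mem_eqLocus, Cx_d1, h.w1, h.g1, Finsupp.single_apply, hne.symm]

theorem WOK.ker_inf (h : WOK reg gap w R0 R1 m) :
    LinearMap.ker (d1T gap w) ⊓ WT reg gap w R0 R1 ≤ LinearMap.range (d2T reg gap w) := by
  rintro v ⟨h1, h2⟩
  obtain ⟨b, hb, f, hf, rfl⟩ := Submodule.mem_sup.1 h2
  have h3 : d1T gap w f = 0 := by
    have := LinearMap.mem_ker.1 h1
    rwa [map_add, LinearMap.mem_ker.1 (h.range_le_ker hb), zero_add] at this
  have c1 : ∀ n, f (R0, n + 1) + f (R1, n) = 0 := fun n => by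
    rw [← (Cx_coef h hf n).1, h3, Finsupp.zero_apply]
  have c2 : ∀ n, f (R0, n) + f (R1, n) = 0 := fun n => by
    rw [← neg_eq_zero, ← (Cx_coef h hf n).2, h3, Finsupp.zero_apply]
  have c3 : ∀ n, f (R1, n + 1) = f (R1, n) := fun n => by
    linear_combination c2 (n + 1) - c1 n
  have c4 : ∀ n, f (R1, n) = f (R1, 0) := fun n => by
    induction n using Int.induction_on with
    | zero => rfl
    | succ k ih => rw [c3, ih]
    | pred k ih => rw [← c3, sub_add_cancel, ih]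
  obtain ⟨_, ⟨k, rfl⟩, hk⟩ := (Set.infinite_range_of_injective
    (f := fun n : ℤ => (R1, n)) fun _ _ e => (Prod.ext_iff.1 e).2).exists_notMem_finset f.support
  have c5 : ∀ n, f (R1, n) = 0 := fun n => by
    rw [c4, ← c4 k]
    exact Finsupp.notMem_support_iff.1 hk
  have c6 : f = 0 := by
    ext ⟨r, n⟩
    by_contra e
    rcases hf (Finsupp.mem_support_iff.2 e) with rfl | rfl
    · exact e (by simpa [c5] using c2 n)
    · exact e (c5 n)
  rwa [c6, add_zero]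

theorem WOK.sh_sub (h : WOK reg gap w R0 R1 m) :
    ∀ v, shT Rg m v - v ∈ LinearMap.ker (d1T gap w) ⊔ WT reg gap w R0 R1 := by
  intro v
  set S := (Finsupp.supported ℂ ℂ {x : Rg × ℤ | x.1 = R0 ∨ x.1 = R1}).map (d1T gap w) with hS
  have m0 : ∀ n, Finsupp.single (true, n) 1 - Finsupp.single (false, n) 1 ∈ S := fun n =>
    ⟨_, Finsupp.single_mem_supported ℂ (a := (R0, n)) 1 (Or.inl rfl), by
      rw [Cx_d1, h.w0, h.g0, one_smul, one_smul, add_zero]⟩
  have m1 : ∀ n, Finsupp.single (true, n + 1) 1 - Finsupp.single (false, n) 1 ∈ S := fun n =>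
    ⟨_, Finsupp.single_mem_supported ℂ (a := (R1, n)) 1 (Or.inr rfl), by
      rw [Cx_d1, h.w1, h.g1, one_smul, one_smul]⟩
  have s1 : ∀ b n, Finsupp.single (b, n + 1) 1 - Finsupp.single (b, n) 1 ∈ S := by
    rintro (_ | _) n
    · simpa using S.sub_mem (m1 n) (m0 (n + 1))
    · simpa using S.sub_mem (m1 n) (m0 n)
  have s2 : ∀ b n k, Finsupp.single (b, n + k) 1 - Finsupp.single (b, n) 1 ∈ S := by
    intro b n k
    induction k using Int.induction_on with
    | zero => simp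
    | succ k ih => simpa [add_assoc] using S.add_mem (s1 b (n + k)) ih
    | pred k ih => simpa [add_assoc] using S.sub_mem ih (s1 b (n + (-k - 1)))
  have s3 : ∀ z, shT Bool m z - z ∈ S := by
    intro z
    induction z using Finsupp.induction_linear with
    | zero => simp
    | add a b ha hb =>
      rw [map_add, add_sub_add_comm]
      exact S.add_mem ha hb
    | single z a =>
      obtain ⟨b, n⟩ := z
      rw [shT_single]
      simpa [smul_sub] using S.smul_mem a (s2 b n m)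
  obtain ⟨f, hf, e⟩ := s3 (d1T gap w v)
  refine Submodule.mem_sup.2 ⟨shT Rg m v - v - f, ?_, f, Submodule.mem_sup_right hf,
    sub_add_cancel _ _⟩
  rw [LinearMap.mem_ker, map_sub, map_sub, Cx_d1_sh h, e, sub_self]

/-- The weights of a colouring. -/
theorem wok_of_col (χ : AddChar (Eis (ZMod 8)) ℂ) {c : Rg → Eis (ZMod 8)} (hc : IsCol reg gap c)
    (g0 : gap R0 = 0) (g1 : gap R1 = 1)
    (gq : ∀ c, gap (reg c 0) = gap (reg c 1) - gap (reg c 2) + gap (reg c 3))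
    (c0 : c R0 = 0) (c1 : c R1 = 0) :
    WOK reg gap (fun r n => χ ((om (ZMod 8) ^ n : (Eis (ZMod 8))ˣ) * c r)) R0 R1 6 := by
  have h6 : om (ZMod 8) ^ (6 : ℤ) = 1 := by
    rw [show (6 : ℤ) = (6 : ℕ) from rfl, zpow_natCast]
    ext <;> decide
  refine ⟨g0, g1, gq, fun n => ?_, fun n => ?_, fun r n e => ?_, fun x n => ?_, fun r n => ?_⟩
  · rw [c0, mul_zero, AddChar.map_zero_eq_one]
  · rw [c1, mul_zero, AddChar.map_zero_eq_one]
  · have := χ.map_add_eq_mul ((om (ZMod 8) ^ n : (Eis (ZMod 8))ˣ) * c r)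
      (-((om (ZMod 8) ^ n : (Eis (ZMod 8))ˣ) * c r))
    rw [add_neg_cancel, AddChar.map_zero_eq_one, e, zero_mul] at this
    exact one_ne_zero this
  · rw [← AddChar.map_add_eq_mul, ← AddChar.map_add_eq_mul, zpow_add, Units.val_mul]
    congr 1
    linear_combination ((om (ZMod 8) ^ n : (Eis (ZMod 8))ˣ) : Eis (ZMod 8)) * hc x
  · rw [zpow_add, h6, mul_one]

end Pool.Agent.MP_bc14e1_gt

end

section

/-! Soundness of the elimination table: generators and relations. -/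

open Polynomial

namespace Pool.Agent.MP_bc14e1_gt

variable {Ex : List (List ℕ)} {A : List (List (List Z8))} {T : Tab} {a : ℂ}
  {w : Fin 24 → ℤ → ℂ}

/-- Polynomial combinations of the generators. -/
noncomputable def TabM_L (p : Fin 12 → ℂ[X]) : (Fin 24 × ℤ) →₀ ℂ :=
  ∑ i, aeval (shT (Fin 24) 6) (p i) (genK i)

theorem TabM_L_add (p q : Fin 12 → ℂ[X]) :
    TabM_L (fun i => p i + q i) = TabM_L p + TabM_L q := by
  simp only [TabM_L, map_add, LinearMap.add_apply, Finset.sum_add_distrib]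

theorem TabM_L_sub (p q : Fin 12 → ℂ[X]) :
    TabM_L (fun i => p i - q i) = TabM_L p - TabM_L q := by
  simp only [TabM_L, map_sub, LinearMap.sub_apply, Finset.sum_sub_distrib]

theorem TabM_L_mul (c : ℂ[X]) (p : Fin 12 → ℂ[X]) :
    TabM_L (fun i => c * p i) = aeval (shT (Fin 24) 6) c (TabM_L p) := by
  simp only [TabM_L, map_mul, Module.End.mul_apply, map_sum]

theorem TabM_L_zero : TabM_L (fun _ => 0) = 0 := by
  simp only [TabM_L, map_zero, LinearMap.zero_apply, Finset.sum_const_zero]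

theorem TabM_L_single (c : ℂ[X]) (j : Fin 12) :
    TabM_L (fun i => if i = j then c else 0) = aeval (shT (Fin 24) 6) c (genK j) := by
  rw [TabM_L, Finset.sum_eq_single j]
  · rw [if_pos rfl]
  · intro i _ hi
    rw [if_neg hi, map_zero, LinearMap.zero_apply]
  · intro h
    exact absurd (Finset.mem_univ j) h

theorem TabM_C (c : ℂ) (v : (Fin 24 × ℤ) →₀ ℂ) : aeval (shT (Fin 24) 6) (C c) v = c • v := by
  rw [aeval_C, Module.algebraMap_end_apply]

theorem TabM_X_pow (n : ℕ) (v : (Fin 24 × ℤ) →₀ ℂ) :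
    aeval (shT (Fin 24) 6) (X ^ n : ℂ[X]) v = (shT (Fin 24) 6 ^ n) v := by
  rw [map_pow, aeval_X]

theorem TabM_mem (hw : WOK regK gapK w 22 19 6) (p : ℂ[X]) {v : (Fin 24 × ℤ) →₀ ℂ}
    (hv : v ∈ WT regK gapK w 22 19) : aeval (shT (Fin 24) 6) p v ∈ WT regK gapK w 22 19 :=
  aeval_apply_smul_mem_of_le_comap hv p _ fun x hx => (hw.sh_WT x).2 hx

theorem TabM_pow_iff (hw : WOK regK gapK w 22 19 6) (n : ℕ) (v : (Fin 24 × ℤ) →₀ ℂ) :
    (shT (Fin 24) 6 ^ n) v ∈ WT regK gapK w 22 19 ↔ v ∈ WT regK gapK w 22 19 := by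
  induction n with
  | zero => rw [pow_zero, Module.End.one_apply]
  | succ n ih => rw [pow_succ', Module.End.mul_apply, hw.sh_WT, ih]

theorem TabM_pow_single (N : ℕ) (r : Fin 24) (n : ℤ) (c : ℂ) :
    (shT (Fin 24) 6 ^ N) (Finsupp.single (r, n) c) = Finsupp.single (r, n + 6 * N) c := by
  rw [shT_pow, shT_single]

theorem TabM_ite (b : Bool) : (if b then X else 1 : ℂ[X]) = X ^ b.toNat := by
  cases b <;> simp

theorem TabM_idx (k : Fin 22) (j : Fin 6) :
    ((j : ℕ) : ℤ) + (gapK (regK k 1) - gapK (regK k 2)) + 6 * ((dnB k j).toNat : ℕ) =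
      ((nj k j : ℕ) : ℤ) + 6 * ((upB k j).toNat : ℕ) := by
  revert k j
  decide

/-- The defect of the table at a region. -/
noncomputable def TabM_del (T : Tab) (a : ℂ) (r : Fin 24) (j : Fin 6) : (Fin 24 × ℤ) →₀ ℂ :=
  (shT (Fin 24) 6 ^ 2) (Finsupp.single (r, ((j : ℕ) : ℤ)) 1) -
    TabM_L fun i => evZ (C a) X (T.en r j i)

theorem TabM_res (ha : a ^ 4 = -1) (k : Fin 22) (j : Fin 6) :
    TabM_L (fun i => evZ (C a) X (T.res Ex k j i)) =
      (shT (Fin 24) 6 ^ (dnB k j).toNat)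
        (TabM_L (fun i => evZ (C a) X (T.en (qd k false true) j i)) -
          TabM_L fun i => evZ (C a) X (T.en (qd k false false) j i)) -
      a ^ expo Ex k j • (shT (Fin 24) 6 ^ (upB k j).toNat)
        (TabM_L (fun i => evZ (C a) X (T.en (qd k true true) (nj k j) i)) -
          TabM_L fun i => evZ (C a) X (T.en (qd k true false) (nj k j) i)) := by
  have ha' : (C a : ℂ[X]) ^ 4 = -1 := by rw [← C_pow, ha, C_neg, C_1]
  rw [← TabM_L_sub, ← TabM_L_sub, ← TabM_X_pow, ← TabM_X_pow, ← TabM_C, ← TabM_L_mul,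
    ← TabM_L_mul, ← TabM_L_mul, ← TabM_L_sub]
  refine congrArg TabM_L (funext fun i => ?_)
  rw [Tab.res, Tab.tw, evZ_subZ, evZ_shZ, evZ_shZ, evZ_subZ,
    evZ_map _ _ (Z8.ev_mulA _ ha' _), evZ_subZ, TabM_ite, TabM_ite, C_pow]
  ring

theorem TabM_key (ha : a ^ 4 = -1) (hw : WOK regK gapK w 22 19 6) (hE : WE w a Ex) (k : Fin 22)
    (j : Fin 6) : (shT (Fin 24) 6 ^ (dnB k j).toNat)
        (TabM_del T a (qd k false true) j - TabM_del T a (qd k false false) j) -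
      a ^ expo Ex k j • (shT (Fin 24) 6 ^ (upB k j).toNat)
        (TabM_del T a (qd k true true) (nj k j) - TabM_del T a (qd k true false) (nj k j)) +
      TabM_L (fun i => evZ (C a) X (T.res Ex k j i)) ∈ WT regK gapK w 22 19 := by
  have h1 : d2T regK gapK w (Finsupp.single (k, ((j : ℕ) : ℤ)) 1) ∈ WT regK gapK w 22 19 :=
    Submodule.mem_sup_left (LinearMap.mem_range_self _ _)
  rw [d2T, Finsupp.linearCombination_single, one_smul] at h1
  dsimp only at h1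
  rw [hE k j] at h1
  have h2 := Submodule.neg_mem _
    ((TabM_pow_iff hw 2 _).2 ((TabM_pow_iff hw (dnB k j).toNat _).2 h1))
  have h3 : ∀ r : Fin 24, (shT (Fin 24) 6 ^ (dnB k j).toNat) (Finsupp.single
      (r, ((j : ℕ) : ℤ) + (gapK (regK k 1) - gapK (regK k 2))) 1) =
      (shT (Fin 24) 6 ^ (upB k j).toNat) (Finsupp.single (r, ((nj k j : ℕ) : ℤ)) 1) := fun r => by
    rw [TabM_pow_single, TabM_pow_single, TabM_idx]
  have h4 : ∀ (n : ℕ) (v : (Fin 24 × ℤ) →₀ ℂ), (shT (Fin 24) 6 ^ 2) ((shT (Fin 24) 6 ^ n) v) =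
      (shT (Fin 24) 6 ^ n) ((shT (Fin 24) 6 ^ 2) v) := fun n v => by
    rw [← Module.End.mul_apply, ← Module.End.mul_apply, ← pow_add, ← pow_add, add_comm]
  simp only [map_add, map_sub, map_smul, h3, h4] at h2
  have e0 : regK k 0 = qd k false false := rfl
  have e1 : regK k 1 = qd k false true := rfl
  have e2 : regK k 2 = qd k true true := rfl
  have e3 : regK k 3 = qd k true false := rfl
  rw [e0, e1, e2, e3] at h2
  rw [TabM_res ha]
  simp only [TabM_del, map_sub]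
  convert h2 using 1
  module

theorem TabM_ok_res (h : tabOK Ex A T = true) (k : Fin 22) (j : Fin 6) (i : Fin 12) :
    evZ (C a) X (T.res Ex k j i) = evZ (C a) (X : ℂ[X])
      (if (k : ℕ) = 19 then en₂ A (j.castLE (by norm_num)) i
        else if (k : ℕ) = 21 then en₂ A (j.addNat 6) i else []) := by
  rw [tabOK, Bool.and_eq_true] at h
  have h1 := List.all_eq_true.1 (List.all_eq_true.1 (List.all_eq_true.1 h.1 k
    (List.mem_finRange k)) j (List.mem_finRange j)) i (List.mem_finRange i)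
  have h2 := evZ_of_all (C a) (X : ℂ[X]) h1
  rwa [evZ_subZ, sub_eq_zero] at h2

theorem TabM_ok_ini (h : tabOK Ex A T = true) {r : Fin 24}
    (hr : r ∈ ([19, 21, 22, 23] : List (Fin 24))) (j : Fin 6) (i : Fin 12) :
    evZ (C a) X (T.en r j i) = evZ (C a) (X : ℂ[X]) (ini r j i) := by
  rw [tabOK, Bool.and_eq_true] at h
  have h1 := List.all_eq_true.1 (List.all_eq_true.1 (List.all_eq_true.1 h.2 r hr) j
    (List.mem_finRange j)) i (List.mem_finRange i)
  have h2 := evZ_of_all (C a) (X : ℂ[X]) h1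
  rwa [evZ_subZ, sub_eq_zero] at h2

theorem TabM_ev_ini (r : Fin 24) (j : Fin 6) (i : Fin 12) :
    evZ (C a) (X : ℂ[X]) (ini r j i) =
      if ((r : ℕ) = 21 ∧ (i : ℕ) = j) ∨ ((r : ℕ) = 23 ∧ (i : ℕ) = j + 6) then X ^ 2 else 0 := by
  rw [ini]
  split_ifs
  · simp [ofInts, evZ, Z8.ev, pow_two]
  · rfl

theorem TabM_base (h : tabOK Ex A T = true) {r : Fin 24}
    (hr : r ∈ ([19, 21, 22, 23] : List (Fin 24))) (j : Fin 6) :
    TabM_del T a r j ∈ WT regK gapK w 22 19 := by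
  have h0 : ∀ r : Fin 24, r = 22 ∨ r = 19 → (shT (Fin 24) 6 ^ 2)
      (Finsupp.single (r, ((j : ℕ) : ℤ)) 1) - TabM_L (fun i => evZ (C a) X (ini r j i)) ∈
        WT regK gapK w 22 19 := fun r hr => by
    have h1 : (fun i => evZ (C a) (X : ℂ[X]) (ini r j i)) = fun _ => 0 := funext fun i => by
      rw [TabM_ev_ini, if_neg]
      rcases hr with rfl | rfl <;> simp
    rw [h1, TabM_L_zero, sub_zero, TabM_pow_single]
    exact Submodule.mem_sup_right (Finsupp.single_mem_supported ℂ _ hr)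
  have h1 : ∀ (r : Fin 24) (i₀ : Fin 12), (∀ i : Fin 12, ((r : ℕ) = 21 ∧ (i : ℕ) = j) ∨
      ((r : ℕ) = 23 ∧ (i : ℕ) = j + 6) ↔ i = i₀) →
      genK i₀ = Finsupp.single (r, ((j : ℕ) : ℤ)) 1 → (shT (Fin 24) 6 ^ 2)
      (Finsupp.single (r, ((j : ℕ) : ℤ)) 1) - TabM_L (fun i => evZ (C a) X (ini r j i)) ∈
        WT regK gapK w 22 19 := fun r i₀ hi hg => by
    have h1 : (fun i => evZ (C a) (X : ℂ[X]) (ini r j i)) =
        fun i => if i = i₀ then X ^ 2 else 0 := funext fun i => by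
      rw [TabM_ev_ini]
      exact if_congr (hi i) rfl rfl
    rw [h1, TabM_L_single, TabM_X_pow, hg, sub_self]
    exact Submodule.zero_mem _
  have hj := j.2
  rw [TabM_del, funext fun i => TabM_ok_ini h hr j i]
  simp only [List.mem_cons, List.not_mem_nil, or_false] at hr
  rcases hr with rfl | rfl | rfl | rfl
  · exact h0 _ (Or.inr rfl)
  · refine h1 _ (j.castLE (by norm_num)) (fun i => ?_) ?_
    · rw [Fin.ext_iff, Fin.val_castLE]
      simp
    · rw [genK, if_pos (by rw [Fin.val_castLE]; exact hj), Fin.val_castLE]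
  · exact h0 _ (Or.inl rfl)
  · refine h1 _ (j.addNat 6) (fun i => ?_) ?_
    · rw [Fin.ext_iff, Fin.val_addNat]
      simp
    · rw [genK, if_neg (by rw [Fin.val_addNat]; omega), Fin.val_addNat]
      simp

theorem TabM_lt (k : Fin 22) (h1 : (k : ℕ) ≠ 19) (h2 : (k : ℕ) ≠ 21) (x y : Bool) :
    (x = false ∧ y = true) ∨ (qd k x y : ℕ) < k ∨
      qd k x y ∈ ([19, 21, 22, 23] : List (Fin 24)) := by
  revert k x y
  decide

theorem TabM_all (h : tabOK Ex A T = true) (ha : a ^ 4 = -1) (hw : WOK regK gapK w 22 19 6)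
    (hE : WE w a Ex) (n : ℕ) : ∀ r : Fin 24, (r : ℕ) < n → ∀ j,
      TabM_del T a r j ∈ WT regK gapK w 22 19 := by
  induction n with
  | zero => exact fun r hr => absurd hr (Nat.not_lt_zero _)
  | succ n ih =>
    intro r hr j
    by_cases hb : r ∈ ([19, 21, 22, 23] : List (Fin 24))
    · exact TabM_base h hb j
    simp only [List.mem_cons, List.not_mem_nil, or_false, not_or, Fin.ext_iff] at hb
    have h19 : (r : ℕ) ≠ 19 := hb.1
    have h21 : (r : ℕ) ≠ 21 := hb.2.1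
    have h22 : (r : ℕ) ≠ 22 := hb.2.2.1
    have h23 : (r : ℕ) ≠ 23 := hb.2.2.2
    have hr2 := r.2
    obtain ⟨k, rfl⟩ : ∃ k : Fin 22, r = qd k false true := ⟨⟨r, by omega⟩, rfl⟩
    have hk : (qd k false true : ℕ) = k := rfl
    rw [hk] at h19 h21 hr
    have h1 : ∀ x y : Bool, ¬ (x = false ∧ y = true) → ∀ j,
        TabM_del T a (qd k x y) j ∈ WT regK gapK w 22 19 := fun x y hxy j => by
      rcases TabM_lt k h19 h21 x y with h2 | h2 | h2
      · exact absurd h2 hxy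
      · exact ih _ (by omega) j
      · exact TabM_base h h2 j
    have h2 := TabM_key (T := T) ha hw hE k j
    have h3 : (fun i => evZ (C a) (X : ℂ[X]) (T.res Ex k j i)) = fun _ => 0 := funext fun i => by
      rw [TabM_ok_res h, if_neg h19, if_neg h21]
      rfl
    rw [h3, TabM_L_zero, add_zero] at h2
    have h4 := (Submodule.sub_mem_iff_left _ (Submodule.smul_mem _ _ ((TabM_pow_iff hw _ _).2
      (Submodule.sub_mem _ (h1 true true (by simp) _) (h1 true false (by simp) _))))).1 h2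
    exact (Submodule.sub_mem_iff_left _ (h1 false false (by simp) j)).1
      ((TabM_pow_iff hw _ _).1 h4)

theorem TabM_res_mem (h : tabOK Ex A T = true) (ha : a ^ 4 = -1) (hw : WOK regK gapK w 22 19 6)
    (hE : WE w a Ex) (k : Fin 22) (j : Fin 6) :
    TabM_L (fun i => evZ (C a) X (T.res Ex k j i)) ∈ WT regK gapK w 22 19 := by
  have h1 := fun r : Fin 24 => TabM_all h ha hw hE 24 r r.2
  exact (Submodule.add_mem_iff_right _ (Submodule.sub_mem _
    ((TabM_pow_iff hw _ _).2 (Submodule.sub_mem _ (h1 _ _) (h1 _ _)))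
    (Submodule.smul_mem _ _ ((TabM_pow_iff hw _ _).2
      (Submodule.sub_mem _ (h1 _ _) (h1 _ _)))))).1 (TabM_key ha hw hE k j)

theorem TabM_eval (s₀ : ℂ) (p : ℂ[X]) (v : (Fin 24 × ℤ) →₀ ℂ) :
    aeval (shT (Fin 24) 6) p v - p.eval s₀ • v ∈
      LinearMap.range (shT (Fin 24) 6 - s₀ • (1 : Module.End ℂ ((Fin 24 × ℤ) →₀ ℂ))) := by
  obtain ⟨q, hq⟩ := X_sub_C_dvd_sub_C_eval (p := p) (a := s₀)
  refine ⟨aeval (shT (Fin 24) 6) q v, ?_⟩
  rw [← TabM_C, ← LinearMap.sub_apply, ← map_sub (aeval (R := ℂ) (shT (Fin 24) 6)), hq, map_mul,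
    map_sub, aeval_X, aeval_C, Algebra.algebraMap_eq_smul_one, Module.End.mul_apply]

theorem TabM_L_eval (s₀ : ℂ) (p : Fin 12 → ℂ[X]) :
    TabM_L p - ∑ i, (p i).eval s₀ • genK i ∈
      LinearMap.range (shT (Fin 24) 6 - s₀ • (1 : Module.End ℂ ((Fin 24 × ℤ) →₀ ℂ))) := by
  rw [TabM_L, ← Finset.sum_sub_distrib]
  exact Submodule.sum_mem _ fun i _ => TabM_eval s₀ _ _

theorem tab_gen (h : tabOK Ex A T = true) (ha : a ^ 4 = -1) (hw : WOK regK gapK w 22 19 6)
    (hE : WE w a Ex) (r : Fin 24) (j : Fin 6) :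
    (shT (Fin 24) 6 ^ 2) (Finsupp.single (r, ((j : ℕ) : ℤ)) 1) -
      ∑ i, aeval (shT (Fin 24) 6) (evZ (C a) X (T.en r j i)) (genK i) ∈ WT regK gapK w 22 19 := by
  exact TabM_all h ha hw hE 24 r r.2 j

theorem tab_row (h : tabOK Ex A T = true) (ha : a ^ 4 = -1) (hw : WOK regK gapK w 22 19 6)
    (hE : WE w a Ex) (k : Fin 12) :
    ∑ i, aeval (shT (Fin 24) 6) (evZ (C a) X (en₂ A k i)) (genK i) ∈ WT regK gapK w 22 19 := by
  have hk := k.2
  by_cases h6 : (k : ℕ) < 6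
  · have h1 := TabM_res_mem h ha hw hE 19 ⟨k, h6⟩
    rw [funext fun i => TabM_ok_res h 19 ⟨k, h6⟩ i] at h1
    exact h1
  · have h1 := TabM_res_mem h ha hw hE 21 ⟨k - 6, by omega⟩
    rw [funext fun i => TabM_ok_res h 21 ⟨k - 6, by omega⟩ i] at h1
    have h2 : (⟨k - 6, by omega⟩ : Fin 6).addNat 6 = k := Fin.ext (by
      rw [Fin.val_addNat]
      dsimp only
      omega)
    rw [h2] at h1
    exact h1

theorem tab_span (h : tabOK Ex A T = true) (ha : a ^ 4 = -1) (hw : WOK regK gapK w 22 19 6)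
    (hE : WE w a Ex) (v : (Fin 24 × ℤ) →₀ ℂ) : ∃ (n : ℕ) (p : Fin 12 → ℂ[X]),
    (shT (Fin 24) 6 ^ n) v - ∑ i, aeval (shT (Fin 24) 6) (p i) (genK i) ∈
      WT regK gapK w 22 19 := by
  change ∃ (n : ℕ) (p : Fin 12 → ℂ[X]), (shT (Fin 24) 6 ^ n) v - TabM_L p ∈ _
  induction v using Finsupp.induction_linear with
  | zero => exact ⟨0, fun _ => 0, by rw [TabM_L_zero, map_zero, sub_zero]; exact zero_mem _⟩
  | add v v' hv hv' =>
    obtain ⟨n, p, hp⟩ := hv
    obtain ⟨n', p', hp'⟩ := hv'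
    refine ⟨n + n', fun i => X ^ n' * p i + X ^ n * p' i, ?_⟩
    have h1 := Submodule.add_mem _ ((TabM_pow_iff hw n' _).2 hp) ((TabM_pow_iff hw n _).2 hp')
    rw [map_sub, map_sub, ← Module.End.mul_apply, ← Module.End.mul_apply (shT (Fin 24) 6 ^ n),
      ← pow_add, ← pow_add, add_comm n' n] at h1
    rw [TabM_L_add, TabM_L_mul, TabM_L_mul, TabM_X_pow, TabM_X_pow, map_add]
    rwa [add_sub_add_comm]
  | single x c =>
    obtain ⟨r, n⟩ := x
    obtain ⟨j, N, M, hj⟩ : ∃ (j : Fin 6) (N M : ℕ), n + 6 * N = (j : ℕ) + 6 * M :=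
      ⟨⟨(n % 6).toNat, by omega⟩, (-(n / 6)).toNat, (n / 6).toNat, by dsimp only; omega⟩
    refine ⟨N + 2, fun i => C c * (X ^ M * evZ (C a) X (T.en r j i)), ?_⟩
    have h1 := Submodule.smul_mem _ c ((TabM_pow_iff hw M _).2 (TabM_all h ha hw hE 24 r r.2 j))
    rw [TabM_del, map_sub, smul_sub, TabM_pow_single, TabM_pow_single, Finsupp.smul_single,
      smul_eq_mul, mul_one] at h1
    rw [TabM_L_mul, TabM_L_mul, TabM_C, TabM_X_pow, TabM_pow_single]
    have h2 : n + 6 * ((N + 2 : ℕ) : ℤ) = ((j : ℕ) : ℤ) + 6 * ((2 : ℕ) : ℤ) + 6 * M := by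
      push_cast
      omega
    rwa [h2]

theorem tab_kill (h : tabOK Ex A T = true) (ha : a ^ 4 = -1) (hw : WOK regK gapK w 22 19 6)
    (hE : WE w a Ex) {B : Matrix (Fin 12) (Fin 12) ℂ[X]} {c : ℂ[X]}
    (hB : B * (Matrix.of fun i j => evZ (C a) X (en₂ A i j)) = c • 1) (v : (Fin 24 × ℤ) →₀ ℂ) :
    aeval (shT (Fin 24) 6) c v ∈ WT regK gapK w 22 19 := by
  have h1 : ∀ j, aeval (shT (Fin 24) 6) c (genK j) ∈ WT regK gapK w 22 19 := fun j => by
    have h2 : (fun i => if i = j then c else 0) =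
        fun i => ∑ k, B j k * evZ (C a) X (en₂ A k i) := funext fun i => by
      have h3 := congrFun (congrFun hB j) i
      rw [Matrix.mul_apply, Matrix.smul_apply, Matrix.one_apply, smul_eq_mul, mul_ite, mul_one,
        mul_zero] at h3
      exact (if_congr eq_comm rfl rfl).trans h3.symm
    rw [← TabM_L_single, h2, TabM_L]
    simp only [map_sum, LinearMap.sum_apply]
    rw [Finset.sum_comm]
    refine Submodule.sum_mem _ fun k _ => ?_
    have h3 := TabM_mem hw (B j k) (tab_row h ha hw hE k)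
    rw [map_sum] at h3
    simpa only [map_mul, Module.End.mul_apply] using h3
  obtain ⟨n, p, hp⟩ := tab_span h ha hw hE v
  have h2 := TabM_mem hw c hp
  have h3 : ∀ (q : ℂ[X]) (u : (Fin 24 × ℤ) →₀ ℂ),
      aeval (shT (Fin 24) 6) c (aeval (shT (Fin 24) 6) q u) =
        aeval (shT (Fin 24) 6) q (aeval (shT (Fin 24) 6) c u) := fun q u => by
    rw [← Module.End.mul_apply, ← Module.End.mul_apply, ← map_mul, ← map_mul, mul_comm]
  rw [map_sub, map_sum, ← TabM_X_pow, h3, TabM_X_pow] at h2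
  refine (TabM_pow_iff hw n _).1 ((Submodule.sub_mem_iff_left _ ?_).1 h2)
  exact Submodule.sum_mem _ fun i _ => by rw [h3]; exact TabM_mem hw _ (h1 i)

theorem tab_rank (h : tabOK Ex A T = true) (ha : a ^ 4 = -1) (hw : WOK regK gapK w 22 19 6)
    (hE : WE w a Ex) {s₀ : ℂ} (h0 : s₀ ≠ 0) (hr : ∀ u : Fin 12 → ℂ, ∃ (c : Fin 12 → ℂ) (t : ℂ),
      u = Matrix.vecMul c ((Matrix.of fun i j => evZ (C a) X (en₂ A i j)).map (eval s₀)) +
        Pi.single 11 t) (v : (Fin 24 × ℤ) →₀ ℂ) : ∃ (t : ℂ) (u : (Fin 24 × ℤ) →₀ ℂ),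
    v - t • genK 11 - (shT (Fin 24) 6 u - s₀ • u) ∈ WT regK gapK w 22 19 := by
  obtain ⟨n, p, hp⟩ := tab_span h ha hw hE v
  obtain ⟨c, t, hc⟩ := hr fun i => (p i).eval s₀
  set W' := WT regK gapK w 22 19 ⊔
    LinearMap.range (shT (Fin 24) 6 - s₀ • (1 : Module.End ℂ ((Fin 24 × ℤ) →₀ ℂ))) with hW'
  have h1 : ∀ k, ∑ i, (evZ (C a) X (en₂ A k i)).eval s₀ • genK i ∈ W' := fun k => by
    have h2 : TabM_L (fun i => evZ (C a) X (en₂ A k i)) ∈ W' :=
      Submodule.mem_sup_left (tab_row h ha hw hE k)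
    have h3 : _ ∈ W' :=
      Submodule.mem_sup_right (TabM_L_eval s₀ fun i => evZ (C a) X (en₂ A k i))
    exact (Submodule.sub_mem_iff_right _ h2).1 h3
  have h2 : ∑ i, (p i).eval s₀ • genK i =
      ∑ k, c k • ∑ i, (evZ (C a) X (en₂ A k i)).eval s₀ • genK i + t • genK 11 := by
    have h3 : ∀ i, (p i).eval s₀ = ∑ k, c k * (evZ (C a) X (en₂ A k i)).eval s₀ +
        (Pi.single 11 t : Fin 12 → ℂ) i := fun i => congrFun hc i
    simp only [h3, add_smul, Finset.sum_add_distrib, Finset.sum_smul, Finset.smul_sum, mul_smul]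
    rw [Finset.sum_comm]
    refine congrArg _ ?_
    rw [Finset.sum_eq_single 11, Pi.single_eq_same]
    · intro i _ hi
      rw [Pi.single_eq_of_ne hi, zero_smul]
    · intro h4
      exact absurd (Finset.mem_univ _) h4
  have h3 : (shT (Fin 24) 6 ^ n) v - TabM_L p ∈ W' := Submodule.mem_sup_left hp
  have h4 : _ ∈ W' := Submodule.mem_sup_right (TabM_L_eval s₀ p)
  have h5 : _ ∈ W' := Submodule.mem_sup_right (TabM_eval s₀ (X ^ n) v)
  rw [TabM_X_pow, eval_pow, eval_X] at h5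
  rw [h2] at h4
  have h6 := Submodule.smul_mem _ (s₀ ^ n)⁻¹ (Submodule.add_mem _ (Submodule.sub_mem _
    (Submodule.add_mem _ h3 h4) h5) (Submodule.sum_mem _ fun k (_ : k ∈ Finset.univ) =>
      Submodule.smul_mem _ (c k) (h1 k)))
  have h7 : v - ((s₀ ^ n)⁻¹ * t) • genK 11 ∈ W' := by
    have h8 : v = (s₀ ^ n)⁻¹ • s₀ ^ n • v := by
      rw [smul_smul, inv_mul_cancel₀ (pow_ne_zero n h0), one_smul]
    have h9 : ∀ x y z g : (Fin 24 × ℤ) →₀ ℂ, x - y + (y - (z + t • g)) - (x - s₀ ^ n • v) + z =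
        s₀ ^ n • v - t • g := fun x y z g => by abel
    rw [h9, smul_sub, ← h8, smul_smul] at h6
    exact h6
  obtain ⟨y, hy, z, ⟨u, rfl⟩, hz⟩ := Submodule.mem_sup.1 h7
  refine ⟨(s₀ ^ n)⁻¹ * t, u, ?_⟩
  rw [← hz, LinearMap.sub_apply, LinearMap.smul_apply, Module.End.one_apply, add_sub_cancel_right]
  exact hy

end Pool.Agent.MP_bc14e1_gt

end

section

/-! Soundness of the elimination table: the eigenfunctional. -/

open Polynomial

namespace Pool.Agent.MP_bc14e1_gt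

/-- The values of the functional. -/
noncomputable def TabF_g (s : ℂ) (f : Fin 24 → Fin 6 → ℂ) (x : Fin 24 × ℤ) : ℂ :=
  s ^ (x.2 / 6) * f x.1 ⟨(x.2 % 6).toNat, by omega⟩

theorem TabF_g_eq (s : ℂ) (f : Fin 24 → Fin 6 → ℂ) (r : Fin 24) (q : ℤ) (j : Fin 6) {n : ℤ}
    (h : n = 6 * q + (j : ℕ)) : TabF_g s f (r, n) = s ^ q * f r j := by
  have h1 : n / 6 = q := by omega
  have h2 : (⟨(n % 6).toNat, by omega⟩ : Fin 6) = j := Fin.ext (by simp only; omega)
  simp only [TabF_g, h1, h2]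

theorem TabF_dec (n : ℤ) : ∃ (q : ℤ) (j : Fin 6), n = 6 * q + (j : ℕ) :=
  ⟨n / 6, ⟨(n % 6).toNat, by omega⟩, by simp only; omega⟩

theorem TabF_idx (k : Fin 22) (j : Fin 6) : ((j : ℕ) : ℤ) + (if epsB k then 1 else -1) =
    6 * ((if upB k j then 1 else 0) - if dnB k j then 1 else 0) + (nj k j : ℕ) := by
  unfold upB dnB nj
  generalize epsB k = b
  revert b j
  decide

theorem TabF_pow {s : ℂ} (h0 : s ≠ 0) (q : ℤ) (b c : Bool) :
    s ^ (q + ((if b then 1 else 0) - if c then 1 else 0) : ℤ) * (if c then s else 1) =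
      s ^ q * if b then s else 1 := by
  cases b <;> cases c <;> simp [zpow_add₀ h0, h0]

theorem TabF_per {g : ℤ → ℂ} (h : ∀ n, g (n + 6) = g n) (q n : ℤ) : g (6 * q + n) = g n := by
  have := Function.Periodic.int_mul (f := g) (c := 6) h q n
  rwa [Int.cast_id, add_comm, mul_comm] at this

theorem TabF_ini (a s : ℂ) (r : Fin 24) (j : Fin 6) (i : Fin 12) : evZ a s (ini r j i) =
    if ((r : ℕ) = 21 ∧ (i : ℕ) = j) ∨ ((r : ℕ) = 23 ∧ (i : ℕ) = j + 6) then s ^ 2 else 0 := by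
  unfold ini
  split_ifs
  · simp [ofInts, evZ, Z8.ev, pow_two]
  · rfl

theorem tab_fun {Ex : List (List ℕ)} {A : List (List (List Z8))} {T : Tab} {a : ℂ}
    {w : Fin 24 → ℤ → ℂ} (h : tabOK Ex A T = true) (ha : a ^ 4 = -1)
    (hw : WOK regK gapK w 22 19 6) (hE : WE w a Ex) {s₀ : ℂ} (h0 : s₀ ≠ 0) {u : Fin 12 → ℂ}
    (hu : u ≠ 0)
    (hA : ((Matrix.of fun i j => evZ (C a) X (en₂ A i j)).map (eval s₀)).mulVec u = 0) :
    ∃ φ : ((Fin 24 × ℤ) →₀ ℂ) →ₗ[ℂ] ℂ, (∀ v ∈ WT regK gapK w 22 19, φ v = 0) ∧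
      (∀ v, φ (shT (Fin 24) 6 v) = s₀ * φ v) ∧ φ ≠ 0 := by
  simp only [tabOK, Bool.and_eq_true, List.all_eq_true (l := List.finRange _), List.mem_finRange,
    forall_const, List.all_cons, List.all_nil] at h
  obtain ⟨h1, h19, h21, h22, h23, -⟩ := h
  have e0 : ∀ {p q : List Z8}, (subZ p q).all Z8.isZero = true → evZ a s₀ p = evZ a s₀ q :=
    fun e => sub_eq_zero.1 (by rw [← evZ_subZ, evZ_of_all a s₀ e])
  have e1 : ∀ i, ∑ j, evZ a s₀ (en₂ A i j) * u j = 0 := fun i => by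
    have := congrFun hA i
    simp only [Matrix.mulVec, dotProduct, Matrix.map_apply, Matrix.of_apply, Pi.zero_apply,
      ← coe_evalRingHom, map_evZ] at this
    simpa only [coe_evalRingHom, eval_C, eval_X] using this
  have e2 : ∀ k j, ∑ i, evZ a s₀ (T.res Ex k j i) * u i = 0 := fun k j => by
    simp only [e0 (h1 k j _)]
    split_ifs
    · exact e1 _
    · exact e1 _
    · simp [evZ]
  obtain ⟨f, hf⟩ : ∃ f : Fin 24 → Fin 6 → ℂ, ∀ r j, f r j = ∑ i, evZ a s₀ (T.en r j i) * u i :=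
    ⟨_, fun _ _ => rfl⟩
  have e3 : ∀ k j, (if dnB k j then s₀ else 1) * (f (regK k 1) j - f (regK k 0) j) =
      (if upB k j then s₀ else 1) *
        (a ^ expo Ex k j * (f (regK k 2) (nj k j) - f (regK k 3) (nj k j))) := fun k j => by
    rw [← sub_eq_zero, ← e2 k j]
    simp only [hf, Tab.res, Tab.tw, evZ_subZ, evZ_shZ, evZ_map a s₀ (Z8.ev_mulA a ha _),
      ← Finset.sum_sub_distrib, Finset.mul_sum]
    refine Finset.sum_congr rfl fun i _ => ?_
    change _ * (evZ a s₀ (T.en (qd k false true) j i) * _ -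
      evZ a s₀ (T.en (qd k false false) j i) * _) - _ * (_ *
      (evZ a s₀ (T.en (qd k true true) _ i) * _ - evZ a s₀ (T.en (qd k true false) _ i) * _)) = _
    ring
  have hφ : ∀ x, Finsupp.linearCombination ℂ (TabF_g s₀ f) (Finsupp.single x 1) = TabF_g s₀ f x :=
    fun x => by rw [Finsupp.linearCombination_single, one_smul]
  refine ⟨Finsupp.linearCombination ℂ (TabF_g s₀ f), ?_, fun v => ?_, fun e => hu ?_⟩
  · change WT regK gapK w 22 19 ≤ LinearMap.ker _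
    refine sup_le (LinearMap.range_le_ker_iff.2 (Finsupp.lhom_ext' fun x => LinearMap.ext_ring ?_))
      ?_
    · obtain ⟨k, n⟩ := x
      obtain ⟨q, j, rfl⟩ := TabF_dec n
      have e4 := hE k j
      rw [← TabF_per (hw.per _) q, ← TabF_per (hw.per (regK k 2)) q, ← add_assoc] at e4
      have e5 : 6 * q + (j : ℕ) + (gapK (regK k 1) - gapK (regK k 2)) =
          6 * (q + ((if upB k j then 1 else 0) - if dnB k j then 1 else 0)) + (nj k j : ℕ) := by
        rw [gapK_eps, add_assoc, TabF_idx]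
        ring
      simp only [LinearMap.comp_apply, Finsupp.lsingle_apply, d2T,
        Finsupp.linearCombination_single, one_smul, map_add, map_sub, map_smul, e4,
        LinearMap.zero_apply, smul_eq_mul, one_mul]
      rw [TabF_g_eq _ _ _ q j rfl, TabF_g_eq _ _ _ q j rfl, TabF_g_eq _ _ _ _ _ e5,
        TabF_g_eq _ _ _ _ _ e5]
      have e6 : (if dnB k j then s₀ else 1) ≠ 0 := by
        split_ifs
        · exact h0
        · exact one_ne_zero
      apply mul_left_cancel₀ e6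
      linear_combination (a ^ expo Ex k j * (f (regK k 2) (nj k j) - f (regK k 3) (nj k j))) *
        TabF_pow h0 q (upB k j) (dnB k j) - s₀ ^ q * e3 k j
    · rw [Finsupp.supported_eq_span_single, Submodule.span_le]
      rintro _ ⟨⟨r, n⟩, hr, rfl⟩
      obtain ⟨q, j, rfl⟩ := TabF_dec n
      change Finsupp.linearCombination ℂ (TabF_g s₀ f) (Finsupp.single _ 1) = 0
      rw [hφ, TabF_g_eq _ _ _ q j rfl, hf]
      rcases hr with rfl | rfl
      · simp [e0 (h22 j _), TabF_ini]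
      · simp [e0 (h19 j _), TabF_ini]
  · induction v using Finsupp.induction_linear with
    | zero => simp
    | add v v' a1 a2 => rw [map_add, map_add, map_add, a1, a2, mul_add]
    | single x c =>
      obtain ⟨r, n⟩ := x
      obtain ⟨q, j, rfl⟩ := TabF_dec n
      rw [shT, Finsupp.lmapDomain_apply, Finsupp.mapDomain_single,
        Finsupp.linearCombination_single, Finsupp.linearCombination_single,
        TabF_g_eq _ _ _ q j rfl, TabF_g_eq _ _ _ (q + 1) j (by ring), zpow_add_one₀ h0,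
        smul_eq_mul, smul_eq_mul]
      ring
  · have e4 : ∀ r j, f r j = 0 := fun r j => by
      have := hφ (r, (j : ℕ))
      rw [e, TabF_g_eq _ _ _ 0 j (by ring), zpow_zero, one_mul] at this
      exact this.symm
    have e5 : ∀ (r : Fin 24) (j : Fin 6) (i : Fin 12),
        (∀ i', (subZ (T.en r j i') (ini r j i')).all Z8.isZero = true) →
        (∀ i' : Fin 12, ((r : ℕ) = 21 ∧ (i' : ℕ) = j) ∨ ((r : ℕ) = 23 ∧ (i' : ℕ) = j + 6) ↔
          i' = i) → u i = 0 := fun r j i a1 a2 => by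
      have := e4 r j
      simp only [hf, e0 (a1 _), TabF_ini, a2, ite_mul, zero_mul, Finset.sum_ite_eq',
        Finset.mem_univ, if_true] at this
      exact (mul_eq_zero.1 this).resolve_left (pow_ne_zero 2 h0)
    funext i
    by_cases hi : (i : ℕ) < 6
    · exact e5 21 ⟨i, hi⟩ i (h21 _) fun i' => by simp [Fin.ext_iff]
    · refine e5 23 ⟨i - 6, by omega⟩ i (h23 _) fun i' => ?_
      rw [Fin.ext_iff, show ((23 : Fin 24) : ℕ) = 23 from rfl]
      dsimp only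
      omega

end Pool.Agent.MP_bc14e1_gt

end

section

/-! The colourings of the diagram. -/

namespace Pool.Agent.MP_bc14e1_gt

theorem Un_lin (x0 x1 x2 x3 x4 x5 x6 x7 x8 x9 x10 x11
    x12 x13 x14 x15 x16 x17 x18 x19 x20 x21 x22 x23 : ℤ)
    (h0 : x21 = x0 - x22 + x19)
    (h1 : x21 = x1 - x22 + x0)
    (h2 : x1 = x2 - x23 + x21)
    (h3 : x1 = x3 - x23 + x2)
    (h4 : x3 = x4 - x22 + x1)
    (h5 : x3 = x5 - x22 + x4)
    (h6 : x3 = x6 - x22 + x5)
    (h7 : x6 = x7 - x23 + x3)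
    (h8 : x6 = x8 - x23 + x7)
    (h9 : x8 = x9 - x22 + x6)
    (h10 : x8 = x10 - x22 + x9)
    (h11 : x10 = x11 - x23 + x8)
    (h12 : x10 = x12 - x23 + x11)
    (h13 : x12 = x13 - x22 + x10)
    (h14 : x12 = x14 - x22 + x13)
    (h15 : x14 = x15 - x23 + x12)
    (h16 : x14 = x16 - x23 + x15)
    (h17 : x14 = x17 - x23 + x16)
    (h18 : x17 = x18 - x22 + x14)
    (h19 : x17 = x19 - x22 + x18)
    (h20 : x19 = x20 - x23 + x17)
    (h21 : x19 = x21 - x23 + x20) :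
    x0 = x22 + (x19 - x22) * 1 ∧
    x1 = x22 + (x19 - x22) * 1 ∧
    x2 = x22 + (x19 - x22) * 2 ∧
    x3 = x22 + (x19 - x22) * 2 ∧
    x4 = x22 + (x19 - x22) * 1 ∧
    x5 = x22 + (x19 - x22) * 1 ∧
    x6 = x22 + (x19 - x22) * 1 ∧
    x7 = x22 + (x19 - x22) * 2 ∧
    x8 = x22 + (x19 - x22) * 2 ∧
    x9 = x22 + (x19 - x22) * 1 ∧
    x10 = x22 + (x19 - x22) * 1 ∧
    x11 = x22 + (x19 - x22) * 2 ∧
    x12 = x22 + (x19 - x22) * 2 ∧
    x13 = x22 + (x19 - x22) * 1 ∧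
    x14 = x22 + (x19 - x22) * 1 ∧
    x15 = x22 + (x19 - x22) * 2 ∧
    x16 = x22 + (x19 - x22) * 2 ∧
    x17 = x22 + (x19 - x22) * 2 ∧
    x18 = x22 + (x19 - x22) * 1 ∧
    x19 = x22 + (x19 - x22) * 1 ∧
    x20 = x22 + (x19 - x22) * 2 ∧
    x21 = x22 + (x19 - x22) * 2 ∧
    x22 = x22 + (x19 - x22) * 0 ∧
    x23 = x22 + (x19 - x22) * 3 := by
  have e19 : x19 = x22 + (x19 - x22) * 1 := by ring
  have e22 : x22 = x22 + (x19 - x22) * 0 := by ring
  have e21 : x21 = x22 + (x19 - x22) * 2 := by omega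
  have e23 : x23 = x22 + (x19 - x22) * 3 := by omega
  have e0 : x0 = x22 + (x19 - x22) * 1 := by linear_combination e21 + e22 - e19 - h0
  have e1 : x1 = x22 + (x19 - x22) * 1 := by linear_combination e21 + e22 - e0 - h1
  have e2 : x2 = x22 + (x19 - x22) * 2 := by linear_combination e1 + e23 - e21 - h2
  have e3 : x3 = x22 + (x19 - x22) * 2 := by linear_combination e1 + e23 - e2 - h3
  have e4 : x4 = x22 + (x19 - x22) * 1 := by linear_combination e3 + e22 - e1 - h4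
  have e5 : x5 = x22 + (x19 - x22) * 1 := by linear_combination e3 + e22 - e4 - h5
  have e6 : x6 = x22 + (x19 - x22) * 1 := by linear_combination e3 + e22 - e5 - h6
  have e7 : x7 = x22 + (x19 - x22) * 2 := by linear_combination e6 + e23 - e3 - h7
  have e8 : x8 = x22 + (x19 - x22) * 2 := by linear_combination e6 + e23 - e7 - h8
  have e9 : x9 = x22 + (x19 - x22) * 1 := by linear_combination e8 + e22 - e6 - h9
  have e10 : x10 = x22 + (x19 - x22) * 1 := by linear_combination e8 + e22 - e9 - h10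
  have e11 : x11 = x22 + (x19 - x22) * 2 := by linear_combination e10 + e23 - e8 - h11
  have e12 : x12 = x22 + (x19 - x22) * 2 := by linear_combination e10 + e23 - e11 - h12
  have e13 : x13 = x22 + (x19 - x22) * 1 := by linear_combination e12 + e22 - e10 - h13
  have e14 : x14 = x22 + (x19 - x22) * 1 := by linear_combination e12 + e22 - e13 - h14
  have e15 : x15 = x22 + (x19 - x22) * 2 := by linear_combination e14 + e23 - e12 - h15
  have e16 : x16 = x22 + (x19 - x22) * 2 := by linear_combination e14 + e23 - e15 - h16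
  have e17 : x17 = x22 + (x19 - x22) * 2 := by linear_combination e14 + e23 - e16 - h17
  have e18 : x18 = x22 + (x19 - x22) * 1 := by linear_combination e17 + e22 - e14 - h18
  have e20 : x20 = x22 + (x19 - x22) * 2 := by linear_combination e19 + e23 - e17 - h20
  exact ⟨e0, e1, e2, e3, e4, e5, e6, e7, e8, e9, e10, e11,
    e12, e13, e14, e15, e16, e17, e18, e19, e20, e21, e22, e23⟩

theorem gapK_univ (n : Fin 24 → ℤ)
    (h : ∀ c, n (regK c 0) = n (regK c 1) - n (regK c 2) + n (regK c 3)) :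
    ∃ a b, ∀ r, n r = a + b * gapK r := by
  obtain ⟨e0, e1, e2, e3, e4, e5, e6, e7, e8, e9, e10, e11,
    e12, e13, e14, e15, e16, e17, e18, e19, e20, e21, e22, e23⟩ :=
    Un_lin (n 0) (n 1) (n 2) (n 3) (n 4) (n 5) (n 6) (n 7) (n 8) (n 9) (n 10) (n 11)
      (n 12) (n 13) (n 14) (n 15) (n 16) (n 17) (n 18) (n 19) (n 20) (n 21) (n 22) (n 23)
      (h 0) (h 1) (h 2) (h 3) (h 4) (h 5) (h 6) (h 7) (h 8) (h 9) (h 10)
      (h 11) (h 12) (h 13) (h 14) (h 15) (h 16) (h 17) (h 18) (h 19) (h 20) (h 21)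
  refine ⟨n 22, n 19 - n 22, fun r => ?_⟩
  fin_cases r
  · exact e0
  · exact e1
  · exact e2
  · exact e3
  · exact e4
  · exact e5
  · exact e6
  · exact e7
  · exact e8
  · exact e9
  · exact e10
  · exact e11
  · exact e12
  · exact e13
  · exact e14
  · exact e15
  · exact e16
  · exact e17
  · exact e18
  · exact e19
  · exact e20
  · exact e21
  · exact e22
  · exact e23

theorem Un_pow {R : Type} [CommRing R] (k : Fin 22) :
    ((om R ^ (gapK (regK k 1) - gapK (regK k 2)) : (Eis R)ˣ) : Eis R) =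
      if epsB k then (⟨0, 1⟩ : Eis R) else ⟨1, -1⟩ := by
  rw [gapK_eps]
  split_ifs
  · rw [zpow_one]; rfl
  · rw [zpow_neg_one]; rfl

theorem colA_col : IsCol regK gapK colA ∧ colA 22 = 0 ∧ colA 19 = 0 := by
  refine ⟨fun k => ?_, rfl, rfl⟩
  rw [Un_pow]
  revert k
  decide +kernel

theorem colB_col : IsCol regK gapK colB ∧ colB 22 = 0 ∧ colB 19 = 0 := by
  refine ⟨fun k => ?_, rfl, rfl⟩
  rw [Un_pow]
  revert k
  decide +kernel

theorem Un_zero {R : Type} [CommRing R] (d : Fin 24 → Eis R) (h : IsCol regK gapK d)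
    (d19 : d 19 = 0) (d21 : d 21 = 0) (d22 : d 22 = 0) (d23 : d 23 = 0) (r : Fin 24) :
    d r = 0 := by
  have e : ∀ k, d (regK k 0) = 0 → d (regK k 2) = 0 → d (regK k 3) = 0 → d (regK k 1) = 0 := by
    intro k h0 h2 h3
    have := h k
    rw [h0, h2, h3] at this
    simpa using this
  have d0 : d 0 = 0 := e 0 d21 d22 d19
  have d1 : d 1 = 0 := e 1 d21 d22 d0
  have d2 : d 2 = 0 := e 2 d1 d23 d21
  have d3 : d 3 = 0 := e 3 d1 d23 d2
  have d4 : d 4 = 0 := e 4 d3 d22 d1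
  have d5 : d 5 = 0 := e 5 d3 d22 d4
  have d6 : d 6 = 0 := e 6 d3 d22 d5
  have d7 : d 7 = 0 := e 7 d6 d23 d3
  have d8 : d 8 = 0 := e 8 d6 d23 d7
  have d9 : d 9 = 0 := e 9 d8 d22 d6
  have d10 : d 10 = 0 := e 10 d8 d22 d9
  have d11 : d 11 = 0 := e 11 d10 d23 d8
  have d12 : d 12 = 0 := e 12 d10 d23 d11
  have d13 : d 13 = 0 := e 13 d12 d22 d10
  have d14 : d 14 = 0 := e 14 d12 d22 d13
  have d15 : d 15 = 0 := e 15 d14 d23 d12
  have d16 : d 16 = 0 := e 16 d14 d23 d15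
  have d17 : d 17 = 0 := e 17 d14 d23 d16
  have d18 : d 18 = 0 := e 18 d17 d22 d14
  have d20 : d 20 = 0 := e 20 d19 d23 d17
  fin_cases r
  · exact d0
  · exact d1
  · exact d2
  · exact d3
  · exact d4
  · exact d5
  · exact d6
  · exact d7
  · exact d8
  · exact d9
  · exact d10
  · exact d11
  · exact d12
  · exact d13
  · exact d14
  · exact d15
  · exact d16
  · exact d17
  · exact d18
  · exact d19
  · exact d20
  · exact d21
  · exact d22
  · exact d23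

theorem col_univ (c : Fin 24 → Eis ℤ) (h : IsCol regK gapK c) (h0 : c 22 = 0) (h1 : c 19 = 0) :
    ∃ a b, ∀ r, c r = a * colA r + b * colB r := by
  refine ⟨c 21, c 23, fun r => ?_⟩
  have a21 : colA 21 = 1 := rfl
  have a23 : colA 23 = 0 := rfl
  have b21 : colB 21 = 0 := rfl
  have b23 : colB 23 = 1 := rfl
  have := Un_zero (fun r => c r - (c 21 * colA r + c 23 * colB r)) (fun k => by
      have e1 := h k
      have e2 := colA_col.1 k
      have e3 := colB_col.1 k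
      linear_combination e1 - c 21 * e2 - c 23 * e3)
    (by simp [h1, colA_col.2.2, colB_col.2.2]) (by simp [a21, b21])
    (by simp [h0, colA_col.2.1, colB_col.2.1]) (by simp [a23, b23]) r
  exact sub_eq_zero.1 this

theorem Un_add (x y : Eis ℤ) : red8 (x + y) = red8 x + red8 y := by
  ext <;> simp [red8]

theorem Un_sub (x y : Eis ℤ) : red8 (x - y) = red8 x - red8 y := by
  ext <;> simp [red8]

theorem Un_mul (x y : Eis ℤ) : red8 (x * y) = red8 x * red8 y := by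
  ext <;> simp [red8]

theorem Un_red0 : red8 0 = 0 := by
  ext <;> simp [red8]

theorem Un_red (c : Fin 24 → Eis ℤ) (h : IsCol regK gapK c) :
    IsCol regK gapK fun r => red8 (c r) := by
  intro k
  have e := congrArg red8 (h k)
  rw [Un_pow] at e ⊢
  rw [Un_add, Un_sub, Un_mul, Un_sub, Un_red0] at e
  have e2 : red8 (if epsB k then (⟨0, 1⟩ : Eis ℤ) else ⟨1, -1⟩) =
      if epsB k then (⟨0, 1⟩ : Eis (ZMod 8)) else ⟨1, -1⟩ := by
    split_ifs <;> ext <;> simp [red8]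
  rw [e2] at e
  exact e

theorem col8_col (x y : Eis (ZMod 8)) :
    IsCol regK gapK (col8 x y) ∧ col8 x y 22 = 0 ∧ col8 x y 19 = 0 := by
  refine ⟨fun k => ?_, ?_, ?_⟩
  · have e2 := Un_red colA colA_col.1 k
    have e3 := Un_red colB colB_col.1 k
    simp only [col8]
    linear_combination x * e2 + y * e3
  · simp [col8, colA_col.2.1, colB_col.2.1, Un_red0]
  · simp [col8, colA_col.2.2, colB_col.2.2, Un_red0]

theorem red8_comb (a b : Eis ℤ) (r : Fin 24) :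
    red8 (a * colA r + b * colB r) = col8 (red8 a) (red8 b) r := by
  rw [Un_add, Un_mul, Un_mul, col8]

/-- The relation that the symmetry imposes. -/
theorem Un_rel (a b : Eis (ZMod 8)) (hJ : JComp gapK iotR (col8 a b)) :
    b * (⟨1, -1⟩ : Eis (ZMod 8)) * star a = a * star b := by
  obtain ⟨μ, u, v, h⟩ := hJ
  set w : Eis (ZMod 8) := ⟨0, 1⟩ with hw
  have w1 : (⟨1, -1⟩ : Eis (ZMod 8)) = 1 - w := by decide
  have ww : w * w = w - 1 := by decide
  have sw : star w = 1 - w := by decide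
  have p0 : ((om (ZMod 8) ^ gapK 22 : (Eis (ZMod 8))ˣ) : Eis (ZMod 8)) = 1 := by
    change ((om (ZMod 8) ^ (0 : ℤ) : (Eis (ZMod 8))ˣ) : Eis (ZMod 8)) = 1
    simp
  have p1 : ((om (ZMod 8) ^ gapK 19 : (Eis (ZMod 8))ˣ) : Eis (ZMod 8)) = w := by
    change ((om (ZMod 8) ^ (1 : ℤ) : (Eis (ZMod 8))ˣ) : Eis (ZMod 8)) = w
    rw [zpow_one]; rfl
  have p2 : ((om (ZMod 8) ^ gapK 21 : (Eis (ZMod 8))ˣ) : Eis (ZMod 8)) = w * w := by
    change ((om (ZMod 8) ^ ((2 : ℕ) : ℤ) : (Eis (ZMod 8))ˣ) : Eis (ZMod 8)) = w * w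
    rw [zpow_natCast, pow_two, Units.val_mul]; rfl
  have p3 : ((om (ZMod 8) ^ gapK 23 : (Eis (ZMod 8))ˣ) : Eis (ZMod 8)) = w * w * w := by
    change ((om (ZMod 8) ^ ((3 : ℕ) : ℤ) : (Eis (ZMod 8))ˣ) : Eis (ZMod 8)) = w * w * w
    rw [zpow_natCast, pow_succ, pow_two, Units.val_mul, Units.val_mul]; rfl
  have c22 : col8 a b 22 = 0 := (col8_col a b).2.1
  have c19 : col8 a b 19 = 0 := (col8_col a b).2.2
  have c23 : col8 a b 23 = b := by
    have e1 : red8 (colA 23) = 0 := by decide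
    have e2 : red8 (colB 23) = 1 := by decide
    simp [col8, e1, e2]
  have c21 : col8 a b 21 = a := by
    have e1 : red8 (colA 21) = 1 := by decide
    have e2 : red8 (colB 21) = 0 := by decide
    simp [col8, e1, e2]
  have c8 : col8 a b 8 = b * (1 - w) := by
    have e1 : red8 (colA 8) = 0 := by decide
    have e2 : red8 (colB 8) = 1 - w := by decide
    simp [col8, e1, e2]
  have c10 : col8 a b 10 = a * w - b * w := by
    have e1 : red8 (colA 10) = w := by decide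
    have e2 : red8 (colB 10) = -w := by decide
    rw [col8, e1, e2]; ring
  have h1 : star (col8 a b 23) = _ := h 22
  have h2 : star (col8 a b 8) = _ := h 19
  have h3 : star (col8 a b 10) = _ := h 21
  have h4 : star (col8 a b 22) = _ := h 23
  rw [p0, c22, c23] at h1
  rw [p1, c19, c8, star_mul', star_sub, star_one, sw] at h2
  rw [p2, c21, c10, star_sub, star_mul', star_mul', sw] at h3
  rw [p3, c23, c22, star_zero] at h4
  rw [w1]
  have hv : v = star b := by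
    linear_combination (-w) * h1 + w * h2 + (v - star b) * ww
  have hu : u = 0 := by linear_combination -h1 - hv
  rw [hv, hu] at h3 h4
  linear_combination b * h3 - a * h4 + (b * star b - a * star b * (w + 1)) * ww

theorem Un_real (t : Eis (ZMod 8)) (h : star t = t) : t = ⟨t.re, 0⟩ := by
  have e := congrArg QuadraticAlgebra.re h
  rw [QuadraticAlgebra.re_star] at e
  ext
  · rfl
  · change t.im = 0
    linear_combination e

/-- The unit `2 - ω`. -/
def Un_g : (Eis (ZMod 8))ˣ where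
  val := ⟨2, -1⟩
  inv := ⟨3, 3⟩
  val_inv := by decide
  inv_val := by decide

/-- The invariant lines. -/
theorem jcomp_lines (a b : Eis (ZMod 8)) (hu : IsUnit a ∨ IsUnit b)
    (hJ : JComp gapK iotR (col8 a b)) : ∃ (u : (Eis (ZMod 8))ˣ) (m n : ZMod 8),
    (m = 1 ∨ (n = 1 ∧ (m = 0 ∨ m = 2 ∨ m = 4 ∨ m = 6))) ∧
      a = u * (⟨2 * m, -m⟩ : Eis (ZMod 8)) ∧ b = u * (⟨n, 0⟩ : Eis (ZMod 8)) := by
  have hr := Un_rel a b hJ
  have hg : (⟨1, -1⟩ : Eis (ZMod 8)) * star (Un_g : Eis (ZMod 8)) = Un_g := by decide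
  have key : ∀ (u : (Eis (ZMod 8))ˣ) (s t : Eis (ZMod 8)), a = u * Un_g * s → b = u * t →
      t * star s = s * star t := by
    intro u s t ha hb
    rw [ha, hb, star_mul', star_mul', star_mul'] at hr
    have hU : IsUnit ((u : Eis (ZMod 8)) * star (u : Eis (ZMod 8)) * Un_g) :=
      (u.isUnit.mul u.isUnit.star).mul Un_g.isUnit
    apply hU.mul_left_cancel
    linear_combination hr - (u : Eis (ZMod 8)) * t * star (u : Eis (ZMod 8)) * star s * hg
  by_cases ha : IsUnit a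
  · obtain ⟨a', rfl⟩ := ha
    have e1 : (a' : Eis (ZMod 8)) = (a' * Un_g⁻¹ : (Eis (ZMod 8))ˣ) * Un_g * 1 := by simp
    have e2 : b = (a' * Un_g⁻¹ : (Eis (ZMod 8))ˣ) * (((a' * Un_g⁻¹)⁻¹ : (Eis (ZMod 8))ˣ) * b) := by
      rw [Units.mul_inv_cancel_left]
    have e := key _ _ _ e1 e2
    rw [star_one, mul_one, one_mul] at e
    refine ⟨a' * Un_g⁻¹, 1, _, Or.inl rfl, ?_, e2.trans (congrArg _ (Un_real _ e.symm))⟩
    have e3 : (⟨2 * 1, -1⟩ : Eis (ZMod 8)) = Un_g := by decide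
    rw [e3]
    simp
  · obtain ⟨b', rfl⟩ := hu.resolve_left ha
    have e1 : a = b' * Un_g * (((b' * Un_g)⁻¹ : (Eis (ZMod 8))ˣ) * a) := by
      rw [← Units.val_mul, Units.mul_inv_cancel_left]
    generalize (((b' * Un_g)⁻¹ : (Eis (ZMod 8))ˣ) : Eis (ZMod 8)) * a = t at e1
    have e := key b' t 1 e1 (mul_one _).symm
    rw [star_one, mul_one, one_mul] at e
    have e4 := Un_real t e
    generalize t.re = m at e4
    subst e4
    have e5 : (Un_g : Eis (ZMod 8)) * ⟨m, 0⟩ = ⟨2 * m, -m⟩ := by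
      ext <;> simp [Un_g]
    refine ⟨b', m, 1, Or.inr ⟨rfl, ?_⟩, by rw [e1, mul_assoc, e5], (mul_one _).symm⟩
    by_contra hm
    have hmm : m * m = 1 := by
      revert hm
      generalize m = k
      revert k
      decide
    have ht : IsUnit (⟨m, 0⟩ : Eis (ZMod 8)) := by
      refine IsUnit.of_mul_eq_one (⟨m, 0⟩ : Eis (ZMod 8)) ?_
      ext
      · simp [hmm, QuadraticAlgebra.re_one]
      · simp [QuadraticAlgebra.im_one]
    exact ha (e1 ▸ (b'.isUnit.mul Un_g.isUnit).mul ht)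

/-- Unit multiples of a colouring. -/
theorem twOK_unit (u : (Eis (ZMod 8))ˣ) (x y : Eis (ZMod 8))
    (h : ∃ χ, TwOK regK gapK χ (col8 x y)) : ∃ χ, TwOK regK gapK χ (col8 (u * x) (u * y)) := by
  obtain ⟨χ, h⟩ := h
  refine ⟨AddChar.mulShift χ ((u⁻¹ : (Eis (ZMod 8))ˣ) : Eis (ZMod 8)), fun j => ?_⟩
  have e : (fun (r : Fin 24) (n : ℤ) => AddChar.mulShift χ ((u⁻¹ : (Eis (ZMod 8))ˣ) : Eis (ZMod 8))
      ((om (ZMod 8) ^ n : (Eis (ZMod 8))ˣ) * col8 (u * x) (u * y) r)) =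
      fun r n => χ ((om (ZMod 8) ^ n : (Eis (ZMod 8))ˣ) * col8 x y r) := by
    funext r n
    rw [AddChar.mulShift_apply]
    congr 1
    have := u.inv_mul
    simp only [col8]
    linear_combination (((om (ZMod 8) ^ n : (Eis (ZMod 8))ˣ) : Eis (ZMod 8)) *
      (x * red8 (colA r) + y * red8 (colB r))) * this
  rw [e]
  exact h j

end Pool.Agent.MP_bc14e1_gt

end

section

/-! The untwisted homology. -/

open Polynomial

namespace Pool.Agent.MP_bc14e1_gt

/-- `x ^ 10` times a region in terms of the regions `21` and `23`. -/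
def unT : List (List (List ℤ)) :=
  [[[0, 0, 0, 0, 0, 0, 0, 0, 0, 0, 1], []], [[0, 0, 0, 0, 0, 0, 0, 0, 0, 0, 1, -1], []], [[0, 0,
  0, 0, 0, 0, 0, 0, 0, -1, 1, -1], [0, 0, 0, 0, 0, 0, 0, 0, 0, 1]], [[0, 0, 0, 0, 0, 0, 0, 0, 1,
  -1, 2, -1], [0, 0, 0, 0, 0, 0, 0, 0, -1, 1]], [[0, 0, 0, 0, 0, 0, 0, 0, 1, -1, 2, -2, 1], [0,
  0, 0, 0, 0, 0, 0, 0, -1, 1]], [[0, 0, 0, 0, 0, 0, 0, 0, 1, -2, 3, -3, 2, -1], [0, 0, 0, 0, 0,
  0, 0, 0, -1, 2, -1]], [[0, 0, 0, 0, 0, 0, 0, 0, 1, -2, 4, -4, 3, -2, 1], [0, 0, 0, 0, 0, 0, 0,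
  0, -1, 2, -2, 1]], [[0, 0, 0, 0, 0, 0, 0, -1, 2, -4, 5, -4, 3, -2, 1], [0, 0, 0, 0, 0, 0, 0, 1,
  -2, 3, -2, 1]], [[0, 0, 0, 0, 0, 0, 1, -2, 5, -7, 8, -7, 5, -3, 1], [0, 0, 0, 0, 0, 0, -1, 2,
  -4, 5, -3, 1]], [[0, 0, 0, 0, 0, 0, 1, -2, 5, -8, 10, -11, 9, -6, 3, -1], [0, 0, 0, 0, 0, 0,
  -1, 2, -4, 6, -5, 3, -1]], [[0, 0, 0, 0, 0, 0, 1, -3, 7, -12, 16, -17, 16, -12, 7, -3, 1], [0,
  0, 0, 0, 0, 0, -1, 3, -6, 9, -9, 6, -3, 1]], [[0, 0, 0, 0, 0, -1, 3, -8, 14, -20, 23, -22, 19,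
  -13, 7, -3, 1], [0, 0, 0, 0, 0, 1, -3, 7, -11, 13, -10, 6, -3, 1]], [[0, 0, 0, 0, 1, -3, 9,
  -17, 27, -35, 38, -36, 29, -19, 10, -4, 1], [0, 0, 0, 0, -1, 3, -8, 14, -19, 20, -15, 9, -4,
  1]], [[0, 0, 0, 0, 1, -3, 9, -18, 30, -42, 50, -52, 46, -35, 22, -11, 4, -1], [0, 0, 0, 0, -1,
  3, -8, 15, -22, 26, -24, 18, -10, 4, -1]], [[0, 0, 0, 0, 1, -4, 12, -26, 45, -65, 80, -86, 81,
  -65, 45, -26, 12, -4, 1], [0, 0, 0, 0, -1, 4, -11, 22, -34, 42, -41, 33, -22, 11, -4, 1]], [[0,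
  0, 0, -1, 4, -13, 29, -53, 80, -103, 116, -115, 100, -75, 49, -27, 12, -4, 1], [0, 0, 0, 1, -4,
  12, -25, 41, -54, 58, -50, 37, -23, 11, -4, 1]], [[0, 0, 1, -4, 14, -33, 65, -106, 148, -181,
  195, -186, 156, -114, 72, -38, 16, -5, 1], [0, 0, -1, 4, -13, 29, -52, 76, -92, 93, -78, 56,
  -33, 15, -5, 1]], [[0, -1, 4, -14, 34, -69, 118, -174, 226, -260, 266, -242, 195, -137, 83,
  -42, 17, -5, 1], [0, 1, -4, 13, -30, 56, -87, 114, -127, 121, -97, 66, -37, 16, -5, 1]], [[0,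
  -1, 4, -14, 34, -70, 122, -186, 252, -305, 331, -322, 281, -218, 148, -87, 43, -17, 5, -1], [0,
  1, -4, 13, -30, 57, -91, 125, -149, 155, -139, 107, -70, 38, -16, 5, -1]], [[], []], [[1, -4,
  14, -34, 69, -118, 174, -226, 260, -266, 242, -195, 137, -83, 42, -17, 5, -1], [-1, 4, -13, 30,
  -56, 87, -114, 127, -121, 98, -66, 37, -16, 5, -1]], [[0, 0, 0, 0, 0, 0, 0, 0, 0, 0, 1], []],
  [[], []], [[], [0, 0, 0, 0, 0, 0, 0, 0, 0, 0, 1]]]

/-- The relation matrix divided by `x ^ 2 - x + 1`. -/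
def unB : List (List (List ℤ)) :=
  [[[0, 1, -4, 13, -31, 59, -98, 139, -175, 198, -198, 177, -142, 99, -60, 31, -13, 4, -1], [0,
  -1, 4, -12, 27, -47, 70, -88, 94, -88, 70, -47, 27, -12, 4, -1]], [[1, -3, 10, -21, 38, -59,
  77, -90, 93, -83, 66, -45, 26, -12, 4, -1], [-1, 3, -9, 18, -29, 40, -45, 42, -34, 22, -11, 4,
  -1]]]

/-- An entry of the table. -/
def unE (r : Fin 24) (i : Fin 2) : List Z8 := ofInts ((unT.getD r []).getD i [])

/-- An entry of the matrix. -/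
def unM (k i : Fin 2) : List Z8 := ofInts ((unB.getD k []).getD i [])

/-- The table solves the relations other than `19` and `21`. -/
theorem un_ok : ∀ (k : Fin 22) (i : Fin 2),
    (subZ (subZ (shZ (!epsB k) (subZ (unE (regK k 1) i) (unE (regK k 0) i)))
      (shZ (epsB k) (subZ (unE (regK k 2) i) (unE (regK k 3) i))))
      (if (k : ℕ) = 19 then mulZ (ofInts [1, -1, 1]) (unM 0 i)
        else if (k : ℕ) = 21 then mulZ (ofInts [1, -1, 1]) (unM 1 i) else [])).all Z8.isZero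
      = true := by
  decide +kernel

/-- The determinant is `4 + 0 x` modulo `x ^ 2 - x + 1`. -/
theorem un_det : (subZ (subZ (mulZ (unM 0 0) (unM 1 1)) (mulZ (unM 0 1) (unM 1 0)))
    (addZ (ofInts [4, 0]) (mulZ (ofInts [1, -1, 1]) (ofInts
      [-4, -4, 0, 4, 4, 0, -4, -4, 0, 4, 5, -3, 6, -25, 36, -51, 70, -71, 66, -55, 36, -21, 10,
      -3, 1])))).all Z8.isZero = true := by
  decide +kernel

/-- The quotient by an invariant subspace as a module over the polynomial ring. -/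
theorem L2_quot {V : Type} [AddCommGroup V] [Module ℂ V] (S : Module.End ℂ V)
    (W : Submodule ℂ V) (hW : ∀ v ∈ W, S v ∈ W) :
    ∃ (M : Type) (_ : AddCommGroup M) (_ : Module ℂ[X] M) (π : V →+ M),
      Function.Surjective π ∧ (∀ v, π v = 0 ↔ v ∈ W) ∧
        ∀ (p : ℂ[X]) v, π (aeval S p v) = p • π v := by
  have hW' : W ≤ W.comap S := fun v hv => hW v hv
  set T : Module.End ℂ (V ⧸ W) := W.mapQ W S hW' with hT
  have h1 : ∀ (n : ℕ) (v : V), W.mkQ ((S ^ n) v) = (T ^ n) (W.mkQ v) := by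
    intro n
    induction n with
    | zero => intro v; rfl
    | succ n ih =>
      intro v
      rw [pow_succ, pow_succ, Module.End.mul_apply, Module.End.mul_apply, ih]
      rfl
  have h2 : ∀ (p : ℂ[X]) (v : V), W.mkQ (aeval S p v) = aeval T p (W.mkQ v) := by
    intro p v
    induction p using Polynomial.induction_on' with
    | add p q hp hq => rw [map_add, map_add, LinearMap.add_apply, LinearMap.add_apply, map_add,
        hp, hq]
    | monomial n a =>
      rw [aeval_monomial, aeval_monomial, Module.End.mul_apply, Module.End.mul_apply,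
        Module.algebraMap_end_apply, Module.algebraMap_end_apply, map_smul, h1]
  refine ⟨Module.AEval' T, inferInstance, inferInstance,
    ((Module.AEval'.of T).toLinearMap ∘ₗ W.mkQ).toAddMonoidHom, ?_, ?_, ?_⟩
  · exact (Module.AEval'.of T).surjective.comp W.mkQ_surjective
  · intro v
    change Module.AEval'.of T (W.mkQ v) = 0 ↔ _
    rw [LinearEquiv.map_eq_zero_iff, Submodule.mkQ_apply, Submodule.Quotient.mk_eq_zero]
  · intro p v
    change Module.AEval'.of T (W.mkQ (aeval S p v)) = p • Module.AEval'.of T (W.mkQ v)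
    rw [h2, ← Module.AEval.of_aeval_smul]
    rfl

theorem L2_ord : ∀ k : Fin 22,
    (((regK k 0 : Fin 24) : ℕ) < k ∨ regK k 0 = 19 ∨ regK k 0 = 21) ∧
    (((regK k 3 : Fin 24) : ℕ) < k ∨ regK k 3 = 19 ∨ regK k 3 = 21) ∧
    (regK k 2 = 22 ∨ regK k 2 = 23) := by
  decide

theorem L2_phi {R : Type} [CommRing R] (a x : R) :
    evZ a x (ofInts [1, -1, 1]) = x ^ 2 - x + 1 := by
  simp [ofInts, evZ, Z8.ev]
  ring

/-- The consequences of the relations in a module on which `X` is injective. -/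
theorem L2_mod {R M : Type} [CommRing R] [AddCommGroup M] [Module R M] (a x : R)
    (ha : a ^ 4 = -1) (hx : ∀ m : M, x • m = 0 → m = 0) (e : Fin 24 → M)
    (h22 : e 22 = 0) (h19 : e 19 = 0)
    (hrel : ∀ k : Fin 22, (if !epsB k then x else 1) • (e (regK k 1) - e (regK k 0)) =
      (if epsB k then x else 1) • (e (regK k 2) - e (regK k 3))) :
    (∀ r, x ^ 10 • e r = evZ a x (unE r 0) • e 21 + evZ a x (unE r 1) • e 23) ∧
    ∀ d, d = (x ^ 2 - x + 1) * (evZ a x (unM 0 0) * evZ a x (unM 1 1) -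
      evZ a x (unM 0 1) * evZ a x (unM 1 0)) → d • e 21 = 0 ∧ d • e 23 = 0 := by
  obtain ⟨del, hdel⟩ : ∃ del : Fin 24 → M, ∀ r, del r =
      x ^ 10 • e r - (evZ a x (unE r 0) • e 21 + evZ a x (unE r 1) • e 23) := ⟨_, fun _ => rfl⟩
  obtain ⟨res, hres⟩ : ∃ res : Fin 22 → Fin 2 → R, ∀ k i, res k i =
      evZ a x (if (k : ℕ) = 19 then mulZ (ofInts [1, -1, 1]) (unM 0 i)
        else if (k : ℕ) = 21 then mulZ (ofInts [1, -1, 1]) (unM 1 i) else []) :=
    ⟨_, fun _ _ => rfl⟩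
  have key : ∀ k : Fin 22, (if !epsB k then x else 1) • (del (regK k 1) - del (regK k 0)) -
      (if epsB k then x else 1) • (del (regK k 2) - del (regK k 3)) +
      (res k 0 • e 21 + res k 1 • e 23) = 0 := by
    intro k
    have h0 := evZ_of_all a x (un_ok k 0)
    have h1 := evZ_of_all a x (un_ok k 1)
    rw [evZ_subZ, evZ_subZ, evZ_shZ, evZ_shZ, evZ_subZ, evZ_subZ, ← hres] at h0 h1
    have h2 := hrel k
    simp only [hdel]
    generalize (if !epsB k then x else 1) = u at h0 h1 h2 ⊢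
    generalize (if epsB k then x else 1) = v at h0 h1 h2 ⊢
    rw [sub_eq_zero] at h0 h1
    rw [← h0, ← h1]
    linear_combination (norm := module) x ^ 10 • h2
  have e10 : evZ a x (ofInts [0, 0, 0, 0, 0, 0, 0, 0, 0, 0, 1]) = x ^ 10 := by
    simp [ofInts, evZ, Z8.ev]
    ring
  have e0 : evZ a x (ofInts []) = 0 := rfl
  have d19 : del 19 = 0 := by
    rw [hdel, h19]
    change _ - (evZ a x (ofInts []) • _ + evZ a x (ofInts []) • _) = 0
    simp [e0]
  have d22 : del 22 = 0 := by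
    rw [hdel, h22]
    change _ - (evZ a x (ofInts []) • _ + evZ a x (ofInts []) • _) = 0
    simp [e0]
  have d21 : del 21 = 0 := by
    rw [hdel]
    change _ - (evZ a x (ofInts [0, 0, 0, 0, 0, 0, 0, 0, 0, 0, 1]) • _ +
      evZ a x (ofInts []) • _) = 0
    simp [e0, e10]
  have d23 : del 23 = 0 := by
    rw [hdel]
    change _ - (evZ a x (ofInts []) • _ +
      evZ a x (ofInts [0, 0, 0, 0, 0, 0, 0, 0, 0, 0, 1]) • _) = 0
    simp [e0, e10]
  have hall : ∀ (n : ℕ) (r : Fin 24), (r : ℕ) = n → del r = 0 := by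
    intro n
    induction n using Nat.strong_induction_on with
    | _ n ih =>
      intro r hr
      by_cases h1 : n = 19
      · obtain rfl : r = 19 := Fin.ext (by rw [hr, h1]; rfl)
        exact d19
      by_cases h2 : n = 21
      · obtain rfl : r = 21 := Fin.ext (by rw [hr, h2]; rfl)
        exact d21
      by_cases h3 : n = 22
      · obtain rfl : r = 22 := Fin.ext (by rw [hr, h3]; rfl)
        exact d22
      by_cases h4 : n = 23
      · obtain rfl : r = 23 := Fin.ext (by rw [hr, h4]; rfl)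
        exact d23
      have hn : n < 22 := by have := r.2; omega
      obtain ⟨o0, o3, o2⟩ := L2_ord ⟨n, hn⟩
      have k0 : del (regK ⟨n, hn⟩ 0) = 0 := by
        rcases o0 with h | h | h
        · exact ih _ h _ rfl
        · rw [h, d19]
        · rw [h, d21]
      have k3 : del (regK ⟨n, hn⟩ 3) = 0 := by
        rcases o3 with h | h | h
        · exact ih _ h _ rfl
        · rw [h, d19]
        · rw [h, d21]
      have k2 : del (regK ⟨n, hn⟩ 2) = 0 := by
        rcases o2 with h | h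
        · rw [h, d22]
        · rw [h, d23]
      have k1 : regK ⟨n, hn⟩ 1 = r := Fin.ext hr.symm
      have h := key ⟨n, hn⟩
      rw [k0, k2, k3, k1, hres, hres] at h
      simp only [h1, h2, if_false, evZ, zero_smul, add_zero, sub_zero, smul_zero] at h
      split_ifs at h
      · exact hx _ h
      · rwa [one_smul] at h
  have hz : ∀ r, del r = 0 := fun r => hall _ r rfl
  refine ⟨fun r => sub_eq_zero.1 (hdel r ▸ hz r), ?_⟩
  rintro d rfl
  have r0 := key 19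
  have r1 := key 21
  have s0 : ∀ i, res 19 i = (x ^ 2 - x + 1) * evZ a x (unM 0 i) := fun i => by
    rw [hres, ← L2_phi a, ← evZ_mulZ a x ha]
    rfl
  have s1 : ∀ i, res 21 i = (x ^ 2 - x + 1) * evZ a x (unM 1 i) := fun i => by
    rw [hres, ← L2_phi a, ← evZ_mulZ a x ha]
    rfl
  simp only [hz, sub_self, smul_zero, zero_add, s0, s1] at r0 r1
  constructor
  · linear_combination (norm := module) evZ a x (unM 1 1) • r0 - evZ a x (unM 0 1) • r1
  · linear_combination (norm := module) evZ a x (unM 0 0) • r1 - evZ a x (unM 1 0) • r0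

theorem L2_om : (omC : ℂ) ^ 2 - omC + 1 = 0 := by
  have h : (omC : ℂ) = 1 / 2 + (√3 / 2 : ℝ) * Complex.I := by
    rw [omC, Circle.coe_exp, Complex.exp_mul_I, ← Complex.ofReal_cos, ← Complex.ofReal_sin,
      Real.cos_pi_div_three, Real.sin_pi_div_three]
    push_cast
    ring
  have h3 : ((√3 : ℝ) : ℂ) ^ 2 = 3 := by
    rw [← Complex.ofReal_pow, Real.sq_sqrt (by norm_num)]
    norm_num
  rw [h]
  push_cast
  linear_combination (-1 / 4 : ℂ) * h3 + ((√3 : ℝ) : ℂ) ^ 2 / 4 * Complex.I_sq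

theorem L2_wok : WOK regK gapK (fun _ _ => 1) 22 19 1 :=
  ⟨rfl, rfl, gapK_quad, fun _ => rfl, fun _ => rfl, fun _ _ => one_ne_zero, fun _ _ => rfl,
    fun _ _ => rfl⟩

theorem len2_K : Len2T regK gapK omC := by
  obtain ⟨a, ha⟩ : ∃ a : ℂ, a ^ 4 = -1 := IsAlgClosed.exists_pow_nat_eq _ (by norm_num)
  have ha' : (C a : ℂ[X]) ^ 4 = -1 := by rw [← C_pow, ha]; simp
  have hz := L2_om
  generalize (omC : ℂ) = z at hz ⊢
  have hz0 : z ≠ 0 := by rintro rfl; norm_num at hz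
  have hz1 : z ≠ 1 := by rintro rfl; norm_num at hz
  have hz2 : z - (1 - z) ≠ 0 := by
    intro h
    have : z = 1 / 2 := by linear_combination h / 2
    rw [this] at hz
    norm_num at hz
  have hw := L2_wok
  set S := shT (Fin 24) 1 with hS
  set W := WT regK gapK (fun _ _ => 1) 22 19 with hW
  obtain ⟨M, _, _, π, hsurj, hker, hπ⟩ := L2_quot S W fun v hv => (hw.sh_WT v).2 hv
  have hX : ∀ v, π (S v) = (X : ℂ[X]) • π v := fun v => by rw [← hπ, aeval_X]
  have hC : ∀ (c : ℂ) v, π (c • v) = (C c : ℂ[X]) • π v := fun c v => by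
    rw [← hπ, aeval_C, Module.algebraMap_end_apply]
  have hinj : ∀ m : M, (X : ℂ[X]) • m = 0 → m = 0 := by
    intro m hm
    obtain ⟨v, rfl⟩ := hsurj m
    rw [← hX, hker] at hm
    exact (hker v).2 ((hw.sh_WT v).1 hm)
  have hinjn : ∀ (n : ℕ) (m : M), (X : ℂ[X]) ^ n • m = 0 → m = 0 := by
    intro n
    induction n with
    | zero => intro m hm; rwa [pow_zero, one_smul] at hm
    | succ n ih => intro m hm; rw [pow_succ, mul_smul] at hm; exact hinj _ (ih _ hm)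
  have hsh : ∀ (r : Fin 24) (n : ℤ), π (Finsupp.single (r, n + 1) 1) =
      (X : ℂ[X]) • π (Finsupp.single (r, n) 1) := fun r n => by rw [← hX, hS, shT_single]
  have hshn : ∀ (r : Fin 24) (n : ℤ) (j : ℕ), π (Finsupp.single (r, n + j) 1) =
      (X : ℂ[X]) ^ j • π (Finsupp.single (r, n) 1) := by
    intro r n j
    induction j with
    | zero => simp
    | succ j ih => rw [Nat.cast_succ, ← add_assoc, hsh, ih, pow_succ', mul_smul]
  have hbase : ∀ r : Fin 24, r = 22 ∨ r = 19 → π (Finsupp.single (r, 0) 1) = 0 := by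
    intro r hr
    rw [hker]
    exact Submodule.mem_sup_right (Finsupp.single_mem_supported _ _ hr)
  have hd2 : ∀ (k : Fin 22) (n : ℤ), π (Finsupp.single (regK k 0, n) 1) -
      π (Finsupp.single (regK k 1, n) 1) +
      (π (Finsupp.single (regK k 2, n + if epsB k then 1 else -1) 1) -
        π (Finsupp.single (regK k 3, n + if epsB k then 1 else -1) 1)) = 0 := by
    intro k n
    rw [← map_sub, ← map_sub, ← map_add, hker]
    refine Submodule.mem_sup_left ⟨Finsupp.single (k, n) 1, ?_⟩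
    rw [d2T, Finsupp.linearCombination_single, one_smul]
    simp only [gapK_eps, div_one, one_smul]
  obtain ⟨hgen, hdet⟩ := L2_mod (C a) X ha' hinj (fun r => π (Finsupp.single (r, 0) 1))
    (hbase _ (Or.inl rfl)) (hbase _ (Or.inr rfl)) (by
      intro k
      cases h : epsB k
      · have h1 := hd2 k (0 + 1)
        simp only [h, Bool.false_eq_true, if_false, add_neg_cancel_right, hsh] at h1
        simp only [Bool.not_false, if_true, Bool.false_eq_true, if_false]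
        linear_combination (norm := module) -h1
      · have h1 := hd2 k 0
        simp only [h, if_true, hsh] at h1
        simp only [Bool.not_true, if_true, Bool.false_eq_true, if_false]
        linear_combination (norm := module) -h1)
  set g0 : (Fin 24 × ℤ) →₀ ℂ := Finsupp.single (21, 0) 1 with hg0
  set g1 : (Fin 24 × ℤ) →₀ ℂ := Finsupp.single (23, 0) 1 with hg1
  have hall : ∀ v, ∃ (n : ℕ) (p q : ℂ[X]), (X : ℂ[X]) ^ n • π v = p • π g0 + q • π g1 := by
    intro v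
    induction v using Finsupp.induction_linear with
    | zero => exact ⟨0, 0, 0, by simp⟩
    | add u v hu hv =>
      obtain ⟨n, p, q, h⟩ := hu
      obtain ⟨n', p', q', h'⟩ := hv
      refine ⟨n + n', X ^ n' * p + X ^ n * p', X ^ n' * q + X ^ n * q', ?_⟩
      rw [map_add]
      linear_combination (norm := module) (X : ℂ[X]) ^ n' • h + (X : ℂ[X]) ^ n • h'
    | single x c =>
      obtain ⟨r, n⟩ := x
      obtain ⟨b, hb⟩ : ∃ b : ℕ, n + (n.natAbs : ℕ) = 0 + b := ⟨(n + n.natAbs).toNat, by omega⟩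
      have h1 := hshn r n n.natAbs
      rw [hb, hshn] at h1
      have h2 := hgen r
      have h3 : (Finsupp.single (r, n) c : (Fin 24 × ℤ) →₀ ℂ) = c • Finsupp.single (r, n) 1 := by
        simp
      refine ⟨10 + n.natAbs, C c * X ^ b * evZ (C a) X (unE r 0),
        C c * X ^ b * evZ (C a) X (unE r 1), ?_⟩
      rw [h3, hC]
      linear_combination (norm := module) (C c * X ^ b : ℂ[X]) • h2 - (C c * X ^ 10 : ℂ[X]) • h1
  obtain ⟨dt, hdt⟩ : ∃ dt : ℂ[X], dt = evZ (C a) X (unM 0 0) * evZ (C a) X (unM 1 1) -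
      evZ (C a) X (unM 0 1) * evZ (C a) X (unM 1 0) := ⟨_, rfl⟩
  have hdz : dt.eval z = 4 := by
    have h := evZ_of_all (C a) X un_det
    rw [evZ_subZ, evZ_subZ, evZ_addZ, evZ_mulZ _ _ ha', evZ_mulZ _ _ ha', evZ_mulZ _ _ ha',
      L2_phi, ← hdt, sub_eq_zero] at h
    rw [h, eval_add, eval_mul]
    simp [hz, ofInts, evZ, Z8.ev]
  have hphi : (X - C z) * ((X - C (1 - z)) * dt) = (X ^ 2 - X + 1) * dt := by
    have : (C z : ℂ[X]) ^ 2 - C z + 1 = 0 := by
      rw [← C_pow, ← C_sub, ← C_1, ← C_add, hz, C_0]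
    rw [C_sub, C_1]
    linear_combination (-dt) * this
  obtain ⟨k0, k1⟩ := hdet _ (hphi.trans (by rw [hdt]))
  obtain ⟨A, B⟩ := abs_len2 S _ _ W hw.sh_ker (fun v hv => (hw.sh_WT v).2 hv) hw.ker_inf
    hw.sh_sub hz1 (D := (X - C (1 - z)) * dt) (by
      intro v
      obtain ⟨n, p, q, h⟩ := hall v
      rw [← hker, hπ]
      apply hinjn n
      linear_combination (norm := module)
        ((X - C z) * ((X - C (1 - z)) * dt) : ℂ[X]) • h + p • k0 + q • k1)
    g0 g1 (by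
      intro v
      obtain ⟨n, p, q, h⟩ := hall v
      obtain ⟨s, hs⟩ := X_sub_C_dvd_sub_C_eval (a := z) (p := (X ^ n : ℂ[X]))
      obtain ⟨p', hp⟩ := X_sub_C_dvd_sub_C_eval (a := z) (p := p)
      obtain ⟨q', hq⟩ := X_sub_C_dvd_sub_C_eval (a := z) (p := q)
      rw [eval_pow, eval_X] at hs
      obtain ⟨u, hu⟩ := hsurj ((C (z ^ n)⁻¹ : ℂ[X]) • (p' • π g0 + q' • π g1 - s • π v))
      refine ⟨(z ^ n)⁻¹ * p.eval z, (z ^ n)⁻¹ * q.eval z, u, ?_⟩
      have hc : (C (z ^ n)⁻¹ : ℂ[X]) * C (z ^ n) = 1 := by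
        rw [← C_mul, inv_mul_cancel₀ (pow_ne_zero n hz0), C_1]
      rw [← hker, map_sub, map_sub, map_sub, map_sub, hC, hC, hC, hX, hu, C_mul, C_mul]
      linear_combination (norm := module) (C (z ^ n)⁻¹ : ℂ[X]) • h - hc • π v -
        (C (z ^ n)⁻¹ * hs) • π v + (C (z ^ n)⁻¹ * hp) • π g0 + (C (z ^ n)⁻¹ * hq) • π g1)
  refine ⟨⟨(X - C (1 - z)) * dt, ?_, fun y hy => A y hy⟩, ?_⟩
  · rw [eval_mul, hdz, eval_sub, eval_X, eval_C]
    exact mul_ne_zero hz2 (by norm_num)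
  · obtain ⟨x₁, h₁, x₂, h₂, h⟩ := B
    refine ⟨x₁, x₂, h₁, h₂, fun y hy => ?_⟩
    obtain ⟨μ₁, μ₂, y', hy', h'⟩ := h y hy
    exact ⟨μ₁, μ₂, y', hy', h'⟩

end Pool.Agent.MP_bc14e1_gt

end

section

/-! Cones over subsets of the sphere. -/

open Set Metric

namespace Pool.Agent.MP_bc14e1_gt

theorem Cone_pos {x : E 4} (hx : x ∈ shell) : 0 < ‖x‖ := lt_trans (by norm_num) hx.1

/-- The radial projection of the shell. -/
noncomputable def Cone_nrm (x : E 4) (hx : x ∈ shell) : S3 :=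
  ⟨‖x‖⁻¹ • x, by
    rw [mem_sphere_zero_iff_norm, norm_smul, norm_inv, norm_norm,
      inv_mul_cancel₀ (Cone_pos hx).ne']⟩

theorem Cone_mem {A : Set S3} {x : E 4} (hx : x ∈ shell) : x ∈ shC A ↔ Cone_nrm x hx ∈ A :=
  ⟨fun ⟨_, v, hv, e⟩ => (Subtype.ext e : v = Cone_nrm x hx) ▸ hv, fun h => ⟨hx, _, h, rfl⟩⟩

theorem Cone_smul {A : Set S3} {v : S3} (hv : v ∈ A) {r : ℝ} (h1 : 1 / 2 < r) (h2 : r < 1) :
    r • (v : E 4) ∈ shC A := by
  have h0 : 0 < r := lt_trans (by norm_num) h1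
  have hn : ‖r • (v : E 4)‖ = r := by
    rw [norm_smul, mem_sphere_zero_iff_norm.1 v.2, mul_one, Real.norm_of_nonneg h0.le]
  refine ⟨⟨by rwa [hn], by rwa [hn]⟩, v, hv, ?_⟩
  rw [hn, smul_smul, inv_mul_cancel₀ h0.ne', one_smul]

theorem shC_mono {A B : Set S3} (h : A ⊆ B) : shC A ⊆ shC B :=
  fun _ ⟨hx, v, hv, e⟩ => ⟨hx, v, h hv, e⟩

theorem shC_inter (A B : Set S3) : shC (A ∩ B) = shC A ∩ shC B := by
  ext x
  refine ⟨fun h => ⟨shC_mono inter_subset_left h, shC_mono inter_subset_right h⟩, fun h => ?_⟩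
  exact (Cone_mem h.1.1).2 ⟨(Cone_mem h.1.1).1 h.1, (Cone_mem h.1.1).1 h.2⟩

theorem shC_union (A B : Set S3) : shC (A ∪ B) = shC A ∪ shC B := by
  ext x
  refine ⟨fun ⟨hx, v, hv, e⟩ => hv.imp (fun h => ⟨hx, v, h, e⟩) fun h => ⟨hx, v, h, e⟩, ?_⟩
  rintro (h | h)
  · exact shC_mono subset_union_left h
  · exact shC_mono subset_union_right h

theorem shC_iUnion {ι : Type} (A : ι → Set S3) : shC (⋃ i, A i) = ⋃ i, shC (A i) := by
  ext x
  refine ⟨fun ⟨hx, v, hv, e⟩ => ?_, fun h => ?_⟩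
  · obtain ⟨i, hi⟩ := mem_iUnion.1 hv
    exact mem_iUnion.2 ⟨i, hx, v, hi, e⟩
  · obtain ⟨i, hi⟩ := mem_iUnion.1 h
    exact shC_mono (subset_iUnion A i) hi

theorem shC_disjoint {A B : Set S3} (h : Disjoint A B) : Disjoint (shC A) (shC B) :=
  disjoint_left.2 fun _ h1 h2 =>
    disjoint_left.1 h ((Cone_mem h1.1).1 h1) ((Cone_mem h1.1).1 h2)

theorem shC_compl_KS : shC KSᶜ = shellO Kset := by
  ext x
  exact ⟨fun h => ⟨h.1, (Cone_mem h.1).1 h⟩, fun h => (Cone_mem h.1).2 h.2⟩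

theorem Cone_isOpen : IsOpen shell :=
  (isOpen_lt continuous_const continuous_norm).inter (isOpen_lt continuous_norm continuous_const)

theorem Cone_contOn : ContinuousOn (fun x : E 4 => ‖x‖⁻¹ • x) shell :=
  (continuous_norm.continuousOn.inv₀ fun _ hx => (Cone_pos hx).ne').smul continuousOn_id

theorem shC_isOpen {A : Set S3} (h : IsOpen A) : IsOpen (shC A) := by
  obtain ⟨U, hU, rfl⟩ := isOpen_induced_iff.1 h
  have e : shC (Subtype.val ⁻¹' U) = shell ∩ (fun x : E 4 => ‖x‖⁻¹ • x) ⁻¹' U := by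
    ext x
    exact ⟨fun h => ⟨h.1, (Cone_mem h.1).1 h⟩, fun h => (Cone_mem h.1).2 h.2⟩
  rw [e]
  exact Cone_contOn.isOpen_inter_preimage Cone_isOpen hU

theorem shC_ctr {A : Set S3} (h : ContractibleSpace A) : ∃ x, Ctr (shC A) x := by
  classical
  obtain ⟨v, ⟨H⟩⟩ := (contractible_iff_id_nullhomotopic A).1 h
  let N : ∀ x ∈ shC A, A := fun x hx => ⟨Cone_nrm x hx.1, (Cone_mem hx.1).1 hx⟩
  refine ⟨(3 / 4 : ℝ) • (v.1 : E 4), Cone_smul v.2 (by norm_num) (by norm_num),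
    fun p => if hp : p.2 ∈ shC A then ((1 - p.1) * ‖p.2‖ + p.1 * (3 / 4)) •
      ((H (projIcc 0 1 zero_le_one p.1, N p.2 hp)).1 : E 4) else 0, ?_, ?_, ?_, ?_⟩
  · rw [continuousOn_iff_continuous_domRestrict]
    have hN : Continuous fun p : (Icc (0 : ℝ) 1 ×ˢ shC A : Set (ℝ × E 4)) => N p.1.2 p.2.2 := by
      refine Continuous.subtype_mk (Continuous.subtype_mk ?_ _) _
      exact Cone_contOn.comp_continuous (continuous_snd.comp continuous_subtype_val)
        fun p => p.2.2.1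
    have hc : Continuous fun p : (Icc (0 : ℝ) 1 ×ˢ shC A : Set (ℝ × E 4)) =>
        ((1 - p.1.1) * ‖p.1.2‖ + p.1.1 * (3 / 4)) •
          ((H (projIcc 0 1 zero_le_one p.1.1, N p.1.2 p.2.2)).1 : E 4) := by
      have h1 : Continuous fun p : (Icc (0 : ℝ) 1 ×ˢ shC A : Set (ℝ × E 4)) =>
          (1 - p.1.1) * ‖p.1.2‖ + p.1.1 * (3 / 4) := by fun_prop
      exact h1.smul (continuous_subtype_val.comp (continuous_subtype_val.comp (H.continuous.comp
        ((continuous_projIcc.comp (continuous_fst.comp continuous_subtype_val)).prodMk hN))))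
    refine hc.congr fun p => ?_
    rw [domRestrict_apply, dif_pos p.2.2]
  · rintro ⟨t, x⟩ ⟨⟨h0, h1⟩, hx⟩
    dsimp only at h0 h1 hx ⊢
    rw [dif_pos hx]
    have h2 := hx.1.1
    have h3 := hx.1.2
    refine Cone_smul (Subtype.prop _) ?_ ?_
    · rcases eq_or_lt_of_le h1 with rfl | h4
      · norm_num
      · nlinarith [mul_pos (sub_pos.2 h4) (sub_pos.2 h2)]
    · rcases eq_or_lt_of_le h1 with rfl | h4
      · norm_num
      · nlinarith [mul_pos (sub_pos.2 h4) (sub_pos.2 h3)]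
  · intro y hy
    dsimp only
    rw [dif_pos hy, projIcc_left, show (⟨0, left_mem_Icc.2 zero_le_one⟩ : unitInterval) = 0 from rfl,
      H.apply_zero]
    change ((1 - 0) * ‖y‖ + 0 * (3 / 4)) • ‖y‖⁻¹ • y = y
    rw [sub_zero, one_mul, zero_mul, add_zero, smul_smul, mul_inv_cancel₀ (Cone_pos hy.1).ne',
      one_smul]
  · intro y hy
    dsimp only
    rw [dif_pos hy, projIcc_right,
      show (⟨1, right_mem_Icc.2 zero_le_one⟩ : unitInterval) = 1 from rfl, H.apply_one,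
      sub_self, zero_mul, zero_add, one_mul]
    rfl

theorem Ctr.isPathConnected {X : Type} [TopologicalSpace X] {A : Set X} {x : X} (h : Ctr A x) :
    IsPathConnected A := by
  obtain ⟨hx, H, hc, hm, h0, h1⟩ := h
  refine ⟨x, hx, fun y hy => JoinedIn.symm ?_⟩
  refine JoinedIn.ofLine (f := fun t => H (t, y)) ?_ (h0 y hy) (h1 y hy) ?_
  · exact hc.comp (continuous_id.prodMk continuous_const).continuousOn fun t ht => ⟨ht, hy⟩
  · rintro _ ⟨t, ht, rfl⟩
    exact hm ⟨ht, hy⟩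

theorem exists_path_in {X : Type} [TopologicalSpace X] {A : Set X} (h : IsPathConnected A)
    {x y : X} (hx : x ∈ A) (hy : y ∈ A) :
    ∃ γ : C(unitInterval, X), γ 0 = x ∧ γ 1 = y ∧ ∀ t, γ t ∈ A := by
  obtain ⟨γ, hγ⟩ := h.joinedIn x hx y hy
  exact ⟨γ.toContinuousMap, γ.source, γ.target, hγ⟩

theorem shC_invS {A B : Set S3} (h : ∀ v ∈ A, iotS v ∈ B) :
    MapsTo (invS iotE) (shC A) (shC B) := by
  rintro x ⟨hx, v, hv, e⟩
  have e2 : invS iotE x = (3 / 2 - ‖x‖) • (iotS v : E 4) := by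
    change _ = (3 / 2 - ‖x‖) • iot v.1
    rw [← iotE_apply, e, map_smul, smul_smul, invS, div_eq_mul_inv]
  rw [e2]
  exact Cone_smul (h v hv) (by linarith [hx.2]) (by linarith [hx.1])

end Pool.Agent.MP_bc14e1_gt

end

section

/-! The regions partition the intersection of the upper and the lower piece. -/

open Set Metric

namespace Pool.Agent.MP_bc14e1_gt

theorem R4_mu_add (ψ : ℝ) (j : ℤ) : mu (ψ + 22 * j) = mu ψ := by
  unfold mu
  rw [floor_add22, fract_add22, sd_add_mul]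

theorem R4_hi_add (s ψ : ℝ) (j : ℤ) : hi s (ψ + 22 * j) = hi s ψ := by
  unfold hi
  rw [R4_mu_add]

theorem R4_sd (k : ℤ) : (sd k : ℝ) = 1 ∨ (sd k : ℝ) = -1 := by
  rcases sd_cases k with h | h <;> simp [h]

theorem R4_mu_bd (ψ : ℝ) : -(1 / 2) ≤ mu ψ ∧ mu ψ ≤ 1 / 2 := by
  have h0 := stp_nonneg (Int.fract ψ)
  have h1 := stp_le_one (Int.fract ψ)
  have h2 : 0 ≤ min (stp (Int.fract ψ)) (1 - stp (Int.fract ψ)) := le_min h0 (by linarith)
  have h3 := min_le_left (stp (Int.fract ψ)) (1 - stp (Int.fract ψ))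
  have h4 := min_le_right (stp (Int.fract ψ)) (1 - stp (Int.fract ψ))
  unfold mu
  rcases R4_sd ⌊ψ⌋ with h | h <;> rw [h] <;> constructor <;> linarith

theorem R4_hi_le (s ψ : ℝ) : hi s ψ ≤ 1 := by
  unfold hi
  linarith [le_max_right (s * mu ψ) 0]

theorem R4_hi_ge {s : ℝ} (hs : s = 1 ∨ s = -1) (ψ : ℝ) : 1 / 2 ≤ hi s ψ := by
  obtain ⟨h1, h2⟩ := R4_mu_bd ψ
  have : max (s * mu ψ) 0 ≤ 1 / 2 := by
    refine max_le ?_ (by norm_num)
    rcases hs with h | h <;> rw [h] <;> linarith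
  unfold hi
  linarith

theorem R4_str (ψ a : ℝ) :
    (∃ b, Str ψ a b) ↔ a = mu ψ ∨ a = hi 1 ψ ∨ a = -hi (-1) ψ := by
  have h0 := stp_nonneg (Int.fract ψ)
  have h1 := stp_le_one (Int.fract ψ)
  have e : (∃ b, Str ψ a b) ↔ a = sd ⌊ψ⌋ * stp (Int.fract ψ) ∨
      a = sd ⌊ψ⌋ * (1 - stp (Int.fract ψ)) ∨ a = -sd ⌊ψ⌋ := by
    unfold Str
    constructor
    · rintro ⟨b, h | h | h⟩
      exacts [Or.inl h.1, Or.inr (Or.inl h.1), Or.inr (Or.inr h.1)]
    · rintro (h | h | h)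
      exacts [⟨_, Or.inl ⟨h, rfl⟩⟩, ⟨_, Or.inr (Or.inl ⟨h, rfl⟩)⟩, ⟨_, Or.inr (Or.inr ⟨h, rfl⟩)⟩]
  rw [e]
  unfold hi mu
  generalize stp (Int.fract ψ) = S at *
  rcases R4_sd ⌊ψ⌋ with h | h <;> rw [h] <;> rcases le_total S (1 - S) with h2 | h2
  · rw [min_eq_left h2, max_eq_left (by linarith), max_eq_right (by linarith)]
    simp
  · rw [min_eq_right h2, max_eq_left (by linarith), max_eq_right (by linarith)]
    constructor <;> rintro (h | h | h)
    exacts [Or.inr (Or.inl (by linarith)), Or.inl h, Or.inr (Or.inr (by linarith)),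
      Or.inr (Or.inl h), Or.inl (by linarith), Or.inr (Or.inr (by linarith))]
  · rw [min_eq_left h2, max_eq_right (by linarith), max_eq_left (by linarith)]
    constructor <;> rintro (h | h | h)
    exacts [Or.inl h, Or.inr (Or.inr (by linarith)), Or.inr (Or.inl (by linarith)),
      Or.inl h, Or.inr (Or.inr (by linarith)), Or.inr (Or.inl (by linarith))]
  · rw [min_eq_right h2, max_eq_right (by linarith), max_eq_left (by linarith)]
    constructor <;> rintro (h | h | h)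
    exacts [Or.inr (Or.inr (by linarith)), Or.inl h, Or.inr (Or.inl (by linarith)),
      Or.inr (Or.inl h), Or.inr (Or.inr (by linarith)), Or.inl (by linarith)]

theorem R4_mem_UU {ψ a b : ℝ} :
    embS (ψ, a, b) ∈ Up ∩ Um ↔ a ≠ mu ψ ∧ a ≠ hi 1 ψ ∧ a ≠ -hi (-1) ψ := by
  have e := R4_str ψ a
  rw [mem_inter_iff, embS_mem_Up, embS_mem_Um]
  constructor
  · rintro ⟨h1, h2⟩
    have : ¬ ∃ b, Str ψ a b := fun ⟨b', hb⟩ => lt_asymm (h1 b' hb) (h2 b' hb)
    rw [e] at this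
    push Not at this
    exact this
  · intro h
    have : ¬ ∃ b, Str ψ a b := by
      rw [e]
      push Not
      exact h
    exact ⟨fun b' hb => absurd ⟨b', hb⟩ this, fun b' hb => absurd ⟨b', hb⟩ this⟩

theorem R4_mem_Out {s ψ a b : ℝ} : embS (ψ, a, b) ∈ Out s ↔ hi s ψ < s * a := by
  constructor
  · rintro (⟨⟨ψ', a', b'⟩, h, he⟩ | h)
    · obtain ⟨h2, j, hj⟩ := embS_eq_iff.1 he
      obtain ⟨rfl, rfl⟩ := Prod.ext_iff.1 h2
      dsimp only at hj
      rw [hj, R4_hi_add]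
      exact h
    · change rad (emb ψ a b) < s * emb ψ a b 2 at h
      rw [rad_emb, emb_2] at h
      have hp := inv_pos.2 (nrm_pos a b)
      have h1 : 1 < s * a := by
        by_contra hle
        have := mul_le_mul_of_nonneg_left (not_lt.1 hle) hp.le
        linarith
      linarith [R4_hi_le s ψ]
  · exact fun h => Or.inl ⟨(ψ, a, b), h, rfl⟩

theorem R4_not_img {v : S3} (h : rad v.1 = 0) (A : Set (ℝ × ℝ × ℝ)) : v ∉ embS '' A := by
  rintro ⟨p, -, rfl⟩
  exact (rad_emb_pos p.1 p.2.1 p.2.2).ne' h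

theorem R4_Out_rad {s : ℝ} {v : S3} (h : rad v.1 = 0) : v ∈ Out s ↔ 0 < s * v.1 2 := by
  unfold Out
  rw [mem_union, or_iff_right (R4_not_img h _), mem_ofPred_eq, h]

theorem R4_UU_rad {v : S3} (h : rad v.1 = 0) : v ∈ Up ∩ Um ↔ v.1 2 ≠ 0 := by
  rw [mem_inter_iff, mem_Up_of_rad h, mem_Um_of_rad h]
  constructor
  · rintro ⟨h1, h2⟩ h3
    obtain ⟨e0, e1⟩ := rad_eq_zero.1 h
    have hn := E4_norm_sq v.1
    rw [show ‖v.1‖ = 1 by simp, e0, e1, h3] at hn
    have : (v.1 3 - 1) * (v.1 3 + 1) = 0 := by linarith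
    rcases mul_eq_zero.1 this with e | e
    · refine h2 (Subtype.ext (E4_ext ?_ ?_ ?_ ?_)) <;> simp [pole, e0, e1, h3]
      linarith
    · refine h1 (Subtype.ext (E4_ext ?_ ?_ ?_ ?_)) <;> simp [pole, e0, e1, h3]
      linarith
  · intro h3
    constructor <;> rintro rfl <;> simp [pole] at h3

theorem R4_mem_Gap {k : ℤ} {ψ a b : ℝ} : embS (ψ, a, b) ∈ Gap k ↔
    ∃ j : ℤ, k + 1 / 2 < ψ + 22 * j ∧ ψ + 22 * j < k + nx k + 1 / 2 ∧
      sd k * mu ψ < sd k * a ∧ sd k * a < hi (sd k) ψ := by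
  constructor
  · rintro ⟨⟨ψ', a', b'⟩, ⟨h1, h2, h3, h4⟩, he⟩
    obtain ⟨h5, j, hj⟩ := embS_eq_iff.1 he.symm
    obtain ⟨rfl, rfl⟩ := Prod.ext_iff.1 h5
    dsimp only at hj h1 h2 h3 h4
    rw [hj] at h1 h2 h3 h4
    rw [R4_mu_add] at h3
    rw [R4_hi_add] at h4
    exact ⟨j, h1, h2, h3, h4⟩
  · rintro ⟨j, h1, h2, h3, h4⟩
    refine ⟨(ψ + 22 * j, a, b), ⟨h1, h2, ?_, ?_⟩, embS_add22 ψ (a, b) j⟩
    · dsimp only
      rwa [R4_mu_add]
    · dsimp only
      rwa [R4_hi_add]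

theorem R4_nx_add (k j : ℤ) : nx (k + 22 * j) = nx k := by
  unfold nx
  push_cast
  rw [show (22 : ZMod 22) = 0 from rfl, zero_mul, add_zero]

theorem R4_mod (k : ℤ) : ∃ (r : Fin 22) (q : ℤ), k = ((r : ℕ) : ℤ) + 22 * q :=
  ⟨⟨(k % 22).toNat, by omega⟩, k / 22, by
    dsimp only
    omega⟩

theorem R4_nx_bd (k : ℤ) : 1 ≤ nx k ∧ nx k ≤ 4 := by
  unfold nx
  generalize (k : ZMod 22) = r
  revert r
  decide +kernel

theorem R4_between {k d : ℤ} (h0 : 0 < d) (h1 : d < nx k) : sd (k + d) = -sd k := by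
  have t : ∀ (r : Fin 22) (e : Fin 4), 0 < ((e : ℕ) : ℤ) → ((e : ℕ) : ℤ) < nx (r : ℕ) →
      sd (((r : ℕ) : ℤ) + (e : ℕ)) = -sd (r : ℕ) := by
    decide +kernel
  obtain ⟨r, q, rfl⟩ := R4_mod k
  have hb := (R4_nx_bd (((r : ℕ) : ℤ) + 22 * q)).2
  rw [R4_nx_add] at h1 hb
  have e : d = (((⟨d.toNat, by omega⟩ : Fin 4) : ℕ) : ℤ) := by
    dsimp only
    omega
  rw [add_right_comm, sd_add_mul, sd_add_mul, e]
  exact t r _ (e ▸ h0) (e ▸ h1)

theorem R4_last (m : ℤ) {s : ℤ} (hs : s = 1 ∨ s = -1) :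
    ∃ k : ℤ, k ≤ m ∧ m < k + nx k ∧ sd k = s := by
  have t : ∀ r : Fin 22, (∃ e : Fin 4, ((e : ℕ) : ℤ) < nx (((r : ℕ) : ℤ) - (e : ℕ)) ∧
      sd (((r : ℕ) : ℤ) - (e : ℕ)) = 1) ∧
      ∃ e : Fin 4, ((e : ℕ) : ℤ) < nx (((r : ℕ) : ℤ) - (e : ℕ)) ∧
      sd (((r : ℕ) : ℤ) - (e : ℕ)) = -1 := by
    decide +kernel
  obtain ⟨r, q, rfl⟩ := R4_mod m
  obtain ⟨e, h1, h2⟩ : ∃ e : Fin 4, ((e : ℕ) : ℤ) < nx (((r : ℕ) : ℤ) - (e : ℕ)) ∧
      sd (((r : ℕ) : ℤ) - (e : ℕ)) = s := by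
    rcases hs with rfl | rfl
    exacts [(t r).1, (t r).2]
  refine ⟨((r : ℕ) : ℤ) - (e : ℕ) + 22 * q, by omega, ?_, ?_⟩
  · rw [R4_nx_add]
    omega
  · rw [sd_add_mul, h2]

theorem R4_Reg_lt (r : Fin 22) : Reg (r.castLE (by norm_num)) = Gap (r : ℕ) := by
  unfold Reg
  rw [if_pos (by simp)]
  rfl

theorem R4_Reg22 : Reg 22 = Out (-1) := rfl

theorem R4_Reg23 : Reg 23 = Out 1 := rfl

theorem R4_cases (r : Fin 24) :
    (∃ t : Fin 22, r = t.castLE (by norm_num)) ∨ r = 22 ∨ r = 23 := by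
  revert r
  decide +kernel

theorem R4_cover {s : ℤ} (hs : s = 1 ∨ s = -1) {ψ a b : ℝ} (h1 : s * mu ψ < s * a)
    (h2 : s * a < hi s ψ) : ∃ r : Fin 22, embS (ψ, a, b) ∈ Gap (r : ℕ) := by
  obtain ⟨k, hk1, hk2, hk3⟩ := R4_last ⌊ψ - 1 / 2⌋ hs
  have f1 := Int.floor_le (ψ - 1 / 2)
  have f2 := Int.lt_floor_add_one (ψ - 1 / 2)
  have g1 : (k : ℝ) ≤ (⌊ψ - 1 / 2⌋ : ℤ) := by exact_mod_cast hk1
  have g2 : ((⌊ψ - 1 / 2⌋ : ℤ) : ℝ) + 1 ≤ k + nx k := by exact_mod_cast hk2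
  have g3 : (k : ℝ) + 1 / 2 ≠ ψ := by
    intro e
    have e1 : ⌊ψ⌋ = k := by
      rw [Int.floor_eq_iff]
      constructor <;> linarith
    have e2 : Int.fract ψ = 1 / 2 := by
      rw [Int.fract, e1]
      linarith
    have e3 : (s : ℝ) * mu ψ = 1 / 2 := by
      unfold mu
      rw [e1, e2, stp_half, hk3]
      rcases hs with rfl | rfl <;> norm_num
    have e4 : hi s ψ = 1 / 2 := by
      unfold hi
      rw [e3]
      norm_num
    linarith
  have g4 : (k : ℝ) + 1 / 2 < ψ := lt_of_le_of_ne (by linarith) g3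
  obtain ⟨r, q, rfl⟩ := R4_mod k
  rw [R4_nx_add] at g2
  rw [sd_add_mul] at hk3
  push_cast at g2 g4
  refine ⟨r, R4_mem_Gap.2 ⟨-q, ?_, ?_, ?_, ?_⟩⟩
  · push_cast
    linarith
  · push_cast
    linarith
  · rwa [hk3]
  · rwa [hk3]

theorem R4_gap_gap {k k' : ℤ} {ψ : ℝ} (hs : sd k = sd k') (hk : k < k')
    (h1 : (k' : ℝ) + 1 / 2 < ψ) (h2 : ψ < k + nx k + 1 / 2) : False := by
  have h3 : k' < k + nx k := by
    have : (k' : ℝ) < k + nx k := by linarith
    exact_mod_cast this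
  have h4 := R4_between (k := k) (d := k' - k) (by omega) (by omega)
  rw [add_sub_cancel] at h4
  rcases sd_cases k with h | h <;> omega

theorem R4_disj_gap {r r' : Fin 22} (h : r ≠ r') : Disjoint (Gap (r : ℕ)) (Gap (r' : ℕ)) := by
  rw [Set.disjoint_left]
  intro v hv hv'
  obtain ⟨⟨ψ, a, b⟩, -, rfl⟩ := id hv
  obtain ⟨j, h1, h2, h3, h4⟩ := R4_mem_Gap.1 hv
  obtain ⟨j', h1', h2', h3', h4'⟩ := R4_mem_Gap.1 hv'
  by_cases hs : sd (r : ℕ) = sd (r' : ℕ)
  · have hs' : sd (((r : ℕ) : ℤ) + 22 * -j) = sd (((r' : ℕ) : ℤ) + 22 * -j') := by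
      rwa [sd_add_mul, sd_add_mul]
    rcases lt_trichotomy (((r : ℕ) : ℤ) + 22 * -j) (((r' : ℕ) : ℤ) + 22 * -j') with hk | hk | hk
    · refine R4_gap_gap (ψ := ψ) hs' hk ?_ ?_
      · push_cast at h1' ⊢
        linarith
      · rw [R4_nx_add]
        push_cast at h2 ⊢
        linarith
    · refine h (Fin.ext ?_)
      have := r.2
      have := r'.2
      omega
    · refine R4_gap_gap (ψ := ψ) hs'.symm hk ?_ ?_
      · push_cast at h1 ⊢
        linarith
      · rw [R4_nx_add]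
        push_cast at h2' ⊢
        linarith
  · rcases sd_cases (r : ℕ) with e | e <;> rcases sd_cases (r' : ℕ) with e' | e'
    · exact hs (e.trans e'.symm)
    · rw [e] at h3
      rw [e'] at h3'
      push_cast at h3 h3'
      linarith
    · rw [e] at h3
      rw [e'] at h3'
      push_cast at h3 h3'
      linarith
    · exact hs (e.trans e'.symm)

theorem R4_disj_out (k : ℤ) {s : ℝ} (hs : s = 1 ∨ s = -1) : Disjoint (Gap k) (Out s) := by
  rw [Set.disjoint_left]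
  intro v hv hv'
  obtain ⟨⟨ψ, a, b⟩, -, rfl⟩ := id hv
  obtain ⟨j, -, -, h3, h4⟩ := R4_mem_Gap.1 hv
  have h5 := R4_mem_Out.1 hv'
  have h6 := R4_hi_ge hs ψ
  obtain ⟨h7, h8⟩ := R4_mu_bd ψ
  rcases R4_sd k with e | e <;> rw [e] at h3 h4 <;> rcases hs with rfl | rfl <;> linarith

theorem R4_out_out : Disjoint (Out (-1)) (Out 1) := by
  rw [Set.disjoint_left]
  intro v hv hv'
  by_cases h : rad v.1 = 0
  · rw [R4_Out_rad h] at hv hv'
    linarith
  · obtain ⟨⟨ψ, a, b⟩, rfl⟩ := exists_embS v h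
    rw [R4_mem_Out] at hv hv'
    linarith [R4_hi_ge (Or.inl rfl) ψ, R4_hi_ge (Or.inr rfl) ψ]

theorem disjoint_Reg {r r' : Fin 24} (h : r ≠ r') : Disjoint (Reg r) (Reg r') := by
  rcases R4_cases r with ⟨t, rfl⟩ | rfl | rfl <;> rcases R4_cases r' with ⟨t', rfl⟩ | rfl | rfl
  · rw [R4_Reg_lt, R4_Reg_lt]
    exact R4_disj_gap fun e => h (by rw [e])
  · rw [R4_Reg_lt]
    exact R4_disj_out _ (Or.inr rfl)
  · rw [R4_Reg_lt]
    exact R4_disj_out _ (Or.inl rfl)
  · rw [R4_Reg_lt]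
    exact (R4_disj_out _ (Or.inr rfl)).symm
  · exact absurd rfl h
  · exact R4_out_out
  · rw [R4_Reg_lt]
    exact (R4_disj_out _ (Or.inl rfl)).symm
  · exact R4_out_out.symm
  · exact absurd rfl h

theorem R4_out_sub {s : ℝ} (hs : s = 1 ∨ s = -1) : Out s ⊆ Up ∩ Um := by
  intro v hv
  by_cases h : rad v.1 = 0
  · rw [R4_Out_rad h] at hv
    rw [R4_UU_rad h]
    intro e
    rw [e, mul_zero] at hv
    exact lt_irrefl _ hv
  · obtain ⟨⟨ψ, a, b⟩, rfl⟩ := exists_embS v h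
    rw [R4_mem_Out] at hv
    rw [R4_mem_UU]
    have h1 := R4_hi_ge (Or.inl rfl) ψ
    have h2 := R4_hi_ge (Or.inr rfl) ψ
    obtain ⟨h7, h8⟩ := R4_mu_bd ψ
    rcases hs with rfl | rfl <;> refine ⟨?_, ?_, ?_⟩ <;> intro e <;> linarith

theorem Up_inter_Um : Up ∩ Um = ⋃ r, Reg r := by
  refine Subset.antisymm (fun v hv => ?_) (iUnion_subset fun r => ?_)
  · rw [mem_iUnion]
    by_cases h : rad v.1 = 0
    · rw [R4_UU_rad h] at hv
      rcases lt_or_gt_of_ne hv with e | e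
      · exact ⟨22, (R4_Out_rad h).2 (by linarith)⟩
      · exact ⟨23, (R4_Out_rad h).2 (by linarith)⟩
    · obtain ⟨⟨ψ, a, b⟩, rfl⟩ := exists_embS v h
      obtain ⟨h1, h2, h3⟩ := R4_mem_UU.1 hv
      rcases lt_or_gt_of_ne h2 with e2 | e2
      swap
      · exact ⟨23, R4_mem_Out.2 (by linarith)⟩
      rcases lt_or_gt_of_ne h3 with e3 | e3
      · exact ⟨22, R4_mem_Out.2 (by linarith)⟩
      obtain ⟨r, hr⟩ : ∃ r : Fin 22, embS (ψ, a, b) ∈ Gap (r : ℕ) := by
        rcases lt_or_gt_of_ne h1 with e1 | e1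
        · refine R4_cover (s := -1) (Or.inr rfl) ?_ ?_ <;> push_cast <;> linarith
        · refine R4_cover (s := 1) (Or.inl rfl) ?_ ?_ <;> push_cast <;> linarith
      exact ⟨r.castLE (by norm_num), by rwa [R4_Reg_lt]⟩
  · rcases R4_cases r with ⟨t, rfl⟩ | rfl | rfl
    · rw [R4_Reg_lt]
      intro v hv
      obtain ⟨⟨ψ, a, b⟩, -, rfl⟩ := id hv
      obtain ⟨j, -, -, h3, h4⟩ := R4_mem_Gap.1 hv
      rw [R4_mem_UU]
      have h1 := R4_hi_ge (Or.inl rfl) ψ
      have h2 := R4_hi_ge (Or.inr rfl) ψ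
      obtain ⟨h7, h8⟩ := R4_mu_bd ψ
      rcases R4_sd (t : ℕ) with e | e <;> rw [e] at h3 h4 <;> refine ⟨?_, ?_, ?_⟩ <;> intro e <;>
        linarith
    · exact R4_out_sub (Or.inr rfl)
    · exact R4_out_sub (Or.inl rfl)

theorem R4_box {k : ℤ} {ψ : ℝ} (h1 : (k : ℝ) + 1 / 3 < ψ) (h2 : ψ < k + 2 / 3) :
    sd k * mu ψ = min (stp (ψ - k)) (1 - stp (ψ - k)) := by
  have e1 : ⌊ψ⌋ = k := by
    rw [Int.floor_eq_iff]
    constructor <;> linarith
  unfold mu
  rw [Int.fract, e1, ← mul_assoc]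
  rcases R4_sd k with e | e <;> rw [e] <;> norm_num

theorem R4_tab (k : Fin 22) :
    (∃ (r : Fin 22) (e : Fin 2), qd k false false = r.castLE (by norm_num) ∧
      ((r : ℕ) : ℤ) < (k : ℕ) + 22 * (e : ℕ) ∧
      ((k : ℕ) : ℤ) + 22 * (e : ℕ) < (r : ℕ) + nx (r : ℕ) ∧ sd (r : ℕ) = -sd (k : ℕ)) ∧
    (∃ (r : Fin 22) (e : Fin 2), qd k true false = r.castLE (by norm_num) ∧
      ((r : ℕ) : ℤ) + nx (r : ℕ) = (k : ℕ) + 22 * (e : ℕ) ∧ sd (r : ℕ) = sd (k : ℕ)) ∧
    ((qd k true true = 22 ∧ sd (k : ℕ) = -1) ∨ (qd k true true = 23 ∧ sd (k : ℕ) = 1)) := by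
  revert k
  decide +kernel

theorem quad_subset (k : Fin 22) (i j : Bool) : Bp k i ∩ Bm k j ⊆ Reg (qd k i j) := by
  rintro v ⟨⟨⟨ψ, a, b⟩, ⟨⟨h1, h2, h3, -⟩, hi'⟩, rfl⟩, ⟨ψ', a', b'⟩, ⟨⟨h1', h2', -, -⟩, hj'⟩, he⟩
  obtain ⟨h5, q, hq⟩ := embS_eq_iff.1 he
  obtain ⟨rfl, rfl⟩ := Prod.ext_iff.1 h5
  dsimp only at h1 h2 h3 h1' h2' hq
  have hq0 : q = 0 := by
    have a1 : (-1 : ℝ) < q := by linarith
    have a2 : (q : ℝ) < 1 := by linarith
    have a3 : (-1 : ℤ) < q := by exact_mod_cast a1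
    have a4 : q < 1 := by exact_mod_cast a2
    omega
  rw [hq0, Int.cast_zero, mul_zero, add_zero] at hq
  subst hq
  have hm := R4_box h1 h2
  rw [mem_ofPred_eq] at hi' hj'
  dsimp only at hi' hj'
  rw [Int.cast_natCast] at hm h1 h2
  have s0 := stp_nonneg (ψ - (k : ℕ))
  have s1 := stp_le_one (ψ - (k : ℕ))
  obtain ⟨t1, t2, t3⟩ := R4_tab k
  have n1 : (1 : ℝ) ≤ nx (k : ℕ) := by exact_mod_cast (R4_nx_bd _).1
  cases i <;> cases j <;> simp only [if_true, Bool.false_eq_true, if_false] at hi' hj'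
  · obtain ⟨r, e, hr, g1, g2, g3⟩ := t1
    have g1' : ((r : ℕ) : ℝ) + 1 ≤ (k : ℕ) + 22 * (e : ℕ) := by exact_mod_cast g1
    have g2' : ((k : ℕ) : ℝ) + 22 * (e : ℕ) + 1 ≤ (r : ℕ) + nx (r : ℕ) := by exact_mod_cast g2
    rw [hr, R4_Reg_lt]
    refine R4_mem_Gap.2 ⟨(e : ℕ), ?_, ?_, ?_, ?_⟩
    · push_cast
      linarith
    · push_cast
      linarith
    · rw [g3]
      push_cast
      have := lt_min hi' hj'
      linarith
    · unfold hi
      rw [g3]
      push_cast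
      have : 0 ≤ min (stp (ψ - (k : ℕ))) (1 - stp (ψ - (k : ℕ))) := le_min s0 (by linarith)
      rw [max_eq_right (by linarith)]
      linarith
  · have g : 1 / 2 < ψ - (k : ℕ) := by
      by_contra hc
      rcases (not_lt.1 hc).eq_or_lt with e | e
      · rw [e, stp_half] at hi' hj'
        linarith
      · linarith [stp_lt_half e]
    rw [min_eq_right (by linarith)] at hm
    change _ ∈ Reg (k.castLE (by norm_num))
    rw [R4_Reg_lt]
    refine R4_mem_Gap.2 ⟨0, ?_, ?_, ?_, ?_⟩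
    · push_cast
      linarith
    · push_cast
      linarith
    · linarith
    · unfold hi
      rw [hm, max_eq_left (by linarith)]
      linarith
  · have g : ψ - (k : ℕ) < 1 / 2 := by
      by_contra hc
      rcases (not_lt.1 hc).eq_or_lt with e | e
      · rw [← e, stp_half] at hi' hj'
        linarith
      · linarith [half_lt_stp e]
    rw [min_eq_left (by linarith)] at hm
    obtain ⟨r, e, hr, g1, g3⟩ := t2
    have g1' : ((r : ℕ) : ℝ) + nx (r : ℕ) = (k : ℕ) + 22 * (e : ℕ) := by exact_mod_cast g1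
    have n2 : (1 : ℝ) ≤ nx (r : ℕ) := by exact_mod_cast (R4_nx_bd _).1
    rw [hr, R4_Reg_lt]
    refine R4_mem_Gap.2 ⟨(e : ℕ), ?_, ?_, ?_, ?_⟩
    · push_cast
      linarith
    · push_cast
      linarith
    · rw [g3]
      linarith
    · unfold hi
      rw [g3, hm, max_eq_left s0]
      linarith
  · have g : hi (sd (k : ℕ)) ψ < sd (k : ℕ) * a' := by
      unfold hi
      rw [hm, max_eq_left (le_min s0 (by linarith))]
      rcases le_total (stp (ψ - (k : ℕ))) (1 - stp (ψ - (k : ℕ))) with e | e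
      · rw [min_eq_left e]
        linarith
      · rw [min_eq_right e]
        linarith
    rcases t3 with ⟨hr, e⟩ | ⟨hr, e⟩ <;> rw [hr] <;> rw [e] at g <;> push_cast at g
    · exact R4_mem_Out.2 g
    · exact R4_mem_Out.2 g

end Pool.Agent.MP_bc14e1_gt

end

section

/-! The open cover of the knot complement. -/

open Set Metric

namespace Pool.Agent.MP_bc14e1_gt

theorem KnDehn_pc {A : Set S3} (h : ContractibleSpace A) : IsPathConnected (shC A) := by
  obtain ⟨x, hx⟩ := shC_ctr h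
  exact hx.isPathConnected

theorem Dehn_ne (c : Fin 22) (i j : Bool) : (shC (Bp c i) ∩ shC (Bm c j)).Nonempty := by
  rw [← shC_inter]
  exact (KnDehn_pc (contractible_quad c i j)).nonempty

theorem Dehn_sub (c : Fin 22) (i j : Bool) :
    shC (Bp c i) ∩ shC (Bm c j) ⊆ shC (Reg (qd c i j)) := by
  rw [← shC_inter]
  exact shC_mono (quad_subset c i j)

theorem Dehn_reg (R : Fin 24) : shC (Reg R) ⊆ shC Up ∩ shC Um := by
  rw [← shC_inter, Up_inter_Um]
  exact shC_mono (subset_iUnion Reg R)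

theorem exists_dehn : ∃ D : DehnData (shellO Kset) regK, D.Sym (invS iotE) iotR := by
  obtain ⟨n, hn⟩ := shC_ctr contractible_Up
  obtain ⟨s, hs⟩ := shC_ctr contractible_Um
  have hr : ∀ R, ∃ x, x ∈ shC (Reg R) := fun R => (KnDehn_pc (contractible_Reg R)).nonempty
  choose r hr using hr
  have ha := fun R => exists_path_in hn.isPathConnected hn.1 (Dehn_reg R (hr R)).1
  have hb := fun R => exists_path_in hs.isPathConnected (Dehn_reg R (hr R)).2 hs.1
  choose a a0 a1 am using ha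
  choose b b0 b1 bm using hb
  refine ⟨{ Up := shC Up
            Lo := shC Um
            n := n
            s := s
            Rg := fun R => shC (Reg R)
            B := fun c => shC (Box c)
            U1 := fun c => shC (Bp c false)
            U2 := fun c => shC (Bp c true)
            L1 := fun c => shC (Bm c false)
            L2 := fun c => shC (Bm c true)
            r := r
            a := a
            b := b
            opU := shC_isOpen isOpen_Up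
            opL := shC_isOpen isOpen_Um
            ctU := hn
            ctL := hs
            opR := fun R => shC_isOpen (isOpen_Reg R)
            pcR := fun R => KnDehn_pc (contractible_Reg R)
            djR := fun R R' h => shC_disjoint (disjoint_Reg h)
            unR := by rw [← shC_inter, Up_inter_Um, shC_iUnion]
            opB := fun c => shC_isOpen (isOpen_Box c)
            ctB := fun c => shC_ctr (contractible_Box c)
            djB := fun c c' h => shC_disjoint (disjoint_Box h)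
            cover := by rw [← shC_compl_KS, compl_KS, shC_union, shC_union, shC_iUnion]
            op := fun c => ⟨shC_isOpen (isOpen_Bp c _), shC_isOpen (isOpen_Bp c _),
              shC_isOpen (isOpen_Bm c _), shC_isOpen (isOpen_Bm c _)⟩
            pc := fun c => ⟨KnDehn_pc (contractible_Bp c _), KnDehn_pc (contractible_Bp c _),
              KnDehn_pc (contractible_Bm c _), KnDehn_pc (contractible_Bm c _)⟩
            dj := fun c => ⟨shC_disjoint (disjoint_Bp c), shC_disjoint (disjoint_Bm c)⟩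
            un := fun c => ⟨by rw [← shC_inter, Box_inter_Up, shC_union],
              by rw [← shC_inter, Box_inter_Um, shC_union]⟩
            ne := fun c => ⟨Dehn_ne c _ _, Dehn_ne c _ _, Dehn_ne c _ _, Dehn_ne c _ _⟩
            sub := fun c => ⟨Dehn_sub c false false, Dehn_sub c false true,
              Dehn_sub c true true, Dehn_sub c true false⟩
            rm := hr
            a0 := a0
            a1 := a1
            am := am
            b0 := b0
            b1 := b1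
            bm := bm }, ?_, ?_, ?_⟩
  · exact shC_invS fun v h => iotS_mem_Up h
  · exact shC_invS fun v h => iotS_mem_Um h
  · exact fun R => shC_invS fun v h => iotS_mem_Reg h

end Pool.Agent.MP_bc14e1_gt

end
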