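import Pool.Agent.Mg.Fbc14e1.G6fb7b3

section

open Set Metric
open scoped Classical

namespace Pool.Agent.MP_bc14e1_gt

section Aux

variable {R : Type} [CommRing R] {X Y : Type} [TopologicalSpace X] [TopologicalSpace Y]

/-- The chain `o` freely generates the local homology of `X` at `x`. -/
structure LocHom_P (x : X) (o : Tot R X) : Prop where
  cyc : dT R X o ∈ CH R ({x}ᶜ : Set X)
  ex : ∀ c, dT R X c ∈ CH R ({x}ᶜ : Set X) →
    ∃ (r : R) (b : Tot R X), c - r • o - dT R X b ∈ CH R ({x}ᶜ : Set X)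
  uniq : ∀ (r : R) (b : Tot R X), r • o - dT R X b ∈ CH R ({x}ᶜ : Set X) → r = 0

theorem LocHom_val0_dT (b : Tot R X) : val0 R (fun _ : X => (1 : R)) (dT R X b) = 0 := by
  induction b using Tot.ind with
  | h0 => simp
  | hadd a b ha hb => simp [ha, hb]
  | h1 k σ a =>
    rcases k with _ | _ | k
    · rw [dT_inc_zero, map_zero]
    · rw [dT_inc_succ, bd_single, Fin.sum_univ_two, map_add, map_zsmul, map_zsmul, inc_single,
        inc_single]
      simp [val0]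
    · exact val0_of_DG _ (Nat.succ_ne_zero k) (dT_mem_DG (inc_mem_DG _ _))

theorem LocHom_base (hCtr : CtrStmt) [Subsingleton X] (x : X) : LocHom_P x (pt R x) := by
  have hc : Ctr (univ : Set X) x :=
    ⟨trivial, fun p => p.2, continuous_snd.continuousOn, fun _ _ => trivial, fun _ _ => rfl,
      fun _ _ => Subsingleton.elim _ _⟩
  obtain ⟨h1, h2⟩ := hCtr R X univ x hc
  have he : ({x}ᶜ : Set X) = ∅ := by
    ext y
    simp [Subsingleton.elim y x]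
  refine ⟨by rw [dT_pt]; exact zero_mem _, fun c hc => ?_, fun r b h => ?_⟩
  · rw [he] at hc
    have hd := eq_zero_of_mem_CH_empty hc
    have hB : ∀ k, BC R (univ : Set X) k ≤ LinearMap.range (dT R X) := fun k =>
      LinearMap.map_le_range
    have hm : c ∈ Submodule.span R {pt R x} ⊔ LinearMap.range (dT R X) := by
      obtain ⟨n, hn⟩ := exists_sum_deg c
      rw [← hn n le_rfl]
      refine sum_mem fun k _ => ?_
      rcases k with _ | k
      · have := hB 0 (h2 _ ⟨mem_CH_univ _, deg_mem 0 c⟩)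
        rw [← add_sub_cancel (val0 R (fun _ => (1 : R)) (deg R X 0 c) • pt R x) (deg R X 0 c)]
        exact Submodule.add_mem_sup
          (Submodule.smul_mem _ _ (Submodule.mem_span_singleton_self _)) this
      · refine Submodule.mem_sup_right (hB (k + 1) (h1 _ (Nat.succ_ne_zero k)
          ⟨⟨mem_CH_univ _, deg_mem _ c⟩, ?_⟩))
        change dT R X _ = 0
        rw [← deg_dT, hd, map_zero]
    obtain ⟨u, hu, v, ⟨b, rfl⟩, rfl⟩ := Submodule.mem_sup.1 hm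
    obtain ⟨r, rfl⟩ := Submodule.mem_span_singleton.1 hu
    refine ⟨r, b, ?_⟩
    rw [add_sub_cancel_left, sub_self]
    exact zero_mem _
  · rw [he] at h
    have := congrArg (val0 R (fun _ : X => (1 : R))) (eq_zero_of_mem_CH_empty h)
    rwa [map_sub, LocHom_val0_dT, map_smul, val0_pt, map_zero, sub_zero, smul_eq_mul,
      mul_one] at this

theorem LocHom_homeo (e : X ≃ₜ Y) {x : X} {o : Tot R X} (h : LocHom_P x o) :
    LocHom_P (e x) (psh R e o) := by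
  have m1 : MapsTo e ({x}ᶜ : Set X) ({e x}ᶜ : Set Y) := fun y hy h => hy (e.injective h)
  have m2 : MapsTo e.symm ({e x}ᶜ : Set Y) ({x}ᶜ : Set X) := fun y hy h =>
    hy (by rw [← mem_singleton_iff.1 h]; exact (e.apply_symm_apply y).symm)
  have i1 : ∀ c : Tot R Y, psh R e (psh R e.symm c) = c := fun c => by
    rw [psh_psh' _ e.symm.continuous]
    exact psh_of_eqOn_id (fun y _ => e.apply_symm_apply y) (mem_CH_univ c)
  have i2 : ∀ c : Tot R X, psh R e.symm (psh R e c) = c := fun c => by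
    rw [psh_psh' _ e.continuous]
    exact psh_of_eqOn_id (fun y _ => e.symm_apply_apply y) (mem_CH_univ c)
  refine ⟨?_, fun c hc => ?_, fun r b hb => ?_⟩
  · rw [dT_psh_cont e.continuous]
    exact psh_mem_CH _ m1 h.cyc
  · obtain ⟨r, b, hb⟩ := h.ex (psh R e.symm c) (by
      rw [dT_psh_cont e.symm.continuous]
      exact psh_mem_CH _ m2 hc)
    refine ⟨r, psh R e b, ?_⟩
    have := psh_mem_CH e m1 hb
    rwa [map_sub, map_sub, map_smul, i1, ← dT_psh_cont e.continuous] at this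
  · have := psh_mem_CH e.symm m2 hb
    rw [map_sub, map_smul, i2, ← dT_psh_cont e.symm.continuous] at this
    exact h.uniq r _ this

/-- The homotopy that pushes `ℝ × X` to the level `a`. -/
def LocHom_H (a : ℝ) (p : ℝ × (ℝ × X)) : ℝ × X := ((1 - p.1) * p.2.1 + p.1 * a, p.2.2)

theorem LocHom_push (κ : Kit) (a : ℝ) {U : Set (ℝ × X)}
    (hU : MapsTo (LocHom_H a) (Icc 0 1 ×ˢ U) U) {c : Tot R (ℝ × X)}
    (hc : dT R _ c ∈ CH R U) :
    ∃ b, c - psh R (fun y : X => (a, y)) (psh R Prod.snd c) - dT R _ b ∈ CH R U := by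
  have hH : Continuous (LocHom_H (X := X) a) := by
    unfold LocHom_H
    fun_prop
  have h := dT_hop κ hH.continuousOn (mem_CH_univ c)
  have e0 : psh R (fun x => LocHom_H a (0, x)) c = c :=
    psh_of_eqOn_id (fun y _ => by simp [LocHom_H]) (mem_CH_univ c)
  have e1 : psh R (fun x => LocHom_H a (1, x)) c =
      psh R (fun y : X => (a, y)) (psh R Prod.snd c) := by
    rw [psh_psh' _ continuous_snd]
    exact psh_congr (fun y _ => by simp [LocHom_H]) (mem_CH_univ c)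
  rw [e0, e1] at h
  refine ⟨-hop κ R (LocHom_H a) c, ?_⟩
  have e2 : c - psh R (fun y : X => (a, y)) (psh R Prod.snd c) -
      dT R _ (-hop κ R (LocHom_H a) c) = -hop κ R (LocHom_H a) (dT R _ c) := by
    rw [map_neg, ← neg_sub _ c, ← h]
    abel
  rw [e2]
  exact neg_mem (hop_mem_CH κ _ hU hc)

theorem LocHom_vanish (κ : Kit) (a : ℝ) {U : Set (ℝ × X)}
    (hU : MapsTo (LocHom_H a) (Icc 0 1 ×ˢ U) U) (ha : ∀ y, (a, y) ∈ U) {c : Tot R (ℝ × X)}
    (hc : dT R _ c ∈ CH R U) : ∃ b, c - dT R _ b ∈ CH R U := by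
  obtain ⟨b, hb⟩ := LocHom_push κ a hU hc
  refine ⟨b, ?_⟩
  have h1 : psh R (fun y : X => (a, y)) (psh R Prod.snd c) ∈ CH R U :=
    psh_mem_CH _ (fun y _ => ha y) (mem_CH_univ _)
  have := add_mem hb h1
  rwa [sub_right_comm, sub_add_cancel] at this

/-- The path from `-1` to `1`. -/
noncomputable def LocHom_I (R : Type) [CommRing R] : Tot R ℝ :=
  pth R ⟨fun t => 2 * (t : ℝ) - 1, by fun_prop⟩

theorem LocHom_dcx (κ : Kit) (o : Tot R X) :
    dT R _ (κ.cx R ℝ X (LocHom_I R) o) = psh R (fun y : X => ((1 : ℝ), y)) o -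
      (psh R (fun y : X => ((-1 : ℝ), y)) o + κ.cx R ℝ X (LocHom_I R) (dT R X o)) := by
  have e : eps R ℝ (LocHom_I R) = -LocHom_I R := by
    rw [eps, LocHom_I, sgn_of_DG _ (pth_mem_DG _)]; simp
  have d : dT R ℝ (LocHom_I R) = pt R 1 - pt R (-1) := by
    rw [LocHom_I, dT_pth]
    norm_num
  rw [κ.leib, e, d, map_sub, LinearMap.sub_apply, κ.pt_x, κ.pt_x, map_neg, LinearMap.neg_apply]
  abel

theorem LocHom_susp (κ : Kit) [T1Space X] {x : X} {o : Tot R X} (h : LocHom_P x o) :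
    LocHom_P (((0 : ℝ), x) : ℝ × X) (κ.cx R ℝ X (LocHom_I R) o) := by
  let Up : Set (ℝ × X) := {p | p.1 < 0 ∨ p.2 ≠ x}
  let Um : Set (ℝ × X) := {p | 0 < p.1 ∨ p.2 ≠ x}
  let W : Set (ℝ × X) := {p | p.2 ≠ x}
  have hWo : IsOpen W := isOpen_ne.preimage continuous_snd
  have hUp : IsOpen Up := (isOpen_lt continuous_fst continuous_const).union hWo
  have hUm : IsOpen Um := (isOpen_lt continuous_const continuous_fst).union hWo
  have hU : ({((0 : ℝ), x)}ᶜ : Set (ℝ × X)) = Up ∪ Um := by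
    ext ⟨t, y⟩
    simp only [mem_compl_iff, mem_singleton_iff, Prod.mk.injEq, mem_union, mem_ofPred_eq, Up, Um]
    constructor
    · intro h
      by_cases hy : y = x
      · rcases lt_trichotomy t 0 with h1 | h1 | h1
        · exact Or.inl (Or.inl h1)
        · exact absurd ⟨h1, hy⟩ h
        · exact Or.inr (Or.inl h1)
      · exact Or.inl (Or.inr hy)
    · rintro ((h | h) | (h | h)) ⟨h1, h2⟩
      · exact h.ne h1
      · exact h h2
      · exact h.ne' h1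
      · exact h h2
  have hI : Up ∩ Um = W := by
    ext ⟨t, y⟩
    simp only [mem_inter_iff, mem_ofPred_eq, Up, Um, W]
    constructor
    · rintro ⟨h | h, h' | h'⟩
      · exact absurd h h'.asymm
      · exact h'
      · exact h
      · exact h
    · exact fun h => ⟨Or.inr h, Or.inr h⟩
  have hWp : CH R W ≤ CH R Up := CH_mono fun _ h => Or.inr h
  have hWm : CH R W ≤ CH R Um := CH_mono fun _ h => Or.inr h
  have hpU : CH R Up ≤ CH R (Up ∪ Um) := CH_mono subset_union_left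
  have hmU : CH R Um ≤ CH R (Up ∪ Um) := CH_mono subset_union_right
  have hW : ∀ c, c ∈ CH R Up → c ∈ CH R Um → c ∈ CH R W := fun c h1 h2 => by
    rw [← hI, CH_inter]
    exact ⟨h1, h2⟩
  have vp : ∀ c, dT R _ c ∈ CH R Up → ∃ b, c - dT R _ b ∈ CH R Up := fun c hc => by
    refine LocHom_vanish κ (-1) ?_ (fun y => Or.inl (by norm_num)) hc
    rintro ⟨s, t, y⟩ ⟨⟨h0, h1⟩, h | h⟩
    · refine Or.inl ?_
      change (1 - s) * t + s * -1 < 0
      change t < 0 at h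
      change 0 ≤ s at h0
      change s ≤ 1 at h1
      rcases h0.eq_or_lt with h0 | h0
      · rw [← h0]; linarith
      · nlinarith
    · exact Or.inr h
  have vm : ∀ c, dT R _ c ∈ CH R Um → ∃ b, c - dT R _ b ∈ CH R Um := fun c hc => by
    refine LocHom_vanish κ 1 ?_ (fun y => Or.inl (by norm_num)) hc
    rintro ⟨s, t, y⟩ ⟨⟨h0, h1⟩, h | h⟩
    · refine Or.inl ?_
      change 0 < (1 - s) * t + s * 1
      change 0 < t at h
      change 0 ≤ s at h0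
      change s ≤ 1 at h1
      rcases h0.eq_or_lt with h0 | h0
      · rw [← h0]; linarith
      · nlinarith
    · exact Or.inr h
  have msnd : MapsTo Prod.snd W ({x}ᶜ : Set X) := fun _ h => h
  have m1 : MapsTo (fun y : X => ((1 : ℝ), y)) ({x}ᶜ : Set X) W := fun _ h => h
  have c1 : Continuous fun y : X => ((1 : ℝ), y) := by fun_prop
  have o1 : psh R (fun y : X => ((1 : ℝ), y)) o ∈ CH R Um :=
    psh_mem_CH (B := Um) _ (fun y _ => Or.inl (by norm_num)) (mem_CH_univ o)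
  have o2 : psh R (fun y : X => ((-1 : ℝ), y)) o + κ.cx R ℝ X (LocHom_I R) (dT R X o) ∈
      CH R Up := by
    refine add_mem (psh_mem_CH (B := Up) _ (fun y _ => Or.inl (by norm_num)) (mem_CH_univ o)) ?_
    exact CH_mono (fun p hp => Or.inr hp.2) (κ.mem R ℝ X univ _ _ (mem_CH_univ _) _ h.cyc)
  have hd := LocHom_dcx κ o
  have hs : psh R Prod.snd (psh R (fun y : X => ((1 : ℝ), y)) o) = o := by
    rw [psh_psh' _ c1]
    exact psh_of_eqOn_id (fun _ _ => rfl) (mem_CH_univ o)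
  generalize psh R (fun y : X => ((-1 : ℝ), y)) o + κ.cx R ℝ X (LocHom_I R) (dT R X o) = q
    at o2 hd
  generalize κ.cx R ℝ X (LocHom_I R) o = O at hd
  refine ⟨?_, fun c hc => ?_, fun r b hb => ?_⟩
  · rw [hU, hd]
    exact sub_mem (hmU o1) (hpU o2)
  · rw [hU] at hc ⊢
    obtain ⟨m, hm⟩ := sdT_small_two hUp hUm hc
    obtain ⟨ap, hap, am, ham, hsum⟩ := Submodule.mem_sup.1 (hm m le_rfl)
    rw [← dT_sdT_pow] at hsum
    have hdam : dT R _ am ∈ CH R W := by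
      refine hW _ ?_ (dT_mem_CH ham)
      have : dT R _ am = -dT R _ ap := by
        rw [eq_neg_iff_add_eq_zero, add_comm, ← map_add, hsum, dT_dT]
      rw [this]
      exact neg_mem (dT_mem_CH hap)
    obtain ⟨b1, hb1⟩ := LocHom_push κ 1 (U := W) (fun _ hp => hp.2) hdam
    obtain ⟨r, b2, hb2⟩ := h.ex (psh R Prod.snd am) (by
      rw [dT_psh_cont continuous_snd]
      exact psh_mem_CH _ msnd hdam)
    have hb3 := psh_mem_CH _ m1 hb2
    rw [map_sub, map_sub, map_smul, ← dT_psh_cont c1] at hb3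
    have hw := add_mem hb1 hb3
    generalize psh R (fun y : X => ((1 : ℝ), y)) (psh R Prod.snd am) = z at hw
    generalize psh R (fun y : X => ((1 : ℝ), y)) b2 = b3 at hw
    generalize psh R (fun y : X => ((1 : ℝ), y)) o = O1 at hw hd o1
    have hb : dT R _ (b1 + b3) ∈ CH R Um := by
      have := sub_mem (sub_mem ham (Submodule.smul_mem _ r o1)) (hWm hw)
      rw [map_add]
      convert this using 1
      abel
    obtain ⟨e, he⟩ := vm _ hb
    have hc2 : dT R _ ((sdT R _ ^ m) c - r • O - (b1 + b3 - dT R _ e)) ∈ CH R Up := by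
      have := add_mem (add_mem hap (Submodule.smul_mem _ r o2)) (hWp hw)
      rw [map_sub, map_sub, map_sub, dT_dT, map_smul, hd, ← hsum, map_add, smul_sub]
      convert this using 1
      abel
    obtain ⟨e', he'⟩ := vp _ hc2
    refine ⟨r, sdHP R _ m c + e', ?_⟩
    have h3 := dT_sdHP m c
    have := add_mem (add_mem (hpU he') (hmU he)) (sdHP_mem_CH m hc)
    rw [map_add, eq_sub_of_add_eq h3]
    convert this using 1
    abel
  · rw [hU] at hb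
    obtain ⟨m, hm⟩ := sdT_small_two hUp hUm hb
    have h3 := dT_sdHP m (r • O - dT R _ b)
    have h4 : sdHP R _ m (dT R _ (r • O - dT R _ b)) ∈ CH R Up ⊔ CH R Um := by
      rw [map_sub, dT_dT, sub_zero, map_smul, hd, map_smul, map_sub]
      exact Submodule.smul_mem _ _ (sub_mem (Submodule.mem_sup_right (sdHP_mem_CH m o1))
        (Submodule.mem_sup_left (sdHP_mem_CH m o2)))
    obtain ⟨up, hup, um, hum, hsum⟩ := Submodule.mem_sup.1 (add_mem h4 (hm m le_rfl))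
    have h5 : dT R _ up + dT R _ um = r • psh R (fun y : X => ((1 : ℝ), y)) o - r • q := by
      rw [← map_add, hsum, eq_sub_of_add_eq' h3, sub_right_comm, sub_add_cancel, map_sub, map_sub,
        dT_dT, dT_dT, sub_zero, sub_zero, map_smul, hd, smul_sub]
    have h6 : r • psh R (fun y : X => ((1 : ℝ), y)) o - dT R _ um ∈ CH R W := by
      refine hW _ ?_ (sub_mem (Submodule.smul_mem _ _ o1) (dT_mem_CH hum))
      have := add_mem (dT_mem_CH hup) (Submodule.smul_mem _ r o2)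
      rw [eq_sub_of_add_eq h5] at this
      convert this using 1
      abel
    have h7 := psh_mem_CH Prod.snd msnd h6
    rw [map_sub, map_smul, hs, ← dT_psh_cont continuous_snd] at h7
    exact h.uniq r _ h7

end Aux

theorem LocHom_all (κ : Kit) (hCtr : CtrStmt) (n : ℕ) : ∃ o ∈ DG ℤ (E n) n,
    ∀ (R : Type) [CommRing R], LocHom_P (0 : E n) (castZ R _ o) := by
  induction n with
  | zero =>
    refine ⟨pt ℤ 0, pt_mem_DG _, fun R _ => ?_⟩
    rw [cast_pt]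
    exact LocHom_base hCtr 0
  | succ n ih =>
    obtain ⟨o, ho, h⟩ := ih
    have e : (ℝ × E n) ≃L[ℝ] E (n + 1) := ContinuousLinearEquiv.ofFinrankEq (by simp [add_comm])
    refine ⟨psh ℤ e.toHomeomorph (κ.cx ℤ ℝ (E n) (LocHom_I ℤ) o), psh_mem_DG _ ?_, fun R _ => ?_⟩
    · exact add_comm 1 n ▸ κ.dg ℤ ℝ (E n) 1 n _ (pth_mem_DG _) _ ho
    · have h1 := LocHom_homeo e.toHomeomorph (LocHom_susp κ (h R))
      have h2 : e.toHomeomorph (((0 : ℝ), (0 : E n)) : ℝ × E n) = 0 := map_zero e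
      rw [h2] at h1
      rw [cast_psh, κ.cst, LocHom_I, cast_pth]
      exact h1

theorem locHom_stmt (κ : Kit) (hCtr : CtrStmt) : LocHomStmt := by
  intro n
  obtain ⟨o, ho, h⟩ := LocHom_all κ hCtr n
  refine ⟨o, ho, ?_, fun R _ k c hc hd => ?_⟩
  · have e : castZ ℤ _ o = o := by
      ext σ
      rw [cast_apply]
      rfl
    have := (h ℤ).cyc
    rwa [e] at this
  · obtain ⟨r, b, hb⟩ := (h R).ex c hd
    refine ⟨fun hk => ⟨deg R _ (k + 1) b, ?_⟩, fun _ => ⟨r, ⟨b, hb⟩, ?_⟩⟩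
    · have := deg_mem_CH k hb
      rwa [map_sub, map_sub, map_smul, deg_of_mem hc, deg_eq_zero hk (cast_mem_DG _ ho),
        smul_zero, sub_zero, deg_dT] at this
    · rintro r' ⟨b', hb'⟩
      have := sub_mem hb hb'
      refine sub_eq_zero.1 ((h R).uniq (r' - r) (b - b') ?_)
      rw [sub_smul, map_sub]
      convert this using 1
      abel

end Pool.Agent.MP_bc14e1_gt

end

section

open Set Metric
open scoped Classical

namespace Pool.Agent.MP_bc14e1_gt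

section Alg

variable {G Y Y' A K : Type} [Group G] [MulAction G Y] [AddCommGroup A] [Group K] [MulAction K Y']

/-- The element `f` lies over `t ^ n` and shifts the level by `a`. -/
def Pack2_P (t : G) (τ : A ≃ₗ[ℤ] A) (q : Y' → Y) (l : Y' → A) (n : ℤ) (a : A) (f : K) : Prop :=
  ∀ y : Y', q (f • y) = t ^ n • q y ∧ l (f • y) = a + (τ ^ n) (l y)

variable {t : G} {τ : A ≃ₗ[ℤ] A} {q : Y' → Y} {l : Y' → A}

theorem Pack2_P.mul {n n' : ℤ} {a a' : A} {f f' : K} (h : Pack2_P t τ q l n a f)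
    (h' : Pack2_P t τ q l n' a' f') : Pack2_P t τ q l (n + n') (a + (τ ^ n) a') (f * f') := by
  intro y
  constructor
  · rw [mul_smul, (h _).1, (h' _).1, zpow_add, mul_smul]
  · rw [mul_smul, (h _).2, (h' _).2, map_add, zpow_add, LinearEquiv.mul_apply, add_assoc]

theorem Pack2_one : Pack2_P t τ q l 0 0 (1 : K) := by
  intro y
  simp

theorem Pack2_cancel (τ : A ≃ₗ[ℤ] A) (n : ℤ) (a : A) : (τ ^ (-n)) ((τ ^ n) a) = a := by
  rw [← LinearEquiv.mul_apply, ← zpow_add]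
  simp

theorem Pack2_P.inv {n : ℤ} {a : A} {f : K} (h : Pack2_P t τ q l n a f) :
    Pack2_P t τ q l (-n) (-(τ ^ (-n)) a) f⁻¹ := by
  intro y
  obtain ⟨h1, h2⟩ := h (f⁻¹ • y)
  rw [smul_inv_smul] at h1 h2
  constructor
  · rw [h1, zpow_neg, inv_smul_smul]
  · rw [h2, map_add, Pack2_cancel]
    abel

theorem Pack2_P.of_eq {n n' : ℤ} {a a' : A} {f : K} (h : Pack2_P t τ q l n a f) (hn : n = n')
    (ha : a = a') : Pack2_P t τ q l n' a' f := by
  subst hn ha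
  exact h

theorem Pack2_P.zpow {f : K} (h : Pack2_P t τ q l 1 0 f) (n : ℤ) :
    Pack2_P t τ q l n 0 (f ^ n) := by
  induction n using Int.induction_on with
  | zero => simpa using Pack2_one
  | succ n ih =>
    rw [zpow_add_one]
    exact (ih.mul h).of_eq rfl (by simp)
  | pred n ih =>
    rw [zpow_sub_one]
    exact (ih.mul h.inv).of_eq (by ring) (by simp)

theorem Pack2_P.pow {n : ℤ} {a : A} {f : K} (h : Pack2_P t τ q l n a f) (k : ℕ) :
    ∃ b, Pack2_P t τ q l (n * k) b (f ^ k) := by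
  induction k with
  | zero => exact ⟨0, by simpa using Pack2_one⟩
  | succ k ih =>
    obtain ⟨b, hb⟩ := ih
    rw [pow_succ]
    exact ⟨_, (hb.mul h).of_eq (by push_cast; ring) rfl⟩

/-- The group generated by the translations and the lift of `t`. -/
structure Pack2_S (t : G) (τ : A ≃ₗ[ℤ] A) (q : Y' → Y) (l : Y' → A) (j : Multiplicative A →* K)
    (t' : K) : Prop where
  hi : ∀ y y', q y = q y' → l y = l y' → y = y'
  faith : ∀ g g' : K, (∀ y : Y', g • y = g' • y) → g = g'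
  all : ∀ g : K, ∃ n a, Pack2_P t τ q l n a g
  pj : ∀ a, Pack2_P t τ q l 0 a (j (Multiplicative.ofAdd a))
  pt : Pack2_P t τ q l 1 0 t'

theorem Pack2_alg (t : G) (τ : A ≃ₗ[ℤ] A) (q : Y' → Y) (l : Y' → A)
    (hi : ∀ y y', q y = q y' → l y = l y' → y = y') (hs : ∀ x a, ∃ y, q y = x ∧ l y = a) :
    ∃ (H : Subgroup (Equiv.Perm Y')) (j : Multiplicative A →* H) (t' : H),
      Pack2_S t τ q l j t' := by
  let H : Subgroup (Equiv.Perm Y') :=
    { carrier := {f | ∃ n a, Pack2_P t τ q l n a f}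
      mul_mem' := fun ⟨_, _, h⟩ ⟨_, _, h'⟩ => ⟨_, _, h.mul h'⟩
      one_mem' := ⟨_, _, Pack2_one⟩
      inv_mem' := fun ⟨_, _, h⟩ => ⟨_, _, h.inv⟩ }
  have hb : Function.Bijective fun y => (q y, l y) :=
    ⟨fun y y' h => hi y y' (congrArg Prod.fst h) (congrArg Prod.snd h), fun x => by
      obtain ⟨y, h1, h2⟩ := hs x.1 x.2
      exact ⟨y, Prod.ext h1 h2⟩⟩
  have ex : ∀ n a, ∃ f : H, Pack2_P t τ q l n a f := by
    intro n a
    let e := Equiv.ofBijective _ hb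
    let f : Equiv.Perm Y' := (e.trans (Equiv.prodCongr (MulAction.toPerm (t ^ n))
      ((τ ^ n).toEquiv.trans (Equiv.addLeft a)))).trans e.symm
    have hf : Pack2_P t τ q l n a f := by
      intro y
      have : e (f y) = (t ^ n • q y, a + (τ ^ n) (l y)) := by
        simp only [f, Equiv.trans_apply, Equiv.apply_symm_apply]
        rfl
      exact ⟨congrArg Prod.fst this, congrArg Prod.snd this⟩
    exact ⟨⟨f, n, a, hf⟩, hf⟩
  choose el hel using ex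
  have faith : ∀ g g' : H, (∀ y : Y', g • y = g' • y) → g = g' :=
    fun g g' h => Subtype.ext (Equiv.ext h)
  have uniq : ∀ n a (g g' : H), Pack2_P t τ q l n a g → Pack2_P t τ q l n a g' → g = g' :=
    fun n a g g' h h' => faith g g' fun y =>
      hi _ _ ((h y).1.trans (h' y).1.symm) ((h y).2.trans (h' y).2.symm)
  refine ⟨H, MonoidHom.mk' (fun a => el 0 a.toAdd) fun a b => ?_, el 1 0, hi, faith,
    fun g => g.2, fun a => hel 0 a, hel 1 0⟩
  exact uniq 0 _ _ _ (hel 0 _) (((hel 0 _).mul (hel 0 _)).of_eq (by simp) (by simp))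

variable {j : Multiplicative A →* K} {t' : K}

theorem Pack2_S.uniq (S : Pack2_S t τ q l j t') {n : ℤ} {a : A} {g g' : K}
    (h : Pack2_P t τ q l n a g) (h' : Pack2_P t τ q l n a g') : g = g' :=
  S.faith g g' fun y => S.hi _ _ ((h y).1.trans (h' y).1.symm) ((h y).2.trans (h' y).2.symm)

theorem Pack2_S.nf (S : Pack2_S t τ q l j t') (n : ℤ) (a : A) :
    Pack2_P t τ q l n a (j (Multiplicative.ofAdd a) * t' ^ n) :=
  ((S.pj a).mul (S.pt.zpow n)).of_eq (by simp) (by simp)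

theorem Pack2_S.gen (S : Pack2_S t τ q l j t') (g : K) :
    ∃ (a : A) (n : ℤ), g = j (Multiplicative.ofAdd a) * t' ^ n := by
  obtain ⟨n, a, h⟩ := S.all g
  exact ⟨a, n, S.uniq h (S.nf n a)⟩

theorem Pack2_S.conj (S : Pack2_S t τ q l j t') (a : A) :
    t' * j (Multiplicative.ofAdd a) * t'⁻¹ = j (Multiplicative.ofAdd (τ a)) :=
  S.uniq (((S.pt.mul (S.pj a)).mul S.pt.inv).of_eq (by simp) (by simp)) (S.pj (τ a))

theorem Pack2_S.ptm (S : Pack2_S t τ q l j t') (m : ℕ) : Pack2_P t τ q l m 0 (t' ^ m) := by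
  simpa using S.pt.zpow m

theorem Pack2_S.cen (S : Pack2_S t τ q l j t') {m : ℕ} (hm : τ ^ m = 1) (g : K) :
    g * t' ^ m = t' ^ m * g := by
  obtain ⟨n, a, h⟩ := S.all g
  refine S.uniq (h.mul (S.ptm m)) (((S.ptm m).mul h).of_eq (add_comm _ _) ?_)
  simp [hm]

theorem Pack2_S.free (S : Pack2_S t τ q l j t') (hf : ∀ (n : ℤ) (y : Y), t ^ n • y = y → n = 0)
    (g : K) (y : Y') (h : g • y = y) : g = 1 := by
  obtain ⟨n, a, hg⟩ := S.all g
  obtain ⟨h1, h2⟩ := hg y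
  rw [h] at h1 h2
  obtain rfl := hf n _ h1.symm
  have : a = 0 := by simpa using h2
  subst this
  exact S.uniq hg Pack2_one

theorem Pack2_S.tr (S : Pack2_S t τ q l j t') {n : ℤ} {y y' : Y'} (h : q y' = t ^ n • q y) :
    ∃ a, y' = (j (Multiplicative.ofAdd a) * t' ^ n) • y := by
  refine ⟨l y' - (τ ^ n) (l y), S.hi _ _ ?_ ?_⟩
  · rw [(S.nf _ _ y).1, h]
  · rw [(S.nf _ _ y).2, sub_add_cancel]

theorem Pack2_S.fin [Finite A] (S : Pack2_S t τ q l j t') {m : ℕ} (hm : 0 < m) :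
    (Subgroup.zpowers (t' ^ m)).FiniteIndex := by
  have hm' : (0 : ℤ) < m := by exact_mod_cast hm
  have : Finite (K ⧸ Subgroup.zpowers (t' ^ m)) := by
    refine Finite.of_surjective (fun x : A × Fin m =>
      ((j (Multiplicative.ofAdd x.1) * t' ^ (x.2 : ℕ) : K) : K ⧸ Subgroup.zpowers (t' ^ m)))
      fun x => ?_
    obtain ⟨g, rfl⟩ := QuotientGroup.mk_surjective x
    obtain ⟨a, n, rfl⟩ := S.gen g
    have h0 : 0 ≤ n % m := Int.emod_nonneg _ hm'.ne'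
    have h1 : n % m < m := Int.emod_lt_of_pos _ hm'
    refine ⟨(a, ⟨(n % m).toNat, by omega⟩), ?_⟩
    refine QuotientGroup.eq.2 ⟨n / m, ?_⟩
    simp only
    rw [← zpow_natCast t' m, ← zpow_mul, ← zpow_natCast t' (n % m).toNat, Int.toNat_of_nonneg h0,
      mul_inv_rev, mul_assoc, inv_mul_cancel_left, ← zpow_neg, ← zpow_add]
    congr 1
    have := Int.emod_add_mul_ediv n m
    omega
  exact Subgroup.finiteIndex_of_finite_quotient

theorem Pack2_S.rot (S : Pack2_S t τ q l j t') (y : Y') {m : ℕ} (hm : τ ^ m = 1)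
    (hτ : ∀ a, τ a = a → a = 0) {n : ℤ} (hn : n = 1 ∨ n = -1) {a : A} {g : K}
    (h : Pack2_P t τ q l n a g) : g ^ m = t' ^ m ∨ g ^ m = (t' ^ m)⁻¹ := by
  obtain ⟨b, hb⟩ := h.pow m
  have h0 : τ ^ (n * m) = 1 := by rw [mul_comm, zpow_mul, zpow_natCast, hm, one_zpow]
  have h1 := (h.mul hb y).2
  have h2 := (hb.mul h y).2
  rw [← pow_succ'] at h1
  rw [← pow_succ, h1, add_comm n, h0] at h2
  have h3 : (τ ^ n) b = b := by
    have := add_right_cancel h2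
    rw [add_comm b] at this
    simpa using this
  have h4 : b = 0 := by
    apply hτ
    rcases hn with rfl | rfl
    · simpa using h3
    · have := Pack2_cancel τ (-1) b
      rw [h3] at this
      simpa using this
  subst h4
  rcases hn with rfl | rfl
  · exact Or.inl (S.uniq hb ((S.ptm m).of_eq (by simp) rfl))
  · exact Or.inr (S.uniq hb ((S.ptm m).inv.of_eq (by simp) (by simp)))

end Alg

theorem Pack2_alpha {G Y A : Type} [Group G] [TopologicalSpace Y] [MulAction G Y]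
    [ContinuousConstSMul G Y] [AddCommGroup A] {t : G} {τ : A ≃ₗ[ℤ] A} {α : Tot ℤ Y →+ A}
    (h : ∀ c, α (gs ℤ Y t c) = τ (α c)) (n : ℤ) (c : Tot ℤ Y) :
    α (gs ℤ Y (t ^ n) c) = (τ ^ n) (α c) := by
  have h' : ∀ c, α (gs ℤ Y t⁻¹ c) = τ⁻¹ (α c) := by
    intro c
    have := h (gs ℤ Y t⁻¹ c)
    rw [← gs_mul, mul_inv_cancel, gs_one] at this
    rw [this, ← LinearEquiv.mul_apply, inv_mul_cancel]
    rfl
  induction n using Int.induction_on generalizing c with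
  | zero => simp [gs_one]
  | succ n ih => rw [zpow_add_one, zpow_add_one, gs_mul, ih, h, LinearEquiv.mul_apply]
  | pred n ih => rw [zpow_sub_one, zpow_sub_one, gs_mul, ih, h', LinearEquiv.mul_apply]

theorem Pack2_sec {X Y Y' : Type} [TopologicalSpace X] [TopologicalSpace Y] [TopologicalSpace Y']
    {Z : Set X} {p : Y → X} {q : Y' → Y} (hq : Continuous q)
    (h : ∀ x ∈ Z, ∃ U, IsOpen U ∧ x ∈ U ∧ U ⊆ Z ∧ ∃ σ : X → Y, ContinuousOn σ U ∧
      (∀ x ∈ U, p (σ x) = x) ∧ IsOpen (σ '' U))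
    (h' : ∀ x ∈ (univ : Set Y), ∃ U, IsOpen U ∧ x ∈ U ∧ U ⊆ univ ∧ ∃ σ : Y → Y',
      ContinuousOn σ U ∧ (∀ x ∈ U, q (σ x) = x) ∧ IsOpen (σ '' U)) :
    ∀ x ∈ Z, ∃ U, IsOpen U ∧ x ∈ U ∧ U ⊆ Z ∧ ∃ σ : X → Y', ContinuousOn σ U ∧
      (∀ x ∈ U, (p ∘ q) (σ x) = x) ∧ IsOpen (σ '' U) := by
  intro x hx
  obtain ⟨U, hU, hxU, hUZ, σ, hσ, hp, ho⟩ := h x hx
  obtain ⟨V, hV, hxV, -, ρ, hρ, hq', ho'⟩ := h' (σ x) trivial
  refine ⟨U ∩ σ ⁻¹' V, hσ.isOpen_inter_preimage hU hV, ⟨hxU, hxV⟩, inter_subset_left.trans hUZ,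
    ρ ∘ σ, hρ.comp (hσ.mono inter_subset_left) fun x hx => hx.2, fun x hx => ?_, ?_⟩
  · simp only [Function.comp_apply]
    rw [hq' _ hx.2, hp _ hx.1]
  · have : (ρ ∘ σ) '' (U ∩ σ ⁻¹' V) = ρ '' V ∩ q ⁻¹' (σ '' U) := by
      ext y
      constructor
      · rintro ⟨x, hx, rfl⟩
        exact ⟨⟨σ x, hx.2, rfl⟩, x, hx.1, (hq' _ hx.2).symm⟩
      · rintro ⟨⟨v, hv, rfl⟩, x, hx, hxv⟩
        rw [hq' _ hv] at hxv
        subst hxv
        exact ⟨x, ⟨hx, hv⟩, rfl⟩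
    rw [this]
    exact ho'.inter (ho.preimage hq)

theorem pack2_stmt (B : Bas1) (hLocCtr : LocCtrStmt)
    (hExCov : ExCovStmt) (hP2a : P2aStmt) : Pack2Stmt := by
  intro X G Y A _ _ _ _ _ _ _ _ _ F φ p t l₀ τ m α₀ P hm hτm hτ h0 h1
  have hf : ∀ (n : ℤ) (y : Y), t ^ n • y = y → n = 0 :=
    fun n y h => P.tc.inf n (P.tc.cov.free _ y h)
  obtain ⟨α, hα0, hαd, hαk, hαt⟩ := hP2a G Y A t τ α₀ P.conn hf h0 h1
  obtain ⟨-, hloc, -, -, hT2⟩ := B.cov G X Y _ p P.tc.cov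
  have : T2Space Y := (hT2 inferInstance).1
  obtain ⟨Y', _, _, _, q, l, hc, hla, hol, hcont⟩ := hExCov Y A univ α (fun x _ => by
    obtain ⟨U, hU, -, hx⟩ := (hLocCtr X Y p hloc x univ Filter.univ_mem).2.1
    exact ⟨U, hU, subset_univ _, hx, fun y _ V hV => (hLocCtr X Y p hloc y V hV).2.2⟩)
    (fun c _ => hαd c) hαk
  obtain ⟨-, -, -, hsurj, hT2'⟩ := B.cov _ Y Y' _ q hc
  have hi : ∀ y y', q y = q y' → l y = l y' → y = y' := by
    intro y y' h h'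
    obtain ⟨g, rfl⟩ := hc.trans y y' h
    have h2 := hla g.toAdd y
    rw [ofAdd_toAdd, ← h'] at h2
    have h3 : g.toAdd = 0 := by simpa using h2
    have h4 : g = 1 := h3
    rw [h4, one_smul]
  have hs : ∀ x a, ∃ y, q y = x ∧ l y = a := by
    intro x a
    obtain ⟨y, rfl⟩ := hsurj x trivial
    exact ⟨Multiplicative.ofAdd (a - l y) • y, hc.inv _ _, by rw [hla, sub_add_cancel]⟩
  obtain ⟨H, j, t', S⟩ := Pack2_alg t τ q l hi hs
  obtain ⟨y₀, -⟩ := hs P.conn.nonempty.some 0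
  have hH : ContinuousConstSMul H Y' := by
    refine ⟨fun g => ?_⟩
    obtain ⟨n, a, hg⟩ := S.all g
    have e : q ∘ (fun y => g • y) = (fun y => t ^ n • y) ∘ q := funext fun y => (hg y).1
    refine hcont _ (by rw [e]; exact (continuous_const_smul _).comp hc.cont) fun γ => ?_
    rw [e, ← psh_psh' _ hc.cont, (hg _).2, (hg _).2, add_sub_add_left_eq_sub, ← map_sub]
    change _ = α (gs ℤ Y (t ^ n) _)
    rw [Pack2_alpha hαt, hol, dT_pth, map_sub (val0 ℤ l), val0_pt, val0_pt]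
  refine ⟨α, H, Y', inferInstance, inferInstance, (hT2' inferInstance).1, inferInstance, hH, q, j,
    t', l, ⟨⟨P.tc.flat, ⟨P.tc.cov.cont.comp hc.cont, fun g y => ?_, fun y => P.tc.cov.mem _,
      S.free hf, fun y y' h => ?_, Pack2_sec hc.cont P.tc.cov.sec hc.sec⟩, S.cen hτm,
      fun n h => ?_, S.fin hm, ?_⟩, ⟨hc.cont, ?_, fun _ => trivial, fun g y h => ?_,
      fun y y' h => ?_, hc.sec⟩, fun a b h => ?_, S.conj, S.gen, fun y => ?_, fun a y => ?_,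
      fun y => ?_, hol⟩, hα0⟩
  · obtain ⟨n, a, hg⟩ := S.all g
    simp only [Function.comp_apply]
    rw [(hg y).1, P.tc.cov.inv]
  · obtain ⟨g, hg⟩ := P.tc.cov.trans (q y) (q y') h
    obtain ⟨n, rfl⟩ := P.gen g
    obtain ⟨a, ha⟩ := S.tr hg
    exact ⟨_, ha⟩
  · rw [← zpow_natCast, ← zpow_mul] at h
    have h2 := (S.pt.zpow (m * n) y₀).1
    rw [h, one_smul] at h2
    have h3 := hf _ _ h2.symm
    rcases mul_eq_zero.1 h3 with h4 | h4
    · omega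
    · exact h4
  · obtain ⟨m₁, hm₁⟩ := P.tc.rot
    refine ⟨m, fun e z w he γ hγ => ?_⟩
    obtain ⟨g, hg, hg'⟩ := hm₁ e z w he (ContinuousMap.comp ⟨q, hc.cont⟩ γ) hγ
    obtain ⟨n, rfl⟩ := P.gen g
    obtain ⟨a, ha⟩ := S.tr (y := γ 0) (y' := γ 1) hg
    refine ⟨_, ha, S.rot y₀ hτm hτ ?_ (S.nf n a)⟩
    rw [← zpow_natCast, ← zpow_mul] at hg'
    rcases hg' with h | h
    · have h2 := P.tc.inf (n * m₁ - 1) (by rw [zpow_sub_one, h, mul_inv_cancel])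
      exact Int.eq_one_or_neg_one_of_mul_eq_one (sub_eq_zero.1 h2)
    · have h2 := P.tc.inf (n * m₁ + 1) (by rw [zpow_add_one, h, inv_mul_cancel])
      exact Int.eq_one_or_neg_one_of_mul_eq_neg_one (eq_neg_of_add_eq_zero_left h2)
  · rintro ⟨_, a, rfl⟩ y
    exact (S.pj a.toAdd y).1.trans (by simp)
  · exact Subtype.ext (S.free hf g.1 y h)
  · obtain ⟨a, ha⟩ := S.tr (n := 0) (y := y) (y' := y') (by simpa using h.symm)
    rw [zpow_zero, mul_one] at ha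
    exact ⟨⟨_, _, rfl⟩, ha⟩
  · have h2 := (S.pj a.toAdd y₀).2
    have h3 := (S.pj b.toAdd y₀).2
    rw [ofAdd_toAdd] at h2 h3
    rw [h, h3] at h2
    exact (add_right_cancel h2).symm
  · simpa using (S.pt y).1
  · simpa using (S.pj a y).2
  · simpa using (S.pt y).2

end Pool.Agent.MP_bc14e1_gt

end

section

open Set Metric
open scoped Classical

namespace Pool.Agent.MP_bc14e1_gt

/-- Reduction of Laurent polynomials modulo two. -/
noncomputable def Rank2a_red : Lam ℤ →+* Lam (ZMod 2) :=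
  AddMonoidAlgebra.mapRingHom ℤ (Int.castRingHom (ZMod 2))

theorem Rank2a_dvd (a : Lam ℤ) : (2 : Lam ℤ) ∣ a ↔ Rank2a_red a = 0 := by
  constructor
  · rintro ⟨b, rfl⟩
    have h : (2 : Lam (ZMod 2)) = 0 := by
      rw [← map_ofNat (LaurentPolynomial.C (R := ZMod 2)) 2]
      exact (congrArg LaurentPolynomial.C (by decide)).trans (map_zero _)
    rw [map_mul, map_ofNat, h, zero_mul]
  · intro h
    refine ⟨AddMonoidAlgebra.ofCoeff (a.coeff.mapRange (· / 2) (by simp)), ?_⟩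
    rw [two_mul]
    ext m
    have h1 : ((a.coeff m : ℤ) : ZMod 2) = 0 := by
      have := congrArg (fun x : Lam (ZMod 2) => x.coeff m) h
      simpa [Rank2a_red] using this
    have h2 := (ZMod.intCast_zmod_eq_zero_iff_dvd _ 2).1 h1
    simp only [AddMonoidAlgebra.coeff_add, Finsupp.add_apply, Finsupp.mapRange_apply]
    omega

theorem Rank2a_prime : Prime (2 : Lam ℤ) := by
  refine ⟨?_, fun h => ?_, fun a b h => ?_⟩
  · rw [← map_ofNat (algebraMap ℤ (Lam ℤ)) 2]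
    exact fun h => by
      have := congrArg (fun x : Lam ℤ => x.coeff 0) h
      simp at this
  · have := (Rank2a_dvd 1).1 h.dvd
    rw [map_one] at this
    exact one_ne_zero this
  · rw [Rank2a_dvd, map_mul, mul_eq_zero] at h
    rwa [Rank2a_dvd, Rank2a_dvd]

theorem Rank2a_surj (a : Lam (ZMod 2)) : ∃ b, Rank2a_red b = a := by
  refine ⟨AddMonoidAlgebra.ofCoeff (a.coeff.mapRange (ZMod.cast : ZMod 2 → ℤ) (by simp)), ?_⟩
  ext m
  simp [Rank2a_red]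

section

variable {G Y : Type} [Group G] [TopologicalSpace Y] [MulAction G Y] [ContinuousConstSMul G Y]

theorem Rank2a_cast_act (s : G) (a : Lam ℤ) (c : Tot ℤ Y) :
    castZ (ZMod 2) Y (act ℤ Y s a c) =
      act (ZMod 2) Y s (Rank2a_red a) (castZ (ZMod 2) Y c) := by
  induction a using LaurentPolynomial.induction_on' with
  | add p q hp hq => simp only [map_add, LinearMap.add_apply, hp, hq]
  | C_mul_T n a =>
    have h : Rank2a_red (LaurentPolynomial.C a * LaurentPolynomial.T n) =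
        LaurentPolynomial.C (a : ZMod 2) * LaurentPolynomial.T n := by
      rw [← LaurentPolynomial.single_eq_C_mul_T, ← LaurentPolynomial.single_eq_C_mul_T]
      exact AddMonoidAlgebra.mapRingHom_single _ _ _
    rw [h, map_mul, map_mul, Module.End.mul_apply, Module.End.mul_apply, act_C, act_C, act_T,
      act_T, map_smulₛₗ, gs, gs, cast_psh]
    rfl

theorem Rank2a_gs_apply (g : G) : ∃ π : TS Y → TS Y, ∀ (R : Type) [CommRing R] (c : Tot R Y)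
    (τ : TS Y), gs R Y g c τ = c (π τ) := by
  let m : G → TS Y → TS Y := fun g σ =>
    ⟨σ.1, ⟨(fun y : Y => g • y) ∘ σ.2, (continuous_const_smul g).comp σ.2.continuous⟩⟩
  have hm : ∀ g σ, m g⁻¹ (m g σ) = σ := by
    rintro g ⟨k, σ⟩
    refine congrArg (Sigma.mk k) ?_
    ext t
    exact inv_smul_smul g (σ t)
  refine ⟨m g⁻¹, fun R _ c τ => ?_⟩
  induction c using Finsupp.induction_linear with
  | zero => simp
  | add a b ha hb => simp only [map_add, Finsupp.add_apply, ha, hb]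
  | single σ a =>
    rw [gs, psh_single _ σ ((continuous_const_smul g).comp σ.2.continuous)]
    change Finsupp.single (m g σ) a τ = _
    have h : m g σ = τ ↔ σ = m g⁻¹ τ := by
      refine ⟨fun h => by rw [← h, hm], fun h => ?_⟩
      have := hm g⁻¹ τ
      rwa [inv_inv, ← h] at this
    simp only [Finsupp.single_apply, h]

theorem Rank2a_half (D : Tot ℤ Y) (h : castZ (ZMod 2) Y D = 0) :
    ∃ w : Tot ℤ Y, D = (2 : ℤ) • w := by
  refine ⟨D.mapRange (· / 2) (by simp), ?_⟩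
  ext σ
  have h1 : ((D σ : ℤ) : ZMod 2) = 0 := DFunLike.congr_fun h σ
  have h2 := (ZMod.intCast_zmod_eq_zero_iff_dvd _ 2).1 h1
  simp only [Finsupp.smul_apply, Finsupp.mapRange_apply, smul_eq_mul]
  omega

/-- Invariant cycles. -/
def Rank2a_inv (Y : Type) [TopologicalSpace Y] [MulAction G Y] (B : Set G) :
    Submodule ℤ (Tot ℤ Y) where
  carrier := {c | c ∈ ZC ℤ univ 2 ∧ ∀ g ∈ B, gs ℤ Y g c = c}
  add_mem' ha hb := ⟨add_mem ha.1 hb.1, fun g hg => by rw [map_add, ha.2 g hg, hb.2 g hg]⟩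
  zero_mem' := ⟨zero_mem _, fun g _ => map_zero _⟩
  smul_mem' r _ h := ⟨Submodule.smul_mem _ _ h.1, fun g hg => by rw [map_smul, h.2 g hg]⟩

omit [ContinuousConstSMul G Y] in
theorem Rank2a_of_two {B : Set G} {w : Tot ℤ Y} (h : (2 : ℤ) • w ∈ Rank2a_inv Y B) :
    w ∈ Rank2a_inv Y B := by
  have hi : Function.Injective fun x : Tot ℤ Y => (2 : ℤ) • x :=
    smul_right_injective _ two_ne_zero
  refine ⟨⟨⟨mem_CH_univ _, (Finsupp.mem_supported' ℤ _).2 fun σ hσ => ?_⟩, hi ?_⟩,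
    fun g hg => hi ?_⟩
  · simpa using (Finsupp.mem_supported' ℤ _).1 h.1.1.2 σ hσ
  · simpa using h.1.2
  · simpa using h.2 g hg

end

theorem rank2a_stmt (B : Bas1) (hDrop : DropStmt) : Rank2aStmt := by
  intro G Y _ _ _ _ s Γ n hs hfg hdep z hz
  have := B.laur.2.1 ℤ
  let Bd : Submodule (Lam ℤ) (Tw ℤ Y s) := twSub (BC ℤ univ 2) (by
    rintro m _ ⟨b, hb, rfl⟩
    exact ⟨gs ℤ Y _ b, ⟨mem_CH_univ _, gs_mem_DG _ hb.2⟩, dT_gs _ _⟩)
  let Iv : Submodule (Lam ℤ) (Tw ℤ Y s) := twSub (Rank2a_inv Y Γ) (by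
    intro m c hc
    refine ⟨⟨⟨mem_CH_univ _, gs_mem_DG _ hc.1.1.2⟩, ?_⟩, fun g hg => ?_⟩
    · change dT ℤ Y _ = 0
      rw [dT_gs, show dT ℤ Y c = 0 from hc.1.2, map_zero]
    · rw [← gs_mul, (Commute.zpow_right (hs g) m).eq, gs_mul, hc.2 g hg])
  have hsum : ∀ {k : ℕ} (a : Fin k → Lam ℤ) (c : Fin k → Tot ℤ Y),
      ∑ i, a i • toTw ℤ Y s (c i) = toTw ℤ Y s (∑ i, act ℤ Y s (a i) (c i)) := by
    intro k a c
    rw [map_sum]
    rfl
  have hfin : Module.Finite (Lam ℤ) (Iv.map Bd.mkQ) := by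
    obtain ⟨k, y, -, hy⟩ := hfg
    refine Module.Finite.iff_fg.2 (Submodule.FG.of_le (Submodule.fg_span
      (finite_range fun i => Bd.mkQ (toTw ℤ Y s (y i)))) ?_)
    rintro _ ⟨c, hc, rfl⟩
    obtain ⟨a, ha⟩ := hy c hc.1
    have h1 : Bd.mkQ c = Bd.mkQ (∑ i, a i • toTw ℤ Y s (y i)) := by
      rw [hsum]
      exact (Submodule.Quotient.eq Bd).2 ha
    rw [h1, map_sum]
    refine Submodule.sum_mem _ fun i _ => ?_
    rw [map_smul]
    exact Submodule.smul_mem _ _ (Submodule.subset_span ⟨i, rfl⟩)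
  obtain ⟨a, ha, h⟩ := hDrop (Lam ℤ) (Iv.map Bd.mkQ) 2 n Rank2a_prime (fun x => by
    have hx : ∀ i, ∃ c : Tot ℤ Y, c ∈ Rank2a_inv Y Γ ∧ Bd.mkQ (toTw ℤ Y s c) = x i :=
      fun i => (x i).2
    choose c hc hcx using hx
    obtain ⟨a', ha', b', hb', hb1, hb2⟩ := hdep (fun i => castZ (ZMod 2) Y (c i)) fun i =>
      ⟨⟨⟨mem_CH_univ _, cast_mem_DG _ (hc i).1.1.2⟩, by
        change dT (ZMod 2) Y _ = 0
        rw [← cast_dT, show dT ℤ Y (c i) = 0 from (hc i).1.2, map_zero]⟩,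
      fun g hg => by rw [gs, ← cast_psh, ← gs, (hc i).2 g hg]⟩
    choose a ha using fun i => Rank2a_surj (a' i)
    let b : Tot ℤ Y := b'.mapRange (ZMod.cast : ZMod 2 → ℤ) (by simp)
    have e1 : castZ (ZMod 2) Y b = b' := by
      ext σ
      simp [cast_apply, b]
    have e2 : b ∈ DG ℤ Y 3 := (Finsupp.mem_supported' ℤ _).2 fun σ hσ => by
      simp [b, (Finsupp.mem_supported' _ _).1 hb' σ hσ]
    have e3 : ∀ g ∈ Γ, gs ℤ Y g b = b := fun g hg => by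
      obtain ⟨π, hπ⟩ := Rank2a_gs_apply (Y := Y) g
      ext τ
      rw [hπ]
      simp only [b, Finsupp.mapRange_apply]
      rw [← hπ, hb1 g hg]
    obtain ⟨w, hw⟩ := Rank2a_half (∑ i, act ℤ Y s (a i) (c i) - dT ℤ Y b) (by
      rw [map_sub, map_sum, cast_dT, e1, ← hb2]
      simp only [Rank2a_cast_act, ha, sub_self])
    have e4 : w ∈ Rank2a_inv Y Γ := by
      refine Rank2a_of_two (hw ▸ sub_mem (Submodule.sum_mem _ fun i _ => ?_) ?_)
      · exact Iv.smul_mem (a i) (hc i)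
      · exact ⟨⟨⟨mem_CH_univ _, dT_mem_DG e2⟩, dT_dT b⟩, fun g hg => by rw [← dT_gs, e3 g hg]⟩
    refine ⟨a, ?_, ⟨Bd.mkQ (toTw ℤ Y s w), _, e4, rfl⟩, Subtype.ext ?_⟩
    · by_contra h
      push Not at h
      exact ha' (funext fun i => (ha i).symm.trans ((Rank2a_dvd _).1 (h i)))
    · rw [Submodule.coe_sum]
      simp only [Submodule.coe_smul, ← hcx, ← map_smul]
      rw [← map_sum, hsum, two_smul, ← map_add, ← two_zsmul, ← hw]
      refine (Submodule.Quotient.eq Bd).2 ?_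
      rw [← map_sub, sub_sub_cancel]
      exact ⟨b, ⟨mem_CH_univ _, e2⟩, rfl⟩)
    fun i => ⟨Bd.mkQ (toTw ℤ Y s (z i)), _, hz i, rfl⟩
  refine ⟨a, ha, ?_⟩
  have h1 := congrArg Subtype.val h
  rw [Submodule.coe_sum] at h1
  simp only [Submodule.coe_smul, ← map_smul] at h1
  rw [← map_sum, hsum] at h1
  exact (Submodule.Quotient.mk_eq_zero Bd).1 h1

end Pool.Agent.MP_bc14e1_gt

end

section

open Set Metric
open scoped Classical

namespace Pool.Agent.MP_bc14e1_gt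

section
variable {V A : Type} [AddCommGroup V] [Module ℂ V] [AddCommGroup A]
  {b : V →ₗ[ℂ] V →ₗ⋆[ℂ] ℂ}

/-- A family on whose span the form is positive definite. -/
def Tower_Pos (b : V →ₗ[ℂ] V →ₗ⋆[ℂ] ℂ) {ι : Type} [Fintype ι] (v : ι → V) : Prop :=
  ∀ a : ι → ℂ, a ≠ 0 → 0 < (b (∑ i, a i • v i) (∑ i, a i • v i)).re

theorem Tower_symm (hh : ∀ u v, starRingEnd ℂ (b u v) = b v u) {u v : V} (h : b u v = 0) :
    b v u = 0 := by
  rw [← hh, h, map_zero]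

theorem Tower_dim {ι : Type} [Fintype ι] {m : ℕ} (hm : Fintype.card ι = m)
    (hh : ∀ u v, starRingEnd ℂ (b u v) = b v u) {Inv : V → Prop} {v : ι → V}
    (hv : ∀ i, Inv (v i)) (hp : Tower_Pos b v)
    (hd : ∀ z : Fin (m + 1) → V, (∀ i, Inv (z i)) →
      ∃ a : Fin (m + 1) → ℂ, a ≠ 0 ∧ ∀ u, b (∑ i, a i • z i) u = 0) {w : V} (hw : Inv w) :
    0 ≤ (b w w).re ∧ ((b w w).re = 0 → ∀ u, b w u = 0) := by
  have e : Option ι ≃ Fin (m + 1) := Fintype.equivFinOfCardEq (by rw [Fintype.card_option, hm])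
  obtain ⟨a, ha, h⟩ := hd (fun i => (e.symm i).elim w v) fun i => by
    cases e.symm i with
    | none => exact hw
    | some j => exact hv j
  have hs : ∑ i, a i • (e.symm i).elim w v = a (e none) • w + ∑ j, a (e (some j)) • v j := by
    rw [← e.sum_comp, Fintype.sum_option]
    simp only [Equiv.symm_apply_apply, Option.elim_none, Option.elim_some]
  rw [hs] at h
  have h0 : a (e none) ≠ 0 := fun h0 => by
    have h1 : (fun j => a (e (some j))) ≠ 0 := fun h1 => ha (funext fun i => by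
      obtain ⟨o, rfl⟩ := e.surjective i
      cases o with
      | none => exact h0
      | some j => exact congrFun h1 j)
    have h2 := hp _ h1
    rw [h0, zero_smul, zero_add] at h
    rw [h] at h2
    exact lt_irrefl _ h2
  obtain ⟨c, hc⟩ : ∃ c : ι → ℂ, ∀ u, b w u = b (∑ j, c j • v j) u := by
    refine ⟨fun j => -(a (e none))⁻¹ * a (e (some j)), fun u => ?_⟩
    have h1 := h u
    rw [map_add, LinearMap.add_apply, map_smul, LinearMap.smul_apply, smul_eq_mul] at h1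
    simp only [mul_smul]
    rw [← Finset.smul_sum, map_smul, LinearMap.smul_apply, smul_eq_mul]
    field_simp
    linear_combination h1
  have h1 : b w w = b (∑ j, c j • v j) (∑ j, c j • v j) := by rw [hc, ← hh, hc, hh]
  by_cases h2 : c = 0
  · have h3 : ∀ u, b w u = 0 := fun u => by simp [hc, h2]
    exact ⟨by simp [h3], fun _ => h3⟩
  · have h3 := hp c h2
    rw [← h1] at h3
    exact ⟨h3.le, fun h4 => absurd h4 h3.ne'⟩

theorem Tower_surj {ι : Type} [Fintype ι] (v : ι → V) (S : Submodule ℂ V) (T : V →ₗ[ℂ] V)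
    (h : ∀ c : ι → ℂ, (∀ x ∈ S, b (T x) (∑ i, c i • v i) = 0) → c = 0) :
    ∃ x : ι → V, (∀ i, x i ∈ S) ∧ ∀ i j, b (T (x i)) (v j) = if i = j then 1 else 0 := by
  obtain ⟨Φ, hΦ⟩ : ∃ Φ : V →ₗ[ℂ] ι → ℂ, ∀ x j, Φ x j = b (T x) (v j) :=
    ⟨LinearMap.pi fun j => (b.flip (v j)).comp T, fun _ _ => rfl⟩
  have ht : S.map Φ = ⊤ := by
    by_contra hn
    obtain ⟨f, hf, hk⟩ := Submodule.exists_le_ker_of_lt_top _ (lt_top_iff_ne_top.2 hn)
    have h1 := h (fun i => starRingEnd ℂ (f fun j => if i = j then 1 else 0)) fun x hx => by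
      have h2 : f (Φ x) = 0 := hk ⟨x, hx, rfl⟩
      rw [LinearMap.pi_apply_eq_sum_univ] at h2
      rw [map_sum]
      refine (Finset.sum_congr rfl fun i _ => ?_).trans h2
      rw [LinearMap.map_smulₛₗ, Complex.conj_conj, hΦ, smul_eq_mul, smul_eq_mul, mul_comm]
    refine hf (LinearMap.ext fun y => ?_)
    rw [LinearMap.pi_apply_eq_sum_univ]
    refine Finset.sum_eq_zero fun i _ => ?_
    rw [(map_eq_zero _).1 (congrFun h1 i), smul_zero]
  have h1 : ∀ i : ι, ∃ x ∈ S, Φ x = fun j => if i = j then 1 else 0 := fun i =>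
    (ht ▸ Submodule.mem_top : _ ∈ S.map Φ)
  choose x hx hx' using h1
  exact ⟨x, hx, fun i j => by rw [← hΦ, hx']⟩

theorem Tower_step {ι : Type} [Fintype ι] [Finite A] (r : A → V →ₗ[ℂ] V)
    (hr : ∀ a a' x, r (a + a') x = r a (r a' x)) (hh : ∀ u v, starRingEnd ℂ (b u v) = b v u)
    (hi : ∀ a u v, b (r a u) (r a v) = b u v) {B' B : AddSubgroup A} (hle : B' ≤ B) {s : A}
    (hs : s ∈ B) (hs' : s ∉ B') (hB : ∀ a ∈ B, a + s ∈ B' ∨ a ∈ B') {M₁ M₂ : Submodule ℂ V}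
    (h1 : ∀ a ∈ B', ∀ x ∈ M₁, r a x ∈ M₁) (h2 : ∀ x ∈ M₁, r s x ∈ M₂)
    (h3 : ∀ x ∈ M₂, r s x ∈ M₁) (h4 : ∀ x ∈ M₁, ∀ y ∈ M₂, b x y = 0)
    (h5 : ∀ u, (∀ x ∈ M₁, b u x = 0) → ∃ u' ∈ M₂, ∀ v, b (u - u') v = 0) {v : ι → V}
    (hv : ∀ i, ∀ a ∈ B, r a (v i) = v i) (hp : Tower_Pos b v)
    (hd : ∀ w, (∀ a ∈ B, r a w = w) → 0 ≤ (b w w).re ∧ ((b w w).re = 0 → ∀ u, b w u = 0)) :
    ∃ x : ι ⊕ ι → V, (∀ i, ∀ a ∈ B', r a (x i) = x i) ∧ Tower_Pos b x := by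
  have := Fintype.ofFinite B'
  have hc : ∀ a a' x, r a (r a' x) = r a' (r a x) := fun a a' x => by rw [← hr, ← hr, add_comm]
  have hss : s + s ∈ B' := (hB s hs).resolve_right hs'
  obtain ⟨M, hM⟩ : ∃ M : Submodule ℂ V, ∀ x, x ∈ M ↔ x ∈ M₁ ∧ ∀ a ∈ B', r a x = x :=
    ⟨{ carrier := {x | x ∈ M₁ ∧ ∀ a ∈ B', r a x = x}
       add_mem' := fun hx hy => ⟨add_mem hx.1 hy.1, fun a ha => by
         rw [map_add, hx.2 a ha, hy.2 a ha]⟩
       zero_mem' := ⟨zero_mem _, fun a _ => map_zero _⟩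
       smul_mem' := fun c x hx => ⟨M₁.smul_mem c hx.1, fun a ha => by
         rw [map_smul, hx.2 a ha]⟩ }, fun _ => Iff.rfl⟩
  obtain ⟨T, hT⟩ : ∃ T : V →ₗ[ℂ] V, ∀ x, T x = x + r s x := ⟨LinearMap.id + r s, fun _ => rfl⟩
  have hTi : ∀ x ∈ M, ∀ a ∈ B, r a (T x) = T x := fun x hx a ha => by
    have hx' := ((hM x).1 hx).2
    rw [hT, map_add]
    rcases hB a ha with h | h
    · have e : r a x = r s x := by
        conv_lhs => rw [← hx' _ hss, hr, hc a s, ← hr a s, hx' _ h]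
      rw [e, ← hr, hx' _ h, add_comm]
    · rw [hc a s, hx' a h]
  have hTb : ∀ x ∈ M, b (T x) (T x) = 2 * b x x := fun x hx => by
    have hx' := ((hM x).1 hx).1
    have e := h4 x hx' _ (h2 x hx')
    simp only [hT, map_add, LinearMap.add_apply]
    rw [hi, e, Tower_symm hh e]
    ring
  have hA : ∀ w, (∀ a ∈ B, r a w = w) → (∀ x ∈ M, b (T x) w = 0) → ∀ u, b w u = 0 := by
    intro w hw h0
    have a1 : ∀ a ∈ B, ∀ x, b w (r a x) = b w x := fun a ha x => by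
      conv_lhs => rw [← hw a ha, hi]
    have a2 : ∀ x ∈ M, b w x = 0 := fun x hx => by
      have e := Tower_symm hh (h0 x hx)
      rw [hT, map_add, a1 s hs] at e
      linear_combination e / 2
    have a3 : ∀ x ∈ M₁, b w x = 0 := fun x hx => by
      have e := a2 (∑ a : B', r a x) ((hM _).2 ⟨Submodule.sum_mem _ fun a _ => h1 a a.2 x hx,
        fun a ha => by
          rw [map_sum, ← Equiv.sum_comp (Equiv.addLeft (⟨a, ha⟩ : B')) fun a' : B' => r a' x]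
          exact Finset.sum_congr rfl fun a' _ => (hr _ _ _).symm⟩)
      rw [map_sum, Finset.sum_congr rfl fun (a : B') _ => a1 a (hle a.2) x, Finset.sum_const,
        Finset.card_univ, nsmul_eq_mul] at e
      exact (mul_eq_zero.1 e).resolve_left (Nat.cast_ne_zero.2 Fintype.card_ne_zero)
    obtain ⟨u', hu', e⟩ := h5 w a3
    have a4 : b w u' = 0 := by rw [← a1 s hs, a3 _ (h3 u' hu')]
    have a5 := e w
    rw [map_sub, LinearMap.sub_apply, Tower_symm hh a4, sub_zero] at a5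
    exact (hd w hw).2 (by rw [a5, Complex.zero_re])
  obtain ⟨x, hx, hx'⟩ := Tower_surj (b := b) v M T fun c h0 => by
    by_contra hn
    have e := hp c hn
    rw [hA _ (fun a ha => by simp only [map_sum, map_smul, hv _ a ha]) h0] at e
    exact lt_irrefl _ e
  have hm : ∀ c : ι → ℂ, ∑ i, c i • x i ∈ M := fun c =>
    Submodule.sum_mem _ fun i _ => M.smul_mem _ (hx i)
  have hpx : Tower_Pos b x := fun c hn => by
    obtain ⟨a1, a2⟩ := hd _ (hTi _ (hm c))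
    rw [hTb _ (hm c)] at a1 a2
    simp only [Complex.mul_re, Complex.re_ofNat, Complex.im_ofNat, zero_mul, sub_zero] at a1 a2
    refine lt_of_le_of_ne (by linarith) fun e => hn (funext fun j => ?_)
    have a3 := a2 (by rw [← e, mul_zero]) (v j)
    simpa [map_sum, hx'] using a3
  have hnn : ∀ c : ι → ℂ, 0 ≤ (b (∑ i, c i • x i) (∑ i, c i • x i)).re := fun c => by
    by_cases h0 : c = 0
    · simp [h0]
    · exact (hpx c h0).le
  refine ⟨Sum.elim x fun i => r s (x i), ?_, fun c hn => ?_⟩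
  · rintro (i | i) a ha
    · exact ((hM _).1 (hx i)).2 a ha
    · exact (hc a s _).trans (congrArg _ (((hM _).1 (hx i)).2 a ha))
  · have e : ∑ i, c i • Sum.elim x (fun i => r s (x i)) i =
        ∑ i, c (.inl i) • x i + r s (∑ i, c (.inr i) • x i) := by
      simp only [Fintype.sum_sum_type, Sum.elim_inl, Sum.elim_inr, map_sum, map_smul]
    have e2 := h4 _ ((hM _).1 (hm fun i => c (.inl i))).1 _
      (h2 _ ((hM _).1 (hm fun i => c (.inr i))).1)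
    rw [e, map_add, map_add, LinearMap.add_apply, LinearMap.add_apply, hi, e2, Tower_symm hh e2,
      add_zero, zero_add, Complex.add_re]
    by_cases h0 : (fun i => c (.inl i)) = 0
    · refine add_pos_of_nonneg_of_pos (hnn _) (hpx _ fun h0' => hn (funext ?_))
      rintro (i | i)
      · exact congrFun h0 i
      · exact congrFun h0' i
    · exact add_pos_of_pos_of_nonneg (hpx _ h0) (hnn _)

theorem Tower_up [Finite A] {r : ℕ} (hA : Nat.card A = 2 ^ r) {B' : AddSubgroup A}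
    (hB : B' ≠ ⊤) : ∃ B : AddSubgroup A, B' ≤ B ∧ B'.relIndex B = 2 := by
  have := Fintype.ofFinite (A ⧸ B')
  have h1 : 2 ∣ B'.index := by
    obtain ⟨k, -, hk⟩ := (Nat.dvd_prime_pow Nat.prime_two).1 (hA ▸ B'.index_dvd_card)
    cases k with
    | zero => exact absurd (AddSubgroup.index_eq_one.1 hk) hB
    | succ k => exact hk ▸ dvd_pow_self 2 k.succ_ne_zero
  obtain ⟨g, hg⟩ := exists_prime_addOrderOf_dvd_card (G := A ⧸ B') 2
    (by rwa [← Nat.card_eq_fintype_card])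
  obtain ⟨s, rfl⟩ := QuotientAddGroup.mk_surjective g
  have h2 : s ∉ B' := fun h => by
    rw [(QuotientAddGroup.eq_zero_iff s).2 h, addOrderOf_zero] at hg
    exact absurd hg (by norm_num)
  have h3 : s + s ∈ B' := by
    rw [← QuotientAddGroup.eq_zero_iff, QuotientAddGroup.mk_add, ← two_nsmul, ← hg]
    exact addOrderOf_nsmul_eq_zero _
  refine ⟨{ carrier := {x | x + s ∈ B' ∨ x ∈ B'}
            add_mem' := ?_
            zero_mem' := Or.inr B'.zero_mem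
            neg_mem' := ?_ }, fun x hx => Or.inr hx,
    AddSubgroup.relIndex_eq_two_iff_exists_notMem_and.2 ⟨s, Or.inl h3, h2, fun x hx => hx⟩⟩
  · rintro x y (hx | hx) (hy | hy)
    · exact Or.inr (by convert sub_mem (add_mem hx hy) h3 using 1; abel)
    · exact Or.inl (by convert add_mem hx hy using 1; abel)
    · exact Or.inl (by convert add_mem hx hy using 1; abel)
    · exact Or.inr (add_mem hx hy)
  · rintro x (hx | hx)
    · exact Or.inl (by convert sub_mem h3 hx using 1; abel)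
    · exact Or.inr (neg_mem hx)

end

theorem tower_stmt : TowerStmt := by
  intro V A _ _ _ _ b ρ n r hA hh hi ⟨v0, hv0, hp0⟩ hd hsp
  have key : ∀ (k : ℕ) (B : AddSubgroup A), B.index = k → ∃ (ι : Type) (_ : Fintype ι)
      (v : ι → V), Fintype.card ι = B.index * n ∧
        (∀ i, ∀ a ∈ B, ρ (Multiplicative.ofAdd a) (v i) = v i) ∧ Tower_Pos b v := by
    intro k
    induction k using Nat.strong_induction_on with
    | _ k ih =>
      intro B' hk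
      by_cases hB : B' = ⊤
      · exact ⟨Fin n, inferInstance, v0, by simp [hB], fun i a _ => hv0 i _, hp0⟩
      obtain ⟨B, hle, hr⟩ := Tower_up hA hB
      have h1 := AddSubgroup.relIndex_mul_index hle
      have h2 : B.index ≠ 0 := AddSubgroup.index_ne_zero_of_finite
      rw [hr] at h1
      obtain ⟨ι, _, v, hc, hv, hp⟩ := ih B.index (by omega) B rfl
      obtain ⟨M₁, M₂, m1, m2, m3, m4, m5⟩ := hsp B' B hle hr
      obtain ⟨s, hs, hs', hB⟩ := AddSubgroup.relIndex_eq_two_iff_exists_notMem_and.1 hr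
      obtain ⟨x, hx, hx'⟩ := Tower_step (fun a => ρ (Multiplicative.ofAdd a))
        (fun a a' x => by rw [ofAdd_add, map_mul, Module.End.mul_apply]) hh (fun a => hi _) hle
        hs hs' hB m1 (m2 s hs hs') (m3 s hs hs') m4 m5 hv hp
        fun w hw => Tower_dim (Inv := fun w => ∀ a ∈ B, ρ (Multiplicative.ofAdd a) w = w) hc hh
          hv hp (hd B) hw
      exact ⟨ι ⊕ ι, inferInstance, x, by rw [Fintype.card_sum, hc, ← h1]; ring, hx, hx'⟩
  obtain ⟨ι, _, v, hc, hv, hp⟩ := key _ ⊥ rfl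
  intro w
  refine (Tower_dim (Inv := fun w => ∀ a ∈ (⊥ : AddSubgroup A),
    ρ (Multiplicative.ofAdd a) w = w) hc hh hv hp (hd ⊥) fun a ha => ?_).1
  rw [AddSubgroup.mem_bot.1 ha, ofAdd_zero, map_one, Module.End.one_apply]

end Pool.Agent.MP_bc14e1_gt

end

section

/-! Statements: the linking form on the algebraic shadow. -/

open Set Metric
open scoped Classical

namespace Pool.Agent.MP_bc14e1_gt

noncomputable section

section

variable {C : Type} [AddCommGroup C] [Module (Lam ℂ) C] (d : C →ₗ[Lam ℂ] C)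
  (M : ℕ → Set ℝ → Submodule (Lam ℂ) C) (l : C → C → Lam ℂ) (ζ : Circle)

/-- Cycles over the shell that are zero modulo `T - ζ`. -/
def PB : Submodule (Lam ℂ) C := (ZN d M).map (LinearMap.lsmul (Lam ℂ) C (piL ζ)) ⊔ BN d M

/-- Cycles over the shell whose class is killed by `T - ζ`. -/
def TN : Submodule (Lam ℂ) C := ZN d M ⊓ (BN d M).comap (LinearMap.lsmul (Lam ℂ) C (piL ζ))

/-- Two-chains over the shell that are cycles modulo `T - ζ`. -/
def QN : Submodule (Lam ℂ) C :=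
  M 2 (Ioo (-1) 1) ⊓ (LinearMap.range (LinearMap.lsmul (Lam ℂ) C (piL ζ))).comap d

/-- The pairing of a one-cycle with a two-cycle modulo `T - ζ`. -/
def Pk (y c : C) (r : ℂ) : Prop :=
  ∃ a b : ℝ, -1 < a ∧ b < 1 ∧ c ∈ M 2 (Icc a b) ∧ ∃ e ∈ M 2 (Iio 1), ∃ y₁ ∈ M 1 (Ioo b 1),
    ∃ y₂ ∈ M 1 (Iio a), ∃ a₀ ∈ M 1 (Iio 1), y - y₁ ∈ PB d M ζ ∧ d e = y₁ + y₂ + piL ζ • a₀ ∧
      r = evL ζ (l e c)

structure PkF (P : C → C → ℂ) : Prop where
  spec : ∀ y ∈ ZN d M, ∀ c ∈ QN d M ζ, ∀ r, Pk d M l ζ y c r ↔ r = P y c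
  add_left : ∀ y ∈ ZN d M, ∀ y' ∈ ZN d M, ∀ c ∈ QN d M ζ, P (y + y') c = P y c + P y' c
  smul_left : ∀ a : Lam ℂ, ∀ y ∈ ZN d M, ∀ c ∈ QN d M ζ, P (a • y) c = evL ζ a * P y c
  add_right : ∀ y ∈ ZN d M, ∀ c ∈ QN d M ζ, ∀ c' ∈ QN d M ζ, P y (c + c') = P y c + P y c'
  smul_right : ∀ a : Lam ℂ, ∀ y ∈ ZN d M, ∀ c ∈ QN d M ζ,
    P y (a • c) = starRingEnd ℂ (evL ζ a) * P y c
  zero_left : ∀ y ∈ PB d M ζ, ∀ c ∈ QN d M ζ, P y c = 0
  zero_d : ∀ y ∈ ZN d M, ∀ w ∈ M 3 (Ioo (-1) 1), P y (d w) = 0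
  zero_pi : ∀ y ∈ ZN d M, ∀ w ∈ M 2 (Ioo (-1) 1), P y (piL ζ • w) = 0

end

/-- Cycles modulo `T - ζ` in the half pair trivially with those over the shell. -/
def KeyStmt : Prop :=
  ∀ (C : Type) [AddCommGroup C] [Module (Lam ℂ) C] (d : C →ₗ[Lam ℂ] C)
    (M : ℕ → Set ℝ → Submodule (Lam ℂ) C) (l : C → C → Lam ℂ) (ζ : Circle), IsAS d M l →
    (∀ z ∈ M 2 (Iio 1), (∃ a, d z = piL ζ • a) → ∀ c ∈ QN d M ζ, evL ζ (l z c) = 0) ∧
    (∀ z ∈ M 2 (Iio 1), d z = 0 → ∀ q ∈ M 2 (Ioo (-1) 1), d q = 0 → l z q = 0) ∧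
    (∀ a b : ℝ, -1 ≤ a → a < b → b ≤ 1 → ∀ y ∈ ZN d M, ∃ y' ∈ M 1 (Ioo a b), y - y' ∈ BN d M ∧
      ∀ g : Lam ℂ, g • y ∈ BN d M → ∃ c ∈ M 2 (Ioo a b), d c = g • y') ∧
    (∀ a b : ℝ, -1 ≤ a → a < b → b ≤ 1 → ∀ y ∈ M 1 (Ioo a b), y ∈ BN d M →
      ∃ c ∈ M 2 (Ioo a b), d c = y) ∧
    (∀ b : ℝ, -1 < b → b ≤ 1 → ∀ y ∈ M 1 (Iio b), ∀ e ∈ M 2 (Iio 1), ∀ a ∈ M 1 (Iio 1),
      ∀ g : Lam ℂ, g ≠ 0 → y = d e + g • a →
      ∃ e' ∈ M 2 (Iio b), ∃ a' ∈ M 1 (Iio b), y = d e' + g • a') ∧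
    (∀ k, ∀ c ∈ M k (Ioo (-1) 1), ∃ a b : ℝ, -1 < a ∧ a < b ∧ b < 1 ∧ c ∈ M k (Ioo a b)) ∧
    ∀ k, ∀ c ∈ M k (Iio 1), ∃ b : ℝ, -1 < b ∧ b < 1 ∧ c ∈ M k (Iio b)

def PkStmt : Prop :=
  ∀ (C : Type) [AddCommGroup C] [Module (Lam ℂ) C] (d : C →ₗ[Lam ℂ] C)
    (M : ℕ → Set ℝ → Submodule (Lam ℂ) C) (l : C → C → Lam ℂ) (ζ : Circle), IsAS d M l →
    ∃ P, PkF d M l ζ P

/-- The linking form is nonsingular. -/
def NSStmt : Prop :=
  ∀ (C : Type) [AddCommGroup C] [Module (Lam ℂ) C] (d : C →ₗ[Lam ℂ] C)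
    (M : ℕ → Set ℝ → Submodule (Lam ℂ) C) (l : C → C → Lam ℂ) (ζ : Circle) (P : C → C → ℂ),
    IsAS d M l → H0N d M → ζ ≠ 1 → PkF d M l ζ P → ∀ x ∈ ZN d M, x ∉ BN d M →
    ∀ c ∈ M 2 (Ioo (-1) 1), d c = piL ζ • x → ∃ y ∈ ZN d M, P y c ≠ 0

/-- Torsion classes pair trivially with cycles, and the linking form is hermitian. -/
def HerStmt : Prop :=
  ∀ (C : Type) [AddCommGroup C] [Module (Lam ℂ) C] (d : C →ₗ[Lam ℂ] C)
    (M : ℕ → Set ℝ → Submodule (Lam ℂ) C) (l : C → C → Lam ℂ) (ζ : Circle) (P : C → C → ℂ),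
    IsAS d M l → PkF d M l ζ P →
    (∀ y ∈ TN d M ζ, ∀ q ∈ M 2 (Ioo (-1) 1), d q = 0 → P y q = 0) ∧
    ∀ x ∈ ZN d M, ∀ y ∈ ZN d M, ∀ c ∈ M 2 (Ioo (-1) 1), ∀ c' ∈ M 2 (Ioo (-1) 1),
      d c = piL ζ • x → d c' = piL ζ • y →
      P y c = -((ζ⁻¹ : Circle) : ℂ) ^ 2 * starRingEnd ℂ (P x c')

/-- Classes that die in the half are isotropic. -/
def IsoStmt : Prop :=
  ∀ (C : Type) [AddCommGroup C] [Module (Lam ℂ) C] (d : C →ₗ[Lam ℂ] C)
    (M : ℕ → Set ℝ → Submodule (Lam ℂ) C) (l : C → C → Lam ℂ) (ζ : Circle) (P : C → C → ℂ),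
    IsAS d M l → PkF d M l ζ P → ∀ x ∈ ZN d M, x ∈ (M 2 (Iio 1)).map d →
    ∀ y ∈ TN d M ζ, y ∈ (M 2 (Iio 1)).map d → ∀ c ∈ M 2 (Ioo (-1) 1), d c = piL ζ • x → P y c = 0

def SkewStmt : Prop :=
  ∀ (C : Type) [AddCommGroup C] [Module (Lam ℂ) C] (d : C →ₗ[Lam ℂ] C)
    (M : ℕ → Set ℝ → Submodule (Lam ℂ) C) (l : C → C → Lam ℂ) (ζ : Circle) (P : C → C → ℂ)
    (J : C →+ C), IsAS d M l → PkF d M l ζ P → JInv d M l J → ∀ x ∈ ZN d M,
    ∀ c ∈ M 2 (Ioo (-1) 1), d c = piL ζ • x → P (J x) c = 0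

/-- Restriction to the image of a projector. -/
def RestrStmt : Prop :=
  ∀ (C : Type) [AddCommGroup C] [Module (Lam ℂ) C] (d : C →ₗ[Lam ℂ] C)
    (M : ℕ → Set ℝ → Submodule (Lam ℂ) C) (l : C → C → Lam ℂ) (e : C →ₗ[Lam ℂ] C) (ζ : Circle)
    (x : C), IsAS d M l → H0N d M → Proj d M l e → Len1 d M e ζ x →
    ∃ (C' : Type) (_ : AddCommGroup C') (_ : Module (Lam ℂ) C') (d' : C' →ₗ[Lam ℂ] C')
      (M' : ℕ → Set ℝ → Submodule (Lam ℂ) C') (l' : C' → C' → Lam ℂ) (x' : C'),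
      IsAS d' M' l' ∧ H0N d' M' ∧ Len1 d' M' LinearMap.id ζ x'

/-- The generator dies in the half. -/
def CoStmt : Prop :=
  ∀ (C : Type) [AddCommGroup C] [Module (Lam ℂ) C] (d : C →ₗ[Lam ℂ] C)
    (M : ℕ → Set ℝ → Submodule (Lam ℂ) C) (l : C → C → Lam ℂ) (ζ : Circle) (x : C),
    IsAS d M l → ζ ≠ 1 → Len1 d M LinearMap.id ζ x → x ∈ (M 2 (Iio 1)).map d

end

end Pool.Agent.MP_bc14e1_gt

end

section

open Set Metric
open scoped Classical

namespace Pool.Agent.MP_bc14e1_gt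

section

variable {C : Type} [AddCommGroup C] [Module (Lam ℂ) C] {d : C →ₗ[Lam ℂ] C}
  {M : ℕ → Set ℝ → Submodule (Lam ℂ) C} {l : C → C → Lam ℂ}

/-- A deformation in a convenient form. -/
theorem Key_retr (A : IsAS d M l) {J' J : Set ℝ} (h : Retr d M J' J) :
    ∃ r H : C →ₗ[Lam ℂ] C, (∀ k, ∀ c ∈ M k J', r c ∈ M k J) ∧
      (∀ k, ∀ c ∈ M k J', H c ∈ M (k + 1) J') ∧ (∀ k, ∀ c ∈ M k J, H c ∈ M (k + 1) J) ∧
      (∀ k, ∀ c ∈ M k J', c = r c + d (H c) + H (d c)) ∧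
      ∀ k, ∀ c ∈ M (k + 1) J', d (r c) = r (d c) := by
  obtain ⟨r, H, h⟩ := h
  refine ⟨r, H, fun k c hc => ((h k).1 c hc).1, fun k c hc => ((h k).1 c hc).2.1,
    fun k => (h k).2, fun k c hc => ?_, fun k c hc => ?_⟩
  · rw [add_assoc, ((h k).1 c hc).2.2, add_sub_cancel]
  · have e1 := congrArg d ((h (k + 1)).1 c hc).2.2
    have e2 := ((h k).1 _ (A.d_mem k _ c hc)).2.2
    rw [map_add, A.dd, zero_add, map_sub] at e1
    rw [A.dd, map_zero, add_zero, e1] at e2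
    exact sub_right_injective e2

theorem Key_up {J : Set ℝ} (hJ : IsCompact J) (h : J ⊆ Iio 1) :
    ∃ b : ℝ, 0 < b ∧ b < 1 ∧ J ⊆ Iio b := by
  obtain ⟨m, hm, hmax⟩ := (hJ.insert 0).exists_isMaxOn (insert_nonempty _ _) continuousOn_id
  have h1 : m < 1 := by
    rcases hm with rfl | hm
    · exact one_pos
    · exact h hm
  have h0 : (0 : ℝ) ≤ m := hmax (mem_insert _ _)
  refine ⟨(m + 1) / 2, by linarith, by linarith, fun t ht => ?_⟩
  have : t ≤ m := hmax (mem_insert_of_mem _ ht)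
  rw [mem_Iio]
  linarith

theorem Key_lo {J : Set ℝ} (hJ : IsCompact J) (h : J ⊆ Ioi (-1)) :
    ∃ a : ℝ, -1 < a ∧ a < 0 ∧ J ⊆ Ioi a := by
  obtain ⟨b, h0, h1, hb⟩ := Key_up hJ.neg fun t ht => by
    have := h ht
    rw [mem_Ioi] at this
    rw [mem_Iio]
    linarith
  refine ⟨-b, by linarith, by linarith, fun t ht => ?_⟩
  have := hb (show -t ∈ -J by simpa using ht)
  rw [mem_Iio] at this
  rw [mem_Ioi]
  linarith

theorem Key_six (A : IsAS d M l) (k : ℕ) (c : C) (hc : c ∈ M k (Ioo (-1) 1)) :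
    ∃ a b : ℝ, -1 < a ∧ a < b ∧ b < 1 ∧ c ∈ M k (Ioo a b) := by
  obtain ⟨J, hJ, hK, hc⟩ := A.cpt k _ c hc
  obtain ⟨a, ha, ha0, hJa⟩ := Key_lo hK (hJ.trans Ioo_subset_Ioi_self)
  obtain ⟨b, hb0, hb, hJb⟩ := Key_up hK (hJ.trans Ioo_subset_Iio_self)
  exact ⟨a, b, ha, ha0.trans hb0, hb, A.mono k J (Ioo a b) (fun t ht => ⟨hJa ht, hJb ht⟩) hc⟩

theorem Key_seven (A : IsAS d M l) (k : ℕ) (c : C) (hc : c ∈ M k (Iio 1)) :
    ∃ b : ℝ, -1 < b ∧ b < 1 ∧ c ∈ M k (Iio b) := by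
  obtain ⟨J, hJ, hK, hc⟩ := A.cpt k _ c hc
  obtain ⟨b, hb0, hb, hJb⟩ := Key_up hK hJ
  exact ⟨b, by linarith, hb, A.mono k _ _ hJb hc⟩

theorem Key_pair (A : IsAS d M l) {z : C} (hz : z ∈ M 2 (Iio 1)) :
    ∃ H : C →ₗ[Lam ℂ] C, ∀ c ∈ M 2 (Ioo (-1) 1), l z c = l (d z) (H c) + l z (H (d c)) := by
  obtain ⟨b, hb, hb1, hz⟩ := Key_seven A 2 z hz
  obtain ⟨r, H, h1, -, -, h4, -⟩ := Key_retr A (A.retrN (-1) b 1 1 le_rfl hb.le hb1 le_rfl le_rfl)
  refine ⟨H, fun c hc => ?_⟩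
  have hS := A.loc.1
  have h0 : l z (r c) = 0 := A.loc.2 _ _ _ _
    (disjoint_left.2 fun t ht ht' => lt_asymm ht ht'.1) _ hz _ (h1 2 c hc)
  rw [A.stokes, ← zero_add (l z (d (H c))), ← h0, ← hS.add_right, ← hS.add_right, ← h4 2 c hc]

end

theorem key_stmt (hLaur : LaurStmt) : KeyStmt := by
  intro C _ _ d M l ζ A
  obtain ⟨-, -, -, -, -, -, -, hcj, hev, -⟩ := hLaur
  have hS := A.loc.1
  refine ⟨?_, fun z hz hdz q hq hdq => ?_, fun a b ha hab hb y hy => ?_,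
    fun a b ha hab hb y hy hB => ?_, fun b hb hb1 y hy e he a ha g hg h => ?_, Key_six A,
    Key_seven A⟩
  · rintro z hz ⟨a, ha⟩ c ⟨hc, y, hy⟩
    obtain ⟨H, hH⟩ := Key_pair A hz
    have hπ : evL ζ (piL ζ) = 0 := (hev ζ _).2 dvd_rfl
    have hy' : d c = piL ζ • y := hy.symm
    rw [hH c hc, ha, hy', map_smul, hS.smul_left, hS.smul_right, map_add, map_mul, map_mul, hcj,
      hπ, map_zero, zero_mul, zero_mul, add_zero]
  · obtain ⟨H, hH⟩ := Key_pair A hz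
    rw [hH q hq, hdz, hdq, map_zero, ← zero_smul (Lam ℂ) (0 : C), hS.smul_left, hS.smul_right,
      map_zero, zero_mul, zero_mul, add_zero]
  · obtain ⟨r, H, h1, h2, -, h4, h5⟩ := Key_retr A (A.retrN (-1) a b 1 le_rfl ha hab hb le_rfl)
    have hdy : d y = 0 := hy.2
    refine ⟨r y, h1 1 y hy.1, ⟨H y, h2 1 y hy.1, ?_⟩, ?_⟩
    · have := h4 1 y hy.1
      rw [hdy, map_zero, add_zero] at this
      rw [eq_sub_iff_add_eq', ← this]
    · rintro g ⟨c, hc, e⟩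
      exact ⟨r c, h1 2 c hc, by rw [h5 1 c hc, e, map_smul]⟩
  · obtain ⟨r, H, h1, -, h3, h4, h5⟩ := Key_retr A (A.retrN (-1) a b 1 le_rfl ha hab hb le_rfl)
    obtain ⟨c, hc, rfl⟩ := hB
    refine ⟨r c + H (d c), add_mem (h1 2 c hc) (h3 1 _ hy), ?_⟩
    have := h4 1 _ (A.d_mem 1 _ c hc)
    rw [A.dd, map_zero, add_zero] at this
    rw [map_add, h5 1 c hc, ← this]
  · obtain ⟨r, H, h1, -, h3, h4, h5⟩ := Key_retr A (A.retrV b 1 hb hb1 le_rfl)
    have hd : d y = g • d a := by rw [h, map_add, A.dd, zero_add, map_smul]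
    have hda : d a ∈ M 0 (Iio b) := A.tf g hg _ _ _ (hd ▸ A.d_mem 0 _ y hy)
    refine ⟨r e + H y, add_mem (h1 2 e he) (h3 1 y hy), r a + H (d a),
      add_mem (h1 1 a ha) (h3 0 _ hda), ?_⟩
    have e1 := h4 1 y (A.mono 1 _ _ (Iio_subset_Iio hb1) hy)
    have e2 : r y = d (r e) + g • r a := by rw [h5 1 e he, ← map_smul, ← map_add, ← h]
    rw [hd, map_smul, e2] at e1
    rw [map_add, smul_add]
    refine e1.trans ?_
    abel

end Pool.Agent.MP_bc14e1_gt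

end

section

open Set Metric
open scoped Classical

namespace Pool.Agent.MP_bc14e1_gt

section

variable {C : Type} [AddCommGroup C] [Module (Lam ℂ) C] {d : C →ₗ[Lam ℂ] C}
  {M : ℕ → Set ℝ → Submodule (Lam ℂ) C} {l : C → C → Lam ℂ} {ζ : Circle}

variable (d M ζ) in
/-- A chain `e` whose boundary is a copy of `y` above `b` up to a chain below `a`. -/
def Pk_Dat (a b : ℝ) (y e : C) : Prop :=
  e ∈ M 2 (Iio 1) ∧ ∃ y₁ ∈ M 1 (Ioo b 1), ∃ y₂ ∈ M 1 (Iio a), ∃ a₀ ∈ M 1 (Iio 1),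
    y - y₁ ∈ PB d M ζ ∧ d e = y₁ + y₂ + piL ζ • a₀

theorem Pk_add {a b : ℝ} {y y' e e' : C} (h : Pk_Dat d M ζ a b y e)
    (h' : Pk_Dat d M ζ a b y' e') : Pk_Dat d M ζ a b (y + y') (e + e') := by
  obtain ⟨he, y₁, h1, y₂, h2, a₀, h3, h4, h5⟩ := h
  obtain ⟨he', y₁', h1', y₂', h2', a₀', h3', h4', h5'⟩ := h'
  refine ⟨add_mem he he', y₁ + y₁', add_mem h1 h1', y₂ + y₂', add_mem h2 h2', a₀ + a₀',
    add_mem h3 h3', ?_, ?_⟩
  · rw [add_sub_add_comm]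
    exact add_mem h4 h4'
  · rw [map_add, h5, h5', smul_add]
    abel

theorem Pk_smul {a b : ℝ} {y e : C} (h : Pk_Dat d M ζ a b y e) (g : Lam ℂ) :
    Pk_Dat d M ζ a b (g • y) (g • e) := by
  obtain ⟨he, y₁, h1, y₂, h2, a₀, h3, h4, h5⟩ := h
  refine ⟨Submodule.smul_mem _ g he, g • y₁, Submodule.smul_mem _ g h1, g • y₂,
    Submodule.smul_mem _ g h2, g • a₀, Submodule.smul_mem _ g h3, ?_, ?_⟩
  · rw [← smul_sub]
    exact Submodule.smul_mem _ g h4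
  · rw [map_smul, h5, smul_add, smul_add, smul_comm g (piL ζ)]

theorem Pk_mono (hA : IsAS d M l) {a b a' b' : ℝ} {y e : C} (h : Pk_Dat d M ζ a b y e)
    (ha : a ≤ a') (hb : b' ≤ b) : Pk_Dat d M ζ a' b' y e := by
  obtain ⟨he, y₁, h1, y₂, h2, a₀, h3, h4, h5⟩ := h
  exact ⟨he, y₁, hA.mono _ _ _ (Ioo_subset_Ioo_left hb) h1, y₂,
    hA.mono _ _ _ (Iio_subset_Iio ha) h2, a₀, h3, h4, h5⟩

theorem Pk_PB_le (hA : IsAS d M l) : PB d M ζ ≤ ZN d M := by
  refine sup_le ?_ ?_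
  · rintro _ ⟨z, hz, rfl⟩
    exact Submodule.smul_mem _ _ hz
  · rintro _ ⟨w, hw, rfl⟩
    exact ⟨hA.d_mem 1 _ w hw, hA.dd w⟩

theorem Pk_exists (hKey : KeyStmt) (hA : IsAS d M l) {a b : ℝ} (ha : -1 < a) (hab : a < b)
    (hb : b < 1) {y : C} (hy : y ∈ ZN d M) : ∃ e, Pk_Dat d M ζ a b y e := by
  obtain ⟨-, -, k3, -⟩ := hKey C d M l ζ hA
  obtain ⟨y₁, h1, h1', -⟩ := k3 b 1 (by linarith) hb le_rfl y hy
  obtain ⟨y₂, h2, h2', -⟩ := k3 (-1) a le_rfl ha (by linarith) y hy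
  obtain ⟨e, he, hde⟩ := sub_mem h2' h1'
  refine ⟨e, hA.mono _ _ _ Ioo_subset_Iio_self he, y₁, h1, -y₂,
    neg_mem (hA.mono _ _ _ Ioo_subset_Iio_self h2), 0, zero_mem _, Submodule.mem_sup_right h1', ?_⟩
  rw [hde, smul_zero]
  abel

theorem Pk_vanish (hLaur : LaurStmt) (hKey : KeyStmt) (hA : IsAS d M l) {a b : ℝ} (ha : -1 < a)
    (hb : b < 1) {e c : C} (h : Pk_Dat d M ζ a b 0 e) (hc : c ∈ QN d M ζ)
    (hc' : c ∈ M 2 (Icc a b)) : evL ζ (l e c) = 0 := by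
  obtain ⟨he, y₁, h1, y₂, h2, a₀, h3, h4, h5⟩ := h
  rcases lt_or_ge b a with hab | hab
  · rw [Icc_eq_empty_of_lt hab] at hc'
    rw [hA.loc.2 2 2 _ _ (disjoint_empty _) e he c hc', map_zero]
  obtain ⟨k1, -, k3, k4, k5, -⟩ := hKey C d M l ζ hA
  have hπ : piL ζ ≠ 0 := (hLaur.2.2.2.2.2.2.2.2.2.1 ζ).ne_zero
  rw [zero_sub, neg_mem_iff] at h4
  obtain ⟨_, ⟨z, hz, rfl⟩, w, hw, hy⟩ := Submodule.mem_sup.1 h4
  rw [LinearMap.lsmul_apply] at hy
  obtain ⟨z', hz', hzz, -⟩ := k3 b 1 (by linarith) hb le_rfl z hz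
  obtain ⟨w₁, hw₁, hdw⟩ := k4 b 1 (by linarith) hb le_rfl (y₁ - piL ζ • z')
    (sub_mem h1 (Submodule.smul_mem _ _ hz')) (by
      have e1 : y₁ - piL ζ • z' = piL ζ • (z - z') + w := by
        rw [← hy, smul_sub]
        abel
      rw [e1]
      exact add_mem (Submodule.smul_mem _ _ hzz) hw)
  have hw₁' : w₁ ∈ M 2 (Iio 1) := hA.mono _ _ _ Ioo_subset_Iio_self hw₁
  obtain ⟨e', he', a', -, hy₂⟩ := k5 a ha (by linarith) y₂ h2 (e - w₁) (sub_mem he hw₁')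
    (-(a₀ + z')) (neg_mem (add_mem h3 (hA.mono _ _ _ Ioo_subset_Iio_self hz'))) (piL ζ) hπ (by
      rw [map_sub, h5, hdw, smul_neg, smul_add]
      abel)
  have h6 := k1 (e - w₁ - e')
    (sub_mem (sub_mem he hw₁') (hA.mono _ _ _ (Iio_subset_Iio (by linarith)) he'))
    ⟨a₀ + z' + a', by
      rw [map_sub, map_sub, h5, hdw, hy₂, smul_add, smul_add]
      abel⟩ c hc
  have e2 : e = e - w₁ - e' + e' + w₁ := by abel
  rw [e2, hA.loc.1.add_left, hA.loc.1.add_left,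
    hA.loc.2 2 2 _ _ (disjoint_left.2 fun t h h' => not_le.2 h h'.1) e' he' c hc',
    hA.loc.2 2 2 _ _ (disjoint_left.2 fun t h h' => not_le.2 h.1 h'.2) w₁ hw₁ c hc', add_zero,
    add_zero, h6]

theorem Pk_unique (hLaur : LaurStmt) (hKey : KeyStmt) (hA : IsAS d M l) {y c : C}
    (hc : c ∈ QN d M ζ) {r r' : ℂ} (h : Pk d M l ζ y c r) (h' : Pk d M l ζ y c r') : r = r' := by
  obtain ⟨a, b, ha, hb, hab, e, he, y₁, h1, y₂, h2, a₀, h3, h4, h5, rfl⟩ := h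
  obtain ⟨a', b', ha', hb', hab', e', he', y₁', h1', y₂', h2', a₀', h3', h4', h5', rfl⟩ := h'
  have D : Pk_Dat d M ζ (max a a') (min b b') y e :=
    Pk_mono hA ⟨he, y₁, h1, y₂, h2, a₀, h3, h4, h5⟩ (le_max_left _ _) (min_le_left _ _)
  have D' : Pk_Dat d M ζ (max a a') (min b b') y e' :=
    Pk_mono hA ⟨he', y₁', h1', y₂', h2', a₀', h3', h4', h5'⟩ (le_max_right _ _) (min_le_right _ _)
  have D0 := Pk_add D (Pk_smul D' (-1))
  rw [neg_one_smul, add_neg_cancel] at D0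
  have h6 := Pk_vanish hLaur hKey hA (lt_max_of_lt_left ha) (min_lt_of_left_lt hb) D0 hc
    (by rw [← Icc_inter_Icc]; exact hA.inter 2 _ _ ⟨hab, hab'⟩)
  rw [hA.loc.1.add_left, hA.loc.1.smul_left, neg_one_mul, map_add, map_neg] at h6
  exact add_neg_eq_zero.1 h6

end

theorem pk_stmt (hLaur : LaurStmt) (hKey : KeyStmt) : PkStmt := by
  intro C _ _ d M l ζ hA
  have hS := hA.loc.1
  have hcj := hLaur.2.2.2.2.2.2.2.1 ζ
  have hπ : evL ζ (piL ζ) = 0 := (hLaur.2.2.2.2.2.2.2.2.1 ζ _).2 dvd_rfl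
  have k6 : ∀ k, ∀ c ∈ M k (Ioo (-1) 1), ∃ a b : ℝ, -1 < a ∧ a < b ∧ b < 1 ∧ c ∈ M k (Icc a b) :=
    fun k c hc => by
      obtain ⟨a, b, ha, hab, hb, h⟩ := (hKey C d M l ζ hA).2.2.2.2.2.1 k c hc
      exact ⟨a, b, ha, hab, hb, hA.mono _ _ _ Ioo_subset_Icc_self h⟩
  have mk : ∀ {a b : ℝ} {y c e : C}, -1 < a → b < 1 → c ∈ M 2 (Icc a b) → Pk_Dat d M ζ a b y e →
      Pk d M l ζ y c (evL ζ (l e c)) := by
    rintro a b y c e ha hb hc ⟨he, y₁, h1, y₂, h2, a₀, h3, h4, h5⟩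
    exact ⟨a, b, ha, hb, hc, e, he, y₁, h1, y₂, h2, a₀, h3, h4, h5, rfl⟩
  let P : C → C → ℂ := fun y c => Classical.epsilon (Pk d M l ζ y c)
  have F : ∀ {a b : ℝ} {y c e : C}, c ∈ QN d M ζ → -1 < a → b < 1 → c ∈ M 2 (Icc a b) →
      Pk_Dat d M ζ a b y e → P y c = evL ζ (l e c) := fun hc ha hb hc' D =>
    Pk_unique hLaur hKey hA hc (Classical.epsilon_spec ⟨_, mk ha hb hc' D⟩) (mk ha hb hc' D)
  refine ⟨P, fun y hy c hc r => ?_, fun y hy y' hy' c hc => ?_, fun g y hy c hc => ?_,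
    fun y hy c hc c' hc' => ?_, fun g y hy c hc => ?_, fun y hy c hc => ?_, fun y hy w hw => ?_,
    fun y hy w hw => ?_⟩
  · refine ⟨fun h => Pk_unique hLaur hKey hA hc h (Classical.epsilon_spec ⟨_, h⟩), fun h => ?_⟩
    obtain ⟨a, b, ha, hab, hb, hc'⟩ := k6 2 c hc.1
    obtain ⟨e, D⟩ := Pk_exists (ζ := ζ) hKey hA ha hab hb hy
    rw [h, F hc ha hb hc' D]
    exact mk ha hb hc' D
  · obtain ⟨a, b, ha, hab, hb, hc'⟩ := k6 2 c hc.1
    obtain ⟨e, D⟩ := Pk_exists (ζ := ζ) hKey hA ha hab hb hy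
    obtain ⟨e', D'⟩ := Pk_exists (ζ := ζ) hKey hA ha hab hb hy'
    rw [F hc ha hb hc' D, F hc ha hb hc' D', F hc ha hb hc' (Pk_add D D'), hS.add_left, map_add]
  · obtain ⟨a, b, ha, hab, hb, hc'⟩ := k6 2 c hc.1
    obtain ⟨e, D⟩ := Pk_exists (ζ := ζ) hKey hA ha hab hb hy
    rw [F hc ha hb hc' D, F hc ha hb hc' (Pk_smul D g), hS.smul_left, map_mul]
  · obtain ⟨a, b, ha, hab, hb, h1⟩ := k6 2 c hc.1
    obtain ⟨a', b', ha', -, hb', h2⟩ := k6 2 c' hc'.1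
    have ha2 : -1 < min a a' := lt_min ha ha'
    have hb2 : max b b' < 1 := max_lt hb hb'
    have h1' := hA.mono 2 _ _ (Icc_subset_Icc (min_le_left a a') (le_max_left b b')) h1
    have h2' := hA.mono 2 _ _ (Icc_subset_Icc (min_le_right a a') (le_max_right b b')) h2
    obtain ⟨e, D⟩ := Pk_exists (ζ := ζ) hKey hA ha2
      ((min_le_left a a').trans_lt (hab.trans_le (le_max_left b b'))) hb2 hy
    rw [F hc ha2 hb2 h1' D, F hc' ha2 hb2 h2' D, F (add_mem hc hc') ha2 hb2 (add_mem h1' h2') D,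
      hS.add_right, map_add]
  · obtain ⟨a, b, ha, hab, hb, hc'⟩ := k6 2 c hc.1
    obtain ⟨e, D⟩ := Pk_exists (ζ := ζ) hKey hA ha hab hb hy
    rw [F hc ha hb hc' D, F (Submodule.smul_mem _ g hc) ha hb (Submodule.smul_mem _ g hc') D,
      hS.smul_right, map_mul, hcj]
  · obtain ⟨a, b, ha, -, hb, hc'⟩ := k6 2 c hc.1
    have D : Pk_Dat d M ζ a b y ((0 : Lam ℂ) • c) := by
      rw [zero_smul]
      exact ⟨zero_mem _, 0, zero_mem _, 0, zero_mem _, 0, zero_mem _, by rwa [sub_zero], by simp⟩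
    rw [F hc ha hb hc' D, hS.smul_left, zero_mul, map_zero]
  · obtain ⟨a, b, ha, hab, hb, hw'⟩ := k6 3 w hw
    obtain ⟨e, D⟩ := Pk_exists (ζ := ζ) hKey hA ha hab hb hy
    have hc : d w ∈ QN d M ζ := ⟨hA.d_mem 2 _ w hw, by
      rw [SetLike.mem_coe, Submodule.mem_comap, hA.dd]
      exact zero_mem _⟩
    rw [F hc ha hb (hA.d_mem 2 _ w hw') D, ← hA.stokes]
    obtain ⟨-, y₁, h1, y₂, h2, a₀, -, -, h5⟩ := D
    rw [h5, hS.add_left, hS.add_left, hS.smul_left,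
      hA.loc.2 1 3 _ _ (disjoint_left.2 fun t h h' => not_le.2 h.1 h'.2) y₁ h1 w hw',
      hA.loc.2 1 3 _ _ (disjoint_left.2 fun t h h' => not_le.2 h h'.1) y₂ h2 w hw', zero_add,
      zero_add, map_mul, hπ, zero_mul]
  · obtain ⟨a, b, ha, hab, hb, hw'⟩ := k6 2 w hw
    obtain ⟨e, D⟩ := Pk_exists (ζ := ζ) hKey hA ha hab hb hy
    have hc : piL ζ • w ∈ QN d M ζ :=
      ⟨Submodule.smul_mem _ _ hw, d w, (map_smul d (piL ζ) w).symm⟩
    rw [F hc ha hb (Submodule.smul_mem _ _ hw') D, hS.smul_right, map_mul, hcj, hπ, map_zero,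
      zero_mul]

end Pool.Agent.MP_bc14e1_gt

end

section

open Set Metric
open scoped Classical

namespace Pool.Agent.MP_bc14e1_gt

theorem NS_inv (ζ : Circle) (hζ : ζ ≠ 1) :
    (LaurentPolynomial.C (((ζ : ℂ) - 1)⁻¹) : Lam ℂ) *
      ((LaurentPolynomial.T 1 - 1 : Lam ℂ) - piL ζ) = 1 := by
  have h : (ζ : ℂ) - 1 ≠ 0 := by
    intro h
    apply hζ
    ext
    simpa using sub_eq_zero.1 h
  have e : (LaurentPolynomial.T 1 - 1 : Lam ℂ) - piL ζ = LaurentPolynomial.C ((ζ : ℂ) - 1) := by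
    rw [piL, map_sub, map_one]
    ring
  rw [e, ← map_mul, inv_mul_cancel₀ h, map_one]

theorem ns_stmt (hLaur : LaurStmt) (hKey : KeyStmt) : NSStmt := by
  intro C _ _ d M l ζ P hAS hH0 hζ hP x hx hxB c hc hdc
  have hπ : piL ζ ≠ 0 := (hLaur.2.2.2.2.2.2.2.2.2.1 ζ).ne_zero
  obtain ⟨a, c0, ha, hac, hc0, hcm⟩ := (hKey C d M l ζ hAS).2.2.2.2.2.1 2 c hc
  have hcI : c ∈ M 2 (Icc a c0) := hAS.mono _ _ _ Ioo_subset_Icc_self hcm
  have hnot : ¬ ∃ w ∈ M 3 (Ioo (-1) 1), ∃ y ∈ M 2 (Ioo (-1) 1), c = d w + piL ζ • y := by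
    rintro ⟨w, -, y', hy', hcw⟩
    apply hxB
    refine ⟨y', hy', ?_⟩
    have h1 : piL ζ • (d y' - x) = 0 := by
      rw [smul_sub, ← hdc, hcw, map_add, hAS.dd, map_smul, zero_add, sub_self]
    exact sub_eq_zero.1 (hAS.tf0 _ hπ _ h1)
  obtain ⟨b, hb, a', ha', r₁, hr₁, r₂, hr₂, hdb, ⟨y1, hy1⟩, hne⟩ :=
    hAS.pdN ζ hζ a c0 ha hc0 c hcI ⟨x, hdc⟩ hnot
  have hsub : Ioo c0 1 ⊆ Ioo (-1 : ℝ) 1 := Ioo_subset_Ioo_left (by linarith)
  obtain ⟨y2, hy2⟩ : ∃ y2, d r₂ = piL ζ • y2 := by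
    refine ⟨-(d a') - y1, ?_⟩
    have h0 := hAS.dd b
    rw [hdb, map_add, map_add, map_smul, hy1] at h0
    rw [smul_sub, smul_neg, eq_neg_of_add_eq_zero_right h0]
    abel
  have hy2m : y2 ∈ M 0 (Ioo c0 1) := hAS.tf _ hπ _ _ _ (hy2 ▸ hAS.d_mem 0 _ _ hr₂)
  obtain ⟨w, hw, hwd⟩ := hH0 y2 (hAS.mono _ _ _ hsub hy2m)
  obtain ⟨w'', hw'', hw''d⟩ : ∃ w'' ∈ M 1 (Ioo (-1) 1), d w'' = y2 := by
    refine ⟨(LaurentPolynomial.C (((ζ : ℂ) - 1)⁻¹) : Lam ℂ) • (w - r₂),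
      Submodule.smul_mem _ _ (Submodule.sub_mem _ hw (hAS.mono _ _ _ hsub hr₂)), ?_⟩
    rw [map_smul, map_sub, ← hwd, hy2, ← sub_smul, smul_smul, NS_inv ζ hζ, one_smul]
  obtain ⟨r, H, hrH⟩ := hAS.retrN (-1) c0 1 1 le_rfl (by linarith) hc0 le_rfl le_rfl
  obtain ⟨w', hw', hw'd⟩ : ∃ w' ∈ M 1 (Ioo c0 1), d w' = y2 := by
    obtain ⟨h1, -, h3⟩ := (hrH 1).1 w'' hw''
    refine ⟨r w'' + H y2, Submodule.add_mem _ h1 ((hrH 0).2 y2 hy2m), ?_⟩
    have h4 := congrArg d h3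
    rw [map_add, hAS.dd, zero_add, map_sub, hw''d] at h4
    rw [map_add, h4, add_sub_cancel]
  have hym : r₂ - piL ζ • w' ∈ M 1 (Ioo c0 1) :=
    Submodule.sub_mem _ hr₂ (Submodule.smul_mem _ _ hw')
  have hyZ : r₂ - piL ζ • w' ∈ ZN d M := by
    refine ⟨hAS.mono _ _ _ hsub hym, ?_⟩
    rw [SetLike.mem_coe, LinearMap.mem_ker, map_sub, map_smul, hw'd, hy2, sub_self]
  have hcQ : c ∈ QN d M ζ := ⟨hc, x, hdc.symm⟩
  refine ⟨r₂ - piL ζ • w', hyZ, ?_⟩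
  have hk : Pk d M l ζ (r₂ - piL ζ • w') c (evL ζ (l b c)) := by
    refine ⟨a, c0, ha, hc0, hcI, b, hAS.mono _ _ _ Ioo_subset_Iio_self hb, r₂ - piL ζ • w', hym,
      r₁, hAS.mono _ _ _ Ioo_subset_Iio_self hr₁, a' + w',
      Submodule.add_mem _ (hAS.mono _ _ _ Ioo_subset_Iio_self ha')
        (hAS.mono _ _ _ Ioo_subset_Iio_self hw'), ?_, ?_, rfl⟩
    · rw [sub_self]
      exact Submodule.zero_mem _
    · rw [hdb, smul_add]
      abel
  rw [← (hP.spec _ hyZ c hcQ _).1 hk]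
  exact hne

end Pool.Agent.MP_bc14e1_gt

end

section

open Set Metric
open scoped Classical

namespace Pool.Agent.MP_bc14e1_gt

section Aux

variable {C : Type} [AddCommGroup C] [Module (Lam ℂ) C] {d : C →ₗ[Lam ℂ] C}
  {M : ℕ → Set ℝ → Submodule (Lam ℂ) C} {l : C → C → Lam ℂ} {ζ : Circle} {P : C → C → ℂ}

theorem Her_sub_left (h : Sesq l) (u u' v : C) : l (u - u') v = l u v - l u' v := by
  have := h.add_left (u - u') u' v
  rw [sub_add_cancel] at this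
  rw [this, add_sub_cancel_right]

theorem Her_sub_right (h : Sesq l) (u v v' : C) : l u (v - v') = l u v - l u v' := by
  have := h.add_right u (v - v') v'
  rw [sub_add_cancel] at this
  rw [this, add_sub_cancel_right]

theorem Her_disj {a b a' b' : ℝ} (h : b ≤ a') : Disjoint (Ioo a b) (Ioo a' b') :=
  Set.disjoint_left.2 fun _ hx hx' => absurd (hx'.1.trans hx.2) (not_lt.2 h)

theorem Her_QN {c x : C} (hc : c ∈ M 2 (Ioo (-1) 1)) (h : d c = piL ζ • x) : c ∈ QN d M ζ :=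
  ⟨hc, x, h.symm⟩

/-- The pairing computed from a chain between a high and a low representative. -/
theorem Her_eval (hA : IsAS d M l) (hP : PkF d M l ζ P) {y c x e y₁ y₂ : C} {a b : ℝ}
    (ha : -1 < a) (hb : b < 1) (hy : y ∈ ZN d M) (hc : c ∈ M 2 (Ioo a b))
    (hx : d c = piL ζ • x) (he : e ∈ M 2 (Iio 1)) (h1 : y₁ ∈ M 1 (Ioo b 1))
    (h2 : y₂ ∈ M 1 (Iio a)) (hy1 : y - y₁ ∈ BN d M) (hde : d e = y₁ - y₂) :
    P y c = evL ζ (l e c) := by
  refine ((hP.spec y hy c (Her_QN (hA.mono 2 _ _ (Ioo_subset_Ioo ha.le hb.le) hc) hx) _).1 ?_).symm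
  exact ⟨a, b, ha, hb, hA.mono 2 _ _ Ioo_subset_Icc_self hc, e, he, y₁, h1, -y₂, neg_mem h2, 0,
    zero_mem _, Submodule.mem_sup_right hy1, by rw [hde, smul_zero, add_zero, sub_eq_add_neg], rfl⟩

theorem Her_one (hLaur : LaurStmt) (hKey : KeyStmt) (hA : IsAS d M l) (hP : PkF d M l ζ P) :
    ∀ y ∈ TN d M ζ, ∀ q ∈ M 2 (Ioo (-1) 1), d q = 0 → P y q = 0 := by
  obtain ⟨-, k2, k3, -, -, k6, -⟩ := hKey C d M l ζ hA
  have hπ : piL ζ ≠ 0 := (hLaur.2.2.2.2.2.2.2.2.2.1 ζ).ne_zero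
  rintro y ⟨hy, hyt⟩ q hq hdq
  obtain ⟨a, b, ha, hab, hb, hq'⟩ := k6 2 q hq
  obtain ⟨y1, m1, b1, t1⟩ := k3 b 1 (by linarith) hb le_rfl y hy
  obtain ⟨c1, n1, d1⟩ := t1 _ hyt
  obtain ⟨y2, m2, b2, t2⟩ := k3 (-1) a le_rfl ha (by linarith) y hy
  obtain ⟨c2, n2, d2⟩ := t2 _ hyt
  obtain ⟨e, he, hde⟩ : y1 - y2 ∈ BN d M := by
    have := sub_mem b2 b1
    rwa [sub_sub_sub_cancel_left] at this
  have he' : e ∈ M 2 (Iio 1) := hA.mono 2 _ _ Ioo_subset_Iio_self he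
  rw [Her_eval hA hP ha hb hy hq' (x := 0) (by rw [hdq, smul_zero]) he' m1
    (hA.mono 1 _ _ Ioo_subset_Iio_self m2) b1 hde]
  have hz := k2 (piL ζ • e - c1 + c2)
    (add_mem (sub_mem (Submodule.smul_mem _ _ he') (hA.mono 2 _ _ Ioo_subset_Iio_self n1))
      (hA.mono 2 _ _ (fun t ht => ht.2.trans (hab.trans hb)) n2))
    (by rw [map_add, map_sub, map_smul, hde, d1, d2, smul_sub]; abel) q hq hdq
  rw [hA.loc.1.add_left, Her_sub_left hA.loc.1, hA.loc.1.smul_left,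
    hA.loc.2 2 2 _ _ (Her_disj le_rfl).symm c1 n1 q hq',
    hA.loc.2 2 2 _ _ (Her_disj le_rfl) c2 n2 q hq', sub_zero, add_zero] at hz
  rw [(mul_eq_zero.1 hz).resolve_left hπ, map_zero]

theorem Her_move (hLaur : LaurStmt) (hKey : KeyStmt) (hA : IsAS d M l) (hP : PkF d M l ζ P)
    {y x x' c c' : C} (hy : y ∈ TN d M ζ) (hc : c ∈ M 2 (Ioo (-1) 1))
    (hc' : c' ∈ M 2 (Ioo (-1) 1)) (hd : d c = piL ζ • x) (hd' : d c' = piL ζ • x')
    (hx : x - x' ∈ BN d M) : P y c = P y c' := by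
  obtain ⟨w, hw, hdw⟩ := hx
  have hw' : piL ζ • w ∈ M 2 (Ioo (-1) 1) := Submodule.smul_mem _ _ hw
  have hq : d (c - c' - piL ζ • w) = 0 := by
    rw [map_sub, map_sub, map_smul, hd, hd', hdw, smul_sub, sub_self]
  have hqm : c - c' - piL ζ • w ∈ M 2 (Ioo (-1) 1) := sub_mem (sub_mem hc hc') hw'
  have q1 : c - c' - piL ζ • w ∈ QN d M ζ := Her_QN hqm (x := 0) (by rw [hq, smul_zero])
  have q2 : piL ζ • w ∈ QN d M ζ := Her_QN hw' (map_smul d _ _)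
  have e : c = c' + (c - c' - piL ζ • w + piL ζ • w) := by abel
  rw [e, hP.add_right y hy.1 _ (Her_QN hc' hd') _ (add_mem q1 q2), hP.add_right y hy.1 _ q1 _ q2,
    Her_one hLaur hKey hA hP y hy _ hqm hq, hP.zero_pi y hy.1 w hw, add_zero, add_zero]

end Aux

theorem her_stmt (hLaur : LaurStmt) (hKey : KeyStmt) : HerStmt := by
  intro C _ _ d M l ζ P hA hP
  refine ⟨Her_one hLaur hKey hA hP, fun x hx y hy c hc c' hc' hdc hdc' => ?_⟩
  obtain ⟨-, k2, k3, k4, -, -, -⟩ := hKey C d M l ζ hA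
  obtain ⟨-, -, -, -, -, lT, lC, lcj, lev, lpr, lπ, -⟩ := id hLaur
  have hπ : piL ζ ≠ 0 := (lpr ζ).ne_zero
  have π0 : evL ζ (piL ζ) = 0 := (lev ζ _).2 dvd_rfl
  have tx : piL ζ • x ∈ BN d M := ⟨c, hc, hdc⟩
  have ty : piL ζ • y ∈ BN d M := ⟨c', hc', hdc'⟩
  obtain ⟨y2, m0, b0, t0⟩ := k3 (-1) (-1 / 2) le_rfl (by norm_num) (by norm_num) y hy
  obtain ⟨c2, n0, d0⟩ := t0 _ ty
  obtain ⟨x', m1, b1, t1⟩ := k3 (-1 / 2) 0 (by norm_num) (by norm_num) (by norm_num) x hx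
  obtain ⟨cx, n1, d1⟩ := t1 _ tx
  obtain ⟨y', m3, b3, t3⟩ := k3 0 (1 / 2) (by norm_num) (by norm_num) (by norm_num) y hy
  obtain ⟨cy, n3, d3⟩ := t3 _ ty
  obtain ⟨x1, m4, b4, t4⟩ := k3 (1 / 2) 1 (by norm_num) (by norm_num) le_rfl x hx
  obtain ⟨c1, n4, d4⟩ := t4 _ tx
  have mo : ∀ {k : ℕ} {a b : ℝ} (a' b' : ℝ) {u : C}, u ∈ M k (Ioo a b) → a' ≤ a → b ≤ b' →
      u ∈ M k (Ioo a' b') := fun a' b' u hu h1 h2 => hA.mono _ _ _ (Ioo_subset_Ioo h1 h2) hu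
  have mi : ∀ {k : ℕ} {a b : ℝ} (b' : ℝ) {u : C}, u ∈ M k (Ioo a b) → b ≤ b' →
      u ∈ M k (Iio b') := fun b' u hu h => hA.mono _ _ _ (fun t ht => ht.2.trans_le h) hu
  obtain ⟨e, he, hde⟩ := k4 (-1) (1 / 2) le_rfl (by norm_num) (by norm_num) (y' - y2)
    (sub_mem (mo _ _ m3 (by norm_num) le_rfl) (mo _ _ m0 le_rfl (by norm_num))) (by
      have := sub_mem b0 b3
      rwa [sub_sub_sub_cancel_left] at this)
  obtain ⟨e', he', hde'⟩ := k4 (-1 / 2) 1 (by norm_num) (by norm_num) le_rfl (x1 - x')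
    (sub_mem (mo _ _ m4 (by norm_num) le_rfl) (mo _ _ m1 le_rfl (by norm_num))) (by
      have := sub_mem b1 b4
      rwa [sub_sub_sub_cancel_left] at this)
  rw [Her_move hLaur hKey hA hP (y := y) ⟨hy, ty⟩ hc (mo _ _ n1 (by norm_num) (by norm_num))
      hdc d1 b1,
    Her_move hLaur hKey hA hP (y := x) ⟨hx, tx⟩ hc' (mo _ _ n3 (by norm_num) (by norm_num))
      hdc' d3 b3,
    Her_eval hA hP (by norm_num) (by norm_num) hy n1 d1 (mi 1 he (by norm_num))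
      (mo _ _ m3 le_rfl (by norm_num)) (mi _ m0 le_rfl) b3 hde,
    Her_eval hA hP (by norm_num) (by norm_num) hx n3 d3 (mi 1 he' le_rfl) m4 (mi _ m1 le_rfl)
      b4 hde']
  have hzm : piL ζ • e - cy + c2 ∈ M 2 (Ioo (-1) (1 / 2)) :=
    add_mem (sub_mem (Submodule.smul_mem _ _ he) (mo _ _ n3 (by norm_num) le_rfl))
      (mo _ _ n0 le_rfl (by norm_num))
  have hz := k2 (piL ζ • e - cy + c2) (mi 1 hzm (by norm_num))
    (by rw [map_add, map_sub, map_smul, hde, d3, d0, smul_sub]; abel) (piL ζ • e' - c1 + cx)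
    (add_mem (sub_mem (Submodule.smul_mem _ _ (mo _ _ he' (by norm_num) le_rfl))
      (mo _ _ n4 (by norm_num) le_rfl)) (mo _ _ n1 (by norm_num) (by norm_num)))
    (by rw [map_add, map_sub, map_smul, hde', d4, d1, smul_sub]; abel)
  obtain ⟨hS, hL⟩ := hA.loc
  rw [hS.add_right, Her_sub_right hS, hS.smul_right, hL 2 2 _ _ (Her_disj le_rfl) _ hzm c1 n4,
    hS.add_left, Her_sub_left hS, hS.smul_left, hS.add_left, Her_sub_left hS, hS.smul_left,
    hL 2 2 _ _ (Her_disj le_rfl) c2 n0 e' he', hL 2 2 _ _ (Her_disj le_rfl) c2 n0 cx n1,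
    hL 2 2 _ _ (Her_disj le_rfl).symm cy n3 cx n1, lπ] at hz
  have h1 : l e cx = LaurentPolynomial.T (-1) * LaurentPolynomial.C ((ζ⁻¹ : Circle) : ℂ) *
      (piL ζ * l e e' - l cy e') := mul_left_cancel₀ hπ (by linear_combination hz)
  obtain ⟨E₁, E₂, hE₁, hE₂, hs⟩ := hA.sym
  have h2 := hs cy (hA.mono 2 _ _ (subset_univ _) n3) e' (hA.mono 2 _ _ (subset_univ _) he')
  rw [d3, hde', hE₁.1.smul_left, Her_sub_right hE₂.1, hE₂.2 2 1 _ _ (Her_disj le_rfl) cy n3 x1 m4,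
    hE₂.2 2 1 _ _ (Her_disj le_rfl).symm cy n3 x' m1, sub_zero, add_zero] at h2
  have h3 := congrArg (evL ζ) h2
  rw [map_sub, map_mul, π0, zero_mul, lcj, sub_eq_zero] at h3
  rw [h1, map_mul, map_mul, map_sub, map_mul, π0, lT, lC, h3, zpow_neg_one]
  ring

end Pool.Agent.MP_bc14e1_gt

end

section

open Set Metric
open scoped Classical

namespace Pool.Agent.MP_bc14e1_gt

section

variable {C : Type} [AddCommGroup C] [Module (Lam ℂ) C] {d : C →ₗ[Lam ℂ] C}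
  {M : ℕ → Set ℝ → Submodule (Lam ℂ) C} {l : C → C → Lam ℂ} {ζ : Circle} {P : C → C → ℂ}

theorem Iso_zero_left (h : Sesq l) (v : C) : l 0 v = 0 := by
  have := h.smul_left 0 0 v
  rwa [zero_smul, zero_mul] at this

theorem Iso_zero_right (h : Sesq l) (u : C) : l u 0 = 0 := by
  have := h.smul_right 0 u 0
  rwa [zero_smul, map_zero, zero_mul] at this

theorem Iso_sub_left (h : Sesq l) (u u' v : C) : l (u - u') v = l u v - l u' v := by
  rw [eq_sub_iff_add_eq, ← h.add_left, sub_add_cancel]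

theorem Iso_sub_right (h : Sesq l) (u v v' : C) : l u (v - v') = l u v - l u v' := by
  rw [eq_sub_iff_add_eq, ← h.add_right, sub_add_cancel]

theorem Iso_sym (hA : IsAS d M l) {u v : C} (hu : u ∈ M 2 univ) (hv : v ∈ M 2 univ)
    (du : d u = 0) (dv : d v = 0) : cj (l v u) = l u v := by
  obtain ⟨E₁, E₂, h1, h2, h⟩ := hA.sym
  have := h u hu v hv
  rw [du, dv, Iso_zero_left h1.1, Iso_zero_right h2.1, add_zero, sub_eq_zero] at this
  exact this.symm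

theorem Iso_QN {c x : C} (hc : c ∈ M 2 (Ioo (-1) 1)) (h : d c = piL ζ • x) : c ∈ QN d M ζ :=
  ⟨hc, x, h.symm⟩

/-- The diagonal values vanish. -/
theorem Iso_diag (hLaur : LaurStmt) (hKey : KeyStmt) (hHer : HerStmt) (hA : IsAS d M l)
    (hP : PkF d M l ζ P) {x : C} (hx : x ∈ ZN d M) (hxV : x ∈ (M 2 (Iio 1)).map d) {c : C}
    (hc : c ∈ M 2 (Ioo (-1) 1)) (hdc : d c = piL ζ • x) : P x c = 0 := by
  obtain ⟨-, -, -, -, -, -, -, -, hev, hpr, hcj, -, -, hsq⟩ := hLaur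
  obtain ⟨-, K2, K3, -⟩ := hKey C d M l ζ hA
  have hS := hA.loc.1
  have hxB : piL ζ • x ∈ BN d M := ⟨c, hc, hdc⟩
  obtain ⟨x', hx', ⟨w', hw', ew'⟩, h'⟩ :=
    K3 (-1 / 2) 0 (by norm_num) (by norm_num) (by norm_num) x hx
  obtain ⟨c', hc', ec'⟩ := h' _ hxB
  obtain ⟨x'', hx'', ⟨w'', hw'', ew''⟩, h''⟩ :=
    K3 0 1 (by norm_num) (by norm_num) (by norm_num) x hx
  obtain ⟨c'', hc'', ec''⟩ := h'' _ hxB
  obtain ⟨e, he, ee⟩ := hxV
  have s1 : Ioo (-1 : ℝ) 1 ⊆ Iio 1 := Ioo_subset_Iio_self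
  have s2 : Ioo (-1 / 2 : ℝ) 0 ⊆ Iio 0 := Ioo_subset_Iio_self
  have s3 : Iio (0 : ℝ) ⊆ Iio 1 := Iio_subset_Iio zero_le_one
  have s4 : Ioo (-1 / 2 : ℝ) 0 ⊆ Ioo (-1) 1 := Ioo_subset_Ioo (by norm_num) zero_le_one
  have s5 : Ioo (0 : ℝ) 1 ⊆ Ioo (-1) 1 := Ioo_subset_Ioo (by norm_num) le_rfl
  obtain ⟨r, H, hr⟩ := hA.retrV 0 1 (by norm_num) zero_le_one le_rfl
  have he0 : e - w' ∈ M 2 (Iio 1) := sub_mem he (hA.mono _ _ _ s1 hw')
  have de0 : d (e - w') = x' := by rw [map_sub, ee, ew', sub_sub_cancel]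
  obtain ⟨r1, -, r3⟩ := (hr 2).1 _ he0
  obtain ⟨e', he', de'⟩ : ∃ e' ∈ M 2 (Iio 0), d e' = x' := by
    refine ⟨r (e - w') + H x', add_mem r1 ((hr 1).2 _ (hA.mono _ _ _ s2 hx')), ?_⟩
    have h1 : r (e - w') + H x' = (e - w') - d (H (e - w')) := by
      rw [← de0, eq_sub_iff_add_eq'.2 r3]
      abel
    rw [h1, map_sub, hA.dd, sub_zero, de0]
  have hw : w' - w'' ∈ M 2 (Ioo (-1) 1) := sub_mem hw' hw''
  have dw : d (w' - w'') = x'' - x' := by
    rw [map_sub, ew', ew'']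
    abel
  have he'' : e' + (w' - w'') ∈ M 2 (Iio 1) :=
    add_mem (hA.mono _ _ _ s3 he') (hA.mono _ _ _ s1 hw)
  have de'' : d (e' + (w' - w'')) = x'' := by
    rw [map_add, de', dw]
    abel
  set e'' := e' + (w' - w'') with ee''
  have hz : piL ζ • e' - c' ∈ M 2 (Iio 0) :=
    sub_mem (Submodule.smul_mem _ _ he') (hA.mono _ _ _ s2 hc')
  have dz : d (piL ζ • e' - c') = 0 := by rw [map_sub, map_smul, de', ec', sub_self]
  have hq : piL ζ • (w' - w'') - c'' + c' ∈ M 2 (Ioo (-1) 1) :=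
    add_mem (sub_mem (Submodule.smul_mem _ _ hw) (hA.mono _ _ _ s5 hc'')) (hA.mono _ _ _ s4 hc')
  have dq : d (piL ζ • (w' - w'') - c'' + c') = 0 := by
    rw [map_add, map_sub, map_smul, dw, ec', ec'', smul_sub]
    abel
  have ez : piL ζ • e' - c' = piL ζ • e'' - c'' - (piL ζ • (w' - w'') - c'' + c') := by
    rw [ee'', smul_add]
    abel
  set z := piL ζ • e' - c' with hzd
  set q := piL ζ • (w' - w'') - c'' + c' with hqd
  have hzu : z ∈ M 2 univ := hA.mono _ _ _ (subset_univ _) hz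
  have l1 : l q z = 0 := by
    rw [← Iso_sym hA (hA.mono _ _ _ (subset_univ _) hq) hzu dq dz,
      K2 z (hA.mono _ _ _ s3 hz) dz q hq dq, map_zero]
  have l2 : l c'' z = 0 := hA.loc.2 2 2 _ _
    (Set.disjoint_left.2 fun t h1 h2 => lt_asymm h1.1 h2) _ hc'' _ hz
  have l3 : l z z = piL ζ * (cj (piL ζ) * l e'' e' - l e'' c') := by
    have : l z z = l (piL ζ • e'' - c'' - q) z := congrArg (l · z) ez
    rw [this, Iso_sub_left hS, Iso_sub_left hS, l1, l2, sub_zero, sub_zero, hS.smul_left, hzd,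
      Iso_sub_right hS, hS.smul_right]
  obtain ⟨bad, hb, hpos⟩ := hA.psd
  have l4 := hsq ζ (l z z) bad hb (Iso_sym hA hzu hzu dz dz) (fun ξ hξ => hpos ξ hξ z hzu dz)
    ((hev _ _).2 ⟨_, l3⟩)
  rw [l3, pow_two, mul_dvd_mul_iff_left (hpr ζ).ne_zero, hcj, mul_right_comm,
    dvd_sub_right (dvd_mul_left _ _)] at l4
  have hq' : c' ∈ QN d M ζ := Iso_QN (hA.mono _ _ _ s4 hc') ec'
  have p1 : P x c' = 0 := by
    rw [← (hev _ _).2 l4]
    refine ((hP.spec x hx c' hq' _).1 ⟨-1 / 2, 0, by norm_num, by norm_num,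
      hA.mono _ _ _ Ioo_subset_Icc_self hc', e'', he'', x'', hx'', 0, zero_mem _, 0, zero_mem _,
      Submodule.mem_sup_right ⟨w'', hw'', ew''⟩, ?_, rfl⟩).symm
    rw [de'', smul_zero, add_zero, add_zero]
  have hq0 : c - c' - piL ζ • w' ∈ M 2 (Ioo (-1) 1) :=
    sub_mem (sub_mem hc hq'.1) (Submodule.smul_mem _ _ hw')
  have dq0 : d (c - c' - piL ζ • w') = 0 := by
    rw [map_sub, map_sub, map_smul, hdc, ec', ew', smul_sub, sub_self]
  have q1 : c - c' - piL ζ • w' ∈ QN d M ζ := Iso_QN (x := 0) hq0 (by rw [dq0, smul_zero])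
  have q2 : piL ζ • w' ∈ QN d M ζ := Iso_QN (Submodule.smul_mem _ _ hw') (map_smul _ _ _)
  have ec : c = c' + (c - c' - piL ζ • w') + piL ζ • w' := by abel
  rw [ec, hP.add_right x hx _ (add_mem hq' q1) _ q2, hP.add_right x hx _ hq' _ q1, p1,
    (hHer C d M l ζ P hA hP).1 x ⟨hx, hxB⟩ _ hq0 dq0, hP.zero_pi x hx _ hw', add_zero, add_zero]

end

theorem iso_stmt (hLaur : LaurStmt) (hKey : KeyStmt) (hHer : HerStmt) : IsoStmt := by
  intro C _ _ d M l ζ P hA hP x hx hxV y hy hyV c hc hdc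
  obtain ⟨hy, c', hc', hdc'⟩ := hy
  have hdc' : d c' = piL ζ • y := hdc'
  have qc := Iso_QN hc hdc
  have qc' := Iso_QN hc' hdc'
  have key : ∀ a : ℂ, starRingEnd ℂ a * P x c' + a * P y c = 0 := fun a => by
    have ha := hLaur.2.2.2.2.2.2.1 ζ a
    set A : Lam ℂ := LaurentPolynomial.C a
    have hy' : A • y ∈ ZN d M := Submodule.smul_mem _ _ hy
    have qa : A • c' ∈ QN d M ζ := Submodule.smul_mem _ _ qc'
    have h := Iso_diag hLaur hKey hHer hA hP (add_mem hx hy')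
      (add_mem hxV (Submodule.smul_mem _ A hyV)) (add_mem hc qa.1)
      (by rw [map_add, map_smul, hdc, hdc', smul_add, smul_comm])
    rw [hP.add_left x hx _ hy' _ (add_mem qc qa), hP.smul_left A y hy _ (add_mem qc qa),
      hP.add_right x hx _ qc _ qa, hP.add_right y hy _ qc _ qa, hP.smul_right A x hx _ qc',
      hP.smul_right A y hy _ qc', Iso_diag hLaur hKey hHer hA hP hx hxV hc hdc,
      Iso_diag hLaur hKey hHer hA hP hy hyV hc' hdc', ha] at h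
    linear_combination h
  have k1 := key 1
  have k2 := key Complex.I
  rw [map_one] at k1
  rw [Complex.conj_I] at k2
  have : Complex.I * (2 * P y c) = 0 := by linear_combination Complex.I * k1 + k2
  simpa using this

end Pool.Agent.MP_bc14e1_gt

end

section

open Set Metric
open scoped Classical

namespace Pool.Agent.MP_bc14e1_gt

section Aux

variable {C : Type} [AddCommGroup C] [Module (Lam ℂ) C] {d : C →ₗ[Lam ℂ] C}
  {M : ℕ → Set ℝ → Submodule (Lam ℂ) C} {l : C → C → Lam ℂ} {J : C →+ C}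

theorem Skew_neg_left (h : Sesq l) (u v : C) : l (-u) v = -l u v := by
  have := h.smul_left (-1) u v
  rwa [neg_one_smul, neg_one_mul] at this

theorem Skew_mem (hAS : IsAS d M l) (hJ : JInv d M l J) {k : ℕ} {S S' : Set ℝ} {c : C}
    (hc : c ∈ M k S) (hS : ∀ r, -r ∈ S → r ∈ S') : J c ∈ M k S' :=
  hAS.mono k _ _ (fun r hr => hS r hr) (hJ.mem k S c hc)

theorem Skew_memN (hAS : IsAS d M l) (hJ : JInv d M l J) {k : ℕ} {c : C}
    (hc : c ∈ M k (Ioo (-1) 1)) : J c ∈ M k (Ioo (-1) 1) :=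
  Skew_mem hAS hJ hc fun r hr => ⟨by linarith [hr.2], by linarith [hr.1]⟩

theorem Skew_ZN (hAS : IsAS d M l) (hJ : JInv d M l J) {y : C} (hy : y ∈ ZN d M) :
    J y ∈ ZN d M := by
  refine ⟨Skew_memN hAS hJ hy.1, ?_⟩
  have h : d y = 0 := hy.2
  change d (J y) = 0
  rw [← hJ.Jd, h, map_zero]

theorem Skew_BN (hAS : IsAS d M l) (hJ : JInv d M l J) {y : C} (hy : y ∈ BN d M) :
    J y ∈ BN d M := by
  obtain ⟨b, hb, rfl⟩ := hy
  exact ⟨J b, Skew_memN hAS hJ hb, (hJ.Jd b).symm⟩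

theorem Skew_QN (hLaur : LaurStmt) (hAS : IsAS d M l) (hJ : JInv d M l J) {ζ : Circle} {c : C}
    (hc : c ∈ QN d M ζ) : J c ∈ QN d M ζ := by
  obtain ⟨-, -, -, -, -, -, -, -, -, -, hpi, -⟩ := hLaur
  obtain ⟨hc1, w, hw⟩ := hc
  have hw' : piL ζ • w = d c := hw
  refine ⟨Skew_memN hAS hJ hc1,
    (-(LaurentPolynomial.T (-1) * LaurentPolynomial.C ((ζ⁻¹ : Circle) : ℂ)) : Lam ℂ) • J w, ?_⟩
  change piL ζ • _ = d (J c)
  rw [← hJ.Jd, ← hw', hJ.smul, hpi, smul_smul, mul_comm (piL ζ)]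

theorem Skew_A (hLaur : LaurStmt) (hKey : KeyStmt) (hAS : IsAS d M l) (hJ : JInv d M l J)
    {ζ : Circle} {P : C → C → ℂ} (hF : PkF d M l ζ P) {y c : C} (hy : y ∈ ZN d M)
    (hc : c ∈ QN d M ζ) : P (J y) (J c) = -starRingEnd ℂ (P y c) := by
  have hJc := Skew_QN hLaur hAS hJ hc
  obtain ⟨-, -, -, -, -, -, -, hev, hdv, -⟩ := hLaur
  obtain ⟨-, -, k3, -, -, k6, -⟩ := hKey C d M l ζ hAS
  obtain ⟨a, b, ha, hab, hb, hcab⟩ := k6 2 c hc.1
  have hcI : c ∈ M 2 (Icc a b) := hAS.mono 2 _ _ Ioo_subset_Icc_self hcab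
  obtain ⟨y1, hy1, hb1, -⟩ := k3 b 1 (by linarith) hb le_rfl y hy
  obtain ⟨y2, hy2, hb2, -⟩ := k3 (-1) a le_rfl ha (by linarith) y hy
  obtain ⟨e, he, hde⟩ : y1 - y2 ∈ BN d M := by
    have := sub_mem hb2 hb1
    rwa [sub_sub_sub_cancel_left] at this
  have e1 : evL ζ (l e c) = P y c := by
    refine (hF.spec y hy c hc _).1 ⟨a, b, ha, hb, hcI, e, hAS.mono 2 _ _ Ioo_subset_Iio_self he,
      y1, hy1, -y2, neg_mem (hAS.mono 1 _ _ Ioo_subset_Iio_self hy2), 0, zero_mem _,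
      Submodule.mem_sup_right hb1, ?_, rfl⟩
    rw [hde, smul_zero, add_zero, sub_eq_add_neg]
  have e2 : evL ζ (l (-J e) (J c)) = P (J y) (J c) := by
    refine (hF.spec _ (Skew_ZN hAS hJ hy) _ hJc _).1 ⟨-b, -a, by linarith, by linarith,
      Skew_mem hAS hJ hcI fun r hr => ⟨by linarith [hr.2], by linarith [hr.1]⟩, -J e,
      neg_mem (hAS.mono 2 _ _ Ioo_subset_Iio_self (Skew_memN hAS hJ he)), J y2,
      Skew_mem hAS hJ hy2 fun r hr => ⟨by linarith [hr.2], by linarith [hr.1]⟩, -J y1,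
      neg_mem (Skew_mem hAS hJ hy1 fun r hr => by
        have := hr.1
        change r < -b
        linarith), 0, zero_mem _, Submodule.mem_sup_right ?_, ?_, rfl⟩
    · rw [← map_sub]; exact Skew_BN hAS hJ hb2
    · rw [map_neg, ← hJ.Jd, hde, map_sub, smul_zero, add_zero, neg_sub, sub_eq_add_neg]
  obtain ⟨E₁, E₂, hE₁, hE₂, hinv⟩ := hJ.inv
  have e3 := hinv e (hAS.mono 2 _ _ (subset_univ _) he) c (hAS.mono 2 _ _ (subset_univ _) hc.1)
  obtain ⟨w, hw⟩ := hc.2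
  have hw' : piL ζ • w = d c := hw
  have z1 : E₁ y1 c = 0 := hE₁.2 1 2 _ _
    (Set.disjoint_left.2 fun r hr hr' => absurd hr.1 (not_lt.2 hr'.2)) _ hy1 _ hcI
  have z2 : E₁ y2 c = 0 := hE₁.2 1 2 _ _
    (Set.disjoint_left.2 fun r hr hr' => absurd hr.2 (not_lt.2 hr'.1)) _ hy2 _ hcI
  rw [hde, ← hw', sub_eq_add_neg y1, hE₁.1.add_left, Skew_neg_left hE₁.1, z1, z2,
    hE₂.1.smul_right] at e3
  have e4 := congrArg (evL ζ) e3
  have z3 : evL ζ (piL ζ) = 0 := (hdv ζ _).2 dvd_rfl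
  simp only [map_sub, map_add, map_neg, map_zero, map_mul, hev, z3, neg_zero, zero_mul,
    add_zero] at e4
  rw [← e2, ← e1, Skew_neg_left hAS.loc.1, map_neg, ← sub_eq_zero.1 e4, Complex.conj_conj]

end Aux

theorem skew_stmt (hLaur : LaurStmt) (hKey : KeyStmt) (hHer : HerStmt) : SkewStmt := by
  intro C _ _ d M l ζ P J hAS hF hJ x hx c hc hdc
  have hQ : c ∈ QN d M ζ := ⟨hc, x, hdc.symm⟩
  have hJx := Skew_ZN hAS hJ hx
  have hJc := Skew_QN hLaur hAS hJ hQ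
  have hA := Skew_A hLaur hKey hAS hJ hF hJx hQ
  rw [hJ.JJ] at hA
  obtain ⟨-, -, -, -, -, hT, hC, -, -, -, hpi, -⟩ := hLaur
  have hu : (-(LaurentPolynomial.T 1 * LaurentPolynomial.C (ζ : ℂ)) : Lam ℂ) *
      -(LaurentPolynomial.T (-1) * LaurentPolynomial.C ((ζ⁻¹ : Circle) : ℂ)) = 1 := by
    rw [neg_mul_neg, mul_mul_mul_comm, ← LaurentPolynomial.T_add, ← map_mul, ← Circle.coe_mul]
    simp
  have hd' : d ((-(LaurentPolynomial.T 1 * LaurentPolynomial.C (ζ : ℂ)) : Lam ℂ) • J c) =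
      piL ζ • J x := by
    rw [map_smul, ← hJ.Jd, hdc, hJ.smul, hpi, smul_smul, ← mul_assoc, hu, one_mul]
  have hH := (hHer C d M l ζ P hAS hF).2 x hx (J x) hJx c hc _
    (Submodule.smul_mem _ _ hJc.1) hdc hd'
  rw [hF.smul_right _ x hx _ hJc, hA] at hH
  simp only [map_neg, map_mul, hT, hC, zpow_one, Complex.conj_conj] at hH
  have hz : ((ζ⁻¹ : Circle) : ℂ) * ζ = 1 := by rw [← Circle.coe_mul]; simp
  have h2 : 2 * P (J x) c = 0 := by
    linear_combination hH - (((ζ⁻¹ : Circle) : ℂ) * ζ + 1) * P (J x) c * hz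
  simpa using h2

end Pool.Agent.MP_bc14e1_gt

end

section

open Set Metric
open scoped Classical

namespace Pool.Agent.MP_bc14e1_gt

theorem A3_det {a₁ a₂ b₁ b₂ p₁ p₂ : ℂ} (ha : a₁ * p₁ + a₂ * p₂ = 0) (hb : b₁ * p₁ + b₂ * p₂ = 0)
    (hp : ¬ (p₁ = 0 ∧ p₂ = 0)) (hne : ¬ (a₁ = 0 ∧ a₂ = 0)) :
    ∃ μ : ℂ, b₁ = μ * a₁ ∧ b₂ = μ * a₂ := by
  have hdet : a₁ * b₂ - a₂ * b₁ = 0 := by
    by_contra h
    apply hp
    constructor
    · apply mul_left_cancel₀ h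
      linear_combination b₂ * ha - a₂ * hb
    · apply mul_left_cancel₀ h
      linear_combination a₁ * hb - b₁ * ha
  by_cases h1 : a₁ = 0
  · have h2 : a₂ ≠ 0 := fun h => hne ⟨h1, h⟩
    refine ⟨b₂ / a₂, ?_, by field_simp⟩
    rw [h1, mul_zero]
    rw [h1, zero_mul, zero_sub, neg_eq_zero] at hdet
    exact (mul_eq_zero.1 hdet).resolve_left h2
  · refine ⟨b₁ / a₁, by field_simp, ?_⟩
    field_simp
    linear_combination hdet

section

variable {C : Type} [AddCommGroup C] [Module (Lam ℂ) C] {d : C →ₗ[Lam ℂ] C}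
  {M : ℕ → Set ℝ → Submodule (Lam ℂ) C} {l : C → C → Lam ℂ} {ζ : Circle}

theorem A3_PB_iff {z : C} :
    z ∈ PB d M ζ ↔ ∃ y' ∈ ZN d M, z - piL ζ • y' ∈ BN d M := by
  constructor
  · intro h
    obtain ⟨u, ⟨y', hy', rfl⟩, v, hv, rfl⟩ := Submodule.mem_sup.1 h
    exact ⟨y', hy', by simpa using hv⟩
  · rintro ⟨y', hy', h⟩
    exact Submodule.mem_sup.2 ⟨piL ζ • y', ⟨y', hy', rfl⟩, _, h, by abel⟩

theorem A3_PB_le (hAS : IsAS d M l) : PB d M ζ ≤ ZN d M := by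
  refine sup_le ?_ ?_
  · rintro _ ⟨y, hy, rfl⟩
    exact Submodule.smul_mem _ _ hy
  · rintro _ ⟨c, hc, rfl⟩
    exact ⟨hAS.d_mem 1 _ c hc, hAS.dd c⟩

theorem A3_neg_Ioo : (fun r : ℝ => -r) ⁻¹' Ioo (-1) 1 = Ioo (-1) 1 := by
  ext r
  simp only [mem_preimage, mem_Ioo]
  constructor <;> rintro ⟨h1, h2⟩ <;> constructor <;> linarith

theorem A3_neg_Ioi : (fun r : ℝ => -r) ⁻¹' Ioi (-1) = Iio 1 := by
  ext r
  simp only [mem_preimage, mem_Ioi, mem_Iio]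
  constructor <;> intro h <;> linarith

theorem A3_J_ZN {J : C →+ C} (hJ : JInv d M l J) {y : C} (hy : y ∈ ZN d M) : J y ∈ ZN d M := by
  refine ⟨?_, ?_⟩
  · have := hJ.mem 1 _ y hy.1
    rwa [A3_neg_Ioo] at this
  · have h0 : d y = 0 := hy.2
    change d (J y) = 0
    rw [← hJ.Jd, h0, map_zero]

theorem A3_J_PB (hLaur : LaurStmt) {J : C →+ C} (hJ : JInv d M l J) {y : C}
    (hy : y ∈ PB d M ζ) : J y ∈ PB d M ζ := by
  obtain ⟨y', hy', c, hc, h⟩ := A3_PB_iff.1 hy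
  obtain ⟨-, -, -, -, -, -, -, -, -, -, hcj, -⟩ := hLaur
  refine A3_PB_iff.2 ⟨_, Submodule.smul_mem _
    (-(LaurentPolynomial.T (-1) * LaurentPolynomial.C ((ζ⁻¹ : Circle) : ℂ)))
    (A3_J_ZN hJ hy'), J c, ?_, ?_⟩
  · have := hJ.mem 2 _ c hc
    rwa [A3_neg_Ioo] at this
  · rw [← hJ.Jd, h, map_sub, hJ.smul, hcj, smul_smul, mul_comm]

theorem A3_ev_PB (hLaur : LaurStmt) (D : Lam ℂ) {y : C} (hy : y ∈ ZN d M) :
    D • y - (LaurentPolynomial.C (evL ζ D) : Lam ℂ) • y ∈ PB d M ζ := by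
  obtain ⟨-, -, -, -, -, -, hC, -, hdv, -⟩ := hLaur
  have : piL ζ ∣ D - LaurentPolynomial.C (evL ζ D) := by
    rw [← hdv, map_sub, hC, sub_self]
  obtain ⟨q, hq⟩ := this
  refine A3_PB_iff.2 ⟨q • y, Submodule.smul_mem _ _ hy, ?_⟩
  rw [← sub_smul, hq, smul_smul, sub_self]
  exact zero_mem _

end

theorem a3_stmt (hLaur : LaurStmt) (hPk : PkStmt)
    (hNS : NSStmt) (hIso : IsoStmt) (hSkew : SkewStmt) : A3Stmt := by
  intro C _ _ d M l J ζ hAS hH0 hJ hζ hL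
  obtain ⟨P, hP⟩ := hPk C d M l ζ hAS
  have hC : ∀ a : ℂ, evL ζ (LaurentPolynomial.C a) = a := hLaur.2.2.2.2.2.2.1 ζ
  -- the splitting of a bounding cycle
  have split : ∀ y ∈ ZN d M, (∃ b ∈ M 2 univ, y = d b) → ∃ y₁ ∈ ZN d M, ∃ y₂ ∈ ZN d M,
      y = y₁ + y₂ ∧ y₁ ∈ (M 2 (Iio 1)).map d ∧ J y₂ ∈ (M 2 (Iio 1)).map d := by
    rintro y hy ⟨b, hb, hyb⟩
    obtain ⟨c₁, hc₁, c₂, hc₂, he, hm⟩ := hAS.mv y hy.1 b hb hyb
    have h1 : d c₁ ∈ ZN d M := ⟨hm, hAS.dd c₁⟩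
    have h2 : d c₂ ∈ ZN d M := by
      have : d c₂ = y - d c₁ := by rw [he]; abel
      rw [this]
      exact sub_mem hy h1
    refine ⟨_, h1, _, h2, he, ⟨c₁, hc₁, rfl⟩, J c₂, ?_, (hJ.Jd c₂).symm⟩
    have := hJ.mem 2 _ c₂ hc₂
    rwa [A3_neg_Ioi] at this
  by_cases hall : ∀ y ∈ ZN d M, y ∈ (M 2 (Iio 1)).map d → y ∈ PB d M ζ
  · refine ⟨0, zero_mem _, fun y hy hb => ⟨0, ?_⟩⟩
    obtain ⟨y₁, h1, y₂, h2, he, m1, m2⟩ := split y hy hb
    have p2 : y₂ ∈ PB d M ζ := by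
      have := A3_J_PB hLaur hJ (hall _ (A3_J_ZN hJ h2) m2)
      rwa [hJ.JJ] at this
    apply A3_PB_iff.1
    rw [smul_zero, sub_zero, he]
    exact add_mem (hall _ h1 m1) p2
  push Not at hall
  obtain ⟨x₀, hx₀, mx₀, nx₀⟩ := hall
  obtain ⟨D, hD, hann⟩ := hL.ann
  obtain ⟨x₁, hx₁, x₂, hx₂, htop⟩ := hL.top
  have hTN : ∀ y ∈ ZN d M, D • y ∈ TN d M ζ := fun y hy =>
    ⟨Submodule.smul_mem _ _ hy, by
      change piL ζ • D • y ∈ BN d M
      rw [smul_smul]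
      exact hann y hy⟩
  set x := D • x₀ with hxdef
  have hx : x ∈ ZN d M := Submodule.smul_mem _ _ hx₀
  have mx : x ∈ (M 2 (Iio 1)).map d := Submodule.smul_mem _ _ mx₀
  have nx : x ∉ PB d M ζ := by
    intro h
    apply nx₀
    have h1 : (LaurentPolynomial.C (evL ζ D) : Lam ℂ) • x₀ ∈ PB d M ζ := by
      have := sub_mem h (A3_ev_PB (ζ := ζ) hLaur D hx₀)
      rwa [hxdef, sub_sub_cancel] at this
    have h2 := Submodule.smul_mem _ (LaurentPolynomial.C (evL ζ D)⁻¹ : Lam ℂ) h1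
    rwa [smul_smul, ← map_mul, inv_mul_cancel₀ hD, map_one, one_smul] at h2
  obtain ⟨c, hc, hdc⟩ : piL ζ • x ∈ BN d M := (hTN x₀ hx₀).2
  have hcQ : c ∈ QN d M ζ := ⟨hc, x, hdc.symm⟩
  obtain ⟨y₀, hy₀, hne⟩ := hNS C d M l ζ P hAS hH0 hζ hP x hx
    (fun h => nx (Submodule.mem_sup_right h)) c hc hdc
  -- coordinates
  have coord : ∀ y ∈ ZN d M, ∃ μ₁ μ₂ : ℂ, y - (LaurentPolynomial.C μ₁ : Lam ℂ) • x₁ -
      (LaurentPolynomial.C μ₂ : Lam ℂ) • x₂ ∈ PB d M ζ ∧ P y c = μ₁ * P x₁ c + μ₂ * P x₂ c := by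
    intro y hy
    obtain ⟨μ₁, μ₂, h⟩ := htop y hy
    have hq := A3_PB_iff.2 h
    refine ⟨μ₁, μ₂, hq, ?_⟩
    have s1 := Submodule.smul_mem _ (LaurentPolynomial.C μ₁ : Lam ℂ) hx₁
    have s2 := Submodule.smul_mem _ (LaurentPolynomial.C μ₂ : Lam ℂ) hx₂
    have e : y = (y - (LaurentPolynomial.C μ₁ : Lam ℂ) • x₁ -
      (LaurentPolynomial.C μ₂ : Lam ℂ) • x₂) + ((LaurentPolynomial.C μ₁ : Lam ℂ) • x₁ +
      (LaurentPolynomial.C μ₂ : Lam ℂ) • x₂) := by abel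
    conv_lhs => rw [e]
    rw [hP.add_left _ (A3_PB_le hAS hq) _ (add_mem s1 s2) c hcQ, hP.zero_left _ hq c hcQ,
      hP.add_left _ s1 _ s2 c hcQ, hP.smul_left _ _ hx₁ c hcQ, hP.smul_left _ _ hx₂ c hcQ, hC, hC,
      zero_add]
  have hxx : P x c = 0 := hIso C d M l ζ P hAS hP x hx mx x (hTN x₀ hx₀) mx c hc hdc
  have ker : ∀ y ∈ ZN d M, P y c = 0 →
      ∃ μ : ℂ, y - (LaurentPolynomial.C μ : Lam ℂ) • x ∈ PB d M ζ := by
    intro y hy h0
    obtain ⟨a₁, a₂, ha, ea⟩ := coord x hx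
    obtain ⟨b₁, b₂, hb, eb⟩ := coord y hy
    obtain ⟨c₁, c₂, -, ec⟩ := coord y₀ hy₀
    obtain ⟨μ, e1, e2⟩ := A3_det (ea.symm.trans hxx) (eb.symm.trans h0)
      (fun h => hne (by rw [ec, h.1, h.2]; ring))
      (fun h => nx (by simpa [h.1, h.2] using ha))
    refine ⟨μ, ?_⟩
    have := sub_mem hb (Submodule.smul_mem _ (LaurentPolynomial.C μ : Lam ℂ) ha)
    rw [e1, e2, map_mul, map_mul, mul_smul, mul_smul, smul_sub, smul_sub] at this
    convert this using 1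
    abel
  have half : ∀ y ∈ ZN d M, y ∈ (M 2 (Iio 1)).map d → P y c = 0 := by
    intro y hy my
    have := hIso C d M l ζ P hAS hP x hx mx (D • y) (hTN y hy) (Submodule.smul_mem _ _ my) c hc hdc
    rw [hP.smul_left _ _ hy c hcQ] at this
    exact (mul_eq_zero.1 this).resolve_left hD
  refine ⟨x, hx, fun y hy hb => ?_⟩
  obtain ⟨y₁, h1, y₂, h2, he, m1, m2⟩ := split y hy hb
  have p2 : P y₂ c = 0 := by
    obtain ⟨μ, hμ⟩ := ker _ (A3_J_ZN hJ h2) (half _ (A3_J_ZN hJ h2) m2)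
    have hq := A3_J_PB hLaur hJ hμ
    rw [map_sub, hJ.JJ, hJ.smul] at hq
    have s1 := Submodule.smul_mem _ (cj (LaurentPolynomial.C μ)) (A3_J_ZN hJ hx)
    have e : y₂ = (y₂ - cj (LaurentPolynomial.C μ) • J x) + cj (LaurentPolynomial.C μ) • J x := by
      abel
    rw [e, hP.add_left _ (A3_PB_le hAS hq) _ s1 c hcQ, hP.zero_left _ hq c hcQ,
      hP.smul_left _ _ (A3_J_ZN hJ hx) c hcQ, hSkew C d M l ζ P J hAS hP hJ x hx c hc hdc]
    ring
  obtain ⟨μ, hμ⟩ := ker y hy (by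
    rw [he, hP.add_left _ h1 _ h2 c hcQ, half _ h1 m1, p2, add_zero])
  exact ⟨μ, A3_PB_iff.1 hμ⟩

end Pool.Agent.MP_bc14e1_gt

end

section

open Set Metric
open scoped Classical

namespace Pool.Agent.MP_bc14e1_gt

section Aux

variable {C C' : Type} [AddCommGroup C] [Module (Lam ℂ) C] [AddCommGroup C'] [Module (Lam ℂ) C']
  {d : C →ₗ[Lam ℂ] C} {M : ℕ → Set ℝ → Submodule (Lam ℂ) C} {d' : C' →ₗ[Lam ℂ] C'}
  {i : C' →ₗ[Lam ℂ] C} {π : C →ₗ[Lam ℂ] C'}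

/-- A retract of a filtered complex. -/
structure Restr_R (d : C →ₗ[Lam ℂ] C) (M : ℕ → Set ℝ → Submodule (Lam ℂ) C)
    (d' : C' →ₗ[Lam ℂ] C') (i : C' →ₗ[Lam ℂ] C) (π : C →ₗ[Lam ℂ] C') : Prop where
  pi : ∀ x, π (i x) = x
  id : ∀ x, i (d' x) = d (i x)
  pd : ∀ c, π (d c) = d' (π c)
  mem : ∀ k J c, c ∈ M k J → π c ∈ (M k J).comap i

theorem Restr_R.inj (h : Restr_R d M d' i π) : Function.Injective i :=
  Function.LeftInverse.injective h.pi

theorem Restr_loc (i : C' →ₗ[Lam ℂ] C) {l : C → C → Lam ℂ} (h : LocS M l) :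
    LocS (fun k J => (M k J).comap i) fun u v => l (i u) (i v) :=
  ⟨⟨fun u u' v => by rw [map_add, h.1.add_left], fun a u v => by rw [map_smul, h.1.smul_left],
    fun u v v' => by rw [map_add, h.1.add_right], fun a u v => by rw [map_smul, h.1.smul_right]⟩,
    fun k k' J J' hJ u hu v hv => h.2 k k' J J' hJ _ hu _ hv⟩

theorem Restr_R.retr (h : Restr_R d M d' i π) {J' J : Set ℝ} (hr : Retr d M J' J) :
    Retr d' (fun k J => (M k J).comap i) J' J := by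
  obtain ⟨r, H, hr⟩ := hr
  refine ⟨π ∘ₗ r ∘ₗ i, π ∘ₗ H ∘ₗ i, fun k => ⟨fun c hc => ?_, fun c hc =>
    h.mem _ _ _ ((hr k).2 _ hc)⟩⟩
  obtain ⟨h1, h2, h3⟩ := (hr k).1 _ hc
  refine ⟨h.mem _ _ _ h1, h.mem _ _ _ h2, ?_⟩
  have h4 := congrArg π h3
  rw [map_add, map_sub, h.pd, h.pi, ← h.id] at h4
  exact h4

theorem Restr_R.zn (h : Restr_R d M d' i π) {y : C'}
    (hy : y ∈ ZN d' fun k J => (M k J).comap i) : i y ∈ ZN d M :=
  ⟨hy.1, by
    have h0 : d' y = 0 := hy.2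
    rw [SetLike.mem_coe, LinearMap.mem_ker, ← h.id, h0, map_zero]⟩

theorem Restr_R.zn' (h : Restr_R d M d' i π) {y : C} (hy : y ∈ ZN d M) :
    π y ∈ ZN d' fun k J => (M k J).comap i :=
  ⟨h.mem _ _ _ hy.1, by
    have h0 : d y = 0 := hy.2
    rw [SetLike.mem_coe, LinearMap.mem_ker, ← h.pd, h0, map_zero]⟩

theorem Restr_R.bn (h : Restr_R d M d' i π) {y : C'}
    (hy : y ∈ BN d' fun k J => (M k J).comap i) : i y ∈ BN d M := by
  obtain ⟨c, hc, rfl⟩ := hy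
  exact ⟨i c, hc, (h.id c).symm⟩

theorem Restr_R.bn' (h : Restr_R d M d' i π) {y : C} (hy : y ∈ BN d M) :
    π y ∈ BN d' fun k J => (M k J).comap i := by
  obtain ⟨c, hc, rfl⟩ := hy
  exact ⟨π c, h.mem _ _ _ hc, (h.pd c).symm⟩

theorem Restr_R.isAS (h : Restr_R d M d' i π) {l : C → C → Lam ℂ} (A : IsAS d M l)
    (adj : ∀ b x, l (i (π b)) (i x) = l b (i x)) :
    IsAS d' (fun k J => (M k J).comap i) fun u v => l (i u) (i v) where
  dd c := h.inj (by rw [h.id, h.id, A.dd, map_zero])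
  d_mem k J c hc := by
    rw [Submodule.mem_comap, h.id]
    exact A.d_mem k J _ hc
  d_zero J c hc := h.inj (by rw [h.id, A.d_zero J _ hc, map_zero])
  mono k J J' hJ := Submodule.comap_mono (A.mono k J J' hJ)
  inter k J J' c hc := A.inter k J J' hc
  tf0 g hg c hc := h.inj (by rw [A.tf0 g hg (i c) (by rw [← map_smul, hc, map_zero]), map_zero])
  tf g hg k J c hc := A.tf g hg k J (i c) (by rw [← map_smul]; exact hc)
  cpt k J c hc := A.cpt k J _ hc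
  retrN a' a b b' h1 h2 h3 h4 h5 := h.retr (A.retrN a' a b b' h1 h2 h3 h4 h5)
  retrV b b' h1 h2 h3 := h.retr (A.retrV b b' h1 h2 h3)
  loc := Restr_loc i A.loc
  stokes u v := by rw [h.id, h.id, A.stokes]
  sym := by
    obtain ⟨E₁, E₂, h1, h2, h3⟩ := A.sym
    exact ⟨_, _, Restr_loc i h1, Restr_loc i h2, fun u hu v hv => by
      rw [h.id, h.id]
      exact h3 _ hu _ hv⟩
  psd := by
    obtain ⟨bad, h1, h2⟩ := A.psd
    exact ⟨bad, h1, fun η hη z hz h0 => h2 η hη _ hz (by rw [← h.id, h0, map_zero])⟩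
  pdV ζ hζ n c h1 h2 x hx h0 hn := by
    obtain ⟨b, hb, a, ha, r, hr, h3, h4⟩ := A.pdV ζ hζ n c h1 h2 (i x) hx
      (by rw [← h.id, h0, map_zero]) fun ⟨w, hw, y, hy, h5⟩ =>
        hn ⟨π w, h.mem _ _ _ hw, π y, h.mem _ _ _ hy, by
          rw [← h.pd, ← map_smul, ← map_add, ← h5, h.pi]⟩
    exact ⟨π b, h.mem _ _ _ hb, π a, h.mem _ _ _ ha, π r, h.mem _ _ _ hr,
      by rw [← h.pd, h3, map_add, map_smul], by rwa [adj]⟩
  pdN ζ hζ a c h1 h2 u hu h0 hn := by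
    obtain ⟨y₀, h0⟩ := h0
    obtain ⟨b, hb, a', ha, r₁, hr₁, r₂, hr₂, h3, ⟨y, h4⟩, h6⟩ := A.pdN ζ hζ a c h1 h2 (i u) hu
      ⟨i y₀, by rw [← h.id, h0, map_smul]⟩ fun ⟨w, hw, y, hy, h5⟩ =>
        hn ⟨π w, h.mem _ _ _ hw, π y, h.mem _ _ _ hy, by
          rw [← h.pd, ← map_smul, ← map_add, ← h5, h.pi]⟩
    exact ⟨π b, h.mem _ _ _ hb, π a', h.mem _ _ _ ha, π r₁, h.mem _ _ _ hr₁, π r₂,
      h.mem _ _ _ hr₂, by rw [← h.pd, h3, map_add, map_add, map_smul],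
      ⟨π y, by rw [← h.pd, h4, map_smul]⟩, by rwa [adj]⟩
  fgV := by
    obtain ⟨n, z, h1, h2⟩ := A.fgV
    refine ⟨n, fun j => π (z j), fun j => ⟨h.mem _ _ _ (h1 j).1, by
      rw [← h.pd, (h1 j).2, map_zero]⟩, fun y hy h0 => ?_⟩
    obtain ⟨a, b, hb, h3⟩ := h2 (i y) hy (by rw [← h.id, h0, map_zero])
    refine ⟨a, π b, h.mem _ _ _ hb, ?_⟩
    rw [← h.pi y, h3, map_add, map_sum, h.pd]
    simp only [map_smul]
  mv y hy c hc h0 := by
    obtain ⟨c₁, h1, c₂, h2, h3, h4⟩ := A.mv (i y) hy (i c) hc (by rw [h0, h.id])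
    exact ⟨π c₁, h.mem _ _ _ h1, π c₂, h.mem _ _ _ h2,
      by rw [← h.pd, ← h.pd, ← map_add, ← h3, h.pi], by rw [← h.pd]; exact h.mem _ _ _ h4⟩

end Aux

theorem restr_stmt : RestrStmt := by
  intro C _ _ d M l e ζ x A H P L
  have he : ∀ y : LinearMap.range e, e y = y := by
    rintro ⟨_, c, rfl⟩
    exact P.ee c
  have h : Restr_R d M (e.rangeRestrict ∘ₗ d ∘ₗ (LinearMap.range e).subtype)
      (LinearMap.range e).subtype e.rangeRestrict :=
    ⟨fun y => Subtype.ext (he y), fun y => (P.ed y).trans (congrArg d (he y)),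
      fun c => Subtype.ext (show e (d c) = e (d (e c)) by rw [← P.ed, P.ee]),
      fun k J c hc => P.mem k J c hc⟩
  have hx : (LinearMap.range e).subtype (e.rangeRestrict x) = x := L.ex
  refine ⟨LinearMap.range e, inferInstance, inferInstance, _, _, _, e.rangeRestrict x,
    h.isAS A fun b y => (P.adj b y).trans (congrArg (l b) (he y)), fun y hy => ?_,
    h.zn' L.cyc, rfl, ?_, fun hn => L.nz (hx ▸ h.bn hn), fun y hy _ n hn => ?_,
    fun y hy _ => ?_⟩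
  · obtain ⟨w, hw, h1⟩ := H _ hy
    exact ⟨_, h.mem _ _ _ hw, by rw [← h.pd, ← h1, map_smul, h.pi]⟩
  · have h1 := h.bn' L.tor
    rwa [map_smul] at h1
  · have h1 := h.bn hn
    rw [map_smul] at h1
    obtain ⟨μ, h2⟩ := L.prim _ (h.zn hy) (he y) n h1
    have h3 := h.bn' h2
    rw [map_sub, map_smul, h.pi] at h3
    exact ⟨μ, h3⟩
  · obtain ⟨μ, y', h1, h2⟩ := L.top _ (h.zn hy) (he y)
    have h3 := h.bn' h2
    rw [map_sub, map_sub, map_smul, map_smul, h.pi] at h3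
    exact ⟨μ, _, h.zn' h1, h3⟩

end Pool.Agent.MP_bc14e1_gt

end

section

open Set Metric
open scoped Classical

namespace Pool.Agent.MP_bc14e1_gt

/-- The Krull intersection theorem in the form that is used. -/
theorem Co_krull {Λ C : Type} [CommRing Λ] [IsNoetherianRing Λ] [AddCommGroup C] [Module Λ C]
    (Z B : Submodule Λ C) {n : ℕ} (z : Fin n → C) (hz : ∀ i, z i ∈ Z)
    (hg : ∀ y ∈ Z, ∃ a : Fin n → Λ, y - ∑ i, a i • z i ∈ B) (π : Λ) {x : C} (hx : x ∈ Z)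
    (hπ : π • x ∈ B) (h : ∀ k : ℕ, ∃ y ∈ Z, x - π ^ k • y ∈ B) : x ∈ B := by
  have hN : (Z.map B.mkQ).FG := by
    refine Submodule.fg_def.2 ⟨range fun i => B.mkQ (z i), finite_range _, le_antisymm ?_ ?_⟩
    · rw [Submodule.span_le]
      rintro _ ⟨i, rfl⟩
      exact Submodule.mem_map_of_mem (hz i)
    · rintro _ ⟨y, hy, rfl⟩
      obtain ⟨a, ha⟩ := hg y hy
      have : B.mkQ y = ∑ i, a i • B.mkQ (z i) := by
        have := (Submodule.Quotient.eq B).2 ha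
        rw [← Submodule.mkQ_apply, ← Submodule.mkQ_apply, map_sum] at this
        simpa only [map_smul] using this
      rw [this]
      exact Submodule.sum_mem _ fun i _ => Submodule.smul_mem _ _ (Submodule.subset_span ⟨i, rfl⟩)
  have : Module.Finite Λ (Z.map B.mkQ) := Module.Finite.iff_fg.2 hN
  obtain ⟨⟨r, hr⟩, e⟩ := (Ideal.mem_iInf_smul_pow_eq_bot_iff (Ideal.span {π})
    (⟨B.mkQ x, Submodule.mem_map_of_mem hx⟩ : Z.map B.mkQ)).1 (by
      rw [Submodule.mem_iInf]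
      intro k
      obtain ⟨y, hy, hk⟩ := h k
      have : (⟨B.mkQ x, Submodule.mem_map_of_mem hx⟩ : Z.map B.mkQ) =
          π ^ k • ⟨B.mkQ y, Submodule.mem_map_of_mem hy⟩ :=
        Subtype.ext ((Submodule.Quotient.eq B).2 hk)
      rw [this]
      exact Submodule.smul_mem_smul (Ideal.pow_mem_pow (Ideal.mem_span_singleton_self π) k)
        Submodule.mem_top)
  obtain ⟨t, rfl⟩ := Ideal.mem_span_singleton'.1 hr
  have e' : B.mkQ ((t * π) • x) = B.mkQ x := congrArg Subtype.val e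
  have h0 : B.mkQ ((t * π) • x) = 0 :=
    (Submodule.Quotient.mk_eq_zero B).2 (by rw [mul_smul]; exact B.smul_mem t hπ)
  exact (Submodule.Quotient.mk_eq_zero B).1 (e'.symm.trans h0)

theorem co_stmt (hLaur : LaurStmt) (hKey : KeyStmt) : CoStmt := by
  intro C _ _ d M l ζ x A hζ L
  obtain ⟨-, hN, -, -, -, -, -, -, hev, hpr, hcj, -⟩ := hLaur
  obtain ⟨K1, -, -, K4, -, K6, -⟩ := hKey C d M l ζ A
  have := hN ℂ
  by_contra hx
  have hπ : piL ζ ≠ 0 := (hpr ζ).ne_zero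
  have hNV : ∀ k, M k (Ioo (-1) 1) ≤ M k (Iio 1) := fun k => A.mono k _ _ Ioo_subset_Iio_self
  obtain ⟨c, hc, hdc⟩ := L.tor
  have hx1 : x ∈ M 1 (Ioo (-1) 1) := L.cyc.1
  have hdx : d x = 0 := L.cyc.2
  obtain ⟨a₁, b₁, ha₁, hab₁, hb₁, hx2⟩ := K6 1 x hx1
  obtain ⟨a₂, b₂, -, -, hb₂, hc2⟩ := K6 2 c hc
  have h0 : -1 < max b₁ b₂ := lt_max_of_lt_left (ha₁.trans hab₁)
  have h1 : max b₁ b₂ < 1 := max_lt hb₁ hb₂
  have hx3 : x ∈ M 1 (Iic (max b₁ b₂)) :=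
    A.mono 1 _ _ (fun t ht => ht.2.le.trans (le_max_left _ _)) hx2
  have hc3 : c ∈ M 2 (Iic (max b₁ b₂)) :=
    A.mono 2 _ _ (fun t ht => ht.2.le.trans (le_max_right _ _)) hc2
  obtain ⟨n, hn⟩ : ∃ n : ℕ, ¬ ∃ w ∈ M 2 (Iio 1), ∃ y ∈ M 1 (Iio 1), x = d w + piL ζ ^ n • y := by
    by_contra hcon
    rw [not_exists_not] at hcon
    obtain ⟨n, z, hz, hg⟩ := A.fgV
    refine hx (Co_krull (M 1 (Iio 1) ⊓ LinearMap.ker d) _ z hz (fun y hy => ?_) (piL ζ)
      ⟨hNV 1 hx1, hdx⟩ ⟨c, hNV 2 hc, hdc⟩ fun k => ?_)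
    · obtain ⟨a, b, hb, e⟩ := hg y hy.1 hy.2
      exact ⟨a, b, hb, by rw [e, add_sub_cancel_left]⟩
    · obtain ⟨w, hw, y, hy, e⟩ := hcon k
      refine ⟨y, ⟨hy, A.tf0 _ (pow_ne_zero k hπ) _ ?_⟩, w, hw, by rw [e, add_sub_cancel_right]⟩
      have := congrArg d e
      rwa [hdx, map_add, A.dd, zero_add, map_smul, eq_comm] at this
  obtain ⟨b, -, a, ha, r, hr, hdb, hnd⟩ := A.pdV ζ hζ n _ h0 h1 x hx3 hdx hn
  have hsub : Ioo (max b₁ b₂) 1 ⊆ Ioo (-1) 1 := Ioo_subset_Ioo_left h0.le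
  have e1 : piL ζ ^ n • d a = d (-r) := by
    have := congrArg d hdb
    rw [A.dd, map_add, map_smul] at this
    rw [map_neg, eq_neg_iff_add_eq_zero, ← this]
  have hy : d a ∈ M 1 (Ioo (max b₁ b₂) 1) :=
    A.tf _ (pow_ne_zero n hπ) _ _ _ (e1 ▸ A.d_mem 1 _ _ (neg_mem hr))
  obtain ⟨μ, hμ⟩ := L.prim (d a) ⟨A.mono 1 _ _ hsub hy, A.dd a⟩ rfl n
    ⟨-r, neg_mem (A.mono 2 _ _ hsub hr), e1.symm⟩
  by_cases hμ0 : μ = 0
  · rw [hμ0, map_zero, zero_smul, sub_zero] at hμ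
    obtain ⟨e', he', hde⟩ := K4 _ 1 h0.le h1 le_rfl _ hy hμ
    have hS := A.loc.1
    have hdj : Disjoint (Ioo (max b₁ b₂) 1) (Iic (max b₁ b₂)) :=
      disjoint_left.2 fun t ht ht' => not_le.2 ht.1 ht'
    obtain ⟨g, hg⟩ := (hev ζ _).1 (K1 (a - e') (sub_mem ha (hNV 2 (A.mono 2 _ _ hsub he')))
      ⟨0, by rw [map_sub, hde, sub_self, smul_zero]⟩ c ⟨hc, x, hdc.symm⟩)
    have e2 : l a c = piL ζ * g := by
      rw [← hg, ← sub_add_cancel a e', hS.add_left, A.loc.2 _ _ _ _ hdj _ he' _ hc3, add_zero,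
        sub_add_cancel]
    have e3 : cj (piL ζ) * l b x = piL ζ ^ n * (piL ζ * g) := by
      rw [← hS.smul_right, ← hdc, ← A.stokes, hdb, hS.add_left, hS.smul_left,
        A.loc.2 _ _ _ _ hdj _ hr _ hc3, add_zero, e2]
    have hu : IsUnit (-(LaurentPolynomial.T (-1) *
        LaurentPolynomial.C ((ζ⁻¹ : Circle) : ℂ)) : Lam ℂ) :=
      ((LaurentPolynomial.isUnit_T _).mul
        ((Ne.isUnit (Circle.coe_ne_zero _)).map LaurentPolynomial.C)).neg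
    rw [hcj] at e3
    refine hnd (hu.dvd_mul_left.1 ⟨g, mul_left_cancel₀ hπ ?_⟩)
    linear_combination e3
  · obtain ⟨w, hw, e⟩ := hμ
    refine hx ⟨(LaurentPolynomial.C μ⁻¹ : Lam ℂ) • (a - w),
      Submodule.smul_mem _ _ (sub_mem ha (hNV 2 hw)), ?_⟩
    rw [map_smul, map_sub, e, sub_sub_cancel, smul_smul, ← map_mul, inv_mul_cancel₀ hμ0, map_one,
      one_smul]

end Pool.Agent.MP_bc14e1_gt

end

section

open Set Metric
open scoped Classical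

namespace Pool.Agent.MP_bc14e1_gt

theorem clash_stmt (hLaur : LaurStmt) (hRestr : RestrStmt) (hCo : CoStmt)
    (hPk : PkStmt) (hNS : NSStmt) (hIso : IsoStmt) : ClashStmt := by
  intro C _ _ d M l e ζ x hAS hH hP hζ hL
  obtain ⟨C', _, _, d', M', l', x', hAS', hH', hL'⟩ := hRestr C d M l e ζ x hAS hH hP hL
  obtain ⟨P, hF⟩ := hPk C' d' M' l' ζ hAS'
  obtain ⟨c, hc, hdc⟩ := hL'.tor
  obtain ⟨y, hy, hne⟩ := hNS C' d' M' l' ζ P hAS' hH' hζ hF x' hL'.cyc hL'.nz c hc hdc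
  obtain ⟨μ, y', hy', hb⟩ := hL'.top y hy rfl
  have hco := hCo C' d' M' l' ζ x' hAS' hζ hL'
  have hQ : c ∈ QN d' M' ζ := ⟨hc, x', hdc.symm⟩
  have hx0 : P x' c = 0 :=
    hIso C' d' M' l' ζ P hAS' hF x' hL'.cyc hco x' ⟨hL'.cyc, hL'.tor⟩ hco c hc hdc
  have hm : (LaurentPolynomial.C μ : Lam ℂ) • x' ∈ ZN d' M' := Submodule.smul_mem _ _ hL'.cyc
  have hPB : y - (LaurentPolynomial.C μ : Lam ℂ) • x' ∈ PB d' M' ζ := by
    have e1 : y - (LaurentPolynomial.C μ : Lam ℂ) • x' =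
        piL ζ • y' + (y - (LaurentPolynomial.C μ : Lam ℂ) • x' - piL ζ • y') := by abel
    rw [e1]
    exact Submodule.add_mem_sup ⟨y', hy', rfl⟩ hb
  apply hne
  have e2 : y = (y - (LaurentPolynomial.C μ : Lam ℂ) • x') +
      (LaurentPolynomial.C μ : Lam ℂ) • x' := by abel
  rw [e2, hF.add_left _ (sub_mem hy hm) _ hm c hQ, hF.zero_left _ hPB c hQ,
    hF.smul_left _ _ hL'.cyc c hQ, hx0, mul_zero, add_zero]

end Pool.Agent.MP_bc14e1_gt

end

section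

/-! Algebra of colourings. -/

open Set Metric
open scoped Classical

namespace Pool.Agent.MP_bc14e1_gt

noncomputable section

open Finsupp QuadraticAlgebra

/-! ### The ring of Eisenstein integers -/

theorem Col_omC : (omC : ℂ) = ⟨1 / 2, √3 / 2⟩ := by
  rw [omC, Circle.coe_exp, Complex.exp_mul_I, ← Complex.ofReal_cos, ← Complex.ofReal_sin,
    Real.cos_pi_div_three, Real.sin_pi_div_three]
  apply Complex.ext <;> simp

theorem Col_omC_sq : (omC : ℂ) * omC = omC - 1 := by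
  have h : √3 * √3 = 3 := Real.mul_self_sqrt (by norm_num)
  rw [Col_omC]
  apply Complex.ext
  · simp only [Complex.mul_re, Complex.sub_re, Complex.one_re]
    linear_combination (-1 / 4 : ℝ) * h
  · simp only [Complex.mul_im, Complex.sub_im, Complex.one_im]
    ring

/-- The embedding in the complex numbers. -/
def Col_phi : Eis ℤ →+* ℂ where
  toFun z := z.re + z.im * (omC : ℂ)
  map_one' := by simp
  map_mul' z w := by
    simp only [re_mul, im_mul]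
    push_cast
    linear_combination (-(z.im : ℂ) * w.im) * Col_omC_sq
  map_zero' := by simp
  map_add' z w := by
    simp only [re_add, im_add]
    push_cast
    ring

theorem Col_phi_om : Col_phi (om ℤ : (Eis ℤ)ˣ) = omC := by
  simp [Col_phi, om]

theorem Col_phi_inj : Function.Injective Col_phi := by
  rw [injective_iff_map_eq_zero]
  intro z hz
  change (z.re : ℂ) + z.im * (omC : ℂ) = 0 at hz
  have h1 := congrArg Complex.im hz
  rw [Col_omC] at h1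
  have h2 : z.im = 0 := by simpa using h1
  rw [h2] at hz
  ext
  · simpa using hz
  · exact h2

theorem Col_cancel {k : ℕ} {z : Eis ℤ} (h : 2 ^ k * z = 0) : z = 0 := by
  have h1 := congrArg Col_phi h
  rw [map_mul, map_pow, map_ofNat, map_zero] at h1
  exact Col_phi_inj (by simpa using h1)

/-- Reduction modulo eight as a ring homomorphism. -/
def Col_red : Eis ℤ →+* Eis (ZMod 8) where
  toFun := red8
  map_one' := by ext <;> simp [red8]
  map_mul' z w := by ext <;> simp [red8]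
  map_zero' := by ext <;> simp [red8]
  map_add' z w := by ext <;> simp [red8]

theorem Col_red_eq (z : Eis ℤ) : red8 z = Col_red z := rfl

theorem Col_red_star (z : Eis ℤ) : star (Col_red z) = Col_red (star z) := by
  ext <;> simp [Col_red, red8]

theorem Col_red_om (n : ℤ) :
    Col_red (om ℤ ^ n : (Eis ℤ)ˣ) = (om (ZMod 8) ^ n : (Eis (ZMod 8))ˣ) := by
  have h : Units.map (Col_red : Eis ℤ →* Eis (ZMod 8)) (om ℤ) = om (ZMod 8) := by
    ext <;> simp [Col_red, red8, om]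
  rw [← h, ← map_zpow]
  rfl

theorem Col_star_om (n : ℤ) :
    star ((om ℤ ^ n : (Eis ℤ)ˣ) : Eis ℤ) = (om ℤ ^ (-n) : (Eis ℤ)ˣ) := by
  have h : Units.map (starRingEnd (Eis ℤ) : Eis ℤ →* Eis ℤ) (om ℤ) = (om ℤ)⁻¹ := by
    ext <;> simp [om, starRingEnd_apply]
  rw [zpow_neg, ← inv_zpow, ← h, ← map_zpow]
  rfl

theorem Col_unit {z : Eis ℤ} (h : Odd z.re ∨ Odd z.im) : IsUnit (Col_red z) := by
  rw [isUnit_iff_norm_isUnit]
  have h1 : Odd (z.re * z.re + z.re * z.im + z.im * z.im) := by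
    simp only [Int.odd_add, Int.odd_mul, Int.even_mul, ← Int.not_odd_iff_even] at h ⊢
    tauto
  have h2 : (Col_red z).norm = ((z.re * z.re + z.re * z.im + z.im * z.im : ℤ) : ZMod 8) := by
    simp [norm_def, Col_red, red8]
  rw [h2, ZMod.coe_int_isUnit_iff_isCoprime]
  exact (Int.isCoprime_two_left.2 h1).pow_left (m := 3)

theorem Col_two (n : ℕ) : ∀ a b : Eis ℤ,
    a.re.natAbs + a.im.natAbs + b.re.natAbs + b.im.natAbs = n → ¬ (a = 0 ∧ b = 0) →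
    ∃ (k : ℕ) (a' b' : Eis ℤ), a = 2 ^ k * a' ∧ b = 2 ^ k * b' ∧
      (IsUnit (Col_red a') ∨ IsUnit (Col_red b')) := by
  induction n using Nat.strong_induction_on with
  | _ n ih =>
    intro a b hn h0
    by_cases ha : Odd a.re ∨ Odd a.im
    · exact ⟨0, a, b, by simp, by simp, Or.inl (Col_unit ha)⟩
    by_cases hb : Odd b.re ∨ Odd b.im
    · exact ⟨0, a, b, by simp, by simp, Or.inr (Col_unit hb)⟩
    simp only [not_or, Int.not_odd_iff_even] at ha hb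
    obtain ⟨⟨x, hx⟩, y, hy⟩ := ha
    obtain ⟨⟨z, hz⟩, w, hw⟩ := hb
    have e1 : a = 2 * ⟨x, y⟩ := by
      rw [two_mul]
      ext
      · exact hx
      · exact hy
    have e2 : b = 2 * ⟨z, w⟩ := by
      rw [two_mul]
      ext
      · exact hz
      · exact hw
    have h1 : ¬ ((⟨x, y⟩ : Eis ℤ) = 0 ∧ (⟨z, w⟩ : Eis ℤ) = 0) := fun h =>
      h0 ⟨by rw [e1, h.1, mul_zero], by rw [e2, h.2, mul_zero]⟩
    have h2 : x.natAbs + y.natAbs + z.natAbs + w.natAbs < n := by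
      have : ¬ (x = 0 ∧ y = 0 ∧ z = 0 ∧ w = 0) := by
        rintro ⟨rfl, rfl, rfl, rfl⟩
        exact h1 ⟨rfl, rfl⟩
      omega
    obtain ⟨k, a', b', h3, h4, h5⟩ := ih _ h2 ⟨x, y⟩ ⟨z, w⟩ rfl h1
    exact ⟨k + 1, a', b', by rw [e1, h3]; ring, by rw [e2, h4]; ring, h5⟩

theorem Col_mu {R : Type} [CommRing R] {a b a' b' : R} (hu : IsUnit a ∨ IsUnit b)
    (h : a' * b = b' * a) : ∃ μ, a' = μ * a ∧ b' = μ * b := by
  rcases hu with hu | hu
  · obtain ⟨i, hi⟩ := hu.exists_right_inv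
    exact ⟨a' * i, by linear_combination (-a') * hi, by linear_combination (-b') * hi - i * h⟩
  · obtain ⟨i, hi⟩ := hu.exists_right_inv
    exact ⟨b' * i, by linear_combination (-a') * hi + i * h, by linear_combination (-b') * hi⟩

/-! ### The Dehn complex of the infinite cyclic cover -/

variable {G Reg Cr : Type} [Group G] {t : G} {lg : G → ℤ}

/-- The logarithm. -/
structure Col_Lg (t : G) (lg : G → ℤ) : Prop where
  h1 : ∀ g, t ^ lg g = g
  h2 : ∀ n : ℤ, t ^ n = 1 → n = 0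

theorem Col_Lg.pow (L : Col_Lg t lg) (n : ℤ) : lg (t ^ n) = n := by
  have := L.h2 (lg (t ^ n) - n) (by rw [zpow_sub, L.h1, mul_inv_cancel])
  omega

theorem Col_Lg.mul (L : Col_Lg t lg) (g g' : G) : lg (g * g') = lg g + lg g' := by
  have : g * g' = t ^ (lg g + lg g') := by rw [zpow_add, L.h1, L.h1]
  rw [this, L.pow]

theorem Col_Lg.inv (L : Col_Lg t lg) (g : G) : lg g⁻¹ = -lg g := by
  have : g⁻¹ = t ^ (-lg g) := by rw [zpow_neg, L.h1]
  rw [this, L.pow]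

theorem Col_Lg.ext (L : Col_Lg t lg) {g g' : G} (h : lg g = lg g') : g = g' := by
  rw [← L.h1 g, h, L.h1]

theorem Col_lc_d2 (S : Type) [CommRing S] {M : Type} [AddCommGroup M] [Module S M]
    (reg : Cr → Fin 4 → Reg) (h : Reg → G) (w : Reg × G → M) (x : Cr × G) (a : S) :
    linearCombination S w (d2A S reg h (single x a)) =
      a • (w (reg x.1 0, x.2) - w (reg x.1 1, x.2) +
        w (reg x.1 2, x.2 * (h (reg x.1 1) * (h (reg x.1 2))⁻¹)) -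
        w (reg x.1 3, x.2 * (h (reg x.1 1) * (h (reg x.1 2))⁻¹))) := by
  simp only [d2A, linearCombination_single, map_smul, map_sub, map_add, one_smul]

theorem Col_d1_d2 (S : Type) [CommRing S] {reg : Cr → Fin 4 → Reg} {h : Reg → G}
    (hol : ∀ c, h (reg c 0) = h (reg c 1) * (h (reg c 2))⁻¹ * h (reg c 3))
    (y : (Cr × G) →₀ S) : d1A S h (d2A S reg h y) = 0 := by
  induction y using induction_linear with
  | zero => simp
  | add a b ha hb => simp only [map_add, ha, hb, add_zero]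
  | single z a =>
    rw [d1A, Col_lc_d2]
    simp only [hol z.1, mul_assoc, inv_mul_cancel, mul_one]
    rw [smul_eq_zero_of_right]
    abel

/-- The values of a colouring on the generators. -/
def Col_w (lg : G → ℤ) (c : Reg → Eis ℤ) (x : Reg × G) : Eis ℤ :=
  (om ℤ ^ lg x.2 : (Eis ℤ)ˣ) * c x.1

theorem Col_colE (c : Reg → Eis ℤ) : colE lg c = linearCombination ℤ (Col_w lg c) := rfl

theorem Col_w_d2 (L : Col_Lg t lg) (reg : Cr → Fin 4 → Reg) (gap : Reg → ℤ) (c : Reg → Eis ℤ)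
    (x : Cr) (g : G) :
    Col_w lg c (reg x 0, g) - Col_w lg c (reg x 1, g) +
      Col_w lg c (reg x 2, g * (t ^ gap (reg x 1) * (t ^ gap (reg x 2))⁻¹)) -
      Col_w lg c (reg x 3, g * (t ^ gap (reg x 1) * (t ^ gap (reg x 2))⁻¹)) =
    (om ℤ ^ lg g : (Eis ℤ)ˣ) * (c (reg x 0) - c (reg x 1) +
      (om ℤ ^ (gap (reg x 1) - gap (reg x 2)) : (Eis ℤ)ˣ) * (c (reg x 2) - c (reg x 3))) := by
  simp only [Col_w]
  rw [← zpow_sub, L.mul, L.pow, zpow_add, Units.val_mul]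
  ring

theorem Col_isCol (L : Col_Lg t lg) {reg : Cr → Fin 4 → Reg} {gap : Reg → ℤ} {c : Reg → Eis ℤ}
    (h : ∀ y, colE lg c (d2A ℤ reg (fun r => t ^ gap r) y) = 0) : IsCol reg gap c := by
  intro x
  have := h (single (x, 1) 1)
  rw [Col_colE, Col_lc_d2, one_smul, Col_w_d2 L] at this
  exact (Units.mul_right_eq_zero _).1 this

theorem Col_lin (a b : Eis ℤ) (c c' : Reg → Eis ℤ) (x : (Reg × G) →₀ ℤ) :
    colE lg (fun r => a * c r + b * c' r) x = a * colE lg c x + b * colE lg c' x := by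
  induction x using induction_linear with
  | zero => simp
  | add u v hu hv =>
    simp only [map_add, hu, hv]
    ring
  | single z n =>
    simp only [colE, linearCombination_single, zsmul_eq_mul]
    ring

theorem Col_norm (L : Col_Lg t lg) (gap : Reg → ℤ) (c : Reg → Eis ℤ) (u v : Eis ℤ)
    (x : (Reg × G) →₀ ℤ) :
    colE lg (fun r => c r - u - v * (om ℤ ^ gap r : (Eis ℤ)ˣ)) x = colE lg c x -
      linearCombination ℤ (fun z : Bool × G => (om ℤ ^ lg z.2 : (Eis ℤ)ˣ) * cond z.1 v (-u))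
        (d1A ℤ (fun r => t ^ gap r) x) := by
  induction x using induction_linear with
  | zero => simp
  | add u v hu hv =>
    simp only [map_add, hu, hv]
    ring
  | single z n =>
    simp only [colE, d1A, linearCombination_single, map_smul, map_sub, one_smul, cond, L.mul,
      L.pow, zpow_add, Units.val_mul]
    simp only [zsmul_eq_mul]
    ring

theorem Col_J_d1 (L : Col_Lg t lg) {gap : Reg → ℤ} {ρ : Reg → Reg} {k : ℤ}
    (hk : ∀ r, gap (ρ r) = k - gap r) (a₀ : G) (x : (Reg × G) →₀ ℤ) :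
    d1A ℤ (fun r => t ^ gap r) (x.mapDomain fun z => (ρ z.1, z.2⁻¹ * a₀)) =
      (d1A ℤ (fun r => t ^ gap r) x).mapDomain
        fun z => (z.1, z.2⁻¹ * a₀ * cond z.1 (t ^ k) 1) := by
  induction x using induction_linear with
  | zero => simp
  | add u v hu hv => simp only [map_add, mapDomain_add, hu, hv]
  | single z n =>
    have e : z.2⁻¹ * a₀ * t ^ gap (ρ z.1) = (z.2 * t ^ gap z.1)⁻¹ * a₀ * t ^ k := by
      apply L.ext
      simp only [L.mul, L.inv, L.pow, hk]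
      ring
    simp only [d1A, mapDomain_single, linearCombination_single, e, mapDomain_smul, mapDomain_sub,
      cond, mul_one]

theorem Col_J_col (L : Col_Lg t lg) (ρ : Reg → Reg) (a₀ : G) (c : Reg → Eis ℤ)
    (x : (Reg × G) →₀ ℤ) :
    colE lg (fun r => star (c (ρ r))) x = (om ℤ ^ lg a₀ : (Eis ℤ)ˣ) *
      star (colE lg c (x.mapDomain fun z => (ρ z.1, z.2⁻¹ * a₀))) := by
  induction x using induction_linear with
  | zero => simp
  | add u v hu hv => simp only [map_add, mapDomain_add, hu, hv, star_add, mul_add]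
  | single z n =>
    simp only [colE, mapDomain_single, linearCombination_single, zsmul_eq_mul, star_mul',
      star_intCast, Col_star_om, L.mul, L.inv]
    have : ((om ℤ ^ lg z.2 : (Eis ℤ)ˣ) : Eis ℤ) =
        (om ℤ ^ lg a₀ : (Eis ℤ)ˣ) * (om ℤ ^ (-(-lg z.2 + lg a₀)) : (Eis ℤ)ˣ) := by
      rw [← Units.val_mul, ← zpow_add]
      congr 2
      ring
    rw [this]
    ring

end

end Pool.Agent.MP_bc14e1_gt

end

section

open Set Metric
open scoped Classical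

namespace Pool.Agent.MP_bc14e1_gt

noncomputable section

open Finsupp

/-- Integral chains as complex chains. -/
def Col_cz (α : Type) : (α →₀ ℤ) →+ (α →₀ ℂ) := mapRange.addMonoidHom (Int.castAddHom ℂ)

theorem Col_cz_single {α : Type} (z : α) (n : ℤ) : Col_cz α (single z n) = single z (n : ℂ) := by
  simp [Col_cz]

variable {G Y Reg Cr : Type} [Group G] {t : G} {lg : G → ℤ}

theorem Col_cz_d1 (h : Reg → G) (x : (Reg × G) →₀ ℤ) :
    d1A ℂ h (Col_cz _ x) = Col_cz _ (d1A ℤ h x) := by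
  induction x using induction_linear with
  | zero => simp
  | add u v hu hv => simp only [map_add, hu, hv]
  | single z n =>
    simp only [d1A, Col_cz_single, linearCombination_single, smul_sub, smul_single, smul_eq_mul,
      mul_one, map_sub]

/-- The complex form of a colouring. -/
def Col_Phi (lg : G → ℤ) (c : Reg → Eis ℤ) : ((Reg × G) →₀ ℂ) →ₗ[ℂ] ℂ :=
  linearCombination ℂ fun x => Col_phi (Col_w lg c x)

omit [Group G] in
theorem Col_Phi_cz (c : Reg → Eis ℤ) (x : (Reg × G) →₀ ℤ) :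
    Col_Phi lg c (Col_cz _ x) = Col_phi (colE lg c x) := by
  induction x using induction_linear with
  | zero => simp
  | add u v hu hv => simp only [map_add, hu, hv]
  | single z n =>
    simp only [Col_Phi, Col_colE, Col_cz_single, linearCombination_single, zsmul_eq_mul, map_mul,
      map_intCast, smul_eq_mul]

theorem Col_Phi_d2 (L : Col_Lg t lg) {reg : Cr → Fin 4 → Reg} {gap : Reg → ℤ} {c : Reg → Eis ℤ}
    (hc : IsCol reg gap c) (y : (Cr × G) →₀ ℂ) :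
    Col_Phi lg c (d2A ℂ reg (fun r => t ^ gap r) y) = 0 := by
  induction y using induction_linear with
  | zero => simp
  | add u v hu hv => simp only [map_add, hu, hv, add_zero]
  | single z a =>
    rw [Col_Phi, Col_lc_d2, ← map_sub, ← map_add, ← map_sub, Col_w_d2 L, hc z.1]
    simp

/-- The deck transformation. -/
def Col_sh (t : G) (α : Type) : ((α × G) →₀ ℂ) →ₗ[ℂ] ((α × G) →₀ ℂ) :=
  lmapDomain ℂ ℂ fun z => (z.1, t * z.2)

theorem Col_sh_single {α : Type} (z : α × G) (a : ℂ) :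
    Col_sh t α (single z a) = single (z.1, t * z.2) a := by
  simp [Col_sh]

theorem Col_Phi_sh (L : Col_Lg t lg) (c : Reg → Eis ℤ) (y : (Reg × G) →₀ ℂ) :
    Col_Phi lg c (Col_sh t Reg y) = omC * Col_Phi lg c y := by
  have h1 : lg t = 1 := by simpa using L.pow 1
  induction y using induction_linear with
  | zero => simp
  | add u v hu hv => simp only [map_add, hu, hv, mul_add]
  | single z a =>
    simp only [Col_Phi, Col_sh_single, linearCombination_single, Col_w, L.mul, h1, zpow_add,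
      zpow_one, Units.val_mul, map_mul, Col_phi_om, smul_eq_mul]
    ring

theorem Col_d1_sh (h : Reg → G) (y : (Reg × G) →₀ ℂ) :
    d1A ℂ h (Col_sh t Reg y) = Col_sh t Bool (d1A ℂ h y) := by
  induction y using induction_linear with
  | zero => simp
  | add u v hu hv => simp only [map_add, hu, hv]
  | single z a =>
    simp only [d1A, Col_sh_single, linearCombination_single, map_smul, map_sub, mul_assoc]

variable [TopologicalSpace Y] [MulAction G Y]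

theorem Col_cz_ell (l : Reg → Tot ℤ Y) (x : (Reg × G) →₀ ℤ) :
    ellC ℂ l (Col_cz _ x) = castZ ℂ Y (ellC ℤ l x) := by
  induction x using induction_linear with
  | zero => simp
  | add u v hu hv => simp only [map_add, hu, hv]
  | single z n =>
    have e : castZ ℂ Y (castZ ℤ Y (l z.1)) = castZ ℂ Y (l z.1) := by
      ext σ
      simp [cast_apply]
    simp only [ellC, Col_cz_single, linearCombination_single]
    rw [LinearMap.map_smulₛₗ, gs, gs, cast_psh, e]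
    rfl

theorem Col_BC_mono {R : Type} [CommRing R] {A B : Set Y} (h : A ⊆ B) (k : ℕ) :
    BC R A k ≤ BC R B k :=
  Submodule.map_mono (inf_le_inf_right _ (CH_mono h))

theorem Col_BC_psh {R : Type} [CommRing R] {A B : Set Y} {J : Y → Y} (hJ : Continuous J)
    (h : MapsTo J A B) {k : ℕ} {c : Tot R Y} (hc : c ∈ BC R A k) : psh R J c ∈ BC R B k := by
  obtain ⟨b, hb, rfl⟩ := hc
  exact ⟨psh R J b, ⟨psh_mem_CH J h hb.1, psh_mem_DG J hb.2⟩, dT_psh_cont hJ b⟩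

variable [ContinuousConstSMul G Y]

theorem Col_ell_sh (l : Reg → Tot ℤ Y) (y : (Reg × G) →₀ ℂ) :
    ellC ℂ l (Col_sh t Reg y) = gs ℂ Y t (ellC ℂ l y) := by
  induction y using induction_linear with
  | zero => simp
  | add u v hu hv => simp only [map_add, hu, hv]
  | single z a => simp only [ellC, Col_sh_single, linearCombination_single, map_smul, gs_mul]

theorem Col_line {f : Y → ℝ} {hf : ∀ y, f (t • y) = f y}
    (h : Line (dTw ℂ Y t) (lvTw ℂ t f hf) omC) :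
    ∃ w ∈ ZC ℂ (f ⁻¹' Ioo (-1) 1) 1, ∀ y ∈ ZC ℂ (f ⁻¹' Ioo (-1) 1) 1, y ∈ BC ℂ univ 1 →
      ∃ μ : ℂ, ∃ y' ∈ ZC ℂ (f ⁻¹' Ioo (-1) 1) 1,
        y - μ • w - (gs ℂ Y t y' - (omC : ℂ) • y') ∈ BC ℂ (f ⁻¹' Ioo (-1) 1) 1 := by
  obtain ⟨w, hw, H⟩ := h
  refine ⟨w, hw, fun y hy ⟨b, hb, e⟩ => ?_⟩
  obtain ⟨μ, y', hy', b', hb', e'⟩ := H y hy ⟨b, hb, e.symm⟩
  refine ⟨μ, y', hy', b', hb', ?_⟩
  change dT ℂ Y b' = y - act ℂ Y t (LaurentPolynomial.C μ) w - act ℂ Y t (piL omC) y' at e'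
  rw [e', piL, map_sub, LinearMap.sub_apply, act_C, act_C, act_T, zpow_one]

theorem Col_det (L : Col_Lg t lg) {f : Y → ℝ} {hf : ∀ y, f (t • y) = f y}
    {reg : Cr → Fin 4 → Reg} {gap : Reg → ℤ} {l : Reg → Tot ℤ Y} {yn ys : Y}
    (D : DehnMap (f ⁻¹' Ioo (-1) 1) reg (fun r => t ^ gap r) l yn ys)
    (h : Line (dTw ℂ Y t) (lvTw ℂ t f hf) omC) :
    ∃ xw, ∀ x : (Reg × G) →₀ ℤ, d1A ℤ (fun r => t ^ gap r) x = 0 → ellC ℤ l x ∈ BC ℤ univ 1 →
      ∃ μ : ℂ, ∀ c, IsCol reg gap c → Col_phi (colE lg c x) = μ * Col_Phi lg c xw := by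
  obtain ⟨w, hw, H⟩ := Col_line h
  obtain ⟨xw, h1, h2⟩ := D.gen ℂ w hw
  have hI : Inv t (f ⁻¹' Ioo (-1) 1) := fun y => by simp only [mem_preimage, hf]
  have hO : ∀ g : G, ∀ y ∈ f ⁻¹' Ioo (-1) 1, g • y ∈ f ⁻¹' Ioo (-1) 1 := fun g y hy =>
    L.h1 g ▸ (hI.zpow _ y).2 hy
  refine ⟨xw, fun x hx hb => ?_⟩
  have h3 : d1A ℂ (fun r => t ^ gap r) (Col_cz _ x) = 0 := by rw [Col_cz_d1, hx, map_zero]
  have h4 : ellC ℂ l (Col_cz _ x) ∈ BC ℂ univ 1 := by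
    obtain ⟨b, hb, e⟩ := hb
    exact ⟨castZ ℂ Y b, ⟨mem_CH_univ _, cast_mem_DG _ hb.2⟩, by rw [Col_cz_ell, ← e, cast_dT]⟩
  obtain ⟨μ, y', hy', h5⟩ := H _ (D.ellC_mem subset_rfl hO h3) h4
  obtain ⟨x', h6, h7⟩ := D.gen ℂ y' hy'
  have h8 : Col_cz _ x - μ • xw - (Col_sh t Reg x' - (omC : ℂ) • x') ∈
      LinearMap.range (d2A ℂ reg fun r => t ^ gap r) := by
    rw [← D.inj ℂ _ (by simp only [map_sub, map_smul, Col_d1_sh, h1, h3, h6]; simp)]
    have h9 : gs ℂ Y t (y' - ellC ℂ l x') ∈ BC ℂ (f ⁻¹' Ioo (-1) 1) 1 :=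
      Col_BC_psh (continuous_const_smul t) (hO t) h7
    have := sub_mem (add_mem (add_mem h5 (Submodule.smul_mem _ μ h2)) h9)
      (Submodule.smul_mem _ (omC : ℂ) h7)
    simp only [map_sub, map_smul, Col_ell_sh, smul_sub] at this ⊢
    refine mem_of_eq_of_mem ?_ this
    abel
  obtain ⟨y, hy⟩ := h8
  refine ⟨μ, fun c hc => ?_⟩
  have := Col_Phi_d2 L hc y
  simp only [hy, map_sub, map_smul, Col_Phi_sh L, Col_Phi_cz, smul_eq_mul] at this
  linear_combination this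

end

theorem col_stmt : ColStmt := by
  intro G Y Reg Cr _ _ _ _ f t hf lg reg ρ C l yn ys J a₀ D h1 h2 hJ hs hL
  have L : Col_Lg t lg := ⟨h1, h2⟩
  obtain ⟨xw, hw⟩ := Col_det L D hL
  have hcol : ∀ a b : Eis ℤ, IsCol reg C.gap fun r => a * C.c1 r + b * C.c2 r := by
    intro a b x
    linear_combination a * C.col1.1 x + b * C.col2.1 x
  have hfin : ∀ (a b : Eis ℤ) (χ : AddChar (Eis (ZMod 8)) ℂ),
      TwOK reg C.gap χ (fun r => red8 (a * C.c1 r + b * C.c2 r)) →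
      (∀ x : (Reg × G) →₀ ℤ, d1A ℤ (fun r => t ^ C.gap r) x = 0 → ellC ℤ l x ∈ BC ℤ univ 1 →
        a * colE lg C.c1 x + b * colE lg C.c2 x = 0) →
      ∃ (c : Reg → Eis ℤ) (χ : AddChar (Eis (ZMod 8)) ℂ), IsCol reg C.gap c ∧ c C.R0 = 0 ∧
        c C.R1 = 0 ∧ TwOK reg C.gap χ (fun r => red8 (c r)) ∧ ∀ x : (Reg × G) →₀ ℤ,
          d1A ℤ (fun r => t ^ C.gap r) x = 0 → ellC ℤ l x ∈ BC ℤ univ 1 → colE lg c x = 0 :=
    fun a b χ h h' => ⟨_, χ, hcol a b, by simp [C.col1.2.1, C.col2.2.1],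
      by simp [C.col1.2.2, C.col2.2.2], h, fun x hx hb => by rw [Col_lin, h' x hx hb]⟩
  by_cases h0 : ∀ x : (Reg × G) →₀ ℤ, d1A ℤ (fun r => t ^ C.gap r) x = 0 →
      ellC ℤ l x ∈ BC ℤ univ 1 → colE lg C.c2 x = 0 ∧ -colE lg C.c1 x = 0
  · obtain ⟨a, b, χ, h⟩ := C.ex
    refine hfin a b χ h fun x hx hb => ?_
    rw [(h0 x hx hb).1, neg_eq_zero.1 (h0 x hx hb).2]
    simp
  simp only [not_forall] at h0
  obtain ⟨x₀, hx₀, hb₀, h0⟩ := h0
  obtain ⟨k, a, b, ha, hb, hu⟩ := Col_two _ _ _ rfl h0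
  have hP : ∀ x : (Reg × G) →₀ ℤ, d1A ℤ (fun r => t ^ C.gap r) x = 0 →
      ellC ℤ l x ∈ BC ℤ univ 1 → a * colE lg C.c1 x + b * colE lg C.c2 x = 0 := by
    intro x hx hx'
    obtain ⟨μ, hμ⟩ := hw x hx hx'
    obtain ⟨μ₀, hμ₀⟩ := hw x₀ hx₀ hb₀
    have e : colE lg C.c2 x₀ * colE lg C.c1 x = colE lg C.c1 x₀ * colE lg C.c2 x := by
      apply Col_phi_inj
      rw [map_mul, map_mul, hμ _ C.col1.1, hμ _ C.col2.1, hμ₀ _ C.col1.1, hμ₀ _ C.col2.1]
      ring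
    apply Col_cancel (k := k)
    linear_combination e - colE lg C.c1 x * ha - colE lg C.c2 x * hb
  obtain ⟨κ, hκ⟩ := C.gρ
  obtain ⟨c, hc⟩ : ∃ c : Reg → Eis ℤ, c = fun r => a * C.c1 r + b * C.c2 r := ⟨_, rfl⟩
  obtain ⟨v, hv⟩ : ∃ v : Eis ℤ,
    v = -(om ℤ : (Eis ℤ)ˣ) * (star (c (ρ C.R1)) - star (c (ρ C.R0))) := ⟨_, rfl⟩
  obtain ⟨u, hu'⟩ : ∃ u : Eis ℤ, u = star (c (ρ C.R0)) - v := ⟨_, rfl⟩
  have hP' : ∀ x : (Reg × G) →₀ ℤ, d1A ℤ (fun r => t ^ C.gap r) x = 0 →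
      ellC ℤ l x ∈ BC ℤ univ 1 →
      colE lg (fun r => star (c (ρ r)) - u - v * (om ℤ ^ C.gap r : (Eis ℤ)ˣ)) x = 0 := by
    intro x hx hx'
    have e1 : d1A ℤ (fun r => t ^ C.gap r) (x.mapDomain fun z => (ρ z.1, z.2⁻¹ * a₀)) = 0 := by
      rw [Col_J_d1 L hκ, hx, Finsupp.mapDomain_zero]
    have e2 : ellC ℤ l (x.mapDomain fun z => (ρ z.1, z.2⁻¹ * a₀)) ∈ BC ℤ univ 1 := by
      have := sub_mem (Col_BC_psh hJ (mapsTo_univ J univ) hx')
        (Col_BC_mono (subset_univ _) 1 (hs x hx))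
      rwa [sub_sub_cancel] at this
    rw [Col_norm L, hx, map_zero, sub_zero, Col_J_col L ρ a₀, hc, Col_lin, hP _ e1 e2, star_zero,
      mul_zero]
  have hc' := Col_isCol L fun y => hP' _ (Col_d1_d2 ℤ D.hol y)
    (Col_BC_mono (subset_univ _) 1 ((D.inj ℤ _ (Col_d1_d2 ℤ D.hol y)).2 ⟨y, rfl⟩))
  have hom : ((om ℤ : (Eis ℤ)ˣ) : Eis ℤ) * (om ℤ : (Eis ℤ)ˣ) = (om ℤ : (Eis ℤ)ˣ) - 1 := by
    ext <;> simp [om, QuadraticAlgebra.re_one, QuadraticAlgebra.im_one]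
  obtain ⟨a', b', h'⟩ := C.colZ _ hc' (by simp [C.g0, hu'])
    (by
      simp only [C.g1, zpow_one]
      rw [hu', hv]
      linear_combination (star (c (ρ C.R1)) - star (c (ρ C.R0))) * hom)
  have e : a' * b = b' * a := by
    have := hP' x₀ hx₀ hb₀
    rw [funext h', Col_lin] at this
    rw [← sub_eq_zero]
    apply Col_cancel (k := k)
    linear_combination -this - a' * hb + b' * ha
  obtain ⟨μ, h3, h4⟩ := Col_mu (a' := Col_red a') (b' := Col_red b') hu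
    (by rw [← map_mul, ← map_mul, e])
  obtain ⟨χ, hχ⟩ := C.tw (Col_red a) (Col_red b) hu ⟨μ, Col_red u, Col_red v, fun r => by
    have := congrArg Col_red (h' r)
    simp only [hc, map_sub, map_add, map_mul, Col_red_om, h3, h4, ← Col_red_star] at this
    simp only [Col_red_eq]
    linear_combination this⟩
  exact hfin a b χ (by simpa only [Col_red_eq, map_add, map_mul] using hχ) hP

end Pool.Agent.MP_bc14e1_gt

end

section

open Set Metric
open scoped Classical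

namespace Pool.Agent.MP_bc14e1_gt

noncomputable section

section Aux

variable {G Y Reg : Type} [Group G] [TopologicalSpace Y] [MulAction G Y] [ContinuousConstSMul G Y]

/-- Left translation of the second coordinate. -/
def Alpha_sh {I : Type} (g : G) : ((I × G) →₀ ℤ) →ₗ[ℤ] ((I × G) →₀ ℤ) :=
  Finsupp.lmapDomain ℤ ℤ fun x => (x.1, g * x.2)

theorem Alpha_sh_single {I : Type} (g : G) (x : I × G) (a : ℤ) :
    Alpha_sh g (Finsupp.single x a) = Finsupp.single (x.1, g * x.2) a := by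
  simp [Alpha_sh, Finsupp.mapDomain_single]

theorem Alpha_ell_sh (l : Reg → Tot ℤ Y) (g : G) (x : (Reg × G) →₀ ℤ) :
    ellC ℤ l (Alpha_sh g x) = gs ℤ Y g (ellC ℤ l x) := by
  induction x using Finsupp.induction_linear with
  | zero => simp
  | add a b ha hb => simp only [map_add, ha, hb]
  | single z a =>
    rw [Alpha_sh_single]
    simp only [ellC, Finsupp.linearCombination_single, map_smul, gs_mul]

theorem Alpha_d1_sh (h : Reg → G) (g : G) (x : (Reg × G) →₀ ℤ) :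
    d1A ℤ h (Alpha_sh g x) = Alpha_sh g (d1A ℤ h x) := by
  induction x using Finsupp.induction_linear with
  | zero => simp
  | add a b ha hb => simp only [map_add, ha, hb]
  | single z a =>
    rw [Alpha_sh_single]
    simp only [d1A, Finsupp.linearCombination_single, map_smul, map_sub, Alpha_sh_single,
      mul_assoc]

theorem Alpha_col_sh {t : G} {lg : G → ℤ} (h1 : ∀ g : G, t ^ lg g = g)
    (h2 : ∀ n : ℤ, t ^ n = 1 → n = 0) (c : Reg → Eis ℤ) (x : (Reg × G) →₀ ℤ) :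
    colE lg c (Alpha_sh t x) = (om ℤ : (Eis ℤ)ˣ) * colE lg c x := by
  have hl : ∀ g, lg (t * g) = 1 + lg g := fun g => by
    have := h2 (lg (t * g) - (1 + lg g)) (by
      rw [zpow_sub, zpow_add, zpow_one, h1, h1, mul_inv_cancel])
    omega
  induction x using Finsupp.induction_linear with
  | zero => simp
  | add a b ha hb => simp only [map_add, ha, hb, mul_add]
  | single z a =>
    rw [Alpha_sh_single]
    simp only [colE, Finsupp.linearCombination_single, hl, zpow_add, zpow_one, Units.val_mul,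
      mul_smul_comm, mul_assoc]

/-- Boundaries as a module over the Laurent polynomials. -/
def Alpha_BT (t : G) : Submodule (Lam ℤ) (Tw ℤ Y t) :=
  twSub (BC ℤ univ 1) fun n _ h => by
    obtain ⟨b, hb, rfl⟩ := h
    exact ⟨gs ℤ Y (t ^ n) b, ⟨mem_CH_univ _, gs_mem_DG _ hb.2⟩, dT_gs _ _⟩

/-- The chains of cycles of the Dehn complex. -/
def Alpha_ET (t : G) (h : Reg → G) (l : Reg → Tot ℤ Y) : Submodule (Lam ℤ) (Tw ℤ Y t) :=
  twSub ((LinearMap.ker (d1A ℤ h)).map (ellC ℤ l)) fun n _ hc => by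
    obtain ⟨x, hx, rfl⟩ := hc
    refine ⟨Alpha_sh (t ^ n) x, ?_, Alpha_ell_sh l _ x⟩
    have hx' : d1A ℤ h x = 0 := hx
    rw [SetLike.mem_coe, LinearMap.mem_ker, Alpha_d1_sh, hx', map_zero]

/-- Boundaries inside cycles. -/
def Alpha_N (Y : Type) [TopologicalSpace Y] [MulAction G Y] [ContinuousConstSMul G Y] (t : G) :
    Submodule (Lam ℤ) (ZT ℤ Y t 1) := (Alpha_BT t).comap (ZT ℤ Y t 1).subtype

/-- A cycle as an element of `ZT`. -/
def Alpha_z (t : G) : ZC ℤ (univ : Set Y) 1 →+ ZT ℤ Y t 1 where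
  toFun z := ⟨toTw ℤ Y t z.1, z.2⟩
  map_zero' := rfl
  map_add' _ _ := rfl

theorem Alpha_fin (t : G) (h : FGI ℤ t (univ : Set Y) univ 1) :
    Module.Finite (Lam ℤ) (ZT ℤ Y t 1 ⧸ Alpha_N Y t) := by
  obtain ⟨n, z, hz, hg⟩ := h
  let w : Fin n → ZT ℤ Y t 1 ⧸ Alpha_N Y t := fun i =>
    (Alpha_N Y t).mkQ (Alpha_z t ⟨z i, hz i⟩)
  refine ⟨⟨Finset.univ.image w, ?_⟩⟩
  rw [eq_top_iff]
  intro y _
  obtain ⟨y, rfl⟩ := (Alpha_N Y t).mkQ_surjective y
  obtain ⟨a, ha⟩ := hg y.1 y.2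
  have e : (Alpha_N Y t).mkQ y = ∑ i, a i • w i := by
    simp only [w, ← map_smul, ← map_sum]
    rw [← sub_eq_zero, ← map_sub, Submodule.mkQ_apply, Submodule.Quotient.mk_eq_zero]
    change ((y - ∑ i, a i • Alpha_z t ⟨z i, hz i⟩ : ZT ℤ Y t 1) : Tw ℤ Y t) ∈ Alpha_BT t
    rw [Submodule.coe_sub, Submodule.coe_sum]
    exact ha
  rw [e]
  exact Submodule.sum_mem _ fun i _ => Submodule.smul_mem _ _
    (Submodule.subset_span (by simp))

end Aux

theorem alpha_stmt (hExt : ExtStmt) : AlphaStmt := by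
  intro G Y Reg Cr _ _ _ _ O t lg reg gap l yn ys c χ D h1 h2 hfg hcol
  have := Alpha_fin t hfg
  set h : Reg → G := fun r => t ^ gap r with hh
  let M : Submodule (Lam ℤ) (ZT ℤ Y t 1 ⧸ Alpha_N Y t) :=
    ((Alpha_ET t h l).comap (ZT ℤ Y t 1).subtype).map (Alpha_N Y t).mkQ
  let P : M → ((Reg × G) →₀ ℤ) → Prop := fun y x =>
    d1A ℤ h x = 0 ∧ ∃ z : ZT ℤ Y t 1, z.1 = toTw ℤ Y t (ellC ℤ l x) ∧ (Alpha_N Y t).mkQ z = y.1
  have hex : ∀ y : M, ∃ x, P y x := by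
    rintro ⟨y, z, ⟨x, hx, hxz⟩, rfl⟩
    exact ⟨x, hx, z, hxz.symm, rfl⟩
  have huniq : ∀ y x x', P y x → P y x' → colE lg c x = colE lg c x' := by
    rintro y x x' ⟨hx, z, hz, hy⟩ ⟨hx', z', hz', hy'⟩
    rw [← sub_eq_zero, ← map_sub]
    refine hcol _ (by rw [map_sub, hx, hx', sub_zero]) ?_
    have e : (Alpha_N Y t).mkQ (z - z') = 0 := by rw [map_sub, hy, hy', sub_self]
    rw [Submodule.mkQ_apply, Submodule.Quotient.mk_eq_zero] at e
    have e' : ((z - z' : ZT ℤ Y t 1) : Tw ℤ Y t) ∈ Alpha_BT t := e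
    rw [Submodule.coe_sub, hz, hz', ← map_sub, ← map_sub] at e'
    exact e'
  choose s hs using hex
  let c' : M →+ Eis ℤ := AddMonoidHom.mk' (fun y => colE lg c (s y)) fun y y' => by
    rw [← map_add]
    refine huniq (y + y') _ _ (hs _) ?_
    obtain ⟨hx, z, hz, hy⟩ := hs y
    obtain ⟨hx', z', hz', hy'⟩ := hs y'
    refine ⟨by rw [map_add, hx, hx', add_zero], z + z', ?_, ?_⟩
    · rw [Submodule.coe_add, hz, hz', map_add, map_add]
    · rw [map_add, hy, hy', Submodule.coe_add]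
  have hc' : ∀ y x, P y x → c' y = colE lg c x := fun y x hp => huniq y _ _ (hs y) hp
  have hT : ∀ z : Tot ℤ Y, (LaurentPolynomial.T 1 : Lam ℤ) • toTw ℤ Y t z =
      toTw ℤ Y t (gs ℤ Y t z) := fun z => by
    rw [Tw.smul_def, act_T, zpow_one]
  obtain ⟨A, iA, fA, r, e, τ, α, ψ, hcard, hτ, hfix, hα, hψ⟩ := hExt _ M c' χ fun y => by
    obtain ⟨hx, z, hz, hy⟩ := hs y
    rw [hc' y _ (hs y), ← Alpha_col_sh h1 h2]
    refine hc' _ _ ⟨by rw [Alpha_d1_sh, hx, map_zero], (LaurentPolynomial.T 1 : Lam ℤ) • z, ?_, ?_⟩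
    · rw [Submodule.coe_smul, hz, hT, Alpha_ell_sh]
    · rw [map_smul, hy, Submodule.coe_smul]
  refine ⟨A, iA, fA, r, e, τ,
    α.comp (((Alpha_N Y t).mkQ.toAddMonoidHom).comp (Alpha_z t)), ψ, hcard, hτ, hfix, ?_, ?_, ?_⟩
  · intro z hz
    have e0 : (Alpha_N Y t).mkQ (Alpha_z t z) = 0 := by
      rw [Submodule.mkQ_apply, Submodule.Quotient.mk_eq_zero]
      exact hz
    change α ((Alpha_N Y t).mkQ (Alpha_z t z)) = 0
    rw [e0, map_zero]
  · intro z z' hz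
    change α ((Alpha_N Y t).mkQ (Alpha_z t z')) = τ (α ((Alpha_N Y t).mkQ (Alpha_z t z)))
    rw [← hα, ← map_smul]
    congr 2
    apply Subtype.ext
    change toTw ℤ Y t z'.1 = (LaurentPolynomial.T 1 : Lam ℤ) • toTw ℤ Y t z.1
    rw [hT, hz]
  · intro x z hx hz
    have hm : (Alpha_N Y t).mkQ (Alpha_z t z) ∈ M :=
      ⟨Alpha_z t z, ⟨x, hx, hz.symm⟩, rfl⟩
    have e1 := hψ ⟨_, hm⟩
    rw [hc' ⟨_, hm⟩ x ⟨hx, Alpha_z t z, congrArg (toTw ℤ Y t) hz, rfl⟩] at e1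
    exact e1

end

end Pool.Agent.MP_bc14e1_gt

end

section

/-! The assembly of the obstruction. -/

open Set Metric
open scoped Classical

namespace Pool.Agent.MP_bc14e1_gt

theorem obs_core (hP2 : Pack2Stmt) (hTI : ThomInvStmt) (hPair : PairStmt)
    (hLam : LamStmt) (hFG : FGStmt) (hPsd1 : Psd1Stmt) (hPsd2 : Psd2Stmt) (hDehn : DehnStmt)
    (hSym : DehnSymStmt) (hAS : ASStmt) (hA3 : A3Stmt) (hCl : ClashStmt) (hH0 : H0Stmt)
    (hL2 : Len2Stmt) (hJ : JStmt) (hCol : ColStmt) (hAl : AlphaStmt) (hN2 : Norm2Stmt)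
    (hL1 : Len1Stmt) {κ : Kit} {K : Set (E 4)} {ι : E 4 ≃ₗᵢ[ℝ] E 4} (Γ : Geo κ K ι)
    {Reg Cr : Type} [Finite Reg] [Finite Cr] {reg : Cr → Fin 4 → Reg} {ρ : Reg → Reg}
    (D : DehnData (Γ.h ⁻¹' Ioo (-1) 1 ∩ Γ.Fᶜ) reg) (hD : D.Sym Γ.I ρ) (C : Cert reg ρ) {n : ℕ}
    {φ : Tot ℤ Γ.X →ₗ[ℤ] ℤ} (hX : XPack κ Γ.o Γ.F n φ) {Y : Type} [TopologicalSpace Y]
    [T2Space Y] [MulAction (Multiplicative ℤ) Y] [ContinuousConstSMul (Multiplicative ℤ) Y]
    {p : Y → Γ.X} {t : Multiplicative ℤ} {l : Y → ℤ} (h1 : Pack1 Γ.F φ p t l) (J : Y ≃ₜ Y)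
    {ε : ℤ} (hε : ε = 1 ∨ ε = -1) (hpJ : ∀ y, p (J y) = Γ.I (p y))
    (hJg : ∀ (g : Multiplicative ℤ) y, J (g • y) = g ^ ε • J y)
    (hJJ : ∃ g : Multiplicative ℤ, ∀ y, J (J y) = g • y) {σU σL : Γ.X → Y}
    (hS : DehnSec D p σU σL fun r => t ^ C.gap r) : False := by
  have hO {Y' : Type} (p' : Y' → Γ.X) (hp : ∀ y, p' y ∈ Γ.Fᶜ) :
      p' ⁻¹' (Γ.h ⁻¹' Ioo (-1) 1 ∩ Γ.Fᶜ) = (Γ.h ∘ p') ⁻¹' Ioo (-1) 1 := by
    ext y; exact and_iff_left (hp y)
  haveI : Nonempty Reg := ⟨C.R0⟩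
  have hinj : ∀ a b : ℤ, t ^ a = t ^ b → a = b := fun a b h => by
    have := h1.tc.inf (a - b) (by rw [zpow_sub, h, mul_inv_cancel])
    omega
  obtain ⟨lg, hlg⟩ : ∃ lg : Multiplicative ℤ → ℤ, ∀ g, t ^ lg g = g :=
    ⟨fun g => (h1.gen g).choose, fun g => (h1.gen g).choose_spec.symm⟩
  have DM := hDehn _ _ _ _ _ _ _ p reg D σU σL _ h1.tc.cov inter_subset_right hS
  obtain ⟨a₀, b₀, hab, hsym⟩ := hSym _ _ _ _ _ _ _ p reg D σU σL _ Γ.I ρ J (zpowGroupHom ε)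
    h1.tc.cov inter_subset_right hS hD J.continuous hpJ hJg
  rw [hO p h1.tc.cov.mem] at DM hsym
  obtain rfl : ε = -1 := by
    obtain ⟨k, hk⟩ := C.gρ
    have e (r : Reg) : C.gap r * ε = lg a₀ + (k - C.gap r) + lg b₀ := by
      apply hinj
      rw [zpow_mul, zpow_add, zpow_add, hlg, hlg, ← hk]
      exact hab r
    have e0 := e C.R0
    have e1 := e C.R1
    rw [C.g0] at e0
    rw [C.g1] at e1
    omega
  have hJs : ∀ y, J (t • y) = t⁻¹ • J y := fun y => by rw [hJg, zpow_neg_one]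
  have hJ2 : ∀ y, J (J y) = y := by
    obtain ⟨g, hg⟩ := hJJ
    intro y
    have e : g⁻¹ • J y = g • J y := by rw [← zpow_neg_one, ← hJg, ← hg, hg (J y)]
    have e2 : g * g = 1 := h1.tc.cov.free _ (J y) (by rw [mul_smul, ← e, smul_inv_smul])
    have e3 : g = 1 := by
      have := hinj (lg g + lg g) 0 (by rw [zpow_add, hlg, e2, zpow_zero])
      rw [← hlg g, show lg g = 0 by omega, zpow_zero]
    rw [hg, e3, one_smul]
  have hf : ∀ y, (Γ.h ∘ p) (t • y) = (Γ.h ∘ p) y := fun y => congrArg Γ.h (h1.tc.cov.inv t y)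
  obtain ⟨τ₁, hτ₁, hi₁, -⟩ := hTI _ _ _ Γ.o Γ.F p t ⊥ h1.tc inferInstance
  obtain ⟨hpos, hpsd⟩ := hPsd1 κ _ _ _ Γ.o Γ.F n φ p t l τ₁ hX h1 hτ₁ hi₁
  have A1 := hAS κ K ι Γ _ _ p t _ h1.tc (hPair κ _ _ _ Γ.o Γ.F p t τ₁ h1.tc hτ₁ hi₁).1 hpsd hf
  have H1 : H0N (dTw ℂ Y t) (lvTw ℂ t (Γ.h ∘ p) hf) := by
    have := hH0 _ _ _ _ (Γ.h ∘ p) t 1 (by simpa using hf) reg _ _ _ _ C.R0 C.R1 DM
      (fun g y => congrArg Γ.h (h1.tc.cov.inv g y)) (fun g => mul_comm _ _) (by simp [C.g0])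
      (by simp [C.g1])
    revert this
    generalize_proofs hf'
    revert hf'
    rw [pow_one]
    exact fun _ h => h
  have hω : omC ≠ 1 := by
    intro h
    have h3 : Real.pi / 3 ∈ Ioc (-Real.pi) Real.pi := by
      constructor <;> linarith [Real.pi_pos]
    have := Circle.arg_exp h3.1 h3.2
    rw [show Circle.exp (Real.pi / 3) = 1 from h] at this
    simp at this
    linarith [Real.pi_pos]
  have hLine := hA3 _ _ _ _ _ omC A1 H1
    (hJ κ K ι Γ _ _ p t τ₁ J h1.tc hτ₁ hi₁ hpJ hJs hJ2 hf) hω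
    (hL2 _ _ _ _ (Γ.h ∘ p) t hf reg C.gap _ _ _ omC DM h1.gen h1.tc.inf C.len2)
  obtain ⟨c, χ, -, hc0, hc1, hTw, hker⟩ := hCol _ _ _ _ (Γ.h ∘ p) t hf lg reg ρ C _ _ _ J a₀ DM hlg
    h1.tc.inf J.continuous (by simpa using hsym) hLine
  have hfg : FGI ℤ t (univ : Set Y) univ 1 := by
    simpa using hFG ℤ _ _ _ Γ.F p t h1.tc univ univ isCompact_univ isOpen_univ subset_rfl 1
  obtain ⟨A, _, _, r, e, τ, α₀, ψ, hcard, hτm, hτ1, hα1, hα2, hψ⟩ :=
    hAl _ _ _ _ _ t lg reg C.gap _ _ _ c χ DM hlg h1.tc.inf hfg hker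
  have hm : 0 < 6 * 2 ^ e := by positivity
  obtain ⟨α, G', Y', _, _, _, _, _, q, j, t', l', h2, hα⟩ :=
    hP2 _ _ _ A Γ.F φ p t l τ _ α₀ h1 hm hτm hτ1 hα1 hα2
  obtain ⟨a, σU', σL', hS', ha0, ha1, hw⟩ := hN2 _ _ _ A G' Y' _ _ Γ.F _ φ p t l τ _ α q j t' l'
    reg C.gap C.R0 C.R1 D σU σL lg c χ ψ h1 h2 hτ1 inter_subset_right hS C.g0 C.g1 hc0 hc1 hlg
    (fun x hx => by
      have hz := DM.ellC_mem (subset_univ _) (fun _ _ _ => trivial) hx
      rw [← hψ x ⟨_, hz⟩ hx rfl, ← hα])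
  have DM' := hDehn _ _ _ _ _ _ _ (p ∘ q) reg D σU' σL' _ h2.tc.cov inter_subset_right hS'
  rw [hO (p ∘ q) h2.tc.cov.mem] at DM'
  have hfin : Finite j.range := Finite.of_surjective _ j.rangeRestrict_surjective
  obtain ⟨τ₂, hτ₂, hi₂, hi₂'⟩ := hTI _ _ _ Γ.o Γ.F (p ∘ q) _ j.range h2.tc hfin
  have hpsd2 := hPsd2 κ _ _ _ A G' Y' Γ.o Γ.F φ p t l τ _ α q j t' l' n r τ₁ τ₂ h1 h2 hm hcard hτ1
    hX.dep hτ₁ hi₁ hpos hτ₂ hi₂ fun a => hi₂' _ ⟨a, rfl⟩
  have hinv : ∀ (g : G') y, (Γ.h ∘ p ∘ q) (g • y) = (Γ.h ∘ p ∘ q) y :=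
    fun g y => congrArg Γ.h (h2.tc.cov.inv g y)
  obtain ⟨P2, hP2'⟩ := hPair κ _ _ _ Γ.o Γ.F (p ∘ q) _ τ₂ h2.tc hτ₂ hi₂
  have A2 := hAS κ K ι Γ _ _ (p ∘ q) _ _ h2.tc P2 hpsd2 (hinv _)
  have H2 := hH0 _ _ _ _ (Γ.h ∘ p ∘ q) t' _ (hinv _) reg _ _ _ _ C.R0 C.R1 DM' hinv h2.tc.cen
    (by simp [ha0, C.g0]) (by simp [ha1, C.g1])
  obtain ⟨ζ, hζ, x, hx⟩ := hTw e
  obtain ⟨e', x', hPr, hLen⟩ := hL1 _ _ A _ _ (Γ.h ∘ p ∘ q) t' _ (hinv _) τ j reg C.gap a _ _ _ ψ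
    (lamF (t' ^ (6 * 2 ^ e)) (beta κ τ₂)) ζ x DM' hinv h2.jinj h2.conj h2.gen h2.tc.cen h2.tc.inf
    (hLam _ _ _ Γ.F _ _ _ h2.tc P2.lk).1 (fun a u v => by
      refine finsum_congr fun k => ?_
      rw [← gs_mul, ← (Commute.zpow_right (h2.tc.cen (j a)) k).eq, gs_mul,
        hP2' _ (hi₂' _ ⟨a, rfl⟩)]) (by simpa [hw] using hx)
  exact hCl _ _ _ _ e' ζ x' A2 H2 hPr hζ hLen

theorem obs_stmt (hP1 : Pack1Stmt) (hP2 : Pack2Stmt) (hTI : ThomInvStmt)
    (hPair : PairStmt) (hLam : LamStmt) (hFG : FGStmt) (hPsd1 : Psd1Stmt) (hPsd2 : Psd2Stmt)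
    (hXP : XPStmt) (hDehn : DehnStmt) (hSym : DehnSymStmt) (hPush : DehnPushStmt) (hAS : ASStmt)
    (hA3 : A3Stmt) (hCl : ClashStmt) (hFl : FlipStmt) (hN1 : Norm1Stmt) (hH0 : H0Stmt)
    (hL2 : Len2Stmt) (hJ : JStmt) (hCol : ColStmt) (hAl : AlphaStmt) (hN2 : Norm2Stmt)
    (hL1 : Len1Stmt) : ObsStmt := by
  intro κ K ι Reg Cr _ _ reg ρ D₀ hD₀ ⟨C⟩
  refine ⟨fun Γ => ?_⟩
  obtain ⟨D, hD⟩ := hPush κ K ι Γ Reg Cr reg ρ D₀ hD₀
  obtain ⟨φ, hX⟩ := hXP κ K ι Γ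
  obtain ⟨Y, _, _, _, _, p, l, h1, J, ε, hε, hpJ, hJg, hJJ⟩ :=
    hP1 κ _ Γ.o Γ.F _ φ Γ.I Γ.flat hX Γ.II Γ.IF
  have hne : (Γ.F ∩ Γ.h ⁻¹' Ioo (-1) 1).Nonempty := by
    obtain ⟨u, hu⟩ : (sphere (0 : E 2) 1).Nonempty := NormedSpace.sphere_nonempty.2 zero_le_one
    have : Γ.δ u ∈ Γ.F ∩ Γ.h ⁻¹' {0} := Γ.δ1 ▸ mem_image_of_mem _ hu
    exact ⟨_, this.1, by rw [mem_preimage, show Γ.h (Γ.δ u) = 0 from this.2]; norm_num⟩
  obtain ⟨t', ht', σU, σL, hS⟩ := hN1 _ _ _ _ _ Γ.F _ φ p _ l reg ρ D C h1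
    (isOpen_Ioo.preimage Γ.hc) hne
  rcases ht' with rfl | rfl
  · exact obs_core hP2 hTI hPair hLam hFG hPsd1 hPsd2 hDehn hSym hAS hA3 hCl hH0 hL2 hJ hCol
      hAl hN2 hL1 Γ D hD C hX h1 J hε hpJ hJg hJJ hS
  · obtain ⟨hX', h1'⟩ := hFl κ _ _ _ Γ.o Γ.F _ φ p _ l hX h1
    exact obs_core hP2 hTI hPair hLam hFG hPsd1 hPsd2 hDehn hSym hAS hA3 hCl hH0 hL2 hJ hCol
      hAl hN2 hL1 Γ D hD C hX' h1' J hε hpJ hJg hJJ hS

end Pool.Agent.MP_bc14e1_gt

end
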