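import Pool.Agent.Mg.Fbc14e1.G6fb7b3
import Pool.Agent.Mg.Fbc14e1.G199efb
import Pool.Agent.Mg.Fbc14e1.G915a0c
import Pool.Agent.Mg.Fbc14e1.G3ca996
import Pool.Agent.Mg.Fbc14e1.G6078b0
import Pool.Agent.Mg.Fbc14e1.G73304b
import Pool.Agent.Mg.Fbc14e1.G1204e1
import Pool.Agent.Mg.Fbc14e1.G662eff
import Pool.Agent.Mg.Fbc14e1.G2dd824
import Pool.Agent.Mg.Fbc14e1.G7b728f
import Pool.Agent.Mg.Fbc14e1.Ga7dccf
import Pool.Agent.Mg.Fbc14e1.Gff8a12
import Pool.Agent.Mg.Fbc14e1.G21c55e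
import Pool.Agent.Mg.Fbc14e1.G39d36c
import Pool.Agent.Mg.Fbc14e1.Ga160ad
import Pool.Agent.Mg.Fbc14e1.Ge99d6d
import Pool.Agent.Mg.Fbc14e1.G0545fa
import Pool.Agent.Mg.Fbc14e1.G396bcf

section

/-! Lists of pairs of vertices as singular simplices of a product. -/

open Finsupp
open scoped Classical

namespace Pool.Agent.MP_bc14e1_gt

noncomputable section

theorem Kit_find {V : Type} {P : Kit_O V → Prop} (h0 : P 0)
    (hadd : ∀ a b, P a → P b → P (a + b)) (hs : ∀ (n : ℤ) a, P a → P (n • a))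
    (hn : P (single [] 1)) (h1 : ∀ (n : ℕ) (v : Fin (n + 1) → V), P (single (List.ofFn v) 1))
    (c : Kit_O V) : P c := by
  refine Kit_ind h0 hadd hs (fun l => ?_) c
  induction l using List.ofFnRec with
  | h n f =>
    rcases n with _ | n
    · simpa using hn
    · exact h1 n f

/-- The simplicial map of a map of vertices. -/
def Kit_m {V W : Type} [Fintype V] [Fintype W] (f : V → W) :
    C(stdSimplex ℝ V, stdSimplex ℝ W) := ⟨stdSimplex.map f, stdSimplex.continuous_map f⟩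

theorem Kit_m_comp {U V W : Type} [Fintype U] [Fintype V] [Fintype W] (g : V → W) (f : U → V) :
    (Kit_m g).comp (Kit_m f) = Kit_m (g ∘ f) :=
  ContinuousMap.ext fun x => stdSimplex.map_comp_apply f g x

theorem Kit_m_id {V : Type} [Fintype V] : Kit_m (id : V → V) = ContinuousMap.id _ :=
  ContinuousMap.ext fun x => stdSimplex.map_id_apply x

variable (R : Type) [CommRing R] {V W V' W' X Y X' Y' : Type} [Fintype V] [Fintype W] [Fintype V']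
  [Fintype W'] [TopologicalSpace X] [TopologicalSpace Y] [TopologicalSpace X']
  [TopologicalSpace Y']

/-- The simplex of a list of pairs of vertices. -/
def Kit_sx (σ : C(stdSimplex ℝ V, X)) (τ : C(stdSimplex ℝ W, Y)) {n : ℕ}
    (v : Fin (n + 1) → V × W) : Sing (X × Y) n :=
  (σ.comp (Kit_m (Prod.fst ∘ v))).prodMk (τ.comp (Kit_m (Prod.snd ∘ v)))

def Kit_rt (σ : C(stdSimplex ℝ V, X)) (τ : C(stdSimplex ℝ W, Y)) :
    (Σ n : ℕ, Fin n → V × W) → Tot R (X × Y)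
  | ⟨0, _⟩ => 0
  | ⟨n + 1, v⟩ => single ⟨n, Kit_sx σ τ v⟩ 1

/-- The singular chain of an ordered chain. -/
def Kit_rl (σ : C(stdSimplex ℝ V, X)) (τ : C(stdSimplex ℝ W, Y)) :
    Kit_O (V × W) →ₗ[ℤ] Tot R (X × Y) :=
  linearCombination ℤ fun l => Kit_rt R σ τ (List.equivSigmaTuple l)

variable {R} (σ : C(stdSimplex ℝ V, X)) (τ : C(stdSimplex ℝ W, Y))

@[simp] theorem Kit_rl_nil : Kit_rl R σ τ (single [] 1) = 0 := by
  rw [Kit_rl, linearCombination_single, one_smul]; rfl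

theorem Kit_rl_ofFn {n : ℕ} (v : Fin (n + 1) → V × W) :
    Kit_rl R σ τ (single (List.ofFn v) 1) = single ⟨n, Kit_sx σ τ v⟩ 1 := by
  have : List.equivSigmaTuple (List.ofFn v) = ⟨n + 1, v⟩ :=
    List.equivSigmaTuple.apply_symm_apply ⟨n + 1, v⟩
  rw [Kit_rl, linearCombination_single, one_smul, this]; rfl

theorem Kit_face_sx {n : ℕ} (i : Fin (n + 2)) (v : Fin (n + 2) → V × W) :
    face i (Kit_sx σ τ v) = Kit_sx σ τ (v ∘ i.succAbove) := by
  refine ContinuousMap.ext fun t => Prod.ext ?_ ?_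
  · exact congrArg σ (stdSimplex.map_comp_apply _ _ t)
  · exact congrArg τ (stdSimplex.map_comp_apply _ _ t)

theorem Kit_rl_D (c : Kit_O (V × W)) :
    dT R _ (Kit_rl R σ τ c) = Kit_rl R σ τ (Kit_D c) := by
  induction c using Kit_find with
  | h0 => simp
  | hadd a b ha hb => simp only [map_add, ha, hb]
  | hs n a ha => simp only [map_zsmul, ha]
  | hn => simp
  | h1 n v =>
    rw [Kit_rl_ofFn, ← inc_single, Kit_D_ofFn, map_sum]
    rcases n with _ | n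
    · rw [dT_inc_zero]; simp
    · rw [dT_inc_succ, bd_single, map_sum]
      refine Finset.sum_congr rfl fun i _ => ?_
      rw [map_zsmul, map_zsmul, inc_single, Kit_rl_ofFn, Kit_face_sx]

theorem Kit_rl_mp (f : V' → V) (g : W' → W) (c : Kit_O (V' × W')) :
    Kit_rl R σ τ (Kit_mp (Prod.map f g) c) =
      Kit_rl R (σ.comp (Kit_m f)) (τ.comp (Kit_m g)) c := by
  induction c using Kit_find with
  | h0 => simp
  | hadd a b ha hb => simp only [map_add, ha, hb]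
  | hs n a ha => simp only [map_zsmul, ha]
  | hn => simp
  | h1 n v =>
    rw [Kit_mp_single, List.map_ofFn, Kit_rl_ofFn, Kit_rl_ofFn, Kit_sx, Kit_sx,
      ContinuousMap.comp_assoc, ContinuousMap.comp_assoc, Kit_m_comp, Kit_m_comp]
    rfl

theorem Kit_psh_rl (f : X → X') (g : Y → Y') (hf : Continuous (f ∘ σ)) (hg : Continuous (g ∘ τ))
    (c : Kit_O (V × W)) :
    psh R (Prod.map f g) (Kit_rl R σ τ c) = Kit_rl R ⟨f ∘ σ, hf⟩ ⟨g ∘ τ, hg⟩ c := by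
  induction c using Kit_find with
  | h0 => simp
  | hadd a b ha hb => simp only [map_add, ha, hb]
  | hs n a ha => simp only [map_zsmul, ha]
  | hn => simp
  | h1 n v =>
    rw [Kit_rl_ofFn, Kit_rl_ofFn]
    exact psh_single (Prod.map f g) ⟨n, Kit_sx σ τ v⟩
      (Kit_sx ⟨f ∘ σ, hf⟩ ⟨g ∘ τ, hg⟩ v).continuous 1

theorem Kit_swap_rl (c : Kit_O (V × W)) :
    psh R Prod.swap (Kit_rl R σ τ c) = Kit_rl R τ σ (Kit_mp Prod.swap c) := by
  induction c using Kit_find with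
  | h0 => simp
  | hadd a b ha hb => simp only [map_add, ha, hb]
  | hs n a ha => simp only [map_zsmul, ha]
  | hn => simp
  | h1 n v =>
    rw [Kit_mp_single, List.map_ofFn, Kit_rl_ofFn, Kit_rl_ofFn]
    exact psh_single Prod.swap ⟨n, Kit_sx σ τ v⟩ (Kit_sx τ σ (Prod.swap ∘ v)).continuous 1

theorem Kit_cast_rl {S : Type} [CommRing S] (φ : R →+* S) (c : Kit_O (V × W)) :
    cast φ _ (Kit_rl R σ τ c) = Kit_rl S σ τ c := by
  induction c using Kit_find with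
  | h0 => simp
  | hadd a b ha hb => simp only [map_add, ha, hb]
  | hs n a ha => simp only [map_zsmul, ha]
  | hn => simp
  | h1 n v => rw [Kit_rl_ofFn, Kit_rl_ofFn, cast_single, map_one]

theorem Kit_rl_CH {A : Set X} {B : Set Y} (hA : ∀ t, σ t ∈ A) (hB : ∀ t, τ t ∈ B)
    (c : Kit_O (V × W)) : Kit_rl R σ τ c ∈ CH R (A ×ˢ B) := by
  induction c using Kit_find with
  | h0 => simp
  | hadd a b ha hb => rw [map_add]; exact add_mem ha hb
  | hs n a ha => rw [map_zsmul]; exact zsmul_mem ha n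
  | hn => simp
  | h1 n v => rw [Kit_rl_ofFn]; exact single_mem_CH _ fun t => ⟨hA _, hB _⟩

theorem Kit_rl_DG {n : ℕ} {c : Kit_O (V × W)} (hc : c ∈ Kit_G (V × W) (n + 1)) :
    Kit_rl R σ τ c ∈ DG R (X × Y) n := by
  refine Kit_Gind (P := fun c => Kit_rl R σ τ c ∈ DG R (X × Y) n) (by simp) ?_ ?_ ?_ hc
  · intro a b ha hb; rw [map_add]; exact add_mem ha hb
  · intro k a ha; rw [map_zsmul]; exact zsmul_mem ha k
  · intro l hl
    induction l using List.ofFnRec with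
    | h m f =>
      obtain rfl : m = n + 1 := by simpa using hl
      rw [Kit_rl_ofFn]; exact single_mem_DG ⟨n, _⟩ _

/-- The list of all vertices. -/
def Kit_fr (p : ℕ) : Kit_O (Fin (p + 1)) := single (List.ofFn id) 1

theorem Kit_fr_mem (p : ℕ) : Kit_fr p ∈ Kit_G (Fin (p + 1)) (p + 1) :=
  Kit_single_mem _ List.length_ofFn

theorem Kit_D_fr_zero : Kit_D (Kit_fr 0) = single [] 1 := by
  rw [Kit_fr, Kit_D_ofFn]; simp

theorem Kit_D_fr (p : ℕ) : Kit_D (Kit_fr (p + 1)) =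
    ∑ i : Fin (p + 2), ((-1 : ℤ) ^ (i : ℕ)) • Kit_mp i.succAbove (Kit_fr p) := by
  rw [Kit_fr, Kit_D_ofFn]
  refine Finset.sum_congr rfl fun i _ => ?_
  rw [Kit_fr, Kit_mp_single, List.map_ofFn]; rfl

theorem Kit_mp_id {V : Type} (c : Kit_O V) : Kit_mp id c = c := by
  induction c using Kit_ind with
  | h0 => simp
  | hadd a b ha hb => simp only [map_add, ha, hb]
  | hs n a ha => simp only [map_smul, ha]
  | h1 l => simp

/-- A natural bilinear operation on ordered chains. -/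
structure Kit_Op where
  S : ℕ → ℕ → ∀ V W : Type, Kit_O V →ₗ[ℤ] Kit_O W →ₗ[ℤ] Kit_O (V × W)
  nat : ∀ (p q : ℕ) (V W V' W' : Type) (f : V → V') (g : W → W') (u : Kit_O V) (v : Kit_O W),
    Kit_mp (Prod.map f g) (S p q V W u v) = S p q V' W' (Kit_mp f u) (Kit_mp g v)
  nil : ∀ (q : ℕ) (V W : Type) (v : Kit_O W), S 0 q V W (single [] 1) v = 0
  nil' : ∀ (p : ℕ) (V W : Type) (u : Kit_O V), S p 0 V W u (single [] 1) = 0

variable (T : Kit_Op)

variable (R X Y) in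
/-- The operation on singular chains. -/
def Kit_bil : Tot R X →ₗ[R] Tot R Y →ₗ[R] Tot R (X × Y) :=
  linearCombination R fun s : TS X => linearCombination R fun t : TS Y =>
    Kit_rl R s.2 t.2 (T.S (s.1 + 1) (t.1 + 1) _ _ (Kit_fr s.1) (Kit_fr t.1))

theorem Kit_bil_single (s : TS X) (t : TS Y) :
    Kit_bil R X Y T (single s 1) (single t 1) =
      Kit_rl R s.2 t.2 (T.S (s.1 + 1) (t.1 + 1) _ _ (Kit_fr s.1) (Kit_fr t.1)) := by
  simp only [Kit_bil, linearCombination_single, one_smul]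

theorem Kit_bil_left (p q : ℕ) (s : Sing X p) (t : Sing Y q) :
    Kit_bil R X Y T (dT R X (single ⟨p, s⟩ 1)) (single ⟨q, t⟩ 1) =
      Kit_rl R s t (T.S p (q + 1) _ _ (Kit_D (Kit_fr p)) (Kit_fr q)) := by
  rw [← inc_single p]
  rcases p with _ | p
  · rw [dT_inc_zero, Kit_D_fr_zero, T.nil]; simp
  · rw [dT_inc_succ, bd_single, Kit_D_fr]
    simp only [map_sum, LinearMap.sum_apply, map_zsmul, LinearMap.smul_apply, inc_single]
    refine Finset.sum_congr rfl fun i _ => ?_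
    rw [Kit_bil_single]
    conv_rhs => rw [← Kit_mp_id (Kit_fr q), ← T.nat, Kit_rl_mp, Kit_m_id]
    rfl

theorem Kit_bil_right (p q : ℕ) (s : Sing X p) (t : Sing Y q) :
    Kit_bil R X Y T (single ⟨p, s⟩ 1) (dT R Y (single ⟨q, t⟩ 1)) =
      Kit_rl R s t (T.S (p + 1) q _ _ (Kit_fr p) (Kit_D (Kit_fr q))) := by
  rw [← inc_single q]
  rcases q with _ | q
  · rw [dT_inc_zero, Kit_D_fr_zero, T.nil']; simp
  · rw [dT_inc_succ, bd_single, Kit_D_fr]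
    simp only [map_sum, map_zsmul, inc_single]
    refine Finset.sum_congr rfl fun i _ => ?_
    rw [Kit_bil_single]
    conv_rhs => rw [← Kit_mp_id (Kit_fr p), ← T.nat, Kit_rl_mp, Kit_m_id]
    rfl

theorem Kit_mem2 {α β M : Type} [AddCommGroup M] [Module R M] {A : Set α} {B : Set β}
    (F : (α →₀ R) →ₗ[R] (β →₀ R) →ₗ[R] M) (N : Submodule R M)
    (h : ∀ a ∈ A, ∀ b ∈ B, F (single a 1) (single b 1) ∈ N) {u : α →₀ R} {v : β →₀ R}
    (hu : u ∈ supported R R A) (hv : v ∈ supported R R B) : F u v ∈ N := by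
  refine supported_ind (P := fun u => F u v ∈ N) (by simp) (fun a b ha hb => ?_)
    (fun a ha r => ?_) hu
  · rw [map_add]; exact add_mem ha hb
  refine supported_ind (P := fun v => F (single a r) v ∈ N) (by simp) (fun a b ha hb => ?_)
    (fun b hb r' => ?_) hv
  · rw [map_add]; exact add_mem ha hb
  rw [← mul_one r, ← mul_one r', ← smul_eq_mul, ← smul_eq_mul, ← smul_single, ← smul_single,
    map_smul, map_smul]
  exact N.smul_mem _ (N.smul_mem _ (h a ha b hb))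

theorem Kit_eq2 {α β M : Type} [AddCommGroup M] [Module R M] {A : Set α} {B : Set β}
    (F G : (α →₀ R) →ₗ[R] (β →₀ R) →ₗ[R] M)
    (h : ∀ a ∈ A, ∀ b ∈ B, F (single a 1) (single b 1) = G (single a 1) (single b 1))
    {u : α →₀ R} {v : β →₀ R} (hu : u ∈ supported R R A) (hv : v ∈ supported R R B) :
    F u v = G u v :=
  sub_eq_zero.1 ((Submodule.mem_bot R).1 (Kit_mem2 (F - G) ⊥
    (fun a ha b hb => (Submodule.mem_bot R).2 (sub_eq_zero.2 (h a ha b hb))) hu hv))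

theorem Kit_bil_nat (f : X → X') (g : Y → Y') {A : Set X} {B : Set Y} (hf : ContinuousOn f A)
    (hg : ContinuousOn g B) {u : Tot R X} {v : Tot R Y} (hu : u ∈ CH R A) (hv : v ∈ CH R B) :
    psh R (Prod.map f g) (Kit_bil R X Y T u v) = Kit_bil R X' Y' T (psh R f u) (psh R g v) := by
  refine Kit_eq2 ((Kit_bil R X Y T).compr₂ (psh R (Prod.map f g)))
    ((Kit_bil R X' Y' T).compl₁₂ (psh R f) (psh R g)) (fun s hs t ht => ?_) hu hv
  have h1 : Continuous (f ∘ s.2) := hf.comp_continuous s.2.continuous fun x => hs ⟨x, rfl⟩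
  have h2 : Continuous (g ∘ t.2) := hg.comp_continuous t.2.continuous fun x => ht ⟨x, rfl⟩
  rw [LinearMap.compr₂_apply, LinearMap.compl₁₂_apply, psh_single f s h1, psh_single g t h2,
    Kit_bil_single, Kit_bil_single, Kit_psh_rl _ _ f g h1 h2]

theorem Kit_bil_CH {A : Set X} {B : Set Y} {u : Tot R X} {v : Tot R Y} (hu : u ∈ CH R A)
    (hv : v ∈ CH R B) : Kit_bil R X Y T u v ∈ CH R (A ×ˢ B) := by
  refine Kit_mem2 _ _ (fun s hs t ht => ?_) hu hv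
  rw [Kit_bil_single]
  exact Kit_rl_CH _ _ (fun x => hs ⟨x, rfl⟩) (fun x => ht ⟨x, rfl⟩) _

theorem Kit_bil_DG {p q n : ℕ}
    (h : T.S (p + 1) (q + 1) _ _ (Kit_fr p) (Kit_fr q) ∈ Kit_G _ (n + 1)) {u : Tot R X}
    {v : Tot R Y} (hu : u ∈ DG R X p) (hv : v ∈ DG R Y q) :
    Kit_bil R X Y T u v ∈ DG R (X × Y) n := by
  refine Kit_mem2 _ _ ?_ hu hv
  rintro ⟨_, s⟩ rfl ⟨_, t⟩ rfl
  rw [Kit_bil_single]
  exact Kit_rl_DG _ _ h

theorem Kit_bil_cast {S : Type} [CommRing S] (φ : R →+* S) (u : Tot R X) (v : Tot R Y) :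
    cast φ _ (Kit_bil R X Y T u v) = Kit_bil S X Y T (cast φ X u) (cast φ Y v) := by
  induction u using Finsupp.induction_linear with
  | zero => simp
  | add a b ha hb => simp only [map_add, LinearMap.add_apply, ha, hb]
  | single s a =>
    induction v using Finsupp.induction_linear with
    | zero => simp
    | add a b ha hb => simp only [map_add, ha, hb]
    | single t b =>
      rw [cast_single, cast_single]
      simp only [Kit_bil, linearCombination_single, LinearMap.smul_apply, map_smulₛₗ,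
        Kit_cast_rl]

end

end Pool.Agent.MP_bc14e1_gt

end

section

open Set Metric
open scoped Classical

namespace Pool.Agent.MP_bc14e1_gt

noncomputable section

open Finsupp

/-- The shuffle product as a natural operation. -/
def Kit_opS : Kit_Op where
  S _ _ _ _ := Kit_sh
  nat _ _ _ _ _ _ := Kit_sh_nat
  nil _ _ _ := Kit_sh_nil
  nil' _ _ _ := Kit_sh_nil'

/-- The commutativity homotopy as a natural operation. -/
def Kit_opW : Kit_Op where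
  S p q _ _ := Kit_w p q
  nat p q _ _ _ _ f g := Kit_w_nat f g p q
  nil _ _ _ _ := by simp
  nil' _ _ _ _ := by simp

variable {R : Type} [CommRing R] {X Y : Type} [TopologicalSpace X] [TopologicalSpace Y]

theorem Kit_top {α : Type} (u : α →₀ R) : u ∈ supported R R (univ : Set α) := by
  rw [supported_univ]; trivial

theorem Kit_cx_leib (u : Tot R X) (v : Tot R Y) :
    dT R _ (Kit_bil R X Y Kit_opS u v) =
      Kit_bil R X Y Kit_opS (dT R X u) v + Kit_bil R X Y Kit_opS (eps R X u) (dT R Y v) := by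
  refine Kit_eq2 ((Kit_bil R X Y Kit_opS).compr₂ (dT R _))
    ((Kit_bil R X Y Kit_opS) ∘ₗ (dT R X) + (Kit_bil R X Y Kit_opS).compl₁₂ (eps R X) (dT R Y))
    ?_ (Kit_top u) (Kit_top v)
  rintro ⟨p, s⟩ - ⟨q, t⟩ -
  rw [LinearMap.compr₂_apply, LinearMap.add_apply, LinearMap.add_apply, LinearMap.comp_apply,
    LinearMap.compl₁₂_apply, eps, sgn_single, map_zsmul, LinearMap.smul_apply, Kit_bil_left,
    Kit_bil_right, Kit_bil_single, Kit_rl_D]
  have := Kit_leib (List.ofFn (id : Fin (p + 1) → _)) (List.ofFn (id : Fin (q + 1) → _))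
  change Kit_D (Kit_sh (Kit_fr p) (Kit_fr q)) = Kit_sh (Kit_D (Kit_fr p)) (Kit_fr q) -
    _ • Kit_sh (Kit_fr p) (Kit_D (Kit_fr q)) + _ at this
  change Kit_rl R s t (Kit_D (Kit_sh _ _)) = Kit_rl R s t (Kit_sh _ _) +
    _ • Kit_rl R s t (Kit_sh _ _)
  rw [this, map_add, map_sub, map_zsmul, map_zsmul, Kit_rl_nil, List.length_ofFn, pow_succ]
  module

theorem Kit_cx_pt (u : Tot R X) (y : Y) :
    Kit_bil R X Y Kit_opS u (pt R y) = psh R (fun x => (x, y)) u := by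
  have : (Kit_bil R X Y Kit_opS).flip (pt R y) = psh R (fun x => (x, y)) := by
    refine lhom_ext' fun s => LinearMap.ext_ring ?_
    obtain ⟨p, s⟩ := s
    rw [LinearMap.comp_apply, LinearMap.comp_apply, lsingle_apply, LinearMap.flip_apply, pt,
      Kit_bil_single, psh_single _ _ (by fun_prop)]
    change Kit_rl R s _ (Kit_sh (single (List.ofFn id) 1) (single [(0 : Fin 1)] 1)) = _
    rw [List.ofFn_succ, Kit_sh_pt, ← List.ofFn_succ, List.map_ofFn, Kit_rl_ofFn]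
    congr 2
    refine ContinuousMap.ext fun x => Prod.ext ?_ rfl
    exact congrArg s (stdSimplex.map_id_apply x)
  exact DFunLike.congr_fun this u

theorem Kit_pt_cx (x : X) (v : Tot R Y) :
    Kit_bil R X Y Kit_opS (pt R x) v = psh R (fun y => (x, y)) v := by
  have : Kit_bil R X Y Kit_opS (pt R x) = psh R (fun y => (x, y)) := by
    refine lhom_ext' fun t => LinearMap.ext_ring ?_
    obtain ⟨q, t⟩ := t
    rw [LinearMap.comp_apply, LinearMap.comp_apply, lsingle_apply, pt,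
      Kit_bil_single, psh_single _ _ (by fun_prop)]
    change Kit_rl R _ t (Kit_sh (single [(0 : Fin 1)] 1) (single (List.ofFn id) 1)) = _
    rw [List.ofFn_succ, Kit_pt_sh, ← List.ofFn_succ, List.map_ofFn, Kit_rl_ofFn]
    congr 2
    refine ContinuousMap.ext fun y => Prod.ext rfl ?_
    exact congrArg t (stdSimplex.map_id_apply y)
  exact DFunLike.congr_fun this v

theorem Kit_sh22 : Kit_sh (Kit_fr 2) (Kit_fr 2) =
    single [(0, 0), (1, 0), (2, 0), (2, 1), (2, 2)] 1 -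
    single [(0, 0), (1, 0), (1, 1), (2, 1), (2, 2)] 1 +
    single [(0, 0), (1, 0), (1, 1), (1, 2), (2, 2)] 1 +
    single [(0, 0), (0, 1), (1, 1), (2, 1), (2, 2)] 1 -
    single [(0, 0), (0, 1), (1, 1), (1, 2), (2, 2)] 1 +
    single [(0, 0), (0, 1), (0, 2), (1, 2), (2, 2)] 1 := by
  change Kit_sh (single [0, 1, 2] 1) (single [0, 1, 2] 1) = _
  simp only [Kit_sh_cc, Kit_sh_nil, Kit_sh_nil', Kit_z_single, List.length_cons, List.length_nil,
    map_add, map_smul, Kit_cons_single, reduceCtorEq, if_true, if_false, map_zero, smul_add]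
  module

theorem Kit_rl_shuf (s : Sing X 2) (t : Sing Y 2) (p q : Fin 5 → Fin 3) :
    Kit_rl ℤ s t (single [(p 0, q 0), (p 1, q 1), (p 2, q 2), (p 3, q 3), (p 4, q 4)] 1) =
      inc ℤ 4 (shuf s t p q) :=
  (Kit_rl_ofFn s t fun i => (p i, q i)).trans (inc_single 4 _ _).symm

theorem Kit_cx22 (x : Sing X 2 →₀ ℤ) (y : Sing Y 2 →₀ ℤ) :
    Kit_bil ℤ X Y Kit_opS (inc ℤ 2 x) (inc ℤ 2 y) = inc ℤ 4 (cross22 x y) := by
  conv_lhs => rw [← x.sum_single, ← y.sum_single]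
  simp only [cross22, Finsupp.sum, map_sum, LinearMap.sum_apply]
  rw [Finset.sum_comm]
  refine Finset.sum_congr rfl fun s _ => Finset.sum_congr rfl fun t _ => ?_
  rw [inc_single, inc_single, ← mul_one (x s), ← mul_one (y t), ← smul_eq_mul, ← smul_eq_mul,
    ← smul_single, ← smul_single, map_smul, map_smul, LinearMap.smul_apply, Kit_bil_single,
    map_smul, smul_smul, smul_eq_mul, smul_eq_mul, mul_one, mul_one, mul_comm]
  congr 1
  change Kit_rl ℤ s t (Kit_sh (Kit_fr 2) (Kit_fr 2)) = _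
  simp only [Kit_sh22, map_add, map_sub, ← Kit_rl_shuf]
  rfl

theorem Kit_sw_d (p q : ℕ) {u : Tot R X} {v : Tot R Y} (hu : u ∈ DG R X p) (hv : v ∈ DG R Y q) :
    Kit_bil R X Y Kit_opS u v - (-1 : ℤ) ^ (p * q) • psh R Prod.swap (Kit_bil R Y X Kit_opS v u) =
      dT R _ (Kit_bil R X Y Kit_opW u v) + Kit_bil R X Y Kit_opW (dT R X u) v +
        Kit_bil R X Y Kit_opW (eps R X u) (dT R Y v) := by
  rw [sub_eq_iff_eq_add]
  refine Kit_eq2 (Kit_bil R X Y Kit_opS)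
    ((Kit_bil R X Y Kit_opW).compr₂ (dT R _) + (Kit_bil R X Y Kit_opW) ∘ₗ (dT R X) +
      (Kit_bil R X Y Kit_opW).compl₁₂ (eps R X) (dT R Y) +
      (-1 : ℤ) ^ (p * q) • (Kit_bil R Y X Kit_opS).flip.compr₂ (psh R Prod.swap)) ?_ hu hv
  rintro ⟨p', s⟩ (rfl : p' = p) ⟨q', t⟩ (rfl : q' = q)
  rename' p' => p, q' => q
  simp only [LinearMap.smul_apply, LinearMap.compr₂_apply,
    LinearMap.add_apply, LinearMap.comp_apply, LinearMap.compl₁₂_apply, LinearMap.flip_apply]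
  rw [eps, sgn_single, map_zsmul, LinearMap.smul_apply, Kit_bil_left, Kit_bil_right,
    Kit_bil_single, Kit_bil_single, Kit_bil_single, Kit_rl_D, Kit_swap_rl]
  have := Kit_D_w (p + 1) (q + 1) _ (Kit_fr_mem p) _ (Kit_fr_mem q)
  have s1 : (-1 : ℤ) ^ ((p + 1 + 1) * (q + 1 + 1)) = (-1) ^ (p * q) := by
    rw [show (p + 1 + 1) * (q + 1 + 1) = p * q + 2 * (p + q + 2) by ring, pow_add, pow_mul]; simp
  rw [s1, Nat.add_sub_cancel, Nat.add_sub_cancel, Kit_Ph] at this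
  change Kit_rl R s t (Kit_sh _ _) =
    Kit_rl R s t (Kit_D (Kit_w _ _ _ _)) + Kit_rl R s t (Kit_w _ _ _ _) +
      _ • Kit_rl R s t (Kit_w _ _ _ _) + _ • Kit_rl R s t (Kit_mp _ (Kit_sh _ _))
  rw [this, map_add, map_sub, map_sub, map_zsmul, map_zsmul, pow_succ]
  module

/-- The cross product with all its properties. -/
def Kit_kit : Kit where
  cx R _ X Y _ _ := Kit_bil R X Y Kit_opS
  sw R _ X Y _ _ := (Kit_bil R X Y Kit_opW).compr₂ (psh R Prod.swap)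
  leib _ _ _ _ _ _ := Kit_cx_leib
  nat _ _ _ _ _ _ _ _ _ _ f g _ _ hf hg _ hu _ hv := Kit_bil_nat _ f g hf hg hu hv
  mem _ _ _ _ _ _ _ _ _ hu _ hv := Kit_bil_CH _ hu hv
  dg _ _ _ _ _ _ p q _ hu _ hv := by
    refine Kit_bil_DG _ ?_ hu hv
    have := Kit_sh_mem (Kit_fr_mem p) (Kit_fr_mem q)
    rwa [show p + 1 + (q + 1) - 1 = p + q + 1 by omega] at this
  x_pt _ _ _ _ _ _ := Kit_cx_pt
  pt_x _ _ _ _ _ _ := Kit_pt_cx
  cst _ _ _ _ φ _ _ _ _ := Kit_bil_cast _ φ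
  c22 _ _ _ _ := Kit_cx22
  sw_d R _ X Y _ _ p q u hu v hv := by
    have := congrArg (psh R Prod.swap) (Kit_sw_d p q hu hv)
    rw [map_sub, map_zsmul, psh_psh' _ continuous_swap, Prod.swap_swap_eq, psh_id, map_add,
      map_add, ← dT_psh_cont continuous_swap] at this
    exact this
  sw_nat R _ X Y X' Y' _ _ _ _ f g hf hg u v := by
    rw [LinearMap.compr₂_apply, LinearMap.compr₂_apply, ← Kit_bil_nat _ f g hf.continuousOn
      hg.continuousOn (mem_CH_univ u) (mem_CH_univ v), psh_psh' _ continuous_swap,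
      psh_psh' _ (hf.prodMap hg)]
    rfl
  sw_mem _ _ _ _ _ _ _ _ _ hu _ hv :=
    psh_mem_CH _ (fun _ hz => mk_mem_prod hz.2 hz.1) (Kit_bil_CH _ hu hv)
  sw_dg _ _ _ _ _ _ p q _ hu _ hv := by
    refine psh_mem_DG _ (Kit_bil_DG _ ?_ hu hv)
    have := Kit_w_mem (p + 1) (q + 1) _ (Kit_fr_mem p) _ (Kit_fr_mem q)
    rwa [show p + 1 + (q + 1) = p + q + 1 + 1 by omega] at this

end

theorem kit_stmt : KitStmt := ⟨Kit_kit⟩

end Pool.Agent.MP_bc14e1_gt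

end

section

open Set Metric
open scoped Classical

namespace Pool.Agent.MP_bc14e1_gt

section

variable {R : Type} [CommRing R] {G Y : Type} [Group G] [TopologicalSpace Y] [MulAction G Y]
  [ContinuousConstSMul G Y]

/-- The translate of a simplex. -/
def Tf_sm (g : G) (σ : TS Y) : TS Y :=
  ⟨σ.1, ⟨(fun y : Y => g • y) ∘ σ.2, (continuous_const_smul g).comp σ.2.continuous⟩⟩

theorem Tf_gs_single (g : G) (σ : TS Y) (a : R) :
    gs R Y g (Finsupp.single σ a) = Finsupp.single (Tf_sm g σ) a :=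
  psh_single _ σ ((continuous_const_smul g).comp σ.2.continuous) a

theorem Tf_sm_mul (g h : G) (σ : TS Y) : Tf_sm (g * h) σ = Tf_sm g (Tf_sm h σ) := by
  simp only [Tf_sm]
  congr 1
  ext t
  exact mul_smul g h _

theorem Tf_sm_one (σ : TS Y) : Tf_sm (1 : G) σ = σ := by
  obtain ⟨k, σ⟩ := σ
  simp only [Tf_sm]
  congr 1
  ext t
  simp

theorem Tf_inj {s : G} (hs : ∀ (n : ℤ) (y : Y), s ^ n • y = y → n = 0) (σ : TS Y) {m n : ℤ}
    (h : Tf_sm (s ^ m) σ = Tf_sm (s ^ n) σ) : m = n := by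
  have h1 : Tf_sm (s ^ (m - n)) σ = σ := by
    rw [sub_eq_neg_add, zpow_add, Tf_sm_mul, h, ← Tf_sm_mul, ← zpow_add, neg_add_cancel, zpow_zero,
      Tf_sm_one]
  obtain ⟨k, σ⟩ := σ
  have h2 := eq_of_heq (Sigma.mk.inj h1).2
  have h3 := DFunLike.congr_fun h2 stdSimplex.barycenter
  exact sub_eq_zero.1 (hs _ _ h3)

/-- The position of a simplex in the orbit of `σ`. -/
noncomputable def Tf_e (R : Type) [CommRing R] (s : G) (σ τ : TS Y) : Lam R :=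
  if h : ∃ n : ℤ, τ = Tf_sm (s ^ n) σ then LaurentPolynomial.T h.choose else 0

theorem Tf_e_orb {s : G} (hs : ∀ (n : ℤ) (y : Y), s ^ n • y = y → n = 0) (σ : TS Y) (n : ℤ) :
    Tf_e R s σ (Tf_sm (s ^ n) σ) = LaurentPolynomial.T n := by
  have h : ∃ m : ℤ, Tf_sm (s ^ n) σ = Tf_sm (s ^ m) σ := ⟨n, rfl⟩
  rw [Tf_e, dif_pos h, ← Tf_inj hs σ h.choose_spec]

theorem Tf_e_sm {s : G} (hs : ∀ (n : ℤ) (y : Y), s ^ n • y = y → n = 0) (σ τ : TS Y) (m : ℤ) :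
    Tf_e R s σ (Tf_sm (s ^ m) τ) = LaurentPolynomial.T m * Tf_e R s σ τ := by
  by_cases h : ∃ n : ℤ, τ = Tf_sm (s ^ n) σ
  · obtain ⟨n, rfl⟩ := h
    rw [← Tf_sm_mul, ← zpow_add, Tf_e_orb hs, Tf_e_orb hs, LaurentPolynomial.T_add]
  · have h' : ¬ ∃ n : ℤ, Tf_sm (s ^ m) τ = Tf_sm (s ^ n) σ := by
      rintro ⟨n, hn⟩
      refine h ⟨-m + n, ?_⟩
      rw [zpow_add, Tf_sm_mul, ← hn, ← Tf_sm_mul, ← zpow_add, neg_add_cancel, zpow_zero,
        Tf_sm_one]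
    rw [Tf_e, dif_neg h', Tf_e, dif_neg h, mul_zero]

theorem Tf_e_coeff {s : G} (hs : ∀ (n : ℤ) (y : Y), s ^ n • y = y → n = 0) (σ τ : TS Y) :
    (Tf_e R s σ τ).coeff 0 = if τ = σ then 1 else 0 := by
  have h0 : Tf_sm (s ^ (0 : ℤ)) σ = σ := by rw [zpow_zero, Tf_sm_one]
  by_cases h : ∃ n : ℤ, τ = Tf_sm (s ^ n) σ
  · obtain ⟨n, rfl⟩ := h
    rw [Tf_e_orb hs]
    by_cases hn : n = 0
    · subst hn
      rw [if_pos h0, LaurentPolynomial.T_apply, if_pos rfl]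
    · rw [if_neg fun h => hn (Tf_inj hs σ (h.trans h0.symm)), LaurentPolynomial.T_apply, if_neg hn]
  · rw [Tf_e, dif_neg h, if_neg fun h' => h ⟨0, h'.trans h0.symm⟩]
    simp

theorem Tf_phi_act {s : G} (hs : ∀ (n : ℤ) (y : Y), s ^ n • y = y → n = 0) (σ : TS Y)
    (a : Lam R) (c : Tot R Y) : Finsupp.linearCombination R (Tf_e R s σ) (act R Y s a c) =
      a * Finsupp.linearCombination R (Tf_e R s σ) c := by
  induction a using LaurentPolynomial.induction_on' with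
  | add p q hp hq => simp only [map_add, LinearMap.add_apply, hp, hq, add_mul]
  | C_mul_T n a =>
    rw [map_mul, Module.End.mul_apply, act_C, act_T, map_smul, mul_assoc,
      ← LaurentPolynomial.smul_eq_C_mul]
    congr 1
    induction c using Finsupp.induction_linear with
    | zero => simp
    | add u v hu hv => simp only [map_add, hu, hv, mul_add]
    | single τ r =>
      rw [Tf_gs_single, Finsupp.linearCombination_single, Finsupp.linearCombination_single,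
        Tf_e_sm hs, mul_smul_comm]

theorem Tf_phi_coeff {s : G} (hs : ∀ (n : ℤ) (y : Y), s ^ n • y = y → n = 0) (σ : TS Y)
    (c : Tot R Y) : (Finsupp.linearCombination R (Tf_e R s σ) c).coeff 0 = c σ := by
  induction c using Finsupp.induction_linear with
  | zero => simp
  | add u v hu hv => simp [hu, hv]
  | single τ r =>
    rw [Finsupp.linearCombination_single, Finsupp.single_apply]
    have := Tf_e_coeff (R := R) hs σ τ
    split_ifs at this ⊢ <;> simp [this]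

theorem Tf_zero [IsDomain R] {s : G} (hs : ∀ (n : ℤ) (y : Y), s ^ n • y = y → n = 0) {a : Lam R}
    (ha : a ≠ 0) {c : Tot R Y} (h : act R Y s a c = 0) : c = 0 := by
  ext σ
  have h1 := Tf_phi_act hs σ a c
  rw [h, map_zero] at h1
  rw [← Tf_phi_coeff hs σ c, (mul_eq_zero.1 h1.symm).resolve_left ha]
  simp

end

theorem tf_stmt : TfStmt := by
  intro R _ _ G Y _ _ _ _ s hs a ha c
  refine ⟨Tf_zero hs ha, fun A hA h => ?_, fun k h => ?_⟩
  · have h1 : c - prj R A c = 0 := Tf_zero hs ha (by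
      rw [map_sub, ← map_act (prj R A) (prj_gs s hA), prj_of_mem h, sub_self])
    rw [sub_eq_zero.1 h1]
    exact prj_mem A c
  · have h1 : c - deg R Y k c = 0 := Tf_zero hs ha (by
      rw [map_sub, ← map_act (s := s) (deg R Y k) (fun c => deg_psh _ k c), deg_of_mem h, sub_self])
    rw [sub_eq_zero.1 h1]
    exact deg_mem k c

end Pool.Agent.MP_bc14e1_gt

end

section

open Set Metric
open scoped Classical

namespace Pool.Agent.MP_bc14e1_gt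

open LaurentPolynomial in
theorem Laur_cj_T (n : ℤ) : cj (T n) = T (-n) := by
  have h : AddMonoidAlgebra.mapRingHom ℤ (starRingEnd ℂ) (T n : Lam ℂ) = T n := by
    rw [T, AddMonoidAlgebra.mapRingHom_single, map_one]
  rw [cj, RingHom.comp_apply, h]
  exact invert_T n

open LaurentPolynomial in
theorem Laur_cj_C (a : ℂ) : cj (C a) = C (starRingEnd ℂ a) := by
  have h : AddMonoidAlgebra.mapRingHom ℤ (starRingEnd ℂ) (C a : Lam ℂ) =
      C (starRingEnd ℂ a) := by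
    rw [← single_eq_C, ← single_eq_C, AddMonoidAlgebra.mapRingHom_single]
  rw [cj, RingHom.comp_apply, h]
  exact invert_C _

open LaurentPolynomial in
theorem Laur_evL_T (η : Circle) (n : ℤ) : evL η (T n) = ((η ^ n : Circle) : ℂ) := by
  rw [evL, T, AddMonoidAlgebra.lift_single, one_smul]
  rfl

open LaurentPolynomial in
theorem Laur_evL_C (η : Circle) (a : ℂ) : evL η (C a) = a := (evL η).commutes a

theorem Laur_evL_cj (η : Circle) (a : Lam ℂ) : evL η (cj a) = starRingEnd ℂ (evL η a) := by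
  induction a using LaurentPolynomial.induction_on' with
  | add p q hp hq => simp only [map_add, hp, hq]
  | C_mul_T n a =>
    simp only [map_mul, Laur_cj_T, Laur_cj_C, Laur_evL_T, Laur_evL_C]
    rw [zpow_neg, Circle.coe_inv_eq_conj]

theorem Laur_evL_pi (η ξ : Circle) : evL ξ (piL η) = ξ - η := by
  rw [piL, map_sub, Laur_evL_T, Laur_evL_C, zpow_one]

open LaurentPolynomial in
theorem Laur_dvd_T (η : Circle) (n : ℤ) : piL η ∣ T n - C ((η ^ n : Circle) : ℂ) := by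
  induction n using Int.induction_on with
  | zero => simp
  | succ n ih =>
    have h : (T (n + 1) - C ((η ^ ((n : ℤ) + 1) : Circle) : ℂ) : Lam ℂ) =
        T n * piL η + C (η : ℂ) * (T n - C ((η ^ (n : ℤ) : Circle) : ℂ)) := by
      rw [T_add, zpow_add_one, Circle.coe_mul, map_mul, piL]
      ring
    rw [h]
    exact dvd_add (dvd_mul_left _ _) (ih.mul_left _)
  | pred n ih =>
    have h1 : (C ((η⁻¹ : Circle) : ℂ) * C (η : ℂ) : Lam ℂ) = 1 := by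
      rw [← map_mul, ← Circle.coe_mul, inv_mul_cancel, Circle.coe_one, map_one]
    have h2 : (T (-(n : ℤ) - 1) * T 1 : Lam ℂ) = T (-n) := by rw [← T_add, sub_add_cancel]
    have h : (T (-(n : ℤ) - 1) - C ((η ^ (-(n : ℤ) - 1) : Circle) : ℂ) : Lam ℂ) =
        C ((η⁻¹ : Circle) : ℂ) * ((T (-n) - C ((η ^ (-(n : ℤ)) : Circle) : ℂ)) -
          T (-(n : ℤ) - 1) * piL η) := by
      rw [zpow_sub_one, Circle.coe_mul, map_mul, piL]
      linear_combination (C ((η⁻¹ : Circle) : ℂ)) * h2 - T (-(n : ℤ) - 1) * h1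
    rw [h]
    exact (dvd_sub ih (dvd_mul_left _ _)).mul_left _

theorem Laur_dvd_sub (η : Circle) (a : Lam ℂ) :
    piL η ∣ a - LaurentPolynomial.C (evL η a) := by
  induction a using LaurentPolynomial.induction_on' with
  | add p q hp hq =>
    rw [map_add, map_add, add_sub_add_comm]
    exact dvd_add hp hq
  | C_mul_T n a =>
    rw [map_mul, map_mul, Laur_evL_T, Laur_evL_C, ← mul_sub]
    exact (Laur_dvd_T η n).mul_left _

theorem Laur_ev_iff (η : Circle) (a : Lam ℂ) : evL η a = 0 ↔ piL η ∣ a := by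
  constructor
  · intro h
    simpa [h] using Laur_dvd_sub η a
  · rintro ⟨b, rfl⟩
    rw [map_mul, Laur_evL_pi, sub_self, zero_mul]

theorem Laur_prime (η : Circle) : Prime (piL η) := by
  refine ⟨fun h => ?_, fun h => ?_, fun a b h => ?_⟩
  · have h1 := Laur_evL_pi η (-η)
    rw [h, map_zero, Circle.coe_neg] at h1
    exact η.coe_ne_zero (by linear_combination h1 / 2)
  · have h1 := h.map (evL η)
    rw [Laur_evL_pi, sub_self] at h1
    exact not_isUnit_zero h1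
  · simpa only [← Laur_ev_iff, map_mul, mul_eq_zero] using h

theorem Laur_cont (a : Lam ℂ) : Continuous fun η => evL η a := by
  induction a using LaurentPolynomial.induction_on' with
  | add p q hp hq =>
    simp only [map_add]
    exact hp.add hq
  | C_mul_T n a =>
    simp only [map_mul, Laur_evL_T, Laur_evL_C]
    exact continuous_const.mul (continuous_subtype_val.comp (continuous_zpow n))

theorem Laur_evL_poly (η : Circle) (p : Polynomial ℂ) :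
    evL η (Polynomial.toLaurent p) = p.eval (η : ℂ) := by
  induction p using Polynomial.induction_on' with
  | add p q hp hq => simp only [map_add, hp, hq, Polynomial.eval_add]
  | monomial n a =>
    rw [Polynomial.toLaurent_C_mul_T, map_mul, Laur_evL_T, Laur_evL_C, Polynomial.eval_monomial,
      zpow_natCast, Circle.coe_pow]

theorem Laur_fin (a : Lam ℂ) (ha : a ≠ 0) : {η | evL η a = 0}.Finite := by
  obtain ⟨n, p, hp⟩ := LaurentPolynomial.exists_T_pow a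
  have hp0 : p ≠ 0 := by
    rintro rfl
    rw [map_zero] at hp
    exact ha ((LaurentPolynomial.isUnit_T (n : ℤ)).mul_left_eq_zero.1 hp.symm)
  refine ((p.roots.toFinset.finite_toSet).preimage
    (Circle.coe_injective.injOn)).subset fun η hη => ?_
  have h : evL η a = 0 := hη
  simp only [mem_preimage, Finset.mem_coe, Multiset.mem_toFinset, Polynomial.mem_roots hp0,
    Polynomial.IsRoot]
  rw [← Laur_evL_poly, hp, map_mul, h, zero_mul]

theorem Laur_sq (η : Circle) (a : Lam ℂ) (bad : Set Circle) (hb : bad.Finite) (hc : cj a = a)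
    (h : ∀ ξ ∉ bad, 0 ≤ (evL ξ a).re) (h0 : evL η a = 0) : piL η ^ 2 ∣ a := by
  have : Nontrivial Circle := ⟨⟨1, -1, fun e => by
    have := congrArg (fun z : Circle => (z : ℂ)) e
    norm_num at this⟩⟩
  have hd : Dense badᶜ := by simpa [compl_eq_univ_sdiff] using dense_univ.sdiff_finite hb
  have hall : ∀ ξ, 0 ≤ (evL ξ a).re := fun ξ =>
    (isClosed_le continuous_const (Complex.continuous_re.comp (Laur_cont a))).closure_subset_iff.2
      h (hd ξ)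
  have him : ∀ ξ, (evL ξ a).im = 0 := fun ξ => by
    rw [← Complex.conj_eq_iff_im, ← Laur_evL_cj, hc]
  obtain ⟨b, rfl⟩ := (Laur_ev_iff η a).1 h0
  rw [pow_two]
  refine mul_dvd_mul_left _ ((Laur_ev_iff η b).1 ?_)
  have h1 : HasDerivAt (fun s : ℝ => ((η * Circle.exp s : Circle) : ℂ) - η)
      (η * Complex.I) 0 := by
    simp only [Circle.coe_mul, Circle.coe_exp]
    have := (((hasDerivAt_id (0 : ℝ)).ofReal_comp.mul_const Complex.I).cexp.const_mul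
      (η : ℂ)).sub_const (η : ℂ)
    simpa using this
  have h2 : Continuous fun s : ℝ => evL (η * Circle.exp s) b :=
    (Laur_cont b).comp (continuous_const.mul Circle.exp.continuous)
  have h3 : HasDerivAt (fun s : ℝ => evL (η * Circle.exp s) (piL η * b))
      (η * Complex.I * evL η b) 0 := by
    rw [hasDerivAt_iff_tendsto_slope_zero] at h1 ⊢
    have h4 := h1.mul ((h2.tendsto 0).mono_left nhdsWithin_le_nhds)
    simp only [Circle.exp_zero, mul_one, sub_self, sub_zero, zero_add] at h4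
    simpa only [map_mul, Laur_evL_pi, Circle.exp_zero, mul_one, sub_self, zero_mul, sub_zero,
      zero_add, smul_mul_assoc] using h4
  have h5 := Complex.reCLM.hasFDerivAt.comp_hasDerivAt (0 : ℝ) h3
  have h6 := Complex.imCLM.hasFDerivAt.comp_hasDerivAt (0 : ℝ) h3
  have h7 : (η * Complex.I * evL η b).re = 0 := by
    refine IsLocalMin.hasDerivAt_eq_zero (Filter.Eventually.of_forall fun s => ?_) h5
    simp only [Function.comp_apply, Complex.reCLM_apply, Circle.exp_zero, mul_one, h0,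
      Complex.zero_re]
    exact hall _
  have h8 : (η * Complex.I * evL η b).im = 0 := by
    refine h6.unique ?_
    have : (Complex.imCLM ∘ fun s : ℝ => evL (η * Circle.exp s) (piL η * b)) = fun _ => 0 :=
      funext fun s => him _
    rw [this]
    exact hasDerivAt_const _ _
  have h9 : η * Complex.I * evL η b = 0 := Complex.ext h7 h8
  exact (mul_eq_zero.1 h9).resolve_left (mul_ne_zero η.coe_ne_zero Complex.I_ne_zero)

theorem laur_stmt : LaurStmt := by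
  refine ⟨?_, fun R _ _ => ?_, fun a => ?_, Laur_cj_T, Laur_cj_C, Laur_evL_T, Laur_evL_C,
    Laur_evL_cj, Laur_ev_iff, Laur_prime, fun η => ?_, Laur_cont, Laur_fin, Laur_sq⟩
  · refine ⟨fun I => ?_⟩
    rw [← IsLocalization.map_under (Submonoid.powers (Polynomial.X : Polynomial ℂ)) (Lam ℂ) I]
    obtain ⟨g, hg⟩ := (IsPrincipalIdealRing.principal (I.under (Polynomial ℂ))).principal
    rw [hg, Ideal.submodule_span_eq, Ideal.map_span, image_singleton]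
    exact ⟨_, rfl⟩
  · exact IsLocalization.isNoetherianRing (Submonoid.powers (Polynomial.X : Polynomial R)) _
      inferInstance
  · induction a using LaurentPolynomial.induction_on' with
    | add p q hp hq => simp only [map_add, hp, hq]
    | C_mul_T n a => simp only [map_mul, Laur_cj_T, Laur_cj_C, neg_neg, Complex.conj_conj]
  · have h1 : (LaurentPolynomial.C ((η⁻¹ : Circle) : ℂ) * LaurentPolynomial.C (η : ℂ) : Lam ℂ) =
        1 := by
      rw [← map_mul, ← Circle.coe_mul, inv_mul_cancel, Circle.coe_one, map_one]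
    have h2 : (LaurentPolynomial.T (-1) * LaurentPolynomial.T 1 : Lam ℂ) = 1 := by
      rw [← LaurentPolynomial.T_add, neg_add_cancel, LaurentPolynomial.T_zero]
    rw [piL, map_sub, Laur_cj_T, Laur_cj_C, ← Circle.coe_inv_eq_conj]
    linear_combination (LaurentPolynomial.C ((η⁻¹ : Circle) : ℂ)) * h2 -
      LaurentPolynomial.T (-1) * h1

end Pool.Agent.MP_bc14e1_gt

end

section

open Set Metric
open scoped Classical

namespace Pool.Agent.MP_bc14e1_gt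

section

open LaurentPolynomial

theorem Lam_coeff_T_C (n m : ℤ) (a : ℂ) :
    (T n * C a : Lam ℂ).coeff m = if n = m then a else 0 := by
  rw [mul_comm, ← single_eq_C_mul_T, AddMonoidAlgebra.coeff_single, Finsupp.single_apply]

theorem Lam_coeff_C_T_mul (n m : ℤ) (a : ℂ) (f : Lam ℂ) :
    (C a * T n * f).coeff m = a * f.coeff (-n + m) := by
  rw [← single_eq_C_mul_T, AddMonoidAlgebra.coeff_single_mul_apply]

theorem Lam_finsum_eq {c : ℤ → ℂ} (h : {n | c n ≠ 0}.Finite) :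
    (∑ᶠ n : ℤ, T n * C (c n) : Lam ℂ) = ∑ n ∈ h.toFinset, T n * C (c n) := by
  refine finsum_eq_sum_of_support_subset _ fun n hn => ?_
  rw [Finite.coe_toFinset]
  intro e
  exact hn (by simp only [e, map_zero, mul_zero])

theorem Lam_coeff_finsum {c : ℤ → ℂ} (h : {n | c n ≠ 0}.Finite) (m : ℤ) :
    (∑ᶠ n : ℤ, T n * C (c n) : Lam ℂ).coeff m = c m := by
  rw [Lam_finsum_eq h, AddMonoidAlgebra.coeff_sum, Finsupp.finsetSum_apply]
  simp only [Lam_coeff_T_C, Finset.sum_ite_eq', Finite.mem_toFinset, mem_ofPred_eq]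
  split_ifs with e
  · rfl
  · exact (not_not.1 e).symm

variable {G Y : Type} [Group G] [TopologicalSpace Y] [MulAction G Y] [ContinuousConstSMul G Y]
  {s : G} {b : Form Y}

theorem Lam_inv_zpow (hb : LK s b) (m : ℤ) (u v : Tot ℂ Y) :
    b (gs ℂ Y (s ^ m) u) (gs ℂ Y (s ^ m) v) = b u v := by
  induction m using Int.induction_on generalizing u v with
  | zero => rw [zpow_zero, gs_one, gs_one]
  | succ n ih => rw [zpow_add_one, gs_mul, gs_mul, ih, hb.inv]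
  | pred n ih =>
    rw [zpow_sub_one, gs_mul, gs_mul, ih, ← hb.inv, ← gs_mul, ← gs_mul, mul_inv_cancel, gs_one,
      gs_one]

omit [ContinuousConstSMul G Y] in
theorem Lam_finite (hb : LK s b) (hp : ∀ K K' : Set Y, IsCompact K → IsCompact K' →
    {g : G | ∃ y ∈ K, g • y ∈ K'}.Finite) (u v : Tot ℂ Y) :
    {g : G | b u (gs ℂ Y g v) ≠ 0}.Finite := by
  obtain ⟨K, hK, -, hu⟩ := exists_compact_CH (mem_CH_univ u)
  obtain ⟨K', hK', -, hv⟩ := exists_compact_CH (mem_CH_univ v)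
  refine (hp K' K hK' hK).subset fun g hg => ?_
  by_contra h
  refine hg (hb.loc K Kᶜ disjoint_compl_right u hu _ (gs_mem_CH g (fun y hy e => ?_) hv))
  exact h ⟨y, hy, e⟩

end

theorem lam_stmt (hCov : CovStmt) (hLaur : LaurStmt) : LamStmt := by
  intro X G Y _ _ _ _ _ _ F p s b hT hb
  obtain ⟨-, -, -, -, h5⟩ := hCov G X Y Fᶜ p hT.cov
  obtain ⟨-, -, -, cjT, cjC, evT, evC, -⟩ := hLaur
  have hfin := Lam_finite hb (h5 inferInstance).2
  have hinj : Function.Injective fun n : ℤ => s ^ n := fun m n e => by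
    have e' : s ^ m = s ^ n := e
    have := hT.inf (m - n) (by rw [zpow_sub, e', mul_inv_cancel])
    omega
  have hfin' : ∀ u v, {n : ℤ | b u (gs ℂ Y (s ^ n) v) ≠ 0}.Finite := fun u v =>
    (hfin u v).preimage hinj.injOn
  have hco : ∀ u v n, (lamF s b u v).coeff n = b u (gs ℂ Y (s ^ n) v) := fun u v n =>
    Lam_coeff_finsum (hfin' u v) n
  have hal : ∀ u u' v, lamF s b (u + u') v = lamF s b u v + lamF s b u' v := fun u u' v => by
    refine LaurentPolynomial.ext fun n => ?_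
    rw [AddMonoidAlgebra.coeff_add, Finsupp.add_apply, hco, hco, hco, map_add, LinearMap.add_apply]
  have har : ∀ u v v', lamF s b u (v + v') = lamF s b u v + lamF s b u v' := fun u v v' => by
    refine LaurentPolynomial.ext fun n => ?_
    rw [AddMonoidAlgebra.coeff_add, Finsupp.add_apply, hco, hco, hco, map_add, map_add]
  have hsl : ∀ (a : Lam ℂ) u v, lamF s b (act ℂ Y s a u) v = a * lamF s b u v := fun a u v => by
    induction a using LaurentPolynomial.induction_on' with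
    | add p q hp hq => rw [map_add, LinearMap.add_apply, hal, hp, hq, add_mul]
    | C_mul_T m a =>
      refine LaurentPolynomial.ext fun n => ?_
      rw [Lam_coeff_C_T_mul, hco, hco, map_mul, Module.End.mul_apply, act_C, act_T, map_smul,
        LinearMap.smul_apply, smul_eq_mul, ← Lam_inv_zpow hb m u, ← gs_mul, ← zpow_add,
        add_neg_cancel_left]
  have hsr : ∀ (a : Lam ℂ) u v, lamF s b u (act ℂ Y s a v) = cj a * lamF s b u v :=
    fun a u v => by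
    induction a using LaurentPolynomial.induction_on' with
    | add p q hp hq => rw [map_add, LinearMap.add_apply, har, hp, hq, map_add, add_mul]
    | C_mul_T m a =>
      refine LaurentPolynomial.ext fun n => ?_
      rw [map_mul cj, cjT, cjC, Lam_coeff_C_T_mul, hco, hco, map_mul, Module.End.mul_apply, act_C,
        act_T, map_smul, LinearMap.map_smulₛₗ, smul_eq_mul, ← gs_mul, ← zpow_add, neg_neg,
        add_comm]
  refine ⟨⟨hal, hsl, har, hsr⟩, fun A B hB hAB u hu v hv => ?_, hfin, hco, fun η u v => ?_⟩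
  · refine LaurentPolynomial.ext fun n => ?_
    rw [hco, hb.loc A B hAB u hu _ (gs_mem_CH _ (fun y hy => (hB.zpow n y).2 hy) hv)]
    rfl
  · rw [lamF, Lam_finsum_eq (hfin' u v), map_sum,
      finsum_eq_sum_of_support_subset (s := (hfin' u v).toFinset)]
    · refine Finset.sum_congr rfl fun n _ => ?_
      rw [map_mul, evT, evC]
    · intro n hn
      rw [Finite.coe_toFinset]
      intro e
      exact hn (by simp only [e, mul_zero])

end Pool.Agent.MP_bc14e1_gt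

end

section

open Set Metric
open scoped Classical

namespace Pool.Agent.MP_bc14e1_gt

theorem PA_disc {W : Set (ℂ × ℂ)} (hW : IsOpen W) :
    ∃ V, IsOpen V ∧ V ⊆ W ∧ DiscCl V ∧ ∀ x ∈ W, x.2 = 0 → x ∈ V := by
  refine ⟨⋃ (z : ℂ) (r : ℝ) (_ : ball z r ×ˢ ball (0 : ℂ) r ⊆ W), ball z r ×ˢ ball 0 r,
    isOpen_iUnion fun _ => isOpen_iUnion fun _ => isOpen_iUnion fun _ =>
      isOpen_ball.prod isOpen_ball,
    iUnion_subset fun _ => iUnion_subset fun _ => iUnion_subset fun h => h, fun x hx w hw => ?_,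
    fun x hx h0 => ?_⟩
  · simp only [mem_iUnion] at hx ⊢
    obtain ⟨z, r, h, h1, h2⟩ := hx
    exact ⟨z, r, h, h1, mem_ball_zero_iff.2 (hw.trans_lt (mem_ball_zero_iff.1 h2))⟩
  · obtain ⟨z, w⟩ := x
    obtain rfl : w = 0 := h0
    obtain ⟨r, hr, h⟩ := Metric.isOpen_iff.1 hW _ hx
    rw [← ball_prod_same] at h
    simp only [mem_iUnion]
    exact ⟨z, r, h, mem_ball_self hr, mem_ball_self hr⟩

theorem pa_stmt (B : Bas1) (hRot : RotStmt) : PAStmt := by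
  intro R _ X G Y _ _ _ _ _ _ F p s T hF
  have hp := T.cov.cont
  have hm : ∀ (k : ℕ) (S : Set X), ∀ c ∈ CH R (p ⁻¹' S),
      ((gs R Y s - 1) ^ k) c ∈ CH R (p ⁻¹' S) := fun k S c hc =>
    pow_mem (fun c hc => sub_mem (gs_mem_CH s (fun y hy => by
      rwa [mem_preimage, T.cov.inv]) hc) hc) k hc
  have hd : ∀ (k : ℕ) c, dT R Y (((gs R Y s - 1) ^ k) c) = ((gs R Y s - 1) ^ k) (dT R Y c) := by
    intro k c
    have h : Commute (dT R Y) (gs R Y s - 1) := LinearMap.ext fun c => by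
      change dT R Y (gs R Y s c - c) = gs R Y s (dT R Y c) - dT R Y c
      rw [map_sub, dT_gs]
    exact LinearMap.congr_fun (h.pow_right k).eq c
  refine ind_compact (P := fun L => ∀ N', IsOpen N' → L ⊆ N' →
    ∃ N, IsOpen N ∧ L ⊆ N ∧ N ⊆ N' ∧ ∃ k : ℕ, ∀ z ∈ CH R (p ⁻¹' N), dT R Y z = 0 →
      ∃ b ∈ CH R (p ⁻¹' N'), ((gs R Y s - 1) ^ k) z = dT R Y b) ?_
    (T := fun e : {e // FlatCh F e} => e.1.source) (fun e => e.1.open_source) (S := F) ?_ ?_ hF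
    Subset.rfl fun x hx => ?_
  · exact fun N' _ _ => ⟨∅, isOpen_empty, Subset.rfl, empty_subset _, 0, fun z hz _ =>
      ⟨0, zero_mem _, by rw [eq_zero_of_mem_CH_empty hz, map_zero, map_zero]⟩⟩
  · rintro ⟨e, he⟩ L - hLF hLe N' hN' hLN
    obtain ⟨V, h1, h2, h3, h4⟩ := PA_disc (e.isOpen_inter_preimage_symm hN')
    have h5 : V ⊆ e.target := h2.trans inter_subset_left
    have h6 : e.symm '' V ⊆ N' := image_subset_iff.2 (h2.trans inter_subset_right)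
    obtain ⟨H, -, -, h7, h8⟩ := hRot R G X Y F p s T e V he h1 h5 h3
    refine ⟨e.symm '' V, e.isOpen_image_symm_of_subset_target h1 h5, fun x hx => ?_, h6, 1,
      fun z hz h0 => ⟨H z, CH_mono (preimage_mono h6)
        (h7 V Subset.rfl (fun x hx w hw => h3 x hx w hw.le) z hz), ?_⟩⟩
    · refine ⟨e x, h4 _ ⟨e.map_source (hLe hx), ?_⟩ ((he x (hLe hx)).1 (hLF hx)),
        e.left_inv (hLe hx)⟩
      rw [mem_preimage, e.left_inv (hLe hx)]
      exact hLN hx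
    · have h9 := h8 z hz
      rw [h0, map_zero, add_zero] at h9
      rw [h9, pow_one]
      rfl
  · intro A C hA hC PA PC PI N' hN' hsub
    obtain ⟨N₁, o₁, s₁, t₁, k₁, h₁⟩ := PA N' hN' (subset_union_left.trans hsub)
    obtain ⟨N₂, o₂, s₂, t₂, k₂, h₂⟩ := PC N' hN' (subset_union_right.trans hsub)
    obtain ⟨N₀, o₀, s₀, -, k₀, h₀⟩ := PI (N₁ ∩ N₂) (o₁.inter o₂) (inter_subset_inter s₁ s₂)
    obtain ⟨U, V, oU, oV, sU, sV, hUV⟩ := exists_nhds_inter hA hC o₀ s₀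
    have hN : U ∩ N₁ ∪ V ∩ N₂ ⊆ N' :=
      union_subset (inter_subset_right.trans t₁) (inter_subset_right.trans t₂)
    refine ⟨U ∩ N₁ ∪ V ∩ N₂, (oU.inter o₁).union (oV.inter o₂),
      union_subset_union (subset_inter sU s₁) (subset_inter sV s₂), hN, k₁ + k₂ + k₀,
      fun z hz h0 => ?_⟩
    obtain ⟨m, hm'⟩ := sdT_small_two ((oU.inter o₁).preimage hp) ((oV.inter o₂).preimage hp) hz
    obtain ⟨c₁, m₁, c₂, m₂, hc⟩ := Submodule.mem_sup.1 (hm' m le_rfl)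
    have e1 : dT R Y c₂ = -dT R Y c₁ := by
      rw [eq_neg_iff_add_eq_zero, add_comm, ← map_add, hc, dT_sdT_pow, h0, map_zero]
    have e2 : z = dT R Y (sdHP R Y m z) + (c₁ + c₂) := by
      have h := dT_sdHP m z
      rw [h0, map_zero, add_zero] at h
      rw [h, hc, sub_add_cancel]
    have m₀ : dT R Y c₁ ∈ CH R (p ⁻¹' N₀) := by
      refine CH_mono (preimage_mono hUV) ?_
      rw [preimage_inter, CH_inter]
      exact ⟨CH_mono (preimage_mono inter_subset_left) (dT_mem_CH m₁),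
        neg_mem_iff.1 (e1 ▸ CH_mono (preimage_mono inter_subset_left) (dT_mem_CH m₂))⟩
    obtain ⟨v, mv, hv⟩ := h₀ _ m₀ (dT_dT _)
    obtain ⟨b₁, n₁, hb₁⟩ := h₁ (((gs R Y s - 1) ^ k₀) c₁ - v)
      (sub_mem (hm _ _ _ (CH_mono (preimage_mono inter_subset_right) m₁))
        (CH_mono (preimage_mono inter_subset_left) mv)) (by rw [map_sub, hd, hv, sub_self])
    obtain ⟨b₂, n₂, hb₂⟩ := h₂ (((gs R Y s - 1) ^ k₀) c₂ + v)
      (add_mem (hm _ _ _ (CH_mono (preimage_mono inter_subset_right) m₂))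
        (CH_mono (preimage_mono inter_subset_right) mv))
      (by rw [map_add, hd, e1, map_neg, hv, neg_add_cancel])
    refine ⟨((gs R Y s - 1) ^ (k₁ + k₂ + k₀)) (sdHP R Y m z) +
      (((gs R Y s - 1) ^ k₂) b₁ + ((gs R Y s - 1) ^ k₁) b₂),
      add_mem (hm _ _ _ (CH_mono (preimage_mono hN) (sdHP_mem_CH m hz)))
        (add_mem (hm _ _ _ n₁) (hm _ _ _ n₂)), ?_⟩
    rw [map_add, map_add, hd, hd, hd, ← hb₁, ← hb₂, ← Module.End.mul_apply (_ ^ k₂),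
      ← Module.End.mul_apply (_ ^ k₁), ← pow_add, ← pow_add, add_comm k₂, ← map_add,
      sub_add_add_cancel, ← map_add, ← Module.End.mul_apply (_ ^ (k₁ + k₂)), ← pow_add, ← map_add,
      ← e2]
  · obtain ⟨e, he, h⟩ := T.flat.ch x hx
    exact mem_iUnion.2 ⟨⟨e, he⟩, h⟩

end Pool.Agent.MP_bc14e1_gt

end

section

open Set Metric
open scoped Classical

namespace Pool.Agent.MP_bc14e1_gt

theorem MVi_glue {M : Type} [AddCommGroup M] [Module ℂ M] (P Q N : Submodule ℂ M)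
    (g g' : M →ₗ[ℂ] ℂ) (h : ∀ a ∈ P, ∀ b ∈ Q, ∀ c ∈ N, a + b + c = 0 → g a + g' b = 0) :
    ∃ f : M →ₗ[ℂ] ℂ, (∀ a ∈ P, f a = g a) ∧ (∀ b ∈ Q, f b = g' b) ∧ ∀ c ∈ N, f c = 0 := by
  let Φ : (P × Q) × N →ₗ[ℂ] M := (P.subtype.coprod Q.subtype).coprod N.subtype
  let ψ : (P × Q) × N →ₗ[ℂ] ℂ := ((g ∘ₗ P.subtype).coprod (g' ∘ₗ Q.subtype)).coprod 0
  have h1 : ψ ∈ (LinearMap.ker Φ).dualAnnihilator := by
    rw [Submodule.mem_dualAnnihilator]
    rintro ⟨⟨a, b⟩, c⟩ hc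
    have h2 := h a a.2 b b.2 c c.2 hc
    simpa [ψ] using h2
  rw [← LinearMap.range_dualMap_eq_dualAnnihilator_ker] at h1
  obtain ⟨f, hf⟩ := h1
  have h2 : ∀ x, f (Φ x) = ψ x := fun x => by rw [← hf, LinearMap.dualMap_apply]
  refine ⟨f, fun a ha => ?_, fun b hb => ?_, fun c hc => ?_⟩
  · simpa [Φ, ψ] using h2 ((⟨a, ha⟩, 0), 0)
  · simpa [Φ, ψ] using h2 ((0, ⟨b, hb⟩), 0)
  · simpa [Φ, ψ] using h2 ((0, 0), ⟨c, hc⟩)

section

variable {G Y : Type} [Group G] [TopologicalSpace Y] [MulAction G Y] {s : G}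
  {B : Tot ℂ Y →ₗ[ℂ] Tot ℂ Y →+ ℂ} {Z : Submodule ℂ (Tot ℂ Y)} {K K₁ K₂ U V : Set Y}
  {𝒦₁ 𝒦₂ 𝒦₀ 𝒦 : Set (Set Y)} {b c u u₁ u₂ : Tot ℂ Y}

/-- Pairing with a fixed chain. -/
noncomputable def MVi_ev (B : Tot ℂ Y →ₗ[ℂ] Tot ℂ Y →+ ℂ) (u : Tot ℂ Y) : Tot ℂ Y →ₗ[ℂ] ℂ where
  toFun b := B b u
  map_add' := by simp
  map_smul' := by simp

omit [TopologicalSpace Y] in
theorem MVi_compl (h : Inv s K) : Inv s Kᶜ := fun y => not_congr (h y)

omit [TopologicalSpace Y] in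
theorem MVi_union (h : Inv s K₁) (h' : Inv s K₂) : Inv s (K₁ ∪ K₂) :=
  fun y => or_congr (h y) (h' y)

omit [TopologicalSpace Y] in
theorem MVi_inter (h : Inv s K₁) (h' : Inv s K₂) : Inv s (K₁ ∩ K₂) :=
  fun y => and_congr (h y) (h' y)

theorem MVi_anti (h : K₁ ⊆ K₂) (hc : c ∈ CH ℂ K₂ᶜ ⊔ Z) : c ∈ CH ℂ K₁ᶜ ⊔ Z :=
  sup_le_sup_right (CH_mono (compl_subset_compl.2 h)) Z hc

theorem MVi_map (F : Module.End ℂ (Tot ℂ Y)) (h1 : ∀ c ∈ CH ℂ K, F c ∈ CH ℂ K)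
    (h2 : ∀ c ∈ Z, F c ∈ Z) (hc : c ∈ CH ℂ K ⊔ Z) : F c ∈ CH ℂ K ⊔ Z := by
  obtain ⟨o, ho, z, hz, rfl⟩ := Submodule.mem_sup.1 hc
  rw [map_add]
  exact Submodule.add_mem_sup (h1 o ho) (h2 z hz)

theorem MVi_sdZ (hB : PP s B Z) (m : ℕ) (hc : c ∈ Z) : (sdT ℂ Y ^ m) c ∈ Z :=
  pow_mem hB.sd m hc

theorem MVi_shZ (hB : PP s B Z) (m : ℕ) (hc : c ∈ Z) : sdHP ℂ Y m c ∈ Z := by
  rw [sdHP, LinearMap.sum_apply]
  exact Submodule.sum_mem _ fun j _ => hB.sh _ (MVi_sdZ hB j hc)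

theorem MVi_dN (hB : PP s B Z) (hc : c ∈ CH ℂ K ⊔ Z) : dT ℂ Y c ∈ CH ℂ K ⊔ Z :=
  MVi_map _ (fun _ => dT_mem_CH) hB.d hc

theorem MVi_sdN (hB : PP s B Z) (m : ℕ) (hc : c ∈ CH ℂ K ⊔ Z) :
    (sdT ℂ Y ^ m) c ∈ CH ℂ K ⊔ Z :=
  MVi_map _ (fun _ => sdT_pow_mem_CH m) (fun _ => MVi_sdZ hB m) hc

theorem MVi_shN (hB : PP s B Z) (m : ℕ) (hc : c ∈ CH ℂ K ⊔ Z) : sdHP ℂ Y m c ∈ CH ℂ K ⊔ Z :=
  MVi_map _ (fun _ => sdHP_mem_CH m) (fun _ => MVi_shZ hB m) hc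

theorem MVi_kill (hB : PP s B Z) (hK : Inv s K) (hb : b ∈ CH ℂ Kᶜ ⊔ Z) (hu : u ∈ CH ℂ K) :
    B b u = 0 := by
  obtain ⟨o, ho, z, hz, rfl⟩ := Submodule.mem_sup.1 hb
  rw [map_add, AddMonoidHom.add_apply, hB.zl z hz,
    hB.loc _ _ (MVi_compl hK) hK disjoint_compl_left o ho u hu, add_zero]

theorem MVi_sdl (hB : PP s B Z) (hK : Inv s K) (hb : dT ℂ Y b ∈ CH ℂ Kᶜ ⊔ Z) (hu : u ∈ CH ℂ K)
    (hd : dT ℂ Y u ∈ Z) (m : ℕ) : B ((sdT ℂ Y ^ m) b) u = B b u := by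
  have h1 : B (b - (sdT ℂ Y ^ m) b) u = 0 := by
    rw [← dT_sdHP, map_add, AddMonoidHom.add_apply, hB.stokes, hB.zr _ _ hd,
      MVi_kill hB hK (MVi_shN hB m hb) hu, add_zero]
  rw [map_sub, AddMonoidHom.sub_apply] at h1
  exact (sub_eq_zero.1 h1).symm

theorem MVi_sdr (hB : PP s B Z) (hK : Inv s K) (hb : dT ℂ Y b ∈ CH ℂ Kᶜ ⊔ Z) (hu : u ∈ CH ℂ K)
    (hd : dT ℂ Y u ∈ Z) (m : ℕ) : B b ((sdT ℂ Y ^ m) u) = B b u := by
  have h1 : B b (u - (sdT ℂ Y ^ m) u) = 0 := by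
    rw [← dT_sdHP, map_add, ← hB.stokes, hB.zr _ _ (MVi_shZ hB m hd),
      MVi_kill hB hK hb (sdHP_mem_CH m hu), add_zero]
  rw [map_sub] at h1
  exact (sub_eq_zero.1 h1).symm

theorem MVi_both (hB : PP s B Z) (hK : Inv s K₂) (h1 : c ∈ CH ℂ K₁ᶜ ⊔ Z)
    (h2 : c ∈ CH ℂ K₂ᶜ ⊔ Z) : c ∈ CH ℂ (K₁ ∪ K₂)ᶜ ⊔ Z := by
  obtain ⟨o, ho, z, hz, rfl⟩ := Submodule.mem_sup.1 h2
  obtain ⟨o', ho', z', hz', e⟩ := Submodule.mem_sup.1
    ((Submodule.add_mem_iff_left _ (Submodule.mem_sup_right hz)).1 h1)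
  refine add_mem ?_ (Submodule.mem_sup_right hz)
  rw [← prj_of_mem ho, ← e, map_add, compl_union, CH_inter]
  exact Submodule.add_mem_sup ⟨prj_mem_CH _ ho', prj_mem _ _⟩ (hB.pr _ (MVi_compl hK) _ hz')

theorem MVi_split (hB : PP s B Z) (h1 : IsClosed K₁) (h2 : IsClosed K₂)
    (hc : c ∈ CH ℂ (K₁ ∩ K₂)ᶜ ⊔ Z) : ∃ m : ℕ, ∃ o₁ ∈ CH ℂ K₁ᶜ ⊔ Z, ∃ o₂ ∈ CH ℂ K₂ᶜ ⊔ Z,
      (sdT ℂ Y ^ m) c = o₁ + o₂ := by
  obtain ⟨o, ho, z, hz, rfl⟩ := Submodule.mem_sup.1 hc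
  rw [compl_inter] at ho
  obtain ⟨m, hm⟩ := sdT_small_two h1.isOpen_compl h2.isOpen_compl ho
  obtain ⟨o₁, ho₁, o₂, ho₂, e⟩ := Submodule.mem_sup.1 (hm m le_rfl)
  refine ⟨m, o₁, Submodule.mem_sup_left ho₁, o₂ + (sdT ℂ Y ^ m) z,
    Submodule.add_mem_sup ho₂ (MVi_sdZ hB m hz), ?_⟩
  rw [map_add, ← e, add_assoc]

theorem MVi_carry (h : Adm s 𝒦 U) (hc : c ∈ CH ℂ U) : ∃ L ∈ 𝒦, c ∈ CH ℂ L := by
  obtain ⟨L, h1, h2, h3⟩ := exists_compact_CH hc
  obtain ⟨K, h4, h5⟩ := h.ex L h1 h2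
  exact ⟨K, h4, CH_mono h5 h3⟩

/-- The case of two cycles. -/
theorem MVi_two (hB : PP s B Z) (a1 : Adm s 𝒦₁ U) (a2 : Adm s 𝒦₂ V) (hF : MVF 𝒦₁ 𝒦₂ 𝒦₀ 𝒦)
    (p1 : PDi B Z 𝒦₁ U) (p2 : PDi B Z 𝒦₂ V) (s0 : PDs B Z 𝒦₀) (k1 : K₁ ∈ 𝒦₁) (k2 : K₂ ∈ 𝒦₂)
    (h1 : u₁ ∈ CH ℂ K₁) (h2 : u₂ ∈ CH ℂ K₂) (d1 : dT ℂ Y u₁ ∈ Z) (d2 : dT ℂ Y u₂ ∈ Z)
    (ho : ∀ b, dT ℂ Y b ∈ CH ℂ (K₁ ∪ K₂)ᶜ ⊔ Z → B b (u₁ + u₂) = 0) :
    ∃ w ∈ CH ℂ (U ∪ V), u₁ + u₂ - dT ℂ Y w ∈ Z := by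
  have i1 := a1.kinv _ k1
  have i2 := a2.kinv _ k2
  obtain ⟨f, f1, f2, f3⟩ := MVi_glue ((CH ℂ K₁ᶜ ⊔ Z).comap (dT ℂ Y))
      ((CH ℂ K₂ᶜ ⊔ Z).comap (dT ℂ Y)) (CH ℂ (K₁ ∩ K₂)ᶜ ⊔ Z) (MVi_ev B u₁) (-MVi_ev B u₂) (by
    intro b₁ hb₁ b₂ hb₂ c hc e
    obtain ⟨m, o₁, ho₁, o₂, ho₂, e'⟩ := MVi_split hB (a1.cl _ k1) (a2.cl _ k2) hc
    have e1 : (sdT ℂ Y ^ m) b₁ + o₁ = -((sdT ℂ Y ^ m) b₂ + o₂) := by
      have e2 := congrArg (sdT ℂ Y ^ m) e
      rw [map_add, map_add, e', map_zero] at e2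
      rw [eq_neg_iff_add_eq_zero, ← e2]
      abel
    have t1 : dT ℂ Y ((sdT ℂ Y ^ m) b₁ + o₁) ∈ CH ℂ K₁ᶜ ⊔ Z := by
      rw [map_add, dT_sdT_pow]
      exact add_mem (MVi_sdN hB m hb₁) (MVi_dN hB ho₁)
    have t2 : dT ℂ Y ((sdT ℂ Y ^ m) b₁ + o₁) ∈ CH ℂ K₂ᶜ ⊔ Z := by
      rw [e1, map_neg, map_add, dT_sdT_pow]
      exact neg_mem (add_mem (MVi_sdN hB m hb₂) (MVi_dN hB ho₂))
    have t3 := ho _ (MVi_both hB i2 t1 t2)
    have t4 : B ((sdT ℂ Y ^ m) b₁ + o₁) u₁ = B b₁ u₁ := by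
      rw [map_add, AddMonoidHom.add_apply, MVi_sdl hB i1 hb₁ h1 d1, MVi_kill hB i1 ho₁ h1,
        add_zero]
    have t5 : B ((sdT ℂ Y ^ m) b₁ + o₁) u₂ = -B b₂ u₂ := by
      rw [e1, map_neg, AddMonoidHom.neg_apply, map_add, AddMonoidHom.add_apply,
        MVi_sdl hB i2 hb₂ h2 d2, MVi_kill hB i2 ho₂ h2, add_zero]
    rw [(B _).map_add, t4, t5] at t3
    exact t3)
  obtain ⟨L, hL, -, v, hv, dv, hf⟩ := s0 _ (hF.inter _ k1 _ k2) f (fun b => by
    rw [f1 _ (by simp [dT_dT])]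
    change B _ _ = 0
    rw [hB.stokes, hB.zr _ _ d1]) f3
  obtain ⟨w₁, hw₁, e₁⟩ := p1 _ (a1.union _ k1 _ (hF.le₁ hL)) (u₁ - v)
    (sub_mem (CH_mono subset_union_left h1) (CH_mono subset_union_right hv))
    (by rw [map_sub]; exact sub_mem d1 dv) fun b hb => by
      rw [map_sub, hf b (MVi_anti subset_union_right hb), f1 b (MVi_anti subset_union_left hb)]
      exact sub_self _
  obtain ⟨w₂, hw₂, e₂⟩ := p2 _ (a2.union _ k2 _ (hF.le₂ hL)) (u₂ + v)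
    (add_mem (CH_mono subset_union_left h2) (CH_mono subset_union_right hv))
    (by rw [map_add]; exact add_mem d2 dv) fun b hb => by
      rw [map_add, hf b (MVi_anti subset_union_right hb), f2 b (MVi_anti subset_union_left hb)]
      exact add_neg_cancel _
  refine ⟨w₁ + w₂, add_mem (CH_mono subset_union_left hw₁) (CH_mono subset_union_right hw₂), ?_⟩
  convert add_mem e₁ e₂ using 1
  rw [map_add]
  abel

/-- The case of a sum of two chains. -/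
theorem MVi_sum (hB : PP s B Z) (a1 : Adm s 𝒦₁ U) (a2 : Adm s 𝒦₂ V) (a0 : Adm s 𝒦₀ (U ∩ V))
    (hF : MVF 𝒦₁ 𝒦₂ 𝒦₀ 𝒦) (p1 : PDi B Z 𝒦₁ U) (p2 : PDi B Z 𝒦₂ V) (p0 : PDi B Z 𝒦₀ (U ∩ V))
    (s0 : PDs B Z 𝒦₀) (k1 : K₁ ∈ 𝒦₁) (k2 : K₂ ∈ 𝒦₂)
    (h1 : u₁ ∈ CH ℂ K₁) (h2 : u₂ ∈ CH ℂ K₂) (hd : dT ℂ Y (u₁ + u₂) ∈ Z)
    (ho : ∀ b, dT ℂ Y b ∈ CH ℂ (K₁ ∪ K₂)ᶜ ⊔ Z → B b (u₁ + u₂) = 0) :
    ∃ w ∈ CH ℂ (U ∪ V), u₁ + u₂ - dT ℂ Y w ∈ Z := by
  have i1 := a1.kinv _ k1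
  have i2 := a2.kinv _ k2
  rw [map_add] at hd
  obtain ⟨y, hy, y1, y2⟩ : ∃ y ∈ CH ℂ (K₁ ∩ K₂), dT ℂ Y u₁ - y ∈ Z ∧ y + dT ℂ Y u₂ ∈ Z := by
    have h3 := hB.pr _ i2 _ hd
    rw [map_add, prj_of_mem (dT_mem_CH h2)] at h3
    refine ⟨_, ?_, ?_, h3⟩
    · rw [CH_inter]
      exact ⟨prj_mem_CH _ (dT_mem_CH h1), prj_mem _ _⟩
    · convert sub_mem hd h3 using 1
      abel
  have dy : dT ℂ Y y ∈ Z := by
    have h3 := hB.d _ y1
    rwa [map_sub, dT_dT, zero_sub, neg_mem_iff] at h3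
  obtain ⟨v, hv, e⟩ := p0 _ (hF.inter _ k1 _ k2) y hy dy fun b hb => by
    obtain ⟨m, o₁, ho₁, o₂, ho₂, e'⟩ := MVi_split hB (a1.cl _ k1) (a2.cl _ k2) hb
    have t1 : dT ℂ Y o₂ ∈ CH ℂ K₁ᶜ ⊔ Z := by
      have e2 := congrArg (dT ℂ Y) e'
      rw [dT_sdT_pow, dT_dT, map_zero, map_add, eq_comm, add_eq_zero_iff_neg_eq] at e2
      rw [← e2]
      exact neg_mem (MVi_dN hB ho₁)
    have t2 := ho _ (MVi_both hB i2 t1 (MVi_dN hB ho₂))
    have t3 := hB.zr ((sdT ℂ Y ^ m) b) _ y1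
    rw [map_add, MVi_kill hB i2 ho₂ h2, add_zero] at t2
    rw [map_sub, ← hB.stokes, dT_sdT_pow, e', map_add, AddMonoidHom.add_apply, t2,
      MVi_kill hB i1 ho₁ h1, MVi_sdl hB (MVi_inter i1 i2) hb hy dy, add_zero, zero_sub,
      neg_eq_zero] at t3
    exact t3
  obtain ⟨L, hL, hvL⟩ := MVi_carry a0 hv
  have e1 : u₁ + u₂ = (u₁ - v) + (u₂ + v) := by abel
  rw [e1] at ho ⊢
  refine MVi_two hB a1 a2 hF p1 p2 s0 (a1.union _ k1 _ (hF.le₁ hL)) (a2.union _ k2 _ (hF.le₂ hL))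
    (sub_mem (CH_mono subset_union_left h1) (CH_mono subset_union_right hvL))
    (add_mem (CH_mono subset_union_left h2) (CH_mono subset_union_right hvL)) ?_ ?_
    fun b hb => ho b (MVi_anti (union_subset_union subset_union_left subset_union_left) hb)
  · convert add_mem y1 e using 1
    rw [map_sub]
    abel
  · convert sub_mem y2 e using 1
    rw [map_add]
    abel

end

theorem mvi_stmt : MViStmt := by
  intro G Y _ _ _ s B Z 𝒦₁ 𝒦₂ 𝒦₀ 𝒦 U V hB a1 a2 a0 hF p1 p2 p0 s0 K hK u hu hd ho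
  obtain ⟨K₁, k1, K₂, k2, hs⟩ := hF.spl K hK
  have hUV : u ∈ CH ℂ (U ∪ V) :=
    CH_mono (hs.trans (union_subset_union (a1.sub _ k1) (a2.sub _ k2))) hu
  obtain ⟨m, hm⟩ := sdT_small_two a1.op a2.op hUV
  obtain ⟨u₁, h1, u₂, h2, e⟩ := Submodule.mem_sup.1 (hm m le_rfl)
  obtain ⟨L₁, l1, h1'⟩ := MVi_carry a1 h1
  obtain ⟨L₂, l2, h2'⟩ := MVi_carry a2 h2
  have hs' : K ⊆ (K₁ ∪ L₁) ∪ (K₂ ∪ L₂) :=
    hs.trans (union_subset_union subset_union_left subset_union_left)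
  obtain ⟨w, hw, hz⟩ := MVi_sum hB a1 a2 a0 hF p1 p2 p0 s0 (a1.union _ k1 _ l1)
    (a2.union _ k2 _ l2) (CH_mono subset_union_right h1') (CH_mono subset_union_right h2')
    (by rw [e, dT_sdT_pow]; exact MVi_sdZ hB m hd) fun b hb => by
      rw [e, MVi_sdr hB (MVi_union (a1.kinv _ (a1.union _ k1 _ l1))
        (a2.kinv _ (a2.union _ k2 _ l2))) hb (CH_mono hs' hu) hd]
      exact ho b (MVi_anti hs' hb)
  refine ⟨w + sdHP ℂ Y m u, add_mem hw (sdHP_mem_CH m hUV), ?_⟩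
  convert add_mem hz (MVi_shZ hB m hd) using 1
  rw [e, map_add, eq_sub_of_add_eq (dT_sdHP m u)]
  abel

end Pool.Agent.MP_bc14e1_gt

end

section

open Set Metric
open scoped Classical

namespace Pool.Agent.MP_bc14e1_gt

theorem Uni_ext {V : Type} [AddCommGroup V] [Module ℂ V] (Z T : Submodule ℂ V) (φ : Z →ₗ[ℂ] ℂ)
    (h : ∀ z : Z, z.1 ∈ T → φ z = 0) :
    ∃ ψ : V →ₗ[ℂ] ℂ, (∀ z : Z, ψ z = φ z) ∧ ∀ t ∈ T, ψ t = 0 := by
  have h1 : φ ∈ (LinearMap.ker (T.mkQ ∘ₗ Z.subtype)).dualAnnihilator :=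
    (Submodule.mem_dualAnnihilator _).2 fun z hz => h z ((Submodule.Quotient.mk_eq_zero T).1 hz)
  rw [← LinearMap.range_dualMap_eq_dualAnnihilator_ker] at h1
  obtain ⟨ψ, hψ⟩ := h1
  refine ⟨ψ ∘ₗ T.mkQ, fun z => LinearMap.congr_fun hψ z, fun t ht => ?_⟩
  rw [LinearMap.comp_apply, T.mkQ_apply, (Submodule.Quotient.mk_eq_zero T).2 ht, map_zero]

section

variable {G Y : Type} [Group G] [TopologicalSpace Y] [MulAction G Y] [ContinuousConstSMul G Y]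

theorem Uni_deg (s : G) (a : Lam ℂ) (k : ℕ) (c : Tot ℂ Y) :
    deg ℂ Y k (act ℂ Y s a c) = act ℂ Y s a (deg ℂ Y k c) :=
  map_act _ (fun c => deg_psh _ k c) a c

theorem Uni_bc (s : G) (a : Lam ℂ) {k : ℕ} {c : Tot ℂ Y} (h : c ∈ BC ℂ (univ : Set Y) k) :
    act ℂ Y s a c ∈ BC ℂ (univ : Set Y) k := by
  obtain ⟨b, hb, rfl⟩ := h
  exact ⟨_, ⟨mem_CH_univ _, act_mem_DG s a hb.2⟩, dT_act s a b⟩

theorem Uni_stab [IsNoetherianRing (Lam ℂ)] {s : G} {k : ℕ} (h : FGI ℂ s (univ : Set Y) univ k)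
    (g : Lam ℂ) : ∃ e : ℕ, ∀ y ∈ ZC ℂ (univ : Set Y) k, ∀ N : ℕ,
      act ℂ Y s (g ^ N) y ∈ BC ℂ univ k → act ℂ Y s (g ^ e) y ∈ BC ℂ univ k := by
  obtain ⟨n, z, -, hz⟩ := h
  let M : ℕ → Submodule (Lam ℂ) (Fin n → Lam ℂ) := fun j =>
    { carrier := {a | act ℂ Y s (g ^ j) (∑ i, act ℂ Y s (a i) (z i)) ∈ BC ℂ univ k}
      add_mem' := fun {a b} ha hb => by
        have := (BC ℂ (univ : Set Y) k).add_mem ha hb
        simpa [Finset.sum_add_distrib] using this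
      zero_mem' := by simp
      smul_mem' := fun c a ha => by
        have := Uni_bc s c ha
        rw [← Module.End.mul_apply, ← map_mul, mul_comm, map_mul, Module.End.mul_apply,
          map_sum] at this
        simpa using this }
  have hM : Monotone M := monotone_nat_of_le_succ fun j a ha => by
    have := Uni_bc s g ha
    rwa [← Module.End.mul_apply, ← map_mul, ← pow_succ'] at this
  obtain ⟨e, he⟩ := monotone_stabilizes_iff_noetherian.2 inferInstance ⟨M, hM⟩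
  refine ⟨e, fun y hy N hN => ?_⟩
  obtain ⟨a, ha⟩ := hz y hy
  have h1 : a ∈ M N := by
    have := (BC ℂ (univ : Set Y) k).sub_mem hN (Uni_bc s (g ^ N) ha)
    rwa [map_sub, sub_sub_cancel] at this
  have h2 : a ∈ M e := by
    have h3 : M e = M (max e N) := he _ (le_max_left _ _)
    rw [h3]
    exact hM (le_max_right _ _) h1
  have := (BC ℂ (univ : Set Y) k).add_mem (Uni_bc s (g ^ e) ha) h2
  rwa [map_sub, sub_add_cancel] at this

end

theorem uni_stmt (B : Bas2) (hFrob : FrobStmt) (hPP : PPStmt) (hPD2 : PD2Stmt) : UniStmt := by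
  intro X G Y _ _ _ _ _ _ _ _ _ o F p s β htc hP ζ hζ f hf v hv
  obtain ⟨-, hN, hcc, -, -, -, -, hev, hdv, hpr, -⟩ := B.laur
  have := hN ℂ
  have hfree : ∀ (n : ℤ) (y : Y), s ^ n • y = y → n = 0 :=
    fun n y h => htc.inf n (htc.cov.free _ y h)
  obtain ⟨e, he⟩ := Uni_stab (by
    simpa using B.fg ℂ X G Y F p s htc univ univ isCompact_univ isOpen_univ subset_rfl 1) (piL ζ)
  obtain ⟨ρ, hρ⟩ := (hFrob ζ).2 (e + 1)
  have htf := fun c => (B.tf ℂ G Y s hfree _ hρ.ne c).1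
  obtain ⟨Bf, hB, hpp⟩ := hPP X G Y o F p s β htc hP _ ρ hρ
  have hS := (B.lam X G Y F p s β htc hP.lk).1
  let φ : ZC ℂ (univ : Set Y) 2 →ₗ[ℂ] ℂ :=
    { toFun := fun z => ρ (f ⟨z.1, z.2⟩)
      map_add' := fun x y => by
        rw [← map_add, ← map_add]
        rfl
      map_smul' := fun a x => by
        have h1 : (⟨(a • x).1, (a • x).2⟩ : ZT ℂ Y s 2) =
            (LaurentPolynomial.C a : Lam ℂ) • (⟨x.1, x.2⟩ : ZT ℂ Y s 2) :=
          Subtype.ext (act_C s a x.1).symm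
        rw [h1, map_smul, smul_eq_mul, LaurentPolynomial.C_eq_algebraMap, ← Algebra.smul_def,
          map_smul]
        rfl }
  obtain ⟨ψ, hψ, hψ'⟩ := Uni_ext _ (LinearMap.range (dT ℂ Y) ⊔ Mul0 s (piL ζ ^ (e + 1))) φ
    fun z hz => by
      obtain ⟨_, ⟨w, rfl⟩, _, ⟨y, rfl⟩, h⟩ := Submodule.mem_sup.1 hz
      have h1 := congrArg (deg ℂ Y 2) h
      rw [map_add, deg_dT, Uni_deg, deg_of_mem z.2.1.2] at h1
      have h2 : dT ℂ Y (deg ℂ Y 2 y) = 0 := htf _ (by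
        have h3 := congrArg (dT ℂ Y) h1
        rwa [map_add, dT_dT, zero_add, dT_act, show dT ℂ Y z.1 = 0 from z.2.2] at h3)
      have hw : dT ℂ Y (deg ℂ Y 3 w) ∈ ZC ℂ (univ : Set Y) 2 :=
        ⟨⟨mem_CH_univ _, dT_mem_DG (deg_mem _ _)⟩, dT_dT _⟩
      have hy : deg ℂ Y 2 y ∈ ZC ℂ (univ : Set Y) 2 := ⟨⟨mem_CH_univ _, deg_mem _ _⟩, h2⟩
      have h4 : (⟨z.1, z.2⟩ : ZT ℂ Y s 2) = (⟨_, hw⟩ : ZT ℂ Y s 2) +
          (piL ζ ^ (e + 1)) • (⟨_, hy⟩ : ZT ℂ Y s 2) := Subtype.ext h1.symm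
      change ρ (f _) = 0
      rw [h4, map_add, hf _ ⟨_, ⟨mem_CH_univ _, deg_mem _ _⟩, rfl⟩, zero_add, map_smul,
        smul_eq_mul, hρ.kill]
  obtain ⟨K', -, -, u, -, ⟨y, hy⟩, hb⟩ := (hPD2 X G Y o F p s β htc hP ζ hζ (e + 1) ρ hρ Bf hB hpp
    univ isOpen_univ).2 _ ⟨univ, isCompact_univ, subset_rfl, rfl⟩ ψ
    (fun b => hψ' _ (Submodule.mem_sup_left ⟨b, rfl⟩)) fun b hb => by
      obtain ⟨x, hx, t, ht, rfl⟩ := Submodule.mem_sup.1 hb
      rw [preimage_univ, compl_univ] at hx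
      rw [eq_zero_of_mem_CH_empty hx, zero_add]
      exact hψ' _ (Submodule.mem_sup_right ht)
  have h1 : evL ζ (lamF s β v.1 u) = 1 := by
    have h2 := hρ.inj (cj (lamF s β v.1 u - 1)) fun a => by
      have h3 := hb (a • v).1 (by
        rw [show dT ℂ Y (a • v).1 = 0 from (a • v).2.2]
        exact zero_mem _)
      rw [hB, hψ ⟨(a • v).1, (a • v).2⟩] at h3
      change ρ (lamF s β (a • v.1) u) = ρ (f (a • v)) at h3
      rw [hS.smul_left, map_smul, hv, smul_eq_mul] at h3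
      rw [hcc, mul_sub, map_sub, h3, sub_self]
    have h4 := (hdv ζ _).2 ((dvd_pow_self _ e.succ_ne_zero).trans h2)
    rwa [hev, map_eq_zero, map_sub, map_one, sub_eq_zero] at h4
  have h5 : lamF s β v.1 (deg ℂ Y 2 u) = lamF s β v.1 u := by
    refine finsum_congr fun n => ?_
    have h6 : ∀ c, β v.1 (deg ℂ Y 2 c) = β v.1 c := fun c => by
      induction c using Tot.ind with
      | h0 => simp
      | hadd a b ha hb => simp [ha, hb]
      | h1 k σ a =>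
        rw [deg_inc]
        split_ifs with hk
        · rfl
        · rw [map_zero, hP.dg 2 k (by omega) _ v.2.1.2 _ (inc_mem_DG _ _)]
    rw [gs, ← deg_psh, h6]
  have h7 : dT ℂ Y (deg ℂ Y 2 u) = act ℂ Y s (piL ζ ^ (e + 1)) (deg ℂ Y 1 y) := by
    rw [← deg_dT, ← hy, Uni_deg]
  obtain ⟨c, hc, h8⟩ := he (deg ℂ Y 1 y) ⟨⟨mem_CH_univ _, deg_mem _ _⟩, htf _ (by
    rw [← dT_act, ← h7, dT_dT])⟩ (e + 1) ⟨_, ⟨mem_CH_univ _, deg_mem _ _⟩, h7⟩
  refine ⟨deg ℂ Y 2 u - act ℂ Y s (piL ζ) c,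
    ⟨⟨mem_CH_univ _, sub_mem (deg_mem _ _) (act_mem_DG s _ hc.2)⟩, ?_⟩, ?_⟩
  · change dT ℂ Y _ = 0
    rw [map_sub, dT_act, h8, h7, pow_succ', map_mul, Module.End.mul_apply, sub_self]
  · have h9 := hS.add_right v.1 (deg ℂ Y 2 u - act ℂ Y s (piL ζ) c) (piL ζ • toTw ℂ Y s c)
    rw [hS.smul_right] at h9
    change lamF s β v.1 (deg ℂ Y 2 u - act ℂ Y s (piL ζ) c + act ℂ Y s (piL ζ) c) = _ at h9
    rw [sub_add_cancel, h5] at h9
    have h10 := congrArg (evL ζ) h9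
    rw [h1, map_add, map_mul, hev, (hdv ζ _).2 dvd_rfl, map_zero, zero_mul, add_zero] at h10
    rw [← h10]
    exact one_ne_zero

end Pool.Agent.MP_bc14e1_gt

end

section

open Set Metric
open scoped Classical

namespace Pool.Agent.MP_bc14e1_gt

section Aux

variable {G Y : Type} [Group G] [TopologicalSpace Y] [MulAction G Y] [ContinuousConstSMul G Y]

/-- The sum of the translates under a finite subgroup. -/
noncomputable def Rank2_N (R : Type) [CommRing R] (Y : Type) [TopologicalSpace Y] [MulAction G Y]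
    (B : Subgroup G) [Fintype B] : Module.End R (Tot R Y) := ∑ g : B, gs R Y (g : G)

variable {R : Type} [CommRing R] (B : Subgroup G) [Fintype B]

omit [ContinuousConstSMul G Y] in
theorem Rank2_N_apply (c : Tot R Y) : Rank2_N R Y B c = ∑ g : B, gs R Y (g : G) c := by
  rw [Rank2_N, LinearMap.sum_apply]

theorem Rank2_N_inv (c : Tot R Y) : ∀ g ∈ B, gs R Y g (Rank2_N R Y B c) = Rank2_N R Y B c := by
  intro g hg
  rw [Rank2_N_apply, map_sum]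
  refine Fintype.sum_equiv (Equiv.mulLeft (⟨g, hg⟩ : B)) _ _ fun h => ?_
  rw [← gs_mul]
  rfl

omit [ContinuousConstSMul G Y] in
theorem Rank2_N_of_inv {c : Tot R Y} (h : ∀ g ∈ B, gs R Y g c = c) :
    Rank2_N R Y B c = (Fintype.card B : R) • c := by
  rw [Rank2_N_apply, Finset.sum_congr rfl fun (g : B) _ => h g g.2, Finset.sum_const, Finset.card_univ,
    Nat.cast_smul_eq_nsmul]

theorem Rank2_N_dT (c : Tot R Y) : dT R Y (Rank2_N R Y B c) = Rank2_N R Y B (dT R Y c) := by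
  rw [Rank2_N_apply, Rank2_N_apply, map_sum]
  exact Finset.sum_congr rfl fun g _ => dT_gs _ _

omit [ContinuousConstSMul G Y] in
theorem Rank2_N_DG {k : ℕ} {c : Tot R Y} (h : c ∈ DG R Y k) : Rank2_N R Y B c ∈ DG R Y k := by
  rw [Rank2_N_apply]
  exact sum_mem fun g _ => gs_mem_DG _ h

omit [ContinuousConstSMul G Y] in
theorem Rank2_N_cast {S : Type} [CommRing S] (φ : R →+* S) (c : Tot R Y) :
    cast φ Y (Rank2_N R Y B c) = Rank2_N S Y B (cast φ Y c) := by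
  rw [Rank2_N_apply, Rank2_N_apply, map_sum]
  exact Finset.sum_congr rfl fun g _ => cast_psh φ _ c

theorem Rank2_cast_act {S : Type} [CommRing S] (φ : R →+* S) (s : G) (a : Lam R) (c : Tot R Y) :
    cast φ Y (act R Y s a c) = act S Y s (AddMonoidAlgebra.mapRingHom ℤ φ a) (cast φ Y c) := by
  induction a using LaurentPolynomial.induction_on' with
  | add p q hp hq => simp only [map_add, LinearMap.add_apply, hp, hq]
  | C_mul_T n a =>
    have e : AddMonoidAlgebra.mapRingHom ℤ φ (LaurentPolynomial.C a * LaurentPolynomial.T n) =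
        (LaurentPolynomial.C (φ a) * LaurentPolynomial.T n : Lam S) := by
      rw [← LaurentPolynomial.single_eq_C_mul_T, ← LaurentPolynomial.single_eq_C_mul_T,
        AddMonoidAlgebra.mapRingHom_single]
    rw [e, map_mul, map_mul, Module.End.mul_apply, Module.End.mul_apply, act_C, act_C, act_T, act_T,
      LinearMap.map_smulₛₗ, gs, gs, cast_psh]

/-- Boundaries as a submodule over the Laurent polynomials. -/
noncomputable def Rank2_Bd (R : Type) [CommRing R] (Y : Type) [TopologicalSpace Y] [MulAction G Y]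
    [ContinuousConstSMul G Y] (s : G) : Submodule (Lam R) (Tw R Y s) :=
  twSub (BC R univ 2) (by
    rintro n _ ⟨b, hb, rfl⟩
    exact ⟨gs R Y (s ^ n) b, ⟨mem_CH_univ _, gs_mem_DG _ hb.2⟩, dT_gs _ _⟩)

theorem Rank2_sum_zero {s : G} {ι : Type} [Fintype ι] (a : ι → Lam R) (z : ι → Tot R Y) :
    ∑ i, a i • (Rank2_Bd R Y s).mkQ (toTw R Y s (z i)) = 0 ↔
      ∑ i, act R Y s (a i) (z i) ∈ BC R univ 2 := by
  have e : ∑ i, a i • (Rank2_Bd R Y s).mkQ (toTw R Y s (z i)) =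
      (Rank2_Bd R Y s).mkQ (toTw R Y s (∑ i, act R Y s (a i) (z i))) := by
    rw [map_sum, map_sum]
    exact Finset.sum_congr rfl fun i _ => by rw [← Tw.smul_def, map_smul]
  rw [e, Submodule.mkQ_apply, Submodule.Quotient.mk_eq_zero]
  rfl

end Aux

theorem rank2_stmt (B : Bas2) (hRkAlg : RkAlgStmt) (hRank2a : Rank2aStmt) : Rank2Stmt := by
  intro X G Y _ _ _ _ _ _ _ _ F p s A n hT hA hD z hz
  have := Fintype.ofFinite A
  have hfg : FGI ℤ s (univ : Set Y) univ 2 :=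
    B.fg ℤ X G Y F p s hT univ univ isCompact_univ isOpen_univ subset_rfl 2
  have hcard : (Fintype.card A : ℂ) ≠ 0 := Nat.cast_ne_zero.2 Fintype.card_ne_zero
  let S₀ : Set (Tw ℂ Y s ⧸ Rank2_Bd ℂ Y s) := {x | ∃ y : Tot ℤ Y,
    (y ∈ ZC ℤ univ 2 ∧ ∀ g ∈ A, gs ℤ Y g y = y) ∧
      x = (Rank2_Bd ℂ Y s).mkQ (toTw ℂ Y s (castZ ℂ Y y))}
  have hmem : ∀ i, (Rank2_Bd ℂ Y s).mkQ (toTw ℂ Y s (z i)) ∈ Submodule.span (Lam ℂ) S₀ := by
    intro i
    have hd : dT ℂ Y (z i) = 0 := (hz i).1.2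
    have h1 := (B.flat ℂ Y univ ∅ 2).1 (z i) (hz i).1.1 (by rw [hd]; exact zero_mem _)
    have hsm : ∀ (r : ℂ) (c : Tot ℂ Y),
        (Rank2_Bd ℂ Y s).mkQ (toTw ℂ Y s c) ∈ Submodule.span (Lam ℂ) S₀ →
        (Rank2_Bd ℂ Y s).mkQ (toTw ℂ Y s (r • c)) ∈ Submodule.span (Lam ℂ) S₀ := by
      intro r c hc
      rw [← act_C s, ← Tw.smul_def, map_smul]
      exact Submodule.smul_mem _ _ hc
    have h2 : (Rank2_Bd ℂ Y s).mkQ (toTw ℂ Y s (Rank2_N ℂ Y A (z i))) ∈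
        Submodule.span (Lam ℂ) S₀ := by
      refine Submodule.span_induction (p := fun c _ =>
        (Rank2_Bd ℂ Y s).mkQ (toTw ℂ Y s (Rank2_N ℂ Y A c)) ∈ Submodule.span (Lam ℂ) S₀)
        ?_ (by simp) (fun a b _ _ ha hb => ?_) (fun r a _ ha => ?_) h1
      · rintro _ ⟨y, ⟨hy, hy'⟩, rfl⟩
        refine Submodule.subset_span ⟨Rank2_N ℤ Y A y,
          ⟨⟨⟨mem_CH_univ _, Rank2_N_DG A hy.2⟩, ?_⟩, Rank2_N_inv A y⟩, by rw [Rank2_N_cast]⟩
        change dT ℤ Y _ = 0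
        rw [Rank2_N_dT, eq_zero_of_mem_CH_empty hy', map_zero]
      · simp only [map_add]; exact add_mem ha hb
      · simp only [map_smul (Rank2_N ℂ Y A)]; exact hsm r _ ha
    have h3 := hsm (Fintype.card A : ℂ)⁻¹ _ h2
    rwa [Rank2_N_of_inv A (hz i).2, smul_smul, inv_mul_cancel₀ hcard, one_smul] at h3
  obtain ⟨a, ha, h⟩ := hRkAlg.2.2 (Lam ℤ) (Lam ℂ) (Submodule.span (Lam ℂ) S₀)
    (AddMonoidAlgebra.mapRingHom ℤ (Int.castRingHom ℂ)) (Subtype.val ⁻¹' S₀) n (by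
      intro a b h
      ext m
      have := congrArg (fun x => AddMonoidAlgebra.coeff x m) h
      simpa only [AddMonoidAlgebra.coeff_mapRingHom, eq_intCast, Int.cast_inj] using this)
    Submodule.span_span_coe_preimage (by
      intro w hw
      choose y hy hy' using hw
      obtain ⟨a, ha, b, hb, hb'⟩ := hRank2a G Y s A n hT.cen hfg hD y hy
      refine ⟨a, ha, Subtype.ext ?_⟩
      simp only [Submodule.coe_sum, Submodule.coe_smul, hy', Submodule.coe_zero]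
      rw [Rank2_sum_zero]
      refine ⟨castZ ℂ Y b, ⟨mem_CH_univ _, cast_mem_DG _ hb.2⟩, ?_⟩
      rw [← cast_dT, hb', map_sum]
      exact Finset.sum_congr rfl fun i _ => Rank2_cast_act _ _ _ _)
    fun i => ⟨_, hmem i⟩
  have h' := congrArg Subtype.val h
  simp only [Submodule.coe_sum, Submodule.coe_smul, Submodule.coe_zero] at h'
  rw [Rank2_sum_zero] at h'
  obtain ⟨b, hb, hb'⟩ := h'
  refine ⟨a, ha, (Fintype.card A : ℂ)⁻¹ • Rank2_N ℂ Y A b,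
    Submodule.smul_mem _ _ (Rank2_N_DG A hb.2),
    fun g hg => by rw [map_smul, Rank2_N_inv A b g hg], ?_⟩
  rw [map_smul, Rank2_N_dT, hb', Rank2_N_of_inv, smul_smul, inv_mul_cancel₀ hcard, one_smul]
  intro g hg
  rw [map_sum]
  refine Finset.sum_congr rfl fun i _ => ?_
  rw [map_act (s := s) (s' := s) (gs ℂ Y g) (fun c => by rw [← gs_mul, ← gs_mul, hT.cen]),
    (hz i).2 g hg]

end Pool.Agent.MP_bc14e1_gt

end

section

/-! Excision for the equivariant form. -/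

open Set Metric
open scoped Classical

namespace Pool.Agent.MP_bc14e1_gt

variable {G Y : Type} [Group G] [TopologicalSpace Y] [MulAction G Y] [ContinuousConstSMul G Y]
  {s : G}

theorem AS_deg_act (k : ℕ) (a : Lam ℂ) (c : Tot ℂ Y) :
    deg ℂ Y k (act ℂ Y s a c) = act ℂ Y s a (deg ℂ Y k c) :=
  map_act _ (fun c => deg_psh _ k c) a c

theorem AS_prj_act {A : Set Y} (hA : Inv s A) (a : Lam ℂ) (c : Tot ℂ Y) :
    prj ℂ A (act ℂ Y s a c) = act ℂ Y s a (prj ℂ A c) := map_act _ (prj_gs s hA) a c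

theorem AS_sd_gs (m : ℕ) (c : Tot ℂ Y) :
    (sdT ℂ Y ^ m) (gs ℂ Y s c) = gs ℂ Y s ((sdT ℂ Y ^ m) c) := by
  induction m with
  | zero => rfl
  | succ m ih =>
    rw [pow_succ', Module.End.mul_apply, Module.End.mul_apply, ih]
    exact sdT_psh (continuous_const_smul s).continuousOn (mem_CH_univ _)

theorem AS_sd_act (m : ℕ) (a : Lam ℂ) (c : Tot ℂ Y) :
    (sdT ℂ Y ^ m) (act ℂ Y s a c) = act ℂ Y s a ((sdT ℂ Y ^ m) c) := map_act _ (AS_sd_gs m) a c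

theorem AS_sdHP_act (m : ℕ) (a : Lam ℂ) (c : Tot ℂ Y) :
    sdHP ℂ Y m (act ℂ Y s a c) = act ℂ Y s a (sdHP ℂ Y m c) := by
  refine map_act _ (fun c => ?_) a c
  rw [sdHP, LinearMap.sum_apply, LinearMap.sum_apply, map_sum]
  refine Finset.sum_congr rfl fun j _ => ?_
  rw [Module.End.mul_apply, Module.End.mul_apply, AS_sd_gs]
  exact sdH_psh (continuous_const_smul s).continuousOn (mem_CH_univ _)

theorem AS_sub_prj {U V : Set Y} {c : Tot ℂ Y} (h : c ∈ CH ℂ U ⊔ CH ℂ V) :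
    c - prj ℂ U c ∈ CH ℂ V := by
  obtain ⟨x, hx, y, hy, rfl⟩ := Submodule.mem_sup.1 h
  rw [map_add, prj_of_mem hx, add_sub_add_left_eq_sub]
  exact sub_mem hy (prj_mem_CH U hy)

theorem AS_split {U V : Set Y} (hU : IsOpen U) (hV : IsOpen V) (hUV : ∀ y, y ∈ U ∪ V)
    (c : Tot ℂ Y) : ∃ m : ℕ, (sdT ℂ Y ^ m) c - prj ℂ U ((sdT ℂ Y ^ m) c) ∈ CH ℂ V := by
  obtain ⟨m, hm⟩ := sdT_small_two (c := c) hU hV (mem_CH.2 fun _ _ _ => hUV _)
  exact ⟨m, AS_sub_prj (hm m le_rfl)⟩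

/-- homogeneous solutions -/
theorem AS_hom {O : Set Y} {g : Lam ℂ} (htf : ∀ c, act ℂ Y s g c ∈ CH ℂ O → c ∈ CH ℂ O) {k : ℕ}
    {x : Tot ℂ Y} (hx : x ∈ CC ℂ O k) (h : ∃ w ∈ CH ℂ O, x - dT ℂ Y w ∈ Mul0 s g) :
    ∃ w ∈ CC ℂ O (k + 1), ∃ y ∈ CC ℂ O k, x = dT ℂ Y w + act ℂ Y s g y := by
  obtain ⟨w, hw, y, e⟩ := h
  have e1 := congrArg (deg ℂ Y k) e
  rw [AS_deg_act, map_sub, deg_of_mem hx.2, deg_dT] at e1
  refine ⟨_, ⟨deg_mem_CH (k + 1) hw, deg_mem _ _⟩, deg ℂ Y k y, ⟨htf _ ?_, deg_mem _ _⟩, ?_⟩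
  · rw [e1]
    exact sub_mem hx.1 (dT_mem_CH (deg_mem_CH _ hw))
  · rw [e1, add_sub_cancel]

/-- excision -/
theorem AS_exc (L : Tot ℂ Y →+ Lam ℂ) (g : Lam ℂ) {U V : Set Y} (hU : IsOpen U) (hV : IsOpen V)
    (hUV : ∀ y, y ∈ U ∪ V) (hs : Inv s U) (k : ℕ) (h1 : ∀ c ∈ CH ℂ V, L c = 0)
    (h2 : ∀ j, j ≠ k + 1 → ∀ c ∈ DG ℂ Y j, L c = 0) (h3 : ∀ c, g ∣ L (dT ℂ Y c))
    (h4 : ∀ c, g ∣ L (act ℂ Y s g c)) {b : Tot ℂ Y} (hb : dT ℂ Y b ∈ CH ℂ V ⊔ Mul0 s g)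
    (hn : ¬ g ∣ L b) : ∃ b' ∈ CC ℂ U (k + 1), ∃ a ∈ CC ℂ U k, ∃ r ∈ CC ℂ (U ∩ V) k,
      dT ℂ Y b' = act ℂ Y s g a + r ∧ ¬ g ∣ L b' := by
  have hL : ∀ c, L (deg ℂ Y (k + 1) c) = L c := by
    intro c
    induction c using Tot.ind with
    | h0 => simp
    | hadd a b ha hb => simp only [map_add, ha, hb]
    | h1 j σ a =>
      rw [deg_inc]
      split_ifs with h
      · rfl
      · rw [map_zero, h2 j h _ (inc_mem_DG _ _)]
  obtain ⟨r₀, hr₀, _, ⟨a₀, rfl⟩, e⟩ := Submodule.mem_sup.1 hb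
  have e1 := congrArg (deg ℂ Y k) e
  rw [map_add, AS_deg_act, deg_dT] at e1
  rw [← hL] at hn
  have hr₁ := deg_mem_CH k hr₀
  have hr₂ := deg_mem k r₀
  have ha₁ := deg_mem k a₀
  have hb₁ := deg_mem (k + 1) b
  generalize deg ℂ Y k r₀ = r₁ at *
  generalize deg ℂ Y k a₀ = a₁ at *
  generalize deg ℂ Y (k + 1) b = b₃ at *
  obtain ⟨m, hm⟩ := AS_split hU hV hUV b₃
  have hd := prj_mem_DG U (sdT_pow_mem_DG m hb₁)
  have hd₂ := sub_mem (sdT_pow_mem_DG m hb₁) hd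
  obtain ⟨b₂, hb₂⟩ : ∃ b₂, b₂ = (sdT ℂ Y ^ m) b₃ - prj ℂ U ((sdT ℂ Y ^ m) b₃) := ⟨_, rfl⟩
  rw [← hb₂] at hm hd₂
  have hV' : (sdT ℂ Y ^ m) r₁ - dT ℂ Y b₂ ∈ CH ℂ V :=
    sub_mem (sdT_pow_mem_CH m hr₁) (dT_mem_CH hm)
  refine ⟨prj ℂ U ((sdT ℂ Y ^ m) b₃), ⟨prj_mem _ _, hd⟩, prj ℂ U ((sdT ℂ Y ^ m) a₁),
    ⟨prj_mem _ _, prj_mem_DG U (sdT_pow_mem_DG m ha₁)⟩,
    prj ℂ U ((sdT ℂ Y ^ m) r₁ - dT ℂ Y b₂), ⟨?_, prj_mem_DG U
      (sub_mem (sdT_pow_mem_DG m hr₂) (dT_mem_DG hd₂))⟩, ?_, fun h => hn ?_⟩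
  · rw [CH_inter]
    exact ⟨prj_mem _ _, prj_mem_CH U hV'⟩
  · rw [← prj_of_mem (dT_mem_CH (prj_mem U ((sdT ℂ Y ^ m) b₃))), ← AS_prj_act hs, ← map_add,
      ← AS_sd_act, hb₂, map_sub, dT_sdT_pow, ← e1, map_add (sdT ℂ Y ^ m)]
    congr 1
    abel
  · have e2 : b₃ = prj ℂ U ((sdT ℂ Y ^ m) b₃) + b₂ + dT ℂ Y (sdHP ℂ Y m b₃) + sdHP ℂ Y m r₁ +
        act ℂ Y s g (sdHP ℂ Y m a₁) := by
      have := dT_sdHP m b₃
      rw [← e1, map_add, AS_sdHP_act] at this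
      rw [hb₂, add_sub_cancel, add_assoc, add_assoc, this, add_sub_cancel]
    rw [e2, map_add, map_add, map_add, map_add, h1 _ hm, h1 _ (sdHP_mem_CH m hr₁), add_zero,
      add_zero]
    exact dvd_add (dvd_add h (h3 _)) (h4 _)

omit [ContinuousConstSMul G Y] in
theorem AS_inv {S : Type} {f : Y → S} (hf : ∀ y, f (s • y) = f y) (J : Set S) :
    Inv s (f ⁻¹' J) := fun y => by simp only [mem_preimage, hf]

theorem AS_stokes {β : Form Y} (h : ∀ u v, β (dT ℂ Y u) v = β u (dT ℂ Y v)) (u v : Tot ℂ Y) :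
    lamF s β (dT ℂ Y u) v = lamF s β u (dT ℂ Y v) :=
  finsum_congr fun n => by rw [h, dT_gs]

omit [ContinuousConstSMul G Y] in
theorem AS_dg {β : Form Y} {k l : ℕ} (h : ∀ u ∈ DG ℂ Y k, ∀ v ∈ DG ℂ Y l, β u v = 0)
    {u v : Tot ℂ Y} (hu : u ∈ DG ℂ Y k) (hv : v ∈ DG ℂ Y l) : lamF s β u v = 0 := by
  rw [lamF, finsum_congr (g := fun _ => 0) fun n => by
    rw [h u hu _ (gs_mem_DG _ hv), map_zero, mul_zero], finsum_zero]

theorem AS_zpow {β : Form Y} (h : LK s β) (n : ℤ) (u v : Tot ℂ Y) :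
    β (gs ℂ Y (s ^ n) u) (gs ℂ Y (s ^ n) v) = β u v := by
  induction n using Int.induction_on generalizing u v with
  | zero => rw [zpow_zero, gs_one, gs_one]
  | succ n ih => rw [zpow_add_one, gs_mul, gs_mul, ih, h.inv]
  | pred n ih =>
    rw [zpow_sub_one, gs_mul, gs_mul, ih, ← h.inv, ← gs_mul, ← gs_mul, mul_inv_cancel, gs_one,
      gs_one]

theorem AS_cj (a : Lam ℂ) (n : ℤ) : (cj a).coeff n = starRingEnd ℂ (a.coeff (-n)) := by
  change (LaurentPolynomial.invert (AddMonoidAlgebra.mapRingHom ℤ (starRingEnd ℂ) a)).coeff n = _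
  rw [LaurentPolynomial.invert_apply, AddMonoidAlgebra.coeff_mapRingHom]

theorem AS_sym {β E₁ E₂ : Form Y} (h : LK s β)
    (h0 : ∀ u v n, (lamF s β u v).coeff n = β u (gs ℂ Y (s ^ n) v))
    (h1 : ∀ u v n, (lamF s E₁ u v).coeff n = E₁ u (gs ℂ Y (s ^ n) v))
    (h2 : ∀ u v n, (lamF s E₂ u v).coeff n = E₂ u (gs ℂ Y (s ^ n) v))
    (hs : ∀ u ∈ DG ℂ Y 2, ∀ v ∈ DG ℂ Y 2,
      β u v - starRingEnd ℂ (β v u) = E₁ (dT ℂ Y u) v + E₂ u (dT ℂ Y v))
    {u v : Tot ℂ Y} (hu : u ∈ DG ℂ Y 2) (hv : v ∈ DG ℂ Y 2) :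
    lamF s β u v - cj (lamF s β v u) = lamF s E₁ (dT ℂ Y u) v + lamF s E₂ u (dT ℂ Y v) := by
  refine AddMonoidAlgebra.coeff_injective (Finsupp.ext fun n => ?_)
  rw [AddMonoidAlgebra.coeff_sub, AddMonoidAlgebra.coeff_add, Finsupp.sub_apply,
    Finsupp.add_apply, AS_cj, h0, h0, h1, h2, ← dT_gs, ← hs u hu _ (gs_mem_DG _ hv),
    ← AS_zpow h n v, ← gs_mul, ← zpow_add, add_neg_cancel, zpow_zero, gs_one]

end Pool.Agent.MP_bc14e1_gt

end

section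

open Set Metric
open scoped Classical

namespace Pool.Agent.MP_bc14e1_gt

section
variable {G Y : Type} [Group G] [TopologicalSpace Y] [MulAction G Y] [ContinuousConstSMul G Y]
  {s : G} {f : Y → ℝ}

/-- the form as an additive map in the first variable -/
noncomputable def AS_L {l : Tot ℂ Y → Tot ℂ Y → Lam ℂ} (h : Sesq (C := Tw ℂ Y s) l)
    (x : Tot ℂ Y) : Tot ℂ Y →+ Lam ℂ := AddMonoidHom.mk' (fun u => l u x) fun u u' =>
  h.add_left u u' x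

theorem AS_mv (hc : Continuous f) {y c : Tot ℂ Y} (hy : y ∈ CC ℂ (f ⁻¹' Ioo (-1) 1) 1)
    (hd : c ∈ DG ℂ Y 2) (e : y = dT ℂ Y c) :
    ∃ c₁ ∈ CC ℂ (f ⁻¹' Iio 1) 2, ∃ c₂ ∈ CC ℂ (f ⁻¹' Ioi (-1)) 2,
      y = dT ℂ Y c₁ + dT ℂ Y c₂ ∧ dT ℂ Y c₁ ∈ CC ℂ (f ⁻¹' Ioo (-1) 1) 1 := by
  obtain ⟨m, hm⟩ := AS_split (isOpen_Iio.preimage hc) (isOpen_Ioi.preimage hc)
    (fun y => (lt_or_ge (f y) 1).imp id fun h => lt_of_lt_of_le (by norm_num : (-1 : ℝ) < 1) h) c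
  have h1 := sdT_pow_mem_DG m hd
  have h2 := prj_mem_DG (f ⁻¹' Iio 1) h1
  have h3 : prj ℂ (f ⁻¹' Iio 1) ((sdT ℂ Y ^ m) c) + sdHP ℂ Y m y ∈ CC ℂ (f ⁻¹' Iio 1) 2 :=
    add_mem ⟨prj_mem _ _, h2⟩ ⟨CH_mono (preimage_mono Ioo_subset_Iio_self) (sdHP_mem_CH m hy.1),
      sdHP_mem_DG m hy.2⟩
  have h4 : y = dT ℂ Y (prj ℂ (f ⁻¹' Iio 1) ((sdT ℂ Y ^ m) c) + sdHP ℂ Y m y) +
      dT ℂ Y ((sdT ℂ Y ^ m) c - prj ℂ (f ⁻¹' Iio 1) ((sdT ℂ Y ^ m) c)) := by
    have := congrArg (dT ℂ Y) (dT_sdHP m c)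
    rw [map_add, dT_dT, zero_add, ← e, map_sub, ← e] at this
    rw [map_add, map_sub, this]
    abel
  refine ⟨_, h3, _, ⟨hm, sub_mem h1 h2⟩, h4, ?_, dT_mem_DG h3.2⟩
  rw [← Ioi_inter_Iio, preimage_inter, CH_inter]
  refine ⟨?_, dT_mem_CH h3.1⟩
  rw [← sub_eq_iff_eq_add.2 h4]
  exact sub_mem (CH_mono (preimage_mono Ioo_subset_Ioi_self) hy.1) (dT_mem_CH hm)

theorem AS_two (hc : Continuous f) (hf : ∀ y, f (s • y) = f y) {a c : ℝ} (hac : a ≤ c)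
    {g : Lam ℂ} {b x r : Tot ℂ Y} (hr : r ∈ CC ℂ (f ⁻¹' Ioo (-1) 1 ∩ f ⁻¹' (Icc a c)ᶜ) 1)
    (e : dT ℂ Y b = act ℂ Y s g x + r) :
    ∃ r₁ ∈ CC ℂ (f ⁻¹' Ioo (-1) a) 1, ∃ r₂ ∈ CC ℂ (f ⁻¹' Ioo c 1) 1,
      dT ℂ Y b = act ℂ Y s g x + r₁ + r₂ ∧ ∃ y, dT ℂ Y r₁ = act ℂ Y s g y := by
  have hd : Disjoint (f ⁻¹' Ioo (-1) a) (f ⁻¹' Ioo c 1) :=
    Set.disjoint_left.2 fun y h h' => (h.2.trans_le hac).not_gt h'.1
  have h1 : r ∈ CH ℂ (f ⁻¹' Ioo (-1) a) ⊔ CH ℂ (f ⁻¹' Ioo c 1) := by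
    rw [← CH_union_of_disjoint (isOpen_Ioo.preimage hc) (isOpen_Ioo.preimage hc) hd]
    refine CH_mono (fun y h => ?_) hr.1
    rcases lt_or_ge (f y) a with h' | h'
    · exact Or.inl ⟨h.1.1, h'⟩
    · exact Or.inr ⟨lt_of_not_ge fun h'' => h.2 ⟨h', h''⟩, h.1.2⟩
  have h2 := AS_sub_prj h1
  have h3 := prj_mem_DG (f ⁻¹' Ioo (-1) a) hr.2
  refine ⟨_, ⟨prj_mem _ r, h3⟩, _, ⟨h2, sub_mem hr.2 h3⟩, by rw [e]; abel,
    -prj ℂ (f ⁻¹' Ioo (-1) a) (dT ℂ Y x), ?_⟩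
  have h4 := congrArg (dT ℂ Y) e
  rw [dT_dT, map_add, dT_act, eq_comm, add_eq_zero_iff_neg_eq] at h4
  have h5 := prj_eq_zero hd (dT_mem_CH h2)
  rw [map_sub, map_sub, prj_of_mem (dT_mem_CH (prj_mem _ r)), sub_eq_zero, ← h4, map_neg,
    AS_prj_act (AS_inv hf _)] at h5
  rw [← h5, map_neg]

end

theorem as_stmt (B : Bas2) (hRetr : RetrStmt) (hPDI : PDIStmt) : ASStmt := by
  intro κ K ι Γ G Y _ _ _ _ _ p s β tc hP hpsd hf
  have hc : Continuous (Γ.h ∘ p) := Γ.hc.comp tc.cov.cont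
  have tf := B.tf ℂ G Y s fun n y h => tc.inf n (tc.cov.free _ y h)
  have lam := fun b => B.lam Γ.X G Y Γ.F p s b tc
  have loc : ∀ b, LK s b → LocS (lvTw ℂ s (Γ.h ∘ p) hf) (lamF s b) := fun b hb =>
    ⟨(lam b hb).1, fun k k' J J' hJ u hu v hv =>
      (lam b hb).2.1 _ _ (AS_inv hf J') (hJ.preimage _) u hu.1 v hv.1⟩
  obtain ⟨hS, hloc, -, hco, -⟩ := lam β hP.lk
  obtain ⟨r1, r2⟩ := hRetr κ K ι Γ G Y p s tc.cov hf
  obtain ⟨-, -, -, -, -, -, -, -, l1, l2, l3, -⟩ := B.laur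
  have pd : ∀ ζ : Circle, ζ ≠ 1 → ∀ (n k l : ℕ) (O J : Set ℝ), k + 1 + l = 4 → IsOpen O →
      IsClosed J → J ⊆ O → ∀ u ∈ CC ℂ ((Γ.h ∘ p) ⁻¹' J) l, dT ℂ Y u ∈ Mul0 s (piL ζ ^ n) →
      (¬ ∃ w ∈ CC ℂ ((Γ.h ∘ p) ⁻¹' O) (l + 1), ∃ y ∈ CC ℂ ((Γ.h ∘ p) ⁻¹' O) l,
        u = dT ℂ Y w + act ℂ Y s (piL ζ ^ n) y) →
      ∃ b ∈ CC ℂ ((Γ.h ∘ p) ⁻¹' O) (k + 1), ∃ a ∈ CC ℂ ((Γ.h ∘ p) ⁻¹' O) k,
        ∃ r ∈ CC ℂ ((Γ.h ∘ p) ⁻¹' O ∩ (Γ.h ∘ p) ⁻¹' Jᶜ) k,
          dT ℂ Y b = act ℂ Y s (piL ζ ^ n) a + r ∧ ¬ piL ζ ^ n ∣ lamF s β b u := by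
    intro ζ hζ n k l O J hkl hO hJ hJO u hu hdu hn
    obtain ⟨b, hb, hb'⟩ := hPDI Γ.X G Y Γ.o Γ.F p s β tc hP ζ hζ n (Γ.h ⁻¹' O) (Γ.h ⁻¹' J)
      (hO.preimage Γ.hc) (hJ.preimage Γ.hc).isCompact (preimage_mono hJO) u hu.1 hdu
      fun h => hn (AS_hom (fun c => (tf _ (pow_ne_zero n (l2 ζ).ne_zero) c).2.1 _ (AS_inv hf O))
        ⟨CH_mono (preimage_mono hJO) hu.1, hu.2⟩ h)
    refine AS_exc (AS_L hS u) _ (hO.preimage hc) (hJ.isOpen_compl.preimage hc)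
      (fun y => (em ((Γ.h ∘ p) y ∈ J)).imp (fun h => hJO h) id) (AS_inv hf O) k
      (fun c hc => hloc _ _ (AS_inv hf J) (disjoint_compl_left.preimage _) c hc u hu.1)
      (fun j hj c hc => AS_dg (hP.dg j l (by omega)) hc hu.2) (fun c => ?_)
      (fun c => Dvd.intro _ (hS.smul_left _ c u).symm) hb hb'
    obtain ⟨y, hy⟩ := hdu
    change _ ∣ lamF s β (dT ℂ Y c) u
    rw [AS_stokes hP.stokes, ← hy]
    have : lamF s β c (act ℂ Y s (piL ζ ^ n) y) = cj (piL ζ ^ n) * lamF s β c y :=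
      hS.smul_right _ c y
    rw [this, map_pow, l3, mul_pow]
    exact (dvd_mul_left _ _).mul_right _
  refine
    { dd := dT_dT
      d_mem := fun k J c h => ⟨dT_mem_CH h.1, dT_mem_DG h.2⟩
      d_zero := fun J c h => dT_of_DG_zero h.2
      mono := fun k J J' h c hc => ⟨CH_mono (preimage_mono h) hc.1, hc.2⟩
      inter := fun k J J' c h => ⟨(CH_inter _ _).ge ⟨h.1.1, h.2.1⟩, h.1.2⟩
      tf0 := fun g hg c => (tf g hg c).1
      tf := fun g hg k J c h => ⟨(tf g hg c).2.1 _ (AS_inv hf J) h.1, (tf g hg c).2.2 k h.2⟩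
      cpt := fun k J c h => ?_
      retrN := r1
      retrV := r2
      loc := loc β hP.lk
      stokes := AS_stokes hP.stokes
      sym := ?_
      psd := hpsd.imp fun bad h => ⟨h.1, fun η hη z hz hd => h.2 η hη z ⟨⟨hz.1, hz.2⟩, hd⟩⟩
      pdV := fun ζ hζ n c _ h1 x hx hd hn => ?_
      pdN := fun ζ hζ a c h1 h2 u hu hd hn => ?_
      fgV := ?_
      mv := fun y hy c h e => AS_mv hc hy h.2 e }
  · obtain ⟨L, h1, h2, h3⟩ := exists_compact_CH h.1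
    exact ⟨(Γ.h ∘ p) '' L, image_subset_iff.2 h2, h1.image hc,
      CH_mono (subset_preimage_image _ _) h3, h.2⟩
  · obtain ⟨E₁, E₂, h1, h2, h3⟩ := hP.sym
    exact ⟨lamF s E₁, lamF s E₂, loc _ h1, loc _ h2, fun u hu v hv =>
      AS_sym hP.lk hco (lam _ h1).2.2.2.1 (lam _ h2).2.2.2.1 h3 hu.2 hv.2⟩
  · have hd' : dT ℂ Y x = 0 := hd
    obtain ⟨b, hb, a, ha, r, hr, e⟩ := pd ζ hζ n 2 1 (Iio 1) (Iic c) rfl isOpen_Iio isClosed_Iic
      (Iic_subset_Iio.2 h1) x hx (by rw [hd']; exact zero_mem _) hn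
    refine ⟨b, hb, a, ha, r, ⟨CH_mono (fun y h => ?_) hr.1, hr.2⟩, e⟩
    exact ⟨lt_of_not_ge h.2, h.1⟩
  · rcases lt_or_ge c a with hac | hac
    · have h0 : u = 0 := eq_zero_of_mem_CH_empty (R := ℂ) (CH_mono
        (fun y h => (h.1.trans h.2).not_gt hac) hu.1)
      exact absurd ⟨0, zero_mem _, 0, zero_mem _, by simp [h0]⟩ hn
    obtain ⟨y, hy⟩ := hd
    obtain ⟨b, hb, a', ha, r, hr, e, h⟩ := pd ζ hζ 1 1 2 (Ioo (-1) 1) (Icc a c) rfl isOpen_Ioo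
      isClosed_Icc (Icc_subset_Ioo h1 h2) u hu (by rw [pow_one]; exact ⟨y, hy.symm⟩)
      (by rw [pow_one]; exact hn)
    rw [pow_one] at e h
    obtain ⟨r₁, a1, r₂, a2, a3, a4⟩ := AS_two hc hf hac hr e
    exact ⟨b, hb, a', ha, r₁, a1, r₂, a2, a3, a4, fun h' => h ((l1 _ _).1 h')⟩
  · obtain ⟨n, z, hz, h⟩ := B.fg ℂ Γ.X G Y Γ.F p s tc (Γ.h ⁻¹' Iic 0) (Γ.h ⁻¹' Iio 1)
      (isClosed_Iic.preimage Γ.hc).isCompact (isOpen_Iio.preimage Γ.hc)
      (preimage_mono (Iic_subset_Iio.2 one_pos)) 1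
    obtain ⟨r, H, hH⟩ := r2 0 1 (by norm_num) zero_le_one le_rfl
    refine ⟨n, z, fun i => hz i, fun y hy hd => ?_⟩
    obtain ⟨a1, a2, a3⟩ := (hH 1).1 y hy
    rw [hd, map_zero, add_zero] at a3
    have a4 : dTw ℂ Y s (r y) = 0 := by
      have := congrArg (dTw ℂ Y s) a3
      rw [map_sub, hd, zero_sub, eq_comm, neg_eq_iff_eq_neg] at this
      exact this.trans (neg_eq_zero.2 (dT_dT _))
    obtain ⟨a, b, hb, e⟩ := h (r y)
      ⟨⟨CH_mono (preimage_mono (preimage_mono Iio_subset_Iic_self)) a1.1, a1.2⟩, a4⟩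
    have hb' : toTw ℂ Y s b ∈ lvTw ℂ s (Γ.h ∘ p) hf 2 (Iio 1) := hb
    have e' : dTw ℂ Y s (toTw ℂ Y s b) = r y - ∑ i, a i • toTw ℂ Y s (z i) := e
    refine ⟨a, toTw ℂ Y s b + H y, add_mem hb' a2, ?_⟩
    rw [map_add, e', a3]
    change y = ∑ i, a i • toTw ℂ Y s (z i) + _
    abel

end Pool.Agent.MP_bc14e1_gt

end

section

open Set Metric
open scoped Classical

namespace Pool.Agent.MP_bc14e1_gt

theorem Ext_baer : Module.Baer ℤ (Additive ℂˣ) := by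
  have h1 : DivisibleBy (Additive ℂˣ) ℕ := divisibleByOfSMulRightSurj _ _ fun {n} hn a => by
    obtain ⟨z, hz⟩ := IsAlgClosed.exists_pow_nat_eq ((Additive.toMul a : ℂˣ) : ℂ)
      (Nat.pos_of_ne_zero hn)
    have h0 : z ≠ 0 := by
      rintro rfl
      rw [zero_pow hn] at hz
      exact (Additive.toMul a).ne_zero hz.symm
    exact ⟨Additive.ofMul (Units.mk0 z h0), Additive.toMul.injective (Units.ext (by simpa using hz))⟩
  have h2 := AddGroup.divisibleByIntOfDivisibleByNat (Additive ℂˣ)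
  exact Module.Baer.of_divisible _

/-- Extension of characters. -/
theorem Ext_char {B A : Type} [AddCommGroup B] [AddCommGroup A] (f : B →+ A) (φ : AddChar B ℂ)
    (h : ∀ y, f y = 0 → φ y = 1) : ∃ ψ : AddChar A ℂ, ∀ y, ψ (f y) = φ y := by
  let φ' : B →+ Additive ℂˣ := MonoidHom.toAdditiveRight φ.toMonoidHom.toHomUnits
  have hφ : ∀ y, ((Additive.toMul (φ' y) : ℂˣ) : ℂ) = φ y := fun y => rfl
  obtain ⟨g, hg⟩ := Ext_baer.extension_property_addMonoidHom (QuotientAddGroup.kerLift f)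
    (QuotientAddGroup.kerLift_injective f) (QuotientAddGroup.lift f.ker φ' fun y hy =>
      Additive.toMul.injective (Units.ext ((hφ y).trans (h y hy))))
  refine ⟨⟨fun a => ((Additive.toMul (g a) : ℂˣ) : ℂ), by simp, fun a b => by simp⟩, fun y => ?_⟩
  have h1 : g (f y) = φ' y := DFunLike.congr_fun hg (QuotientAddGroup.mk y)
  rw [← hφ, ← h1]
  rfl

/-- The maximal ideal with residue field of order four. -/
noncomputable def Ext_mm : Ideal (Lam ℤ) :=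
  Ideal.span {2, LaurentPolynomial.T 1 ^ 2 + LaurentPolynomial.T 1 + 1}

theorem Ext_two : (2 : Lam ℤ) ∈ Ext_mm := Ideal.subset_span (.inl rfl)

theorem Ext_q : (LaurentPolynomial.T 1 ^ 2 + LaurentPolynomial.T 1 + 1 : Lam ℤ) ∈ Ext_mm :=
  Ideal.subset_span (.inr rfl)

theorem Ext_finite : Finite (Lam ℤ ⧸ Ext_mm) := by
  obtain ⟨x, hx⟩ : ∃ x, x = Ideal.Quotient.mk Ext_mm (LaurentPolynomial.T 1) := ⟨_, rfl⟩
  have h1 : x ^ 2 + x + 1 = 0 := by
    have := Ideal.Quotient.eq_zero_iff_mem.2 Ext_q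
    rwa [map_add, map_add, map_pow, map_one, ← hx] at this
  have h2 : Ideal.Quotient.mk Ext_mm (LaurentPolynomial.T (-1)) = x ^ 2 := by
    have h3 : Ideal.Quotient.mk Ext_mm (LaurentPolynomial.T (-1)) * x = 1 := by
      rw [hx, ← map_mul, ← LaurentPolynomial.T_add, neg_add_cancel, LaurentPolynomial.T_zero,
        map_one]
    linear_combination (1 - x) * Ideal.Quotient.mk Ext_mm (LaurentPolynomial.T (-1)) * h1 +
      x ^ 2 * h3
  have h3 : ∀ a : Lam ℤ, Ideal.Quotient.mk Ext_mm a ∈ Algebra.adjoin ℤ {x} := by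
    intro a
    have hx' : x ∈ Algebra.adjoin ℤ {x} := Algebra.self_mem_adjoin_singleton ℤ x
    refine a.induction_on (M := fun a => Ideal.Quotient.mk Ext_mm a ∈ Algebra.adjoin ℤ {x})
      (fun b => ?_) (fun h h' => ?_) (fun n b h => ?_) fun n b h => ?_
    · rw [eq_intCast LaurentPolynomial.C b, map_intCast]
      exact intCast_mem _ b
    · rw [map_add]
      exact add_mem h h'
    · rw [LaurentPolynomial.T_add, ← mul_assoc, map_mul, ← hx]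
      exact mul_mem h hx'
    · rw [sub_eq_add_neg, LaurentPolynomial.T_add, ← mul_assoc, map_mul, h2]
      exact mul_mem h (_root_.pow_mem hx' 2)
  have h4 : IsIntegral ℤ x := ⟨Polynomial.X ^ 2 + Polynomial.X + 1, by monicity!, by simpa using h1⟩
  have h5 : Algebra.adjoin ℤ {x} = ⊤ := eq_top_iff.2 fun z _ => by
    obtain ⟨a, rfl⟩ := Ideal.Quotient.mk_surjective z
    exact h3 a
  have h6 : Module.Finite ℤ (Lam ℤ ⧸ Ext_mm) := by
    have := h4.fg_adjoin_singleton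
    rw [h5] at this
    exact ⟨this⟩
  refine Module.finite_of_fg_torsion _ fun z => ⟨⟨2, mem_nonZeroDivisors_of_ne_zero two_ne_zero⟩, ?_⟩
  have h7 : (2 : Lam ℤ ⧸ Ext_mm) = 0 := by
    have := Ideal.Quotient.eq_zero_iff_mem.2 Ext_two
    rwa [map_ofNat] at this
  change (2 : ℤ) • z = 0
  rw [two_smul, ← two_mul, h7, zero_mul]

theorem Ext_pow (e : ℕ) :
    (LaurentPolynomial.T 1 ^ (3 * 2 ^ e) - 1 : Lam ℤ) ∈ Ext_mm ^ (e + 1) := by
  induction e with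
  | zero =>
    rw [zero_add, pow_one]
    convert Ext_mm.mul_mem_left (LaurentPolynomial.T 1 - 1) Ext_q using 1
    ring
  | succ e ih =>
    rw [pow_succ Ext_mm]
    convert Ideal.mul_mem_mul ih (add_mem (Ideal.pow_le_self e.succ_ne_zero ih) Ext_two) using 1
    ring

theorem Ext_dvd {M : Type} [AddCommGroup M] [Module (Lam ℤ) M] (c : M →+ Eis ℤ)
    (hc : ∀ y : M, c ((LaurentPolynomial.T 1 : Lam ℤ) • y) = (om ℤ : (Eis ℤ)ˣ) * c y) (j : ℕ) :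
    ∀ a ∈ Ext_mm ^ j, ∀ y : M, 2 ^ j ∣ c (a • y) := by
  have ho : ((om ℤ : (Eis ℤ)ˣ) : Eis ℤ) * (om ℤ : (Eis ℤ)ˣ) = (om ℤ : (Eis ℤ)ˣ) - 1 := by
    ext <;> simp [om, QuadraticAlgebra.re_one, QuadraticAlgebra.im_one]
  induction j with
  | zero => exact fun a _ y => by rw [pow_zero]; exact one_dvd _
  | succ j ih =>
    intro a ha
    rw [pow_succ'] at ha
    refine Submodule.mul_induction_on ha (fun m hm b hb y => ?_) fun a b h1 h2 y => ?_
    · obtain ⟨u, v, rfl⟩ := Ideal.mem_span_pair.1 hm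
      obtain ⟨p, hp⟩ := ih b hb (u • y)
      obtain ⟨q, hq⟩ := ih b hb (v • y)
      have e : ((u * 2 + v * (LaurentPolynomial.T 1 ^ 2 + LaurentPolynomial.T 1 + 1)) * b) • y =
          b • u • y + b • u • y + ((LaurentPolynomial.T 1 : Lam ℤ) •
            (LaurentPolynomial.T 1 : Lam ℤ) • b • v • y +
            (LaurentPolynomial.T 1 : Lam ℤ) • b • v • y + b • v • y) := by
        simp only [smul_smul, ← add_smul]
        congr 1
        ring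
      refine ⟨p + (om ℤ : (Eis ℤ)ˣ) * q, ?_⟩
      rw [e, map_add, map_add, map_add, map_add, hc, hc, hp, hq]
      linear_combination 2 ^ j * q * ho
    · rw [add_smul, map_add]
      exact dvd_add (h1 y) (h2 y)

theorem Ext_red {x : Eis ℤ} (h : 2 ^ 3 ∣ x) : red8 x = 0 := by
  obtain ⟨w, rfl⟩ := h
  have e : (2 ^ 3 * w : Eis ℤ) = (8 : ℤ) • w := by
    rw [zsmul_eq_mul]
    norm_num
  have h8 : ∀ n : ℤ, (((8 : ℤ) • n : ℤ) : ZMod 8) = 0 := fun n =>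
    (ZMod.intCast_zmod_eq_zero_iff_dvd _ 8).2 (dvd_mul_right _ _)
  rw [e]
  ext
  exacts [h8 w.re, h8 w.im]

theorem ext_stmt (hLaur : LaurStmt) : ExtStmt := by
  intro H _ _ _ M c χ hc
  have := hLaur.2.1 ℤ
  have := Ext_finite
  obtain ⟨k, hk⟩ := Ext_mm.exists_pow_inf_eq_pow_smul M
  have hk3 := hk (k + 3) (by omega)
  rw [Nat.add_sub_cancel_left] at hk3
  have := Ideal.finite_quotient_pow (IsNoetherian.noetherian Ext_mm) (k + 3)
  obtain ⟨N, hN⟩ : ∃ N : Submodule (Lam ℤ) H, N = Ext_mm ^ (k + 3) • ⊤ := ⟨_, rfl⟩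
  have hfin : Finite (H ⧸ N) :=
    hN ▸ Submodule.finite_quotient_smul (Ext_mm ^ (k + 3)) Module.Finite.fg_top
  have kill : ∀ a ∈ Ext_mm ^ (k + 3), ∀ z : H ⧸ N, a • z = 0 := by
    intro a ha z
    obtain ⟨y, rfl⟩ := N.mkQ_surjective z
    rw [← map_smul, Submodule.mkQ_apply, Submodule.Quotient.mk_eq_zero, hN]
    exact Submodule.smul_mem_smul ha trivial
  have hp : IsPGroup 2 (Multiplicative (H ⧸ N)) := fun z => ⟨k + 3, by
    have h1 := kill _ (Ideal.pow_mem_pow Ext_two (k + 3)) (Multiplicative.toAdd z)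
    apply Multiplicative.toAdd.injective
    rw [toAdd_pow, toAdd_one, ← h1, ← Nat.cast_smul_eq_nsmul (Lam ℤ), Nat.cast_pow,
      Nat.cast_ofNat]⟩
  obtain ⟨r, hr⟩ := IsPGroup.iff_card.1 hp
  let τ : (H ⧸ N) ≃ₗ[ℤ] (H ⧸ N) :=
    { toFun := fun z => (LaurentPolynomial.T 1 : Lam ℤ) • z
      invFun := fun z => (LaurentPolynomial.T (-1) : Lam ℤ) • z
      map_add' := smul_add _
      map_smul' := fun n z => smul_comm _ _ _
      left_inv := fun z => by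
        simp only [smul_smul, ← LaurentPolynomial.T_add, neg_add_cancel, LaurentPolynomial.T_zero,
          one_smul]
      right_inv := fun z => by
        simp only [smul_smul, ← LaurentPolynomial.T_add, add_neg_cancel, LaurentPolynomial.T_zero,
          one_smul] }
  have hτ : ∀ z, τ z = (LaurentPolynomial.T 1 : Lam ℤ) • z := fun _ => rfl
  have hτn : ∀ (n : ℕ) z, (τ ^ n) z = (LaurentPolynomial.T 1 ^ n : Lam ℤ) • z := by
    intro n
    induction n with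
    | zero => exact fun z => by rw [pow_zero, pow_zero, one_smul]; rfl
    | succ n ih => exact fun z => by rw [pow_succ, LinearEquiv.mul_apply, ih, hτ, pow_succ, mul_smul]
  let φ : AddChar M ℂ :=
    { toFun := fun y => χ (red8 (c y))
      map_zero_eq_one' := by rw [map_zero, Ext_red (dvd_zero _), AddChar.map_zero_eq_one]
      map_add_eq_mul' := fun a b => by
        rw [← AddChar.map_add_eq_mul, map_add]
        congr 1
        ext <;> simp [red8] }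
  obtain ⟨ψ, hψ⟩ := Ext_char (N.mkQ.toAddMonoidHom.comp M.subtype.toAddMonoidHom) φ fun y hy => by
    have h1 : (y : H) ∈ Ext_mm ^ 3 • M := by
      refine Submodule.smul_mono le_rfl inf_le_right (hk3.le ⟨?_, y.2⟩)
      rw [← hN]
      exact (Submodule.Quotient.mk_eq_zero N).1 hy
    have h2 : ∀ x ∈ Ext_mm ^ 3 • M, ∃ hx : x ∈ M, 2 ^ 3 ∣ c ⟨x, hx⟩ := fun x hx =>
      Submodule.smul_induction_on hx
        (fun a ha z hz => ⟨M.smul_mem a hz, Ext_dvd c hc 3 a ha ⟨z, hz⟩⟩)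
        fun x z ⟨hx, h3⟩ ⟨hz, h4⟩ => ⟨M.add_mem hx hz,
          (map_add c ⟨x, hx⟩ ⟨z, hz⟩).symm ▸ dvd_add h3 h4⟩
    obtain ⟨hx, h3⟩ := h2 y h1
    exact (congrArg χ (Ext_red h3)).trans χ.map_zero_eq_one
  refine ⟨H ⧸ N, inferInstance, hfin, r, k + 1, τ, N.mkQ.toAddMonoidHom, ψ, hr, ?_, fun a ha => ?_,
    fun y => map_smul N.mkQ _ y, hψ⟩
  · ext z
    have h1 := kill _ (Ext_pow (k + 2)) z
    rw [sub_smul, one_smul, sub_eq_zero] at h1
    rw [hτn, show 6 * 2 ^ (k + 1) = 3 * 2 ^ (k + 2) by ring]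
    exact h1
  · have hm : (1 - (LaurentPolynomial.T 1 + 2) * (LaurentPolynomial.T 1 - 1) : Lam ℤ) ∈ Ext_mm := by
      convert sub_mem (Ext_mm.mul_mem_left 2 Ext_two) Ext_q using 1
      ring
    have h1 : (1 - (LaurentPolynomial.T 1 + 2) * (LaurentPolynomial.T 1 - 1) : Lam ℤ) • a = a := by
      rw [sub_smul, mul_smul, sub_smul, ← hτ, ha, one_smul, sub_self, smul_zero, sub_zero]
    have h2 : ∀ n : ℕ, ((1 - (LaurentPolynomial.T 1 + 2) * (LaurentPolynomial.T 1 - 1)) ^ n :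
        Lam ℤ) • a = a := by
      intro n
      induction n with
      | zero => rw [pow_zero, one_smul]
      | succ n ih => rw [pow_succ, mul_smul, h1, ih]
    rw [← h2 (k + 3)]
    exact kill _ (Ideal.pow_mem_pow hm _) a

end Pool.Agent.MP_bc14e1_gt

end

section

/-! From a certificate to the twisted homology. -/

open Polynomial

namespace Pool.Agent.MP_bc14e1_gt

theorem exists_chi {a : ℂ} (ha : a ^ 4 = -1) :
    ∃ χ : AddChar (Eis (ZMod 8)) ℂ, ∀ (z : Eis (ZMod 8)) (n : ℕ), (n : ZMod 8) = z.re →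
      χ z = a ^ n := by
  have h8 : a ^ 8 = 1 := by
    rw [show 8 = 4 * 2 from rfl, pow_mul, ha]
    norm_num
  refine ⟨⟨fun z => a ^ z.re.val, by simp, fun z w => ?_⟩, fun z n hn => ?_⟩
  · rw [QuadraticAlgebra.re_add, ZMod.val_add, ← pow_eq_pow_mod _ h8, pow_add]
  · change a ^ z.re.val = a ^ n
    rw [← hn, ZMod.val_natCast, ← pow_eq_pow_mod _ h8]

theorem Tw_div (χ : AddChar (Eis (ZMod 8)) ℂ) (p q : Eis (ZMod 8)) : χ p / χ q = χ (p - q) :=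
  (χ.map_sub_eq_div p q).symm

theorem Tw_om (k : Fin 22) :
    ((om (ZMod 8) ^ (gapK (regK k 1) - gapK (regK k 2)) : (Eis (ZMod 8))ˣ) : Eis (ZMod 8)) =
      if epsB k then (⟨0, 1⟩ : Eis (ZMod 8)) else ⟨1, -1⟩ := by
  rw [gapK_eps]
  split_ifs
  · rw [zpow_one]
    rfl
  · rw [zpow_neg_one]
    rfl

theorem twOK_of_cert (c : NCert) (Ex : List (List ℕ)) (A : List (List (List Z8))) (T : Tab)
    (h : tabOK Ex A T = true) (h₁ : c.chk₁ = true) (h₂ : c.chk₂ = true)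
    (h₃ : c.chk₃ (en₂ A) = true) (h₄ : c.chk₄ (en₂ A) = true) (x y : Eis (ZMod 8))
    (hE : exOK Ex x y) : ∃ χ, TwOK regK gapK χ (col8 x y) := by
  obtain ⟨a, s₀, ha, hn, hne, ⟨u, hu, hAu⟩, ⟨B, D, hB, hD⟩, hr⟩ :=
    good_of_cert c (en₂ A) h₁ h₂ h₃ h₄
  obtain ⟨χ, hχ⟩ := exists_chi ha
  obtain ⟨c1, c2, c3⟩ := col8_col x y
  have hw := wok_of_col χ c1 (R0 := 22) (R1 := 19) rfl rfl gapK_quad c2 c3
  have hWE : WE (fun r n => χ ((om (ZMod 8) ^ n : (Eis (ZMod 8))ˣ) * col8 x y r)) a Ex := by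
    intro k j
    rw [Tw_div]
    refine hχ _ _ ((hE k j).trans (congrArg QuadraticAlgebra.re ?_))
    rw [zpow_add, Units.val_mul, Tw_om, zpow_natCast, Units.val_pow_eq_pow_val, mul_sub, mul_assoc]
    rfl
  have h0 : s₀ ≠ 0 := fun e => by simp [e] at hn
  have h1 : s₀ ≠ 1 := by simpa using hne 0
  obtain ⟨φ, p1, p2, p3⟩ := tab_fun h ha hw hWE h0 hu hAu
  refine ⟨χ, fun j => ?_⟩
  obtain ⟨v, v1, v2, v3, v4, v5⟩ := abs_len1 (shT (Fin 24) 6) _ _ _ hw.sh_ker hw.sh_range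
    (fun v hv => (hw.sh_WT v).2 hv) le_sup_left hw.ker_inf hw.sh_sub h1 h0
    (N := 2 ^ j) (by positivity) (hD j) (tab_kill h ha hw hWE hB) (genK 11)
    (tab_rank h ha hw hWE h0 hr) φ p1 p2 p3
  have e : shT (Fin 24) 6 ^ 2 ^ j - s₀ ^ 2 ^ j • (1 : Module.End ℂ _) =
      piT (Fin 24) (6 * 2 ^ j) (s₀ ^ 2 ^ j) := by
    rw [shT_pow, piT]
    push_cast
    rfl
  rw [e] at v2 v4 v5
  refine ⟨⟨s₀ ^ 2 ^ j, mem_sphere_zero_iff_norm.2 (by rw [norm_pow, hn, one_pow])⟩,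
    fun e1 => hne j (congrArg Subtype.val e1), v, v1, v2, v3, v4, fun z hz => ?_⟩
  obtain ⟨μ, z', q1, q2⟩ := v5 z hz
  exact ⟨μ, z', q1, q2⟩

end Pool.Agent.MP_bc14e1_gt

end

section

/-! The twisted homology on all invariant lines. -/

namespace Pool.Agent.MP_bc14e1_gt

/-- The inverse of `1 + 2 ω` modulo eight. -/
def uA : (Eis (ZMod 8))ˣ := ⟨⟨5, 2⟩, ⟨1, 2⟩, by decide +kernel, by decide +kernel⟩

/-- The inverse of `1 + 3 ω` modulo eight. -/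
def uB : (Eis (ZMod 8))ˣ := ⟨⟨4, 1⟩, ⟨1, 3⟩, by decide +kernel, by decide +kernel⟩

theorem twOK_of_unit (u : (Eis (ZMod 8))ˣ) {x y : Eis (ZMod 8)}
    (h : ∃ χ, TwOK regK gapK χ (col8 (u.inv * x) (u.inv * y))) :
    ∃ χ, TwOK regK gapK χ (col8 x y) := by
  have := twOK_unit u _ _ h
  rwa [← mul_assoc, ← mul_assoc, show (u : Eis (ZMod 8)) * u.inv = 1 from u.val_inv, one_mul,
    one_mul] at this

theorem line00 : ∃ χ, TwOK regK gapK χ (col8 ⟨2 * 1, -1⟩ ⟨0, 0⟩) :=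
  twOK_of_unit uB (twOK_of_cert ce00 ex00 am00 _ tab00 chk₁_00 chk₂_00 chk₃_00 chk₄_00 _ _
    (by decide +kernel))

theorem line01 : ∃ χ, TwOK regK gapK χ (col8 ⟨2 * 1, -1⟩ ⟨1, 0⟩) :=
  twOK_of_unit uB (twOK_of_cert ce01 ex01 am01 _ tab01 chk₁_01 chk₂_01 chk₃_01 chk₄_01 _ _
    (by decide +kernel))

theorem line02 : ∃ χ, TwOK regK gapK χ (col8 ⟨2 * 1, -1⟩ ⟨2, 0⟩) :=
  twOK_of_unit uA (twOK_of_cert ce02 ex02 am02 _ tab02 chk₁_02 chk₂_02 chk₃_02 chk₄_02 _ _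
    (by decide +kernel))

theorem line03 : ∃ χ, TwOK regK gapK χ (col8 ⟨2 * 1, -1⟩ ⟨3, 0⟩) :=
  twOK_of_unit uB (twOK_of_cert ce03 ex03 am03 _ tab03 chk₁_03 chk₂_03 chk₃_03 chk₄_03 _ _
    (by decide +kernel))

theorem line04 : ∃ χ, TwOK regK gapK χ (col8 ⟨2 * 1, -1⟩ ⟨4, 0⟩) :=
  twOK_of_unit uA (twOK_of_cert ce04 ex04 am04 _ tab04 chk₁_04 chk₂_04 chk₃_04 chk₄_04 _ _
    (by decide +kernel))

theorem line05 : ∃ χ, TwOK regK gapK χ (col8 ⟨2 * 1, -1⟩ ⟨5, 0⟩) :=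
  twOK_of_unit uA (twOK_of_cert ce05 ex05 am05 _ tab05 chk₁_05 chk₂_05 chk₃_05 chk₄_05 _ _
    (by decide +kernel))

theorem line06 : ∃ χ, TwOK regK gapK χ (col8 ⟨2 * 1, -1⟩ ⟨6, 0⟩) :=
  twOK_of_unit uB (twOK_of_cert ce06 ex06 am06 _ tab06 chk₁_06 chk₂_06 chk₃_06 chk₄_06 _ _
    (by decide +kernel))

theorem line07 : ∃ χ, TwOK regK gapK χ (col8 ⟨2 * 1, -1⟩ ⟨7, 0⟩) :=
  twOK_of_unit uB (twOK_of_cert ce07 ex07 am07 _ tab07 chk₁_07 chk₂_07 chk₃_07 chk₄_07 _ _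
    (by decide +kernel))

theorem line08 : ∃ χ, TwOK regK gapK χ (col8 ⟨2 * 0, -0⟩ ⟨1, 0⟩) :=
  twOK_of_unit uA (twOK_of_cert ce08 ex08 am08 _ tab08 chk₁_08 chk₂_08 chk₃_08 chk₄_08 _ _
    (by decide +kernel))

theorem line09 : ∃ χ, TwOK regK gapK χ (col8 ⟨2 * 2, -2⟩ ⟨1, 0⟩) :=
  twOK_of_unit uB (twOK_of_cert ce09 ex09 am09 _ tab09 chk₁_09 chk₂_09 chk₃_09 chk₄_09 _ _
    (by decide +kernel))

theorem line10 : ∃ χ, TwOK regK gapK χ (col8 ⟨2 * 4, -4⟩ ⟨1, 0⟩) :=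
  twOK_of_unit uA (twOK_of_cert ce10 ex10 am10 _ tab10 chk₁_10 chk₂_10 chk₃_10 chk₄_10 _ _
    (by decide +kernel))

theorem line11 : ∃ χ, TwOK regK gapK χ (col8 ⟨2 * 6, -6⟩ ⟨1, 0⟩) :=
  twOK_of_unit uA (twOK_of_cert ce11 ex11 am11 _ tab11 chk₁_11 chk₂_11 chk₃_11 chk₄_11 _ _
    (by decide +kernel))

theorem tw_all (a b : Eis (ZMod 8)) (hu : IsUnit a ∨ IsUnit b)
    (hJ : JComp gapK iotR (col8 a b)) : ∃ χ, TwOK regK gapK χ (col8 a b) := by
  obtain ⟨u, m, n, h, rfl, rfl⟩ := jcomp_lines a b hu hJ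
  refine twOK_unit u _ _ ?_
  rcases h with rfl | ⟨rfl, rfl | rfl | rfl | rfl⟩
  · have : ∀ n : ZMod 8, n = 0 ∨ n = 1 ∨ n = 2 ∨ n = 3 ∨ n = 4 ∨ n = 5 ∨ n = 6 ∨ n = 7 := by
      decide
    rcases this n with rfl | rfl | rfl | rfl | rfl | rfl | rfl | rfl
    exacts [line00, line01, line02, line03, line04, line05, line06, line07]
  exacts [line08, line09, line10, line11]

end Pool.Agent.MP_bc14e1_gt

end

section

/-! The knot and its certificate. -/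

open Set Metric

namespace Pool.Agent.MP_bc14e1_gt

theorem cert_K : Nonempty (Cert regK iotR) :=
  ⟨{ gap := gapK
     R0 := 22
     R1 := 19
     g0 := rfl
     g1 := rfl
     gρ := ⟨3, gapK_iotR⟩
     gapU := gapK_univ
     c1 := colA
     c2 := colB
     col1 := colA_col
     col2 := colB_col
     colZ := col_univ
     len2 := len2_K
     tw := tw_all
     ex := by
      obtain ⟨χ, h⟩ := line08
      refine ⟨0, 1, χ, ?_⟩
      have e : (fun r => red8 (0 * colA r + 1 * colB r)) = col8 ⟨2 * 0, -0⟩ ⟨1, 0⟩ := by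
        funext r
        rw [red8_comb]
        congr 1
      rwa [e] }⟩

theorem knot_stmt : KnotStmt := by
  obtain ⟨K, hK, hodd, R₀, h0, hfar⟩ := exists_longKnot
  have hD := exists_dehn
  rw [← hK] at hD
  obtain ⟨D, hD⟩ := hD
  refine ⟨K, iotE, Fin 24, Fin 22, inferInstance, inferInstance, regK, iotR, D,
    slice_sum K hodd h0 hfar, fun x => by rw [iotE_apply, iotE_apply, iot_iot], iotE_det, ?_, ?_,
    hD, cert_K⟩
  · rw [hK, iotE_image]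
  · rw [hK]
    intro x hx
    rw [iotE_apply]
    exact iot_ne hx

theorem closeUp_subset_sphere (f : ℝ → E 3) : closeUp f ⊆ sphere 0 1 := by
  have key (v : E 4) (h : v 0 ^ 2 + v 1 ^ 2 + v 2 ^ 2 + v 3 ^ 2 = 1) : v ∈ sphere (0 : E 4) 1 := by
    rw [mem_sphere_zero_iff_norm, EuclideanSpace.norm_eq, Real.sqrt_eq_one, Fin.sum_univ_four]
    simpa using h
  rintro _ (rfl | ⟨t, rfl⟩)
  · exact key _ (by simp)
  · refine key _ ?_
    have h : ‖f t‖ ^ 2 = f t 0 ^ 2 + f t 1 ^ 2 + f t 2 ^ 2 := by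
      rw [EuclideanSpace.norm_sq_eq, Fin.sum_univ_three]
      simp
    have h1 : (1 + ‖f t‖ ^ 2) ≠ 0 := by positivity
    simp only [stereoInv, PiLp.smul_apply, smul_eq_mul, Matrix.cons_val_zero, Matrix.cons_val_one,
      Matrix.cons_val]
    field_simp
    rw [h]
    ring

theorem sliceZero_stmt : SliceZeroStmt := fun _ hK h => zeroSign_of_slice hK h 1

end Pool.Agent.MP_bc14e1_gt

end

section

/-! The assembly of all steps. -/

open Set Metric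

namespace Pool.Agent.MP_bc14e1_gt

theorem ok_Kit : KitStmt :=
  kit_stmt

theorem ok_Ctr : CtrStmt :=
  ctr_stmt ok_Kit.some

theorem ok_LocHom : LocHomStmt :=
  locHom_stmt ok_Kit.some ok_Ctr

theorem ok_Flat : FlatStmt :=
  flat_stmt

theorem ok_Cov : CovStmt :=
  cov_stmt

theorem ok_HL : HLStmt :=
  hl_stmt ok_Cov

theorem ok_Sec : SecStmt :=
  sec_stmt ok_Cov ok_HL

theorem ok_Lift : LiftStmt :=
  lift_stmt ok_Cov

theorem ok_Tf : TfStmt :=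
  tf_stmt

theorem ok_Tr : TrStmt :=
  tr_stmt ok_Cov ok_Lift

theorem ok_Laur : LaurStmt :=
  laur_stmt

theorem ok_Lam : LamStmt :=
  lam_stmt ok_Cov ok_Laur

theorem ok_bas1 : Bas1 :=
  ⟨ok_Kit, ok_Ctr, ok_LocHom, ok_Flat, ok_Cov, ok_HL, ok_Sec, ok_Lift, ok_Tf, ok_Tr, ok_Laur, ok_Lam⟩

theorem ok_LocCtr : LocCtrStmt :=
  locCtr_stmt

theorem ok_ExCov : ExCovStmt :=
  exCov_stmt ok_bas1

theorem ok_P1a : P1aStmt :=
  p1a_stmt ok_bas1

theorem ok_Pack1 : Pack1Stmt :=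
  pack1_stmt ok_bas1 ok_LocCtr ok_ExCov ok_P1a

theorem ok_P2a : P2aStmt :=
  p2a_stmt ok_bas1

theorem ok_Pack2 : Pack2Stmt :=
  pack2_stmt ok_bas1 ok_LocCtr ok_ExCov ok_P2a

theorem ok_LocDeg : LocDegStmt :=
  locDeg_stmt ok_bas1

theorem ok_LABase : LABaseStmt :=
  laBase_stmt ok_bas1

theorem ok_LAMV : LAMVStmt :=
  laMV_stmt ok_bas1

theorem ok_LemA : LemAStmt :=
  lemA_stmt ok_LABase ok_LAMV

theorem ok_Dia : DiaStmt :=
  dia_stmt ok_bas1 ok_LocCtr ok_LemA ok_LocDeg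

theorem ok_ThBase : ThBaseStmt :=
  thBase_stmt ok_bas1 ok_LocCtr ok_LocDeg

theorem ok_ThMV : ThMVStmt :=
  thMV_stmt ok_bas1 ok_LocDeg ok_Dia

theorem ok_ThomEx : ThomExStmt :=
  thomEx_stmt ok_bas1 ok_LocDeg ok_ThBase ok_ThMV

theorem ok_ThomInv : ThomInvStmt :=
  thomInv_stmt ok_bas1 ok_LocDeg ok_Dia ok_ThomEx

theorem ok_Eta : EtaStmt :=
  eta_stmt ok_bas1 ok_Dia

theorem ok_Swap : SwapStmt :=
  swap_stmt ok_bas1 ok_LocCtr ok_LocDeg ok_Dia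

theorem ok_PairA : PairAStmt :=
  pairA_stmt ok_bas1

theorem ok_Pair : PairStmt :=
  pair_stmt ok_bas1 ok_LocDeg ok_Dia ok_Eta ok_Swap ok_PairA

theorem ok_FGMV : FGMVStmt :=
  fgMV_stmt ok_bas1

theorem ok_FGCtr : FGCtrStmt :=
  fgCtr_stmt ok_bas1

theorem ok_FGOff : FGOffStmt :=
  fgOff_stmt ok_bas1 ok_FGMV ok_FGCtr

theorem ok_FGRot : FGRotStmt :=
  fgRot_stmt ok_bas1 ok_FGMV ok_FGOff

theorem ok_FG : FGStmt :=
  fg_stmt ok_bas1 ok_FGMV ok_FGOff ok_FGRot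

theorem ok_Rot : RotStmt :=
  rot_stmt ok_bas1

theorem ok_Inv : InvStmt :=
  inv_stmt ok_bas1 ok_LocDeg ok_Dia ok_Eta ok_PairA

theorem ok_Comp : CompStmt :=
  comp_stmt ok_bas1 ok_LocCtr ok_LemA ok_LocDeg ok_PairA

theorem ok_Inter : InterStmt :=
  inter_stmt ok_bas1 ok_PairA

theorem ok_PA : PAStmt :=
  pa_stmt ok_bas1 ok_Rot

theorem ok_bas2 : Bas2 :=
  ⟨ok_bas1, ok_LemA, ok_Rot, ok_ThomEx, ok_ThomInv, ok_Pair, ok_Inv, ok_Comp, ok_Inter, ok_FG, ok_PA⟩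

theorem ok_Frob : FrobStmt :=
  frob_stmt ok_Laur

theorem ok_PP : PPStmt :=
  pp_stmt ok_bas1

theorem ok_Fam : FamStmt :=
  fam_stmt ok_bas1 ok_LocCtr

theorem ok_MVi : MViStmt :=
  mvi_stmt

theorem ok_MVs : MVsStmt :=
  mvs_stmt

theorem ok_Base1H : Base1HStmt :=
  base1H_stmt ok_bas1 ok_LocDeg

theorem ok_Base1 : Base1Stmt :=
  base1_stmt ok_bas1 ok_Fam ok_Base1H

theorem ok_PD1 : PD1Stmt :=
  pd1_stmt ok_bas1 ok_LocCtr ok_Fam ok_MVi ok_MVs ok_Base1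

theorem ok_Base2 : Base2Stmt :=
  base2_stmt ok_bas1 ok_Rot

theorem ok_PD2 : PD2Stmt :=
  pd2_stmt ok_bas1 ok_Fam ok_MVi ok_MVs ok_PD1 ok_Base2

theorem ok_Uni : UniStmt :=
  uni_stmt ok_bas2 ok_Frob ok_PP ok_PD2

theorem ok_Drop : DropStmt :=
  drop_stmt

theorem ok_Rank1 : Rank1Stmt :=
  rank1_stmt ok_bas2 ok_Drop

theorem ok_RkAlg : RkAlgStmt :=
  rkAlg_stmt

theorem ok_Rank2a : Rank2aStmt :=
  rank2a_stmt ok_bas1 ok_Drop

theorem ok_Rank2 : Rank2Stmt :=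
  rank2_stmt ok_bas2 ok_RkAlg ok_Rank2a

theorem ok_LiftZ : LiftZStmt :=
  liftZ_stmt ok_bas2

theorem ok_Herm : HermStmt :=
  herm_stmt

theorem ok_PsdAlg : PsdAlgStmt :=
  psdAlg_stmt ok_Laur ok_Herm

theorem ok_Psd1 : Psd1Stmt :=
  psd1_stmt ok_bas2 ok_Uni ok_Rank1 ok_Rank2 ok_LiftZ ok_PsdAlg

theorem ok_RankD : RankDStmt :=
  rankD_stmt ok_bas1 ok_RkAlg

theorem ok_Rank3 : Rank3Stmt :=
  rank3_stmt ok_bas1 ok_RkAlg ok_RankD

theorem ok_Gen : GenStmt :=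
  gen_stmt ok_Laur

theorem ok_Root : RootStmt :=
  root_stmt ok_Laur

theorem ok_Pos0 : Pos0Stmt :=
  pos0_stmt ok_bas2 ok_Root

theorem ok_Dim : DimStmt :=
  dim_stmt ok_bas1

theorem ok_Kap : KapStmt :=
  kap_stmt ok_bas2 ok_LocCtr

theorem ok_Sard : SardStmt :=
  sard_stmt

theorem ok_Trans : TransStmt :=
  trans_stmt ok_Sard

theorem ok_Fn : FnStmt :=
  fn_stmt ok_bas2 ok_LocCtr ok_Kap ok_Trans

theorem ok_Push1 : Push1Stmt :=
  push1_stmt ok_bas1 ok_Fam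

theorem ok_Push : PushStmt :=
  push_stmt ok_bas1 ok_Push1

theorem ok_Inj0 : Inj0Stmt :=
  inj0_stmt ok_bas1 ok_Frob ok_PP ok_PD1

theorem ok_Nov : NovStmt :=
  nov_stmt ok_bas2 ok_Fam ok_Fn ok_Push ok_Inj0

theorem ok_Tower : TowerStmt :=
  tower_stmt

theorem ok_Psd2 : Psd2Stmt :=
  psd2_stmt ok_bas2 ok_Rank1 ok_Rank2 ok_Rank3 ok_Gen ok_Pos0 ok_Dim ok_Nov ok_Tower

theorem ok_XP : XPStmt :=
  xp_stmt ok_bas2

theorem ok_Dehn : DehnStmt :=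
  dehn_stmt ok_bas1

theorem ok_DehnSym : DehnSymStmt :=
  dehnSym_stmt ok_bas1

theorem ok_DehnPush : DehnPushStmt :=
  dehnPush_stmt

theorem ok_Retr : RetrStmt :=
  retr_stmt ok_bas1

theorem ok_PDI : PDIStmt :=
  pdi_stmt ok_bas1 ok_Frob ok_PP ok_PD2

theorem ok_AS : ASStmt :=
  as_stmt ok_bas2 ok_Retr ok_PDI

theorem ok_Key : KeyStmt :=
  key_stmt ok_Laur

theorem ok_Pk : PkStmt :=
  pk_stmt ok_Laur ok_Key

theorem ok_NS : NSStmt :=
  ns_stmt ok_Laur ok_Key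

theorem ok_Her : HerStmt :=
  her_stmt ok_Laur ok_Key

theorem ok_Iso : IsoStmt :=
  iso_stmt ok_Laur ok_Key ok_Her

theorem ok_Skew : SkewStmt :=
  skew_stmt ok_Laur ok_Key ok_Her

theorem ok_A3 : A3Stmt :=
  a3_stmt ok_Laur ok_Pk ok_NS ok_Iso ok_Skew

theorem ok_Restr : RestrStmt :=
  restr_stmt

theorem ok_Co : CoStmt :=
  co_stmt ok_Laur ok_Key

theorem ok_Clash : ClashStmt :=
  clash_stmt ok_Laur ok_Restr ok_Co ok_Pk ok_NS ok_Iso

theorem ok_Flip : FlipStmt :=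
  flip_stmt

theorem ok_Norm1 : Norm1Stmt :=
  norm1_stmt ok_bas1 ok_Dehn

theorem ok_H0 : H0Stmt :=
  h0_stmt

theorem ok_Len2 : Len2Stmt :=
  len2_stmt

theorem ok_J : JStmt :=
  j_stmt ok_bas2

theorem ok_Col : ColStmt :=
  col_stmt

theorem ok_Ext : ExtStmt :=
  ext_stmt ok_Laur

theorem ok_Alpha : AlphaStmt :=
  alpha_stmt ok_Ext

theorem ok_Norm2 : Norm2Stmt :=
  norm2_stmt ok_bas1

theorem ok_Len1 : Len1Stmt :=
  len1_stmt

theorem ok_Glue : GlueStmt :=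
  glue_stmt

theorem ok_GTop : GTopStmt :=
  gTop_stmt

theorem ok_GMan : GManStmt :=
  gMan_stmt

theorem ok_Refl : ReflStmt :=
  refl_stmt ok_bas1

theorem ok_InvDeg : InvDegStmt :=
  invDeg_stmt ok_bas1 ok_Refl

theorem ok_ChOri : ChOriStmt :=
  chOri_stmt ok_bas1

theorem ok_OriGlue : OriGlueStmt :=
  oriGlue_stmt

theorem ok_GOri : GOriStmt :=
  gOri_stmt ok_bas1 ok_InvDeg ok_ChOri ok_OriGlue

theorem ok_Imm : ImmStmt :=
  imm_stmt

theorem ok_Seam : SeamStmt :=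
  seam_stmt

theorem ok_FlatW : FlatWStmt :=
  flatW_stmt ok_Imm ok_Seam

theorem ok_DiscW : DiscWStmt :=
  discW_stmt

theorem ok_Hur : HurStmt :=
  hur_stmt ok_bas1

theorem ok_HomW : HomWStmt :=
  homW_stmt ok_bas1 ok_Hur

theorem ok_GNum : GNumStmt :=
  gNum_stmt ok_bas2 ok_LocDeg

theorem ok_Dbl : DblStmt :=
  dbl_stmt ok_Glue ok_GTop ok_GMan ok_GOri ok_FlatW ok_DiscW ok_HomW ok_GNum

theorem ok_Neg : NegStmt :=
  neg_stmt

theorem ok_Obs : ObsStmt :=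
  obs_stmt ok_Pack1 ok_Pack2 ok_ThomInv ok_Pair ok_Lam ok_FG ok_Psd1 ok_Psd2 ok_XP ok_Dehn ok_DehnSym ok_DehnPush
    ok_AS ok_A3 ok_Clash ok_Flip ok_Norm1 ok_H0 ok_Len2 ok_J ok_Col ok_Alpha ok_Norm2 ok_Len1

end Pool.Agent.MP_bc14e1_gt

end
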